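import Mathlib

section

set_option autoImplicit false

namespace Pool.Agent.MP_39fec4_gt

open MeasureTheory Set Finset

/-- Arithmetic-geometric mean inequality in power form. -/
theorem prod_le_mean_pow {n : ℕ} (hn : 0 < n) (z : Fin n → ℝ) (hz : ∀ j, 0 ≤ z j) :
    ∏ j, z j ≤ ((∑ j, z j) / n) ^ n := by
  have hn' : (0 : ℝ) < n := by exact_mod_cast hn
  have h := Real.geom_mean_le_arith_mean_weighted (Finset.univ : Finset (Fin n))
    (fun _ => (1 : ℝ) / n) z (fun _ _ => by positivity)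
    (by simp; field_simp) (fun j _ => hz j)
  have h1 : ∏ j, z j = (∏ j, z j ^ ((1 : ℝ) / n)) ^ n := by
    rw [← Finset.prod_pow]
    refine Finset.prod_congr rfl fun j _ => ?_
    rw [← Real.rpow_natCast, ← Real.rpow_mul (hz j)]
    simp [hn'.ne']
  rw [h1]
  refine pow_le_pow_left₀ (Finset.prod_nonneg fun j _ => Real.rpow_nonneg (hz j) _) ?_ n
  refine h.trans (le_of_eq ?_)
  rw [← Finset.mul_sum]; ring

theorem prod_sub_pow_aux {ι : Type*} [DecidableEq ι] (S : Finset ι) (z : ι → ℝ) (w : ℝ)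
    (hz : ∀ j, |z j| ≤ 1) (hw : |w| ≤ 1) :
    |∏ j ∈ S, z j - w ^ S.card| ≤ ∑ j ∈ S, |z j - w| ∧
    |∏ j ∈ S, z j - w ^ S.card - w ^ (S.card - 1) * ∑ j ∈ S, (z j - w)| ≤
      (∑ j ∈ S, |z j - w|) ^ 2 / 2 := by
  induction S using Finset.induction_on with
  | empty => simp
  | insert a S ha ih =>
    obtain ⟨ih1, ih2⟩ := ih
    rw [Finset.prod_insert ha, Finset.sum_insert ha, Finset.sum_insert ha,
      Finset.card_insert_of_notMem ha]
    have hP : |∏ j ∈ S, z j| ≤ 1 := by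
      rw [Finset.abs_prod]
      exact Finset.prod_le_one (fun _ _ => abs_nonneg _) (fun j _ => hz j)
    have hS : 0 ≤ ∑ j ∈ S, |z j - w| := Finset.sum_nonneg fun _ _ => abs_nonneg _
    constructor
    · have : z a * ∏ j ∈ S, z j - w ^ (S.card + 1) =
          (z a - w) * ∏ j ∈ S, z j + w * (∏ j ∈ S, z j - w ^ S.card) := by ring
      rw [this]
      refine (abs_add_le _ _).trans ?_
      rw [abs_mul, abs_mul]
      have h1 : |z a - w| * |∏ j ∈ S, z j| ≤ |z a - w| :=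
        mul_le_of_le_one_right (abs_nonneg _) hP
      have h2 : |w| * |∏ j ∈ S, z j - w ^ S.card| ≤ |∏ j ∈ S, z j - w ^ S.card| :=
        mul_le_of_le_one_left (abs_nonneg _) hw
      linarith
    · have key : w * (w ^ (S.card - 1) * ∑ j ∈ S, (z j - w)) =
          w ^ S.card * ∑ j ∈ S, (z j - w) := by
        rcases Nat.eq_zero_or_pos S.card with h0 | h0
        · rw [Finset.card_eq_zero] at h0; subst h0; simp
        · obtain ⟨k, hk⟩ : ∃ k, S.card = k + 1 := ⟨S.card - 1, by omega⟩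
          rw [hk]; simp only [Nat.add_sub_cancel]; ring
      have : z a * ∏ j ∈ S, z j - w ^ (S.card + 1) -
          w ^ (S.card + 1 - 1) * (z a - w + ∑ j ∈ S, (z j - w)) =
          w * (∏ j ∈ S, z j - w ^ S.card - w ^ (S.card - 1) * ∑ j ∈ S, (z j - w)) +
          (z a - w) * (∏ j ∈ S, z j - w ^ S.card) := by
        simp only [Nat.add_sub_cancel]
        rw [mul_sub w, key]; ring
      rw [this]
      refine (abs_add_le _ _).trans ?_
      rw [abs_mul, abs_mul]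
      have h1 := mul_le_mul hw ih2 (abs_nonneg _) zero_le_one
      have h2 := mul_le_mul_of_nonneg_left ih1 (abs_nonneg (z a - w))
      nlinarith [abs_nonneg (z a - w), sq_nonneg (|z a - w|)]

/-- Second order comparison of a product with a power. -/
theorem prod_sub_pow_le {n : ℕ} (hn : 2 ≤ n) (y : Fin n → ℝ) (w ε : ℝ) (hε : 0 < ε)
    (hy : ∀ j, |y j| ≤ ε) (hw : |w| ≤ ε) :
    ∏ j, y j - w ^ n ≤ |w| * ε ^ (n - 2) * |∑ j, (y j - w)| +
      ε ^ (n - 2) * (n * ∑ j, (y j - w) ^ 2) / 2 := by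
  obtain ⟨k, rfl⟩ : ∃ k, n = k + 2 := ⟨n - 2, by omega⟩
  simp only [Nat.add_sub_cancel]
  have h := (prod_sub_pow_aux (Finset.univ : Finset (Fin (k + 2))) (fun j => y j / ε) (w / ε)
    (fun j => by rw [abs_div, abs_of_pos hε, div_le_one hε]; exact hy j)
    (by rw [abs_div, abs_of_pos hε, div_le_one hε]; exact hw)).2
  simp only [Finset.card_univ, Fintype.card_fin] at h
  have e1 : ∏ j, y j / ε = (∏ j, y j) / ε ^ (k + 2) := by
    rw [Finset.prod_div_distrib]; simp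
  have e2 : ∑ j, (y j / ε - w / ε) = (∑ j, (y j - w)) / ε := by
    rw [Finset.sum_div]; exact Finset.sum_congr rfl fun j _ => by ring
  have e3 : ∑ j, |y j / ε - w / ε| = (∑ j, |y j - w|) / ε := by
    rw [Finset.sum_div]
    exact Finset.sum_congr rfl fun j _ => by rw [← sub_div, abs_div, abs_of_pos hε]
  rw [e1, e2, e3] at h
  have hcs : (∑ j, |y j - w|) ^ 2 ≤ ((k + 2 : ℕ) : ℝ) * ∑ j, (y j - w) ^ 2 := by
    have := sq_sum_le_card_mul_sum_sq (s := (Finset.univ : Finset (Fin (k + 2))))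
      (f := fun j => |y j - w|)
    simpa [sq_abs] using this
  have h' := (abs_le.1 h).2
  have hp : 0 < ε ^ (k + 2) := by positivity
  have e4 : k + 2 - 1 = k + 1 := by omega
  rw [e4] at h'
  have h2 : ∏ j, y j - w ^ (k + 2) - w ^ (k + 1) * ∑ j, (y j - w) ≤
      ε ^ k * (∑ j, |y j - w|) ^ 2 / 2 := by
    have := mul_le_mul_of_nonneg_left h' hp.le
    have e5 : ε ^ (k + 2) * ((∏ j, y j) / ε ^ (k + 2) - (w / ε) ^ (k + 2) -
        (w / ε) ^ (k + 1) * ((∑ j, (y j - w)) / ε)) =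
        ∏ j, y j - w ^ (k + 2) - w ^ (k + 1) * ∑ j, (y j - w) := by
      rw [div_pow, div_pow]; field_simp; ring
    have e6 : ε ^ (k + 2) * (((∑ j, |y j - w|) / ε) ^ 2 / 2) =
        ε ^ k * (∑ j, |y j - w|) ^ 2 / 2 := by
      field_simp; ring
    rwa [e5, e6] at this
  have h3 : w ^ (k + 1) * ∑ j, (y j - w) ≤ |w| * ε ^ k * |∑ j, (y j - w)| := by
    refine (le_abs_self _).trans ?_
    rw [abs_mul, abs_pow, pow_succ']
    exact mul_le_mul_of_nonneg_right (mul_le_mul_of_nonneg_left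
      (pow_le_pow_left₀ (abs_nonneg _) hw k) (abs_nonneg _)) (abs_nonneg _)
  have h4 : ε ^ k * (∑ j, |y j - w|) ^ 2 / 2 ≤
      ε ^ k * (((k + 2 : ℕ) : ℝ) * ∑ j, (y j - w) ^ 2) / 2 := by
    gcongr
  linarith

theorem pow_four_mul_le {n : ℕ} (hn : 2 ≤ n) {ε : ℝ} (hε : 0 ≤ ε) (h16 : ε ≤ 1 / 16) :
    (n : ℝ) ^ 4 * ε ^ (n - 2) ≤ 16 := by
  obtain ⟨k, rfl⟩ : ∃ k, n = k + 2 := ⟨n - 2, by omega⟩
  simp only [Nat.add_sub_cancel]
  have h1 : ((k + 2 : ℕ) : ℝ) ≤ 2 * 2 ^ k := by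
    have : k + 2 ≤ 2 * 2 ^ k := by
      have := Nat.lt_two_pow_self (n := k)
      omega
    exact_mod_cast this
  have h2 : ((k + 2 : ℕ) : ℝ) ^ 4 ≤ 16 * 16 ^ k := by
    calc ((k + 2 : ℕ) : ℝ) ^ 4 ≤ (2 * 2 ^ k) ^ 4 := by gcongr
      _ = 16 * 16 ^ k := by rw [mul_pow, ← pow_mul, mul_comm k 4, pow_mul]; norm_num
  have h3 : ε ^ k ≤ (1 / 16) ^ k := pow_le_pow_left₀ hε h16 k
  calc ((k + 2 : ℕ) : ℝ) ^ 4 * ε ^ k ≤ (16 * 16 ^ k) * (1 / 16) ^ k := by gcongr
    _ = 16 := by rw [mul_assoc, ← mul_pow]; norm_num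

theorem cube_mul_rpow_le {v ε : ℝ} (hv : 2 ≤ v) (hε : 0 < ε) (h16 : ε ≤ 1 / 16) :
    v ^ 3 * ε ^ (v - 1) ≤ 8 * ε := by
  have h1 : ε ^ (v - 1) = ε * ε ^ (v - 2) := by
    rw [show v - 1 = 1 + (v - 2) by ring, Real.rpow_add hε, Real.rpow_one]
  have h2 : ε ^ (v - 2) ≤ Real.exp (-(3 / 2) * (v - 2)) := by
    rw [Real.rpow_def_of_pos hε]
    apply Real.exp_le_exp.2
    have : Real.log ε ≤ -(3 / 2) := by
      rw [Real.log_le_iff_le_exp hε]
      refine h16.trans ?_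
      have h3 : Real.exp (3 / 2) ≤ 16 := by
        have := Real.exp_one_lt_d9
        have h4 : Real.exp (3 / 2) ≤ Real.exp 1 * Real.exp 1 := by
          rw [← Real.exp_add]; exact Real.exp_le_exp.2 (by norm_num)
        nlinarith [Real.exp_pos 1]
      rw [Real.exp_neg, one_div]
      exact inv_anti₀ (Real.exp_pos _) h3
    nlinarith
  have h3 : (v / 2) ^ 3 ≤ Real.exp (3 / 2 * (v - 2)) := by
    have h4 : v / 2 ≤ Real.exp ((v - 2) / 2) := by
      have := Real.add_one_le_exp ((v - 2) / 2); linarith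
    calc (v / 2) ^ 3 ≤ Real.exp ((v - 2) / 2) ^ 3 := by gcongr
      _ = Real.exp (3 / 2 * (v - 2)) := by rw [← Real.exp_nat_mul]; congr 1; push_cast; ring
  have h5 : Real.exp (3 / 2 * (v - 2)) * Real.exp (-(3 / 2) * (v - 2)) = 1 := by
    rw [← Real.exp_add]; simp
  have h6 : v ^ 3 * ε ^ (v - 2) ≤ 8 := by
    calc v ^ 3 * ε ^ (v - 2) = 8 * ((v / 2) ^ 3 * ε ^ (v - 2)) := by ring
      _ ≤ 8 * (Real.exp (3 / 2 * (v - 2)) * Real.exp (-(3 / 2) * (v - 2))) := by
          gcongr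
      _ = 8 := by rw [h5]; ring
  rw [h1]; nlinarith

theorem mul_exp_neg_le {y : ℝ} : y * Real.exp (-y) ≤ 1 := by
  have h1 : y ≤ Real.exp y := by have := Real.add_one_le_exp y; linarith
  calc y * Real.exp (-y) ≤ Real.exp y * Real.exp (-y) := by gcongr
    _ = 1 := by rw [← Real.exp_add]; simp

theorem sq_mul_exp_neg_le {y : ℝ} (hy : 0 ≤ y) : y ^ 2 * Real.exp (-y) ≤ 4 := by
  have h1 := mul_exp_neg_le (y := y / 2)
  have h2 : Real.exp (-y) = Real.exp (-(y / 2)) ^ 2 := by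
    rw [← Real.exp_nat_mul]; congr 1; push_cast; ring
  have h3 : 0 ≤ y / 2 * Real.exp (-(y / 2)) := by positivity
  rw [h2]; nlinarith

/-- Integrability of a continuous bounded function with quadratic decay. -/
theorem integrableOn_of_decay {f : ℝ → ℝ} (hf : Continuous f) (h1 : ∀ s, |f s| ≤ 1)
    {K s1 : ℝ} (h2 : ∀ s, s1 ≤ s → s ^ 2 * |f s| ≤ K) : IntegrableOn f (Ioi 0) := by
  have hg : IntegrableOn (fun s : ℝ => (1 + |K| + s1 ^ 2) * (1 + s ^ 2)⁻¹) (Ioi 0) :=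
    (integrable_inv_one_add_sq.const_mul _).integrableOn
  refine hg.mono' hf.aestronglyMeasurable ?_
  refine (ae_restrict_iff' measurableSet_Ioi).2 (Filter.Eventually.of_forall fun s hs => ?_)
  have hs : 0 < s := hs
  rw [Real.norm_eq_abs, ← div_eq_mul_inv, le_div_iff₀ (by positivity)]
  have := h1 s
  rcases le_or_gt s1 s with h | h
  · have := h2 s h
    have := le_abs_self K
    nlinarith [sq_nonneg s1]
  · have : s ^ 2 ≤ s1 ^ 2 := by gcongr
    nlinarith [abs_nonneg K, abs_nonneg (f s), sq_nonneg s]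

theorem integral_Ioi_inv_sq {a : ℝ} (ha : 0 < a) :
    IntegrableOn (fun s : ℝ => 1 / s ^ 2) (Ioi a) ∧ ∫ s in Ioi a, 1 / s ^ 2 = 1 / a := by
  have h1 := integrableOn_Ioi_rpow_of_lt (a := -2) (by norm_num) ha
  have h2 := integral_Ioi_rpow_of_lt (a := -2) (by norm_num) ha
  have e : ∀ s ∈ Ioi a, s ^ (-2 : ℝ) = 1 / s ^ 2 := fun s hs => by
    have hs : 0 < s := ha.trans hs
    rw [Real.rpow_neg hs.le, one_div]; norm_num
  refine ⟨h1.congr_fun e measurableSet_Ioi, ?_⟩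
  rw [← setIntegral_congr_fun measurableSet_Ioi e, h2]
  norm_num [Real.rpow_neg_one]

/-- Lower bound for an integral from a pointwise lower bound with four pieces. -/
theorem integral_lower {D : ℝ → ℝ} (hD : IntegrableOn D (Ioi 0)) {g L1 L2 L3 S : ℝ} (hS : 0 < S)
    (h : ∀ s, 0 < s → (if 1 / 2 < s ∧ s ≤ 1 then g else 0) - (if 1 < s then L1 / s ^ 2 else 0)
      - (if s ≤ S then L2 else 0) - (if S < s then L3 / s ^ 2 else 0) ≤ D s) :
    g / 2 - L1 - L2 * S - L3 / S ≤ ∫ s in Ioi 0, D s := by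
  have i1 : IntegrableOn (fun _ : ℝ => g) (Ioc (1 / 2) 1) := by simp
  have i3 : IntegrableOn (fun _ : ℝ => L2) (Ioc 0 S) := by simp
  have i2 : IntegrableOn (fun s : ℝ => L1 * (1 / s ^ 2)) (Ioi 1) :=
    (integral_Ioi_inv_sq one_pos).1.const_mul _
  have i4 : IntegrableOn (fun s : ℝ => L3 * (1 / s ^ 2)) (Ioi S) :=
    (integral_Ioi_inv_sq hS).1.const_mul _
  have j1 := (integrable_indicator_iff measurableSet_Ioc).2 i1
  have j3 := (integrable_indicator_iff measurableSet_Ioc).2 i3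
  have j2 := (integrable_indicator_iff measurableSet_Ioi).2 i2
  have j4 := (integrable_indicator_iff measurableSet_Ioi).2 i4
  have jD := (integrable_indicator_iff measurableSet_Ioi).2 hD
  have hle := integral_mono (((j1.sub j2).sub j3).sub j4) jD (fun s => by
    simp only [Pi.sub_apply]
    rcases le_or_gt s 0 with hs | hs
    · have a1 : s ∉ Ioc (1 / 2 : ℝ) 1 := fun h => by linarith [h.1]
      have a2 : s ∉ Ioi (1 : ℝ) := fun h => by linarith [mem_Ioi.1 h]
      have a3 : s ∉ Ioc (0 : ℝ) S := fun h => by linarith [h.1]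
      have a4 : s ∉ Ioi S := fun h => by linarith [mem_Ioi.1 h]
      have a5 : s ∉ Ioi (0 : ℝ) := fun h => by linarith [mem_Ioi.1 h]
      rw [indicator_of_notMem a1, indicator_of_notMem a2, indicator_of_notMem a3,
        indicator_of_notMem a4, indicator_of_notMem a5]
      simp
    · have := h s hs
      simp only [indicator, Set.mem_Ioc, Set.mem_Ioi, hs, true_and, if_true, mul_one_div]
      exact this)
  rw [integral_sub' ((j1.sub j2).sub j3) j4, integral_sub' (j1.sub j2) j3, integral_sub' j1 j2,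
    integral_indicator measurableSet_Ioc, integral_indicator measurableSet_Ioc,
    integral_indicator measurableSet_Ioi, integral_indicator measurableSet_Ioi,
    integral_indicator measurableSet_Ioi, integral_const_mul, integral_const_mul,
    (integral_Ioi_inv_sq one_pos).2, (integral_Ioi_inv_sq hS).2] at hle
  simp only [integral_const, MeasurableSet.univ, measureReal_restrict_apply, univ_inter,
    Real.volume_real_Ioc, smul_eq_mul] at hle
  rw [max_eq_left (by norm_num), max_eq_left (by linarith)] at hle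
  have e : L3 * (1 / S) = L3 / S := by ring
  linarith

end Pool.Agent.MP_39fec4_gt

end

section

set_option autoImplicit false

namespace Pool.Agent.MP_39fec4_gt

open MeasureTheory Set Filter Topology

/-- Cosine transform on the half line. -/
noncomputable def cosT (k : ℝ → ℝ) (s : ℝ) : ℝ := ∫ x in Ioi (0 : ℝ), k x * Real.cos (s * x)

/-- Sine transform on the half line. -/
noncomputable def sinT (k : ℝ → ℝ) (s : ℝ) : ℝ := ∫ x in Ioi (0 : ℝ), k x * Real.sin (s * x)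

variable {k k' l : ℝ → ℝ}

theorem int_mul_bdd (hk : IntegrableOn k (Ioi 0)) {g : ℝ → ℝ} (hg : Continuous g)
    (h1 : ∀ x, |g x| ≤ 1) : IntegrableOn (fun x => k x * g x) (Ioi 0) :=
  hk.mul_bdd hg.aestronglyMeasurable (Eventually.of_forall h1)

theorem int_cos (hk : IntegrableOn k (Ioi 0)) (s : ℝ) :
    IntegrableOn (fun x => k x * Real.cos (s * x)) (Ioi 0) :=
  int_mul_bdd hk (by fun_prop) fun _ => Real.abs_cos_le_one _

theorem int_sin (hk : IntegrableOn k (Ioi 0)) (s : ℝ) :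
    IntegrableOn (fun x => k x * Real.sin (s * x)) (Ioi 0) :=
  int_mul_bdd hk (by fun_prop) fun _ => Real.abs_sin_le_one _

theorem cosT_congr (h : ∀ x, 0 < x → k x = l x) : cosT k = cosT l := by
  funext s
  exact setIntegral_congr_fun measurableSet_Ioi fun x hx => by simp only [h x hx]

theorem sinT_congr (h : ∀ x, 0 < x → k x = l x) : sinT k = sinT l := by
  funext s
  exact setIntegral_congr_fun measurableSet_Ioi fun x hx => by simp only [h x hx]

theorem cosT_lin (hk : IntegrableOn k (Ioi 0)) (hl : IntegrableOn l (Ioi 0)) (a b s : ℝ) :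
    cosT (fun x => a * k x + b * l x) s = a * cosT k s + b * cosT l s := by
  unfold cosT
  rw [← integral_const_mul, ← integral_const_mul, ← integral_add ((int_cos hk s).const_mul a)
    ((int_cos hl s).const_mul b)]
  congr 1; funext x; ring

theorem sinT_lin (hk : IntegrableOn k (Ioi 0)) (hl : IntegrableOn l (Ioi 0)) (a b s : ℝ) :
    sinT (fun x => a * k x + b * l x) s = a * sinT k s + b * sinT l s := by
  unfold sinT
  rw [← integral_const_mul, ← integral_const_mul, ← integral_add ((int_sin hk s).const_mul a)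
    ((int_sin hl s).const_mul b)]
  congr 1; funext x; ring

theorem sinT_zero (k : ℝ → ℝ) : sinT k 0 = 0 := by simp [sinT]

theorem cosT_zero (k : ℝ → ℝ) : cosT k 0 = ∫ x in Ioi (0 : ℝ), k x := by simp [cosT]

theorem cosT_abs (k : ℝ → ℝ) (s : ℝ) : cosT k |s| = cosT k s := by
  rcases abs_cases s with h | h
  · rw [h.1]
  · rw [h.1]; simp [cosT]

theorem hasDerivAt_cosT (hk : IntegrableOn k (Ioi 0)) (hl : IntegrableOn l (Ioi 0))
    (h : ∀ x, 0 < x → l x = x * k x) (s : ℝ) : HasDerivAt (cosT k) (-sinT l s) s := by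
  have := (hasDerivAt_integral_of_dominated_loc_of_deriv_le (μ := volume.restrict (Ioi (0 : ℝ)))
    (F := fun s x => k x * Real.cos (s * x)) (F' := fun s x => -(l x * Real.sin (s * x)))
    (bound := fun x => |l x|) (x₀ := s) (s := univ) univ_mem
    (Eventually.of_forall fun s => (int_cos hk s).aestronglyMeasurable) (int_cos hk s)
    (int_sin hl s).neg.aestronglyMeasurable
    (Eventually.of_forall fun x y _ => by
      rw [norm_neg, Real.norm_eq_abs, abs_mul]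
      exact mul_le_of_le_one_right (abs_nonneg _) (Real.abs_sin_le_one _))
    hl.abs ((ae_restrict_iff' measurableSet_Ioi).2 (Eventually.of_forall fun x hx y _ => by
      have := (((hasDerivAt_id y).mul_const x).cos).const_mul (k x)
      refine this.congr_deriv ?_
      rw [h x hx]; simp; ring))).2
  rwa [integral_neg] at this

theorem hasDerivAt_sinT (hk : IntegrableOn k (Ioi 0)) (hl : IntegrableOn l (Ioi 0))
    (h : ∀ x, 0 < x → l x = x * k x) (s : ℝ) : HasDerivAt (sinT k) (cosT l s) s :=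
  (hasDerivAt_integral_of_dominated_loc_of_deriv_le (μ := volume.restrict (Ioi (0 : ℝ)))
    (F := fun s x => k x * Real.sin (s * x)) (F' := fun s x => l x * Real.cos (s * x))
    (bound := fun x => |l x|) (x₀ := s) (s := univ) univ_mem
    (Eventually.of_forall fun s => (int_sin hk s).aestronglyMeasurable) (int_sin hk s)
    (int_cos hl s).aestronglyMeasurable
    (Eventually.of_forall fun x y _ => by
      rw [Real.norm_eq_abs, abs_mul]
      exact mul_le_of_le_one_right (abs_nonneg _) (Real.abs_cos_le_one _))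
    hl.abs ((ae_restrict_iff' measurableSet_Ioi).2 (Eventually.of_forall fun x hx y _ => by
      have := (((hasDerivAt_id y).mul_const x).sin).const_mul (k x)
      refine this.congr_deriv ?_
      rw [h x hx]; simp; ring))).2

theorem abs_integral_le {f g : ℝ → ℝ} (hg : IntegrableOn g (Ioi 0))
    (h : ∀ x, 0 < x → |f x| ≤ g x) : |∫ x in Ioi (0 : ℝ), f x| ≤ ∫ x in Ioi (0 : ℝ), g x :=
  norm_integral_le_of_norm_le (f := f) hg
    ((ae_restrict_iff' measurableSet_Ioi).2 (Eventually.of_forall fun x hx => h x hx))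

theorem abs_cosT_le {g : ℝ → ℝ} (hg : IntegrableOn g (Ioi 0)) (h : ∀ x, 0 < x → |k x| ≤ g x)
    (s : ℝ) : |cosT k s| ≤ ∫ x in Ioi (0 : ℝ), g x :=
  abs_integral_le hg fun x hx => by
    rw [abs_mul]
    exact (mul_le_of_le_one_right (abs_nonneg _) (Real.abs_cos_le_one _)).trans (h x hx)

theorem abs_sinT_le {g : ℝ → ℝ} (hg : IntegrableOn g (Ioi 0)) (h : ∀ x, 0 < x → |k x| ≤ g x)
    (s : ℝ) : |sinT k s| ≤ ∫ x in Ioi (0 : ℝ), g x :=
  abs_integral_le hg fun x hx => by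
    rw [abs_mul]
    exact (mul_le_of_le_one_right (abs_nonneg _) (Real.abs_sin_le_one _)).trans (h x hx)

theorem abs_sinT_le' {g : ℝ → ℝ} (hg : IntegrableOn g (Ioi 0))
    (h : ∀ x, 0 < x → x * |k x| ≤ g x) {s : ℝ} (hs : 0 ≤ s) :
    |sinT k s| ≤ s * ∫ x in Ioi (0 : ℝ), g x := by
  rw [← integral_const_mul]
  refine abs_integral_le (hg.const_mul s) fun x hx => ?_
  rw [abs_mul]
  calc |k x| * |Real.sin (s * x)| ≤ |k x| * |s * x| :=
        mul_le_mul_of_nonneg_left Real.abs_sin_le_abs (abs_nonneg _)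
    _ = s * (x * |k x|) := by rw [abs_of_nonneg (by positivity : 0 ≤ s * x)]; ring
    _ ≤ _ := by gcongr; exact h x hx

theorem abs_one_sub_cos_le (y : ℝ) : |Real.cos y - 1| ≤ y ^ 2 / 2 := by
  rw [abs_sub_comm, abs_of_nonneg (by linarith [Real.cos_le_one y])]
  linarith [Real.one_sub_sq_div_two_le_cos (x := y)]

theorem abs_cosT_sub_le {g : ℝ → ℝ} (hk : IntegrableOn k (Ioi 0)) (hg : IntegrableOn g (Ioi 0))
    (h : ∀ x, 0 < x → x ^ 2 * |k x| ≤ g x) (s : ℝ) :
    |cosT k s - cosT k 0| ≤ s ^ 2 * ∫ x in Ioi (0 : ℝ), g x := by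
  unfold cosT
  rw [← integral_const_mul, ← integral_sub (int_cos hk s) (int_cos hk 0)]
  refine abs_integral_le (hg.const_mul _) fun x hx => ?_
  rw [zero_mul, Real.cos_zero, ← mul_sub, abs_mul]
  calc |k x| * |Real.cos (s * x) - 1| ≤ |k x| * ((s * x) ^ 2 / 2) := by
        gcongr; exact abs_one_sub_cos_le _
    _ = s ^ 2 * (x ^ 2 * |k x|) / 2 := by ring
    _ ≤ s ^ 2 * (x ^ 2 * |k x|) := half_le_self (by positivity)
    _ ≤ _ := by gcongr; exact h x hx

theorem abs_sin_sub_mul_cos_le {w : ℝ} (hw : 0 ≤ w) : |Real.sin w - w * Real.cos w| ≤ w ^ 3 := by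
  have := (convex_Icc 0 w).norm_image_sub_le_of_norm_hasDerivWithin_le
    (f := fun z => Real.sin z - z * Real.cos z) (f' := fun z => z * Real.sin z) (C := w ^ 2)
    (x := 0) (y := w) (fun z _ => by
      have := (Real.hasDerivAt_sin z).sub ((hasDerivAt_id z).mul (Real.hasDerivAt_cos z))
      refine HasDerivAt.hasDerivWithinAt ?_
      refine this.congr_deriv ?_
      simp) (fun z hz => by
      rw [Real.norm_eq_abs, abs_mul, abs_of_nonneg hz.1]
      have : |Real.sin z| ≤ w := Real.abs_sin_le_abs.trans (by rw [abs_of_nonneg hz.1]; exact hz.2)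
      rw [sq]; exact mul_le_mul hz.2 this (abs_nonneg _) hw) ⟨le_rfl, hw⟩ ⟨hw, le_rfl⟩
  simp only [Real.sin_zero, zero_mul, sub_zero, Real.norm_eq_abs, abs_of_nonneg hw] at this
  calc _ ≤ w ^ 2 * w := this
    _ = _ := by ring

theorem abs_sinT_sub_cosT_le {g : ℝ → ℝ} (hk : IntegrableOn k (Ioi 0))
    (hl : IntegrableOn l (Ioi 0)) (hkl : ∀ x, 0 < x → l x = x * k x) (hg : IntegrableOn g (Ioi 0))
    (h : ∀ x, 0 < x → x ^ 3 * |k x| ≤ g x) {s : ℝ} (hs : 0 ≤ s) :
    |sinT k s - s * cosT l s| ≤ s ^ 3 * ∫ x in Ioi (0 : ℝ), g x := by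
  unfold cosT sinT
  rw [← integral_const_mul, ← integral_const_mul,
    ← integral_sub (int_sin hk s) ((int_cos hl s).const_mul s)]
  refine abs_integral_le (hg.const_mul _) fun x hx => ?_
  have e : k x * Real.sin (s * x) - s * (l x * Real.cos (s * x)) =
      k x * (Real.sin (s * x) - s * x * Real.cos (s * x)) := by rw [hkl x hx]; ring
  rw [e, abs_mul]
  calc |k x| * |Real.sin (s * x) - s * x * Real.cos (s * x)| ≤ |k x| * (s * x) ^ 3 := by
        gcongr; exact abs_sin_sub_mul_cos_le (by positivity)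
    _ = s ^ 3 * (x ^ 3 * |k x|) := by ring
    _ ≤ _ := by gcongr; exact h x hx

theorem tendsto_mul_bdd_atTop (h : Tendsto k atTop (𝓝 0)) {g : ℝ → ℝ} {B : ℝ}
    (h1 : ∀ x, |g x| ≤ B) : Tendsto (k * g) atTop (𝓝 0) :=
  h.zero_mul_isBoundedUnder_le (isBoundedUnder_of ⟨B, fun x => h1 x⟩)

theorem parts_cos (hk : IntegrableOn k (Ioi 0)) (hk' : IntegrableOn k' (Ioi 0))
    (hd : ∀ x, 0 < x → HasDerivAt k (k' x) x) {k0 : ℝ} (h0 : Tendsto k (𝓝[>] 0) (𝓝 k0)) (s : ℝ) :
    s * cosT k s = -sinT k' s := by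
  have hinf := tendsto_zero_of_hasDerivAt_of_integrableOn_Ioi (fun x hx => hd x hx) hk' hk
  have i1 := int_sin hk' s
  have i2 := (int_cos hk s).const_mul s
  have := integral_Ioi_deriv_mul_eq_sub (u := k) (u' := k') (v := fun x => Real.sin (s * x))
    (v' := fun x => s * Real.cos (s * x)) (a := 0) (a' := 0) (b' := 0) (fun x hx => hd x hx)
    (fun x _ => by
      have := ((hasDerivAt_id x).const_mul s).sin
      refine this.congr_deriv ?_
      simp; ring)
    ((i1.add i2).congr (Eventually.of_forall fun x => by simp; ring))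
    (by
      have hc : Continuous fun x : ℝ => Real.sin (s * x) := by fun_prop
      have := h0.mul ((hc.tendsto 0).mono_left (nhdsWithin_le_nhds (s := Ioi 0)))
      simp only [mul_zero, Real.sin_zero] at this
      exact this)
    (tendsto_mul_bdd_atTop hinf fun x => Real.abs_sin_le_one _)
  have e : ∫ x in Ioi (0 : ℝ), (k' x * Real.sin (s * x) + k x * (s * Real.cos (s * x))) =
      sinT k' s + s * cosT k s := by
    unfold sinT cosT
    rw [← integral_const_mul, ← integral_add i1 i2]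
    congr 1; funext x; ring
  rw [e] at this
  linarith

theorem parts_sin (hk : IntegrableOn k (Ioi 0)) (hk' : IntegrableOn k' (Ioi 0))
    (hd : ∀ x, 0 < x → HasDerivAt k (k' x) x) (h0 : Tendsto k (𝓝[>] 0) (𝓝 0)) (s : ℝ) :
    s * sinT k s = cosT k' s := by
  have hinf := tendsto_zero_of_hasDerivAt_of_integrableOn_Ioi (fun x hx => hd x hx) hk' hk
  have i1 := int_cos hk' s
  have i2 := (int_sin hk s).const_mul (-s)
  have := integral_Ioi_deriv_mul_eq_sub (u := k) (u' := k') (v := fun x => Real.cos (s * x))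
    (v' := fun x => -s * Real.sin (s * x)) (a := 0) (a' := 0) (b' := 0) (fun x hx => hd x hx)
    (fun x _ => by
      have := ((hasDerivAt_id x).const_mul s).cos
      refine this.congr_deriv ?_
      simp; ring)
    ((i1.add i2).congr (Eventually.of_forall fun x => by simp; ring))
    (by
      have hc : Continuous fun x : ℝ => Real.cos (s * x) := by fun_prop
      have := h0.mul ((hc.tendsto 0).mono_left (nhdsWithin_le_nhds (s := Ioi 0)))
      simp only [zero_mul] at this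
      exact this)
    (tendsto_mul_bdd_atTop hinf fun x => Real.abs_cos_le_one _)
  have e : ∫ x in Ioi (0 : ℝ), (k' x * Real.cos (s * x) + k x * (-s * Real.sin (s * x))) =
      cosT k' s + -s * sinT k s := by
    unfold sinT cosT
    rw [← integral_const_mul, ← integral_add i1 i2]
    congr 1; funext x; ring
  rw [e] at this
  linarith

theorem nonneg_of_deriv {f f' : ℝ → ℝ} (hf : ∀ x, HasDerivAt f (f' x) x) (h0 : f 0 = 0)
    (h1 : ∀ x, 0 < x → 0 ≤ f' x) {x : ℝ} (hx : 0 ≤ x) : 0 ≤ f x := by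
  have hm : MonotoneOn f (Ici 0) := monotoneOn_of_deriv_nonneg (convex_Ici 0)
    (fun y _ => (hf y).continuousAt.continuousWithinAt)
    (fun y _ => (hf y).differentiableAt.differentiableWithinAt)
    (fun y hy => by rw [(hf y).deriv]; exact h1 y (by simpa using hy))
  exact h0 ▸ hm (mem_Ici.2 le_rfl) hx hx

theorem hasDerivAt_comp_sqrt {h h1 h2 : ℝ → ℝ} (hd1 : ∀ s, HasDerivAt h (h1 s) s)
    (hd2 : ∀ s, HasDerivAt h1 (h2 s) s) {τ : ℝ} (hτ : 0 < τ) :
    HasDerivAt (fun τ => h (√τ)) (h1 (√τ) / (2 * √τ)) τ ∧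
    HasDerivAt (fun τ => h1 (√τ) / (2 * √τ))
      ((√τ * h2 (√τ) - h1 (√τ)) / (4 * √τ ^ 3)) τ := by
  have hs := Real.hasDerivAt_sqrt hτ.ne'
  have hp : 0 < √τ := Real.sqrt_pos.2 hτ
  constructor
  · refine ((hd1 (√τ)).comp τ hs).congr_deriv ?_
    ring
  · have := ((hd2 (√τ)).comp τ hs).div (hs.const_mul 2) (by positivity)
    refine this.congr_deriv ?_
    simp only [Function.comp]
    field_simp; ring

theorem concaveOn_comp_sqrt {h h1 h2 : ℝ → ℝ} (hd1 : ∀ s, HasDerivAt h (h1 s) s)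
    (hd2 : ∀ s, HasDerivAt h1 (h2 s) s) {D : Set ℝ} (hD : Convex ℝ D)
    (hD0 : ∀ τ ∈ interior D, 0 < τ) {b : ℝ}
    (hb : ∀ τ ∈ interior D, √τ * h2 (√τ) - h1 (√τ) ≤ -8 * b * √τ ^ 3) :
    ConcaveOn ℝ D (fun τ => h (√τ) + b * τ ^ 2) := by
  have hc : Continuous h := continuous_iff_continuousAt.2 fun s => (hd1 s).continuousAt
  refine concaveOn_of_hasDerivWithinAt2_nonpos hD (f' := fun τ => h1 (√τ) / (2 * √τ) + b * (2 * τ))
    (f'' := fun τ => (√τ * h2 (√τ) - h1 (√τ)) / (4 * √τ ^ 3) + b * 2) (by fun_prop)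
    (fun τ hτ => ?_) (fun τ hτ => ?_) fun τ hτ => ?_
  · have := (hasDerivAt_comp_sqrt hd1 hd2 (hD0 τ hτ)).1.add ((hasDerivAt_pow 2 τ).const_mul b)
    refine HasDerivAt.hasDerivWithinAt ?_
    refine this.congr_deriv ?_
    simp
  · have := (hasDerivAt_comp_sqrt hd1 hd2 (hD0 τ hτ)).2.add
      (((hasDerivAt_id τ).const_mul 2).const_mul b)
    refine HasDerivAt.hasDerivWithinAt ?_
    refine this.congr_deriv ?_
    simp
  · have hp : 0 < √τ := Real.sqrt_pos.2 (hD0 τ hτ)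
    have : (√τ * h2 (√τ) - h1 (√τ)) / (4 * √τ ^ 3) ≤ -(b * 2) := by
      rw [div_le_iff₀ (by positivity)]; linarith [hb τ hτ]
    linarith

end Pool.Agent.MP_39fec4_gt

end

section

set_option autoImplicit false

namespace Pool.Agent.MP_39fec4_gt

open MeasureTheory Set Finset

/-- The properties of the function `G τ = γ (√τ)` used in the comparison. -/
structure Pack (G : ℝ → ℝ) (η c C τ0 ε : ℝ) : Prop where
  cont : Continuous G
  absle : ∀ τ, |G τ| ≤ 1
  zero : G 0 = 1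
  low : ∀ τ, 0 ≤ τ → τ ≤ 1 → 1 - τ / 2 ≤ G τ
  mainlow : ∀ τ, 0 ≤ τ → τ ≤ τ0 → 1 / 2 ≤ Real.exp (τ / 4) * G τ
  mainup2 : ∀ τ, 0 ≤ τ → τ ≤ τ0 → Real.exp (τ / 4) * G τ ≤ 2
  mainup : ∀ τ, 0 ≤ τ → τ ≤ τ0 → G τ ≤ Real.exp (-τ / 5)
  conc : ConcaveOn ℝ (Icc 0 τ0) (fun τ => Real.exp (τ / 4) * G τ + c * η * τ ^ 2)
  glob : ∃ H : ℝ → ℝ, ConcaveOn ℝ (Ici 0) H ∧
    (∀ τ, 0 ≤ τ → |Real.exp (τ / 4) * G τ - H τ| ≤ C * η ^ 2 * τ * Real.exp (τ / 4)) ∧
    ∀ τ, 0 ≤ τ → G τ ≤ Real.exp (-τ / 4) * H τ + C * η ^ 2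
  tail : ∃ G1 G2 : ℝ → ℝ, (∀ τ, 0 < τ → HasDerivAt G (G1 τ) τ ∧ HasDerivAt G1 (G2 τ) τ) ∧
    ∀ τ, 9 / 10 * τ0 ≤ τ → τ * |G τ| ≤ ε ∧ τ ^ 3 * G1 τ ^ 2 ≤ ε ^ 2 ∧ τ ^ 2 * |G2 τ| ≤ ε

variable {G : ℝ → ℝ} {η c C τ0 ε : ℝ}

theorem Pack.nonneg (h : Pack G η c C τ0 ε) {τ : ℝ} (h0 : 0 ≤ τ) (h1 : τ ≤ τ0) : 0 ≤ G τ := by
  have := h.mainlow τ h0 h1
  by_contra hn
  have : Real.exp (τ / 4) * G τ < 0 := mul_neg_of_pos_of_neg (Real.exp_pos _) (not_le.1 hn)
  linarith

theorem Pack.tail0 (h : Pack G η c C τ0 ε) {τ : ℝ} (h1 : 9 / 10 * τ0 ≤ τ) : τ * |G τ| ≤ ε := by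
  obtain ⟨G1, G2, -, h2⟩ := h.tail
  exact (h2 τ h1).1

theorem Pack.tail1 (h : Pack G η c C τ0 ε) (hτ : 6 ≤ τ0) {τ : ℝ} (h1 : 9 / 10 * τ0 ≤ τ) :
    |G τ| ≤ ε := by
  have := h.tail0 h1
  nlinarith [abs_nonneg (G τ)]

theorem prod_exp_mul {n : ℕ} (G : ℝ → ℝ) (τ : Fin n → ℝ) (S : Finset (Fin n)) :
    ∏ j ∈ S, G (τ j) = Real.exp (-(∑ j ∈ S, τ j) / 4) *
      ∏ j ∈ S, (Real.exp (τ j / 4) * G (τ j)) := by
  rw [Finset.prod_mul_distrib, ← Real.exp_sum, ← mul_assoc, ← Real.exp_add, ← Finset.sum_div]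
  simp [neg_div]

theorem pow_exp_mul {n : ℕ} (hn : 0 < n) (G : ℝ → ℝ) (x : ℝ) :
    G (x / n) ^ n = Real.exp (-x / 4) * (Real.exp (x / n / 4) * G (x / n)) ^ n := by
  have hn' : (n : ℝ) ≠ 0 := by positivity
  rw [mul_pow, ← Real.exp_nat_mul, ← mul_assoc, ← Real.exp_add]
  have : -x / 4 + n * (x / n / 4) = 0 := by field_simp; ring
  rw [this]; simp

theorem jensen_mean {n : ℕ} (hn : 0 < n) {K : ℝ → ℝ} {I : Set ℝ} (hK : ConcaveOn ℝ I K)
    (τ : Fin n → ℝ) (hτ : ∀ j, τ j ∈ I) :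
    (∑ j, K (τ j)) / n ≤ K ((∑ j, τ j) / n) := by
  have hn' : (0 : ℝ) < n := by exact_mod_cast hn
  have := hK.le_map_sum (t := Finset.univ) (w := fun _ => (1 : ℝ) / n) (p := τ)
    (fun _ _ => by positivity) (by simp; field_simp) (fun j _ => hτ j)
  simp only [smul_eq_mul, ← Finset.mul_sum] at this
  rw [div_eq_inv_mul, div_eq_inv_mul, ← one_div]
  exact this

theorem var_nonneg {n : ℕ} (hn : 0 < n) (t : Fin n → ℝ) (hs : ∑ j, t j = 1) :
    ∑ j, (t j - 1 / n) ^ 2 = ∑ j, t j ^ 2 - 1 / n := by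
  have hn' : (n : ℝ) ≠ 0 := by positivity
  have : ∀ j, (t j - 1 / n) ^ 2 = t j ^ 2 - 2 / n * t j + 1 / n ^ 2 := fun j => by ring
  simp only [this, Finset.sum_add_distrib, Finset.sum_sub_distrib, ← Finset.mul_sum, hs]
  simp; field_simp; ring

/-- The main region: all arguments are at most `τ0`. -/
theorem Pack.main (h : Pack G η c C τ0 ε) (hc : 0 ≤ c * η) (hc1 : c * η ≤ 1) {n : ℕ}
    (hn : 2 ≤ n) (t : Fin n → ℝ) (ht : ∀ j, 0 ≤ t j) (hs : ∑ j, t j = 1) {s : ℝ}
    (hτ : ∀ j, t j * s ^ 2 ≤ τ0) :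
    ∏ j, G (t j * s ^ 2) + (if 1 / 2 < s ∧ s ≤ 1 then c * η * (∑ j, (t j - 1 / n) ^ 2) / 128
      else 0) ≤ G (s ^ 2 / n) ^ n := by
  have hn0 : 0 < n := by omega
  have hn' : (0 : ℝ) < n := by exact_mod_cast hn0
  have hn2 : (2 : ℝ) ≤ n := by exact_mod_cast hn
  set V := ∑ j, (t j - 1 / n) ^ 2 with hV
  have hV0 : 0 ≤ V := Finset.sum_nonneg fun _ _ => sq_nonneg _
  have hVe : V = ∑ j, t j ^ 2 - 1 / n := var_nonneg hn0 t hs
  have hsum : ∑ j, t j * s ^ 2 = s ^ 2 := by rw [← Finset.sum_mul, hs, one_mul]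
  have hτ0 : ∀ j, 0 ≤ t j * s ^ 2 := fun j => mul_nonneg (ht j) (sq_nonneg _)
  have hbar : s ^ 2 / n ≤ τ0 := by
    rw [div_le_iff₀ hn', ← hsum]
    calc ∑ j, t j * s ^ 2 ≤ ∑ _j : Fin n, τ0 := Finset.sum_le_sum fun j _ => hτ j
      _ = τ0 * n := by simp [mul_comm]
  have hbar0 : 0 ≤ s ^ 2 / n := by positivity
  have hJ := jensen_mean hn0 h.conc (fun j => t j * s ^ 2) (fun j => ⟨hτ0 j, hτ j⟩)
  simp only [hsum, Finset.sum_add_distrib] at hJ
  set Hb := Real.exp (s ^ 2 / n / 4) * G (s ^ 2 / n) with hHb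
  set m := (∑ j, Real.exp (t j * s ^ 2 / 4) * G (t j * s ^ 2)) / n with hm
  set k := c * η * s ^ 4 * V with hk
  have hk0 : 0 ≤ k := by positivity
  have hmk : m ≤ Hb - k / n := by
    have e1 : ∑ j, c * η * (t j * s ^ 2) ^ 2 = c * η * s ^ 4 * (V + 1 / n) := by
      rw [hVe, sub_add_cancel, Finset.mul_sum]
      exact Finset.sum_congr rfl fun j _ => by ring
    rw [e1, add_div] at hJ
    have e2 : c * η * s ^ 4 * (V + 1 / n) / n = k / n + c * η * (s ^ 2 / n) ^ 2 := by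
      rw [hk]; field_simp
    rw [e2] at hJ
    linarith
  have hz : ∀ j, 0 ≤ Real.exp (t j * s ^ 2 / 4) * G (t j * s ^ 2) := fun j => by
    have := h.mainlow _ (hτ0 j) (hτ j); linarith
  have hm0 : 0 ≤ m := div_nonneg (Finset.sum_nonneg fun j _ => hz j) hn'.le
  have hAM := prod_le_mean_pow hn0 _ hz
  rw [← hm] at hAM
  have hHb1 : 1 / 2 ≤ Hb := h.mainlow _ hbar0 hbar
  have hHb2 : Hb ≤ 2 := h.mainup2 _ hbar0 hbar
  have hP : ∏ j, G (t j * s ^ 2) ≤ Real.exp (-s ^ 2 / 4) * (Hb - k / n) ^ n := by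
    rw [prod_exp_mul G (fun j => t j * s ^ 2), hsum]
    exact mul_le_mul_of_nonneg_left (hAM.trans (pow_le_pow_left₀ hm0 hmk n)) (Real.exp_pos _).le
  have hQ := pow_exp_mul hn0 G (s ^ 2)
  rw [← hHb] at hQ
  -- `(Hb - k/n)^n (1 + k/2) ≤ Hb^n`
  have hy0 : 0 ≤ k / n / Hb := by positivity
  have hy1 : k / n / Hb ≤ 1 := by
    rw [div_le_one (by linarith)]; linarith
  have hB : (Hb - k / n) ^ n * (1 + k / 2) ≤ Hb ^ n := by
    have e : Hb - k / n = Hb * (1 - k / n / Hb) := by field_simp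
    have b1 : 1 + (n : ℝ) * (k / n / Hb) ≤ (1 + k / n / Hb) ^ n :=
      one_add_mul_le_pow (by linarith) n
    have b2 : 1 + k / 2 ≤ 1 + (n : ℝ) * (k / n / Hb) := by
      have : (n : ℝ) * (k / n / Hb) = k / Hb := by field_simp
      rw [this]
      have : k / 2 ≤ k / Hb := div_le_div_of_nonneg_left hk0 (by linarith) hHb2
      linarith
    have b3 : (1 - k / n / Hb) ^ n * (1 + k / n / Hb) ^ n ≤ 1 := by
      rw [← mul_pow]
      exact pow_le_one₀ (by nlinarith) (by nlinarith)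
    rw [e, mul_pow, mul_assoc]
    refine mul_le_of_le_one_right (by positivity) (le_trans ?_ b3)
    exact mul_le_mul_of_nonneg_left (b2.trans b1) (pow_nonneg (by linarith) n)
  have hW0 : 0 ≤ Real.exp (-s ^ 2 / 4) * (Hb - k / n) ^ n :=
    mul_nonneg (Real.exp_pos _).le (pow_nonneg (by linarith) n)
  have hWQ : Real.exp (-s ^ 2 / 4) * (Hb - k / n) ^ n * (1 + k / 2) ≤ G (s ^ 2 / n) ^ n := by
    rw [hQ, mul_assoc]
    exact mul_le_mul_of_nonneg_left hB (Real.exp_pos _).le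
  split_ifs with hs1
  · obtain ⟨hs1, hs2⟩ := hs1
    have hs0 : 0 < s := by linarith
    have hss : s ^ 2 ≤ 1 := pow_le_one₀ hs0.le hs2
    have hQ1 : 1 / 2 ≤ G (s ^ 2 / n) ^ n := by
      have l1 := h.low (s ^ 2 / n) hbar0 (by rw [div_le_one hn']; linarith)
      have l2 : 1 + (n : ℝ) * (-(s ^ 2 / n / 2)) ≤ (1 + -(s ^ 2 / n / 2)) ^ n :=
        one_add_mul_le_pow (by
          have : s ^ 2 / n ≤ 1 := by rw [div_le_one hn']; linarith
          linarith) n
      have l3 : (n : ℝ) * (-(s ^ 2 / n / 2)) = -(s ^ 2 / 2) := by field_simp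
      have l4 : (1 + -(s ^ 2 / n / 2)) ^ n ≤ G (s ^ 2 / n) ^ n :=
        pow_le_pow_left₀ (by
          have : s ^ 2 / n ≤ 1 := by rw [div_le_one hn']; linarith
          linarith) (by linarith) n
      linarith
    have hV1 : V ≤ 1 := by
      rw [hVe]
      have : ∑ j, t j ^ 2 ≤ ∑ j, t j := Finset.sum_le_sum fun j _ => by
        have : t j ≤ 1 := hs ▸ Finset.single_le_sum (fun i _ => ht i) (Finset.mem_univ j)
        nlinarith [ht j]
      have : 0 ≤ 1 / (n : ℝ) := by positivity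
      linarith
    have hs4 : s ^ 4 ≤ 1 := pow_le_one₀ hs0.le hs2
    have hs4' : 1 / 16 ≤ s ^ 4 := by
      calc (1 : ℝ) / 16 = (1 / 2) ^ 4 := by norm_num
        _ ≤ s ^ 4 := by gcongr
    have hk1 : k ≤ 1 := by
      rw [hk]
      calc c * η * s ^ 4 * V ≤ 1 * 1 * 1 := by gcongr
        _ = 1 := by ring
    have hk2 : c * η * V / 16 ≤ k := by
      rw [hk]
      have h0 : 0 ≤ c * η * V := by positivity
      have := mul_le_mul_of_nonneg_left hs4' h0
      linarith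
    generalize Real.exp (-s ^ 2 / 4) * (Hb - k / n) ^ n = W at hWQ hW0 hP
    generalize G (s ^ 2 / n) ^ n = Q at hWQ hQ1
    have : W + k / 8 ≤ Q := by
      by_cases hW : W ≤ 1 / 4
      · linarith
      · have := mul_le_mul_of_nonneg_right (not_le.1 hW).le hk0
        linarith
    linarith
  · have := mul_nonneg hW0 hk0
    linarith

/-- Lower bound for the diagonal term. -/
theorem Pack.diag (h : Pack G η c C τ0 ε) (hτ : 6 ≤ τ0) (hε : 0 < ε) (h16 : ε ≤ 1 / 16) {n : ℕ}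
    (hn : 2 ≤ n) {s : ℝ} (hs : 0 < s) :
    -(if 1 < s then 16 * ε ^ 2 / n ^ 2 / s ^ 2 else 0) ≤ G (s ^ 2 / n) ^ n := by
  have hn' : (0 : ℝ) < n := by exact_mod_cast (by omega : 0 < n)
  have hn2 : (2 : ℝ) ≤ n := by exact_mod_cast hn
  rcases le_or_gt (s ^ 2 / n) τ0 with h1 | h1
  · have := pow_nonneg (h.nonneg (by positivity) h1) n
    split_ifs
    · have : 0 ≤ 16 * ε ^ 2 / n ^ 2 / s ^ 2 := by positivity
      linarith
    · linarith
  · have hs1 : 1 < s := by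
      by_contra hh
      have : s ^ 2 ≤ 1 := pow_le_one₀ hs.le (not_lt.1 hh)
      have : s ^ 2 / n ≤ 1 := by rw [div_le_one hn']; linarith
      linarith
    rw [if_pos hs1]
    have a1 := h.tail0 (τ := s ^ 2 / n) (by linarith)
    have a2 := h.tail1 hτ (τ := s ^ 2 / n) (by linarith)
    have a3 := pow_four_mul_le hn hε.le h16
    obtain ⟨k, rfl⟩ : ∃ k, n = k + 2 := ⟨n - 2, by omega⟩
    simp only [Nat.add_sub_cancel] at a3
    set N : ℝ := ((k + 2 : ℕ) : ℝ)
    set y := G (s ^ 2 / N)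
    have a4 : |y| ≤ ε * N / s ^ 2 := by
      rw [le_div_iff₀ (by positivity)]
      have : s ^ 2 / N * |y| * N ≤ ε * N := by gcongr
      have e : s ^ 2 / N * |y| * N = |y| * s ^ 2 := by field_simp
      linarith
    have a5 : |y ^ (k + 2)| ≤ 16 * ε ^ 2 / N ^ 2 / s ^ 2 := by
      rw [abs_pow, pow_succ, pow_succ]
      calc |y| ^ k * |y| * |y| ≤ ε ^ k * ε * (ε * N / s ^ 2) := by gcongr
        _ = (N ^ 4 * ε ^ k) * (1 / N) * ε ^ 2 / N ^ 2 / s ^ 2 := by field_simp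
        _ ≤ 16 * 1 * ε ^ 2 / N ^ 2 / s ^ 2 := by
            gcongr
            rw [div_le_one hn']; linarith
        _ = _ := by ring
    linarith [neg_abs_le (y ^ (k + 2))]

end Pool.Agent.MP_39fec4_gt

end
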