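import Mathlib
import Pool.Agent.Mg.F39fec4.G46279a

section

set_option autoImplicit false

namespace Pool.Agent.MP_39fec4_gt

open MeasureTheory Set Filter Topology Module
open scoped FourierTransform RealInnerProductSpace

section
variable {E : Type*} [NormedAddCommGroup E] [InnerProductSpace ℝ E] [FiniteDimensional ℝ E]
  [MeasurableSpace E] [BorelSpace E]

theorem integrable_gauss : Integrable fun v : E => Real.exp (-‖v‖ ^ 2) := by
  have := (GaussianFourier.integrable_cexp_neg_mul_sq_norm_add (V := E) (b := 1) (by simp) 0 0).norm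
  refine this.congr (Eventually.of_forall fun v => ?_)
  simp only [Complex.norm_exp]
  congr 1
  simp [← Complex.ofReal_pow]

theorem exists_split (a : E) (ha : ‖a‖ = 1) : ∃ ψ : ℝ × (ℝ ∙ a)ᗮ ≃ᵐ E,
    MeasurePreserving ψ volume volume ∧ ∀ z, ψ z = z.1 • a + z.2 := by
  let e := (LinearIsometryEquiv.toSpanUnitSingleton (𝕜 := ℝ) a ha)
  refine ⟨(e.toHomeomorph.toMeasurableEquiv.prodCongr (MeasurableEquiv.refl _)).trans
    ((ℝ ∙ a).measurableEquivProd (0 : E)).symm, ?_, fun z => ?_⟩
  · have h1 := ((ℝ ∙ a).measurePreserving_measurableEquivProd (0 : E)).symm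
    rw [InnerProductSpace.euclideanHausdorffMeasure_eq_volume] at h1
    have h2 : MeasurePreserving (Prod.map e (id : (ℝ ∙ a)ᗮ → (ℝ ∙ a)ᗮ)) volume volume :=
      e.measurePreserving.prod (MeasurePreserving.id _)
    exact h1.comp h2
  · simp [e, MeasurableEquiv.prodCongr]

/-- Integral over a hyperplane through the Fourier transform along its normal. -/
theorem slice (a : E) (ha : ‖a‖ = 1) {F : E → ℂ} (hF : Continuous F) {C : ℝ}
    (hb : ∀ x, ‖F x‖ ≤ C * Real.exp (-‖x‖ ^ 2))
    (hi : Integrable fun w : ℝ => 𝓕 F (w • a)) :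
    ∫ y : (ℝ ∙ a)ᗮ, F y = ∫ w : ℝ, 𝓕 F (w • a) := by
  obtain ⟨ψ, hψ, hψ'⟩ := exists_split a ha
  have hC : 0 ≤ C := by simpa using (norm_nonneg _).trans (hb 0)
  have iF : Integrable F :=
    (integrable_gauss.const_mul C).mono' hF.aestronglyMeasurable (Eventually.of_forall hb)
  have hy : ∀ y : (ℝ ∙ a)ᗮ, ⟪a, (y : E)⟫ = 0 := fun y =>
    Submodule.mem_orthogonal_singleton_iff_inner_right.1 y.2
  set Φ : ℝ → ℂ := fun r => ∫ y : (ℝ ∙ a)ᗮ, F (r • a + y) with hΦ
  have iP : Integrable (fun z : ℝ × (ℝ ∙ a)ᗮ => F (z.1 • a + z.2)) (volume.prod volume) := by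
    have := (hψ.integrable_comp_emb ψ.measurableEmbedding).2 iF
    exact this.congr (Eventually.of_forall fun z => by simp [hψ'])
  have iΦ : Integrable Φ := iP.integral_prod_left
  have cΦ : Continuous Φ := by
    refine continuous_of_dominated (bound := fun y : (ℝ ∙ a)ᗮ => C * Real.exp (-‖y‖ ^ 2))
      (fun r => Continuous.aestronglyMeasurable (by fun_prop))
      (fun r => Eventually.of_forall fun y => (hb _).trans ?_) (integrable_gauss.const_mul C)
      (Eventually.of_forall fun y => by fun_prop)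
    refine mul_le_mul_of_nonneg_left (Real.exp_le_exp.2 ?_) hC
    have := norm_add_sq_real (r • a) (y : E)
    rw [real_inner_smul_left, hy y] at this
    rw [this, ← Submodule.coe_norm]
    nlinarith [sq_nonneg ‖r • a‖]
  have hfΦ : 𝓕 Φ = fun w : ℝ => 𝓕 F (w • a) := by
    funext w
    have i2 := (hψ.integrable_comp_emb ψ.measurableEmbedding).2
      ((Real.fourierIntegral_convergent_iff (w • a)).2 iF)
    rw [Real.fourier_real_eq, Real.fourier_eq, ← hψ.integral_comp']
    refine Eq.trans ?_ (integral_prod _ i2).symm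
    congr 1; funext r
    rw [hΦ, Circle.smul_def, ← integral_smul]
    congr 1; funext y
    simp only [Function.comp, hψ', Circle.smul_def]
    rw [inner_add_left, real_inner_smul_left, real_inner_smul_right, real_inner_smul_right,
      real_inner_comm a (y : E), hy y, real_inner_self_eq_norm_sq, ha]
    simp
  have := iΦ.fourierInv_fourier_eq (hfΦ ▸ hi) (v := 0) cΦ.continuousAt
  rw [Real.fourierInv_eq, hfΦ] at this
  simpa [hΦ] using this.symm

end

theorem fourier_prod {n : ℕ} (f : ℝ → ℂ) (ξ : EuclideanSpace ℝ (Fin n)) :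
    𝓕 (fun x : EuclideanSpace ℝ (Fin n) => ∏ j, f (x j)) ξ = ∏ j, 𝓕 f (ξ j) := by
  simp_rw [Real.fourier_real_eq_integral_exp_smul]
  rw [Real.fourier_eq', ← (PiLp.volume_preserving_toLp (Fin n)).integral_comp
    (MeasurableEquiv.toLp 2 _).measurableEmbedding,
    ← integral_fintype_prod_volume_eq_prod]
  congr 1; funext x
  simp only [smul_eq_mul, Finset.prod_mul_distrib, ← Complex.exp_sum, PiLp.inner_apply]
  congr 2
  simp [Finset.mul_sum, Finset.sum_mul]
  exact Finset.sum_congr rfl fun j _ => by ring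

theorem integrable_comp_abs' {f : ℝ → ℝ} (hf : IntegrableOn f (Ioi 0)) :
    Integrable fun x => f |x| := by
  have h1 : IntegrableOn (fun x => f |x|) (Ioi 0) :=
    hf.congr_fun (fun x hx => by simp only [abs_of_pos (mem_Ioi.1 hx)]) measurableSet_Ioi
  have h2 : IntegrableOn (fun x => f |x|) (Iic 0) := by
    rw [← Measure.map_neg_eq_self (volume : Measure ℝ)]
    let m : MeasurableEmbedding fun x : ℝ => -x := (Homeomorph.neg ℝ).measurableEmbedding
    rw [m.integrableOn_map_iff]
    simp_rw [Function.comp_def, abs_neg, neg_preimage, neg_Iic, neg_zero]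
    exact Iff.mpr integrableOn_Ici_iff_integrableOn_Ioi h1
  have := h2.union h1
  rwa [Iic_union_Ioi, integrableOn_univ] at this

theorem fourier_even {k : ℝ → ℝ} (hk : IntegrableOn k (Ioi 0)) (w : ℝ) :
    𝓕 (fun x : ℝ => (k |x| : ℂ)) w =
      ((2 * ∫ x in Ioi (0 : ℝ), k x * Real.cos (2 * Real.pi * w * x) : ℝ) : ℂ) := by
  have i0 := integrable_comp_abs' hk
  have i1 : Integrable fun x => k |x| * Real.cos (2 * Real.pi * w * x) :=
    i0.mul_bdd (c := 1) (Continuous.aestronglyMeasurable (by fun_prop))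
      (Eventually.of_forall fun _ => Real.abs_cos_le_one _)
  have i2 : Integrable fun x => k |x| * Real.sin (2 * Real.pi * w * x) :=
    i0.mul_bdd (c := 1) (Continuous.aestronglyMeasurable (by fun_prop))
      (Eventually.of_forall fun _ => Real.abs_sin_le_one _)
  have e1 : ∫ x, k |x| * Real.sin (2 * Real.pi * w * x) = 0 := by
    have := integral_neg_eq_self (fun x => k |x| * Real.sin (2 * Real.pi * w * x)) volume
    simp only [abs_neg, mul_neg, Real.sin_neg, integral_neg] at this
    linarith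
  have e2 : ∫ x, k |x| * Real.cos (2 * Real.pi * w * x) =
      2 * ∫ x in Ioi (0 : ℝ), k x * Real.cos (2 * Real.pi * w * x) := by
    rw [← integral_comp_abs]
    congr 1; funext x
    rcases abs_cases x with h | h
    · rw [h.1]
    · rw [h.1, mul_neg, Real.cos_neg]
  rw [Real.fourier_real_eq_integral_exp_smul, ← e2]
  have e3 : ∀ v : ℝ, Complex.exp (↑(-2 * Real.pi * v * w) * Complex.I) • (k |v| : ℂ) =
      ((k |v| * Real.cos (2 * Real.pi * w * v) : ℝ) : ℂ) -
        ((k |v| * Real.sin (2 * Real.pi * w * v) : ℝ) : ℂ) * Complex.I := fun v => by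
    rw [Complex.exp_mul_I, show -2 * Real.pi * v * w = -(2 * Real.pi * w * v) by ring,
      ← Complex.ofReal_cos, ← Complex.ofReal_sin, Real.cos_neg, Real.sin_neg, smul_eq_mul]
    simp only [Complex.ofReal_mul, Complex.ofReal_neg]
    ring
  simp_rw [e3]
  rw [integral_sub i1.ofReal (i2.ofReal.mul_const _), integral_mul_const,
    integral_complex_ofReal, integral_complex_ofReal, e1]
  simp

end Pool.Agent.MP_39fec4_gt

end

section

set_option autoImplicit false

namespace Pool.Agent.MP_39fec4_gt.Ball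

open MeasureTheory Set Filter Topology Real
open scoped FourierTransform

/-- The normalising constant. -/
noncomputable def Zp (p : ℝ) : ℝ := Real.Gamma (1 + 1 / p)

/-- The normalising constant to the power `p`. -/
noncomputable def bp (p : ℝ) : ℝ := Zp p ^ p

/-- The normalised kernel on the half line. -/
noncomputable def K (p y : ℝ) : ℝ := Real.exp (-bp p * y ^ p)

/-- Power times kernel. -/
noncomputable def W (p r y : ℝ) : ℝ := y ^ r * K p y

/-- Minus the derivative of the kernel. -/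
noncomputable def rho (p y : ℝ) : ℝ := p * bp p * W p (p - 1) y

/-- The normalised characteristic function. -/
noncomputable def ff (p x : ℝ) : ℝ := cosT (K p) x

/-- Second moment of the kernel. -/
noncomputable def kap2 (p : ℝ) : ℝ := Real.Gamma (1 + 3 / p) / (3 * Zp p ^ 3)

/-- Fourth moment of the kernel. -/
noncomputable def mu4 (p : ℝ) : ℝ := Real.Gamma (1 + 5 / p) / (5 * Zp p ^ 5)

/-- Variance of the law `rho`. -/
noncomputable def vv (p : ℝ) : ℝ := Real.Gamma (1 + 2 / p) / Zp p ^ 2 - 1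

variable {p : ℝ}

theorem Zp_pos (hp : 2 < p) : 0 < Zp p := Real.Gamma_pos_of_pos (by positivity)

theorem bp_pos (hp : 2 < p) : 0 < bp p := Real.rpow_pos_of_pos (Zp_pos hp) p

theorem K_pos (p y : ℝ) : 0 < K p y := Real.exp_pos _

theorem K_zero (hp : 2 < p) : K p 0 = 1 := by
  simp [K, Real.zero_rpow (by positivity : p ≠ 0)]

theorem K_anti (hp : 2 < p) {x y : ℝ} (hx : 0 ≤ x) (hxy : x ≤ y) : K p y ≤ K p x := by
  have := bp_pos hp
  have : x ^ p ≤ y ^ p := Real.rpow_le_rpow hx hxy (by positivity)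
  unfold K
  rw [Real.exp_le_exp]; nlinarith

theorem K_le_one (hp : 2 < p) {y : ℝ} (hy : 0 ≤ y) : K p y ≤ 1 :=
  K_zero hp ▸ K_anti hp le_rfl hy

theorem cont_K (hp : 2 < p) : Continuous (K p) := by
  have : Continuous fun y : ℝ => y ^ p := Real.continuous_rpow_const (by positivity)
  unfold K; fun_prop

theorem int_W (hp : 2 < p) {r : ℝ} (hr : -1 < r) : IntegrableOn (W p r) (Ioi 0) :=
  integrableOn_rpow_mul_exp_neg_mul_rpow hr (by positivity) (bp_pos hp)

theorem integral_W (hp : 2 < p) {r : ℝ} (hr : -1 < r) :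
    ∫ y in Ioi (0 : ℝ), W p r y = Real.Gamma ((r + 1) / p) / (p * Zp p ^ (r + 1)) := by
  have hZ := Zp_pos hp
  have := integral_rpow_mul_exp_neg_mul_rpow (p := p) (by positivity) hr (bp_pos hp)
  unfold W K
  rw [this, bp, ← Real.rpow_mul hZ.le, show p * (-(r + 1) / p) = -(r + 1) by field_simp,
    Real.rpow_neg hZ.le]
  field_simp

theorem int_K (hp : 2 < p) (j : ℕ) : IntegrableOn (fun y => y ^ j * K p y) (Ioi 0) := by
  have := int_W hp (r := j) (by linarith [Nat.cast_nonneg (α := ℝ) j])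
  simpa [W] using (show IntegrableOn (fun y => W p j y) (Ioi 0) from this)

theorem int_K0 (hp : 2 < p) : IntegrableOn (K p) (Ioi 0) := by
  simpa using int_K hp 0

theorem mom_K (hp : 2 < p) (j : ℕ) : ∫ y in Ioi (0 : ℝ), y ^ j * K p y =
    Real.Gamma (1 + (j + 1) / p) / ((j + 1) * Zp p ^ (j + 1)) := by
  have hZ := Zp_pos hp
  have := integral_W hp (r := j) (by linarith [Nat.cast_nonneg (α := ℝ) j])
  simp only [W, Real.rpow_natCast] at this
  rw [this, add_comm 1 (_ / p), Real.Gamma_add_one (by positivity),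
    show (j : ℝ) + 1 = ((j + 1 : ℕ) : ℝ) by push_cast; ring, Real.rpow_natCast]
  push_cast
  field_simp

theorem mom_K0 (hp : 2 < p) : ∫ y in Ioi (0 : ℝ), K p y = 1 := by
  have hZ := Zp_pos hp
  have := mom_K hp 0
  simp only [pow_zero, one_mul, Nat.cast_zero, zero_add, pow_one] at this
  rw [this]; exact div_self hZ.ne'

theorem mom_K2 (hp : 2 < p) : ∫ y in Ioi (0 : ℝ), y ^ 2 * K p y = kap2 p := by
  rw [mom_K hp 2, kap2]; norm_num

theorem mom_K4 (hp : 2 < p) : ∫ y in Ioi (0 : ℝ), y ^ 4 * K p y = mu4 p := by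
  rw [mom_K hp 4, mu4]; norm_num

theorem kap2_pos (hp : 2 < p) : 0 < kap2 p := by
  have hZ := Zp_pos hp
  have : 0 < Real.Gamma (1 + 3 / p) := Real.Gamma_pos_of_pos (by positivity)
  unfold kap2; positivity

theorem rho_nonneg (hp : 2 < p) {y : ℝ} (hy : 0 ≤ y) : 0 ≤ rho p y := by
  have := bp_pos hp
  have := K_pos p y
  unfold rho W; positivity

theorem pow_mul_rho (j : ℕ) {y : ℝ} (hy : 0 < y) :
    y ^ j * rho p y = p * bp p * W p (p - 1 + j) y := by
  rw [rho, W, W, Real.rpow_add hy, Real.rpow_natCast]; ring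

theorem int_rho (hp : 2 < p) (j : ℕ) : IntegrableOn (fun y => y ^ j * rho p y) (Ioi 0) :=
  IntegrableOn.congr_fun ((int_W hp (r := p - 1 + j)
    (by linarith [Nat.cast_nonneg (α := ℝ) j])).const_mul (p * bp p))
    (fun _ hy => (pow_mul_rho j hy).symm) measurableSet_Ioi

theorem int_rho0 (hp : 2 < p) : IntegrableOn (rho p) (Ioi 0) := by
  simpa using int_rho hp 0

theorem mom_rho (hp : 2 < p) (j : ℕ) : ∫ y in Ioi (0 : ℝ), y ^ j * rho p y =
    Real.Gamma (1 + j / p) / Zp p ^ j := by
  have hZ := Zp_pos hp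
  have hp0 : 0 < p := by positivity
  rw [setIntegral_congr_fun measurableSet_Ioi (fun y hy => pow_mul_rho j hy), integral_const_mul,
    integral_W hp (by linarith [Nat.cast_nonneg (α := ℝ) j]), bp,
    show p - 1 + j + 1 = p + j by ring, Real.rpow_add hZ, Real.rpow_natCast,
    show (p + j) / p = 1 + j / p by field_simp]
  have := Real.rpow_pos_of_pos hZ p
  field_simp

theorem hasDerivAt_K (hp : 2 < p) (y : ℝ) : HasDerivAt (K p) (-rho p y) y := by
  have := ((Real.hasDerivAt_rpow_const (x := y) (p := p) (Or.inr (by linarith))).const_mul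
    (-bp p)).exp
  refine this.congr_deriv ?_
  simp only [rho, W, K]; ring

theorem x_mul_ff (hp : 2 < p) (x : ℝ) : x * ff p x = sinT (rho p) x := by
  have := parts_cos (k := K p) (k' := fun y => -rho p y) (int_K0 hp) (int_rho0 hp).neg
    (fun y _ => hasDerivAt_K hp y) (((cont_K hp).tendsto 0).mono_left nhdsWithin_le_nhds) x
  rw [ff, this, sinT, sinT, ← integral_neg]
  congr 1; funext y; ring

theorem ff_zero (hp : 2 < p) : ff p 0 = 1 := by rw [ff, cosT_zero, mom_K0 hp]

theorem ff_abs (p x : ℝ) : ff p |x| = ff p x := cosT_abs _ _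

theorem abs_ff_le (hp : 2 < p) (x : ℝ) : |ff p x| ≤ 1 := by
  have := abs_cosT_le (k := K p) (int_K0 hp) (fun y _ => (abs_of_pos (K_pos p y)).le) x
  rwa [mom_K0 hp] at this

theorem cont_ff (hp : 2 < p) : Continuous (ff p) :=
  continuous_iff_continuousAt.2 fun s =>
    (hasDerivAt_cosT (int_K0 hp) (int_K hp 1) (fun x _ => by simp) s).continuousAt

theorem abs_x_mul_ff_le (hp : 2 < p) (x : ℝ) : |x * ff p x| ≤ 1 := by
  have := abs_sinT_le (k := rho p) (int_rho0 hp)
    (fun y hy => (abs_of_nonneg (rho_nonneg hp hy.le)).le) x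
  have h0 := mom_rho hp 0
  simp only [pow_zero, one_mul, Nat.cast_zero, zero_div, add_zero, Real.Gamma_one, div_one] at h0
  rwa [h0, ← x_mul_ff hp] at this

theorem cos_le_quartic (y : ℝ) : Real.cos y ≤ 1 - y ^ 2 / 2 + y ^ 4 / 24 := by
  have key : ∀ y : ℝ, 0 ≤ y → Real.cos y ≤ 1 - y ^ 2 / 2 + y ^ 4 / 24 := fun y hy => by
    have := nonneg_of_deriv (f := fun y => 1 - y ^ 2 / 2 + y ^ 4 / 24 - Real.cos y)
      (f' := fun y => Real.sin y - (y - y ^ 3 / 6)) (fun x => by
        have := ((((hasDerivAt_pow 2 x).div_const 2).const_sub 1).add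
          ((hasDerivAt_pow 4 x).div_const 24)).sub (Real.hasDerivAt_cos x)
        refine this.congr_deriv ?_
        simp; ring) (by simp) (fun x hx => by linarith [Real.sin_ge_sub_cube hx.le]) hy
    simpa using this
  rcases le_total 0 y with h | h
  · exact key y h
  · have := key (-y) (by linarith)
    rw [Real.cos_neg] at this
    nlinarith

theorem ff_lo (hp : 2 < p) (x : ℝ) : 1 - kap2 p * x ^ 2 / 2 ≤ ff p x := by
  have e : 1 - kap2 p * x ^ 2 / 2 =
      ∫ y in Ioi (0 : ℝ), (K p y - x ^ 2 / 2 * (y ^ 2 * K p y)) := by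
    rw [integral_sub (int_K0 hp) ((int_K hp 2).const_mul _), integral_const_mul, mom_K0 hp,
      mom_K2 hp]; ring
  rw [e]
  refine integral_mono ((int_K0 hp).sub ((int_K hp 2).const_mul _)) (int_cos (int_K0 hp) x)
    fun y => ?_
  have := Real.one_sub_sq_div_two_le_cos (x := x * y)
  have := K_pos p y
  dsimp only
  nlinarith

theorem ff_hi (hp : 2 < p) (x : ℝ) :
    ff p x ≤ 1 - kap2 p * x ^ 2 / 2 + mu4 p * x ^ 4 / 24 := by
  have i1 : IntegrableOn (fun y => K p y - x ^ 2 / 2 * (y ^ 2 * K p y)) (Ioi 0) :=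
    (int_K0 hp).sub ((int_K hp 2).const_mul (x ^ 2 / 2))
  have e : 1 - kap2 p * x ^ 2 / 2 + mu4 p * x ^ 4 / 24 = ∫ y in Ioi (0 : ℝ),
      ((K p y - x ^ 2 / 2 * (y ^ 2 * K p y)) + x ^ 4 / 24 * (y ^ 4 * K p y)) := by
    rw [integral_add i1 ((int_K hp 4).const_mul _),
      integral_sub (int_K0 hp) ((int_K hp 2).const_mul _), integral_const_mul, integral_const_mul,
      mom_K0 hp, mom_K2 hp, mom_K4 hp]; ring
  rw [e]
  refine integral_mono (int_cos (int_K0 hp) x) (i1.add ((int_K hp 4).const_mul _)) fun y => ?_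
  have := cos_le_quartic (x * y)
  have := K_pos p y
  dsimp only
  nlinarith

theorem quad_le (hp : 2 < p) {e c0 c1 c2 x : ℝ} (hx : 0 ≤ x)
    (h : ∀ z, 0 ≤ z → c0 + c1 * z + c2 * z ^ 2 ≤ e * Real.sin z) :
    c0 + c1 * x + c2 * (x ^ 2 * (1 + vv p)) ≤ e * (x * ff p x) := by
  have hZ := Zp_pos hp
  have m0 := mom_rho hp 0
  have m1 := mom_rho hp 1
  have m2 := mom_rho hp 2
  simp only [Nat.cast_zero, zero_div, add_zero, Real.Gamma_one, pow_zero (Zp p), div_one] at m0
  rw [Nat.cast_one, pow_one (Zp p), ← Zp, div_self hZ.ne'] at m1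
  have m2' : ∫ y in Ioi (0 : ℝ), y ^ 2 * rho p y = 1 + vv p := by
    rw [m2, vv]; norm_num
  have i01 : IntegrableOn (fun y => c0 * (y ^ 0 * rho p y) + c1 * x * (y ^ 1 * rho p y)) (Ioi 0) :=
    ((int_rho hp 0).const_mul c0).add ((int_rho hp 1).const_mul (c1 * x))
  have e1 : c0 + c1 * x + c2 * (x ^ 2 * (1 + vv p)) = ∫ y in Ioi (0 : ℝ),
      ((c0 * (y ^ 0 * rho p y) + c1 * x * (y ^ 1 * rho p y)) + c2 * x ^ 2 * (y ^ 2 * rho p y)) := by
    rw [integral_add i01 ((int_rho hp 2).const_mul _),
      integral_add ((int_rho hp 0).const_mul c0) ((int_rho hp 1).const_mul (c1 * x)),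
      integral_const_mul, integral_const_mul, integral_const_mul, m0, m1, m2']
    ring
  rw [e1, x_mul_ff hp, sinT, ← integral_const_mul]
  refine setIntegral_mono_on (i01.add ((int_rho hp 2).const_mul _))
    ((int_sin (int_rho0 hp) x).const_mul e) measurableSet_Ioi fun y hy => ?_
  have hy : 0 < y := hy
  have := h (x * y) (by positivity)
  have := rho_nonneg hp hy.le
  nlinarith

theorem int_ff (hp : 2 < p) : IntegrableOn (ff p) (Ioi 0) := by
  set r1 : ℝ → ℝ := fun y => p * bp p * (p - 1) * W p (p - 2) y +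
    -(p * bp p) ^ 2 * W p (2 * p - 2) y with hr1
  have i1 : IntegrableOn r1 (Ioi 0) :=
    ((int_W hp (by linarith)).const_mul _).add ((int_W hp (by linarith)).const_mul _)
  have hd : ∀ y, 0 < y → HasDerivAt (rho p) (r1 y) y := fun y hy => by
    have := ((Real.hasDerivAt_rpow_const (x := y) (p := p - 1) (Or.inl hy.ne')).mul
      (hasDerivAt_K hp y)).const_mul (p * bp p)
    refine this.congr_deriv ?_
    simp only [hr1, rho, W]
    rw [show p - 1 - 1 = p - 2 by ring, show 2 * p - 2 = (p - 1) + (p - 1) by ring,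
      Real.rpow_add hy]
    ring
  have h0 : Tendsto (rho p) (𝓝[>] 0) (𝓝 0) := by
    have c1 : Continuous fun y : ℝ => y ^ (p - 1) := Real.continuous_rpow_const (by linarith)
    have c2 := cont_K hp
    have c : Continuous (rho p) := by unfold rho W; fun_prop
    have := (c.tendsto 0).mono_left (nhdsWithin_le_nhds (s := Ioi 0))
    rwa [show rho p 0 = 0 by simp [rho, W, Real.zero_rpow (by linarith : p - 1 ≠ 0)]] at this
  refine integrableOn_of_decay (cont_ff hp) (abs_ff_le hp) (K := ∫ y in Ioi (0 : ℝ), |r1 y|)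
    (s1 := 0) fun s _ => ?_
  have := parts_sin (int_rho0 hp) i1 hd h0 s
  rw [← x_mul_ff hp] at this
  calc s ^ 2 * |ff p s| = |s * (s * ff p s)| := by
        rw [← mul_assoc, abs_mul, abs_mul_self]; ring
    _ ≤ _ := by rw [this]; exact abs_cosT_le i1.abs (fun _ _ => le_rfl) s

theorem inversion (hp : 2 < p) (x : ℝ) : cosT (ff p) x = π / 2 * K p |x| := by
  have hπ : 0 < 2 * π := by positivity
  have hF : 𝓕 (fun y : ℝ => (K p |y| : ℂ)) = fun w => ((2 * ff p (2 * π * |w|) : ℝ) : ℂ) := by
    funext w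
    rw [fourier_even (int_K0 hp), ← abs_of_pos hπ, ← abs_mul, ff_abs, abs_of_pos hπ]
    rfl
  have i2 : IntegrableOn (fun w => 2 * ff p (2 * π * w)) (Ioi 0) := by
    refine Integrable.const_mul ?_ 2
    exact (integrableOn_Ioi_comp_mul_left_iff (ff p) 0 hπ).2 (by simpa using int_ff hp)
  have c := cont_K hp
  have := (integrable_comp_abs' (int_K0 hp)).ofReal.fourierInv_fourier_eq
    (by rw [hF]; exact (integrable_comp_abs' i2).ofReal) (v := x)
    (Continuous.continuousAt (by fun_prop))
  rw [hF, Real.fourierInv_eq_fourier_neg, fourier_even i2, Complex.ofReal_inj] at this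
  rw [← this]
  have e := integral_comp_mul_left_Ioi (fun s => ff p s * Real.cos (x * s)) 0 hπ
  simp only [mul_zero, smul_eq_mul] at e
  have e2 : ∫ w in Ioi (0 : ℝ), 2 * ff p (2 * π * w) * Real.cos (2 * π * -x * w) =
      2 * ∫ w in Ioi (0 : ℝ), ff p (2 * π * w) * Real.cos (x * (2 * π * w)) := by
    rw [← integral_const_mul]
    congr 1; funext w
    rw [← Real.cos_neg (x * _), mul_assoc]; congr 3; ring
  rw [e2, e, cosT]
  field_simp

end Pool.Agent.MP_39fec4_gt.Ball

end

section

set_option autoImplicit false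

namespace Pool.Agent.MP_39fec4_gt.Ball

open MeasureTheory Set Filter Topology Real
open scoped FourierTransform

variable {p : ℝ}

theorem cont_cosT {h : ℝ → ℝ} (hh : IntegrableOn h (Ioi 0)) : Continuous (cosT h) :=
  continuous_of_dominated (bound := fun x => |h x|) (fun s => (int_cos hh s).aestronglyMeasurable)
    (fun s => Eventually.of_forall fun x => by
      rw [Real.norm_eq_abs, abs_mul]
      exact mul_le_of_le_one_right (abs_nonneg _) (Real.abs_cos_le_one _)) hh.abs
    (Eventually.of_forall fun x => by fun_prop)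

theorem int_mul_ff (hp : 2 < p) {h : ℝ → ℝ} (hh : IntegrableOn h (Ioi 0)) (a : ℝ) :
    IntegrableOn (fun s => h s * ff p (a * s)) (Ioi 0) :=
  int_mul_bdd hh ((cont_ff hp).comp (by fun_prop)) fun _ => abs_ff_le hp _

theorem step (hp : 2 < p) {h : ℝ → ℝ} (hh : IntegrableOn h (Ioi 0)) (a x : ℝ) :
    cosT (fun s => h s * ff p (a * s)) x =
      ∫ y in Ioi (0 : ℝ), K p y * ((cosT h (x + a * y) + cosT h (x - a * y)) / 2) := by
  have hi : Integrable (Function.uncurry fun s y : ℝ =>
      h s * K p y * (Real.cos (a * s * y) * Real.cos (x * s)))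
      ((volume.restrict (Ioi (0 : ℝ))).prod (volume.restrict (Ioi (0 : ℝ)))) := by
    refine (Integrable.mul_prod hh (int_K0 hp)).mul_bdd (c := 1)
      (Continuous.aestronglyMeasurable (by fun_prop)) (Eventually.of_forall fun z => ?_)
    rw [Real.norm_eq_abs, abs_mul]
    exact mul_le_one₀ (Real.abs_cos_le_one _) (abs_nonneg _) (Real.abs_cos_le_one _)
  have := integral_integral_swap hi
  convert this using 2
  · rw [cosT]
    congr 1; funext s
    rw [ff, cosT, ← integral_const_mul, ← integral_mul_const]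
    congr 1; funext y; ring
  · funext y
    rw [cosT, cosT, ← integral_add (int_cos hh _) (int_cos hh _), ← integral_div,
      ← integral_const_mul]
    congr 1; funext s
    rw [add_mul, sub_mul, Real.cos_add, Real.cos_sub, show a * y * s = a * s * y by ring]
    ring

theorem sup_step (hp : 2 < p) {h : ℝ → ℝ} (hh : IntegrableOn h (Ioi 0)) {M : ℝ}
    (hM : ∀ x, cosT h x ≤ M) (a x : ℝ) : cosT (fun s => h s * ff p (a * s)) x ≤ M := by
  have c := cont_cosT hh
  have b : ∀ z, |cosT h z| ≤ ∫ s in Ioi (0 : ℝ), |h s| := abs_cosT_le hh.abs fun _ _ => le_rfl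
  rw [step hp hh]
  calc _ ≤ ∫ y in Ioi (0 : ℝ), K p y * M := by
        refine integral_mono ((int_K0 hp).mul_bdd (c := ∫ s in Ioi (0 : ℝ), |h s|)
          (Continuous.aestronglyMeasurable (by fun_prop)) (Eventually.of_forall fun y => ?_))
          ((int_K0 hp).mul_const M) fun y => ?_
        · rw [Real.norm_eq_abs, abs_le]
          have h1 := abs_le.1 (b (x + a * y))
          have h2 := abs_le.1 (b (x - a * y))
          constructor <;> linarith [h1.1, h1.2, h2.1, h2.2]
        · refine mul_le_mul_of_nonneg_left ?_ (K_pos p y).le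
          linarith [hM (x + a * y), hM (x - a * y)]
    _ = M := by rw [integral_mul_const, mom_K0 hp, one_mul]

theorem sup_prod (hp : 2 < p) {ι : Type*} [DecidableEq ι] (T : Finset ι) (a : ι → ℝ) {h : ℝ → ℝ}
    (hh : IntegrableOn h (Ioi 0)) {M : ℝ} (hM : ∀ x, cosT h x ≤ M) :
    IntegrableOn (fun s => h s * ∏ j ∈ T, ff p (a j * s)) (Ioi 0) ∧
      ∀ x, cosT (fun s => h s * ∏ j ∈ T, ff p (a j * s)) x ≤ M := by
  induction T using Finset.induction_on with
  | empty => simpa using ⟨hh, hM⟩
  | insert j T hj ih =>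
    have e : (fun s => h s * ∏ j ∈ insert j T, ff p (a j * s)) =
        fun s => (h s * ∏ j ∈ T, ff p (a j * s)) * ff p (a j * s) := by
      funext s; rw [Finset.prod_insert hj]; ring
    rw [e]
    exact ⟨int_mul_ff hp ih.1 _, sup_step hp ih.1 ih.2 _⟩

theorem int_scale {h : ℝ → ℝ} (hh : IntegrableOn h (Ioi 0)) {α : ℝ} (hα : 0 < α) :
    IntegrableOn (fun s => h (α * s)) (Ioi 0) :=
  (integrableOn_Ioi_comp_mul_left_iff h 0 hα).2 (by simpa using hh)

theorem integral_scale (h : ℝ → ℝ) {α : ℝ} (hα : 0 < α) :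
    ∫ s in Ioi (0 : ℝ), h (α * s) = (∫ s in Ioi (0 : ℝ), h s) / α := by
  rw [integral_comp_mul_left_Ioi h 0 hα, mul_zero, smul_eq_mul]; ring

theorem one_phys (hp : 2 < p) {α : ℝ} (hα : 0 < α) (x : ℝ) :
    cosT (fun s => ff p (α * s)) x = π / (2 * α) * K p (|x| / α) := by
  have := integral_scale (fun t => ff p t * Real.cos (x / α * t)) hα
  rw [← cosT, inversion hp, abs_div, abs_of_pos hα] at this
  rw [cosT, show π / (2 * α) * K p (|x| / α) = π / 2 * K p (|x| / α) / α by ring, ← this]
  congr 1; funext s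
  congr 2; field_simp

theorem rearr {F G : ℝ → ℝ} (hF : Integrable fun y => F |y|) (hG : Continuous G)
    (hb : ∀ y, 0 ≤ y → |G y| ≤ 1) (aF : ∀ x y, 0 ≤ x → x ≤ y → F y ≤ F x)
    (aG : ∀ x y, 0 ≤ x → x ≤ y → G y ≤ G x) (c : ℝ) :
    ∫ y, F |y| * G |y + c| ≤ ∫ y, F |y| * G |y| := by
  set h := c / 2 with hc
  have i : ∀ u v : ℝ, Integrable fun y => F |y + u| * G |y + v| := fun u v =>
    (hF.comp_add_right u).mul_bdd (c := 1) (Continuous.aestronglyMeasurable (by fun_prop))
      (Eventually.of_forall fun y => hb _ (abs_nonneg _))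
  have A := integral_add_right_eq_self (μ := volume) (fun y => F |y| * G |y|) h
  have B := integral_add_right_eq_self (μ := volume) (fun y => F |y| * G |y|) (-h)
  have C : ∫ y, F |y + -h| * G |y + h| = ∫ y, F |y| * G |y + c| := by
    rw [← integral_add_right_eq_self (μ := volume) (fun y => F |y| * G |y + c|) (-h)]
    congr 1; funext y; congr 3; rw [hc]; ring
  have D : ∫ y, F |y + h| * G |y + -h| = ∫ y, F |y + -h| * G |y + h| := by
    rw [← integral_neg_eq_self]
    congr 1; funext y
    rw [← abs_neg (-y + h), ← abs_neg (-y + -h)]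
    congr 3 <;> ring
  have E : 0 ≤ ∫ y, ((F |y + h| * G |y + h| + F |y + -h| * G |y + -h|) -
      (F |y + -h| * G |y + h| + F |y + h| * G |y + -h|)) := by
    refine integral_nonneg fun y => ?_
    rcases le_total |y + h| |y + -h| with h1 | h1
    · have := aF _ _ (abs_nonneg _) h1
      have := aG _ _ (abs_nonneg _) h1
      simp only [Pi.zero_apply]
      nlinarith
    · have := aF _ _ (abs_nonneg _) h1
      have := aG _ _ (abs_nonneg _) h1
      simp only [Pi.zero_apply]
      nlinarith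
  have i2 : ∀ u v u' v' : ℝ, Integrable fun y => F |y + u| * G |y + v| + F |y + u'| * G |y + v'| :=
    fun u v u' v' => (i u v).add (i u' v')
  rw [integral_sub (i2 _ _ _ _) (i2 _ _ _ _), integral_add (i _ _) (i _ _),
    integral_add (i _ _) (i _ _)] at E
  linarith

theorem integral_KK (hp : 2 < p) {r : ℝ} (hr : 0 ≤ r) :
    ∫ y in Ioi (0 : ℝ), K p y * K p (r * y) = (1 + r ^ p) ^ (-(1 / p)) := by
  have hZ := Zp_pos hp
  have hb := bp_pos hp
  have hp0 : 0 < p := by positivity
  have h1 : 0 < 1 + r ^ p := by positivity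
  have := integral_rpow_mul_exp_neg_mul_rpow (p := p) (q := 0) hp0 (by norm_num) (mul_pos hb h1)
  rw [Real.mul_rpow hb.le h1.le, bp, ← Real.rpow_mul hZ.le,
    show p * (-(0 + 1) / p) = -1 by field_simp; ring, Real.rpow_neg_one, zero_add] at this
  have e : Zp p = 1 / p * Real.Gamma (1 / p) := by
    rw [Zp, add_comm, Real.Gamma_add_one (by positivity)]
  rw [mul_assoc, ← e, neg_div] at this
  rw [show (1 + r ^ p) ^ (-(1 / p)) = (Zp p)⁻¹ * (1 + r ^ p) ^ (-(1 / p)) * Zp p by field_simp,
    ← this]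
  refine setIntegral_congr_fun measurableSet_Ioi fun y hy => ?_
  have hy : 0 < y := hy
  simp only [K, bp]
  rw [← Real.exp_add, Real.mul_rpow hr hy.le, Real.rpow_zero, one_mul]
  congr 1; ring

theorem two_phys (hp : 2 < p) {α β : ℝ} (hα : 0 < α) (hβ : 0 < β) (x : ℝ) :
    cosT (fun s => ff p (α * s) * ff p (β * s)) x ≤
      π / (2 * α) * (1 + (β / α) ^ p) ^ (-(1 / p)) := by
  have hπ := Real.pi_pos
  have hr : 0 < β / α := by positivity
  have cK := cont_K hp
  set G : ℝ → ℝ := fun w => K p (β / α * w) with hG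
  have iK := integrable_comp_abs' (int_K0 hp)
  have cG : Continuous G := by fun_prop
  have bG : ∀ y, 0 ≤ y → |G y| ≤ 1 := fun y hy => by
    rw [abs_of_pos (K_pos _ _)]; exact K_le_one hp (by positivity)
  have R := rearr (F := K p) (G := G) iK cG bG (fun x y hx hxy => K_anti hp hx hxy)
    (fun x y hx hxy => K_anti hp (by positivity) (by gcongr))
  have i : ∀ v : ℝ, Integrable fun y => K p |y| * G |y + v| := fun v =>
    iK.mul_bdd (c := 1) (Continuous.aestronglyMeasurable (by fun_prop))
      (Eventually.of_forall fun y => bG _ (abs_nonneg _))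
  have e1 := integral_comp_abs (f := fun y => K p y * G y)
  have e2 := integral_comp_abs (f := fun y => K p y * ((G |y + x / β| + G |y + -(x / β)|) / 2))
  have e3 : ∫ y, K p |y| * ((G |(|y|) + x / β| + G |(|y|) + -(x / β)|) / 2) =
      ((∫ y, K p |y| * G |y + x / β|) + ∫ y, K p |y| * G |y + -(x / β)|) / 2 := by
    rw [← integral_add (i _) (i _), ← integral_div]
    congr 1; funext y
    rcases abs_cases y with h | h
    · rw [h.1]; ring
    · rw [h.1, ← abs_neg (-y + x / β), ← abs_neg (-y + -(x / β)),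
        show -(-y + x / β) = y + -(x / β) by ring, show -(-y + -(x / β)) = y + x / β by ring]
      ring
  have e4 : cosT (fun s => ff p (α * s) * ff p (β * s)) x = π / (2 * α) *
      ∫ y in Ioi (0 : ℝ), K p y * ((G |y + x / β| + G |y + -(x / β)|) / 2) := by
    rw [step hp (int_scale (int_ff hp) hα), ← integral_const_mul]
    congr 1; funext y
    rw [one_phys hp hα, one_phys hp hα, hG]
    have a1 : |x + β * y| / α = β / α * |y + x / β| := by
      rw [show x + β * y = β * (y + x / β) by field_simp; ring, abs_mul, abs_of_pos hβ]; ring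
    have a2 : |x - β * y| / α = β / α * |y + -(x / β)| := by
      rw [abs_sub_comm, show β * y - x = β * (y + -(x / β)) by field_simp; ring, abs_mul,
        abs_of_pos hβ]; ring
    rw [a1, a2]; ring
  rw [e4, ← integral_KK hp hr.le]
  refine mul_le_mul_of_nonneg_left ?_ (by positivity)
  have := R (x / β)
  have := R (-(x / β))
  simp only [hG] at *
  linarith

theorem integral_ff_sq (hp : 2 < p) :
    ∫ s in Ioi (0 : ℝ), ff p s ^ 2 = π / 2 * 2 ^ (-(1 / p)) := by
  have := step hp (int_ff hp) 1 0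
  rw [cosT_zero] at this
  simp only [one_mul, zero_add, zero_sub, inversion hp, abs_neg] at this
  have e := integral_KK hp (r := 1) zero_le_one
  simp only [one_mul, Real.one_rpow, one_add_one_eq_two] at e
  simp only [sq]
  rw [this, ← e, ← integral_const_mul]
  refine setIntegral_congr_fun measurableSet_Ioi fun y hy => ?_
  simp only [abs_of_pos (mem_Ioi.1 hy)]
  ring

theorem abs_prod_le_one {ι : Type*} (T : Finset ι) {y : ι → ℝ} (hy : ∀ j, |y j| ≤ 1) :
    |∏ j ∈ T, y j| ≤ 1 := by
  rw [Finset.abs_prod]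
  exact Finset.prod_le_one (fun _ _ => abs_nonneg _) fun j _ => hy j

theorem int_prod (hp : 2 < p) {ι : Type*} [DecidableEq ι] (T : Finset ι) (a : ι → ℝ) {i : ι}
    (hi : i ∈ T) (ha : 0 < a i) : IntegrableOn (fun s => ∏ j ∈ T, ff p (a j * s)) (Ioi 0) := by
  have c := cont_ff hp
  simp only [← Finset.mul_prod_erase T _ hi]
  exact int_mul_bdd (int_scale (int_ff hp) ha) (by fun_prop)
    fun s => abs_prod_le_one _ fun j => abs_ff_le hp _

theorem II_eq (hp : 2 < p) {n : ℕ} (a : EuclideanSpace ℝ (Fin n)) (ha : ‖a‖ = 1) :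
    ∫ y : (ℝ ∙ a)ᗮ, ∏ j, Real.exp (-|(y : EuclideanSpace ℝ (Fin n)) j| ^ p) =
      (2 * Zp p) ^ n / (π * Zp p) * ∫ s in Ioi (0 : ℝ), ∏ j, ff p (|a j| * s) := by
  have hZ := Zp_pos hp
  have hπ : 0 < 2 * π * Zp p := by positivity
  have hp0 : 0 < p := by positivity
  obtain ⟨i, hi⟩ : ∃ i, a i ≠ 0 := by
    by_contra h
    push Not at h
    have : a = 0 := by ext j; exact h j
    simp [this] at ha
  have hI := int_prod hp Finset.univ (fun j => |a j|) (Finset.mem_univ i) (abs_pos.2 hi)
  have hk : IntegrableOn (fun x : ℝ => Real.exp (-x ^ p)) (Ioi 0) := by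
    simpa using integrableOn_rpow_mul_exp_neg_mul_rpow (s := 0) (by norm_num) hp0 one_pos
  have hk2 : ∀ s : ℝ, ∫ x in Ioi (0 : ℝ), Real.exp (-x ^ p) * Real.cos (s * x) =
      Zp p * ff p (Zp p * s) := fun s => by
    have := integral_scale (fun x => Real.exp (-x ^ p) * Real.cos (s * x)) hZ
    rw [eq_div_iff hZ.ne'] at this
    rw [← this, mul_comm, ff, cosT]
    congr 1
    refine setIntegral_congr_fun measurableSet_Ioi fun y hy => ?_
    have hy : 0 < y := hy
    simp only [K, bp]
    rw [Real.mul_rpow hZ.le hy.le]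
    congr 2 <;> ring
  set P : ℝ → ℝ := fun s => ∏ j, ff p (|a j| * s) with hP
  have hF : ∀ w : ℝ, 𝓕 (fun x : EuclideanSpace ℝ (Fin n) =>
      ∏ j, ((Real.exp (-|x j| ^ p) : ℝ) : ℂ)) (w • a) =
      (((2 * Zp p) ^ n * P |2 * π * Zp p * w| : ℝ) : ℂ) := fun w => by
    rw [fourier_prod (fun t => ((Real.exp (-|t| ^ p) : ℝ) : ℂ))]
    simp_rw [fourier_even hk]
    rw [← Complex.ofReal_prod, hP]
    congr 1
    rw [← Fin.prod_const, ← Finset.prod_mul_distrib]
    refine Finset.prod_congr rfl fun j _ => ?_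
    rw [hk2, ← abs_mul, ff_abs, mul_assoc 2 (Zp p)]
    simp only [PiLp.smul_apply, smul_eq_mul]
    congr 3; ring
  have iP : Integrable fun w => P |2 * π * Zp p * w| :=
    (integrable_comp_abs' hI).comp_mul_left' hπ.ne'
  have c1 : Continuous fun y : ℝ => y ^ p := Real.continuous_rpow_const hp0.le
  have := slice a ha (F := fun x : EuclideanSpace ℝ (Fin n) =>
      ∏ j, ((Real.exp (-|x j| ^ p) : ℝ) : ℂ))
    (by fun_prop (disch := positivity)) (C := Real.exp 1 ^ n) (fun x => by
      rw [← Complex.ofReal_prod, Complex.norm_real, Real.norm_eq_abs,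
        abs_of_nonneg (Finset.prod_nonneg fun j _ => (Real.exp_pos _).le),
        EuclideanSpace.real_norm_sq_eq, ← Finset.sum_neg_distrib, Real.exp_sum, ← Fin.prod_const,
        ← Finset.prod_mul_distrib]
      refine Finset.prod_le_prod (fun j _ => (Real.exp_pos _).le) fun j _ => ?_
      rw [← Real.exp_add, Real.exp_le_exp, ← sq_abs (x j)]
      have h0 := abs_nonneg (x j)
      rcases le_total |x j| 1 with h | h
      · have : 0 ≤ |x j| ^ p := by positivity
        nlinarith
      · have := Real.rpow_le_rpow_of_exponent_le h hp.le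
        rw [Real.rpow_two] at this
        linarith)
    (by simp_rw [hF]; exact (iP.const_mul _).ofReal)
  simp_rw [hF, ← Complex.ofReal_prod] at this
  rw [integral_complex_ofReal, integral_complex_ofReal, Complex.ofReal_inj, integral_const_mul,
    Measure.integral_comp_mul_left (fun s => P |s|), integral_comp_abs] at this
  rw [this, abs_of_pos (inv_pos.2 hπ), smul_eq_mul]
  field_simp

end Pool.Agent.MP_39fec4_gt.Ball

end
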