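import Mathlib
import Pool.Agent.Mg.F39fec4.Gc91473

section

set_option autoImplicit false

namespace Pool.Agent.MP_39fec4_gt.P4

open MeasureTheory Set Filter Topology

/-- The derivatives of the cosine of the square root. -/
noncomputable def CC : ℕ → ℝ → ℝ
  | 0 => fun y => Real.cos √y
  | (k + 1) => fun y => -(1 / 2) * ∫ u in (0 : ℝ)..1, u ^ (2 * k) * CC k (u ^ 2 * y)

noncomputable def bb : ℕ → ℝ
  | 0 => 1
  | (k + 1) => bb k / (2 * (2 * k + 1))

theorem bb_pos (k : ℕ) : 0 < bb k := by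
  induction k with
  | zero => simp [bb]
  | succ k ih => rw [bb]; positivity

theorem cont_CC (k : ℕ) : Continuous (CC k) := by
  induction k with
  | zero => unfold CC; fun_prop
  | succ k ih =>
    unfold CC
    refine continuous_const.mul ?_
    exact intervalIntegral.continuous_parametric_intervalIntegral_of_continuous'
      (f := fun y u => u ^ (2 * k) * CC k (u ^ 2 * y)) (by unfold Function.uncurry; fun_prop) 0 1

theorem abs_CC (k : ℕ) (y : ℝ) : |CC k y| ≤ bb k := by
  induction k generalizing y with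
  | zero => exact Real.abs_cos_le_one _
  | succ k ih =>
    have h1 : ‖∫ u in (0 : ℝ)..1, u ^ (2 * k) * CC k (u ^ 2 * y)‖ ≤
        ∫ u in (0 : ℝ)..1, u ^ (2 * k) * bb k := by
      refine intervalIntegral.norm_integral_le_of_norm_le zero_le_one
        (Eventually.of_forall fun u hu => ?_) (Continuous.intervalIntegrable (by fun_prop) _ _)
      rw [Real.norm_eq_abs, abs_mul, abs_of_nonneg (pow_nonneg hu.1.le _)]
      exact mul_le_mul_of_nonneg_left (ih _) (pow_nonneg hu.1.le _)
    rw [intervalIntegral.integral_mul_const, integral_pow, Real.norm_eq_abs] at h1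
    simp only [CC, bb, abs_mul, abs_neg]
    rw [abs_of_pos (by norm_num : (0 : ℝ) < 1 / 2)]
    refine (mul_le_mul_of_nonneg_left h1 (by norm_num)).trans (le_of_eq ?_)
    push_cast
    simp
    field_simp

theorem CC_zero (k : ℕ) : CC k 0 = (-1) ^ k * bb k := by
  induction k with
  | zero => simp [CC, bb]
  | succ k ih =>
    simp only [CC, bb, mul_zero, ih]
    rw [intervalIntegral.integral_mul_const, integral_pow]
    push_cast
    simp
    field_simp
    ring

theorem hasDerivAt_CC (k : ℕ) {y : ℝ} (hy : 0 < y) : HasDerivAt (CC k) (CC (k + 1) y) y := by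
  induction k generalizing y with
  | zero =>
    have hs : 0 < √y := Real.sqrt_pos.2 hy
    have h1 : HasDerivAt (fun y => Real.cos √y) (-Real.sin √y * (1 / (2 * √y))) y :=
      (Real.hasDerivAt_cos _).comp y (Real.hasDerivAt_sqrt hy.ne')
    have h2 : ∫ u in (0 : ℝ)..1, u ^ (2 * 0) * CC 0 (u ^ 2 * y) =
        ∫ u in (0 : ℝ)..1, Real.cos (u * √y) := by
      refine intervalIntegral.integral_congr fun u hu => ?_
      rw [uIcc_of_le zero_le_one] at hu
      simp only [CC, mul_zero, pow_zero, one_mul]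
      rw [Real.sqrt_mul (sq_nonneg u), Real.sqrt_sq hu.1]
    have h3 : CC 1 y = -Real.sin √y * (1 / (2 * √y)) := by
      show -(1 / 2) * ∫ u in (0 : ℝ)..1, u ^ (2 * 0) * CC 0 (u ^ 2 * y) = _
      rw [h2, intervalIntegral.integral_comp_mul_right (fun x => Real.cos x) hs.ne']
      simp
      field_simp
    rw [zero_add, h3]
    exact h1
  | succ k ih =>
    have hc := cont_CC k
    have hc1 := cont_CC (k + 1)
    have := intervalIntegral.hasDerivAt_integral_of_dominated_loc_of_deriv_le (μ := volume)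
      (a := 0) (b := 1) (F := fun y u => u ^ (2 * k) * CC k (u ^ 2 * y))
      (F' := fun y u => u ^ (2 * (k + 1)) * CC (k + 1) (u ^ 2 * y)) (x₀ := y)
      (bound := fun _ => bb (k + 1)) (s := Ioi 0) (Ioi_mem_nhds hy)
      (Eventually.of_forall fun x => Continuous.aestronglyMeasurable (by fun_prop))
      (Continuous.intervalIntegrable (by fun_prop) _ _)
      (Continuous.aestronglyMeasurable (by fun_prop))
      (Eventually.of_forall fun u hu x _ => by
        rw [uIoc_of_le zero_le_one] at hu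
        rw [Real.norm_eq_abs, abs_mul, abs_of_nonneg (pow_nonneg hu.1.le _)]
        calc u ^ (2 * (k + 1)) * |CC (k + 1) (u ^ 2 * x)| ≤ 1 * bb (k + 1) :=
              mul_le_mul (pow_le_one₀ hu.1.le hu.2) (abs_CC _ _) (abs_nonneg _) zero_le_one
          _ = bb (k + 1) := one_mul _)
      intervalIntegrable_const
      (Eventually.of_forall fun u hu x hx => by
        rw [uIoc_of_le zero_le_one] at hu
        have hp : 0 < u ^ 2 * x := mul_pos (pow_pos hu.1 2) hx
        have h1 := ((ih hp).comp x ((hasDerivAt_id x).const_mul (u ^ 2))).const_mul (u ^ (2 * k))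
        refine h1.congr_deriv ?_
        ring)
    exact this.2.const_mul (-(1 / 2))

/-- The weight times a power. -/
noncomputable def ww (k : ℕ) (x : ℝ) : ℝ := x ^ (2 * k) * Real.exp (-x ^ 4)

theorem cont_ww (k : ℕ) : Continuous (ww k) := by unfold ww; fun_prop

theorem ww_nonneg (k : ℕ) (x : ℝ) : 0 ≤ ww k x := by
  unfold ww; rw [pow_mul]; positivity

theorem ww_eq (k : ℕ) (x : ℝ) :
    ww k x = x ^ ((2 * k : ℕ) : ℝ) * Real.exp (-x ^ (4 : ℝ)) := by
  rw [ww, Real.rpow_natCast, show (4 : ℝ) = ((4 : ℕ) : ℝ) by norm_num, Real.rpow_natCast]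

theorem int_ww (k : ℕ) : IntegrableOn (ww k) (Ioi 0) := by
  have := integrableOn_rpow_mul_exp_neg_rpow (p := 4) (s := ((2 * k : ℕ) : ℝ))
    (by have : (0 : ℝ) ≤ ((2 * k : ℕ) : ℝ) := Nat.cast_nonneg _; linarith) (by norm_num)
  exact this.congr_fun (fun x _ => (ww_eq k x).symm) measurableSet_Ioi

/-- Moments. -/
noncomputable def mm (k : ℕ) : ℝ := ∫ x in Ioi (0 : ℝ), ww k x

theorem mm_eq (k : ℕ) : mm k = 1 / 4 * Real.Gamma ((2 * k + 1) / 4) := by
  have := integral_rpow_mul_exp_neg_rpow (p := 4) (q := ((2 * k : ℕ) : ℝ)) (by norm_num)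
    (by have : (0 : ℝ) ≤ ((2 * k : ℕ) : ℝ) := Nat.cast_nonneg _; linarith)
  rw [mm]
  simp_rw [ww_eq]
  rw [this]; push_cast; rfl

theorem mm_pos (k : ℕ) : 0 < mm k := by
  rw [mm_eq]
  have := Real.Gamma_pos_of_pos (s := (2 * k + 1) / 4) (by positivity)
  positivity

theorem mm_succ (k : ℕ) : mm (k + 2) = (2 * k + 1) / 4 * mm k := by
  rw [mm_eq, mm_eq]
  have : ((2 * ((k + 2 : ℕ) : ℝ) + 1) / 4) = (2 * k + 1) / 4 + 1 := by push_cast; ring
  rw [this, Real.Gamma_add_one (by positivity)]
  ring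

/-- The tower of derivatives of the normalised Fourier transform in the squared variable. -/
noncomputable def gg (k : ℕ) (s : ℝ) : ℝ :=
  (∫ x in Ioi (0 : ℝ), ww k x * CC k (s * x ^ 2)) / mm 0

noncomputable def MM (k : ℕ) : ℝ := bb k * mm k / mm 0

theorem MM_pos (k : ℕ) : 0 < MM k := by
  have := bb_pos k; have := mm_pos k; have := mm_pos 0
  unfold MM; positivity

theorem MM_zero : MM 0 = 1 := by
  have := mm_pos 0
  simp [MM, bb, this.ne']

theorem MM_succ (k : ℕ) : MM (k + 2) = MM k / (16 * (2 * k + 3)) := by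
  have := mm_pos 0
  simp only [MM, bb, mm_succ]
  push_cast
  field_simp
  ring

theorem norm_integrand (k : ℕ) (y x : ℝ) : ‖ww k x * CC k y‖ ≤ ww k x * bb k := by
  rw [Real.norm_eq_abs, abs_mul, abs_of_nonneg (ww_nonneg k x)]
  exact mul_le_mul_of_nonneg_left (abs_CC _ _) (ww_nonneg k x)

theorem abs_gg (k : ℕ) (s : ℝ) : |gg k s| ≤ MM k := by
  have h0 := mm_pos 0
  have h1 : ‖∫ x in Ioi (0 : ℝ), ww k x * CC k (s * x ^ 2)‖ ≤ ∫ x in Ioi (0 : ℝ), ww k x * bb k :=
    norm_integral_le_of_norm_le ((int_ww k).mul_const _)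
      (Eventually.of_forall fun x => norm_integrand k _ x)
  rw [integral_mul_const, Real.norm_eq_abs] at h1
  rw [gg, MM, abs_div, abs_of_pos h0, mul_comm (bb k)]
  exact div_le_div_of_nonneg_right h1 h0.le

theorem gg_zero (k : ℕ) : gg k 0 = (-1) ^ k * MM k := by
  simp only [gg, MM, zero_mul, CC_zero]
  rw [integral_mul_const, ← mm]
  ring

theorem cont_gg (k : ℕ) : Continuous (gg k) := by
  have hc := cont_CC k
  have hw := cont_ww k
  refine Continuous.div_const ?_ _
  exact continuous_of_dominated (bound := fun x => ww k x * bb k)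
    (fun s => Continuous.aestronglyMeasurable (by fun_prop))
    (fun s => Eventually.of_forall fun x => norm_integrand k _ x) ((int_ww k).mul_const _)
    (Eventually.of_forall fun x => by fun_prop)

theorem hasDerivAt_gg (k : ℕ) {s : ℝ} (hs : 0 < s) : HasDerivAt (gg k) (gg (k + 1) s) s := by
  have hc := cont_CC k
  have hw := cont_ww k
  have hc1 := cont_CC (k + 1)
  have hw1 := cont_ww (k + 1)
  have := hasDerivAt_integral_of_dominated_loc_of_deriv_le (μ := volume.restrict (Ioi (0 : ℝ)))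
    (F := fun s x => ww k x * CC k (s * x ^ 2))
    (F' := fun s x => ww (k + 1) x * CC (k + 1) (s * x ^ 2)) (x₀ := s)
    (bound := fun x => ww (k + 1) x * bb (k + 1)) (s := Ioi 0) (Ioi_mem_nhds hs)
    (Eventually.of_forall fun x => Continuous.aestronglyMeasurable (by fun_prop))
    (((int_ww k).mul_const (bb k)).mono' (Continuous.aestronglyMeasurable (by fun_prop))
      (Eventually.of_forall fun x => norm_integrand k _ x))
    (Continuous.aestronglyMeasurable (by fun_prop))
    (Eventually.of_forall fun x s _ => norm_integrand _ _ x) ((int_ww (k + 1)).mul_const _)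
    ((ae_restrict_iff' measurableSet_Ioi).2 (Eventually.of_forall fun x hx y hy => by
      have hp : 0 < y * x ^ 2 := mul_pos hy (pow_pos hx 2)
      have h1 := ((hasDerivAt_CC k hp).comp y ((hasDerivAt_id y).mul_const (x ^ 2))).const_mul
        (ww k x)
      refine h1.congr_deriv ?_
      simp only [ww]; ring))
  exact this.2.div_const _

theorem abs_sub_le_of_bound {f f' B B' : ℝ → ℝ} {c x : ℝ} (hx : c ≤ x)
    (hf : ContinuousOn f (Icc c x)) (hB : ContinuousOn B (Icc c x))
    (hf' : ∀ t ∈ Ioo c x, HasDerivAt f (f' t) t) (hB' : ∀ t ∈ Ioo c x, HasDerivAt B (B' t) t)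
    (h : ∀ t ∈ Ioo c x, |f' t| ≤ B' t) : |f x - f c| ≤ B x - B c := by
  have h1 := monotoneOn_of_hasDerivWithinAt_nonneg (convex_Icc c x) (f := fun t => B t - f t)
    (f' := fun t => B' t - f' t) (hB.sub hf)
    (fun t ht => by
      rw [interior_Icc] at ht ⊢; exact ((hB' t ht).sub (hf' t ht)).hasDerivWithinAt)
    (fun t ht => by rw [interior_Icc] at ht; linarith [(abs_le.1 (h t ht)).2])
    (left_mem_Icc.2 hx) (right_mem_Icc.2 hx) hx
  have h2 := monotoneOn_of_hasDerivWithinAt_nonneg (convex_Icc c x) (f := fun t => B t + f t)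
    (f' := fun t => B' t + f' t) (hB.add hf)
    (fun t ht => by
      rw [interior_Icc] at ht ⊢; exact ((hB' t ht).add (hf' t ht)).hasDerivWithinAt)
    (fun t ht => by rw [interior_Icc] at ht; linarith [(abs_le.1 (h t ht)).1])
    (left_mem_Icc.2 hx) (right_mem_Icc.2 hx) hx
  simp only at h1 h2
  rw [abs_le]; constructor <;> linarith

/-- Taylor expansion to the right of a nonnegative centre. -/
theorem taylor (N : ℕ) : ∀ (j : ℕ) (c x : ℝ), 0 ≤ c → c ≤ x →
    |gg j x - ∑ i ∈ Finset.range N, gg (j + i) c * (x - c) ^ i / i.factorial| ≤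
      MM (j + N) * (x - c) ^ N / N.factorial := by
  induction N with
  | zero => intro j c x _ _; simpa using abs_gg j x
  | succ N ih =>
    intro j c x hc hx
    have hg := cont_gg j
    have := abs_sub_le_of_bound
      (f := fun x => gg j x - ∑ i ∈ Finset.range N,
        gg (j + (i + 1)) c * (x - c) ^ (i + 1) / (i + 1).factorial)
      (f' := fun x => gg (j + 1) x - ∑ i ∈ Finset.range N,
        gg (j + 1 + i) c * (x - c) ^ i / i.factorial)
      (B := fun x => MM (j + (N + 1)) * (x - c) ^ (N + 1) / (N + 1).factorial)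
      (B' := fun x => MM (j + 1 + N) * (x - c) ^ N / N.factorial) hx
      (Continuous.continuousOn (by fun_prop)) (Continuous.continuousOn (by fun_prop))
      (fun t ht => by
        refine (hasDerivAt_gg j (hc.trans_lt ht.1)).sub ?_
        refine HasDerivAt.fun_sum fun i _ => ?_
        have h1 := ((((hasDerivAt_id t).sub_const c).pow (i + 1)).const_mul
          (gg (j + (i + 1)) c)).div_const ((i + 1).factorial : ℝ)
        refine h1.congr_deriv ?_
        rw [Nat.factorial_succ, show j + 1 + i = j + (i + 1) by ring]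
        have : ((i.factorial : ℕ) : ℝ) ≠ 0 := by positivity
        simp
        field_simp)
      (fun t _ => by
        have h1 := ((((hasDerivAt_id t).sub_const c).pow (N + 1)).const_mul
          (MM (j + (N + 1)))).div_const ((N + 1).factorial : ℝ)
        refine h1.congr_deriv ?_
        rw [Nat.factorial_succ, show j + 1 + N = j + (N + 1) by ring]
        have : ((N.factorial : ℕ) : ℝ) ≠ 0 := by positivity
        simp
        field_simp)
      (fun t ht => ih (j + 1) c t hc ht.1.le)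
    rw [Finset.sum_range_succ']
    simp only [sub_self, ne_eq, Nat.add_eq_zero_iff, one_ne_zero, and_false, not_false_eq_true,
      zero_pow, mul_zero, zero_div, Finset.sum_const_zero, sub_zero] at this
    simp only [add_zero, pow_zero, mul_one, Nat.factorial_zero, Nat.cast_one, div_one]
    convert this using 2
    ring

end Pool.Agent.MP_39fec4_gt.P4

end

section

set_option autoImplicit false

namespace Pool.Agent.MP_39fec4_gt.Full

open MeasureTheory Set Real Ball Filter Topology
open scoped FourierTransform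

variable {p : ℝ} {F : ℝ → ℝ}

/-- The hypotheses under which Poisson summation is applied. -/
structure PGood (F : ℝ → ℝ) : Prop where
  cont : Continuous F
  int : IntegrableOn F (Ioi 0)
  nn : ∀ x, 0 ≤ cosT F x
  dec : ∃ c, ∀ s, (1 + s ^ 2) * |F s| ≤ c
  fdec : ∃ c, ∀ x, (1 + x ^ 2) * cosT F x ≤ c

namespace FPoisAX

theorem sq_ff (hp : 2 < p) : ∃ c, ∀ s, s ^ 2 * |ff p s| ≤ c := by
  set r1 : ℝ → ℝ := fun y => p * bp p * (p - 1) * W p (p - 2) y +
    -(p * bp p) ^ 2 * W p (2 * p - 2) y with hr1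
  have i1 : IntegrableOn r1 (Ioi 0) :=
    ((int_W hp (by linarith)).const_mul _).add ((int_W hp (by linarith)).const_mul _)
  have hd : ∀ y, 0 < y → HasDerivAt (rho p) (r1 y) y := fun y hy => by
    have := ((Real.hasDerivAt_rpow_const (x := y) (p := p - 1) (Or.inl hy.ne')).mul
      (hasDerivAt_K hp y)).const_mul (p * bp p)
    refine this.congr_deriv ?_
    simp only [hr1, rho, W]
    rw [show p - 1 - 1 = p - 2 by ring, show 2 * p - 2 = (p - 1) + (p - 1) by ring,
      Real.rpow_add hy]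
    ring
  have h0 : Tendsto (rho p) (𝓝[>] 0) (𝓝 0) := by
    have c1 : Continuous fun y : ℝ => y ^ (p - 1) := Real.continuous_rpow_const (by linarith)
    have c2 := cont_K hp
    have c : Continuous (rho p) := by unfold rho W; fun_prop
    have := (c.tendsto 0).mono_left (nhdsWithin_le_nhds (s := Ioi 0))
    rwa [show rho p 0 = 0 by simp [rho, W, Real.zero_rpow (by linarith : p - 1 ≠ 0)]] at this
  refine ⟨∫ y in Ioi (0 : ℝ), |r1 y|, fun s => ?_⟩
  have := parts_sin (int_rho0 hp) i1 hd h0 s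
  rw [← x_mul_ff hp] at this
  calc s ^ 2 * |ff p s| = |s * (s * ff p s)| := by
        rw [← mul_assoc, abs_mul, abs_mul_self]; ring
    _ ≤ _ := by rw [this]; exact abs_cosT_le i1.abs (fun _ _ => le_rfl) s

theorem sq_K (hp : 2 < p) {y : ℝ} (hy : 0 ≤ y) : y ^ 2 * K p y ≤ 1 + 1 / bp p := by
  have hb := bp_pos hp
  have hK := K_pos p y
  have h1 := K_le_one hp hy
  have h2 : 0 < 1 / bp p := by positivity
  rcases le_total y 1 with h | h
  · have : y ^ 2 ≤ 1 := pow_le_one₀ hy h
    nlinarith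
  · have h3 := Real.rpow_le_rpow_of_exponent_le h hp.le
    rw [Real.rpow_two] at h3
    have h4 := Real.add_one_le_exp (bp p * y ^ p)
    have h5 : K p y * Real.exp (bp p * y ^ p) = 1 := by
      rw [K, ← Real.exp_add]; simp
    have h6 : bp p * (y ^ 2 * K p y) ≤ 1 := by
      have : bp p * y ^ 2 ≤ Real.exp (bp p * y ^ p) := by nlinarith
      nlinarith
    have : y ^ 2 * K p y ≤ 1 / bp p := by rw [le_div_iff₀ hb]; linarith
    linarith

theorem shift (x t : ℝ) : 1 + x ^ 2 ≤ 2 * (1 + t ^ 2) * (1 + (x + t) ^ 2) := by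
  nlinarith [sq_nonneg (x + 2 * t), sq_nonneg (t * (x + t)), sq_nonneg (x + t)]

theorem summ {G : ℝ → ℝ} {c a : ℝ} (ha : 0 < a) (h : ∀ s, (1 + s ^ 2) * |G s| ≤ c) :
    Summable fun m : ℕ => G ((m + 1) * a) := by
  have h1 : Summable fun m : ℕ => c / a ^ 2 * (1 / ((m + 1 : ℕ) : ℝ) ^ 2) :=
    ((summable_nat_add_iff 1).2 (Real.summable_one_div_nat_pow.2 one_lt_two)).mul_left _
  refine Summable.of_norm_bounded h1 fun m => ?_
  have h2 := h ((m + 1) * a)
  have h3 := abs_nonneg (G ((m + 1) * a))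
  rw [Real.norm_eq_abs, div_mul_div_comm, mul_one, le_div_iff₀ (by positivity)]
  push_cast
  nlinarith

theorem hasSum_even {G : ℝ → ℝ} {c a : ℝ} (ha : 0 < a) (h : ∀ s, (1 + s ^ 2) * |G s| ≤ c) :
    HasSum (fun n : ℤ => G (|(n : ℝ)| * a)) (G 0 + 2 * ∑' m : ℕ, G ((m + 1) * a)) := by
  have h1 := (summ ha h).hasSum
  have := HasSum.of_add_one_of_neg_add_one (f := fun n : ℤ => G (|(n : ℝ)| * a))
    (m := ∑' m : ℕ, G ((m + 1) * a)) (m' := ∑' m : ℕ, G ((m + 1) * a))
    (by
      convert h1 using 2 with m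
      push_cast
      rw [abs_of_nonneg (by positivity)])
    (by
      convert h1 using 2 with m
      push_cast
      rw [abs_neg, abs_of_nonneg (by positivity)])
  convert this using 1
  simp
  ring

end FPoisAX

open FPoisAX

theorem pgood_one (hp : 2 < p) {α : ℝ} (hα : 0 < α) : PGood fun s => ff p (α * s) := by
  have hπ := Real.pi_pos
  refine ⟨(cont_ff hp).comp (by fun_prop), int_scale (int_ff hp) hα, fun x => ?_, ?_, ?_⟩
  · rw [one_phys hp hα]
    have := K_pos p (|x| / α)
    positivity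
  · obtain ⟨c, hc⟩ := sq_ff hp
    refine ⟨1 + c / α ^ 2, fun s => ?_⟩
    have h1 := abs_ff_le hp (α * s)
    have h2 : s ^ 2 * |ff p (α * s)| ≤ c / α ^ 2 := by
      rw [le_div_iff₀ (by positivity)]
      have := hc (α * s)
      nlinarith
    nlinarith
  · refine ⟨π / (2 * α) * (1 + α ^ 2 * (1 + 1 / bp p)), fun x => ?_⟩
    rw [one_phys hp hα, mul_left_comm]
    refine mul_le_mul_of_nonneg_left ?_ (by positivity)
    have h0 : 0 ≤ |x| / α := by positivity
    have h1 := K_le_one hp h0
    have h2 := mul_le_mul_of_nonneg_left (sq_K hp h0) (sq_nonneg α)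
    have h3 : α ^ 2 * ((|x| / α) ^ 2 * K p (|x| / α)) = x ^ 2 * K p (|x| / α) := by
      rw [div_pow, sq_abs]; field_simp
    linarith

theorem PGood.mul (hp : 2 < p) (hF : PGood F) (a : ℝ) : PGood fun s => F s * ff p (a * s) := by
  have c0 := cont_ff hp
  have c1 := hF.cont
  refine ⟨by fun_prop, int_mul_ff hp hF.int a, fun x => ?_, ?_, ?_⟩
  · rw [step hp hF.int]
    refine integral_nonneg fun y => ?_
    have := K_pos p y
    have := hF.nn (x + a * y)
    have := hF.nn (x - a * y)
    simp only [Pi.zero_apply]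
    positivity
  · obtain ⟨c, hc⟩ := hF.dec
    refine ⟨c, fun s => le_trans ?_ (hc s)⟩
    rw [abs_mul]
    exact mul_le_mul_of_nonneg_left
      (mul_le_of_le_one_right (abs_nonneg _) (abs_ff_le hp _)) (by positivity)
  · obtain ⟨c, hc⟩ := hF.fdec
    refine ⟨∫ y in Ioi (0 : ℝ), (2 * c * K p y + 2 * c * a ^ 2 * (y ^ 2 * K p y)), fun x => ?_⟩
    rw [step hp hF.int, ← integral_const_mul]
    refine (le_abs_self _).trans (abs_integral_le
      (((int_K0 hp).const_mul _).add ((int_K hp 2).const_mul _)) fun y _ => ?_)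
    have hK := K_pos p y
    have n1 := hF.nn (x + a * y)
    have n2 := hF.nn (x - a * y)
    have key : ∀ t : ℝ, (1 + x ^ 2) * cosT F (x + t) ≤ 2 * (1 + t ^ 2) * c := fun t =>
      calc _ ≤ 2 * (1 + t ^ 2) * (1 + (x + t) ^ 2) * cosT F (x + t) :=
            mul_le_mul_of_nonneg_right (shift x t) (hF.nn _)
        _ ≤ _ := by
            rw [mul_assoc (2 * (1 + t ^ 2))]
            exact mul_le_mul_of_nonneg_left (hc _) (by positivity)
    have k1 := key (a * y)
    have k2 := key (-(a * y))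
    rw [← sub_eq_add_neg, neg_sq] at k2
    rw [abs_of_nonneg (by positivity)]
    have := mul_le_mul_of_nonneg_left (add_le_add k1 k2) hK.le
    nlinarith

theorem PGood.mul_pow (hp : 2 < p) (hF : PGood F) (a : ℝ) (k : ℕ) :
    PGood fun s => F s * ff p (a * s) ^ k := by
  induction k with
  | zero => simpa using hF
  | succ k ih =>
    have := ih.mul hp a
    simpa only [pow_succ, mul_assoc] using this

theorem pgood_pow (hp : 2 < p) {α : ℝ} (hα : 0 < α) {N : ℕ} (hN : 1 ≤ N) :
    PGood fun s => ff p (α * s) ^ N := by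
  obtain ⟨k, rfl⟩ : ∃ k, N = k + 1 := ⟨N - 1, by omega⟩
  simpa only [pow_succ'] using (pgood_one hp hα).mul_pow hp α k

theorem PGood.mul_prod (hp : 2 < p) (hF : PGood F) {ι : Type*} [DecidableEq ι] (T : Finset ι)
    (a : ι → ℝ) : PGood fun s => F s * ∏ j ∈ T, ff p (a j * s) := by
  induction T using Finset.induction_on with
  | empty => simpa using hF
  | insert j T hj ih =>
    have e : (fun s => F s * ∏ j ∈ insert j T, ff p (a j * s)) =
        fun s => (F s * ∏ j ∈ T, ff p (a j * s)) * ff p (a j * s) := by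
      funext s; rw [Finset.prod_insert hj]; ring
    rw [e]
    exact ih.mul hp _

theorem pgood_prod (hp : 2 < p) {ι : Type*} [DecidableEq ι] (T : Finset ι) (a : ι → ℝ) {i : ι}
    (hi : i ∈ T) (ha : 0 < a i) : PGood fun s => ∏ j ∈ T, ff p (a j * s) := by
  simp only [← Finset.mul_prod_erase T _ hi]
  exact (pgood_one hp ha).mul_prod hp _ a

/-- Poisson summation on the half line. -/
theorem PGood.poisson (hF : PGood F) {h : ℝ} (hh : 0 < h) :
    (Summable fun m : ℕ => F ((m + 1) * h)) ∧
      (Summable fun k : ℕ => cosT F (2 * π * (k + 1) / h)) ∧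
      h * (F 0 / 2 + ∑' m : ℕ, F ((m + 1) * h)) =
        (∫ s in Ioi (0 : ℝ), F s) + 2 * ∑' k : ℕ, cosT F (2 * π * (k + 1) / h) := by
  have hπ := Real.pi_pos
  obtain ⟨c, hc⟩ := hF.dec
  obtain ⟨c', hc'⟩ := hF.fdec
  have hc2 : ∀ x, (1 + x ^ 2) * |cosT F x| ≤ c' := fun x => by
    rw [abs_of_nonneg (hF.nn x)]; exact hc' x
  have ha : 0 < 2 * π / h := by positivity
  have e0 : ∀ k : ℕ, 2 * π * (k + 1) / h = (k + 1) * (2 * π / h) := fun k => by ring
  simp only [e0]
  refine ⟨summ hh hc, summ ha hc2, ?_⟩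
  have s1 := hasSum_even hh hc
  have s2 := hasSum_even ha hc2
  have hk : IntegrableOn (fun s => F (h * s)) (Ioi 0) := int_scale hF.int hh
  have hf : ∀ w : ℝ, 𝓕 (fun x : ℝ => ((F (h * |x|) : ℝ) : ℂ)) w =
      ((2 / h * cosT F (|w| * (2 * π / h)) : ℝ) : ℂ) := fun w => by
    rw [fourier_even hk w]
    congr 1
    have := integral_scale (fun t => F t * Real.cos (w * (2 * π / h) * t)) hh
    rw [← cosT] at this
    rw [← abs_of_pos ha, ← abs_mul, cosT_abs, show 2 / h * cosT F (w * (2 * π / h)) =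
      2 * (cosT F (w * (2 * π / h)) / h) by ring, ← this]
    congr 2
    funext s
    congr 2
    field_simp
  have c1 := hF.cont
  have hP := Real.tsum_eq_tsum_fourier_of_rpow_decay_of_summable
    (f := fun x : ℝ => ((F (h * |x|) : ℝ) : ℂ)) (by fun_prop) (b := 2) one_lt_two ?_ ?_ 0
  · simp only [hf, zero_add, QuotientAddGroup.mk_zero, fourier_eval_zero, mul_one] at hP
    rw [← Complex.ofReal_tsum, ← Complex.ofReal_tsum, Complex.ofReal_inj, tsum_mul_left,
      s2.tsum_eq, cosT_zero] at hP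
    simp only [mul_comm h] at hP
    rw [s1.tsum_eq, div_mul_eq_mul_div, eq_div_iff hh.ne'] at hP
    linarith
  · refine Asymptotics.IsBigO.of_bound (c / h ^ 2) ?_
    have : ∀ᶠ x : ℝ in cocompact ℝ, x ≠ 0 :=
      (isCompact_singleton (x := (0 : ℝ))).compl_mem_cocompact
    filter_upwards [this] with x hx
    have hx' : 0 < |x| := abs_pos.2 hx
    have h2 := hc (h * |x|)
    have h3 := abs_nonneg (F (h * |x|))
    rw [Complex.norm_real, Real.norm_eq_abs, Real.norm_eq_abs, Real.rpow_neg hx'.le,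
      Real.rpow_two, abs_of_pos (by positivity : 0 < (|x| ^ 2)⁻¹), ← div_eq_mul_inv, div_div,
      le_div_iff₀ (by positivity)]
    nlinarith
  · simp only [hf]
    exact Complex.summable_ofReal.2 (s2.summable.mul_left _)

/-- The tail of the sum under a quadratic and cubic decay bound. -/
theorem tail_le {G : ℝ → ℝ} {h A2 A3 : ℝ} {M : ℕ} (hM : 1 ≤ M) (hh : 0 < h) (hA2 : 0 ≤ A2)
    (hA3 : 0 ≤ A3) (hG : Summable fun m : ℕ => G ((m + 1) * h))
    (tail : ∀ s, M * h ≤ s → G s ≤ A2 * (M * h / s) ^ 2 + A3 * (M * h / s) ^ 3) :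
    ∑' m : ℕ, G ((m + 1) * h) ≤ ∑ m ∈ Finset.range M, G ((m + 1) * h) + (A2 + A3 / 2) * M := by
  have hM' : (1 : ℝ) ≤ M := by exact_mod_cast hM
  rw [← hG.sum_add_tsum_nat_add M]
  refine add_le_add le_rfl (((summable_nat_add_iff M).2 hG).tsum_le_of_sum_range_le fun n => ?_)
  have key : ∑ i ∈ Finset.range n, G ((((i + M : ℕ) : ℝ) + 1) * h) ≤ (A2 + A3 / 2) * M -
      (A2 * (M ^ 2 / (n + M)) + A3 * (M ^ 3 / (2 * (n + M) ^ 2))) := by
    induction n with
    | zero =>
      simp only [Finset.range_zero, Finset.sum_empty, Nat.cast_zero, zero_add]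
      apply le_of_eq
      field_simp
      ring
    | succ n ih =>
      rw [Finset.sum_range_succ]
      obtain ⟨u, hu⟩ : ∃ u : ℝ, u = n + M := ⟨_, rfl⟩
      have hu1 : 1 ≤ u := by rw [hu]; linarith [Nat.cast_nonneg (α := ℝ) n]
      have t := tail ((u + 1) * h) (by
        rw [hu]; gcongr; linarith [Nat.cast_nonneg (α := ℝ) n])
      rw [mul_div_mul_right _ _ hh.ne'] at t
      have e1 : ((n + M : ℕ) : ℝ) = u := by rw [hu]; push_cast; ring
      have e2 : ((n + 1 : ℕ) : ℝ) + M = u + 1 := by rw [hu]; push_cast; ring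
      rw [← hu] at ih
      rw [e1, e2]
      have b2 : ((M : ℝ) / (u + 1)) ^ 2 ≤ M ^ 2 / u - M ^ 2 / (u + 1) := by
        have : (M : ℝ) ^ 2 / u - M ^ 2 / (u + 1) = M ^ 2 / (u * (u + 1)) := by
          field_simp; ring
        rw [this, div_pow]
        exact div_le_div_of_nonneg_left (by positivity) (by positivity) (by nlinarith)
      have b3 : ((M : ℝ) / (u + 1)) ^ 3 ≤ M ^ 3 / (2 * u ^ 2) - M ^ 3 / (2 * (u + 1) ^ 2) := by
        have : (M : ℝ) ^ 3 / (2 * u ^ 2) - M ^ 3 / (2 * (u + 1) ^ 2) - (M / (u + 1)) ^ 3 =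
            M ^ 3 * (3 * u + 1) / (2 * u ^ 2 * (u + 1) ^ 3) := by
          field_simp; ring
        have h0 : 0 ≤ (M : ℝ) ^ 3 * (3 * u + 1) / (2 * u ^ 2 * (u + 1) ^ 3) := by positivity
        linarith
      have := mul_le_mul_of_nonneg_left b2 hA2
      have := mul_le_mul_of_nonneg_left b3 hA3
      nlinarith
  refine key.trans (sub_le_self _ ?_)
  positivity

theorem tail_ge {G : ℝ → ℝ} {h A2 A3 : ℝ} {M : ℕ} (hM : 1 ≤ M) (hh : 0 < h) (hA2 : 0 ≤ A2)
    (hA3 : 0 ≤ A3) (hG : Summable fun m : ℕ => G ((m + 1) * h))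
    (tail : ∀ s, M * h ≤ s → -(A2 * (M * h / s) ^ 2 + A3 * (M * h / s) ^ 3) ≤ G s) :
    ∑ m ∈ Finset.range M, G ((m + 1) * h) - (A2 + A3 / 2) * M ≤ ∑' m : ℕ, G ((m + 1) * h) := by
  have := tail_le (G := fun s => -G s) hM hh hA2 hA3 hG.neg fun s hs => by
    linarith [tail s hs]
  rw [tsum_neg, Finset.sum_neg_distrib] at this
  linarith

end Pool.Agent.MP_39fec4_gt.Full

end
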