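import Pool.Agent.Mg.F39fec4.Ge2a305
import Pool.Agent.Mg.F39fec4.G3fab08

section

set_option autoImplicit false

namespace Pool.Agent.MP_39fec4_gt.Full

open MeasureTheory Set Real Ball P4

/-- The Fourier integral in the squared coordinates. -/
noncomputable def II (p : ℝ) {n : ℕ} (x : Fin n → ℝ) : ℝ :=
  ∫ s in Ioi (0 : ℝ), ∏ j, ff p (√(x j) * s)

/-- Its value at the main diagonal. -/
noncomputable def Dg (p : ℝ) (n : ℕ) : ℝ := ∫ s in Ioi (0 : ℝ), ff p (√(1 / (n : ℝ)) * s) ^ n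

/-- Its value at the two dimensional diagonal. -/
noncomputable def Bl (p : ℝ) : ℝ := √2 * I2 p

/-- The closed simplex. -/
def Smp {n : ℕ} (x : Fin n → ℝ) : Prop := (∀ j, 0 ≤ x j) ∧ ∑ j, x j = 1

def IsDiag {n : ℕ} (x : Fin n → ℝ) : Prop := ∀ j, x j = 1 / (n : ℝ)

def IsBall {n : ℕ} (x : Fin n → ℝ) : Prop := ∃ i j, i ≠ j ∧ x i = 1 / 2 ∧ x j = 1 / 2

/-- The core inequality for one exponent. -/
def Core (p : ℝ) : Prop := ∀ n : ℕ, 3 ≤ n → ∀ x : Fin n → ℝ, Smp x → ¬IsDiag x → ¬IsBall x →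
  II p x < max (Dg p n) (Bl p)

/-- Single crossing between two values of `q = 1 / p`. -/
def Cross (n : ℕ) (a b : ℝ) : Prop := ∀ q q' : ℝ, a ≤ q → q < q' → q' ≤ b →
  Bl (1 / q) ≤ Dg (1 / q) n → Bl (1 / q') < Dg (1 / q') n

/-- Moments of `W / C` for an exponential variable `W`. -/
noncomputable def mu (C a : ℝ) : ℝ := Real.Gamma (1 + a) * C ^ (-a)

noncomputable def mu1 (C a : ℝ) : ℝ :=
  ∫ w in Ioi (0 : ℝ), Real.exp (-w) * ((w / C) ^ a * Real.log (w / C))

noncomputable def nu (C a : ℝ) : ℝ :=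
  ∫ w in Ioi (0 : ℝ), Real.exp (-w) * ((w / C) ^ a * Real.log (w / C) ^ 2)

/-- The tower of derivatives in `y`, before normalisation. -/
noncomputable def GG (C : ℝ) (j : ℕ) (q y : ℝ) : ℝ :=
  -2 * ∫ w in Ioi (0 : ℝ), Real.exp (-w) *
    (((w / C) ^ q) ^ (2 * j + 1) * CC (j + 1) (((w / C) ^ q) ^ 2 * y))

/-- First derivative of `GG` in `q`. -/
noncomputable def GG1 (C : ℝ) (j : ℕ) (q y : ℝ) : ℝ :=
  ∫ w in Ioi (0 : ℝ), Real.exp (-w) * (Real.log (w / C) *
    (((w / C) ^ q) ^ (2 * j + 1) * CC j (((w / C) ^ q) ^ 2 * y)))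

/-- Second derivative of `GG` in `q`. -/
noncomputable def GG2 (C : ℝ) (j : ℕ) (q y : ℝ) : ℝ :=
  ∫ w in Ioi (0 : ℝ), Real.exp (-w) * (Real.log (w / C) ^ 2 *
    (((w / C) ^ q) ^ (2 * j + 1) * ((2 * j + 1) * CC j (((w / C) ^ q) ^ 2 * y) +
      2 * (((w / C) ^ q) ^ 2 * y) * CC (j + 1) (((w / C) ^ q) ^ 2 * y))))

/-- The normalised tower. -/
noncomputable def gg (C : ℝ) (j : ℕ) (q y : ℝ) : ℝ := GG C j q y / mu C q

noncomputable def gq1 (C : ℝ) (j : ℕ) (q y : ℝ) : ℝ :=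
  (GG1 C j q y - mu1 C q * gg C j q y) / mu C q

noncomputable def gq2 (C : ℝ) (j : ℕ) (q y : ℝ) : ℝ :=
  (GG2 C j q y - 2 * mu1 C q * gq1 C j q y - nu C q * gg C j q y) / mu C q

/-- Absolute value of the `i`-th Taylor coefficient of `gg C 0 q` at zero. -/
noncomputable def aa (C q : ℝ) (i : ℕ) : ℝ :=
  mu C ((2 * i + 1) * q) / (((2 * i + 1).factorial : ℝ) * mu C q)

/-- The value at the two dimensional diagonal in the block normalisation. -/
noncomputable def kap (C q : ℝ) : ℝ := π / √2 * 2 ^ (-q) / mu C q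

/-- The product integral for an abstract profile `g`. -/
noncomputable def IG (g : ℝ → ℝ) {ι : Type} (T : Finset ι) (x : ι → ℝ) : ℝ :=
  ∫ s in Ioi (0 : ℝ), ∏ j ∈ T, g (x j * s ^ 2)

noncomputable def DG (g : ℝ → ℝ) (n : ℕ) : ℝ := ∫ s in Ioi (0 : ℝ), g (s ^ 2 / n) ^ n

/-- The integrand with two free coordinates and `k` equal ones. -/
noncomputable def P3 (g : ℝ → ℝ) (x1 x2 x3 : ℝ) (k : ℕ) (t : ℝ) : ℝ :=
  g (x1 * t) * g (x2 * t) * g (x3 * t) ^ k

/-- A smooth profile on the half line. -/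
structure Sm (g g1 g2 : ℝ → ℝ) : Prop where
  c0 : Continuous g
  c1 : Continuous g1
  c2 : Continuous g2
  d0 : ∀ y, 0 < y → HasDerivAt g (g1 y) y
  d1 : ∀ y, 0 < y → HasDerivAt g1 (g2 y) y
  z : g 0 = 1
  bd : ∀ y, 0 ≤ y → |g y| ≤ 1

/-- The shape of the first two lobes. -/
structure Hd (g g1 g2 : ℝ → ℝ) (lam z2 Zc Z2 : ℝ) : Prop where
  l0 : 0 < lam
  l1 : g1 0 + lam ≤ 0
  z0 : 0 < z2
  z1 : z2 ≤ Zc
  z3 : Zc ≤ Z2
  pos : ∀ y, 0 ≤ y → y ≤ z2 → 0 < g y
  conc : ∀ y, 0 < y → y ≤ Zc → g2 y + 2 * lam * g1 y + lam ^ 2 * g y ≤ 0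
  neg : ∀ y, Zc ≤ y → y ≤ Z2 → g y ≤ 0

/-- Bounds for a function and two twisted derivatives on an interval. -/
def D2 (f : ℝ → ℝ) (al a b A0 A1 A2 : ℝ) : Prop :=
  ContinuousOn f (Icc a b) ∧ ∃ f1 f2 : ℝ → ℝ, ∀ s ∈ Ioo a b,
    HasDerivAt f (f1 s) s ∧ HasDerivAt f1 (f2 s) s ∧ |f s| ≤ A0 ∧ |f1 s + al * f s| ≤ A1 ∧
      |f2 s + 2 * al * f1 s + al ^ 2 * f s| ≤ A2

/-- A function lies below its chord up to an error. -/
def Ch (f : ℝ → ℝ) (a b e : ℝ) : Prop :=
  ∀ th : ℝ, 0 ≤ th → th ≤ 1 → f ((1 - th) * a + th * b) ≤ (1 - th) * f a + th * f b + e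

/-- The sum of squared deviations from the mean. -/
noncomputable def Var {ι : Type} (T : Finset ι) (y : ι → ℝ) : ℝ :=
  ∑ j ∈ T, (y j - (∑ i ∈ T, y i) / T.card) ^ 2

end Pool.Agent.MP_39fec4_gt.Full

end

section

set_option autoImplicit false

namespace Pool.Agent.MP_39fec4_gt.Full

open MeasureTheory Set Real Ball P4

variable {C q y a : ℝ}

theorem mu_pos (hC : 0 < C) (ha : -1 < a) : 0 < mu C a :=
  mul_pos (Real.Gamma_pos_of_pos (by linarith)) (Real.rpow_pos_of_pos hC _)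

theorem mu_int (hC : 0 < C) (ha : -1 < a) :
    IntegrableOn (fun w : ℝ => Real.exp (-w) * (w / C) ^ a) (Ioi 0) ∧
      ∫ w in Ioi (0 : ℝ), Real.exp (-w) * (w / C) ^ a = mu C a := by
  have h1 : EqOn (fun w : ℝ => Real.exp (-w) * w ^ (1 + a - 1) * C ^ (-a))
      (fun w : ℝ => Real.exp (-w) * (w / C) ^ a) (Ioi 0) := fun w hw => by
    simp only [add_sub_cancel_left]
    rw [Real.div_rpow (le_of_lt hw) hC.le, Real.rpow_neg hC.le, div_eq_mul_inv, mul_assoc]
  have h0 : 0 < 1 + a := by linarith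
  refine ⟨IntegrableOn.congr_fun ((Real.GammaIntegral_convergent h0).mul_const _) h1
    measurableSet_Ioi, ?_⟩
  rw [← setIntegral_congr_fun measurableSet_Ioi h1, integral_mul_const, mu,
    Real.Gamma_eq_integral h0]

theorem two_bb (j : ℕ) : 2 * bb (j + 1) = (j.factorial : ℝ) / ((2 * j + 1).factorial : ℝ) := by
  induction j with
  | zero => simp [bb]
  | succ j ih =>
    have h : ((2 * j + 1).factorial : ℝ) ≠ 0 := by positivity
    rw [bb, ← mul_div_assoc, ih, show 2 * (j + 1) + 1 = 2 * j + 1 + 1 + 1 by ring,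
      Nat.factorial_succ (2 * j + 1 + 1), Nat.factorial_succ (2 * j + 1), Nat.factorial_succ j]
    push_cast
    field_simp
    ring

theorem CC_rec (j : ℕ) (hy : 0 ≤ y) :
    CC j y = -2 * (2 * j + 1) * CC (j + 1) y - 4 * y * CC (j + 2) y := by
  rcases hy.eq_or_lt with rfl | hy
  · rw [CC_zero, CC_zero, bb]
    field_simp
    ring
  have hc := cont_CC j
  have hc1 := cont_CC (j + 1)
  have h := intervalIntegral.integral_eq_sub_of_hasDerivAt_of_le zero_le_one
    (f := fun u : ℝ => u ^ (2 * j + 1) * CC j (u ^ 2 * y))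
    (f' := fun u : ℝ => (2 * j + 1) * (u ^ (2 * j) * CC j (u ^ 2 * y)) +
      2 * y * (u ^ (2 * (j + 1)) * CC (j + 1) (u ^ 2 * y)))
    (Continuous.continuousOn (by fun_prop))
    (fun u hu => by
      have h1 := (hasDerivAt_pow (2 * j + 1) u).mul ((hasDerivAt_CC j
        (mul_pos (pow_pos hu.1 2) hy)).comp u ((hasDerivAt_pow 2 u).mul_const y))
      refine h1.congr_deriv ?_
      simp only [Function.comp_apply, Nat.add_sub_cancel]
      push_cast
      ring)
    (Continuous.intervalIntegrable (by fun_prop) _ _)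
  rw [intervalIntegral.integral_add (Continuous.intervalIntegrable (by fun_prop) _ _)
    (Continuous.intervalIntegrable (by fun_prop) _ _), intervalIntegral.integral_const_mul,
    intervalIntegral.integral_const_mul] at h
  simp only [one_pow, one_mul, ne_eq, Nat.add_eq_zero_iff, one_ne_zero, and_false,
    not_false_eq_true, zero_pow, zero_mul, sub_zero] at h
  have e1 : CC (j + 1) y = -(1 / 2) * ∫ u in (0 : ℝ)..1, u ^ (2 * j) * CC j (u ^ 2 * y) := rfl
  have e2 : CC (j + 2) y =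
    -(1 / 2) * ∫ u in (0 : ℝ)..1, u ^ (2 * (j + 1)) * CC (j + 1) (u ^ 2 * y) := rfl
  rw [← h, e2]
  conv_rhs => rw [e1]
  ring

theorem CC_one (hy : 0 < y) : CC 1 y = -Real.sin √y / (2 * √y) := by
  have h1 : HasDerivAt (CC 0) (-Real.sin √y * (1 / (2 * √y))) y :=
    (Real.hasDerivAt_cos _).comp y (Real.hasDerivAt_sqrt hy.ne')
  rw [(hasDerivAt_CC 0 hy).unique h1, mul_one_div]

theorem aa_pos (hC : 0 < C) (hq : 0 < q) (i : ℕ) : 0 < aa C q i := by
  have h1 := mu_pos hC (a := q) (by linarith)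
  have h2 := mu_pos hC (a := (2 * i + 1) * q) (lt_trans (by norm_num) (by positivity : (0 : ℝ) < _))
  unfold aa; positivity

theorem aa_zero (hC : 0 < C) (hq : 0 < q) : aa C q 0 = 1 := by
  have h1 := mu_pos hC (a := q) (by linarith)
  simp [aa, h1.ne']

namespace FTowerX

theorem cont_R (hq : 0 < q) : Continuous fun w : ℝ => (w / C) ^ q :=
  (continuous_id.div_const C).rpow_const fun _ => Or.inr hq.le

theorem wt_int (hC : 0 < C) (hq : 0 < q) (j : ℕ) :
    IntegrableOn (fun w : ℝ => Real.exp (-w) * ((w / C) ^ q) ^ (2 * j + 1)) (Ioi 0) ∧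
      ∫ w in Ioi (0 : ℝ), Real.exp (-w) * ((w / C) ^ q) ^ (2 * j + 1) = mu C ((2 * j + 1) * q) := by
  have h := mu_int hC (a := (2 * j + 1) * q) (lt_trans (by norm_num) (by positivity : (0 : ℝ) < _))
  have h1 : EqOn (fun w : ℝ => Real.exp (-w) * (w / C) ^ ((2 * j + 1) * q))
      (fun w : ℝ => Real.exp (-w) * ((w / C) ^ q) ^ (2 * j + 1)) (Ioi 0) := fun w hw => by
    simp only
    rw [← Real.rpow_mul_natCast (div_nonneg (le_of_lt hw) hC.le), mul_comm q]
    push_cast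
    rfl
  exact ⟨h.1.congr_fun h1 measurableSet_Ioi, by
    rw [← setIntegral_congr_fun measurableSet_Ioi h1, h.2]⟩

theorem bound (hC : 0 < C) (j : ℕ) : ∀ᵐ w ∂(volume.restrict (Ioi (0 : ℝ))), ∀ z : ℝ,
    ‖Real.exp (-w) * (((w / C) ^ q) ^ (2 * j + 1) * CC (j + 1) z)‖ ≤
      Real.exp (-w) * ((w / C) ^ q) ^ (2 * j + 1) * bb (j + 1) := by
  refine (ae_restrict_iff' measurableSet_Ioi).2 (Filter.Eventually.of_forall fun w hw z => ?_)
  have h0 : 0 ≤ Real.exp (-w) * ((w / C) ^ q) ^ (2 * j + 1) := by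
    have : 0 ≤ w / C := div_nonneg (le_of_lt hw) hC.le
    positivity
  rw [← mul_assoc, Real.norm_eq_abs, abs_mul, abs_of_nonneg h0]
  exact mul_le_mul_of_nonneg_left (abs_CC _ _) h0

theorem meas (hq : 0 < q) (j : ℕ) (y : ℝ) : Continuous fun w : ℝ => Real.exp (-w) *
    (((w / C) ^ q) ^ (2 * j + 1) * CC (j + 1) (((w / C) ^ q) ^ 2 * y)) := by
  have h1 := cont_R (C := C) hq
  have h2 := cont_CC (j + 1)
  fun_prop

theorem two_bb_mu (hC : 0 < C) (hq : 0 < q) (j : ℕ) :
    2 * (mu C ((2 * j + 1) * q) * bb (j + 1)) / mu C q = (j.factorial : ℝ) * aa C q j := by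
  have h1 := mu_pos hC (a := q) (by linarith)
  rw [mul_left_comm, two_bb, aa]
  field_simp

end FTowerX

open FTowerX

theorem cont_gg (hC : 0 < C) (hq : 0 < q) (j : ℕ) : Continuous (gg C j q) := by
  have hc := cont_CC (j + 1)
  refine (Continuous.mul continuous_const ?_).div_const _
  exact continuous_of_dominated (fun s => (meas hq j s).aestronglyMeasurable)
    (fun s => (bound hC j).mono fun w hw => hw _) ((wt_int hC hq j).1.mul_const _)
    (Filter.Eventually.of_forall fun x => by fun_prop)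

theorem hasDerivAt_gg (hC : 0 < C) (hq : 0 < q) (j : ℕ) (hy : 0 < y) :
    HasDerivAt (gg C j q) (gg C (j + 1) q y) y := by
  have := hasDerivAt_integral_of_dominated_loc_of_deriv_le (μ := volume.restrict (Ioi (0 : ℝ)))
    (F := fun y w => Real.exp (-w) *
      (((w / C) ^ q) ^ (2 * j + 1) * CC (j + 1) (((w / C) ^ q) ^ 2 * y)))
    (F' := fun y w => Real.exp (-w) *
      (((w / C) ^ q) ^ (2 * (j + 1) + 1) * CC (j + 1 + 1) (((w / C) ^ q) ^ 2 * y))) (x₀ := y)
    (s := Ioi 0) (Ioi_mem_nhds hy)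
    (Filter.Eventually.of_forall fun s => (meas hq j s).aestronglyMeasurable)
    (((wt_int hC hq j).1.mul_const _).mono' (meas hq j y).aestronglyMeasurable
      ((bound hC j).mono fun w hw => hw _))
    (meas hq (j + 1) y).aestronglyMeasurable
    ((bound hC (j + 1)).mono fun w hw s _ => hw _) ((wt_int hC hq (j + 1)).1.mul_const _)
    ((ae_restrict_iff' measurableSet_Ioi).2 (Filter.Eventually.of_forall fun w hw z hz => by
      have hp : 0 < ((w / C) ^ q) ^ 2 * z :=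
        mul_pos (pow_pos (Real.rpow_pos_of_pos (div_pos hw hC) _) 2) hz
      have h1 := (((hasDerivAt_CC (j + 1) hp).comp z ((hasDerivAt_id z).const_mul
        (((w / C) ^ q) ^ 2))).const_mul (((w / C) ^ q) ^ (2 * j + 1))).const_mul (Real.exp (-w))
      refine h1.congr_deriv ?_
      ring))
  exact (this.2.const_mul (-2)).div_const _

theorem abs_gg (hC : 0 < C) (hq : 0 < q) (j : ℕ) (y : ℝ) :
    |gg C j q y| ≤ (j.factorial : ℝ) * aa C q j := by
  have h0 := mu_pos hC (a := q) (by linarith)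
  have h1 := norm_integral_le_of_norm_le ((wt_int hC hq j).1.mul_const _)
    ((bound (q := q) hC j).mono fun w hw => hw (((w / C) ^ q) ^ 2 * y))
  rw [integral_mul_const, (wt_int hC hq j).2, Real.norm_eq_abs] at h1
  rw [← two_bb_mu hC hq, gg, GG, abs_div, abs_of_pos h0, abs_mul, abs_neg, abs_two]
  gcongr

theorem gg_zero (hC : 0 < C) (hq : 0 < q) (j : ℕ) :
    gg C j q 0 = (-1) ^ j * (j.factorial : ℝ) * aa C q j := by
  simp only [gg, GG, mul_zero, CC_zero, ← mul_assoc]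
  rw [mul_assoc _ _ (aa C q j), ← two_bb_mu hC hq, integral_mul_const, integral_mul_const,
    (wt_int hC hq j).2]
  ring

theorem gg_sm (hC : 0 < C) (hq : 0 < q) : Sm (gg C 0 q) (gg C 1 q) (gg C 2 q) :=
  ⟨cont_gg hC hq 0, cont_gg hC hq 1, cont_gg hC hq 2, fun _ hy => hasDerivAt_gg hC hq 0 hy,
    fun _ hy => hasDerivAt_gg hC hq 1 hy, by simp [gg_zero hC hq, aa_zero hC hq],
    fun y _ => by simpa [aa_zero hC hq] using abs_gg hC hq 0 y⟩

/-- Two sided Taylor formula for an abstract tower. -/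
theorem taylor_loc (f : ℕ → ℝ → ℝ) (hc : ∀ j, Continuous (f j))
    (hd : ∀ j y, 0 < y → HasDerivAt (f j) (f (j + 1) y) y) (N j : ℕ) {c x B : ℝ} (hc0 : 0 ≤ c)
    (hx : 0 ≤ x) (hB : ∀ t ∈ uIcc c x, |f (j + N) t| ≤ B) :
    |f j x - ∑ i ∈ Finset.range N, f (j + i) c * (x - c) ^ i / (i.factorial : ℝ)| ≤
      B * |x - c| ^ N / (N.factorial : ℝ) := by
  induction N generalizing j x with
  | zero => simpa using hB x right_mem_uIcc
  | succ N ih =>
    have hg := hc j
    have hN : ((N.factorial : ℕ) : ℝ) ≠ 0 := by positivity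
    have hF : ∀ t, 0 < t → HasDerivAt (fun x => f j x - ∑ i ∈ Finset.range N,
        f (j + (i + 1)) c * (x - c) ^ (i + 1) / (i + 1).factorial)
        (f (j + 1) t - ∑ i ∈ Finset.range N, f (j + 1 + i) c * (t - c) ^ i / i.factorial) t := by
      intro t ht
      refine (hd j t ht).sub (HasDerivAt.fun_sum fun i _ => ?_)
      have h1 := ((((hasDerivAt_id t).sub_const c).pow (i + 1)).const_mul
        (f (j + (i + 1)) c)).div_const ((i + 1).factorial : ℝ)
      refine h1.congr_deriv ?_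
      rw [Nat.factorial_succ, show j + 1 + i = j + (i + 1) by ring]
      have : ((i.factorial : ℕ) : ℝ) ≠ 0 := by positivity
      simp
      field_simp
    have hI : ∀ t ∈ uIcc c x, 0 ≤ t → |f (j + 1) t - ∑ i ∈ Finset.range N,
        f (j + 1 + i) c * (t - c) ^ i / i.factorial| ≤ B * |t - c| ^ N / N.factorial :=
      fun t ht h0 => ih (j + 1) h0 fun s hs => by
        rw [show j + 1 + N = j + (N + 1) by ring]
        exact hB s (uIcc_subset_uIcc_left ht hs)
    rw [Finset.sum_range_succ']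
    simp only [add_zero, pow_zero, mul_one, Nat.factorial_zero, Nat.cast_one, div_one]
    rcases le_total c x with h | h
    · have := abs_sub_le_of_bound (B := fun x => B * (x - c) ^ (N + 1) / (N + 1).factorial)
        (B' := fun x => B * (x - c) ^ N / N.factorial) h
        (Continuous.continuousOn (by fun_prop)) (Continuous.continuousOn (by fun_prop))
        (fun t ht => hF t (hc0.trans_lt ht.1))
        (fun t _ => by
          have h1 := ((((hasDerivAt_id t).sub_const c).pow (N + 1)).const_mul B).div_const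
            ((N + 1).factorial : ℝ)
          refine h1.congr_deriv ?_
          rw [Nat.factorial_succ]
          simp
          field_simp)
        (fun t ht => by
          have := hI t (by rw [uIcc_of_le h]; exact Ioo_subset_Icc_self ht) (hc0.trans ht.1.le)
          rwa [abs_of_nonneg (sub_nonneg.2 ht.1.le)] at this)
      simp only [sub_self, ne_eq, Nat.add_eq_zero_iff, one_ne_zero, and_false, not_false_eq_true,
        zero_pow, mul_zero, zero_div, Finset.sum_const_zero, sub_zero] at this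
      rw [abs_of_nonneg (sub_nonneg.2 h), ← sub_sub]
      exact this
    · have := abs_sub_le_of_bound (B := fun x => -(B * (c - x) ^ (N + 1) / (N + 1).factorial))
        (B' := fun x => B * (c - x) ^ N / N.factorial) h
        (Continuous.continuousOn (by fun_prop)) (Continuous.continuousOn (by fun_prop))
        (fun t ht => hF t (hx.trans_lt ht.1))
        (fun t _ => by
          have h1 := (((((hasDerivAt_id t).const_sub c).pow (N + 1)).const_mul B).div_const
            ((N + 1).factorial : ℝ)).neg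
          refine h1.congr_deriv ?_
          rw [Nat.factorial_succ]
          simp
          field_simp)
        (fun t ht => by
          have := hI t (by rw [uIcc_of_ge h]; exact Ioo_subset_Icc_self ht) (hx.trans ht.1.le)
          rwa [abs_sub_comm t c, abs_of_nonneg (sub_nonneg.2 ht.2.le)] at this)
      simp only [sub_self, ne_eq, Nat.add_eq_zero_iff, one_ne_zero, and_false, not_false_eq_true,
        zero_pow, mul_zero, zero_div, Finset.sum_const_zero, sub_zero, neg_zero, zero_sub,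
        neg_neg] at this
      rw [abs_sub_comm x c, abs_of_nonneg (sub_nonneg.2 h), ← sub_sub, abs_sub_comm]
      exact this

/-- The power series at zero with its remainder. -/
theorem gg_series (hC : 0 < C) (hq : 0 < q) (hy : 0 ≤ y) {j N : ℕ} (hj : j ≤ N) :
    |gg C j q y / (j.factorial : ℝ) -
        ∑ i ∈ Finset.range (N + 1), (-1) ^ i * aa C q i * (i.choose j : ℝ) * y ^ (i - j)| ≤
      aa C q (N + 1) * ((N + 1).choose j : ℝ) * y ^ (N + 1 - j) := by
  obtain ⟨M, rfl⟩ := Nat.exists_eq_add_of_le hj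
  have hjf : (0 : ℝ) < j.factorial := by positivity
  have hch : ∀ m : ℕ, (((j + m).choose j : ℕ) : ℝ) =
      (j + m).factorial / (j.factorial * m.factorial) := fun m => by
    rw [eq_div_iff (by positivity), ← mul_assoc]
    exact_mod_cast (by
      rw [add_comm j m, mul_right_comm]; exact Nat.add_choose_mul_factorial_mul_factorial m j)
  have h := taylor_loc (fun j => gg C j q) (cont_gg hC hq) (fun j y hy => hasDerivAt_gg hC hq j hy)
    (M + 1) j le_rfl hy fun t _ => abs_gg hC hq _ t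
  rw [add_assoc, Finset.sum_range_add, Finset.sum_eq_zero (s := Finset.range j) fun i hi => by
    rw [Nat.choose_eq_zero_of_lt (Finset.mem_range.1 hi)]; simp, zero_add, Nat.add_sub_cancel_left,
    hch]
  simp only [sub_zero, abs_of_nonneg hy, gg_zero hC hq] at h
  have e : gg C j q y / (j.factorial : ℝ) - ∑ i ∈ Finset.range (M + 1),
      (-1) ^ (j + i) * aa C q (j + i) * ((j + i).choose j : ℝ) * y ^ (j + i - j) =
      (gg C j q y - ∑ i ∈ Finset.range (M + 1), (-1) ^ (j + i) * ((j + i).factorial : ℝ) *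
        aa C q (j + i) * y ^ i / (i.factorial : ℝ)) / j.factorial := by
    rw [sub_div, Finset.sum_div]
    congr 1
    refine Finset.sum_congr rfl fun i _ => ?_
    rw [hch, Nat.add_sub_cancel_left]
    field_simp
  rw [e, abs_div, abs_of_pos hjf, div_le_iff₀ hjf]
  refine h.trans (le_of_eq ?_)
  field_simp

theorem gg_ge_lin (hC : 0 < C) (hq : 0 < q) (hy : 0 ≤ y) : 1 - aa C q 1 * y ≤ gg C 0 q y := by
  have h := gg_series hC hq hy (j := 0) (N := 0) le_rfl
  simp only [Nat.factorial_zero, Nat.cast_one, div_one, zero_add, Finset.range_one,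
    Finset.sum_singleton, pow_zero, aa_zero hC hq, mul_one, Nat.choose_zero_right, tsub_zero,
    pow_one] at h
  linarith [(abs_le.1 h).1]

end Pool.Agent.MP_39fec4_gt.Full

end

section

set_option autoImplicit false

namespace Pool.Agent.MP_39fec4_gt.Full

open MeasureTheory Set Real Ball P4

variable {C q y : ℝ}

namespace FLinkX

theorem two_lt_inv (hq : 0 < q) (hq2 : q < 1 / 2) : 2 < 1 / q := by
  rw [lt_div_iff₀ hq]; linarith

theorem mu_pos' (hC : 0 < C) (hq : 0 < q) : 0 < mu C q := mu_pos hC (by linarith)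

theorem Zp_inv (q : ℝ) : Zp (1 / q) = Real.Gamma (1 + q) := by rw [Zp, one_div_one_div]

theorem sinT_rho (hq : 0 < q) (hq2 : q < 1 / 2) (x : ℝ) :
    sinT (rho (1 / q)) x =
      ∫ w in Ioi (0 : ℝ), Real.exp (-w) * Real.sin (x * (w ^ q / Real.Gamma (1 + q))) := by
  have hp := two_lt_inv hq hq2
  have hZ := Zp_pos hp
  have hb := bp_pos hp
  have hp0 : 0 < 1 / q := by positivity
  have e1 := integral_comp_rpow_Ioi_of_pos
    (g := fun v : ℝ => bp (1 / q) * (Real.exp (-(bp (1 / q) * v)) * Real.sin (x * v ^ q))) hp0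
  have e2 := integral_scale
    (fun w : ℝ => Real.exp (-w) * Real.sin (x * (w ^ q / Real.Gamma (1 + q)))) hb
  have hbq : bp (1 / q) ^ q = Real.Gamma (1 + q) := by
    rw [bp, ← Real.rpow_mul hZ.le, one_div_mul_cancel hq.ne', Real.rpow_one, Zp_inv]
  have hG : 0 < Real.Gamma (1 + q) := Real.Gamma_pos_of_pos (by linarith)
  rw [eq_div_iff hb.ne'] at e2
  rw [← e2, mul_comm, ← integral_const_mul]
  have e3 : ∫ v in Ioi (0 : ℝ), bp (1 / q) * (Real.exp (-(bp (1 / q) * v)) *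
      Real.sin (x * ((bp (1 / q) * v) ^ q / Real.Gamma (1 + q)))) =
      ∫ v in Ioi (0 : ℝ), bp (1 / q) * (Real.exp (-(bp (1 / q) * v)) * Real.sin (x * v ^ q)) := by
    refine setIntegral_congr_fun measurableSet_Ioi fun v hv => ?_
    have hv : 0 < v := hv
    rw [Real.mul_rpow hb.le hv.le, hbq, mul_div_cancel_left₀ _ hG.ne']
  rw [e3, ← e1, sinT]
  refine setIntegral_congr_fun measurableSet_Ioi fun t ht => ?_
  have ht : 0 < t := ht
  simp only [rho, Ball.W, Ball.K, smul_eq_mul]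
  rw [← Real.rpow_mul ht.le, one_div_mul_cancel hq.ne', Real.rpow_one, neg_mul]
  ring

theorem power_mean {p r : ℝ} (hp : 2 < p) (hr : 0 < r) :
    (1 + r ^ p) ^ (-(1 / p)) ≤ √2 * 2 ^ (-(1 / p)) / √(1 + r ^ 2) := by
  have hp0 : 0 < p := by linarith
  have h1 := (convexOn_rpow (p := p / 2) (by linarith)).2 (mem_Ici.2 (zero_le_one (α := ℝ)))
    (mem_Ici.2 (sq_nonneg r)) (show (0 : ℝ) ≤ 1 / 2 by norm_num) (show (0 : ℝ) ≤ 1 / 2 by norm_num)
    (by norm_num)
  simp only [smul_eq_mul, Real.one_rpow] at h1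
  rw [← Real.rpow_two, ← Real.rpow_mul hr.le, show 2 * (p / 2) = p by ring, Real.rpow_two] at h1
  have h2 := Real.rpow_le_rpow (by positivity) h1 (z := 1 / p) (by positivity)
  rw [← Real.rpow_mul (by positivity), show p / 2 * (1 / p) = 1 / 2 by field_simp,
    ← Real.sqrt_eq_rpow, show 1 / 2 * 1 + 1 / 2 * r ^ 2 = (1 + r ^ 2) / 2 by ring,
    show 1 / 2 * 1 + 1 / 2 * r ^ p = (1 + r ^ p) / 2 by ring, Real.sqrt_div (by positivity),
    Real.div_rpow (by positivity) (by norm_num)] at h2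
  have a1 : 0 < (1 + r ^ p) ^ (1 / p) := by positivity
  have a2 : (0 : ℝ) < 2 ^ (1 / p) := by positivity
  have a3 : 0 < √(1 + r ^ 2) := by positivity
  have a4 : (0 : ℝ) < √2 := by positivity
  rw [Real.rpow_neg (by positivity), Real.rpow_neg (by norm_num)]
  rw [div_le_div_iff₀ a4 a2] at h2
  rw [le_div_iff₀ a3, inv_mul_le_iff₀ a1, ← mul_assoc, le_mul_inv_iff₀ a2]
  exact h2

end FLinkX

open FLinkX

theorem gg_eq_ff (hC : 0 < C) (hq : 0 < q) (hq2 : q < 1 / 2) (hy : 0 ≤ y) :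
    gg C 0 q y = ff (1 / q) (mu C q * √y) := by
  have hp := two_lt_inv hq hq2
  rcases hy.eq_or_lt with rfl | hy
  · rw [gg_zero hC hq, aa_zero hC hq, Real.sqrt_zero, mul_zero, ff_zero hp]; simp
  have hm := mu_pos' hC hq
  have hu : 0 < √y := Real.sqrt_pos.2 hy
  have hG : 0 < Real.Gamma (1 + q) := Real.Gamma_pos_of_pos (by linarith)
  have e := x_mul_ff hp (mu C q * √y)
  rw [sinT_rho hq hq2] at e
  have e2 : GG C 0 q y * √y =
      ∫ w in Ioi (0 : ℝ), Real.exp (-w) *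
        Real.sin (mu C q * √y * (w ^ q / Real.Gamma (1 + q))) := by
    rw [GG, ← integral_const_mul, ← integral_mul_const]
    refine setIntegral_congr_fun measurableSet_Ioi fun w hw => ?_
    have hw : 0 < w := hw
    have hR : 0 < (w / C) ^ q := by positivity
    have hs : √(((w / C) ^ q) ^ 2 * y) = (w / C) ^ q * √y := by
      rw [Real.sqrt_mul (sq_nonneg _), Real.sqrt_sq hR.le]
    have ha : mu C q * √y * (w ^ q / Real.Gamma (1 + q)) = (w / C) ^ q * √y := by
      rw [mu, Real.div_rpow hw.le hC.le, Real.rpow_neg hC.le]; field_simp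
    simp only [mul_zero, zero_add, pow_one]
    rw [CC_one (by positivity), hs, ha]
    field_simp
  rw [gg, div_eq_iff hm.ne']
  refine mul_right_cancel₀ hu.ne' ?_
  rw [e2, ← e]; ring

namespace FLinkX

theorem gg_sq (hC : 0 < C) (hq : 0 < q) (hq2 : q < 1 / 2) {x s : ℝ} (hx : 0 ≤ x) (hs : 0 < s) :
    gg C 0 q (x * s ^ 2) = ff (1 / q) (mu C q * √x * s) := by
  rw [gg_eq_ff hC hq hq2 (by positivity), Real.sqrt_mul hx, Real.sqrt_sq hs.le, mul_assoc]

theorem abs_gg_le (hC : 0 < C) (hq : 0 < q) (y : ℝ) : |gg C 0 q y| ≤ 1 := by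
  simpa [aa_zero hC hq] using abs_gg hC hq 0 y

end FLinkX

theorem II_eq_IG (hC : 0 < C) (hq : 0 < q) (hq2 : q < 1 / 2) {n : ℕ} (x : Fin n → ℝ)
    (hx : ∀ j, 0 ≤ x j) : II (1 / q) x = mu C q * IG (gg C 0 q) Finset.univ x := by
  have hm := mu_pos' hC hq
  have e := integral_scale (fun s => ∏ j, ff (1 / q) (√(x j) * s)) hm
  rw [eq_div_iff hm.ne'] at e
  rw [II, ← e, mul_comm, IG]
  congr 1
  refine setIntegral_congr_fun measurableSet_Ioi fun s hs => ?_
  refine Finset.prod_congr rfl fun j _ => ?_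
  rw [gg_sq hC hq hq2 (hx j) hs]; congr 1; ring

theorem Dg_eq_DG (hC : 0 < C) (hq : 0 < q) (hq2 : q < 1 / 2) (n : ℕ) :
    Dg (1 / q) n = mu C q * DG (gg C 0 q) n := by
  have hm := mu_pos' hC hq
  have e := integral_scale (fun s => ff (1 / q) (√(1 / (n : ℝ)) * s) ^ n) hm
  rw [eq_div_iff hm.ne'] at e
  rw [Dg, ← e, mul_comm, DG]
  congr 1
  refine setIntegral_congr_fun measurableSet_Ioi fun s hs => ?_
  rw [show s ^ 2 / (n : ℝ) = 1 / (n : ℝ) * s ^ 2 by ring, gg_sq hC hq hq2 (by positivity) hs]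
  congr 2; ring

theorem Bl_eq_kap (hC : 0 < C) (hq : 0 < q) : Bl (1 / q) = mu C q * kap C q := by
  have hm := mu_pos' hC hq
  have h2 : (0 : ℝ) < √2 := by positivity
  have h3 : √2 * √2 = 2 := Real.mul_self_sqrt (by norm_num)
  rw [Bl, I2, kap, one_div_one_div, mul_div_cancel₀ _ hm.ne', ← mul_assoc]
  congr 1
  rw [eq_div_iff h2.ne']
  linear_combination π / 2 * h3

theorem int_IG (hC : 0 < C) (hq : 0 < q) (hq2 : q < 1 / 2) {ι : Type} (T : Finset ι) (x : ι → ℝ)
    (hx : ∀ j ∈ T, 0 ≤ x j) {i : ι} (hi : i ∈ T) (h0 : 0 < x i) :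
    IntegrableOn (fun s : ℝ => ∏ j ∈ T, gg C 0 q (x j * s ^ 2)) (Ioi 0) := by
  classical
  have hm := mu_pos' hC hq
  refine IntegrableOn.congr_fun (int_prod (two_lt_inv hq hq2) T (fun j => mu C q * √(x j)) hi
    (by positivity)) (fun s hs => ?_) measurableSet_Ioi
  exact Finset.prod_congr rfl fun j hj => (gg_sq hC hq hq2 (hx j hj) hs).symm

theorem int_DG (hC : 0 < C) (hq : 0 < q) (hq2 : q < 1 / 2) {n : ℕ} (hn : 1 ≤ n) :
    IntegrableOn (fun s : ℝ => gg C 0 q (s ^ 2 / n) ^ n) (Ioi 0) := by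
  have hn0 : (0 : ℝ) < n := by exact_mod_cast hn
  have := int_IG hC hq hq2 (Finset.range n) (fun _ => 1 / (n : ℝ)) (fun _ _ => by positivity)
    (Finset.mem_range.2 hn) (by positivity)
  simp only [Finset.prod_const, Finset.card_range] at this
  simpa only [one_div, inv_mul_eq_div] using this

/-- A product with one decaying factor and a bounded continuous factor. -/
theorem int_mul_gg (hC : 0 < C) (hq : 0 < q) (hq2 : q < 1 / 2) {x1 : ℝ} (h1 : 0 < x1)
    {f : ℝ → ℝ} (hf : Continuous f) {B : ℝ} (hB : ∀ s, |f s| ≤ B) :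
    IntegrableOn (fun s : ℝ => gg C 0 q (x1 * s ^ 2) * f s) (Ioi 0) := by
  have := int_IG hC hq hq2 ({0} : Finset ℕ) (fun _ => x1) (fun _ _ => h1.le)
    (Finset.mem_singleton_self 0) h1
  simp only [Finset.prod_singleton] at this
  exact this.mul_bdd (c := B) hf.aestronglyMeasurable (Filter.Eventually.of_forall hB)

theorem int_P3 (hC : 0 < C) (hq : 0 < q) (hq2 : q < 1 / 2) {x1 x2 x3 : ℝ} (h1 : 0 < x1)
    (h2 : 0 ≤ x2) (h3 : 0 ≤ x3) (k : ℕ) :
    IntegrableOn (fun s : ℝ => P3 (gg C 0 q) x1 x2 x3 k (s ^ 2)) (Ioi 0) := by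
  have c := cont_gg hC hq 0
  have _ := add_nonneg h2 h3
  simp only [P3, mul_assoc]
  refine int_mul_gg hC hq hq2 h1 (B := 1) (by fun_prop) fun s => ?_
  rw [abs_mul, abs_pow]
  exact mul_le_one₀ (abs_gg_le hC hq _) (by positivity)
    (pow_le_one₀ (abs_nonneg _) (abs_gg_le hC hq _))

/-- The two coordinate integral is at most the Ball value after rescaling. -/
theorem two_le_kap (hC : 0 < C) (hq : 0 < q) (hq2 : q < 1 / 2) {x1 x2 : ℝ} (h1 : 0 < x1)
    (h2 : 0 < x2) : ∫ s in Ioi (0 : ℝ), gg C 0 q (x1 * s ^ 2) * gg C 0 q (x2 * s ^ 2) ≤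
      kap C q / √(x1 + x2) := by
  have hm := mu_pos' hC hq
  have hp := two_lt_inv hq hq2
  have hπ := Real.pi_pos
  have a1 : 0 < √x1 := Real.sqrt_pos.2 h1
  have a2 : 0 < √x2 := Real.sqrt_pos.2 h2
  have t := two_phys hp (α := mu C q * √x1) (β := mu C q * √x2) (by positivity) (by positivity) 0
  rw [cosT_zero, mul_div_mul_left _ _ hm.ne'] at t
  rw [setIntegral_congr_fun measurableSet_Ioi (g := fun s =>
    ff (1 / q) (mu C q * √x1 * s) * ff (1 / q) (mu C q * √x2 * s)) fun s hs => by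
      simp only; rw [gg_sq hC hq hq2 h1.le hs, gg_sq hC hq hq2 h2.le hs]]
  refine t.trans ((mul_le_mul_of_nonneg_left (power_mean hp (by positivity))
    (by positivity)).trans (le_of_eq ?_))
  have h3 : √2 * √2 = 2 := Real.mul_self_sqrt (by norm_num)
  have h4 : (0 : ℝ) < √2 := by positivity
  have h5 : √(1 + (√x2 / √x1) ^ 2) = √(x1 + x2) / √x1 := by
    rw [div_pow, Real.sq_sqrt h1.le, Real.sq_sqrt h2.le, ← Real.sqrt_div (by positivity)]
    congr 1; field_simp
  have h6 : 0 < √(x1 + x2) := by positivity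
  rw [h5, kap, one_div_one_div]
  field_simp
  linear_combination h3

theorem one_le (hC : 0 < C) (hq : 0 < q) (hq2 : q < 1 / 2) {ι : Type} (T : Finset ι) (x : ι → ℝ)
    (hx : ∀ j ∈ T, 0 ≤ x j) {i : ι} (hi : i ∈ T) (h0 : 0 < x i) :
    IG (gg C 0 q) T x ≤ π / (2 * mu C q * √(x i)) := by
  classical
  have hm := mu_pos' hC hq
  have hp := two_lt_inv hq hq2
  have hπ := Real.pi_pos
  have i0 : 0 < mu C q * √(x i) := by positivity
  have t := (sup_prod hp (T.erase i) (fun j => mu C q * √(x j)) (int_scale (int_ff hp) i0)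
    (M := π / (2 * (mu C q * √(x i)))) fun z => by
      rw [one_phys hp i0]
      exact mul_le_of_le_one_right (by positivity) (K_le_one hp (by positivity))).2 0
  rw [cosT_zero] at t
  rw [mul_assoc]
  refine le_of_eq_of_le ?_ t
  refine setIntegral_congr_fun measurableSet_Ioi fun s hs => ?_
  rw [Finset.mul_prod_erase T (fun j => ff (1 / q) (mu C q * √(x j) * s)) hi]
  exact Finset.prod_congr rfl fun j hj => gg_sq hC hq hq2 (hx j hj) hs

end Pool.Agent.MP_39fec4_gt.Full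

end

section

set_option autoImplicit false

namespace Pool.Agent.MP_39fec4_gt.Full

open MeasureTheory Set Real Ball P4

/-- Partial sum of the series of the lower incomplete Gamma function. -/
noncomputable def SG (ph N : ℝ) (K : ℕ) : ℝ :=
  ∑ i ∈ Finset.range K, N ^ (i + 1) / ∏ j ∈ Finset.range (i + 1), (ph + 1 + j)

/-- The first omitted term. -/
noncomputable def TG (ph N : ℝ) (K : ℕ) : ℝ :=
  N ^ (K + 1) / ∏ j ∈ Finset.range (K + 1), (ph + 1 + j)

namespace FGamX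

/-- The lower incomplete integral. -/
noncomputable def LL (N a : ℝ) : ℝ := ∫ t in (0 : ℝ)..N, Real.exp (-t) * t ^ a

theorem cont {a : ℝ} (ha : 0 ≤ a) : Continuous fun t : ℝ => Real.exp (-t) * t ^ a := by
  have : Continuous fun t : ℝ => t ^ a := Real.continuous_rpow_const ha
  fun_prop

theorem LL_rec (N : ℝ) {a : ℝ} (ha : 0 ≤ a) :
    (a + 1) * LL N a = Real.exp (-N) * N ^ (a + 1) + LL N (a + 1) := by
  have c0 := (cont ha).intervalIntegrable (μ := volume) 0 N
  have c1 := (cont (a := a + 1) (by linarith)).intervalIntegrable (μ := volume) 0 N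
  have := intervalIntegral.integral_eq_sub_of_hasDerivAt (a := 0) (b := N)
    (f := fun t => Real.exp (-t) * t ^ (a + 1))
    (f' := fun t => (a + 1) * (Real.exp (-t) * t ^ a) - Real.exp (-t) * t ^ (a + 1))
    (fun t _ => ((hasDerivAt_neg t).exp.mul (Real.hasDerivAt_rpow_const (x := t) (p := a + 1)
      (Or.inr (by linarith)))).congr_deriv (by rw [add_sub_cancel_right]; ring))
    ((c0.const_mul _).sub c1)
  rw [intervalIntegral.integral_sub (c0.const_mul _) c1, intervalIntegral.integral_const_mul,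
    Real.zero_rpow (by linarith)] at this
  unfold LL
  linarith

theorem LL_nonneg {N : ℝ} (hN : 0 ≤ N) (a : ℝ) : 0 ≤ LL N a :=
  intervalIntegral.integral_nonneg hN fun t ht => by have := ht.1; positivity

theorem LL_succ_le {N a : ℝ} (hN : 0 ≤ N) (ha : 0 ≤ a) : LL N (a + 1) ≤ N * LL N a := by
  rw [LL, LL, ← intervalIntegral.integral_const_mul]
  refine intervalIntegral.integral_mono_on hN ((cont (by linarith)).intervalIntegrable _ _)
    (((cont ha).intervalIntegrable _ _).const_mul _) fun t ht => ?_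
  have := mul_nonneg (Real.exp_pos (-t)).le (Real.rpow_nonneg ht.1 a)
  rw [Real.rpow_add_one' ht.1 (by linarith)]
  nlinarith [ht.2]

theorem prod_pos {ph : ℝ} (h0 : 0 ≤ ph) (K : ℕ) : 0 < ∏ j ∈ Finset.range K, (ph + 1 + j) :=
  Finset.prod_pos fun j _ => by positivity

theorem LL_iter {ph N : ℝ} (h0 : 0 ≤ ph) (hN : 0 < N) (K : ℕ) :
    LL N ph = Real.exp (-N) * N ^ ph * SG ph N K +
      LL N (ph + K) / ∏ j ∈ Finset.range K, (ph + 1 + j) := by
  induction K with
  | zero => simp [SG]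
  | succ K ih =>
    have r := LL_rec N (a := ph + K) (by positivity)
    have p := prod_pos h0 K
    have e : N ^ (ph + K + 1) = N ^ ph * N ^ (K + 1) := by
      rw [add_assoc, Real.rpow_add hN, ← Real.rpow_natCast]; push_cast; rfl
    have e2 : LL N (ph + K) = (Real.exp (-N) * (N ^ ph * N ^ (K + 1)) + LL N (ph + K + 1)) /
        (ph + K + 1) := by rw [eq_div_iff (by positivity), ← e]; linarith
    rw [ih, SG, SG, Finset.sum_range_succ, Finset.prod_range_succ _ K, e2]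
    push_cast
    rw [← add_assoc]
    field_simp
    ring

theorem split {N a : ℝ} (hN : 0 ≤ N) (ha : 0 ≤ a) :
    IntegrableOn (fun t : ℝ => Real.exp (-t) * t ^ a) (Ioi N) ∧
      Real.Gamma (1 + a) = LL N a + ∫ t in Ioi N, Real.exp (-t) * t ^ a := by
  have i := Real.GammaIntegral_convergent (s := 1 + a) (by linarith)
  rw [add_sub_cancel_left] at i
  have j := i.mono_set (Ioi_subset_Ioi hN)
  refine ⟨j, ?_⟩
  rw [Real.Gamma_eq_integral (by linarith), add_sub_cancel_left, LL,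
    intervalIntegral.integral_of_le hN, ← setIntegral_union Ioc_disjoint_Ioi_same measurableSet_Ioi
      (i.mono_set Ioc_subset_Ioi_self) j, Ioc_union_Ioi_eq_Ioi hN]

theorem g32 : Real.Gamma (3 / 2) = √π / 2 := by
  rw [show (3 / 2 : ℝ) = 1 / 2 + 1 by norm_num, Real.Gamma_add_one (by norm_num),
    Real.Gamma_one_half_eq]
  ring

end FGamX

open FGamX

theorem gamma_encl {ph N : ℝ} {K : ℕ} (h0 : 0 ≤ ph) (h1 : ph ≤ 1) (hN : 1 ≤ N)
    (hK : 2 * N ≤ K) : Real.exp (-N) * N ^ ph * SG ph N K ≤ Real.Gamma (1 + ph) ∧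
      Real.Gamma (1 + ph) ≤ Real.exp (-N) * N ^ ph * (SG ph N K + 2 * TG ph N K + 2) := by
  have N0 : 0 < N := by linarith
  obtain ⟨i0, e0⟩ := split N0.le h0
  obtain ⟨i1, e1⟩ := split N0.le zero_le_one
  have p := prod_pos h0 K
  have l0 := LL_nonneg N0.le (ph + K)
  have u0 : 0 ≤ ∫ t in Ioi N, Real.exp (-t) * t ^ ph :=
    setIntegral_nonneg measurableSet_Ioi fun t ht => by
      have : 0 < t := N0.trans ht
      positivity
  have w : 0 < Real.exp (-N) * N ^ ph := by positivity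
  rw [e0, LL_iter h0 N0 K]
  refine ⟨by linarith [div_nonneg l0 p.le], ?_⟩
  have a1 : LL N (ph + K) / ∏ j ∈ Finset.range K, (ph + 1 + j) ≤
      Real.exp (-N) * N ^ ph * (2 * TG ph N K) := by
    have r := LL_rec N (a := ph + K) (by positivity)
    have s := LL_succ_le (a := ph + K) N0.le (by positivity)
    have e : N ^ (ph + K + 1) = N ^ ph * N ^ (K + 1) := by
      rw [add_assoc, Real.rpow_add N0, ← Real.rpow_natCast]; push_cast; rfl
    have t : LL N (ph + K) ≤ 2 * (Real.exp (-N) * (N ^ ph * N ^ (K + 1))) / (ph + 1 + K) := by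
      rw [le_div_iff₀ (by positivity), ← e]
      nlinarith
    rw [TG, Finset.prod_range_succ]
    refine (div_le_div_of_nonneg_right t p.le).trans_eq ?_
    field_simp
  have a2 : ∫ t in Ioi N, Real.exp (-t) * t ^ ph ≤ Real.exp (-N) * N ^ ph * 2 := by
    have b := setIntegral_mono_on i0 (i1.const_mul (N ^ ph / N)) measurableSet_Ioi fun t ht => by
      have ht : N < t := ht
      have c := Real.rpow_le_rpow_of_nonpos N0 ht.le (by linarith : ph - 1 ≤ 0)
      rw [Real.rpow_sub_one N0.ne', Real.rpow_sub_one (by linarith),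
        div_le_iff₀ (by linarith)] at c
      rw [Real.rpow_one]
      nlinarith [Real.exp_pos (-t)]
    have r := LL_rec N le_rfl
    have z : LL N 0 = 1 - Real.exp (-N) := by
      simp [LL, intervalIntegral.integral_comp_neg fun x => Real.exp x]
    rw [show (1 : ℝ) + 1 = 2 by norm_num, Real.Gamma_two] at e1
    rw [zero_add, Real.rpow_one, z] at r
    rw [integral_const_mul, show ∫ t in Ioi N, Real.exp (-t) * t ^ (1 : ℝ) =
      Real.exp (-N) * (N + 1) by linarith] at b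
    refine b.trans ?_
    rw [div_mul_eq_mul_div, div_le_iff₀ N0]
    nlinarith
  linarith

theorem gamma_shift {ph : ℝ} (h0 : 0 ≤ ph) (I : ℕ) : Real.Gamma (1 + (ph + I)) =
    Real.Gamma (1 + ph) * ∏ j ∈ Finset.range I, (ph + 1 + j) := by
  induction I with
  | zero => simp
  | succ I ih =>
    rw [Finset.prod_range_succ, ← mul_assoc, ← ih, show 1 + (ph + ((I + 1 : ℕ) : ℝ)) =
      1 + (ph + I) + 1 by push_cast; ring, Real.Gamma_add_one (by positivity)]
    ring

theorem gamma_ge {q : ℝ} (h0 : 0 ≤ q) (h1 : q ≤ 1 / 2) : 0.81 ≤ Real.Gamma (1 + q) := by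
  have g := Real.Gamma_pos_of_pos (s := 1 + q) (by linarith)
  rcases le_total q 0.2 with c | c
  · have a := Real.Gamma_strictMonoOn_Ici.monotoneOn (a := 2) (b := 1 + q + 1) (mem_Ici.2 le_rfl)
      (mem_Ici.2 (by linarith)) (by linarith)
    rw [Real.Gamma_two, Real.Gamma_add_one (by linarith)] at a
    nlinarith
  · have q1 : 0 < 1 - q := by linarith
    have a := Real.convexOn_Gamma.2 (mem_Ioi.2 (by linarith : (0 : ℝ) < 1 + q))
      (mem_Ioi.2 (by norm_num : (0 : ℝ) < 2)) (show 0 ≤ 1 / 2 / (1 - q) by positivity)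
      (show 0 ≤ (1 / 2 - q) / (1 - q) from div_nonneg (by linarith) q1.le)
      (by field_simp; ring)
    simp only [smul_eq_mul] at a
    rw [show 1 / 2 / (1 - q) * (1 + q) + (1 / 2 - q) / (1 - q) * 2 = 3 / 2 by field_simp; ring,
      g32, Real.Gamma_two, div_mul_eq_mul_div, mul_one, ← add_div, le_div_iff₀ q1] at a
    have s : 1.772 ≤ √π := Real.le_sqrt_of_sq_le (by linarith [Real.pi_gt_d4])
    nlinarith

theorem gamma_le {q : ℝ} (h0 : 0 ≤ q) (h1 : q ≤ 1 / 2) :
    Real.Gamma (1 + q) ≤ 1 - 0.227 * q := by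
  have a := Real.convexOn_Gamma.2 (mem_Ioi.2 (by norm_num : (0 : ℝ) < 1))
    (mem_Ioi.2 (by norm_num : (0 : ℝ) < 3 / 2)) (show 0 ≤ 1 - 2 * q by linarith)
    (show 0 ≤ 2 * q by linarith) (by ring)
  simp only [smul_eq_mul] at a
  rw [show (1 - 2 * q) * 1 + 2 * q * (3 / 2) = 1 + q by ring, g32, Real.Gamma_one] at a
  have s : √π ≤ 1.773 := Real.sqrt_le_iff.2 ⟨by norm_num, by linarith [Real.pi_lt_d4]⟩
  nlinarith

end Pool.Agent.MP_39fec4_gt.Full

end

section

set_option autoImplicit false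

namespace Pool.Agent.MP_39fec4_gt.Full

open MeasureTheory Set Real Ball P4

variable {C q y : ℝ}

namespace FDecayX

theorem cs {A B M w : ℝ} (hM : 0 ≤ M) (h : A ^ 2 + B ^ 2 ≤ M ^ 2) :
    |A * Real.sin w + B * Real.cos w| ≤ M := by
  apply abs_le_of_sq_le_sq _ hM
  have h1 := Real.sin_sq_add_cos_sq w
  have h2 : (A * Real.sin w + B * Real.cos w) ^ 2 + (A * Real.cos w - B * Real.sin w) ^ 2 =
      A ^ 2 + B ^ 2 := by linear_combination (A ^ 2 + B ^ 2) * h1
  nlinarith [sq_nonneg (A * Real.cos w - B * Real.sin w)]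

theorem closed {w : ℝ} (hw : 0 < w) :
    CC 2 (w ^ 2) = (1 * Real.sin w + -w * Real.cos w) / (4 * w ^ 3) ∧
    CC 3 (w ^ 2) = ((w ^ 2 - 3) * Real.sin w + 3 * w * Real.cos w) / (8 * w ^ 5) ∧
    CC 6 (w ^ 2) = ((945 - 420 * w ^ 2 + 15 * w ^ 4) * Real.sin w +
      -(945 * w - 105 * w ^ 3 + w ^ 5) * Real.cos w) / (64 * w ^ 11) := by
  have hy : 0 < w ^ 2 := by positivity
  have r : ∀ j : ℕ, CC (j + 2) (w ^ 2) =
      -(CC j (w ^ 2) + 2 * (2 * j + 1) * CC (j + 1) (w ^ 2)) / (4 * w ^ 2) := by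
    intro j
    rw [eq_div_iff (by positivity)]
    linear_combination CC_rec j hy.le
  have e0 : CC 0 (w ^ 2) = Real.cos w := by simp [CC, Real.sqrt_sq hw.le]
  have e1 : CC 1 (w ^ 2) = -Real.sin w / (2 * w) := by rw [CC_one hy, Real.sqrt_sq hw.le]
  have e2 : CC 2 (w ^ 2) = (1 * Real.sin w + -w * Real.cos w) / (4 * w ^ 3) := by
    rw [r 0, e0, e1]; field_simp; ring
  have e3 : CC 3 (w ^ 2) = ((w ^ 2 - 3) * Real.sin w + 3 * w * Real.cos w) / (8 * w ^ 5) := by
    rw [r 1, e1, e2]; field_simp; ring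
  have e4 : CC 4 (w ^ 2) =
      ((15 - 6 * w ^ 2) * Real.sin w + (w ^ 3 - 15 * w) * Real.cos w) / (16 * w ^ 7) := by
    rw [r 2, e2, e3]; field_simp; ring
  have e5 : CC 5 (w ^ 2) = ((-105 + 45 * w ^ 2 - w ^ 4) * Real.sin w +
      (105 * w - 10 * w ^ 3) * Real.cos w) / (32 * w ^ 9) := by
    rw [r 3, e3, e4]; field_simp; ring
  refine ⟨e2, e3, ?_⟩
  rw [r 4, e4, e5]; field_simp; ring

theorem abs_GG (hC : 0 < C) (hq : 0 < q) {j k : ℕ} {K : ℝ}
    (h : ∀ R : ℝ, 0 < R → R ^ (2 * j + 1) * |CC (j + 1) (R ^ 2 * y)| ≤ K * R ^ k) :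
    |gg C j q y| ≤ 2 * K * mu C (k * q) / mu C q := by
  have hm := mu_pos hC (a := q) (by linarith)
  have hk : -1 < (k : ℝ) * q := by
    have : 0 ≤ (k : ℝ) * q := by positivity
    linarith
  obtain ⟨i1, i2⟩ := mu_int hC hk
  rw [gg, abs_div, abs_of_pos hm, GG, abs_mul, abs_neg, abs_two, mul_assoc, ← i2,
    ← integral_const_mul]
  gcongr
  refine abs_integral_le (i1.const_mul K) fun w hw => ?_
  have hR : 0 < (w / C) ^ q := Real.rpow_pos_of_pos (div_pos hw hC) q
  rw [abs_mul, abs_mul, abs_of_pos (Real.exp_pos _), abs_of_pos (pow_pos hR _), mul_comm (k : ℝ),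
    Real.rpow_mul_natCast (div_pos hw hC).le, mul_left_comm K]
  exact mul_le_mul_of_nonneg_left (h _ hR) (Real.exp_pos _).le

theorem sq_mul {R : ℝ} (hR : 0 < R) : √(R ^ 2 * y) = R * √y := by
  rw [Real.sqrt_mul (sq_nonneg R), Real.sqrt_sq hR.le]

end FDecayX

open FDecayX

theorem abs_CC_one (hy : 0 < y) : |CC 1 y| ≤ 1 / (2 * √y) := by
  have := Real.sqrt_pos.2 hy
  rw [CC_one hy, abs_div, abs_neg, abs_of_pos (by positivity : 0 < 2 * √y)]
  gcongr
  exact Real.abs_sin_le_one _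

theorem abs_CC_two (hy : 0 < y) : |CC 2 y| ≤ 3 / (10 * y) := by
  rcases le_total y 3 with h | h
  · refine (abs_CC 2 y).trans ?_
    rw [le_div_iff₀ (by positivity)]
    norm_num [bb]
    linarith
  obtain ⟨w, hw, rfl⟩ : ∃ w : ℝ, 0 < w ∧ y = w ^ 2 :=
    ⟨√y, Real.sqrt_pos.2 hy, (Real.sq_sqrt hy.le).symm⟩
  rw [(closed hw).1, abs_div, abs_of_pos (by positivity : 0 < 4 * w ^ 3),
    div_le_iff₀ (by positivity)]
  refine (cs (M := 6 / 5 * w) (by positivity) (by nlinarith)).trans_eq ?_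
  field_simp
  ring

theorem abs_CC_three (hy : 0 < y) : |CC 3 y| ≤ 1 / (6 * (y * √y)) := by
  obtain ⟨w, hw, rfl⟩ : ∃ w : ℝ, 0 < w ∧ y = w ^ 2 :=
    ⟨√y, Real.sqrt_pos.2 hy, (Real.sq_sqrt hy.le).symm⟩
  rw [Real.sqrt_sq hw.le]
  rcases le_total w (5 / 2) with h | h
  · refine (abs_CC 3 _).trans ?_
    rw [le_div_iff₀ (by positivity)]
    have : w ^ 3 ≤ (5 / 2) ^ 3 := by gcongr
    norm_num [bb]
    nlinarith
  have h2 : (5 / 2) ^ 2 ≤ w ^ 2 := by gcongr
  rw [(closed hw).2.1, abs_div, abs_of_pos (by positivity : 0 < 8 * w ^ 5),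
    div_le_iff₀ (by positivity)]
  refine (cs (M := 4 / 3 * w ^ 2) (by positivity) (by nlinarith)).trans_eq ?_
  field_simp
  ring

theorem abs_CC_six (hy : 0 < y) : |CC 6 y| ≤ 1 / (8 * y ^ 3) := by
  rcases le_total y 40 with h | h
  · refine (abs_CC 6 y).trans ?_
    rw [le_div_iff₀ (by positivity)]
    have : y ^ 3 ≤ 40 ^ 3 := by gcongr
    norm_num [bb]
    linarith
  have key : y ^ 5 + 15 * y ^ 4 + 315 * y ^ 3 + 6300 * y ^ 2 + 99225 * y + 893025 ≤ 64 * y ^ 5 := by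
    obtain ⟨t, ht, rfl⟩ : ∃ t : ℝ, 0 ≤ t ∧ y = 40 + t := ⟨y - 40, by linarith, by ring⟩
    rw [← sub_nonneg]
    ring_nf
    positivity
  obtain ⟨w, hw, rfl⟩ : ∃ w : ℝ, 0 < w ∧ y = w ^ 2 :=
    ⟨√y, Real.sqrt_pos.2 hy, (Real.sq_sqrt hy.le).symm⟩
  rw [(closed hw).2.2, abs_div, abs_of_pos (by positivity : 0 < 64 * w ^ 11),
    div_le_iff₀ (by positivity)]
  refine (cs (M := 8 * w ^ 5) (by positivity) (by linarith)).trans_eq ?_
  field_simp
  ring

theorem dec_zero (hC : 0 < C) (hq : 0 < q) (hy : 0 < y) : |gg C 0 q y| ≤ 1 / (mu C q * √y) := by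
  have hs := Real.sqrt_pos.2 hy
  have hm := mu_pos hC (a := q) (by linarith)
  refine (abs_GG hC hq (k := 0) (K := 1 / (2 * √y)) fun R hR => ?_).trans_eq ?_
  · refine (mul_le_mul_of_nonneg_left (abs_CC_one (by positivity)) (by positivity)).trans_eq ?_
    rw [sq_mul hR]
    field_simp
    simp
  · have : mu C (((0 : ℕ) : ℝ) * q) = 1 := by simp [mu]
    rw [this]
    field_simp

theorem dec_one (hC : 0 < C) (hq : 0 < q) (hy : 0 < y) : |gg C 1 q y| ≤ 3 / (5 * y) := by
  have hm := mu_pos hC (a := q) (by linarith)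
  refine (abs_GG hC hq (k := 1) (K := 3 / (10 * y)) fun R hR => ?_).trans_eq ?_
  · refine (mul_le_mul_of_nonneg_left (abs_CC_two (by positivity)) (by positivity)).trans_eq ?_
    field_simp
  · rw [Nat.cast_one, one_mul]
    field_simp
    ring

theorem dec_two (hC : 0 < C) (hq : 0 < q) (hy : 0 < y) :
    |gg C 2 q y| ≤ mu C (2 * q) / (3 * mu C q * (y * √y)) := by
  have hs := Real.sqrt_pos.2 hy
  have hm := mu_pos hC (a := q) (by linarith)
  refine (abs_GG hC hq (k := 2) (K := 1 / (6 * (y * √y))) fun R hR => ?_).trans_eq ?_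
  · refine (mul_le_mul_of_nonneg_left (abs_CC_three (by positivity)) (by positivity)).trans_eq ?_
    rw [sq_mul hR]
    field_simp
  · push_cast
    field_simp
    ring

theorem dec_five (hC : 0 < C) (hq : 0 < q) (hy : 0 < y) :
    |gg C 5 q y| ≤ mu C (5 * q) / (4 * mu C q * y ^ 3) := by
  have hm := mu_pos hC (a := q) (by linarith)
  refine (abs_GG hC hq (k := 5) (K := 1 / (8 * y ^ 3)) fun R hR => ?_).trans_eq ?_
  · refine (mul_le_mul_of_nonneg_left (abs_CC_six (by positivity)) (by positivity)).trans_eq ?_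
    field_simp
  · push_cast
    field_simp
    ring

end Pool.Agent.MP_39fec4_gt.Full

end

section

set_option autoImplicit false

namespace Pool.Agent.MP_39fec4_gt.Full

open MeasureTheory Set Real Ball P4

variable {C q : ℝ}

namespace FPoisUX

theorem up {F G : ℝ → ℝ} (hF : PGood F) (e : ∀ s, 0 ≤ s → G s = F s) (h0 : F 0 = 1)
    {h A2 A3 : ℝ} {M : ℕ} (hM : 1 ≤ M) (hh : 0 < h) (hA2 : 0 ≤ A2) (hA3 : 0 ≤ A3)
    (tail : ∀ s : ℝ, M * h ≤ s → G s ≤ A2 * (M * h / s) ^ 2 + A3 * (M * h / s) ^ 3) :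
    ∫ s in Ioi (0 : ℝ), G s ≤
      h / 2 + h * ∑ m ∈ Finset.range M, G ((m + 1) * h) + (A2 + A3 / 2) * (M * h) := by
  obtain ⟨s1, -, hP⟩ := hF.poisson hh
  have t := tail_le hM hh hA2 hA3 s1 fun s hs => by
    rw [← e s (le_trans (by positivity) hs)]; exact tail s hs
  have n : 0 ≤ ∑' k : ℕ, cosT F (2 * π * (k + 1) / h) := tsum_nonneg fun k => hF.nn _
  rw [setIntegral_congr_fun measurableSet_Ioi fun s hs => e s (le_of_lt hs),
    Finset.sum_congr rfl fun (m : ℕ) _ => e ((m + 1) * h) (by positivity)]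
  have := mul_le_mul_of_nonneg_left t hh.le
  rw [h0] at hP
  linarith

theorem two_lt (hq : 0 < q) (hq2 : q < 1 / 2) : 2 < 1 / q := by
  rw [lt_div_iff₀ hq]; linarith

theorem gg_sq (hC : 0 < C) (hq : 0 < q) (hq2 : q < 1 / 2) {x s : ℝ} (hx : 0 ≤ x) (hs : 0 ≤ s) :
    gg C 0 q (x * s ^ 2) = ff (1 / q) (mu C q * √x * s) := by
  rw [gg_eq_ff hC hq hq2 (by positivity), Real.sqrt_mul hx, Real.sqrt_sq hs, mul_assoc]

end FPoisUX

open FPoisUX

/-- Poisson summation gives an upper bound for the integral. -/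
theorem pois_up (hC : 0 < C) (hq : 0 < q) (hq2 : q < 1 / 2) {x1 x2 x3 h A2 A3 : ℝ} (h1 : 0 < x1)
    (h2 : 0 ≤ x2) (h3 : 0 ≤ x3) (k : ℕ) {M : ℕ} (hM : 1 ≤ M) (hh : 0 < h) (hA2 : 0 ≤ A2)
    (hA3 : 0 ≤ A3) (tail : ∀ s : ℝ, M * h ≤ s → P3 (gg C 0 q) x1 x2 x3 k (s ^ 2) ≤
      A2 * (M * h / s) ^ 2 + A3 * (M * h / s) ^ 3) :
    ∫ s in Ioi (0 : ℝ), P3 (gg C 0 q) x1 x2 x3 k (s ^ 2) ≤
      h / 2 + h * ∑ m ∈ Finset.range M, P3 (gg C 0 q) x1 x2 x3 k (((m + 1) * h) ^ 2) +
        (A2 + A3 / 2) * (M * h) := by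
  have hp := two_lt hq hq2
  have hm := mu_pos hC (a := q) (by linarith)
  have hs := Real.sqrt_pos.2 h1
  refine up (G := fun s => P3 (gg C 0 q) x1 x2 x3 k (s ^ 2))
    (((pgood_one hp (mul_pos hm hs)).mul hp (mu C q * √x2)).mul_pow hp (mu C q * √x3) k)
    (fun s hs => ?_) (by simp only [mul_zero, ff_zero hp, one_pow, mul_one]) hM hh hA2 hA3 tail
  rw [P3, gg_sq hC hq hq2 h1.le hs, gg_sq hC hq hq2 h2 hs, gg_sq hC hq hq2 h3 hs]

theorem pois_up_diag (hC : 0 < C) (hq : 0 < q) (hq2 : q < 1 / 2) {h A2 A3 : ℝ} {N : ℕ}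
    (hN : 2 ≤ N) {M : ℕ} (hM : 1 ≤ M) (hh : 0 < h) (hA2 : 0 ≤ A2) (hA3 : 0 ≤ A3)
    (tail : ∀ s : ℝ, M * h ≤ s → gg C 0 q (s ^ 2 / N) ^ N ≤
      A2 * (M * h / s) ^ 2 + A3 * (M * h / s) ^ 3) :
    DG (gg C 0 q) N ≤ h / 2 + h * ∑ m ∈ Finset.range M, gg C 0 q (((m + 1) * h) ^ 2 / N) ^ N +
      (A2 + A3 / 2) * (M * h) := by
  have hp := two_lt hq hq2
  have hm := mu_pos hC (a := q) (by linarith)
  have hN0 : (0 : ℝ) < (N : ℝ)⁻¹ := inv_pos.2 (by exact_mod_cast (by omega : 0 < N))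
  have hs := Real.sqrt_pos.2 hN0
  refine up (G := fun s => gg C 0 q (s ^ 2 / N) ^ N)
    (pgood_pow hp (mul_pos hm hs) (N := N) (by omega))
    (fun s hs => ?_) (by simp only [mul_zero, ff_zero hp, one_pow, mul_one]) hM hh hA2 hA3 tail
  rw [div_eq_inv_mul, gg_sq hC hq hq2 hN0.le hs]

end Pool.Agent.MP_39fec4_gt.Full

end
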