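import Pool.Agent.Mg.F39fec4.G27abef
import Pool.Agent.Mg.F39fec4.Gef3640
import Pool.Agent.Mg.F39fec4.G81ba70

section

set_option autoImplicit false

/-! Soundness of the tables of Taylor coefficients. -/

namespace Pool.Agent.MP_39fec4_gt.K

open Set Full

namespace ZVertX

open Polynomial

theorem band_cases (y : ℕ) : (y < 4398046511104 ∧ bandOf y = 0) ∨
    (4398046511104 ≤ y ∧ y < 17592186044416 ∧ bandOf y = 1) ∨
    (17592186044416 ≤ y ∧ y < 70368744177664 ∧ bandOf y = 2) ∨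
    (70368744177664 ≤ y ∧ y < 281474976710656 ∧ bandOf y = 3) ∨
    (281474976710656 ≤ y ∧ y < 1125899906842624 ∧ bandOf y = 4) ∨
    (1125899906842624 ≤ y ∧ bandOf y = 5) := by
  simp only [bandOf, Bool.cond_eq_ite, Nat.blt_eq]
  split_ifs <;> omega

theorem vidx_eq (y : ℕ) : vidx y = y / 2 ^ (39 + bandOf y) + 4 * 2 ^ bandOf y - 4 := by
  simp only [vidx, forceN_eq, Nat.shiftRight_eq_div_pow, Nat.shiftLeft_eq]

theorem vctr_eq (y : ℕ) : vctr y = (2 * (y / 2 ^ (39 + bandOf y)) + 1) * 2 ^ (38 + bandOf y) := by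
  simp only [vctr, forceN_eq, Nat.shiftRight_eq_div_pow, Nat.shiftLeft_eq]

theorem vhw_eq (y : ℕ) : vhw y = 2 ^ (38 + bandOf y) := by
  simp only [vhw, Nat.shiftLeft_eq, one_mul]

theorem vidx_mono {y y' : ℕ} (h : y ≤ y') : vidx y ≤ vidx y' := by
  rw [vidx_eq, vidx_eq]
  rcases band_cases y with a | a | a | a | a | a <;>
    rcases band_cases y' with b | b | b | b | b | b <;>
    simp only [a, b, Nat.reduceAdd, Nat.reducePow, Nat.reduceMul] <;> omega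

theorem cell_pos {y : ℕ} (h : y < 4503599627370496) : ∃ i, bandOf y < 6 ∧
    y / 2 ^ (39 + bandOf y) = bandA (bandOf y) + i ∧ vidx y = bandI (bandOf y) + i ∧
    i < 8 <<< bandOf y - bandA (bandOf y) := by
  refine ⟨y / 2 ^ (39 + bandOf y) - bandA (bandOf y), ?_⟩
  rw [vidx_eq]
  have e0 : bandA 0 = 0 := rfl
  have e1 : bandA 1 = 4 := rfl
  have e2 : bandA 2 = 8 := rfl
  have e3 : bandA 3 = 16 := rfl
  have e4 : bandA 4 = 32 := rfl
  have e5 : bandA 5 = 64 := rfl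
  rcases band_cases y with a | a | a | a | a | a <;>
    simp only [a, bandI, e0, e1, e2, e3, e4, e5, Nat.shiftLeft_eq, Nat.reduceAdd, Nat.reducePow,
      Nat.reduceMul] <;> omega

/-- The polynomial built by the Horner scheme. -/
noncomputable def pol (l : List ℝ) (Q : ℝ[X]) : ℝ[X] := l.foldl (fun Q a => Q * X + C a) Q

theorem pol_eq (l : List ℝ) (Q : ℝ[X]) : pol l Q = Q * X ^ l.length +
    ∑ i ∈ Finset.range l.length, C (l.getD (l.length - 1 - i) 0) * X ^ i := by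
  induction l generalizing Q with
  | nil => simp [pol]
  | cons a l ih =>
    have e : pol (a :: l) Q = pol l (Q * X + C a) := rfl
    rw [e, ih, List.length_cons, Finset.sum_range_succ, Nat.add_sub_cancel, Nat.sub_self,
      List.getD_cons_zero]
    have : ∑ i ∈ Finset.range l.length, C ((a :: l).getD (l.length - i) 0) * X ^ i =
        ∑ i ∈ Finset.range l.length, C (l.getD (l.length - 1 - i) 0) * X ^ i := by
      refine Finset.sum_congr rfl fun i hi => ?_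
      have hi' := Finset.mem_range.1 hi
      rw [show l.length - i = (l.length - 1 - i) + 1 by omega, List.getD_cons_succ]
    rw [this]
    ring

/-- Taylor coefficient. -/
noncomputable def tc (Y : ℝ) (Q : ℝ[X]) (j : ℕ) : ℝ := (taylor Y Q).coeff j

theorem tc_zero (Y : ℝ) (Q : ℝ[X]) (a : ℝ) : tc Y (Q * X + C a) 0 = tc Y Q 0 * Y + a := by
  simp [tc, taylor_mul, mul_add]

theorem tc_succ (Y : ℝ) (Q : ℝ[X]) (a : ℝ) (j : ℕ) :
    tc Y (Q * X + C a) (j + 1) = tc Y Q (j + 1) * Y + tc Y Q j := by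
  simp only [tc, map_add, taylor_mul, taylor_X, taylor_C, mul_add, coeff_add, coeff_mul_X,
    coeff_mul_C, coeff_C_succ]
  ring

theorem tc_mono (Y a : ℝ) (i j : ℕ) : tc Y (C a * X ^ i) j = a * (i.choose j) * Y ^ (i - j) := by
  rw [tc, taylor_mul, taylor_C, taylor_pow, taylor_X, coeff_C_mul, coeff_X_add_C_pow]
  ring

theorem tc_pol (Y t : ℝ) (l : List ℝ) (j : ℕ) : tc Y (pol l (C t)) j =
    t * (l.length.choose j) * Y ^ (l.length - j) + ∑ i ∈ Finset.range l.length,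
      l.getD (l.length - 1 - i) 0 * (i.choose j) * Y ^ (i - j) := by
  rw [pol_eq, ← tc_mono]
  simp only [← tc_mono]
  simp only [tc, map_add, map_sum, coeff_add, finsetSum_coeff]

/-- The signed list. -/
noncomputable def sl : List ℕ → Bool → List ℝ
  | [], _ => []
  | a :: l, od => (bif od then -(a : ℝ) else a) :: sl l (!od)

theorem sl_length (l : List ℕ) (od : Bool) : (sl l od).length = l.length := by
  induction l generalizing od with
  | nil => rfl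
  | cons a l ih => simp [sl, ih]

theorem sl_getD (l : List ℕ) (od : Bool) (t : ℕ) :
    (sl l od).getD t 0 = (-1) ^ (t + od.toNat) * (l.getD t 0 : ℕ) := by
  induction l generalizing od t with
  | nil => simp [sl]
  | cons a l ih =>
    cases t with
    | zero => cases od <;> simp [sl]
    | succ t =>
      rw [sl, List.getD_cons_succ, List.getD_cons_succ, ih]
      cases od <;> simp [pow_succ]

/-- Five numbers are the first Taylor coefficients. -/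
def Five (Y : ℝ) (Q : ℝ[X]) (d0 d1 d2 d3 d4 : ℝ) : Prop :=
  d0 = tc Y Q 0 ∧ d1 = tc Y Q 1 ∧ d2 = tc Y Q 2 ∧ d3 = tc Y Q 3 ∧ d4 = tc Y Q 4

theorem Five.step {Y : ℝ} {Q : ℝ[X]} {d0 d1 d2 d3 d4 : ℝ} (h : Five Y Q d0 d1 d2 d3 d4) (a : ℝ) :
    Five Y (Q * X + C a) (d0 * Y + a) (d1 * Y + d0) (d2 * Y + d1) (d3 * Y + d2)
      (d4 * Y + d3) := by
  obtain ⟨rfl, rfl, rfl, rfl, rfl⟩ := h
  exact ⟨(tc_zero _ _ _).symm, (tc_succ _ _ _ 0).symm, (tc_succ _ _ _ 1).symm,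
    (tc_succ _ _ _ 2).symm, (tc_succ _ _ _ 3).symm⟩

theorem five_C (Y t : ℝ) : Five Y (C t) t 0 0 0 0 := by
  simp [Five, tc, coeff_C]

theorem horn_spec {α : Type} (l : List ℕ) (od : Bool) (Y : ℤ) (k : ℤ → ℤ → ℤ → ℤ → ℤ → α) :
    ∃ e0 e1 e2 e3 e4 : ℤ, horn l od Y k = k e0 e1 e2 e3 e4 ∧
      Five Y (pol (sl l od) (C 0)) e0 e1 e2 e3 e4 := by
  have key : ∀ (l : List ℕ) (od : Bool) (Q : ℝ[X]) (d0 d1 d2 d3 d4 : ℤ),
      Five Y Q d0 d1 d2 d3 d4 → ∃ e0 e1 e2 e3 e4 : ℤ,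
      lf (α := Bool → Int → Int → Int → Int → Int → α) l (fun _ => k)
        (fun a ih od d0 d1 d2 d3 d4 =>
          forceI (d4 * Y + d3) fun e4 => forceI (d3 * Y + d2) fun e3 =>
          forceI (d2 * Y + d1) fun e2 => forceI (d1 * Y + d0) fun e1 =>
          Bool.casesOn (motive := fun _ => α) od
            (forceI (d0 * Y + Int.ofNat a) fun e0 => ih true e0 e1 e2 e3 e4)
            (forceI (d0 * Y - Int.ofNat a) fun e0 => ih false e0 e1 e2 e3 e4))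
        od d0 d1 d2 d3 d4 = k e0 e1 e2 e3 e4 ∧ Five Y (pol (sl l od) Q) e0 e1 e2 e3 e4 := by
    intro l
    induction l with
    | nil => exact fun od Q d0 d1 d2 d3 d4 h => ⟨d0, d1, d2, d3, d4, rfl, h⟩
    | cons a l ih =>
      intro od Q d0 d1 d2 d3 d4 h
      rw [lf_cons]
      simp only [forceI_eq] at ih ⊢
      cases od
      · refine ih true (Q * X + C (a : ℝ)) _ _ _ _ _ ?_
        have := h.step (a : ℝ)
        simpa using this
      · refine ih false (Q * X + C (-(a : ℝ))) _ _ _ _ _ ?_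
        have := h.step (-(a : ℝ))
        simpa [sub_eq_add_neg] using this
  exact key l od (C 0) 0 0 0 0 0 (by simpa using five_C Y 0)

theorem hornN_spec {α : Type} (l : List ℕ) (top Y : ℕ) (k : ℕ → ℕ → ℕ → ℕ → ℕ → α) :
    ∃ e0 e1 e2 e3 e4 : ℕ, hornN l top Y k = k e0 e1 e2 e3 e4 ∧
      Five Y (pol (l.map (↑)) (C (top : ℝ))) e0 e1 e2 e3 e4 := by
  have key : ∀ (l : List ℕ) (Q : ℝ[X]) (d0 d1 d2 d3 d4 : ℕ),
      Five Y Q d0 d1 d2 d3 d4 → ∃ e0 e1 e2 e3 e4 : ℕ,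
      lf (α := Nat → Nat → Nat → Nat → Nat → α) l k
        (fun a ih d0 d1 d2 d3 d4 =>
          forceN (d4 * Y + d3) fun e4 => forceN (d3 * Y + d2) fun e3 =>
          forceN (d2 * Y + d1) fun e2 =>
          forceN (d1 * Y + d0) fun e1 => forceN (d0 * Y + a) fun e0 => ih e0 e1 e2 e3 e4)
        d0 d1 d2 d3 d4 = k e0 e1 e2 e3 e4 ∧ Five Y (pol (l.map (↑)) Q) e0 e1 e2 e3 e4 := by
    intro l
    induction l with
    | nil => exact fun Q d0 d1 d2 d3 d4 h => ⟨d0, d1, d2, d3, d4, rfl, h⟩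
    | cons a l ih =>
      intro Q d0 d1 d2 d3 d4 h
      rw [lf_cons]
      simp only [forceN_eq] at ih ⊢
      refine ih (Q * X + C (a : ℝ)) _ _ _ _ _ ?_
      have := h.step (a : ℝ)
      simpa using this
  exact key l (C (top : ℝ)) top 0 0 0 0 (by simpa using five_C Y top)

theorem drop_getD (l : List ℕ) {n N i : ℕ} (hN : N + 2 ≤ n) (hi : i < N + 1) :
    (l.drop (n - N - 1)).getD (N + 1 - 1 - i) 0 = nth l (n - 1 - i) := by
  rw [nth_eq, List.getD_eq_getElem?_getD, List.getD_eq_getElem?_getD, List.getElem?_drop]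
  congr 2
  omega

theorem scale (a y : ℝ) (P i j : ℕ) :
    a * (i.choose j : ℝ) * (y / 4) ^ (i - j) * (2 ^ P / 4 ^ j) =
      a * 2 ^ P / 4 ^ i * (i.choose j : ℝ) * y ^ (i - j) := by
  rcases lt_or_ge i j with h | h
  · simp [Nat.choose_eq_zero_of_lt h]
  · obtain ⟨t, rfl⟩ := Nat.exists_eq_add_of_le h
    rw [Nat.add_sub_cancel_left, div_pow, pow_add]
    field_simp

/-- The analytic estimate. -/
theorem est {Cq q : ℝ} (hC : 0 < Cq) (hq : 0 < q) {la lr : List ℕ} {n N P : ℕ}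
    (h1 : la.length = n) (h2 : lr.length = n)
    (h3 : ∀ i, i < n → (nth la (n - 1 - i) : ℝ) ≤ aa Cq q i * 2 ^ P / 4 ^ i ∧
      aa Cq q i * 2 ^ P / 4 ^ i ≤ (nth la (n - 1 - i) : ℝ) + nth lr (n - 1 - i))
    (hN : N + 2 ≤ n) {j : ℕ} (hj : j ≤ N) {Y Y' : ℝ} (hY : 0 ≤ Y) (hYY : Y ≤ Y') :
    |Full.gg Cq j q (Y / 4) / (j.factorial : ℝ) * (2 ^ P / 4 ^ j) -
      tc Y (pol (sl (drp la (n - N - 1)) (Nat.beq (N % 2) 1)) (C 0)) j| ≤
      tc Y' (pol ((drp lr (n - N - 1)).map (↑))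
        (C ((nth la (n - N - 2) + nth lr (n - N - 2) : ℕ) : ℝ))) j := by
  have l1 : (la.drop (n - N - 1)).length = N + 1 := by rw [List.length_drop]; omega
  have l2 : (lr.drop (n - N - 1)).length = N + 1 := by rw [List.length_drop]; omega
  rw [tc_pol, tc_pol, drp_eq, drp_eq, sl_length, List.length_map, l1, l2, zero_mul, zero_mul,
    zero_add]
  have hs := gg_series hC hq (y := Y / 4) (by positivity) hj
  have hp : (0 : ℝ) < 2 ^ P / 4 ^ j := by positivity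
  have hs2 := mul_le_mul_of_nonneg_right hs hp.le
  rw [← abs_of_pos hp, ← abs_mul, abs_of_pos hp, sub_mul, Finset.sum_mul, scale] at hs2
  have hpw : ∀ t : ℕ, Y ^ t ≤ Y' ^ t := fun t => pow_le_pow_left₀ hY hYY t
  have b1 : aa Cq q (N + 1) * 2 ^ P / 4 ^ (N + 1) * ((N + 1).choose j : ℝ) * Y ^ (N + 1 - j) ≤
      ((nth la (n - N - 2) + nth lr (n - N - 2) : ℕ) : ℝ) * ((N + 1).choose j : ℝ) *
        Y' ^ (N + 1 - j) := by
    have := (h3 (N + 1) (by omega)).2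
    rw [show n - 1 - (N + 1) = n - N - 2 by omega] at this
    push_cast
    exact mul_le_mul (mul_le_mul_of_nonneg_right this (by positivity)) (hpw _) (by positivity)
      (by positivity)
  have b2 : |∑ i ∈ Finset.range (N + 1),
      (-1) ^ i * aa Cq q i * (i.choose j : ℝ) * (Y / 4) ^ (i - j) * (2 ^ P / 4 ^ j) -
      ∑ i ∈ Finset.range (N + 1),
        (sl (la.drop (n - N - 1)) (Nat.beq (N % 2) 1)).getD (N + 1 - 1 - i) 0 *
          (i.choose j : ℝ) * Y ^ (i - j)| ≤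
      ∑ i ∈ Finset.range (N + 1), (List.map (↑) (lr.drop (n - N - 1)) : List ℝ).getD
        (N + 1 - 1 - i) 0 * (i.choose j : ℝ) * Y' ^ (i - j) := by
    rw [← Finset.sum_sub_distrib]
    refine (Finset.abs_sum_le_sum_abs _ _).trans (Finset.sum_le_sum fun i hi => ?_)
    have hi' := Finset.mem_range.1 hi
    obtain ⟨c1, c2⟩ := h3 i (by omega)
    have e1 : (List.map (↑) (lr.drop (n - N - 1)) : List ℝ).getD (N + 1 - 1 - i) 0 =
        (nth lr (n - 1 - i) : ℝ) := by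
      rw [← drop_getD lr hN hi', ← List.getD_map (f := (Nat.cast : ℕ → ℝ)), Nat.cast_zero]
    have e2 : ((-1 : ℝ)) ^ (N + 1 - 1 - i + (Nat.beq (N % 2) 1).toNat) = (-1) ^ i := by
      rw [neg_one_pow_eq_pow_mod_two, neg_one_pow_eq_pow_mod_two i]
      congr 1
      rcases Nat.mod_two_eq_zero_or_one N with h | h <;> rw [h]
      · change (N + 1 - 1 - i + 0) % 2 = _
        omega
      · change (N + 1 - 1 - i + 1) % 2 = _
        omega
    rw [sl_getD, drop_getD la hN hi', e1, e2, scale]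
    have e3 : (-1) ^ i * aa Cq q i * 2 ^ P / 4 ^ i * (i.choose j : ℝ) * Y ^ (i - j) -
        (-1) ^ i * (nth la (n - 1 - i) : ℝ) * (i.choose j : ℝ) * Y ^ (i - j) =
        (-1) ^ i * ((aa Cq q i * 2 ^ P / 4 ^ i - (nth la (n - 1 - i) : ℝ)) * (i.choose j : ℝ) *
          Y ^ (i - j)) := by ring
    rw [e3, abs_mul, abs_pow, abs_neg, abs_one, one_pow, one_mul,
      abs_of_nonneg (mul_nonneg (mul_nonneg (sub_nonneg.2 c1) (by positivity)) (by positivity))]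
    exact mul_le_mul (mul_le_mul_of_nonneg_right (by linarith) (by positivity)) (hpw _)
      (by positivity) (by positivity)
  exact (abs_sub_le _ _ _).trans (add_le_add (hs2.trans b1) b2)

theorem fin_est {g : ℝ} {d : ℤ} {P j a e : ℕ} (hP : 40 + 2 * j ≤ P)
    (h : |g * (2 ^ P / 4 ^ j) - d| ≤ e) (he : e ≤ 1 <<< (P - (40 + 2 * j)))
    (ha : a = encV d (P - (40 + 2 * j))) (h0 : 0 < a) :
    |g - ri (Int.subNatNat a OFV)| ≤ 2 / 2 ^ 40 := by
  obtain ⟨s, rfl⟩ := Nat.exists_eq_add_of_le hP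
  rw [Nat.add_sub_cancel_left] at he ha
  have e1 : Int.subNatNat a OFV = Int.shiftRight d s := by
    rw [Int.subNatNat_eq_coe]
    unfold encV at ha
    omega
  have h1 := ri_shr_le d s
  have h2 := ri_shr_lt d s
  rw [Nat.shiftLeft_eq, one_mul] at he
  have h3 : (e : ℝ) ≤ 2 ^ s := by exact_mod_cast he
  have e2 : (2 : ℝ) ^ (40 + 2 * j + s) / 4 ^ j = 2 ^ 40 * 2 ^ s := by
    rw [pow_add, pow_add, pow_mul, show (2 : ℝ) ^ 2 = 4 by norm_num]
    field_simp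
  have h4 : |g - ri d / 2 ^ s| ≤ 1 / 2 ^ 40 := by
    have e3 : g - ri d / 2 ^ s = (g * (2 ^ 40 * 2 ^ s) - d) / (2 ^ 40 * 2 ^ s) := by
      unfold ri
      field_simp
    rw [e2] at h
    rw [e3, abs_div, abs_of_pos (by positivity : (0 : ℝ) < 2 ^ 40 * 2 ^ s),
      div_le_div_iff₀ (by positivity) (by positivity)]
    nlinarith [h.trans h3]
  rw [e1, abs_le] at *
  constructor <;> linarith [h4.1, h4.2]

theorem pk5_gen (a0 a1 a2 a3 a4 w : ℕ) :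
    a0 + a1 <<< w + a2 <<< (w + w) + a3 <<< (w + w + w) + a4 <<< (w + w + w + w) =
      a0 + ((a1 + ((a2 + ((a3 + ((a4 + (0 <<< w)) <<< w)) <<< w)) <<< w)) <<< w) := by
  simp only [Nat.shiftLeft_eq, pow_add]
  ring

theorem pk5_fld {a0 a1 a2 a3 a4 : ℕ} (h0 : a0 < 281474976710656) (h1 : a1 < 281474976710656)
    (h2 : a2 < 281474976710656) (h3 : a3 < 281474976710656) (h4 : a4 < 281474976710656) :
    fld (pk5 a0 a1 a2 a3 a4) 48 0 = a0 ∧ fld (pk5 a0 a1 a2 a3 a4) 48 1 = a1 ∧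
    fld (pk5 a0 a1 a2 a3 a4) 48 2 = a2 ∧ fld (pk5 a0 a1 a2 a3 a4) 48 3 = a3 ∧
    fld (pk5 a0 a1 a2 a3 a4) 48 4 = a4 := by
  have e := pk5_gen a0 a1 a2 a3 a4 48
  simp only [Nat.reduceAdd] at e
  have p : (281474976710656 : ℕ) = 2 ^ 48 := by norm_num
  rw [p] at h0 h1 h2 h3 h4
  delta pk5
  rw [e]
  exact ⟨fld_low h0, (fld_high h0 0).trans (fld_low h1),
    (fld_high h0 1).trans ((fld_high h1 0).trans (fld_low h2)),
    (fld_high h0 2).trans ((fld_high h1 1).trans ((fld_high h2 0).trans (fld_low h3))),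
    (fld_high h0 3).trans ((fld_high h1 2).trans ((fld_high h2 1).trans
      ((fld_high h3 0).trans (fld_low h4))))⟩

theorem vrec_spec {l : List ℕ} {od : Bool} {P Y : ℕ} (h : 0 < vrec l od P Y) :
    ∃ d0 d1 d2 d3 d4 : ℤ, Five Y (pol (sl l od) (C 0)) d0 d1 d2 d3 d4 ∧
      (fld (vrec l od P Y) 48 0 = encV d0 (P - 40) ∧ 0 < encV d0 (P - 40)) ∧
      (fld (vrec l od P Y) 48 1 = encV d1 (P - 42) ∧ 0 < encV d1 (P - 42)) ∧
      (fld (vrec l od P Y) 48 2 = encV d2 (P - 44) ∧ 0 < encV d2 (P - 44)) ∧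
      (fld (vrec l od P Y) 48 3 = encV d3 (P - 46) ∧ 0 < encV d3 (P - 46)) ∧
      (fld (vrec l od P Y) 48 4 = encV d4 (P - 48) ∧ 0 < encV d4 (P - 48)) := by
  unfold vrec at h ⊢
  obtain ⟨d0, d1, d2, d3, d4, e, h5⟩ := horn_spec l od (Int.ofNat Y) fun d0 d1 d2 d3 d4 =>
    forceN (encV d0 (P - 40)) fun a0 => forceN (encV d1 (P - 42)) fun a1 =>
    forceN (encV d2 (P - 44)) fun a2 => forceN (encV d3 (P - 46)) fun a3 =>
    forceN (encV d4 (P - 48)) fun a4 =>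
    bif lt48 a0 && lt48 a1 && lt48 a2 && lt48 a3 && lt48 a4 then pk5 a0 a1 a2 a3 a4 else 0
  refine ⟨d0, d1, d2, d3, d4, by simpa using h5, ?_⟩
  rw [e] at h ⊢
  simp only [forceN_eq, Bool.cond_eq_ite, lt48, Bool.and_eq_true, Nat.blt_eq] at h ⊢
  split_ifs at h ⊢ with hc
  · obtain ⟨⟨⟨⟨⟨a0, b0⟩, a1, b1⟩, a2, b2⟩, a3, b3⟩, a4, b4⟩ := hc
    obtain ⟨f0, f1, f2, f3, f4⟩ := pk5_fld b0 b1 b2 b3 b4
    exact ⟨⟨f0, a0⟩, ⟨f1, a1⟩, ⟨f2, a2⟩, ⟨f3, a3⟩, f4, a4⟩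
  · exact absurd h (lt_irrefl 0)

theorem vband_sound {Cq q : ℝ} (hC : 0 < Cq) (hq : 0 < q) {la lr : List ℕ} {n P V b cnt N : ℕ}
    (h1 : la.length = n) (h2 : lr.length = n)
    (h3 : ∀ i, i < n → (nth la (n - 1 - i) : ℝ) ≤ aa Cq q i * 2 ^ P / 4 ^ i ∧
      aa Cq q i * 2 ^ P / 4 ^ i ≤ (nth la (n - 1 - i) : ℝ) + nth lr (n - 1 - i))
    (hP : 48 ≤ P) (h : vband la lr n P V b cnt N = true) {i : ℕ} (hi : i < cnt) {j : ℕ}
    (hj : j ≤ 4) :
    |Full.gg Cq j q ((((2 * (bandA b + i) + 1) <<< b : ℕ) : ℝ) / 4) / (j.factorial : ℝ) -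
      ri (vco (fld V 240 (bandI b + i)) j)| ≤ 2 / 2 ^ 40 := by
  unfold vband at h
  rw [Bool.and_eq_true, Bool.and_eq_true, Bool.and_eq_true, Bool.and_eq_true, Nat.ble_eq,
    Nat.ble_eq] at h
  obtain ⟨⟨⟨⟨hN, hN4⟩, -⟩, hE⟩, hR⟩ := h
  have hr := all_rec (f := fun i => forceN (vrec (drp la (n - N - 1)) (Nat.beq (N % 2) 1) P
        ((2 * (bandA b + i) + 1) <<< b)) (fun r =>
      Nat.blt 0 r && Nat.beq (fld V 240 (bandI b + i)) r)) hR i hi
  rw [forceN_eq, Bool.and_eq_true, Nat.blt_eq, Nat.beq_eq] at hr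
  obtain ⟨d0, d1, d2, d3, d4, hd, r0, r1, r2, r3, r4⟩ := vrec_spec hr.1
  obtain ⟨e0, e1, e2, e3, e4, he, hf⟩ := hornN_spec (drp lr (n - N - 1))
    (nth la (n - N - 2) + nth lr (n - N - 2)) ((2 * (bandA b + cnt)) <<< b)
    (fun e0 e1 e2 e3 e4 => Nat.ble e0 (1 <<< (P - 40)) && Nat.ble e1 (1 <<< (P - 42)) &&
      Nat.ble e2 (1 <<< (P - 44)) && Nat.ble e3 (1 <<< (P - 46)) && Nat.ble e4 (1 <<< (P - 48)))
  rw [he] at hE
  simp only [Bool.and_eq_true, Nat.ble_eq] at hE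
  obtain ⟨⟨⟨⟨c0, c1⟩, c2⟩, c3⟩, c4⟩ := hE
  have hYY : (((2 * (bandA b + i) + 1) <<< b : ℕ) : ℝ) ≤ (((2 * (bandA b + cnt)) <<< b : ℕ) : ℝ) := by
    rw [Nat.cast_le, Nat.shiftLeft_eq, Nat.shiftLeft_eq]
    exact Nat.mul_le_mul_right _ (by omega)
  have key := est hC hq h1 h2 h3 hN (hj.trans hN4) (Nat.cast_nonneg _) hYY
  rw [hr.2, vco]
  obtain ⟨u0, u1, u2, u3, u4⟩ := hd
  obtain ⟨w0, w1, w2, w3, w4⟩ := hf
  interval_cases j
  · rw [← u0, ← w0] at key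
    exact fin_est (by omega) key c0 r0.1 (r0.1 ▸ r0.2)
  · rw [← u1, ← w1] at key
    exact fin_est (by omega) key c1 r1.1 (r1.1 ▸ r1.2)
  · rw [← u2, ← w2] at key
    exact fin_est (by omega) key c2 r2.1 (r2.1 ▸ r2.2)
  · rw [← u3, ← w3] at key
    exact fin_est (by omega) key c3 r3.1 (r3.1 ▸ r3.2)
  · rw [← u4, ← w4] at key
    exact fin_est (by omega) key c4 r4.1 (r4.1 ▸ r4.2)

theorem vchk_elim {G : ℕ → ℕ} {R m P n nv V : ℕ} {Ns : List ℕ}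
    (h : vchk G R m P n nv V Ns = true) : 48 ≤ P ∧ 0 < m ∧ m < 2048 ∧ 0 < R ∧ 0 < muL G R m ∧
      ∀ j, j < 6 → bandC nv j = 0 ∨
        vband (coefs G R m P n).1 (coefs G R m P n).2 n P V j (bandC nv j) (nth Ns j) = true := by
  unfold vchk at h
  generalize coefs G R m P n = c at h ⊢
  obtain ⟨la, lr⟩ := c
  rw [Bool.and_eq_true, Bool.and_eq_true, Bool.and_eq_true, Bool.and_eq_true, Bool.and_eq_true,
    Bool.and_eq_true, Nat.ble_eq, Nat.blt_eq, Nat.blt_eq, Nat.blt_eq, Nat.blt_eq] at h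
  obtain ⟨⟨⟨⟨⟨⟨a1, -⟩, a2⟩, a3⟩, a4⟩, a5⟩, a6⟩ := h
  refine ⟨a1, a2, a3, a4, a5, fun j hj => ?_⟩
  revert a6 hj
  generalize 6 = k
  intro a6 hj
  have := all_rec (f := fun j => Nat.beq (bandC nv j) 0 ||
    vband la lr n P V j (bandC nv j) (nth Ns j)) (n := k) a6 j hj
  rwa [Bool.or_eq_true, Nat.beq_eq] at this

end ZVertX

open ZVertX

theorem vhw_le (y : ℕ) : vhw y ≤ vctr y ∧ vctr y - vhw y ≤ y ∧ y < vctr y + vhw y := by
  rw [vhw_eq, vctr_eq]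
  rcases band_cases y with a | a | a | a | a | a <;>
    simp only [a, Nat.reduceAdd, Nat.reducePow] <;> omega

/-- Points of the same cell have the same index, centre and width. -/
theorem vcell_eq {y y' : ℕ} (h1 : vctr y - vhw y ≤ y') (h2 : y' < vctr y + vhw y) :
    vidx y' = vidx y ∧ vctr y' = vctr y ∧ vhw y' = vhw y := by
  simp only [vhw_eq, vctr_eq, vidx_eq] at h1 h2 ⊢
  rcases band_cases y with a | a | a | a | a | a <;>
    rcases band_cases y' with b | b | b | b | b | b <;>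
    simp only [a, b, Nat.reduceAdd, Nat.reducePow, Nat.reduceMul, and_true] at h1 h2 ⊢ <;> omega

theorem VOK.mono {C q : ℝ} {V : ℕ → ℕ} {Y Y' : ℕ} (h : VOK C q V Y) (hY : Y' ≤ Y) :
    VOK C q V Y' := fun y hy => h y (hy.trans_le hY)

theorem vchkY_sound {G : ℕ → ℕ} (hG : GamOK G) {R m P n Y V : ℕ} {Ns : List ℕ}
    (h : vchkY G R m P n Y V Ns = true) : VOK (Cc R) (m / 4096) (fld V 240) Y := by
  unfold vchkY at h
  rw [Bool.and_eq_true, Nat.ble_eq] at h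
  obtain ⟨hP, hm0, hm, hR, hL, hb⟩ := vchk_elim h.2
  obtain ⟨l1, l2, l3⟩ := coefs_spec hG hR hm0 hm hL P n
  intro y hy j hj
  obtain ⟨i, b6, hu, hidx, hi⟩ := cell_pos (hy.trans_le h.1)
  have hmono : vidx y ≤ vidx (Y - 1) := vidx_mono (by omega)
  have hic : i < bandC (vidx (Y - 1) + 1) (bandOf y) := by
    unfold bandC
    omega
  have hq : (0 : ℝ) < m / 4096 := by positivity
  have key := vband_sound (Cc_pos hR) hq l1 l2 l3 hP
    ((hb _ b6).resolve_left (by omega)) hic hj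
  have e : rr (vctr y) = (((2 * (bandA (bandOf y) + i) + 1) <<< bandOf y : ℕ) : ℝ) / 4 := by
    rw [vctr_eq, hu, Nat.shiftLeft_eq, rr, pow_add]
    push_cast
    ring
  rw [e, hidx]
  exact key

end Pool.Agent.MP_39fec4_gt.K

end

section

set_option autoImplicit false

/-! Enclosures of polynomials of degree four and the distance to the profile. -/

namespace Pool.Agent.MP_39fec4_gt.K

open Set Full

/-- A polynomial of degree four and its first two derivatives. -/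
noncomputable def pl0 (c0 c1 c2 c3 c4 : ℤ) (d : ℝ) : ℝ :=
  ri c0 + ri c1 * d + ri c2 * d ^ 2 + ri c3 * d ^ 3 + ri c4 * d ^ 4

noncomputable def pl1 (c1 c2 c3 c4 : ℤ) (d : ℝ) : ℝ :=
  ri c1 + 2 * ri c2 * d + 3 * ri c3 * d ^ 2 + 4 * ri c4 * d ^ 3

noncomputable def pl2 (c2 c3 c4 : ℤ) (d : ℝ) : ℝ := 2 * ri c2 + 6 * ri c3 * d + 12 * ri c4 * d ^ 2

theorem hor4_le (a0 a1 a2 a3 a4 d : ℤ) : ri (hor4 a0 a1 a2 a3 a4 d) ≤ pl0 a0 a1 a2 a3 a4 (ri d) ∧
    pl0 a0 a1 a2 a3 a4 (ri d) < ri (hor4 a0 a1 a2 a3 a4 d) + 1 / 2 ^ 40 := by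
  have e : ri ((((a4 * d + a3 * 1099511627776) * d + a2 * 1208925819614629174706176) * d +
      a1 * 1329227995784915872903807060280344576) * d +
      a0 * 1461501637330902918203684832716283019655932542976) / 2 ^ 160 =
      pl0 a0 a1 a2 a3 a4 (ri d) := by
    simp only [pl0, ri]
    push_cast
    ring
  rw [← e]
  exact ⟨ri_shr_le _ 160, ri_shr_lt _ 160⟩

theorem pol0_eq (r : ℕ) (d : ℤ) :
    pol0 r d = hor4 (vco r 0) (vco r 1) (vco r 2) (vco r 3) (vco r 4) d := by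
  have e : ∀ a b k : ℕ, Int.subNatNat (a <<< k) (b <<< k) = Int.subNatNat a b * 2 ^ k := by
    intro a b k
    simp only [Int.subNatNat_eq_coe, Nat.shiftLeft_eq]
    push_cast
    ring
  have e1 : (2 : ℤ) ^ 40 = 1099511627776 := by norm_num
  have e2 : (2 : ℤ) ^ 80 = 1208925819614629174706176 := by norm_num
  have e3 : (2 : ℤ) ^ 120 = 1329227995784915872903807060280344576 := by norm_num
  have e4 : (2 : ℤ) ^ 160 = 1461501637330902918203684832716283019655932542976 := by norm_num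
  unfold pol0 hor4
  rw [e, e, e, e, e1, e2, e3, e4]
  rfl

namespace ZEnclX

/-- A function with a bounded second derivative stays near the range of its end values. -/
theorem chord {f f1 f2 : ℝ → ℝ} (h0 : ∀ s, HasDerivAt f (f1 s) s) (h1 : ∀ s, HasDerivAt f1 (f2 s) s)
    {a b M h d : ℝ} (hM : ∀ s, a ≤ s → s ≤ b → |f2 s| ≤ M) (hh : (b - a) ^ 2 / 8 ≤ h)
    (ha : a ≤ d) (hb : d ≤ b) :
    min (f a) (f b) - M * h ≤ f d ∧ f d ≤ max (f a) (f b) + M * h := by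
  have hM0 : 0 ≤ M := (abs_nonneg _).trans (hM d ha hb)
  have he : M * (b - a) ^ 2 / 8 ≤ M * h := by
    rw [mul_div_assoc]
    exact mul_le_mul_of_nonneg_left hh hM0
  have key : ∀ {f f1 f2 : ℝ → ℝ}, (∀ s, HasDerivAt f (f1 s) s) → (∀ s, HasDerivAt f1 (f2 s) s) →
      (∀ s, a ≤ s → s ≤ b → |f2 s| ≤ M) → f d ≤ max (f a) (f b) + M * h := by
    intro f f1 f2 h0 h1 hM
    have hc : Ch f a b (M * (b - a) ^ 2 / 8) := FCalcX.ch_of_conv (FCalcX.conv (f1 := f1) (f2 := f2)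
      (fun s _ => (h0 s).continuousAt.continuousWithinAt)
      fun s hs => ⟨h0 s, h1 s, (abs_le.1 (hM s hs.1.le hs.2.le)).1⟩) (ha.trans hb) hM0
    exact (hc.le_max ⟨ha, hb⟩).trans (by linarith)
  refine ⟨?_, key h0 h1 hM⟩
  have h2 := key (f := fun s => -f s) (f1 := fun s => -f1 s) (f2 := fun s => -f2 s)
    (fun s => (h0 s).neg) (fun s => (h1 s).neg) fun s h1 h2 => by rw [abs_neg]; exact hM s h1 h2
  rw [max_neg_neg] at h2
  linarith

/-- The same with rounded end values. -/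
theorem rng {F Fa Fb E e X : ℝ} {u v : ℤ} {x : ℕ}
    (h : min Fa Fb - E ≤ F ∧ F ≤ max Fa Fb + E) (hu : ri u ≤ Fa ∧ Fa ≤ ri u + e)
    (hv : ri v ≤ Fb ∧ Fb ≤ ri v + e) (hx : rr x = X) (hX : E + e ≤ X) :
    ri (min u v - x) ≤ F ∧ F ≤ ri (max u v + x) ∧ |F| ≤ rr (max (absI u) (absI v) + x) := by
  have h1 : min (ri u) (ri v) ≤ min Fa Fb := min_le_min hu.1 hv.1
  have h2 : max Fa Fb ≤ max (ri u) (ri v) + e := by
    rw [← max_add_add_right]
    exact max_le_max hu.2 hv.2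
  have he : 0 ≤ e := by linarith [hu.1, hu.2]
  have h3 : min (ri u) (ri v) - X ≤ F := by linarith [h.1]
  have h4 : F ≤ max (ri u) (ri v) + X := by linarith [h.2]
  rw [ri_sub, ri_add, ri_min, ri_max, ri_nat, rr_add, rr_max, rr_absI, rr_absI, hx]
  refine ⟨h3, h4, abs_le.2 ⟨?_, ?_⟩⟩
  · have : -max |ri u| |ri v| ≤ min (ri u) (ri v) :=
      le_min (by linarith [le_max_left |ri u| |ri v|, neg_abs_le (ri u)])
        (by linarith [le_max_right |ri u| |ri v|, neg_abs_le (ri v)])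
    linarith
  · have : max (ri u) (ri v) ≤ max |ri u| |ri v| := max_le_max (le_abs_self _) (le_abs_self _)
    linarith

theorem ri_zero : ri 0 = 0 := by simp [ri]

theorem poly_d (a0 a1 a2 a3 a4 s : ℝ) :
    HasDerivAt (fun d : ℝ => a0 + a1 * d + a2 * d ^ 2 + a3 * d ^ 3 + a4 * d ^ 4)
      (a1 + 2 * a2 * s + 3 * a3 * s ^ 2 + 4 * a4 * s ^ 3) s := by
  have h := (((((hasDerivAt_id s).const_mul a1).const_add a0).add
    ((hasDerivAt_pow 2 s).const_mul a2)).add ((hasDerivAt_pow 3 s).const_mul a3)).add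
    ((hasDerivAt_pow 4 s).const_mul a4)
  refine h.congr_deriv ?_
  simp only [Nat.cast_ofNat, Nat.add_one_sub_one]
  ring

noncomputable def pl3 (c3 c4 : ℤ) (d : ℝ) : ℝ := 6 * ri c3 + 24 * ri c4 * d

theorem d0 (c0 c1 c2 c3 c4 : ℤ) (s : ℝ) :
    HasDerivAt (pl0 c0 c1 c2 c3 c4) (pl1 c1 c2 c3 c4 s) s := poly_d _ _ _ _ _ s

theorem d1 (c1 c2 c3 c4 : ℤ) (s : ℝ) : HasDerivAt (pl1 c1 c2 c3 c4) (pl2 c2 c3 c4 s) s := by
  have e : pl1 c1 c2 c3 c4 = fun d : ℝ => ri c1 + 2 * ri c2 * d + 3 * ri c3 * d ^ 2 +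
      4 * ri c4 * d ^ 3 + 0 * d ^ 4 := by
    funext d
    simp only [pl1]
    ring
  rw [e]
  refine (poly_d _ _ _ _ _ s).congr_deriv ?_
  simp only [pl2]
  ring

theorem d2 (c2 c3 c4 : ℤ) (s : ℝ) : HasDerivAt (pl2 c2 c3 c4) (pl3 c3 c4 s) s := by
  have e : pl2 c2 c3 c4 = fun d : ℝ => 2 * ri c2 + 6 * ri c3 * d + 12 * ri c4 * d ^ 2 +
      0 * d ^ 3 + 0 * d ^ 4 := by
    funext d
    simp only [pl2]
    ring
  rw [e]
  refine (poly_d _ _ _ _ _ s).congr_deriv ?_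
  simp only [pl3]
  ring

theorem d3 (c3 c4 : ℤ) (s : ℝ) : HasDerivAt (pl3 c3 c4) (24 * ri c4) s := by
  have e : pl3 c3 c4 = fun d : ℝ => 6 * ri c3 + 24 * ri c4 * d + 0 * d ^ 2 +
      0 * d ^ 3 + 0 * d ^ 4 := by
    funext d
    simp only [pl3]
    ring
  rw [e]
  refine (poly_d _ _ _ _ _ s).congr_deriv ?_
  ring

theorem h0 (c0 c1 c2 c3 c4 d : ℤ) : ri (hor4 c0 c1 c2 c3 c4 d) ≤ pl0 c0 c1 c2 c3 c4 (ri d) ∧
    pl0 c0 c1 c2 c3 c4 (ri d) ≤ ri (hor4 c0 c1 c2 c3 c4 d) + rr 1 := by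
  rw [rr_one]
  exact ⟨(hor4_le _ _ _ _ _ _).1, (hor4_le _ _ _ _ _ _).2.le⟩

theorem h1 (c1 c2 c3 c4 d : ℤ) :
    ri (hor4 c1 (2 * c2) (3 * c3) (4 * c4) 0 d) ≤ pl1 c1 c2 c3 c4 (ri d) ∧
    pl1 c1 c2 c3 c4 (ri d) ≤ ri (hor4 c1 (2 * c2) (3 * c3) (4 * c4) 0 d) + rr 1 := by
  have e : pl1 c1 c2 c3 c4 (ri d) = pl0 c1 (2 * c2) (3 * c3) (4 * c4) 0 (ri d) := by
    simp only [pl0, pl1, ri_mul, ri_zero]
    push_cast
    ring
  rw [e]
  exact h0 _ _ _ _ _ _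

theorem h2 (c2 c3 c4 d : ℤ) :
    ri (hor4 (2 * c2) (6 * c3) (12 * c4) 0 0 d) ≤ pl2 c2 c3 c4 (ri d) ∧
    pl2 c2 c3 c4 (ri d) ≤ ri (hor4 (2 * c2) (6 * c3) (12 * c4) 0 0 d) + rr 1 := by
  have e : pl2 c2 c3 c4 (ri d) = pl0 (2 * c2) (6 * c3) (12 * c4) 0 0 (ri d) := by
    simp only [pl0, pl2, ri_mul, ri_zero]
    push_cast
    ring
  rw [e]
  exact h0 _ _ _ _ _ _

theorem h3 (c3 c4 d : ℤ) : ri (hor4 (6 * c3) (24 * c4) 0 0 0 d) ≤ pl3 c3 c4 (ri d) ∧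
    pl3 c3 c4 (ri d) ≤ ri (hor4 (6 * c3) (24 * c4) 0 0 0 d) + rr 1 := by
  have e : pl3 c3 c4 (ri d) = pl0 (6 * c3) (24 * c4) 0 0 0 (ri d) := by
    simp only [pl0, pl3, ri_mul, ri_zero]
    push_cast
    ring
  rw [e]
  exact h0 _ _ _ _ _ _

/-- The end values of the twisted functions. -/
theorem tw {P0 P1 P2 : ℝ} {u0 u1 u2 : ℤ} {lam : ℕ} (hl : rr lam ≤ 1)
    (g0 : ri u0 ≤ P0 ∧ P0 ≤ ri u0 + rr 1) (g1 : ri u1 ≤ P1 ∧ P1 ≤ ri u1 + rr 1)
    (g2 : ri u2 ≤ P2 ∧ P2 ≤ ri u2 + rr 1) :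
    (ri (u1 + mulI lam u0) ≤ P1 + rr lam * P0 ∧
      P1 + rr lam * P0 ≤ ri (u1 + mulI lam u0) + (2 + rr lam) * rr 1) ∧
    (ri (u2 + mulI lam (u1 + (u1 + mulI lam u0))) ≤ P2 + 2 * rr lam * P1 + rr lam ^ 2 * P0 ∧
      P2 + 2 * rr lam * P1 + rr lam ^ 2 * P0 ≤
        ri (u2 + mulI lam (u1 + (u1 + mulI lam u0))) + (5 + rr lam ^ 2) * rr 1) := by
  have l0 := rr_nonneg lam
  have e0 := rr_nonneg 1
  have m1 := mulI_le lam u0
  have m2 := (mulI_lt lam u0).le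
  have m3 := mulI_le lam (u1 + (u1 + mulI lam u0))
  have m4 := (mulI_lt lam (u1 + (u1 + mulI lam u0))).le
  rw [← rr_one] at m2 m4
  simp only [ri_add, ri_nat] at m1 m2 m3 m4 ⊢
  have a1 := mul_le_mul_of_nonneg_left g0.1 l0
  have a2 := mul_le_mul_of_nonneg_left g0.2 l0
  have b1 : ri u1 + ri (mulI lam u0) ≤ P1 + rr lam * P0 := by linarith [g1.1]
  have b2 : P1 + rr lam * P0 ≤ ri u1 + ri (mulI lam u0) + (2 + rr lam) * rr 1 := by
    linarith [g1.2]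
  have c1 := mul_le_mul_of_nonneg_left (add_le_add g1.1 b1) l0
  have c2 := mul_le_mul_of_nonneg_left (add_le_add g1.2 b2) l0
  have c3 := mul_le_mul_of_nonneg_right hl e0
  exact ⟨⟨b1, b2⟩, by linarith [g2.1], by linarith [g2.2]⟩

end ZEnclX

open ZEnclX

/-- What `encl` hands to its continuation. -/
structure EnclOK (c0 c1 c2 c3 c4 : ℤ) (lam : ℝ) (d : ℝ) (lo hi : ℤ) (k1 : ℕ)
    (l2 h2 aL aH bL bH : ℤ) : Prop where
  p0 : ri lo ≤ pl0 c0 c1 c2 c3 c4 d ∧ pl0 c0 c1 c2 c3 c4 d ≤ ri hi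
  p1 : |pl1 c1 c2 c3 c4 d| ≤ rr k1
  p2 : ri l2 ≤ pl2 c2 c3 c4 d ∧ pl2 c2 c3 c4 d ≤ ri h2
  t1 : ri aL ≤ pl1 c1 c2 c3 c4 d + lam * pl0 c0 c1 c2 c3 c4 d ∧
    pl1 c1 c2 c3 c4 d + lam * pl0 c0 c1 c2 c3 c4 d ≤ ri aH
  t2 : ri bL ≤ pl2 c2 c3 c4 d + 2 * lam * pl1 c1 c2 c3 c4 d + lam ^ 2 * pl0 c0 c1 c2 c3 c4 d ∧
    pl2 c2 c3 c4 d + 2 * lam * pl1 c1 c2 c3 c4 d + lam ^ 2 * pl0 c0 c1 c2 c3 c4 d ≤ ri bH

theorem encl_spec {α : Type} (c0 c1 c2 c3 c4 d0 d1 : ℤ) (hh lam : ℕ) (hl : lam ≤ SS)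
    (h : (ri d1 - ri d0) ^ 2 / 8 ≤ rr hh)
    (k : ℤ → ℤ → ℕ → ℤ → ℤ → ℤ → ℤ → ℤ → ℤ → α) :
    ∃ lo hi k1 l2 h2 aL aH bL bH, encl c0 c1 c2 c3 c4 d0 d1 hh lam k = k lo hi k1 l2 h2 aL aH bL bH ∧
      ∀ d, ri d0 ≤ d → d ≤ ri d1 → EnclOK c0 c1 c2 c3 c4 (rr lam) d lo hi k1 l2 h2 aL aH bL bH := by
  simp only [encl, forceI_eq, forceN_eq]
  refine ⟨_, _, _, _, _, _, _, _, _, rfl, fun d hd0 hd1 => ?_⟩
  have l0 := rr_nonneg lam
  have l1 : rr lam ≤ 1 := rr_SS ▸ rr_le.2 hl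
  have e0 := rr_nonneg 1
  have hh0 := rr_nonneg hh
  have u0 := h0 c0 c1 c2 c3 c4 d0
  have v0 := h0 c0 c1 c2 c3 c4 d1
  have u1 := h1 c1 c2 c3 c4 d0
  have v1 := h1 c1 c2 c3 c4 d1
  have u2 := h2 c2 c3 c4 d0
  have v2 := h2 c2 c3 c4 d1
  have u3 := h3 c3 c4 d0
  have v3 := h3 c3 c4 d1
  have ta := tw l1 u0 u1 u2
  have tb := tw l1 v0 v1 v2
  have b4 : |24 * ri c4| ≤ rr (absI (24 * c4)) := by
    rw [rr_absI, ri_mul]
    simp
  have b3 := fun s (s0 : ri d0 ≤ s) (s1 : s ≤ ri d1) => (rng (x := 1)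
    (chord (d3 c3 c4) (fun s => hasDerivAt_const s _) (M := 0) (fun _ _ _ => by simp) h s0 s1)
    u3 v3 rfl (by simp)).2.2
  have x2 := mulU_ge (absI (24 * c4)) hh
  have b2 := fun s (s0 : ri d0 ≤ s) (s1 : s ≤ ri d1) => rng (x := mulU (absI (24 * c4)) hh + 1)
    (chord (d2 c2 c3 c4) (d3 c3 c4) (fun _ _ _ => b4) h s0 s1) u2 v2 (rr_add _ _) (by linarith)
  generalize absI (24 * c4) = p4 at *
  generalize max (absI (hor4 (6 * c3) (24 * c4) 0 0 0 d0))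
    (absI (hor4 (6 * c3) (24 * c4) 0 0 0 d1)) + 1 = p3 at *
  have b2' := fun s s0 s1 => (b2 s s0 s1).2.2
  generalize max (absI (hor4 (2 * c2) (6 * c3) (12 * c4) 0 0 d0))
    (absI (hor4 (2 * c2) (6 * c3) (12 * c4) 0 0 d1)) + (mulU p4 hh + 1) = p2 at *
  have x1 := mulU_ge p3 hh
  have x0 := mulU_ge p2 hh
  have b1 := rng (x := mulU p3 hh + 1)
    (chord (ZEnclX.d1 c1 c2 c3 c4) (d2 c2 c3 c4) b3 h hd0 hd1) u1 v1 (rr_add _ _) (by linarith)
  have b0 := rng (x := mulU p2 hh + 1)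
    (chord (ZEnclX.d0 c0 c1 c2 c3 c4) (ZEnclX.d1 c1 c2 c3 c4) b2' h hd0 hd1) u0 v0 (rr_add _ _)
    (by linarith)
  have y0 : rr lam * (rr p2 * rr hh + rr 1) ≤ rr (mulU lam (mulU p2 hh + 1)) :=
    le_mulU' le_rfl (by rw [rr_add]; linarith) l0
  have y1 : rr lam * (rr p3 * rr hh + rr 1) ≤ rr (mulU lam (mulU p3 hh + 1)) :=
    le_mulU' le_rfl (by rw [rr_add]; linarith) l0
  have y2 := le_mulU' (a := lam) le_rfl y0 l0
  have t1 := rng (x := mulU p3 hh + 1 + mulU lam (mulU p2 hh + 1) + 1)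
    (chord (f := fun s => pl1 c1 c2 c3 c4 s + rr lam * pl0 c0 c1 c2 c3 c4 s)
      (fun s => (ZEnclX.d1 c1 c2 c3 c4 s).add ((ZEnclX.d0 c0 c1 c2 c3 c4 s).const_mul _))
      (fun s => (d2 c2 c3 c4 s).add ((ZEnclX.d1 c1 c2 c3 c4 s).const_mul _))
      (M := rr p3 + rr lam * rr p2)
      (fun s s0 s1 => (abs_add_le _ _).trans (add_le_add (b3 s s0 s1)
        (FCalcX.abs_mul_le' (abs_of_nonneg l0).le (b2' s s0 s1)))) h hd0 hd1)
    ta.1 tb.1 rfl (by simp only [rr_add]; linarith)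
  have l2 : 0 ≤ 2 * rr lam := by linarith
  have l3 : 0 ≤ rr lam ^ 2 := sq_nonneg _
  have e4 : rr 4 = 4 * rr 1 := by simpa using rr_nmul 4 1
  have t2 := rng (x := mulU p4 hh + 1 + 2 * mulU lam (mulU p3 hh + 1) +
      mulU lam (mulU lam (mulU p2 hh + 1)) + 4)
    (chord (f := fun s => pl2 c2 c3 c4 s + 2 * rr lam * pl1 c1 c2 c3 c4 s +
        rr lam ^ 2 * pl0 c0 c1 c2 c3 c4 s)
      (fun s => ((d2 c2 c3 c4 s).add ((ZEnclX.d1 c1 c2 c3 c4 s).const_mul _)).add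
        ((ZEnclX.d0 c0 c1 c2 c3 c4 s).const_mul _))
      (fun s => ((d3 c3 c4 s).add ((d2 c2 c3 c4 s).const_mul _)).add
        ((ZEnclX.d1 c1 c2 c3 c4 s).const_mul _))
      (M := rr p4 + 2 * rr lam * rr p3 + rr lam ^ 2 * rr p2)
      (fun s s0 s1 => (abs_add_le _ _).trans (add_le_add ((abs_add_le _ _).trans (add_le_add b4
        (FCalcX.abs_mul_le' (abs_of_nonneg l2).le (b3 s s0 s1))))
        (FCalcX.abs_mul_le' (abs_of_nonneg l3).le (b2' s s0 s1)))) h hd0 hd1)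
    ta.2 tb.2 rfl (by
      simp only [rr_add, rr_nmul, e4, Nat.cast_ofNat]
      linarith [mul_nonneg l0 e0])
  exact ⟨⟨b0.1, b0.2.1⟩, b1.2.2, ⟨(b2 d hd0 hd1).1, (b2 d hd0 hd1).2.1⟩, ⟨t1.1, t1.2.1⟩,
    ⟨t2.1, t2.2.1⟩⟩

variable {B : Blk} {q : ℝ}

namespace ZEnclX

theorem C_pos (hs : ScalOK B) : 0 < B.C := by
  have h : (0 : ℝ) < B.R := Nat.cast_pos.2 hs.R0
  exact div_pos (by norm_num) (pow_pos (div_pos h (by norm_num)) _)

theorem q_pos (hs : ScalOK B) (hq : q ∈ B.I) : 0 < q := by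
  have h : (0 : ℝ) < B.m0 := Nat.cast_pos.2 (lt_of_lt_of_le (by norm_num) hs.a0)
  exact lt_of_lt_of_le (div_pos h (by norm_num)) hq.1

theorem rem_tail {b hw N k : ℕ} {d : ℝ} (hd : |d| ≤ rr hw) (hk : 0 < k) :
    rr b * |d| ^ N / k ≤ rr (mulU b (powU hw N) / k + 1) := by
  refine le_trans ?_ (rr_div_lt _ hk).le
  have h := le_mulU' (a := b) le_rfl (le_powU (abs_nonneg d) hd N) (rr_nonneg b)
  exact div_le_div_of_nonneg_right h (Nat.cast_nonneg k)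

end ZEnclX

theorem b5_ge (hs : ScalOK B) (hq : q ∈ B.I) (y : ℕ) {v : ℝ} (hv : rr y ≤ v) :
    |B.g 5 q v| ≤ rr (b5 B y) := by
  have ha := hs.a5 q hq v
  rw [b5, rr_min]
  refine le_min ha ?_
  rcases Nat.eq_zero_or_pos (4 * powD y 3) with h | h
  · rw [h, divU_zero]
    refine ha.trans (rr_le.2 ?_)
    have h1 := hs.sm
    have h2 : 2 ^ 60 ≤ BIG := by norm_num [BIG]
    omega
  · have h1 : rr (powD y 3) ≤ v ^ 3 := powD_le_of hv 3
    have h2 : 0 < rr (powD y 3) := rr_pos (by omega)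
    have h3 : 0 < v := by
      refine lt_of_le_of_ne ((rr_nonneg y).trans hv) fun h0 => ?_
      rw [← h0] at h1
      norm_num at h1
      linarith
    refine (dec_five (C_pos hs) (q_pos hs hq) h3).trans ?_
    have h4 := le_divU (y := 4 * v ^ 3) h (hs.m5r q hq) (by
      rw [rr_nmul]
      push_cast
      linarith)
    refine le_trans (le_of_eq ?_) h4
    rw [div_div]
    congr 1
    ring

/-- The profile and two derivatives against the stored polynomial on a cell of the coarse grid. -/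
theorem rem_spec (hs : ScalOK B) (hq : q ∈ B.I) {V : ℕ → ℕ} {Y y : ℕ} (hV : VOK B.C q V Y)
    (hy : y < Y) {r : ℕ} (hr : r = V (vidx y)) {d : ℝ} (hd : |d| ≤ rr (vhw y)) :
    |B.g 0 q (rr (vctr y) + d) - pl0 (vco r 0) (vco r 1) (vco r 2) (vco r 3) (vco r 4) d| ≤
      rr (rem0 (b5 B (vctr y - vhw y)) (vhw y)) ∧
    |B.g 1 q (rr (vctr y) + d) - pl1 (vco r 1) (vco r 2) (vco r 3) (vco r 4) d| ≤
      rr (rem1 (b5 B (vctr y - vhw y)) (vhw y)) ∧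
    |B.g 2 q (rr (vctr y) + d) - pl2 (vco r 2) (vco r 3) (vco r 4) d| ≤
      rr (rem2 (b5 B (vctr y - vhw y)) (vhw y)) := by
  subst hr
  have hC := C_pos hs
  have hq0 := q_pos hs hq
  have hw := (vhw_le y).1
  have hw' := rr_le.2 hw
  have hd' := abs_le.1 hd
  have hc := rr_nonneg (vctr y)
  have hB : ∀ t ∈ uIcc (rr (vctr y)) (rr (vctr y) + d),
      |Full.gg B.C 5 q t| ≤ rr (b5 B (vctr y - vhw y)) := fun t ht => by
    refine b5_ge hs hq _ ?_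
    rw [rr_sub hw]
    have h0 := rr_nonneg (vhw y)
    rcases mem_uIcc.1 ht with h | h <;> linarith [h.1, h.2]
  have T := fun N j => taylor_loc (fun j => Full.gg B.C j q) (Full.cont_gg hC hq0)
    (fun j y hy => Full.hasDerivAt_gg hC hq0 j hy) N j (B := rr (b5 B (vctr y - vhw y))) hc
    (show 0 ≤ rr (vctr y) + d by linarith)
  have T0 := T 5 0 hB
  have T1 := T 4 1 hB
  have T2 := T 3 2 hB
  have e0 := hV y hy 0 (by norm_num)
  have e1 := hV y hy 1 (by norm_num)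
  have e2 := hV y hy 2 (by norm_num)
  have e3 := hV y hy 3 (by norm_num)
  have e4 := hV y hy 4 (by norm_num)
  have r2 : (2 : ℝ) / 2 ^ 40 = rr 2 := by simp [rr]
  rw [r2] at e0 e1 e2 e3 e4
  have t0 := rem_tail (b := b5 B (vctr y - vhw y)) (N := 5) (k := 120) hd (by norm_num)
  have t1 := rem_tail (b := b5 B (vctr y - vhw y)) (N := 4) (k := 24) hd (by norm_num)
  have t2 := rem_tail (b := b5 B (vctr y - vhw y)) (N := 3) (k := 6) hd (by norm_num)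
  have p2 := abs_le_powU hd 2
  have p3 := abs_le_powU hd 3
  have p4 := abs_le_powU hd 4
  have m0 := mulU_ge 2 (SS + vhw y + powU (vhw y) 2 + powU (vhw y) 3 + powU (vhw y) 4)
  have m1 := mulU_ge 2 (SS + 2 * vhw y + 3 * powU (vhw y) 2 + 4 * powU (vhw y) 3)
  have m2 := mulU_ge 2 (2 * SS + 6 * vhw y + 12 * powU (vhw y) 2)
  simp only [rr_add, rr_nmul, rr_SS, Nat.cast_ofNat] at m0 m1 m2
  simp only [Finset.sum_range_succ, Finset.sum_range_zero, add_sub_cancel_left, Nat.factorial,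
    Nat.succ_eq_add_one, Nat.reduceAdd, Nat.reduceMul, Nat.cast_ofNat, Nat.cast_one, zero_add,
    pow_zero, mul_one, div_one, pow_one] at T0 T1 T2 e0 e1 e2 e3 e4 t0 t1 t2
  simp only [Blk.g, pl0, pl1, pl2, rem0, rem1, rem2]
  rw [rr_add _ (mulU _ _), rr_add _ (mulU _ _), rr_add _ (mulU _ _)]
  have a11 := abs_le.1 (FCalcX.abs_mul_le' e1 hd)
  have a21 := abs_le.1 (FCalcX.abs_mul_le' e2 hd)
  have a31 := abs_le.1 (FCalcX.abs_mul_le' e3 hd)
  have a22 := abs_le.1 (FCalcX.abs_mul_le' e2 p2)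
  have a32 := abs_le.1 (FCalcX.abs_mul_le' e3 p2)
  have a42 := abs_le.1 (FCalcX.abs_mul_le' e4 p2)
  have a33 := abs_le.1 (FCalcX.abs_mul_le' e3 p3)
  have a43 := abs_le.1 (FCalcX.abs_mul_le' e4 p3)
  have a44 := abs_le.1 (FCalcX.abs_mul_le' e4 p4)
  rw [abs_le] at T0 T1 T2 e0 e1 e2
  refine ⟨abs_le.2 ⟨?_, ?_⟩, abs_le.2 ⟨?_, ?_⟩, abs_le.2 ⟨?_, ?_⟩⟩
  · linarith [T0.1, e0.1, a11.1, a22.1, a33.1, a44.1]
  · linarith [T0.2, e0.2, a11.2, a22.2, a33.2, a44.2]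
  · linarith [T1.1, e1.1, a21.1, a32.1, a43.1]
  · linarith [T1.2, e1.2, a21.2, a32.2, a43.2]
  · linarith [T2.1, e2.1, a31.1, a42.1]
  · linarith [T2.2, e2.2, a31.2, a42.2]

/-- The error of `pev`. -/
theorem pev_spec (hs : ScalOK B) {y0 y : ℕ} (h1 : vctr y0 - vhw y0 ≤ y)
    (h2 : y < vctr y0 + vhw y0) (hy : y < B.Yp) :
    PeOK B (rem0 (b5 B (vctr y0 - vhw y0)) (vhw y0) + 2) y := by
  intro q hq V hV u hu1 hu2
  obtain ⟨-, e1, e2⟩ := vcell_eq h1 h2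
  rw [← e1, ← e2]
  obtain ⟨w0, w1, w2⟩ := vhw_le y
  have hd : |rr y - rr (vctr y)| ≤ rr (vhw y) := by
    have a1 := rr_le.2 w1
    have a2 := rr_le.2 w2.le
    rw [rr_sub w0] at a1
    rw [rr_add] at a2
    exact abs_le.2 ⟨by linarith, by linarith⟩
  have r0 := (rem_spec hs hq hV hy rfl hd).1
  rw [add_sub_cancel] at r0
  have hp := ZEnclX.h0 (vco (V (vidx y)) 0) (vco (V (vidx y)) 1) (vco (V (vidx y)) 2)
    (vco (V (vidx y)) 3) (vco (V (vidx y)) 4) (Int.subNatNat y (vctr y))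
  rw [← pol0_eq, ri_subNatNat] at hp
  have hC := C_pos hs
  have hq0 := q_pos hs hq
  have hL := taylor_loc (fun j => Full.gg B.C j q) (Full.cont_gg hC hq0)
    (fun j y hy => Full.hasDerivAt_gg hC hq0 j hy) 1 0 (B := 1) (rr_nonneg y)
    ((rr_nonneg y).trans hu1) fun t _ => hs.g1 q hq t
  simp only [Finset.sum_range_succ, Finset.sum_range_zero, Nat.factorial, Nat.succ_eq_add_one,
    Nat.cast_one, zero_add, pow_zero, mul_one, div_one, pow_one, one_mul] at hL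
  rw [abs_of_nonneg (sub_nonneg.2 hu1), abs_le] at hL
  rw [rr_add] at hu2
  have e3 : rr 2 = 2 * rr 1 := by simpa using rr_nmul 2 1
  simp only [pev, forceN_eq, forceI_eq]
  rw [rr_add, e3]
  simp only [Blk.g] at r0 ⊢
  rw [abs_le] at r0 ⊢
  have e0 := rr_nonneg 1
  exact ⟨by linarith [r0.1, hL.1, hp.1], by linarith [r0.2, hL.2, hp.2]⟩

end Pool.Agent.MP_39fec4_gt.K

end
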