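import Pool.Agent.Mg.F39fec4.G800f93

section

set_option autoImplicit false

/-! Faster versions of some functions, using natural numbers only. -/

namespace Pool.Agent.MP_39fec4_gt.K

/-- Approximation from below of `SG (f / 4096) 160 460 * 2 ^ 256`. -/
def gamA (f : Nat) : Nat :=
  Nat.rec (motive := fun _ => Nat → Nat) (fun r => r)
    (fun i ih r => ih ((655360 * (115792089237316195423570985008687907853269984665640564039457584007913129639936 + r)) / (f + 4096 * (i + 1)))) 460 0

def gamOne (g lo : Nat) : Bool :=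
  Nat.ble (g <<< 256) lo && Nat.blt (lo + 1) ((g + 1) * 115792089237316195423570985008687907853269984665640564039457584007913129639935)

def gamChkA (c t : Nat) : Bool :=
  Nat.rec (motive := fun _ => Bool) true
    (fun i ih => forceN (256 * c + i) (fun f => gamOne (fld t 240 i) (gamA f)) && ih) 256

/-- Maximum of the fields selected by the mask `M`; `H` holds one bit above each of them. -/
def mrgH (a b M H : Nat) : Nat :=
  forceN (b &&& M) fun b' => forceN ((a &&& M) + H - b') fun t => forceN (t &&& H) fun g =>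
    b' + (t &&& (g - (g >>> 56)))

def mrgF (a b : Nat) : Nat :=
  mrgH a b 271942652322184750755106736933322637325446821626240647133505031976872167328601173707867676246829268400342001666836578902346344565864730224905386752449211252261922934280350619703743348735 271942652322184754529069161754863989567001402614510264889150548000203145028615361958166176326724920567688848477230054877445382505279706706324949551769437505227726468345486052884182204416 +
    mrgH a b 3773962424821541299867304854649999697544610366781734455320155174574583524912968125862129335030121629617511104055013455881672287476679281471933318676387370708440501452800 3773962424821541352241554580988269617755645516023330977700014188250298500079895652167346846810393475975099037939414976481419562799320226252965803534065135433180438855680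

/-- The offset used for signed numbers. -/
def OO : Nat := 1267650600228229401496703205376

/-- `hor4` for numbers given modulo `2 ^ 288`, with the offset `OO` added to the result. -/
def hor4N (a0 a1 a2 a3 a4 d : Nat) : Nat :=
  (((((a4 * d + (a3 <<< 40)) * d + (a2 <<< 80)) * d + (a1 <<< 120)) * d + (a0 <<< 160) +
    1852673427797059126777135760139006525652319754650249024631321344126610074238976) &&& 497323236409786642155382248146820840100456150797347717440463976893159497012533375533055) >>> 160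

/-- The same for degree three, two and one. -/
def hor3N (a0 a1 a2 a3 d : Nat) : Nat :=
  ((((a3 * d + (a2 <<< 40)) * d + (a1 <<< 80)) * d + (a0 <<< 120) +
    1684996666696914987166688442938726917102321526408785780068975640576) &&& 497323236409786642155382248146820840100456150797347717440463976893159497012533375533055) >>> 120

def hor2N (a0 a1 a2 d : Nat) : Nat :=
  (((a2 * d + (a1 <<< 40)) * d + (a0 <<< 80) +
    1532495540865888858358347027150309183618739122183602176) &&& 497323236409786642155382248146820840100456150797347717440463976893159497012533375533055) >>> 80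

def hor1N (a0 a1 d : Nat) : Nat :=
  ((a1 * d + (a0 <<< 40) + 1393796574908163946345982392040522594123776) &&&
    497323236409786642155382248146820840100456150797347717440463976893159497012533375533055) >>> 40

/-- The modulus `2 ^ 288`. -/
def MM : Nat := 497323236409786642155382248146820840100456150797347717440463976893159497012533375533056

/-- Coefficient `j` of a record modulo `MM`. -/
def vcoN (r j : Nat) : Nat := fld r 48 j + 497323236409786642155382248146820840100456150797347717440463976893159496871795887177728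

def absO (a : Nat) : Nat := (a - OO) + (OO - a)

/-- Product of `lam ≤ SS` and a number with offset. -/
def mulO (lam a : Nat) : Nat := (lam * a + (SS - lam) * OO) >>> 40

/-- `ofs (pev V y)`. -/
def pevN (V : Nat → Nat) (y : Nat) : Nat :=
  forceN (bandOf y) fun j => forceN (y >>> (39 + j)) fun u => forceN (u + (4 <<< j) - 4) fun i =>
    forceN (V i) fun r => hor4N (vcoN r 0) (vcoN r 1) (vcoN r 2) (vcoN r 3) (vcoN r 4)
      (y + MM - ((2 * u + 1) <<< (38 + j))) - (OO - OFF)

/-- `encl` with coefficients modulo `MM` and results with offset; `p4` is `|24 c4|`. -/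
def enclN {α : Type} (c0 c1 c2 c3 c4 p4 d0 d1 hh lam : Nat)
    (k : Nat → Nat → Nat → Nat → Nat → Nat → Nat → Nat → Nat → α) : α :=
  forceN (hor4N c0 c1 c2 c3 c4 d0) fun u0 => forceN (hor4N c0 c1 c2 c3 c4 d1) fun v0 =>
  forceN (hor3N c1 (2 * c2) (3 * c3) (4 * c4) d0) fun u1 =>
  forceN (hor3N c1 (2 * c2) (3 * c3) (4 * c4) d1) fun v1 =>
  forceN (hor2N (2 * c2) (6 * c3) (12 * c4) d0) fun u2 =>
  forceN (hor2N (2 * c2) (6 * c3) (12 * c4) d1) fun v2 =>
  forceN (max (absO (hor1N (6 * c3) (24 * c4) d0)) (absO (hor1N (6 * c3) (24 * c4) d1)) + 1) fun p3 =>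
  forceN (mulU p4 hh + 1) fun x2 => forceN (max (absO u2) (absO v2) + x2) fun p2 =>
  forceN (mulU p2 hh + 1) fun x0 => forceN (mulU p3 hh + 1) fun x1 =>
  forceN (x1 + mulU lam x0 + 1) fun y1 =>
  forceN (x2 + 2 * mulU lam x1 + mulU lam (mulU lam x0) + 4) fun y2 =>
  forceN (u1 + mulO lam u0 - OO) fun a1 => forceN (v1 + mulO lam v0 - OO) fun b1 =>
  forceN (u2 + mulO lam (u1 + a1 - OO) - OO) fun a2 =>
  forceN (v2 + mulO lam (v1 + b1 - OO) - OO) fun b2 =>
  k (min u0 v0 - x0) (max u0 v0 + x0) (max (absO u1) (absO v1) + x1) (min u2 v2 - x2)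
    (max u2 v2 + x2) (min a1 b1 - y1) (max a1 b1 + y1) (min a2 b2 - y2) (max a2 b2 + y2)

/-- `ncf` from the positive and negative parts. -/
def ncfN (plo phi nl1 pl2 nl2 : Nat) : Nat :=
  bif Nat.beq phi 0 then INV else
    forceN (divD nl1 phi) fun x => forceN (mulD x x) fun t =>
      bif Nat.beq pl2 0 then OFF - (divD nl2 phi + t)
      else bif Nat.beq plo 0 then INV else min (OFF + divU pl2 plo - t) INV

def dist (a b : Nat) : Nat := (a - b) + (b - a)

def mkCellN (B : Blk) (Va Vb : Nat → Nat) (y0 y1 : Nat) : Nat :=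
  forceN (vidx y0) fun iv => forceN (vctr y0) fun ct => forceN (vhw y0) fun hw =>
  bif Nat.ble y1 (ct + hw) && Nat.ble y0 y1 && Nat.ble B.lam SS then
  forceN (Va iv) fun ra => forceN (Vb iv) fun rb =>
  forceN (y0 + MM - ct) fun d0 => forceN (y1 + MM - ct) fun d1 =>
  forceN (mulU (y1 - y0) (y1 - y0) / 8 + 1) fun hh => forceN B.lam fun lam =>
  forceN (b5 B (ct - hw)) fun b =>
  forceN (rem0 b hw) fun r0 => forceN (rem1 b hw) fun r1 => forceN (rem2 b hw) fun r2 =>
  enclN (vcoN ra 0) (vcoN ra 1) (vcoN ra 2) (vcoN ra 3) (vcoN ra 4) (24 * dist (fld ra 48 4) OFV)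
    d0 d1 hh lam fun alo ahi ak1 a2l a2h a1L a1H aLL aLH =>
  enclN (vcoN rb 0) (vcoN rb 1) (vcoN rb 2) (vcoN rb 3) (vcoN rb 4) (24 * dist (fld rb 48 4) OFV)
    d0 d1 hh lam fun blo bhi bk1 b2l b2h b1L b1H bLL bLH =>
  enclN (fld rb 48 0 + MM - fld ra 48 0) (fld rb 48 1 + MM - fld ra 48 1)
    (fld rb 48 2 + MM - fld ra 48 2) (fld rb 48 3 + MM - fld ra 48 3)
    (fld rb 48 4 + MM - fld ra 48 4) (24 * dist (fld rb 48 4) (fld ra 48 4)) d0 d1 hh lam
    fun clo chi ck1 c2l c2h _ _ _ _ =>
  forceN (min alo blo) fun lo => forceN (max ahi bhi) fun hi => forceN (max ak1 bk1) fun k1 =>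
  forceN (min a2l b2l) fun l2 => forceN (max a2h b2h) fun h2 =>
  forceN ((max (OO - clo) (chi - OO) + 2 * r0) * 4096 / B.dm + 1) fun s0 =>
  forceN ((ck1 + 2 * r1) * 4096 / B.dm + 1) fun s1 =>
  forceN ((max (OO - c2l) (c2h - OO) + 2 * r2) * 4096 / B.dm + 1) fun s2 =>
  forceN (sqrtL y0) fun ul =>
  forceN (min (dq B (m0a B y1) s0 (max (OO - lo) (hi - OO) + r0))
    (dq B (3 * mulU y1 B.n3 / 2 + 1) s0 (SS + OO - lo + r0))) fun D0 =>
  forceN (dq B (min (3 * B.n3 / 2 + 1) (B.n3 / 2 + 1 + divU B.n2 ul)) s1 (k1 + r1)) fun D1 =>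
  forceN (dq B (min (5 * B.n5 / 12 + 1) (divU B.n4 (4 * ul) + divU (3 * B.n3) (5 * mulD ul ul)))
    s2 (max (OO - l2) (h2 - OO) + r2)) fun D2 =>
  forceN ((B.dm * B.dm) <<< 13) fun dd =>
  forceN (r0 + mulU D0 dd) fun e0 => forceN (r1 + mulU D1 dd) fun e1 =>
  forceN (r2 + mulU D2 dd) fun e2 =>
  forceN (e1 + mulU lam e0) fun f1 =>
  forceN (e2 + 2 * mulU lam e1 + mulU lam (mulU lam e0)) fun f2 =>
  forceN (max (lo - e0) (OO - SS)) fun lo' => forceN (min (hi + e0) (OO + SS)) fun hi' =>
  forceN (max a1H b1H + f1) fun l1h => forceN (max aLH bLH + f2) fun l2h =>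
    pk15 (OFF + OO - lo') (hi' + OFF - OO) (k1 + e1) (OFF + OO + e2 - l2) (h2 + e2 + OFF - OO)
      (max (OO + f1 - min a1L b1L) (l1h - OO)) (max (OO + f2 - min aLL bLL) (l2h - OO))
      (ncfN (lo' - OO) (hi' - OO) (OO - l1h) (l2h - OO) (OO - l2h))
      (s0 + mulU D0 (B.dm <<< 27)) D0 (r0 + 2) (l2h - OO) (s1 + mulU D1 (B.dm <<< 27))
      (s2 + mulU D2 (B.dm <<< 27)) (l1h - OO)
  else 0

def cellChkN (B : Blk) (Va Vb T E : Nat → Nat) (i : Nat) : Bool :=
  forceN (Yb i) fun y0 => forceN (Yb (i + 1)) fun y1 => forceN (T i) fun r =>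
  forceN (bif Nat.ble y1 B.Z2 then gNeg r else gAB r) fun a =>
  Nat.blt 0 r && Nat.beq r (bif Nat.blt y0 B.Yc then mkCellN B Va Vb y0 y1 else mkFar B y0 y1) &&
  (Nat.ble B.z2 y0 || Nat.blt 0 (gLop r)) && (Nat.ble B.Zc y0 || Nat.beq (fld r 56 11) 0) &&
  (Nat.ble y1 B.Zc || Nat.ble B.Z2 y0 || Nat.beq (gHip r) 0) &&
  Nat.ble (E i) (Nat.casesOn (motive := fun _ => Nat) i B.lam (fun i' => E i')) &&
  (Nat.beq a 0 || Nat.beq (E i) 0 || Nat.ble (mulU (E i) y1) (nlogL a)) &&
  (Nat.ble B.Yc y0 || Nat.ble (mulU (mulU a a) (SS + mulU B.gam y1)) SS)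

def cellsChkN (B : Blk) (Va Vb T E : Nat → Nat) (i0 n : Nat) : Bool :=
  Nat.rec (motive := fun _ => Bool) true
    (fun i ih => forceN (i0 + i) (cellChkN B Va Vb T E) && ih) n

def restChkN (B : Blk) (Va Vb E : Nat → Nat) : Bool :=
  forceN (mkCellN B Va Vb 0 0) fun r =>
  Nat.blt 0 r && Nat.beq (fld r 56 14) 0 && Nat.ble (gK1 r) B.lamh && Nat.ble B.lamh SS &&
  Nat.blt 0 B.lam && Nat.blt 0 B.z2 && Nat.ble B.z2 B.Zc && Nat.blt B.Zc B.Z2 &&
  Nat.ble B.Z2 B.Yc && Nat.ble B.Yp B.Yc && Nat.ble B.Yc 4503599627370496 &&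
  Nat.beq (Yb (cidx B.Yc)) B.Yc && Nat.ble B.gam (2 * B.lam) &&
  Nat.ble SS (mulD (mulD B.mL B.mL - B.gam) B.Yc) && Nat.beq (E 680) 0

/-- Horner scheme modulo `M = 2 ^ (5 W)` at the point `Z = Y + 2 ^ W`. -/
def hornM (l : List Nat) (od : Bool) (Z M : Nat) : Nat :=
  lf (α := Bool → Nat → Nat) l (fun _ D => D)
    (fun a ih od D => Bool.casesOn (motive := fun _ => Nat) od
      (ih true ((D * Z + a) &&& (M - 1))) (ih false ((D * Z + (M - a)) &&& (M - 1)))) od 0

/-- Digit `j` of `D`, shifted; the digits carry the offset `2 ^ (W - 1)`. -/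
def digM (D W j sh : Nat) : Nat := (fld D W j >>> sh) + OFV - (1 <<< (W - 1 - sh))

def vrecM (l : List Nat) (od : Bool) (P W Y : Nat) : Nat :=
  forceN (hornM l od (Y + (1 <<< W)) (1 <<< (5 * W)) + ((1 <<< (W - 1)) + (1 <<< (2 * W - 1)) +
    (1 <<< (3 * W - 1)) + (1 <<< (4 * W - 1)) + (1 <<< (5 * W - 1)))) fun D =>
    forceN (digM D W 0 (P - 40)) fun a0 => forceN (digM D W 1 (P - 42)) fun a1 =>
    forceN (digM D W 2 (P - 44)) fun a2 => forceN (digM D W 3 (P - 46)) fun a3 =>
    forceN (digM D W 4 (P - 48)) fun a4 =>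
    bif lt48 a0 && lt48 a1 && lt48 a2 && lt48 a3 && lt48 a4 then pk5 a0 a1 a2 a3 a4 else 0

def vbandM (la lr : List Nat) (n P V j cnt N : Nat) : Bool :=
  Nat.ble (N + 2) n && Nat.ble 4 N && Nat.ble (bandA j + cnt) (8 <<< j) &&
  hornN (drp lr (n - N - 1)) (nth la (n - N - 2) + nth lr (n - N - 2)) ((2 * (bandA j + cnt)) <<< j)
    (fun e0 e1 e2 e3 e4 => Nat.ble e0 (1 <<< (P - 40)) && Nat.ble e1 (1 <<< (P - 42)) &&
      Nat.ble e2 (1 <<< (P - 44)) && Nat.ble e3 (1 <<< (P - 46)) && Nat.ble e4 (1 <<< (P - 48))) &&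
  hornN (drp la (n - N - 1)) 0 ((2 * (bandA j + cnt)) <<< j) fun e0 e1 e2 e3 e4 =>
    forceN (Nat.log2 (e0 + e1 + e2 + e3 + e4 + (1 <<< P)) + 2) fun W =>
    Nat.rec (motive := fun _ => Bool) true
      (fun i ih => forceN (vrecM (drp la (n - N - 1)) (Nat.beq (N % 2) 1) P W
          ((2 * (bandA j + i) + 1) <<< j)) (fun r =>
        Nat.blt 0 r && Nat.beq (fld V 240 (bandI j + i)) r) && ih) cnt

def vchkM (G : Nat → Nat) (R m P n Y V : Nat) (Ns : List Nat) : Bool :=
  forceN (vidx (Y - 1) + 1) fun nv =>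
  Nat.ble Y 4503599627370496 &&
  Nat.ble 48 P && Nat.ble nv 380 && Nat.blt 0 m && Nat.blt m 2048 && Nat.blt 0 R &&
  Nat.blt 0 (muL G R m) &&
  Prod.casesOn (motive := fun _ => Bool) (coefs G R m P n) fun la lr =>
    Nat.rec (motive := fun _ => Bool) true
      (fun j ih => (Nat.beq (bandC nv j) 0 || vbandM la lr n P V j (bandC nv j) (nth Ns j)) && ih) 6

end Pool.Agent.MP_39fec4_gt.K

end

section

set_option autoImplicit false

/-! Bounds for the integral of the difference between a product and the power of the value at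
the mean. The variable `s` is cut at multiples of `1 / 64`. -/

namespace Pool.Agent.MP_39fec4_gt.K

/-- Run through the cells of a schedule, a list of numbers `count * 65536 + step`; the state
consists of three numbers. -/
def sweep {α : Type} (sch : List Nat)
    (cell : Nat → Nat → Nat → Nat → Nat → (Nat → Nat → Nat → α) → α)
    (fin : Nat → Nat → Nat → Nat → α) : α :=
  lf (α := Nat → Nat → Nat → Nat → α) sch fin
    (fun c ih => forceN (c % 65536) fun ds =>
      Nat.rec (motive := fun _ => Nat → Nat → Nat → Nat → α) ih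
        (fun _ ih2 s a b g => forceN (s + ds) fun s' => cell s s' a b g fun a' b' g' =>
          forceN a' fun a' => forceN b' fun b' => forceN g' fun g' => ih2 s' a' b' g')
        (c / 65536)) 0 0 0 0

def tS (s : Nat) : Nat := (s * s) <<< 28

def dS (sa sb : Nat) : Nat := (sb - sa) <<< 34

def t2L (sa sb : Nat) : Nat := ((sb ^ 3 - sa ^ 3) <<< 22) / 3

def t4L (sa sb : Nat) : Nat := ((sb ^ 5 - sa ^ 5) <<< 10) / 5

def ev (k : Nat) : Bool := Nat.beq (k % 2) 0

/-- Parts of the range of a product of two factors. -/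
def oHi (a b : Nat) : Nat := max (mulU (gHip a) (gHip b)) (mulU (gNeg a) (gNeg b))

def oNeg (a b : Nat) : Nat :=
  bif Nat.beq (gNeg a) 0 && Nat.beq (gNeg b) 0 then 0
  else max (mulU (gHip a) (gNeg b)) (mulU (gNeg a) (gHip b))

def oLop (a b : Nat) : Nat := max (mulD (gLop a) (gLop b)) (mulD (gHin a) (gHin b))

def oHin (a b : Nat) : Nat := max (mulD (gLop a) (gHin b)) (mulD (gHin a) (gLop b))

/-- Parts of the range of a power. -/
def pHi (w k : Nat) : Nat := powU (bif ev k then gAB w else gHip w) k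

def pNeg (w k : Nat) : Nat := bif ev k || Nat.beq (gNeg w) 0 then 0 else powU (gNeg w) k

def pLop (w k : Nat) : Nat := powD (bif ev k then max (gLop w) (gHin w) else gLop w) k

def pHin (w k : Nat) : Nat := bif ev k then 0 else powD (gHin w) k

/-- Sharper range on a short interval from the tables at the two ends of the block. -/
def fine (B : Blk) (Va Vb : Nat → Nat) (r a b : Nat) : Nat :=
  bif Nat.blt b B.Yp then
    forceI (pev Va a) fun u1 => forceI (pev Va b) fun u2 => forceI (pev Vb a) fun u3 =>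
    forceI (pev Vb b) fun u4 =>
    forceN (gPe r + mulU (gD2 r) ((B.dm * B.dm) <<< 13) +
      mulU (gK2 r) (mulU (b - a) (b - a)) / 8 + 1) fun e =>
    min (fld r 56 0) (ofs (-(min (min u1 u2) (min u3 u4))) + e) +
      (min (fld r 56 1) (ofs (max (max u1 u2) (max u3 u4)) + e) <<< 56) + ((r >>> 112) <<< 112)
  else r

/-- The same with natural numbers only. -/
def fineN (B : Blk) (Va Vb : Nat → Nat) (r a b : Nat) : Nat :=
  bif Nat.blt b B.Yp then
    forceN (pevN Va a) fun u1 => forceN (pevN Va b) fun u2 => forceN (pevN Vb a) fun u3 =>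
    forceN (pevN Vb b) fun u4 =>
    forceN (gPe r + mulU (gD2 r) ((B.dm * B.dm) <<< 13) +
      mulU (gK2 r) (mulU (b - a) (b - a)) / 8 + 1) fun e =>
    min (fld r 56 0) (2 * OFF - min (min u1 u2) (min u3 u4) + e) +
      (min (fld r 56 1) (max (max u1 u2) (max u3 u4) + e) <<< 56) + ((r >>> 112) <<< 112)
  else r

/-- Parameters of a run: `k` numbers with sum in `[ra, rb]`, the smallest in `[xa0, xa1]`, the
largest in `[xb0, xb1]`, and the ranges of two outer coordinates when `ho` holds. -/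
structure EP where
  k : Nat
  ra : Nat
  rb : Nat
  xa0 : Nat
  xa1 : Nat
  xb0 : Nat
  xb1 : Nat
  ho : Bool
  x1l : Nat
  x1h : Nat
  x2l : Nat
  x2h : Nat
  Vh : Nat
  sV : Nat
  Vs : Nat
  uni : Bool
  fin : Bool

/-- Envelope bound when the product is positive but not all factors lie in the first lobe. -/
def envUp (B : Blk) (Q : Nat → Nat → Nat) (b ym tl th ng : Nat) : Nat :=
  forceN (expU (mulD b tl)) fun e0 =>
  max (bif Nat.blt th (2 * B.z2) || Nat.ble ym B.z2 then 0
      else min e0 (mulU (mulU ng ng) (expU (mulD b (tl - 2 * ym)))))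
    (bif Nat.ble ym B.Z2 then 0 else min e0 (mulU (gAB (rqI Q B.Z2)) (expU (mulD b (tl - ym)))))

def envDn (B : Blk) (b ym tl ng : Nat) : Nat :=
  bif Nat.ble ym B.z2 then 0 else min (expU (mulD b tl)) (mulU ng (expU (mulD b (tl - ym))))

/-- The crude upper bound for a fixed number of factors. -/
def crUp (B : Blk) (Q : Nat → Nat → Nat) (P : EP) (R b ta tb ylo ym tl th : Nat) : Nat :=
  forceN P.k fun k => forceN (gNeg R) fun ng => forceN (gAB R) fun bb =>
  forceN (max P.xa0 (P.ra - P.xa1 - (k - 2) * P.xb1)) fun lo2 =>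
  forceN (rq Q ylo (min ym (mulU P.xa1 tb))) fun ra =>
  forceN (rq Q (mulD lo2 ta) ym) fun rm => forceN (rq Q (mulD (max lo2 P.xb0) ta) ym) fun rb =>
  bif Nat.beq (gNeg ra) 0 && Nat.beq (gHip rb) 0 && Nat.beq (gHip rm) 0 && ev k then 0 else
  forceN (min (envUp B Q b ym tl th ng)
    (bif Nat.ble ym B.Z2 then mulU (mulU ng ng) (powU bb (k - 2)) else powU bb k)) fun r1 =>
  forceN (min r1 (mulU (mulU (gAB ra) (gAB rb)) (powU (gAB rm) (k - 2)))) fun r2 =>
  bif Nat.ble ym B.Z2 && Nat.beq (gNeg ra) 0 then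
    (bif Nat.beq k 2 then 0 else
      forceN (max (gNeg rm) (gNeg rb)) fun nn =>
        min r2 (mulU (mulU (gAB ra) (mulU nn nn)) (powU (max (gAB rm) (gAB rb)) (k - 3))))
  else r2

/-- Second order bounds with 120 fractional bits. -/
def hess {α : Type} (B : Blk) (P : EP) (R Rn w ym tb : Nat) (kk : Nat → Nat → α) : α :=
  forceN P.k fun k => forceN ((gK1 R + gK1 Rn) / 2 + 1) fun k1 => forceN (gK1 R) fun kf =>
  forceN ((fld R 56 4 + 3 * fld Rn 56 4) / 4 + 1 - OFF) fun kh =>
  forceN ((fld R 56 3 + 3 * fld Rn 56 3) / 4 + 1 - OFF) fun kl =>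
  forceN (gAB R) fun bb => forceN (gAB w) fun wb =>
  forceN (mulU (mulU tb tb) P.Vh) fun wm =>
  forceN (min bb (wb + mulU (max kh kl) wm / (2 * k) + 1)) fun b0 =>
  forceN (bif Nat.blt 0 (gLop R) then min SS (divU (2 * b0 - gLop R) (2 * b0))
    else bif Nat.blt 0 (gHin R) then min SS (divU (2 * b0 - gHin R) (2 * b0)) else SS) fun cc =>
  forceN (powU b0 (k - 1)) fun am => forceN ((am * kh) <<< 39) fun ah =>
  forceN ((am * kl) <<< 39) fun al => forceN (mulU cc (powU b0 (k - 2)) * k1 * k1) fun cw =>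
  forceN (bif P.uni then powU wb (k - 2) * k1 * k1
    else (powU wb (k - 2) * (k - 1) / k + 1) * k1 * k1) fun wk =>
  Bool.casesOn (motive := fun _ => α) (Nat.beq (gLop R) 0 && Nat.beq (gHin R) 0)
    (kk
      (max (bif Nat.ble ym B.Z2 || Nat.beq (gHip R) 0 then 0 else ah)
        (bif Nat.beq (gNeg R) 0 then 0
          else bif P.uni then max al (ah + cw) else bif ev k then al else ah + cw))
      (max (bif Nat.beq (gHip R) 0 then 0 else al + cw)
        (bif Nat.beq (gNeg R) 0 then 0 else bif ev k then ah + cw else al)))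
    (forceN (max (max (bif Nat.ble ym B.Z2 || Nat.beq (gHip R) 0 then 0 else ah)
        (bif Nat.beq (gNeg R) 0 then 0
          else bif P.uni then max al (ah + cw) else bif ev k then al else ah + cw))
        ((bif Nat.beq k 2 then 0 else mulU (gNeg R) (powU bb (k - 3)) * kf * kf / 2 + 1) +
          (bif Nat.beq (gNeg w) 0 || (ev k && !P.uni) then 0 else wk))) fun up =>
      kk up
        (max (max (bif Nat.beq (gHip R) 0 then 0 else al + cw)
          (bif Nat.beq (gNeg R) 0 then 0 else bif ev k then ah + cw else al))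
          (powU bb (k - 2) * kf * kf / 2 + 1 +
            (bif !ev k && Nat.beq (gHip w) 0 then 0 else wk))))

/-- The special bound for three factors. -/
def hess3 (P : EP) (R Rn w tb : Nat) : Nat :=
  forceN ((gK1 R + gK1 Rn) / 2 + 1) fun k1 =>
  forceN ((fld R 56 4 + 3 * fld Rn 56 4) / 4 + 1 - OFF) fun kh =>
  forceN ((fld R 56 3 + 3 * fld Rn 56 3) / 4 + 1 - OFF) fun kl =>
  forceN (mulU (mulU tb tb) P.Vh) fun wm =>
  forceN (min (gAB R) (gAB w + mulU (max kh kl) wm / 6 + 1)) fun b0 =>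
  b0 * b0 * kh / 2 + 1 + (mulU kl wm / 6 + 1 + gNeg w - gLop w) * k1 * k1 / 2 + 1 +
    (k1 * k1 * k1 * (mulU tb P.sV * 1361 / 10000 + 1)) >>> 40 + 1

def R07 : Nat := 769658139443

/-- One cell of the exact or uniform run; the state is crude part, second order part, gain. -/
def cellE {α : Type} (B : Blk) (Q : Nat → Nat → Nat) (E Va Vb : Nat → Nat) (P : EP)
    (sa sb sc sh sg : Nat) (kk : Nat → Nat → Nat → α) : α :=
  forceN P.k fun k => forceN (tS sa) fun ta => forceN (tS sb) fun tb =>
  forceN (mulD P.xa0 ta) fun ylo => forceN (mulU P.xb1 tb) fun ym =>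
  forceN (mulD P.ra ta) fun tl => forceN (mulU P.rb tb) fun th =>
  forceN (max ylo (tl / k)) fun wa => forceN (min ym (th / k + 1)) fun wb =>
  forceN (rq Q ylo ym) fun R =>
  forceN (rq Q (bif P.uni then (bif Nat.ble ym B.z2 then 0 else (ylo + wa) / 2) else (ylo + wa) / 2)
    ((ym + wb) / 2 + 1 |> min ym)) fun Rn =>
  forceN (bif P.fin then fineN B Va Vb (rq Q wa (wb + 1)) wa wb else rq Q wa wb) fun w =>
  forceN (bif P.ho then rq Q (mulD P.x1l ta) (mulU P.x1h tb) else 0) fun c1 =>
  forceN (bif P.ho then rq Q (mulD P.x2l ta) (mulU P.x2h tb) else 0) fun c2 =>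
  forceN (bif P.ho then oHi c1 c2 else SS) fun oh => forceN (bif P.ho then oNeg c1 c2 else 0) fun ol =>
  Bool.casesOn (motive := fun _ => α) (Nat.ble ym B.z2 && Nat.beq ol 0)
    (forceN (envb E ym) fun b =>
      forceN (bif P.uni then
          (bif Nat.ble (2 * ym) tl && Nat.ble (5 * SS) (2 * k * mulD b wa) && Nat.ble (gNeg w) R07
            then mulU (envUp B Q b ym tl BIG (gNeg R) + powU (gNeg w) k) (dS sa sb) else BIG)
        else mulU (max (mulU oh (crUp B Q P R b ta tb ylo ym tl th + pNeg w k - pLop w k))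
          (bif Nat.beq ol 0 then 0 else mulU ol (pHi w k +
            min (envDn B b ym tl (gNeg R)) (mulU (gNeg R) (powU (gAB R) (k - 1))) - pHin w k)))
          (dS sa sb)) fun c =>
      hess B P R Rn w ym tb fun up dn =>
      forceN (bif P.uni && !(Nat.ble (max (gAB R) (gAB w)) R07) then BIG else
        (max (oh * (bif Nat.beq k 3 && P.fin then min up (hess3 P R Rn w tb) else up)) (ol * dn) *
          (t4L sa sb + 1)) >>> 160 + 1) fun h =>
      Bool.casesOn (motive := fun _ => α) (Nat.ble c (mulD P.Vs h)) (kk sc (sh + h) sg)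
        (kk (sc + c) sh sg))
    (forceN (bif P.uni then rq Q 0 ym else R) fun Rg =>
      forceN (bif Nat.blt (max (fld Rg 56 7) (fld Rn 56 7)) INV then
        OFF - ((fld Rg 56 7 + 3 * fld Rn 56 7) / 4 + 1) else 0) fun c =>
      kk sc sh (sg + divD (mulD (mulD (mulD (bif P.ho then oLop c1 c2 else SS) (powD (gLop w) k)) c)
        (t4L sa sb)) (2 * SS + mulU c (mulU (mulU tb tb) P.Vh))))

/-- Upper bound for the integral of the absolute value of the outer product beyond `s`. -/
def oTail (B : Blk) (Q : Nat → Nat → Nat) (x1l x2l s : Nat) : Nat :=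
  forceN (mulD x1l (tS s)) fun y1 => forceN (mulD x2l (tS s)) fun y2 =>
  forceN (farc B y1) fun fc => forceN (far0 B y1) fun f1 => forceN (far0 B y2) fun f2 =>
  min (bif Nat.blt f1 BIG && Nat.blt f2 BIG then mulU (mulU f1 f2) (s <<< 34) else BIG)
    (bif Nat.blt fc BIG then mulU (mulU fc (gAB (rqI Q y2))) (s <<< 33) else BIG)

/-- Bound for the product of the inner factors beyond `s`. -/
def pTail (B : Blk) (ra xb1 s : Nat) : Nat :=
  min SS (sqrtU (powU (divU SS (SS + mulD B.gam (mulD xb1 (tS s)))) (ra / xb1)))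

/-- The tail of the exact or uniform run. -/
def finE {α : Type} (B : Blk) (Q : Nat → Nat → Nat) (P : EP) (kk : Nat → Nat → Nat → α)
    (s sc sh sg : Nat) : α :=
  forceN P.k fun k => forceN (tS s) fun t => forceN (mulD P.xa0 t) fun ylo =>
  forceN (mulD P.ra t / k) fun wa => forceN (mulD B.gam (mulD P.xb1 t)) fun z =>
  Bool.casesOn (motive := fun _ => α) P.ho
    (forceN (far0 B wa) fun fw => forceN (far0 B ylo) fun fy =>
      forceN (min
        (bif Nat.ble (64 * SS) z && (bif P.uni then Nat.ble (2 * k * P.xb1) (3 * SS) && Nat.ble 8 k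
            else Nat.ble (4 * P.xb1) P.ra) then powU (divU SS z) 2 else BIG)
        (bif Nat.blt fy BIG && !P.uni then powU fy k else BIG)) fun x =>
      forceN (bif Nat.ble fw R07 && Nat.ble 3 k && Nat.blt x BIG then
        mulU (powU fw k + x) (s <<< 34) else BIG) fun c =>
      forceN (bif Nat.ble 4 k then fy else farc B ylo) fun fb =>
      forceN (far1b B ylo) fun k1 => forceN (far2 B ylo) fun k2 =>
      forceN (bif Nat.ble fb R07 && Nat.ble 3 k && Nat.blt k1 BIG && Nat.blt k2 BIG then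
        ((((powU fb (k - 1) * k2) <<< 39) + 2 * powU fb (k - 2) * k1 * k1) * t * t * s) >>> 166 + 1
        else BIG) fun h =>
      Bool.casesOn (motive := fun _ => α) (Nat.ble c (mulD P.Vs h)) (kk sc (sh + h) sg)
        (kk (sc + c) sh sg))
    (forceN (oTail B Q P.x1l P.x2l s) fun o =>
      kk (sc + (bif Nat.blt o BIG then mulU o (pTail B P.ra P.xb1 s + powU (gAB (rqI Q wa)) k)
        else BIG)) sh sg)

def runE {α : Type} (B : Blk) (Q : Nat → Nat → Nat) (E Va Vb : Nat → Nat) (P : EP)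
    (sch : List Nat) (kk : Nat → Nat → Nat → α) : α :=
  sweep sch (cellE B Q E Va Vb P) (finE B Q P kk)

/-- A lower bound, valid when positive, for a product of factors with arguments in `[0, ym]` and
sum at most `th`; `R` is a record of `[0, ym]`. -/
def prodLo (B : Blk) (R ym th : Nat) : Nat :=
  max (SS - mulU B.lamh th) (bif Nat.ble ym B.z2 && Nat.blt 0 ym && Nat.ble (th / ym) 200 then
    powD (gLop R) (th / ym + 1) else 0)

/-- One cell of the run for an unknown number of inner factors; the state consists of the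
bounds used against the diagonal and against the Ball point. -/
def cellP {α : Type} (B : Blk) (Q : Nat → Nat → Nat) (E : Nat → Nat)
    (k ra rb x1l x1h x2l x2h : Nat) (sa sb e1 e2 e3 : Nat) (kk : Nat → Nat → Nat → α) : α :=
  forceN (tS sa) fun ta => forceN (tS sb) fun tb =>
  forceN (mulU (min (min x1h x2h) rb) tb) fun ym =>
  forceN (mulD ra ta) fun tl => forceN (mulU rb tb) fun th => forceN (th / k + 1) fun wb =>
  forceN (rq Q 0 ym) fun R => forceN (rq Q (tl / k) wb) fun w =>
  forceN (mulU x1h tb) fun y1 =>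
  forceN (rq Q (mulD x1l ta) y1) fun c1 => forceN (rq Q (mulD x2l ta) (mulU x2h tb)) fun c2 =>
  forceN (oNeg c1 c2) fun ol => forceN (envb E ym) fun b =>
  forceN (expU (mulD B.lam tl) + pNeg w k - pLop w k) fun p0 =>
  forceN (bif Nat.ble wb B.z2 then
    min p0 (mulU (B.lamh - B.lam) th + powU (mulU B.lamh th) 2 / k + 1) else p0) fun p1 =>
  forceN (max (mulU (oHi c1 c2)
      (max p1 (envUp B Q b ym tl th (gNeg R) + pNeg w k - pLop w k)))
    (bif Nat.beq ol 0 then 0 else forceN (prodLo B R ym th) fun lo =>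
      mulU ol (bif Nat.beq lo 0 then pHi w k + envDn B b ym tl (gNeg R) - pHin w k
        else pHi w k - lo))) fun cp =>
  forceN (mulU cp (dS sa sb)) fun c =>
  kk (bif Nat.ble y1 B.z2 then e1 else e1 + c +
      (bif Nat.ble (tb / (k + 2) + 1) B.z2 then 0
        else mulU (powU (gAB (rq Q (max B.z2 (ta / (k + 2))) (tb / (k + 2) + 1))) (k + 2)) (dS sa sb)))
    (e2 + c) e3

/-- Bound for the integral of the negative part of the diagonal integrand, for `n ≥ N`. -/
def delN (B : Blk) (Q : Nat → Nat → Nat) (N : Nat) : Nat :=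
  forceN (gNeg (rqI Q B.z2)) fun b =>
  bif Nat.ble b R07 then divU (mulU (sqrtU (N * SS)) (powU b (N - 2)))
    (mulD (mulD B.mL B.mL) (sqrtL B.z2)) else BIG

def finP {α : Type} (B : Blk) (Q : Nat → Nat → Nat) (k ra rb x1l x1h x2l x2h : Nat)
    (kk : Nat → Nat → α) (s e1 e2 _e3 : Nat) : α :=
  forceN (oTail B Q x1l x2l s) fun o => forceN (far0 B (tS s / (k + 2))) fun f =>
  forceN (bif Nat.blt o BIG then mulU o (pTail B ra (min (min x1h x2h) rb) s +
    powU (gAB (rqI Q (mulD ra (tS s) / k))) k) else BIG) fun c =>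
  kk (e1 + c + delN B Q (k + 2) +
    (bif Nat.blt f BIG then mulU (powU f (k + 2)) (s <<< 34) else BIG)) (e2 + c)

def runP {α : Type} (B : Blk) (Q : Nat → Nat → Nat) (E : Nat → Nat)
    (k ra rb x1l x1h x2l x2h : Nat) (sch : List Nat) (kk : Nat → Nat → α) : α :=
  sweep sch (cellP B Q E k ra rb x1l x1h x2l x2h) (finP B Q k ra rb x1l x1h x2l x2h kk)

/-- One cell for small largest coordinate `x1 ≤ xs` and `n ≥ n0`. -/
def cellF {α : Type} (B : Blk) (Q : Nat → Nat → Nat) (E : Nat → Nat) (xs n0 : Nat)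
    (sa sb sc sh sg : Nat) (kk : Nat → Nat → Nat → α) : α :=
  forceN (tS sa) fun ta => forceN (tS sb) fun tb => forceN (mulU xs tb) fun ym =>
  forceN (rq Q 0 ym) fun R =>
  Bool.casesOn (motive := fun _ => α) (Nat.ble ym B.z2)
    (forceN (envb E ym) fun b =>
      kk (sc + (bif Nat.ble (2 * ym) ta && Nat.ble (5 * SS) (2 * mulD b ta) then
        mulU (envUp B Q b ym ta BIG (gNeg R)) (dS sa sb) else BIG)) sh sg)
    (forceN (rq Q 0 (min ym ((ym + tb / n0 + 1) / 2 + 1))) fun Rn =>
      forceN (bif Nat.blt (max (fld R 56 7) (fld Rn 56 7)) INV then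
        OFF - ((fld R 56 7 + 3 * fld Rn 56 7) / 4 + 1) else 0) fun c =>
      kk sc sh (sg + divD (mulD (mulD (powD (gLop (rq Q (ta / n0) (min ym (tb / n0 + 1)))) n0) c)
        (t4L sa sb)) (2 * SS + mulU c (mulU (mulU tb tb) xs))))

/-- The check for `3 / (2 n) < x1 ≤ xs`. -/
def farChk (B : Blk) (Q : Nat → Nat → Nat) (E : Nat → Nat) (xs n0 : Nat) (sch : List Nat) : Bool :=
  Nat.ble (20 * xs) (3 * SS) && Nat.blt 0 xs && Nat.ble SS (n0 * xs) &&
  Nat.ble (2 * (n0 - 1) * xs) (3 * SS) && Nat.ble 8 n0 &&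
  sweep sch (cellF B Q E xs n0) fun s sc _ sg =>
    forceN (mulD B.gam (mulD xs (tS s))) fun z => Nat.ble (64 * SS) z && Nat.blt sc BIG &&
      Nat.blt (delN B Q n0) BIG && Nat.blt 0 (mulD xs xs) &&
      Nat.blt (divU (9 * (sc + mulU (powU (divU SS z) 2) (s <<< 34))) (mulD xs xs) +
        4 * n0 * n0 * delN B Q n0) sg

/-- One cell near the Ball point: `r ∈ [ra, rb]`, `x1 - x2 ≤ d0`; the state is gain and loss. -/
def cellB {α : Type} (B : Blk) (Q : Nat → Nat → Nat) (E Va Vb : Nat → Nat) (ra rb d0 : Nat)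
    (sa sb gp gn e3 : Nat) (kk : Nat → Nat → Nat → α) : α :=
  forceN (tS sa) fun ta => forceN (tS sb) fun tb =>
  forceN (mulD ((SS - rb - d0) / 2) ta) fun ya => forceN (mulU ((SS - ra + d0) / 2 + 1) tb) fun yb =>
  forceN (mulD ((SS - rb) / 2) ta) fun wa => forceN (mulU ((SS - ra) / 2 + 1) tb) fun wb =>
  forceN (rq Q ya yb) fun R => forceN (fineN B Va Vb (rq Q wa (wb + 1)) wa wb) fun w =>
  forceN (mulU rb tb) fun ym => forceN (envb E ym) fun b => forceN (mulU b ym) fun x =>
  forceN (max (gLop w) (gHin w)) fun wl =>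
  forceN (bif Nat.beq ra 0 then mulU B.lamh (t2L sa sb + 1)
    else min (mulU B.lamh (t2L sa sb + 1)) (divU (2 * dS sa sb) ra)) fun lf =>
  forceN (mulD (mulD (mulD wl wl) (divD (mulD b (SS + x / 2)) (SS + x + mulU x x / 2 + 1)))
    (t2L sa sb)) fun g1 =>
  forceN (mulU d0 tb) fun dt =>
  forceN (((((gAB R * gK2 R) + 3 * gK1 R * gK1 R) * dt * dt * lf) >>> 162) + 1) fun l1 =>
  forceN (mulU (mulU (gNeg R) (gHip R)) lf) fun l2 =>
  Bool.casesOn (motive := fun _ => α) (Nat.ble l1 (g1 + l2)) (kk gp (gn + l2) e3)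
    (kk (gp + g1) (gn + l1) e3)

def ballRun (B : Blk) (Q : Nat → Nat → Nat) (E Va Vb : Nat → Nat) (ra rb d0 : Nat)
    (sch : List Nat) : Bool :=
  Nat.blt (rb + d0) SS &&
  sweep sch (cellB B Q E Va Vb ra rb d0) fun s gp gn _ =>
    forceN (farc B (mulD ((SS - rb - d0) / 2) (tS s))) fun f => Nat.blt f BIG &&
      Nat.blt (gn + mulU (mulU (mulU (mulU B.lamh (tS s)) f) f) ((s <<< 34) / 3 + 1) +
        divU B.kh (2 * (SS - rb))) gp

/-- A staircase near the Ball point: each step has the largest `r`, the largest difference and a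
schedule. -/
def ballChk (B : Blk) (Q : Nat → Nat → Nat) (E Va Vb : Nat → Nat)
    (bl : List (Nat × Nat × List Nat)) : Bool :=
  lf (α := Nat → Bool) bl (fun _ => true)
    (fun c ih ra => ballRun B Q E Va Vb ra c.1 c.2.1 c.2.2 && ih c.1) 0

/-- The set `rl ≤ r ≤ rh`, `x1 - x2 ≤ dm` lies under the staircase. -/
def inBall (bl : List (Nat × Nat × List Nat)) (rl rh dm : Nat) : Bool :=
  lf bl false fun c ih => (Nat.blt c.1 rl || Nat.ble dm c.2.1) && (Nat.ble rh c.1 || ih)

end Pool.Agent.MP_39fec4_gt.K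

end
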