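import Pool.Agent.Mg.F39fec4.G66192e
import Pool.Agent.Mg.F39fec4.G3c0919
import Pool.Agent.Mg.F39fec4.G5d53c7

section

set_option autoImplicit false

namespace Pool.Agent.MP_39fec4_gt.K

open Set MeasureTheory Full

variable {B : Blk} {Q : ℕ → ℕ → ℕ} {E : ℕ → ℕ} {q : ℝ} {ι : Type} {T : Finset ι}

namespace YBallX

/-- Comparison of a product of two values with the square of the value at the midpoint. -/
theorem sym_ge {g g1 g2 : ℝ → ℝ} (hs : Sm g g1 g2) {lo hi y1 y2 D A0 A1 A2 : ℝ} (h0 : 0 ≤ lo)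
    (h1 : y1 ∈ Icc lo hi) (h2 : y2 ∈ Icc lo hi) (hD : |y1 - y2| ≤ D)
    (hb : ∀ y ∈ Icc lo hi, |g y| ≤ A0 ∧ |g1 y| ≤ A1 ∧ |g2 y| ≤ A2) :
    g ((y1 + y2) / 2) ^ 2 - (A0 * A2 + 3 * A1 * A1) * D * D / 4 ≤ g y1 * g y2 := by
  have hb' : ∀ y ∈ Icc lo hi, |g y| ≤ A0 ∧ |g1 y + 0 * g y| ≤ A1 ∧
      |g2 y + 2 * 0 * g1 y + 0 ^ 2 * g y| ≤ A2 := fun y hy => by simpa using hb y hy
  have e1 := D2.aff (a := 0) (b := 1) (c := y2 - y1) (d := y1) (c' := D) hs h0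
    (fun s hs => ⟨by nlinarith [hs.1, hs.2, h1.1, h2.1], by nlinarith [hs.1, hs.2, h1.2, h2.2]⟩)
    hb' (by rwa [abs_sub_comm])
  have e2 := D2.aff (a := 0) (b := 1) (c := y1 - y2) (d := y2) (c' := D) hs h0
    (fun s hs => ⟨by nlinarith [hs.1, hs.2, h1.1, h2.1], by nlinarith [hs.1, hs.2, h1.2, h2.2]⟩)
    hb' hD
  have e3 := e1.mul e2
  obtain ⟨b0, b1, b2⟩ := hb y1 h1
  have a0 := (abs_nonneg _).trans b0
  have a1 := (abs_nonneg _).trans b1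
  have a2 := (abs_nonneg _).trans b2
  have a3 := (abs_nonneg _).trans hD
  rw [zero_mul, zero_mul, add_zero] at e3
  have e4 := (e3.ch zero_le_one (by positivity)).1 (1 / 2) (by norm_num) (by norm_num)
  beta_reduce at e4
  rw [show (y2 - y1) * ((1 - 1 / 2) * 0 + 1 / 2 * 1) + y1 = (y1 + y2) / 2 by ring,
    show (y1 - y2) * ((1 - 1 / 2) * 0 + 1 / 2 * 1) + y2 = (y1 + y2) / 2 by ring,
    show (y2 - y1) * 0 + y1 = y1 by ring, show (y1 - y2) * 0 + y2 = y2 by ring,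
    show (y2 - y1) * 1 + y1 = y2 by ring, show (y1 - y2) * 1 + y2 = y1 by ring] at e4
  have a4 : 0 ≤ A1 * A1 * D * D := by positivity
  nlinarith

theorem exp_le {z x : ℝ} (h0 : 0 ≤ z) (h1 : z ≤ x) :
    z * ((1 + x / 2) / (1 + x + x ^ 2 / 2)) ≤ 1 - Real.exp (-z) := by
  have h2 : 1 + z + z ^ 2 / 2 ≤ Real.exp z := Real.quadratic_le_exp_of_nonneg h0
  have x0 := h0.trans h1
  have p : 0 < 1 + z + z ^ 2 / 2 := by positivity
  have px : 0 < 1 + x + x ^ 2 / 2 := by positivity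
  have h3 : Real.exp (-z) ≤ 1 / (1 + z + z ^ 2 / 2) := by
    rw [Real.exp_neg, ← one_div]
    exact one_div_le_one_div_of_le p h2
  have h4 : (1 + x / 2) / (1 + x + x ^ 2 / 2) ≤ (1 + z / 2) / (1 + z + z ^ 2 / 2) := by
    rw [div_le_div_iff₀ px p]
    nlinarith [mul_nonneg (add_nonneg h0 x0) (sub_nonneg.2 h1),
      mul_nonneg (mul_nonneg h0 x0) (sub_nonneg.2 h1)]
  have h5 : z * ((1 + z / 2) / (1 + z + z ^ 2 / 2)) = 1 - 1 / (1 + z + z ^ 2 / 2) := by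
    field_simp
    ring
  linarith [mul_le_mul_of_nonneg_left h4 h0]

theorem sqrt_bd {k kh r rb : ℝ} (hk : k ≤ kh) (h0 : 0 ≤ kh) (hr : 0 ≤ r) (h1 : r ≤ rb)
    (h2 : rb < 1) : k / √(1 - r) ≤ k + r * (kh / (2 * (1 - rb))) := by
  have p : 0 < 1 - r := by linarith
  have pb : 0 < 1 - rb := by linarith
  have s0 : 0 < √(1 - r) := Real.sqrt_pos.2 p
  have s2 : √(1 - r) * √(1 - r) = 1 - r := Real.mul_self_sqrt p.le
  have s1 : √(1 - r) ≤ 1 := Real.sqrt_le_one.2 (by linarith)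
  generalize √(1 - r) = s at s0 s1 s2
  have e1 : 0 ≤ 1 / s - 1 := by
    have := one_le_one_div s0 s1
    linarith
  have e2 : 1 / s - 1 ≤ r / (2 * (1 - r)) := by
    rw [div_sub_one s0.ne', div_le_div_iff₀ s0 (by positivity), ← s2,
      show r = 1 - s * s by linarith]
    nlinarith [mul_nonneg s0.le (sq_nonneg (1 - s))]
  have e3 : r / (2 * (1 - r)) ≤ r / (2 * (1 - rb)) :=
    div_le_div_of_nonneg_left hr (by positivity) (by linarith)
  have e4 := mul_le_mul_of_nonneg_right hk e1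
  have e5 := mul_le_mul_of_nonneg_left (e2.trans e3) h0
  have e6 : k / s = k + k * (1 / s - 1) := by ring
  have e7 : r * (kh / (2 * (1 - rb))) = kh * (r / (2 * (1 - rb))) := by ring
  linarith

/-- The coordinates of a step of the staircase. -/
structure In (ra rb d0 : ℕ) (T : Finset ι) (x : ι → ℝ) (x1 x2 : ℝ) : Prop where
  lt : rb + d0 < SS
  nn : ∀ j ∈ T, 0 ≤ x j
  pos : 0 < ∑ j ∈ T, x j
  lo : rr ra ≤ ∑ j ∈ T, x j
  hi : ∑ j ∈ T, x j ≤ rr rb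
  sum : x1 + x2 + ∑ j ∈ T, x j = 1
  d : |x1 - x2| ≤ rr d0

/-- The defect of the inner product, divided by the sum of the inner coordinates. -/
noncomputable def LL (g : ℝ → ℝ) (T : Finset ι) (x : ι → ℝ) (u : ℝ) : ℝ :=
  (1 - ∏ j ∈ T, g (x j * u ^ 2)) / ∑ j ∈ T, x j

noncomputable def FF (g : ℝ → ℝ) (x1 x2 : ℝ) (T : Finset ι) (x : ι → ℝ) (u : ℝ) : ℝ :=
  -(g (x1 * u ^ 2) * g (x2 * u ^ 2) * LL g T x u)

def lfB (B : Blk) (ra sa sb : ℕ) : ℕ :=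
  bif Nat.beq ra 0 then mulU B.lamh (t2L sa sb + 1)
  else min (mulU B.lamh (t2L sa sb + 1)) (divU (2 * dS sa sb) ra)

def slope (b x : ℕ) : ℕ := divD (mulD b (SS + x / 2)) (SS + x + mulU x x / 2 + 1)

variable {ra rb d0 : ℕ} {x : ι → ℝ} {x1 x2 : ℝ}

theorem prod_abs (hs : ScalOK B) (hq : q ∈ B.I) (hI : In ra rb d0 T x x1 x2) (u : ℝ) :
    |∏ j ∈ T, B.g 0 q (x j * u ^ 2)| ≤ 1 := by
  rw [Finset.abs_prod]
  exact Finset.prod_le_one (fun _ _ => abs_nonneg _) fun j hj =>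
    (hs.sm_g hq).bd _ (mul_nonneg (hI.nn j hj) (sq_nonneg u))

theorem L_nonneg (hs : ScalOK B) (hq : q ∈ B.I) (hI : In ra rb d0 T x x1 x2) (u : ℝ) :
    0 ≤ LL (B.g 0 q) T x u :=
  div_nonneg (sub_nonneg.2 (abs_le.1 (prod_abs hs hq hI u)).2) hI.pos.le

theorem L_two (hs : ScalOK B) (hq : q ∈ B.I) (hI : In ra rb d0 T x x1 x2) (h0 : 0 < ra) (u : ℝ) :
    LL (B.g 0 q) T x u ≤ 2 / rr ra :=
  div_le_div₀ (by norm_num) (by linarith [(abs_le.1 (prod_abs hs hq hI u)).1]) (rr_pos h0) hI.lo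

theorem L_lin (h : BOK B Q E) (hq : q ∈ B.I) (hI : In ra rb d0 T x x1 x2) (u : ℝ) :
    LL (B.g 0 q) T x u ≤ rr B.lamh * u ^ 2 := by
  have h1 := prod_ge_lin (h.sc.sm_g hq) (h.lin q hq) T (fun j => x j * u ^ 2)
    fun j hj => mul_nonneg (hI.nn j hj) (sq_nonneg u)
  rw [← Finset.sum_mul] at h1
  unfold LL
  rw [div_le_iff₀ hI.pos]
  linarith

theorem L_low (h : BOK B Q E) (hq : q ∈ B.I) (hI : In ra rb d0 T x x1 x2) {tb : ℕ} {u : ℝ}
    (hu : u ^ 2 ≤ rr tb) : rr (slope (envb E (mulU rb tb))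
      (mulU (envb E (mulU rb tb)) (mulU rb tb))) * u ^ 2 ≤ LL (B.g 0 q) T x u := by
  classical
  have he := h.envOK hq (mulU rb tb)
  have u0 := sq_nonneg u
  have hm : (∑ j ∈ T, x j) * u ^ 2 ≤ rr (mulU rb tb) := le_mulU hI.hi hu u0
  generalize mulU rb tb = ym at he hm
  generalize envb E ym = b at he
  have h1 := env_prod (g := B.g 0 q) T (fun j => x j * u ^ 2) (b := rr b) (Y := rr ym)
    (fun j hj => ⟨mul_nonneg (hI.nn j hj) u0, le_trans (mul_le_mul_of_nonneg_right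
      (Finset.single_le_sum hI.nn hj) u0) hm⟩) he
  rw [← Finset.sum_mul] at h1
  have r0 := hI.pos
  have b0 := rr_nonneg b
  have z0 : 0 ≤ (∑ j ∈ T, x j) * u ^ 2 := by positivity
  have h2 : rr b * ((∑ j ∈ T, x j) * u ^ 2) ≤ rr (mulU b ym) := le_mulU le_rfl hm z0
  generalize mulU b ym = c at h2
  have h3 := exp_le (mul_nonneg b0 z0) h2
  have c0 := rr_nonneg c
  have h4 : rr (slope b c) ≤ rr b * (1 + rr c / 2) / (1 + rr c + rr c ^ 2 / 2) := by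
    refine divD_le_of (mulD_le_of le_rfl ?_) (by positivity) ?_
    · have := rr_div_le c 2
      rw [rr_add, rr_SS]
      push_cast at this
      linarith
    · have a1 := rr_div_lt (k := 2) (mulU c c) (by norm_num)
      have a2 := mulU_ge c c
      rw [add_assoc (SS + c), rr_add (SS + c), rr_add, rr_SS]
      push_cast at a1
      nlinarith
  have h5 := mul_le_mul_of_nonneg_right h4 z0
  have h6 := (abs_le.1 h1).2
  unfold LL
  rw [le_div_iff₀ r0]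
  have e : rr b * (1 + rr c / 2) / (1 + rr c + rr c ^ 2 / 2) * ((∑ j ∈ T, x j) * u ^ 2) =
      rr b * ((∑ j ∈ T, x j) * u ^ 2) * ((1 + rr c / 2) / (1 + rr c + rr c ^ 2 / 2)) := by ring
  linarith

theorem In.rb_lt (hI : In ra rb d0 T x x1 x2) : rr rb + rr d0 < 1 := by
  rw [← rr_add, ← rr_SS, rr_lt]
  exact hI.lt

theorem In.x_pos (hI : In ra rb d0 T x x1 x2) : 0 < x1 ∧ 0 < x2 := by
  have := abs_le.1 hI.d
  constructor <;> linarith [hI.rb_lt, hI.hi, hI.sum]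

theorem In.x_lo (hI : In ra rb d0 T x x1 x2) :
    rr ((SS - rb - d0) / 2) ≤ x1 ∧ rr ((SS - rb - d0) / 2) ≤ x2 := by
  have h1 := abs_le.1 hI.d
  have h2 := rr_div_le (SS - rb - d0) 2
  have h3 := hI.lt
  rw [rr_sub (by omega), rr_sub (by omega), rr_SS] at h2
  push_cast at h2
  constructor <;> linarith [hI.hi, hI.sum]

theorem In.x_hi (hI : In ra rb d0 T x x1 x2) :
    x1 ≤ rr ((SS - ra + d0) / 2 + 1) ∧ x2 ≤ rr ((SS - ra + d0) / 2 + 1) := by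
  have h1 := abs_le.1 hI.d
  have h2 := rr_div_lt (k := 2) (SS - ra + d0) (by norm_num)
  have h3 := rr_sub_ge SS ra
  rw [rr_add] at h2
  rw [rr_SS] at h3
  push_cast at h2
  constructor <;> linarith [hI.lo, hI.sum]

theorem In.m_mem (hI : In ra rb d0 T x x1 x2) :
    rr ((SS - rb) / 2) ≤ (x1 + x2) / 2 ∧ (x1 + x2) / 2 ≤ rr ((SS - ra) / 2 + 1) := by
  have h1 := rr_div_le (SS - rb) 2
  have h2 := rr_div_lt (k := 2) (SS - ra) (by norm_num)
  have h3 := rr_sub_ge SS ra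
  have h4 := hI.lt
  rw [rr_sub (by omega), rr_SS] at h1
  rw [rr_SS] at h3
  push_cast at h1 h2
  constructor <;> linarith [hI.lo, hI.hi, hI.sum]

theorem FF_eq (hI : In ra rb d0 T x x1 x2) (g : ℝ → ℝ) (u : ℝ) :
    g (x1 * u ^ 2) * g (x2 * u ^ 2) * ∏ j ∈ T, g (x j * u ^ 2) =
      g (x1 * u ^ 2) * g (x2 * u ^ 2) + (∑ j ∈ T, x j) * FF g x1 x2 T x u := by
  have := hI.pos.ne'
  unfold FF LL
  field_simp
  ring

theorem int_O (hs : ScalOK B) (hq : q ∈ B.I) (hI : In ra rb d0 T x x1 x2) :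
    IntegrableOn (fun u : ℝ => B.g 0 q (x1 * u ^ 2) * B.g 0 q (x2 * u ^ 2)) (Ioi 0) := by
  simpa using int_IX hs hq hI.x_pos.1 x2 (∅ : Finset ι) x

theorem int_FF (hs : ScalOK B) (hq : q ∈ B.I) (hI : In ra rb d0 T x x1 x2) :
    IntegrableOn (FF (B.g 0 q) x1 x2 T x) (Ioi 0) := by
  have h1 := ((int_IX hs hq hI.x_pos.1 x2 T x).sub (int_O hs hq hI)).div_const (∑ j ∈ T, x j)
  refine IntegrableOn.congr_fun h1 (fun u _ => ?_) measurableSet_Ioi
  have := hI.pos.ne'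
  simp only [Pi.sub_apply]
  rw [FF_eq hI]
  field_simp
  ring

/-- Integration of gain and loss over a cell. -/
theorem cell_bd (h : BOK B Q E) (hq : q ∈ B.I) (hI : In ra rb d0 T x x1 x2) {sa sb : ℕ}
    (hab : sa ≤ sb) {e c : ℝ} (he : 0 ≤ e) (hF : ∀ u, sR sa ≤ u → u ≤ sR sb →
      FF (B.g 0 q) x1 x2 T x u ≤ e * LL (B.g 0 q) T x u - c * u ^ 2) :
    ∫ u in sR sa..sR sb, FF (B.g 0 q) x1 x2 T x u ≤
      e * rr (lfB B ra sa sb) - c * ((sR sb ^ 3 - sR sa ^ 3) / 3) := by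
  have i1 := int_FF h.sc hq hI
  have k1 := cell_int i1 (c0 := 0) (c2 := e * rr B.lamh - c) (c4 := 0) (sR_nonneg sa)
    (sR_mono hab) fun u h1 h2 => by
      have := mul_le_mul_of_nonneg_left (L_lin h hq hI u) he
      linarith [hF u h1 h2]
  have k2 : rr B.lamh * ((sR sb ^ 3 - sR sa ^ 3) / 3) ≤ rr (mulU B.lamh (t2L sa sb + 1)) :=
    le_mulU' le_rfl (t2L_encl hab).2 (rr_nonneg _)
  have k3 := mul_le_mul_of_nonneg_left k2 he
  unfold lfB
  rw [Bool.cond_eq_ite]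
  split_ifs with h0
  · linarith
  rw [Nat.beq_eq] at h0
  have h0 : 0 < ra := Nat.pos_of_ne_zero h0
  have k4 := cell_int i1 (c0 := e * (2 / rr ra)) (c2 := -c) (c4 := 0) (sR_nonneg sa)
    (sR_mono hab) fun u h1 h2 => by
      have := mul_le_mul_of_nonneg_left (L_two h.sc hq hI h0 u) he
      linarith [hF u h1 h2]
  have k5 := divU_ge (2 * dS sa sb) h0
  rw [rr_nmul, dS_eq hab] at k5
  push_cast at k5
  have k6 := mul_le_mul_of_nonneg_left k5 he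
  have k7 : e * (2 / rr ra) * (sR sb - sR sa) = e * (2 * (sR sb - sR sa) / rr ra) := by ring
  rw [rr_min, mul_min_of_nonneg _ _ he, ← min_sub_sub_right]
  refine le_min ?_ ?_ <;> linarith

theorem neg_hip {R : ℕ} {y z : ℝ} (hy : InR R y) (hz : InR R z) :
    -rr (mulU (gNeg R) (gHip R)) ≤ y * z := by
  have h1 := hy.neg
  have h2 := hy.hip
  have h3 := hz.neg
  have h4 := hz.hip
  have h5 := mulU_ge (gNeg R) (gHip R)
  have h6 := rr_nonneg (gNeg R)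
  have h7 := rr_nonneg (gHip R)
  rcases le_total 0 y with a | a <;> rcases le_total 0 z with b | b <;> nlinarith

theorem pick (a b g gp gn e3 : ℕ) (kk : ℕ → ℕ → ℕ → Bool) {z : Bool}
    (h : z = forceN a fun l1 => forceN b fun l2 => Bool.casesOn (motive := fun _ => Bool)
      (Nat.ble l1 (g + l2)) (kk gp (gn + l2) e3) (kk (gp + g) (gn + l1) e3)) :
    z = kk gp (gn + b) e3 ∨ z = kk (gp + g) (gn + a) e3 := by
  rw [h, forceN_eq, forceN_eq]
  cases Nat.ble a (g + b)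
  · exact Or.inl rfl
  · exact Or.inr rfl

theorem cellB_eq (Va Vb : ℕ → ℕ) (ra rb d0 sa sb gp gn e3 : ℕ) (kk : ℕ → ℕ → ℕ → Bool)
    {R w l c dt : ℕ}
    (hR : rq Q (mulD ((SS - rb - d0) / 2) (tS sa)) (mulU ((SS - ra + d0) / 2 + 1) (tS sb)) = R)
    (hw : fine B Va Vb (rq Q (mulD ((SS - rb) / 2) (tS sa))
    (mulU ((SS - ra) / 2 + 1) (tS sb) + 1)) (mulD ((SS - rb) / 2) (tS sa))
    (mulU ((SS - ra) / 2 + 1) (tS sb)) = w)
    (hl : lfB B ra sa sb = l)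
    (hc : slope (envb E (mulU rb (tS sb))) (mulU (envb E (mulU rb (tS sb))) (mulU rb (tS sb))) = c)
    (hd : mulU d0 (tS sb) = dt) :
    cellB B Q E Va Vb ra rb d0 sa sb gp gn e3 kk = kk gp (gn + mulU (mulU (gNeg R) (gHip R)) l) e3 ∨
    cellB B Q E Va Vb ra rb d0 sa sb gp gn e3 kk =
      kk (gp + mulD (mulD (mulD (max (gLop w) (gHin w)) (max (gLop w) (gHin w))) c) (t2L sa sb))
        (gn + (((gAB R * gK2 R + 3 * gK1 R * gK1 R) * dt * dt * l) >>> 162 + 1)) e3 := by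
  unfold lfB at hl
  unfold slope at hc
  refine pick _ _ _ _ _ _ _ ?_
  unfold cellB
  iterate 15 rw [forceN_eq]
  rw [fineN_eq, hR, hw, hl, hc, hd]

/-- One cell. -/
theorem cell_ok (h : BOK B Q E) {Va Vb : ℕ → ℕ} (hV : EndOK B Va Vb B.Yp) (hq : q ∈ B.I)
    (hI : In ra rb d0 T x x1 x2) {sa sb : ℕ} (hab : sa ≤ sb) (gp gn e3 : ℕ)
    (kk : ℕ → ℕ → ℕ → Bool) : ∃ gp' gn' e', cellB B Q E Va Vb ra rb d0 sa sb gp gn e3 kk =
      kk gp' gn' e' ∧ rr gn - rr gp + ∫ u in sR sa..sR sb, FF (B.g 0 q) x1 x2 T x u ≤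
        rr gn' - rr gp' := by
  have hR := h.qok.rq (mulD ((SS - rb - d0) / 2) (tS sa)) (mulU ((SS - ra + d0) / 2 + 1) (tS sb))
  have hw := fine_sound h.sc (h.yp.trans h.yc) hV (h.qok.rq (mulD ((SS - rb) / 2) (tS sa))
    (mulU ((SS - ra) / 2 + 1) (tS sb) + 1))
  have hL := fun u (hu : u ^ 2 ≤ rr (tS sb)) => L_low h hq hI hu
  have hc := fun (e c : ℝ) he hF => cell_bd h hq hI hab (e := e) (c := c) he hF
  have mem : ∀ u, sR sa ≤ u → u ≤ sR sb → ∀ v, 0 < v → rr ((SS - rb - d0) / 2) ≤ v →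
      v ≤ rr ((SS - ra + d0) / 2 + 1) → v * u ^ 2 ∈ Icc (rr (mulD ((SS - rb - d0) / 2) (tS sa)))
        (rr (mulU ((SS - ra + d0) / 2 + 1) (tS sb))) := fun u h1 h2 v _ a b =>
    ⟨mulD_le_of a (tS_mem h1 h2).1, le_mulU b (tS_mem h1 h2).2 (sq_nonneg u)⟩
  have memw : ∀ u, sR sa ≤ u → u ≤ sR sb → rr (mulD ((SS - rb) / 2) (tS sa)) ≤
      (x1 + x2) / 2 * u ^ 2 ∧ (x1 + x2) / 2 * u ^ 2 ≤ rr (mulU ((SS - ra) / 2 + 1) (tS sb)) :=
    fun u h1 h2 => ⟨mulD_le_of hI.m_mem.1 (tS_mem h1 h2).1,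
      le_mulU hI.m_mem.2 (tS_mem h1 h2).2 (sq_nonneg u)⟩
  have hdt : ∀ u, sR sa ≤ u → u ≤ sR sb → |x1 * u ^ 2 - x2 * u ^ 2| ≤ rr (mulU d0 (tS sb)) :=
    fun u h1 h2 => by
      rw [← sub_mul, abs_mul, abs_of_nonneg (sq_nonneg u)]
      exact le_mulU hI.d (tS_mem h1 h2).2 (sq_nonneg u)
  have hE := cellB_eq (B := B) (Q := Q) (E := E) Va Vb ra rb d0 sa sb gp gn e3 kk rfl rfl rfl rfl rfl
  generalize lfB B ra sa sb = l at hc hE
  generalize fine B Va Vb (rq Q (mulD ((SS - rb) / 2) (tS sa))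
    (mulU ((SS - ra) / 2 + 1) (tS sb) + 1)) (mulD ((SS - rb) / 2) (tS sa))
    (mulU ((SS - ra) / 2 + 1) (tS sb)) = w at hw hE
  generalize rq Q (mulD ((SS - rb - d0) / 2) (tS sa))
    (mulU ((SS - ra + d0) / 2 + 1) (tS sb)) = R at hR hE
  generalize slope (envb E (mulU rb (tS sb)))
    (mulU (envb E (mulU rb (tS sb))) (mulU rb (tS sb))) = c at hL hE
  generalize mulU d0 (tS sb) = dt at hdt hE
  generalize hwl : max (gLop w) (gHin w) = wl at hE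
  have m1 := fun u h1 h2 => mem u h1 h2 x1 hI.x_pos.1 hI.x_lo.1 hI.x_hi.1
  have m2 := fun u h1 h2 => mem u h1 h2 x2 hI.x_pos.2 hI.x_lo.2 hI.x_hi.2
  have pt := fun y (hy : y ∈ Icc _ _) => hR.pt q hq y ((rr_nonneg _).trans hy.1) hy.1 hy.2
  have l0 := rr_nonneg l
  rcases hE with hE | hE
  · refine ⟨_, _, _, hE, ?_⟩
    have k1 := hc (rr (mulU (gNeg R) (gHip R))) 0 (rr_nonneg _) fun u h1 h2 => by
      have a := neg_hip (pt _ (m1 u h1 h2)).inR (pt _ (m2 u h1 h2)).inR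
      have b := mul_le_mul_of_nonneg_right a (L_nonneg h.sc hq hI u)
      unfold FF
      linarith
    have k2 := mulU_ge (mulU (gNeg R) (gHip R)) l
    rw [rr_add]
    linarith
  · refine ⟨_, _, _, hE, ?_⟩
    have a0 := rr_nonneg (gAB R)
    have a1 := rr_nonneg (gK1 R)
    have a2 := rr_nonneg (gK2 R)
    have a3 := rr_nonneg dt
    have a4 : 0 ≤ (rr (gAB R) * rr (gK2 R) + 3 * rr (gK1 R) * rr (gK1 R)) * rr dt * rr dt / 4 :=
      div_nonneg (mul_nonneg (mul_nonneg (add_nonneg (mul_nonneg a0 a2)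
        (mul_nonneg (mul_nonneg (by norm_num) a1) a1)) a3) a3) (by norm_num)
    have k1 := hc ((rr (gAB R) * rr (gK2 R) + 3 * rr (gK1 R) * rr (gK1 R)) * rr dt * rr dt / 4)
      (rr (mulD (mulD wl wl) c)) a4 fun u h1 h2 => by
      have a := sym_ge (h.sc.sm_g hq) (rr_nonneg _) (m1 u h1 h2) (m2 u h1 h2) (hdt u h1 h2)
        fun y hy => ⟨(pt y hy).inR.abs, (pt y hy).gK1, (pt y hy).gK2⟩
      have b := mul_le_mul_of_nonneg_right a (L_nonneg h.sc hq hI u)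
      have c1 := (hw.pt q hq _ ((rr_nonneg _).trans (memw u h1 h2).1) (memw u h1 h2).1
        (memw u h1 h2).2).inR.abs_ge
      rw [hwl, show (x1 + x2) / 2 * u ^ 2 = (x1 * u ^ 2 + x2 * u ^ 2) / 2 by ring] at c1
      have c2 := mulD_le_of c1 c1
      rw [abs_mul_abs_self, ← sq] at c2
      have c3 := mul_le_mul_of_nonneg_right (mulD_le (mulD wl wl) c) (sq_nonneg u)
      have c4 := mul_le_mul c2 (hL u (tS_mem h1 h2).2)
        (mul_nonneg (rr_nonneg _) (sq_nonneg u)) (sq_nonneg _)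
      unfold FF
      linarith
    have k2 := mulD_le_of (le_refl (rr (mulD (mulD wl wl) c))) (t2L_encl hab).1
    have k3 := rr_shr_lt ((gAB R * gK2 R + 3 * gK1 R * gK1 R) * dt * dt * l) 162
    rw [rr_mul, rr_mul, rr_mul, rr_add, rr_mul, rr_mul, rr_nmul] at k3
    rw [rr_add gn, rr_add gp]
    push_cast at k3
    linarith

/-- The tail of the integral. -/
theorem tail_ok (h : BOK B Q E) (hq : q ∈ B.I) (hI : In ra rb d0 T x x1 x2) {s f : ℕ}
    (hf : farc B (mulD ((SS - rb - d0) / 2) (tS s)) = f) (hb : f < BIG) :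
    ∫ u in Ioi (sR s), FF (B.g 0 q) x1 x2 T x u ≤
      rr (mulU (mulU (mulU (mulU B.lamh (tS s)) f) f) ((s <<< 34) / 3 + 1)) := by
  have k : ∀ v, rr ((SS - rb - d0) / 2) ≤ v → ∀ u, sR s ≤ u →
      0 < sR s ∧ |B.g 0 q (v * u ^ 2)| ≤ rr f * (sR s / u) ^ 3 := fun v hv u hu => by
    rw [← hf] at hb ⊢
    exact farc_sq h hq (mulD_le_of hv (tS_eq s).le) hb hu
  have hS := (k x1 hI.x_lo.1 _ le_rfl).1
  obtain ⟨i1, v1⟩ := FIntX.inv_pow_int hS 2
  have i2 := i1.const_mul (rr B.lamh * rr f * rr f * sR s ^ 6)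
  have hle := setIntegral_mono_on ((int_FF h.sc hq hI).mono_set (Ioi_subset_Ioi hS.le)) i2
    measurableSet_Ioi fun u hu => by
      have hu : sR s < u := hu
      have u0 := hS.trans hu
      have a1 := FCalcX.abs_mul_le' (k x1 hI.x_lo.1 u hu.le).2 (k x2 hI.x_lo.2 u hu.le).2
      have a2 := mul_le_mul (neg_le_abs _ |>.trans a1) (L_lin h hq hI u) (L_nonneg h.sc hq hI u)
        ((abs_nonneg _).trans a1)
      unfold FF
      rw [← neg_mul]
      refine a2.trans (le_of_eq ?_)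
      norm_num
      field_simp
  rw [integral_const_mul, v1] at hle
  refine hle.trans ?_
  have b1 : rr B.lamh * sR s ^ 2 ≤ rr (mulU B.lamh (tS s)) :=
    le_mulU le_rfl (tS_eq s).ge (sq_nonneg _)
  have b2 := le_mulU (le_mulU b1 (le_refl (rr f)) (rr_nonneg f)) (le_refl (rr f)) (rr_nonneg f)
  have b3 := rr_div_lt (k := 3) (s <<< 34) (by norm_num)
  rw [shl34] at b3
  have b4 := le_mulU b2 b3.le (by positivity)
  refine le_trans (le_of_eq ?_) b4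
  push_cast
  field_simp
  norm_num

end YBallX

open YBallX

theorem ballRun_sound (h : BOK B Q E) {Va Vb : ℕ → ℕ} (hV : EndOK B Va Vb B.Yp) {ra rb d0 : ℕ}
    {sch : List ℕ} (ok : ballRun B Q E Va Vb ra rb d0 sch = true) : BallIn B ra rb d0 := by
  intro q hq ι T x x1 x2 h0 hp hl hh hs hd
  unfold ballRun at ok
  rw [Bool.and_eq_true, Nat.blt_eq] at ok
  obtain ⟨lt, ok⟩ := ok
  have hI : In ra rb d0 T x x1 x2 := ⟨lt, h0, hp, hl, hh, hs, hd⟩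
  have iF := int_FF h.sc hq hI
  obtain ⟨s, gp, gn, e, h1, h2⟩ := sweep_ind sch (cellB B Q E Va Vb ra rb d0) _
    (fun s gp gn _ => ∫ u in (0 : ℝ)..sR s, FF (B.g 0 q) x1 x2 T x u ≤ rr gn - rr gp)
    (by simp [sR_zero]) fun s s' a b g kk hs hi => by
      obtain ⟨a', b', g', e1, e2⟩ := cell_ok h hV hq hI hs a b g kk
      refine ⟨a', b', g', e1, ?_⟩
      rw [int_add iF (sR_nonneg s) (sR_mono hs)]
      linarith
  rw [h1, forceN_eq, Bool.and_eq_true, Nat.blt_eq, Nat.blt_eq, ← rr_lt (b := gp), rr_add,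
    rr_add] at ok
  have k1 := tail_ok h hq hI rfl ok.1
  have k2 := int_all iF (sR_nonneg s)
  have k3 := divU_ge B.kh (b := 2 * (SS - rb)) (by omega)
  rw [rr_nmul, rr_sub (by omega), rr_SS] at k3
  push_cast at k3
  have k4 : ∫ u in Ioi (0 : ℝ), FF (B.g 0 q) x1 x2 T x u < -(rr B.kh / (2 * (1 - rr rb))) := by
    linarith [ok.2]
  have k5 := mul_lt_mul_of_pos_left k4 hp
  have k6 := two_le_kap h.sc.C_pos (h.sc.q_pos hq).1 (h.sc.q_pos hq).2 hI.x_pos.1 hI.x_pos.2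
  rw [show x1 + x2 = 1 - ∑ j ∈ T, x j by linarith] at k6
  have k7 := sqrt_bd (h.sc.hkap q hq).2 (rr_nonneg _) hp.le hh
    (by linarith [hI.rb_lt, rr_nonneg d0])
  unfold IX
  simp only [FF_eq hI]
  rw [integral_add (int_O h.sc hq hI) (iF.const_mul _), integral_const_mul]
  unfold Blk.g at k5 ⊢
  linarith

theorem ballChk_sound (h : BOK B Q E) {Va Vb : ℕ → ℕ} (hV : EndOK B Va Vb B.Yp)
    {bl : List (ℕ × ℕ × List ℕ)} (ok : ballChk B Q E Va Vb bl = true) : BallOK B bl := by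
  have key : ∀ (bl : List (ℕ × ℕ × List ℕ)) (ra : ℕ), lf (α := ℕ → Bool) bl (fun _ => true)
      (fun c ih ra => ballRun B Q E Va Vb ra c.1 c.2.1 c.2.2 && ih c.1) ra = true →
      ∀ rl rh dm, inBall bl rl rh dm = true → ∀ q ∈ B.I, ∀ (ι : Type) (T : Finset ι) (x : ι → ℝ)
        (x1 x2 : ℝ), (∀ j ∈ T, 0 ≤ x j) → 0 < ∑ j ∈ T, x j → rr ra ≤ ∑ j ∈ T, x j →
        rr rl ≤ ∑ j ∈ T, x j → ∑ j ∈ T, x j ≤ rr rh → x1 + x2 + ∑ j ∈ T, x j = 1 →
        |x1 - x2| ≤ rr dm → IX (B.g 0 q) x1 x2 T x < kap B.C q := by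
    intro bl
    induction bl with
    | nil => intro ra _ rl rh dm hi; exact absurd hi (by simp [inBall, lf_nil])
    | cons c l ih =>
      intro ra ok rl rh dm hi q hq ι T x x1 x2 h0 hp ha hl hh hs hd
      unfold inBall at hi ih
      rw [lf_cons] at ok hi
      simp only [Bool.and_eq_true, Bool.or_eq_true, Nat.blt_eq, Nat.ble_eq] at ok hi
      rcases le_or_gt (∑ j ∈ T, x j) (rr c.1) with hc | hc
      · refine ballRun_sound h hV ok.1 q hq ι T x x1 x2 h0 hp ha hc hs ?_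
        rcases hi.1 with h1 | h1
        · exact absurd (rr_lt.2 h1) (not_lt.2 (hl.trans hc))
        · exact hd.trans (rr_le.2 h1)
      · rcases hi.2 with h1 | h1
        · exact absurd (hh.trans (rr_le.2 h1)) (not_le.2 hc)
        · exact ih c.1 ok.2 rl rh dm h1 q hq ι T x x1 x2 h0 hp hc.le hl hh hs hd
  intro rl rh dm hi q hq ι T x x1 x2 h0 hp hl hh hs hd
  exact key bl 0 ok rl rh dm hi q hq ι T x x1 x2 h0 hp (by rw [rr_zero]; exact hp.le) hl hh hs hd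

end Pool.Agent.MP_39fec4_gt.K

end

section

set_option autoImplicit false

/-! The modular Horner scheme. -/

namespace Pool.Agent.MP_39fec4_gt.K

open Set Full

namespace ZFastCX

/-- The state of `hornN`. -/
def hN (Y : ℕ) : List ℕ → ℕ × ℕ × ℕ × ℕ × ℕ → ℕ × ℕ × ℕ × ℕ × ℕ
  | [], e => e
  | a :: l, e => hN Y l (e.1 * Y + a, e.2.1 * Y + e.1, e.2.2.1 * Y + e.2.1,
      e.2.2.2.1 * Y + e.2.2.1, e.2.2.2.2 * Y + e.2.2.2.1)

/-- The state of `horn`. -/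
def hZ (Y : ℤ) : List ℕ → Bool → ℤ × ℤ × ℤ × ℤ × ℤ → ℤ × ℤ × ℤ × ℤ × ℤ
  | [], _, e => e
  | a :: l, od, e => hZ Y l (!od) (e.1 * Y + (bif od then -(a : ℤ) else a), e.2.1 * Y + e.1,
      e.2.2.1 * Y + e.2.1, e.2.2.2.1 * Y + e.2.2.1, e.2.2.2.2 * Y + e.2.2.2.1)

/-- The state of `hornM`. -/
def hM (Z M : ℕ) : List ℕ → Bool → ℕ → ℕ
  | [], _, D => D
  | a :: l, od, D => hM Z M l (!od) ((D * Z + (bif od then M - a else a)) &&& (M - 1))

theorem hornN_eq {α : Type} (l : List ℕ) (top Y : ℕ) (k : ℕ → ℕ → ℕ → ℕ → ℕ → α) :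
    hornN l top Y k = (fun e : ℕ × ℕ × ℕ × ℕ × ℕ => k e.1 e.2.1 e.2.2.1 e.2.2.2.1 e.2.2.2.2)
      (hN Y l (top, 0, 0, 0, 0)) := by
  unfold hornN
  simp only [forceN_eq]
  generalize (0 : ℕ) = d1
  have key : ∀ (l : List ℕ) (d0 d1 d2 d3 d4 : ℕ),
      lf (α := Nat → Nat → Nat → Nat → Nat → α) l k
        (fun a ih d0 d1 d2 d3 d4 =>
          ih (d0 * Y + a) (d1 * Y + d0) (d2 * Y + d1) (d3 * Y + d2) (d4 * Y + d3))
        d0 d1 d2 d3 d4 = (fun e : ℕ × ℕ × ℕ × ℕ × ℕ => k e.1 e.2.1 e.2.2.1 e.2.2.2.1 e.2.2.2.2)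
          (hN Y l (d0, d1, d2, d3, d4)) := by
    intro l
    induction l with
    | nil => exact fun _ _ _ _ _ => rfl
    | cons a l ih => exact fun _ _ _ _ _ => ih _ _ _ _ _
  exact key l _ _ _ _ _

theorem horn_eq {α : Type} (l : List ℕ) (od : Bool) (Y : ℤ) (k : ℤ → ℤ → ℤ → ℤ → ℤ → α) :
    horn l od Y k = (fun e : ℤ × ℤ × ℤ × ℤ × ℤ => k e.1 e.2.1 e.2.2.1 e.2.2.2.1 e.2.2.2.2)
      (hZ Y l od (0, 0, 0, 0, 0)) := by
  unfold horn
  simp only [forceI_eq]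
  have key : ∀ (l : List ℕ) (od : Bool) (d0 d1 d2 d3 d4 : ℤ),
      lf (α := Bool → Int → Int → Int → Int → Int → α) l (fun _ => k)
        (fun a ih od d0 d1 d2 d3 d4 => Bool.casesOn (motive := fun _ => α) od
          (ih true (d0 * Y + Int.ofNat a) (d1 * Y + d0) (d2 * Y + d1) (d3 * Y + d2) (d4 * Y + d3))
          (ih false (d0 * Y - Int.ofNat a) (d1 * Y + d0) (d2 * Y + d1) (d3 * Y + d2) (d4 * Y + d3)))
        od d0 d1 d2 d3 d4 =
        (fun e : ℤ × ℤ × ℤ × ℤ × ℤ => k e.1 e.2.1 e.2.2.1 e.2.2.2.1 e.2.2.2.2)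
          (hZ Y l od (d0, d1, d2, d3, d4)) := by
    intro l
    induction l with
    | nil => exact fun _ _ _ _ _ _ => rfl
    | cons a l ih =>
      intro od _ _ _ _ _
      cases od
      · exact ih true _ _ _ _ _
      · exact ih false _ _ _ _ _
  exact key l _ _ _ _ _ _

theorem hornM_eq (l : List ℕ) (od : Bool) (Z M : ℕ) : hornM l od Z M = hM Z M l od 0 := by
  unfold hornM
  generalize (0 : ℕ) = D
  induction l generalizing od D with
  | nil => rfl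
  | cons a l ih =>
    cases od
    · exact ih true _
    · exact ih false _

theorem hN_ge {Y : ℕ} (hY : 1 ≤ Y) (l : List ℕ) (e : ℕ × ℕ × ℕ × ℕ × ℕ) : e.1 ≤ (hN Y l e).1 := by
  induction l generalizing e with
  | nil => exact le_rfl
  | cons a l ih =>
    refine le_trans ?_ (ih _)
    exact (Nat.le_mul_of_pos_right _ hY).trans (Nat.le_add_right _ _)

/-- Entrywise domination. -/
def Dom (d : ℤ × ℤ × ℤ × ℤ × ℤ) (e : ℕ × ℕ × ℕ × ℕ × ℕ) : Prop :=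
  |d.1| ≤ e.1 ∧ |d.2.1| ≤ e.2.1 ∧ |d.2.2.1| ≤ e.2.2.1 ∧ |d.2.2.2.1| ≤ e.2.2.2.1 ∧
    |d.2.2.2.2| ≤ e.2.2.2.2

theorem abs_step {Y Y' e e' : ℕ} {d d' : ℤ} (hY : Y ≤ Y') (h : |d| ≤ e) (h' : |d'| ≤ e') :
    |d * Y + d'| ≤ (e * Y' + e' : ℕ) := by
  refine (abs_add_le _ _).trans ?_
  rw [abs_mul, Nat.abs_cast]
  push_cast
  exact add_le_add (mul_le_mul h (by exact_mod_cast hY) (by positivity) (by positivity)) h'

theorem dom_h {Y Y' : ℕ} (hY : Y ≤ Y') (l : List ℕ) (od : Bool) {d : ℤ × ℤ × ℤ × ℤ × ℤ}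
    {e : ℕ × ℕ × ℕ × ℕ × ℕ} (h : Dom d e) : Dom (hZ Y l od d) (hN Y' l e) := by
  induction l generalizing od d e with
  | nil => exact h
  | cons a l ih =>
    obtain ⟨h0, h1, h2, h3, h4⟩ := h
    refine ih _ ⟨abs_step hY h0 ?_, abs_step hY h1 h0, abs_step hY h2 h1, abs_step hY h3 h2,
      abs_step hY h4 h3⟩
    cases od <;> simp

/-- The value of a digit string. -/
def val (X : ℤ) (d : ℤ × ℤ × ℤ × ℤ × ℤ) : ℤ :=
  d.1 + d.2.1 * X + d.2.2.1 * X ^ 2 + d.2.2.2.1 * X ^ 3 + d.2.2.2.2 * X ^ 4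

theorem mod_h {Y Y' W : ℕ} (hY : 1 ≤ Y') (l : List ℕ) (od : Bool) {D : ℕ}
    {d : ℤ × ℤ × ℤ × ℤ × ℤ} {e : ℕ × ℕ × ℕ × ℕ × ℕ} (he : (hN Y' l e).1 ≤ 2 ^ (5 * W))
    (h : (D : ℤ) ≡ val (2 ^ W) d [ZMOD 2 ^ (5 * W)]) :
    (hM (Y + 2 ^ W) (2 ^ (5 * W)) l od D : ℤ) ≡ val (2 ^ W) (hZ Y l od d) [ZMOD 2 ^ (5 * W)] := by
  induction l generalizing od D d e with
  | nil => exact h
  | cons a l ih =>
    refine ih _ he ?_
    have ha : a ≤ 2 ^ (5 * W) := (Nat.le_add_left _ _).trans ((hN_ge hY l (_, _)).trans he)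
    rw [Nat.and_two_pow_sub_one_eq_mod, Int.natCast_mod, Nat.cast_pow, Nat.cast_ofNat]
    refine (Int.mod_modEq _ _).trans ?_
    have h1 : (((bif od then 2 ^ (5 * W) - a else a : ℕ) : ℕ) : ℤ) ≡
        (bif od then -(a : ℤ) else a) [ZMOD 2 ^ (5 * W)] := by
      cases od
      · rfl
      · rw [cond_true, cond_true, Nat.cast_sub ha]
        exact Int.modEq_iff_dvd.2 ⟨-1, by push_cast; ring⟩
    rw [Nat.cast_add, Nat.cast_mul]
    refine ((h.mul_right _).add h1).trans (Int.modEq_iff_dvd.2 ⟨-d.2.2.2.2, ?_⟩)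
    simp only [val]
    push_cast
    rw [mul_comm 5 W, pow_mul]
    ring

theorem dig_eq {D W j sh u : ℕ} {d : ℤ} (h : fld D (W + 1) j = u) (hu : (u : ℤ) = d + 2 ^ W)
    (hs : sh ≤ W) : digM D (W + 1) j sh = encV d sh := by
  obtain ⟨t, rfl⟩ := Nat.exists_eq_add_of_le hs
  have e : ((u >>> sh : ℕ) : ℤ) = Int.shiftRight d sh + (2 ^ t : ℕ) := by
    rw [Nat.shiftRight_eq_div_pow, Int.natCast_div, hu, show Int.shiftRight d sh = d >>> sh from rfl,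
      Int.shiftRight_eq_div_pow, pow_add]
    push_cast
    rw [Int.add_mul_ediv_left _ _ (by positivity)]
  rw [digM, encV, h, Nat.add_sub_cancel, Nat.add_sub_cancel_left, Nat.shiftLeft_eq, one_mul]
  omega

theorem lift_dig {d : ℤ} {e W : ℕ} (h : |d| ≤ e) (he : e < 2 ^ W) :
    ∃ u : ℕ, u < 2 ^ (W + 1) ∧ (u : ℤ) = d + 2 ^ W := by
  have h1 : (e : ℤ) < 2 ^ W := by exact_mod_cast he
  rw [abs_le] at h
  obtain ⟨u, hu⟩ := Int.eq_ofNat_of_zero_le (show 0 ≤ d + 2 ^ W by linarith [h.1])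
  refine ⟨u, ?_, hu.symm⟩
  have : (u : ℤ) < 2 ^ (W + 1) := by rw [← hu, pow_succ]; linarith [h.2]
  exact_mod_cast this

theorem digits {D w u0 u1 u2 u3 u4 : ℕ} (h0 : u0 < 2 ^ w) (h1 : u1 < 2 ^ w) (h2 : u2 < 2 ^ w)
    (h3 : u3 < 2 ^ w) (h4 : u4 < 2 ^ w)
    (h : (D : ℤ) ≡ val (2 ^ w) (u0, u1, u2, u3, u4) [ZMOD 2 ^ (5 * w)]) :
    fld D w 0 = u0 ∧ fld D w 1 = u1 ∧ fld D w 2 = u2 ∧ fld D w 3 = u3 ∧ fld D w 4 = u4 := by
  have e1 : D ≡ u0 + 2 ^ w * (u1 + 2 ^ w * (u2 + 2 ^ w * (u3 + 2 ^ w * u4)))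
      [MOD 2 ^ (5 * w)] := by
    rw [show val (2 ^ w) (u0, u1, u2, u3, u4) =
      ((u0 + 2 ^ w * (u1 + 2 ^ w * (u2 + 2 ^ w * (u3 + 2 ^ w * u4))) : ℕ) : ℤ) by
        simp only [val]; push_cast; ring] at h
    exact Int.natCast_modEq_iff.1 (by rwa [Nat.cast_pow, Nat.cast_ofNat])
  have st : ∀ a b X Y : ℕ, a < X → b < Y → a + X * b < X * Y := fun a b X Y ha hb => by
    nlinarith
  have e2 := st _ _ _ _ h0 (st _ _ _ _ h1 (st _ _ _ _ h2 (st _ _ _ _ h3 h4)))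
  rw [show 2 ^ w * (2 ^ w * (2 ^ w * (2 ^ w * 2 ^ w))) = 2 ^ (5 * w) by ring] at e2
  have e3 : D = u0 + ((u1 + ((u2 + ((u3 + ((u4 + ((D / 2 ^ (5 * w)) <<< w)) <<< w)) <<< w)) <<< w))
      <<< w) := by
    conv_lhs => rw [← Nat.mod_add_div D (2 ^ (5 * w)), e1, Nat.mod_eq_of_lt e2]
    simp only [Nat.shiftLeft_eq]
    ring
  rw [e3]
  exact ⟨fld_low h0, (fld_high h0 0).trans (fld_low h1),
    (fld_high h0 1).trans ((fld_high h1 0).trans (fld_low h2)),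
    (fld_high h0 2).trans ((fld_high h1 1).trans ((fld_high h2 0).trans (fld_low h3))),
    (fld_high h0 3).trans ((fld_high h1 2).trans ((fld_high h2 1).trans
      ((fld_high h3 0).trans (fld_low h4))))⟩

theorem vrecM_eq {l : List ℕ} {od : Bool} {P W Y Y' : ℕ} {e : ℕ × ℕ × ℕ × ℕ × ℕ}
    (he : e = hN Y' l (0, 0, 0, 0, 0)) (hY : Y ≤ Y') (hY' : 1 ≤ Y')
    (hW : e.1 + e.2.1 + e.2.2.1 + e.2.2.2.1 + e.2.2.2.2 + 2 ^ P < 2 ^ W) :
    vrecM l od P (W + 1) Y = vrec l od P Y := by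
  have hP : P ≤ W := ((Nat.pow_lt_pow_iff_right one_lt_two).1
    ((Nat.le_add_left _ _).trans_lt hW)).le
  replace hW := (Nat.le_add_right _ _).trans_lt hW
  obtain ⟨b0, b1, b2, b3, b4⟩ := he ▸ dom_h hY l od (d := (0, 0, 0, 0, 0)) (e := (0, 0, 0, 0, 0))
    (by simp [Dom])
  have hm := mod_h (Y := Y) (W := W + 1) hY' l od (D := 0) (d := (0, 0, 0, 0, 0))
    (e := (0, 0, 0, 0, 0)) (by
      rw [← he]
      exact le_trans (by omega) (Nat.pow_le_pow_right two_pos (show W ≤ 5 * (W + 1) by omega)))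
    (by simp [val])
  obtain ⟨u0, c0, f0⟩ := lift_dig b0 (W := W) (by omega)
  obtain ⟨u1, c1, f1⟩ := lift_dig b1 (W := W) (by omega)
  obtain ⟨u2, c2, f2⟩ := lift_dig b2 (W := W) (by omega)
  obtain ⟨u3, c3, f3⟩ := lift_dig b3 (W := W) (by omega)
  obtain ⟨u4, c4, f4⟩ := lift_dig b4 (W := W) (by omega)
  unfold vrecM vrec
  rw [forceN_eq, horn_eq, hornM_eq]
  simp only [Nat.shiftLeft_eq, one_mul]
  obtain ⟨g0, g1, g2, g3, g4⟩ := digits c0 c1 c2 c3 c4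
    (D := hM (Y + 2 ^ (W + 1)) (2 ^ (5 * (W + 1))) l od 0 + (2 ^ (W + 1 - 1) +
      2 ^ (2 * (W + 1) - 1) + 2 ^ (3 * (W + 1) - 1) + 2 ^ (4 * (W + 1) - 1) +
      2 ^ (5 * (W + 1) - 1))) (by
    rw [Nat.cast_add]
    refine (hm.add_right _).trans (Eq.mpr (congrArg (· ≡ _ [ZMOD _]) ?_) (Int.ModEq.refl _))
    rw [show 2 * (W + 1) - 1 = W + (W + 1) by omega, show 3 * (W + 1) - 1 = W + (W + 1) * 2 by omega,
      show 4 * (W + 1) - 1 = W + (W + 1) * 3 by omega,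
      show 5 * (W + 1) - 1 = W + (W + 1) * 4 by omega, Nat.add_sub_cancel]
    simp only [val, f0, f1, f2, f3, f4]
    push_cast
    ring)
  rw [dig_eq g0 f0 (by omega), dig_eq g1 f1 (by omega), dig_eq g2 f2 (by omega),
    dig_eq g3 f3 (by omega), dig_eq g4 f4 (by omega)]
  rfl

theorem rec_mono {f g : ℕ → Bool} {n : ℕ} (h : ∀ i, i < n → f i = true → g i = true)
    (hf : Nat.rec (motive := fun _ => Bool) true (fun i ih => f i && ih) n = true) :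
    Nat.rec (motive := fun _ => Bool) true (fun i ih => g i && ih) n = true := by
  induction n with
  | zero => rfl
  | succ n ih =>
    have := Bool.and_eq_true_iff.1 hf
    exact Bool.and_eq_true_iff.2 ⟨h n (Nat.lt_succ_self n) this.1,
      ih (fun i hi => h i (Nat.lt_succ_of_lt hi)) this.2⟩

theorem vbandM_sound {la lr : List ℕ} {n P V j cnt N : ℕ}
    (h : vbandM la lr n P V j cnt N = true) : vband la lr n P V j cnt N = true := by
  unfold vbandM at h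
  unfold vband
  rw [Bool.and_eq_true] at h ⊢
  refine ⟨h.1, ?_⟩
  have h2 := h.2
  rw [hornN_eq] at h2
  simp only [forceN_eq] at h2 ⊢
  refine rec_mono (fun i hi hf => ?_) h2
  have hp : 0 < 2 ^ j := by positivity
  rwa [vrecM_eq (W := Nat.log2 _ + 1) (Y' := (2 * (bandA j + cnt)) <<< j) rfl ?_ ?_ ?_] at hf
  · simp only [Nat.shiftLeft_eq]
    exact Nat.mul_le_mul_right _ (by omega)
  · simp only [Nat.shiftLeft_eq]
    exact Nat.mul_pos (by omega) hp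
  · rw [Nat.shiftLeft_eq 1 P, one_mul]
    exact Nat.lt_log2_self

end ZFastCX

theorem vchkM_sound {G : ℕ → ℕ} {R m P n Y V : ℕ} {Ns : List ℕ}
    (h : vchkM G R m P n Y V Ns = true) : vchkY G R m P n Y V Ns = true := by
  unfold vchkM at h
  unfold vchkY vchk
  rw [forceN_eq] at h
  generalize coefs G R m P n = c at h ⊢
  obtain ⟨la, lr⟩ := c
  simp only [Bool.and_eq_true] at h ⊢
  obtain ⟨⟨⟨⟨⟨⟨⟨h1, h2⟩, h3⟩, h4⟩, h5⟩, h6⟩, h7⟩, h8⟩ := h
  refine ⟨h1, ⟨⟨⟨⟨⟨h2, h3⟩, h4⟩, h5⟩, h6⟩, h7⟩, ?_⟩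
  generalize vidx (Y - 1) + 1 = nv at h8 ⊢
  generalize (6 : ℕ) = c at h8 ⊢
  refine ZFastCX.rec_mono
    (f := fun j => Nat.beq (bandC nv j) 0 || vbandM la lr n P V j (bandC nv j) (nth Ns j))
    (g := fun j => Nat.beq (bandC nv j) 0 || vband la lr n P V j (bandC nv j) (nth Ns j))
    (fun i _ hf => ?_) h8
  rw [Bool.or_eq_true] at hf ⊢
  exact hf.imp_right ZFastCX.vbandM_sound

end Pool.Agent.MP_39fec4_gt.K

end

section

set_option autoImplicit false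

namespace Pool.Agent.MP_39fec4_gt.K

open Set MeasureTheory Full

/-- What the first checks of a certificate give. -/
structure Cert.Base (c : Cert) : Prop where
  bok : BOK c.B c.Q c.Ef
  vv : VVOK c.B c.VV
  ends : EndOK c.B c.Va c.Vb c.B.Yp
  mk1 : ∀ i, i ≤ 680 → Yb i < c.B.Yc → MkOK c.B (tget c.T 840 i) (rr (Yb i)) (rr (Yb (i + 1)))
  mk0 : MkOK c.B (mkCellN c.B c.Va c.Vb 0 0) 0 0
  ball : BallOK c.B c.bl

namespace YBaseX

/-- The table at each vertex is correct up to the bound used by the check. -/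
theorem vt_sound {G : ℕ → ℕ} (hG : GamOK G) {c : Cert} {n : ℕ} (h : c.vt G 0 n = true) {v : ℕ}
    (hv : v < n) : VOK c.B.C (c.B.q v) (vget c.VL v)
      (bif Nat.beq v 0 || Nat.beq (v + 1) c.B.nv then c.B.Yc else c.B.Yp) := by
  unfold Cert.vt at h
  have h1 := all_rec (f := fun i => forceN (0 + i) (fun v => vchkM G c.B.R (c.B.qv v) (c.vp v).1
    (c.vp v).2.1 (bif Nat.beq v 0 || Nat.beq (v + 1) c.B.nv then c.B.Yc else c.B.Yp) (nth c.VL v)
    (c.vp v).2.2)) h v hv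
  rw [forceN_eq, Nat.zero_add] at h1
  exact vchkY_sound hG (vchkM_sound h1)

end YBaseX

theorem Cert.OK.base {G : ℕ → ℕ} (hG : GamOK G) {c : Cert} (h : c.OK G) : c.Base := by
  have hs : ScalOK c.B := scalChk_sound hG h.sc
  have hce := h.ce
  unfold Cert.cells at hce
  rw [Bool.and_eq_true] at hce
  obtain ⟨hr, he⟩ := restChkN_sound hce.2
  have hc : ∀ i, i ≤ 680 → cellChk c.B c.Va c.Vb (tget c.T 840) c.Ef i = true := fun i hi =>
    cellsChk_sound (cellsChkN_sound hce.1) i (Nat.zero_le i) (by omega)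
  have hp : c.B.Yp ≤ c.B.Yc := (ZBlockX.rest_props hr).yp
  have hn := hs.nv
  have hvb : c.Vb = vget c.VL (c.B.nv - 1) := by
    unfold Cert.Vb
    exact forceN_eq _ _
  have hV : EndOK c.B c.Va c.Vb c.B.Yc := by
    constructor
    · have h1 := YBaseX.vt_sound hG h.vt (v := 0) (by omega)
      rw [hs.q_ends.1] at h1
      exact h1
    · have h1 := YBaseX.vt_sound hG h.vt (v := c.B.nv - 1) (by omega)
      have h2 : Nat.beq (c.B.nv - 1 + 1) c.B.nv = true := by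
        rw [Nat.beq_eq]
        omega
      rw [hs.q_ends.2, h2, Bool.or_true, cond_true] at h1
      rw [hvb]
      exact h1
  have hV' : EndOK c.B c.Va c.Vb c.B.Yp := ⟨hV.1.mono hp, hV.2.mono hp⟩
  have hb : BOK c.B c.Q c.Ef := bok_of hs hV hc hr
  refine ⟨hb, fun v hv => ?_, hV', fun i hi hy => mk_of hs hV hc hi hy, ?_,
    ballChk_sound hb hV' h.ba⟩
  · refine (YBaseX.vt_sound hG h.vt hv).mono ?_
    cases (Nat.beq v 0 || Nat.beq (v + 1) c.B.nv)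
    · exact le_rfl
    · exact hp
  · rw [he]
    exact mk_zero hs hV hr

end Pool.Agent.MP_39fec4_gt.K

end
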