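import Pool.Agent.Mg.F39fec4.Gf16b4e

set_option autoImplicit false

namespace Pool.Agent.MP_39fec4_gt

open MeasureTheory Set Finset

variable {G : ℝ → ℝ} {η c C τ0 ε : ℝ}

theorem exp_le_one_add_two_mul {y : ℝ} (h0 : 0 ≤ y) (h1 : y ≤ 1) : Real.exp y ≤ 1 + 2 * y := by
  have := Real.abs_exp_sub_one_le (x := y) (by rw [abs_of_nonneg h0]; exact h1)
  rw [abs_of_nonneg h0] at this
  linarith [le_abs_self (Real.exp y - 1)]

/-- One large weight, moderate argument. -/
theorem Pack.farC1 (h : Pack G η c C τ0 ε) (hC : 0 ≤ C)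
    (hsm : 8 * C * η ^ 2 * τ0 * Real.exp (τ0 / 4) ≤ 1) {n : ℕ} (hn : 2 ≤ n) (t : Fin n → ℝ)
    (ht : ∀ j, 0 ≤ t j) (hs : ∑ j, t j = 1) {i : Fin n}
    (hi : 1 / 2 < t i) {s : ℝ} (hsmall : s ^ 2 ≤ 2 * τ0) :
    ∏ j, G (t j * s ^ 2) ≤ G (s ^ 2 / n) ^ n + 110 * C * η ^ 2 := by
  have hn0 : 0 < n := by omega
  have hn' : (0 : ℝ) < n := by exact_mod_cast hn0
  have hn2 : (2 : ℝ) ≤ n := by exact_mod_cast hn
  obtain ⟨H, hH, hH1, hH2⟩ := h.glob
  have hτ0 : ∀ j, 0 ≤ t j * s ^ 2 := fun j => mul_nonneg (ht j) (sq_nonneg _)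
  have hhalf : ∀ j, j ≠ i → t j * s ^ 2 ≤ s ^ 2 / 2 := fun j hj => by
    have := mul_le_mul_of_nonneg_right (other_le_half t ht hs hi hj) (sq_nonneg s)
    linarith
  have hall : ∀ j, j ≠ i → t j * s ^ 2 ≤ τ0 := fun j hj => by linarith [hhalf j hj]
  have hbar0 : 0 ≤ s ^ 2 / n := by positivity
  have hbarh : s ^ 2 / n ≤ s ^ 2 / 2 := div_le_div_of_nonneg_left (sq_nonneg _) two_pos hn2
  have hbar : s ^ 2 / n ≤ τ0 := by linarith
  have hQ0 : 0 ≤ G (s ^ 2 / n) ^ n := pow_nonneg (h.nonneg hbar0 hbar) n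
  have p3 : 0 ≤ C * η ^ 2 := by positivity
  have hsum : ∑ j, t j * s ^ 2 = s ^ 2 := by rw [← Finset.sum_mul, hs, one_mul]
  have hP0 : 0 ≤ ∏ j ∈ Finset.univ.erase i, G (t j * s ^ 2) :=
    Finset.prod_nonneg fun j hj => h.nonneg (hτ0 j) (hall j (Finset.mem_erase.1 hj).1)
  have hP1 : ∏ j ∈ Finset.univ.erase i, G (t j * s ^ 2) ≤ 1 :=
    Finset.prod_le_one (fun j hj => h.nonneg (hτ0 j) (hall j (Finset.mem_erase.1 hj).1))
      fun j _ => (le_abs_self _).trans (h.absle _)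
  rw [← Finset.mul_prod_erase _ _ (Finset.mem_univ i)]
  have a1 := mul_le_mul_of_nonneg_right (hH2 _ (hτ0 i)) hP0
  have a3 := mul_le_mul_of_nonneg_left hP1 p3
  rw [add_mul] at a1
  suffices hW : Real.exp (-(t i * s ^ 2) / 4) * H (t i * s ^ 2) *
      ∏ j ∈ Finset.univ.erase i, G (t j * s ^ 2) ≤ G (s ^ 2 / n) ^ n + 107 * (C * η ^ 2) by
    linarith
  rcases le_or_gt (H (t i * s ^ 2)) 0 with hneg | hpos
  · have : Real.exp (-(t i * s ^ 2) / 4) * H (t i * s ^ 2) *
      ∏ j ∈ Finset.univ.erase i, G (t j * s ^ 2) ≤ 0 :=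
      mul_nonpos_of_nonpos_of_nonneg (mul_nonpos_of_nonneg_of_nonpos (Real.exp_pos _).le hneg) hP0
    linarith
  set z : Fin n → ℝ := fun j => if j = i then H (t i * s ^ 2)
    else Real.exp (t j * s ^ 2 / 4) * G (t j * s ^ 2) with hz
  have hz0 : ∀ j, 0 ≤ z j := fun j => by
    simp only [hz]
    split_ifs with hj
    · exact hpos.le
    · linarith [h.mainlow _ (hτ0 j) (hall j hj)]
  have e1 : Real.exp (-(t i * s ^ 2) / 4) * H (t i * s ^ 2) *
      ∏ j ∈ Finset.univ.erase i, G (t j * s ^ 2) = Real.exp (-s ^ 2 / 4) * ∏ j, z j := by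
    rw [← Finset.mul_prod_erase _ z (Finset.mem_univ i), prod_exp_mul G (fun j => t j * s ^ 2)]
    have b1 : ∏ j ∈ Finset.univ.erase i, z j =
        ∏ j ∈ Finset.univ.erase i, Real.exp (t j * s ^ 2 / 4) * G (t j * s ^ 2) :=
      Finset.prod_congr rfl fun j hj => by simp only [hz, if_neg (Finset.mem_erase.1 hj).1]
    have b2 : z i = H (t i * s ^ 2) := by simp [hz]
    have b3 := Finset.add_sum_erase Finset.univ (fun j => t j * s ^ 2) (Finset.mem_univ i)
    rw [hsum] at b3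
    have b4 : Real.exp (-s ^ 2 / 4) = Real.exp (-(t i * s ^ 2) / 4) *
        Real.exp (-(∑ j ∈ Finset.univ.erase i, t j * s ^ 2) / 4) := by
      rw [← Real.exp_add]; congr 1; linarith
    rw [b1, b2, b4]; ring
  set E := C * η ^ 2 * s ^ 2 * Real.exp (s ^ 2 / 8) with hE
  have hE0 : 0 ≤ E := by positivity
  have hE1 : 4 * E ≤ 1 := by
    have : E ≤ C * η ^ 2 * (2 * τ0) * Real.exp (τ0 / 4) := by
      have : 0 ≤ τ0 := hbar0.trans hbar
      rw [hE]; gcongr C * η ^ 2 * ?_ * Real.exp ?_; linarith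
    linarith
  have hzs : ∑ j, z j ≤ ∑ j, H (t j * s ^ 2) + E := by
    have : E = ∑ j, C * η ^ 2 * (t j * s ^ 2) * Real.exp (s ^ 2 / 8) := by
      rw [← Finset.sum_mul, ← Finset.mul_sum, hsum]
    rw [this, ← Finset.sum_add_distrib]
    refine Finset.sum_le_sum fun j _ => ?_
    simp only [hz]
    split_ifs with hj
    · subst hj
      have := hτ0 j
      have : 0 ≤ C * η ^ 2 * (t j * s ^ 2) * Real.exp (s ^ 2 / 8) := by positivity
      linarith
    · have b1 := (abs_le.1 (hH1 _ (hτ0 j))).2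
      have := hτ0 j
      have b2 : C * η ^ 2 * (t j * s ^ 2) * Real.exp (t j * s ^ 2 / 4) ≤
          C * η ^ 2 * (t j * s ^ 2) * Real.exp (s ^ 2 / 8) := by
        gcongr _ * Real.exp ?_; linarith [hhalf j hj]
      linarith
  have hJ := jensen_mean hn0 hH (fun j => t j * s ^ 2) (fun j => hτ0 j)
  simp only [hsum] at hJ
  have hQ := pow_exp_mul hn0 G (s ^ 2)
  have hHb1 := h.mainlow _ hbar0 hbar
  have hb := (abs_le.1 (hH1 _ hbar0)).1
  have hb2 : C * η ^ 2 * (s ^ 2 / n) * Real.exp (s ^ 2 / n / 4) ≤ E / n := by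
    calc C * η ^ 2 * (s ^ 2 / n) * Real.exp (s ^ 2 / n / 4) ≤
        C * η ^ 2 * (s ^ 2 / n) * Real.exp (s ^ 2 / 8) := by
          gcongr _ * Real.exp ?_; linarith
      _ = E / n := by rw [hE]; ring
  generalize Real.exp (s ^ 2 / n / 4) * G (s ^ 2 / n) = Hb at hQ hHb1 hb
  have hmean : (∑ j, z j) / n ≤ Hb * (1 + 4 * E / n) := by
    have b1 : (∑ j, z j) / n ≤ (∑ j, H (t j * s ^ 2)) / n + E / n := by
      rw [← add_div]; gcongr
    have b2 : 0 ≤ E / n := by positivity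
    have b3 := mul_le_mul_of_nonneg_right hHb1 b2
    have b4 : Hb * (1 + 4 * E / n) = Hb + 4 * (Hb * (E / n)) := by ring
    linarith
  have hAM := (prod_le_mean_pow hn0 z hz0).trans (pow_le_pow_left₀
    (div_nonneg (Finset.sum_nonneg fun j _ => hz0 j) hn'.le) hmean n)
  have hex : (1 + 4 * E / n) ^ n ≤ 1 + 8 * E := by
    calc (1 + 4 * E / n) ^ n ≤ Real.exp (4 * E / n) ^ n := by
          gcongr; linarith [Real.add_one_le_exp (4 * E / n)]
      _ = Real.exp (4 * E) := by rw [← Real.exp_nat_mul]; congr 1; field_simp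
      _ ≤ 1 + 2 * (4 * E) := exp_le_one_add_two_mul (by positivity) hE1
      _ = _ := by ring
  have hQ1 : G (s ^ 2 / n) ^ n ≤ Real.exp (-s ^ 2 / 5) := by
    calc G (s ^ 2 / n) ^ n ≤ Real.exp (-(s ^ 2 / n) / 5) ^ n :=
          pow_le_pow_left₀ (h.nonneg hbar0 hbar) (h.mainup _ hbar0 hbar) n
      _ = _ := by rw [← Real.exp_nat_mul]; congr 1; field_simp
  have hfin : Real.exp (-s ^ 2 / 5) * (8 * E) ≤ 107 * (C * η ^ 2) := by
    have b1 := mul_exp_neg_le (y := 3 * s ^ 2 / 40)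
    have b2 : Real.exp (-s ^ 2 / 5) * (8 * E) =
        (320 / 3) * (C * η ^ 2) * (3 * s ^ 2 / 40 * Real.exp (-(3 * s ^ 2 / 40))) := by
      have : Real.exp (-(3 * s ^ 2 / 40)) = Real.exp (-s ^ 2 / 5) * Real.exp (s ^ 2 / 8) := by
        rw [← Real.exp_add]; congr 1; ring
      rw [this, hE]; ring
    rw [b2]
    have b3 := mul_le_mul_of_nonneg_left b1 (show 0 ≤ (320 / 3) * (C * η ^ 2) by positivity)
    linarith
  rw [e1]
  calc Real.exp (-s ^ 2 / 4) * ∏ j, z j ≤ Real.exp (-s ^ 2 / 4) * (Hb ^ n * (1 + 8 * E)) := by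
        refine mul_le_mul_of_nonneg_left (hAM.trans ?_) (Real.exp_pos _).le
        rw [mul_pow]
        exact mul_le_mul_of_nonneg_left hex (pow_nonneg (by linarith) n)
    _ = G (s ^ 2 / n) ^ n + G (s ^ 2 / n) ^ n * (8 * E) := by rw [hQ]; ring
    _ ≤ G (s ^ 2 / n) ^ n + Real.exp (-s ^ 2 / 5) * (8 * E) := by gcongr
    _ ≤ _ := by linarith

theorem Pack.integrable_prod (h : Pack G η c C τ0 ε) {n : ℕ} (_hn : 0 < n) (t : Fin n → ℝ)
    (hs : ∑ j, t j = 1) : IntegrableOn (fun s : ℝ => ∏ j, G (t j * s ^ 2)) (Ioi 0) := by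
  obtain ⟨i, hi⟩ : ∃ i, 0 < t i := by
    by_contra hh
    push Not at hh
    have := Finset.sum_nonpos (s := Finset.univ) fun j _ => hh j
    linarith
  have hc := h.cont
  refine integrableOn_of_decay (by fun_prop) (fun s => ?_) (K := ε / t i)
    (s1 := 1 + |τ0| / t i) fun s hs1 => ?_
  · rw [Finset.abs_prod]
    exact Finset.prod_le_one (fun _ _ => abs_nonneg _) fun j _ => h.absle _
  · have b0 : 0 ≤ |τ0| / t i := by positivity
    have b1 : |τ0| / t i ≤ s ^ 2 := by nlinarith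
    rw [div_le_iff₀ hi] at b1
    have b2 := h.tail0 (τ := t i * s ^ 2) (by linarith [le_abs_self τ0, abs_nonneg τ0])
    have b3 : |∏ j, G (t j * s ^ 2)| ≤ |G (t i * s ^ 2)| := by
      have := prod_le_abs_single (fun j => |G (t j * s ^ 2)|) (fun j => by
        rw [abs_abs]; exact h.absle _) i
      rwa [abs_abs, ← Finset.abs_prod] at this
    rw [le_div_iff₀ hi]
    have b4 := mul_le_mul_of_nonneg_left b3 (mul_nonneg hi.le (sq_nonneg s))
    linarith

/-- The abstract comparison theorem. -/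
theorem Pack.compare (h : Pack G η c C τ0 ε) {r κ : ℝ} (hr : 0 < r) (hη : η = r ^ 2)
    (hc : 0 < c) (hc1 : c * η ≤ 1) (hC : 0 ≤ C) (hτ : 6 ≤ τ0) (hε : 0 < ε) (h16 : ε ≤ 1 / 16)
    (hsm : 8 * C * η ^ 2 * τ0 * Real.exp (τ0 / 4) ≤ 1) (hτη : 2 * τ0 * η ≤ 1)
    (hκ : κ ≤ c / 10 ^ 11) (hκ1 : κ ≤ 1) (hεκ : ε ≤ κ * r) (hexp : Real.exp (-τ0 / 3) ≤ κ * η)
    (hCκ : C * r ≤ κ) {n : ℕ} (hn : 2 ≤ n) (t : Fin n → ℝ) (ht : ∀ j, 0 ≤ t j)
    (hs : ∑ j, t j = 1) (hne : ∃ j, t j ≠ 1 / n) :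
    ∫ s in Ioi (0 : ℝ), ∏ j, G (t j * s ^ 2) < ∫ s in Ioi (0 : ℝ), G (s ^ 2 / n) ^ n := by
  have hn0 : 0 < n := by omega
  have hn' : (0 : ℝ) < n := by exact_mod_cast hn0
  have hn2 : (2 : ℝ) ≤ n := by exact_mod_cast hn
  have hη0 : 0 < η := by rw [hη]; positivity
  have hκ0 : 0 < κ := by
    by_contra hh
    have := mul_nonpos_of_nonpos_of_nonneg (not_lt.1 hh) hr.le
    linarith
  have hε2 : ε ^ 2 ≤ κ * η := by
    calc ε ^ 2 ≤ (κ * r) ^ 2 := by gcongr
      _ = κ * (κ * η) := by rw [hη]; ring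
      _ ≤ 1 * (κ * η) := by gcongr
      _ = _ := one_mul _
  have iP := h.integrable_prod hn0 t hs
  have iQ : IntegrableOn (fun s : ℝ => G (s ^ 2 / n) ^ n) (Ioi 0) := by
    have := h.integrable_prod hn0 (fun _ => 1 / (n : ℝ)) (by simp; field_simp)
    simpa [div_eq_inv_mul] using this
  have iD := iQ.sub iP
  rw [← sub_pos, ← integral_sub iQ iP]
  set V := ∑ j, (t j - 1 / n) ^ 2 with hV
  have hVj : ∀ j, (t j - 1 / n) ^ 2 ≤ V := fun j =>
    Finset.single_le_sum (f := fun j => (t j - 1 / n) ^ 2) (fun _ _ => sq_nonneg _)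
      (Finset.mem_univ j)
  have hV0 : 0 < V := by
    obtain ⟨j, hj⟩ := hne
    exact lt_of_lt_of_le (by have := sub_ne_zero.2 hj; positivity) (hVj j)
  have hmain := fun s (hh : ∀ j, t j * s ^ 2 ≤ τ0) =>
    h.main (by positivity) hc1 hn t ht hs (s := s) hh
  rw [← hV] at hmain
  have hcηV : 0 < c * η * V := by positivity
  have hκV : κ * η * V ≤ c * η * V / 10 ^ 11 := by
    have := mul_le_mul_of_nonneg_right hκ (mul_pos hη0 hV0).le
    linarith
  have hκV0 : 0 < κ * η * V := by positivity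
  by_cases hnear : ∀ j, |t j - 1 / n| ≤ 1 / 19 / n
  · have hL := integral_lower iD (g := c * η * V / 128) (L1 := 128 * ε ^ 2 * V) (L2 := 0)
      (L3 := 0) (S := 1) one_pos (fun s hs0 => by
        simp only [Pi.sub_apply, zero_div, ite_self, sub_zero]
        rcases le_or_gt (19 / 20 * τ0) (s ^ 2 / n) with hb | hb
        · have a1 := h.near hτ hε h16 hn t hs hnear hs0 hb
          rw [← hV] at a1
          have hs1 : 1 < s := by
            by_contra hh
            have : s ^ 2 ≤ 1 := pow_le_one₀ hs0.le (not_lt.1 hh)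
            have : s ^ 2 / n ≤ 1 := by rw [div_le_one hn']; linarith
            linarith
          rw [if_neg (fun hh => by linarith [hh.2]), if_pos hs1]
          linarith
        · have a1 := hmain s fun j => by
            have b1 := mul_le_mul_of_nonneg_right (abs_le.1 (hnear j)).2 (sq_nonneg s)
            have b2 : (t j - 1 / n) * s ^ 2 = t j * s ^ 2 - s ^ 2 / n := by ring
            have b3 : 1 / 19 / n * s ^ 2 = s ^ 2 / n / 19 := by ring
            linarith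
          have : 0 ≤ if 1 < s then 128 * ε ^ 2 * V / s ^ 2 else 0 := by positivity
          linarith)
    refine lt_of_lt_of_le ?_ hL
    have := mul_le_mul_of_nonneg_right hε2 hV0.le
    linarith
  push Not at hnear
  obtain ⟨j0, hj0⟩ := hnear
  have hVn : 1 / (n : ℝ) ^ 2 ≤ 361 * V := by
    have b1 : (1 / 19 / (n : ℝ)) ^ 2 ≤ |t j0 - 1 / n| ^ 2 := by gcongr
    rw [sq_abs] at b1
    have b2 : (1 / 19 / (n : ℝ)) ^ 2 = 1 / (n : ℝ) ^ 2 / 361 := by ring
    linarith [hVj j0]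
  obtain ⟨i, -, hi⟩ := Finset.exists_max_image Finset.univ t ⟨j0, Finset.mem_univ _⟩
  replace hi : ∀ j, t j ≤ t i := fun j => hi j (Finset.mem_univ j)
  have hT : t i ^ 2 ≤ 1444 * V := by
    rcases le_or_gt (t i) (2 / n) with hh | hh
    · have b1 : t i ^ 2 ≤ (2 / n) ^ 2 := by gcongr; exact ht i
      have b2 : (2 / (n : ℝ)) ^ 2 = 4 * (1 / (n : ℝ) ^ 2) := by ring
      linarith
    · have b1 : 2 / (n : ℝ) = 2 * (1 / n) := by ring
      have b2 : (t i / 2) ^ 2 ≤ (t i - 1 / n) ^ 2 := by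
        gcongr
        · linarith [ht i]
        · linarith
      nlinarith [hVj i]
  have hdiag := fun s (hs0 : 0 < s) => h.diag hτ hε h16 hn hs0
  have hN : 16 * ε ^ 2 / n ^ 2 ≤ 5776 * (κ * η * V) := by
    calc 16 * ε ^ 2 / n ^ 2 = 16 * ε ^ 2 * (1 / (n : ℝ) ^ 2) := by ring
      _ ≤ 16 * (κ * η) * (361 * V) := by gcongr
      _ = _ := by ring
  rcases le_or_gt (t i) (1 / 2) with hT2 | hT2
  · have hL := integral_lower iD (g := c * η * V / 128)
      (L1 := 16 * ε ^ 2 / n ^ 2 + (120 * Real.exp (-τ0 / 3) + 8 * ε ^ 2) * t i ^ 2) (L2 := 0)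
      (L3 := 0) (S := 1) one_pos (fun s hs0 => by
        simp only [Pi.sub_apply, zero_div, ite_self, sub_zero]
        rcases le_or_gt τ0 (t i * s ^ 2) with hb | hb
        · have a1 := h.farB hτ hε h16 t ht hs hi hT2 hs0 hb
          have a2 := hdiag s hs0
          have hs1 : 1 < s := by
            by_contra hh
            have : s ^ 2 ≤ 1 := pow_le_one₀ hs0.le (not_lt.1 hh)
            nlinarith [ht i, sq_nonneg s]
          rw [if_pos hs1] at a2
          rw [if_neg (fun hh => by linarith [hh.2]), if_pos hs1, add_div]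
          linarith
        · have a1 := hmain s fun j => by
            have := mul_le_mul_of_nonneg_right (hi j) (sq_nonneg s)
            linarith
          have : 0 ≤ if 1 < s then (16 * ε ^ 2 / n ^ 2 +
            (120 * Real.exp (-τ0 / 3) + 8 * ε ^ 2) * t i ^ 2) / s ^ 2 else 0 := by positivity
          linarith)
    refine lt_of_lt_of_le ?_ hL
    have b1 : (120 * Real.exp (-τ0 / 3) + 8 * ε ^ 2) * t i ^ 2 ≤
        (120 * (κ * η) + 8 * (κ * η)) * (1444 * V) := by gcongr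
    linarith
  · have hS : 2 * τ0 ≤ (1 / r) ^ 2 := by
      rw [div_pow, one_pow, le_div_iff₀ (by positivity), ← hη]; exact hτη
    have hL := integral_lower iD (g := c * η * V / 128)
      (L1 := 16 * ε ^ 2 / n ^ 2 + (10800 * Real.exp (-τ0 / 3) + 2 * ε ^ 2))
      (L2 := 110 * C * η ^ 2) (L3 := 2 * ε) (S := 1 / r) (by positivity) (fun s hs0 => by
        simp only [Pi.sub_apply]
        have p1 : 0 ≤ if 1 < s then (16 * ε ^ 2 / n ^ 2 +
            (10800 * Real.exp (-τ0 / 3) + 2 * ε ^ 2)) / s ^ 2 else 0 := by positivity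
        have p2 : 0 ≤ if s ≤ 1 / r then 110 * C * η ^ 2 else 0 := by positivity
        have p3 : 0 ≤ if 1 / r < s then 2 * ε / s ^ 2 else 0 := by positivity
        rcases le_or_gt s 1 with hs1 | hs1
        · have a1 := hmain s fun j => by
            have : t j ≤ 1 := hs ▸ Finset.single_le_sum (fun k _ => ht k) (Finset.mem_univ j)
            have : s ^ 2 ≤ 1 := pow_le_one₀ hs0.le hs1
            nlinarith [ht j, sq_nonneg s]
          linarith
        rw [if_neg (fun hh => by linarith [hh.2])]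
        have a2 := hdiag s hs0
        rw [if_pos hs1] at a2 p1 ⊢
        rw [add_div] at p1 ⊢
        have p4 : 0 ≤ (10800 * Real.exp (-τ0 / 3) + 2 * ε ^ 2) / s ^ 2 := by positivity
        have p5 : 0 ≤ 16 * ε ^ 2 / n ^ 2 / s ^ 2 := by positivity
        rcases le_or_gt s (1 / r) with hs2 | hs2
        · rw [if_pos hs2]
          rcases le_or_gt (s ^ 2) (2 * τ0) with hb | hb
          · have a1 := h.farC1 hC hsm hn t ht hs hT2 hb
            linarith
          · have a1 := h.farC2 hτ hε hC hsm t ht hs hT2 hs0 hb.le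
            have : 0 ≤ C * η ^ 2 := by positivity
            linarith
        · rw [if_pos hs2]
          have hb : (1 / r) ^ 2 ≤ s ^ 2 := by gcongr
          have a1 := h.farC3 hτ t hT2 hs0 (hS.trans hb)
          have a3 := prod_le_abs_single (fun j => G (t j * s ^ 2)) (fun j => h.absle _) i
          linarith)
    refine lt_of_lt_of_le ?_ hL
    have b0 : 1 ≤ 5776 * V := by nlinarith
    have b1 : κ * η ≤ 5776 * (κ * η * V) := by
      have := mul_le_mul_of_nonneg_left b0 (mul_pos hκ0 hη0).le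
      linarith
    have b2 : 110 * C * η ^ 2 * (1 / r) ≤ 110 * (κ * η) := by
      calc 110 * C * η ^ 2 * (1 / r) = 110 * (C * r * η) := by rw [hη]; field_simp
        _ ≤ _ := by gcongr
    have b3 : 2 * ε / (1 / r) ≤ 2 * (κ * η) := by
      calc 2 * ε / (1 / r) = 2 * (ε * r) := by field_simp
        _ ≤ 2 * (κ * r * r) := by gcongr
        _ = _ := by rw [hη]; ring
    linarith

end Pool.Agent.MP_39fec4_gt
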