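import Pool.Agent.Mg.F39fec4.G9dbc44
import Pool.Agent.Mg.F39fec4.Ga8298b
import Pool.Agent.Mg.F39fec4.G5d53c7
import Pool.Agent.Mg.F39fec4.G81ba70

set_option autoImplicit false

/-! Reading a record; ranges of products and powers; the refined range. -/

namespace Pool.Agent.MP_39fec4_gt.K

open Set Full

variable {B : Blk} {r a b w k : ℕ} {q y x z : ℝ}

theorem PtOK.inR (h : PtOK B r q y) : InR r (B.g 0 q y) := ⟨h.lo, h.hi⟩
theorem PtOK.gK1 (h : PtOK B r q y) : |B.g 1 q y| ≤ rr (gK1 r) := h.k1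
theorem PtOK.gK2 (h : PtOK B r q y) : |B.g 2 q y| ≤ rr (gK2 r) := by
  have h3 : ro (fld r 56 3) ≤ ro (max (fld r 56 3) (fld r 56 4)) := ro_le.mpr (le_max_left _ _)
  have h4 : ro (fld r 56 4) ≤ ro (max (fld r 56 3) (fld r 56 4)) := ro_le.mpr (le_max_right _ _)
  have h5 := le_max_left (ro (max (fld r 56 3) (fld r 56 4))) 0
  have h1 := h.k2l
  have h2 := h.k2h
  unfold K.gK2
  rw [rr_sub_OFF, abs_le]
  constructor <;> linarith

theorem lo_eq (r : ℕ) : -ro (fld r 56 0) = rr (gLop r) - rr (gNeg r) := by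
  unfold gLop gNeg
  rw [rr_sub_OFF, rr_OFF_sub]
  rcases le_total (ro (fld r 56 0)) 0 with h | h
  · rw [max_eq_left (by linarith), max_eq_right h]
    ring
  · rw [max_eq_right (by linarith), max_eq_left h]
    ring

theorem hi_eq (r : ℕ) : ro (fld r 56 1) = rr (gHip r) - rr (gHin r) := by
  unfold gHip gHin
  rw [rr_sub_OFF, rr_OFF_sub]
  rcases le_total (ro (fld r 56 1)) 0 with h | h
  · rw [max_eq_right h, max_eq_left (by linarith)]
    ring
  · rw [max_eq_left h, max_eq_right (by linarith)]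
    ring

theorem lop_neg (r : ℕ) : gLop r = 0 ∨ gNeg r = 0 := by
  unfold gLop gNeg
  generalize OFF = o
  omega

theorem hip_hin (r : ℕ) : gHip r = 0 ∨ gHin r = 0 := by
  unfold gHip gHin
  generalize OFF = o
  omega

theorem gAB_eq (r : ℕ) : gAB r = max (gNeg r) (gHip r) := by
  unfold gAB gNeg gHip
  generalize OFF = o
  omega

theorem InR.neg (h : InR r z) : -rr (gNeg r) ≤ z := by
  have h1 := h.1
  have h2 := rr_nonneg (gLop r)
  rw [lo_eq] at h1
  linarith

theorem InR.hip (h : InR r z) : z ≤ rr (gHip r) := by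
  have h1 := h.2
  have h2 := rr_nonneg (gHin r)
  rw [hi_eq] at h1
  linarith

theorem InR.lop (h : InR r z) (h0 : 0 < gLop r ∨ gNeg r = 0) : rr (gLop r) ≤ z := by
  have h1 := h.1
  have h2 : gNeg r = 0 := by
    have := lop_neg r
    omega
  rw [lo_eq, h2, rr_zero] at h1
  linarith

theorem InR.hin (h : InR r z) (h0 : 0 < gHin r ∨ gHip r = 0) : z ≤ -rr (gHin r) := by
  have h1 := h.2
  have h2 : gHip r = 0 := by
    have := hip_hin r
    omega
  rw [hi_eq, h2, rr_zero] at h1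
  linarith

theorem InR.abs (h : InR r z) : |z| ≤ rr (gAB r) := by
  have h1 := h.neg
  have h2 := h.hip
  have h3 := le_max_left (rr (gNeg r)) (rr (gHip r))
  have h4 := le_max_right (rr (gNeg r)) (rr (gHip r))
  rw [gAB_eq, rr_max, abs_le]
  constructor <;> linarith

theorem InR.abs_ge (h : InR r z) : rr (max (gLop r) (gHin r)) ≤ |z| := by
  rw [rr_max]
  refine max_le ?_ ?_
  · rcases Nat.eq_zero_or_pos (gLop r) with h0 | h0
    · rw [h0, rr_zero]
      exact abs_nonneg z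
    · exact (h.lop (Or.inl h0)).trans (le_abs_self z)
  · rcases Nat.eq_zero_or_pos (gHin r) with h0 | h0
    · rw [h0, rr_zero]
      exact abs_nonneg z
    · have h1 := h.hin (Or.inl h0)
      have h2 := neg_le_abs z
      linarith

theorem ev_iff (k : ℕ) : ev k = true ↔ Even k := by
  unfold ev
  rw [Nat.beq_eq, Nat.even_iff]

namespace ZFineX

theorem mulD_pos (h : 0 < mulD a b) : 0 < a ∧ 0 < b := by
  unfold mulD at h
  constructor
  · rcases Nat.eq_zero_or_pos a with h0 | h0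
    · simp [h0] at h
    · exact h0
  · rcases Nat.eq_zero_or_pos b with h0 | h0
    · simp [h0] at h
    · exact h0

theorem powD_pos (hk : Odd k) (h : 0 < powD a k) : 0 < a := by
  rcases Nat.eq_zero_or_pos a with h0 | h0
  · have h1 := powD_le a k
    have h2 := rr_pos h
    rw [h0, rr_zero, zero_pow hk.pos.ne'] at h1
    rw [h0] at h2
    linarith
  · exact h0

theorem ll (hx : InR a x) (hy : InR b y) (h : 0 < mulD (gLop a) (gLop b)) :
    rr (mulD (gLop a) (gLop b)) ≤ x * y :=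
  mulD_le_of (hx.lop (Or.inl (mulD_pos h).1)) (hy.lop (Or.inl (mulD_pos h).2))

theorem hh (hx : InR a x) (hy : InR b y) (h : 0 < mulD (gHin a) (gHin b)) :
    rr (mulD (gHin a) (gHin b)) ≤ x * y := by
  have h1 := hx.hin (Or.inl (mulD_pos h).1)
  have h2 := hy.hin (Or.inl (mulD_pos h).2)
  have h3 := mulD_le_of (x := -x) (y := -y) (a := gHin a) (b := gHin b) (by linarith) (by linarith)
  linarith

theorem lh (hx : InR a x) (hy : InR b y) (h : 0 < mulD (gLop a) (gHin b)) :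
    rr (mulD (gLop a) (gHin b)) ≤ -(x * y) := by
  have h1 := hx.lop (Or.inl (mulD_pos h).1)
  have h2 := hy.hin (Or.inl (mulD_pos h).2)
  have h3 := mulD_le_of (x := x) (y := -y) (a := gLop a) (b := gHin b) h1 (by linarith)
  linarith

theorem hl (hx : InR a x) (hy : InR b y) (h : 0 < mulD (gHin a) (gLop b)) :
    rr (mulD (gHin a) (gLop b)) ≤ -(x * y) := by
  have h1 := hx.hin (Or.inl (mulD_pos h).1)
  have h2 := hy.lop (Or.inl (mulD_pos h).2)
  have h3 := mulD_le_of (x := -x) (y := y) (a := gHin a) (b := gLop b) (by linarith) h2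
  linarith

theorem max_le_of {u v : ℕ} {t : ℝ} (hu : 0 < u → rr u ≤ t) (hv : 0 < v → rr v ≤ t)
    (h : 0 < max u v ∨ 0 ≤ t) : rr (max u v) ≤ t := by
  have h0 : 0 ≤ t := by
    rcases h with h | h
    · rcases lt_max_iff.mp h with h | h
      · exact (rr_nonneg u).trans (hu h)
      · exact (rr_nonneg v).trans (hv h)
    · exact h
  rw [rr_max]
  refine max_le ?_ ?_
  · rcases Nat.eq_zero_or_pos u with h1 | h1
    · rwa [h1, rr_zero]
    · exact hu h1
  · rcases Nat.eq_zero_or_pos v with h1 | h1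
    · rwa [h1, rr_zero]
    · exact hv h1

theorem oNeg_eq (a b : ℕ) : oNeg a b = if gNeg a = 0 ∧ gNeg b = 0 then 0
    else max (mulU (gHip a) (gNeg b)) (mulU (gNeg a) (gHip b)) := by
  simp only [oNeg, Bool.cond_eq_ite, Bool.and_eq_true, Nat.beq_eq]

theorem pHi_eq (w k : ℕ) : pHi w k = powU (if Even k then gAB w else gHip w) k := by
  simp only [pHi, Bool.cond_eq_ite, ev_iff]

theorem pNeg_eq (w k : ℕ) : pNeg w k = if Even k ∨ gNeg w = 0 then 0 else powU (gNeg w) k := by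
  simp only [pNeg, Bool.cond_eq_ite, Bool.or_eq_true, ev_iff, Nat.beq_eq]

theorem pLop_eq (w k : ℕ) :
    pLop w k = powD (if Even k then max (gLop w) (gHin w) else gLop w) k := by
  simp only [pLop, Bool.cond_eq_ite, ev_iff]

theorem pHin_eq (w k : ℕ) : pHin w k = if Even k then 0 else powD (gHin w) k := by
  simp only [pHin, Bool.cond_eq_ite, ev_iff]

end ZFineX

open ZFineX

theorem oHi_ge (hx : InR a x) (hy : InR b y) : x * y ≤ rr (oHi a b) := by
  unfold oHi
  rw [rr_max]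
  have h1 := hx.neg
  have h2 := hy.neg
  rcases le_total 0 x with h | h <;> rcases le_total 0 y with h' | h'
  · exact (le_mulU hx.hip hy.hip h').trans (le_max_left _ _)
  · exact (mul_nonpos_of_nonneg_of_nonpos h h').trans ((rr_nonneg _).trans (le_max_left _ _))
  · exact (mul_nonpos_of_nonpos_of_nonneg h h').trans ((rr_nonneg _).trans (le_max_left _ _))
  · have h3 := le_mulU (x := -x) (y := -y) (a := gNeg a) (b := gNeg b) (by linarith) (by linarith)
      (by linarith)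
    rw [neg_mul_neg] at h3
    exact h3.trans (le_max_right _ _)

theorem oNeg_le (hx : InR a x) (hy : InR b y) : -rr (oNeg a b) ≤ x * y := by
  have h1 := hx.neg
  have h2 := hy.neg
  rw [oNeg_eq]
  split_ifs with hc
  · rw [hc.1, rr_zero] at h1
    rw [hc.2, rr_zero] at h2
    rw [rr_zero, neg_zero]
    exact mul_nonneg (by linarith) (by linarith)
  · rw [rr_max]
    have m1 := le_max_left (rr (mulU (gHip a) (gNeg b))) (rr (mulU (gNeg a) (gHip b)))
    have m2 := le_max_right (rr (mulU (gHip a) (gNeg b))) (rr (mulU (gNeg a) (gHip b)))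
    have m0 := rr_nonneg (mulU (gHip a) (gNeg b))
    rcases le_total 0 x with h | h <;> rcases le_total 0 y with h' | h'
    · have := mul_nonneg h h'
      linarith
    · have h3 := le_mulU (x := x) (y := -y) (a := gHip a) (b := gNeg b) hx.hip (by linarith)
        (by linarith)
      linarith
    · have h3 := le_mulU (x := -x) (y := y) (a := gNeg a) (b := gHip b) (by linarith) hy.hip h'
      linarith
    · have := mul_nonneg_of_nonpos_of_nonpos h h'
      linarith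

theorem oLop_le (hx : InR a x) (hy : InR b y) (h : 0 < oLop a b ∨ oNeg a b = 0) :
    rr (oLop a b) ≤ x * y := by
  refine max_le_of (ll hx hy) (hh hx hy) (h.imp id fun h => ?_)
  have h1 := oNeg_le hx hy
  rwa [h, rr_zero, neg_zero] at h1

theorem oHin_ge (hx : InR a x) (hy : InR b y) (h : 0 < oHin a b) : x * y ≤ -rr (oHin a b) := by
  have h1 : rr (oHin a b) ≤ -(x * y) := max_le_of (lh hx hy) (hl hx hy) (Or.inl h)
  linarith

theorem pHin_ge (h : InR w z) (h0 : 0 < pHin w k) : z ^ k ≤ -rr (pHin w k) := by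
  rw [pHin_eq] at h0 ⊢
  split_ifs at h0 ⊢ with hk
  · exact absurd h0 (lt_irrefl 0)
  · have ho := Nat.not_even_iff_odd.mp hk
    have h1 := h.hin (Or.inl (powD_pos ho h0))
    have h2 := powD_le_of (x := -z) (a := gHin w) (by linarith) k
    rw [ho.neg_pow] at h2
    linarith

theorem pHi_ge' (h : InR w z) (k : ℕ) : z ^ k ≤ rr (pHi w k) := by
  rw [pHi_eq]
  split_ifs with hk
  · exact (le_abs_self _).trans (abs_le_powU h.abs k)
  · have ho := Nat.not_even_iff_odd.mp hk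
    exact (ho.strictMono_pow.monotone h.hip).trans (powU_ge _ _)

theorem pHi_ge (h : InR w z) (k : ℕ) : z ^ k ≤ rr (pHi w k) - rr (pHin w k) := by
  rcases Nat.eq_zero_or_pos (pHin w k) with h0 | h0
  · rw [h0, rr_zero, sub_zero]
    exact pHi_ge' h k
  · have h1 := pHin_ge h h0
    have h2 := rr_nonneg (pHi w k)
    linarith

theorem pLop_le (h : InR w z) (k : ℕ) : rr (pLop w k) - rr (pNeg w k) ≤ z ^ k := by
  rw [pLop_eq, pNeg_eq]
  by_cases hk : Even k
  · rw [if_pos hk, if_pos (Or.inl hk), rr_zero, sub_zero, ← hk.pow_abs]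
    exact powD_le_of h.abs_ge k
  · have ho := Nat.not_even_iff_odd.mp hk
    rw [if_neg hk]
    by_cases hn : gNeg w = 0
    · rw [if_pos (Or.inr hn), rr_zero, sub_zero]
      exact powD_le_of (h.lop (Or.inr hn)) k
    · rw [if_neg (fun hc => hc.elim hk hn)]
      have h1 : gLop w = 0 := (lop_neg w).resolve_right hn
      have h2 := powD_le (gLop w) k
      have h3 := powU_ge (gNeg w) k
      have h4 : (-rr (gNeg w)) ^ k ≤ z ^ k := ho.strictMono_pow.monotone h.neg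
      rw [ho.neg_pow] at h4
      rw [h1, rr_zero, zero_pow ho.pos.ne'] at h2
      rw [h1]
      linarith

theorem pNeg_le (h : InR w z) (k : ℕ) : -rr (pNeg w k) ≤ z ^ k := by
  have h1 := pLop_le h k
  have h2 := rr_nonneg (pLop w k)
  linarith

theorem pLop_le' (h : InR w z) (h0 : 0 < pLop w k) : rr (pLop w k) ≤ z ^ k := by
  have h1 := pLop_le h k
  have h2 : pNeg w k = 0 := by
    rw [pNeg_eq, if_pos]
    by_cases hk : Even k
    · exact Or.inl hk
    · rw [pLop_eq, if_neg hk] at h0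
      have h3 := powD_pos (Nat.not_even_iff_odd.mp hk) h0
      have h4 := lop_neg w
      omega
  rwa [h2, rr_zero, sub_zero] at h1

/-- Bounds for the derivatives in `q` on a subinterval of the block. -/
theorem d2_q (hs : ScalOK B) {q0 q1 : ℝ} (h0 : B.qa ≤ q0) (h1 : q1 ≤ B.qb) (hy : 0 ≤ y)
    (hy' : y ≤ 2 ^ 20) (h : ∀ q ∈ B.I, PtOK B r q y) :
    D2 (fun q => B.g 0 q y) 0 q0 q1 (rr (gAB r)) (rr (gD1 r)) (rr (gD2 r)) := by
  refine D2.of_deriv (f1 := fun q => gq1 B.C 0 q y) (f2 := fun q => gq2 B.C 0 q y) fun s hs' => ?_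
  have hI : s ∈ B.I := ⟨h0.trans hs'.1, hs'.2.trans h1⟩
  have hp := (hs.q_pos hI).1
  exact ⟨hasDerivAt_gg_q hs.C_pos hp hy 0, hasDerivAt_gq1_q hs.C_pos hp hy 0, (h s hI).inR.abs,
    (h s hI).d1, (h s hI).d2 hy'⟩

namespace ZFineX

/-- A function with bounded second derivative stays close to the range of its end values. -/
theorem between {f : ℝ → ℝ} {u v A0 A1 A2 s lo hi : ℝ} (hf : D2 f 0 u v A0 A1 A2) (h2 : 0 ≤ A2)
    (hs : s ∈ Icc u v) (hu : lo ≤ f u ∧ f u ≤ hi) (hv : lo ≤ f v ∧ f v ≤ hi) :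
    lo - A2 * (v - u) ^ 2 / 8 ≤ f s ∧ f s ≤ hi + A2 * (v - u) ^ 2 / 8 := by
  obtain ⟨c1, c2⟩ := hf.ch (hs.1.trans hs.2) h2
  have t1 := c1.le_max hs
  have t2 := c2.le_max hs
  have m1 : max (f u) (f v) ≤ hi := max_le hu.2 hv.2
  have m2 : max (-f u) (-f v) ≤ -lo := max_le (neg_le_neg hu.1) (neg_le_neg hv.1)
  constructor <;> linarith

theorem d2_y (hs : ScalOK B) (hq : q ∈ B.I) {u v : ℝ} (hu : 0 ≤ u)
    (h : ∀ y, 0 ≤ y → u ≤ y → y ≤ v → PtOK B r q y) :
    D2 (B.g 0 q) 0 u v (rr (gAB r)) (rr (gK1 r)) (rr (gK2 r)) := by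
  have hm := hs.sm_g hq
  refine ⟨hm.c0.continuousOn, B.g 1 q, B.g 2 q, fun s hs' => ?_⟩
  have h0 : 0 < s := hu.trans_lt hs'.1
  have hp := h s h0.le hs'.1.le hs'.2.le
  exact ⟨hm.d0 s h0, hm.d1 s h0, hp.inR.abs, by simpa using hp.gK1, by simpa using hp.gK2⟩

theorem fld_new {m0 m1 : ℕ} (h0 : m0 < 2 ^ 56) (h1 : m1 < 2 ^ 56) (r : ℕ) :
    fld (m0 + (m1 <<< 56) + ((r >>> 112) <<< 112)) 56 0 = m0 ∧
    fld (m0 + (m1 <<< 56) + ((r >>> 112) <<< 112)) 56 1 = m1 ∧
    ∀ i, fld (m0 + (m1 <<< 56) + ((r >>> 112) <<< 112)) 56 (i + 2) = fld r 56 (i + 2) := by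
  have e : m0 + (m1 <<< 56) + ((r >>> 112) <<< 112) =
      m0 + ((m1 + ((r >>> 112) <<< 56)) <<< 56) := by
    generalize r >>> 112 = t
    simp only [Nat.shiftLeft_eq]
    ring
  rw [e]
  refine ⟨fld_low h0, ?_, fun i => ?_⟩
  · rw [show (1 : ℕ) = 0 + 1 from rfl, fld_high h0, fld_low h1]
  · rw [show i + 2 = i + 1 + 1 from rfl, fld_high h0, fld_high h1]
    unfold fld
    rw [← Nat.shiftRight_add, show 112 + 56 * i = 56 * (i + 1 + 1) by ring]

/-- The range on a short interval from the values of the tables at the four corners. -/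
theorem corners (hs : ScalOK B) (hp : B.Yp ≤ 2 ^ 52) {Va Vb : ℕ → ℕ} (hV : EndOK B Va Vb B.Yp)
    (h : RgOK B r (rr a) (rr (b + 1))) (hb : b < B.Yp) (hq : q ∈ B.I) (h0 : 0 ≤ y)
    (ha : rr a ≤ y) (hy : y ≤ rr b) {lo hi : ℝ}
    (h1 : lo ≤ ri (pev Va a) ∧ ri (pev Va a) ≤ hi) (h2 : lo ≤ ri (pev Va b) ∧ ri (pev Va b) ≤ hi)
    (h3 : lo ≤ ri (pev Vb a) ∧ ri (pev Vb a) ≤ hi) (h4 : lo ≤ ri (pev Vb b) ∧ ri (pev Vb b) ≤ hi) :
    lo - rr (gPe r + mulU (gD2 r) ((B.dm * B.dm) <<< 13) +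
      mulU (gK2 r) (mulU (b - a) (b - a)) / 8 + 1) ≤ B.g 0 q y ∧
    B.g 0 q y ≤ hi + rr (gPe r + mulU (gD2 r) ((B.dm * B.dm) <<< 13) +
      mulU (gK2 r) (mulU (b - a) (b - a)) / 8 + 1) := by
  have hab : a ≤ b := rr_le.mp (ha.trans hy)
  have hqq : B.qa ≤ B.qb := hq.1.trans hq.2
  have hb1 : rr b < rr (b + 1) := rr_lt.mpr (Nat.lt_succ_self b)
  have side : ∀ q' ∈ B.I, ∀ V, VOK B.C q' V B.Yp → lo ≤ ri (pev V a) ∧ ri (pev V a) ≤ hi →
      lo ≤ ri (pev V b) ∧ ri (pev V b) ≤ hi →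
      lo - rr (gPe r) - rr (gK2 r) * (rr b - rr a) ^ 2 / 8 ≤ B.g 0 q' y ∧
      B.g 0 q' y ≤ hi + rr (gPe r) + rr (gK2 r) * (rr b - rr a) ^ 2 / 8 := by
    intro q' hq' V hV' e1 e2
    have p1 := abs_le.mp (h.pe a le_rfl ((rr_le.mpr hab).trans_lt hb1) (hab.trans_lt hb) q' hq' V
      hV' (rr a) le_rfl (rr_succ a))
    have p2 := abs_le.mp (h.pe b (rr_le.mpr hab) hb1 hb q' hq' V hV' (rr b) le_rfl (rr_succ b))
    refine between (d2_y hs hq' (rr_nonneg a) fun s s0 s1 s2 => h.pt q' hq' s s0 s1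
      (s2.trans hb1.le)) (rr_nonneg _) ⟨ha, hy⟩ ?_ ?_
    · unfold gPe
      constructor <;> linarith [p1.1, p1.2, e1.1, e1.2]
    · unfold gPe
      constructor <;> linarith [p2.1, p2.2, e2.1, e2.2]
  have hy' : y ≤ 2 ^ 20 := by
    have t1 : rr b ≤ rr (2 ^ 52) := rr_le.mpr (hb.le.trans hp)
    have t2 : rr (2 ^ 52) ≤ 2 ^ 20 := by
      unfold rr
      norm_num
    linarith
  have key := between (d2_q hs le_rfl le_rfl h0 hy' fun q' hq' => h.pt q' hq' y h0 ha
    (hy.trans hb1.le)) (rr_nonneg _) hq (side B.qa ⟨le_rfl, hqq⟩ Va hV.1 h1 h2)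
    (side B.qb ⟨hqq, le_rfl⟩ Vb hV.2 h3 h4)
  have e1 : rr (gD2 r) * (B.qb - B.qa) ^ 2 / 8 ≤ rr (mulU (gD2 r) ((B.dm * B.dm) <<< 13)) := by
    refine le_trans (le_of_eq ?_) (mulU_ge _ _)
    rw [hs.dm_eq.2, rr_shl]
    generalize rr (gD2 r) = t
    unfold rr
    push_cast
    ring
  have e2 : rr (gK2 r) * (rr b - rr a) ^ 2 / 8 ≤
      rr (mulU (gK2 r) (mulU (b - a) (b - a)) / 8 + 1) := by
    refine le_trans ?_ (rr_div_lt _ (by norm_num : 0 < 8)).le
    have t1 := mulU_ge (b - a) (b - a)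
    have t2 := mulU_ge (gK2 r) (mulU (b - a) (b - a))
    have t3 := mul_le_mul_of_nonneg_left t1 (rr_nonneg (gK2 r))
    rw [← rr_sub hab, sq]
    push_cast
    linarith
  rw [Nat.add_assoc, rr_add, rr_add]
  constructor <;> linarith [key.1, key.2]

end ZFineX

theorem fine_sound (hs : ScalOK B) (hp : B.Yp ≤ 2 ^ 52) {Va Vb : ℕ → ℕ} (hV : EndOK B Va Vb B.Yp)
    (h : RgOK B r (rr a) (rr (b + 1))) : RgOK B (fine B Va Vb r a b) (rr a) (rr b) := by
  simp only [fine, forceN_eq, forceI_eq, Bool.cond_eq_ite, Nat.blt_eq]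
  split_ifs with hb
  swap
  · exact h.sub le_rfl (rr_succ b)
  generalize he : gPe r + mulU (gD2 r) ((B.dm * B.dm) <<< 13) +
    mulU (gK2 r) (mulU (b - a) (b - a)) / 8 + 1 = e
  generalize hlo : min (min (pev Va a) (pev Va b)) (min (pev Vb a) (pev Vb b)) = zl
  generalize hhi : max (max (pev Va a) (pev Va b)) (max (pev Vb a) (pev Vb b)) = zh
  obtain ⟨f0, f1, f2⟩ := fld_new (m0 := min (fld r 56 0) (ofs (-zl) + e))
    (m1 := min (fld r 56 1) (ofs zh + e)) ((min_le_left _ _).trans_lt (fld_lt _ _ _))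
    ((min_le_left _ _).trans_lt (fld_lt _ _ _)) r
  generalize min (fld r 56 0) (ofs (-zl) + e) + (min (fld r 56 1) (ofs zh + e) <<< 56) +
    ((r >>> 112) <<< 112) = r' at f0 f1 f2 ⊢
  refine ⟨fun q hq y h0 ha hy => ?_, fun y ha hy hY => ?_⟩
  · have hp' := h.pt q hq y h0 ha (hy.trans (rr_succ b))
    have key := corners hs hp hV h hb hq h0 ha hy (lo := ri zl) (hi := ri zh)
      ⟨ri_le.mpr (by omega), ri_le.mpr (by omega)⟩ ⟨ri_le.mpr (by omega), ri_le.mpr (by omega)⟩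
      ⟨ri_le.mpr (by omega), ri_le.mpr (by omega)⟩ ⟨ri_le.mpr (by omega), ri_le.mpr (by omega)⟩
    rw [he] at key
    refine ⟨?_, ?_, ?_, ?_, ?_, ?_, ?_, ?_, ?_, ?_⟩
    · rw [f0]
      rcases min_choice (fld r 56 0) (ofs (-zl) + e) with hm | hm <;> rw [hm]
      · exact hp'.lo
      · have t := ro_ofs (-zl)
        rw [ri_neg] at t
        rw [ro_add]
        linarith [key.1]
    · rw [f1]
      rcases min_choice (fld r 56 1) (ofs zh + e) with hm | hm <;> rw [hm]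
      · exact hp'.hi
      · have t := ro_ofs zh
        rw [ro_add]
        linarith [key.2]
    · exact (f2 0).symm ▸ hp'.k1
    · exact (f2 1).symm ▸ hp'.k2l
    · exact (f2 2).symm ▸ hp'.k2h
    · exact (f2 3).symm ▸ hp'.l1
    · exact (f2 4).symm ▸ hp'.l2
    · exact (f2 5).symm ▸ hp'.nc
    · exact (f2 6).symm ▸ hp'.d1
    · exact (f2 7).symm ▸ hp'.d2
  · exact (f2 8).symm ▸ h.pe y ha (hy.trans_le (rr_succ b)) hY

end Pool.Agent.MP_39fec4_gt.K
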