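import Pool.Agent.Mg.F39fec4.Gef3640
import Pool.Agent.Mg.F39fec4.G800f93

section

set_option autoImplicit false

namespace Pool.Agent.MP_39fec4_gt.Full

open MeasureTheory Set Real Ball P4

/-- The constant in the cubic decay estimate, valid for `Q0 ≤ q ≤ Q1`. -/
noncomputable def c3 (Q0 Q1 : ℝ) : ℝ := (1 - 0.227 * Q0) ^ 2 *
  (2 / Q0 ^ 2 * (0.37 + 0.18 * (1 - 2 * Q0)) +
    2 / Q0 * (1 / Q0 - 1) * (1 - 0.63 * (1 - 2 * Q1)))

namespace FC3X

open Filter Topology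

variable {p r : ℝ}

/-- The derivative of `Ball.W p r`. -/
noncomputable def DW (p r y : ℝ) : ℝ := r * Ball.W p (r - 1) y - p * bp p * Ball.W p (r + p - 1) y

theorem int_DW (hp : 2 < p) (hr : 0 < r) : IntegrableOn (DW p r) (Ioi 0) :=
  ((Ball.int_W hp (by linarith)).const_mul _).sub ((Ball.int_W hp (by linarith)).const_mul _)

theorem hasDerivAt_W (hp : 2 < p) {y : ℝ} (hy : 0 < y) : HasDerivAt (Ball.W p r) (DW p r y) y := by
  have := (Real.hasDerivAt_rpow_const (x := y) (p := r) (Or.inl hy.ne')).mul (hasDerivAt_K hp y)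
  refine this.congr_deriv ?_
  simp only [DW, rho, Ball.W]
  rw [show r + p - 1 = r + (p - 1) by ring, Real.rpow_add hy]
  ring

theorem cont_W (hp : 2 < p) (hr : 0 < r) : Continuous (Ball.W p r) := by
  have c1 : Continuous fun y : ℝ => y ^ r := Real.continuous_rpow_const hr.le
  have c2 := cont_K hp
  unfold Ball.W; fun_prop

theorem W_zero (hr : 0 < r) : Ball.W p r 0 = 0 := by simp [Ball.W, Real.zero_rpow hr.ne']

theorem integral_DW (hp : 2 < p) (hr : 0 < r) {a : ℝ} (ha : 0 ≤ a) :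
    ∫ y in Ioi a, DW p r y = -Ball.W p r a := by
  have hinf := tendsto_zero_of_hasDerivAt_of_integrableOn_Ioi (a := 0)
    (fun x hx => hasDerivAt_W (r := r) hp hx) (int_DW hp hr) (Ball.int_W hp (by linarith))
  have := integral_Ioi_of_hasDerivAt_of_tendsto (a := a)
    (cont_W hp hr).continuousWithinAt (fun x hx => hasDerivAt_W hp (ha.trans_lt hx))
    ((int_DW hp hr).mono_set (Ioi_subset_Ioi ha)) hinf
  rw [this, zero_sub]

theorem DW_eq {y : ℝ} (hy : 0 < y) : DW p r y = (r - p * bp p * y ^ p) * Ball.W p (r - 1) y := by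
  simp only [DW, Ball.W]
  rw [show r + p - 1 = p + (r - 1) by ring, Real.rpow_add hy]
  ring

/-- The total variation of `Ball.W p r` is twice its maximum. -/
theorem tv_W (hp : 2 < p) (hr : 0 < r) {a M : ℝ}
    (hM : ∀ y, 0 < y → a * Ball.W p r y ≤ M) : a * ∫ y in Ioi (0 : ℝ), |DW p r y| ≤ 2 * M := by
  have hb := bp_pos hp
  have hp0 : 0 < p := by linarith
  set c : ℝ := (r / (p * bp p)) ^ (1 / p) with hc
  have hc0 : 0 < c := by positivity
  have hcp : p * bp p * c ^ p = r := by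
    rw [hc, ← Real.rpow_mul (by positivity), one_div_mul_cancel hp0.ne', Real.rpow_one]
    field_simp
  have hW : ∀ y, 0 < y → 0 ≤ Ball.W p (r - 1) y := fun y hy => by
    have := K_pos p y
    unfold Ball.W; positivity
  have hi := int_DW hp hr
  have hu : Ioi (0 : ℝ) = Ioc 0 c ∪ Ioi c := (Ioc_union_Ioi_eq_Ioi hc0.le).symm
  have hs1 : Ioc (0 : ℝ) c ⊆ Ioi 0 := Ioc_subset_Ioi_self
  have hs2 : Ioi c ⊆ Ioi (0 : ℝ) := Ioi_subset_Ioi hc0.le
  have e0 := setIntegral_union (Ioc_disjoint_Ioi_same (a := (0 : ℝ)) (b := c)) measurableSet_Ioi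
    (hi.mono_set hs1) (hi.mono_set hs2)
  have e1 := setIntegral_union (f := fun y => |DW p r y|)
    (Ioc_disjoint_Ioi_same (a := (0 : ℝ)) (b := c)) measurableSet_Ioi
    ((hi.mono_set hs1).abs) ((hi.mono_set hs2).abs)
  rw [← hu] at e0 e1
  have e2 : ∫ y in Ioc (0 : ℝ) c, |DW p r y| = ∫ y in Ioc (0 : ℝ) c, DW p r y := by
    refine setIntegral_congr_fun measurableSet_Ioc fun y hy => abs_of_nonneg ?_
    rw [DW_eq hy.1]
    refine mul_nonneg ?_ (hW y hy.1)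
    have : y ^ p ≤ c ^ p := Real.rpow_le_rpow hy.1.le hy.2 hp0.le
    have := mul_le_mul_of_nonneg_left this (show 0 ≤ p * bp p by positivity)
    linarith
  have e3 : ∫ y in Ioi c, |DW p r y| = -∫ y in Ioi c, DW p r y := by
    rw [← integral_neg]
    refine setIntegral_congr_fun measurableSet_Ioi fun y hy => abs_of_nonpos ?_
    have hy0 : 0 < y := hc0.trans hy
    rw [DW_eq hy0]
    refine mul_nonpos_of_nonpos_of_nonneg ?_ (hW y hy0)
    have : c ^ p ≤ y ^ p := Real.rpow_le_rpow hc0.le (le_of_lt hy) hp0.le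
    have := mul_le_mul_of_nonneg_left this (show 0 ≤ p * bp p by positivity)
    linarith
  rw [integral_DW hp hr le_rfl, integral_DW hp hr hc0.le, W_zero hr] at e0
  rw [e1, e2, e3, integral_DW hp hr hc0.le]
  have := hM c hc0
  have e4 : ∫ y in Ioc (0 : ℝ) c, DW p r y = Ball.W p r c := by linarith
  rw [e4]
  linarith

theorem chord {w t : ℝ} (hw : 0 ≤ w) (h0 : 0 ≤ t) (h1 : t ≤ 1) :
    w ^ t * Real.exp (-w) ≤ 1 - 0.63 * t ∧ w * w ^ t * Real.exp (-w) ≤ 0.37 + 0.18 * t := by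
  have hg := Real.geom_mean_le_arith_mean2_weighted (w₁ := 1 - t) (w₂ := t) (p₁ := 1) (p₂ := w)
    (by linarith) h0 zero_le_one hw (by ring)
  rw [Real.one_rpow, one_mul, mul_one] at hg
  have he := Real.exp_neg_one_lt_d9
  have he0 := Real.exp_pos (-1)
  have hE := Real.exp_pos (-w)
  have a0 : Real.exp (-w) ≤ 1 := Real.exp_le_one_iff.2 (by linarith)
  have key : ∀ u : ℝ, u * Real.exp (-u) ≤ Real.exp (-1) := fun u => by
    have h2 := Real.add_one_le_exp (u - 1)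
    have h3 : Real.exp (u - 1) * Real.exp (-u) = Real.exp (-1) := by
      rw [← Real.exp_add]; congr 1; ring
    have := mul_le_mul_of_nonneg_right h2 (Real.exp_pos (-u)).le
    linarith
  have a1 : w * Real.exp (-w) ≤ 0.37 := (key w).trans (by linarith)
  have a2 : w * w * Real.exp (-w) ≤ 0.55 := by
    have h2 := key (w / 2)
    have h3 : Real.exp (-w) = Real.exp (-(w / 2)) * Real.exp (-(w / 2)) := by
      rw [← Real.exp_add]; congr 1; ring
    have h4 : 0 ≤ w / 2 * Real.exp (-(w / 2)) := by positivity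
    have h5 := mul_le_mul h2 h2 h4 he0.le
    rw [h3]
    nlinarith
  have b1 := mul_le_mul_of_nonneg_right hg hE.le
  have b2 := mul_le_mul_of_nonneg_left b1 hw
  constructor
  · nlinarith
  · nlinarith

theorem W_bounds (hp : 2 < p) {y : ℝ} (hy : 0 < y) :
    bp p * Ball.W p (p - 2) y ≤ Zp p ^ 2 * (1 - 0.63 * (1 - 2 / p)) ∧
      bp p ^ 2 * Ball.W p (2 * p - 2) y ≤ Zp p ^ 2 * (0.37 + 0.18 * (1 - 2 / p)) := by
  have hZ := Zp_pos hp
  have hp0 : 0 < p := by linarith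
  have ht : 2 / p < 1 := by rwa [div_lt_one hp0]
  have ht0 : 0 < 2 / p := by positivity
  have hw : 0 ≤ bp p * y ^ p := by have := bp_pos hp; positivity
  obtain ⟨c1, c2⟩ := chord hw (t := 1 - 2 / p) (by linarith) (by linarith)
  have e1 : bp p * y ^ (p - 2) = Zp p ^ 2 * (bp p * y ^ p) ^ (1 - 2 / p) := by
    rw [bp, ← Real.mul_rpow hZ.le hy.le, ← Real.rpow_mul (by positivity),
      show p * (1 - 2 / p) = p - 2 by field_simp, Real.mul_rpow hZ.le hy.le, ← mul_assoc,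
      ← Real.rpow_two, ← Real.rpow_add hZ]
    congr 2; ring
  have e2 : y ^ (2 * p - 2) = y ^ p * y ^ (p - 2) := by
    rw [← Real.rpow_add hy]; congr 1; ring
  have hZ2 : 0 ≤ Zp p ^ 2 := by positivity
  constructor
  · have := mul_le_mul_of_nonneg_left c1 hZ2
    calc bp p * Ball.W p (p - 2) y = (bp p * y ^ (p - 2)) * Real.exp (-(bp p * y ^ p)) := by
          simp only [Ball.W, K, neg_mul]; ring
      _ ≤ _ := by rw [e1]; linarith
  · have := mul_le_mul_of_nonneg_left c2 hZ2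
    calc bp p ^ 2 * Ball.W p (2 * p - 2) y =
          (bp p * y ^ p) * (bp p * y ^ (p - 2)) * Real.exp (-(bp p * y ^ p)) := by
          simp only [Ball.W, K, neg_mul]; rw [e2]; ring
      _ ≤ _ := by rw [e1]; linarith

theorem cubic (hp : 2 < p) (s : ℝ) : |s * (s * (s * ff p s))| ≤
    Zp p ^ 2 * (2 * p ^ 2 * (0.37 + 0.18 * (1 - 2 / p)) +
      2 * p * (p - 1) * (1 - 0.63 * (1 - 2 / p))) := by
  have hb := bp_pos hp
  have hp0 : 0 < p := by linarith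
  have hr1 : 0 < p - 1 := by linarith
  have hr2 : 0 < p - 2 := by linarith
  have hr3 : 0 < 2 * p - 2 := by linarith
  set A : ℝ := p * bp p * (p - 1) with hA
  set B : ℝ := (p * bp p) ^ 2 with hB
  have hA0 : 0 ≤ A := by positivity
  have hB0 : 0 ≤ B := by positivity
  set r1 : ℝ → ℝ := fun y => A * Ball.W p (p - 2) y - B * Ball.W p (2 * p - 2) y with hr1d
  set r2 : ℝ → ℝ := fun y => A * DW p (p - 2) y - B * DW p (2 * p - 2) y with hr2d
  have i1 : IntegrableOn r1 (Ioi 0) :=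
    ((Ball.int_W hp (by linarith)).const_mul _).sub ((Ball.int_W hp (by linarith)).const_mul _)
  have i2 : IntegrableOn r2 (Ioi 0) :=
    ((int_DW hp hr2).const_mul _).sub ((int_DW hp hr3).const_mul _)
  have hd : ∀ y, 0 < y → HasDerivAt (rho p) (r1 y) y := fun y hy => by
    refine ((hasDerivAt_W (r := p - 1) hp hy).const_mul (p * bp p)).congr_deriv ?_
    simp only [hr1d, DW, hA, hB]
    rw [show p - 1 - 1 = p - 2 by ring, show p - 1 + p - 1 = 2 * p - 2 by ring]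
    ring
  have hd2 : ∀ y, 0 < y → HasDerivAt r1 (r2 y) y := fun y hy =>
    ((hasDerivAt_W hp hy).const_mul A).sub ((hasDerivAt_W hp hy).const_mul B)
  have h0 : Tendsto (rho p) (𝓝[>] 0) (𝓝 0) := by
    have c : Continuous (rho p) := continuous_const.mul (cont_W hp hr1)
    have := (c.tendsto 0).mono_left (nhdsWithin_le_nhds (s := Ioi 0))
    rwa [show rho p 0 = 0 by rw [rho, W_zero hr1, mul_zero]] at this
  have c1 : Continuous r1 :=
    (continuous_const.mul (cont_W hp hr2)).sub (continuous_const.mul (cont_W hp hr3))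
  have e1 := parts_sin (int_rho0 hp) i1 hd h0 s
  have e2 := parts_cos i1 i2 hd2 ((c1.tendsto 0).mono_left (nhdsWithin_le_nhds (s := Ioi 0))) s
  rw [x_mul_ff hp, e1, e2, abs_neg]
  have j1 : IntegrableOn (fun y => A * |DW p (p - 2) y|) (Ioi 0) :=
    (int_DW hp hr2).abs.const_mul A
  have j2 : IntegrableOn (fun y => B * |DW p (2 * p - 2) y|) (Ioi 0) :=
    (int_DW hp hr3).abs.const_mul B
  have h1 := abs_sinT_le (k := r2) (j1.add j2) (fun y _ => by
    refine (abs_sub _ _).trans ?_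
    rw [abs_mul A, abs_mul B, abs_of_nonneg hA0, abs_of_nonneg hB0]
    exact le_rfl) s
  refine h1.trans ?_
  simp only [Pi.add_apply]
  rw [integral_add j1 j2, integral_const_mul, integral_const_mul]
  have t1 := tv_W hp hr2 fun y hy => (W_bounds hp hy).1
  have t2 := tv_W hp hr3 fun y hy => (W_bounds hp hy).2
  have u1 := mul_le_mul_of_nonneg_left t1 (show 0 ≤ p * (p - 1) by positivity)
  have u2 := mul_le_mul_of_nonneg_left t2 (show 0 ≤ p ^ 2 by positivity)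
  rw [hA, hB]
  nlinarith

end FC3X

theorem ff_cubic {q Q0 Q1 : ℝ} (h0 : 0 < Q0) (h1 : Q0 ≤ q) (h2 : q ≤ Q1) (h3 : Q1 < 1 / 2)
    {v : ℝ} (hv : 0 ≤ v) : |ff (1 / q) v| * v ^ 3 ≤ c3 Q0 Q1 := by
  have hq : 0 < q := h0.trans_le h1
  have hp : 2 < 1 / q := by rw [lt_div_iff₀ hq]; linarith
  have h := FC3X.cubic hp v
  have e : |v * (v * (v * ff (1 / q) v))| = |ff (1 / q) v| * v ^ 3 := by
    rw [abs_mul, abs_mul, abs_mul, abs_of_nonneg hv]; ring
  have e2 : 2 / (1 / q) = 2 * q := by field_simp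
  rw [e, e2] at h
  refine h.trans ?_
  have hZ0 := (Zp_pos hp).le
  have hZ : Zp (1 / q) ≤ 1 - 0.227 * Q0 := by
    have := gamma_le hq.le (by linarith)
    rw [Zp, one_div_one_div]
    linarith
  have hP : 1 / q ≤ 1 / Q0 := one_div_le_one_div_of_le h0 h1
  have e3 : 2 / Q0 ^ 2 = 2 * (1 / Q0) ^ 2 := by field_simp
  have e4 : 2 / Q0 = 2 * (1 / Q0) := by field_simp
  have n1 : 0 ≤ 0.37 + 0.18 * (1 - 2 * q) := by linarith
  have n2 : 0 ≤ 1 - 0.63 * (1 - 2 * q) := by linarith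
  have n3 : 0 ≤ 1 / q - 1 := by linarith
  have n4 : 0 ≤ 1 / Q0 - 1 := by linarith
  have n5 : 0 ≤ 1 / q := by linarith
  rw [c3, e3, e4]
  gcongr

theorem dec_cubic {C q Q0 Q1 y : ℝ} (hC : 0 < C) (h0 : 0 < Q0) (h1 : Q0 ≤ q) (h2 : q ≤ Q1)
    (h3 : Q1 < 1 / 2) (hy : 0 < y) : |gg C 0 q y| ≤ c3 Q0 Q1 / (mu C q ^ 3 * (y * √y)) := by
  have hq : 0 < q := h0.trans_le h1
  have hm : 0 < mu C q := mu_pos hC (by linarith)
  have hs : 0 < √y := Real.sqrt_pos.2 hy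
  have h := ff_cubic h0 h1 h2 h3 (v := mu C q * √y) (by positivity)
  rw [gg_eq_ff hC hq (by linarith) hy.le, le_div_iff₀ (by positivity)]
  have e : (mu C q * √y) ^ 3 = mu C q ^ 3 * (y * √y) := by
    rw [mul_pow, pow_succ √y 2, Real.sq_sqrt hy.le]
  rwa [e] at h

end Pool.Agent.MP_39fec4_gt.Full

end

section

set_option autoImplicit false

/-! The meaning of the numbers handled by the computing layer. -/

namespace Pool.Agent.MP_39fec4_gt.K

open Set Full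

/-- The real number behind a fixed point number. -/
noncomputable def rr (a : ℕ) : ℝ := (a : ℝ) / 2 ^ 40

noncomputable def ri (a : ℤ) : ℝ := (a : ℝ) / 2 ^ 40

/-- A field stored with the offset `OFF`. -/
noncomputable def ro (a : ℕ) : ℝ := ((a : ℝ) - OFF) / 2 ^ 40

/-- The normalising constant. -/
noncomputable def Cc (R : ℕ) : ℝ := 160 / ((R : ℝ) / 2 ^ 32) ^ 4096

/-- The table of the Gamma function is correct. -/
def GamOK (G : ℕ → ℕ) : Prop := ∀ f, f < 4096 → G f = gamE f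

/-- The table `V` holds the Taylor coefficients at the centres of the cells meeting `[0, Y)`. -/
def VOK (C q : ℝ) (V : ℕ → ℕ) (Y : ℕ) : Prop := ∀ y, y < Y → ∀ j, j ≤ 4 →
  |Full.gg C j q (rr (vctr y)) / (j.factorial : ℝ) - ri (vco (V (vidx y)) j)| ≤ 2 / 2 ^ 40

noncomputable def Blk.C (B : Blk) : ℝ := Cc B.R

noncomputable def Blk.qa (B : Blk) : ℝ := (B.m0 : ℝ) / 4096

noncomputable def Blk.qb (B : Blk) : ℝ := (B.m9 : ℝ) / 4096

/-- The exponent at the vertex `v`. -/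
noncomputable def Blk.q (B : Blk) (v : ℕ) : ℝ := (B.qv v : ℝ) / 4096

/-- The exponents of the block. -/
def Blk.I (B : Blk) : Set ℝ := Icc B.qa B.qb

/-- The profile and its derivatives. -/
noncomputable def Blk.g (B : Blk) (j : ℕ) (q : ℝ) : ℝ → ℝ := Full.gg B.C j q

/-- The first twisted derivative. -/
noncomputable def Blk.L1 (B : Blk) (q y : ℝ) : ℝ := B.g 1 q y + rr B.lam * B.g 0 q y

noncomputable def Blk.L2 (B : Blk) (q y : ℝ) : ℝ :=
  B.g 2 q y + 2 * rr B.lam * B.g 1 q y + rr B.lam ^ 2 * B.g 0 q y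

/-- What the scalars of a block mean. -/
structure ScalOK (B : Blk) : Prop where
  a0 : 128 ≤ B.m0
  b0 : B.m9 < 2048
  nv : 2 ≤ B.nv
  st : 0 < B.st
  R0 : 0 < B.R
  mL0 : 0 < B.mL
  mL3 : 0 < powD B.mL 3
  hmu : ∀ q ∈ B.I, rr B.mL ≤ mu B.C q ∧ mu B.C q ≤ rr B.mH
  m1 : ∀ q ∈ B.I, |mu1 B.C q| ≤ rr B.m1
  tau : ∀ q ∈ B.I, |Real.log 2 + mu1 B.C q / mu B.C q| ≤ rr B.tau
  tauL : B.tauL = 0 ∨ ∀ q ∈ B.I, rr B.tauL ≤ Real.log 2 + mu1 B.C q / mu B.C q
  n1 : ∀ q ∈ B.I, nu B.C q ≤ rr B.n1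
  n2 : ∀ q ∈ B.I, nu B.C (2 * q) ≤ rr B.n2
  n3 : ∀ q ∈ B.I, nu B.C (3 * q) ≤ rr B.n3
  n4 : ∀ q ∈ B.I, nu B.C (4 * q) ≤ rr B.n4
  n5 : ∀ q ∈ B.I, nu B.C (5 * q) ≤ rr B.n5
  nr : rr B.n1 / rr B.mL ≤ rr B.nr
  be : 2 * rr B.m1 / rr B.mL ≤ rr B.be
  rh : rr B.be * (B.qb - B.qa) / 2 + rr B.nr * (B.qb - B.qa) ^ 2 / 8 < 1
  fac : 1 ≤ rr B.fac * (1 - (rr B.be * (B.qb - B.qa) / 2 + rr B.nr * (B.qb - B.qa) ^ 2 / 8))
  m2r : ∀ q ∈ B.I, mu B.C (2 * q) / mu B.C q ≤ rr B.m2r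
  m5r : ∀ q ∈ B.I, mu B.C (5 * q) / mu B.C q ≤ rr B.m5r
  a5 : ∀ q ∈ B.I, ∀ y, |B.g 5 q y| ≤ rr B.a5
  c3r : ∀ q ∈ B.I, ∀ y, 0 < y → |B.g 0 q y| ≤ rr B.c3r / (y * √y)
  hkap : ∀ q ∈ B.I, rr B.kl ≤ kap B.C q ∧ kap B.C q ≤ rr B.kh
  d1g : ∀ q ∈ B.I, ∀ y, 0 ≤ y → |gq1 B.C 0 q y| ≤ rr B.d1g
  lam : B.lam ≤ SS
  g1 : ∀ q ∈ B.I, ∀ y, |B.g 1 q y| ≤ 1
  sm : B.n1 + B.n2 + B.n3 + B.n4 + B.n5 + B.a5 ≤ 2 ^ 60

/-- What the first ten fields of a record say at one point. -/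
structure PtOK (B : Blk) (r : ℕ) (q y : ℝ) : Prop where
  lo : -ro (fld r 56 0) ≤ B.g 0 q y
  hi : B.g 0 q y ≤ ro (fld r 56 1)
  k1 : |B.g 1 q y| ≤ rr (fld r 56 2)
  k2l : -ro (fld r 56 3) ≤ B.g 2 q y
  k2h : B.g 2 q y ≤ ro (fld r 56 4)
  l1 : |B.L1 q y| ≤ rr (fld r 56 5)
  l2 : |B.L2 q y| ≤ rr (fld r 56 6)
  nc : fld r 56 7 < INV → 0 < B.g 0 q y →
    B.g 0 q y * B.g 2 q y - B.g 1 q y ^ 2 ≤ ro (fld r 56 7) * B.g 0 q y ^ 2
  d1 : |gq1 B.C 0 q y| ≤ rr (fld r 56 8)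
  d2 : y ≤ 2 ^ 20 → |gq2 B.C 0 q y| ≤ rr (fld r 56 9)

/-- The number `z` lies in the range stored in the record `r`. -/
def InR (r : ℕ) (z : ℝ) : Prop := -ro (fld r 56 0) ≤ z ∧ z ≤ ro (fld r 56 1)

/-- The number `e` bounds the error of `pev` at `y`, for arguments within one unit above. -/
def PeOK (B : Blk) (e y : ℕ) : Prop := ∀ q ∈ B.I, ∀ V, VOK B.C q V B.Yp → ∀ u : ℝ,
  rr y ≤ u → u ≤ rr (y + 1) → |B.g 0 q u - ri (pev V y)| ≤ rr e

/-- The record `r` is valid on `[lo, hi]`. -/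
structure RgOK (B : Blk) (r : ℕ) (lo hi : ℝ) : Prop where
  pt : ∀ q ∈ B.I, ∀ y, 0 ≤ y → lo ≤ y → y ≤ hi → PtOK B r q y
  pe : ∀ y : ℕ, lo ≤ rr y → rr y < hi → y < B.Yp → PeOK B (fld r 56 10) y

/-- The four further fields of a record made from the tables. -/
structure MkOK (B : Blk) (r : ℕ) (lo hi : ℝ) : Prop where
  rg : RgOK B r lo hi
  ex : ∀ q ∈ B.I, ∀ y, 0 ≤ y → lo ≤ y → y ≤ hi → B.L2 q y ≤ rr (fld r 56 11) ∧
    |gq1 B.C 1 q y| ≤ rr (fld r 56 12) ∧ |gq1 B.C 2 q y| ≤ rr (fld r 56 13) ∧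
    B.L1 q y ≤ rr (fld r 56 14)

/-- The table of records is valid on the cells of the grid. -/
structure TabOK (B : Blk) (T : ℕ → ℕ) : Prop where
  cell : ∀ i, i < 680 → RgOK B (T i) (rr (Yb i)) (rr (Yb (i + 1)))
  last : ∀ hi, RgOK B (T 680) (rr (Yb 680)) hi

/-- Range queries give valid records. -/
structure QOK (B : Blk) (Q : ℕ → ℕ → ℕ) : Prop where
  rq : ∀ a b, RgOK B (rq Q a b) (rr a) (rr b)
  rqI : ∀ a hi, RgOK B (rqI Q a) (rr a) hi

/-- The decay bounds; a value below `BIG` is a valid bound. -/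
structure FarOK (B : Blk) : Prop where
  f0 : ∀ y, far0 B y < BIG → ∀ q ∈ B.I, ∀ c v : ℝ, 1 ≤ c → rr y * c ^ 2 ≤ v →
    |B.g 0 q v| ≤ rr (far0 B y) / c
  fc : ∀ y, farc B y < BIG → ∀ q ∈ B.I, ∀ c v : ℝ, 1 ≤ c → rr y * c ^ 2 ≤ v →
    |B.g 0 q v| ≤ rr (farc B y) / c ^ 3
  f1 : ∀ y, far1 y < BIG → ∀ q ∈ B.I, ∀ c v : ℝ, 1 ≤ c → rr y * c ^ 2 ≤ v →
    |B.g 1 q v| ≤ rr (far1 y) / c ^ 2
  f2 : ∀ y, far2 B y < BIG → ∀ q ∈ B.I, ∀ c v : ℝ, 1 ≤ c → rr y * c ^ 2 ≤ v →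
    |B.g 2 q v| ≤ rr (far2 B y) / c ^ 3

/-- Everything the upper layers use about a block. -/
structure BOK (B : Blk) (Q : ℕ → ℕ → ℕ) (E : ℕ → ℕ) : Prop where
  sc : ScalOK B
  far : FarOK B
  qok : QOK B Q
  hd : ∀ q ∈ B.I, Hd (B.g 0 q) (B.g 1 q) (B.g 2 q) (rr B.lam) (rr B.z2) (rr B.Zc) (rr B.Z2)
  lin : ∀ q ∈ B.I, ∀ v, 0 ≤ v → 1 - rr B.lamh * v ≤ B.g 0 q v
  lamh : B.lam ≤ B.lamh ∧ B.lamh ≤ SS
  env : ∀ y, envb E y ≤ B.lam ∧ ∀ q ∈ B.I, ∀ v, 0 ≤ v → v ≤ rr y →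
    |B.g 0 q v| ≤ Real.exp (-(rr (envb E y) * v))
  alg : ∀ q ∈ B.I, ∀ v, 0 ≤ v → B.g 0 q v ^ 2 * (1 + rr B.gam * v) ≤ 1
  yp : B.Yp ≤ B.Yc
  yc : B.Yc ≤ 2 ^ 52
  zc : B.Z2 ≤ B.Yc

/-- The tables at the vertices are correct. -/
def VVOK (B : Blk) (VV : ℕ → ℕ → ℕ) : Prop := ∀ v, v < B.nv → VOK B.C (B.q v) (VV v) B.Yp

/-- The tables at the two ends of the block are correct up to `Y`. -/
def EndOK (B : Blk) (Va Vb : ℕ → ℕ) (Y : ℕ) : Prop := VOK B.C B.qa Va Y ∧ VOK B.C B.qb Vb Y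

end Pool.Agent.MP_39fec4_gt.K

end

section

set_option autoImplicit false

/-! Soundness of the fixed point arithmetic. -/

namespace Pool.Agent.MP_39fec4_gt.K

open Set Full

variable {a b k : ℕ} {x y : ℝ} {z w : ℤ}

theorem SS_eq : SS = 2 ^ 40 := by
  norm_num [SS]

theorem rr_SS : rr SS = 1 := by
  rw [rr, SS_eq]; norm_num

theorem rr_zero : rr 0 = 0 := by
  simp [rr]

theorem rr_one : rr 1 = 1 / 2 ^ 40 := by
  simp [rr]

theorem rr_nonneg (a : ℕ) : 0 ≤ rr a := by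
  unfold rr; positivity

theorem rr_pos (h : 0 < a) : 0 < rr a := by
  unfold rr
  have : (0 : ℝ) < a := by exact_mod_cast h
  positivity

theorem rr_le : rr a ≤ rr b ↔ a ≤ b := by
  unfold rr
  rw [div_le_div_iff_of_pos_right (by positivity)]
  exact Nat.cast_le

theorem rr_lt : rr a < rr b ↔ a < b := by
  unfold rr
  rw [div_lt_div_iff_of_pos_right (by positivity)]
  exact Nat.cast_lt

theorem rr_add (a b : ℕ) : rr (a + b) = rr a + rr b := by
  unfold rr; push_cast; ring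

theorem rr_succ (a : ℕ) : rr a ≤ rr (a + 1) :=
  rr_le.2 (Nat.le_succ a)

theorem rr_sub_ge (a b : ℕ) : rr a - rr b ≤ rr (a - b) := by
  rcases le_total b a with h | h
  · unfold rr; rw [Nat.cast_sub h]; apply le_of_eq; ring
  · have h1 := rr_le.2 h
    have h2 := rr_nonneg (a - b)
    linarith

theorem rr_sub (h : b ≤ a) : rr (a - b) = rr a - rr b := by
  unfold rr; rw [Nat.cast_sub h]; ring

theorem rr_sub_eq (a b : ℕ) : rr (a - b) = max (rr a - rr b) 0 := by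
  rcases le_total b a with h | h
  · rw [rr_sub h, max_eq_left]
    have := rr_le.2 h
    linarith
  · rw [Nat.sub_eq_zero_of_le h, rr_zero, max_eq_right]
    have := rr_le.2 h
    linarith

theorem rr_max (a b : ℕ) : rr (max a b) = max (rr a) (rr b) := by
  rcases le_total a b with h | h
  · rw [max_eq_right h, max_eq_right (rr_le.2 h)]
  · rw [max_eq_left h, max_eq_left (rr_le.2 h)]

theorem rr_min (a b : ℕ) : rr (min a b) = min (rr a) (rr b) := by
  rcases le_total a b with h | h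
  · rw [min_eq_left h, min_eq_left (rr_le.2 h)]
  · rw [min_eq_right h, min_eq_right (rr_le.2 h)]

theorem rr_nmul (k a : ℕ) : rr (k * a) = k * rr a := by
  unfold rr; push_cast; ring

theorem rr_muln (a k : ℕ) : rr (a * k) = rr a * k := by
  unfold rr; push_cast; ring

theorem rr_div_le (a k : ℕ) : rr (a / k) ≤ rr a / k := by
  unfold rr
  have h : ((a / k : ℕ) : ℝ) ≤ (a : ℝ) / k := Nat.cast_div_le
  calc ((a / k : ℕ) : ℝ) / 2 ^ 40 ≤ ((a : ℝ) / k) / 2 ^ 40 := by gcongr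
    _ = (a : ℝ) / 2 ^ 40 / k := by ring

theorem rr_div_lt (a : ℕ) (h : 0 < k) : rr a / k < rr (a / k + 1) := by
  unfold rr
  have hk : (0 : ℝ) < k := by exact_mod_cast h
  have h1 : a < (a / k + 1) * k := by
    rw [Nat.add_mul, Nat.one_mul]
    exact Nat.lt_div_mul_add h
  have h2 : (a : ℝ) < ((a / k + 1 : ℕ) : ℝ) * k := by exact_mod_cast h1
  have h3 : (a : ℝ) / k < ((a / k + 1 : ℕ) : ℝ) := by rwa [div_lt_iff₀ hk]
  calc (a : ℝ) / 2 ^ 40 / k = ((a : ℝ) / k) / 2 ^ 40 := by ring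
    _ < ((a / k + 1 : ℕ) : ℝ) / 2 ^ 40 := by gcongr

theorem rr_shl (a k : ℕ) : rr (a <<< k) = rr a * 2 ^ k := by
  rw [Nat.shiftLeft_eq, rr_muln]; push_cast; ring

theorem rr_shr_le (a k : ℕ) : rr (a >>> k) ≤ rr a / 2 ^ k := by
  rw [Nat.shiftRight_eq_div_pow]
  have := rr_div_le a (2 ^ k)
  push_cast at this
  exact this

theorem rr_shr_lt (a k : ℕ) : rr a / 2 ^ k < rr (a >>> k + 1) := by
  rw [Nat.shiftRight_eq_div_pow]
  have := rr_div_lt (k := 2 ^ k) a (by positivity)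
  push_cast at this
  exact this

/-- A product of two fixed point numbers has eighty fractional bits. -/
theorem rr_mul (a b : ℕ) : rr (a * b) = rr a * rr b * 2 ^ 40 := by
  unfold rr; push_cast; ring

theorem mulU_gt (a b : ℕ) : rr a * rr b < rr (mulU a b) := by
  have := rr_shr_lt (a * b) 40
  rw [rr_mul, mul_div_assoc, div_self (by positivity), mul_one] at this
  exact this

theorem mulU_ge (a b : ℕ) : rr a * rr b ≤ rr (mulU a b) :=
  (mulU_gt a b).le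

theorem mulD_le (a b : ℕ) : rr (mulD a b) ≤ rr a * rr b := by
  have := rr_shr_le (a * b) 40
  rw [rr_mul, mul_div_assoc, div_self (by positivity), mul_one] at this
  exact this

theorem mulD_lt (a b : ℕ) : rr a * rr b < rr (mulD a b + 1) :=
  mulU_gt a b

theorem mulU_eq (a b : ℕ) : mulU a b = mulD a b + 1 :=
  rfl

theorem mulD_mono {a' b' : ℕ} (h1 : a ≤ a') (h2 : b ≤ b') : mulD a b ≤ mulD a' b' := by
  unfold mulD
  rw [Nat.shiftRight_eq_div_pow, Nat.shiftRight_eq_div_pow]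
  exact Nat.div_le_div_right (Nat.mul_le_mul h1 h2)

theorem mulU_mono {a' b' : ℕ} (h1 : a ≤ a') (h2 : b ≤ b') : mulU a b ≤ mulU a' b' := by
  rw [mulU_eq, mulU_eq]
  exact Nat.succ_le_succ (mulD_mono h1 h2)

theorem le_mulU (h1 : x ≤ rr a) (h2 : y ≤ rr b) (h0 : 0 ≤ y) : x * y ≤ rr (mulU a b) :=
  (mul_le_mul h1 h2 h0 (rr_nonneg a)).trans (mulU_ge a b)

theorem le_mulU' (h1 : x ≤ rr a) (h2 : y ≤ rr b) (h0 : 0 ≤ x) : x * y ≤ rr (mulU a b) := by
  refine le_trans ?_ (mulU_ge a b)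
  calc x * y ≤ x * rr b := mul_le_mul_of_nonneg_left h2 h0
    _ ≤ rr a * rr b := mul_le_mul_of_nonneg_right h1 (rr_nonneg b)

theorem abs_le_mulU (h1 : |x| ≤ rr a) (h2 : |y| ≤ rr b) : |x * y| ≤ rr (mulU a b) := by
  rw [abs_mul]
  exact le_mulU h1 h2 (abs_nonneg y)

theorem mulD_le_of (h1 : rr a ≤ x) (h2 : rr b ≤ y) : rr (mulD a b) ≤ x * y :=
  (mulD_le a b).trans (mul_le_mul h1 h2 (rr_nonneg b) ((rr_nonneg a).trans h1))

theorem rr_pow_aux (a k : ℕ) : rr ((a ^ k) <<< 40) / 2 ^ (40 * k) = rr a ^ k := by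
  rw [rr_shl]
  unfold rr
  rw [div_pow, ← pow_mul]
  push_cast
  field_simp

theorem powD_lt' (a k : ℕ) : rr a ^ k < rr (powD a k + 1) := by
  have := rr_shr_lt ((a ^ k) <<< 40) (40 * k)
  rw [rr_pow_aux] at this
  exact this

theorem powU_ge (a k : ℕ) : rr a ^ k ≤ rr (powU a k) :=
  (powD_lt' a k).le

theorem powD_le (a k : ℕ) : rr (powD a k) ≤ rr a ^ k := by
  have := rr_shr_le ((a ^ k) <<< 40) (40 * k)
  rw [rr_pow_aux] at this
  exact this

theorem powD_lt (a k : ℕ) : rr a ^ k < rr (powD a k + 1) :=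
  powD_lt' a k

theorem le_powU (h0 : 0 ≤ x) (h : x ≤ rr a) (k : ℕ) : x ^ k ≤ rr (powU a k) :=
  (pow_le_pow_left₀ h0 h k).trans (powU_ge a k)

theorem abs_le_powU (h : |x| ≤ rr a) (k : ℕ) : |x ^ k| ≤ rr (powU a k) := by
  rw [abs_pow]
  exact le_powU (abs_nonneg x) h k

theorem powD_le_of (h : rr a ≤ x) (k : ℕ) : rr (powD a k) ≤ x ^ k :=
  (powD_le a k).trans (pow_le_pow_left₀ (rr_nonneg a) h k)

theorem rr_div_aux (a b : ℕ) : rr (a <<< 40) / (b : ℝ) = rr a / rr b := by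
  rw [rr_shl]
  unfold rr
  rw [div_div_eq_mul_div]

theorem divU_ge (a : ℕ) (h : 0 < b) : rr a / rr b ≤ rr (divU a b) := by
  have h1 : divU a b = (a <<< 40) / b + 1 := by
    unfold divU
    have : Nat.beq b 0 = false := by
      cases b with
      | zero => omega
      | succ n => rfl
    rw [this]; rfl
  rw [h1, ← rr_div_aux]
  exact (rr_div_lt _ h).le

theorem divU_pos (h : divU a b < BIG) : 0 < b := by
  rcases Nat.eq_zero_or_pos b with rfl | hb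
  · exact absurd h (lt_irrefl BIG)
  · exact hb

theorem divU_zero (a : ℕ) : divU a 0 = BIG :=
  rfl

theorem divD_le (a b : ℕ) : rr (divD a b) ≤ rr a / rr b := by
  rw [← rr_div_aux]
  exact rr_div_le _ _

theorem le_divU (h : 0 < b) (h1 : x ≤ rr a) (h2 : rr b ≤ y) : x / y ≤ rr (divU a b) := by
  have hb := rr_pos h
  refine le_trans ?_ (divU_ge a h)
  calc x / y ≤ rr a / y := div_le_div_of_nonneg_right h1 (hb.le.trans h2)
    _ ≤ rr a / rr b := div_le_div_of_nonneg_left (rr_nonneg a) hb h2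

theorem divD_le_of (h1 : rr a ≤ x) (h0 : 0 < y) (h2 : y ≤ rr b) : rr (divD a b) ≤ x / y := by
  refine (divD_le a b).trans ?_
  calc rr a / rr b ≤ rr a / y := div_le_div_of_nonneg_left (rr_nonneg a) h0 h2
    _ ≤ x / y := div_le_div_of_nonneg_right h1 h0.le

theorem sqrtL_sq (a : ℕ) : rr (sqrtL a) ^ 2 ≤ rr a := by
  have h : sqrtL a * sqrtL a ≤ a <<< 40 := by
    unfold sqrtL
    rw [forceN_eq]
    generalize isqL (a <<< 40) = r
    cases hb : Nat.ble (r * r) (a <<< 40)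
    · simp
    · simpa using Nat.le_of_ble_eq_true hb
  have h1 := rr_le.2 h
  rw [rr_mul, rr_shl] at h1
  have h2 := le_of_mul_le_mul_right h1 (by positivity)
  rw [sq]; exact h2

theorem sqrtL_le (a : ℕ) : rr (sqrtL a) ≤ √(rr a) :=
  Real.le_sqrt_of_sq_le (sqrtL_sq a)

theorem sqrtU_sq (a : ℕ) : rr a ≤ rr (sqrtU a) ^ 2 := by
  have h : a <<< 40 ≤ sqrtU a * sqrtU a := by
    unfold sqrtU isqU
    rw [forceN_eq]
    generalize isq (a <<< 40) + 1 = r
    generalize a <<< 40 = n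
    cases hb : Nat.ble n (r * r)
    · simp only [cond_false]
      nlinarith
    · simp only [cond_true]
      exact Nat.le_of_ble_eq_true hb
  have h1 := rr_le.2 h
  rw [rr_mul, rr_shl] at h1
  have h2 := le_of_mul_le_mul_right h1 (by positivity)
  rw [sq]; exact h2

theorem sqrtU_ge (a : ℕ) : √(rr a) ≤ rr (sqrtU a) :=
  Real.sqrt_le_iff.2 ⟨rr_nonneg _, sqrtU_sq a⟩

theorem LN2L_le : rr LN2L ≤ Real.log 2 := by
  have h := Real.sum_range_le_log_div (x := 1 / 3) (by norm_num) (by norm_num) 14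
  have e : ((1 : ℝ) + 1 / 3) / (1 - 1 / 3) = 2 := by norm_num
  rw [e] at h
  simp only [Finset.sum_range_succ, Finset.sum_range_zero] at h
  unfold rr LN2L
  norm_num at h ⊢
  linarith

theorem LN2H_ge : Real.log 2 ≤ rr LN2H := by
  have h := Real.log_div_le_sum_range_add (x := 1 / 3) (by norm_num) (by norm_num) 14
  have e : ((1 : ℝ) + 1 / 3) / (1 - 1 / 3) = 2 := by norm_num
  rw [e] at h
  simp only [Finset.sum_range_succ, Finset.sum_range_zero] at h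
  unfold rr LN2H
  norm_num at h ⊢
  linarith

theorem expU_ge (a : ℕ) : Real.exp (-rr a) ≤ rr (expU a) := by
  unfold expU
  simp only [forceN_eq]
  have hx : a / LN2H * LN2H ≤ a := Nat.div_mul_le_self a LN2H
  generalize a / LN2H = e at hx ⊢
  have hf : rr a = e * rr LN2H + rr (a - e * LN2H) := by
    rw [rr_sub hx, rr_nmul]; ring
  generalize a - e * LN2H = f at hf ⊢
  have f0 := rr_nonneg f
  have h2 : rr (mulD f f) ≤ rr f * rr f := mulD_le f f
  have h3 : rr (mulD (mulD f f) f) ≤ rr f * rr f * rr f := mulD_le_of h2 le_rfl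
  have h4 := rr_div_le (mulD f f) 2
  have h5 := rr_div_le (mulD (mulD f f) f) 6
  have hD : rr (SS + f + mulD f f / 2 + mulD (mulD f f) f / 6) ≤ Real.exp (rr f) := by
    have h := Real.sum_le_exp_of_nonneg f0 4
    simp only [Finset.sum_range_succ, Finset.sum_range_zero, Nat.factorial] at h
    rw [rr_add, rr_add, rr_add, rr_SS]
    push_cast at h h4 h5
    nlinarith
  have hD0 : 0 < SS + f + mulD f f / 2 + mulD (mulD f f) f / 6 := by
    have : 0 < SS := by rw [SS_eq]; positivity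
    omega
  generalize SS + f + mulD f f / 2 + mulD (mulD f f) f / 6 = D at hD hD0 ⊢
  have h6 : rr SS / rr D ≤ rr (divD SS D + 1) := by
    rw [← rr_div_aux]
    exact (rr_div_lt _ hD0).le
  have h7 : Real.exp (-rr f) ≤ rr (divD SS D + 1) := by
    refine le_trans ?_ h6
    rw [rr_SS, Real.exp_neg, one_div]
    exact inv_anti₀ (rr_pos hD0) hD
  have h8 : Real.exp (-(e * rr LN2H)) ≤ 1 / 2 ^ e := by
    have : Real.exp (-(e * rr LN2H)) ≤ Real.exp (-(e * Real.log 2)) := by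
      apply Real.exp_le_exp.2
      have := mul_le_mul_of_nonneg_left LN2H_ge (Nat.cast_nonneg (α := ℝ) e)
      linarith
    refine this.trans (le_of_eq ?_)
    rw [Real.exp_neg, Real.exp_nat_mul, Real.exp_log (by norm_num), one_div]
  refine le_trans ?_ (rr_shr_lt _ e).le
  rw [hf, neg_add, Real.exp_add]
  calc Real.exp (-(e * rr LN2H)) * Real.exp (-rr f) ≤ 1 / 2 ^ e * rr (divD SS D + 1) :=
        mul_le_mul h8 h7 (Real.exp_pos _).le (by positivity)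
    _ = rr (divD SS D + 1) / 2 ^ e := by ring

theorem le_expU (h : rr a ≤ x) : Real.exp (-x) ≤ rr (expU a) :=
  (Real.exp_le_exp.2 (neg_le_neg h)).trans (expU_ge a)

theorem nlogL_le (h0 : 0 < a) (h1 : a ≤ SS) : rr a ≤ Real.exp (-rr (nlogL a)) := by
  unfold nlogL
  simp only [forceN_eq]
  have hx : a <<< (39 - Nat.log2 a) ≤ SS := by
    rcases h1.eq_or_lt with h | h
    · have : 40 ≤ Nat.log2 a := by
        rw [Nat.le_log2 h0.ne', ← SS_eq]; exact h.ge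
      rw [Nat.sub_eq_zero_of_le (by omega)]
      exact h1
    · have h2 : Nat.log2 a < 40 := by
        rw [Nat.log2_lt h0.ne', ← SS_eq]; exact h
      have h3 : a < 2 ^ (Nat.log2 a + 1) := Nat.lt_log2_self
      rw [Nat.shiftLeft_eq, SS_eq]
      calc a * 2 ^ (39 - Nat.log2 a) ≤ 2 ^ (Nat.log2 a + 1) * 2 ^ (39 - Nat.log2 a) :=
            Nat.mul_le_mul_right _ h3.le
        _ = 2 ^ 40 := by rw [← pow_add]; congr 1; omega
  generalize 39 - Nat.log2 a = e at hx ⊢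
  have hf : rr (SS - a <<< e) = 1 - rr a * 2 ^ e := by
    rw [rr_sub hx, rr_SS, rr_shl]
  generalize SS - a <<< e = f at hf ⊢
  have f0 := rr_nonneg f
  have a0 := rr_pos h0
  have a1 : 0 < rr a * 2 ^ e := by positivity
  have f1 : |rr f| < 1 := by rw [abs_of_nonneg f0]; linarith
  have h2 : rr (mulD f f) ≤ rr f * rr f := mulD_le f f
  have h3 : rr (mulD (mulD f f) f) ≤ rr f * rr f * rr f := mulD_le_of h2 le_rfl
  have h4 := rr_div_le (mulD f f) 2
  have h5 := rr_div_le (mulD (mulD f f) f) 3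
  have h6 := sum_le_hasSum (Finset.range 3) (fun i _ => by positivity)
    (Real.hasSum_pow_div_log_of_abs_lt_one f1)
  simp only [Finset.sum_range_succ, Finset.sum_range_zero] at h6
  have h7 : Real.log (1 - rr f) = Real.log (rr a) + e * Real.log 2 := by
    rw [hf, sub_sub_cancel, Real.log_mul a0.ne' (by positivity), Real.log_pow]
  have h8 := mul_le_mul_of_nonneg_left LN2L_le (Nat.cast_nonneg (α := ℝ) e)
  rw [← Real.log_le_iff_le_exp a0, rr_add, rr_add, rr_add, rr_nmul]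
  push_cast at h4 h5 h6
  nlinarith

theorem nlogL_big (h : SS ≤ a) : nlogL a = 0 := by
  unfold nlogL
  simp only [forceN_eq]
  have h0 : a ≠ 0 := by
    have : 0 < SS := by rw [SS_eq]; positivity
    omega
  have h1 : 40 ≤ Nat.log2 a := by
    rw [Nat.le_log2 h0, ← SS_eq]; exact h
  rw [Nat.sub_eq_zero_of_le (show 39 ≤ Nat.log2 a by omega), Nat.shiftLeft_zero,
    Nat.sub_eq_zero_of_le h]
  simp [mulD]

theorem ri_nat (a : ℕ) : ri (a : ℤ) = rr a := by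
  simp [ri, rr]

theorem ri_ofNat (a : ℕ) : ri (Int.ofNat a) = rr a :=
  ri_nat a

theorem ri_le : ri z ≤ ri w ↔ z ≤ w := by
  unfold ri
  rw [div_le_div_iff_of_pos_right (by positivity)]
  exact Int.cast_le

theorem ri_lt : ri z < ri w ↔ z < w := by
  unfold ri
  rw [div_lt_div_iff_of_pos_right (by positivity)]
  exact Int.cast_lt

theorem ri_add (z w : ℤ) : ri (z + w) = ri z + ri w := by
  unfold ri; push_cast; ring

theorem ri_sub (z w : ℤ) : ri (z - w) = ri z - ri w := by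
  unfold ri; push_cast; ring

theorem ri_neg (z : ℤ) : ri (-z) = -ri z := by
  unfold ri; push_cast; ring

theorem ri_max (z w : ℤ) : ri (max z w) = max (ri z) (ri w) := by
  rcases le_total z w with h | h
  · rw [max_eq_right h, max_eq_right (ri_le.2 h)]
  · rw [max_eq_left h, max_eq_left (ri_le.2 h)]

theorem ri_min (z w : ℤ) : ri (min z w) = min (ri z) (ri w) := by
  rcases le_total z w with h | h
  · rw [min_eq_left h, min_eq_left (ri_le.2 h)]
  · rw [min_eq_right h, min_eq_right (ri_le.2 h)]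

theorem ri_mul (z w : ℤ) : ri (z * w) = z * ri w := by
  unfold ri; push_cast; ring

theorem ri_subNatNat (a b : ℕ) : ri (Int.subNatNat a b) = rr a - rr b := by
  rw [Int.subNatNat_eq_coe, ri_sub, ri_nat, ri_nat]

theorem ri_shr_le (z : ℤ) (k : ℕ) : ri (Int.shiftRight z k) ≤ ri z / 2 ^ k := by
  have e : Int.shiftRight z k = z / ((2 ^ k : ℕ) : ℤ) := Int.shiftRight_eq_div_pow z k
  rw [e]
  have h1 : z / ((2 ^ k : ℕ) : ℤ) * ((2 ^ k : ℕ) : ℤ) ≤ z :=
    Int.ediv_mul_le z (by positivity)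
  generalize z / ((2 ^ k : ℕ) : ℤ) = u at h1 ⊢
  have h2 : (u : ℝ) * 2 ^ k ≤ z := by exact_mod_cast h1
  unfold ri
  rw [le_div_iff₀ (by positivity), div_mul_eq_mul_div]
  gcongr

theorem ri_shr_lt (z : ℤ) (k : ℕ) : ri z / 2 ^ k < ri (Int.shiftRight z k) + 1 / 2 ^ 40 := by
  have e : Int.shiftRight z k = z / ((2 ^ k : ℕ) : ℤ) := Int.shiftRight_eq_div_pow z k
  rw [e]
  have h1 : z < (z / ((2 ^ k : ℕ) : ℤ) + 1) * ((2 ^ k : ℕ) : ℤ) :=
    Int.lt_ediv_add_one_mul_self z (by positivity)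
  generalize z / ((2 ^ k : ℕ) : ℤ) = u at h1 ⊢
  have h2 : (z : ℝ) < (u + 1) * 2 ^ k := by exact_mod_cast h1
  unfold ri
  rw [div_lt_iff₀ (by positivity), ← add_div, div_mul_eq_mul_div]
  gcongr

theorem mulI_le (z w : ℤ) : ri (mulI z w) ≤ ri z * ri w := by
  have h := ri_shr_le (z * w) 40
  rw [ri_mul] at h
  have e : (z : ℝ) * ri w / 2 ^ 40 = ri z * ri w := by unfold ri; ring
  rw [e] at h
  exact h

theorem mulI_lt (z w : ℤ) : ri z * ri w < ri (mulI z w) + 1 / 2 ^ 40 := by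
  have h := ri_shr_lt (z * w) 40
  rw [ri_mul] at h
  have e : (z : ℝ) * ri w / 2 ^ 40 = ri z * ri w := by unfold ri; ring
  rw [e] at h
  exact h

theorem rr_absI (z : ℤ) : rr (absI z) = |ri z| := by
  unfold rr ri absI
  rw [abs_div, abs_of_pos (show (0 : ℝ) < 2 ^ 40 by positivity), Nat.cast_natAbs, Int.cast_abs]

theorem rr_posI (z : ℤ) : rr (posI z) = max (ri z) 0 := by
  rw [← ri_nat, posI, Int.toNat_eq_max, ri_max]
  simp [ri]

theorem rr_negI (z : ℤ) : rr (negI z) = max (-ri z) 0 := by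
  rw [← ri_neg, ← rr_posI]; rfl

theorem ro_eq (a : ℕ) : ro a = rr a - rr OFF := by
  unfold ro rr; ring

theorem ro_le : ro a ≤ ro b ↔ a ≤ b := by
  rw [ro_eq, ro_eq, sub_le_sub_iff_right, rr_le]

theorem ro_add (a b : ℕ) : ro (a + b) = ro a + rr b := by
  rw [ro_eq, ro_eq, rr_add]; ring

theorem ro_OFF (a : ℕ) : ro (OFF + a) = rr a := by
  rw [ro_eq, rr_add]; ring

theorem ro_ofs (z : ℤ) : ri z ≤ ro (ofs z) := by
  have h : rr (ofs z) = max (ri (z + (OFF : ℤ))) 0 := rr_posI _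
  rw [ro_eq, h, ri_add, ri_nat]
  have := le_max_left (ri z + rr OFF) 0
  linarith

theorem rr_sub_OFF (a : ℕ) : rr (a - OFF) = max (ro a) 0 := by
  rw [rr_sub_eq, ro_eq]

theorem rr_OFF_sub (a : ℕ) : rr (OFF - a) = max (-ro a) 0 := by
  rw [rr_sub_eq, ro_eq, neg_sub]

theorem nth_eq (l : List ℕ) (i : ℕ) : nth l i = l.getD i 0 := by
  induction l generalizing i with
  | nil => rfl
  | cons a l ih =>
    cases i with
    | zero => rfl
    | succ j => exact ih j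

theorem drp_eq (l : List ℕ) (i : ℕ) : drp l i = l.drop i := by
  induction i generalizing l with
  | zero => rfl
  | succ j ih =>
    cases l with
    | nil => rfl
    | cons a l => exact ih l

theorem fld_eq (t w i : ℕ) : fld t w i = t / 2 ^ (w * i) % 2 ^ w := by
  unfold fld
  rw [Nat.shiftRight_eq_div_pow, Nat.one_shiftLeft]

theorem fld_lt (t w i : ℕ) : fld t w i < 2 ^ w := by
  rw [fld_eq]
  exact Nat.mod_lt _ (by positivity)

theorem fld_low {t w : ℕ} (h : a < 2 ^ w) : fld (a + (t <<< w)) w 0 = a := by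
  rw [fld_eq, Nat.mul_zero, pow_zero, Nat.div_one, Nat.shiftLeft_eq, Nat.add_mul_mod_self_right,
    Nat.mod_eq_of_lt h]

theorem fld_high {t w : ℕ} (h : a < 2 ^ w) (i : ℕ) :
    fld (a + (t <<< w)) w (i + 1) = fld t w i := by
  rw [fld_eq, fld_eq, Nat.shiftLeft_eq, Nat.mul_succ, Nat.add_comm (w * i) w, pow_add,
    ← Nat.div_div_eq_div_mul, Nat.add_mul_div_right _ _ (by positivity), Nat.div_eq_of_lt h,
    Nat.zero_add]

theorem nest15 (f0 f1 f2 f3 f4 f5 f6 f7 f8 f9 f10 f11 f12 f13 f14 : ℕ) :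
    f0 + (f1 <<< 56) + (f2 <<< 112) + (f3 <<< 168) + (f4 <<< 224) + (f5 <<< 280) + (f6 <<< 336) + (f7 <<< 392) + (f8 <<< 448) + (f9 <<< 504) + (f10 <<< 560) + (f11 <<< 616) + (f12 <<< 672) + (f13 <<< 728) + (f14 <<< 784) =
    f0 + ((f1 + ((f2 + ((f3 + ((f4 + ((f5 + ((f6 + ((f7 + ((f8 + ((f9 + ((f10 + ((f11 + ((f12 + ((f13 + ((f14 + (0 <<< 56)) <<< 56)) <<< 56)) <<< 56)) <<< 56)) <<< 56)) <<< 56)) <<< 56)) <<< 56)) <<< 56)) <<< 56)) <<< 56)) <<< 56)) <<< 56)) <<< 56) := by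
  have e : ∀ f j : ℕ, f <<< (56 * j) = f * (2 ^ 56) ^ j := fun f j => by
    rw [Nat.shiftLeft_eq, pow_mul]
  have e2 : f2 <<< 112 = f2 * (2 ^ 56) ^ 2 := e f2 2
  have e3 : f3 <<< 168 = f3 * (2 ^ 56) ^ 3 := e f3 3
  have e4 : f4 <<< 224 = f4 * (2 ^ 56) ^ 4 := e f4 4
  have e5 : f5 <<< 280 = f5 * (2 ^ 56) ^ 5 := e f5 5
  have e6 : f6 <<< 336 = f6 * (2 ^ 56) ^ 6 := e f6 6
  have e7 : f7 <<< 392 = f7 * (2 ^ 56) ^ 7 := e f7 7
  have e8 : f8 <<< 448 = f8 * (2 ^ 56) ^ 8 := e f8 8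
  have e9 : f9 <<< 504 = f9 * (2 ^ 56) ^ 9 := e f9 9
  have e10 : f10 <<< 560 = f10 * (2 ^ 56) ^ 10 := e f10 10
  have e11 : f11 <<< 616 = f11 * (2 ^ 56) ^ 11 := e f11 11
  have e12 : f12 <<< 672 = f12 * (2 ^ 56) ^ 12 := e f12 12
  have e13 : f13 <<< 728 = f13 * (2 ^ 56) ^ 13 := e f13 13
  have e14 : f14 <<< 784 = f14 * (2 ^ 56) ^ 14 := e f14 14
  rw [e2, e3, e4, e5, e6, e7, e8, e9, e10, e11, e12, e13, e14]
  simp only [Nat.shiftLeft_eq]
  generalize 2 ^ 56 = X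
  ring

theorem INV_lt (h : a ≤ INV) : a < 2 ^ 56 := by
  unfold INV at h
  omega

theorem fld_pk {f0 f1 f2 f3 f4 f5 f6 f7 f8 f9 f10 f11 f12 f13 f14 r : ℕ}
    (h : r = f0 + (f1 <<< 56) + (f2 <<< 112) + (f3 <<< 168) + (f4 <<< 224) + (f5 <<< 280) + (f6 <<< 336) + (f7 <<< 392) + (f8 <<< 448) + (f9 <<< 504) + (f10 <<< 560) + (f11 <<< 616) + (f12 <<< 672) + (f13 <<< 728) + (f14 <<< 784))
    (h0 : f0 < 2 ^ 56) (h1 : f1 < 2 ^ 56) (h2 : f2 < 2 ^ 56) (h3 : f3 < 2 ^ 56) (h4 : f4 < 2 ^ 56) (h5 : f5 < 2 ^ 56) (h6 : f6 < 2 ^ 56) (h7 : f7 < 2 ^ 56) (h8 : f8 < 2 ^ 56) (h9 : f9 < 2 ^ 56) (h10 : f10 < 2 ^ 56) (h11 : f11 < 2 ^ 56) (h12 : f12 < 2 ^ 56) (h13 : f13 < 2 ^ 56) (h14 : f14 < 2 ^ 56) :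
    fld r 56 0 = f0 ∧ fld r 56 1 = f1 ∧ fld r 56 2 = f2 ∧ fld r 56 3 = f3 ∧ fld r 56 4 = f4 ∧ fld r 56 5 = f5 ∧ fld r 56 6 = f6 ∧ fld r 56 7 = f7 ∧ fld r 56 8 = f8 ∧ fld r 56 9 = f9 ∧ fld r 56 10 = f10 ∧ fld r 56 11 = f11 ∧ fld r 56 12 = f12 ∧ fld r 56 13 = f13 ∧ fld r 56 14 = f14 := by
  rw [h, nest15]
  refine ⟨?_, ?_, ?_, ?_, ?_, ?_, ?_, ?_, ?_, ?_, ?_, ?_, ?_, ?_, ?_⟩
  · exact fld_low h0
  · exact (fld_high h0 0).trans (fld_low h1)
  · exact (fld_high h0 1).trans ((fld_high h1 0).trans (fld_low h2))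
  · exact (fld_high h0 2).trans ((fld_high h1 1).trans ((fld_high h2 0).trans (fld_low h3)))
  · exact (fld_high h0 3).trans ((fld_high h1 2).trans ((fld_high h2 1).trans ((fld_high h3 0).trans (fld_low h4))))
  · exact (fld_high h0 4).trans ((fld_high h1 3).trans ((fld_high h2 2).trans ((fld_high h3 1).trans ((fld_high h4 0).trans (fld_low h5)))))
  · exact (fld_high h0 5).trans ((fld_high h1 4).trans ((fld_high h2 3).trans ((fld_high h3 2).trans ((fld_high h4 1).trans ((fld_high h5 0).trans (fld_low h6))))))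
  · exact (fld_high h0 6).trans ((fld_high h1 5).trans ((fld_high h2 4).trans ((fld_high h3 3).trans ((fld_high h4 2).trans ((fld_high h5 1).trans ((fld_high h6 0).trans (fld_low h7)))))))
  · exact (fld_high h0 7).trans ((fld_high h1 6).trans ((fld_high h2 5).trans ((fld_high h3 4).trans ((fld_high h4 3).trans ((fld_high h5 2).trans ((fld_high h6 1).trans ((fld_high h7 0).trans (fld_low h8))))))))
  · exact (fld_high h0 8).trans ((fld_high h1 7).trans ((fld_high h2 6).trans ((fld_high h3 5).trans ((fld_high h4 4).trans ((fld_high h5 3).trans ((fld_high h6 2).trans ((fld_high h7 1).trans ((fld_high h8 0).trans (fld_low h9)))))))))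
  · exact (fld_high h0 9).trans ((fld_high h1 8).trans ((fld_high h2 7).trans ((fld_high h3 6).trans ((fld_high h4 5).trans ((fld_high h5 4).trans ((fld_high h6 3).trans ((fld_high h7 2).trans ((fld_high h8 1).trans ((fld_high h9 0).trans (fld_low h10))))))))))
  · exact (fld_high h0 10).trans ((fld_high h1 9).trans ((fld_high h2 8).trans ((fld_high h3 7).trans ((fld_high h4 6).trans ((fld_high h5 5).trans ((fld_high h6 4).trans ((fld_high h7 3).trans ((fld_high h8 2).trans ((fld_high h9 1).trans ((fld_high h10 0).trans (fld_low h11)))))))))))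
  · exact (fld_high h0 11).trans ((fld_high h1 10).trans ((fld_high h2 9).trans ((fld_high h3 8).trans ((fld_high h4 7).trans ((fld_high h5 6).trans ((fld_high h6 5).trans ((fld_high h7 4).trans ((fld_high h8 3).trans ((fld_high h9 2).trans ((fld_high h10 1).trans ((fld_high h11 0).trans (fld_low h12))))))))))))
  · exact (fld_high h0 12).trans ((fld_high h1 11).trans ((fld_high h2 10).trans ((fld_high h3 9).trans ((fld_high h4 8).trans ((fld_high h5 7).trans ((fld_high h6 6).trans ((fld_high h7 5).trans ((fld_high h8 4).trans ((fld_high h9 3).trans ((fld_high h10 2).trans ((fld_high h11 1).trans ((fld_high h12 0).trans (fld_low h13)))))))))))))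
  · exact (fld_high h0 13).trans ((fld_high h1 12).trans ((fld_high h2 11).trans ((fld_high h3 10).trans ((fld_high h4 9).trans ((fld_high h5 8).trans ((fld_high h6 7).trans ((fld_high h7 6).trans ((fld_high h8 5).trans ((fld_high h9 4).trans ((fld_high h10 3).trans ((fld_high h11 2).trans ((fld_high h12 1).trans ((fld_high h13 0).trans (fld_low h14))))))))))))))

/-- The fields of a packed record. -/
theorem pk15_fld {f0 f1 f2 f3 f4 f5 f6 f7 f8 f9 f10 f11 f12 f13 f14 r : ℕ}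
    (h : r = pk15 f0 f1 f2 f3 f4 f5 f6 f7 f8 f9 f10 f11 f12 f13 f14) (h0 : 0 < r) :
    fld r 56 0 = f0 ∧ fld r 56 1 = f1 ∧ fld r 56 2 = f2 ∧ fld r 56 3 = f3 ∧ fld r 56 4 = f4 ∧
    fld r 56 5 = f5 ∧ fld r 56 6 = f6 ∧ fld r 56 7 = f7 ∧ fld r 56 8 = f8 ∧ fld r 56 9 = f9 ∧
    fld r 56 10 = f10 ∧ fld r 56 11 = f11 ∧ fld r 56 12 = f12 ∧ fld r 56 13 = f13 ∧
    fld r 56 14 = f14 ∧ 0 < f0 ∧ 0 < f1 ∧ 0 < f3 ∧ 0 < f4 ∧ 0 < f7 ∧ f0 ≤ INV ∧ f1 ≤ INV ∧
    f2 ≤ INV ∧ f3 ≤ INV ∧ f4 ≤ INV ∧ f5 ≤ INV ∧ f6 ≤ INV ∧ f7 ≤ INV ∧ f8 ≤ INV ∧ f9 ≤ INV ∧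
    f10 ≤ INV ∧ f11 ≤ INV ∧ f12 ≤ INV ∧ f13 ≤ INV ∧ f14 ≤ INV := by
  unfold pk15 at h
  rw [Bool.cond_eq_ite] at h
  split_ifs at h with hc
  · simp only [Bool.and_eq_true, Nat.blt_eq, Nat.ble_eq, max_le_iff] at hc
    obtain ⟨⟨⟨⟨⟨p0, p1⟩, p3⟩, p4⟩, p7⟩, ⟨⟨⟨q0, q1⟩, q2, q3⟩, ⟨q4, q5⟩, q6, q7⟩,
      ⟨⟨q8, q9⟩, q10, q11⟩, ⟨q12, q13⟩, q14⟩ := hc
    obtain ⟨e0, e1, e2, e3, e4, e5, e6, e7, e8, e9, e10, e11, e12, e13, e14⟩ := fld_pk h
      (INV_lt q0) (INV_lt q1) (INV_lt q2) (INV_lt q3) (INV_lt q4) (INV_lt q5) (INV_lt q6)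
      (INV_lt q7) (INV_lt q8) (INV_lt q9) (INV_lt q10) (INV_lt q11) (INV_lt q12) (INV_lt q13)
      (INV_lt q14)
    exact ⟨e0, e1, e2, e3, e4, e5, e6, e7, e8, e9, e10, e11, e12, e13, e14, p0, p1, p3, p4, p7,
      q0, q1, q2, q3, q4, q5, q6, q7, q8, q9, q10, q11, q12, q13, q14⟩
  · omega

theorem pad11 (r s : ℕ) (h : r = s) :
    r = s + (0 <<< 616) + (0 <<< 672) + (0 <<< 728) + (0 <<< 784) := by
  rw [Nat.zero_shiftLeft, Nat.zero_shiftLeft, Nat.zero_shiftLeft, Nat.zero_shiftLeft]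
  exact h

/-- The fields of a merged record. -/
theorem mrg_fld (a b : ℕ) {i : ℕ} (h : i ≤ 10) :
    fld (mrg a b) 56 i = max (fld a 56 i) (fld b 56 i) := by
  have m : ∀ j, max (fld a 56 j) (fld b 56 j) < 2 ^ 56 := fun j =>
    max_lt (fld_lt a 56 j) (fld_lt b 56 j)
  have z0 : (0 : ℕ) < 2 ^ 56 := by positivity
  obtain ⟨e0, e1, e2, e3, e4, e5, e6, e7, e8, e9, e10, -⟩ :=
    fld_pk (r := mrg a b) (f11 := 0) (f12 := 0) (f13 := 0) (f14 := 0)
      (pad11 _ _ (rfl : mrg a b = _))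
      (m 0) (m 1) (m 2) (m 3) (m 4) (m 5) (m 6) (m 7) (m 8) (m 9) (m 10) z0 z0 z0 z0
  interval_cases i
  exacts [e0, e1, e2, e3, e4, e5, e6, e7, e8, e9, e10]

/-- A loop of Boolean checks. -/
theorem all_rec {f : ℕ → Bool} {n : ℕ}
    (h : Nat.rec (motive := fun _ => Bool) true (fun i ih => f i && ih) n = true) :
    ∀ i, i < n → f i = true := by
  induction n with
  | zero => intro i hi; omega
  | succ n ih =>
    have h' : (f n && Nat.rec (motive := fun _ => Bool) true (fun i ih => f i && ih) n) = true := h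
    rw [Bool.and_eq_true] at h'
    intro i hi
    rcases Nat.lt_succ_iff_lt_or_eq.1 hi with h1 | h1
    · exact ih h'.2 i h1
    · rw [h1]; exact h'.1

end Pool.Agent.MP_39fec4_gt.K

end

section

set_option autoImplicit false

/-! Soundness of the enclosures of the moments. -/

namespace Pool.Agent.MP_39fec4_gt.K

open Set Full

namespace ZGamX

theorem div_le' (a b : ℕ) : ((a / b : ℕ) : ℝ) ≤ (a : ℝ) / b := Nat.cast_div_le

theorem div_lt' (a b : ℕ) : (a : ℝ) / b ≤ ((a / b + 1 : ℕ) : ℝ) := by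
  have h := Nat.lt_floor_add_one ((a : ℝ) / b)
  rw [Nat.floor_div_eq_div] at h
  push_cast
  exact h.le

theorem shr_le (a k : ℕ) : ((a >>> k : ℕ) : ℝ) ≤ (a : ℝ) / 2 ^ k := by
  rw [Nat.shiftRight_eq_div_pow]
  have h := div_le' a (2 ^ k)
  push_cast at h
  exact h

theorem shr_lt (a k : ℕ) : (a : ℝ) / 2 ^ k ≤ ((a >>> k + 1 : ℕ) : ℝ) := by
  rw [Nat.shiftRight_eq_div_pow]
  have h := div_lt' a (2 ^ k)
  rw [Nat.cast_pow, Nat.cast_ofNat] at h
  exact h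

/-- Product of two lower bounds. -/
theorem mul_lo {a b k : ℕ} {x y : ℝ} {s : ℝ} (hs : 0 < s) (ha : (a : ℝ) / s ≤ x)
    (hb : (b : ℝ) / 2 ^ k ≤ y) : (((a * b) >>> k : ℕ) : ℝ) / s ≤ x * y := by
  have h := shr_le (a * b) k
  have h1 : (0 : ℝ) ≤ (a : ℝ) / s := by positivity
  have h2 : (0 : ℝ) ≤ (b : ℝ) / 2 ^ k := by positivity
  calc (((a * b) >>> k : ℕ) : ℝ) / s ≤ (((a * b : ℕ) : ℝ) / 2 ^ k) / s := by gcongr
    _ = ((a : ℝ) / s) * ((b : ℝ) / 2 ^ k) := by push_cast; ring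
    _ ≤ x * y := mul_le_mul ha hb h2 (h1.trans ha)

theorem mul_hi {a b k : ℕ} {x y : ℝ} {s : ℝ} (hs : 0 < s) (hy : 0 ≤ y) (ha : x ≤ (a : ℝ) / s)
    (hb : y ≤ (b : ℝ) / 2 ^ k) : x * y ≤ (((a * b) >>> k + 1 : ℕ) : ℝ) / s := by
  have h := shr_lt (a * b) k
  have h1 : (0 : ℝ) ≤ (a : ℝ) / s := by positivity
  calc x * y ≤ ((a : ℝ) / s) * ((b : ℝ) / 2 ^ k) := mul_le_mul ha hb hy h1
    _ = (((a * b : ℕ) : ℝ) / 2 ^ k) / s := by push_cast; ring
    _ ≤ _ := by gcongr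

theorem gam_rec (f k : ℕ) : ∀ n d : ℕ, 0 < d →
    Nat.rec (motive := fun _ => ℕ → ℕ → ℕ) (fun n d => n / d)
      (fun i ih n d => forceN (655360 * (d + n)) fun n' =>
        forceN ((f + 4096 * (i + 1)) * d) fun d' => ih n' d') k n d =
    ⌊SG ((f : ℝ) / 4096) 160 k + (n : ℝ) / d *
      (160 ^ k / ∏ j ∈ Finset.range k, ((f : ℝ) / 4096 + 1 + j))⌋₊ := by
  induction k with
  | zero =>
    intro n d _
    simp [SG, Nat.floor_div_eq_div]
  | succ k ih =>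
    intro n d hd
    have hd' : 0 < (f + 4096 * (k + 1)) * d := by positivity
    have e := ih (655360 * (d + n)) ((f + 4096 * (k + 1)) * d) hd'
    simp only [forceN_eq] at e ⊢
    refine e.trans ?_
    congr 1
    have hP : 0 < ∏ j ∈ Finset.range k, ((f : ℝ) / 4096 + 1 + j) :=
      Finset.prod_pos fun j _ => by positivity
    unfold SG
    rw [Finset.sum_range_succ, Finset.prod_range_succ]
    generalize (∏ j ∈ Finset.range k, ((f : ℝ) / 4096 + 1 + j)) = P at hP ⊢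
    generalize (∑ i ∈ Finset.range k, (160 : ℝ) ^ (i + 1) /
      ∏ j ∈ Finset.range (i + 1), ((f : ℝ) / 4096 + 1 + j)) = S
    have hdr : (0 : ℝ) < d := by exact_mod_cast hd
    rw [pow_succ]
    generalize (160 : ℝ) ^ k = T
    push_cast
    field_simp
    ring

theorem gamE_eq (f : ℕ) : gamE f = ⌊SG ((f : ℝ) / 4096) 160 460⌋₊ := by
  have h := gam_rec f 460 0 1 one_pos
  rw [Nat.cast_zero, zero_div, zero_mul, add_zero] at h
  exact h

theorem SG_nonneg {ph : ℝ} (h : 0 ≤ ph) (K : ℕ) : 0 ≤ SG ph 160 K :=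
  Finset.sum_nonneg fun i _ => div_nonneg (by positivity)
    (Finset.prod_nonneg fun j _ => by positivity)

theorem fact_big : 2 * (160 ^ 230 * 160 ^ 231) ≤ Nat.factorial 461 := by
  norm_num

theorem TG_le {ph : ℝ} (h : 0 ≤ ph) : 2 * TG ph 160 460 ≤ 1 := by
  unfold TG
  have h1 : ((Nat.factorial (460 + 1) : ℕ) : ℝ) ≤ ∏ j ∈ Finset.range (460 + 1), (ph + 1 + j) := by
    rw [← Finset.prod_range_add_one_eq_factorial, Nat.cast_prod]
    exact Finset.prod_le_prod (fun j _ => by positivity) fun j _ => by push_cast; linarith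
  have h2 : ((2 * (160 ^ 230 * 160 ^ 231) : ℕ) : ℝ) ≤ ((Nat.factorial (460 + 1) : ℕ) : ℝ) :=
    Nat.cast_le.2 fact_big
  rw [← pow_add, Nat.cast_mul, Nat.cast_pow, Nat.cast_ofNat, Nat.cast_ofNat] at h2
  have h3 : (0 : ℝ) < ((Nat.factorial (460 + 1) : ℕ) : ℝ) := Nat.cast_pos.2 (Nat.factorial_pos _)
  have e : (160 : ℝ) ^ (460 + 1) = 160 ^ (230 + 231) := rfl
  rw [e]
  generalize (160 : ℝ) ^ (230 + 231) = T at h2 ⊢
  generalize ((Nat.factorial (460 + 1) : ℕ) : ℝ) = F at h1 h2 h3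
  generalize (∏ j ∈ Finset.range (460 + 1), (ph + 1 + (j : ℝ))) = P at h1 ⊢
  rw [← mul_div_assoc, div_le_one (h3.trans_le h1)]
  exact h2.trans h1

theorem gam_encl {f : ℕ} (hf : f < 4096) :
    Real.exp (-160) * 160 ^ ((f : ℝ) / 4096) * gamE f ≤ Real.Gamma (1 + (f : ℝ) / 4096) ∧
      Real.Gamma (1 + (f : ℝ) / 4096) ≤
        Real.exp (-160) * 160 ^ ((f : ℝ) / 4096) * (gamE f + 4) := by
  have h0 : (0 : ℝ) ≤ (f : ℝ) / 4096 := by positivity
  have h1 : (f : ℝ) / 4096 ≤ 1 := by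
    rw [div_le_one (by norm_num)]
    exact_mod_cast hf.le
  obtain ⟨a, b⟩ := gamma_encl (N := 160) (K := 460) h0 h1 (by norm_num) (by norm_num)
  have hT := TG_le h0
  have hS := SG_nonneg h0 460
  have hl := Nat.floor_le hS
  have hu := Nat.lt_floor_add_one (SG ((f : ℝ) / 4096) 160 460)
  rw [← gamE_eq] at hl hu
  have hp : 0 ≤ Real.exp (-160) * 160 ^ ((f : ℝ) / 4096) := by positivity
  exact ⟨(mul_le_mul_of_nonneg_left hl hp).trans a,
    b.trans (mul_le_mul_of_nonneg_left (by linarith) hp)⟩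

theorem gam_zero : Real.exp (-160) * gamE 0 ≤ 1 ∧ 1 ≤ Real.exp (-160) * (gamE 0 + 4) := by
  have h := gam_encl (f := 0) (by norm_num)
  generalize gamE 0 = g at h ⊢
  simpa using h

theorem gam_zero_pos : (0 : ℝ) < gamE 0 := by
  have h := gam_zero.2
  have h1 : Real.exp (-160) * 161 ≤ 1 := by
    have := Real.add_one_le_exp (160 : ℝ)
    rw [Real.exp_neg, inv_mul_le_iff₀ (Real.exp_pos _)]
    linarith
  have h2 := Real.exp_pos (-160 : ℝ)
  generalize (gamE 0 : ℝ) = g at h ⊢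
  by_contra hg
  have hg' : g ≤ 0 := not_lt.1 hg
  nlinarith

theorem rise_rec (f I : ℕ) : ∀ a : ℕ,
    Nat.rec (motive := fun _ => ℕ → ℕ) (fun a => a)
      (fun j ih a => forceN (a * (f + 4096 * (j + 1))) ih) I a =
    a * ∏ j ∈ Finset.range I, (f + 4096 * (j + 1)) := by
  induction I with
  | zero => intro a; simp
  | succ I ih =>
    intro a
    have e := ih (a * (f + 4096 * (I + 1)))
    simp only [forceN_eq] at e ⊢
    refine e.trans ?_
    rw [Finset.prod_range_succ]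
    ring

theorem rise_eq (f I : ℕ) :
    (rise f I : ℝ) = 4096 ^ I * ∏ j ∈ Finset.range I, ((f : ℝ) / 4096 + 1 + j) := by
  have h : rise f I = 1 * ∏ j ∈ Finset.range I, (f + 4096 * (j + 1)) := rise_rec f I 1
  rw [h, one_mul, Nat.cast_prod, ← Finset.card_range I, ← Finset.prod_const, Finset.card_range,
    ← Finset.prod_mul_distrib]
  refine Finset.prod_congr rfl fun j _ => ?_
  push_cast
  ring

theorem mu_eq {R : ℕ} (hR : 0 < R) (m : ℕ) : mu (Cc R) (m / 4096) =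
    Real.Gamma (1 + ((m % 4096 : ℕ) : ℝ) / 4096) / 160 ^ (((m % 4096 : ℕ) : ℝ) / 4096) *
      (rise (m % 4096) (m / 4096) * ((R : ℝ) / 2 ^ 32) ^ m / 655360 ^ (m / 4096)) := by
  have hm : (m : ℝ) / 4096 = ((m % 4096 : ℕ) : ℝ) / 4096 + (m / 4096 : ℕ) := by
    have h : (m : ℝ) = ((m % 4096 + 4096 * (m / 4096) : ℕ) : ℝ) := by rw [Nat.mod_add_div]
    conv_lhs => rw [h]
    push_cast
    ring
  have hr : (0 : ℝ) < (R : ℝ) / 2 ^ 32 := by positivity
  have hC : Cc R ^ (-((m : ℝ) / 4096)) = ((R : ℝ) / 2 ^ 32) ^ m / 160 ^ ((m : ℝ) / 4096) := by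
    unfold Cc
    generalize (R : ℝ) / 2 ^ 32 = r at hr ⊢
    rw [Real.rpow_neg (div_pos (by norm_num) (pow_pos hr _)).le,
      Real.div_rpow (by norm_num) (pow_pos hr _).le, inv_div, ← Real.rpow_natCast r 4096,
      ← Real.rpow_mul hr.le, ← Real.rpow_natCast r m]
    congr 2
    push_cast
    ring
  unfold mu
  rw [hC, rise_eq]
  generalize ((R : ℝ) / 2 ^ 32) ^ m = p
  rw [hm]
  generalize m / 4096 = I
  have h0 : (0 : ℝ) ≤ ((m % 4096 : ℕ) : ℝ) / 4096 := by positivity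
  generalize ((m % 4096 : ℕ) : ℝ) / 4096 = ph at h0 ⊢
  rw [gamma_shift h0, Real.rpow_add (by norm_num), Real.rpow_natCast]
  have e : (655360 : ℝ) ^ I = 4096 ^ I * 160 ^ I := by rw [← mul_pow]; norm_num
  rw [e]
  have h1 : (0 : ℝ) < 160 ^ ph := by positivity
  field_simp

theorem ratio_encl {f : ℕ} (hf : f < 4096) :
    (gamE f : ℝ) / (gamE 0 + 4) ≤ Real.Gamma (1 + (f : ℝ) / 4096) / 160 ^ ((f : ℝ) / 4096) ∧
      Real.Gamma (1 + (f : ℝ) / 4096) / 160 ^ ((f : ℝ) / 4096) ≤ (gamE f + 4) / gamE 0 := by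
  obtain ⟨a, b⟩ := gam_encl hf
  obtain ⟨c, d⟩ := gam_zero
  have g0 := gam_zero_pos
  have gf : (0 : ℝ) ≤ gamE f := Nat.cast_nonneg _
  have hp : (0 : ℝ) < 160 ^ ((f : ℝ) / 4096) := by positivity
  have he := Real.exp_pos (-160 : ℝ)
  generalize (gamE 0 : ℝ) = g at c d g0 ⊢
  generalize (gamE f : ℝ) = u at a b gf ⊢
  generalize Real.exp (-160) = e at a b c d he
  generalize Real.Gamma (1 + (f : ℝ) / 4096) = Γ at a b ⊢
  generalize (160 : ℝ) ^ ((f : ℝ) / 4096) = p at a b hp ⊢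
  constructor
  · have h1 : u / (g + 4) ≤ e * u := by
      rw [div_le_iff₀ (by linarith)]
      nlinarith
    refine h1.trans ?_
    rw [le_div_iff₀ hp]
    linarith
  · have h1 : e * (u + 4) ≤ (u + 4) / g := by
      rw [le_div_iff₀ g0]
      nlinarith
    refine le_trans ?_ h1
    rw [div_le_iff₀ hp]
    linarith

theorem rpowL_rec (R m k : ℕ) : ∀ (a : ℕ) (x : ℝ), (a : ℝ) / 2 ^ 256 ≤ x →
    ((Nat.rec (motive := fun _ => ℕ → ℕ) (fun a => a)
      (fun i ih a => forceN ((a * a) >>> 256) fun a2 =>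
        forceN (bif Nat.beq ((m >>> i) % 2) 1 then (a2 * R) >>> 32 else a2) ih) k a : ℕ) : ℝ) /
      2 ^ 256 ≤ x ^ 2 ^ k * ((R : ℝ) / 2 ^ 32) ^ (m % 2 ^ k) := by
  induction k with
  | zero => intro a x h; simpa [Nat.mod_one] using h
  | succ k ih =>
    intro a x h
    have hs : (0 : ℝ) < 2 ^ 256 := pow_pos two_pos _
    have h2 := mul_lo (k := 256) hs h h
    have h3 := mul_lo (k := 32) (b := R) hs h2 le_rfl
    have e := ih (bif Nat.beq ((m >>> k) % 2) 1 then (((a * a) >>> 256) * R) >>> 32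
      else (a * a) >>> 256) (x * x * ((R : ℝ) / 2 ^ 32) ^ (m / 2 ^ k % 2)) (by
        rw [Nat.shiftRight_eq_div_pow m k]
        rcases Nat.mod_two_eq_zero_or_one (m / 2 ^ k) with h | h
        · rw [h, pow_zero, mul_one]; exact h2
        · rw [h, pow_one]; exact h3)
    simp only [forceN_eq] at e ⊢
    refine e.trans (le_of_eq ?_)
    rw [Nat.mod_pow_succ]
    generalize (R : ℝ) / 2 ^ 32 = r
    rw [pow_succ 2 k]
    generalize 2 ^ k = n
    ring

theorem rpowH_rec (R m k : ℕ) : ∀ (a : ℕ) (x : ℝ), 0 ≤ x → x ≤ (a : ℝ) / 2 ^ 256 →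
    x ^ 2 ^ k * ((R : ℝ) / 2 ^ 32) ^ (m % 2 ^ k) ≤
    ((Nat.rec (motive := fun _ => ℕ → ℕ) (fun a => a)
      (fun i ih a => forceN ((a * a) >>> 256 + 1) fun a2 =>
        forceN (bif Nat.beq ((m >>> i) % 2) 1 then (a2 * R) >>> 32 + 1 else a2) ih) k a : ℕ) : ℝ) /
      2 ^ 256 := by
  induction k with
  | zero => intro a x _ h; simpa [Nat.mod_one] using h
  | succ k ih =>
    intro a x hx h
    have hs : (0 : ℝ) < 2 ^ 256 := pow_pos two_pos _
    have hr : (0 : ℝ) ≤ (R : ℝ) / 2 ^ 32 := by positivity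
    have h2 := mul_hi (k := 256) hs hx h h
    have h3 := mul_hi (k := 32) (b := R) hs hr h2 le_rfl
    have e := ih (bif Nat.beq ((m >>> k) % 2) 1 then (((a * a) >>> 256 + 1) * R) >>> 32 + 1
      else (a * a) >>> 256 + 1) (x * x * ((R : ℝ) / 2 ^ 32) ^ (m / 2 ^ k % 2))
      (mul_nonneg (mul_nonneg hx hx) (pow_nonneg hr _)) (by
        rw [Nat.shiftRight_eq_div_pow m k]
        rcases Nat.mod_two_eq_zero_or_one (m / 2 ^ k) with h | h
        · rw [h, pow_zero, mul_one]; exact h2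
        · rw [h, pow_one]; exact h3)
    simp only [forceN_eq] at e ⊢
    refine le_trans (le_of_eq ?_) e
    rw [Nat.mod_pow_succ]
    generalize (R : ℝ) / 2 ^ 32 = r
    rw [pow_succ 2 k]
    generalize 2 ^ k = n
    ring

end ZGamX

open ZGamX

variable {G : ℕ → ℕ} {R m : ℕ}

theorem Cc_pos (hR : 0 < R) : 0 < Cc R := by
  unfold Cc
  have hr : (0 : ℝ) < (R : ℝ) / 2 ^ 32 := by positivity
  exact div_pos (by norm_num) (pow_pos hr _)

theorem gamOK_of {l : List ℕ} (h : ∀ c, c < 16 → gamChk c (nth l c) = true) :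
    GamOK (gamGet l) := by
  intro f hf
  have h1 := all_rec (f := fun i => Nat.beq (fld (nth l (f / 256)) 240 i)
    (gamE (256 * (f / 256) + i))) (n := 256) (h (f / 256) (by omega)) (f % 256) (by omega)
  rw [Nat.div_add_mod] at h1
  exact Nat.eq_of_beq_eq_true h1

theorem rpow_encl (hm : m < 65536) : (rpowL R m : ℝ) / 2 ^ 256 ≤ ((R : ℝ) / 2 ^ 32) ^ m ∧
    ((R : ℝ) / 2 ^ 32) ^ m ≤ (rpowH R m : ℝ) / 2 ^ 256 := by
  have hs : (0 : ℝ) < 2 ^ 256 := pow_pos two_pos _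
  have e : ((1 <<< 256 : ℕ) : ℝ) / 2 ^ 256 = 1 := by
    rw [Nat.shiftLeft_eq, one_mul, Nat.cast_pow, Nat.cast_ofNat, div_self hs.ne']
  have hmm : m % 2 ^ 16 = m := Nat.mod_eq_of_lt hm
  have a := rpowL_rec R m 16 (1 <<< 256) 1 e.le
  have b := rpowH_rec R m 16 (1 <<< 256) 1 zero_le_one e.ge
  rw [one_pow, one_mul, hmm] at a b
  exact ⟨a, b⟩

theorem muL0_le (hG : GamOK G) (hR : 0 < R) {rl : ℕ}
    (h : (rl : ℝ) / 2 ^ 256 ≤ ((R : ℝ) / 2 ^ 32) ^ m) :
    (muL0 G rl m : ℝ) / 2 ^ 256 ≤ mu (Cc R) (m / 4096) := by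
  have hf : m % 4096 < 4096 := Nat.mod_lt _ (by norm_num)
  have hs : (0 : ℝ) < 2 ^ 256 := pow_pos two_pos _
  rw [mu_eq hR]
  unfold muL0
  rw [hG _ hf, hG 0 (by norm_num)]
  have a := (ratio_encl hf).1
  have g0 := gam_zero_pos
  generalize Real.Gamma (1 + ((m % 4096 : ℕ) : ℝ) / 4096) /
    160 ^ (((m % 4096 : ℕ) : ℝ) / 4096) = Γ at a ⊢
  generalize rise (m % 4096) (m / 4096) = c
  generalize gamE (m % 4096) = u at a ⊢
  generalize gamE 0 = g at a g0 ⊢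
  generalize m / 4096 = I
  have b := div_le' (u * c * rl) ((g + 4) * 655360 ^ I)
  generalize (2 : ℝ) ^ 256 = s at h hs ⊢
  refine (div_le_div_of_nonneg_right b hs.le).trans ?_
  have e : ((u * c * rl : ℕ) : ℝ) / (((g + 4) * 655360 ^ I : ℕ) : ℝ) / s =
      (u : ℝ) / (g + 4) * (c * (rl / s) / 655360 ^ I) := by
    push_cast
    field_simp
  rw [e]
  refine mul_le_mul a ?_ (by positivity) (le_trans (by positivity) a)
  gcongr

theorem muH0_ge (hG : GamOK G) (hR : 0 < R) {rh : ℕ}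
    (h : ((R : ℝ) / 2 ^ 32) ^ m ≤ (rh : ℝ) / 2 ^ 256) :
    mu (Cc R) (m / 4096) ≤ (muH0 G rh m : ℝ) / 2 ^ 256 := by
  have hf : m % 4096 < 4096 := Nat.mod_lt _ (by norm_num)
  have hs : (0 : ℝ) < 2 ^ 256 := pow_pos two_pos _
  rw [mu_eq hR]
  unfold muH0
  rw [hG _ hf, hG 0 (by norm_num)]
  have a := (ratio_encl hf).2
  have g0 := gam_zero_pos
  generalize Real.Gamma (1 + ((m % 4096 : ℕ) : ℝ) / 4096) /
    160 ^ (((m % 4096 : ℕ) : ℝ) / 4096) = Γ at a ⊢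
  generalize rise (m % 4096) (m / 4096) = c
  generalize gamE (m % 4096) = u at a ⊢
  generalize gamE 0 = g at a g0 ⊢
  generalize m / 4096 = I
  have b := div_lt' ((u + 4) * c * rh) (g * 655360 ^ I)
  have hr : (0 : ℝ) ≤ ((R : ℝ) / 2 ^ 32) ^ m := by positivity
  generalize ((R : ℝ) / 2 ^ 32) ^ m = p at h hr ⊢
  generalize (2 : ℝ) ^ 256 = s at h hs ⊢
  refine le_trans ?_ (div_le_div_of_nonneg_right b hs.le)
  have e : (((u + 4) * c * rh : ℕ) : ℝ) / ((g * 655360 ^ I : ℕ) : ℝ) / s =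
      ((u : ℝ) + 4) / g * (c * (rh / s) / 655360 ^ I) := by
    push_cast
    field_simp
  rw [e]
  refine mul_le_mul a ?_ (by positivity) (by positivity)
  gcongr

theorem mL40_le (hG : GamOK G) (hR : 0 < R) (hm : m < 65536) :
    rr (mL40 G R m) ≤ mu (Cc R) (m / 4096) := by
  have h := muL0_le hG hR (rpow_encl (R := R) hm).1
  refine le_trans ?_ h
  unfold mL40 rr muL
  have a := shr_le (muL0 G (rpowL R m) m) 216
  have e : (2 : ℝ) ^ 256 = 2 ^ 216 * 2 ^ 40 := by rw [← pow_add]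
  rw [e, ← div_div]
  exact div_le_div_of_nonneg_right a (pow_pos two_pos _).le

theorem mH40_ge (hG : GamOK G) (hR : 0 < R) (hm : m < 65536) :
    mu (Cc R) (m / 4096) ≤ rr (mH40 G R m) := by
  have h := muH0_ge hG hR (rpow_encl (R := R) hm).2
  refine h.trans ?_
  unfold mH40 rr muH
  have a := shr_lt (muH0 G (rpowH R m) m) 216
  have e : (2 : ℝ) ^ 256 = 2 ^ 216 * 2 ^ 40 := by rw [← pow_add]
  rw [e, ← div_div]
  exact div_le_div_of_nonneg_right a (pow_pos two_pos _).le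

namespace ZGamX

/-- The lists enclose the first `i` values of `A`, the largest index first. -/
def Inv (A : ℕ → ℝ) (i : ℕ) (la lr : List ℕ) : Prop :=
  la.length = i ∧ lr.length = i ∧ ∀ j, j < i → (nth la (i - 1 - j) : ℝ) ≤ A j ∧
    A j ≤ (nth la (i - 1 - j) : ℝ) + nth lr (i - 1 - j)

theorem Inv.step {A : ℕ → ℝ} {i lo hi : ℕ} {la lr : List ℕ} (h : Inv A i la lr)
    (h1 : (lo : ℝ) ≤ A i) (h2 : A i ≤ hi) : Inv A (i + 1) (lo :: la) ((hi - lo) :: lr) := by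
  obtain ⟨a, b, c⟩ := h
  refine ⟨by rw [List.length_cons, a], by rw [List.length_cons, b], fun j hj => ?_⟩
  rcases Nat.lt_succ_iff_lt_or_eq.1 hj with hj | rfl
  · have e : i + 1 - 1 - j = (i - 1 - j) + 1 := by omega
    rw [e]
    exact c j hj
  · have e : j + 1 - 1 - j = 0 := by omega
    rw [e]
    refine ⟨h1, h2.trans ?_⟩
    have : hi ≤ lo + (hi - lo) := by omega
    exact_mod_cast this

theorem mu_pos (hR : 0 < R) {a : ℝ} (ha : 0 ≤ a) : 0 < mu (Cc R) a :=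
  mul_pos (Real.Gamma_pos_of_pos (by linarith)) (Real.rpow_pos_of_pos (Cc_pos hR) _)

theorem coef_lo {x y fa P : ℕ} {u v s : ℝ} (hs : 0 < s) (hv : 0 < v) (hf : 0 < fa)
    (hx : (x : ℝ) / s ≤ u) (hy : v ≤ (y : ℝ) / s) :
    (((x <<< P) / (y * fa) : ℕ) : ℝ) ≤ u / v * 2 ^ P / fa := by
  refine (div_le' _ _).trans ?_
  have hf' : (0 : ℝ) < fa := by exact_mod_cast hf
  have hy' : (0 : ℝ) < y := by
    have := hv.trans_le hy
    exact (div_pos_iff_of_pos_right hs).1 this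
  have e : ((x <<< P : ℕ) : ℝ) / ((y * fa : ℕ) : ℝ) = (x / s) / (y / s) * 2 ^ P / fa := by
    rw [Nat.shiftLeft_eq]
    push_cast
    field_simp
  rw [e]
  have hu : 0 ≤ u := le_trans (by positivity) hx
  gcongr

theorem coef_hi {x y fa P : ℕ} {u v s : ℝ} (hs : 0 < s) (hy' : 0 < y) (hf : 0 < fa)
    (hx : u ≤ (x : ℝ) / s) (hy : (y : ℝ) / s ≤ v) :
    u / v * 2 ^ P / fa ≤ (((x <<< P) / (y * fa) + 1 : ℕ) : ℝ) := by
  refine le_trans ?_ (div_lt' _ _)
  have hf' : (0 : ℝ) < fa := by exact_mod_cast hf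
  have hy'' : (0 : ℝ) < y := by exact_mod_cast hy'
  have e : ((x <<< P : ℕ) : ℝ) / ((y * fa : ℕ) : ℝ) = (x / s) / (y / s) * 2 ^ P / fa := by
    rw [Nat.shiftLeft_eq]
    push_cast
    field_simp
  rw [e]
  gcongr

theorem coef_rec (hG : GamOK G) (hR : 0 < R) {r2l r2h m0l m0h : ℕ} (P : ℕ)
    (h2l : (r2l : ℝ) / 2 ^ 256 ≤ ((R : ℝ) / 2 ^ 32) ^ (2 * m))
    (h2h : ((R : ℝ) / 2 ^ 32) ^ (2 * m) ≤ (r2h : ℝ) / 2 ^ 256) (hL : 0 < m0l)
    (h0l : (m0l : ℝ) / 2 ^ 256 ≤ mu (Cc R) (m / 4096))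
    (h0h : mu (Cc R) (m / 4096) ≤ (m0h : ℝ) / 2 ^ 256) (n : ℕ) :
    ∀ (i rl rh fa : ℕ) (la lr : List ℕ),
      (rl : ℝ) / 2 ^ 256 ≤ ((R : ℝ) / 2 ^ 32) ^ ((2 * i + 1) * m) →
      ((R : ℝ) / 2 ^ 32) ^ ((2 * i + 1) * m) ≤ (rh : ℝ) / 2 ^ 256 →
      fa = 4 ^ i * (2 * i + 1).factorial →
      Inv (fun j => aa (Cc R) (m / 4096) j * 2 ^ P / 4 ^ j) i la lr →
      ∀ w : List ℕ × List ℕ, w = Nat.rec
        (motive := fun _ => ℕ → ℕ → ℕ → ℕ → List ℕ → List ℕ → List ℕ × List ℕ)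
        (fun _ _ _ _ la lr => (la, lr))
        (fun _ ih i rl rh fa la lr =>
          ih (i + 1) ((rl * r2l) >>> 256) ((rh * r2h) >>> 256 + 1)
            (fa * (4 * (2 * i + 2) * (2 * i + 3)))
            ((muL0 G rl ((2 * i + 1) * m) <<< P) / (m0h * fa) :: la)
            (((muH0 G rh ((2 * i + 1) * m) <<< P) / (m0l * fa) + 1 -
              (muL0 G rl ((2 * i + 1) * m) <<< P) / (m0h * fa)) :: lr))
        n i rl rh fa la lr →
      Inv (fun j => aa (Cc R) (m / 4096) j * 2 ^ P / 4 ^ j) (i + n) w.1 w.2 := by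
  induction n with
  | zero =>
    intro i rl rh fa la lr _ _ _ h w hw
    rw [hw]
    exact h
  | succ n ih =>
    intro i rl rh fa la lr hl hh hfa h w hw
    have hs : (0 : ℝ) < 2 ^ 256 := pow_pos two_pos _
    have hr : (0 : ℝ) ≤ (R : ℝ) / 2 ^ 32 := by positivity
    have hf : 0 < fa := by rw [hfa]; positivity
    have ep : ((R : ℝ) / 2 ^ 32) ^ ((2 * (i + 1) + 1) * m) =
        ((R : ℝ) / 2 ^ 32) ^ ((2 * i + 1) * m) * ((R : ℝ) / 2 ^ 32) ^ (2 * m) := by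
      rw [← pow_add]
      congr 1
      ring
    have hA : aa (Cc R) (m / 4096) i * 2 ^ P / 4 ^ i =
        mu (Cc R) ((((2 * i + 1) * m : ℕ) : ℝ) / 4096) / mu (Cc R) (m / 4096) * 2 ^ P / fa := by
      have e : (((2 * i + 1) * m : ℕ) : ℝ) / 4096 = (2 * i + 1) * ((m : ℝ) / 4096) := by
        push_cast
        ring
      rw [e, hfa]
      unfold aa
      push_cast
      ring
    have hv : 0 < mu (Cc R) (m / 4096) := mu_pos hR (by positivity)
    have e : i + (n + 1) = i + 1 + n := by ring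
    rw [e]
    refine ih (i + 1) _ _ _ _ _ ?_ ?_ ?_ ?_ w hw
    · rw [ep]
      exact mul_lo hs hl h2l
    · rw [ep]
      exact mul_hi hs (pow_nonneg hr _) hh h2h
    · have e2 : 2 * (i + 1) + 1 = 2 * i + 1 + 1 + 1 := by ring
      rw [hfa, e2, Nat.factorial_succ (2 * i + 1 + 1), Nat.factorial_succ (2 * i + 1)]
      ring
    · refine h.step ?_ ?_
      · rw [hA]
        exact coef_lo hs hv hf (muL0_le hG hR hl) h0h
      · rw [hA]
        exact coef_hi hs hL hf (muH0_ge hG hR hh) h0l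

end ZGamX

/-- The enclosures of the scaled Taylor coefficients at zero, listed from the top. -/
theorem coefs_spec (hG : GamOK G) (hR : 0 < R) (h0 : 0 < m) (hm : m < 2048)
    (hL : 0 < muL G R m) (P n : ℕ) :
    (coefs G R m P n).1.length = n ∧ (coefs G R m P n).2.length = n ∧ ∀ i, i < n →
      (nth (coefs G R m P n).1 (n - 1 - i) : ℝ) ≤ aa (Cc R) (m / 4096) i * 2 ^ P / 4 ^ i ∧
      aa (Cc R) (m / 4096) i * 2 ^ P / 4 ^ i ≤
        (nth (coefs G R m P n).1 (n - 1 - i) : ℝ) + nth (coefs G R m P n).2 (n - 1 - i) := by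
  have _ := h0
  have h1 := rpow_encl (R := R) (m := m) (by omega)
  have h2 := rpow_encl (R := R) (m := 2 * m) (by omega)
  have e : (2 * 0 + 1) * m = m := by ring
  have h := coef_rec hG hR P h2.1 h2.2 hL (muL0_le hG hR h1.1) (muH0_ge hG hR h1.2) n 0
    (rpowL R m) (rpowH R m) 1 [] [] (by rw [e]; exact h1.1) (by rw [e]; exact h1.2) rfl
    ⟨rfl, rfl, fun j hj => absurd hj (Nat.not_lt_zero j)⟩ (coefs G R m P n)
    (by unfold coefs; simp only [forceN_eq]; rfl)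
  rw [Nat.zero_add] at h
  exact h

end Pool.Agent.MP_39fec4_gt.K

end
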