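import Pool.Agent.Mg.F39fec4.Ge01b65
import Pool.Agent.Mg.F39fec4.Gfeb7cc
import Pool.Agent.Mg.F39fec4.G1d9b53

section

set_option autoImplicit false
set_option maxRecDepth 100000

namespace Pool.Agent.MP_39fec4_gt.K

theorem b05b : R.OKb gamF b05 :=
  ⟨by decide +kernel,
    by decide +kernel,
    by decide +kernel,
    by decide +kernel,
    by decide +kernel,
    by decide +kernel⟩

end Pool.Agent.MP_39fec4_gt.K

end

section

set_option autoImplicit false
set_option maxRecDepth 100000

namespace Pool.Agent.MP_39fec4_gt.K

theorem b06c : R.OKc gamF b06 :=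
  ⟨by decide +kernel,
    by decide +kernel,
    by decide +kernel,
    by decide +kernel,
    by decide +kernel,
    by decide +kernel,
    by decide +kernel,
    by decide +kernel⟩

end Pool.Agent.MP_39fec4_gt.K

end
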