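import Pool.Agent.Mg.F39fec4.Gef3640

section

set_option autoImplicit false

namespace Pool.Agent.MP_39fec4_gt.Full

open MeasureTheory Set Real Ball P4

namespace FQmuX

theorem sq_le_exp (t : ℝ) : t ^ 2 ≤ Real.exp t + Real.exp (-t) - 2 := by
  have h1 : (t / 2) ^ 2 ≤ Real.sinh (t / 2) ^ 2 := by
    rcases le_total 0 (t / 2) with h | h
    · exact pow_le_pow_left₀ h (Real.self_le_sinh_iff.2 h) 2
    · have := Real.sinh_le_self_iff.2 h
      nlinarith
  have h2 : Real.exp t = Real.exp (t / 2) * Real.exp (t / 2) := by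
    rw [← Real.exp_add]; congr 1; ring
  have h3 : Real.exp (-t) = Real.exp (-(t / 2)) * Real.exp (-(t / 2)) := by
    rw [← Real.exp_add]; congr 1; ring
  have h4 : Real.exp (t / 2) * Real.exp (-(t / 2)) = 1 := by
    rw [← Real.exp_add]; simp
  rw [Real.sinh_eq] at h1
  nlinarith

theorem sq_log_le {x : ℝ} (hx : 0 < x) (a e : ℝ) :
    e ^ 2 * (x ^ a * Real.log x ^ 2) ≤ x ^ (a + e) + x ^ (a - e) - 2 * x ^ a := by
  have h := sq_le_exp (Real.log x * e)
  have h0 : 0 < x ^ a := Real.rpow_pos_of_pos hx a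
  have e1 : x ^ (a + e) = x ^ a * Real.exp (Real.log x * e) := by
    rw [Real.rpow_add hx, Real.rpow_def_of_pos hx e]
  have e2 : x ^ (a - e) = x ^ a * Real.exp (-(Real.log x * e)) := by
    rw [sub_eq_add_neg, Real.rpow_add hx, Real.rpow_def_of_pos hx (-e), mul_neg]
  rw [e1, e2]
  nlinarith [mul_le_mul_of_nonneg_left h h0.le]

theorem tangent_pt {x : ℝ} (hx : 0 < x) (a b : ℝ) :
    x ^ a + (b - a) * (x ^ a * Real.log x) ≤ x ^ b := by
  have h0 : 0 < x ^ a := Real.rpow_pos_of_pos hx a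
  have e1 : x ^ b = x ^ a * Real.exp (Real.log x * (b - a)) := by
    rw [← Real.rpow_def_of_pos hx, ← Real.rpow_add hx]; congr 1; ring
  have h := Real.add_one_le_exp (Real.log x * (b - a))
  rw [e1]
  nlinarith [mul_le_mul_of_nonneg_left h h0.le]

theorem mono_pt {x : ℝ} (hx : 0 < x) {a b : ℝ} (hab : a ≤ b) :
    x ^ a * Real.log x ≤ x ^ b * Real.log x := by
  rcases le_total 1 x with h | h
  · exact mul_le_mul_of_nonneg_right (Real.rpow_le_rpow_of_exponent_le h hab) (Real.log_nonneg h)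
  · exact mul_le_mul_of_nonpos_right (Real.rpow_le_rpow_of_exponent_ge hx h hab)
      (Real.log_nonpos hx.le h)

theorem conv_pt {x : ℝ} (hx : 0 < x) (a0 a1 : ℝ) {th : ℝ} (h0 : 0 ≤ th) (h1 : th ≤ 1) :
    x ^ ((1 - th) * a0 + th * a1) ≤ (1 - th) * x ^ a0 + th * x ^ a1 := by
  have t0 := tangent_pt hx ((1 - th) * a0 + th * a1) a0
  have t1 := tangent_pt hx ((1 - th) * a0 + th * a1) a1
  have u0 := mul_le_mul_of_nonneg_left t0 (sub_nonneg.2 h1)
  have u1 := mul_le_mul_of_nonneg_left t1 h0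
  nlinarith

theorem mid_pt {x : ℝ} (hx : 0 < x) {b c : ℝ} (h0 : 0 ≤ b) (h1 : b ≤ c) :
    x ^ b ≤ x ^ (0 : ℝ) + x ^ c := by
  have p0 : 0 < x ^ (0 : ℝ) := Real.rpow_pos_of_pos hx _
  have p1 : 0 < x ^ c := Real.rpow_pos_of_pos hx _
  rcases le_total 1 x with h | h
  · exact (Real.rpow_le_rpow_of_exponent_le h h1).trans (le_add_of_nonneg_left p0.le)
  · exact (Real.rpow_le_rpow_of_exponent_ge hx h h0).trans (le_add_of_nonneg_right p1.le)

theorem exists_th {a0 a a1 : ℝ} (h1 : a0 ≤ a) (h2 : a ≤ a1) :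
    ∃ th : ℝ, 0 ≤ th ∧ th ≤ 1 ∧ a = (1 - th) * a0 + th * a1 := by
  rcases (h1.trans h2).eq_or_lt with h | h
  · exact ⟨0, le_rfl, zero_le_one, by linarith⟩
  · have hp : 0 < a1 - a0 := sub_pos.2 h
    refine ⟨(a - a0) / (a1 - a0), div_nonneg (by linarith) hp.le,
      (div_le_one hp).2 (by linarith), ?_⟩
    field_simp
    ring

theorem meas_k (C a : ℝ) (k : ℕ) : AEStronglyMeasurable
    (fun w : ℝ => Real.exp (-w) * ((w / C) ^ a * Real.log (w / C) ^ k))
    (volume.restrict (Ioi (0 : ℝ))) := by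
  apply Measurable.aestronglyMeasurable
  fun_prop

theorem hasDerivAt_pt {x : ℝ} (hx : 0 < x) (b : ℝ) :
    HasDerivAt (fun b : ℝ => x ^ b) (x ^ b * Real.log x) b :=
  (Real.hasStrictDerivAt_const_rpow hx b).hasDerivAt

end FQmuX

open FQmuX

variable {C q a : ℝ}

theorem int_nu (hC : 0 < C) (ha : 0 ≤ a) : IntegrableOn
    (fun w : ℝ => Real.exp (-w) * ((w / C) ^ a * Real.log (w / C) ^ 2)) (Ioi 0) := by
  have i1 := (mu_int hC (a := a + 1 / 2) (by linarith)).1
  have i2 := (mu_int hC (a := a - 1 / 2) (by linarith)).1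
  refine Integrable.mono' ((i1.add i2).const_mul 4) (meas_k C a 2) ?_
  filter_upwards [ae_restrict_mem measurableSet_Ioi] with w hw
  have hx : 0 < w / C := div_pos hw hC
  have h := sq_log_le hx a (1 / 2)
  have h0 : 0 < (w / C) ^ a := Real.rpow_pos_of_pos hx a
  have h1 : 0 < Real.exp (-w) := Real.exp_pos _
  rw [Real.norm_eq_abs, abs_of_nonneg (by positivity)]
  simp only [Pi.add_apply]
  nlinarith [mul_le_mul_of_nonneg_left h h1.le, mul_pos h1 h0]

theorem int_mu1 (hC : 0 < C) (ha : 0 ≤ a) : IntegrableOn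
    (fun w : ℝ => Real.exp (-w) * ((w / C) ^ a * Real.log (w / C))) (Ioi 0) := by
  have i1 := (mu_int hC (a := a) (by linarith)).1
  have i2 := int_nu hC ha
  have hm := meas_k C a 1
  simp only [pow_one] at hm
  refine Integrable.mono' (i1.add i2) hm ?_
  filter_upwards [ae_restrict_mem measurableSet_Ioi] with w hw
  have hx : 0 < w / C := div_pos hw hC
  have h0 : 0 < (w / C) ^ a := Real.rpow_pos_of_pos hx a
  have h1 : 0 < Real.exp (-w) := Real.exp_pos _
  have h2 : |Real.log (w / C)| ≤ 1 + Real.log (w / C) ^ 2 := by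
    rw [← sq_abs]; nlinarith [abs_nonneg (Real.log (w / C))]
  rw [Real.norm_eq_abs, abs_mul, abs_mul, abs_of_pos h0, abs_of_pos h1]
  simp only [Pi.add_apply]
  nlinarith [mul_le_mul_of_nonneg_left h2 (mul_pos h1 h0).le]

theorem hasDerivAt_mu (hC : 0 < C) (ha : 0 < a) : HasDerivAt (mu C) (mu1 C a) a := by
  have hs : Ioo 0 (2 * a) ∈ nhds a := Ioo_mem_nhds ha (by linarith)
  have key := hasDerivAt_integral_of_dominated_loc_of_deriv_le
    (μ := volume.restrict (Ioi (0 : ℝ)))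
    (F := fun b w => Real.exp (-w) * (w / C) ^ b)
    (F' := fun b w => Real.exp (-w) * ((w / C) ^ b * Real.log (w / C))) (x₀ := a)
    (bound := fun w => ‖Real.exp (-w) * ((w / C) ^ (0 : ℝ) * Real.log (w / C))‖ +
      ‖Real.exp (-w) * ((w / C) ^ (2 * a) * Real.log (w / C))‖) hs
    (Filter.Eventually.of_forall fun b => by
      have := meas_k C b 0
      simpa only [pow_zero, mul_one] using this)
    (mu_int hC (by linarith)).1
    (by have := meas_k C a 1; simpa only [pow_one] using this)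
    ?_ ((int_mu1 hC le_rfl).norm.add (int_mu1 hC (by linarith)).norm) ?_
  · refine key.2.congr_of_eventuallyEq ?_
    filter_upwards [hs] with b hb
    exact (mu_int hC (by linarith [hb.1])).2.symm
  · filter_upwards [ae_restrict_mem measurableSet_Ioi] with w hw b hb
    have hx : 0 < w / C := div_pos hw hC
    have h := mid_pt hx hb.1.le hb.2.le
    have h1 : 0 < Real.exp (-w) := Real.exp_pos _
    simp only [Real.norm_eq_abs, abs_mul, abs_of_pos h1, abs_of_pos (Real.rpow_pos_of_pos hx _)]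
    nlinarith [mul_le_mul_of_nonneg_left h (mul_nonneg h1.le (abs_nonneg (Real.log (w / C))))]
  · filter_upwards [ae_restrict_mem measurableSet_Ioi] with w hw b _
    exact (hasDerivAt_pt (div_pos hw hC) b).const_mul _

theorem hasDerivAt_mu1 (hC : 0 < C) (ha : 0 < a) : HasDerivAt (mu1 C) (nu C a) a := by
  have hs : Ioo 0 (2 * a) ∈ nhds a := Ioo_mem_nhds ha (by linarith)
  have key := hasDerivAt_integral_of_dominated_loc_of_deriv_le
    (μ := volume.restrict (Ioi (0 : ℝ)))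
    (F := fun b w => Real.exp (-w) * ((w / C) ^ b * Real.log (w / C)))
    (F' := fun b w => Real.exp (-w) * ((w / C) ^ b * Real.log (w / C) ^ 2)) (x₀ := a)
    (bound := fun w => Real.exp (-w) * ((w / C) ^ (0 : ℝ) * Real.log (w / C) ^ 2) +
      Real.exp (-w) * ((w / C) ^ (2 * a) * Real.log (w / C) ^ 2)) hs
    (Filter.Eventually.of_forall fun b => by
      have := meas_k C b 1
      simpa only [pow_one] using this)
    (int_mu1 hC ha.le) (meas_k C a 2)
    ?_ (Integrable.add (int_nu hC le_rfl) (int_nu hC (a := 2 * a) (by linarith))) ?_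
  · exact key.2
  · filter_upwards [ae_restrict_mem measurableSet_Ioi] with w hw b hb
    have hx : 0 < w / C := div_pos hw hC
    have h := mid_pt hx hb.1.le hb.2.le
    have h1 : 0 < Real.exp (-w) := Real.exp_pos _
    have h0 : 0 < (w / C) ^ b := Real.rpow_pos_of_pos hx b
    rw [Real.norm_eq_abs, abs_of_nonneg (by positivity)]
    nlinarith [mul_le_mul_of_nonneg_left h (mul_nonneg h1.le (sq_nonneg (Real.log (w / C))))]
  · filter_upwards [ae_restrict_mem measurableSet_Ioi] with w hw b _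
    have := ((hasDerivAt_pt (div_pos hw hC) b).mul_const (Real.log (w / C))).const_mul
      (Real.exp (-w))
    refine this.congr_deriv ?_
    ring

theorem nu_nonneg (hC : 0 < C) (a : ℝ) : 0 ≤ nu C a := by
  refine setIntegral_nonneg measurableSet_Ioi fun w hw => ?_
  have hx : 0 < w / C := div_pos hw hC
  have h0 : 0 < (w / C) ^ a := Real.rpow_pos_of_pos hx a
  positivity

theorem mu1_sq_le (hC : 0 < C) (ha : 0 < a) : mu1 C a ^ 2 ≤ mu C a * nu C a := by
  have hp := mu_pos hC (a := a) (by linarith)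
  obtain ⟨i0, e0⟩ := mu_int hC (a := a) (by linarith)
  have i1 := int_mu1 hC ha.le
  have i2 := int_nu hC ha.le
  have key : ∀ t : ℝ, 2 * t * mu1 C a ≤ nu C a + t ^ 2 * mu C a := by
    intro t
    rw [← e0, mu1, nu, ← integral_const_mul, ← integral_const_mul,
      ← integral_add i2 (i0.const_mul _)]
    refine setIntegral_mono_on (i1.const_mul _) (i2.add (i0.const_mul _)) measurableSet_Ioi ?_
    intro w hw
    have hx : 0 < w / C := div_pos hw hC
    have h0 : 0 < (w / C) ^ a := Real.rpow_pos_of_pos hx a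
    have h1 : 0 < Real.exp (-w) := Real.exp_pos _
    nlinarith [mul_nonneg (mul_pos h1 h0).le (sq_nonneg (Real.log (w / C) - t))]
  have h := mul_le_mul_of_nonneg_left (key (mu1 C a / mu C a)) hp.le
  have e1 : mu C a * (2 * (mu1 C a / mu C a) * mu1 C a) = 2 * mu1 C a ^ 2 := by
    field_simp
  have e2 : mu C a * (nu C a + (mu1 C a / mu C a) ^ 2 * mu C a) =
      mu C a * nu C a + mu1 C a ^ 2 := by
    field_simp
  rw [e1, e2] at h
  linarith

theorem nu_le_diff (hC : 0 < C) {e : ℝ} (he : 0 < e) (hea : e ≤ a) :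
    nu C a ≤ (mu C (a + e) + mu C (a - e) - 2 * mu C a) / e ^ 2 := by
  obtain ⟨i0, e0⟩ := mu_int hC (a := a) (by linarith)
  obtain ⟨i1, e1⟩ := mu_int hC (a := a + e) (by linarith)
  obtain ⟨i2, e2⟩ := mu_int hC (a := a - e) (by linarith)
  have i3 := int_nu hC (a := a) (by linarith)
  have i4 : IntegrableOn (fun w : ℝ => Real.exp (-w) * (w / C) ^ (a + e) +
      Real.exp (-w) * (w / C) ^ (a - e)) (Ioi 0) := i1.add i2
  rw [le_div_iff₀ (by positivity), mul_comm, ← e0, ← e1, ← e2, nu, ← integral_const_mul,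
    ← integral_const_mul, ← integral_add i1 i2, ← integral_sub i4 (i0.const_mul _)]
  refine setIntegral_mono_on (i3.const_mul _) (i4.sub (i0.const_mul _))
    measurableSet_Ioi ?_
  intro w hw
  have hx : 0 < w / C := div_pos hw hC
  have h1 : 0 < Real.exp (-w) := Real.exp_pos _
  have h := sq_log_le hx a e
  nlinarith [mul_le_mul_of_nonneg_left h h1.le]

theorem nu_le_max (hC : 0 < C) {a0 a1 : ℝ} (h0 : 0 < a0) (h1 : a0 ≤ a) (h2 : a ≤ a1) :
    nu C a ≤ max (nu C a0) (nu C a1) := by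
  obtain ⟨th, t0, t1, rfl⟩ := exists_th h1 h2
  have i := int_nu hC (h0.le.trans h1)
  have i0 := int_nu hC h0.le
  have i1 := int_nu hC ((h0.le.trans h1).trans h2)
  have key : nu C ((1 - th) * a0 + th * a1) ≤ (1 - th) * nu C a0 + th * nu C a1 := by
    rw [nu, nu, nu, ← integral_const_mul, ← integral_const_mul,
      ← integral_add (i0.const_mul _) (i1.const_mul _)]
    refine setIntegral_mono_on i ((i0.const_mul _).add (i1.const_mul _)) measurableSet_Ioi ?_
    intro w hw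
    have hx : 0 < w / C := div_pos hw hC
    have h3 : 0 < Real.exp (-w) := Real.exp_pos _
    have h := conv_pt hx a0 a1 t0 t1
    nlinarith [mul_le_mul_of_nonneg_left h (mul_nonneg h3.le (sq_nonneg (Real.log (w / C))))]
  have m0 := mul_le_mul_of_nonneg_left (le_max_left (nu C a0) (nu C a1)) (sub_nonneg.2 t1)
  have m1 := mul_le_mul_of_nonneg_left (le_max_right (nu C a0) (nu C a1)) t0
  linarith

theorem mu_le_max (hC : 0 < C) {a0 a1 : ℝ} (h0 : 0 < a0) (h1 : a0 ≤ a) (h2 : a ≤ a1) :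
    mu C a ≤ max (mu C a0) (mu C a1) := by
  obtain ⟨th, t0, t1, rfl⟩ := exists_th h1 h2
  obtain ⟨i, e⟩ := mu_int hC (a := (1 - th) * a0 + th * a1) (by linarith)
  obtain ⟨i0, e0⟩ := mu_int hC (a := a0) (by linarith)
  obtain ⟨i1, e1⟩ := mu_int hC (a := a1) (by linarith)
  have key : mu C ((1 - th) * a0 + th * a1) ≤ (1 - th) * mu C a0 + th * mu C a1 := by
    rw [← e, ← e0, ← e1, ← integral_const_mul, ← integral_const_mul,
      ← integral_add (i0.const_mul _) (i1.const_mul _)]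
    refine setIntegral_mono_on i ((i0.const_mul _).add (i1.const_mul _)) measurableSet_Ioi ?_
    intro w hw
    have hx : 0 < w / C := div_pos hw hC
    have h3 : 0 < Real.exp (-w) := Real.exp_pos _
    have h := conv_pt hx a0 a1 t0 t1
    nlinarith [mul_le_mul_of_nonneg_left h h3.le]
  have m0 := mul_le_mul_of_nonneg_left (le_max_left (mu C a0) (mu C a1)) (sub_nonneg.2 t1)
  have m1 := mul_le_mul_of_nonneg_left (le_max_right (mu C a0) (mu C a1)) t0
  linarith

theorem FQmuX.tangent (hC : 0 < C) (ha : 0 ≤ a) {b : ℝ} (hb : -1 < b) :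
    mu C a + (b - a) * mu1 C a ≤ mu C b := by
  obtain ⟨i0, e0⟩ := mu_int hC (a := a) (by linarith)
  obtain ⟨i1, e1⟩ := mu_int hC hb
  have i2 := int_mu1 hC ha
  rw [← e0, ← e1, mu1, ← integral_const_mul, ← integral_add i0 (i2.const_mul _)]
  refine setIntegral_mono_on (i0.add (i2.const_mul _)) i1 measurableSet_Ioi ?_
  intro w hw
  have hx : 0 < w / C := div_pos hw hC
  have h3 : 0 < Real.exp (-w) := Real.exp_pos _
  have h := tangent_pt hx a b
  nlinarith [mul_le_mul_of_nonneg_left h h3.le]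

theorem FQmuX.mu1_mono (hC : 0 < C) (ha : 0 ≤ a) {b : ℝ} (hb : a ≤ b) :
    mu1 C a ≤ mu1 C b := by
  refine setIntegral_mono_on (int_mu1 hC ha) (int_mu1 hC (ha.trans hb)) measurableSet_Ioi ?_
  intro w hw
  exact mul_le_mul_of_nonneg_left (mono_pt (div_pos hw hC) hb) (Real.exp_pos _).le

theorem mu1_bounds (hC : 0 < C) {a0 a1 e : ℝ} (he : 0 < e) (h0 : e ≤ a0) (h1 : a0 ≤ a)
    (h2 : a ≤ a1) : (mu C a0 - mu C (a0 - e)) / e ≤ mu1 C a ∧
      mu1 C a ≤ (mu C (a1 + e) - mu C a1) / e := by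
  have t0 := tangent hC (a := a0) (by linarith) (b := a0 - e) (by linarith)
  have t1 := tangent hC (a := a1) (by linarith) (b := a1 + e) (by linarith)
  have m0 := mul_le_mul_of_nonneg_left (mu1_mono hC (a := a0) (by linarith) h1) he.le
  have m1 := mul_le_mul_of_nonneg_left (mu1_mono hC (a := a) (by linarith) h2) he.le
  constructor
  · rw [div_le_iff₀ he]; nlinarith
  · rw [le_div_iff₀ he]; nlinarith

theorem mu_anti (hC : 0 < C) {a0 a1 e : ℝ} (he : 0 < e) (h0 : 0 < a0) (h1 : a0 ≤ a)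
    (h2 : a ≤ a1) (h : mu C (a1 + e) ≤ mu C a1) : mu C a1 ≤ mu C a ∧ mu C a ≤ mu C a0 := by
  have t1 := tangent hC (a := a1) (by linarith) (b := a1 + e) (by linarith)
  have n1 : mu1 C a1 ≤ 0 := by
    by_contra hc
    push Not at hc
    nlinarith [mul_pos he hc]
  have n2 : mu1 C a ≤ 0 := (mu1_mono hC (a := a) (by linarith) h2).trans n1
  have t2 := tangent hC (a := a1) (by linarith) (b := a) (by linarith)
  have t3 := tangent hC (a := a) (by linarith) (b := a0) (by linarith)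
  constructor
  · nlinarith [mul_nonneg_of_nonpos_of_nonpos (sub_nonpos.2 h2) n1]
  · nlinarith [mul_nonneg_of_nonpos_of_nonpos (sub_nonpos.2 h1) n2]

theorem kap_pos (hC : 0 < C) (hq : 0 < q) : 0 < kap C q := by
  have := mu_pos hC (a := q) (by linarith)
  have := Real.pi_pos
  unfold kap
  positivity

theorem hasDerivAt_kap (hC : 0 < C) (hq : 0 < q) :
    HasDerivAt (kap C) (-(kap C q * (Real.log 2 + mu1 C q / mu C q))) q := by
  have hp := mu_pos hC (a := q) (by linarith)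
  have h1 : HasDerivAt (fun q : ℝ => (2 : ℝ) ^ (-q)) ((2 : ℝ) ^ (-q) * Real.log 2 * (-1)) q :=
    (hasDerivAt_pt (x := 2) (by norm_num) (-q)).comp q (hasDerivAt_neg q)
  have h2 := (h1.const_mul (π / √2)).div (hasDerivAt_mu hC hq) hp.ne'
  refine HasDerivAt.congr_deriv h2 ?_
  unfold kap
  field_simp
  ring

theorem kap_D2 (hC : 0 < C) {a b kh t n : ℝ} (ha : 0 < a)
    (h : ∀ q ∈ Icc a b, kap C q ≤ kh ∧ |Real.log 2 + mu1 C q / mu C q| ≤ t ∧
      nu C q / mu C q ≤ n) : D2 (kap C) 0 a b kh (kh * t) (kh * max (t ^ 2) n) := by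
  refine ⟨fun q hq => (hasDerivAt_kap hC (ha.trans_le hq.1)).continuousAt.continuousWithinAt,
    fun q => -(kap C q * (Real.log 2 + mu1 C q / mu C q)),
    fun q => kap C q * ((Real.log 2 + mu1 C q / mu C q) ^ 2 -
      (nu C q / mu C q - (mu1 C q / mu C q) ^ 2)), fun s hs => ?_⟩
  have hs0 : 0 < s := ha.trans hs.1
  have hp := mu_pos hC (a := s) (by linarith)
  have hk := kap_pos hC hs0
  obtain ⟨b1, b2, b3⟩ := h s (Ioo_subset_Icc_self hs)
  refine ⟨hasDerivAt_kap hC hs0, ?_, by rwa [abs_of_pos hk], ?_, ?_⟩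
  · have h2 := ((hasDerivAt_kap hC hs0).mul
      (((hasDerivAt_mu1 hC hs0).div (hasDerivAt_mu hC hs0) hp.ne').const_add (Real.log 2))).neg
    refine HasDerivAt.congr_deriv h2 ?_
    simp only [Pi.div_apply]
    field_simp
    ring
  · rw [zero_mul, add_zero, abs_neg, abs_mul, abs_of_pos hk]
    exact mul_le_mul b1 b2 (abs_nonneg _) (hk.le.trans b1)
  · have e : ∀ u v w : ℝ, u + 2 * 0 * v + 0 ^ 2 * w = u := fun u v w => by ring
    rw [e, abs_mul, abs_of_pos hk]
    refine mul_le_mul b1 ?_ (abs_nonneg _) (hk.le.trans b1)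
    have u0 : (Real.log 2 + mu1 C s / mu C s) ^ 2 ≤ t ^ 2 := by
      rw [← sq_abs]; exact pow_le_pow_left₀ (abs_nonneg _) b2 2
    have v0 : (mu1 C s / mu C s) ^ 2 ≤ nu C s / mu C s := by
      rw [div_pow, div_le_div_iff₀ (by positivity) hp]
      nlinarith [mul_le_mul_of_nonneg_right (mu1_sq_le hC hs0) hp.le]
    have m0 := le_max_left (t ^ 2) n
    have m1 := le_max_right (t ^ 2) n
    rw [abs_le]
    constructor <;>
      nlinarith [sq_nonneg (Real.log 2 + mu1 C s / mu C s), sq_nonneg (mu1 C s / mu C s)]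

end Pool.Agent.MP_39fec4_gt.Full

end

section

set_option autoImplicit false

namespace Pool.Agent.MP_39fec4_gt.Full

open MeasureTheory Set Real Ball P4

namespace FQgX

theorem deriv_CC (k : ℕ) {y R : ℝ} (hy : 0 ≤ y) (hR : 0 < R) :
    HasDerivAt (fun R : ℝ => CC k (R ^ 2 * y)) (CC (k + 1) (R ^ 2 * y) * (2 * R * y)) R := by
  rcases hy.eq_or_lt with h | h
  · subst h
    simpa using hasDerivAt_const R (CC k 0)
  · have hp : 0 < R ^ 2 * y := by positivity
    have h1 : HasDerivAt (fun R : ℝ => R ^ 2 * y) (2 * R * y) R := by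
      simpa using (hasDerivAt_pow 2 R).mul_const y
    exact (hasDerivAt_CC k hp).comp R h1

theorem abs_pow_le (l : ℝ) {i : ℕ} (hi : i ≤ 2) : |l ^ i| ≤ 1 + l ^ 2 := by
  have h0 := sq_nonneg l
  interval_cases i
  · simp [h0]
  · rw [pow_one, abs_le]
    constructor <;> nlinarith [sq_nonneg (l - 1), sq_nonneg (l + 1)]
  · rw [abs_of_nonneg h0]; linarith

theorem rpow_pow_le {x q b : ℝ} (hx : 0 < x) (hq : 0 ≤ q) (hb : q ≤ b) (N : ℕ) :
    (x ^ q) ^ N ≤ 1 + x ^ (b * N) := by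
  rw [← Real.rpow_natCast, ← Real.rpow_mul hx.le]
  have h0 : 0 ≤ x ^ (b * N) := Real.rpow_nonneg hx.le _
  rcases le_total x 1 with h | h
  · have := Real.rpow_le_one hx.le h (by positivity : 0 ≤ q * N)
    linarith
  · have := Real.rpow_le_rpow_of_exponent_le h
      (mul_le_mul_of_nonneg_right hb (Nat.cast_nonneg N : (0 : ℝ) ≤ N))
    linarith

theorem int_bound {C a : ℝ} (hC : 0 < C) (ha : 0 ≤ a) : IntegrableOn
    (fun w : ℝ => Real.exp (-w) * ((1 + Real.log (w / C) ^ 2) * (2 + (w / C) ^ a))) (Ioi 0) := by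
  have i1 := (mu_int hC (by norm_num : (-1 : ℝ) < 0)).1
  have i2 := (mu_int hC (by linarith : (-1 : ℝ) < a)).1
  have i3 := int_nu hC (le_refl (0 : ℝ))
  have i4 := int_nu hC ha
  refine IntegrableOn.congr_fun (((i1.const_mul 2).add i2).add ((i3.const_mul 2).add i4))
    (fun w _ => ?_) measurableSet_Ioi
  simp only [Pi.add_apply, Real.rpow_zero]
  ring

theorem meas {C q : ℝ} (i : ℕ) {Φ : ℝ → ℝ} (h : Continuous Φ) : AEStronglyMeasurable
    (fun w : ℝ => Real.exp (-w) * (Real.log (w / C) ^ i * Φ ((w / C) ^ q)))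
    (volume.restrict (Ioi (0 : ℝ))) := by
  have h1 : Measurable fun w : ℝ => Φ ((w / C) ^ q) :=
    h.measurable.comp ((measurable_id.div_const C).pow_const q)
  have h2 : Measurable fun w : ℝ => Real.log (w / C) ^ i :=
    (Real.measurable_log.comp (measurable_id.div_const C)).pow_const i
  have h3 : Measurable fun w : ℝ => Real.exp (-w) := by fun_prop
  exact (h3.mul (h2.mul h1)).aestronglyMeasurable

theorem bound {C q b K w : ℝ} (hC : 0 < C) (hq : 0 ≤ q) (hb : q ≤ b) {i N : ℕ} (hi : i ≤ 2)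
    {Φ : ℝ → ℝ} (hK : 0 ≤ K) (h : ∀ R, 0 < R → |Φ R| ≤ K * (1 + R ^ N)) (hw : 0 < w) :
    ‖Real.exp (-w) * (Real.log (w / C) ^ i * Φ ((w / C) ^ q))‖ ≤
      K * (Real.exp (-w) * ((1 + Real.log (w / C) ^ 2) * (2 + (w / C) ^ (b * N)))) := by
  have hx : 0 < w / C := div_pos hw hC
  have h1 := h _ (Real.rpow_pos_of_pos hx q)
  have h2 := rpow_pow_le hx hq hb N
  have h3 := abs_pow_le (Real.log (w / C)) hi
  have h4 : |Φ ((w / C) ^ q)| ≤ K * (2 + (w / C) ^ (b * N)) :=
    h1.trans (mul_le_mul_of_nonneg_left (by linarith) hK)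
  rw [Real.norm_eq_abs, abs_mul, abs_mul, abs_of_pos (Real.exp_pos _)]
  calc Real.exp (-w) * (|Real.log (w / C) ^ i| * |Φ ((w / C) ^ q)|)
      ≤ Real.exp (-w) * ((1 + Real.log (w / C) ^ 2) * (K * (2 + (w / C) ^ (b * N)))) := by
        gcongr
    _ = _ := by ring

theorem key {C q K : ℝ} (hC : 0 < C) (hq : 0 < q) {i N : ℕ} (hi : i ≤ 1) {Φ Ψ : ℝ → ℝ}
    (cΦ : Continuous Φ) (cΨ : Continuous Ψ) (hd : ∀ R, 0 < R → HasDerivAt Φ (Ψ R / R) R)
    (hK : 0 ≤ K) (hΦ : ∀ R, 0 < R → |Φ R| ≤ K * (1 + R ^ N))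
    (hΨ : ∀ R, 0 < R → |Ψ R| ≤ K * (1 + R ^ N)) :
    HasDerivAt
      (fun q : ℝ => ∫ w in Ioi (0 : ℝ), Real.exp (-w) * (Real.log (w / C) ^ i * Φ ((w / C) ^ q)))
      (∫ w in Ioi (0 : ℝ), Real.exp (-w) * (Real.log (w / C) ^ (i + 1) * Ψ ((w / C) ^ q))) q := by
  have hI := (int_bound hC (by positivity : 0 ≤ 2 * q * N)).const_mul K
  refine (hasDerivAt_integral_of_dominated_loc_of_deriv_le (μ := volume.restrict (Ioi (0 : ℝ)))
    (F := fun q w => Real.exp (-w) * (Real.log (w / C) ^ i * Φ ((w / C) ^ q)))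
    (F' := fun q w => Real.exp (-w) * (Real.log (w / C) ^ (i + 1) * Ψ ((w / C) ^ q)))
    (bound := fun w => K * (Real.exp (-w) *
      ((1 + Real.log (w / C) ^ 2) * (2 + (w / C) ^ (2 * q * N)))))
    (x₀ := q) (s := Ioo 0 (2 * q)) (Ioo_mem_nhds hq (by linarith))
    (Filter.Eventually.of_forall fun s => meas i cΦ) ?_ (meas (i + 1) cΨ) ?_ hI ?_).2
  · refine hI.mono' (meas i cΦ) ((ae_restrict_iff' measurableSet_Ioi).2
      (Filter.Eventually.of_forall fun w hw => ?_))
    exact bound hC hq.le (by linarith) (by omega) hK hΦ hw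
  · refine (ae_restrict_iff' measurableSet_Ioi).2 (Filter.Eventually.of_forall fun w hw s hs => ?_)
    exact bound hC hs.1.le hs.2.le (by omega) hK hΨ hw
  · refine (ae_restrict_iff' measurableSet_Ioi).2 (Filter.Eventually.of_forall fun w hw s _ => ?_)
    have hx : 0 < w / C := div_pos hw hC
    have hR := Real.rpow_pos_of_pos hx s
    have h1 : HasDerivAt (fun s : ℝ => (w / C) ^ s) ((w / C) ^ s * Real.log (w / C)) s :=
      (Real.hasStrictDerivAt_const_rpow hx s).hasDerivAt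
    have h2 := (((hd _ hR).comp s h1).const_mul (Real.log (w / C) ^ i)).const_mul (Real.exp (-w))
    refine h2.congr_deriv ?_
    field_simp
    ring

theorem pow_le_one_add {R : ℝ} (hR : 0 < R) {m N : ℕ} (h : m ≤ N) : R ^ m ≤ 1 + R ^ N := by
  have h0 : 0 ≤ R ^ N := by positivity
  rcases le_total R 1 with h1 | h1
  · have := pow_le_one₀ hR.le h1 (n := m)
    linarith
  · have := pow_le_pow_right₀ h1 h
    linarith

theorem abs_term (k : ℕ) {R : ℝ} (hR : 0 < R) (z : ℝ) {m N : ℕ} (h : m ≤ N) :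
    |R ^ m * CC k z| ≤ bb k * (1 + R ^ N) := by
  rw [abs_mul, abs_of_pos (pow_pos hR _), mul_comm]
  exact mul_le_mul (abs_CC _ _) (pow_le_one_add hR h) (by positivity) (bb_pos k).le

end FQgX

open FQgX

variable {C q y : ℝ}

theorem hasDerivAt_GG_q (hC : 0 < C) (hq : 0 < q) (hy : 0 ≤ y) (j : ℕ) :
    HasDerivAt (fun q => GG C j q y) (GG1 C j q y) q := by
  have c0 := cont_CC j
  have c1 := cont_CC (j + 1)
  have b0 := bb_pos j
  have b1 := bb_pos (j + 1)
  have h := key hC hq (i := 0) (N := 2 * j + 1) (K := bb j + bb (j + 1)) (by norm_num)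
    (Φ := fun R => R ^ (2 * j + 1) * CC (j + 1) (R ^ 2 * y))
    (Ψ := fun R => -(1 / 2) * (R ^ (2 * j + 1) * CC j (R ^ 2 * y)))
    (by fun_prop) (by fun_prop) (fun R hR => ?_) (by positivity) (fun R hR => ?_) (fun R hR => ?_)
  · have h2 := h.const_mul (-2)
    simp only [pow_zero, one_mul, zero_add, pow_one] at h2
    refine h2.congr_deriv ?_
    rw [← integral_const_mul, GG1]
    congr 1
    funext w
    ring
  · have h1 := (hasDerivAt_pow (2 * j + 1) R).mul (deriv_CC (j + 1) hy hR)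
    refine h1.congr_deriv ?_
    rw [CC_rec j (by positivity : 0 ≤ R ^ 2 * y)]
    simp only [Nat.add_sub_cancel]
    field_simp
    push_cast
    ring
  · refine (abs_term (j + 1) hR _ le_rfl).trans ?_
    gcongr
    linarith
  · rw [abs_mul]
    have h1 := abs_term j hR (R ^ 2 * y) (le_refl (2 * j + 1))
    have h2 : 0 ≤ bb (j + 1) * (1 + R ^ (2 * j + 1)) := by positivity
    have h3 : |(-(1 / 2) : ℝ)| = 1 / 2 := by norm_num
    have h4 := abs_nonneg (R ^ (2 * j + 1) * CC j (R ^ 2 * y))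
    rw [h3]
    nlinarith

theorem hasDerivAt_GG1_q (hC : 0 < C) (hq : 0 < q) (hy : 0 ≤ y) (j : ℕ) :
    HasDerivAt (fun q => GG1 C j q y) (GG2 C j q y) q := by
  have c0 := cont_CC j
  have c1 := cont_CC (j + 1)
  have b0 := bb_pos j
  have b1 := bb_pos (j + 1)
  have h := key hC hq (i := 1) (N := 2 * j + 3) (K := (2 * j + 1) * bb j + 2 * y * bb (j + 1))
    (by norm_num)
    (Φ := fun R => R ^ (2 * j + 1) * CC j (R ^ 2 * y))
    (Ψ := fun R => R ^ (2 * j + 1) * ((2 * j + 1) * CC j (R ^ 2 * y) +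
      2 * (R ^ 2 * y) * CC (j + 1) (R ^ 2 * y)))
    (by fun_prop) (by fun_prop) (fun R hR => ?_) (by positivity) (fun R hR => ?_) (fun R hR => ?_)
  · simp only [pow_one] at h
    exact h
  · have h1 := (hasDerivAt_pow (2 * j + 1) R).mul (deriv_CC j hy hR)
    refine h1.congr_deriv ?_
    simp only [Nat.add_sub_cancel]
    field_simp
    push_cast
    ring
  · refine (abs_term j hR _ (by omega : 2 * j + 1 ≤ 2 * j + 3)).trans ?_
    gcongr
    have : 0 ≤ 2 * y * bb (j + 1) := by positivity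
    have : 0 ≤ 2 * j * bb j := by positivity
    linarith
  · have h1 := abs_term j hR (R ^ 2 * y) (by omega : 2 * j + 1 ≤ 2 * j + 3)
    have h2 := abs_term (j + 1) hR (R ^ 2 * y) (le_refl (2 * j + 3))
    have e : R ^ (2 * j + 1) * ((2 * j + 1) * CC j (R ^ 2 * y) +
        2 * (R ^ 2 * y) * CC (j + 1) (R ^ 2 * y)) =
        (2 * j + 1) * (R ^ (2 * j + 1) * CC j (R ^ 2 * y)) +
          2 * y * (R ^ (2 * j + 3) * CC (j + 1) (R ^ 2 * y)) := by ring
    rw [e]
    refine (abs_add_le _ _).trans ?_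
    rw [abs_mul, abs_mul (2 * y), abs_of_nonneg (by positivity : (0 : ℝ) ≤ 2 * j + 1),
      abs_of_nonneg (by positivity : (0 : ℝ) ≤ 2 * y)]
    calc _ ≤ (2 * j + 1) * (bb j * (1 + R ^ (2 * j + 3))) +
          2 * y * (bb (j + 1) * (1 + R ^ (2 * j + 3))) := by gcongr
      _ = _ := by ring

theorem hasDerivAt_gg_q (hC : 0 < C) (hq : 0 < q) (hy : 0 ≤ y) (j : ℕ) :
    HasDerivAt (fun q => gg C j q y) (gq1 C j q y) q := by
  have hm := mu_pos hC (by linarith : -1 < q)
  have h := (hasDerivAt_GG_q hC hq hy j).div (hasDerivAt_mu hC hq) hm.ne'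
  refine h.congr_deriv ?_
  unfold gq1 gg
  field_simp

theorem hasDerivAt_gq1_q (hC : 0 < C) (hq : 0 < q) (hy : 0 ≤ y) (j : ℕ) :
    HasDerivAt (fun q => gq1 C j q y) (gq2 C j q y) q := by
  have hm := mu_pos hC (by linarith : -1 < q)
  have h := ((hasDerivAt_GG1_q hC hq hy j).sub
    ((hasDerivAt_mu1 hC hq).mul (hasDerivAt_gg_q hC hq hy j))).div (hasDerivAt_mu hC hq) hm.ne'
  refine h.congr_deriv ?_
  have e : GG1 C j q y - mu1 C q * gg C j q y = gq1 C j q y * mu C q := by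
    unfold gq1
    field_simp
  simp only [Pi.sub_apply, Pi.mul_apply]
  rw [e]
  unfold gq2
  field_simp
  ring

theorem abs_gq2_le (hC : 0 < C) (hq : 0 < q) (j : ℕ) (y c0 : ℝ) {M m0 m1 n1 : ℝ} (h0 : 0 < m0)
    (hm : m0 ≤ mu C q) (h1 : |mu1 C q| ≤ m1) (hn : nu C q ≤ n1)
    (hM : |GG2 C j q y - c0 * nu C q| ≤ M) :
    |gq2 C j q y| ≤ M / m0 + 2 * m1 / m0 * |gq1 C j q y| + n1 / m0 * |gg C j q y - c0| := by
  have hp := mu_pos hC (by linarith : -1 < q)
  have hnu := nu_nonneg hC q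
  have e : gq2 C j q y = ((GG2 C j q y - c0 * nu C q) - 2 * (mu1 C q * gq1 C j q y) -
      nu C q * (gg C j q y - c0)) / mu C q := by
    unfold gq2
    ring
  have h2 : |(GG2 C j q y - c0 * nu C q) - 2 * (mu1 C q * gq1 C j q y) -
      nu C q * (gg C j q y - c0)| ≤ M + 2 * (m1 * |gq1 C j q y|) + n1 * |gg C j q y - c0| := by
    refine (abs_sub _ _).trans (add_le_add ((abs_sub _ _).trans (add_le_add hM ?_)) ?_)
    · rw [abs_mul, abs_mul, abs_two]
      gcongr
    · rw [abs_mul, abs_of_nonneg hnu]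
      gcongr
  rw [e, abs_div, abs_of_pos hp]
  calc _ ≤ (M + 2 * (m1 * |gq1 C j q y|) + n1 * |gg C j q y - c0|) / m0 :=
        div_le_div₀ ((abs_nonneg _).trans h2) h2 h0 hm
    _ = _ := by ring

/-- A crude global bound for the first derivative in `q`. -/
theorem abs_gq1_le (hC : 0 < C) (hq : 0 < q) (hy : 0 ≤ y) {m0 m1 n1 : ℝ} (h0 : 0 < m0)
    (hm : m0 ≤ mu C q) (h1 : |mu1 C q| ≤ m1) (hn : nu C q ≤ n1) :
    |gq1 C 0 q y| ≤ 1 / 2 + n1 / (2 * m0) + m1 / m0 := by
  have hp := mu_pos hC (by linarith : -1 < q)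
  have hnu := nu_nonneg hC q
  obtain ⟨i1, e1⟩ := mu_int hC (by linarith : -1 < q)
  have i2 := int_nu hC hq.le
  have hG : |GG1 C 0 q y| ≤ (mu C q + nu C q) / 2 := by
    have e : (mu C q + nu C q) / 2 = ∫ w in Ioi (0 : ℝ), (1 / 2) * (Real.exp (-w) * (w / C) ^ q +
        Real.exp (-w) * ((w / C) ^ q * Real.log (w / C) ^ 2)) := by
      rw [integral_const_mul, integral_add i1 i2, e1, nu]
      ring
    rw [e, GG1, ← Real.norm_eq_abs]
    refine norm_integral_le_of_norm_le ((i1.add i2).const_mul (1 / 2))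
      ((ae_restrict_iff' measurableSet_Ioi).2 (Filter.Eventually.of_forall fun w hw => ?_))
    have hR := Real.rpow_pos_of_pos (div_pos hw hC) q
    have h2 : |CC 0 (((w / C) ^ q) ^ 2 * y)| ≤ 1 := abs_CC 0 _
    have h3 : |Real.log (w / C)| ≤ (1 + Real.log (w / C) ^ 2) / 2 := by
      rw [abs_le]
      constructor <;> nlinarith [sq_nonneg (Real.log (w / C) - 1), sq_nonneg (Real.log (w / C) + 1)]
    rw [Real.norm_eq_abs, abs_mul, abs_mul, abs_mul, abs_of_pos (Real.exp_pos _), mul_zero,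
      zero_add, pow_one, abs_of_pos hR]
    calc Real.exp (-w) * (|Real.log (w / C)| * ((w / C) ^ q * |CC 0 (((w / C) ^ q) ^ 2 * y)|))
        ≤ Real.exp (-w) * ((1 + Real.log (w / C) ^ 2) / 2 * ((w / C) ^ q * 1)) := by gcongr
      _ = _ := by ring
  have hg : |gg C 0 q y| ≤ 1 := (gg_sm hC hq).bd y hy
  have hm1 : 0 ≤ m1 := (abs_nonneg _).trans h1
  have h2 : |GG1 C 0 q y - mu1 C q * gg C 0 q y| ≤ (mu C q + nu C q) / 2 + m1 := by
    refine (abs_sub _ _).trans (add_le_add hG ?_)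
    rw [abs_mul]
    calc _ ≤ m1 * 1 := by gcongr
      _ = m1 := mul_one _
  rw [gq1, abs_div, abs_of_pos hp]
  calc _ ≤ ((mu C q + nu C q) / 2 + m1) / mu C q := by gcongr
    _ = 1 / 2 + nu C q / (2 * mu C q) + m1 / mu C q := by field_simp
    _ ≤ _ := by gcongr; exact hnu.trans hn

end Pool.Agent.MP_39fec4_gt.Full

end
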