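import Pool.Agent.Mg.F39fec4.Gef3640

set_option autoImplicit false

namespace Pool.Agent.MP_39fec4_gt.Full

open MeasureTheory Set Real Ball P4

namespace FIntX

theorem inv_pow_int {S : ℝ} (hS : 0 < S) (k : ℕ) :
    IntegrableOn (fun s : ℝ => (1 / s) ^ (k + 2)) (Ioi S) ∧
      ∫ s in Ioi S, (1 / s : ℝ) ^ (k + 2) = (1 / S) ^ (k + 1) / (k + 1) := by
  have hlt : (-((k : ℝ) + 2)) < -1 := by
    have : (0 : ℝ) ≤ k := Nat.cast_nonneg k
    linarith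
  have he : ∀ s ∈ Ioi S, s ^ (-((k : ℝ) + 2)) = (1 / s : ℝ) ^ (k + 2) := by
    intro s hs
    have hs0 : 0 < s := hS.trans hs
    rw [Real.rpow_neg hs0.le, one_div, inv_pow, ← Real.rpow_natCast]
    push_cast
    rfl
  refine ⟨(integrableOn_Ioi_rpow_of_lt hlt hS).congr_fun he measurableSet_Ioi, ?_⟩
  rw [← setIntegral_congr_fun measurableSet_Ioi he, integral_Ioi_rpow_of_lt hlt hS]
  have h1 : -((k : ℝ) + 2) + 1 = -((k : ℝ) + 1) := by ring
  have h2 : S ^ (-((k : ℝ) + 1)) = (1 / S) ^ (k + 1) := by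
    rw [Real.rpow_neg hS.le, one_div, inv_pow, ← Real.rpow_natCast]
    push_cast
    rfl
  rw [h1, h2, neg_div_neg_eq]

theorem ind_int {S : ℝ} (hS : 0 < S) (K : ℝ) :
    IntegrableOn ((Ioi S).indicator fun s : ℝ => K * (1 / s) ^ 2) (Ioi 0) ∧
      ∫ s in Ioi (0 : ℝ), (Ioi S).indicator (fun s : ℝ => K * (1 / s) ^ 2) s = K / S := by
  obtain ⟨h1, h2⟩ := inv_pow_int hS 0
  simp only [zero_add, Nat.cast_zero, pow_one, div_one] at h1 h2
  refine ⟨(IntegrableOn.integrable_indicator (h1.const_mul K) measurableSet_Ioi).integrableOn, ?_⟩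
  rw [setIntegral_indicator measurableSet_Ioi, Ioi_inter_Ioi, sup_eq_right.mpr hS.le,
    integral_const_mul, h2]
  ring

theorem sqrt_pi_le : √π ≤ 1.78 := by
  rw [Real.sqrt_le_left (by norm_num)]
  have := Real.pi_lt_d2
  nlinarith

theorem gauss_int {c L : ℝ} (hc : 0 < c) (hL0 : 0 ≤ L) (hL : 1 ≤ c * L ^ 2) (k : ℕ) :
    IntegrableOn (fun s : ℝ => s ^ (2 * k) * Real.exp (-c * s ^ 2)) (Ioi 0) ∧
      ∫ s in Ioi (0 : ℝ), s ^ (2 * k) * Real.exp (-c * s ^ 2) ≤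
        L ^ (2 * k + 1) * (1 / 2) * Real.Gamma (k + 1 / 2) := by
  have hq : (-1 : ℝ) < ((2 * k : ℕ) : ℝ) := by
    have : (0 : ℝ) ≤ ((2 * k : ℕ) : ℝ) := Nat.cast_nonneg _
    linarith
  have h1 := integrableOn_rpow_mul_exp_neg_mul_sq hc hq
  have h2 := integral_rpow_mul_exp_neg_mul_rpow (p := 2) two_pos hq hc
  simp only [Real.rpow_natCast, Real.rpow_two] at h1 h2
  refine ⟨h1, ?_⟩
  rw [h2]
  have h3 : (((2 * k : ℕ) : ℝ) + 1) / 2 = k + 1 / 2 := by push_cast; ring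
  rw [h3]
  have hG : 0 ≤ Real.Gamma (k + 1 / 2) := (Real.Gamma_pos_of_pos (by positivity)).le
  have hLp : 0 < L := by
    rcases hL0.eq_or_lt with h | h
    · rw [← h] at hL; norm_num at hL
    · exact h
  have h4 : c ^ (-(((2 * k : ℕ) : ℝ) + 1) / 2) ≤ L ^ (2 * k + 1) := by
    have h5 : (L ^ 2)⁻¹ ≤ c := by
      rw [inv_le_iff_one_le_mul₀ (by positivity)]
      exact hL
    have h6 : c ^ (-(((2 * k : ℕ) : ℝ) + 1) / 2) ≤
        ((L ^ 2)⁻¹) ^ (-(((2 * k : ℕ) : ℝ) + 1) / 2) := by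
      apply Real.rpow_le_rpow_of_nonpos (by positivity) h5
      have : (0 : ℝ) ≤ ((2 * k : ℕ) : ℝ) := Nat.cast_nonneg _
      linarith
    refine h6.trans (le_of_eq ?_)
    rw [← Real.rpow_natCast L 2, ← Real.rpow_neg hL0, ← Real.rpow_mul hL0,
      ← Real.rpow_natCast L (2 * k + 1)]
    congr 1
    push_cast
    ring
  gcongr

theorem gamHalf1 : Real.Gamma (((1 : ℕ) : ℝ) + 1 / 2) = √π / 2 := by
  rw [show (((1 : ℕ) : ℝ) + 1 / 2) = 1 / 2 + 1 by norm_num, Real.Gamma_add_one (by norm_num),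
    Real.Gamma_one_half_eq]
  ring

theorem gamHalf2 : Real.Gamma (((2 : ℕ) : ℝ) + 1 / 2) = 3 * √π / 4 := by
  rw [show (((2 : ℕ) : ℝ) + 1 / 2) = (((1 : ℕ) : ℝ) + 1 / 2) + 1 by norm_num,
    Real.Gamma_add_one (by norm_num), gamHalf1]
  push_cast
  ring

theorem geo (m : ℕ) : ((m : ℝ) + 8) ^ 3 * (0.64 : ℝ) ^ m ≤ 512 := by
  induction m with
  | zero => norm_num
  | succ m ih =>
    have hm : (0 : ℝ) ≤ m := Nat.cast_nonneg m
    have h1 : ((m : ℝ) + 1 + 8) ^ 3 * 0.64 ≤ ((m : ℝ) + 8) ^ 3 := by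
      nlinarith [mul_nonneg hm hm, mul_nonneg hm (mul_nonneg hm hm)]
    have h2 : (0 : ℝ) ≤ (0.64 : ℝ) ^ m := by positivity
    push_cast
    calc ((m : ℝ) + 1 + 8) ^ 3 * (0.64 : ℝ) ^ (m + 1)
        = (((m : ℝ) + 1 + 8) ^ 3 * 0.64) * (0.64 : ℝ) ^ m := by ring
      _ ≤ ((m : ℝ) + 8) ^ 3 * (0.64 : ℝ) ^ m := by gcongr
      _ ≤ 512 := ih

theorem geo2 {B : ℝ} (hB0 : 0 ≤ B) (hB1 : B ≤ 0.8) (m : ℕ) :
    ((m : ℝ) + 8) * √((m : ℝ) + 8) * B ^ m ≤ 23 := by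
  have hm : (0 : ℝ) ≤ (m : ℝ) + 8 := by positivity
  have h1 : B ^ m ≤ (0.8 : ℝ) ^ m := pow_le_pow_left₀ hB0 hB1 m
  have h2 : (((m : ℝ) + 8) * √((m : ℝ) + 8) * (0.8 : ℝ) ^ m) ^ 2 ≤ 23 ^ 2 := by
    have h3 : (((m : ℝ) + 8) * √((m : ℝ) + 8) * (0.8 : ℝ) ^ m) ^ 2 =
        ((m : ℝ) + 8) ^ 3 * (0.64 : ℝ) ^ m := by
      rw [mul_pow, mul_pow, Real.sq_sqrt hm, ← pow_mul, mul_comm m 2, pow_mul]
      norm_num
      ring
    rw [h3]
    exact (geo m).trans (by norm_num)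
  have h4 := (pow_le_pow_iff_left₀ (by positivity) (by norm_num) two_ne_zero).mp h2
  calc ((m : ℝ) + 8) * √((m : ℝ) + 8) * B ^ m
      ≤ ((m : ℝ) + 8) * √((m : ℝ) + 8) * (0.8 : ℝ) ^ m := by gcongr
    _ ≤ 23 := h4

theorem far_mem {N Y1 y1 s : ℝ} (hN : 0 < N) (hY : y1 ^ 2 ≤ Y1) (hs : 0 < s)
    (h : Y1 < s ^ 2 / N) : s ∈ Ioi (√N * y1) := by
  have h1 : y1 ^ 2 * N < s ^ 2 := by
    rw [lt_div_iff₀ hN] at h
    nlinarith
  have h2 : (√N * y1) ^ 2 < s ^ 2 := by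
    rw [mul_pow, Real.sq_sqrt hN.le]
    linarith
  exact lt_of_pow_lt_pow_left₀ 2 hs.le h2

theorem dec_sq {N m0 s a : ℝ} (hN : 0 < N) (hm : 0 < m0) (hs : 0 < s) (ha : 0 ≤ a)
    (h : a ≤ 1 / (m0 * √(s ^ 2 / N))) : a ^ 2 ≤ N / m0 ^ 2 * (1 / s) ^ 2 := by
  refine (pow_le_pow_left₀ ha h 2).trans (le_of_eq ?_)
  rw [div_pow, mul_pow, Real.sq_sqrt (by positivity)]
  field_simp

theorem pow_int {g : ℝ → ℝ} (cg : Continuous g) {lam Y1 y1 B1 m0 : ℝ} (hlam : 0 < lam)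
    (hy1 : 0 < y1) (hY : y1 ^ 2 ≤ Y1) (hB1 : B1 ≤ 0.8) (hm : 0 < m0)
    (eg : ∀ y, 0 ≤ y → y ≤ Y1 → |g y| ≤ Real.exp (-(lam * y)))
    (bg : ∀ y, Y1 ≤ y → |g y| ≤ B1)
    (dg : ∀ y, 0 < y → |g y| ≤ 1 / (m0 * √y)) (m : ℕ) :
    IntegrableOn (fun s : ℝ => g (s ^ 2 / ((m + 2 : ℕ) : ℝ)) ^ (m + 2)) (Ioi 0) := by
  obtain ⟨N, hN⟩ : ∃ N : ℝ, N = ((m + 2 : ℕ) : ℝ) := ⟨_, rfl⟩
  have hN0 : 0 < N := by rw [hN]; positivity
  rw [← hN]
  have hS : 0 < √N * y1 := by positivity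
  have h1 := ((integrable_exp_neg_mul_sq hlam).integrableOn (s := Ioi 0)).add
    (ind_int hS (N / m0 ^ 2)).1
  refine Integrable.mono' h1 (Continuous.aestronglyMeasurable (by fun_prop)) ?_
  refine (ae_restrict_iff' measurableSet_Ioi).mpr (ae_of_all _ fun s hs => ?_)
  have hs0 : (0 : ℝ) < s := hs
  have hy : 0 < s ^ 2 / N := by positivity
  rw [Real.norm_eq_abs, abs_pow, Pi.add_apply]
  have hi : 0 ≤ (Ioi (√N * y1)).indicator (fun s : ℝ => N / m0 ^ 2 * (1 / s) ^ 2) s :=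
    indicator_nonneg (fun _ _ => by positivity) _
  rcases le_or_gt (s ^ 2 / N) Y1 with h | h
  · have h2 := pow_le_pow_left₀ (abs_nonneg _) (eg _ hy.le h) (m + 2)
    rw [← Real.exp_nat_mul, ← hN] at h2
    have h3 : N * -(lam * (s ^ 2 / N)) = -lam * s ^ 2 := by field_simp
    rw [h3] at h2
    linarith
  · rw [indicator_of_mem (far_mem hN0 hY hs0 h)]
    have h2 := dec_sq hN0 hm hs0 (abs_nonneg _) (dg _ hy)
    have h3 : |g (s ^ 2 / N)| ^ m ≤ 1 :=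
      pow_le_one₀ (abs_nonneg _) ((bg _ h.le).trans (hB1.trans (by norm_num)))
    have h4 : |g (s ^ 2 / N)| ^ (m + 2) ≤ |g (s ^ 2 / N)| ^ 2 := by
      rw [pow_add]
      exact mul_le_of_le_one_left (by positivity) h3
    have := Real.exp_pos (-lam * s ^ 2)
    linarith

theorem lin_bd {f f1 : ℝ → ℝ} (cf : Continuous f) (hd : ∀ y, 0 < y → HasDerivAt f (f1 y) y)
    {a b y : ℝ} (hy : 0 ≤ y) (hb : ∀ t, 0 < t → t < y → f1 t ≤ a + 2 * b * t) :
    f y ≤ f 0 + a * y + b * y ^ 2 := by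
  have hanti : AntitoneOn (fun t => f t - (a * t + b * t ^ 2)) (Icc 0 y) := by
    have hder : ∀ t, 0 < t → HasDerivAt (fun t => f t - (a * t + b * t ^ 2))
        (f1 t - (a + 2 * b * t)) t := by
      intro t ht
      have h1 : HasDerivAt (fun t : ℝ => a * t + b * t ^ 2) (a + 2 * b * t) t := by
        have h2 := ((hasDerivAt_id' t).const_mul a).fun_add ((hasDerivAt_pow 2 t).const_mul b)
        refine h2.congr_deriv ?_
        norm_num
        ring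
      exact (hd t ht).sub h1
    refine antitoneOn_of_deriv_nonpos (convex_Icc 0 y) (by fun_prop) ?_ ?_
    · intro t ht
      rw [interior_Icc] at ht
      exact (hder t ht.1).differentiableAt.differentiableWithinAt
    · intro t ht
      rw [interior_Icc] at ht
      rw [(hder t ht.1).deriv]
      linarith [hb t ht.1 ht.2]
  have := hanti (left_mem_Icc.mpr hy) (right_mem_Icc.mpr hy) hy
  simp only at this
  linarith

theorem one_side {g g1 g2 h h1 h2 : ℝ → ℝ} (sg : Sm g g1 g2) (sh : Sm h h1 h2) {al be Y1 : ℝ}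
    (h0 : g1 0 - h1 0 ≤ al) (hb : ∀ y, 0 ≤ y → y ≤ Y1 → g2 y - h2 y ≤ 2 * be) {y : ℝ}
    (hy : 0 ≤ y) (hy1 : y ≤ Y1) : g y - h y ≤ al * y + be * y ^ 2 := by
  have k1 : ∀ t, 0 ≤ t → t ≤ Y1 → g1 t - h1 t ≤ al + 2 * be * t := by
    intro t ht ht1
    have := lin_bd (f := fun t => g1 t - h1 t) (f1 := fun t => g2 t - h2 t) (sg.c1.sub sh.c1)
      (fun y hy => (sg.d1 y hy).sub (sh.d1 y hy)) (a := 2 * be) (b := 0) ht
      (fun u hu hu1 => by have := hb u hu.le (hu1.le.trans ht1); linarith)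
    linarith
  have := lin_bd (f := fun t => g t - h t) (f1 := fun t => g1 t - h1 t) (sg.c0.sub sh.c0)
    (fun y hy => (sg.d0 y hy).sub (sh.d0 y hy)) (a := al) (b := be) hy
    (fun u hu hu1 => k1 u hu.le (hu1.le.trans hy1))
  simp only [sg.z, sh.z] at this
  linarith

end FIntX

open FIntX

/-- Lipschitz bound for the diagonal integrals, uniform in the dimension. -/
theorem diag_lip {g h : ℝ → ℝ} (cg : Continuous g) (ch : Continuous h)
    {al be d lam Y1 y1 B1 m0 L e : ℝ} (he : 0 ≤ e) (hal : 0 ≤ al) (hbe : 0 ≤ be) (hd : 0 ≤ d)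
    (hlam : 0 < lam) (hy1 : 0 < y1) (hY : y1 ^ 2 ≤ Y1) (hB0 : 0 ≤ B1) (hB1 : B1 ≤ 0.8)
    (hm : 0 < m0) (hL0 : 0 ≤ L) (hL : 8 ≤ 7 * lam * L ^ 2)
    (near : ∀ y, 0 ≤ y → y ≤ Y1 → |g y - h y| ≤ (al * y + be * y ^ 2) * e)
    (all : ∀ y, 0 ≤ y → |g y - h y| ≤ d * e)
    (eg : ∀ y, 0 ≤ y → y ≤ Y1 → |g y| ≤ Real.exp (-(lam * y)) ∧ |h y| ≤ Real.exp (-(lam * y)))
    (bg : ∀ y, Y1 ≤ y → |g y| ≤ B1 ∧ |h y| ≤ B1)
    (dg : ∀ y, 0 < y → |g y| ≤ 1 / (m0 * √y) ∧ |h y| ≤ 1 / (m0 * √y)) {n : ℕ} (hn : 8 ≤ n) :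
    |DG g n - DG h n| ≤
      (0.45 * al * L ^ 3 + 0.084 * be * L ^ 5 + 23 * d * B1 ^ 5 / (m0 ^ 2 * y1)) * e := by
  obtain ⟨m, rfl⟩ : ∃ m, n = m + 6 + 2 := ⟨n - 8, by omega⟩
  have ig := pow_int cg hlam hy1 hY hB1 hm (fun y a b => (eg y a b).1) (fun y a => (bg y a).1)
    (fun y a => (dg y a).1) (m + 6)
  have ih := pow_int ch hlam hy1 hY hB1 hm (fun y a b => (eg y a b).2) (fun y a => (bg y a).2)
    (fun y a => (dg y a).2) (m + 6)
  unfold DG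
  rw [← integral_sub ig ih]
  obtain ⟨N, hN⟩ : ∃ N : ℝ, N = ((m + 6 + 2 : ℕ) : ℝ) := ⟨_, rfl⟩
  have hNm : N = (m : ℝ) + 8 := by rw [hN]; push_cast; ring
  have hm0 : (0 : ℝ) ≤ m := Nat.cast_nonneg m
  have hN8 : 8 ≤ N := by linarith
  have hN0 : 0 < N := by linarith
  rw [← hN]
  have hS : 0 < √N * y1 := by positivity
  have hc : 0 < 7 * lam / 8 := by positivity
  have hcL : 1 ≤ 7 * lam / 8 * L ^ 2 := by linarith
  obtain ⟨i1, v1⟩ := gauss_int hc hL0 hcL 1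
  obtain ⟨i2, v2⟩ := gauss_int hc hL0 hcL 2
  rw [gamHalf1] at v1
  rw [gamHalf2] at v2
  obtain ⟨K, hK⟩ : ∃ K : ℝ, K = d * e * N * B1 ^ (m + 5) * (N / m0 ^ 2) := ⟨_, rfl⟩
  have hK0 : 0 ≤ K := by rw [hK]; positivity
  obtain ⟨i3, v3⟩ := ind_int hS K
  have i12 := (i1.const_mul (al * e)).add (i2.const_mul (be / 8 * e))
  have iM := i12.add i3
  have hpt : ∀ s ∈ Ioi (0 : ℝ), ‖g (s ^ 2 / N) ^ (m + 6 + 2) - h (s ^ 2 / N) ^ (m + 6 + 2)‖ ≤
      al * e * (s ^ (2 * 1) * Real.exp (-(7 * lam / 8) * s ^ 2)) +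
        be / 8 * e * (s ^ (2 * 2) * Real.exp (-(7 * lam / 8) * s ^ 2)) +
        (Ioi (√N * y1)).indicator (fun s : ℝ => K * (1 / s) ^ 2) s := by
    intro s hs
    have hs0 : (0 : ℝ) < s := hs
    have hy : 0 < s ^ 2 / N := by positivity
    have hE := Real.exp_pos (-(7 * lam / 8) * s ^ 2)
    have h0 := abs_pow_sub_pow_le (g (s ^ 2 / N)) (h (s ^ 2 / N)) (m + 6 + 2)
    rw [← hN, show m + 6 + 2 - 1 = m + 7 by omega] at h0
    rw [Real.norm_eq_abs]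
    refine h0.trans ?_
    have hmax0 : 0 ≤ max |g (s ^ 2 / N)| |h (s ^ 2 / N)| := le_max_of_le_left (abs_nonneg _)
    rcases le_or_gt (s ^ 2 / N) Y1 with hle | hgt
    · have hi : 0 ≤ (Ioi (√N * y1)).indicator (fun s : ℝ => K * (1 / s) ^ 2) s :=
        indicator_nonneg (fun _ _ => by positivity) _
      have h1 := pow_le_pow_left₀ hmax0 (max_le (eg _ hy.le hle).1 (eg _ hy.le hle).2) (m + 7)
      rw [← Real.exp_nat_mul] at h1
      have h2 : Real.exp (((m + 7 : ℕ) : ℝ) * -(lam * (s ^ 2 / N))) ≤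
          Real.exp (-(7 * lam / 8) * s ^ 2) := by
        apply Real.exp_le_exp.mpr
        have h3 : ((m + 7 : ℕ) : ℝ) = N - 1 := by rw [hNm]; push_cast; ring
        have h4 : s ^ 2 / N ≤ s ^ 2 / 8 := by gcongr
        have h5 : (N - 1) * -(lam * (s ^ 2 / N)) = -(lam * s ^ 2) + lam * (s ^ 2 / N) := by
          field_simp
          ring
        rw [h3, h5]
        nlinarith [mul_le_mul_of_nonneg_left h4 hlam.le]
      have h6 : |g (s ^ 2 / N) - h (s ^ 2 / N)| * N ≤ (al * s ^ 2 + be / 8 * s ^ 4) * e := by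
        have h7 := mul_le_mul_of_nonneg_right (near _ hy.le hle) hN0.le
        refine h7.trans ?_
        have h8 : (al * (s ^ 2 / N) + be * (s ^ 2 / N) ^ 2) * e * N =
            (al * s ^ 2 + be / N * s ^ 4) * e := by field_simp
        rw [h8]
        gcongr
      have h9 := mul_le_mul h6 (h1.trans h2) (by positivity) (by positivity)
      refine h9.trans ?_
      have h10 : (al * s ^ 2 + be / 8 * s ^ 4) * e * Real.exp (-(7 * lam / 8) * s ^ 2) =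
          al * e * (s ^ (2 * 1) * Real.exp (-(7 * lam / 8) * s ^ 2)) +
            be / 8 * e * (s ^ (2 * 2) * Real.exp (-(7 * lam / 8) * s ^ 2)) := by ring
      linarith
    · rw [indicator_of_mem (far_mem hN0 hY hs0 hgt)]
      have h1 := dec_sq hN0 hm hs0 hmax0 (max_le (dg _ hy).1 (dg _ hy).2)
      have h2 := pow_le_pow_left₀ hmax0 (max_le (bg _ hgt.le).1 (bg _ hgt.le).2) (m + 5)
      have h3 : max |g (s ^ 2 / N)| |h (s ^ 2 / N)| ^ (m + 7) ≤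
          B1 ^ (m + 5) * (N / m0 ^ 2 * (1 / s) ^ 2) := by
        rw [show m + 7 = m + 5 + 2 by omega, pow_add]
        exact mul_le_mul h2 h1 (by positivity) (by positivity)
      have h4 := mul_le_mul (mul_le_mul_of_nonneg_right (all _ hy.le) hN0.le) h3
        (by positivity) (by positivity)
      have h5 : d * e * N * (B1 ^ (m + 5) * (N / m0 ^ 2 * (1 / s) ^ 2)) = K * (1 / s) ^ 2 := by
        rw [hK]; ring
      have h6 : 0 ≤ al * e * (s ^ (2 * 1) * Real.exp (-(7 * lam / 8) * s ^ 2)) := by positivity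
      have h7 : 0 ≤ be / 8 * e * (s ^ (2 * 2) * Real.exp (-(7 * lam / 8) * s ^ 2)) := by
        positivity
      linarith
  have hle := norm_integral_le_of_norm_le iM
    ((ae_restrict_iff' measurableSet_Ioi).mpr (ae_of_all _ hpt))
  rw [Real.norm_eq_abs] at hle
  refine hle.trans ?_
  rw [integral_add' i12 i3, integral_add' (i1.const_mul _) (i2.const_mul _), integral_const_mul,
    integral_const_mul, v3]
  have hp := sqrt_pi_le
  have hL3 : 0 ≤ L ^ 3 := by positivity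
  have hL5 : 0 ≤ L ^ 5 := by positivity
  have a1 : L ^ (2 * 1 + 1) * (1 / 2) * (√π / 2) ≤ 0.45 * L ^ 3 := by
    have : L ^ (2 * 1 + 1) = L ^ 3 := by norm_num
    rw [this]
    nlinarith [mul_le_mul_of_nonneg_left hp hL3]
  have a2 : L ^ (2 * 2 + 1) * (1 / 2) * (3 * √π / 4) ≤ 8 * 0.084 * L ^ 5 := by
    have : L ^ (2 * 2 + 1) = L ^ 5 := by norm_num
    rw [this]
    nlinarith [mul_le_mul_of_nonneg_left hp hL5]
  have b1 := mul_le_mul_of_nonneg_left (v1.trans a1) (mul_nonneg hal he)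
  have b2 := mul_le_mul_of_nonneg_left (v2.trans a2) (show 0 ≤ be / 8 * e by positivity)
  have b3 : K / (√N * y1) ≤ 23 * d * B1 ^ 5 / (m0 ^ 2 * y1) * e := by
    have hsq : 0 < √N := Real.sqrt_pos.mpr hN0
    have hNN : N = √N * √N := (Real.mul_self_sqrt hN0.le).symm
    have c1 : K / (√N * y1) = (N * √N * B1 ^ m) * (d * B1 ^ 5 / (m0 ^ 2 * y1) * e) := by
      obtain ⟨r, hr⟩ : ∃ r, r = √N := ⟨_, rfl⟩
      rw [← hr] at hsq hNN ⊢
      rw [hK, hNN]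
      field_simp
      ring
    have c2 : N * √N * B1 ^ m ≤ 23 := by rw [hNm]; exact geo2 hB0 hB1 m
    rw [c1]
    calc (N * √N * B1 ^ m) * (d * B1 ^ 5 / (m0 ^ 2 * y1) * e)
        ≤ 23 * (d * B1 ^ 5 / (m0 ^ 2 * y1) * e) := by gcongr
      _ = _ := by ring
  nlinarith

/-- From bounds on two derivatives of a difference vanishing at zero. -/
theorem diff_near {g g1 g2 h h1 h2 : ℝ → ℝ} (sg : Sm g g1 g2) (sh : Sm h h1 h2) {al be Y1 : ℝ}
    (h0 : |g1 0 - h1 0| ≤ al) (hb : ∀ y, 0 ≤ y → y ≤ Y1 → |g2 y - h2 y| ≤ 2 * be) {y : ℝ}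
    (hy : 0 ≤ y) (hy1 : y ≤ Y1) : |g y - h y| ≤ al * y + be * y ^ 2 := by
  have k1 := one_side sg sh (abs_le.mp h0).2 (fun y a b => (abs_le.mp (hb y a b)).2) hy hy1
  have k2 := one_side sh sg (al := al) (be := be) (by linarith [(abs_le.mp h0).1])
    (fun y a b => by linarith [(abs_le.mp (hb y a b)).1]) hy hy1
  exact abs_le.mpr ⟨by linarith, k1⟩

/-- Cell by cell integration. -/
theorem int_tail {D : ℝ → ℝ} {S A2 A3 : ℝ} (hS : 0 < S) (hD : IntegrableOn D (Ioi S))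
    (h : ∀ s, S ≤ s → D s ≤ A2 * (S / s) ^ 2 + A3 * (S / s) ^ 3) :
    ∫ s in Ioi S, D s ≤ (A2 + A3 / 2) * S := by
  obtain ⟨i2, v2⟩ := inv_pow_int hS 0
  obtain ⟨i3, v3⟩ := inv_pow_int hS 1
  have j2 := i2.const_mul (A2 * S ^ 2)
  have j3 := i3.const_mul (A3 * S ^ 3)
  have hle := setIntegral_mono_on hD (j2.add j3) measurableSet_Ioi (fun s hs => by
    refine (h s (le_of_lt hs)).trans (le_of_eq ?_)
    simp only [Pi.add_apply]
    ring)
  refine hle.trans (le_of_eq ?_)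
  rw [integral_add' j2 j3, integral_const_mul, integral_const_mul, v2, v3]
  push_cast
  field_simp
  ring

theorem int_cell {D : ℝ → ℝ} {a b c0 c2 c4 : ℝ} (hab : a ≤ b)
    (hD : IntervalIntegrable D volume a b)
    (h : ∀ s, a ≤ s → s ≤ b → D s ≤ c0 + c2 * s ^ 2 + c4 * s ^ 4) :
    ∫ s in a..b, D s ≤ c0 * (b - a) + c2 * (b ^ 3 - a ^ 3) / 3 + c4 * (b ^ 5 - a ^ 5) / 5 := by
  have hc : Continuous fun s : ℝ => c0 + c2 * s ^ 2 + c4 * s ^ 4 := by fun_prop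
  have hle := intervalIntegral.integral_mono_on hab hD (hc.intervalIntegrable a b)
    (fun s hs => h s hs.1 hs.2)
  refine hle.trans (le_of_eq ?_)
  have hder : ∀ s ∈ uIcc a b, HasDerivAt (fun s : ℝ => c0 * s + c2 / 3 * s ^ 3 + c4 / 5 * s ^ 5)
      (c0 + c2 * s ^ 2 + c4 * s ^ 4) s := by
    intro s _
    have h2 := (((hasDerivAt_id' s).const_mul c0).fun_add
      ((hasDerivAt_pow 3 s).const_mul (c2 / 3))).fun_add ((hasDerivAt_pow 5 s).const_mul (c4 / 5))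
    refine h2.congr_deriv ?_
    norm_num
    ring
  rw [intervalIntegral.integral_eq_sub_of_hasDerivAt hder (hc.intervalIntegrable a b)]
  ring

theorem int_split {D : ℝ → ℝ} {a b : ℝ} (hab : a ≤ b) (hD : IntegrableOn D (Ioi a)) :
    IntervalIntegrable D volume a b ∧ IntegrableOn D (Ioi b) ∧
      ∫ s in Ioi a, D s = (∫ s in a..b, D s) + ∫ s in Ioi b, D s := by
  have hb : IntegrableOn D (Ioi b) := hD.mono_set (Ioi_subset_Ioi hab)
  refine ⟨?_, hb, (intervalIntegral.integral_interval_add_Ioi hD hb).symm⟩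
  rw [intervalIntegrable_iff_integrableOn_Ioc_of_le hab]
  exact hD.mono_set Ioc_subset_Ioi_self

theorem int_rescale {D : ℝ → ℝ} {a k : ℝ} (hk : 0 < k) (hD : IntegrableOn D (Ioi (k * a))) :
    IntegrableOn (fun s => k * D (k * s)) (Ioi a) ∧
      ∫ s in Ioi (k * a), D s = ∫ s in Ioi a, k * D (k * s) := by
  refine ⟨((integrableOn_Ioi_comp_mul_left_iff D a hk).mpr hD).const_mul k, ?_⟩
  rw [integral_const_mul, ← integral_comp_mul_left_Ioi' D a hk, smul_eq_mul]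

end Pool.Agent.MP_39fec4_gt.Full
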