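import Mathlib
import Pool.Agent.Mg.F39fec4.Gef3640
import Pool.Agent.Mg.F39fec4.G83e03a
import Pool.Agent.Mg.F39fec4.G800f93
import Pool.Agent.Mg.F39fec4.G27abef

section

set_option autoImplicit false

namespace Pool.Agent.MP_39fec4_gt.Full.FHessX

open Real

variable {ι : Type}

theorem one_add_ge {a e : ℝ} (ha0 : 0 ≤ a) (ha1 : a ≤ 1) (he : -a ≤ e) :
    1 - (1 + a) / 2 * e ^ 2 ≤ (1 + e) * exp (-e) := by
  rcases le_total 0 e with h | h
  · have h1 := le_log_one_add_of_nonneg h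
    have h2 : e - e ^ 2 / 2 ≤ 2 * e / (e + 2) := by
      rw [le_div_iff₀ (by linarith)]
      nlinarith [mul_nonneg h (sq_nonneg e)]
    have h3 : exp (e - e ^ 2 / 2) ≤ 1 + e := by
      rw [← le_log_iff_exp_le (by linarith)]
      linarith
    have h4 : exp (-(e ^ 2 / 2)) = exp (e - e ^ 2 / 2) * exp (-e) := by
      rw [← exp_add]
      congr 1
      ring
    have h5 := add_one_le_exp (-(e ^ 2 / 2))
    have h6 := mul_le_mul_of_nonneg_right h3 (exp_pos (-e)).le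
    nlinarith [mul_nonneg ha0 (sq_nonneg e)]
  · have h1 := quadratic_le_exp_of_nonneg (neg_nonneg.2 h)
    have h2 := mul_le_mul_of_nonneg_left h1 (show 0 ≤ 1 + e by linarith)
    nlinarith [mul_nonneg (show 0 ≤ a + e by linarith) (sq_nonneg e)]

theorem weier (T : Finset ι) (x y : ι → ℝ) (hx : ∀ j ∈ T, 0 ≤ x j) (hy : ∀ j ∈ T, 0 ≤ y j)
    (h : ∀ j ∈ T, 1 - x j ≤ y j) : 1 - ∑ j ∈ T, x j ≤ ∏ j ∈ T, y j := by
  classical
  induction T using Finset.induction_on with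
  | empty => simp
  | insert a T ha ih =>
    rw [Finset.sum_insert ha, Finset.prod_insert ha]
    have m := Finset.mem_insert_self a T
    have h1 := ih (fun j hj => hx j (Finset.mem_insert_of_mem hj))
      (fun j hj => hy j (Finset.mem_insert_of_mem hj)) fun j hj => h j (Finset.mem_insert_of_mem hj)
    have h2 : 0 ≤ ∏ j ∈ T, y j := Finset.prod_nonneg fun j hj => hy j (Finset.mem_insert_of_mem hj)
    have h3 : 0 ≤ ∑ j ∈ T, x j := Finset.sum_nonneg fun j hj => hx j (Finset.mem_insert_of_mem hj)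
    rcases le_total 1 (x a) with h4 | h4
    · nlinarith [mul_nonneg (hy a m) h2]
    · nlinarith [mul_le_mul_of_nonneg_right (h a m) h2,
        mul_le_mul_of_nonneg_left h1 (sub_nonneg.2 h4), mul_nonneg (hx a m) h3]

theorem prod_eq (T : Finset ι) (z : ι → ℝ) {m : ℝ} (hm : m ≠ 0) :
    ∏ j ∈ T, z j = m ^ T.card * ∏ j ∈ T, (1 + (z j - m) / m) := by
  rw [← Finset.prod_const, ← Finset.prod_mul_distrib]
  exact Finset.prod_congr rfl fun j _ => by field_simp; ring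

theorem amgm (T : Finset ι) (z : ι → ℝ) {m : ℝ} (hm : 0 < m) (hz : ∀ j ∈ T, 0 ≤ z j)
    (hs : ∑ j ∈ T, (z j - m) = 0) : ∏ j ∈ T, z j ≤ m ^ T.card := by
  rw [prod_eq T z hm.ne']
  refine mul_le_of_le_one_right (by positivity) ?_
  calc ∏ j ∈ T, (1 + (z j - m) / m) ≤ ∏ j ∈ T, exp ((z j - m) / m) := by
        refine Finset.prod_le_prod (fun j hj => ?_) fun j _ => ?_
        · have : 1 + (z j - m) / m = z j / m := by field_simp; ring
          rw [this]
          exact div_nonneg (hz j hj) hm.le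
        · linarith [add_one_le_exp ((z j - m) / m)]
    _ = 1 := by rw [← exp_sum, ← Finset.sum_div, hs, zero_div, exp_zero]

theorem prod_ge (T : Finset ι) (hk : 2 ≤ T.card) (z : ι → ℝ) {m a : ℝ} (hm : 0 < m) (ha0 : 0 ≤ a)
    (ha1 : a ≤ 1) (hz : ∀ j ∈ T, (1 - a) * m ≤ z j) (hs : ∑ j ∈ T, (z j - m) = 0) :
    m ^ T.card - (1 + a) / 2 * (m ^ (T.card - 2) * ∑ j ∈ T, (z j - m) ^ 2) ≤ ∏ j ∈ T, z j := by
  have he : ∀ j ∈ T, -a ≤ (z j - m) / m := fun j hj => by
    rw [le_div_iff₀ hm]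
    linarith [hz j hj]
  have h1 := weier T (fun j => (1 + a) / 2 * ((z j - m) / m) ^ 2)
    (fun j => (1 + (z j - m) / m) * exp (-((z j - m) / m))) (fun j _ => by positivity)
    (fun j hj => mul_nonneg (by linarith [he j hj]) (exp_pos _).le)
    fun j hj => one_add_ge ha0 ha1 (he j hj)
  rw [Finset.prod_mul_distrib, ← exp_sum, Finset.sum_neg_distrib, ← Finset.sum_div, hs, zero_div,
    neg_zero, exp_zero, mul_one, ← Finset.mul_sum] at h1
  rw [prod_eq T z hm.ne']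
  refine le_trans (le_of_eq ?_) (mul_le_mul_of_nonneg_left h1 (by positivity))
  obtain ⟨n, hn⟩ := Nat.exists_eq_add_of_le hk
  simp only [div_pow]
  rw [← Finset.sum_div, hn, Nat.add_sub_cancel_left, pow_add]
  field_simp

theorem var_le (T : Finset ι) (z : ι → ℝ) {m : ℝ} (w : ℝ) (hs : ∑ j ∈ T, (z j - m) = 0) :
    ∑ j ∈ T, (z j - m) ^ 2 ≤ ∑ j ∈ T, (z j - w) ^ 2 := by
  have : ∑ j ∈ T, (z j - w) ^ 2 =
      ∑ j ∈ T, ((z j - m) ^ 2 + 2 * (m - w) * (z j - m) + (m - w) ^ 2) :=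
    Finset.sum_congr rfl fun j _ => by ring
  rw [this, Finset.sum_add_distrib, Finset.sum_add_distrib, ← Finset.mul_sum, hs]
  have : 0 ≤ ∑ _j ∈ T, (m - w) ^ 2 := Finset.sum_nonneg fun _ _ => sq_nonneg _
  linarith

theorem pow_sub_le {x y B : ℝ} (k : ℕ) (hx : |x| ≤ B) (hy : |y| ≤ B) :
    |x ^ k - y ^ k| ≤ |x - y| * k * B ^ (k - 1) := by
  refine (abs_pow_sub_pow_le x y k).trans (mul_le_mul_of_nonneg_left ?_ (by positivity))
  exact pow_le_pow_left₀ ((abs_nonneg x).trans (le_max_left _ _)) (max_le hx hy) _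

theorem abs_prod_le (T : Finset ι) (z : ι → ℝ) {B : ℝ} (h : ∀ j ∈ T, |z j| ≤ B) :
    |∏ j ∈ T, z j| ≤ B ^ T.card := by
  rw [Finset.abs_prod, ← Finset.prod_const]
  exact Finset.prod_le_prod (fun j _ => abs_nonneg _) h

theorem sq_le (T : Finset ι) (d : ι → ℝ) (h : ∑ j ∈ T, d j = 0) {i : ι} (hi : i ∈ T) :
    d i ^ 2 * T.card ≤ (T.card - 1) * ∑ j ∈ T, d j ^ 2 := by
  classical
  have h1 := sq_sum_le_card_mul_sum_sq (s := T.erase i) (f := d)
  have h2 := Finset.add_sum_erase T d hi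
  have h3 := Finset.add_sum_erase T (fun j => d j ^ 2) hi
  have h4 : ((T.erase i).card : ℝ) = T.card - 1 := by
    rw [← Finset.card_erase_add_one hi]
    simp
  have h5 : ∑ j ∈ T.erase i, d j = -d i := by linarith
  rw [h4, h5] at h1
  rw [← h3]
  nlinarith

theorem pair_le (T : Finset ι) (d : ι → ℝ) {i l : ι} (hi : i ∈ T) (hl : l ∈ T) (hil : i ≠ l) :
    (d i - d l) ^ 2 ≤ 2 * ∑ j ∈ T, d j ^ 2 := by
  classical
  have h1 : ∑ j ∈ ({i, l} : Finset ι), d j ^ 2 ≤ ∑ j ∈ T, d j ^ 2 :=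
    Finset.sum_le_sum_of_subset_of_nonneg (Finset.insert_subset hi (by simpa using hl))
      fun _ _ _ => sq_nonneg _
  rw [Finset.sum_pair hil] at h1
  nlinarith [sq_nonneg (d i + d l)]

theorem cube_le {a b c R : ℝ} (h : a + b + c = 0) (hR : 0 ≤ R)
    (h1 : (a ^ 2 + b ^ 2 + c ^ 2) ^ 3 ≤ R ^ 2) : a * b * c ≤ 0.1361 * R := by
  have h2 : 54 * (a * b * c) ^ 2 ≤ (a ^ 2 + b ^ 2 + c ^ 2) ^ 3 := by
    obtain rfl : c = -a - b := by linarith
    nlinarith [sq_nonneg ((a - b) * (2 * a + b) * (a + 2 * b))]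
  refine le_of_sq_le_sq ?_ (by positivity)
  nlinarith [sq_nonneg R]

end Pool.Agent.MP_39fec4_gt.Full.FHessX

end

section

set_option autoImplicit false

namespace Pool.Agent.MP_39fec4_gt.Full

open MeasureTheory Set Real Ball P4

/-- The data shared by the second order product inequalities: numbers `z j` close to `w`. -/
structure HB {ι : Type} (T : Finset ι) (z d : ι → ℝ)
    (w W lo hi wlo whi K1 K1f K2h K2l B Wb B0 cc wf : ℝ) : Prop where
  k2 : 2 ≤ T.card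
  d0 : ∑ j ∈ T, d j = 0
  hW : W = ∑ j ∈ T, d j ^ 2
  hz : ∀ j ∈ T, lo ≤ z j ∧ z j ≤ hi
  hw : wlo ≤ w ∧ w ≤ whi
  hwr : lo ≤ w ∧ w ≤ hi
  h1 : ∀ j ∈ T, |z j - w| ≤ K1 * |d j|
  hf : ∀ i ∈ T, ∀ l ∈ T, |z i - z l| ≤ K1f * |d i - d l|
  h2l : -K2l * W / 2 ≤ ∑ j ∈ T, (z j - w)
  h2h : ∑ j ∈ T, (z j - w) ≤ K2h * W / 2
  p1 : 0 ≤ K1
  p1f : 0 ≤ K1f
  p2h : 0 ≤ K2h
  p2l : 0 ≤ K2l
  hB : -B ≤ lo ∧ hi ≤ B
  hWb : -Wb ≤ wlo ∧ whi ≤ Wb
  hB0 : B ≤ B0 ∨ Wb + max K2h K2l * W / (2 * T.card) ≤ B0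
  hcc : 1 ≤ cc ∨ (0 < lo ∧ 2 * B0 - lo ≤ 2 * cc * B0) ∨ (hi < 0 ∧ 2 * B0 + hi ≤ 2 * cc * B0)
  hwf : (T.card : ℝ) - 1 ≤ wf * T.card

variable {ι : Type} {T : Finset ι} {z d : ι → ℝ}
  {w W lo hi wlo whi K1 K1f K2h K2l B Wb B0 cc wf : ℝ}

namespace FHessX

theorem neg (h : HB T z d w W lo hi wlo whi K1 K1f K2h K2l B Wb B0 cc wf) :
    HB T (fun j => -z j) d (-w) W (-hi) (-lo) (-whi) (-wlo) K1 K1f K2l K2h B Wb B0 cc wf := by
  have e : ∑ j ∈ T, (-z j - -w) = -∑ j ∈ T, (z j - w) := by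
    rw [← Finset.sum_neg_distrib]
    exact Finset.sum_congr rfl fun j _ => by ring
  refine ⟨h.k2, h.d0, h.hW, fun j hj => ⟨neg_le_neg (h.hz j hj).2, neg_le_neg (h.hz j hj).1⟩,
    ⟨neg_le_neg h.hw.2, neg_le_neg h.hw.1⟩, ⟨neg_le_neg h.hwr.2, neg_le_neg h.hwr.1⟩,
    fun j hj => ?_, fun i hi l hl => ?_, ?_, ?_, h.p1, h.p1f, h.p2l, h.p2h,
    ⟨neg_le_neg h.hB.2, neg_le.1 h.hB.1⟩, ⟨neg_le_neg h.hWb.2, neg_le.1 h.hWb.1⟩, ?_, ?_, h.hwf⟩
  · rw [← neg_sub', abs_neg]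
    exact h.h1 j hj
  · rw [← neg_sub', abs_neg]
    exact h.hf i hi l hl
  · rw [e]
    linarith [h.h2h]
  · rw [e]
    linarith [h.h2l]
  · rw [max_comm]
    exact h.hB0
  · rcases h.hcc with h1 | h1 | h1
    · exact Or.inl h1
    · exact Or.inr (Or.inr ⟨by linarith [h1.1], by linarith [h1.2]⟩)
    · exact Or.inr (Or.inl ⟨by linarith [h1.1], by linarith [h1.2]⟩)

theorem W0 (h : HB T z d w W lo hi wlo whi K1 K1f K2h K2l B Wb B0 cc wf) : 0 ≤ W :=
  h.hW ▸ Finset.sum_nonneg fun _ _ => sq_nonneg _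

theorem ne (h : HB T z d w W lo hi wlo whi K1 K1f K2h K2l B Wb B0 cc wf) : T.Nonempty :=
  Finset.card_pos.1 (by linarith [h.k2])

theorem absz (h : HB T z d w W lo hi wlo whi K1 K1f K2h K2l B Wb B0 cc wf) :
    ∀ j ∈ T, |z j| ≤ B := fun j hj =>
  abs_le.2 ⟨h.hB.1.trans (h.hz j hj).1, (h.hz j hj).2.trans h.hB.2⟩

theorem sq1 (h : HB T z d w W lo hi wlo whi K1 K1f K2h K2l B Wb B0 cc wf) {j : ι} (hj : j ∈ T) :
    (z j - w) ^ 2 ≤ K1 ^ 2 * d j ^ 2 := by
  have := pow_le_pow_left₀ (abs_nonneg _) (h.h1 j hj) 2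
  rwa [mul_pow, sq_abs, sq_abs] at this

theorem sq2 (h : HB T z d w W lo hi wlo whi K1 K1f K2h K2l B Wb B0 cc wf) :
    ∑ j ∈ T, (z j - w) ^ 2 ≤ K1 ^ 2 * W := by
  rw [h.hW, Finset.mul_sum]
  exact Finset.sum_le_sum fun j hj => sq1 h hj

theorem mean (h : HB T z d w W lo hi wlo whi K1 K1f K2h K2l B Wb B0 cc wf) :
    ∃ m : ℝ, ∑ j ∈ T, (z j - m) = 0 ∧ |w| ≤ B0 ∧ |m| ≤ B0 ∧ lo ≤ m ∧
      (m - w) * T.card ≤ K2h * W / 2 ∧ (w - m) * T.card ≤ K2l * W / 2 ∧
      ∑ j ∈ T, (z j - m) ^ 2 ≤ K1 ^ 2 * W ∧ ((∀ j ∈ T, 0 < z j) → 0 < m) := by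
  have hk : (0 : ℝ) < T.card := Nat.cast_pos.2 (ne h).card_pos
  obtain ⟨m, hm⟩ : ∃ m : ℝ, m * T.card = ∑ j ∈ T, z j :=
    ⟨(∑ j ∈ T, z j) / T.card, div_mul_cancel₀ _ hk.ne'⟩
  have e : ∀ x : ℝ, ∑ j ∈ T, (z j - x) = (m - x) * T.card := fun x => by
    rw [Finset.sum_sub_distrib, Finset.sum_const, nsmul_eq_mul, ← hm]
    ring
  have h0 : ∑ j ∈ T, (z j - m) = 0 := by rw [e, sub_self, zero_mul]
  have h1 : lo ≤ m := by
    have : 0 ≤ ∑ j ∈ T, (z j - lo) := Finset.sum_nonneg fun j hj => sub_nonneg.2 (h.hz j hj).1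
    rw [e] at this
    exact sub_nonneg.1 (nonneg_of_mul_nonneg_left this hk)
  have h2 : m ≤ hi := by
    have : ∑ j ∈ T, (z j - hi) ≤ 0 := Finset.sum_nonpos fun j hj => sub_nonpos.2 (h.hz j hj).2
    rw [e] at this
    exact sub_nonpos.1 (nonpos_of_mul_nonpos_left this hk)
  have h3 := h.h2h
  have h4 := h.h2l
  rw [e] at h3 h4
  have hW := W0 h
  have h5 : |w| ≤ B0 ∧ |m| ≤ B0 := by
    rcases h.hB0 with h5 | h5
    · exact ⟨abs_le.2 ⟨by linarith [h.hB.1, h.hwr.1], by linarith [h.hB.2, h.hwr.2]⟩,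
        abs_le.2 ⟨by linarith [h.hB.1], by linarith [h.hB.2]⟩⟩
    · have h6 : m - w ≤ max K2h K2l * W / (2 * T.card) := by
        rw [le_div_iff₀ (by positivity)]
        nlinarith [mul_le_mul_of_nonneg_right (le_max_left K2h K2l) hW]
      have h7 : w - m ≤ max K2h K2l * W / (2 * T.card) := by
        rw [le_div_iff₀ (by positivity)]
        nlinarith [mul_le_mul_of_nonneg_right (le_max_right K2h K2l) hW]
      have h8 : 0 ≤ max K2h K2l * W / (2 * T.card) :=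
        div_nonneg (mul_nonneg (h.p2h.trans (le_max_left _ _)) hW) (by positivity)
      exact ⟨abs_le.2 ⟨by linarith [h.hWb.1, h.hw.1], by linarith [h.hWb.2, h.hw.2]⟩,
        abs_le.2 ⟨by linarith [h.hWb.1, h.hw.1], by linarith [h.hWb.2, h.hw.2]⟩⟩
  refine ⟨m, h0, h5.1, h5.2, h1, h3, by linarith, (var_le T z w h0).trans (sq2 h), fun hz => ?_⟩
  have : 0 < ∑ j ∈ T, z j := Finset.sum_pos hz (ne h)
  rw [← hm] at this
  exact (mul_pos_iff_of_pos_right hk).1 this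

theorem step {x y B c : ℝ} {k : ℕ} (hx : |x| ≤ B) (hy : |y| ≤ B) (hxy : y ≤ x)
    (h : (x - y) * k ≤ c) : x ^ k - y ^ k ≤ B ^ (k - 1) * c := by
  have h1 := pow_sub_le k hx hy
  rw [abs_of_nonneg (sub_nonneg.2 hxy)] at h1
  have h2 : 0 ≤ B ^ (k - 1) := pow_nonneg ((abs_nonneg x).trans hx) _
  exact (le_abs_self _).trans (h1.trans (mul_comm c _ ▸ mul_le_mul_of_nonneg_right h h2))

theorem posU (h : HB T z d w W lo hi wlo whi K1 K1f K2h K2l B Wb B0 cc wf)
    (hz : ∀ j ∈ T, 0 < z j) : ∏ j ∈ T, z j - w ^ T.card ≤ B0 ^ (T.card - 1) / 2 * K2h * W := by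
  obtain ⟨m, h0, h1, h2, -, h3, -, -, h4⟩ := mean h
  have h5 := amgm T z (h4 hz) (fun j hj => (hz j hj).le) h0
  rcases le_total w m with e | e
  · have := step h2 h1 e h3
    linarith
  · have h6 := pow_le_pow_left₀ (h4 hz).le e T.card
    have h7 : 0 ≤ B0 := (abs_nonneg _).trans h1
    have h8 : 0 ≤ B0 ^ (T.card - 1) / 2 * K2h * W :=
      mul_nonneg (mul_nonneg (by positivity) h.p2h) (W0 h)
    linarith

theorem posD (h : HB T z d w W lo hi wlo whi K1 K1f K2h K2l B Wb B0 cc wf)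
    (hz : ∀ j ∈ T, 0 < z j) : w ^ T.card - ∏ j ∈ T, z j ≤
      (B0 ^ (T.card - 1) / 2 * K2l + cc * (B0 ^ (T.card - 2) * K1 ^ 2)) * W := by
  obtain ⟨m, h0, h1, h2, hlo, -, h3, h4, h5⟩ := mean h
  have m0 := h5 hz
  have hW := W0 h
  have b0 : 0 ≤ B0 := (abs_nonneg _).trans h1
  have mB : m ≤ B0 := (le_abs_self _).trans h2
  obtain ⟨i, hi'⟩ := ne h
  have h6 : 0 ≤ B0 ^ (T.card - 1) / 2 * K2l * W :=
    mul_nonneg (mul_nonneg (by positivity) h.p2l) hW
  have h7 : 0 ≤ B0 ^ (T.card - 2) * (K1 ^ 2 * W) := by positivity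
  rcases lt_or_ge w 0 with w0 | w0
  · have c1 : 1 ≤ cc := by
      rcases h.hcc with c1 | c1 | c1
      · exact c1
      · linarith [c1.1, h.hwr.1]
      · linarith [c1.1, hz i hi', (h.hz i hi').2]
    have h8 : w ^ 2 ≤ K1 ^ 2 * W := by
      refine le_trans ?_ ((Finset.single_le_sum (f := fun j => (z j - w) ^ 2)
        (fun _ _ => sq_nonneg _) hi').trans (sq2 h))
      nlinarith [hz i hi']
    have h9 : w ^ T.card ≤ B0 ^ (T.card - 2) * (K1 ^ 2 * W) := by
      obtain ⟨n, hn⟩ := Nat.exists_eq_add_of_le' h.k2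
      rw [hn, Nat.add_sub_cancel, pow_add]
      exact mul_le_mul ((le_abs_self _).trans ((abs_pow w n).le.trans
        (pow_le_pow_left₀ (abs_nonneg _) h1 n))) h8 (sq_nonneg _) (by positivity)
    have h10 : 0 < ∏ j ∈ T, z j := Finset.prod_pos hz
    nlinarith [mul_le_mul_of_nonneg_right c1 h7]
  · obtain ⟨a, a0, a1, a2, a3⟩ : ∃ a : ℝ, 0 ≤ a ∧ a ≤ 1 ∧ (1 + a) / 2 ≤ cc ∧
        ∀ j ∈ T, (1 - a) * m ≤ z j := by
      rcases h.hcc with c1 | c1 | c1
      · exact ⟨1, zero_le_one, le_rfl, by linarith, fun j hj => by simpa using (hz j hj).le⟩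
      · have B1 : 0 < B0 := m0.trans_le mB
        have e1 : lo / B0 ≤ lo / m := div_le_div_of_nonneg_left c1.1.le m0 mB
        have e2 : 2 - 2 * cc ≤ lo / B0 := by
          rw [le_div_iff₀ B1]
          linarith [c1.2]
        refine ⟨1 - lo / m, sub_nonneg.2 ((div_le_one m0).2 hlo), ?_, by linarith, fun j hj => ?_⟩
        · linarith [div_pos c1.1 m0]
        · rw [sub_sub_cancel, div_mul_cancel₀ _ m0.ne']
          exact (h.hz j hj).1
      · linarith [c1.1, hz i hi', (h.hz i hi').2]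
    have h8 := prod_ge T h.k2 z m0 a0 a1 a3 h0
    have h9 : (1 + a) / 2 * (m ^ (T.card - 2) * ∑ j ∈ T, (z j - m) ^ 2) ≤
        cc * (B0 ^ (T.card - 2) * (K1 ^ 2 * W)) :=
      mul_le_mul a2 (mul_le_mul (pow_le_pow_left₀ m0.le mB _) h4
        (Finset.sum_nonneg fun _ _ => sq_nonneg _) (by positivity))
        (mul_nonneg (by positivity) (Finset.sum_nonneg fun _ _ => sq_nonneg _)) (by linarith)
    rcases le_total m w with e | e
    · have := step h1 h2 e h3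
      linarith
    · have := pow_le_pow_left₀ w0 e T.card
      linarith

theorem mixw (h : HB T z d w W lo hi wlo whi K1 K1f K2h K2l B Wb B0 cc wf) {i l : ι} (hi' : i ∈ T)
    (hl : l ∈ T) (zi : z i ≤ 0) (zl : 0 ≤ z l) :
    |w ^ T.card| ≤ Wb ^ (T.card - 2) * K1 ^ 2 * wf * W := by
  have hk : (0 : ℝ) < T.card := Nat.cast_pos.2 (ne h).card_pos
  have h1 : ∀ j ∈ T, (z j - w) ^ 2 ≤ K1 ^ 2 * (wf * W) := fun j hj => by
    refine (sq1 h hj).trans (mul_le_mul_of_nonneg_left ?_ (sq_nonneg _))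
    have h2 := sq_le T d h.d0 hj
    rw [← h.hW] at h2
    refine le_of_mul_le_mul_right ?_ hk
    nlinarith [mul_le_mul_of_nonneg_right h.hwf (W0 h)]
  have h2 : w ^ 2 ≤ K1 ^ 2 * (wf * W) := by
    rcases le_total w 0 with e | e
    · nlinarith [h1 l hl, mul_nonneg zl (neg_nonneg.2 e), sq_nonneg (z l)]
    · nlinarith [h1 i hi', mul_nonneg (neg_nonneg.2 zi) e, sq_nonneg (z i)]
  have h3 : |w| ≤ Wb := abs_le.2 ⟨h.hWb.1.trans h.hw.1, h.hw.2.trans h.hWb.2⟩
  obtain ⟨n, hn⟩ := Nat.exists_eq_add_of_le' h.k2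
  rw [hn, Nat.add_sub_cancel, abs_pow, pow_add, sq_abs, mul_assoc, mul_assoc]
  exact mul_le_mul (pow_le_pow_left₀ (abs_nonneg _) h3 n) h2 (sq_nonneg _)
    (pow_nonneg ((abs_nonneg _).trans h3) _)

theorem mixz (h : HB T z d w W lo hi wlo whi K1 K1f K2h K2l B Wb B0 cc wf) {i l : ι} (hi' : i ∈ T)
    (hl : l ∈ T) (zi : z i < 0) (zl : 0 < z l) : ∃ S : Finset ι, S ⊆ T ∧ S.card + 2 = T.card ∧
      ∃ c : ℝ, 0 < c ∧ c ≤ K1f ^ 2 / 2 * W ∧ ∏ j ∈ T, z j = -(c * ∏ j ∈ S, z j) := by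
  classical
  have hil : i ≠ l := fun e => by
    rw [e] at zi
    linarith
  have hl' : l ∈ T.erase i := Finset.mem_erase.2 ⟨hil.symm, hl⟩
  refine ⟨(T.erase i).erase l, (Finset.erase_subset _ _).trans (Finset.erase_subset _ _), ?_,
    -(z i * z l), neg_pos.2 (mul_neg_of_neg_of_pos zi zl), ?_, ?_⟩
  · have h1 := Finset.card_erase_add_one hi'
    have h2 := Finset.card_erase_add_one hl'
    omega
  · have h1 := pow_le_pow_left₀ (abs_nonneg _) (h.hf i hi' l hl) 2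
    rw [mul_pow, sq_abs, sq_abs] at h1
    have h2 := mul_le_mul_of_nonneg_left (pair_le T d hi' hl hil) (sq_nonneg K1f)
    rw [← h.hW] at h2
    nlinarith [sq_nonneg (z i + z l)]
  · rw [← Finset.mul_prod_erase T z hi', ← Finset.mul_prod_erase _ z hl']
    ring

theorem mixU (h : HB T z d w W lo hi wlo whi K1 K1f K2h K2l B Wb B0 cc wf) {i l : ι} (hi' : i ∈ T)
    (hl : l ∈ T) (zi : z i ≤ 0) (zl : 0 ≤ z l) {ng m1 : ℝ} (hng : -lo ≤ ng)
    (hm1 : (T.card = 2 ∧ 0 ≤ m1) ∨ K1f ^ 2 / 2 * ng * B ^ (T.card - 3) ≤ m1) :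
    ∏ j ∈ T, z j ≤ m1 * W := by
  classical
  have hW := W0 h
  have n0 : 0 ≤ ng := by linarith [(h.hz i hi').1]
  have b0 : 0 ≤ B := (abs_nonneg _).trans (absz h i hi')
  have m0 : 0 ≤ m1 := hm1.elim (fun e => e.2) fun e => le_trans (by positivity) e
  rcases le_or_gt (∏ j ∈ T, z j) 0 with e | e
  · exact e.trans (mul_nonneg m0 hW)
  have nz := Finset.prod_ne_zero_iff.1 e.ne'
  obtain ⟨S, hS, hc, c, c0, c1, hP⟩ := mixz h hi' hl (lt_of_le_of_ne zi (nz i hi'))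
    (lt_of_le_of_ne zl (nz l hl).symm)
  have h1 : ¬0 ≤ ∏ j ∈ S, z j := fun h1 => by linarith [mul_nonneg c0.le h1]
  obtain ⟨r, hr, zr⟩ : ∃ r ∈ S, z r < 0 := by
    by_contra h2
    push Not at h2
    exact h1 (Finset.prod_nonneg h2)
  have h2 := Finset.card_erase_add_one hr
  have h3 := abs_prod_le (S.erase r) z fun j hj => absz h j (hS (Finset.mem_of_mem_erase hj))
  rw [show (S.erase r).card = T.card - 3 by omega] at h3
  have h4 : -z r * ∏ j ∈ S.erase r, z j ≤ ng * B ^ (T.card - 3) :=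
    (mul_le_mul_of_nonneg_left ((le_abs_self _).trans h3) (neg_pos.2 zr).le).trans
      (mul_le_mul_of_nonneg_right (by linarith [(h.hz r (hS hr)).1]) (by positivity))
  have h5 := (hm1.resolve_left fun e => by omega)
  rw [hP, ← Finset.mul_prod_erase S z hr]
  have h6 := mul_le_mul_of_nonneg_left h4 c0.le
  have h7 := mul_le_mul_of_nonneg_right c1 (show 0 ≤ ng * B ^ (T.card - 3) by positivity)
  have h8 := mul_le_mul_of_nonneg_right h5 hW
  linarith

theorem mixD (h : HB T z d w W lo hi wlo whi K1 K1f K2h K2l B Wb B0 cc wf) {i l : ι} (hi' : i ∈ T)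
    (hl : l ∈ T) (zi : z i ≤ 0) (zl : 0 ≤ z l) :
    -∏ j ∈ T, z j ≤ K1f ^ 2 / 2 * B ^ (T.card - 2) * W := by
  have hW := W0 h
  have b0 : 0 ≤ B := (abs_nonneg _).trans (absz h i hi')
  rcases eq_or_ne (∏ j ∈ T, z j) 0 with e | e
  · rw [e, neg_zero]
    positivity
  have nz := Finset.prod_ne_zero_iff.1 e
  obtain ⟨S, hS, hc, c, c0, c1, hP⟩ := mixz h hi' hl (lt_of_le_of_ne zi (nz i hi'))
    (lt_of_le_of_ne zl (nz l hl).symm)
  have h3 := abs_prod_le S z fun j hj => absz h j (hS hj)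
  rw [show S.card = T.card - 2 by omega] at h3
  have h6 := mul_le_mul_of_nonneg_left ((le_abs_self _).trans h3) c0.le
  have h7 := mul_le_mul_of_nonneg_right c1 (show 0 ≤ B ^ (T.card - 2) by positivity)
  rw [hP]
  linarith

theorem tri (T : Finset ι) (z : ι → ℝ) : (∀ j ∈ T, 0 < z j) ∨ (∀ j ∈ T, 0 < -z j) ∨
    ∃ i ∈ T, ∃ l ∈ T, z i ≤ 0 ∧ 0 ≤ z l := by
  by_contra h
  push Not at h
  obtain ⟨⟨i, hi, zi⟩, ⟨l, hl, zl⟩, h⟩ := h
  linarith [h i hi l hl zi]

end FHessX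

open FHessX

theorem HB.up (h : HB T z d w W lo hi wlo whi K1 K1f K2h K2l B Wb B0 cc wf) {up ng : ℝ}
    (h0 : 0 ≤ up) (hng : -lo ≤ ng)
    (pos : ((∀ j ∈ T, 0 < z j) → ∏ j ∈ T, z j ≤ w ^ T.card) ∨ hi ≤ 0 ∨
      B0 ^ (T.card - 1) / 2 * K2h ≤ up)
    (neg : 0 ≤ lo ∨ (Even T.card ∧ B0 ^ (T.card - 1) / 2 * K2l ≤ up) ∨
      (Odd T.card ∧ B0 ^ (T.card - 1) / 2 * K2h + cc * (B0 ^ (T.card - 2) * K1 ^ 2) ≤ up))
    {m1 m2 : ℝ} (hm1 : (T.card = 2 ∧ 0 ≤ m1) ∨ K1f ^ 2 / 2 * ng * B ^ (T.card - 3) ≤ m1)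
    (hm2 : ((Even T.card ∨ 0 ≤ wlo) ∧ 0 ≤ m2) ∨ Wb ^ (T.card - 2) * K1 ^ 2 * wf ≤ m2)
    (mix : 0 < lo ∨ hi < 0 ∨ m1 + m2 ≤ up) :
    ∏ j ∈ T, z j - w ^ T.card ≤ up * W := by
  have hW := W0 h
  obtain ⟨r, hr⟩ := ne h
  rcases tri T z with hz | hz | ⟨i, hi', l, hl, zi, zl⟩
  · rcases pos with e | e | e
    · linarith [e hz, mul_nonneg h0 hW]
    · linarith [hz r hr, (h.hz r hr).2]
    · exact (posU h hz).trans (mul_le_mul_of_nonneg_right e hW)
  · rcases neg with e | e | e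
    · linarith [hz r hr, (h.hz r hr).1]
    · have h1 := posU (FHessX.neg h) hz
      rw [Finset.prod_neg, e.1.neg_pow w, e.1.neg_one_pow, one_mul] at h1
      exact h1.trans (mul_le_mul_of_nonneg_right e.2 hW)
    · have h1 := posD (FHessX.neg h) hz
      rw [Finset.prod_neg, e.1.neg_pow w, e.1.neg_one_pow] at h1
      linarith [mul_le_mul_of_nonneg_right e.2 hW]
  · have h1 := mixU h hi' hl zi zl hng hm1
    have h2 : -w ^ T.card ≤ m2 * W := by
      rcases hm2 with ⟨e, e'⟩ | e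
      · have : 0 ≤ w ^ T.card := e.elim (fun e => e.pow_nonneg w) fun e =>
          pow_nonneg (e.trans h.hw.1) _
        linarith [mul_nonneg e' hW]
      · exact (neg_le_abs _).trans ((mixw h hi' hl zi zl).trans (mul_le_mul_of_nonneg_right e hW))
    rcases mix with e | e | e
    · linarith [(h.hz i hi').1]
    · linarith [(h.hz l hl).2]
    · linarith [mul_le_mul_of_nonneg_right e hW]

theorem HB.dn (h : HB T z d w W lo hi wlo whi K1 K1f K2h K2l B Wb B0 cc wf) {dn : ℝ}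
    (h0 : 0 ≤ dn)
    (pos : hi ≤ 0 ∨ B0 ^ (T.card - 1) / 2 * K2l + cc * (B0 ^ (T.card - 2) * K1 ^ 2) ≤ dn)
    (neg : 0 ≤ lo ∨ (Odd T.card ∧ B0 ^ (T.card - 1) / 2 * K2l ≤ dn) ∨
      (Even T.card ∧ B0 ^ (T.card - 1) / 2 * K2h + cc * (B0 ^ (T.card - 2) * K1 ^ 2) ≤ dn))
    {m2 : ℝ} (hm2 : (Odd T.card ∧ whi ≤ 0 ∧ 0 ≤ m2) ∨ Wb ^ (T.card - 2) * K1 ^ 2 * wf ≤ m2)
    (mix : 0 < lo ∨ hi < 0 ∨ K1f ^ 2 / 2 * B ^ (T.card - 2) + m2 ≤ dn) :
    w ^ T.card - ∏ j ∈ T, z j ≤ dn * W := by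
  have hW := W0 h
  have _ := h0
  obtain ⟨r, hr⟩ := ne h
  rcases tri T z with hz | hz | ⟨i, hi', l, hl, zi, zl⟩
  · rcases pos with e | e
    · linarith [hz r hr, (h.hz r hr).2]
    · exact (posD h hz).trans (mul_le_mul_of_nonneg_right e hW)
  · rcases neg with e | e | e
    · linarith [hz r hr, (h.hz r hr).1]
    · have h1 := posU (FHessX.neg h) hz
      rw [Finset.prod_neg, e.1.neg_pow w, e.1.neg_one_pow] at h1
      linarith [mul_le_mul_of_nonneg_right e.2 hW]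
    · have h1 := posD (FHessX.neg h) hz
      rw [Finset.prod_neg, e.1.neg_pow w, e.1.neg_one_pow, one_mul] at h1
      exact h1.trans (mul_le_mul_of_nonneg_right e.2 hW)
  · have h1 := mixD h hi' hl zi zl
    have h2 : w ^ T.card ≤ m2 * W := by
      rcases hm2 with ⟨e, e', e''⟩ | e
      · exact (e.pow_nonpos (h.hw.2.trans e')).trans (mul_nonneg e'' hW)
      · exact (le_abs_self _).trans ((mixw h hi' hl zi zl).trans (mul_le_mul_of_nonneg_right e hW))
    rcases mix with e | e | e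
    · linarith [(h.hz i hi').1]
    · linarith [(h.hz l hl).2]
    · linarith [mul_le_mul_of_nonneg_right e hW]

theorem HB.three (h : HB T z d w W lo hi wlo whi K1 K1f K2h K2l B Wb B0 cc wf)
    (h3 : T.card = 3) {zn sW : ℝ} (hz0 : 0 ≤ zn) (hzn : K2l * W / 6 - wlo ≤ zn) (hs0 : 0 ≤ sW)
    (hs : W ≤ sW ^ 2) : ∏ j ∈ T, z j - w ^ T.card ≤
      (B0 ^ 2 * K2h / 2 + zn * K1 ^ 2 / 2 + 0.1361 * K1 ^ 3 * sW) * W := by
  classical
  obtain ⟨m, h0, h1, h2, -, h4, h5, h6, -⟩ := mean h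
  have hW := W0 h
  have p1 := h.p1
  have h7 : m ^ 3 - w ^ 3 ≤ B0 ^ 2 * (K2h * W / 2) := by
    rcases le_total w m with e | e
    · have := step h2 h1 e h4
      rwa [h3] at this
    · have h8 := (Odd.strictMono_pow (R := ℝ) (n := 3) (by decide)).monotone e
      have h9 : 0 ≤ B0 ^ 2 * (K2h * W / 2) :=
        mul_nonneg (sq_nonneg _) (div_nonneg (mul_nonneg h.p2h hW) zero_le_two)
      linarith
  rw [h3] at h5 ⊢
  have h8 : -m ≤ zn := by
    push_cast at h5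
    linarith [h.hw.1]
  obtain ⟨a, b, c, ab, ac, bc, rfl⟩ := Finset.card_eq_three.1 h3
  have n1 : a ∉ ({b, c} : Finset ι) := by simp [ab, ac]
  rw [Finset.sum_insert n1, Finset.sum_pair bc, ← add_assoc] at h0 h6
  rw [Finset.prod_insert n1, Finset.prod_pair bc]
  have q0 : 0 ≤ (z a - m) ^ 2 + (z b - m) ^ 2 + (z c - m) ^ 2 := by positivity
  have h9 := cube_le (R := K1 ^ 3 * sW * W) h0 (by positivity) (by
    refine (pow_le_pow_left₀ q0 h6 3).trans ?_
    have := mul_le_mul_of_nonneg_left hs (show 0 ≤ K1 ^ 6 * W ^ 2 by positivity)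
    nlinarith)
  have h10 := (mul_le_mul_of_nonneg_right h8 q0).trans (mul_le_mul_of_nonneg_left h6 hz0)
  have h11 : z a * (z b * z c) = m ^ 3 + -m * ((z a - m) ^ 2 + (z b - m) ^ 2 + (z c - m) ^ 2) / 2 +
      (z a - m) * (z b - m) * (z c - m) := by
    linear_combination (m ^ 2 + m / 2 * (z a - m + (z b - m) + (z c - m))) * h0
  linarith

/-- A simple majorant of both quantities, used far out. -/
theorem HB.simple (h : HB T z d w W lo hi wlo whi K1 K1f K2h K2l B Wb B0 cc wf) :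
    |∏ j ∈ T, z j - w ^ T.card| ≤
      (B ^ (T.card - 1) / 2 * max K2h K2l + B ^ (T.card - 2) * (K1 ^ 2 + K1f ^ 2 / 2)) * W := by
  have h' : HB T z d w W lo hi lo hi K1 K1f K2h K2l B B B 1 1 :=
    ⟨h.k2, h.d0, h.hW, h.hz, h.hwr, h.hwr, h.h1, h.hf, h.h2l, h.h2h, h.p1, h.p1f, h.p2h, h.p2l,
      h.hB, h.hB, Or.inl le_rfl, Or.inl le_rfl, by linarith⟩
  obtain ⟨r, hr⟩ := ne h
  have b0 : 0 ≤ B := (abs_nonneg _).trans (absz h r hr)
  have a0 : 0 ≤ B ^ (T.card - 1) / 2 := by positivity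
  have a1 := mul_le_mul_of_nonneg_left (le_max_left K2h K2l) a0
  have a2 := mul_le_mul_of_nonneg_left (le_max_right K2h K2l) a0
  have a3 := mul_nonneg a0 h.p2h
  have a4 : 0 ≤ B ^ (T.card - 2) * K1 ^ 2 := by positivity
  have a5 : 0 ≤ B ^ (T.card - 2) * K1f ^ 2 := by positivity
  rw [abs_sub_le_iff]
  refine ⟨h'.up (ng := B) (m1 := K1f ^ 2 / 2 * B ^ (T.card - 2)) (by linarith) (neg_le.1 h.hB.1)
      (Or.inr (Or.inr (by linarith))) (Or.inr ((Nat.even_or_odd _).imp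
        (fun e => ⟨e, by linarith⟩) fun e => ⟨e, by linarith⟩)) ?_ (Or.inr le_rfl)
      (Or.inr (Or.inr (by linarith))),
    h'.dn (by linarith) (Or.inr (by linarith)) (Or.inr ((Nat.even_or_odd _).symm.imp
        (fun e => ⟨e, by linarith⟩) fun e => ⟨e, by linarith⟩)) (Or.inr le_rfl)
      (Or.inr (Or.inr (by linarith)))⟩
  rcases h.k2.eq_or_lt with e | e
  · exact Or.inl ⟨e.symm, by positivity⟩
  · refine Or.inr (le_of_eq ?_)
    rw [show T.card - 2 = T.card - 3 + 1 by omega, pow_succ]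
    ring

end Pool.Agent.MP_39fec4_gt.Full

end

section

set_option autoImplicit false

/-! Weighted one step bounds for the recursion. -/

namespace Pool.Agent.MP_39fec4_gt.Small

open MeasureTheory Set Filter Topology Real K

variable {f f' w w' : ℝ → ℝ} {a b c τ : ℝ} {i k r t x y z : ℤ}

theorem ri_S : ri S1 = 1 := by norm_num [ri, S1]

theorem ri_zero : ri 0 = 0 := by simp [ri]

theorem ri_nonneg (h : 0 ≤ z) : 0 ≤ ri z := ri_zero ▸ ri_le.2 h

theorem ri_mul' (z k : ℤ) : ri (z * k) = ri z * k := by rw [mul_comm z, ri_mul, mul_comm]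

theorem mU_ge (x y : ℤ) : ri x * ri y ≤ ri (mU x y) := by
  have := mulI_lt x y
  rw [mU, ri_add, show ri 1 = 1 / 2 ^ 40 by simp [ri]]; exact this.le

theorem dv_le (z : ℤ) (hk : 0 < k) : ri (z / k) * k ≤ ri z := by
  rw [← ri_mul']; exact ri_le.2 (Int.ediv_mul_le z hk.ne')

theorem dv_ge (z : ℤ) (hk : 0 < k) : ri z ≤ ri (z / k + 1) * k := by
  rw [← ri_mul']; exact ri_le.2 (Int.lt_ediv_add_one_mul_self z hk).le

theorem cmp {u v : ℤ} (h : x * u ≤ y * v) : ri x * u ≤ ri y * v := by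
  rw [← ri_mul', ← ri_mul']; exact ri_le.2 h

/-- An increasing weight on a cell. -/
structure Wt (w w' : ℝ → ℝ) (a b : ℝ) (r t : ℤ) : Prop where
  ab : a ≤ b
  c : ContinuousOn w (Icc a b)
  d : ∀ τ, a < τ → τ < b → HasDerivAt w (w' τ) τ
  w0 : 0 ≤ w a
  m : ∀ τ ∈ Icc a b, w a ≤ w τ ∧ w τ ≤ w b
  r0 : 0 ≤ ri r
  hr : ri r * w b ≤ w a
  ht : w a ≤ ri t * w b

theorem Wt.mul (W : Wt w w' a b r t) (hc : 0 ≤ c) :
    Wt (fun τ => c * w τ) (fun τ => c * w' τ) a b r t :=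
  ⟨W.ab, W.c.const_smul c, fun τ h1 h2 => (W.d τ h1 h2).const_mul c, mul_nonneg hc W.w0,
    fun τ h => ⟨mul_le_mul_of_nonneg_left (W.m τ h).1 hc, mul_le_mul_of_nonneg_left (W.m τ h).2 hc⟩,
    W.r0, by linarith [mul_le_mul_of_nonneg_left W.hr hc],
    by linarith [mul_le_mul_of_nonneg_left W.ht hc]⟩

theorem Wt.cvlo (W : Wt w w' a b r t) (cf : Continuous f)
    (hd : ∀ τ, a < τ → τ < b → HasDerivAt f (f' τ) τ ∧ ri y * w' τ ≤ f' τ) (h : ri x * w a ≤ f a) :
    ri (lo r t x y) * w b ≤ f b ∧ ∀ τ ∈ Icc a b, ri (min x (lo r t x y)) * w τ ≤ f τ := by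
  have key : ∀ τ ∈ Icc a b, ri y * w τ + (ri x - ri y) * w a ≤ f τ := fun τ hτ => by
    have := ge_of_deriv (f := fun u => f u - ri y * w u) (f' := fun u => f' u - ri y * w' u) hτ.1
      (cf.continuousOn.sub ((W.c.mono (Icc_subset_Icc_right hτ.2)).const_smul (ri y)))
      (fun u h1 h2 => (hd u h1 (h2.trans_le hτ.2)).1.sub
        ((W.d u h1 (h2.trans_le hτ.2)).const_mul _))
      fun u h1 h2 => sub_nonneg.2 (hd u h1 (h2.trans_le hτ.2)).2
    linarith
  have a1 := mulI_le r (x - y)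
  have a2 := mulI_le t (x - y)
  have l1 : ri (lo r t x y) ≤ ri y + ri r * (ri x - ri y) := by
    rw [lo, ri_add, ri_min, ← ri_sub]; linarith [min_le_left (ri (mulI r (x - y))) (ri (mulI t (x - y)))]
  have l2 : ri (lo r t x y) ≤ ri y + ri t * (ri x - ri y) := by
    rw [lo, ri_add, ri_min, ← ri_sub]
    linarith [min_le_right (ri (mulI r (x - y))) (ri (mulI t (x - y)))]
  have p : ∀ τ ∈ Icc a b, 0 ≤ w τ := fun τ hτ => W.w0.trans (W.m τ hτ).1
  have hb := right_mem_Icc.2 W.ab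
  rcases le_total 0 (ri x - ri y) with d | d
  · have q : ∀ τ ∈ Icc a b, ri (lo r t x y) * w τ ≤ f τ := fun τ hτ => by
      have := mul_le_mul_of_nonneg_left ((mul_le_mul_of_nonneg_left (W.m τ hτ).2 W.r0).trans W.hr) d
      linarith [key τ hτ, mul_le_mul_of_nonneg_right l1 (p τ hτ)]
    exact ⟨q b hb, fun τ hτ => (mul_le_mul_of_nonneg_right (ri_le.2 (min_le_right _ _))
      (p τ hτ)).trans (q τ hτ)⟩
  · refine ⟨?_, fun τ hτ => (mul_le_mul_of_nonneg_right (ri_le.2 (min_le_left _ _))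
      (p τ hτ)).trans ?_⟩
    · linarith [key b hb, mul_le_mul_of_nonneg_right l2 (p b hb), mul_le_mul_of_nonpos_left W.ht d]
    · linarith [key τ hτ, mul_le_mul_of_nonpos_left (W.m τ hτ).1 d]

theorem Wt.cvhi (W : Wt w w' a b r t) (cf : Continuous f)
    (hd : ∀ τ, a < τ → τ < b → HasDerivAt f (f' τ) τ ∧ f' τ ≤ ri y * w' τ) (h : f a ≤ ri x * w a) :
    f b ≤ ri (hi r t x y) * w b ∧ ∀ τ ∈ Icc a b, f τ ≤ ri (max x (hi r t x y)) * w τ := by
  obtain ⟨h1, h2⟩ := W.cvlo (f := fun u => -f u) (f' := fun u => -f' u) (x := -x) (y := -y) cf.neg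
    (fun u a1 a2 => ⟨(hd u a1 a2).1.neg, by rw [ri_neg]; linarith [(hd u a1 a2).2]⟩)
    (by rw [ri_neg]; linarith)
  refine ⟨by rw [hi, ri_neg]; linarith, fun τ hτ => ?_⟩
  have := h2 τ hτ
  rw [hi, ← neg_neg x, max_neg_neg, ri_neg, neg_neg]
  linarith

/-- The grid. -/
noncomputable def tt (i : ℤ) : ℝ := ((i : ℝ) / 128) ^ 2

theorem tt_nonneg (i : ℤ) : 0 ≤ tt i := sq_nonneg _

theorem sqrt_tt (h : 0 ≤ i) : √(tt i) = i / 128 := Real.sqrt_sq (by positivity)

theorem tt_le (h : 0 ≤ i) (h1 : i ≤ k) : tt i ≤ tt k := by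
  unfold tt; gcongr

theorem le_of_tt (h : 0 ≤ k) (h1 : tt i ≤ tt k) : ¬k < i := fun h2 => by
  have : tt k < tt i := by unfold tt; gcongr
  linarith

theorem tt_succ (i : ℤ) : tt (i + 1) = tt i + ((i + (i + 1) : ℤ) : ℝ) / 16384 := by
  unfold tt; push_cast; ring

theorem wt_exp (h0 : 0 ≤ i) (h1 : i ≤ 16000) (hk : k = i + (i + 1)) :
    Wt Real.exp Real.exp (tt i) (tt (i + 1)) ((32768 - k) * S1 / (32768 + k))
      (536870912 * S1 / (536870912 + 32768 * k + k * k) + 1) := by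
  have k0 : 0 < k := by omega
  have k1 : k < 32768 := by omega
  have a1 := dv_le ((32768 - k) * S1) (k := 32768 + k) (by omega)
  have a2 := dv_ge (536870912 * S1) (k := 536870912 + 32768 * k + k * k) (by positivity)
  have r0 : 0 ≤ ri ((32768 - k) * S1 / (32768 + k)) :=
    ri_nonneg (Int.ediv_nonneg (mul_nonneg (by omega) (by norm_num [S1])) (by omega))
  have t0 : 0 ≤ ri (536870912 * S1 / (536870912 + 32768 * k + k * k) + 1) :=
    ri_nonneg (add_nonneg (Int.ediv_nonneg (by norm_num [S1]) (by positivity)) zero_le_one)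
  rw [ri_mul, ri_S] at a1 a2
  push_cast at a1 a2
  have k2 : (0 : ℝ) < k := by exact_mod_cast k0
  have k3 : (k : ℝ) < 32768 := by exact_mod_cast k1
  have e := Real.exp_pos (tt i)
  refine ⟨tt_le h0 (by omega), Real.continuous_exp.continuousOn, fun τ _ _ => Real.hasDerivAt_exp τ,
    e.le, fun τ h => ⟨Real.exp_le_exp.2 h.1, Real.exp_le_exp.2 h.2⟩, r0, ?_, ?_⟩ <;>
    rw [tt_succ, ← hk, Real.exp_add, mul_left_comm]
  · refine mul_le_of_le_one_right e.le ?_
    have := Real.exp_le_two_add_div_two_sub (x := k / 16384) (by positivity) (by linarith)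
    rw [le_div_iff₀ (by linarith)] at this
    refine le_of_mul_le_mul_right ?_ (by linarith : 0 < 2 - (k : ℝ) / 16384)
    linarith [mul_le_mul_of_nonneg_left this r0]
  · refine le_mul_of_one_le_right e.le ?_
    have := Real.quadratic_le_exp_of_nonneg (x := k / 16384) (by positivity)
    linarith [mul_le_mul_of_nonneg_left this t0]

theorem tt_cube (h : 0 ≤ i) : tt i * √(tt i) = (i : ℝ) * i * i / 2097152 := by
  rw [sqrt_tt h, tt]; ring

theorem wt_cube (h0 : 0 ≤ i) (hk : k = i * i * i * S1 / ((i + 1) * (i + 1) * (i + 1))) :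
    Wt (fun τ => τ * √τ) (fun τ => 3 / 2 * √τ) (tt i) (tt (i + 1)) k (k + 1) := by
  have a1 := dv_le (i * i * i * S1) (k := (i + 1) * (i + 1) * (i + 1)) (by positivity)
  have a2 := dv_ge (i * i * i * S1) (k := (i + 1) * (i + 1) * (i + 1)) (by positivity)
  rw [← hk, ri_mul, ri_S] at a1 a2
  have t0 := tt_nonneg i
  refine ⟨tt_le h0 (by omega), by fun_prop, fun τ h _ => ?_, by positivity, fun τ h => ⟨?_, ?_⟩,
    hk ▸ ri_nonneg (Int.ediv_nonneg (mul_nonneg (by positivity) (by norm_num [S1])) (by positivity)),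
    ?_, ?_⟩
  · have τ0 := t0.trans_lt h
    have s0 := Real.sqrt_pos.2 τ0
    refine ((hasDerivAt_id τ).mul (Real.hasDerivAt_sqrt τ0.ne')).congr_deriv ?_
    simp only [id]
    nth_rewrite 2 [← Real.mul_self_sqrt τ0.le]
    field_simp; ring
  · have := t0.trans h.1
    gcongr <;> exact h.1
  · have := t0.trans h.1
    have := tt_nonneg (i + 1)
    gcongr <;> exact h.2
  all_goals
    simp only [tt_cube h0, tt_cube (by omega : 0 ≤ i + 1)]
    push_cast at a1 a2 ⊢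
    linarith

end Pool.Agent.MP_39fec4_gt.Small

end

section

set_option autoImplicit false

/-! Soundness of one step of the recursion. -/

namespace Pool.Agent.MP_39fec4_gt.Small

open MeasureTheory Set Filter Topology Real K

/-- The differential system. -/
structure Sy (E D Q J ψ : ℝ → ℝ) (η : ℝ) (P : Pa) : Prop where
  h0 : 0 < η
  ea : ri P.ea ≤ η
  eb : η ≤ ri P.eb
  cE : Continuous E
  cD : Continuous D
  cJ : Continuous J
  dE : ∀ τ, 0 < τ → HasDerivAt E (-D τ) τ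
  dD : ∀ τ, 0 < τ → HasDerivAt D (Q τ) τ
  dJ : ∀ τ, 0 < τ → HasDerivAt J (3 / 2 * √τ * GG E τ) τ
  E0 : E 0 = 1
  J0 : J 0 = 0
  D0 : ri P.c0 * η ≤ D 0 ∧ D 0 ≤ ri P.c1 * η
  lip : ∀ u v, 0 ≤ v → v ≤ u → |GG E u - GG E v| ≤ 1.6 * (√u - √v)
  Qe : ∀ τ, 0 < τ → Q τ = (J τ / (3 * (τ * √τ)) - ψ τ) * (η * Real.exp τ)
  ps : ∀ τ, 0 < τ → ψ τ ≤ ri P.a0 ∧ ψ τ ≤ ri P.a1 / τ + ri P.a2 ∧ ψ τ ≤ ri P.a3 / τ ∧
    |ψ τ| ≤ ri P.a4 / τ ^ 2 ∧ -ri P.a5 ≤ ψ τ
  Qb : ∀ τ, tt P.ib ≤ τ → 0 < τ → 0 ≤ Q τ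

/-- The meaning of a state. -/
structure Iv (E D J : ℝ → ℝ) (η : ℝ) (P : Pa) (τ : ℝ) (s : St) : Prop where
  gl : ri s.gl * Real.exp τ ≤ E τ
  gh : E τ ≤ ri s.gh * Real.exp τ
  dl : ri s.dl * (η * Real.exp τ) ≤ D τ
  dh : D τ ≤ ri s.dh * (η * Real.exp τ)
  jl : ri s.jl * (τ * √τ) ≤ J τ
  jh : J τ ≤ ri s.jh * (τ * √τ)
  el : ri s.el * Real.exp τ ≤ 1
  eh : 1 ≤ ri s.eh * Real.exp τ
  k0 : 0 ≤ s.ek
  ek : ri s.ek ≤ Real.exp (-(ri P.ka * min τ (tt P.iz)))

/-- Pointwise consequences. -/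
structure Pt (E D Q : ℝ → ℝ) (η : ℝ) (P : Pa) (τ : ℝ) : Prop where
  q0 : 0 < τ → 0 ≤ Q τ
  qg : 0 < τ → τ ≤ tt P.ig → η * ri P.qm ≤ Q τ
  gm : -ri P.m ≤ GG E τ
  g0 : τ ≤ tt P.i0 → ri P.m ≤ GG E τ
  gz : τ ≤ tt P.iz → 0 ≤ E τ
  far : tt P.iz ≤ τ → D τ ≤ ri P.kd * (η * env τ) ∧ |E τ| ≤ ri P.K2 * env τ ∧
    Q τ ≤ ri P.kq * (η * env τ)
  near : 0 < τ → τ ≤ tt P.iz → Q τ ≤ ri P.kq * (η * env (tt P.iz))
  th : (1 + τ * ri P.Li) * (ri P.K1 * (η * |E τ|) + ri P.K2 * D τ) ≤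
    η * Real.exp τ * (ri P.th * Real.exp (-(ri P.ka * min τ (tt P.iz))))

/-- The accumulated integrals. -/
structure Ac (E : ℝ → ℝ) (P : Pa) (i : ℤ) (s : St) : Prop where
  g : ∀ β, 0 ≤ β → β ≤ 1 → Real.exp (-(β * (ri P.ka * tt P.iz))) * (ri s.I0 + β * ri s.I1) ≤
    ∫ σ in (0 : ℝ)..(min i P.ig : ℤ) / 128,
      σ ^ 4 * Real.exp (-σ ^ 2) * GG E (σ ^ 2) * GG E (β * σ ^ 2)
  l : ∫ σ in (0 : ℝ)..i / 128, max (-GG E (σ ^ 2)) 0 / max σ (P.iz / 128) ≤ ri s.La

variable {E D Q J ψ f : ℝ → ℝ} {η τ a b c u : ℝ} {P : Pa} {i k x y : ℤ} {s : St}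

theorem le_G : c * Real.exp τ ≤ E τ ↔ c ≤ GG E τ := by
  rw [GG, Real.exp_neg, mul_comm _ (E τ), ← div_eq_mul_inv, le_div_iff₀ (Real.exp_pos τ)]

theorem G_le : E τ ≤ c * Real.exp τ ↔ GG E τ ≤ c := by
  rw [GG, Real.exp_neg, mul_comm _ (E τ), ← div_eq_mul_inv, div_le_iff₀ (Real.exp_pos τ)]

theorem int_step (hf : Continuous f) (hab : a ≤ b) (h : ∀ σ ∈ Icc a b, c ≤ f σ) :
    (∫ σ in (0 : ℝ)..a, f σ) + (b - a) * c ≤ ∫ σ in (0 : ℝ)..b, f σ := by
  rw [← intervalIntegral.integral_add_adjacent_intervals (hf.intervalIntegrable 0 a)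
    (hf.intervalIntegrable a b)]
  have := intervalIntegral.integral_mono_on (μ := volume) hab (continuous_const.intervalIntegrable a b)
    (hf.intervalIntegrable a b) h
  rw [intervalIntegral.integral_const, smul_eq_mul] at this
  linarith

theorem dv_tt (hx : 0 ≤ x) (hi : 0 < i) (hτ : tt i ≤ τ) :
    ri x / τ ≤ ri (x * 16384 / (i * i) + 1) ∧
      ri x / τ ^ 2 ≤ ri (x * 268435456 / (i * i * (i * i)) + 1) := by
  have a1 := dv_ge (x * 16384) (k := i * i) (by positivity)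
  have a2 := dv_ge (x * 268435456) (k := i * i * (i * i)) (by positivity)
  have t0 : 0 < tt i := by unfold tt; positivity
  have := ri_nonneg hx
  rw [ri_mul'] at a1 a2
  push_cast at a1 a2
  constructor
  · refine le_trans (by gcongr : _ ≤ ri x / tt i) ?_
    rw [div_le_iff₀ t0, tt]; linarith
  · refine le_trans (by gcongr : _ ≤ ri x / tt i ^ 2) ?_
    rw [div_le_iff₀ (by positivity), tt]; linarith

theorem to_env (hx : 0 ≤ ri x) (h0 : 0 < τ) (hk : 0 ≤ k) (h1 : τ ≤ tt k)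
    (h : x * (k * k * k) ≤ y * 2097152) : ri x * Real.exp τ ≤ ri y * env τ := by
  have a1 := cmp h
  have a2 : τ * √τ ≤ tt k * √(tt k) := by have := tt_nonneg k; gcongr
  rw [tt_cube hk] at a2
  push_cast at a1
  rw [env, mul_div_assoc', le_div_iff₀ (by positivity), mul_right_comm]
  exact mul_le_mul_of_nonneg_right (by linarith [mul_le_mul_of_nonneg_left a2 hx]) (Real.exp_pos _).le

theorem Cv.chord (h : Cv E D Q) (h0 : 0 ≤ τ) (b0 : 0 ≤ b) (b1 : b ≤ 1) :
    1 - b * (1 - E τ) ≤ E (b * τ) := by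
  have v0 := mul_nonneg b0 h0
  have v1 := mul_le_of_le_one_left h0 b1
  have a1 := (h.E_lip le_rfl v0).2
  have cE := h.cE
  have a2 := ge_of_deriv (f := fun x => -E x - x * D (b * τ)) (f' := fun x => D x - D (b * τ)) v1
    (by fun_prop) (fun x hx _ => ((h.dE x (by linarith)).neg.sub
      ((hasDerivAt_id x).mul_const _)).congr_deriv (by ring))
    fun x hx _ => sub_nonneg.2 (h.D_mono v0 hx.le)
  rw [h.E0] at a1
  linarith [mul_le_mul_of_nonneg_left a1 (sub_nonneg.2 b1), mul_le_mul_of_nonneg_left a2 b0]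

theorem gain_pt (h : Cv E D Q) {σ t A B β : ℝ} (h1 : σ ^ 2 ≤ t) (b0 : 0 ≤ β) (b1 : β ≤ 1)
    (hA : A ≤ c - t) (hB : 1 - E t ≤ B) (B1 : B ≤ 1) (hu : u ≤ A - B - max A 0 * B) :
    Real.exp (-(β * c)) * (1 + β * u) ≤ GG E (β * σ ^ 2) := by
  have t0 := (sq_nonneg σ).trans h1
  have B0 : 0 ≤ B := by linarith [h.E_le_one t0]
  have a1 : 1 - β * B ≤ E (β * σ ^ 2) := by
    linarith [h.chord t0 b0 b1, h.E_anti (by positivity) (mul_le_mul_of_nonneg_left h1 b0),
      mul_le_mul_of_nonneg_left hB b0]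
  have a2 : 0 ≤ 1 - β * B := sub_nonneg.2 (mul_le_one₀ b1 B0 B1)
  have a3 : 1 + β * A ≤ Real.exp (β * c - β * σ ^ 2) := by
    linarith [Real.add_one_le_exp (β * c - β * σ ^ 2), mul_le_mul_of_nonneg_left hA b0,
      mul_le_mul_of_nonneg_left h1 b0]
  have a4 : β * A ≤ max A 0 := (mul_le_mul_of_nonneg_left (le_max_left A 0) b0).trans
    (mul_le_of_le_one_left (le_max_right _ _) b1)
  have a5 : 1 + β * u ≤ (1 + β * A) * (1 - β * B) := by
    linarith [mul_le_mul_of_nonneg_left hu b0, mul_le_mul_of_nonneg_left a4 (mul_nonneg b0 B0)]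
  rw [GG, show -(β * σ ^ 2) = -(β * c) + (β * c - β * σ ^ 2) by ring, Real.exp_add, mul_assoc]
  exact mul_le_mul_of_nonneg_left (a5.trans (mul_le_mul a3 a1 a2 (Real.exp_pos _).le))
    (Real.exp_pos _).le

theorem allI {α : Type} {z : ℤ} {r : α} {f : ℤ → α} {p : Prop} (h : ∀ m, m = z → f m = r → p)
    (e : forceI z f = r) : p := h z rfl (forceI_eq z f ▸ e)

theorem forceS_eq {α : Type} (s : St) (f : St → α) : forceS s f = f s := by cases s; rfl

theorem forceB_eq {α : Type} (b : Bool) (f : Bool → α) : forceB b f = f b := by cases b <;> rfl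

theorem Sy.qb (h : Sy E D Q J ψ η P) (g1 : 0 ≤ P.a1) (g3 : 0 ≤ P.a3) (g4 : 0 ≤ P.a4) (i0 : 0 ≤ i)
    (h0 : 0 < τ) (h1 : tt i ≤ τ) (hx : ri x * (τ * √τ) ≤ J τ) (hy : J τ ≤ ri y * (τ * √τ))
    (hk : k = P.a4 * 268435456 / (i * i * (i * i)) + 1) :
    ri (x / 3 - if i = 0 then P.a0 else min (min P.a0 (P.a1 * 16384 / (i * i) + 1 + P.a2))
      (min (P.a3 * 16384 / (i * i) + 1) k)) * (η * Real.exp τ) ≤ Q τ ∧
    Q τ ≤ ri (y / 3 + 1 + if i = 0 then P.a5 else min P.a5 k) * (η * Real.exp τ) := by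
  obtain ⟨p0, p1, p3, p4, p5⟩ := h.ps τ h0
  have a1 := dv_le x (k := 3) (by norm_num)
  have a2 := dv_ge y (k := 3) (by norm_num)
  have w0 : 0 < τ * √τ := by positivity
  have b1 : ri x / 3 ≤ J τ / (3 * (τ * √τ)) := by rw [le_div_iff₀ (by positivity)]; linarith
  have b2 : J τ / (3 * (τ * √τ)) ≤ ri y / 3 := by rw [div_le_iff₀ (by positivity)]; linarith
  have e := (mul_pos h.h0 (Real.exp_pos τ)).le
  push_cast at a1 a2
  rw [h.Qe τ h0, ri_sub, ri_add]
  refine ⟨mul_le_mul_of_nonneg_right ?_ e, mul_le_mul_of_nonneg_right ?_ e⟩ <;> split_ifs with c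
  · linarith
  · have i1 : 0 < i := by omega
    have : ψ τ ≤ ri (min (min P.a0 (P.a1 * 16384 / (i * i) + 1 + P.a2))
        (min (P.a3 * 16384 / (i * i) + 1) k)) := by
      rw [ri_min, ri_min, ri_min, ri_add _ P.a2, hk]
      exact le_min (le_min p0 (by linarith [(dv_tt g1 i1 h1).1])) (le_min
        (p3.trans (dv_tt g3 i1 h1).1) ((le_of_abs_le p4).trans (dv_tt g4 i1 h1).2))
    linarith
  · linarith
  · have : -ψ τ ≤ ri (min P.a5 k) := by
      rw [ri_min, hk]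
      exact le_min (by linarith) (by linarith [neg_le_of_abs_le p4, (dv_tt g4 (by omega) h1).2])
    linarith

theorem cell (h : Sy E D Q J ψ η P) (g : P.good) (i0 : 0 ≤ i) {s' : St} (hs : step P i s = s')
    (ok : s'.ok = true) : s.ok = true ∧ (Iv E D J η P (tt i) s → Iv E D J η P (tt (i + 1)) s' ∧
      (∀ τ ∈ Icc (tt i) (tt (i + 1)), Pt E D Q η P τ) ∧
      (Cv E D Q → Ac E P i s → Ac E P (i + 1) s')) := by
  rw [step, forceS_eq] at hs
  revert hs
  refine allI fun b eb => allI fun k hk => allI fun i2 ei2 => allI fun b2 eb2 =>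
    allI fun rL erL => allI fun rH erH => allI fun cL ecL => allI fun f ef => allI fun qr eqr =>
    allI fun qh eqh => allI fun dl edl => allI fun dh edh => allI fun dL edL => allI fun dH edH =>
    allI fun gl egl => allI fun gh egh => allI fun gL egL => allI fun gH egH => allI fun gA egA =>
    allI fun jl ejl => allI fun jh ejh => allI fun el eel => allI fun eh eeh => allI fun ek eek =>
    allI fun w ew => allI fun B eB => allI fun A eA => allI fun I0 eI0 => allI fun I1 eI1 =>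
    allI fun La eLa => fun hs => ?_
  rw [forceB_eq] at hs
  subst hs eb ei2 eb2
  rw [Bool.and_eq_true, decide_eq_true_eq] at ok
  obtain ⟨ok, c1, c2, c3, c4, c5, c6, c7, c8, c9, c10, c11⟩ := ok
  obtain ⟨gg, gi, g0, gz, -, gb, -, g1, g3, g4, -, gm, gq, gk, gl', gK, gK', gt, gkq, -⟩ := g
  refine ⟨ok, fun v => ?_⟩
  have W := wt_exp i0 c1 hk
  rw [← erL, ← erH] at W
  have V := W.mul h.h0.le
  have U := wt_cube i0 ecL
  have t0 := tt_nonneg i
  have η0 := h.h0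
  have ex := Real.exp_pos
  have p : ∀ {τ}, tt i < τ → 0 < τ := fun h => t0.trans_lt h
  have m : ∀ {τ}, tt i < τ → τ < tt (i + 1) → τ ∈ Icc (tt i) (tt (i + 1)) := fun a b => ⟨a.le, b.le⟩
  have cr : ∀ τ ∈ Icc (tt i) (tt (i + 1)), ri (s.gl - 13743895348) ≤ GG E τ ∧
      GG E τ ≤ ri (s.gh + 13743895348) := fun τ hτ => by
    have a1 := abs_le.1 (h.lip τ _ t0 hτ.1)
    have a2 := Real.sqrt_le_sqrt hτ.2
    have a3 : 1.6 / 128 ≤ ri 13743895348 := by norm_num [ri]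
    rw [sqrt_tt (by omega)] at a2
    rw [sqrt_tt i0] at a1
    rw [ri_sub, ri_add]
    push_cast at a2
    constructor <;> linarith only [a1.1, a1.2, a2, a3, le_G.1 v.gl, G_le.1 v.gh]
  have jb : ∀ x y : ℤ, (∀ τ ∈ Icc (tt i) (tt (i + 1)), ri x ≤ GG E τ ∧ GG E τ ≤ ri y) → _ :=
    fun x y hx => And.intro
      (U.cvlo (y := x) h.cJ (fun τ a b => ⟨h.dJ τ (p a), (mul_comm _ _).trans_le
        (mul_le_mul_of_nonneg_left (hx τ (m a b)).1 (by positivity))⟩) v.jl)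
      (U.cvhi (y := y) h.cJ (fun τ a b => ⟨h.dJ τ (p a), (mul_le_mul_of_nonneg_left
        (hx τ (m a b)).2 (by positivity)).trans_eq (mul_comm _ _)⟩) v.jh)
  have q : ∀ τ ∈ Icc (tt i) (tt (i + 1)), 0 < τ → ri qr * (η * Real.exp τ) ≤ Q τ ∧
      Q τ ≤ ri qh * (η * Real.exp τ) ∧ 0 ≤ Q τ := fun τ hτ τ0 => by
    obtain ⟨a1, a2⟩ := h.qb g1 g3 g4 i0 τ0 hτ.1 ((jb _ _ cr).1.2 τ hτ) ((jb _ _ cr).2.2 τ hτ) ef
    rw [← eqr] at a1
    rw [← eqh] at a2
    exact ⟨a1, a2, c3.elim (fun c => h.Qb τ ((tt_le gb c).trans hτ.1) τ0) fun c =>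
      (mul_nonneg (ri_nonneg c) (by positivity)).trans a1⟩
  obtain ⟨d1, d2⟩ := V.cvlo (y := max qr 0) h.cD (fun τ a b => ⟨h.dD τ (p a), by
    rw [ri_max, max_mul_of_nonneg _ _ (by positivity), ri_zero, zero_mul]
    exact max_le (q τ (m a b) (p a)).1 (q τ (m a b) (p a)).2.2⟩) v.dl
  obtain ⟨d3, d4⟩ := V.cvhi (y := qh) h.cD
    (fun τ a b => ⟨h.dD τ (p a), (q τ (m a b) (p a)).2.1⟩) v.dh
  rw [← edl] at d1 d2
  rw [← edh] at d3 d4
  rw [← edL] at d2
  rw [← edH] at d4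
  have L0 := ri_nonneg c2
  have H0 : 0 ≤ ri dH := L0.trans (le_of_mul_le_mul_right ((d2 _ ⟨le_rfl, W.ab⟩).trans
    (d4 _ ⟨le_rfl, W.ab⟩)) (by positivity))
  obtain ⟨e1, e2⟩ := W.cvlo (y := -mU P.eb dH) h.cE (fun τ a b => ⟨h.dE τ (p a), by
    have := mul_le_mul_of_nonneg_right ((mul_le_mul_of_nonneg_right h.eb H0).trans (mU_ge _ _))
      (ex τ).le
    rw [ri_neg]; linarith only [this, d4 τ (m a b)]⟩) v.gl
  obtain ⟨e3, e4⟩ := W.cvhi (y := -mulI P.ea dL) h.cE (fun τ a b => ⟨h.dE τ (p a), by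
    have := mul_le_mul_of_nonneg_right ((mulI_le _ _).trans (mul_le_mul_of_nonneg_right h.ea L0))
      (ex τ).le
    rw [ri_neg]; linarith only [this, d2 τ (m a b)]⟩) v.gh
  rw [← egl] at e1 e2
  rw [← egh] at e3 e4
  rw [← egL] at e2
  rw [← egH] at e4
  obtain ⟨⟨j1, -⟩, j2, -⟩ := jb gL gH fun τ hτ => ⟨le_G.1 (e2 τ hτ), G_le.1 (e4 τ hτ)⟩
  obtain ⟨x1, -⟩ := W.cvlo (f := fun _ => 1) (f' := fun _ => 0) (y := 0) continuous_const
    (fun τ _ _ => ⟨hasDerivAt_const _ _, by simp [ri_zero]⟩) v.el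
  obtain ⟨x2, -⟩ := W.cvhi (f := fun _ => 1) (f' := fun _ => 0) (y := 0) continuous_const
    (fun τ _ _ => ⟨hasDerivAt_const _ _, by simp [ri_zero]⟩) v.eh
  rw [← eel] at x1
  rw [← eeh] at x2
  have κ0 := ri_nonneg gk
  have k1 : ri ek ≤ Real.exp (-(ri P.ka * min (tt (i + 1)) (tt P.iz))) := by
    rw [eek]
    split_ifs with c
    · have a1 := dv_ge (P.ka * k) (k := 16384) (by norm_num)
      have a2 := v.ek
      rw [ri_mul'] at a1
      rw [min_eq_left (tt_le i0 c.le)] at a2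
      rw [min_eq_left (tt_le (by omega) (by omega)), tt_succ, ← hk, mul_add, neg_add, Real.exp_add]
      refine (mulI_le _ _).trans ((mul_le_mul_of_nonneg_left ?_ (ri_nonneg v.k0)).trans
        (mul_le_mul_of_nonneg_right a2 (ex _).le))
      rw [ri_sub, ri_S]
      push_cast at a1
      linarith only [a1, Real.add_one_le_exp (-(ri P.ka * (k / 16384)))]
    · refine v.ek.trans (le_of_eq ?_)
      rw [min_eq_right (tt_le (by omega) (by omega)), min_eq_right (tt_le (by omega) (by omega))]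
  have ga : ∀ τ ∈ Icc (tt i) (tt (i + 1)), |E τ| ≤ ri gA * Real.exp τ := fun τ hτ => by
    have a1 := mul_le_mul_of_nonneg_right (ri_le.2 (le_max_left gH (-gL))) (ex τ).le
    have a2 := mul_le_mul_of_nonneg_right (ri_le.2 (le_max_right gH (-gL))) (ex τ).le
    rw [ri_neg, ← egA] at a2
    rw [← egA] at a1
    exact abs_le.2 ⟨by linarith only [a2, e2 τ hτ], by linarith only [a1, e4 τ hτ]⟩
  have A0 : 0 ≤ ri gA := nonneg_of_mul_nonneg_left ((abs_nonneg _).trans (ga _ ⟨le_rfl, W.ab⟩)) (ex _)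
  have q0 : ∀ τ ∈ Icc (tt i) (tt (i + 1)), 0 < τ → 0 ≤ ri qh := fun τ hτ τ0 =>
    nonneg_of_mul_nonneg_left ((q τ hτ τ0).2.2.trans (q τ hτ τ0).2.1) (by positivity)
  have z0 : (0 : ℝ) < P.iz := by exact_mod_cast (by omega : 0 < P.iz)
  refine ⟨⟨e1, e3, d1, d3, ejl ▸ j1, ejh ▸ j2, x1, x2, c4, k1⟩, fun τ hτ =>
    ⟨fun τ0 => (q τ hτ τ0).2.2, fun τ0 c => ?_, ?_, fun c => ?_, fun c => ?_, fun c => ?_,
      fun τ0 c => ?_, ?_⟩, fun cv ac => ⟨fun β b0 b1 => ?_, ?_⟩⟩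
  · have a1 := (mU_ge _ _).trans (ri_le.2 (c7.resolve_left (le_of_tt gg (hτ.1.trans c))))
    have a2 := mul_le_mul_of_nonneg_left v.eh (ri_nonneg gq)
    have a3 := mul_le_mul_of_nonneg_right a1 (ex (tt i)).le
    have a4 : 0 ≤ ri qr := nonneg_of_mul_nonneg_left (by linarith only [a2, a3, ri_nonneg gq])
      (ex (tt i))
    have a5 := mul_le_mul_of_nonneg_left (Real.exp_le_exp.2 hτ.1) a4
    have a6 := mul_le_mul_of_nonneg_left (by linarith only [a2, a3, a5] :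
      ri P.qm ≤ ri qr * Real.exp τ) η0.le
    linarith only [a6, (q τ hτ τ0).1]
  · exact ri_neg P.m ▸ (ri_le.2 c6).trans (le_G.1 (e2 τ hτ))
  · exact (ri_le.2 (c8.resolve_left (le_of_tt (by omega) (hτ.1.trans c)))).trans (le_G.1 (e2 τ hτ))
  · exact (mul_nonneg (ri_nonneg (c9.resolve_left (le_of_tt (by omega) (hτ.1.trans c))).1)
      (ex τ).le).trans (e2 τ hτ)
  · have τ0 : 0 < τ := lt_of_lt_of_le (by unfold tt; positivity) c
    obtain ⟨a1, a2, a3⟩ := c10.resolve_left (le_of_tt (by omega) (c.trans hτ.2))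
    have b1 := mul_le_mul_of_nonneg_left (to_env H0 τ0 (by omega) hτ.2 a1) η0.le
    have b3 := mul_le_mul_of_nonneg_left (to_env (q0 τ hτ τ0) τ0 (by omega) hτ.2 a3) η0.le
    exact ⟨by linarith only [b1, d4 τ hτ], (ga τ hτ).trans (to_env A0 τ0 (by omega) hτ.2 a2),
      by linarith only [b3, (q τ hτ τ0).2.1]⟩
  · have a1 := cmp (c9.resolve_left (le_of_tt (by omega) (hτ.1.trans c))).2
    have a2 := mul_le_mul_of_nonneg_left (Real.add_one_le_exp (tt P.iz - τ)) (ri_nonneg gkq)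
    have a3 := mul_le_mul_of_nonneg_left hτ.2 (ri_nonneg gkq)
    have a4 : ri qh * Real.exp τ ≤ ri P.kq * env (tt P.iz) := by
      rw [env, tt_cube (by omega), mul_div_assoc', le_div_iff₀ (by positivity), mul_right_comm,
        show Real.exp (tt P.iz) = Real.exp (tt P.iz - τ) * Real.exp τ by simp [← Real.exp_add],
        ← mul_assoc]
      refine mul_le_mul_of_nonneg_right ?_ (ex τ).le
      unfold tt at a2 a3 ⊢
      push_cast at a1 a3
      linarith only [a1, a2, a3]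
    linarith only [mul_le_mul_of_nonneg_left a4 η0.le, (q τ hτ τ0).2.1]
  · have a1 := dv_ge (P.Li * ((i + 1) * (i + 1))) (k := 16384) (by norm_num)
    have a2 := mul_le_mul_of_nonneg_right hτ.2 (ri_nonneg gl'.le)
    have a3 := (mU_ge _ _).trans ((ri_le.2 c11).trans ((mulI_le _ _).trans
      (mul_le_mul_of_nonneg_left (k1.trans (Real.exp_le_exp.2 (neg_le_neg (mul_le_mul_of_nonneg_left
        (min_le_min_right (tt P.iz) hτ.2) κ0)))) (ri_nonneg gt))))
    have a4 := mul_le_mul_of_nonneg_left (mul_le_mul_of_nonneg_left (ga τ hτ) η0.le) (ri_nonneg gK)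
    have a5 := mul_le_mul_of_nonneg_left (d4 τ hτ) (ri_nonneg gK')
    have a6 := mul_le_mul_of_nonneg_left (add_le_add (mU_ge P.K1 gA) (mU_ge P.K2 dH))
      (mul_pos η0 (ex τ)).le
    have a7 : 0 ≤ τ * ri P.Li := mul_nonneg (t0.trans hτ.1) (ri_nonneg gl'.le)
    rw [ri_mul'] at a1
    rw [tt] at a2
    rw [ri_add, ri_add (mU _ _), ri_S] at a3
    push_cast at a1 a2
    refine le_trans ?_ (mul_le_mul_of_nonneg_left a3 (by positivity))
    rw [mul_left_comm (η * _)]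
    refine mul_le_mul (by linarith only [a1, a2]) (by linarith only [a4, a5, a6]) ?_
      (by linarith only [a1, a2, a7])
    have := (mul_nonneg L0 (by positivity)).trans (d2 τ hτ)
    have := ri_nonneg gK
    have := ri_nonneg gK'
    positivity
  · have cG := cv.cont_G
    have a1 := ac.g β b0 b1
    have a2 := mul_le_mul_of_nonneg_left (mul_le_mul_of_nonneg_left (mulI_le w (A - B -
      mU (max A 0) B)) b0) (ex (-(β * (ri P.ka * tt P.iz)))).le
    simp only [eI0, eI1, ri_add]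
    split_ifs at ew with c
    · have L1 := (c9.resolve_left (by omega)).1
      have h0 : 0 < ri eh := (pos_iff_pos_of_mul_pos (one_pos.trans_le x2)).2 (ex _)
      have h1 : 0 < eh := ri_lt.1 (ri_zero ▸ h0)
      have a3 := dv_le (gl * S1) h1
      have a4 : 0 ≤ ri (gl * S1 / eh) := ri_nonneg (Int.ediv_nonneg
        (mul_nonneg (L1.trans (egL ▸ min_le_right _ _)) (by norm_num [S1])) h1.le)
      have a5 : ri (gl * S1 / eh) * ri eh ≤ ri gl := by
        rw [ri_mul, ri_S] at a3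
        simp only [ri] at a3 ⊢
        linarith only [a3]
      have a6 := dv_le (P.ka * (P.iz * P.iz) - S1 * ((i + 1) * (i + 1))) (k := 16384) (by norm_num)
      have a7 := dv_le (mulI el gL * (i * i * (i * i))) (k := 34359738368) (by norm_num)
      rw [← eA, ri_sub, ri_mul', ri_mul', ri_S] at a6
      rw [← ew, ri_mul'] at a7
      rw [min_eq_left c.le] at a1
      rw [min_eq_left (by omega)]
      refine le_trans ?_ (int_step (a := i / 128) (c := 128 * ri w * (Real.exp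
        (-(β * (ri P.ka * tt P.iz))) * (1 + β * ri (A - B - mU (max A 0) B)))) (by fun_prop)
        (by push_cast; linarith only) fun σ hσ => ?_)
      · push_cast
        linarith only [a1, a2]
      · have s0 : 0 ≤ σ := le_trans (by positivity) hσ.1
        have s1 : σ ^ 2 ∈ Icc (tt i) (tt (i + 1)) :=
          ⟨pow_le_pow_left₀ (by positivity) hσ.1 2, pow_le_pow_left₀ s0 hσ.2 2⟩
        have b2 : ri el ≤ Real.exp (-σ ^ 2) := by
          rw [Real.exp_neg, ← one_div, le_div_iff₀ (ex _)]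
          rcases le_total 0 (ri el) with d | d
          · exact (mul_le_mul_of_nonneg_left (Real.exp_le_exp.2 s1.2) d).trans x1
          · exact (mul_nonpos_of_nonpos_of_nonneg d (ex _).le).trans zero_le_one
        have b3 := (mulI_le el gL).trans ((mul_le_mul_of_nonneg_right b2 (ri_nonneg L1)).trans
          (mul_le_mul_of_nonneg_left (le_G.1 (e2 _ s1)) (ex _).le))
        have b4 := G_nonneg ((mul_nonneg (ri_nonneg L1) (ex _).le).trans (e2 _ s1))
        have b5 := mul_le_mul_of_nonneg_right (pow_le_pow_left₀ (by positivity) hσ.1 4)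
          (mul_nonneg (ex (-σ ^ 2)).le b4)
        have b6 := mul_le_mul_of_nonneg_left b3 (by positivity : 0 ≤ ((i : ℝ) / 128) ^ 4)
        have b7 := gain_pt (c := ri P.ka * tt P.iz) (A := ri A) (B := ri B)
          (u := ri (A - B - mU (max A 0) B)) cv s1.2 b0 b1
          (by unfold tt; push_cast at a6 ⊢; linarith only [a6]) (by
            rw [eB, ri_sub, ri_S]
            linarith only [e1, mul_le_mul_of_nonneg_left x2 a4,
              mul_le_mul_of_nonneg_right a5 (ex (tt (i + 1))).le])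
          (by rw [eB, ri_sub, ri_S]; linarith only [a4])
          (by have := mU_ge (max A 0) B; rw [ri_max, ri_zero] at this; rw [ri_sub, ri_sub]
              linarith only [this])
        have b8 : 0 ≤ GG E (β * σ ^ 2) := G_nonneg ((le_trans (mul_nonneg (ri_nonneg L1) (ex _).le)
          (e2 _ s1)).trans (cv.E_anti (by positivity) (mul_le_of_le_one_left (sq_nonneg σ) b1)))
        push_cast at a7
        exact (mul_le_mul_of_nonneg_left b7 (mul_nonneg (by norm_num) (ri_nonneg c5))).trans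
          (mul_le_mul_of_nonneg_right (by linarith only [a7, b5, b6]) b8)
    · rw [min_eq_right (by omega)] at a1 ⊢
      rw [ew, ri_zero] at a2 ⊢
      linarith only [a1, a2]
  · have cG := cv.cont_G
    have a1 := dv_ge (max (-gL) 0) (k := max i P.iz) (by omega)
    have a2 := int_step (a := i / 128) (b := (i + 1 : ℤ) / 128)
      (f := fun σ => -(max (-GG E (σ ^ 2)) 0 / max σ (P.iz / 128)))
      (c := -(128 * ri (max (-gL) 0 / max i P.iz + 1))) (Continuous.neg (Continuous.div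
        (by fun_prop) (by fun_prop) fun σ => (lt_max_of_lt_right (by positivity)).ne'))
      (by push_cast; linarith only) fun σ hσ => by
        have s1 : σ ^ 2 ∈ Icc (tt i) (tt (i + 1)) := ⟨pow_le_pow_left₀ (by positivity) hσ.1 2,
          pow_le_pow_left₀ (le_trans (by positivity) hσ.1) hσ.2 2⟩
        have b1 : max (-GG E (σ ^ 2)) 0 ≤ ri (max (-gL) 0) := by
          rw [ri_max, ri_neg, ri_zero]; exact max_le_max (neg_le_neg (le_G.1 (e2 _ s1))) le_rfl
        have b2 : ((max i P.iz : ℤ) : ℝ) / 128 ≤ max σ (P.iz / 128) := by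
          rw [Int.cast_max, ← max_div_div_right (by norm_num)]; exact max_le_max hσ.1 le_rfl
        have b3 := mul_le_mul_of_nonneg_left b2 (ri_nonneg (z := max (-gL) 0 / max i P.iz + 1)
          (add_nonneg (Int.ediv_nonneg (le_max_right _ _) (by omega)) zero_le_one))
        rw [neg_le_neg_iff, div_le_iff₀ (lt_max_of_lt_right (by positivity))]
        linarith only [a1, b1, b3]
    simp only [intervalIntegral.integral_neg] at a2
    simp only [eLa, ri_add s.La]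
    push_cast at a2 ⊢
    linarith only [a2, ac.l]

end Pool.Agent.MP_39fec4_gt.Small

end

section

set_option autoImplicit false

/-! From the recursion to the data of the exchange argument. -/

namespace Pool.Agent.MP_39fec4_gt.Small

open MeasureTheory Set Filter Topology Real K

variable {E D Q J ψ f f' : ℝ → ℝ} {η τ a c u v : ℝ} {P : Pa} {n x y : ℤ} {s : St}

theorem run (h : Sy E D Q J ψ η P) (g : P.good) (k : ℕ) (ok : (st P k).ok = true) :
    Iv E D J η P (tt k) (st P k) ∧ (∀ τ, 0 ≤ τ → τ < tt k → Pt E D Q η P τ) ∧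
      (Cv E D Q → Ac E P k (st P k)) := by
  induction k with
  | zero =>
    have e : tt ((0 : ℕ) : ℤ) = 0 := by simp [tt]
    obtain ⟨gg, -, -, gz, -⟩ := g
    rw [e]
    refine ⟨⟨?_, ?_, ?_, ?_, ?_, ?_, ?_, ?_, ?_, ?_⟩, fun τ a b => absurd a (not_le.2 b),
      fun _ => ⟨fun β _ _ => ?_, ?_⟩⟩ <;>
      simp [st, ri_S, ri_zero, h.E0, h.J0, h.D0.1, h.D0.2, tt_nonneg, gg]
    norm_num [S1]
  | succ k ih =>
    obtain ⟨a, b⟩ := cell h g (i := k) (s := st P k) (by omega) (s' := st P (k + 1)) rfl ok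
    obtain ⟨a1, a2, a3⟩ := ih a
    obtain ⟨b1, b2, b3⟩ := b a1
    push_cast
    exact ⟨b1, fun τ t0 t1 => (lt_or_ge τ (tt k)).elim (a2 τ t0) fun c => b2 τ ⟨c, t1.le⟩,
      fun cv => b3 cv (a3 cv)⟩

theorem env_mono2 (hv : 3 / 2 ≤ v) (huv : v ≤ u) : env v ≤ env u :=
  ge_of_deriv huv (contOn_env (by linarith)) (fun x hx _ => hasDerivAt_env (by linarith))
    fun x hx _ => le_trans (by norm_num) (env_deriv_ge (a := 3 / 2) (by norm_num) (by linarith))

theorem env_tail (ha : 0 < a) (hc : 0 ≤ c) (cf : Continuous f) (h0 : f a ≤ c * env a)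
    (hd : ∀ x, a < x → HasDerivAt f (f' x) x ∧ f' x ≤ c * (1 - 3 / (2 * a)) * env x) (hτ : a ≤ τ) :
    f τ ≤ c * env τ := by
  have := ge_of_deriv (f := fun x => c * env x - f x)
    (f' := fun x => c * (env x * (1 - 3 / (2 * x))) - f' x) hτ
    (((contOn_env ha).const_smul c).sub cf.continuousOn)
    (fun x hx _ => ((hasDerivAt_env (by linarith)).const_mul _).sub (hd x hx).1)
    fun x hx _ => by linarith [mul_le_mul_of_nonneg_left (env_deriv_ge ha hx) hc, (hd x hx).2]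
  linarith

theorem tt_ge (hn : 157 ≤ n) : 3 / 2 ≤ tt n :=
  le_trans (by norm_num [tt]) (tt_le (by norm_num) hn)

theorem cmp_tail (hn : 157 ≤ n) (h : x * (n * n) ≤ y * (n * n - 24576)) :
    ri x ≤ ri y * (1 - 3 / (2 * tt n)) := by
  have a := cmp h
  have n0 : (0 : ℝ) < n := by exact_mod_cast (by omega : 0 < n)
  push_cast at a
  refine le_of_mul_le_mul_right (a.trans_eq ?_) (mul_pos n0 n0)
  unfold tt; field_simp; ring

theorem tail (h : Sy E D Q J ψ η P) (g : P.good) (cv : Cv E D Q) (hn : 157 ≤ n)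
    (v : Iv E D J η P (tt n) s) (l : P.last n s) (hτ : tt n ≤ τ) : E τ ≤ 0 ∧
    -E τ ≤ ri P.tG * env τ ∧ D τ ≤ ri P.td * (η * env τ) ∧ Q τ ≤ ri P.tq * (η * env τ) := by
  obtain ⟨l1, l2, l3, l4, l5, l6, -⟩ := l
  obtain ⟨-, -, -, -, -, -, -, -, -, g4, -, -, -, -, -, -, -, -, -, -, -, -, -, -, -, gd, gG⟩ := g
  have t0 : 0 < tt n := by linarith [tt_ge hn]
  have n0 : (0 : ℝ) < n := by exact_mod_cast (by omega : 0 < n)
  have η0 := h.h0
  have ex := Real.exp_pos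
  have hE : ∀ τ, tt n ≤ τ → E τ ≤ 0 := fun τ hτ => (cv.E_anti t0.le hτ).trans (v.gh.trans
    (mul_nonpos_of_nonpos_of_nonneg (ri_zero ▸ ri_le.2 l1) (ex _).le))
  have hQ : ∀ τ, tt n ≤ τ → Q τ ≤ ri P.tq * (η * env τ) := fun τ hτ => by
    have τ0 := t0.trans_le hτ
    have a1 := ge_of_deriv (f := fun x => -J x) hτ h.cJ.neg.continuousOn
      (fun x hx _ => (h.dJ x (t0.trans hx)).neg) fun x hx _ => neg_nonneg.2
        (mul_nonpos_of_nonneg_of_nonpos (by positivity)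
          (mul_nonpos_of_nonneg_of_nonpos (ex _).le (hE x hx.le)))
    have a2 := v.jh
    have a3 := ri_le.2 l2
    have a4 := neg_le_of_abs_le (h.ps τ τ0).2.2.2.1
    have a5 := Real.sqrt_le_sqrt hτ
    have a6 := ri_nonneg g4
    rw [tt_cube (by omega)] at a2
    rw [sqrt_tt (by omega)] at a5
    rw [ri_add, ri_mul', ri_mul', ri_mul'] at a3
    push_cast at a3
    have a7 : ri P.a4 / τ ^ 2 ≤ ri P.a4 / (n / 128) / (τ * √τ) := by
      rw [div_div]
      gcongr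
      calc _ ≤ √τ * (τ * √τ) := by gcongr
        _ = _ := by rw [mul_left_comm, Real.mul_self_sqrt τ0.le, sq]
    have a8 : J τ / 3 + ri P.a4 / (n / 128) ≤ ri P.tq := by
      refine le_of_mul_le_mul_right ?_ n0
      rw [add_mul, show ri P.a4 / (n / 128) * n = 128 * ri P.a4 by field_simp]
      linarith only [a3, mul_le_mul_of_nonneg_right ((neg_le_neg_iff.1 a1).trans a2) n0.le]
    have a9 := div_le_div_of_nonneg_right a8 (by positivity : 0 ≤ τ * √τ)
    rw [add_div, div_div] at a9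
    rw [h.Qe τ τ0, env]
    exact (mul_le_mul_of_nonneg_right (by linarith only [a4, a7, a9] : _ ≤ ri P.tq / (τ * √τ))
      (by positivity)).trans_eq (by ring)
  have hD : ∀ τ, tt n ≤ τ → D τ ≤ ri P.td * η * env τ := fun τ =>
    env_tail t0 (mul_nonneg (ri_nonneg gd) η0.le) h.cD (by
      have := mul_le_mul_of_nonneg_left (to_env (nonneg_of_mul_nonneg_left ((cv.D_nonneg
        t0.le).trans v.dh) (by positivity)) t0 (by omega) le_rfl l3) η0.le
      linarith only [this, v.dh]) fun x hx => ⟨h.dD x (t0.trans hx), by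
      linarith only [hQ x hx.le, mul_le_mul_of_nonneg_right (cmp_tail hn l5)
        (mul_pos η0 (env_pos (t0.trans hx))).le]⟩
  refine ⟨hE τ hτ, env_tail (f := fun x => -E x) (f' := D) t0 (ri_nonneg gG) h.cE.neg ?_
    (fun x hx => ⟨(h.dE x (t0.trans hx)).neg.congr_deriv (neg_neg _), ?_⟩) hτ,
    by linarith only [hD τ hτ], hQ τ hτ⟩
  · have := to_env (x := -s.gl) (by
      rw [ri_neg]; exact neg_nonneg.2 (nonpos_of_mul_nonpos_left (v.gl.trans (hE _ le_rfl)) (ex _)))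
      t0 (by omega) le_rfl l4
    rw [ri_neg] at this
    linarith only [this, v.gl]
  · linarith only [hD x hx.le, mul_le_mul_of_nonneg_right ((mul_le_mul_of_nonneg_right h.eb
      (ri_nonneg gd)).trans ((mU_ge _ _).trans (cmp_tail hn l6))) (env_pos (t0.trans hx)).le]

theorem tail_pt (h : Sy E D Q J ψ η P) (g : P.good) (cv : Cv E D Q)
    (v : Iv E D J η P (tt P.n) s) (l : P.last P.n s) (hτ : tt P.n ≤ τ) : Pt E D Q η P τ := by
  have hn : 157 ≤ (P.n : ℤ) := by have := g.2.2.2.1; have := g.2.2.2.2.1; omega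
  obtain ⟨a1, a2, a3, a4⟩ := tail h g cv hn v l hτ
  obtain ⟨-, -, -, -, -, -, l7, l8, -⟩ := l
  obtain ⟨gg, gi, g0, gz, gn, -, -, -, -, -, -, gm, -, -, gl, gK, gK', gt, -, -, -, -, g1, g2, g3,
    gd, gG⟩ := g
  have t0 : 0 < tt P.n := by linarith [tt_ge hn]
  have τ0 := t0.trans_le hτ
  have η0 := h.h0
  have e0 := env_pos τ0
  have ex := Real.exp_pos τ
  have no : ∀ {k : ℤ} {p : Prop}, 0 ≤ k → k ≤ P.iz → τ ≤ tt k → p := fun k0 k1 c =>
    absurd (by omega) (le_of_tt k0 (hτ.trans c))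
  have w : tt P.n * √(tt P.n) ≤ τ * √τ := by gcongr
  have e1 : env τ * (τ * √τ) = Real.exp τ := by rw [env]; field_simp
  refine ⟨cv.Qnn τ, fun _ => no gg (by omega), ?_, no (by omega) g0, no (by omega) le_rfl,
    fun _ => ⟨a3.trans (mul_le_mul_of_nonneg_right (ri_le.2 g2) (by positivity)),
      (abs_of_nonpos a1).trans_le (a2.trans (mul_le_mul_of_nonneg_right (ri_le.2 g3) e0.le)),
      a4.trans (mul_le_mul_of_nonneg_right (ri_le.2 g1) (by positivity))⟩,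
    fun _ => no (by omega) le_rfl, ?_⟩
  · have b1 := cmp l7
    have b2 := mul_le_mul_of_nonneg_left w (ri_nonneg gm.le)
    rw [tt_cube (by omega)] at b2
    push_cast at b1 b2
    have b3 := mul_le_mul_of_nonneg_right (by linarith only [b1, b2] :
      ri P.tG ≤ ri P.m * (τ * √τ)) e0.le
    rw [mul_assoc, mul_comm (τ * √τ), e1] at b3
    exact le_G.1 (by linarith only [a2, b3])
  · have b1 := dv_ge (P.Li * (P.n * P.n)) (k := 16384) (by norm_num)
    have b2 := cmp l8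
    have b3 := (mulI_le P.th s.ek).trans (mul_le_mul_of_nonneg_left v.ek (ri_nonneg gt))
    have b4 := mU_ge (S1 + (P.Li * (P.n * P.n) / 16384 + 1)) (mU P.K1 P.tG + mU P.K2 P.td)
    have b5 := mul_le_mul_of_nonneg_left (add_le_add (mU_ge P.K1 P.tG) (mU_ge P.K2 P.td))
      (mul_pos η0 e0).le
    have b6 := mul_le_mul_of_nonneg_left (mul_le_mul_of_nonneg_left a2 η0.le) (ri_nonneg gK)
    have b7 := mul_le_mul_of_nonneg_left a3 (ri_nonneg gK')
    have b8 : τ * (tt P.n * √(tt P.n)) ≤ tt P.n * (τ * √τ) := by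
      rw [mul_left_comm]; gcongr
    have L0 := ri_nonneg gl.le
    have V0 : 0 ≤ ri (mU P.K1 P.tG) + ri (mU P.K2 P.td) := le_trans (add_nonneg (mul_nonneg
      (ri_nonneg gK) (ri_nonneg gG)) (mul_nonneg (ri_nonneg gK') (ri_nonneg gd)))
      (add_le_add (mU_ge _ _) (mU_ge _ _))
    rw [min_eq_right (tt_le (by omega) gn.le)] at b3
    rw [min_eq_right ((tt_le (by omega) gn.le).trans hτ), abs_of_nonpos a1]
    rw [ri_mul'] at b1
    rw [ri_add, ri_add (mU _ _), ri_S] at b4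
    generalize ri (mU P.K1 P.tG) + ri (mU P.K2 P.td) = V at *
    have c1 : (1 + tt P.n * ri P.Li) * V ≤ ri P.th * Real.exp (-(ri P.ka * tt P.iz)) *
        (tt P.n * √(tt P.n)) := by
      have := mul_le_mul_of_nonneg_right b3 (by positivity : 0 ≤ tt P.n * √(tt P.n))
      have d := mul_le_mul_of_nonneg_right b1 V0
      rw [tt_cube (by omega)] at this ⊢
      rw [tt]
      push_cast at b2 d this ⊢
      linarith only [b2, b4, d, this]
    generalize ri P.th * Real.exp (-(ri P.ka * tt P.iz)) = X at *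
    have c2 : (1 + τ * ri P.Li) * V ≤ X * (τ * √τ) := by
      refine le_of_mul_le_mul_right ?_ (by positivity : 0 < tt P.n * √(tt P.n))
      linarith only [mul_le_mul_of_nonneg_right c1 (by positivity : 0 ≤ τ * √τ),
        mul_le_mul_of_nonneg_left w V0, mul_le_mul_of_nonneg_left b8 (mul_nonneg L0 V0)]
    calc _ ≤ (1 + τ * ri P.Li) * (η * env τ * V) :=
          mul_le_mul_of_nonneg_left (by linarith only [b5, b6, b7]) (by positivity)
      _ ≤ η * env τ * (X * (τ * √τ)) := by rw [mul_left_comm]; gcongr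
      _ = _ := by rw [← e1]; ring

theorem ob (h : Sy E D Q J ψ η P) (g : P.good) (cv : Cv E D Q) (pt : ∀ τ, 0 ≤ τ → Pt E D Q η P τ)
    (hu : tt P.iz ≤ u) (hv : 0 ≤ v) (huv : v ≤ u) : u * |Om E D u v| ≤
      (u - v) * env u * ((1 + v * ri P.Li) * (ri P.K1 * (η * |E v|) + ri P.K2 * D v)) := by
  obtain ⟨-, -, -, gz, -, -, -, -, -, -, -, -, -, -, gl, gK, gK', -, gq, g1, g2, g3, -, g4, -,
    gd, -⟩ := g
  have z0 := tt_ge gz
  have u0 : 0 < u := by linarith
  have η0 := h.h0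
  have e0 := env_pos u0
  have L0 : 0 < ri P.Li := ri_zero ▸ ri_lt.2 gl
  have k1 := ri_nonneg gK
  have k2 := ri_nonneg gK'
  have d0 := cv.D_nonneg hv
  have uv := sub_nonneg.2 huv
  have av := abs_nonneg (E v)
  obtain ⟨f1, f2, -⟩ := (pt u u0.le).far hu
  rcases le_total 1 ((u - v) * ri P.Li) with c | c
  · have o : |Om E D u v| ≤ D u * |E v| + |E u| * D v := by
      refine (abs_sub _ _).trans (le_of_eq ?_)
      rw [abs_mul, abs_mul, abs_of_nonneg (cv.D_nonneg u0.le), abs_of_nonneg d0]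
    have a1 := mul_le_mul_of_nonneg_right (f1.trans (mul_le_mul_of_nonneg_right (ri_le.2 g1)
      (by positivity))) av
    have a2 := mul_le_mul_of_nonneg_right f2 d0
    calc _ ≤ (u - v) * (1 + v * ri P.Li) * (env u * (ri P.K1 * (η * |E v|) + ri P.K2 * D v)) :=
          mul_le_mul (by linarith only [mul_le_mul_of_nonneg_left c hv]) (by linarith only [o, a1, a2])
            (abs_nonneg _) (by positivity)
      _ = _ := by ring
  · have cD := h.cD
    have q0 := ri_nonneg gq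
    have a1 := ge_of_deriv (f := fun x => x * (ri P.kq * (η * env u)) - D x)
      (f' := fun x => ri P.kq * (η * env u) - Q x) huv (by fun_prop)
      (fun x hx _ => (((hasDerivAt_id x).mul_const _).sub (h.dD x (hv.trans_lt hx))).congr_deriv
        (by ring)) fun x hx hx' => sub_nonneg.2 <| by
        have x0 := hv.trans_lt hx
        rcases le_total x (tt P.iz) with d | d
        · exact ((pt x x0.le).near x0 d).trans (by gcongr; exact env_mono2 z0 hu)
        · exact ((pt x x0.le).far d).2.2.trans (by gcongr; exact env_mono2 (z0.trans d) hx'.le)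
    have a2 := cv.E_lip hv huv
    have o : |Om E D u v| ≤ |E v| * (D u - D v) + D v * (E v - E u) := by
      rw [show Om E D u v = E v * (D u - D v) + D v * (E v - E u) by unfold Om; ring]
      refine (abs_add_le _ _).trans (le_of_eq ?_)
      rw [abs_mul, abs_of_nonneg (sub_nonneg.2 (cv.D_mono hv huv)), abs_of_nonneg (mul_nonneg d0 a2.1)]
    have a3 := mul_le_mul_of_nonneg_left ((ri_le.2 g2).trans (mulI_le _ _))
      (by positivity : 0 ≤ |E v| * ((u - v) * (η * env u)))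
    have a4 := mul_le_mul_of_nonneg_left ((mul_le_mul_of_nonneg_right h.eb (ri_nonneg (gd.trans
      g4))).trans ((mU_ge _ _).trans ((ri_le.2 g3).trans (mulI_le _ _))))
      (by positivity : 0 ≤ D v * ((u - v) * env u))
    have a5 := mul_le_mul_of_nonneg_left (a2.2.trans (mul_le_mul_of_nonneg_left f1 uv)) d0
    have a6 := mul_le_mul_of_nonneg_left (by linarith only [a1] :
      D u - D v ≤ (u - v) * (ri P.kq * (η * env u))) av
    calc _ ≤ u * (ri P.Li * ((u - v) * env u * (ri P.K1 * (η * |E v|) + ri P.K2 * D v))) :=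
          mul_le_mul_of_nonneg_left (by linarith only [o, a3, a4, a5, a6]) u0.le
      _ ≤ (1 + v * ri P.Li) * ((u - v) * env u * (ri P.K1 * (η * |E v|) + ri P.K2 * D v)) := by
          rw [← mul_assoc]
          exact mul_le_mul_of_nonneg_right (by linarith only [c]) (by positivity)
      _ = _ := by ring

theorem Sy.ex (h : Sy E D Q J ψ η P) (hc : chk P = true) :
    ∃ z1 t0 sg qm c th I0 La K, Ex E D Q z1 t0 sg qm c th I0 La K := by
  rw [chk, forceS_eq, Bool.and_eq_true, decide_eq_true_eq] at hc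
  obtain ⟨ok, g, -, l⟩ := hc
  obtain ⟨v, p1, ac⟩ := run h g P.n ok
  generalize st P P.n = s at *
  have g' := g
  obtain ⟨gg, gi, g0, gz, gn, gb, gb', -, -, -, gc, gm, gq, gk, gl, -, gK', gt, -, -, -, -, -, g4, -,
    gd, gG⟩ := g'
  have η0 := h.h0
  have cv : Cv E D Q := ⟨h.cE, h.cD, h.dE, h.dD, h.E0,
    (mul_nonneg (ri_nonneg gc) η0.le).trans h.D0.1, fun τ τ0 => (lt_or_ge τ (tt P.n)).elim
      (fun c => (p1 τ τ0.le c).q0 τ0) fun c => h.Qb τ ((tt_le gb gb').trans c) τ0⟩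
  have pt : ∀ τ, 0 ≤ τ → Pt E D Q η P τ := fun τ τ0 =>
    (lt_or_ge τ (tt P.n)).elim (p1 τ τ0) (tail_pt h g cv v l)
  have z0 := tt_ge gz
  have ex := Real.exp_pos
  have cG := cv.cont_G
  have m0 : 0 < ri P.m := ri_zero ▸ ri_lt.2 gm
  have n0 : (0 : ℝ) < (P.n : ℤ) / 128 := by
    have : (0 : ℝ) < (P.n : ℤ) := by exact_mod_cast (by omega : 0 < (P.n : ℤ))
    positivity
  have i0 : (0 : ℝ) < P.iz / 128 := by
    have : (0 : ℝ) < P.iz := by exact_mod_cast (by omega : 0 < P.iz)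
    positivity
  set F := fun σ : ℝ => max (-GG E (σ ^ 2)) 0 / max σ (P.iz / 128) with hF
  have cF : Continuous F := Continuous.div (by fun_prop) (by fun_prop)
    fun σ => (lt_max_of_lt_right i0).ne'
  have eF : EqOn F (fun σ => max (-GG E (σ ^ 2)) 0 / σ) (Ioi 0) := fun σ hσ => by
    rcases le_total σ (P.iz / 128) with c | c
    · simp only [hF, max_eq_right (neg_nonpos.2 (G_nonneg ((pt _ (sq_nonneg σ)).gz
        (pow_le_pow_left₀ (le_of_lt hσ) c 2)))), zero_div]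
    · simp only [hF, max_eq_left c]
  have i1 := (integrableOn_Ioi_rpow_of_lt (a := -4) (by norm_num) n0).const_mul (ri P.tG)
  have bF : ∀ σ ∈ Ioi (((P.n : ℤ) : ℝ) / 128), |F σ| ≤ ri P.tG * σ ^ (-4 : ℝ) := fun σ hσ => by
    have σ0 := n0.trans hσ
    obtain ⟨a1, a2, -⟩ := tail h g cv (by omega) v l (pow_le_pow_left₀ n0.le (le_of_lt hσ) 2)
    have a3 := mul_le_mul_of_nonneg_left a2 (ex (-σ ^ 2)).le
    simp only [eF σ0, GG]
    rw [abs_of_nonneg (by positivity), max_eq_left (neg_nonneg.2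
      (mul_nonpos_of_nonneg_of_nonpos (ex _).le a1)), div_le_iff₀ σ0, ← mul_neg]
    refine a3.trans_eq ?_
    rw [env, Real.sqrt_sq σ0.le, Real.rpow_neg σ0.le, Real.rpow_ofNat, Real.exp_neg]
    field_simp
  have i2 : IntegrableOn F (Ioi (((P.n : ℤ) : ℝ) / 128)) := i1.mono' cF.aestronglyMeasurable
    ((ae_restrict_iff' measurableSet_Ioi).2 (Eventually.of_forall bF))
  have k2 := ri_nonneg gK'
  have kd := ri_nonneg (gd.trans g4)
  have dz := cv.D_nonneg (tt_nonneg P.iz)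
  have eb : ∀ τ, tt P.iz ≤ τ → Real.exp (-τ) * ((1 + τ) * env τ) ≤ 2 := fun τ c => by
    have := mul_le_mul_of_nonneg_left (env_bound (a := 1) (c := 2) (τ := τ) one_pos (by linarith)
      (by norm_num)) (ex (-τ)).le
    linarith only [this, exp_neg_mul_exp τ]
  refine ⟨tt P.iz, tt P.i0, P.ig / 128, η * ri P.qm, ri P.ka * tt P.iz, η * ri P.th, ri s.I0,
    ri (s.La + (P.tG * 2097152 / (3 * (P.n * P.n * P.n)) + 1)),
    (1 + tt P.iz) * (1 + D (tt P.iz)) + 2 * (ri P.K2 + ri P.kd * η), cv, by positivity, tt_le gg gi,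
    tt_le (by omega) g0, (pt _ (tt_nonneg _)).gz le_rfl, ?_, mul_nonneg η0.le (ri_nonneg gq),
    mul_nonneg η0.le (ri_nonneg gt), fun τ τ0 c => ?_, fun τ τ0 => (pt τ τ0.le).qg τ0,
    fun u w β a1 a2 a3 a4 a5 a6 a7 => ?_, fun β b0 b1 => ?_, ?_, ?_, ?_, fun τ τ0 => ?_,
    fun τ τ0 => ?_⟩
  · exact (mul_pos m0 (ex _)).trans_le (le_G.2 ((pt _ (tt_nonneg _)).g0 le_rfl))
  · rw [abs_of_neg (a := GG E τ) (mul_neg_of_pos_of_neg (ex _) c)]
    exact (neg_le.1 (pt τ τ0).gm).trans ((pt _ (tt_nonneg _)).g0 le_rfl)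
  · have b1 := (ob h g cv pt a1 a3 a4).trans (mul_le_mul_of_nonneg_left (pt w a3).th
      (mul_nonneg (sub_nonneg.2 a4) (env_pos a2).le))
    have b2 : Real.exp (-(ri P.ka * min w (tt P.iz))) ≤ Real.exp (-(β * (ri P.ka * tt P.iz))) := by
      rw [Real.exp_le_exp, neg_le_neg_iff, mul_left_comm]
      exact mul_le_mul_of_nonneg_left (le_min a7 (mul_le_of_le_one_left (tt_nonneg _) a6))
        (ri_nonneg gk)
    have := ri_nonneg gt
    have := sub_nonneg.2 a4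
    have := env_pos a2
    rw [mul_left_comm]
    refine (mul_le_mul_of_nonneg_left (b1.trans (by gcongr : _ ≤ (u - w) * env u * (η * Real.exp w *
      (ri P.th * Real.exp (-(β * (ri P.ka * tt P.iz))))))) (ex _).le).trans_eq ?_
    rw [env, Real.exp_neg (u + w), Real.exp_add]
    field_simp
  · have a1 := (ac cv).g β b0 b1
    rw [min_eq_right (by omega)] at a1
    exact le_trans (mul_le_mul_of_nonneg_left (le_add_of_nonneg_right (mul_nonneg b0
      (ri_nonneg l.2.2.2.2.2.2.2.2.1))) (ex _).le) a1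
  · refine IntegrableOn.congr_fun ?_ eF measurableSet_Ioi
    rw [← Ioc_union_Ioi_eq_Ioi n0.le]
    exact cF.integrableOn_Ioc.union i2
  · have a1 := setIntegral_mono_on i2 i1 measurableSet_Ioi fun σ hσ => le_of_abs_le (bF σ hσ)
    have a2 := dv_ge (P.tG * 2097152) (k := 3 * (P.n * P.n * P.n))
      (by have : 0 < (P.n : ℤ) := by omega
          positivity)
    rw [integral_const_mul, integral_Ioi_rpow_of_lt (by norm_num) n0, show (-4 : ℝ) + 1 = -3 by
      norm_num, Real.rpow_neg n0.le, Real.rpow_ofNat] at a1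
    rw [← setIntegral_congr_fun measurableSet_Ioi eF,
      ← intervalIntegral.integral_interval_add_Ioi' (cF.intervalIntegrable 0 _) i2, ri_add]
    refine add_le_add (ac cv).l (a1.trans (le_of_mul_le_mul_right (le_of_eq_of_le ?_ a2) ?_))
    · have : ((P.n : ℤ) : ℝ) ≠ 0 := fun e => by rw [e] at n0; simp at n0
      rw [ri_mul']
      simp only [Int.cast_mul, Int.cast_ofNat]
      field_simp
      norm_num
    · have : 0 < (P.n : ℤ) := by omega
      positivity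
  · rw [mul_assoc η, mul_assoc η]
    exact mul_lt_mul_of_pos_left ((mU_ge _ _).trans_lt ((ri_lt.2 l.2.2.2.2.2.2.2.2.2).trans_le
      (mulI_le _ _))) η0
  · rcases le_total τ (tt P.iz) with c | c
    · have a1 := cv.G_anti le_rfl τ0 (by simp [h.E0])
      rw [abs_of_nonneg (G_nonneg ((pt τ τ0).gz c))]
      simp only [GG, h.E0, neg_zero, Real.exp_zero, mul_one] at a1
      refine le_add_of_le_of_nonneg (mul_le_mul (by linarith only [c]) (by unfold GG; linarith)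
        (G_nonneg ((pt τ τ0).gz c)) (by linarith)) (by positivity)
    · have a1 := mul_le_mul_of_nonneg_left ((pt τ τ0).far c).2.1
        (by positivity : 0 ≤ Real.exp (-τ) * (1 + τ))
      rw [abs_GG]
      linarith only [a1, mul_le_mul_of_nonneg_left (eb τ c) k2, (by positivity : 0 ≤ ri P.kd * η),
        (by positivity : 0 ≤ (1 + tt P.iz) * (1 + D (tt P.iz)))]
  · rcases le_total τ (tt P.iz) with c | c
    · have a1 := mul_le_mul (Real.exp_le_one_iff.2 (neg_nonpos.2 τ0)) (cv.D_mono τ0 c)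
        (cv.D_nonneg τ0) zero_le_one
      refine le_add_of_le_of_nonneg (mul_le_mul (by linarith only [c]) (by linarith only [a1])
        (mul_nonneg (ex _).le (cv.D_nonneg τ0)) (by linarith)) (by positivity)
    · have a1 := mul_le_mul_of_nonneg_left ((pt τ τ0).far c).1
        (by positivity : 0 ≤ Real.exp (-τ) * (1 + τ))
      linarith only [a1, mul_le_mul_of_nonneg_left (eb τ c) (by positivity : 0 ≤ ri P.kd * η), k2,
        (by positivity : 0 ≤ (1 + tt P.iz) * (1 + D (tt P.iz)))]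

end Pool.Agent.MP_39fec4_gt.Small

end
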