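import Pool.Agent.Mg.F39fec4.G91234f
import Pool.Agent.Mg.F39fec4.Gc91473
import Pool.Agent.Mg.F39fec4.G83e03a

section

set_option autoImplicit false

namespace Pool.Agent.MP_39fec4_gt.Small

open MeasureTheory Set Filter Topology Real

variable {η r x s : ℝ}

theorem int_lin3 {f g h : ℝ → ℝ} (hf : IntegrableOn f (Ioi 0)) (hg : IntegrableOn g (Ioi 0))
    (hh : IntegrableOn h (Ioi 0)) (a b c : ℝ) :
    IntegrableOn (fun x => a * f x + b * g x + c * h x) (Ioi 0) :=
  ((hf.const_mul a).add (hg.const_mul b)).add (hh.const_mul c)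

theorem cosT_lin3 {f g h : ℝ → ℝ} (hf : IntegrableOn f (Ioi 0)) (hg : IntegrableOn g (Ioi 0))
    (hh : IntegrableOn h (Ioi 0)) (a b c s : ℝ) :
    cosT (fun x => a * f x + b * g x + c * h x) s = a * cosT f s + b * cosT g s + c * cosT h s := by
  have := cosT_lin (k := fun x => a * f x + b * g x) ((hf.const_mul a).add (hg.const_mul b)) hh 1 c s
  simpa only [one_mul, cosT_lin hf hg] using this

theorem sinT_lin3 {f g h : ℝ → ℝ} (hf : IntegrableOn f (Ioi 0)) (hg : IntegrableOn g (Ioi 0))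
    (hh : IntegrableOn h (Ioi 0)) (a b c s : ℝ) :
    sinT (fun x => a * f x + b * g x + c * h x) s = a * sinT f s + b * sinT g s + c * sinT h s := by
  have := sinT_lin (k := fun x => a * f x + b * g x) ((hf.const_mul a).add (hg.const_mul b)) hh 1 c s
  simpa only [one_mul, sinT_lin hf hg] using this

theorem abs_sin_sub_le {w : ℝ} (hw : 0 ≤ w) : |Real.sin w - w * Real.cos w| ≤ w ^ 3 / 3 := by
  have key : ∀ e : ℝ, |e| = 1 → 0 ≤ w ^ 3 / 3 + e * (Real.sin w - w * Real.cos w) := fun e he =>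
    nonneg_of_deriv (f := fun w => w ^ 3 / 3 + e * (Real.sin w - w * Real.cos w))
      (f' := fun w => w * (w + e * Real.sin w)) (fun w => by
        have := ((hasDerivAt_pow 3 w).div_const 3).add (((Real.hasDerivAt_sin w).sub
          ((hasDerivAt_id w).mul (Real.hasDerivAt_cos w))).const_mul e)
        refine this.congr_deriv ?_
        simp; ring) (by simp) (fun w hw => mul_nonneg hw.le (by
          have a : |e * Real.sin w| ≤ w := by
            rw [abs_mul, he, one_mul]; exact Real.abs_sin_le_abs.trans (abs_of_pos hw).le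
          linarith [neg_le_of_abs_le a])) hw
  have a := key 1 (by simp)
  have b := key (-1) (by simp)
  rw [abs_le]; constructor <;> linarith

theorem abs_T_le {k l g : ℝ → ℝ} (hk : IntegrableOn k (Ioi 0)) (hl : IntegrableOn l (Ioi 0))
    (hkl : ∀ x, 0 < x → l x = x * k x) (hg : IntegrableOn g (Ioi 0))
    (h : ∀ x, 0 < x → x ^ 3 * |k x| ≤ g x) (hs : 0 ≤ s) :
    |sinT k s - s * cosT l s| ≤ s ^ 3 / 3 * ∫ x in Ioi (0 : ℝ), g x := by
  unfold cosT sinT
  rw [← integral_const_mul, ← integral_const_mul,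
    ← integral_sub (int_sin hk s) ((int_cos hl s).const_mul s)]
  refine abs_integral_le (hg.const_mul _) fun x hx => ?_
  have e : k x * Real.sin (s * x) - s * (l x * Real.cos (s * x)) =
      k x * (Real.sin (s * x) - s * x * Real.cos (s * x)) := by rw [hkl x hx]; ring
  rw [e, abs_mul]
  calc |k x| * |Real.sin (s * x) - s * x * Real.cos (s * x)| ≤ |k x| * ((s * x) ^ 3 / 3) := by
        gcongr; exact abs_sin_sub_le (by positivity)
    _ = s ^ 3 / 3 * (x ^ 3 * |k x|) := by ring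
    _ ≤ _ := by gcongr; exact h x hx

theorem abs_cosT_le_two {g M : ℝ → ℝ} (hg : IntegrableOn g (Ioi 0)) (hM : IntegrableOn M (Ioi 0))
    (h0 : cosT g 0 = 0) (h1 : ∀ x, 0 < x → 0 ≤ M x) (h2 : ∀ x, 0 < x → -g x ≤ M x) (s : ℝ) :
    |cosT g s| ≤ 2 * ∫ x in Ioi (0 : ℝ), M x := by
  have := abs_cosT_le (k := g) (g := fun x => g x + 2 * M x) (hg.add (hM.const_mul 2))
    (fun x hx => by rw [abs_le]; constructor <;> linarith [h1 x hx, h2 x hx]) s
  rwa [integral_add hg (hM.const_mul 2), ← cosT_zero, h0, zero_add, integral_const_mul] at this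

/-- The main term. -/
noncomputable def Phi (η s : ℝ) : ℝ := Sr η (η - 1) s - s * Cr η η s

/-- The second order term. -/
noncomputable def Psi (η s : ℝ) : ℝ := 1 * (Sr η 1 s - s * Cr η 2 s) +
  (-2) * (Sr η (1 + η) s - s * Cr η (2 + η) s) + 1 * (Sr η (1 + 2 * η) s - s * Cr η (2 + 2 * η) s)

/-- The concavity defect. -/
noncomputable def Uf (η s : ℝ) : ℝ :=
  -Sr η 1 s + s * Cr η 2 s + s ^ 2 * Sr η 1 s / 2 - s ^ 3 * Cr η 0 s / 16

theorem U_eq (h0 : 0 < η) (s : ℝ) : Uf η s = η / 4 * Phi η s - Psi η s := by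
  have a := P0 h0 s
  have b := P2 h0 one_pos (a := 0) (b := 2 + η) (by ring) (by ring) s
  have c := P2 h0 (r := 1 + η) (by linarith) (a := η) (b := 2 + 2 * η) (by ring) (by ring) s
  have d := P1 h0 h0 (a := η - 1) (b := 1 + 2 * η) (by ring) (by ring) s
  unfold Uf Phi Psi
  linear_combination (1 / 2 - s ^ 2 / 16) * a + s / 2 * b - s / 4 * c - 1 / 4 * d

theorem dPhi (h0 : 0 < η) (s : ℝ) : HasDerivAt (Phi η) (s ^ 2 * Cr η 0 s / 4) s := by
  have := (dS h0 (r := η - 1) (by linarith) (a := η) (by ring) s).sub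
    ((hasDerivAt_id s).mul (dC h0 (r := η) (by linarith) (a := 1 + η) (by ring) s))
  refine this.congr_deriv ?_
  simp only [id]
  linear_combination -(s / 4) * P0 h0 s

theorem Phi_zero (η : ℝ) : Phi η 0 = 0 := by simp [Phi, Sr, sinT_zero]

theorem W_one (η x : ℝ) : Wr η 1 x = x * kr η x := by rw [Wr, Real.rpow_one]

theorem W_two (η x : ℝ) : Wr η 2 x = x ^ 2 * kr η x := by rw [Wr, Real.rpow_two]

theorem rpow_two_mul (η : ℝ) (hx : 0 < x) : x ^ (2 * η) = (x ^ η) ^ 2 := by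
  rw [← Real.rpow_mul_natCast hx.le, mul_comm]; norm_num

theorem Psi_small (h0 : 0 < η) (h1 : η ≤ 1 / 20) (hs : 0 ≤ s) :
    |Psi η s| ≤ s ^ 3 / 3 * (0.0325 * η ^ 2 * m0 η) := by
  have i := fun r (hr : -1 < r) => int_Wr h0 hr
  have i1 := i 1 (by norm_num)
  have i2 := i (1 + η) (by linarith)
  have i3 := i (1 + 2 * η) (by linarith)
  have j1 := i 2 (by norm_num)
  have j2 := i (2 + η) (by linarith)
  have j3 := i (2 + 2 * η) (by linarith)
  obtain ⟨m1, m2⟩ := mom3 h0 (η ^ 2 / 4 * (1 / 40)) (η ^ 2 / 4 * (19 / 20))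
    (η ^ 2 / 4 * (-79 / 40)) (η ^ 2 / 4)
  have := abs_T_le (int_lin3 i1 i2 i3 1 (-2) 1) (int_lin3 j1 j2 j3 1 (-2) 1) (fun x hx => by
    rw [Wr_succ (r := 1) (a := 2) (by ring) hx, Wr_succ (r := 1 + η) (a := 2 + η) (by ring) hx,
      Wr_succ (r := 1 + 2 * η) (a := 2 + 2 * η) (by ring) hx]; ring) m1 (fun x hx => by
    obtain ⟨θ, y, z, -, ey, ez, t0, t1, y0, z0, e, b1, -, -, b4, -⟩ := yz h0 h1 hx
    have k0 := kr_pos η x
    rw [Wr_add _ _ hx, Wr_add _ _ hx, rpow_two_mul η hx, W_one, ← ey, ← ez,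
      show 1 * (x * kr η x) + -2 * (z * (x * kr η x)) + 1 * (z ^ 2 * (x * kr η x)) =
        x * kr η x * (1 - z) ^ 2 by ring, abs_of_nonneg (by positivity)]
    have c1 : x ^ 4 * (1 - z) ^ 2 ≤ θ ^ 2 * ((y + θ) * (y - 1) ^ 2) := by
      refine le_of_mul_le_mul_left ?_ (pow_pos z0 2)
      calc z ^ 2 * (x ^ 4 * (1 - z) ^ 2) = y * (y * (1 - z) ^ 2) := by rw [e]; ring
        _ ≤ (y + θ) * z * (θ ^ 2 * z * (y - 1) ^ 2) := by gcongr
        _ = _ := by ring
    have c2 : θ ^ 2 * ((y + θ) * (y - 1) ^ 2) ≤ (η / 2) ^ 2 * ((y + 1 / 40) * (y - 1) ^ 2) := by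
      gcongr; linarith
    nlinarith [mul_le_mul_of_nonneg_left (c1.trans c2) k0.le]) hs
  rw [sinT_lin3 i1 i2 i3, cosT_lin3 j1 j2 j3, m2] at this
  refine le_trans (le_of_eq ?_) (this.trans ?_)
  · congr 1; unfold Psi Sr Cr; ring
  · have := m0_pos h0
    gcongr s ^ 3 / 3 * ?_
    have : 1 / 40 + 19 / 20 / 4 + -79 / 40 * (3 + η) / 16 + (3 + η) * (5 + 2 * η) / 64 ≤ 0.13 := by
      nlinarith
    nlinarith [mul_le_mul_of_nonneg_left this (by positivity : 0 ≤ η ^ 2 * m0 η)]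

/-- The kernel after two integrations by parts. -/
noncomputable def Hk (η r x : ℝ) : ℝ := r * (r + 2) * Wr η (r - 1) x +
  (-4 * (2 * r + 4 + η)) * Wr η (r + 1 + η) x + 16 * Wr η (r + 3 + 2 * η) x

theorem int_Hk (h0 : 0 < η) (hr : 0 < r) : IntegrableOn (Hk η r) (Ioi 0) :=
  int_lin3 (int_Wr h0 (by linarith)) (int_Wr h0 (by linarith)) (int_Wr h0 (by linarith)) _ _ _

theorem sT (h0 : 0 < η) (hr : 0 < r) {a : ℝ} (ha : a = r + 1) (s : ℝ) :
    s * (Sr η r s - s * Cr η a s) = cosT (Hk η r) s := by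
  have e := cosT_lin3 (int_Wr h0 (r := r - 1) (by linarith)) (int_Wr h0 (r := r + 1 + η)
    (by linarith)) (int_Wr h0 (r := r + 3 + 2 * η) (by linarith)) (r * (r + 2))
    (-4 * (2 * r + 4 + η)) 16 s
  have p1 := P1 h0 (r := a) (by linarith) (a := r) (b := r + 2 + η) (by linarith) (by linarith) s
  have p2 := P2 h0 hr rfl rfl s
  have p3 := P2 h0 (r := r + 2 + η) (by linarith) (a := r + 1 + η) (b := r + 3 + 2 * η) (by ring)
    (by ring) s
  refine Eq.trans ?_ e.symm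
  simp only [Cr] at p1 p2 p3 ⊢
  rw [p1, ha]
  linear_combination (r + 2) * p2 - 4 * p3

theorem Hk_eq (η r : ℝ) (hx : 0 < x) : Hk η r x = x ^ (r - 1) * kr η x * (r * (r + 2) -
    4 * (2 * r + 4 + η) * x ^ (2 + η) + 16 * (x ^ (2 + η)) ^ 2) := by
  rw [Hk, show r + 1 + η = r - 1 + (2 + η) by ring, show r + 3 + 2 * η = r - 1 + 2 * (2 + η) by ring,
    Wr_add _ _ hx, Wr_add _ _ hx, rpow_two_mul _ hx, Wr]
  ring

theorem Psi_big (h0 : 0 < η) (h1 : η ≤ 1 / 20) (s : ℝ) : |s * Psi η s| ≤ 15.5 * η ^ 2 * m0 η := by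
  have i1 := int_Hk h0 one_pos
  have i2 := int_Hk h0 (r := 1 + η) (by linarith)
  have i3 := int_Hk h0 (r := 1 + 2 * η) (by linarith)
  have e : ∀ s, s * Psi η s =
      cosT (fun x => 1 * Hk η 1 x + (-2) * Hk η (1 + η) x + 1 * Hk η (1 + 2 * η) x) s := fun s => by
    rw [cosT_lin3 i1 i2 i3, ← sT h0 one_pos (a := 2) (by ring),
      ← sT h0 (r := 1 + η) (by linarith) (a := 2 + η) (by ring),
      ← sT h0 (r := 1 + 2 * η) (by linarith) (a := 2 + 2 * η) (by ring), Psi]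
    ring
  obtain ⟨m1, m2⟩ := mom3 h0 (η ^ 2 * (6.05 + 3.5)) (η ^ 2 * (6.05 * (-79 / 40) + 3.5 / 20))
    (η ^ 2 * (6.05 * (19 / 20))) (η ^ 2 * (6.05 / 40))
  have em : ∀ y : ℝ, η ^ 2 * (6.05 + 3.5) + η ^ 2 * (6.05 * (-79 / 40) + 3.5 / 20) * y +
      η ^ 2 * (6.05 * (19 / 20)) * y ^ 2 + η ^ 2 * (6.05 / 40) * y ^ 3 =
      η ^ 2 * (6.05 * ((1 + y / 40) * (y - 1) ^ 2) + 3.5 * (1 + y / 20)) := fun y => by ring
  have := abs_cosT_le_two (int_lin3 i1 i2 i3 1 (-2) 1) m1 (by rw [← e, zero_mul])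
    (fun x hx => by
      have := kr_pos η x
      have := Real.rpow_pos_of_pos hx (2 + η)
      rw [em]; positivity) (fun x hx => by
      obtain ⟨θ, y, z, -, ey, ez, t0, t1, y0, z0, -, b1, b2, b3, -, -⟩ := yz h0 h1 hx
      have k0 := kr_pos η x
      rw [em, Hk_eq _ _ hx, Hk_eq _ _ hx, Hk_eq _ _ hx, sub_self, add_sub_cancel_left,
        add_sub_cancel_left, rpow_two_mul _ hx, Real.rpow_zero, ← ey, ← ez]
      have c1 : y * (1 - z) ^ 2 ≤ (η / 2) ^ 2 * (1 + y / 40) * (y - 1) ^ 2 := by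
        refine b1.trans ?_
        gcongr; nlinarith
      have c2 : z ^ 2 ≤ 1 + y / 20 := by nlinarith
      have c3 : -(3 * (1 - z) ^ 2) - (4 * y * (1 - z)) ^ 2 + (8 + 2 * η) * (η * z * (1 - z)) -
          4 * (η * z) * (4 * y * (1 - z)) ≤ 5.5 * (η * z) ^ 2 := by
        have C0 : 0 < η * z := by positivity
        generalize η * z = C at C0
        rcases le_total 0 (1 - z) with q | q
        · have : 0 ≤ C * (4 * y * (1 - z)) := by positivity
          nlinarith [sq_nonneg (4 * y * (1 - z)), sq_nonneg (1 - z - 1.35 * C),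
            mul_le_mul_of_nonneg_right h1 (mul_nonneg C0.le q)]
        · have : (8 + 2 * η) * (C * (1 - z)) ≤ 0 :=
            mul_nonpos_of_nonneg_of_nonpos (by positivity) (mul_nonpos_of_nonneg_of_nonpos C0.le q)
          nlinarith [sq_nonneg (4 * y * (1 - z) + 2 * C), sq_nonneg (1 - z), sq_nonneg C]
      have c4 : (6 + η) * (y * (1 - z) ^ 2) ≤
          6.05 * ((η / 2) ^ 2 * (1 + y / 40) * (y - 1) ^ 2) := by gcongr; linarith
      have c5 := mul_le_mul_of_nonneg_left c2 (sq_nonneg η)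
      have : -(1 * (1 * (1 * (1 + 2) - 4 * (2 * 1 + 4 + η) * y + 16 * y ^ 2)) +
          -2 * (z * ((1 + η) * (1 + η + 2) - 4 * (2 * (1 + η) + 4 + η) * y + 16 * y ^ 2)) +
          1 * (z ^ 2 * ((1 + 2 * η) * (1 + 2 * η + 2) - 4 * (2 * (1 + 2 * η) + 4 + η) * y +
            16 * y ^ 2))) ≤
          η ^ 2 * (6.05 * ((1 + y / 40) * (y - 1) ^ 2) + 3.5 * (1 + y / 20)) := by nlinarith
      nlinarith [mul_le_mul_of_nonneg_left this k0.le]) s
  rw [e]
  refine this.trans ?_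
  rw [m2]
  have := m0_pos h0
  have : 6.05 + 3.5 + (6.05 * (-79 / 40) + 3.5 / 20) / 4 + 6.05 * (19 / 20) * (3 + η) / 16 +
      6.05 / 40 * ((3 + η) * (5 + 2 * η)) / 64 ≤ 7.75 := by nlinarith
  nlinarith [mul_le_mul_of_nonneg_left this (by positivity : 0 ≤ η ^ 2 * m0 η)]

theorem S2_le (h0 : 0 < η) (h1 : η ≤ 1 / 20) (s : ℝ) :
    |s * Sr η (1 + 2 * η) s| ≤ 1.624 * m0 η := by
  have i1 := int_Wr h0 (r := 2 * η) (by linarith)
  have i2 := int_Wr h0 (r := 2 * η + (2 + η)) (by linarith)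
  have e : ∀ s, s * Sr η (1 + 2 * η) s =
      cosT (fun x => (1 + 2 * η) * Wr η (2 * η) x + (-4) * Wr η (2 * η + (2 + η)) x) s := fun s => by
    rw [cosT_lin i1 i2, P2 h0 (r := 1 + 2 * η) (by linarith) (a := 2 * η) (b := 2 * η + (2 + η))
      (by ring) (by ring), Cr, Cr]
    ring
  obtain ⟨m1, m2⟩ := mom3 h0 0 0 4 (1 / 5)
  have := abs_cosT_le_two ((i1.const_mul _).add (i2.const_mul _)) m1 ((e 0).symm.trans (zero_mul _))
    (fun x hx => by
      have := kr_pos η x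
      have := Real.rpow_pos_of_pos hx (2 + η)
      positivity) (fun x hx => by
      obtain ⟨θ, y, z, -, ey, ez, t0, t1, y0, z0, -, -, -, b3, -, -⟩ := yz h0 h1 hx
      have k0 := kr_pos η x
      rw [Pi.add_apply, Wr_add _ _ hx, Wr, rpow_two_mul _ hx, ← ey, ← ez]
      have c2 : z ^ 2 ≤ 1 + y / 20 := by nlinarith
      have c3 : z ^ 2 * (4 * y - 1 - 2 * η) ≤ z ^ 2 * (4 * y ^ 2) := by
        gcongr; nlinarith [sq_nonneg (2 * y - 1)]
      have c4 := mul_le_mul_of_nonneg_right c2 (sq_nonneg (2 * y))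
      nlinarith [mul_le_mul_of_nonneg_left c3 k0.le, mul_le_mul_of_nonneg_left c4 k0.le]) s
  rw [e]
  refine this.trans ?_
  rw [m2]
  have := m0_pos h0
  have : 4 * (3 + η) / 16 + 1 / 5 * ((3 + η) * (5 + 2 * η)) / 64 ≤ 0.812 := by nlinarith
  nlinarith

end Pool.Agent.MP_39fec4_gt.Small

end

section

set_option autoImplicit false

namespace Pool.Agent.MP_39fec4_gt.Small

open MeasureTheory Set Filter Topology Real

variable {η r x s τ : ℝ}

theorem parts_one_sub {k k' g : ℝ → ℝ} (hk : IntegrableOn k (Ioi 0))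
    (hd : ∀ x, 0 < x → HasDerivAt k (k' x) x) (hm : ContinuousOn k' (Ioi 0))
    (hg : IntegrableOn g (Ioi 0)) (hb : ∀ x, 0 < x → x ^ 2 * |k' x| ≤ g x)
    (h0 : Tendsto (fun x => x ^ 2 * |k x|) (𝓝[>] 0) (𝓝 0)) (s : ℝ) :
    IntegrableOn (fun x => -k' x * (1 - Real.cos (s * x))) (Ioi 0) ∧
    s * sinT k s = ∫ x in Ioi (0 : ℝ), -k' x * (1 - Real.cos (s * x)) := by
  have b : ∀ (c x : ℝ), ‖c * (1 - Real.cos (s * x))‖ ≤ s ^ 2 / 2 * (x ^ 2 * |c|) := fun c x => by
    rw [Real.norm_eq_abs, abs_mul, abs_sub_comm]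
    calc _ ≤ |c| * ((s * x) ^ 2 / 2) := by gcongr; exact abs_one_sub_cos_le _
      _ = _ := by ring
  have i2 : IntegrableOn (fun x => k' x * (1 - Real.cos (s * x))) (Ioi 0) :=
    (hg.const_mul (s ^ 2 / 2)).mono' ((hm.mul (by fun_prop)).aestronglyMeasurable measurableSet_Ioi)
      ((ae_restrict_iff' measurableSet_Ioi).2 (Eventually.of_forall fun x hx =>
        (b _ x).trans (mul_le_mul_of_nonneg_left (hb x hx) (by positivity))))
  have i4 := (int_sin hk s).const_mul s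
  have i5 : IntegrableOn (fun x => k x * (1 - Real.cos (s * x))) (Ioi 0) := by
    simp only [mul_sub, mul_one]; exact hk.sub (int_cos hk s)
  have d : ∀ x ∈ Ioi (0 : ℝ), HasDerivAt (fun x => k x * (1 - Real.cos (s * x)))
      (k' x * (1 - Real.cos (s * x)) + s * (k x * Real.sin (s * x))) x := fun x hx => by
    refine ((hd x hx).mul (((hasDerivAt_id x).const_mul s).cos.const_sub 1)).congr_deriv ?_
    simp; ring
  have key := integral_Ioi_of_hasDerivAt_of_tendsto (continuousWithinAt_Ioi_iff_Ici.1 (by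
    rw [ContinuousWithinAt, mul_zero, Real.cos_zero, sub_self, mul_zero]
    exact squeeze_zero_norm (fun x => b _ x) (by simpa using h0.const_mul (s ^ 2 / 2)))) d
    (i2.add i4) (tendsto_zero_of_hasDerivAt_of_integrableOn_Ioi d (i2.add i4) i5)
  rw [integral_add i2 i4, integral_const_mul, ← sinT] at key
  simp only [neg_mul, integral_neg]
  refine ⟨i2.neg, ?_⟩
  simp only [mul_zero, Real.cos_zero, sub_self] at key
  linarith

theorem sS_lower (h0 : 0 < η) (h1 : η ≤ 1 / 20) (hs : 6.32 ≤ s) :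
    6.4 ≤ (1 + η) * (s * Sr η (η - 1) s) := by
  have s0 : 0 < s := by linarith
  have cW : ∀ r, ContinuousOn (Wr η r) (Ioi 0) := fun r =>
    (continuousOn_id.rpow_const fun x hx => Or.inl (ne_of_gt hx)).mul (cont_kr h0).continuousOn
  have sq : ∀ r x, 0 < x → x ^ 2 * Wr η r x = Wr η (r + 2) x := fun r x hx => by
    rw [Wr_add _ _ hx, Real.rpow_two]
  obtain ⟨i, e⟩ := parts_one_sub (k := Wr η (η - 1)) (int_Wr h0 (by linarith))
    (fun x hx => hasDerivAt_Wr h0 (a := η - 2) (b := η - 2 + (2 + η)) (by ring) (by ring) hx)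
    (((cW _).const_smul (η - 1)).add ((cW _).const_smul (-4 : ℝ)))
    (g := fun x => 1 * Wr η (η - 2 + 2) x + 4 * Wr η (η - 2 + (2 + η) + 2) x)
    (((int_Wr h0 (by linarith)).const_mul _).add ((int_Wr h0 (by linarith)).const_mul _))
    (fun x hx => by
      have a := Wr_pos η (η - 2) hx
      have b := Wr_pos η (η - 2 + (2 + η)) hx
      rw [← sq _ x hx, ← sq _ x hx, abs_of_nonpos (by nlinarith)]
      nlinarith [mul_pos (mul_pos h0 a) (pow_pos hx 2)])
    ((tendsto_Wr h0 (r := η - 1 + 2) (by linarith)).congr' (by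
      filter_upwards [self_mem_nhdsWithin] with x hx
      rw [← sq _ x hx, abs_of_pos (Wr_pos _ _ hx)])) s
  set a := 3.16 / s with ha
  have a0 : 0 < a := by positivity
  have a1 : a ≤ 1 / 2 := by rw [ha, div_le_iff₀ s0]; linarith
  have j1 := intervalIntegral.intervalIntegrable_rpow' (a := 0) (b := a) (r := η) (by linarith)
  have j2 := intervalIntegral.intervalIntegrable_rpow' (a := 0) (b := a) (r := η + 2) (by linarith)
  have e1 : ∫ x in Ioc (0 : ℝ) a, (1 - η) * (s ^ 2 / 2 * x ^ η - s ^ 4 / 24 * x ^ (η + 2)) ≤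
      s * Sr η (η - 1) s := by
    rw [Sr, e]
    refine le_trans (setIntegral_mono_on (((j1.const_mul _).sub (j2.const_mul _)).const_mul _).1
      (i.mono_set Ioc_subset_Ioi_self) measurableSet_Ioc fun x hx => ?_)
      (setIntegral_mono_set i ((ae_restrict_iff' measurableSet_Ioi).2 (Eventually.of_forall
        fun x hx => mul_nonneg ?_ (by linarith [Real.cos_le_one (s * x)])))
        Ioc_subset_Ioi_self.eventuallyLE)
    · have x0 : 0 < x := hx.1
      have w0 := Real.rpow_pos_of_pos x0 (η - 2)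
      have y0 := Real.rpow_pos_of_pos x0 (2 + η)
      have y1 : x ^ (2 + η) ≤ 1 / 4 := by
        have := Real.rpow_le_rpow_of_exponent_ge x0 (by linarith [hx.2]) (by linarith : 2 ≤ 2 + η)
        rw [Real.rpow_two] at this
        nlinarith [hx.2]
      have k1 : 1 - 2 * x ^ (2 + η) ≤ kr η x := by
        have : 4 / (2 + η) ≤ 2 := by rw [div_le_iff₀ (by positivity)]; linarith
        have := mul_le_mul_of_nonneg_right this y0.le
        linarith [Real.add_one_le_exp (-(4 / (2 + η)) * x ^ (2 + η)), kr.eq_1 η x]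
      have c := Ball.cos_le_quartic (s * x)
      have c0 := Real.cos_le_one (s * x)
      rw [show x ^ η = x ^ (η - 2) * x ^ 2 by rw [← Real.rpow_two, ← Real.rpow_add x0]; ring_nf,
        show x ^ (η + 2) = x ^ (η - 2) * x ^ 4 by
          rw [← Real.rpow_natCast, ← Real.rpow_add x0]; congr 1; push_cast; ring,
        Wr_add _ _ x0, Wr]
      generalize x ^ (2 + η) = y at *
      have f : 1 - η ≤ (1 - η + 4 * y) * kr η x := by
        nlinarith [mul_le_mul_of_nonneg_left k1 (by linarith : 0 ≤ 1 - η + 4 * y)]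
      calc _ = x ^ (η - 2) * ((1 - η) * ((s * x) ^ 2 / 2 - (s * x) ^ 4 / 24)) := by ring
        _ ≤ x ^ (η - 2) * ((1 - η) * (1 - Real.cos (s * x))) := by
          gcongr _ * (_ * ?_) <;> linarith
        _ ≤ x ^ (η - 2) * ((1 - η + 4 * y) * kr η x * (1 - Real.cos (s * x))) := by gcongr
        _ = _ := by ring
    · nlinarith [Wr_pos η (η - 2) hx, Wr_pos η (η - 2 + (2 + η)) hx]
  rw [← intervalIntegral.integral_of_le a0.le, intervalIntegral.integral_const_mul,
    intervalIntegral.integral_sub (j1.const_mul _) (j2.const_mul _),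
    intervalIntegral.integral_const_mul, intervalIntegral.integral_const_mul,
    integral_rpow (Or.inl (by linarith)), integral_rpow (Or.inl (by linarith)),
    Real.zero_rpow (by linarith), Real.zero_rpow (by linarith), Real.rpow_add_one a0.ne',
    Real.rpow_add_one a0.ne', Real.rpow_add a0, Real.rpow_two] at e1
  have sa : s * a = 3.16 := by rw [ha]; field_simp
  have w : 1.93 * a ≤ a ^ η := by
    have b1 := Real.rpow_le_rpow_of_nonpos a0 a1 (by linarith : η - 1 ≤ 0)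
    have b2 : 1.93 ≤ (1 / 2 : ℝ) ^ (η - 1) := by
      rw [Real.rpow_sub_one (by norm_num), Real.rpow_def_of_pos (by norm_num), one_div,
        Real.log_inv, le_div_iff₀ (by norm_num)]
      nlinarith [Real.add_one_le_exp (-Real.log 2 * η), Real.log_two_lt_d9]
    rw [Real.rpow_sub_one a0.ne'] at b1
    exact (le_div_iff₀ a0).1 (b2.trans b1)
  have w2 : 1.93 * 3.16 ≤ s * a ^ η := by rw [← sa]; nlinarith
  have e2 : (1 + η) * ((1 - η) * (s ^ 2 / 2 * ((a ^ η * a - 0) / (η + 1)) -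
      s ^ 4 / 24 * ((a ^ η * a ^ 2 * a - 0) / (η + 2 + 1)))) =
      (1 - η) * (s * a ^ η) * (s * a / 2 - (1 + η) / (η + 3) * (s * a) ^ 3 / 24) := by
    field_simp; ring
  have q : (1 + η) / (η + 3) ≤ 0.35 := by rw [div_le_iff₀ (by positivity)]; linarith
  refine le_trans ?_ (mul_le_mul_of_nonneg_left e1 (by linarith))
  rw [e2, sa]
  calc (6.4 : ℝ) ≤ 0.95 * (1.93 * 3.16) * (3.16 / 2 - 0.35 * 3.16 ^ 3 / 24) := by norm_num
    _ ≤ _ := by
      have : 0 ≤ 1 - η := by linarith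
      gcongr; linarith

theorem U_big (h0 : 0 < η) (h1 : η ≤ 1 / 20) (hs : 6.32 ≤ s) : 0 ≤ Uf η s := by
  have a := sS_lower h0 h1 hs
  have b := le_of_abs_le (S2_le h0 h1 s)
  have c := le_of_abs_le (Psi_big h0 h1 s)
  have d := P1 h0 h0 (a := η - 1) (b := 1 + 2 * η) (by ring) (by ring) s
  have m := m0_le h0 h1
  have m' := m0_pos h0
  have e : s * Uf η s = η / 4 * ((1 + η) * (s * Sr η (η - 1) s)) - η * (s * Sr η (1 + 2 * η) s) -
      s * Psi η s := by rw [U_eq h0, Phi, d]; ring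
  refine le_of_mul_le_mul_left ?_ (by linarith : 0 < s)
  rw [e]
  have : 15.5 * η ^ 2 * m0 η ≤ η * (15.5 * (1 / 20) * 0.66) := by
    rw [show 15.5 * η ^ 2 * m0 η = η * (15.5 * η * m0 η) by ring]; gcongr
  nlinarith [mul_le_mul_of_nonneg_left a h0.le, mul_le_mul_of_nonneg_left b h0.le,
    mul_le_mul_of_nonneg_left m h0.le]

/-- The sine transform divided by the frequency. -/
noncomputable def Sn (η s : ℝ) : ℝ := ∫ x in Ioi (0 : ℝ), Wr η 2 x * Real.sinc (s * x)

theorem Sn_eq (η : ℝ) (hs : s ≠ 0) : Sn η s = Sr η 1 s / s := by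
  rw [Sn, Sr, sinT, ← integral_div]
  refine setIntegral_congr_fun measurableSet_Ioi fun x hx => ?_
  have hx : 0 < x := hx
  simp only [W_one, W_two, Real.sinc_of_ne_zero (mul_ne_zero hs hx.ne')]
  field_simp

theorem cont_Sn (h0 : 0 < η) : Continuous (Sn η) := by
  have i := int_Wr h0 (r := 2) (by norm_num)
  exact continuous_of_dominated (bound := fun x => |Wr η 2 x|)
    (fun s => (int_mul_bdd i (by fun_prop) fun _ => Real.abs_sinc_le_one _).aestronglyMeasurable)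
    (fun s => Eventually.of_forall fun x => by
      rw [Real.norm_eq_abs, abs_mul]
      exact mul_le_of_le_one_right (abs_nonneg _) (Real.abs_sinc_le_one _)) i.abs
    (Eventually.of_forall fun x => by fun_prop)

theorem Sn_zero (h0 : 0 < η) (h1 : η ≤ 1 / 20) :
    m0 η ≤ 4 * Sn η 0 ∧ 4 * Sn η 0 ≤ (1 + 0.72 * η) * m0 η := by
  have i := int_Wr h0 (r := 2) (by norm_num)
  have m := m0_pos h0
  have e : Sn η 0 = ∫ x in Ioi (0 : ℝ), Wr η 2 x := by simp [Sn]
  have t0 : 0 < η / (2 + η) := by positivity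
  obtain ⟨a1, a2⟩ := mom3 h0 0 (1 + η / (2 + η)) (-(η / (2 + η))) 0
  obtain ⟨b1, b2⟩ := mom3 h0 ((1 + 0.72 * η) * (η / (2 + η) / 4))
    ((1 + 0.72 * η) * (1 - η / (2 + η))) 0 0
  have a := setIntegral_mono_on a1 i measurableSet_Ioi fun x hx => by
    obtain ⟨θ, y, z, et, ey, -, t0, -, y0, -, e, -, b2, -, -, -⟩ := yz h0 h1 hx
    rw [W_two, ← ey, ← et, mul_comm]
    refine mul_le_mul_of_nonneg_right ?_ (kr_pos η x).le
    nlinarith [mul_nonneg (sq_nonneg x) (sq_nonneg (1 - z)), mul_le_mul_of_nonneg_left b2 y0.le]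
  have b := setIntegral_mono_on i b1 measurableSet_Ioi fun x hx => by
    obtain ⟨θ, y, z, et, ey, -, -, -, -, -, -, -, -, -, -, b5⟩ := yz h0 h1 hx
    rw [W_two, ← ey, ← et, mul_comm]
    exact mul_le_mul_of_nonneg_left (by linarith) (kr_pos η x).le
  rw [a2, ← e] at a
  rw [b2, ← e] at b
  constructor
  · nlinarith [mul_nonneg (mul_pos m t0).le (by linarith : 0 ≤ 1 - η)]
  · linarith

/-- The function that is concave. -/
noncomputable def EE (η τ : ℝ) : ℝ := Real.exp τ * Cr η 0 √(8 * τ) / m0 η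

/-- Minus its derivative. -/
noncomputable def DD (η τ : ℝ) : ℝ := Real.exp τ * (4 * Sn η √(8 * τ) - Cr η 0 √(8 * τ)) / m0 η

/-- Minus its second derivative. -/
noncomputable def QQ (η τ : ℝ) : ℝ := Real.exp τ * (16 * Uf η √(8 * τ) / (m0 η * √(8 * τ) ^ 3))

theorem pre (h0 : 0 < η) (h1 : η ≤ 1 / 20) : Pre (EE η) (DD η) (QQ η) η := by
  have m := m0_pos h0
  have d0 := dC h0 (r := 0) (by norm_num) (a := 1) (by ring)
  have d1 := dS h0 (r := 1) (by norm_num) (a := 2) (by ring)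
  have cC : Continuous (Cr η 0) := continuous_iff_continuousAt.2 fun s => (d0 s).continuousAt
  have cS := cont_Sn h0
  have ds : ∀ τ : ℝ, 0 < τ → HasDerivAt (fun τ => √(8 * τ)) (4 / √(8 * τ)) τ := fun τ hτ =>
    (((hasDerivAt_id τ).const_mul 8).sqrt (by simp only [id]; positivity)).congr_deriv
      (by simp only [id]; ring)
  obtain ⟨z1, z2⟩ := Sn_zero h0 h1
  refine ⟨h0, h1, by unfold EE; fun_prop, by unfold DD; fun_prop, fun τ hτ => ?_, fun τ hτ => ?_,
    by simp [EE, C00, m.ne'], ?_, ?_⟩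
  · have s0 : 0 < √(8 * τ) := by positivity
    refine (((Real.hasDerivAt_exp τ).mul ((d0 _).comp τ (ds τ hτ))).div_const _).congr_deriv ?_
    simp only [Function.comp, DD, Sn_eq η s0.ne']
    ring
  · have s0 : 0 < √(8 * τ) := by positivity
    have := ((Real.hasDerivAt_exp τ).mul ((((((d1 _).comp τ (ds τ hτ)).div (ds τ hτ)
      s0.ne').const_mul 4).sub ((d0 _).comp τ (ds τ hτ))))).div_const (m0 η)
    refine (this.congr_of_eventuallyEq ?_).congr_deriv ?_
    · filter_upwards [lt_mem_nhds hτ] with y hy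
      rw [DD, Sn_eq η (by positivity : √(8 * y) ≠ 0)]
      rfl
    · simp only [Function.comp, QQ, Uf, Pi.sub_apply, Pi.div_apply]
      field_simp
      ring
  · simp only [DD, mul_zero, Real.sqrt_zero, Real.exp_zero, one_mul, C00]
    exact div_nonneg (by linarith) m.le
  · simp only [DD, mul_zero, Real.sqrt_zero, Real.exp_zero, one_mul, C00]
    rw [div_le_iff₀ m]; linarith

theorem C0_eq (h0 : 0 < η) (hs : 0 ≤ s) :
    Cr η 0 s = m0 η * (Real.exp (-(s ^ 2 / 8)) * EE η (s ^ 2 / 8)) := by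
  have m := m0_pos h0
  rw [EE, show 8 * (s ^ 2 / 8) = s ^ 2 by ring, Real.sqrt_sq hs, Real.exp_neg]
  field_simp

theorem Phi_cmp (h0 : 0 < η) {e : ℝ} {f f' : ℝ → ℝ} (hf : ∀ s, HasDerivAt f (f' s) s)
    (f0 : f 0 = 0) (h : ∀ s, 0 < s → e * (s ^ 2 * Cr η 0 s) ≤ m0 η * f' s) (hs : 0 ≤ s) :
    e * (4 * Phi η s) ≤ m0 η * f s := by
  have := nonneg_of_deriv (f := fun s => m0 η * f s - e * (4 * Phi η s))
    (f' := fun s => m0 η * f' s - e * (s ^ 2 * Cr η 0 s))
    (fun s => (((hf s).const_mul _).sub (((dPhi h0 s).const_mul 4).const_mul e)).congr_deriv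
      (by ring)) (by simp [f0, Phi_zero]) (fun s hs => sub_nonneg.2 (h s hs)) hs
  linarith

theorem U_near (h0 : 0 < η) (h1 : η ≤ 1 / 20) (hs : 0 < s) :
    |16 * Uf η s / (m0 η * s ^ 3) - η * (4 * Phi η s / (m0 η * s ^ 3))| ≤ η * (0.026 / 3) := by
  have m := m0_pos h0
  have := Psi_small h0 h1 hs.le
  rw [U_eq h0, show 16 * (η / 4 * Phi η s - Psi η s) / (m0 η * s ^ 3) -
    η * (4 * Phi η s / (m0 η * s ^ 3)) = -(16 * Psi η s / (m0 η * s ^ 3)) by ring, abs_neg, abs_div,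
    abs_mul, abs_of_pos (by positivity : 0 < m0 η * s ^ 3), abs_of_pos (by norm_num : (0 : ℝ) < 16),
    div_le_iff₀ (by positivity)]
  nlinarith [mul_le_mul_of_nonneg_left h1 (by positivity : 0 ≤ η * (m0 η * s ^ 3))]

theorem dgauss (c s : ℝ) : HasDerivAt (fun s : ℝ => Real.exp (-(c * s ^ 2)))
    (-(2 * c * s) * Real.exp (-(c * s ^ 2))) s :=
  ((hasDerivAt_pow 2 s).const_mul c).neg.exp.congr_deriv (by simp; ring)

theorem Q_lower (h0 : 0 < η) (h1 : η ≤ 1 / 20) (hτ : 0 < τ) :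
    Real.exp τ * (η / 3 * (Real.exp (-(3 / 5 * τ)) - 0.047)) ≤ QQ η τ := by
  have m := m0_pos h0
  have crude : ∀ τ, 0 < τ → QQ η τ ≤ 0.342 * η * Real.exp τ := fun τ hτ => by
    have s0 : 0 < √(8 * τ) := by positivity
    have a := Phi_cmp h0 (e := 1) (f := fun s => s ^ 3 / 3) (f' := fun s => s ^ 2)
      (fun s => ((hasDerivAt_pow 3 s).div_const 3).congr_deriv (by simp)) (by simp)
      (fun s _ => by nlinarith [le_of_abs_le (abs_C0_le h0 s), sq_nonneg s]) s0.le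
    have b := le_of_abs_le (U_near h0 h1 s0)
    have c : 4 * Phi η √(8 * τ) / (m0 η * √(8 * τ) ^ 3) ≤ 1 / 3 := by
      rw [div_le_iff₀ (by positivity)]; linarith
    rw [QQ, mul_comm]
    gcongr
    nlinarith
  have s0 : 0 < √(8 * τ) := by positivity
  have a := Phi_cmp h0 (e := -1)
    (f := fun s => s ^ 3 / 3 * (0.42 * η - Real.exp (-(3 / 40 * s ^ 2))))
    (f' := fun s => s ^ 2 * (0.42 * η - Real.exp (-(3 / 40 * s ^ 2)) * (1 - s ^ 2 / 20)))
    (fun s => (((hasDerivAt_pow 3 s).div_const 3).mul ((dgauss (3 / 40) s).const_sub _)).congr_deriv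
      (by simp; ring)) (by simp) (fun s hs => by
      have e1 := mul_le_mul_of_nonneg_left ((pre h0 h1).E_crude crude
        (τ := s ^ 2 / 8) (by positivity)) (Real.exp_pos (-(s ^ 2 / 8))).le
      have e2 : Real.exp (-(s ^ 2 / 8)) * Real.exp (s ^ 2 / 8) = 1 := by
        rw [← Real.exp_add]; simp
      have e3 : Real.exp (-(3 / 40 * s ^ 2)) * (1 - s ^ 2 / 20) ≤ Real.exp (-(s ^ 2 / 8)) := by
        rw [show -(s ^ 2 / 8) = -(3 / 40 * s ^ 2) + -(s ^ 2 / 20) by ring, Real.exp_add]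
        gcongr; linarith [Real.add_one_le_exp (-(s ^ 2 / 20))]
      have e4 : Real.exp (-(3 / 40 * s ^ 2)) * (1 - s ^ 2 / 20) - 0.42 * η ≤
          Real.exp (-(s ^ 2 / 8)) * EE η (s ^ 2 / 8) := by nlinarith
      rw [C0_eq h0 hs.le]
      nlinarith [mul_le_mul_of_nonneg_left e4 (by positivity : 0 ≤ m0 η * s ^ 2)]) s0.le
  rw [Real.sq_sqrt (by positivity), show 3 / 40 * (8 * τ) = 3 / 5 * τ by ring] at a
  have b := neg_le_of_abs_le (U_near h0 h1 s0)
  have c : (Real.exp (-(3 / 5 * τ)) - 0.021) / 3 ≤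
      4 * Phi η √(8 * τ) / (m0 η * √(8 * τ) ^ 3) := by
    rw [le_div_iff₀ (by positivity)]
    nlinarith [mul_le_mul_of_nonneg_left h1 (by positivity : 0 ≤ m0 η * √(8 * τ) ^ 3)]
  rw [QQ]
  gcongr
  nlinarith

theorem pc (h0 : 0 < η) (h1 : η ≤ 1 / 20) : Pc (EE η) (DD η) (QQ η) η := by
  refine ⟨pre h0 h1, fun τ hτ => ?_⟩
  have m := m0_pos h0
  rcases le_total τ 5 with c | c
  · refine le_trans ?_ (Q_lower h0 h1 hτ)
    have a : Real.exp (-3) ≤ Real.exp (-(3 / 5 * τ)) := Real.exp_le_exp.2 (by linarith)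
    have b : 0.047 ≤ Real.exp (-3) := by
      rw [Real.exp_neg, le_inv_comm₀ (by norm_num) (Real.exp_pos _)]
      exact exp_three.2.trans (by norm_num)
    have : 0 ≤ Real.exp (-(3 / 5 * τ)) - 0.047 := by linarith
    positivity
  · have := U_big h0 h1 (s := √(8 * τ)) (Real.le_sqrt_of_sq_le (by linarith))
    unfold QQ; positivity

theorem pk (h0 : 0 < η) (h1 : η ≤ 1 / 20) : Pk (EE η) (DD η) (QQ η) η := by
  have m := m0_pos h0
  have G : ∀ s, 0 < s → 1 * (s ^ 2 * Cr η 0 s) ≤ m0 η * (s ^ 2 * Real.exp (-(1 / 8 * s ^ 2))) :=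
    fun s hs => by
      have := (pc h0 h1).E_le_one (τ := s ^ 2 / 8) (by positivity)
      rw [C0_eq h0 hs.le, show 1 / 8 * s ^ 2 = s ^ 2 / 8 by ring]
      nlinarith [mul_le_mul_of_nonneg_left this
        (by positivity : 0 ≤ m0 η * (s ^ 2 * Real.exp (-(s ^ 2 / 8))))]
  refine ⟨pc h0 h1, fun τ hτ h3 => le_trans ?_ (Q_lower h0 h1 hτ), fun τ hτ => ?_, fun τ h3 => ?_⟩
  · have a : Real.exp τ * Real.exp (-(3 / 5 * τ)) = Real.exp (2 / 5 * τ) := by
      rw [← Real.exp_add]; congr 1; ring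
    have b : 0.93 ≤ Real.exp τ * (Real.exp (-(3 / 5 * τ)) - 0.047) := by
      linarith [Real.add_one_le_exp (2 / 5 * τ), exp_chord hτ.le h3]
    nlinarith
  · have s0 : 0 < √(8 * τ) := by positivity
    have a := Phi_cmp h0 (e := 1)
      (f := fun s => s ^ 3 * (2 / 15 + Real.exp (-(1 / 8 * s ^ 2)) / 5))
      (f' := fun s => s ^ 2 * (2 / 5 + Real.exp (-(1 / 8 * s ^ 2)) * (3 / 5 - s ^ 2 / 20)))
      (fun s => ((hasDerivAt_pow 3 s).mul (((dgauss (1 / 8) s).div_const 5).const_add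
        _)).congr_deriv (by simp; ring)) (by simp) (fun s hs => (G s hs).trans (by
        have e1 := mul_le_mul_of_nonneg_left (Real.add_one_le_exp (1 / 8 * s ^ 2))
          (Real.exp_pos (-(1 / 8 * s ^ 2))).le
        rw [← Real.exp_add, neg_add_cancel, Real.exp_zero] at e1
        gcongr; linarith)) s0.le
    rw [Real.sq_sqrt (by positivity), show 1 / 8 * (8 * τ) = τ by ring] at a
    have b := le_of_abs_le (U_near h0 h1 s0)
    have c : 4 * Phi η √(8 * τ) / (m0 η * √(8 * τ) ^ 3) ≤ 2 / 15 + Real.exp (-τ) / 5 := by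
      rw [div_le_iff₀ (by positivity)]; linarith
    have e : Real.exp τ * Real.exp (-τ) = 1 := by rw [← Real.exp_add]; simp
    calc QQ η τ ≤ Real.exp τ * (η * (0.142 + Real.exp (-τ) / 5)) := by
          rw [QQ]; gcongr; nlinarith
      _ = _ := by linear_combination η / 5 * e
  · have t0 : 0 < τ := by linarith
    have s1 : 4.89 ≤ √(8 * τ) := Real.le_sqrt_of_sq_le (by linarith)
    have a := Phi_cmp h0 (e := 1)
      (f := fun s => 34 / 3 - (34 / 3 + 2 / 3 * s ^ 2) * Real.exp (-(1 / 8 * s ^ 2)))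
      (f' := fun s => (3 / 2 * s + s ^ 3 / 6) * Real.exp (-(1 / 8 * s ^ 2)))
      (fun s => (((((hasDerivAt_pow 2 s).const_mul (2 / 3)).const_add (34 / 3)).mul
        (dgauss (1 / 8) s)).const_sub _).congr_deriv (by simp; ring)) (by simp)
      (fun s hs => (G s hs).trans (by
        gcongr; nlinarith [mul_nonneg hs.le (sq_nonneg (s - 3))])) (s := √(8 * τ)) (by positivity)
    have a2 : 4 * Phi η √(8 * τ) ≤ m0 η * (34 / 3) := by
      have : 0 ≤ m0 η * ((34 / 3 + 2 / 3 * √(8 * τ) ^ 2) * Real.exp (-(1 / 8 * √(8 * τ) ^ 2))) := by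
        positivity
      linarith
    have b := neg_le_of_abs_le (Psi_big h0 h1 √(8 * τ))
    have b2 : -Psi η √(8 * τ) ≤ 0.1585 * η * m0 η := by
      refine le_of_mul_le_mul_left ?_ (by positivity : 0 < √(8 * τ))
      nlinarith [mul_le_mul_of_nonneg_left h1 (by positivity : 0 ≤ η * m0 η),
        mul_le_mul_of_nonneg_left s1 (by positivity : 0 ≤ η * m0 η)]
    have c : 16 * Uf η √(8 * τ) ≤ 13.87 * η * m0 η := by
      rw [U_eq h0]; nlinarith [mul_le_mul_of_nonneg_left a2 h0.le, mul_pos h0 m]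
    have d : 22.6 * (τ * √τ) ≤ √(8 * τ) ^ 3 := by
      have : 2.828 ≤ √(8 : ℝ) := Real.le_sqrt_of_sq_le (by norm_num)
      rw [pow_succ, Real.sq_sqrt (by positivity), Real.sqrt_mul (by norm_num)]
      nlinarith [mul_le_mul_of_nonneg_left this (by positivity : 0 ≤ τ * √τ),
        (by positivity : 0 ≤ τ * √τ)]
    calc QQ η τ ≤ Real.exp τ * (13.87 * η * m0 η / (m0 η * (22.6 * (τ * √τ)))) := by
          rw [QQ]; gcongr
      _ = 13.87 / 22.6 * η * env τ := by rw [env]; field_simp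
      _ ≤ _ := by have := env_pos t0; gcongr; norm_num

end Pool.Agent.MP_39fec4_gt.Small

end

section

set_option autoImplicit false

namespace Pool.Agent.MP_39fec4_gt.Small

open MeasureTheory Set Filter Topology Real Ball

variable {η p : ℝ}

theorem ff_eq (h0 : 0 < η) : ∃ l : ℝ, 0 < l ∧ ∀ w s : ℝ, 0 ≤ w → 0 ≤ s →
    ff (2 + η) (√w * s) = GG (EE η) (w * (l * s) ^ 2) := by
  have hp : 2 < 2 + η := by linarith
  have b := bp_pos hp
  have m := m0_pos h0
  set ρ := (bp (2 + η) * (2 + η) / 4) ^ (2 + η)⁻¹ with hρ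
  have ρ0 : 0 < ρ := by positivity
  have ρp : ρ ^ (2 + η) = bp (2 + η) * (2 + η) / 4 :=
    Real.rpow_inv_rpow (by positivity) (by positivity)
  have e : ∀ s, ff (2 + η) s = Cr η 0 (s / ρ) / ρ := fun s => by
    rw [Cr, Wr_zero, cosT, ← integral_scale _ ρ0, ff, cosT]
    refine setIntegral_congr_fun measurableSet_Ioi fun y hy => ?_
    have hy : 0 < y := hy
    simp only [K, kr]
    rw [Real.mul_rpow ρ0.le hy.le, ρp]
    congr 2 <;> field_simp
  have e0 := e 0
  rw [ff_zero hp, zero_div, C00, eq_div_iff ρ0.ne', one_mul] at e0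
  refine ⟨1 / (√8 * ρ), by positivity, fun w s hw hs => ?_⟩
  have : (√w * s / ρ) ^ 2 / 8 = w * (1 / (√8 * ρ) * s) ^ 2 := by
    simp only [div_pow, mul_pow, Real.sq_sqrt hw, Real.sq_sqrt (by norm_num : (0 : ℝ) ≤ 8)]
    field_simp
  rw [e, C0_eq h0 (by positivity), this, e0, GG]
  field_simp

theorem two_lt (hp : 2 < p) {α β : ℝ} (hβ : 0 ≤ β) (hab : β < α) (hs : α + β = 1) :
    ∫ s in Ioi (0 : ℝ), ff p (√α * s) * ff p (√β * s) <
      ∫ s in Ioi (0 : ℝ), ff p (√(1 / 2) * s) * ff p (√(1 / 2) * s) := by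
  have hπ := Real.pi_pos
  have p0 : 0 < p := by linarith
  have α0 : 0 < α := by linarith
  have A0 := Real.sqrt_pos.2 α0
  have c0 : 0 < √(1 / 2 : ℝ) := by positivity
  have e1 := integral_scale (fun x => ff p x ^ 2) c0
  rw [integral_ff_sq hp] at e1
  simp only [sq] at e1
  have e2 : ∫ s in Ioi (0 : ℝ), ff p (√α * s) * ff p (√β * s) ≤
      π / (2 * √α) * (1 + (√β / √α) ^ p) ^ (-(1 / p)) := by
    rcases hβ.eq_or_lt with rfl | hβ
    · have := one_phys hp A0 0
      rw [cosT_zero] at this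
      simp [ff_zero hp, this, K_zero hp, Real.zero_rpow p0.ne']
    · have := two_phys hp A0 (Real.sqrt_pos.2 hβ) 0
      rwa [cosT_zero] at this
  have key : ∀ A w : ℝ, 0 < A → 0 < w → w ^ (-(1 / p)) / A = (A ^ p * w) ^ (-(1 / p)) :=
    fun A w hA hw => by
      rw [Real.mul_rpow (by positivity) hw.le, ← Real.rpow_mul hA.le,
        show p * -(1 / p) = -1 by field_simp, Real.rpow_neg_one]
      ring
  have sq : ∀ w : ℝ, 0 ≤ w → √w ^ p = w ^ (p / 2) := fun w hw => by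
    rw [Real.sqrt_eq_rpow, ← Real.rpow_mul hw]; congr 1; ring
  have cv := (strictConvexOn_rpow (p := p / 2) (by linarith)).2 (mem_Ici.2 α0.le) (mem_Ici.2 hβ)
    hab.ne' (show (0 : ℝ) < 1 / 2 by norm_num) (show (0 : ℝ) < 1 / 2 by norm_num) (by norm_num)
  simp only [smul_eq_mul] at cv
  rw [← mul_add, hs, mul_one] at cv
  have e3 : √(1 / 2) ^ p * 2 < √α ^ p * (1 + (√β / √α) ^ p) := by
    have := Real.rpow_pos_of_pos A0 p
    rw [Real.div_rpow (Real.sqrt_nonneg _) A0.le, mul_add, mul_div_cancel₀ _ this.ne', sq _ α0.le,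
      sq _ hβ, sq _ (by norm_num)]
    linarith
  have e4 := Real.rpow_lt_rpow_of_neg (by positivity) e3 (z := -(1 / p)) (by simpa using p0)
  rw [← key _ _ A0 (by positivity), ← key _ _ c0 (by norm_num)] at e4
  rw [e1]
  refine e2.trans_lt ?_
  calc _ = π / 2 * ((1 + (√β / √α) ^ p) ^ (-(1 / p)) / √α) := by ring
    _ < π / 2 * (2 ^ (-(1 / p)) / √(1 / 2)) := by gcongr
    _ = _ := by ring

theorem improve (hp : 2 < p) (hp' : p ≤ 2.05) {ι : Type*} (T : Finset ι) (x : ι → ℝ) {a b : ℝ}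
    (hb : 0 ≤ b) (hab : b < a) (hx : ∀ j ∈ T, b ≤ x j ∧ x j ≤ a) (hs : a + b + ∑ j ∈ T, x j = 1) :
    ∃ α β : ℝ, 0 ≤ α ∧ 0 ≤ β ∧ α + β = a + b ∧
      ∫ s in Ioi (0 : ℝ), ff p (√a * s) * ff p (√b * s) * ∏ j ∈ T, ff p (√(x j) * s) <
      ∫ s in Ioi (0 : ℝ), ff p (√α * s) * ff p (√β * s) * ∏ j ∈ T, ff p (√(x j) * s) := by
  have x0 : ∀ j ∈ T, 0 ≤ x j := fun j hj => hb.trans (hx j hj).1
  by_cases hz : ∀ j ∈ T, x j = 0
  · have e : ∀ s, ∏ j ∈ T, ff p (√(x j) * s) = 1 := fun s => Finset.prod_eq_one fun j hj => by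
      rw [hz j hj, Real.sqrt_zero, zero_mul, ff_zero hp]
    rw [Finset.sum_eq_zero hz, add_zero] at hs
    refine ⟨1 / 2, 1 / 2, by norm_num, by norm_num, by linarith, ?_⟩
    simpa only [e, mul_one] using two_lt hp hb hab hs
  push Not at hz
  obtain ⟨j, hj, hj0⟩ := hz
  obtain ⟨k, hk, hk2⟩ := Finset.exists_max_image T x ⟨j, hj⟩
  obtain ⟨η, rfl⟩ : ∃ η, p = 2 + η := ⟨p - 2, by ring⟩
  have h0 : 0 < η := by linarith
  obtain ⟨δ, δ0, δ1, h⟩ := (pk h0 (by linarith)).step (T := T) (x := x) (k := k) ⟨hb, hab, hk,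
    ((x0 j hj).lt_of_ne' hj0).trans_le (hk2 j hj), (hx k hk).1, (hx k hk).2, x0, hk2, hs⟩
  obtain ⟨l, l0, hl⟩ := ff_eq h0
  have e : ∀ α β : ℝ, 0 ≤ α → 0 ≤ β → ∫ s in Ioi (0 : ℝ), ff (2 + η) (√α * s) *
      ff (2 + η) (√β * s) * ∏ j ∈ T, ff (2 + η) (√(x j) * s) = (∫ s in Ioi (0 : ℝ),
      GG (EE η) (α * s ^ 2) * GG (EE η) (β * s ^ 2) * ∏ j ∈ T, GG (EE η) (x j * s ^ 2)) / l :=
    fun α β hα hβ => by
      rw [← integral_scale _ l0]
      refine setIntegral_congr_fun measurableSet_Ioi fun s hs => ?_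
      rw [hl _ _ hα (le_of_lt hs), hl _ _ hβ (le_of_lt hs),
        Finset.prod_congr rfl fun j hj => hl _ _ (x0 j hj) (le_of_lt hs)]
  refine ⟨a - δ, b + δ, by linarith, by linarith, by ring, ?_⟩
  rw [e _ _ (by linarith) hb, e _ _ (by linarith) (by linarith)]
  gcongr

theorem contOn_J (hp : 2 < p) (hp' : p ≤ 2.05) {n : ℕ} (hn : 2 ≤ n) :
    ContinuousOn (fun x : Fin n → ℝ => ∫ s in Ioi (0 : ℝ), ∏ j, ff p (√(x j) * s))
      (stdSimplex ℝ (Fin n)) := by
  have c := cont_ff hp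
  have n0 : (2 : ℝ) ≤ n := by exact_mod_cast hn
  obtain ⟨η, rfl⟩ : ∃ η, p = 2 + η := ⟨p - 2, by ring⟩
  have h0 : 0 < η := by linarith
  obtain ⟨l, l0, hl⟩ := ff_eq h0
  refine continuousOn_of_dominated (bound := fun s => 2 * n * (1 + (l * s) ^ 2)⁻¹)
    (fun x _ => Continuous.aestronglyMeasurable (by fun_prop))
    (fun x hx => (ae_restrict_iff' measurableSet_Ioi).2 (Eventually.of_forall fun s hs => ?_))
    ((integrable_inv_one_add_sq.comp_mul_left' l0.ne').const_mul _).integrableOn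
    (Eventually.of_forall fun s => Continuous.continuousOn (by fun_prop))
  have : Nonempty (Fin n) := ⟨⟨0, by omega⟩⟩
  obtain ⟨i, -, hi⟩ := Finset.exists_le_of_sum_le (s := Finset.univ) (f := fun _ => (1 : ℝ))
    (g := fun j => n * x j) Finset.univ_nonempty (by simp [← Finset.mul_sum, hx.2])
  have d := (pk h0 (by linarith)).G_decay (mul_nonneg (hx.1 i) (sq_nonneg (l * s)))
  rw [← hl _ _ (hx.1 i) (le_of_lt hs)] at d
  rw [Real.norm_eq_abs, ← Finset.mul_prod_erase _ _ (Finset.mem_univ i), abs_mul]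
  refine (mul_le_of_le_one_right (abs_nonneg _)
    (abs_prod_le_one _ fun j => abs_ff_le hp _)).trans ?_
  rw [← div_eq_mul_inv, le_div_iff₀ (by positivity)]
  have q := abs_nonneg (ff (2 + η) (√(x i) * s))
  nlinarith [mul_le_mul_of_nonneg_left d (by linarith : (0 : ℝ) ≤ n),
    mul_le_mul_of_nonneg_left hi (mul_nonneg q (sq_nonneg (l * s)))]

/-- For `2 < p ≤ 2.05` the main diagonal is the unique maximiser in every dimension. -/
theorem regimeS (hp : 2 < p) (hp' : p ≤ 2.05) {n : ℕ} (hn : 2 ≤ n) (x : Fin n → ℝ)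
    (hx : ∀ j, 0 ≤ x j) (hs : ∑ j, x j = 1) (hne : ∃ j, x j ≠ 1 / n) :
    ∫ s in Ioi (0 : ℝ), ∏ j, ff p (√(x j) * s) < ∫ s in Ioi (0 : ℝ), ff p (√(1 / n) * s) ^ n := by
  have n0 : (0 : ℝ) < n := by positivity
  set J := fun x : Fin n → ℝ => ∫ s in Ioi (0 : ℝ), ∏ j, ff p (√(x j) * s) with hJ
  have imp : ∀ z ∈ stdSimplex ℝ (Fin n), (∃ j, z j ≠ 1 / n) →
      ∃ y ∈ stdSimplex ℝ (Fin n), J z < J y := by
    rintro z hz ⟨j0, hj0⟩
    obtain ⟨i, -, hi⟩ := Finset.exists_max_image Finset.univ z ⟨j0, Finset.mem_univ _⟩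
    obtain ⟨j, -, hj⟩ := Finset.exists_min_image Finset.univ z ⟨j0, Finset.mem_univ _⟩
    have lt : z j < z i := by
      refine lt_of_not_ge fun h => hj0 ?_
      have e : ∀ l, z l = z j0 := fun l => le_antisymm
        ((hi l (Finset.mem_univ _)).trans (h.trans (hj j0 (Finset.mem_univ _))))
        ((hi j0 (Finset.mem_univ _)).trans (h.trans (hj l (Finset.mem_univ _))))
      have := hz.2
      rw [Finset.sum_congr rfl fun l _ => e l] at this
      simp only [Finset.sum_const, Finset.card_univ, Fintype.card_fin, nsmul_eq_mul] at this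
      rw [eq_div_iff n0.ne']; linarith
    have ne : j ≠ i := fun h => by rw [h] at lt; exact lt_irrefl _ lt
    have mj : j ∈ Finset.univ.erase i := Finset.mem_erase.2 ⟨ne, Finset.mem_univ j⟩
    have sm : ∀ y : Fin n → ℝ, ∑ l, y l = y i + y j + ∑ l ∈ (Finset.univ.erase i).erase j, y l :=
      fun y => by
        rw [← Finset.add_sum_erase _ _ (Finset.mem_univ i), ← Finset.add_sum_erase _ _ mj,
          add_assoc]
    have pr : ∀ y : Fin n → ℝ, J y = ∫ s in Ioi (0 : ℝ), ff p (√(y i) * s) * ff p (√(y j) * s) *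
        ∏ l ∈ (Finset.univ.erase i).erase j, ff p (√(y l) * s) := fun y => by
      simp only [hJ]
      congr 1; funext s
      rw [← Finset.mul_prod_erase _ _ (Finset.mem_univ i), ← Finset.mul_prod_erase _ _ mj,
        mul_assoc]
    obtain ⟨α, β, hα, hβ, e, h⟩ := improve hp hp' ((Finset.univ.erase i).erase j) z (hz.1 j) lt
      (fun l _ => ⟨hj l (Finset.mem_univ _), hi l (Finset.mem_univ _)⟩) (by rw [← sm, hz.2])
    set y : Fin n → ℝ := fun l => if l = i then α else if l = j then β else z l with hy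
    have yi : y i = α := by simp [hy]
    have yj : y j = β := by simp [hy, ne]
    have yl : ∀ l ∈ (Finset.univ.erase i).erase j, y l = z l := fun l hl => by
      simp only [Finset.mem_erase] at hl
      simp [hy, hl.1, hl.2.1]
    refine ⟨y, ⟨fun l => ?_, ?_⟩, ?_⟩
    · simp only [hy]
      split_ifs
      exacts [hα, hβ, hz.1 l]
    · rw [sm, yi, yj, Finset.sum_congr rfl yl, e, ← sm, hz.2]
    · rw [pr z, pr y, yi, yj]
      refine h.trans_eq ?_
      congr 1; funext s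
      congr 1
      exact Finset.prod_congr rfl fun l hl => by rw [yl l hl]
  obtain ⟨z, hz, hm⟩ := (isCompact_stdSimplex ℝ (Fin n)).exists_isMaxOn ⟨x, hx, hs⟩
    (contOn_J hp hp' hn)
  have ez : z = fun _ => 1 / (n : ℝ) := by
    by_contra h
    obtain ⟨y, hy, lt⟩ := imp z hz (Function.ne_iff.1 h)
    exact absurd (hm hy) (not_le.2 lt)
  obtain ⟨y, hy, lt⟩ := imp x ⟨hx, hs⟩ hne
  have := lt.trans_le (hm hy)
  simpa only [hJ, ez, Fin.prod_const] using this

end Pool.Agent.MP_39fec4_gt.Small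

end
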