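import Pool.Agent.Mg.F39fec4.Gef3640
import Pool.Agent.Mg.F39fec4.G61830f

section

set_option autoImplicit false

namespace Pool.Agent.MP_39fec4_gt.Full

open MeasureTheory Set Real Ball P4

variable {g g1 g2 : ℝ → ℝ} {lam z2 Zc Z2 : ℝ} {ι : Type} [DecidableEq ι]

theorem env_prod (T : Finset ι) (y : ι → ℝ) {b Y : ℝ} (hy : ∀ j ∈ T, 0 ≤ y j ∧ y j ≤ Y)
    (env : ∀ v, 0 ≤ v → v ≤ Y → |g v| ≤ Real.exp (-(b * v))) :
    |∏ j ∈ T, g (y j)| ≤ Real.exp (-(b * ∑ j ∈ T, y j)) := by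
  rw [Finset.abs_prod, Finset.mul_sum, ← Finset.sum_neg_distrib, Real.exp_sum]
  exact Finset.prod_le_prod (fun _ _ => abs_nonneg _) fun j hj => env _ (hy j hj).1 (hy j hj).2

namespace FCrudeX

omit [DecidableEq ι] in
lemma abs_pow (T : Finset ι) (f : ι → ℝ) {B : ℝ} (h : ∀ j ∈ T, |f j| ≤ B) :
    |∏ j ∈ T, f j| ≤ B ^ T.card := by
  rw [Finset.abs_prod, ← Finset.prod_const]
  exact Finset.prod_le_prod (fun _ _ => abs_nonneg _) h

omit [DecidableEq ι] in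
lemma exists_neg (T : Finset ι) (f : ι → ℝ) (h : ∏ j ∈ T, f j < 0) : ∃ j ∈ T, f j < 0 := by
  by_contra hc
  push Not at hc
  exact absurd (Finset.prod_nonneg hc) (not_le.2 h)

lemma two_neg (T : Finset ι) (f : ι → ℝ) (h : 0 < ∏ j ∈ T, f j) {j : ι} (hj : j ∈ T)
    (hf : ¬0 < f j) : f j < 0 ∧ ∃ k ∈ T.erase j, f k < 0 := by
  rw [← Finset.mul_prod_erase T f hj] at h
  rcases mul_pos_iff.1 h with h1 | h1
  · exact absurd h1.1 hf
  · exact ⟨h1.1, exists_neg _ _ h1.2⟩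

lemma one_out (T : Finset ι) (f : ι → ℝ) {j : ι} (hj : j ∈ T) {a e : ℝ} (ha : |f j| ≤ a)
    (he : |∏ i ∈ T.erase j, f i| ≤ e) : |∏ i ∈ T, f i| ≤ a * e := by
  rw [← Finset.mul_prod_erase T f hj, abs_mul]
  exact mul_le_mul ha he (abs_nonneg _) ((abs_nonneg _).trans ha)

end FCrudeX

open FCrudeX

/-- The data shared by the crude product bounds. -/
structure CB (g : ℝ → ℝ) {ι : Type} (T : Finset ι) (y : ι → ℝ)
    (z2 ym tl th b B ng e0 e1 e2 : ℝ) : Prop where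
  bd : ∀ v, 0 ≤ v → |g v| ≤ 1
  pos : ∀ v, 0 ≤ v → v ≤ z2 → 0 < g v
  hy : ∀ j ∈ T, 0 ≤ y j ∧ y j ≤ ym
  hs : tl ≤ ∑ j ∈ T, y j ∧ ∑ j ∈ T, y j ≤ th
  b0 : 0 ≤ b
  env : ∀ v, 0 ≤ v → v ≤ ym → |g v| ≤ Real.exp (-(b * v))
  hB : ∀ j ∈ T, |g (y j)| ≤ B
  hng : ∀ j ∈ T, -ng ≤ g (y j)
  ng0 : 0 ≤ ng
  he0 : 1 ≤ e0 ∨ Real.exp (-(b * tl)) ≤ e0
  he1 : 1 ≤ e1 ∨ Real.exp (-(b * (tl - ym))) ≤ e1
  he2 : 1 ≤ e2 ∨ Real.exp (-(b * (tl - 2 * ym))) ≤ e2

/-- The smallest and the largest coordinate are located more precisely. -/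
structure AB (g : ℝ → ℝ) {ι : Type} (T : Finset ι) (y : ι → ℝ) (i0 i1 : ι)
    (alo ahi blo bhi mlo mhi Aa Ab Am nn : ℝ) : Prop where
  m0 : i0 ∈ T
  m1 : i1 ∈ T
  ne : i0 ≠ i1
  ha : alo ≤ g (y i0) ∧ g (y i0) ≤ ahi
  hb : blo ≤ g (y i1) ∧ g (y i1) ≤ bhi
  hm : ∀ j ∈ T, j ≠ i0 → j ≠ i1 → mlo ≤ g (y j) ∧ g (y j) ≤ mhi
  aa : -Aa ≤ alo ∧ ahi ≤ Aa
  ab : -Ab ≤ blo ∧ bhi ≤ Ab
  am : -Am ≤ mlo ∧ mhi ≤ Am
  am0 : 0 ≤ Am
  n0 : 0 ≤ nn
  nb : -nn ≤ blo ∧ -nn ≤ mlo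

variable {T : Finset ι} {y : ι → ℝ} {ym tl th b B ng e0 e1 e2 : ℝ}

omit [DecidableEq ι] in
lemma CB.sub_le (h : CB g T y z2 ym tl th b B ng e0 e1 e2) (S : Finset ι) (hS : S ⊆ T) {c e : ℝ}
    (hc : c ≤ ∑ j ∈ S, y j) (he : 1 ≤ e ∨ Real.exp (-(b * c)) ≤ e) :
    |∏ j ∈ S, g (y j)| ≤ e := by
  classical
  rcases he with he | he
  · have := abs_pow S (fun j => g (y j)) (B := 1) fun j hj => h.bd _ (h.hy j (hS hj)).1
    rw [one_pow] at this
    exact this.trans he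
  · refine (env_prod S y (fun j hj => h.hy j (hS hj)) h.env).trans (le_trans ?_ he)
    exact Real.exp_le_exp.2 (neg_le_neg (mul_le_mul_of_nonneg_left hc h.b0))

omit [DecidableEq ι] in
lemma CB.le_e0 (h : CB g T y z2 ym tl th b B ng e0 e1 e2) : |∏ j ∈ T, g (y j)| ≤ e0 :=
  h.sub_le T subset_rfl h.hs.1 h.he0

lemma CB.le_e1 (h : CB g T y z2 ym tl th b B ng e0 e1 e2) {j : ι} (hj : j ∈ T) :
    |∏ i ∈ T.erase j, g (y i)| ≤ e1 := by
  refine h.sub_le _ (Finset.erase_subset _ _) ?_ h.he1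
  have := Finset.add_sum_erase T y hj
  linarith [h.hs.1, (h.hy j hj).2]

lemma CB.le_e2 (h : CB g T y z2 ym tl th b B ng e0 e1 e2) {j k : ι} (hj : j ∈ T)
    (hk : k ∈ T.erase j) : |∏ i ∈ (T.erase j).erase k, g (y i)| ≤ e2 := by
  refine h.sub_le _ ((Finset.erase_subset _ _).trans (Finset.erase_subset _ _)) ?_ h.he2
  have h1 := Finset.add_sum_erase T y hj
  have h2 := Finset.add_sum_erase (T.erase j) y hk
  linarith [h.hs.1, (h.hy j hj).2, (h.hy k (Finset.mem_of_mem_erase hk)).2]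

omit [DecidableEq ι] in
lemma CB.neg_facts (h : CB g T y z2 ym tl th b B ng e0 e1 e2) {j : ι} (hj : j ∈ T)
    (hn : g (y j) < 0) : z2 < y j ∧ |g (y j)| ≤ ng := by
  refine ⟨?_, ?_⟩
  · by_contra hc
    exact absurd (h.pos _ (h.hy j hj).1 (not_lt.1 hc)) (not_lt.2 hn.le)
  · rw [abs_of_neg hn]
    linarith [h.hng j hj]

theorem CB.up (h : CB g T y z2 ym tl th b B ng e0 e1 e2) {R ts : ℝ} (h0 : 0 ≤ R)
    (hts : ∀ v, Z2 ≤ v → |g v| ≤ ts)
    (two : th < 2 * z2 ∨ ym ≤ z2 ∨ e0 ≤ R ∨ ng ^ 2 * e2 ≤ R ∨ ng ^ 2 * B ^ (T.card - 2) ≤ R)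
    (third : ym ≤ Z2 ∨ e0 ≤ R ∨ ts * e1 ≤ R ∨ B ^ T.card ≤ R) :
    ∏ j ∈ T, g (y j) ≤ R ∨ ∀ j ∈ T, 0 ≤ y j ∧ y j ≤ Z2 ∧ 0 < g (y j) := by
  rcases le_or_gt (∏ j ∈ T, g (y j)) R with hR | hR
  · exact Or.inl hR
  have hA : R < |∏ j ∈ T, g (y j)| := hR.trans_le (le_abs_self _)
  have hE := h.le_e0
  refine Or.inr fun j hj => ⟨(h.hy j hj).1, ?_, ?_⟩
  · by_contra hc
    push Not at hc
    rcases third with h3 | h3 | h3 | h3
    · linarith [(h.hy j hj).2]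
    · linarith
    · linarith [one_out T (fun i => g (y i)) hj (hts _ hc.le) (h.le_e1 hj)]
    · linarith [abs_pow T (fun i => g (y i)) h.hB]
  · by_contra hc
    obtain ⟨hj0, k, hk, hk0⟩ := two_neg T (fun i => g (y i)) (h0.trans_lt hR) hj hc
    have hkT := Finset.mem_of_mem_erase hk
    obtain ⟨hj1, hj2⟩ := h.neg_facts hj hj0
    obtain ⟨hk1, hk2⟩ := h.neg_facts hkT hk0
    rcases two with h2 | h2 | h2 | h2 | h2
    · have h1 := Finset.add_sum_erase T y hj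
      have h3 : y k ≤ ∑ i ∈ T.erase j, y i :=
        Finset.single_le_sum (fun i hi => (h.hy i (Finset.mem_of_mem_erase hi)).1) hk
      linarith [h.hs.2]
    · linarith [(h.hy j hj).2]
    · linarith
    · have := one_out T (fun i => g (y i)) hj hj2
        (one_out (T.erase j) (fun i => g (y i)) hk hk2 (h.le_e2 hj hk))
      nlinarith
    · have h3 := abs_pow ((T.erase j).erase k) (fun i => g (y i)) fun i hi =>
        h.hB i (Finset.mem_of_mem_erase (Finset.mem_of_mem_erase hi))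
      rw [Finset.card_erase_of_mem hk, Finset.card_erase_of_mem hj, Nat.sub_sub] at h3
      have := one_out T (fun i => g (y i)) hj hj2
        (one_out (T.erase j) (fun i => g (y i)) hk hk2 h3)
      nlinarith

theorem CB.dn (h : CB g T y z2 ym tl th b B ng e0 e1 e2) {R : ℝ} (h0 : 0 ≤ R)
    (one : ym ≤ z2 ∨ e0 ≤ R ∨ ng * e1 ≤ R ∨ ng * B ^ (T.card - 1) ≤ R) :
    -R ≤ ∏ j ∈ T, g (y j) := by
  by_contra hR
  push Not at hR
  have hA : R < |∏ j ∈ T, g (y j)| := by linarith [neg_abs_le (∏ j ∈ T, g (y j))]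
  obtain ⟨j, hj, hj0⟩ := exists_neg T (fun i => g (y i)) (by linarith)
  obtain ⟨hj1, hj2⟩ := h.neg_facts hj hj0
  rcases one with h1 | h1 | h1 | h1
  · linarith [(h.hy j hj).2]
  · linarith [h.le_e0]
  · linarith [one_out T (fun i => g (y i)) hj hj2 (h.le_e1 hj)]
  · have h3 := abs_pow (T.erase j) (fun i => g (y i)) fun i hi =>
      h.hB i (Finset.mem_of_mem_erase hi)
    rw [Finset.card_erase_of_mem hj] at h3
    linarith [one_out T (fun i => g (y i)) hj hj2 h3]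

variable {i0 i1 : ι} {alo ahi blo bhi mlo mhi Aa Ab Am nn : ℝ}

theorem AB.abs_le (h : AB g T y i0 i1 alo ahi blo bhi mlo mhi Aa Ab Am nn) :
    |∏ j ∈ T, g (y j)| ≤ Aa * Ab * Am ^ (T.card - 2) := by
  have hk : i1 ∈ T.erase i0 := Finset.mem_erase.2 ⟨h.ne.symm, h.m1⟩
  have h3 := abs_pow ((T.erase i0).erase i1) (fun i => g (y i)) (B := Am) fun i hi => by
    obtain ⟨h1, h2⟩ := Finset.mem_erase.1 hi
    obtain ⟨h4, h5⟩ := Finset.mem_erase.1 h2
    obtain ⟨h6, h7⟩ := h.hm i h5 h4 h1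
    exact _root_.abs_le.2 ⟨h.am.1.trans h6, h7.trans h.am.2⟩
  rw [Finset.card_erase_of_mem hk, Finset.card_erase_of_mem h.m0, Nat.sub_sub] at h3
  rw [mul_assoc]
  exact one_out T (fun i => g (y i)) h.m0 (_root_.abs_le.2 ⟨h.aa.1.trans h.ha.1, h.ha.2.trans h.aa.2⟩)
    (one_out (T.erase i0) (fun i => g (y i)) hk
      (_root_.abs_le.2 ⟨h.ab.1.trans h.hb.1, h.hb.2.trans h.ab.2⟩) h3)

theorem AB.two (h : AB g T y i0 i1 alo ahi blo bhi mlo mhi Aa Ab Am nn) (ha : 0 ≤ alo)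
    (hy : ∀ j ∈ T, 0 ≤ y j ∧ y j ≤ Z2) {R : ℝ} (h0 : 0 ≤ R)
    (hR : T.card = 2 ∨ Aa * nn ^ 2 * max Am Ab ^ (T.card - 3) ≤ R) :
    ∏ j ∈ T, g (y j) ≤ R ∨ ∀ j ∈ T, 0 ≤ y j ∧ y j ≤ Z2 ∧ 0 < g (y j) := by
  rcases le_or_gt (∏ j ∈ T, g (y j)) R with hP | hP
  · exact Or.inl hP
  have hA : R < |∏ j ∈ T, g (y j)| := hP.trans_le (le_abs_self _)
  refine Or.inr fun j hj => ⟨(hy j hj).1, (hy j hj).2, ?_⟩
  by_contra hc
  obtain ⟨hj0, k, hk, hk0⟩ := two_neg T (fun i => g (y i)) (h0.trans_lt hP) hj hc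
  have hne : ∀ i, g (y i) < 0 → i0 ≠ i := by
    rintro i hi rfl
    linarith [h.ha.1]
  have hnn : ∀ i ∈ T, g (y i) < 0 → |g (y i)| ≤ nn := by
    intro i hi hi0
    rw [abs_of_neg hi0]
    by_cases e : i = i1
    · subst e
      linarith [h.hb.1, h.nb.1]
    · linarith [(h.hm i hi (hne i hi0).symm e).1, h.nb.2]
  have hi0 : i0 ∈ (T.erase j).erase k :=
    Finset.mem_erase.2 ⟨hne k hk0, Finset.mem_erase.2 ⟨hne j hj0, h.m0⟩⟩
  have hc3 : (((T.erase j).erase k).erase i0).card = T.card - 3 := by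
    rw [Finset.card_erase_of_mem hi0, Finset.card_erase_of_mem hk, Finset.card_erase_of_mem hj]
    omega
  rcases hR with hR | hR
  · have := Finset.card_pos.2 ⟨i0, hi0⟩
    rw [Finset.card_erase_of_mem hk, Finset.card_erase_of_mem hj] at this
    omega
  · have h3 := abs_pow (((T.erase j).erase k).erase i0) (fun i => g (y i)) (B := max Am Ab)
      fun i hi => by
        obtain ⟨h1, h2⟩ := Finset.mem_erase.1 hi
        have h4 := Finset.mem_of_mem_erase (Finset.mem_of_mem_erase h2)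
        by_cases e : i = i1
        · subst e
          exact (_root_.abs_le.2 ⟨h.ab.1.trans h.hb.1, h.hb.2.trans h.ab.2⟩).trans (le_max_right _ _)
        · obtain ⟨h6, h7⟩ := h.hm i h4 h1 e
          exact (_root_.abs_le.2 ⟨h.am.1.trans h6, h7.trans h.am.2⟩).trans (le_max_left _ _)
    rw [hc3] at h3
    have := one_out T (fun i => g (y i)) hj (hnn j hj hj0)
      (one_out (T.erase j) (fun i => g (y i)) hk (hnn k (Finset.mem_of_mem_erase hk) hk0)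
        (one_out _ (fun i => g (y i)) hi0
          (_root_.abs_le.2 ⟨h.aa.1.trans h.ha.1, h.ha.2.trans h.aa.2⟩) h3))
    nlinarith

theorem AB.par (h : AB g T y i0 i1 alo ahi blo bhi mlo mhi Aa Ab Am nn) (ha : 0 ≤ alo)
    (hb : bhi ≤ 0) (hm : mhi ≤ 0) (he : Even T.card) : ∏ j ∈ T, g (y j) ≤ 0 := by
  rw [← Finset.mul_prod_erase T _ h.m0]
  refine mul_nonpos_of_nonneg_of_nonpos (ha.trans h.ha.1) ?_
  have h1 : 0 ≤ ∏ j ∈ T.erase i0, -g (y j) := by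
    refine Finset.prod_nonneg fun i hi => ?_
    obtain ⟨h2, h3⟩ := Finset.mem_erase.1 hi
    by_cases e : i = i1
    · subst e
      linarith [h.hb.2]
    · linarith [(h.hm i h3 h2 e).2]
  have h2 : Odd (T.erase i0).card := by
    rw [Finset.card_erase_of_mem h.m0]
    have := Finset.card_pos.2 ⟨i0, h.m0⟩
    obtain ⟨r, hr⟩ := he
    exact ⟨r - 1, by omega⟩
  rw [Finset.prod_neg, h2.neg_one_pow] at h1
  linarith

/-- The algebraic envelope used far out. -/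
theorem alg_env {ga : ℝ} (hg : 0 ≤ ga) (env : ∀ v, 0 ≤ v → g v ^ 2 * (1 + ga * v) ≤ 1)
    (T : Finset ι) (y : ι → ℝ) {ym : ℝ} (hym : 0 ≤ ym) (hy : ∀ j ∈ T, 0 ≤ y j ∧ y j ≤ ym) (m : ℕ)
    (hm : m * ym ≤ ∑ j ∈ T, y j) : (∏ j ∈ T, g (y j)) ^ 2 * (1 + ga * ym) ^ m ≤ 1 := by
  have h1 : (∏ j ∈ T, g (y j)) ^ 2 * ∏ j ∈ T, (1 + ga * y j) ≤ 1 := by
    rw [← Finset.prod_pow, ← Finset.prod_mul_distrib]
    refine Finset.prod_le_one (fun j hj => ?_) fun j hj => env _ (hy j hj).1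
    have := (hy j hj).1
    positivity
  refine le_trans (mul_le_mul_of_nonneg_left ?_ (sq_nonneg _)) h1
  rcases hym.eq_or_lt with h0 | h0
  · rw [← h0, mul_zero, add_zero, one_pow]
    refine Finset.one_le_prod fun j hj => ?_
    have := (hy j hj).1
    have : 0 ≤ ga * y j := by positivity
    linarith
  · have h2 : 1 ≤ 1 + ga * ym := by
      have : 0 ≤ ga * ym := by positivity
      linarith
    calc (1 + ga * ym) ^ m = (1 + ga * ym) ^ (m : ℝ) := (Real.rpow_natCast _ _).symm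
      _ ≤ (1 + ga * ym) ^ (∑ j ∈ T, y j / ym) := by
        refine Real.rpow_le_rpow_of_exponent_le h2 ?_
        rw [← Finset.sum_div, le_div_iff₀ h0]
        exact hm
      _ = ∏ j ∈ T, (1 + ga * ym) ^ (y j / ym) := Real.rpow_sum_of_pos (by linarith) _ _
      _ ≤ ∏ j ∈ T, (1 + ga * y j) := by
        refine Finset.prod_le_prod (fun j _ => by positivity) fun j hj => ?_
        have h3 := rpow_one_add_le_one_add_mul_self (s := ga * ym) (p := y j / ym)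
          (by linarith) (div_nonneg (hy j hj).1 hym) ((div_le_one h0).2 (hy j hj).2)
        refine h3.trans (le_of_eq ?_)
        field_simp

/-- The negative part of the diagonal integrand. -/
theorem neg_part_le (hc : Continuous g) (pos : ∀ v, 0 ≤ v → v ≤ z2 → 0 < g v) {B m0 z : ℝ}
    (hB0 : 0 ≤ B) (hB : ∀ v, z2 ≤ v → -B ≤ g v) (hm : 0 < m0)
    (dec : ∀ v, 0 < v → |g v| ≤ 1 / (m0 * √v)) (hz : 0 < z) (hz2 : z ^ 2 ≤ z2) {n : ℕ}
    (hn : 2 ≤ n) : IntegrableOn (fun s : ℝ => max (-(g (s ^ 2 / n) ^ n)) 0) (Ioi 0) ∧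
      ∫ s in Ioi (0 : ℝ), max (-(g (s ^ 2 / n) ^ n)) 0 ≤
        √n * B ^ (n - 2) / (m0 ^ 2 * z) := by
  have hn0 : (0 : ℝ) < n := by exact_mod_cast (by omega : 0 < n)
  have hsq : 0 < √(n : ℝ) := Real.sqrt_pos.2 hn0
  have ha : 0 < √(n : ℝ) * z := by positivity
  set a := √(n : ℝ) * z with hadef
  set K : ℝ := B ^ (n - 2) * n / m0 ^ 2 with hK
  have hK0 : 0 ≤ K := by positivity
  have hint : IntegrableOn (fun s : ℝ => K * s ^ (-2 : ℝ)) (Ioi a) :=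
    (integrableOn_Ioi_rpow_of_lt (by norm_num) ha).const_mul K
  have hind : Integrable ((Ioi a).indicator fun s : ℝ => K * s ^ (-2 : ℝ)) :=
    (integrable_indicator_iff measurableSet_Ioi).2 hint
  have hle : ∀ s : ℝ, 0 < s → max (-(g (s ^ 2 / n) ^ n)) 0 ≤
      (Ioi a).indicator (fun s : ℝ => K * s ^ (-2 : ℝ)) s := by
    intro s hs
    have hnn : 0 ≤ (Ioi a).indicator (fun s : ℝ => K * s ^ (-2 : ℝ)) s := by
      refine Set.indicator_apply_nonneg fun _ => ?_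
      positivity
    rcases le_or_gt 0 (g (s ^ 2 / n)) with h0 | h0
    · refine max_le ?_ hnn
      linarith [pow_nonneg h0 n]
    · have hv : 0 < s ^ 2 / n := by positivity
      have h1 : z2 < s ^ 2 / n := by
        by_contra hc
        exact absurd (pos _ hv.le (not_lt.1 hc)) (not_lt.2 h0.le)
      have h2 : a < s := by
        refine lt_of_pow_lt_pow_left₀ 2 hs.le ?_
        rw [hadef, mul_pow, Real.sq_sqrt hn0.le]
        rw [lt_div_iff₀ hn0] at h1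
        nlinarith
      refine max_le ?_ hnn
      rw [Set.indicator_of_mem (show s ∈ Ioi a from h2)]
      have h3 : |g (s ^ 2 / n)| ≤ B := by
        rw [abs_of_neg h0]
        linarith [hB _ h1.le]
      have h4 : |g (s ^ 2 / n)| ^ 2 ≤ n / (m0 ^ 2 * s ^ 2) := by
        refine (pow_le_pow_left₀ (abs_nonneg _) (dec _ hv) 2).trans (le_of_eq ?_)
        rw [div_pow, mul_pow, Real.sq_sqrt hv.le]
        field_simp
      calc -(g (s ^ 2 / n) ^ n) ≤ |g (s ^ 2 / n) ^ n| := neg_le_abs _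
        _ = |g (s ^ 2 / n)| ^ (n - 2) * |g (s ^ 2 / n)| ^ 2 := by
          rw [_root_.abs_pow, ← pow_add, Nat.sub_add_cancel hn]
        _ ≤ B ^ (n - 2) * (n / (m0 ^ 2 * s ^ 2)) :=
          mul_le_mul (pow_le_pow_left₀ (abs_nonneg _) h3 _) h4 (by positivity) (by positivity)
        _ = K * s ^ (-2 : ℝ) := by
          rw [Real.rpow_neg hs.le, Real.rpow_two, hK]
          field_simp
  have hcont : Continuous fun s : ℝ => max (-(g (s ^ 2 / n) ^ n)) 0 := by fun_prop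
  have hae : ∀ᵐ s ∂(volume.restrict (Ioi (0 : ℝ))), max (-(g (s ^ 2 / n) ^ n)) 0 ≤
      (Ioi a).indicator (fun s : ℝ => K * s ^ (-2 : ℝ)) s :=
    ae_restrict_of_forall_mem measurableSet_Ioi fun s hs => hle s hs
  have hI : IntegrableOn (fun s : ℝ => max (-(g (s ^ 2 / n) ^ n)) 0) (Ioi 0) := by
    refine Integrable.mono' hind.integrableOn hcont.aestronglyMeasurable ?_
    filter_upwards [hae] with s hs
    rwa [Real.norm_eq_abs, abs_of_nonneg (le_max_right _ _)]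
  refine ⟨hI, (integral_mono_ae hI hind.integrableOn hae).trans (le_of_eq ?_)⟩
  rw [setIntegral_indicator measurableSet_Ioi, Set.inter_eq_right.2 (Ioi_subset_Ioi ha.le),
    integral_const_mul, integral_Ioi_rpow_of_lt (by norm_num) ha]
  have h5 : (n : ℝ) = √n * √n := (Real.mul_self_sqrt hn0.le).symm
  rw [show (-2 : ℝ) + 1 = -1 by norm_num, Real.rpow_neg_one, hK, hadef]
  generalize √(n : ℝ) = r at *
  rw [h5]
  field_simp

lemma FCrudeX.le_one_of_sq {x : ℝ} (h : x ^ 2 ≤ 1) : x ≤ 1 := by nlinarith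

theorem scale_nat {rho : ℝ} (h0 : 0 ≤ rho) {n0 n : ℕ} (h1 : 1 ≤ n0) (hn : n0 ≤ n)
    (h : rho ^ 2 * (n0 + 1) ^ 5 ≤ (n0 : ℝ) ^ 5) :
    √((n : ℝ) / n0) ^ 5 * rho ^ (n - n0) ≤ 1 := by
  have hn0 : (0 : ℝ) < n0 := by exact_mod_cast h1
  have key : ∀ k : ℕ, ((n0 : ℝ) + k) ^ 5 * (rho ^ 2) ^ k ≤ (n0 : ℝ) ^ 5 := by
    intro k
    induction k with
    | zero => simp
    | succ k ih =>
      have hk : (0 : ℝ) ≤ k := Nat.cast_nonneg k
      have h2 : (((n0 : ℝ) + k + 1) * n0) ^ 5 ≤ ((n0 + 1) * (n0 + k)) ^ 5 :=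
        pow_le_pow_left₀ (by positivity) (by nlinarith) 5
      have h3 : ((n0 : ℝ) + k + 1) ^ 5 * rho ^ 2 ≤ (n0 + k) ^ 5 := by
        refine le_of_mul_le_mul_right ?_ (pow_pos hn0 5)
        calc ((n0 : ℝ) + k + 1) ^ 5 * rho ^ 2 * n0 ^ 5
            = rho ^ 2 * ((n0 + k + 1) * n0) ^ 5 := by ring
          _ ≤ rho ^ 2 * ((n0 + 1) * (n0 + k)) ^ 5 := mul_le_mul_of_nonneg_left h2 (sq_nonneg _)
          _ = (rho ^ 2 * (n0 + 1) ^ 5) * (n0 + k) ^ 5 := by ring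
          _ ≤ n0 ^ 5 * (n0 + k) ^ 5 := mul_le_mul_of_nonneg_right h (by positivity)
          _ = _ := by ring
      calc ((n0 : ℝ) + (k + 1 : ℕ)) ^ 5 * (rho ^ 2) ^ (k + 1)
          = (((n0 : ℝ) + k + 1) ^ 5 * rho ^ 2) * (rho ^ 2) ^ k := by push_cast; ring
        _ ≤ (n0 + k) ^ 5 * (rho ^ 2) ^ k := mul_le_mul_of_nonneg_right h3 (by positivity)
        _ ≤ _ := ih
  obtain ⟨k, rfl⟩ := Nat.exists_eq_add_of_le hn
  refine FCrudeX.le_one_of_sq ?_
  rw [mul_pow, ← pow_mul, mul_comm 5 2, pow_mul, Real.sq_sqrt (by positivity), Nat.add_sub_cancel_left,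
    ← pow_mul, mul_comm k 2, pow_mul, div_pow, div_mul_eq_mul_div, div_le_one (by positivity)]
  push_cast
  exact key k

theorem scale_exp {c m0 m : ℝ} (h0 : 0 < m0) (hm : m0 ≤ m) (h : 5 ≤ 2 * c * m0) :
    √(m / m0) ^ 5 * Real.exp (-(c * (m - m0))) ≤ 1 := by
  have hx : 1 ≤ m / m0 := (one_le_div h0).2 hm
  have h1 : √(m / m0) ≤ Real.exp ((m / m0 - 1) / 2) := by
    refine Real.sqrt_le_iff.2 ⟨(Real.exp_pos _).le, ?_⟩
    rw [← Real.exp_nat_mul]
    have := Real.add_one_le_exp (m / m0 - 1)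
    refine le_trans (by linarith) (this.trans (le_of_eq ?_))
    congr 1
    push_cast
    ring
  have h2 : √(m / m0) ^ 5 ≤ Real.exp (c * (m - m0)) := by
    refine (pow_le_pow_left₀ (Real.sqrt_nonneg _) h1 5).trans ?_
    rw [← Real.exp_nat_mul]
    refine Real.exp_le_exp.2 ?_
    have e : c * (m - m0) = (2 * c * m0) * ((m / m0 - 1) / 2) := by field_simp
    rw [e]
    exact mul_le_mul_of_nonneg_right (by exact_mod_cast h) (by linarith)
  rw [Real.exp_neg, ← div_eq_mul_inv, div_le_one (Real.exp_pos _)]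
  exact h2

end Pool.Agent.MP_39fec4_gt.Full

end

section

set_option autoImplicit false

namespace Pool.Agent.MP_39fec4_gt.Small

open MeasureTheory Set Filter Topology Real

variable {η s : ℝ}

namespace S2PosX

variable {r u y z x : ℝ}

/-- The second order part of the density. -/
noncomputable def TT (η y u : ℝ) : ℝ :=
  (3 - (24 + 4 * η) * y + 16 * y ^ 2) * u ^ 2 - (8 + 2 * η - 16 * y) * u

/-- The reduced density. -/
noncomputable def Th (η y u : ℝ) : ℝ :=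
  (1 - η ^ 2) / 4 + (2 + 5 * η) * y - 4 * y ^ 2 + η * y * TT η y u

theorem Kb (h0 : 0 < η) (h1 : η ≤ 0.4) (r0 : 0 < r) (u0 : 0 ≤ u)
    (h : r * (2 + η) ^ 2 * u ^ 2 ≤ 4 * (1 - r) ^ 2 * (1 + η * u)) :
    (24 + 4 * η) * r ^ 2 * u ^ 2 ≤ (24 - 15.5 * η) * (r * (1 - r) ^ 2) +
      (2.48 + 11.6 * η) * (r * (1 - r) ^ 2 * u) := by
  have g0 : 0 ≤ r * (1 - r) ^ 2 := by positivity
  have a : (24 + 4 * η) * r ^ 2 * u ^ 2 ≤ (24 - 15.5 * η) * (r * (1 - r) ^ 2 * (1 + η * u)) := by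
    refine le_of_mul_le_mul_left ?_ (by positivity : 0 < (2 + η) ^ 2)
    have b := mul_le_mul_of_nonneg_left h (by positivity : 0 ≤ (24 + 4 * η) * r)
    have c : 4 * (24 + 4 * η) ≤ (2 + η) ^ 2 * (24 - 15.5 * η) := by
      nlinarith [mul_nonneg h0.le (sub_nonneg.2 h1), mul_nonneg (sq_nonneg η) (sub_nonneg.2 h1)]
    have d := mul_le_mul_of_nonneg_right c (by positivity : 0 ≤ r * (1 - r) ^ 2 * (1 + η * u))
    linarith
  linarith [mul_nonneg (sq_nonneg (η - 0.4)) (mul_nonneg g0 u0)]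

theorem bern6 {a b t : ℝ} (ha : a ≤ t) (hb : t ≤ b) (i j : ℕ) : 0 ≤ (t - a) ^ i * (b - t) ^ j :=
  mul_nonneg (pow_nonneg (sub_nonneg.2 ha) i) (pow_nonneg (sub_nonneg.2 hb) j)

theorem algA (h0 : 0 < η) (h1 : η ≤ 0.4) (r0 : 0 < r) (r1 : r ≤ 0.55) (u0 : 0 ≤ u)
    (h : r * (2 + η) ^ 2 * u ^ 2 ≤ 4 * (1 - r) ^ 2 * (1 + η * u)) :
    -TT η (r ^ 2) u ≤ 10.5 - 20 * r ^ 2 := by
  have k := Kb h0 h1 r0 u0 h
  have p0 : (8 - 16 * r ^ 2 + 2.48 * (r * (1 - r) ^ 2)) ^ 2 ≤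
      12 * (10.5 - 20 * r ^ 2 - 24 * (r * (1 - r) ^ 2)) := by
    have b := bern6 r0.le r1
    linarith [b 0 6, b 1 5, b 2 4, b 3 3, b 4 2, b 5 1, b 6 0]
  have p1 : (8.8 - 16 * r ^ 2 + 7.12 * (r * (1 - r) ^ 2)) ^ 2 ≤
      12 * (10.5 - 20 * r ^ 2 - 17.8 * (r * (1 - r) ^ 2)) := by
    rcases le_total r 0.3 with c | c
    · have b := bern6 r0.le c
      linarith [b 0 6, b 1 5, b 2 4, b 3 3, b 4 2, b 5 1, b 6 0]
    · have b := bern6 c r1
      linarith [b 0 6, b 1 5, b 2 4, b 3 3, b 4 2, b 5 1, b 6 0]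
  unfold TT
  generalize r * (1 - r) ^ 2 = g at *
  generalize r ^ 2 = y at *
  have e0 : 0 ≤ 3 * u ^ 2 - (8 - 16 * y + 2.48 * g) * u + (10.5 - 20 * y - 24 * g) := by
    linarith [sq_nonneg (6 * u - (8 - 16 * y + 2.48 * g))]
  have e1 : 0 ≤ 3 * u ^ 2 - (8.8 - 16 * y + 7.12 * g) * u + (10.5 - 20 * y - 17.8 * g) := by
    linarith [sq_nonneg (6 * u - (8.8 - 16 * y + 7.12 * g))]
  linarith [mul_nonneg (sub_nonneg.2 h1) e0, mul_nonneg h0.le e1, sq_nonneg (y * u)]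

theorem algA2 {k : ℝ} (h0 : 0 < η) (h1 : η ≤ 0.4) (y0 : 0 ≤ y) (y1 : y ≤ 0.3025)
    (h : -TT η y u ≤ 10.5 - 20 * y) (hk : 1 - (2 - 0.8 * η) * y ≤ k) : 0.185 ≤ k * Th η y u := by
  have b := bern6 y0 y1
  have d := sub_nonneg.2 h1
  have a : 0.25 - 0.1 * η + (2 - 5.5 * η) * y + (20 * η - 4) * y ^ 2 ≤ Th η y u := by
    unfold Th
    linarith [mul_le_mul_of_nonneg_left h (mul_nonneg h0.le y0), mul_nonneg h0.le d]
  have q0 : 0 ≤ (1 - 2 * y) * (0.25 + 2 * y - 4 * y ^ 2) - 0.185 := by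
    linarith [b 0 3, b 1 2, b 2 1, b 3 0]
  have q1 : 0 ≤ (1 - 2 * y) * (0.21 - 0.2 * y + 4 * y ^ 2) +
      (1 - 1.68 * y) * (0.25 + 2 * y - 4 * y ^ 2) - 0.37 := by
    linarith [b 0 3, b 1 2, b 2 1, b 3 0]
  have q2 : 0 ≤ (1 - 1.68 * y) * (0.21 - 0.2 * y + 4 * y ^ 2) - 0.185 := by
    linarith [b 0 3, b 1 2, b 2 1, b 3 0, mul_nonneg (sq_nonneg (y - 0.075)) y0,
      mul_nonneg (sq_nonneg (y - 0.075)) (sub_nonneg.2 y1)]
  have c : 0.185 ≤ (1 - (2 - 0.8 * η) * y) *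
      (0.25 - 0.1 * η + (2 - 5.5 * η) * y + (20 * η - 4) * y ^ 2) := by
    linarith [mul_nonneg (sq_nonneg (0.4 - η)) q0, mul_nonneg (mul_nonneg h0.le d) q1,
      mul_nonneg (sq_nonneg η) q2]
  have k0 : 0 ≤ 1 - (2 - 0.8 * η) * y := by linarith [mul_nonneg h0.le y0]
  have t0 : 0 ≤ 0.25 - 0.1 * η + (2 - 5.5 * η) * y + (20 * η - 4) * y ^ 2 := by
    by_contra n
    linarith [mul_nonneg k0 (neg_nonneg.2 (not_le.1 n).le)]
  exact c.trans (mul_le_mul hk a t0 (k0.trans hk))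

theorem algB (h0 : 0 < η) (h1 : η ≤ 0.4) (r0 : 0.55 ≤ r) (r1 : r ≤ 1) (u0 : 0 ≤ u)
    (h : r * (2 + η) ^ 2 * u ^ 2 ≤ 4 * (1 - r) ^ 2 * (1 + η * u)) :
    -Th η (r ^ 2) u ≤ (1.9 - 1.75 * η) * (r ^ 2) ^ 4 := by
  have k := Kb h0 h1 (by linarith) u0 h
  have b := bern6 r0 r1
  have g0 : 0 ≤ r * (1 - r) ^ 2 := by positivity
  have g1 : r * (1 - r) ^ 2 ≤ 0.16 * (1 - r ^ 2) := by linarith [b 0 3, b 1 2, b 2 1, b 3 0]
  have y0 : 0.3025 ≤ r ^ 2 := by nlinarith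
  have y1 : r ^ 2 ≤ 1 := by nlinarith
  generalize r * (1 - r) ^ 2 = g at *
  generalize r ^ 2 = y at *
  have d := sub_nonneg.2 h1
  have d1 := sub_nonneg.2 y1
  have a : -TT η y u ≤ 6.5 * (1 - y) := by
    have a1 : (2.48 + 11.6 * η) * g ≤ 7.12 * 0.1116 := by gcongr <;> linarith
    have a2 : 4.46 ≤ 3 + 16 * y ^ 2 := by nlinarith
    unfold TT
    linarith [mul_le_mul_of_nonneg_right a1 u0, mul_le_mul_of_nonneg_right a2 (sq_nonneg u),
      mul_nonneg h0.le g0, mul_nonneg d u0, mul_nonneg (sub_nonneg.2 y0) u0,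
      mul_nonneg (sub_nonneg.2 y0) d1, sq_nonneg (u - 0.8 * (1 - y)), sq_nonneg u,
      sq_nonneg (1 - y)]
  have y2 : 0 ≤ y := by linarith
  have f0 : 0 ≤ 1.9 * y ^ 4 + 0.25 + 2 * y - 4 * y ^ 2 := by
    linarith [mul_nonneg (sq_nonneg (y - 0.87)) (sq_nonneg y), mul_nonneg (sq_nonneg (y - 0.87)) y2,
      sq_nonneg (y - 0.87)]
  have f1 : 0 ≤ 1.2 * y ^ 4 + 0.21 + 1.4 * (y * (1 - y)) := by positivity
  unfold Th
  linarith [mul_le_mul_of_nonneg_left a (mul_nonneg h0.le y2), mul_nonneg h0.le d, mul_nonneg d f0,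
    mul_nonneg h0.le f1]

theorem algC (h0 : 0 < η) (h1 : η ≤ 0.4) (y1 : 1 ≤ y) (u0 : u ≤ 0)
    (h : y * (2 + η) ^ 2 * u ^ 2 ≤ (y - 1) ^ 2) (hz : z ^ 2 ≤ 1 + (y - 1) / 3) :
    -(z ^ 2 * Th η y u) ≤ (1.9 - 1.75 * η) * y ^ 4 := by
  have d := sub_nonneg.2 h1
  have t0 := sub_nonneg.2 y1
  have y0 : 0 < y := by linarith
  have a1 : (2 + η) * (y * -u) ≤ (y ^ 2 - 1) / 2 := by
    refine (abs_le_of_sq_le_sq' ?_ (by nlinarith)).2
    nlinarith [mul_le_mul_of_nonneg_left h y0.le, sq_nonneg ((y - 1) ^ 2)]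
  have v0 : 0 ≤ y * -u := mul_nonneg y0.le (neg_nonneg.2 u0)
  have a2 : η * (y * -u) ≤ (0.028 + 0.35 * η) * ((y ^ 2 - 1) / 2) := by
    have : η ≤ (0.028 + 0.35 * η) * (2 + η) := by nlinarith [sq_nonneg (η - 0.4)]
    calc _ ≤ (0.028 + 0.35 * η) * (2 + η) * (y * -u) := by gcongr
      _ = (0.028 + 0.35 * η) * ((2 + η) * (y * -u)) := by ring
      _ ≤ _ := by gcongr
  have a3 : η * (y * u ^ 2) ≤ 0.07 * (y - 1) ^ 2 := by
    have : η ≤ 0.07 * (2 + η) ^ 2 := by nlinarith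
    linarith [mul_le_mul_of_nonneg_right this (by positivity : 0 ≤ y * u ^ 2)]
  have a4 : 0 ≤ 6.6 + (3 - (24 + 4 * η) * y + 16 * y ^ 2) := by
    linarith [mul_nonneg d y0.le, sq_nonneg (y - 1)]
  have G : -Th η y u ≤ -0.25 + 0.1 * η - (2 + 5 * η) * y + 4 * y ^ 2 + 0.462 * (y - 1) ^ 2 +
      (0.028 + 0.35 * η) * ((8 * y - 4) * (y ^ 2 - 1)) := by
    unfold Th TT
    linarith [mul_nonneg a4 (by positivity : 0 ≤ η * (y * u ^ 2)), mul_nonneg h0.le d,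
      mul_le_mul_of_nonneg_left a2 (by linarith : 0 ≤ 16 * y - 8), mul_nonneg (sq_nonneg η) v0]
  have f0 : (1 + (y - 1) / 3) * (-0.25 - 2 * y + 4 * y ^ 2 + 0.462 * (y - 1) ^ 2 +
      0.028 * ((8 * y - 4) * (y ^ 2 - 1))) ≤ 1.9 * y ^ 4 := by
    linarith [pow_nonneg t0 2, pow_nonneg t0 3, pow_nonneg t0 4]
  have f1 : (1 + (y - 1) / 3) * (-0.21 - 4 * y + 4 * y ^ 2 + 0.462 * (y - 1) ^ 2 +
      0.168 * ((8 * y - 4) * (y ^ 2 - 1))) ≤ 1.2 * y ^ 4 := by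
    linarith [mul_nonneg (sq_nonneg (y - 1.97)) (sq_nonneg (y - 1)),
      mul_nonneg (sq_nonneg (y - 1.97)) t0, sq_nonneg (y - 1.97)]
  have f := add_le_add (mul_le_mul_of_nonneg_left f0 d) (mul_le_mul_of_nonneg_left f1 h0.le)
  rcases le_total 0 (Th η y u) with c | c
  · have : 0 ≤ 1.9 - 1.75 * η := by linarith
    have : 0 ≤ z ^ 2 * Th η y u + (1.9 - 1.75 * η) * y ^ 4 := by positivity
    linarith
  · linarith [mul_le_mul hz G (neg_nonneg.2 c) (by linarith)]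

/-- The normalised defect of the small power. -/
noncomputable def uu (η x : ℝ) : ℝ := (1 - x ^ η) / (η * x ^ η)

theorem ptw (h0 : 0 < η) (h1 : η ≤ 0.4) (hx : 0 < x) :
    -((x ^ η) ^ 2 * Th η (x ^ (2 + η)) (uu η x)) ≤ (1.9 - 1.75 * η) * (x ^ (2 + η)) ^ 4 ∧
      (x ≤ 0.55 → 0.185 ≤ kr η x * Th η (x ^ (2 + η)) (uu η x)) := by
  have p0 : 0 < 2 + η := by linarith
  have z0 := Real.rpow_pos_of_pos hx η
  have r0 := Real.rpow_pos_of_pos hx ((2 + η) / 2)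
  have y0 := Real.rpow_pos_of_pos hx (2 + η)
  have al : 0 ≤ 1.9 - 1.75 * η := by linarith
  have ey : x ^ (2 + η) = (x ^ ((2 + η) / 2)) ^ 2 := by
    rw [← rpow_two_mul _ hx]; congr 1; ring
  have eu : 1 - x ^ η = η * x ^ η * uu η x := by unfold uu; field_simp
  have t1 : 2 * (η / (2 + η)) ≤ 1 / 3 := by rw [← mul_div_assoc, div_le_iff₀ p0]; linarith
  have t0 : 0 < η / (2 + η) := by positivity
  have et : η / (2 + η) * (2 + η) = η := by field_simp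
  have b1 := one_sub_rpow_sq_le (θ := 2 * (η / (2 + η))) (by positivity) (by linarith) r0
  have b2 := one_sub_rpow_sq_le t0.le (by linarith) y0
  have b3 := rpow_le_lin (θ := 2 * (η / (2 + η))) (by positivity) (by linarith) y0.le
  rw [← Real.rpow_mul hx.le, show (2 + η) / 2 * (2 * (η / (2 + η))) = η by field_simp] at b1
  rw [← Real.rpow_mul hx.le, mul_comm (2 + η), et] at b2
  rw [← Real.rpow_mul hx.le, show (2 + η) * (2 * (η / (2 + η))) = 2 * η by field_simp,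
    rpow_two_mul _ hx] at b3
  have lo : x ≤ 1 → x ^ η ≤ 1 ∧ x ^ ((2 + η) / 2) ≤ x := fun c => ⟨Real.rpow_le_one hx.le c h0.le,
    by simpa using Real.rpow_le_rpow_of_exponent_ge hx c (by linarith : 1 ≤ (2 + η) / 2)⟩
  have hi : 1 ≤ x → 1 ≤ x ^ η ∧ 1 ≤ x ^ (2 + η) := fun c =>
    ⟨Real.one_le_rpow c h0.le, Real.one_le_rpow c p0.le⟩
  have hk : 1 - (2 - 0.8 * η) * x ^ (2 + η) ≤ kr η x := by
    have : 4 / (2 + η) ≤ 2 - 0.8 * η := by
      rw [div_le_iff₀ p0]; nlinarith [mul_nonneg h0.le (sub_nonneg.2 h1)]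
    have := mul_le_mul_of_nonneg_right this y0.le
    linarith [Real.add_one_le_exp (-(4 / (2 + η)) * x ^ (2 + η)), kr.eq_1 η x]
  have k0 := kr_pos η x
  rw [eu] at b1 b2
  generalize uu η x = u at *
  generalize x ^ η = z at *
  generalize kr η x = k at *
  generalize x ^ (2 + η) = y at *
  generalize x ^ ((2 + η) / 2) = r at *
  generalize η / (2 + η) = θ at *
  have c1 : r * (2 + η) ^ 2 * u ^ 2 ≤ 4 * (1 - r) ^ 2 * (1 + η * u) := by
    refine le_of_mul_le_mul_left ?_ (by positivity : 0 < η ^ 2 * z ^ 2)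
    calc _ = (2 + η) ^ 2 * (r * (η * z * u) ^ 2) := by ring
      _ ≤ (2 + η) ^ 2 * ((2 * θ) ^ 2 * z * (r - 1) ^ 2) := by gcongr
      _ = (θ * (2 + η)) ^ 2 * (4 * z * (r - 1) ^ 2) := by ring
      _ = _ := by rw [et]; linear_combination η ^ 2 * (4 * z * (r - 1) ^ 2) * eu
  have u0 : z ≤ 1 → 0 ≤ u := fun c =>
    nonneg_of_mul_nonneg_right (eu ▸ sub_nonneg.2 c) (mul_pos h0 z0)
  have A : x ≤ 1 → r ≤ 0.55 → 0.185 ≤ k * Th η y u := fun c c2 =>
    algA2 h0 h1 y0.le (by nlinarith) (ey ▸ algA h0 h1 r0 c2 (u0 (lo c).1) c1) hk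
  refine ⟨?_, fun c => A (by linarith) ((lo (by linarith)).2.trans c)⟩
  rcases le_total x 1 with c | c
  · rcases le_total r 0.55 with c2 | c2
    · have := nonneg_of_mul_nonneg_right (le_trans (by norm_num) (A c c2)) k0
      have : 0 ≤ z ^ 2 * Th η y u + (1.9 - 1.75 * η) * y ^ 4 := by positivity
      linarith
    · have b := ey ▸ algB h0 h1 c2 ((lo c).2.trans c) (u0 (lo c).1) c1
      have z2 : z ^ 2 ≤ 1 := pow_le_one₀ z0.le (lo c).1
      have : 0 ≤ (1.9 - 1.75 * η) * y ^ 4 := by positivity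
      linarith [mul_le_mul_of_nonneg_left b (sq_nonneg z), mul_le_mul_of_nonneg_right z2 this]
  · obtain ⟨z1, y1⟩ := hi c
    refine algC h0 h1 y1 (nonpos_of_mul_nonpos_right (eu ▸ sub_nonpos.2 z1) (mul_pos h0 z0)) ?_
      (by nlinarith)
    refine le_of_mul_le_mul_left ?_ (by positivity : 0 < η ^ 2 * z ^ 2)
    calc _ = (2 + η) ^ 2 * (y * (η * z * u) ^ 2) := by ring
      _ ≤ (2 + η) ^ 2 * (θ ^ 2 * z * (y - 1) ^ 2) := by gcongr
      _ = (θ * (2 + η)) ^ 2 * (z * 1) * (y - 1) ^ 2 := by ring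
      _ ≤ (θ * (2 + η)) ^ 2 * (z * z) * (y - 1) ^ 2 := by gcongr
      _ = _ := by rw [et]; ring

theorem m0_le2 (h0 : 0 < η) (h1 : η ≤ 0.4) : m0 η ≤ 0.7325 := by
  have p0 : 0 < 2 + η := by linarith
  have q0 : 5 / 12 ≤ 1 / (2 + η) := by rw [le_div_iff₀ p0]; linarith
  have q1 : 1 / (2 + η) ≤ 1 / 2 := by rw [div_le_iff₀ p0]; linarith
  have g := Full.gamma_le (q := 1 / (2 + η)) (by positivity) q1
  have a : (4 / (2 + η)) ^ (-1 / (2 + η)) ≤ 0.809 := by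
    have b1 : (4 / (2 + η)) ^ (-1 / (2 + η)) ≤ (5 / 3 : ℝ) ^ (-1 / (2 + η)) :=
      Real.rpow_le_rpow_of_nonpos (by norm_num) (by rw [le_div_iff₀ p0]; linarith)
        (by rw [neg_div]; linarith)
    have b2 : (5 / 3 : ℝ) ^ (-1 / (2 + η)) ≤ (5 / 3 : ℝ) ^ (-(5 / 12) : ℝ) :=
      Real.rpow_le_rpow_of_exponent_le (by norm_num) (by rw [neg_div]; linarith)
    refine b1.trans (b2.trans (le_of_pow_le_pow_left₀ (n := 12) (by norm_num) (by norm_num) ?_))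
    rw [← Real.rpow_mul_natCast (by norm_num), show (-(5 / 12) * ((12 : ℕ) : ℝ) : ℝ) = -(5 : ℕ) by
      norm_num, Real.rpow_neg (by norm_num), Real.rpow_natCast]
    norm_num
  have e : m0 η = _ := integral_exp_neg_mul_rpow p0 (by positivity : 0 < 4 / (2 + η))
  rw [e, add_comm (1 / (2 + η))]
  calc _ ≤ 0.809 * (1 - 0.227 * (5 / 12)) :=
        mul_le_mul a (by linarith) (Real.Gamma_pos_of_pos (by positivity)).le (by norm_num)
    _ ≤ _ := by norm_num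

theorem low (h0 : 0 < η) (h1 : η ≤ 0.4) (s : ℝ) : ∃ F : ℝ → ℝ, IntegrableOn F (Ioi 0) ∧
    (∀ x, 0 < x → 0 ≤ F x) ∧
    (∀ x, 0 < x → x ≤ 0.55 → 0.185 * η * (x ^ (η - 2) * (1 - Real.cos (s * x))) ≤ F x) ∧
    ∫ x in Ioi (0 : ℝ), F x ≤
      s * Uf η s + 2 * (m0 η * (η * (1.9 - 1.75 * η) * ((3 + η) * (5 + 2 * η)) / 64)) := by
  have cW : ∀ r, ContinuousOn (Wr η r) (Ioi 0) := fun r =>
    (continuousOn_id.rpow_const fun x hx => Or.inl (ne_of_gt hx)).mul (cont_kr h0).continuousOn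
  have sq : ∀ r x, 0 < x → x ^ 2 * Wr η r x = Wr η (r + 2) x := fun r x hx => by
    rw [Wr_add _ _ hx, Real.rpow_two]
  obtain ⟨i, e⟩ := parts_one_sub (k := Wr η (η - 1)) (int_Wr h0 (by linarith))
    (fun x hx => hasDerivAt_Wr h0 (a := η - 2) (b := η - 2 + (2 + η)) (by ring) (by ring) hx)
    (((cW _).const_smul (η - 1)).add ((cW _).const_smul (-4 : ℝ)))
    (g := fun x => 1 * Wr η (η - 2 + 2) x + 4 * Wr η (η - 2 + (2 + η) + 2) x)
    (((int_Wr h0 (by linarith)).const_mul _).add ((int_Wr h0 (by linarith)).const_mul _))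
    (fun x hx => by
      have a := Wr_pos η (η - 2) hx
      have b := Wr_pos η (η - 2 + (2 + η)) hx
      rw [← sq _ x hx, ← sq _ x hx, abs_of_nonpos (by nlinarith)]
      nlinarith [mul_pos (mul_pos h0 a) (pow_pos hx 2)])
    ((tendsto_Wr h0 (r := η - 1 + 2) (by linarith)).congr' (by
      filter_upwards [self_mem_nhdsWithin] with x hx
      rw [← sq _ x hx, abs_of_pos (Wr_pos _ _ hx)])) s
  have i1 := int_Hk h0 one_pos
  have i2 := int_Hk h0 (r := 1 + η) (by linarith)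
  have i3 := int_Hk h0 (r := 1 + 2 * η) (by linarith)
  have i4 := int_Wr h0 (r := 2 * η) (by linarith)
  have i5 := int_Wr h0 (r := 2 * η + (2 + η)) (by linarith)
  have iH := int_lin3 i1 i2 i3 1 (-2) 1
  have iN := int_lin3 iH i4 i5 1 (η * (1 + 2 * η)) (η * -4)
  obtain ⟨iM, eM⟩ := mom3 h0 0 0 0 (η * (1.9 - 1.75 * η))
  set N := fun x => 1 * (1 * Hk η 1 x + (-2) * Hk η (1 + η) x + 1 * Hk η (1 + 2 * η) x) +
    η * (1 + 2 * η) * Wr η (2 * η) x + η * -4 * Wr η (2 * η + (2 + η)) x with hN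
  set M := fun x => kr η x * (0 + 0 * x ^ (2 + η) + 0 * (x ^ (2 + η)) ^ 2 +
    η * (1.9 - 1.75 * η) * (x ^ (2 + η)) ^ 3) with hM
  have eN : ∀ s, cosT N s = s * Psi η s + η * (s * Sr η (1 + 2 * η) s) := fun s => by
    rw [hN, cosT_lin3 iH i4 i5, cosT_lin3 i1 i2 i3, ← sT h0 one_pos (a := 2) (by ring),
      ← sT h0 (r := 1 + η) (by linarith) (a := 2 + η) (by ring),
      ← sT h0 (r := 1 + 2 * η) (by linarith) (a := 2 + 2 * η) (by ring), Psi,
      P2 h0 (r := 1 + 2 * η) (by linarith) (a := 2 * η) (b := 2 * η + (2 + η)) (by ring) (by ring),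
      Cr, Cr, Cr, Cr, Cr]
    ring
  have al : 0 ≤ 1.9 - 1.75 * η := by linarith
  have M0 : ∀ x, 0 < x → 0 ≤ M x := fun x hx => by
    have := kr_pos η x
    rw [hM]; positivity
  have key : ∀ x, 0 < x → η / 4 * (1 + η) * (-((η - 1) * Wr η (η - 2) x +
      -4 * Wr η (η - 2 + (2 + η)) x) * (1 - Real.cos (s * x))) +
      (N x + M x - (N x * Real.cos (s * x) + M x * Real.cos (s * x))) =
      (η * x ^ (η - 2) * (kr η x * Th η (x ^ (2 + η)) (uu η x)) + M x) *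
        (1 - Real.cos (s * x)) := fun x hx => by
    have z0 := Real.rpow_pos_of_pos hx η
    have e1 : 1 - x ^ η = η * x ^ η * uu η x := by unfold uu; field_simp
    have e2 : (x ^ η) ^ 2 = x ^ (η - 2) * x ^ (2 + η) := by
      rw [← rpow_two_mul _ hx, ← Real.rpow_add hx]; congr 1; ring
    simp only [hN]
    rw [Hk_eq _ _ hx, Hk_eq _ _ hx, Hk_eq _ _ hx, sub_self, add_sub_cancel_left,
      add_sub_cancel_left, Wr_add _ _ hx, Wr_add _ _ hx, Wr, Wr, rpow_two_mul _ hx, Real.rpow_zero]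
    unfold Th TT
    generalize uu η x = u at *
    generalize x ^ η = z at *
    generalize kr η x = k at *
    generalize x ^ (2 + η) = y at *
    linear_combination (1 - Real.cos (s * x)) * k * ((3 - (24 + 4 * η) * y + 16 * y ^ 2) *
      (1 - z + η * z * u) - η * z * (8 + 2 * η - 16 * y)) * e1 + (1 - Real.cos (s * x)) * η * k *
      (1 + 2 * η - 4 * y + η * ((3 - (24 + 4 * η) * y + 16 * y ^ 2) * u ^ 2 -
        (8 + 2 * η - 16 * y) * u + 2)) * e2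
  have j1 : IntegrableOn (fun x => N x + M x) (Ioi 0) := iN.add iM
  have j2 : IntegrableOn (fun x => N x * Real.cos (s * x) + M x * Real.cos (s * x)) (Ioi 0) :=
    (int_cos iN s).add (int_cos iM s)
  have j3 : IntegrableOn (fun x => N x + M x -
    (N x * Real.cos (s * x) + M x * Real.cos (s * x))) (Ioi 0) := j1.sub j2
  refine ⟨_, (i.const_mul (η / 4 * (1 + η))).add j3, fun x hx => ?_, fun x hx x1 => ?_, ?_⟩
  · rw [Pi.add_apply, key x hx]
    refine mul_nonneg ?_ (sub_nonneg.2 (Real.cos_le_one _))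
    have y0 := Real.rpow_pos_of_pos hx (2 + η)
    have e2 : (x ^ η) ^ 2 = x ^ (η - 2) * x ^ (2 + η) := by
      rw [← rpow_two_mul _ hx, ← Real.rpow_add hx]; congr 1; ring
    have a := mul_le_mul_of_nonneg_left (ptw h0 h1 hx).1 (mul_pos h0 (kr_pos η x)).le
    refine nonneg_of_mul_nonneg_right ?_ y0
    rw [e2] at a
    simp only [hM]
    linarith
  · rw [Pi.add_apply, key x hx, ← mul_assoc]
    refine mul_le_mul_of_nonneg_right ?_ (sub_nonneg.2 (Real.cos_le_one _))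
    linarith [M0 x hx, mul_le_mul_of_nonneg_left ((ptw h0 h1 hx).2 x1)
      (mul_pos h0 (Real.rpow_pos_of_pos hx (η - 2))).le]
  · have a := neg_le_of_abs_le (abs_cosT_le iM (fun x hx => (abs_of_nonneg (M0 x hx)).le) s)
    have b := eN 0
    have c := eN s
    have d := P1 h0 h0 (a := η - 1) (b := 1 + 2 * η) (by ring) (by ring) s
    simp only [Pi.add_apply]
    rw [integral_add (i.const_mul _) j3, integral_sub j1 j2, integral_add iN iM,
      integral_add (int_cos iN s) (int_cos iM s), integral_const_mul, ← e, ← cosT, ← cosT,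
      ← cosT_zero N, ← Sr, b, c, U_eq h0, Phi, d]
    rw [eM] at a ⊢
    linarith

end S2PosX

open S2PosX

theorem U_big2 (h0 : 0 < η) (h1 : η ≤ 0.4) (hs : 5.5 ≤ s) : 0 ≤ Uf η s := by
  have s0 : 0 < s := by linarith
  obtain ⟨F, i, F0, F1, e⟩ := low h0 h1 s
  set a := 3 / s with ha
  have a0 : 0 < a := by positivity
  have a1 : a ≤ 6 / 11 := by rw [ha, div_le_iff₀ s0]; linarith
  have j1 := intervalIntegral.intervalIntegrable_rpow' (a := 0) (b := a) (r := η) (by linarith)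
  have j2 := intervalIntegral.intervalIntegrable_rpow' (a := 0) (b := a) (r := η + 2) (by linarith)
  have e1 : ∫ x in Ioc (0 : ℝ) a, 0.185 * η * (s ^ 2 / 2 * x ^ η - s ^ 4 / 24 * x ^ (η + 2)) ≤
      ∫ x in Ioi (0 : ℝ), F x := by
    refine le_trans (setIntegral_mono_on (((j1.const_mul _).sub (j2.const_mul _)).const_mul _).1
      (i.mono_set Ioc_subset_Ioi_self) measurableSet_Ioc fun x hx => ?_)
      (setIntegral_mono_set i ((ae_restrict_iff' measurableSet_Ioi).2 (Eventually.of_forall F0))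
        Ioc_subset_Ioi_self.eventuallyLE)
    have x0 : 0 < x := hx.1
    have w0 := Real.rpow_pos_of_pos x0 (η - 2)
    have c := Ball.cos_le_quartic (s * x)
    refine le_trans ?_ (F1 x x0 (by linarith [hx.2]))
    rw [show x ^ η = x ^ (η - 2) * x ^ 2 by rw [← Real.rpow_two, ← Real.rpow_add x0]; ring_nf,
      show x ^ (η + 2) = x ^ (η - 2) * x ^ 4 by
        rw [← Real.rpow_natCast, ← Real.rpow_add x0]; congr 1; push_cast; ring]
    gcongr _ * ?_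
    linarith [mul_le_mul_of_nonneg_left c w0.le]
  rw [← intervalIntegral.integral_of_le a0.le, intervalIntegral.integral_const_mul,
    intervalIntegral.integral_sub (j1.const_mul _) (j2.const_mul _),
    intervalIntegral.integral_const_mul, intervalIntegral.integral_const_mul,
    integral_rpow (Or.inl (by linarith)), integral_rpow (Or.inl (by linarith)),
    Real.zero_rpow (by linarith), Real.zero_rpow (by linarith), Real.rpow_add_one a0.ne',
    Real.rpow_add_one a0.ne', Real.rpow_add a0, Real.rpow_two] at e1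
  have sa : s * a = 3 := by rw [ha]; field_simp
  have w : 11 / 6 * (1 - 0.6062 * η) * a ≤ a ^ η := by
    have b1 := Real.rpow_le_rpow_of_nonpos a0 a1 (by linarith : η - 1 ≤ 0)
    have l : Real.log (11 / 6) ≤ 0.6062 := by
      rw [Real.log_le_iff_le_exp (by norm_num)]
      refine le_trans ?_ (Real.sum_le_exp_of_nonneg (by norm_num) 7)
      norm_num [Finset.sum_range_succ, Nat.factorial]
    have b2 : 11 / 6 * (1 - 0.6062 * η) ≤ (6 / 11 : ℝ) ^ (η - 1) := by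
      rw [Real.rpow_sub_one (by norm_num), Real.rpow_def_of_pos (by norm_num),
        show (6 / 11 : ℝ) = (11 / 6)⁻¹ by norm_num, Real.log_inv, le_div_iff₀ (by norm_num)]
      nlinarith [Real.add_one_le_exp (-Real.log (11 / 6) * η)]
    rw [Real.rpow_sub_one a0.ne'] at b1
    exact (le_div_iff₀ a0).1 (b2.trans b1)
  have w2 : 5.5 * (1 - 0.6062 * η) ≤ s * a ^ η := by
    calc _ = 11 / 6 * (1 - 0.6062 * η) * (s * a) := by rw [sa]; ring
      _ ≤ _ := by linarith [mul_le_mul_of_nonneg_left w s0.le]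
  have e2 : s ^ 2 / 2 * ((a ^ η * a - 0) / (η + 1)) -
      s ^ 4 / 24 * ((a ^ η * a ^ 2 * a - 0) / (η + 2 + 1)) =
      (s * a ^ η) * (s * a / 2 / (η + 1) - (s * a) ^ 3 / 24 / (η + 3)) := by
    field_simp; ring
  have q : 0.74 ≤ (3 : ℝ) / 2 / (η + 1) - 3 ^ 3 / 24 / (η + 3) := by
    rw [div_sub_div _ _ (by positivity) (by positivity), le_div_iff₀ (by positivity)]
    linarith [mul_nonneg h0.le (sub_nonneg.2 h1)]
  rw [e2, sa] at e1
  have f1 : 5.5 * (1 - 0.6062 * η) * 0.74 ≤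
      s * a ^ η * (3 / 2 / (η + 1) - 3 ^ 3 / 24 / (η + 3)) :=
    mul_le_mul w2 q (by norm_num) (by positivity)
  have f2 : m0 η * (η * (1.9 - 1.75 * η) * ((3 + η) * (5 + 2 * η)) / 64) ≤
      0.7325 * (η * (1.9 - 1.75 * η) * ((3 + η) * (5 + 2 * η)) / 64) := by
    have : 0 ≤ 1.9 - 1.75 * η := by linarith
    gcongr; exact m0_le2 h0 h1
  have b := bern6 h0.le h1
  have f3 : 2 * (0.7325 * ((1.9 - 1.75 * η) * ((3 + η) * (5 + 2 * η)) / 64)) ≤
      0.185 * (5.5 * (1 - 0.6062 * η) * 0.74) := by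
    linarith [b 0 3, b 1 2, b 2 1, b 3 0]
  refine nonneg_of_mul_nonneg_right ?_ s0
  linarith [mul_le_mul_of_nonneg_left f1 h0.le, mul_le_mul_of_nonneg_left f3 h0.le]

end Pool.Agent.MP_39fec4_gt.Small

end
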