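import Pool.Agent.Mg.F39fec4.G4f11da
import Pool.Agent.Mg.F39fec4.G1c551f
import Pool.Agent.Mg.F39fec4.Gc7ae94
import Pool.Agent.Mg.F39fec4.G3b4733
import Pool.Agent.Mg.F39fec4.G939844
import Pool.Agent.Mg.F39fec4.Gef3640
import Pool.Agent.Mg.F39fec4.G356cc7
import Pool.Agent.Mg.F39fec4.G63ffc2

section

set_option autoImplicit false

/-! The meaning of the upper layers of the computation. -/

namespace Pool.Agent.MP_39fec4_gt.K

open Set MeasureTheory Full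

/-- The point `s / 64`. -/
noncomputable def sR (s : ℕ) : ℝ := (s : ℝ) / 64

/-- A coordinate with twenty fractional bits. -/
noncomputable def r20 (a : ℕ) : ℝ := (a : ℝ) / 2 ^ 20

/-- The mean of the numbers `y j`. -/
noncomputable def mean {ι : Type} (T : Finset ι) (y : ι → ℝ) : ℝ := (∑ j ∈ T, y j) / T.card

/-- All the arguments lie in the first lobe. -/
def FL (B : Blk) (q : ℝ) {ι : Type} (T : Finset ι) (y : ι → ℝ) : Prop :=
  ∀ j ∈ T, 0 ≤ y j ∧ y j ≤ rr B.Z2 ∧ 0 < B.g 0 q (y j)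

/-- The number `b` is the slope of an exponential envelope on `[0, ym]`. -/
def EnvOK (B : Blk) (q : ℝ) (b ym : ℕ) : Prop :=
  ∀ v, 0 ≤ v → v ≤ rr ym → |B.g 0 q v| ≤ Real.exp (-(rr b * v))

/-- The constant of the quantitative Jensen inequality. -/
def gainC (Rg Rn : ℕ) : ℕ :=
  bif Nat.blt (max (fld Rg 56 7) (fld Rn 56 7)) INV then
    OFF - ((fld Rg 56 7 + 3 * fld Rn 56 7) / 4 + 1) else 0

/-- The integrand of a run: outer factor times product minus power at the mean. -/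
noncomputable def FE (g : ℝ → ℝ) (ho : Bool) (x1 x2 : ℝ) {ι : Type} (T : Finset ι) (x : ι → ℝ)
    (s : ℝ) : ℝ :=
  (bif ho then g (x1 * s ^ 2) * g (x2 * s ^ 2) else 1) *
    (∏ j ∈ T, g (x j * s ^ 2) - g (mean T x * s ^ 2) ^ T.card)

/-- The value of the state of a run. -/
noncomputable def PhiE (w V : ℝ) (sc sh sg : ℕ) : ℝ := w * rr sc + V * (rr sh - rr sg)

/-- The coordinates handled by a run with a fixed number of inner factors. -/
structure InE (P : EP) {ι : Type} (T : Finset ι) (x : ι → ℝ) (x1 x2 : ℝ) : Prop where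
  uni : P.uni = false
  k2 : 2 ≤ P.k
  card : T.card = P.k
  sum : rr P.ra ≤ ∑ j ∈ T, x j ∧ ∑ j ∈ T, x j ≤ rr P.rb
  rng : ∀ j ∈ T, rr P.xa0 ≤ x j ∧ x j ≤ rr P.xb1
  two : ∃ i0 ∈ T, ∃ i1 ∈ T, i0 ≠ i1 ∧ x i0 ≤ rr P.xa1 ∧ rr P.xb0 ≤ x i1
  out : P.ho = true → 0 < x1 ∧ rr P.x1l ≤ x1 ∧ x1 ≤ rr P.x1h ∧ rr P.x2l ≤ x2 ∧ x2 ≤ rr P.x2h
  pos : 0 < ∑ j ∈ T, x j
  var : Var T x ≤ rr P.Vh
  sV : P.fin = true → rr P.Vh ≤ rr P.sV ^ 2

/-- The coordinates handled by the run that is uniform in the dimension. -/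
structure InU (P : EP) {ι : Type} (T : Finset ι) (x : ι → ℝ) : Prop where
  uni : P.uni = true
  ho : P.ho = false
  k8 : 8 ≤ P.k
  card : P.k ≤ T.card
  ra : P.ra = SS
  rb : P.rb = SS
  sum : ∑ j ∈ T, x j = 1
  rng : ∀ j ∈ T, rr P.xa0 ≤ x j * T.card / P.k ∧ x j * T.card / P.k ≤ rr P.xb1
  var : Var T x * T.card ≤ rr P.Vh * P.k

/-- The situation of the second order bounds: arguments `y j` in `[a, ym]`. -/
structure HIn (B : Blk) (P : EP) (R Rn w ym tb : ℕ) (q : ℝ) {ι : Type} (T : Finset ι)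
    (y : ι → ℝ) (a : ℝ) : Prop where
  k2 : 2 ≤ P.k
  ex : P.uni = false → T.card = P.k
  un : P.uni = true → 3 ≤ P.k ∧ P.k ≤ T.card ∧ max (gAB R) (gAB w) ≤ R07
  a0 : 0 ≤ a
  rng : ∀ j ∈ T, a ≤ y j ∧ y j ≤ rr ym
  hR : ∀ v, a ≤ v → v ≤ rr ym → PtOK B R q v
  hRn : ∀ v, (a + mean T y) / 2 ≤ v → v ≤ (rr ym + mean T y) / 2 → PtOK B Rn q v
  hw : InR w (B.g 0 q (mean T y))
  var : Var T y * P.k ≤ rr tb ^ 2 * rr P.Vh * T.card

/-- The integral with two distinguished coordinates. -/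
noncomputable def IX (g : ℝ → ℝ) (x1 x2 : ℝ) {ι : Type} (T : Finset ι) (x : ι → ℝ) : ℝ :=
  ∫ s in Ioi (0 : ℝ), g (x1 * s ^ 2) * g (x2 * s ^ 2) * ∏ j ∈ T, g (x j * s ^ 2)

/-- The integrand with `k` equal coordinates, in the coordinates of the boxes. -/
noncomputable def PB (g : ℝ → ℝ) (k : ℕ) (x1 xi t : ℝ) : ℝ :=
  P3 g x1 (xi * (1 - x1)) ((1 - xi) * (1 - x1) / k) k t

noncomputable def IP (g : ℝ → ℝ) (k : ℕ) (x1 xi : ℝ) : ℝ :=
  ∫ s in Ioi (0 : ℝ), PB g k x1 xi (s ^ 2)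

/-- A point of the simplex seen from its two largest coordinates `x1` and `xi (1 - x1)`. -/
structure Pt {ι : Type} (T : Finset ι) (x : ι → ℝ) (x1 xi : ℝ) : Prop where
  p1 : 0 < x1
  l1 : x1 < 1
  p2 : 0 ≤ xi
  l2 : xi < 1
  le : xi * (1 - x1) ≤ x1
  sum : ∑ j ∈ T, x j = (1 - xi) * (1 - x1)
  rng : ∀ j ∈ T, 0 ≤ x j ∧ x j ≤ xi * (1 - x1)

/-- The number of remaining coordinates fits the class. -/
structure Cd (c : Cls) {ι : Type} (T : Finset ι) (x1 xi : ℝ) : Prop where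
  n3 : 3 ≤ c.N
  ex : c.plus = false → T.card = c.N - 2
  pl : c.plus = true → c.N - 2 ≤ T.card ∧ 2 ≤ c.N * (x1 + xi * (1 - x1))

structure Box (xl xh ya yb : ℕ) (x1 xi : ℝ) : Prop where
  x : r20 xl ≤ x1 ∧ x1 ≤ r20 xh
  y : r20 ya ≤ xi ∧ xi ≤ r20 yb

structure Wf (B : Blk) (xl xh ya yb a b : ℕ) : Prop where
  x : xl ≤ xh ∧ xh ≤ 1048576
  y : ya ≤ yb ∧ yb ≤ 1048576
  q : a ≤ b ∧ b < B.nv

/-- The meaning of the excess bounds on a box. -/
def ExcOK (B : Blk) (c : Cls) (xl xh ya yb e1 e2 : ℕ) : Prop :=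
  ∀ q ∈ B.I, ∀ (ι : Type) (T : Finset ι) (x : ι → ℝ) (x1 xi : ℝ), Pt T x x1 xi → Cd c T x1 xi →
    Box xl xh ya yb x1 xi →
    (e1 < BIG → IX (B.g 0 q) x1 (xi * (1 - x1)) T x - DG (B.g 0 q) (T.card + 2) ≤
      IP (B.g 0 q) (c.N - 2) x1 xi - DG (B.g 0 q) c.N + ro e1) ∧
    (e2 < BIG → IX (B.g 0 q) x1 (xi * (1 - x1)) T x ≤ IP (B.g 0 q) (c.N - 2) x1 xi + ro e2)

/-- The inequality to be proved on a box. -/
def BoxOK (B : Blk) (c : Cls) (xl xh ya yb a b : ℕ) : Prop :=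
  ∀ q ∈ Icc (B.q a) (B.q b), ∀ (ι : Type) (T : Finset ι) (x : ι → ℝ) (x1 xi : ℝ), Pt T x x1 xi →
    Cd c T x1 xi → Box xl xh ya yb x1 xi →
    IX (B.g 0 q) x1 (xi * (1 - x1)) T x < max (DG (B.g 0 q) (T.card + 2)) (kap B.C q)

/-- The inequality near the Ball point. -/
def BallIn (B : Blk) (rl rh dm : ℕ) : Prop :=
  ∀ q ∈ B.I, ∀ (ι : Type) (T : Finset ι) (x : ι → ℝ) (x1 x2 : ℝ), (∀ j ∈ T, 0 ≤ x j) →
    0 < ∑ j ∈ T, x j → rr rl ≤ ∑ j ∈ T, x j → ∑ j ∈ T, x j ≤ rr rh →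
    x1 + x2 + ∑ j ∈ T, x j = 1 → |x1 - x2| ≤ rr dm → IX (B.g 0 q) x1 x2 T x < kap B.C q

def BallOK (B : Blk) (bl : List (ℕ × ℕ × List ℕ)) : Prop :=
  ∀ rl rh dm, inBall bl rl rh dm = true → BallIn B rl rh dm

/-- A point near the diagonal, located by its smallest and its largest coordinate. -/
structure NearIn (n : ℕ) (uni : Bool) (a0 a1 b0 b1 : ℕ) {ι : Type} (T : Finset ι)
    (x : ι → ℝ) : Prop where
  ex : uni = false → 2 ≤ n ∧ T.card = n
  un : uni = true → 8 ≤ n ∧ n ≤ T.card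
  sum : ∑ j ∈ T, x j = 1
  nd : ∃ j ∈ T, x j ≠ 1 / (T.card : ℝ)
  mn : ∃ i ∈ T, (∀ j ∈ T, x i ≤ x j) ∧ rr a0 ≤ x i * T.card / n ∧ x i * T.card / n ≤ rr a1
  mx : ∃ i ∈ T, (∀ j ∈ T, x j ≤ x i) ∧ rr b0 ≤ x i * T.card / n ∧ x i * T.card / n ≤ rr b1

def NearOK (B : Blk) (n : ℕ) (uni : Bool) (a0 a1 b0 b1 : ℕ) : Prop :=
  ∀ q ∈ B.I, ∀ (ι : Type) (T : Finset ι) (x : ι → ℝ), NearIn n uni a0 a1 b0 b1 T x →
    IG (B.g 0 q) T x < DG (B.g 0 q) T.card

/-- The negative part of the diagonal integrand. -/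
noncomputable def ngp (g : ℝ → ℝ) (n : ℕ) (s : ℝ) : ℝ := max (-(g (s ^ 2 / n) ^ n)) 0

/-- The threshold: the Ball value or the diagonal value. -/
noncomputable def Th (B : Blk) (N : ℕ) (two : Bool) (q : ℝ) : ℝ :=
  bif two then kap B.C q else DG (B.g 0 q) N

/-- The error made when the integrand is evaluated at a corner. -/
def evE (c1 c2 c3 k : ℕ) : ℕ :=
  mulU (mulU (gAB c1 + gPe c1) (gAB c2 + gPe c2)) (powU (gAB c3 + gPe c3) k + 1) -
    mulD (mulD (gAB c1) (gAB c2)) (powD (gAB c3) k) + 1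

/-- The same on a box, at the node `t`. -/
def evB (Q : ℕ → ℕ → ℕ) (k xl xh ya yb t : ℕ) : ℕ :=
  evE (rq Q (mulD (cX1 xl) t) (mulU (cX1 xh) t)) (rq Q (mulD (cX2 xh ya) t) (mulU (cX2 xl yb) t))
    (rq Q (mulD (cR xh yb) t / k) (mulU (cR xl ya) t / k + 1)) k

/-- What a chain of blocks proves. -/
def Rng (a b : ℕ) : Prop :=
  (∀ q : ℝ, (a : ℝ) / 4096 ≤ q → q ≤ (b : ℝ) / 4096 → Core (1 / q)) ∧
    ∀ n, 3 ≤ n → Cross n ((a : ℝ) / 4096) ((b : ℝ) / 4096)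

end Pool.Agent.MP_39fec4_gt.K

end

section

set_option autoImplicit false

namespace Pool.Agent.MP_39fec4_gt.K

open Set MeasureTheory Full

variable {B : Blk} {Q : ℕ → ℕ → ℕ} {E : ℕ → ℕ} {q : ℝ} {ι : Type} {T : Finset ι}

theorem sR_nonneg (s : ℕ) : 0 ≤ sR s := by
  unfold sR; positivity

theorem sR_zero : sR 0 = 0 := by
  simp [sR]

theorem sR_mono {a b : ℕ} (h : a ≤ b) : sR a ≤ sR b := by
  unfold sR
  have : (a : ℝ) ≤ b := by exact_mod_cast h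
  linarith

theorem tS_eq (s : ℕ) : rr (tS s) = sR s ^ 2 := by
  unfold tS sR
  rw [rr_shl]
  unfold rr
  push_cast
  ring

theorem tS_mono {a b : ℕ} (h : a ≤ b) : tS a ≤ tS b := by
  rw [← rr_le, tS_eq, tS_eq]
  exact pow_le_pow_left₀ (sR_nonneg a) (sR_mono h) 2

/-- The square of a point of a cell. -/
theorem tS_mem {a b : ℕ} {u : ℝ} (h1 : sR a ≤ u) (h2 : u ≤ sR b) :
    rr (tS a) ≤ u ^ 2 ∧ u ^ 2 ≤ rr (tS b) := by
  rw [tS_eq, tS_eq]
  exact ⟨pow_le_pow_left₀ (sR_nonneg a) h1 2, pow_le_pow_left₀ ((sR_nonneg a).trans h1) h2 2⟩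

theorem dS_eq {a b : ℕ} (h : a ≤ b) : rr (dS a b) = sR b - sR a := by
  unfold dS sR
  rw [rr_shl, rr_sub h]
  unfold rr
  ring

theorem t2L_encl {a b : ℕ} (h : a ≤ b) : rr (t2L a b) ≤ (sR b ^ 3 - sR a ^ 3) / 3 ∧
    (sR b ^ 3 - sR a ^ 3) / 3 ≤ rr (t2L a b + 1) := by
  have e : (sR b ^ 3 - sR a ^ 3) / (3 : ℝ) = rr ((b ^ 3 - a ^ 3) <<< 22) / ((3 : ℕ) : ℝ) := by
    rw [rr_shl, rr_sub (Nat.pow_le_pow_left h 3)]
    unfold rr sR
    push_cast
    ring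
  rw [e]
  exact ⟨rr_div_le _ 3, (rr_div_lt _ (by norm_num)).le⟩

theorem t4L_encl {a b : ℕ} (h : a ≤ b) : rr (t4L a b) ≤ (sR b ^ 5 - sR a ^ 5) / 5 ∧
    (sR b ^ 5 - sR a ^ 5) / 5 ≤ rr (t4L a b + 1) := by
  have e : (sR b ^ 5 - sR a ^ 5) / (5 : ℝ) = rr ((b ^ 5 - a ^ 5) <<< 10) / ((5 : ℕ) : ℝ) := by
    rw [rr_shl, rr_sub (Nat.pow_le_pow_left h 5)]
    unfold rr sR
    push_cast
    ring
  rw [e]
  exact ⟨rr_div_le _ 5, (rr_div_lt _ (by norm_num)).le⟩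

theorem shl34 (s : ℕ) : rr (s <<< 34) = sR s := by
  rw [rr_shl]
  unfold rr sR
  ring

theorem shl33 (s : ℕ) : rr (s <<< 33) = sR s / 2 := by
  rw [rr_shl]
  unfold rr sR
  ring

theorem R07_le : rr R07 ≤ 0.7 := by
  unfold rr R07
  norm_num

theorem tN_eq (H m : ℕ) : rr (tN H m) = (((m : ℝ) + 1) * ((H : ℝ) / 16)) ^ 2 := by
  unfold tN
  rw [rr_shl]
  unfold rr
  push_cast
  ring

theorem tN_mono (H : ℕ) {m m' : ℕ} (h : m ≤ m') : tN H m ≤ tN H m' := by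
  rw [← rr_le, tN_eq, tN_eq]
  have : (m : ℝ) ≤ m' := by exact_mod_cast h
  gcongr

/-- Induction along a schedule. -/
theorem sweep_ind {α : Type} (sch : List ℕ)
    (cell : ℕ → ℕ → ℕ → ℕ → ℕ → (ℕ → ℕ → ℕ → α) → α) (fin : ℕ → ℕ → ℕ → ℕ → α)
    (Inv : ℕ → ℕ → ℕ → ℕ → Prop) (h0 : Inv 0 0 0 0)
    (hc : ∀ s s' a b g kk, s ≤ s' → Inv s a b g →
      ∃ a' b' g', cell s s' a b g kk = kk a' b' g' ∧ Inv s' a' b' g') :
    ∃ s a b g, sweep sch cell fin = fin s a b g ∧ Inv s a b g := by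
  have key : ∀ (l : List ℕ) s a b g, Inv s a b g → ∃ s' a' b' g',
      lf (α := ℕ → ℕ → ℕ → ℕ → α) l fin
        (fun c ih => Nat.rec (motive := fun _ => ℕ → ℕ → ℕ → ℕ → α) ih
          (fun _ ih2 s a b g => cell s (s + c % 65536) a b g fun a' b' g' =>
            ih2 (s + c % 65536) a' b' g') (c / 65536)) s a b g = fin s' a' b' g' ∧
        Inv s' a' b' g' := by
    intro l
    induction l with
    | nil => exact fun s a b g h => ⟨s, a, b, g, rfl, h⟩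
    | cons c l ih =>
      rw [lf_cons]
      generalize c / 65536 = n
      induction n with
      | zero => exact ih
      | succ n ih2 =>
        intro s a b g h
        obtain ⟨a', b', g', e, h'⟩ := hc s (s + c % 65536) a b g _ (Nat.le_add_right _ _) h
        obtain ⟨s2, a2, b2, g2, e2, h2⟩ := ih2 _ a' b' g' h'
        exact ⟨s2, a2, b2, g2, e.trans e2, h2⟩
  unfold sweep
  simp only [forceN_eq]
  exact key sch 0 0 0 0 h0

/-- Integration over one cell. -/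
theorem cell_int {F : ℝ → ℝ} (hF : IntegrableOn F (Ioi 0)) {a b c0 c2 c4 : ℝ} (h0 : 0 ≤ a)
    (hab : a ≤ b) (h : ∀ u, a ≤ u → u ≤ b → F u ≤ c0 + c2 * u ^ 2 + c4 * u ^ 4) :
    ∫ u in a..b, F u ≤ c0 * (b - a) + c2 * (b ^ 3 - a ^ 3) / 3 + c4 * (b ^ 5 - a ^ 5) / 5 :=
  int_cell hab (int_split hab (int_split h0 hF).2.1).1 h

theorem int_add {F : ℝ → ℝ} (hF : IntegrableOn F (Ioi 0)) {a b : ℝ} (h0 : 0 ≤ a) (hab : a ≤ b) :
    ∫ u in (0 : ℝ)..b, F u = (∫ u in (0 : ℝ)..a, F u) + ∫ u in a..b, F u :=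
  (intervalIntegral.integral_add_adjacent_intervals (int_split h0 hF).1
    (int_split hab (int_split h0 hF).2.1).1).symm

theorem int_all {F : ℝ → ℝ} (hF : IntegrableOn F (Ioi 0)) {a : ℝ} (h0 : 0 ≤ a) :
    ∫ u in Ioi (0 : ℝ), F u = (∫ u in (0 : ℝ)..a, F u) + ∫ u in Ioi a, F u :=
  (int_split h0 hF).2.2

/-- Integration over a rescaled cell. -/
theorem cell_scale {F : ℝ → ℝ} (hF : IntegrableOn F (Ioi 0)) {k a b c0 c4 : ℝ} (hk : 0 < k)
    (h0 : 0 ≤ a) (hab : a ≤ b) (h : ∀ u, a ≤ u → u ≤ b → k * F (k * u) ≤ c0 + c4 * u ^ 4) :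
    ∫ u in (k * a)..(k * b), F u ≤ c0 * (b - a) + c4 * (b ^ 5 - a ^ 5) / 5 := by
  have i1 := (int_rescale hk (int_split (mul_nonneg hk.le h0) hF).2.1).1
  have h1 := int_cell (c0 := c0) (c2 := 0) (c4 := c4) hab (int_split hab i1).1
    (fun u h1 h2 => by linarith [h u h1 h2])
  rw [intervalIntegral.integral_const_mul, intervalIntegral.mul_integral_comp_mul_left] at h1
  linarith

/-- Integration of a rescaled tail. -/
theorem tail_scale {F : ℝ → ℝ} (hF : IntegrableOn F (Ioi 0)) {k S A2 A3 : ℝ} (hk : 0 < k)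
    (hS : 0 < S) (h : ∀ u, S ≤ u → k * F (k * u) ≤ A2 * (S / u) ^ 2 + A3 * (S / u) ^ 3) :
    ∫ u in Ioi (k * S), F u ≤ (A2 + A3 / 2) * S := by
  obtain ⟨i1, e1⟩ := int_rescale hk (int_split (mul_pos hk hS).le hF).2.1
  rw [e1]
  exact int_tail hS i1 h

theorem cX1_eq (x : ℕ) : rr (cX1 x) = r20 x := by
  unfold cX1 r20
  rw [rr_shl]
  unfold rr
  ring

theorem cX2_eq {x : ℕ} (h : x ≤ 1048576) (xi : ℕ) : rr (cX2 x xi) = r20 xi * (1 - r20 x) := by
  unfold cX2 r20 rr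
  push_cast [Nat.cast_sub h]
  ring

theorem cR_eq {x xi : ℕ} (h : x ≤ 1048576) (h' : xi ≤ 1048576) :
    rr (cR x xi) = (1 - r20 xi) * (1 - r20 x) := by
  unfold cR r20 rr
  push_cast [Nat.cast_sub h, Nat.cast_sub h']
  ring

theorem Box.bounds {xl xh ya yb : ℕ} {x1 xi : ℝ} (h : Box xl xh ya yb x1 xi) (h1 : x1 ≤ 1)
    (h2 : xi ≤ 1) : rr (cX1 xl) ≤ x1 ∧ x1 ≤ rr (cX1 xh) ∧ rr (cX2 xh ya) ≤ xi * (1 - x1) ∧
      xi * (1 - x1) ≤ rr (cX2 xl yb) ∧ rr (cR xh yb) ≤ (1 - xi) * (1 - x1) ∧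
      (1 - xi) * (1 - x1) ≤ rr (cR xl ya) := by
  have le20 : ∀ a : ℕ, r20 a ≤ 1 → a ≤ 1048576 := fun a ha => by
    unfold r20 at ha
    rw [div_le_one (by positivity)] at ha
    have : (a : ℝ) ≤ (1048576 : ℕ) := by push_cast; linarith
    exact_mod_cast this
  have p20 : ∀ a : ℕ, 0 ≤ r20 a := fun a => by unfold r20; positivity
  obtain ⟨⟨a1, a2⟩, b1, b2⟩ := h
  have hl := le20 xl (a1.trans h1)
  have ha := le20 ya (b1.trans h2)
  have c1 : 0 ≤ 1 - x1 := by linarith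
  have c2 : 0 ≤ 1 - xi := by linarith
  have c3 : 0 ≤ xi := (p20 ya).trans b1
  refine ⟨by rwa [cX1_eq], by rwa [cX1_eq], ?_, ?_, ?_, ?_⟩
  · rcases le_total xh 1048576 with hh | hh
    · rw [cX2_eq hh]
      have := p20 ya
      nlinarith [mul_le_mul_of_nonneg_left a2 (p20 ya), mul_le_mul_of_nonneg_right b1 c1]
    · unfold cX2
      rw [Nat.sub_eq_zero_of_le hh, Nat.mul_zero, rr_zero]
      positivity
  · rw [cX2_eq hl]
    exact mul_le_mul b2 (by linarith) c1 (p20 yb)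
  · rcases le_total xh 1048576 with hh | hh
    · rcases le_total yb 1048576 with hb | hb
      · rw [cR_eq hh hb]
        have d1 : 0 ≤ 1 - r20 xh := by
          have : (xh : ℝ) ≤ (1048576 : ℕ) := by exact_mod_cast hh
          unfold r20
          rw [sub_nonneg, div_le_one (by positivity)]
          push_cast at this
          linarith
        exact mul_le_mul (by linarith) (by linarith) d1 c2
      · unfold cR
        rw [Nat.sub_eq_zero_of_le hb, Nat.zero_mul, rr_zero]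
        positivity
    · unfold cR
      rw [Nat.sub_eq_zero_of_le hh, Nat.mul_zero, rr_zero]
      positivity
  · rw [cR_eq hl ha]
    exact mul_le_mul (by linarith) (by linarith) c1 (by linarith)

theorem mean_mul (T : Finset ι) (x : ι → ℝ) (t : ℝ) :
    mean T (fun j => x j * t) = mean T x * t := by
  unfold mean
  rw [← Finset.sum_mul]
  ring

/-- Jensen's inequality on the first lobe. -/
theorem FL.jensen (h : BOK B Q E) (hq : q ∈ B.I) {y : ι → ℝ} (hT : T.Nonempty) (hy : FL B q T y) :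
    ∏ j ∈ T, B.g 0 q (y j) ≤ B.g 0 q (mean T y) ^ T.card :=
  ((h.hd q hq).jensen (h.sc.sm_g hq) T hT y hy).1

theorem FL.of_le (h : BOK B Q E) (hq : q ∈ B.I) {y : ι → ℝ}
    (hy : ∀ j ∈ T, 0 ≤ y j ∧ y j ≤ rr B.z2) : FL B q T y := fun j hj =>
  ⟨(hy j hj).1, (hy j hj).2.trans ((h.hd q hq).z1.trans (h.hd q hq).z3),
    (h.hd q hq).pos _ (hy j hj).1 (hy j hj).2⟩

theorem BOK.envOK (h : BOK B Q E) (hq : q ∈ B.I) (ym : ℕ) : EnvOK B q (envb E ym) ym :=
  (h.env ym).2 q hq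

theorem BOK.z2_le (h : BOK B Q E) : B.z2 ≤ B.Z2 ∧ 2 * B.z2 ≤ BIG := by
  have hd := h.hd _ (h.sc.q_mem (v := 0) (by have := h.sc.nv; omega))
  have h1 : B.z2 ≤ B.Z2 := rr_le.1 (hd.z1.trans hd.z3)
  have h2 := h.zc
  have h3 := h.yc
  refine ⟨h1, ?_⟩
  unfold BIG
  omega

theorem YSweepX.g_le (hs : ScalOK B) (hq : q ∈ B.I) (y : ℝ) : |B.g 0 q y| ≤ 1 :=
  FLinkX.abs_gg_le hs.C_pos (hs.q_pos hq).1 y

theorem YSweepX.prod_le (hs : ScalOK B) (hq : q ∈ B.I) (T : Finset ι) (y : ι → ℝ) :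
    |∏ j ∈ T, B.g 0 q (y j)| ≤ 1 := by
  rw [Finset.abs_prod]
  exact Finset.prod_le_one (fun _ _ => abs_nonneg _) fun _ _ => YSweepX.g_le hs hq _

theorem int_pow (hs : ScalOK B) (hq : q ∈ B.I) {m : ℝ} (hm : 0 < m) {k : ℕ} (hk : 1 ≤ k) :
    IntegrableOn (fun s : ℝ => B.g 0 q (m * s ^ 2) ^ k) (Ioi 0) := by
  have := int_IG hs.C_pos (hs.q_pos hq).1 (hs.q_pos hq).2 (Finset.range k) (fun _ => m)
    (fun _ _ => hm.le) (Finset.mem_range.2 hk) hm
  simp only [Finset.prod_const, Finset.card_range] at this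
  exact this

theorem YSweepX.int_two (hs : ScalOK B) (hq : q ∈ B.I) {x : ι → ℝ} (h0 : ∀ j ∈ T, 0 ≤ x j)
    (hp : 0 < ∑ j ∈ T, x j) :
    IntegrableOn (fun s : ℝ => ∏ j ∈ T, B.g 0 q (x j * s ^ 2)) (Ioi 0) ∧
      IntegrableOn (fun s : ℝ => B.g 0 q (mean T x * s ^ 2) ^ T.card) (Ioi 0) := by
  obtain ⟨i, hi, h1⟩ : ∃ i ∈ T, 0 < x i := by
    by_contra hc
    push Not at hc
    exact absurd (Finset.sum_nonpos hc) (not_le.2 hp)
  have hk : 1 ≤ T.card := Finset.card_pos.2 ⟨i, hi⟩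
  have hk' : (0 : ℝ) < T.card := by exact_mod_cast hk
  exact ⟨int_IG hs.C_pos (hs.q_pos hq).1 (hs.q_pos hq).2 T x h0 hi h1,
    int_pow hs hq (div_pos hp hk') hk⟩

theorem int_IX (hs : ScalOK B) (hq : q ∈ B.I) {x1 : ℝ} (h1 : 0 < x1) (x2 : ℝ) (T : Finset ι)
    (x : ι → ℝ) : IntegrableOn (fun s : ℝ => B.g 0 q (x1 * s ^ 2) * B.g 0 q (x2 * s ^ 2) *
      ∏ j ∈ T, B.g 0 q (x j * s ^ 2)) (Ioi 0) := by
  have c : Continuous (B.g 0 q) := (hs.sm_g hq).c0
  simp only [mul_assoc]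
  refine int_mul_gg hs.C_pos (hs.q_pos hq).1 (hs.q_pos hq).2 h1 (B := 1) (by fun_prop) fun s => ?_
  rw [abs_mul]
  exact mul_le_one₀ (YSweepX.g_le hs hq _) (abs_nonneg _) (YSweepX.prod_le hs hq T _)

theorem int_PB (hs : ScalOK B) (hq : q ∈ B.I) {x1 : ℝ} (h1 : 0 < x1) (xi : ℝ) (k : ℕ) :
    IntegrableOn (fun s : ℝ => PB (B.g 0 q) k x1 xi (s ^ 2)) (Ioi 0) := by
  have := int_IX hs hq h1 (xi * (1 - x1)) (Finset.range k) (fun _ => (1 - xi) * (1 - x1) / k)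
  simp only [Finset.prod_const, Finset.card_range] at this
  exact this

theorem int_FE_out (hs : ScalOK B) (hq : q ∈ B.I) {x1 : ℝ} (h1 : 0 < x1) (x2 : ℝ) (T : Finset ι)
    (x : ι → ℝ) : IntegrableOn (FE (B.g 0 q) true x1 x2 T x) (Ioi 0) := by
  have i1 := int_IX hs hq h1 x2 T x
  have i2 := int_IX hs hq h1 x2 T (fun _ => mean T x)
  simp only [Finset.prod_const] at i2
  refine IntegrableOn.congr_fun (i1.sub i2) (fun s _ => ?_) measurableSet_Ioi
  simp only [FE, Pi.sub_apply, cond_true]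
  ring

theorem int_FE_in (hs : ScalOK B) (hq : q ∈ B.I) (x1 x2 : ℝ) {x : ι → ℝ} (h0 : ∀ j ∈ T, 0 ≤ x j)
    (hp : 0 < ∑ j ∈ T, x j) : IntegrableOn (FE (B.g 0 q) false x1 x2 T x) (Ioi 0) := by
  obtain ⟨i1, i2⟩ := YSweepX.int_two hs hq h0 hp
  refine IntegrableOn.congr_fun (i1.sub i2) (fun s _ => ?_) measurableSet_Ioi
  simp only [FE, Pi.sub_apply, cond_false, one_mul]

theorem InE.int (hs : ScalOK B) (hq : q ∈ B.I) {P : EP} {x : ι → ℝ} {x1 x2 : ℝ}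
    (h : InE P T x x1 x2) : IntegrableOn (FE (B.g 0 q) P.ho x1 x2 T x) (Ioi 0) := by
  cases ho : P.ho with
  | true => exact int_FE_out hs hq (h.out ho).1 x2 T x
  | false =>
    exact int_FE_in hs hq x1 x2 (fun j hj => (rr_nonneg _).trans (h.rng j hj).1) h.pos

theorem InU.int (hs : ScalOK B) (hq : q ∈ B.I) {P : EP} {x : ι → ℝ} (h : InU P T x) :
    IntegrableOn (FE (B.g 0 q) false 0 0 T x) (Ioi 0) := by
  have hk : (0 : ℝ) < P.k := by
    have := h.k8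
    exact_mod_cast (by omega : 0 < P.k)
  have hc : (0 : ℝ) < T.card := by
    have := h.k8
    have := h.card
    exact_mod_cast (by omega : 0 < T.card)
  refine int_FE_in hs hq 0 0 (fun j hj => ?_) (by rw [h.sum]; exact one_pos)
  have h1 := (rr_nonneg _).trans (h.rng j hj).1
  rw [le_div_iff₀ hk, zero_mul] at h1
  exact nonneg_of_mul_nonneg_left h1 hc

theorem IX_sub (hs : ScalOK B) (hq : q ∈ B.I) {x : ι → ℝ} {x1 xi : ℝ} (h : Pt T x x1 xi) :
    IX (B.g 0 q) x1 (xi * (1 - x1)) T x - IP (B.g 0 q) T.card x1 xi =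
      ∫ s in Ioi (0 : ℝ), FE (B.g 0 q) true x1 (xi * (1 - x1)) T x s := by
  unfold IX IP
  rw [← integral_sub (int_IX hs hq h.p1 _ T x) (int_PB hs hq h.p1 xi _)]
  refine setIntegral_congr_fun measurableSet_Ioi fun s _ => ?_
  simp only [FE, PB, P3, mean, h.sum, cond_true]
  ring

theorem IG_sub (hs : ScalOK B) (hq : q ∈ B.I) {x : ι → ℝ} (h0 : ∀ j ∈ T, 0 ≤ x j)
    (h1 : ∑ j ∈ T, x j = 1) (x1 x2 : ℝ) : IG (B.g 0 q) T x - DG (B.g 0 q) T.card =
      ∫ s in Ioi (0 : ℝ), FE (B.g 0 q) false x1 x2 T x s := by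
  obtain ⟨i1, i2⟩ := YSweepX.int_two hs hq h0 (by rw [h1]; exact one_pos)
  have e : ∀ s : ℝ, mean T x * s ^ 2 = s ^ 2 / T.card := fun s => by
    rw [mean, h1]; ring
  unfold IG DG
  simp only [← e]
  rw [← integral_sub i1 i2]
  refine setIntegral_congr_fun measurableSet_Ioi fun s _ => ?_
  simp only [FE, cond_false, one_mul]

end Pool.Agent.MP_39fec4_gt.K

end

section

set_option autoImplicit false

namespace Pool.Agent.MP_39fec4_gt.K

open Set MeasureTheory Full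

variable {B : Blk} {Q : ℕ → ℕ → ℕ} {E : ℕ → ℕ} {q : ℝ} {ι : Type} {T : Finset ι}

namespace YEnvX

theorem exp_le {b tl c : ℕ} {de : ℝ} (hc : de = 0 ∨ c ≤ tl) :
    1 ≤ rr (expU (mulD b (tl - c))) * Real.exp (-(rr b * de)) ∨
      Real.exp (-(rr b * (rr tl + de - rr c))) ≤
        rr (expU (mulD b (tl - c))) * Real.exp (-(rr b * de)) := by
  have h1 := le_expU (mulD_le b (tl - c))
  by_cases h : c ≤ tl
  · right
    rw [rr_sub h] at h1
    rw [show -(rr b * (rr tl + de - rr c)) = -(rr b * (rr tl - rr c)) + -(rr b * de) by ring,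
      Real.exp_add]
    exact mul_le_mul_of_nonneg_right h1 (Real.exp_pos _).le
  · left
    rw [hc.resolve_right h, mul_zero, neg_zero, Real.exp_zero, mul_one]
    rwa [show rr (tl - c) = 0 by rw [Nat.sub_eq_zero_of_le (not_le.1 h).le, rr_zero], mul_zero,
      neg_zero, Real.exp_zero] at h1

theorem mkCB (h : BOK B Q E) (hq : q ∈ B.I) {y : ι → ℝ} {b ym tl ng : ℕ} {de A : ℝ}
    (hb : EnvOK B q b ym) (hy : ∀ j ∈ T, 0 ≤ y j ∧ y j ≤ rr ym)
    (hl : rr tl + de ≤ ∑ j ∈ T, y j) (h2 : de = 0 ∨ 2 * ym ≤ tl)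
    (hng : ∀ j ∈ T, -rr ng ≤ B.g 0 q (y j)) (hA : ∀ j ∈ T, |B.g 0 q (y j)| ≤ A) :
    CB (B.g 0 q) T y (rr B.z2) (rr ym) (rr tl + de) (∑ j ∈ T, y j) (rr b) A (rr ng)
      (rr (expU (mulD b tl)) * Real.exp (-(rr b * de)))
      (rr (expU (mulD b (tl - ym))) * Real.exp (-(rr b * de)))
      (rr (expU (mulD b (tl - 2 * ym))) * Real.exp (-(rr b * de))) where
  bd := (h.sc.sm_g hq).bd
  pos := (h.hd q hq).pos
  hy := hy
  hs := ⟨hl, le_rfl⟩
  b0 := rr_nonneg b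
  env := hb
  hB := hA
  hng := hng
  ng0 := rr_nonneg ng
  he0 := by
    simpa only [Nat.sub_zero, rr_zero, sub_zero] using
      exp_le (b := b) (tl := tl) (c := 0) (de := de) (Or.inr (Nat.zero_le _))
  he1 := exp_le (h2.imp_right fun _ => by omega)
  he2 := by simpa only [rr_nmul, Nat.cast_ofNat] using exp_le (b := b) h2

theorem tail (h : BOK B Q E) (hq : q ∈ B.I) (v : ℝ) (hv : rr B.Z2 ≤ v) :
    |B.g 0 q v| ≤ rr (gAB (rqI Q B.Z2)) :=
  ((h.qok.rqI B.Z2 v).pt q hq v ((rr_nonneg _).trans hv) hv le_rfl).inR.abs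

theorem min_or {p : ℝ} {a b : ℕ} {F : Prop} (h1 : p ≤ rr a ∨ F) (h2 : p ≤ rr b ∨ F) :
    p ≤ rr (min a b) ∨ F := by
  rw [rr_min]
  rcases h1 with h1 | h1
  exacts [h2.imp_left (le_min h1), Or.inr h1]

theorem min_le {a b c : ℕ} {X : ℝ} (hX : 0 ≤ X) (h : min a b ≤ c) :
    rr a * X ≤ rr c * X ∨ rr b * X ≤ rr c * X :=
  (min_le_iff.1 h).imp (fun h => mul_le_mul_of_nonneg_right (rr_le.2 h) hX)
    fun h => mul_le_mul_of_nonneg_right (rr_le.2 h) hX

theorem neg_le_AB (r : ℕ) : -rr (gAB r) ≤ -rr (gNeg r) ∧ rr (gHip r) ≤ rr (gAB r) := by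
  rw [gAB_eq]
  exact ⟨neg_le_neg (rr_le.2 (le_max_left _ _)), rr_le.2 (le_max_right _ _)⟩

theorem lo2_le {P : EP} {x : ι → ℝ} {x1 x2 : ℝ} (hP : InE P T x x1 x2) {i j : ι} (hi : i ∈ T)
    (hx : x i ≤ rr P.xa1) (hj : j ∈ T) (hne : j ≠ i) :
    rr (max P.xa0 (P.ra - P.xa1 - (P.k - 2) * P.xb1)) ≤ x j := by
  classical
  have h0 := (rr_nonneg _).trans (hP.rng j hj).1
  have hj' : j ∈ T.erase i := Finset.mem_erase.2 ⟨hne, hj⟩
  have h1 := Finset.add_sum_erase T x hi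
  have h2 := Finset.add_sum_erase _ x hj'
  have h3 := Finset.sum_le_card_nsmul ((T.erase i).erase j) x (rr P.xb1) fun l hl =>
    (hP.rng l (Finset.mem_of_mem_erase (Finset.mem_of_mem_erase hl))).2
  rw [Finset.card_erase_of_mem hj', Finset.card_erase_of_mem hi, hP.card, nsmul_eq_mul,
    Nat.sub_sub, ← rr_nmul] at h3
  have h4 := rr_nonneg ((P.k - 2) * P.xb1)
  rw [rr_max, rr_sub_eq, rr_sub_eq]
  refine max_le (hP.rng j hj).1 (max_le ?_ h0)
  rw [sub_le_iff_le_add]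
  exact max_le (by linarith [hP.sum.1]) (by linarith)

end YEnvX

open YEnvX

/-- The envelope bound with a slack `de` in the sum of the arguments. -/
theorem envUp_spec (h : BOK B Q E) (hq : q ∈ B.I) {y : ι → ℝ} {b ym tl th ng : ℕ} {de : ℝ}
    (hb : EnvOK B q b ym) (hy : ∀ j ∈ T, 0 ≤ y j ∧ y j ≤ rr ym)
    (hl : rr tl + de ≤ ∑ j ∈ T, y j) (hh : ∑ j ∈ T, y j ≤ rr th ∨ 2 * B.z2 ≤ th) (h0 : 0 ≤ de)
    (h2 : de = 0 ∨ 2 * ym ≤ tl) (hng : ∀ j ∈ T, -rr ng ≤ B.g 0 q (y j)) :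
    ∏ j ∈ T, B.g 0 q (y j) ≤ rr (envUp B Q b ym tl th ng) * Real.exp (-(rr b * de)) ∨
      FL B q T y := by
  classical
  have C := mkCB h hq hb hy hl h2 hng fun j hj => (h.sc.sm_g hq).bd _ (hy j hj).1
  have hX := (Real.exp_pos (-(rr b * de))).le
  simp only [envUp, forceN_eq]
  refine C.up (mul_nonneg (rr_nonneg _) hX) (tail h hq) ?_ ?_
  · by_cases h3 : th < 2 * B.z2
    · have := rr_lt.2 h3
      rw [rr_nmul, Nat.cast_ofNat] at this
      exact Or.inl ((hh.resolve_right h3.not_ge).trans_lt this)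
    by_cases h4 : ym ≤ B.z2
    · exact Or.inr (Or.inl (rr_le.2 h4))
    rw [show (Nat.blt th (2 * B.z2) || Nat.ble ym B.z2) = false by
      simpa only [← Bool.not_eq_true, Bool.or_eq_true, Nat.blt_eq, Nat.ble_eq] using
        not_or.2 ⟨h3, h4⟩, cond_false]
    rcases min_le hX (le_max_left _ _) with h5 | h5
    · exact Or.inr (Or.inr (Or.inl h5))
    · refine Or.inr (Or.inr (Or.inr (Or.inl (le_trans ?_ h5))))
      rw [← mul_assoc, sq]
      exact mul_le_mul_of_nonneg_right (le_mulU (mulU_ge _ _) le_rfl (rr_nonneg _)) hX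
  · by_cases h4 : ym ≤ B.Z2
    · exact Or.inl (rr_le.2 h4)
    rw [show Nat.ble ym B.Z2 = false by simpa only [← Bool.not_eq_true, Nat.ble_eq] using h4,
      cond_false]
    rcases min_le hX (le_max_right _ _) with h5 | h5
    · exact Or.inr (Or.inl h5)
    · refine Or.inr (Or.inr (Or.inl (le_trans ?_ h5)))
      rw [← mul_assoc]
      exact mul_le_mul_of_nonneg_right (mulU_ge _ _) hX

theorem envDn_spec (h : BOK B Q E) (hq : q ∈ B.I) {y : ι → ℝ} {b ym tl ng : ℕ}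
    (hb : EnvOK B q b ym) (hy : ∀ j ∈ T, 0 ≤ y j ∧ y j ≤ rr ym) (hl : rr tl ≤ ∑ j ∈ T, y j)
    (hng : ∀ j ∈ T, -rr ng ≤ B.g 0 q (y j)) :
    -rr (envDn B b ym tl ng) ≤ ∏ j ∈ T, B.g 0 q (y j) := by
  classical
  have C := mkCB (de := 0) h hq hb hy (by rwa [add_zero]) (Or.inl rfl) hng
    fun j hj => (h.sc.sm_g hq).bd _ (hy j hj).1
  simp only [mul_zero, neg_zero, Real.exp_zero, mul_one] at C
  refine C.dn (rr_nonneg _) ?_
  by_cases h4 : ym ≤ B.z2
  · exact Or.inl (rr_le.2 h4)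
  rw [envDn, show Nat.ble ym B.z2 = false by
    simpa only [← Bool.not_eq_true, Nat.ble_eq] using h4, cond_false]
  rcases min_le_iff.1 (le_refl (min (expU (mulD b tl)) (mulU ng (expU (mulD b (tl - ym)))))) with
    h5 | h5
  · exact Or.inr (Or.inl (rr_le.2 h5))
  · exact Or.inr (Or.inr (Or.inl ((mulU_ge _ _).trans (rr_le.2 h5))))

theorem negPow_spec (h : BOK B Q E) (hq : q ∈ B.I) {y : ι → ℝ} {R : ℕ} (hy : ∀ j ∈ T, 0 ≤ y j)
    (hR : ∀ j ∈ T, InR R (B.g 0 q (y j))) :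
    -rr (mulU (gNeg R) (powU (gAB R) (T.card - 1))) ≤ ∏ j ∈ T, B.g 0 q (y j) := by
  classical
  by_cases h0 : ∏ j ∈ T, B.g 0 q (y j) < 0
  · obtain ⟨j, hj, h1⟩ := FCrudeX.exists_neg T _ h0
    have h2 := FCrudeX.abs_pow (T.erase j) (fun j => B.g 0 q (y j))
      fun i hi => (hR i (Finset.mem_of_mem_erase hi)).abs
    rw [Finset.card_erase_of_mem hj] at h2
    have h3 := FCrudeX.one_out T (fun j => B.g 0 q (y j)) hj (a := rr (gNeg R))
      (abs_le.2 ⟨(hR j hj).neg, h1.le.trans (rr_nonneg _)⟩) (h2.trans (powU_ge _ _))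
    exact (neg_le_neg (mulU_ge _ _)).trans (abs_le.1 h3).1
  · exact (neg_nonpos.2 (rr_nonneg _)).trans (not_lt.1 h0)

theorem crUp_spec (h : BOK B Q E) (hq : q ∈ B.I) {P : EP} {x : ι → ℝ} {x1 x2 : ℝ}
    (hP : InE P T x x1 x2) {ta tb : ℕ} {t : ℝ} (h1 : rr ta ≤ t) (h2 : t ≤ rr tb) :
    ∏ j ∈ T, B.g 0 q (x j * t) ≤ rr (crUp B Q P (rq Q (mulD P.xa0 ta) (mulU P.xb1 tb))
      (envb E (mulU P.xb1 tb)) ta tb (mulD P.xa0 ta) (mulU P.xb1 tb) (mulD P.ra ta)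
      (mulU P.rb tb)) ∨ FL B q T fun j => x j * t := by
  classical
  obtain ⟨i0, m0, i1, m1, ne, a0, a1⟩ := hP.two
  have t0 := (rr_nonneg _).trans h1
  have hy : ∀ j ∈ T, 0 ≤ x j * t ∧ x j * t ≤ rr (mulU P.xb1 tb) := fun j hj =>
    ⟨mul_nonneg ((rr_nonneg _).trans (hP.rng j hj).1) t0, le_mulU (hP.rng j hj).2 h2 t0⟩
  have rc : ∀ j ∈ T, ∀ a b : ℕ, rr a ≤ x j → x j * t ≤ rr b →
      InR (rq Q (mulD a ta) b) (B.g 0 q (x j * t)) := fun j hj a b ha hb =>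
    ((h.qok.rq _ b).pt q hq _ (hy j hj).1 (mulD_le_of ha h1) hb).inR
  have hR := fun j hj => rc j hj _ _ (hP.rng j hj).1 (hy j hj).2
  have ha := rc i0 m0 _ (min (mulU P.xb1 tb) (mulU P.xa1 tb)) (hP.rng i0 m0).1
    (by rw [rr_min]; exact le_min (hy i0 m0).2 (le_mulU a0 h2 t0))
  have hm := fun j hj hne => rc j hj _ _ (lo2_le hP m0 a0 hj hne) (hy j hj).2
  have hb := rc i1 m1 (max (max P.xa0 (P.ra - P.xa1 - (P.k - 2) * P.xb1)) P.xb0) _
    (by rw [rr_max]; exact max_le (lo2_le hP m0 a0 m1 ne.symm) a1) (hy i1 m1).2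
  have hl : rr (mulD P.ra ta) + 0 ≤ ∑ j ∈ T, x j * t := by
    rw [← Finset.sum_mul, add_zero]
    exact mulD_le_of hP.sum.1 h1
  have hh : ∑ j ∈ T, x j * t ≤ rr (mulU P.rb tb) := by
    rw [← Finset.sum_mul]
    exact le_mulU hP.sum.2 h2 t0
  have hE : EnvOK B q (envb E (mulU P.xb1 tb)) (mulU P.xb1 tb) := (h.env _).2 q hq
  have e1 := envUp_spec h hq hE hy hl (Or.inl hh) le_rfl (Or.inl rfl) fun j hj => (hR j hj).neg
  have C := mkCB h hq hE hy hl (Or.inl rfl) (fun j hj => (hR j hj).neg) fun j hj => (hR j hj).abs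
  rw [mul_zero, neg_zero, Real.exp_zero, mul_one] at e1
  simp only [crUp, forceN_eq]
  generalize rq Q (mulD P.xa0 ta) (mulU P.xb1 tb) = R at hR e1 C ⊢
  generalize rq Q (mulD P.xa0 ta) (min (mulU P.xb1 tb) (mulU P.xa1 tb)) = ra at ha ⊢
  generalize rq Q (mulD (max (max P.xa0 (P.ra - P.xa1 - (P.k - 2) * P.xb1)) P.xb0) ta)
    (mulU P.xb1 tb) = rb at hb ⊢
  generalize rq Q (mulD (max P.xa0 (P.ra - P.xa1 - (P.k - 2) * P.xb1)) ta) (mulU P.xb1 tb) = rm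
    at hm ⊢
  generalize envUp B Q _ _ _ _ _ = eu at e1 ⊢
  generalize mulU P.xb1 tb = ym at hy C ⊢
  have A : AB (B.g 0 q) T (fun j => x j * t) i0 i1 (-rr (gNeg ra)) (rr (gHip ra)) (-rr (gNeg rb))
      (rr (gHip rb)) (-rr (gNeg rm)) (rr (gHip rm)) (rr (gAB ra)) (rr (gAB rb)) (rr (gAB rm))
      (rr (max (gNeg rm) (gNeg rb))) :=
    ⟨m0, m1, ne, ⟨ha.neg, ha.hip⟩, ⟨hb.neg, hb.hip⟩,
      fun j hj h0 _ => ⟨(hm j hj h0).neg, (hm j hj h0).hip⟩, neg_le_AB _, neg_le_AB _, neg_le_AB _,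
      rr_nonneg _, rr_nonneg _, neg_le_neg (rr_le.2 (le_max_right _ _)),
      neg_le_neg (rr_le.2 (le_max_left _ _))⟩
  have e2 : ∏ j ∈ T, B.g 0 q (x j * t) ≤ rr (bif Nat.ble ym B.Z2 then
      mulU (mulU (gNeg R) (gNeg R)) (powU (gAB R) (P.k - 2)) else powU (gAB R) P.k) ∨
      FL B q T fun j => x j * t := by
    cases h4 : Nat.ble ym B.Z2
    · have := FCrudeX.abs_pow T (fun j => B.g 0 q (x j * t)) fun j hj => (hR j hj).abs
      rw [hP.card] at this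
      exact Or.inl ((le_abs_self _).trans (this.trans (powU_ge _ _)))
    · refine C.up (rr_nonneg _) (tail h hq) (Or.inr (Or.inr (Or.inr (Or.inr ?_))))
        (Or.inl (rr_le.2 (Nat.le_of_ble_eq_true h4)))
      rw [hP.card, sq]
      exact le_mulU (mulU_ge _ _) (powU_ge _ _) (pow_nonneg (rr_nonneg _) _)
  have e3 := A.abs_le
  rw [hP.card] at e3
  have e4 := min_or (min_or e1 e2) (Or.inl ((le_abs_self _).trans (e3.trans
    (le_mulU (mulU_ge _ _) (powU_ge _ _) (pow_nonneg (rr_nonneg _) _)))))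
  have z : ∀ a : ℕ, Nat.beq a 0 = true → rr a = 0 := fun a e => by
    rw [Nat.eq_of_beq_eq_true e, rr_zero]
  cases h5 : Nat.beq (gNeg ra) 0 && Nat.beq (gHip rb) 0 && Nat.beq (gHip rm) 0 && ev P.k
  · cases h6 : Nat.ble ym B.Z2 && Nat.beq (gNeg ra) 0
    · exact e4
    rw [Bool.and_eq_true] at h6
    have h7 : ∀ j ∈ T, 0 ≤ x j * t ∧ x j * t ≤ rr B.Z2 := fun j hj =>
      ⟨(hy j hj).1, (hy j hj).2.trans (rr_le.2 (Nat.le_of_ble_eq_true h6.1))⟩
    have h8 : 0 ≤ -rr (gNeg ra) := by rw [z _ h6.2, neg_zero]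
    cases h9 : Nat.beq P.k 2
    · refine min_or e4 (A.two h8 h7 (rr_nonneg _) (Or.inr ?_))
      rw [hP.card, ← rr_max, sq]
      exact le_mulU (le_mulU' le_rfl (mulU_ge _ _) (rr_nonneg _)) (powU_ge _ _)
        (pow_nonneg (rr_nonneg _) _)
    · exact A.two h8 h7 (rr_nonneg _) (Or.inl (hP.card.trans (Nat.eq_of_beq_eq_true h9)))
  · simp only [Bool.and_eq_true, ev_iff] at h5
    exact Or.inl ((A.par (by rw [z _ h5.1.1.1, neg_zero]) (z _ h5.1.1.2).le (z _ h5.1.2).le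
      (hP.card ▸ h5.2)).trans (rr_nonneg _))

theorem prodLo_spec (h : BOK B Q E) (hq : q ∈ B.I) {y : ι → ℝ} {R ym th : ℕ}
    (hy : ∀ j ∈ T, 0 ≤ y j ∧ y j ≤ rr ym) (hh : ∑ j ∈ T, y j ≤ rr th)
    (hR : InR R (B.g 0 q (rr ym))) (h0 : 0 < prodLo B R ym th) :
    rr (prodLo B R ym th) ≤ ∏ j ∈ T, B.g 0 q (y j) := by
  have hs := h.sc.sm_g hq
  refine ZFineX.max_le_of (fun h1 => ?_) (fun h1 => ?_) (Or.inl h0)
  · rw [rr_sub (Nat.lt_of_sub_pos h1).le, rr_SS]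
    exact le_trans (by linarith [le_mulU' le_rfl hh (rr_nonneg B.lamh)])
      (prod_ge_lin hs (h.lin q hq) T y fun j hj => (hy j hj).1)
  cases h2 : Nat.ble ym B.z2 && Nat.blt 0 ym && Nat.ble (th / ym) 200
  · rw [h2] at h1
    exact absurd h1 (lt_irrefl 0)
  rw [h2] at h1
  simp only [Bool.and_eq_true, Nat.ble_eq, Nat.blt_eq] at h2
  have h3 : 0 < gLop R := Nat.pos_of_ne_zero fun e => by
    have := (rr_pos h1).trans_le (powD_le _ _)
    rw [e, rr_zero, zero_pow (Nat.succ_ne_zero _)] at this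
    exact lt_irrefl _ this
  refine (powD_le_of (hR.lop (Or.inl h3)) _).trans ?_
  have H := h.hd q hq
  have m0 := rr_pos h2.1.2
  have m1 := rr_le.2 h2.1.1
  have g0 := H.pos _ m0.le m1
  have gp : ∀ j ∈ T, 0 < B.g 0 q (y j) := fun j hj => H.pos _ (hy j hj).1 ((hy j hj).2.trans m1)
  have l0 : Real.log (B.g 0 q (rr ym)) ≤ 0 :=
    Real.log_nonpos g0.le ((le_abs_self _).trans (hs.bd _ m0.le))
  have l1 : ∀ j ∈ T, y j / rr ym * Real.log (B.g 0 q (rr ym)) ≤ Real.log (B.g 0 q (y j)) := by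
    intro j hj
    have := (H.logconc hs).2 (⟨m0.le, m1⟩ : rr ym ∈ Icc 0 (rr B.z2))
      (⟨le_rfl, H.z0.le⟩ : (0 : ℝ) ∈ Icc 0 (rr B.z2)) (div_nonneg (hy j hj).1 m0.le)
      (sub_nonneg.2 ((div_le_one m0).2 (hy j hj).2)) (add_sub_cancel _ _)
    simpa only [smul_eq_mul, mul_zero, add_zero, hs.z, Real.log_one,
      div_mul_cancel₀ _ m0.ne'] using this
  have l2 := Finset.sum_le_sum l1
  rw [← Finset.sum_mul, ← Finset.sum_div, ← Real.log_prod fun j hj => (gp j hj).ne'] at l2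
  have l3 : (∑ j ∈ T, y j) / rr ym ≤ (th / ym + 1 : ℕ) := by
    rw [div_le_iff₀ m0, ← rr_nmul, mul_comm]
    exact hh.trans (rr_le.2 (Nat.lt_mul_div_succ th h2.1.2).le)
  rw [← Real.log_le_log_iff (pow_pos g0 _) (Finset.prod_pos gp), Real.log_pow]
  exact (mul_le_mul_of_nonpos_right l3 l0).trans l2

end Pool.Agent.MP_39fec4_gt.K

end

section

set_option autoImplicit false

namespace Pool.Agent.MP_39fec4_gt.K

open Set MeasureTheory Full

variable {B : Blk} {Q : ℕ → ℕ → ℕ} {E : ℕ → ℕ} {q : ℝ} {ι : Type} {T : Finset ι}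

namespace YTailX

lemma farc_pos {y : ℕ} (hf : farc B y < BIG) : 0 < y :=
  (ZFineX.mulD_pos (divU_pos hf)).1

lemma far0_pos {y : ℕ} (hf : far0 B y < BIG) : 0 < y := by
  rcases min_lt_iff.1 hf with h | h
  · have h1 := rr_pos (ZFineX.mulD_pos (divU_pos h)).2
    have h2 := sqrtL_sq y
    have h3 : rr 0 < rr y := by
      rw [rr_zero]
      exact lt_of_lt_of_le (pow_pos h1 2) h2
    exact rr_lt.1 h3
  · exact farc_pos h

lemma s_pos {y s : ℕ} {m : ℝ} (hy : rr y ≤ m * sR s ^ 2) (h0 : 0 < y) : 0 < sR s := by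
  rcases (sR_nonneg s).eq_or_lt with h | h
  · rw [← h] at hy
    have := rr_pos h0
    simp at hy
    linarith
  · exact h

lemma scale {y s : ℕ} {m u : ℝ} (hy : rr y ≤ m * sR s ^ 2) (hs : 0 < sR s) :
    rr y * (u / sR s) ^ 2 ≤ m * u ^ 2 := by
  have e : m * u ^ 2 = m * sR s ^ 2 * (u / sR s) ^ 2 := by
    field_simp
  rw [e]
  exact mul_le_mul_of_nonneg_right hy (sq_nonneg _)

lemma node {a s : ℕ} {x : ℝ} (h : rr a ≤ x) : rr (mulD a (tS s)) ≤ x * sR s ^ 2 :=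
  mulD_le_of h (tS_eq s).le

/-- The envelope at the point `u`. -/
lemma env_u (h : BOK B Q E) (hq : q ∈ B.I) {x : ι → ℝ} {xb m : ℕ}
    (hx : ∀ j ∈ T, 0 ≤ x j ∧ x j ≤ rr xb) (hm : m * rr xb ≤ ∑ j ∈ T, x j) (u : ℝ) :
    (∏ j ∈ T, B.g 0 q (x j * u ^ 2)) ^ 2 * (1 + rr B.gam * (rr xb * u ^ 2)) ^ m ≤ 1 := by
  classical
  have hu : 0 ≤ u ^ 2 := sq_nonneg u
  refine alg_env (rr_nonneg _) (h.alg q hq) T (fun j => x j * u ^ 2)
    (mul_nonneg (rr_nonneg _) hu) (fun j hj => ⟨mul_nonneg (hx j hj).1 hu,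
      mul_le_mul_of_nonneg_right (hx j hj).2 hu⟩) m ?_
  rw [← Finset.sum_mul, ← mul_assoc]
  exact mul_le_mul_of_nonneg_right hm hu

lemma z_le (ga xb s : ℕ) : rr (mulD ga (mulD xb (tS s))) ≤ rr ga * (rr xb * sR s ^ 2) :=
  mulD_le_of le_rfl (node le_rfl)

lemma fac_one {N n : ℕ} (hN : 1 ≤ N) (hn : N ≤ n) : √((n : ℝ) / N) * 0.7 ^ (n - N) ≤ 1 := by
  have hN' : (1 : ℝ) ≤ N := by exact_mod_cast hN
  have h := scale_nat (rho := (0.7 : ℝ) ^ 5) (by positivity) hN hn (by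
    have h1 : ((0.7 : ℝ) ^ 2 * (N + 1)) ^ 5 ≤ (N : ℝ) ^ 5 :=
      pow_le_pow_left₀ (by positivity) (by norm_num; linarith) 5
    calc ((0.7 : ℝ) ^ 5) ^ 2 * (N + 1) ^ 5 = ((0.7 : ℝ) ^ 2 * (N + 1)) ^ 5 := by ring
      _ ≤ _ := h1)
  rw [← pow_mul, mul_comm 5 (n - N), pow_mul, ← mul_pow] at h
  exact (pow_le_one_iff_of_nonneg (by positivity) (by norm_num)).1 h

lemma fac_sq {N n : ℕ} (hN : 8 ≤ N) (hn : N ≤ n) :
    (n : ℝ) ^ 2 * (√((n : ℝ) / N) * 0.7 ^ (n - N)) ≤ (N : ℝ) ^ 2 := by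
  have hN' : (8 : ℝ) ≤ N := by exact_mod_cast hN
  have hN0 : (0 : ℝ) < N := by linarith
  have h := scale_nat (rho := (0.7 : ℝ)) (by positivity) (by omega : 1 ≤ N) hn (by
    have h1 : ((N : ℝ) + 1) ^ 5 ≤ (9 / 8 * (N : ℝ)) ^ 5 :=
      pow_le_pow_left₀ (by positivity) (by linarith) 5
    have h2 : 0 ≤ (N : ℝ) ^ 5 := by positivity
    rw [mul_pow] at h1
    nlinarith)
  have hs : √((n : ℝ) / N) ^ 2 = (n : ℝ) / N := Real.sq_sqrt (by positivity)
  have e : (n : ℝ) ^ 2 * (√((n : ℝ) / N) * 0.7 ^ (n - N)) =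
      (N : ℝ) ^ 2 * (√((n : ℝ) / N) ^ 5 * 0.7 ^ (n - N)) := by
    have e5 : √((n : ℝ) / N) ^ 5 = (√((n : ℝ) / N) ^ 2) ^ 2 * √((n : ℝ) / N) := by ring
    rw [e5, hs]
    field_simp
  rw [e]
  exact mul_le_of_le_one_right (by positivity) h

end YTailX

open YTailX

/-- The decay bounds in the variable `u`. -/
theorem far0_sq (h : BOK B Q E) (hq : q ∈ B.I) {y s : ℕ} {m u : ℝ} (hy : rr y ≤ m * sR s ^ 2)
    (hf : far0 B y < BIG) (hu : sR s ≤ u) :
    0 < sR s ∧ |B.g 0 q (m * u ^ 2)| ≤ rr (far0 B y) * (sR s / u) := by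
  have hs := s_pos hy (far0_pos hf)
  refine ⟨hs, ?_⟩
  have h1 := h.far.f0 y hf q hq (u / sR s) (m * u ^ 2) ((one_le_div hs).2 hu) (scale hy hs)
  rwa [div_div_eq_mul_div, mul_div_assoc] at h1

theorem farc_sq (h : BOK B Q E) (hq : q ∈ B.I) {y s : ℕ} {m u : ℝ} (hy : rr y ≤ m * sR s ^ 2)
    (hf : farc B y < BIG) (hu : sR s ≤ u) :
    0 < sR s ∧ |B.g 0 q (m * u ^ 2)| ≤ rr (farc B y) * (sR s / u) ^ 3 := by
  have hs := s_pos hy (farc_pos hf)
  refine ⟨hs, ?_⟩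
  have h1 := h.far.fc y hf q hq (u / sR s) (m * u ^ 2) ((one_le_div hs).2 hu) (scale hy hs)
  rwa [div_pow, div_div_eq_mul_div, mul_div_assoc, ← div_pow] at h1

theorem oTail_spec (h : BOK B Q E) (hq : q ∈ B.I) {x1l x2l s : ℕ} {x1 x2 : ℝ}
    (h1 : rr x1l ≤ x1) (h2 : rr x2l ≤ x2) (ho : oTail B Q x1l x2l s < BIG) :
    0 < sR s ∧ ∃ A2 A3 : ℝ, 0 ≤ A2 ∧ 0 ≤ A3 ∧ (A2 + A3 / 2) * sR s ≤ rr (oTail B Q x1l x2l s) ∧
      ∀ u, sR s ≤ u → |B.g 0 q (x1 * u ^ 2) * B.g 0 q (x2 * u ^ 2)| ≤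
        A2 * (sR s / u) ^ 2 + A3 * (sR s / u) ^ 3 := by
  have n1 := node (s := s) h1
  have n2 := node (s := s) h2
  simp only [oTail, forceN_eq] at ho ⊢
  generalize mulD x1l (tS s) = y1 at *
  generalize mulD x2l (tS s) = y2 at *
  rcases min_choice (bif Nat.blt (far0 B y1) BIG && Nat.blt (far0 B y2) BIG then
      mulU (mulU (far0 B y1) (far0 B y2)) (s <<< 34) else BIG)
    (bif Nat.blt (farc B y1) BIG then mulU (mulU (farc B y1) (gAB (rqI Q y2))) (s <<< 33)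
      else BIG) with e | e
  · rw [e] at ho ⊢
    cases hc : (Nat.blt (far0 B y1) BIG && Nat.blt (far0 B y2) BIG)
    · rw [hc] at ho
      exact absurd ho (lt_irrefl BIG)
    · rw [Bool.and_eq_true, Nat.blt_eq, Nat.blt_eq] at hc
      have hs := s_pos n1 (far0_pos hc.1)
      refine ⟨hs, rr (far0 B y1) * rr (far0 B y2), 0,
        mul_nonneg (rr_nonneg _) (rr_nonneg _), le_rfl, ?_, fun u hu => ?_⟩
      · rw [zero_div, add_zero, cond_true]
        exact le_mulU (mulU_ge _ _) (shl34 s).ge hs.le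
      · have a1 := (far0_sq h hq n1 hc.1 hu).2
        have a2 := (far0_sq h hq n2 hc.2 hu).2
        rw [abs_mul, zero_mul, add_zero]
        refine (mul_le_mul a1 a2 (abs_nonneg _) ((abs_nonneg _).trans a1)).trans (le_of_eq ?_)
        ring
  · rw [e] at ho ⊢
    cases hc : Nat.blt (farc B y1) BIG
    · rw [hc] at ho
      exact absurd ho (lt_irrefl BIG)
    · rw [Nat.blt_eq] at hc
      have hs := s_pos n1 (farc_pos hc)
      refine ⟨hs, 0, rr (farc B y1) * rr (gAB (rqI Q y2)), le_rfl,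
        mul_nonneg (rr_nonneg _) (rr_nonneg _), ?_, fun u hu => ?_⟩
      · rw [zero_add, cond_true, div_mul_eq_mul_div, mul_div_assoc]
        exact le_mulU (mulU_ge _ _) (shl33 s).ge (by positivity)
      · have a1 := (farc_sq h hq n1 hc hu).2
        have hx2 : 0 ≤ x2 := (rr_nonneg _).trans h2
        have hl : rr y2 ≤ x2 * u ^ 2 :=
          n2.trans (mul_le_mul_of_nonneg_left (pow_le_pow_left₀ hs.le hu 2) hx2)
        have a2 := ((h.qok.rqI y2 (x2 * u ^ 2)).pt q hq (x2 * u ^ 2) (by positivity) hl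
          le_rfl).inR.abs
        rw [abs_mul, zero_mul, zero_add]
        refine (mul_le_mul a1 a2 (abs_nonneg _) ((abs_nonneg _).trans a1)).trans (le_of_eq ?_)
        ring

theorem pTail_spec (h : BOK B Q E) (hq : q ∈ B.I) {x : ι → ℝ} {ra xb1 s : ℕ}
    (hx : ∀ j ∈ T, 0 ≤ x j ∧ x j ≤ rr xb1) (hr : rr ra ≤ ∑ j ∈ T, x j) {u : ℝ} (hu : sR s ≤ u) :
    |∏ j ∈ T, B.g 0 q (x j * u ^ 2)| ≤ rr (pTail B ra xb1 s) := by
  have hm : ((ra / xb1 : ℕ) : ℝ) * rr xb1 ≤ ∑ j ∈ T, x j := by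
    rw [← rr_nmul]
    exact (rr_le.2 (Nat.div_mul_le_self ra xb1)).trans hr
  have he := env_u h hq hx hm u
  have hz := z_le B.gam xb1 s
  have hz0 := rr_nonneg (mulD B.gam (mulD xb1 (tS s)))
  have hW : rr B.gam * (rr xb1 * sR s ^ 2) ≤ rr B.gam * (rr xb1 * u ^ 2) :=
    mul_le_mul_of_nonneg_left (mul_le_mul_of_nonneg_left
      (pow_le_pow_left₀ (sR_nonneg s) hu 2) (rr_nonneg _)) (rr_nonneg _)
  unfold pTail
  generalize ∏ j ∈ T, B.g 0 q (x j * u ^ 2) = P at *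
  generalize rr B.gam * (rr xb1 * u ^ 2) = W at *
  generalize mulD B.gam (mulD xb1 (tS s)) = z at *
  generalize ra / xb1 = m at *
  have hW0 : 0 ≤ W := hz0.trans (hz.trans hW)
  have hP : P ^ 2 ≤ (1 / (1 + W)) ^ m := by
    rw [one_div, inv_pow, ← one_div, le_div_iff₀ (by positivity)]
    exact he
  have hd : 1 / (1 + W) ≤ rr (divU SS (SS + z)) :=
    le_divU (by unfold SS; omega) rr_SS.ge (by rw [rr_add, rr_SS]; linarith)
  rw [rr_min, rr_SS]
  refine le_min ?_ ?_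
  · have : (1 / (1 + W)) ^ m ≤ 1 :=
      pow_le_one₀ (by positivity) (by rw [div_le_one (by positivity)]; linarith)
    exact (sq_le_one_iff_abs_le_one P).1 (hP.trans this)
  · refine abs_le_of_sq_le_sq' ?_ (rr_nonneg _) |>.elim (fun a b => abs_le.2 ⟨a, b⟩)
    exact (hP.trans (le_powU (by positivity) hd m)).trans (sqrtU_sq _)

/-- The algebraic envelope far out: `m` copies of the largest value fit into the sum. -/
theorem alg_tail (h : BOK B Q E) (hq : q ∈ B.I) {x : ι → ℝ} {xb s m : ℕ}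
    (hx : ∀ j ∈ T, 0 ≤ x j ∧ x j ≤ rr xb) (hm : m * rr xb ≤ ∑ j ∈ T, x j) (h4 : 4 ≤ m)
    (hz : 64 * SS ≤ mulD B.gam (mulD xb (tS s))) {u : ℝ} (hu : sR s ≤ u) :
    0 < sR s ∧ |∏ j ∈ T, B.g 0 q (x j * u ^ 2)| * √65 ^ (m - 4) ≤
      rr (powU (divU SS (mulD B.gam (mulD xb (tS s)))) 2) * (sR s / u) ^ 2 := by
  have he := env_u h hq hx hm u
  have hzl := z_le B.gam xb s
  rw [← mul_assoc] at hzl he
  generalize mulD B.gam (mulD xb (tS s)) = z at *
  have hz0 : 0 < z := lt_of_lt_of_le (by unfold SS; omega) hz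
  have hz64 : 64 ≤ rr z := by
    have := rr_le.2 hz
    rw [rr_nmul, rr_SS] at this
    simpa using this
  have hs := s_pos hzl hz0
  refine ⟨hs, ?_⟩
  have hW := scale (u := u) hzl hs
  have hc : 1 ≤ u / sR s := (one_le_div hs).2 hu
  have hi : sR s / u = (u / sR s)⁻¹ := by rw [inv_div]
  rw [hi]
  generalize ∏ j ∈ T, B.g 0 q (x j * u ^ 2) = P at *
  generalize rr B.gam * rr xb * u ^ 2 = W at *
  generalize u / sR s = c at *
  have hc2 : 1 ≤ c ^ 2 := one_le_pow₀ hc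
  have hW64 : 64 ≤ W := by nlinarith
  obtain ⟨k, rfl⟩ := Nat.exists_eq_add_of_le' h4
  rw [Nat.add_sub_cancel]
  have h65 : (√65 ^ k) ^ 2 = (65 : ℝ) ^ k := by
    rw [← pow_mul, mul_comm k 2, pow_mul, Real.sq_sqrt (by norm_num)]
  have hA : (|P| * √65 ^ k * W ^ 2) ^ 2 ≤ 1 := by
    refine le_trans ?_ he
    rw [mul_pow, mul_pow, sq_abs, h65, pow_add, mul_assoc, ← pow_mul]
    refine mul_le_mul_of_nonneg_left ?_ (sq_nonneg P)
    exact mul_le_mul (pow_le_pow_left₀ (by norm_num) (by linarith) k)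
      (pow_le_pow_left₀ (by linarith) (by linarith) 4) (by positivity) (by positivity)
  have hB : |P| * √65 ^ k * W ^ 2 ≤ 1 :=
    (pow_le_one_iff_of_nonneg (by positivity) (by norm_num)).1 hA
  have hd : (1 / rr z) ^ 2 ≤ rr (powU (divU SS z) 2) :=
    le_powU (by positivity) (le_divU hz0 rr_SS.ge le_rfl) 2
  refine le_trans ?_ (mul_le_mul_of_nonneg_right hd (sq_nonneg _))
  have hc0 : 0 < c := by linarith
  have hzr : 0 < rr z := by linarith
  have e : (1 / rr z) ^ 2 * c⁻¹ ^ 2 = 1 / (rr z * c) ^ 2 := by field_simp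
  rw [e, le_div_iff₀ (by positivity)]
  refine le_trans (mul_le_mul_of_nonneg_left ?_ (by positivity)) hB
  refine pow_le_pow_left₀ (by positivity) (le_trans ?_ hW) 2
  exact mul_le_mul_of_nonneg_left (by nlinarith) hzr.le

theorem int_ngp (h : BOK B Q E) (hq : q ∈ B.I) {n : ℕ} (hn : 1 ≤ n) :
    IntegrableOn (ngp (B.g 0 q) n) (Ioi 0) := by
  have hn0 : (0 : ℝ) < n := by exact_mod_cast hn
  have h1 := int_pow h.sc hq (m := 1 / (n : ℝ)) (by positivity) hn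
  have e : ngp (B.g 0 q) n = fun s => max (-(B.g 0 q (1 / (n : ℝ) * s ^ 2) ^ n)) 0 := by
    funext s
    rw [ngp, one_div_mul_eq_div]
  rw [e]
  exact Integrable.neg_part h1

theorem delN_spec (h : BOK B Q E) (hq : q ∈ B.I) {N n : ℕ} (hN : 2 ≤ N) (hn : N ≤ n)
    (hd : delN B Q N < BIG) : ∫ s in Ioi (0 : ℝ), ngp (B.g 0 q) n s ≤
      rr (delN B Q N) * (√((n : ℝ) / N) * 0.7 ^ (n - N)) := by
  simp only [delN, forceN_eq] at hd ⊢
  have hB : ∀ v, rr B.z2 ≤ v → -rr (gNeg (rqI Q B.z2)) ≤ B.g 0 q v := fun v hv =>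
    ((h.qok.rqI B.z2 v).pt q hq v ((rr_nonneg _).trans hv) hv le_rfl).inR.neg
  generalize gNeg (rqI Q B.z2) = b at *
  cases hc : Nat.ble b R07
  · rw [hc] at hd
    exact absurd hd (lt_irrefl BIG)
  rw [hc, cond_true] at hd
  rw [cond_true]
  rw [Nat.ble_eq] at hc
  have hb : rr b ≤ 0.7 := (rr_le.2 hc).trans R07_le
  have hb0 := rr_nonneg b
  have hp := divU_pos hd
  have hz := rr_pos (ZFineX.mulD_pos hp).2
  have hm := rr_pos h.sc.mL0
  have key := (neg_part_le (h.sc.sm_g hq).c0 (h.hd q hq).pos hb0 hB hm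
    (fun v hv => h.sc.dec hq hv) hz (sqrtL_sq _) (hN.trans hn)).2
  refine le_trans key ?_
  have hN0 : (0 : ℝ) < N := by exact_mod_cast (by omega : 0 < N)
  have h1 : √(N : ℝ) * rr b ^ (N - 2) / (rr B.mL ^ 2 * rr (sqrtL B.z2)) ≤
      rr (divU (mulU (sqrtU (N * SS)) (powU b (N - 2))) (mulD (mulD B.mL B.mL) (sqrtL B.z2))) := by
    refine le_divU hp (le_mulU ?_ (powU_ge _ _) (by positivity)) (mulD_le_of ?_ le_rfl)
    · have := sqrtU_ge (N * SS)
      rwa [rr_nmul, rr_SS, mul_one] at this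
    · rw [sq]
      exact mulD_le _ _
  refine le_trans ?_ (mul_le_mul_of_nonneg_right h1 (by positivity))
  have e1 : √(n : ℝ) = √(N : ℝ) * √((n : ℝ) / N) := by
    rw [← Real.sqrt_mul hN0.le, mul_div_cancel₀ _ hN0.ne']
  have e2 : n - 2 = (N - 2) + (n - N) := by omega
  rw [e1, e2, pow_add, div_mul_eq_mul_div]
  refine div_le_div_of_nonneg_right ?_ (by positivity)
  have h2 : rr b ^ (n - N) ≤ 0.7 ^ (n - N) := pow_le_pow_left₀ hb0 hb _
  calc √(N : ℝ) * √((n : ℝ) / N) * (rr b ^ (N - 2) * rr b ^ (n - N))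
      = √(N : ℝ) * rr b ^ (N - 2) * (√((n : ℝ) / N) * rr b ^ (n - N)) := by ring
    _ ≤ _ := by gcongr

theorem delN_le (h : BOK B Q E) (hq : q ∈ B.I) {N n : ℕ} (hN : 2 ≤ N) (hn : N ≤ n)
    (hd : delN B Q N < BIG) : ∫ s in Ioi (0 : ℝ), ngp (B.g 0 q) n s ≤ rr (delN B Q N) :=
  (delN_spec h hq hN hn hd).trans
    (mul_le_of_le_one_right (rr_nonneg _) (fac_one (by omega) hn))

theorem delN_sq (h : BOK B Q E) (hq : q ∈ B.I) {N n : ℕ} (hN : 8 ≤ N) (hn : N ≤ n)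
    (hd : delN B Q N < BIG) : (n : ℝ) ^ 2 * ∫ s in Ioi (0 : ℝ), ngp (B.g 0 q) n s ≤
      (N : ℝ) ^ 2 * rr (delN B Q N) := by
  refine (mul_le_mul_of_nonneg_left (delN_spec h hq (by omega) hn hd) (sq_nonneg _)).trans ?_
  rw [mul_left_comm, mul_comm ((N : ℝ) ^ 2)]
  exact mul_le_mul_of_nonneg_left (fac_sq hN hn) (rr_nonneg _)

end Pool.Agent.MP_39fec4_gt.K

end

section

set_option autoImplicit false

namespace Pool.Agent.MP_39fec4_gt.K

open Set MeasureTheory Full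

variable {B : Blk} {Q : ℕ → ℕ → ℕ} {E : ℕ → ℕ} {q : ℝ} {ι : Type} {T : Finset ι}

namespace YNodeAX

/-- The real form of `m3s`. -/
def M3 (A1 A2 R0 P1 P2 c1 c2 c3 a1 b1 a2 b2 a3 b3 : ℝ) : ℝ :=
  (c1 * c1 * b1 * A2 + 2 * (c1 * a1 * (c2 * a2)) + A1 * (c2 * c2 * b2)) * R0 +
    2 * ((c1 * a1 * A2 + A1 * (c2 * a2)) * (c3 * a3) * P1) +
    A1 * A2 * (P1 * (c3 * c3 * b3) + P2 * (c3 * a3) * (c3 * a3))

theorem m3s_cast (A1 A2 R p1 p2 c1 c2 c3 a1 b1 a2 b2 a3 b3 : ℕ) {k : ℕ} (hk : 1 ≤ k) :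
    rr (m3s A1 A2 (R <<< 80) ((k * p1) <<< 40) (k * (k - 1) * p2) c1 c2 c3 a1 b1 a2 b2 a3 b3) /
      2 ^ 243 = M3 (rr A1) (rr A2) (rr R) (k * rr p1) (k * (k - 1) * rr p2) (rr c1) (rr c2) (rr c3)
        (rr a1) (rr b1) (rr a2) (rr b2) (rr a3) (rr b3) / 8 := by
  simp only [m3s, forceN_eq, M3, rr, Nat.shiftLeft_eq]
  push_cast [Nat.cast_sub hk]
  ring

theorem m2s_eq (A1 A2 R0 P1 P2 c2 c3 a2 b2 a3 b3 : ℕ) :
    A1 * m2s A2 R0 P1 P2 c2 c3 a2 b2 a3 b3 = m3s A1 A2 R0 P1 P2 0 c2 c3 0 0 a2 b2 a3 b3 := by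
  simp only [m3s, m2s, forceN_eq]
  ring

theorem ch3 {f1 f2 f3 : ℝ → ℝ} {l1 l2 l3 a b A1 A2 A3 R0 P1 P2 c1 c2 c3 u1 u2 u3 a1 b1 a2 b2 a3
    b3 : ℝ} {k : ℕ} (hk : 1 ≤ k) (hab : a ≤ b)
    (h1 : D2 f1 l1 a b A1 (c1 * a1) (c1 ^ 2 * b1)) (h2 : D2 f2 l2 a b A2 (c2 * a2) (c2 ^ 2 * b2))
    (h3 : D2 f3 l3 a b A3 (c3 * a3) (c3 ^ 2 * b3)) (hl : l1 + l2 + k * l3 = 0)
    (pA1 : 0 ≤ A1) (pA2 : 0 ≤ A2) (pA3 : 0 ≤ A3) (pc1 : 0 ≤ c1) (pc2 : 0 ≤ c2) (pc3 : 0 ≤ c3)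
    (pa1 : 0 ≤ a1) (pb1 : 0 ≤ b1) (pa2 : 0 ≤ a2) (pb2 : 0 ≤ b2) (pa3 : 0 ≤ a3) (pb3 : 0 ≤ b3)
    (hu1 : c1 * (b - a) ≤ u1) (hu2 : c2 * (b - a) ≤ u2) (hu3 : c3 * (b - a) ≤ u3)
    (hR : A3 ^ k ≤ R0) (hP1 : A3 ^ (k - 1) ≤ P1) (hP2 : A3 ^ (k - 2) ≤ P2) :
    Ch (fun s => f1 s * f2 s * f3 s ^ k) a b
      (M3 A1 A2 R0 (k * P1) (k * (k - 1) * P2) u1 u2 u3 a1 b1 a2 b2 a3 b3 / 8) := by
  have hD := (h1.mul h2).mul (h3.pow hk)
  rw [hl] at hD
  have hk1 : (0 : ℝ) ≤ (k : ℝ) - 1 := by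
    have : (1 : ℝ) ≤ k := by exact_mod_cast hk
    linarith
  have hd : 0 ≤ b - a := sub_nonneg.2 hab
  refine (hD.ch hab (by positivity)).1.mono ?_
  have p1 : 0 ≤ c1 * (b - a) := mul_nonneg pc1 hd
  have p2 : 0 ≤ c2 * (b - a) := mul_nonneg pc2 hd
  have p3 : 0 ≤ c3 * (b - a) := mul_nonneg pc3 hd
  have q1 : 0 ≤ u1 := p1.trans hu1
  have q2 : 0 ≤ u2 := p2.trans hu2
  have q3 : 0 ≤ u3 := p3.trans hu3
  have r0 : 0 ≤ A3 ^ k := by positivity
  have r1 : 0 ≤ A3 ^ (k - 1) := by positivity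
  have r2 : 0 ≤ A3 ^ (k - 2) := by positivity
  have s0 : 0 ≤ R0 := r0.trans hR
  have s1 : 0 ≤ P1 := r1.trans hP1
  have s2 : 0 ≤ P2 := r2.trans hP2
  refine le_trans (le_of_eq (b := M3 A1 A2 (A3 ^ k) (k * A3 ^ (k - 1)) (k * (k - 1) * A3 ^ (k - 2))
    (c1 * (b - a)) (c2 * (b - a)) (c3 * (b - a)) a1 b1 a2 b2 a3 b3 / 8) ?_) ?_
  · unfold M3
    ring
  · generalize c1 * (b - a) = v1 at *
    generalize c2 * (b - a) = v2 at *
    generalize c3 * (b - a) = v3 at *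
    generalize A3 ^ k = z0 at *
    generalize A3 ^ (k - 1) = z1 at *
    generalize A3 ^ (k - 2) = z2 at *
    generalize (k : ℝ) - 1 = k1 at *
    unfold M3
    gcongr

theorem ch_min {f : ℝ → ℝ} {a b : ℝ} {m n : ℕ} (h1 : Ch f a b (rr m / 2 ^ 243))
    (h2 : Ch f a b (rr n / 2 ^ 243)) : Ch f a b (rr (min m n) / 2 ^ 243) := by
  rcases min_choice m n with h | h <;> rw [h]
  · exact h1
  · exact h2

/-- The fields `fa` and `fb` bound the derivatives twisted by `lam`. -/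
def TW (B : Blk) (lam : ℝ) (fa fb : ℕ → ℕ) : Prop := ∀ r q y, PtOK B r q y →
  |B.g 1 q y + lam * B.g 0 q y| ≤ rr (fa r) ∧
    |B.g 2 q y + 2 * lam * B.g 1 q y + lam ^ 2 * B.g 0 q y| ≤ rr (fb r)

theorem twK (B : Blk) : TW B 0 gK1 gK2 := fun _ _ _ h =>
  ⟨by simpa using h.gK1, by simpa using h.gK2⟩

theorem twL (B : Blk) : TW B (rr B.lam) gL1 gL2 := fun _ _ _ h => ⟨h.l1, h.l2⟩

theorem fac (hs : ScalOK B) (hq : q ∈ B.I) {lam : ℝ} {fa fb : ℕ → ℕ} (tw : TW B lam fa fb)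
    {r lo hi : ℕ} (hr : RgOK B r (rr lo) (rr hi)) {φ : ℝ → ℝ} {a b : ℝ} (c d c' : ℝ)
    (e : ∀ s, φ s = c * s + d) (hφ : ∀ s ∈ Icc a b, rr lo ≤ φ s ∧ φ s ≤ rr hi) (hc : |c| ≤ c') :
    D2 (fun s => B.g 0 q (φ s)) (lam * c) a b (rr (gAB r)) (c' * rr (fa r))
      (c' ^ 2 * rr (fb r)) := by
  have e' : φ = fun s => c * s + d := funext e
  subst e'
  refine D2.aff (hs.sm_g hq) (rr_nonneg lo) hφ (fun y hy => ?_) hc
  have hp := hr.pt q hq y ((rr_nonneg lo).trans hy.1) hy.1 hy.2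
  exact ⟨hp.inR.abs, tw r q y hp⟩

theorem r20_le {a b : ℕ} (h : a ≤ b) : r20 a ≤ r20 b := by
  unfold r20
  gcongr

theorem r20_nonneg (a : ℕ) : 0 ≤ r20 a := by
  unfold r20
  positivity

theorem r20_le_one {a : ℕ} (h : a ≤ 1048576) : r20 a ≤ 1 := by
  have := r20_le h
  unfold r20 at this ⊢
  norm_num at this ⊢
  linarith

theorem r20_sub {a b : ℕ} (h : a ≤ b) : r20 (b - a) = r20 b - r20 a := by
  unfold r20
  rw [Nat.cast_sub h]
  ring

theorem r20_top {a : ℕ} (h : a ≤ 1048576) : r20 (1048576 - a) = 1 - r20 a := by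
  rw [r20_sub h]
  unfold r20
  norm_num

theorem shr20 (a u : ℕ) : r20 a * rr u ≤ rr ((a * u) >>> 20 + 1) := by
  refine le_trans (le_of_eq ?_) (rr_shr_lt (a * u) 20).le
  rw [rr_nmul]
  unfold r20
  ring

/-- The ranges of the three arguments over the box. -/
theorem rng {k xl xh ya yb a b : ℕ} (t : ℕ) (hk : 1 ≤ k) (wf : Wf B xl xh ya yb a b) {x y : ℝ}
    (hx : x ∈ Icc (r20 xl) (r20 xh)) (hy : y ∈ Icc (r20 ya) (r20 yb)) :
    (rr (mulD (cX1 xl) t) ≤ x * rr t ∧ x * rr t ≤ rr (mulU (cX1 xh) t)) ∧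
    (rr (mulD (cX2 xh ya) t) ≤ y * (1 - x) * rr t ∧
      y * (1 - x) * rr t ≤ rr (mulU (cX2 xl yb) t)) ∧
    (rr (mulD (cR xh yb) t / k) ≤ (1 - y) * (1 - x) / k * rr t ∧
      (1 - y) * (1 - x) / k * rr t ≤ rr (mulU (cR xl ya) t / k + 1)) := by
  obtain ⟨b1, b2, b3, b4, b5, b6⟩ := Box.bounds (xl := xl) (xh := xh) (ya := ya) (yb := yb)
    ⟨hx, hy⟩ (hx.2.trans (r20_le_one wf.x.2)) (hy.2.trans (r20_le_one wf.y.2))
  have ht := rr_nonneg t
  have hk0 : (0 : ℝ) < k := by exact_mod_cast hk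
  refine ⟨⟨mulD_le_of b1 le_rfl, le_mulU b2 le_rfl ht⟩, ⟨mulD_le_of b3 le_rfl,
    le_mulU b4 le_rfl ht⟩, ?_, ?_⟩
  · refine (rr_div_le _ _).trans ?_
    rw [div_mul_eq_mul_div]
    exact div_le_div_of_nonneg_right (mulD_le_of b5 le_rfl) hk0.le
  · refine le_trans ?_ (rr_div_lt _ hk).le
    rw [div_mul_eq_mul_div]
    exact div_le_div_of_nonneg_right (le_mulU b6 le_rfl ht) hk0.le

theorem q_in (hs : ScalOK B) {xl xh ya yb a b : ℕ} (wf : Wf B xl xh ya yb a b)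
    (hq : q ∈ Icc (B.q a) (B.q b)) : q ∈ B.I :=
  ⟨(hs.q_mem (wf.q.1.trans_lt wf.q.2)).1.trans hq.1, hq.2.trans (hs.q_mem wf.q.2).2⟩

theorem dirX (hs : ScalOK B) {k xl xh ya yb a b t c1 c2 c3 : ℕ} (hk : 1 ≤ k)
    (wf : Wf B xl xh ya yb a b) (h1 : RgOK B c1 (rr (mulD (cX1 xl) t)) (rr (mulU (cX1 xh) t)))
    (h2 : RgOK B c2 (rr (mulD (cX2 xh ya) t)) (rr (mulU (cX2 xl yb) t)))
    (h3 : RgOK B c3 (rr (mulD (cR xh yb) t / k)) (rr (mulU (cR xl ya) t / k + 1)))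
    {lam : ℝ} {fa fb : ℕ → ℕ} (tw : TW B lam fa fb) {y : ℝ} (hy : y ∈ Icc (r20 ya) (r20 yb))
    (hq : q ∈ B.I) {u : ℕ} (hu : u = ((xh - xl) * t) >>> 20 + 1) :
    Ch (fun x => PB (B.g 0 q) k x y (rr t)) (r20 xl) (r20 xh)
      (rr (m3s (gAB c1) (gAB c2) (powU (gAB c3) k <<< 80) ((k * powU (gAB c3) (k - 1)) <<< 40)
        (k * (k - 1) * powU (gAB c3) (k - 2)) u ((yb * u) >>> 20 + 1)
        ((((1048576 - ya) * u) >>> 20 + 1) / k + 1) (fa c1) (fb c1) (fa c2) (fb c2) (fa c3)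
        (fb c3)) / 2 ^ 243) := by
  rw [m3s_cast _ _ _ _ _ _ _ _ _ _ _ _ _ _ hk]
  have ht := rr_nonneg t
  have hk0 : (0 : ℝ) < k := by exact_mod_cast hk
  have y0 : 0 ≤ y := (r20_nonneg ya).trans hy.1
  have y1 : 0 ≤ 1 - y := sub_nonneg.2 (hy.2.trans (r20_le_one wf.y.2))
  have p2 : 0 ≤ y * rr t := mul_nonneg y0 ht
  have p3 : 0 ≤ (1 - y) * rr t / k := by positivity
  have dx := r20_le wf.x.1
  have u1 : rr t * (r20 xh - r20 xl) ≤ rr u := by
    rw [hu, ← r20_sub wf.x.1, mul_comm]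
    exact shr20 _ _
  have u0 : 0 ≤ rr t * (r20 xh - r20 xl) := mul_nonneg ht (sub_nonneg.2 dx)
  have f1 := fac hs hq tw h1 (φ := fun x => x * rr t) (rr t) 0 (rr t) (fun s => by ring)
    (fun s hs' => (rng t hk wf hs' hy).1) (abs_of_nonneg ht).le
  have f2 := fac hs hq tw h2 (φ := fun x => y * (1 - x) * rr t) (-(y * rr t)) (y * rr t) (y * rr t)
    (fun s => by ring) (fun s hs' => (rng t hk wf hs' hy).2.1)
    (by rw [abs_neg, abs_of_nonneg p2])
  have f3 := fac hs hq tw h3 (φ := fun x => (1 - y) * (1 - x) / k * rr t) (-((1 - y) * rr t / k))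
    ((1 - y) * rr t / k) ((1 - y) * rr t / k) (fun s => by ring)
    (fun s hs' => (rng t hk wf hs' hy).2.2) (by rw [abs_neg, abs_of_nonneg p3])
  refine ch3 hk dx f1 f2 f3 (by field_simp; ring) (rr_nonneg _) (rr_nonneg _) (rr_nonneg _) ht p2 p3
    (rr_nonneg _) (rr_nonneg _) (rr_nonneg _) (rr_nonneg _) (rr_nonneg _) (rr_nonneg _) u1 ?_ ?_
    (powU_ge _ _) (powU_ge _ _) (powU_ge _ _)
  · refine le_trans ?_ (shr20 yb u)
    rw [mul_assoc]
    exact mul_le_mul hy.2 u1 u0 (r20_nonneg _)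
  · refine le_trans ?_ (rr_div_lt _ hk).le
    rw [div_mul_eq_mul_div]
    refine div_le_div_of_nonneg_right (le_trans ?_ (shr20 _ u)) hk0.le
    rw [mul_assoc, r20_top (wf.y.1.trans wf.y.2)]
    exact mul_le_mul (by linarith [hy.1]) u1 u0 (by linarith [hy.1])

theorem dirY (hs : ScalOK B) {k xl xh ya yb a b t c1 c2 c3 : ℕ} (hk : 1 ≤ k)
    (wf : Wf B xl xh ya yb a b) (h1 : RgOK B c1 (rr (mulD (cX1 xl) t)) (rr (mulU (cX1 xh) t)))
    (h2 : RgOK B c2 (rr (mulD (cX2 xh ya) t)) (rr (mulU (cX2 xl yb) t)))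
    (h3 : RgOK B c3 (rr (mulD (cR xh yb) t / k)) (rr (mulU (cR xl ya) t / k + 1)))
    {lam : ℝ} {fa fb : ℕ → ℕ} (tw : TW B lam fa fb) {x : ℝ} (hx : x ∈ Icc (r20 xl) (r20 xh))
    (hq : q ∈ B.I) {v : ℕ} (hv : v = mulU ((yb - ya) * (1048576 - xl)) t) :
    Ch (fun y => PB (B.g 0 q) k x y (rr t)) (r20 ya) (r20 yb)
      (rr (gAB c1 * m2s (gAB c2) (powU (gAB c3) k <<< 80) ((k * powU (gAB c3) (k - 1)) <<< 40)
        (k * (k - 1) * powU (gAB c3) (k - 2)) v (v / k + 1) (fa c2) (fb c2) (fa c3)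
        (fb c3)) / 2 ^ 243) := by
  rw [m2s_eq, m3s_cast _ _ _ _ _ _ _ _ _ _ _ _ _ _ hk, rr_zero]
  have ht := rr_nonneg t
  have hk0 : (0 : ℝ) < k := by exact_mod_cast hk
  have x1 : 0 ≤ 1 - x := sub_nonneg.2 (hx.2.trans (r20_le_one wf.x.2))
  have p2 : 0 ≤ (1 - x) * rr t := mul_nonneg x1 ht
  have p3 : 0 ≤ (1 - x) * rr t / k := by positivity
  have dy := r20_le wf.y.1
  have u2 : (1 - x) * rr t * (r20 yb - r20 ya) ≤ rr v := by
    have e : rr ((yb - ya) * (1048576 - xl)) = (r20 yb - r20 ya) * (1 - r20 xl) := by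
      rw [← r20_sub wf.y.1, ← r20_top (wf.x.1.trans wf.x.2)]
      unfold rr r20
      push_cast
      ring
    rw [hv, show (1 - x) * rr t * (r20 yb - r20 ya) = (r20 yb - r20 ya) * (1 - x) * rr t by ring]
    refine le_mulU ?_ le_rfl ht
    rw [e]
    exact mul_le_mul_of_nonneg_left (by linarith [hx.1]) (sub_nonneg.2 dy)
  have g1 := (rng t hk wf hx (left_mem_Icc.2 dy)).1
  have f1 : D2 (fun _ => B.g 0 q (x * rr t)) 0 (r20 ya) (r20 yb) (rr (gAB c1)) (0 * 0)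
      (0 ^ 2 * 0) :=
    (D2.const (h1.pt q hq _ ((rr_nonneg _).trans g1.1) g1.1 g1.2).inR.abs _ _).mono le_rfl
      (by norm_num) (by norm_num)
  have f2 := fac hs hq tw h2 (φ := fun y => y * (1 - x) * rr t) ((1 - x) * rr t) 0 ((1 - x) * rr t)
    (fun s => by ring) (fun s hs' => (rng t hk wf hx hs').2.1) (abs_of_nonneg p2).le
  have f3 := fac hs hq tw h3 (φ := fun y => (1 - y) * (1 - x) / k * rr t) (-((1 - x) * rr t / k))
    ((1 - x) * rr t / k) ((1 - x) * rr t / k) (fun s => by ring)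
    (fun s hs' => (rng t hk wf hx hs').2.2) (by rw [abs_neg, abs_of_nonneg p3])
  refine ch3 hk dy f1 f2 f3 (by field_simp; ring) (rr_nonneg _) (rr_nonneg _) (rr_nonneg _) le_rfl
    p2 p3 le_rfl le_rfl (rr_nonneg _) (rr_nonneg _) (rr_nonneg _) (rr_nonneg _) (by simp) u2 ?_
    (powU_ge _ _) (powU_ge _ _) (powU_ge _ _)
  refine le_trans ?_ (rr_div_lt _ hk).le
  rw [div_mul_eq_mul_div]
  exact div_le_div_of_nonneg_right u2 hk0.le

theorem facq (h : BOK B Q E) {xl xh ya yb a b r lo hi : ℕ} (wf : Wf B xl xh ya yb a b)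
    (hr : RgOK B r (rr lo) (rr hi)) (hY : hi < B.Yp) {z : ℝ} (hz : rr lo ≤ z ∧ z ≤ rr hi) :
    D2 (fun q => B.g 0 q z) 0 (B.q a) (B.q b) (rr (gAB r)) (1 * rr (gD1 r))
      (1 ^ 2 * rr (gD2 r)) := by
  have z0 : 0 ≤ z := (rr_nonneg _).trans hz.1
  have z1 : z ≤ 2 ^ 20 := by
    have t1 : rr hi ≤ rr (2 ^ 52) := rr_le.mpr (hY.le.trans (h.yp.trans h.yc))
    have t2 : rr (2 ^ 52) ≤ 2 ^ 20 := by
      unfold rr
      norm_num
    linarith [hz.2]
  rw [one_mul, one_pow, one_mul]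
  exact d2_q h.sc (h.sc.q_mem (wf.q.1.trans_lt wf.q.2)).1 (h.sc.q_mem wf.q.2).2 z0 z1
    fun q hq => hr.pt q hq z z0 hz.1 hz.2

theorem dirQ (h : BOK B Q E) {k xl xh ya yb a b t c1 c2 c3 : ℕ} (hk : 1 ≤ k)
    (wf : Wf B xl xh ya yb a b) (h1 : RgOK B c1 (rr (mulD (cX1 xl) t)) (rr (mulU (cX1 xh) t)))
    (h2 : RgOK B c2 (rr (mulD (cX2 xh ya) t)) (rr (mulU (cX2 xl yb) t)))
    (h3 : RgOK B c3 (rr (mulD (cR xh yb) t / k)) (rr (mulU (cR xl ya) t / k + 1)))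
    (hY : max (mulU (cX1 xh) t) (max (mulU (cX2 xl yb) t) (mulU (cR xl ya) t / k + 1)) < B.Yp)
    {x y : ℝ} (hx : x ∈ Icc (r20 xl) (r20 xh)) (hy : y ∈ Icc (r20 ya) (r20 yb))
    {w : ℕ} (hw : w = (B.st * (b - a)) <<< 28) :
    Ch (fun q => PB (B.g 0 q) k x y (rr t)) (B.q a) (B.q b)
      (rr (m3s (gAB c1) (gAB c2) (powU (gAB c3) k <<< 80) ((k * powU (gAB c3) (k - 1)) <<< 40)
        (k * (k - 1) * powU (gAB c3) (k - 2)) w w w (gD1 c1) (gD2 c1) (gD1 c2) (gD2 c2) (gD1 c3)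
        (gD2 c3)) / 2 ^ 243) := by
  rw [m3s_cast _ _ _ _ _ _ _ _ _ _ _ _ _ _ hk]
  obtain ⟨g1, g2, g3⟩ := rng t hk wf hx hy
  rw [max_lt_iff, max_lt_iff] at hY
  have e := h.sc.q_sub wf.q.1
  have dq : B.q a ≤ B.q b := by
    rw [← sub_nonneg, e]
    exact div_nonneg (Nat.cast_nonneg _) (by norm_num)
  have u : 1 * (B.q b - B.q a) ≤ rr w := by
    rw [hw, e, rr_shl]
    generalize B.st * (b - a) = n
    unfold rr
    apply le_of_eq
    ring
  exact ch3 hk dq (facq h wf h1 hY.1 g1) (facq h wf h2 hY.2.1 g2) (facq h wf h3 hY.2.2 g3)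
    (by ring) (rr_nonneg _) (rr_nonneg _) (rr_nonneg _) zero_le_one zero_le_one zero_le_one
    (rr_nonneg _) (rr_nonneg _) (rr_nonneg _) (rr_nonneg _) (rr_nonneg _) (rr_nonneg _) u u u
    (powU_ge _ _) (powU_ge _ _) (powU_ge _ _)

theorem fin (m1 m2 m3 e : ℕ) : rr m1 / 2 ^ 243 + rr m2 / 2 ^ 243 + rr m3 / 2 ^ 243 + rr e ≤
    rr ((m1 + m2 + m3) >>> 243 + 1 + e) := by
  have h := rr_shr_lt (m1 + m2 + m3) 243
  rw [rr_add, rr_add, add_div, add_div] at h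
  rw [rr_add]
  linarith

theorem mul_min' (a m n : ℕ) : a * min m n = min (a * m) (a * n) := by
  rcases le_total m n with h | h
  · rw [min_eq_left h, min_eq_left (Nat.mul_le_mul_left a h)]
  · rw [min_eq_right h, min_eq_right (Nat.mul_le_mul_left a h)]

end YNodeAX

open YNodeAX

/-- The smooth errors at a node, in the three directions of a box. -/
theorem eNode_spec (h : BOK B Q E) {k xl xh ya yb a b t : ℕ} (hk : 1 ≤ k)
    (wf : Wf B xl xh ya yb a b) (he : eNode B Q k xl xh ya yb (B.st * (b - a)) t < BIG) :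
    max (mulU (cX1 xh) t) (max (mulU (cX2 xl yb) t) (mulU (cR xl ya) t / k + 1)) < B.Yp ∧
    ∃ ex ey eq : ℝ, ex + ey + eq + rr (evB Q k xl xh ya yb t) ≤
        rr (eNode B Q k xl xh ya yb (B.st * (b - a)) t) ∧
      (∀ y ∈ Icc (r20 ya) (r20 yb), ∀ q ∈ Icc (B.q a) (B.q b),
        Ch (fun x => PB (B.g 0 q) k x y (rr t)) (r20 xl) (r20 xh) ex) ∧
      (∀ x ∈ Icc (r20 xl) (r20 xh), ∀ q ∈ Icc (B.q a) (B.q b),
        Ch (fun y => PB (B.g 0 q) k x y (rr t)) (r20 ya) (r20 yb) ey) ∧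
      (∀ x ∈ Icc (r20 xl) (r20 xh), ∀ y ∈ Icc (r20 ya) (r20 yb),
        Ch (fun q => PB (B.g 0 q) k x y (rr t)) (B.q a) (B.q b) eq) := by
  have h1 := h.qok.rq (mulD (cX1 xl) t) (mulU (cX1 xh) t)
  have h2 := h.qok.rq (mulD (cX2 xh ya) t) (mulU (cX2 xl yb) t)
  have h3 := h.qok.rq (mulD (cR xh yb) t / k) (mulU (cR xl ya) t / k + 1)
  simp only [eNode, evB, evE, forceN_eq, Bool.cond_eq_ite, Nat.blt_eq] at he ⊢
  generalize rq Q (mulD (cX1 xl) t) (mulU (cX1 xh) t) = c1 at h1 he ⊢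
  generalize rq Q (mulD (cX2 xh ya) t) (mulU (cX2 xl yb) t) = c2 at h2 he ⊢
  generalize rq Q (mulD (cR xh yb) t / k) (mulU (cR xl ya) t / k + 1) = c3 at h3 he ⊢
  by_cases hY : max (mulU (cX1 xh) t) (max (mulU (cX2 xl yb) t) (mulU (cR xl ya) t / k + 1)) < B.Yp
  swap
  · rw [if_neg hY] at he
    exact absurd he (lt_irrefl _)
  rw [if_pos hY]
  refine ⟨hY, _, _, _, fin _ _ _ _, fun y hy q hq => ?_, fun x hx q hq => ?_, fun x hx y hy => ?_⟩
  · exact ch_min (dirX h.sc hk wf h1 h2 h3 (twK B) hy (q_in h.sc wf hq) rfl)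
      (dirX h.sc hk wf h1 h2 h3 (twL B) hy (q_in h.sc wf hq) rfl)
  · rw [mul_min']
    exact ch_min (dirY h.sc hk wf h1 h2 h3 (twK B) hx (q_in h.sc wf hq) rfl)
      (dirY h.sc hk wf h1 h2 h3 (twL B) hx (q_in h.sc wf hq) rfl)
  · exact dirQ h hk wf h1 h2 h3 hY hx hy rfl

end Pool.Agent.MP_39fec4_gt.K

end

section

set_option autoImplicit false

namespace Pool.Agent.MP_39fec4_gt.K

open Set MeasureTheory Full

variable {B : Blk} {Q : ℕ → ℕ → ℕ} {E : ℕ → ℕ} {q : ℝ} {ι : Type} {T : Finset ι}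

namespace YNodeBX

/-- `x` is bounded by `A` and its approximation `a` is within `F - A`. -/
def Nr (x a A F : ℝ) : Prop := |x| ≤ A ∧ |x - a| ≤ F - A

theorem Nr.abs {x a A F : ℝ} (h : Nr x a A F) : |a| ≤ F := by
  obtain ⟨h1, h2⟩ := h
  rw [abs_le] at h1 h2 ⊢
  constructor <;> linarith [h1.1, h1.2, h2.1, h2.2]

theorem Nr.mul {x a A F y b C G : ℝ} (h : Nr x a A F) (h' : Nr y b C G) :
    Nr (x * y) (a * b) (A * C) (F * G) := by
  have hb := h'.abs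
  obtain ⟨h1, h2⟩ := h
  obtain ⟨h3, h4⟩ := h'
  have hA : 0 ≤ A := (abs_nonneg _).trans h1
  have hF : 0 ≤ F - A := (abs_nonneg _).trans h2
  refine ⟨?_, ?_⟩
  · rw [abs_mul]
    exact mul_le_mul h1 h3 (abs_nonneg _) hA
  · have e : x * y - a * b = x * (y - b) + (x - a) * b := by ring
    have t1 : |x * (y - b)| ≤ A * (G - C) := by
      rw [abs_mul]
      exact mul_le_mul h1 h4 (abs_nonneg _) hA
    have t2 : |(x - a) * b| ≤ (F - A) * G := by
      rw [abs_mul]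
      exact mul_le_mul h2 hb (abs_nonneg _) hF
    have t3 := abs_add_le (x * (y - b)) ((x - a) * b)
    rw [e]
    nlinarith

theorem Nr.pow {x a A F : ℝ} (h : Nr x a A F) (k : ℕ) : Nr (x ^ k) (a ^ k) (A ^ k) (F ^ k) := by
  induction k with
  | zero => simp [Nr]
  | succ k ih =>
    simp only [pow_succ]
    exact ih.mul h

theorem rr_dist (a : ℕ) : rr (dist a OFF) = |ro a| := by
  unfold dist
  rw [rr_add, rr_sub_OFF, rr_OFF_sub]
  rcases le_total 0 (ro a) with h | h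
  · rw [max_eq_left h, max_eq_right (by linarith), abs_of_nonneg h, add_zero]
  · rw [max_eq_right h, max_eq_left (by linarith), abs_of_nonpos h, zero_add]

theorem ro_neg {a : ℕ} (h : a < OFF) : ro a ≤ 0 := by
  have := rr_le.mpr h.le
  rw [ro_eq]
  linarith

theorem ro_pos {a : ℕ} (h : ¬ a < OFF) : 0 ≤ ro a := by
  have := rr_le.mpr (not_lt.mp h)
  rw [ro_eq]
  linarith

theorem ro_sub (m : ℕ) : -rr m ≤ ro (OFF - m) := by
  have := rr_sub_ge OFF m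
  rw [ro_eq]
  linarith

theorem sgn_false (m : ℕ) : sgn false m = OFF + m := rfl

theorem sgn_true (m : ℕ) : sgn true m = OFF - m := rfl

/-- The sign recorded by `pNode`. -/
theorem sign_neg {a b c k : ℕ}
    (h : xor (xor (Nat.blt a OFF) (Nat.blt b OFF)) (!ev k && Nat.blt c OFF) = true) :
    ro a * ro b * ro c ^ k ≤ 0 := by
  have hc : (!ev k && Nat.blt c OFF) = true → ro c ^ k ≤ 0 := fun hc => by
    rw [Bool.and_eq_true, Nat.blt_eq, Bool.not_eq_true', ← Bool.not_eq_true, ev_iff,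
      Nat.not_even_iff_odd] at hc
    exact hc.1.pow_nonpos (ro_neg hc.2)
  have hc' : (!ev k && Nat.blt c OFF) = false → 0 ≤ ro c ^ k := fun hc => by
    by_cases hk : Even k
    · exact hk.pow_nonneg _
    · refine pow_nonneg (ro_pos fun hl => ?_) _
      have e1 : ev k = false := by
        rw [← Bool.not_eq_true, ev_iff]
        exact hk
      rw [e1, Nat.blt_eq.mpr hl] at hc
      exact absurd hc (by decide)
  have ha : Nat.blt a OFF = true → ro a ≤ 0 := fun h => ro_neg (Nat.blt_eq.mp h)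
  have ha' : Nat.blt a OFF = false → 0 ≤ ro a := fun h => ro_pos fun hl => by
    rw [Nat.blt_eq.mpr hl] at h
    exact absurd h (by decide)
  have hb : Nat.blt b OFF = true → ro b ≤ 0 := fun h => ro_neg (Nat.blt_eq.mp h)
  have hb' : Nat.blt b OFF = false → 0 ≤ ro b := fun h => ro_pos fun hl => by
    rw [Nat.blt_eq.mpr hl] at h
    exact absurd h (by decide)
  generalize (!ev k && Nat.blt c OFF) = s3 at h hc hc'
  generalize Nat.blt a OFF = s1 at h ha ha'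
  generalize Nat.blt b OFF = s2 at h hb hb'
  cases s1 <;> cases s2 <;> cases s3
  · exact absurd h (by decide)
  · exact mul_nonpos_of_nonneg_of_nonpos (mul_nonneg (ha' rfl) (hb' rfl)) (hc rfl)
  · exact mul_nonpos_of_nonpos_of_nonneg
      (mul_nonpos_of_nonneg_of_nonpos (ha' rfl) (hb rfl)) (hc' rfl)
  · exact absurd h (by decide)
  · exact mul_nonpos_of_nonpos_of_nonneg
      (mul_nonpos_of_nonpos_of_nonneg (ha rfl) (hb' rfl)) (hc' rfl)
  · exact absurd h (by decide)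
  · exact absurd h (by decide)
  · exact mul_nonpos_of_nonneg_of_nonpos (mul_nonneg_of_nonpos_of_nonpos (ha rfl) (hb rfl)) (hc rfl)

theorem shr80 (a b p : ℕ) : rr ((a * b * p) >>> 80) ≤ rr a * rr b * rr p ∧
    rr a * rr b * rr p ≤ rr ((a * b * p) >>> 80) + rr 1 := by
  have h1 := rr_shr_le (a * b * p) 80
  have h2 := rr_shr_lt (a * b * p) 80
  have e : rr (a * b * p) / 2 ^ 80 = rr a * rr b * rr p := by
    rw [rr_mul, rr_mul]
    field_simp
  rw [e] at h1 h2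
  rw [rr_add] at h2
  exact ⟨h1, h2.le⟩

/-- The evaluation at a corner, in terms of three records. -/
theorem node {g1 g2 g3 : ℝ} {a b c c1 c2 c3 : ℕ} (k : ℕ)
    (h1 : Nr g1 (ro a) (rr (gAB c1)) (rr (gAB c1 + gPe c1)))
    (h2 : Nr g2 (ro b) (rr (gAB c2)) (rr (gAB c2 + gPe c2)))
    (h3 : Nr g3 (ro c) (rr (gAB c3)) (rr (gAB c3 + gPe c3))) :
    g1 * g2 * g3 ^ k ≤ ro (sgn (xor (xor (Nat.blt a OFF) (Nat.blt b OFF)) (!ev k && Nat.blt c OFF))
      ((dist a OFF * dist b OFF * powD (dist c OFF) k) >>> 80)) + rr (evE c1 c2 c3 k) := by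
  have hp := (abs_le.mp ((h1.mul h2).mul (h3.pow k)).2).2
  have h12 := (h1.mul h2).abs
  have hs := @sign_neg a b c k
  obtain ⟨s1, s2⟩ := shr80 (dist a OFF) (dist b OFF) (powD (dist c OFF) k)
  have p1 := powD_le (dist c OFF) k
  have p2 := (powD_lt (dist c OFF) k).le
  rw [rr_add] at p2
  rw [rr_dist] at p1 p2
  rw [rr_dist, rr_dist, ← abs_mul] at s1 s2
  have e0 := rr_nonneg 1
  have hE : rr (gAB c1 + gPe c1) * rr (gAB c2 + gPe c2) * (rr (gAB c3 + gPe c3) ^ k + rr 1) -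
      rr (gAB c1) * rr (gAB c2) * rr (gAB c3) ^ k + rr 1 ≤ rr (evE c1 c2 c3 k) := by
    unfold evE
    generalize gAB c1 + gPe c1 = F1
    generalize gAB c2 + gPe c2 = F2
    generalize gAB c3 + gPe c3 = F3
    have u1 : rr F1 * rr F2 * (rr F3 ^ k + rr 1) ≤ rr (mulU (mulU F1 F2) (powU F3 k + 1)) := by
      refine le_mulU (mulU_ge _ _) ?_ (add_nonneg (pow_nonneg (rr_nonneg _) _) e0)
      rw [rr_add]
      linarith [powU_ge F3 k]
    have u2 : rr (mulD (mulD (gAB c1) (gAB c2)) (powD (gAB c3) k)) ≤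
        rr (gAB c1) * rr (gAB c2) * rr (gAB c3) ^ k := mulD_le_of (mulD_le _ _) (powD_le _ _)
    have u3 := rr_sub_ge (mulU (mulU F1 F2) (powU F3 k + 1))
      (mulD (mulD (gAB c1) (gAB c2)) (powD (gAB c3) k))
    rw [rr_add]
    linarith
  have q0 : 0 ≤ |ro a * ro b| := abs_nonneg _
  have q1 : |ro a * ro b * ro c ^ k| = |ro a * ro b| * |ro c| ^ k := by rw [abs_mul, abs_pow]
  have q2 : |ro a * ro b| * rr 1 ≤ rr (gAB c1 + gPe c1) * rr (gAB c2 + gPe c2) * rr 1 :=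
    mul_le_mul_of_nonneg_right h12 e0
  have q3 : 0 ≤ |ro a * ro b| * rr 1 := mul_nonneg q0 e0
  generalize xor (xor (Nat.blt a OFF) (Nat.blt b OFF)) (!ev k && Nat.blt c OFF) = s at hs ⊢
  generalize (dist a OFF * dist b OFF * powD (dist c OFF) k) >>> 80 = m at s1 s2 ⊢
  cases s
  · have q4 := mul_le_mul_of_nonneg_left p2 q0
    have q5 := le_abs_self (ro a * ro b * ro c ^ k)
    rw [sgn_false, ro_OFF]
    linarith
  · have q4 := mul_le_mul_of_nonneg_left p1 q0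
    have q5 := abs_of_nonpos (hs rfl)
    have q6 := ro_sub m
    rw [sgn_true]
    linarith

/-- An argument within one unit above a computed point of a range. -/
theorem near (h : BOK B Q E) (hq : q ∈ B.I) {V : ℕ → ℕ} (hV : VOK B.C q V B.Yp) {lo hi y : ℕ}
    {u : ℝ} (h1 : lo ≤ y) (h2 : y < hi) (h3 : hi < B.Yp) (h4 : rr y ≤ u) (h5 : u ≤ rr (y + 1)) :
    Nr (B.g 0 q u) (ro (pevN V y)) (rr (gAB (rq Q lo hi)))
      (rr (gAB (rq Q lo hi) + gPe (rq Q lo hi))) := by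
  have hr := h.qok.rq lo hi
  generalize rq Q lo hi = R at hr ⊢
  refine ⟨(hr.pt q hq u ((rr_nonneg y).trans h4) ((rr_le.mpr h1).trans h4)
    (h5.trans (rr_le.mpr h2))).inR.abs, ?_⟩
  rw [rr_add, add_sub_cancel_left]
  exact (hr.pe y (rr_le.mpr h1) (rr_lt.mpr h2) (h2.trans h3)).pevN h.sc hq hV h4 h5

theorem div_succ (m : ℕ) {k : ℕ} (hk : 1 ≤ k) : rr (m + 1) / k ≤ rr (m / k + 1) := by
  have hk' : (0 : ℝ) < k := by exact_mod_cast hk
  have h1 : m + 1 ≤ (m / k + 1) * k := by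
    have := Nat.lt_div_mul_add (a := m) (show 0 < k from hk)
    rw [add_mul, one_mul]
    omega
  rw [div_le_iff₀ hk', ← rr_muln]
  exact rr_le.mpr h1

/-- The value of the profile lies in the range of the record. -/
theorem inR (h : BOK B Q E) (hq : q ∈ B.I) {lo hi : ℕ} {u : ℝ} (h1 : rr lo ≤ u) (h2 : u ≤ rr hi) :
    InR (rq Q lo hi) (B.g 0 q u) :=
  ((h.qok.rq lo hi).pt q hq u ((rr_nonneg lo).trans h1) h1 h2).inR

theorem halfI (h : BOK B Q E) (hq : q ∈ B.I) {lo : ℕ} {u : ℝ} (h1 : rr lo ≤ u) :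
    |B.g 0 q u| ≤ rr (gAB (rqI Q lo)) :=
  ((h.qok.rqI lo u).pt q hq u ((rr_nonneg lo).trans h1) h1 le_rfl).inR.abs

theorem zn {g1 g2 g3 : ℝ} {c1 c2 c3 : ℕ} (k : ℕ) (h1 : InR c1 g1) (h2 : InR c2 g2)
    (h3 : InR c3 g3) {z : ℕ}
    (hz : z = max (mulD (oLop c1 c2) (pHin c3 k)) (mulD (oHin c1 c2) (pLop c3 k))) :
    g1 * g2 * g3 ^ k ≤ ro (bif Nat.beq z 0 then
      OFF + max (mulU (oHi c1 c2) (pHi c3 k)) (mulU (oNeg c1 c2) (pNeg c3 k)) else OFF - z) := by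
  rw [Bool.cond_eq_ite]
  split_ifs with h0
  · rw [ro_OFF, rr_max]
    rcases le_total 0 (g3 ^ k) with hw | hw
    · exact (le_mulU (oHi_ge h1 h2) (pHi_ge' h3 k) hw).trans (le_max_left _ _)
    · have a1 := oNeg_le h1 h2
      have a2 := pNeg_le h3 k
      have a3 := le_mulU (x := -(g1 * g2)) (y := -g3 ^ k) (a := oNeg c1 c2) (b := pNeg c3 k)
        (by linarith) (by linarith) (by linarith)
      rw [neg_mul_neg] at a3
      exact a3.trans (le_max_right _ _)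
  · rw [Nat.beq_eq] at h0
    have a1 : rr z ≤ -(g1 * g2 * g3 ^ k) := by
      rw [hz] at h0 ⊢
      refine ZFineX.max_le_of (fun hu => ?_) (fun hv => ?_) (Or.inl (Nat.pos_of_ne_zero h0))
      · obtain ⟨p1, p2⟩ := ZFineX.mulD_pos hu
        have b1 := oLop_le h1 h2 (Or.inl p1)
        have b2 := pHin_ge h3 p2
        have b3 := mulD_le_of (x := g1 * g2) (y := -g3 ^ k) (a := oLop c1 c2) (b := pHin c3 k) b1
          (by linarith)
        linarith
      · obtain ⟨p1, p2⟩ := ZFineX.mulD_pos hv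
        have b1 := oHin_ge h1 h2 p1
        have b2 := pLop_le' h3 p2
        have b3 := mulD_le_of (x := -(g1 * g2)) (y := g3 ^ k) (a := oHin c1 c2) (b := pLop c3 k)
          (by linarith) b2
        linarith
    have a2 := ro_sub z
    linarith

theorem lo_mul {a t : ℕ} {x : ℝ} (h : rr a ≤ x) : rr (mulD a t) ≤ x * rr t :=
  mulD_le_of h le_rfl

theorem hi_mul {a t : ℕ} {x : ℝ} (h : x ≤ rr a) : x * rr t ≤ rr (mulU a t) :=
  le_mulU h le_rfl (rr_nonneg t)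

theorem lo_div {a t k : ℕ} {x : ℝ} (h : rr a ≤ x) : rr (mulD a t / k) ≤ x / k * rr t := by
  refine (rr_div_le _ _).trans ?_
  rw [div_mul_eq_mul_div]
  exact div_le_div_of_nonneg_right (lo_mul h) (Nat.cast_nonneg k)

theorem hi_div {a t k : ℕ} (hk : 1 ≤ k) {x : ℝ} (h : x ≤ rr a) :
    x / k * rr t ≤ rr (mulU a t / k + 1) := by
  refine le_trans ?_ (rr_div_lt _ hk).le
  rw [div_mul_eq_mul_div]
  exact div_le_div_of_nonneg_right (hi_mul h) (Nat.cast_nonneg k)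

theorem shl36 (M H : ℕ) : rr ((M * H) <<< 36) = M * ((H : ℝ) / 16) := by
  rw [rr_shl]
  unfold rr
  push_cast
  ring

theorem shl35 (M H : ℕ) : rr ((M * H) <<< 35) = M * ((H : ℝ) / 16) / 2 := by
  rw [rr_shl]
  unfold rr
  push_cast
  ring

theorem prod_le {g1 g2 g3 u1 u2 u3 : ℝ} {a b c : ℕ} (h1 : |g1| ≤ rr a * u1)
    (h2 : |g2| ≤ rr b * u2) (h3 : |g3| ≤ rr c * u3) (h0 : 0 ≤ u1 * u2 * u3) :
    g1 * g2 * g3 ≤ rr (mulU (mulU a b) c) * (u1 * u2 * u3) := by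
  have a1 : |g1 * g2 * g3| ≤ rr a * u1 * (rr b * u2) * (rr c * u3) := by
    have b1 := (abs_nonneg _).trans h1
    have b2 := (abs_nonneg _).trans h2
    rw [abs_mul, abs_mul]
    exact mul_le_mul (mul_le_mul h1 h2 (abs_nonneg _) b1) h3 (abs_nonneg _) (mul_nonneg b1 b2)
  have a2 : rr a * rr b * rr c ≤ rr (mulU (mulU a b) c) :=
    le_mulU (mulU_ge _ _) le_rfl (rr_nonneg _)
  have a3 := mul_le_mul_of_nonneg_right a2 h0
  have a4 := le_abs_self (g1 * g2 * g3)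
  linarith

/-- The choice among the three tail bounds. -/
theorem tail_case {f1 f2 f3 fc t1 t2 t3 v : ℕ}
    (hv : v = min (min (bif Nat.blt f1 BIG && Nat.blt f2 BIG then t1 else BIG)
      (bif Nat.blt fc BIG then t2 else BIG)) (bif Nat.blt f1 BIG && Nat.blt f3 BIG then t3 else BIG))
    (h : v < BIG) : (f1 < BIG ∧ f2 < BIG ∧ v = t1) ∨ (fc < BIG ∧ v = t2) ∨
      (f1 < BIG ∧ f3 < BIG ∧ v = t3) := by
  simp only [Bool.cond_eq_ite, Bool.and_eq_true, Nat.blt_eq] at hv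
  generalize BIG = b at hv h ⊢
  split_ifs at hv <;> omega

end YNodeBX

open YNodeBX

/-- The value at a grid point of the box. -/
theorem pNode_spec (h : BOK B Q E) (hq : q ∈ B.I) {V : ℕ → ℕ} (hV : VOK B.C q V B.Yp)
    {k xl xh ya yb x xi t : ℕ} (hk : 1 ≤ k) (hx : xl ≤ x ∧ x ≤ xh ∧ xh ≤ 1048576)
    (hy : ya ≤ xi ∧ xi ≤ yb ∧ yb ≤ 1048576)
    (hp : max (mulU (cX1 xh) t) (max (mulU (cX2 xl yb) t) (mulU (cR xl ya) t / k + 1)) < B.Yp) :
    PB (B.g 0 q) k (r20 x) (r20 xi) (rr t) ≤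
      ro (pNode V k x xi t) + rr (evB Q k xl xh ya yb t) := by
  obtain ⟨x1, x2, x3⟩ := hx
  obtain ⟨y1, y2, y3⟩ := hy
  rw [max_lt_iff, max_lt_iff] at hp
  obtain ⟨p1, p2, p3⟩ := hp
  have m1 : ∀ {a b : ℕ}, a ≤ b → cX1 a ≤ cX1 b := fun hab => by
    unfold cX1
    rw [Nat.shiftLeft_eq, Nat.shiftLeft_eq]
    exact Nat.mul_le_mul_right _ hab
  have m2 : ∀ {a b c d : ℕ}, a ≤ b → c ≤ d → cX2 b c ≤ cX2 a d := fun hab hcd =>
    Nat.mul_le_mul hcd (Nat.sub_le_sub_left hab _)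
  have m3 : ∀ {a b c d : ℕ}, a ≤ b → c ≤ d → cR b d ≤ cR a c := fun hab hcd =>
    Nat.mul_le_mul (Nat.sub_le_sub_left hcd _) (Nat.sub_le_sub_left hab _)
  have e1 := cX1_eq x
  have e2 := cX2_eq (x2.trans x3) xi
  have e3 := cR_eq (x2.trans x3) (y2.trans y3)
  have n1 := near h hq hV (lo := mulD (cX1 xl) t) (y := mulD (cX1 x) t) (u := r20 x * rr t)
    (mulD_mono (m1 x1) le_rfl) (Nat.lt_succ_of_le (mulD_mono (m1 x2) le_rfl)) p1
    (lo_mul e1.le) (hi_mul e1.ge)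
  have n2 := near h hq hV (lo := mulD (cX2 xh ya) t) (y := mulD (cX2 x xi) t)
    (u := r20 xi * (1 - r20 x) * rr t) (mulD_mono (m2 x2 y1) le_rfl)
    (Nat.lt_succ_of_le (mulD_mono (m2 x1 y2) le_rfl)) p2 (lo_mul e2.le) (hi_mul e2.ge)
  have n3 := near h hq hV (lo := mulD (cR xh yb) t / k) (y := mulD (cR x xi) t / k)
    (u := (1 - r20 xi) * (1 - r20 x) / k * rr t)
    (Nat.div_le_div_right (mulD_mono (m3 x2 y2) le_rfl))
    (Nat.lt_succ_of_le (Nat.div_le_div_right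
      ((mulD_mono (m3 x1 y1) le_rfl).trans (Nat.le_succ _)))) p3 (lo_div e3.le) (by
      refine le_trans ?_ (div_succ _ hk)
      rw [div_mul_eq_mul_div]
      exact div_le_div_of_nonneg_right (hi_mul e3.ge) (Nat.cast_nonneg k))
  simp only [pNode, forceN_eq]
  exact node k n1 n2 n3

theorem zNode_spec (h : BOK B Q E) (hq : q ∈ B.I) {k xl xh ya yb : ℕ} (hk : 1 ≤ k) {x1 xi : ℝ}
    (hb : Box xl xh ya yb x1 xi) (h1 : x1 ≤ 1) (h2 : xi ≤ 1) (t : ℕ) :
    PB (B.g 0 q) k x1 xi (rr t) ≤ ro (zNode Q k xl xh ya yb t) := by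
  obtain ⟨b1, b2, b3, b4, b5, b6⟩ := hb.bounds h1 h2
  simp only [zNode, forceN_eq]
  exact zn k (inR h hq (lo_mul b1) (hi_mul b2)) (inR h hq (lo_mul b3) (hi_mul b4))
    (inR h hq (lo_div b5) (hi_div hk b6)) rfl

theorem tailP_spec (h : BOK B Q E) (hq : q ∈ B.I) {k H xl xh ya yb M : ℕ} (hk : 1 ≤ k)
    (hM : 0 < M) (hH : 0 < H) {x1 xi : ℝ} (hb : Box xl xh ya yb x1 xi) (h1 : x1 ≤ 1) (h2 : xi ≤ 1)
    (ht : tailP B Q k H xl xh ya yb M < BIG) :
    ∃ A2 A3 : ℝ, 0 ≤ A2 ∧ 0 ≤ A3 ∧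
      (A2 + A3 / 2) * (M * ((H : ℝ) / 16)) ≤ rr (tailP B Q k H xl xh ya yb M) ∧
      ∀ s : ℝ, M * ((H : ℝ) / 16) ≤ s → PB (B.g 0 q) k x1 xi (s ^ 2) ≤
        A2 * (M * ((H : ℝ) / 16) / s) ^ 2 + A3 * (M * ((H : ℝ) / 16) / s) ^ 3 := by
  obtain ⟨b1, -, b3, -, b5, -⟩ := hb.bounds h1 h2
  have et : rr (tN H (M - 1)) = (M * ((H : ℝ) / 16)) ^ 2 := by
    rw [tN_eq, Nat.cast_sub hM, Nat.cast_one, sub_add_cancel]
  have e6 := shl36 M H
  have e5 := shl35 M H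
  have hS : (0 : ℝ) < M * ((H : ℝ) / 16) := by positivity
  simp only [tailP, forceN_eq] at ht ⊢
  generalize hv : (min (min _ _) _ : ℕ) = v at ht ⊢
  have hc := tail_case hv.symm ht
  clear hv ht
  have l1 := lo_mul (t := tN H (M - 1)) b1
  have l2 := lo_mul (t := tN H (M - 1)) b3
  have l3 := lo_div (t := tN H (M - 1)) (k := k) b5
  rw [et] at l1 l2 l3
  unfold PB P3
  generalize mulD (cX1 xl) (tN H (M - 1)) = y1 at hc l1
  generalize mulD (cX2 xh ya) (tN H (M - 1)) = y2 at hc l2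
  generalize mulD (cR xh yb) (tN H (M - 1)) / k = y3 at hc l3
  generalize xi * (1 - x1) = x2 at l2 ⊢
  generalize (1 - xi) * (1 - x1) / k = x3 at l3 ⊢
  generalize M * ((H : ℝ) / 16) = S at hS e5 e6 l1 l2 l3 ⊢
  have c1 : ∀ s, S ≤ s → 1 ≤ s / S := fun s hs => (one_le_div hS).mpr hs
  have c2 : ∀ s, S ≤ s → ∀ {y : ℕ} {x : ℝ}, rr y ≤ x * S ^ 2 → rr y * (s / S) ^ 2 ≤ x * s ^ 2 :=
    fun s _ y x hy => by
      have a1 := mul_le_mul_of_nonneg_right hy (sq_nonneg (s / S))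
      have a2 : x * S ^ 2 * (s / S) ^ 2 = x * s ^ 2 := by field_simp
      linarith
  have c3 : ∀ s, S ≤ s → ∀ {y : ℕ} {x : ℝ}, rr y ≤ x * S ^ 2 →
      |B.g 0 q (x * s ^ 2)| ≤ rr (gAB (rqI Q y)) := fun s hs y x hy => by
    refine halfI h hq (le_trans ?_ (c2 s hs hy))
    exact le_mul_of_one_le_right (rr_nonneg y) (one_le_pow₀ (c1 s hs))
  have c4 : ∀ s, S ≤ s → ∀ {y : ℕ} {x : ℝ}, rr y ≤ x * S ^ 2 → far0 B y < BIG →
      |B.g 0 q (x * s ^ 2)| ≤ rr (far0 B y) * (S / s) := fun s hs y x hy hf => by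
    have a1 := h.far.f0 y hf q hq _ _ (c1 s hs) (c2 s hs hy)
    rwa [div_div_eq_mul_div, mul_div_assoc] at a1
  have c5 : ∀ s, S ≤ s → 0 ≤ S / s ∧ S / s ≤ 1 := fun s hs =>
    ⟨div_nonneg hS.le (hS.le.trans hs), (div_le_one (hS.trans_le hs)).mpr hs⟩
  rcases hc with ⟨f1, f2, hv⟩ | ⟨f1, hv⟩ | ⟨f1, f3, hv⟩
  · refine ⟨_, 0, rr_nonneg (mulU (mulU (far0 B y1) (far0 B y2)) (powU (gAB (rqI Q y3)) k)),
      le_rfl, ?_, fun s hs => ?_⟩
    · rw [hv, zero_div, add_zero, ← e6]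
      exact mulU_ge _ _
    · have a1 := prod_le (u3 := 1) (c4 s hs l1 f1) (c4 s hs l2 f2)
        (by rw [mul_one]; exact abs_le_powU (c3 s hs l3) k)
        (by rw [mul_one]; exact mul_self_nonneg _)
      rw [zero_mul, add_zero, sq (S / s)]
      rwa [mul_one] at a1
  · refine ⟨0, _, le_rfl,
      rr_nonneg (mulU (mulU (farc B y1) (gAB (rqI Q y2))) (powU (gAB (rqI Q y3)) k)), ?_,
      fun s hs => ?_⟩
    · rw [hv, zero_add, div_mul_eq_mul_div, mul_div_assoc, ← e5]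
      exact mulU_ge _ _
    · have a0 := h.far.fc y1 f1 q hq _ _ (c1 s hs) (c2 s hs l1)
      rw [div_eq_mul_inv, ← inv_pow, inv_div] at a0
      have a1 := prod_le (u2 := 1) (u3 := 1) a0 (by rw [mul_one]; exact c3 s hs l2)
        (by rw [mul_one]; exact abs_le_powU (c3 s hs l3) k)
        (by rw [mul_one, mul_one]; exact pow_nonneg (c5 s hs).1 3)
      rw [zero_mul, zero_add]
      rwa [mul_one, mul_one] at a1
  · refine ⟨_, 0, rr_nonneg (mulU (mulU (far0 B y1) (gAB (rqI Q y2))) (powU (far0 B y3) k)),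
      le_rfl, ?_, fun s hs => ?_⟩
    · rw [hv, zero_div, add_zero, ← e6]
      exact mulU_ge _ _
    · have a0 : |B.g 0 q (x3 * s ^ 2) ^ k| ≤ rr (powU (far0 B y3) k) * (S / s) := by
        rw [abs_pow]
        refine (pow_le_pow_left₀ (abs_nonneg _) (c4 s hs l3 f3) k).trans ?_
        rw [mul_pow]
        exact mul_le_mul (powU_ge _ _) (pow_le_of_le_one (c5 s hs).1 (c5 s hs).2 (by omega))
          (pow_nonneg (c5 s hs).1 k) (rr_nonneg _)
      have a1 := prod_le (u2 := 1) (c4 s hs l1 f1) (by rw [mul_one]; exact c3 s hs l2) a0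
        (by rw [mul_one]; exact mul_self_nonneg _)
      rw [zero_mul, add_zero, sq (S / s)]
      rwa [mul_one] at a1

end Pool.Agent.MP_39fec4_gt.K

end

section

set_option autoImplicit false

namespace Pool.Agent.MP_39fec4_gt.K

open Set MeasureTheory Full

variable {B : Blk} {Q : ℕ → ℕ → ℕ} {E : ℕ → ℕ} {q : ℝ} {ι : Type} {T : Finset ι}

namespace YDMX

/-- The constant of the bound for the second derivative far out. -/
def tc (B : Blk) : ℕ := divU (B.n1 + B.n3 / 2 + 1) B.mL + mulU B.be B.d1g + B.nr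

/-- The contribution of one cell. -/
def cw (Q : ℕ → ℕ → ℕ) (N s s' : ℕ) : ℕ :=
  pw2 N (gAB (rq Q (tS s / N) (tS s' / N + 1))) (gD1 (rq Q (tS s / N) (tS s' / N + 1)))
    (gD2 (rq Q (tS s / N) (tS s' / N + 1)))

theorem dM_ind {N : ℕ} {sch : List ℕ} (hM : dM B Q N sch < BIG) (Inv : ℕ → ℕ → Prop)
    (h0 : Inv 0 0) (hc : ∀ s s' a, s ≤ s' → tS s' / N + 1 ≤ 1152921504606846976 → Inv s a →
      Inv s' (a + mulU (cw Q N s s') (dS s s'))) :
    ∃ s e, Inv s e ∧ 3 ≤ N ∧ SS ≤ tS s / N ∧ farc B (tS s / N) < BIG ∧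
      dM B Q N sch = e + mulU (pw2 N (farc B (tS s / N)) B.d1g
        (mulU (tc B) (sqrtU (tS s / N + 1)))) (s <<< 34) := by
  obtain ⟨s, a, b, g, e, hI⟩ := sweep_ind sch (cellM Q N) (fun s e _ _ =>
    forceN (tS s / N) fun y => forceN (farc B y) fun f =>
    bif Nat.ble 3 N && Nat.ble SS y && Nat.blt f BIG && Nat.blt e BIG then
      forceN (e + mulU (pw2 N f B.d1g (mulU (divU (B.n1 + B.n3 / 2 + 1) B.mL + mulU B.be B.d1g + B.nr)
        (sqrtU (y + 1)))) (s <<< 34)) fun r => r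
    else BIG) (fun s a _ _ => a < BIG → Inv s a) (fun _ => h0) (fun s s' a b g kk hs hI => by
      refine ⟨_, b, g, by unfold cellM; rw [forceN_eq], fun hlt => ?_⟩
      cases hb : Nat.ble (tS s' / N + 1) 1152921504606846976 with
      | false =>
        rw [hb, cond_false] at hlt
        exact absurd hlt (lt_irrefl _)
      | true =>
        rw [hb, cond_true] at hlt
        rw [cond_true]
        exact hc s s' a hs (Nat.ble_eq ▸ hb) (hI (lt_of_le_of_lt (Nat.le_add_right _ _) hlt)))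
  have e' : dM B Q N sch = _ := e
  simp only [forceN_eq] at e'
  cases hb : (Nat.ble 3 N && Nat.ble SS (tS s / N) && Nat.blt (farc B (tS s / N)) BIG &&
      Nat.blt a BIG) with
  | false =>
    rw [hb, cond_false] at e'
    exact absurd (e' ▸ hM) (lt_irrefl _)
  | true =>
    rw [hb, cond_true] at e'
    simp only [Bool.and_eq_true, Nat.ble_eq, Nat.blt_eq] at hb
    exact ⟨s, a, hI hb.2, hb.1.1.1, hb.1.1.2, hb.1.2, e'⟩

theorem pw2_ge {k : ℕ} (hk : 1 ≤ k) (A a b : ℕ) :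
    (k : ℝ) * rr A ^ (k - 1) * rr b + k * (k - 1) * rr A ^ (k - 2) * rr a ^ 2 ≤
      rr (pw2 k A a b) := by
  unfold pw2
  rw [rr_add, rr_nmul, rr_nmul]
  have h1 : rr A ^ (k - 1) * rr b ≤ rr (mulU (powU A (k - 1)) b) :=
    le_mulU (powU_ge _ _) le_rfl (rr_nonneg _)
  have h2 : rr A ^ (k - 2) * rr a * rr a ≤ rr (mulU (mulU (powU A (k - 2)) a) a) :=
    le_mulU (le_mulU (powU_ge _ _) le_rfl (rr_nonneg _)) le_rfl (rr_nonneg _)
  have k0 : (0 : ℝ) ≤ k := Nat.cast_nonneg k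
  have k1 : (0 : ℝ) ≤ (k : ℝ) * (k - 1) := by
    have : (1 : ℝ) ≤ k := by exact_mod_cast hk
    exact mul_nonneg k0 (by linarith)
  have e : ((k * (k - 1) : ℕ) : ℝ) = (k : ℝ) * (k - 1) := by
    push_cast [Nat.cast_sub hk]
    ring
  rw [e]
  have h3 := mul_le_mul_of_nonneg_left h1 k0
  have h4 := mul_le_mul_of_nonneg_left h2 k1
  nlinarith

theorem d2_pow {f : ℝ → ℝ} {a b A0 A1 A2 : ℝ} (hf : D2 f 0 a b A0 A1 A2) {k : ℕ} (hk : 1 ≤ k)
    {M : ℝ} (hM : k * A0 ^ (k - 1) * A2 + k * (k - 1) * A0 ^ (k - 2) * A1 ^ 2 ≤ M) :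
    D2 (fun s => f s ^ k) 0 a b (A0 ^ k) (k * A0 ^ (k - 1) * A1) M := by
  have := hf.pow hk
  rw [mul_zero] at this
  exact this.mono le_rfl le_rfl hM

/-- The bound inside a cell. -/
theorem cell_D2 (h : BOK B Q E) {N : ℕ} (hN : 1 ≤ N) {q0 q1 : ℝ} (h0 : B.qa ≤ q0)
    (h1 : q1 ≤ B.qb) {s s' : ℕ} (hc : tS s' / N + 1 ≤ 1152921504606846976) {u : ℝ}
    (ha : sR s ≤ u) (hb : u ≤ sR s') : ∃ A0 A1 : ℝ,
    D2 (fun q => B.g 0 q (u ^ 2 / N) ^ N) 0 q0 q1 A0 A1 (rr (cw Q N s s')) := by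
  have hN0 : (0 : ℝ) < N := by exact_mod_cast hN
  obtain ⟨t1, t2⟩ := tS_mem ha hb
  have y0 : 0 ≤ u ^ 2 / N := by positivity
  have y1 : rr (tS s / N) ≤ u ^ 2 / N :=
    (rr_div_le _ _).trans (div_le_div_of_nonneg_right t1 hN0.le)
  have y2 : u ^ 2 / N ≤ rr (tS s' / N + 1) :=
    (div_le_div_of_nonneg_right t2 hN0.le).trans (rr_div_lt _ hN).le
  have y3 : u ^ 2 / N ≤ 2 ^ 20 := by
    refine y2.trans ((rr_le.2 hc).trans (le_of_eq ?_))
    unfold rr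
    norm_num
  exact ⟨_, _, d2_pow (d2_q h.sc h0 h1 y0 y3 fun q hq =>
    (h.qok.rq (tS s / N) (tS s' / N + 1)).pt q hq _ y0 y1 y2) hN (pw2_ge hN _ _ _)⟩

theorem gq2_far (hs : ScalOK B) (hq : q ∈ B.I) {v : ℝ} (hv : 1 ≤ v) :
    |gq2 B.C 0 q v| ≤ rr (tc B) * √v := by
  have hC := hs.C_pos
  have hp := (hs.q_pos hq).1
  have v0 : 0 ≤ v := by linarith
  have r1 : 1 ≤ √v := Real.one_le_sqrt.2 hv
  have r0 : 0 < √v := by linarith
  have r2 : √v ^ 2 = v := Real.sq_sqrt v0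
  have m0 : 0 < rr B.mL := rr_pos hs.mL0
  have a1 := nu_nonneg hC q
  have a3 := nu_nonneg hC (3 * q)
  have b1 := hs.n1 q hq
  have b3 := hs.n3 q hq
  have g2 : |GG2 B.C 0 q v - 0 * nu B.C q| ≤ (rr B.n1 + rr B.n3 / 2) * √v := by
    rw [zero_mul, sub_zero]
    refine (GG2_zero_a hC hp v0 r0).trans ?_
    rw [div_le_iff₀ (by positivity), r2]
    have e : (rr B.n1 + rr B.n3 / 2) * √v * (2 * √v) = (2 * rr B.n1 + rr B.n3) * v := by
      rw [← r2, Real.sqrt_sq r0.le]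
      ring
    rw [e]
    have c1 := mul_le_mul_of_nonneg_left b1 v0
    have c3 := mul_le_mul_of_nonneg_left b3 v0
    have c2 := mul_le_mul_of_nonneg_right hv a1
    nlinarith
  have k := abs_gq2_le hC hp 0 v 0 m0 (hs.hmu q hq).1 (hs.m1 q hq) b1 g2
  rw [sub_zero] at k
  have d1 := hs.d1g q hq v v0
  have d0 : |Full.gg B.C 0 q v| ≤ 1 := YSweepX.g_le hs hq v
  have e1 : (rr B.n1 + rr B.n3 / 2) / rr B.mL ≤ rr (divU (B.n1 + B.n3 / 2 + 1) B.mL) := by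
    refine le_divU hs.mL0 ?_ le_rfl
    have := rr_div_lt B.n3 (k := 2) (by norm_num)
    rw [add_assoc, rr_add]
    push_cast at this
    linarith
  have e2 : 2 * rr B.m1 / rr B.mL * |gq1 B.C 0 q v| ≤ rr (mulU B.be B.d1g) :=
    le_mulU hs.be d1 (abs_nonneg _)
  have e3 : rr B.n1 / rr B.mL * |Full.gg B.C 0 q v| ≤ rr B.nr := by
    have := mul_le_mul hs.nr d0 (abs_nonneg _) (rr_nonneg _)
    linarith
  have e4 : (rr B.n1 + rr B.n3 / 2) * √v / rr B.mL ≤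
      rr (divU (B.n1 + B.n3 / 2 + 1) B.mL) * √v := by
    rw [mul_div_right_comm]
    exact mul_le_mul_of_nonneg_right e1 r0.le
  unfold tc
  rw [rr_add, rr_add]
  have f2 := mul_le_mul_of_nonneg_left r1 (rr_nonneg (mulU B.be B.d1g))
  have f3 := mul_le_mul_of_nonneg_left r1 (rr_nonneg B.nr)
  nlinarith

theorem pow_far {f c : ℝ} (hf : 0 ≤ f) (hc : 1 ≤ c) {m : ℕ} (hm : 1 ≤ m) :
    (f / c ^ 3) ^ m ≤ f ^ m / c ^ 3 := by
  rw [div_pow]
  refine div_le_div_of_nonneg_left (by positivity) (by positivity) ?_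
  exact le_self_pow₀ (one_le_pow₀ hc) (by omega)

theorem far_alg {f a b c : ℝ} (hf : 0 ≤ f) (hb : 0 ≤ b) (hc : 1 ≤ c) {N : ℕ} (hN : 3 ≤ N) :
    (N : ℝ) * (f / c ^ 3) ^ (N - 1) * (b * c) + N * (N - 1) * (f / c ^ 3) ^ (N - 2) * a ^ 2 ≤
      (N * f ^ (N - 1) * b + N * (N - 1) * f ^ (N - 2) * a ^ 2) * (1 / c) ^ 2 := by
  have c0 : 0 < c := by linarith
  have n3 : (3 : ℝ) ≤ N := by exact_mod_cast hN
  have h1 : (f / c ^ 3) ^ (N - 1) * (b * c) ≤ f ^ (N - 1) * b * (1 / c) ^ 2 := by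
    refine (mul_le_mul_of_nonneg_right (pow_far hf hc (m := N - 1) (by omega))
      (by positivity)).trans (le_of_eq ?_)
    field_simp
  have h2 : (f / c ^ 3) ^ (N - 2) ≤ f ^ (N - 2) * (1 / c) ^ 2 := by
    refine (pow_far hf hc (m := N - 2) (by omega)).trans ?_
    rw [one_div, inv_pow, ← div_eq_mul_inv]
    exact div_le_div_of_nonneg_left (by positivity) (by positivity)
      (pow_le_pow_right₀ hc (by norm_num))
  have k0 : (0 : ℝ) ≤ N := by linarith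
  have k1 : (0 : ℝ) ≤ (N : ℝ) * (N - 1) * a ^ 2 :=
    mul_nonneg (mul_nonneg k0 (by linarith)) (sq_nonneg a)
  have h3 := mul_le_mul_of_nonneg_left h1 k0
  have h4 := mul_le_mul_of_nonneg_left h2 k1
  nlinarith

/-- The bound far out. -/
theorem tail_D2 (h : BOK B Q E) {N : ℕ} (hN : 3 ≤ N) {q0 q1 : ℝ} (h0 : B.qa ≤ q0)
    (h1 : q1 ≤ B.qb) {s : ℕ} (hy : SS ≤ tS s / N) (hf : farc B (tS s / N) < BIG) :
    0 < sR s ∧ ∀ u, sR s ≤ u → ∃ A0 A1 : ℝ,
      D2 (fun q => B.g 0 q (u ^ 2 / N) ^ N) 0 q0 q1 A0 A1 (rr (pw2 N (farc B (tS s / N)) B.d1g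
        (mulU (tc B) (sqrtU (tS s / N + 1)))) * (sR s / u) ^ 2) := by
  have hN1 : 1 ≤ N := by omega
  have hN0 : (0 : ℝ) < N := by exact_mod_cast hN1
  have y1 : 1 ≤ rr (tS s / N) := rr_SS ▸ rr_le.2 hy
  have y2 : rr (tS s / N) ≤ sR s ^ 2 / N := tS_eq s ▸ rr_div_le _ _
  have y3 : sR s ^ 2 / N ≤ rr (tS s / N + 1) := tS_eq s ▸ (rr_div_lt _ hN1).le
  have S0 : 0 < sR s := by
    refine lt_of_le_of_ne (sR_nonneg s) fun e => ?_
    rw [← e] at y2
    norm_num at y2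
    linarith
  refine ⟨S0, fun u hu => ?_⟩
  have c1 : 1 ≤ u / sR s := (one_le_div S0).2 hu
  have c0 : 0 ≤ u / sR s := by linarith
  have ev : u ^ 2 / N = sR s ^ 2 / N * (u / sR s) ^ 2 := by field_simp
  have v1 : rr (tS s / N) * (u / sR s) ^ 2 ≤ u ^ 2 / N :=
    ev ▸ mul_le_mul_of_nonneg_right y2 (sq_nonneg _)
  have v2 : 1 ≤ u ^ 2 / N :=
    (one_le_mul_of_one_le_of_one_le y1 (one_le_pow₀ c1)).trans v1
  have v0 : 0 ≤ u ^ 2 / N := by positivity
  have v3 : √(u ^ 2 / N) ≤ rr (sqrtU (tS s / N + 1)) * (u / sR s) := by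
    rw [ev, Real.sqrt_mul (by positivity), Real.sqrt_sq c0]
    exact mul_le_mul_of_nonneg_right ((Real.sqrt_le_sqrt y3).trans (sqrtU_ge _)) c0
  have hD : D2 (fun q => B.g 0 q (u ^ 2 / N)) 0 q0 q1 (rr (farc B (tS s / N)) / (u / sR s) ^ 3)
      (rr B.d1g) (rr (mulU (tc B) (sqrtU (tS s / N + 1))) * (u / sR s)) := by
    refine D2.of_deriv (f1 := fun q => gq1 B.C 0 q (u ^ 2 / N))
      (f2 := fun q => gq2 B.C 0 q (u ^ 2 / N)) fun t ht => ?_
    have hI : t ∈ B.I := ⟨h0.trans ht.1, ht.2.trans h1⟩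
    have hp := (h.sc.q_pos hI).1
    refine ⟨hasDerivAt_gg_q h.sc.C_pos hp v0 0, hasDerivAt_gq1_q h.sc.C_pos hp v0 0,
      h.far.fc _ hf t hI _ _ c1 v1, h.sc.d1g t hI _ v0, (gq2_far h.sc hI v2).trans ?_⟩
    refine (mul_le_mul_of_nonneg_left v3 (rr_nonneg _)).trans ?_
    rw [← mul_assoc]
    exact mul_le_mul_of_nonneg_right (mulU_ge _ _) c0
  refine ⟨_, _, d2_pow hD hN1 ((far_alg (rr_nonneg _) (rr_nonneg _) c1 hN).trans ?_)⟩
  rw [one_div_div]
  exact mul_le_mul_of_nonneg_right (pw2_ge hN1 _ _ _) (sq_nonneg _)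

end YDMX

open YDMX

theorem dM_three {N : ℕ} {sch : List ℕ} (hM : dM B Q N sch < BIG) : 3 ≤ N := by
  obtain ⟨_, _, _, h, _⟩ := dM_ind hM (fun _ _ => True) trivial fun _ _ _ _ _ _ => trivial
  exact h

/-- A linear inequality valid for all functions with bounded second derivative passes to the
diagonal integral. -/
theorem dM_lin (h : BOK B Q E) {N : ℕ} {sch : List ℕ} (hM : dM B Q N sch < BIG) {q0 q1 : ℝ}
    (h0 : B.qa ≤ q0) (h1 : q1 ≤ B.qb) (p c : Fin 4 → ℝ) (hp : ∀ i, p i ∈ Icc q0 q1) {w : ℝ}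
    (hw : 0 ≤ w) (hl : ∀ (f : ℝ → ℝ) (A0 A1 A2 : ℝ), D2 f 0 q0 q1 A0 A1 A2 → 0 ≤ A2 →
      ∑ i, c i * f (p i) ≤ w * A2) :
    ∑ i, c i * DG (B.g 0 (p i)) N ≤ w * rr (dM B Q N sch) := by
  have hN := dM_three hM
  have hN1 : 1 ≤ N := by omega
  have hi : ∀ i, IntegrableOn (fun u : ℝ => c i * B.g 0 (p i) (u ^ 2 / N) ^ N) (Ioi 0) := fun i => by
    have hI : p i ∈ B.I := ⟨h0.trans (hp i).1, (hp i).2.trans h1⟩
    exact (int_DG h.sc.C_pos (h.sc.q_pos hI).1 (h.sc.q_pos hI).2 hN1).const_mul (c i)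
  have hF : IntegrableOn (fun u : ℝ => ∑ i, c i * B.g 0 (p i) (u ^ 2 / N) ^ N) (Ioi 0) :=
    integrable_finsetSum _ fun i _ => hi i
  have e : ∑ i, c i * DG (B.g 0 (p i)) N =
      ∫ u in Ioi (0 : ℝ), ∑ i, c i * B.g 0 (p i) (u ^ 2 / N) ^ N := by
    rw [integral_finsetSum _ fun i _ => hi i]
    simp only [integral_const_mul, DG]
  obtain ⟨s, a, hI, -, hy, hf, eM⟩ := dM_ind hM (fun s a =>
    ∫ u in (0 : ℝ)..sR s, ∑ i, c i * B.g 0 (p i) (u ^ 2 / N) ^ N ≤ w * rr a)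
    (by simp [sR_zero, rr_zero]) (fun s s' a hs hc hI => by
      have k := cell_int (c0 := w * rr (cw Q N s s')) (c2 := 0) (c4 := 0) hF (sR_nonneg s)
        (sR_mono hs) fun u ha hb => by
          obtain ⟨A0, A1, hD⟩ := cell_D2 h hN1 h0 h1 hc ha hb
          have := hl _ _ _ _ hD (rr_nonneg _)
          linarith
      rw [int_add hF (sR_nonneg s) (sR_mono hs), rr_add]
      have k2 := mul_le_mul_of_nonneg_left (mulU_ge (cw Q N s s') (dS s s')) hw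
      rw [dS_eq hs] at k2
      nlinarith)
  obtain ⟨S0, ht⟩ := tail_D2 h hN h0 h1 hy hf
  have k := int_tail (A2 := w * rr (pw2 N (farc B (tS s / N)) B.d1g
    (mulU (tc B) (sqrtU (tS s / N + 1))))) (A3 := 0) S0 (int_split S0.le hF).2.1 fun u hu => by
      obtain ⟨A0, A1, hD⟩ := ht u hu
      have := hl _ _ _ _ hD (mul_nonneg (rr_nonneg _) (sq_nonneg _))
      linarith
  rw [e, int_all hF S0.le, eM, rr_add]
  have k2 := mul_le_mul_of_nonneg_left (mulU_ge (pw2 N (farc B (tS s / N)) B.d1g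
    (mulU (tc B) (sqrtU (tS s / N + 1)))) (s <<< 34)) hw
  rw [shl34] at k2
  nlinarith

theorem dM_ch (h : BOK B Q E) {N : ℕ} {sch : List ℕ} (hM : dM B Q N sch < BIG) {q0 q1 : ℝ}
    (h0 : B.qa ≤ q0) (h1 : q1 ≤ B.qb) (h01 : q0 ≤ q1) :
    Ch (fun q => DG (B.g 0 q) N) q0 q1 (rr (dM B Q N sch) * (q1 - q0) ^ 2 / 8) ∧
      Ch (fun q => -DG (B.g 0 q) N) q0 q1 (rr (dM B Q N sch) * (q1 - q0) ^ 2 / 8) := by
  have hp : ∀ th : ℝ, 0 ≤ th → th ≤ 1 → ∀ i : Fin 4,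
      ![(1 - th) * q0 + th * q1, q0, q1, q0] i ∈ Icc q0 q1 := fun th t0 t1 i => by
    have a1 := mul_nonneg t0 (sub_nonneg.2 h01)
    have a2 := mul_nonneg (sub_nonneg.2 t1) (sub_nonneg.2 h01)
    fin_cases i
    · exact ⟨by simp only [Fin.zero_eta, Matrix.cons_val_zero]; linarith,
        by simp only [Fin.zero_eta, Matrix.cons_val_zero]; linarith⟩
    · exact left_mem_Icc.2 h01
    · exact right_mem_Icc.2 h01
    · exact left_mem_Icc.2 h01
  have hw : 0 ≤ (q1 - q0) ^ 2 / 8 := by positivity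
  constructor
  · intro th t0 t1
    have k := dM_lin h hM h0 h1 _ ![1, -(1 - th), -th, 0] (hp th t0 t1) hw fun f A0 A1 A2 hD h2 => by
      have := (hD.ch h01 h2).1 th t0 t1
      simp only [Fin.sum_univ_four, Matrix.cons_val]
      linarith
    simp only [Fin.sum_univ_four, Matrix.cons_val] at k
    simp only
    linarith
  · intro th t0 t1
    have k := dM_lin h hM h0 h1 _ ![-1, 1 - th, th, 0] (hp th t0 t1) hw fun f A0 A1 A2 hD h2 => by
      have := (hD.ch h01 h2).2 th t0 t1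
      simp only [Fin.sum_univ_four, Matrix.cons_val] at this ⊢
      linarith
    simp only [Fin.sum_univ_four, Matrix.cons_val] at k
    simp only
    linarith

theorem dM_slope (h : BOK B Q E) {N : ℕ} {sch : List ℕ} (hM : dM B Q N sch < BIG) {q0 q1 : ℝ}
    (h0 : B.qa ≤ q0) (h1 : q1 ≤ B.qb) (h01 : q0 < q1) {q q' : ℝ} (ha : q0 ≤ q) (hb : q ≤ q')
    (hc : q' ≤ q1) : (q' - q) * ((DG (B.g 0 q1) N - DG (B.g 0 q0) N) / (q1 - q0) -
      rr (dM B Q N sch) * (q1 - q0) / 2) ≤ DG (B.g 0 q') N - DG (B.g 0 q) N := by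
  have hp : ∀ i : Fin 4, ![q1, q0, q', q] i ∈ Icc q0 q1 := fun i => by
    fin_cases i
    · exact right_mem_Icc.2 h01.le
    · exact left_mem_Icc.2 h01.le
    · exact ⟨ha.trans hb, hc⟩
    · exact ⟨ha, hb.trans hc⟩
  have hw : 0 ≤ (q' - q) * (q1 - q0) / 2 :=
    div_nonneg (mul_nonneg (sub_nonneg.2 hb) (sub_nonneg.2 h01.le)) zero_le_two
  have e : ∀ a b M : ℝ, (q' - q) * ((a - b) / (q1 - q0) - M * (q1 - q0) / 2) =
      (q' - q) / (q1 - q0) * a - (q' - q) / (q1 - q0) * b - (q' - q) * (q1 - q0) / 2 * M :=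
    fun a b M => by ring
  have k := dM_lin h hM h0 h1 _ ![(q' - q) / (q1 - q0), -((q' - q) / (q1 - q0)), -1, 1] hp hw
    fun f A0 A1 A2 hD _ => by
      have := hD.slope h01 ha hb hc
      rw [e] at this
      simp only [Fin.sum_univ_four, Matrix.cons_val]
      linarith
  simp only [Fin.sum_univ_four, Matrix.cons_val] at k
  rw [e]
  linarith

theorem kM_D2 (hs : ScalOK B) {q0 q1 : ℝ} (h0 : B.qa ≤ q0) (h1 : q1 ≤ B.qb) :
    D2 (kap B.C) 0 q0 q1 (rr B.kh) (rr B.kh * rr B.tau) (rr (kM B)) := by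
  have a0 : 0 < q0 := by
    refine lt_of_lt_of_le ?_ h0
    have : (128 : ℝ) ≤ B.m0 := by exact_mod_cast hs.a0
    unfold Blk.qa
    linarith
  refine (kap_D2 (n := rr B.nr) hs.C_pos a0 fun t ht => ?_).mono le_rfl le_rfl ?_
  · have hI : t ∈ B.I := ⟨h0.trans ht.1, ht.2.trans h1⟩
    refine ⟨(hs.hkap t hI).2, hs.tau t hI, le_trans ?_ hs.nr⟩
    exact div_le_div₀ (rr_nonneg _) (hs.n1 t hI) (rr_pos hs.mL0) (hs.hmu t hI).1
  · refine le_mulU' le_rfl ?_ (rr_nonneg _)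
    rw [rr_max, sq]
    exact max_le_max (mulU_ge _ _) le_rfl

end Pool.Agent.MP_39fec4_gt.K

end

section

set_option autoImplicit false

namespace Pool.Agent.MP_39fec4_gt.K

open Set MeasureTheory Full

variable {B : Blk} {Q : ℕ → ℕ → ℕ} {E : ℕ → ℕ} {q : ℝ} {ι : Type} {T : Finset ι}

namespace YHessX

def k1N (R Rn : ℕ) : ℕ := (gK1 R + gK1 Rn) / 2 + 1

/-- The weighted bound for the second derivative stored in the field `i`. -/
def k2N (i R Rn : ℕ) : ℕ := (fld R 56 i + 3 * fld Rn 56 i) / 4 + 1 - OFF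

def b0N (P : EP) (R Rn w tb : ℕ) : ℕ :=
  min (gAB R) (gAB w + mulU (max (k2N 4 R Rn) (k2N 3 R Rn)) (mulU (mulU tb tb) P.Vh) /
    (2 * P.k) + 1)

def ccN (R b0 : ℕ) : ℕ :=
  bif Nat.blt 0 (gLop R) then min SS (divU (2 * b0 - gLop R) (2 * b0))
  else bif Nat.blt 0 (gHin R) then min SS (divU (2 * b0 - gHin R) (2 * b0)) else SS

def aN (k b0 kh : ℕ) : ℕ := (powU b0 (k - 1) * kh) <<< 39

def cwN (k R b0 k1 : ℕ) : ℕ := mulU (ccN R b0) (powU b0 (k - 2)) * k1 * k1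

def wkN (P : EP) (w k1 : ℕ) : ℕ :=
  bif P.uni then powU (gAB w) (P.k - 2) * k1 * k1
  else (powU (gAB w) (P.k - 2) * (P.k - 1) / P.k + 1) * k1 * k1

def u1N (Z2 ym R ah : ℕ) : ℕ := bif Nat.ble ym Z2 || Nat.beq (gHip R) 0 then 0 else ah

def u2N (P : EP) (R ah al cw : ℕ) : ℕ :=
  bif Nat.beq (gNeg R) 0 then 0
  else bif P.uni then max al (ah + cw) else bif ev P.k then al else ah + cw

def m1N (k R : ℕ) : ℕ :=
  bif Nat.beq k 2 then 0 else mulU (gNeg R) (powU (gAB R) (k - 3)) * gK1 R * gK1 R / 2 + 1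

def m2N (P : EP) (w wk : ℕ) : ℕ := bif Nat.beq (gNeg w) 0 || (ev P.k && !P.uni) then 0 else wk

def d1N (R al cw : ℕ) : ℕ := bif Nat.beq (gHip R) 0 then 0 else al + cw

def d2N (k R ah al cw : ℕ) : ℕ :=
  bif Nat.beq (gNeg R) 0 then 0 else bif ev k then ah + cw else al

def m3N (k R : ℕ) : ℕ := powU (gAB R) (k - 2) * gK1 R * gK1 R / 2 + 1

def m4N (k w wk : ℕ) : ℕ := bif !ev k && Nat.beq (gHip w) 0 then 0 else wk

/-- What the two results dominate. -/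
structure Dom (Z2 : ℕ) (P : EP) (R w ym ah al cw wk up dn : ℕ) : Prop where
  u1 : u1N Z2 ym R ah ≤ up
  u2 : u2N P R ah al cw ≤ up
  u3 : 0 < gLop R ∨ 0 < gHin R ∨ m1N P.k R + m2N P w wk ≤ up
  d1 : d1N R al cw ≤ dn
  d2 : d2N P.k R ah al cw ≤ dn
  d3 : 0 < gLop R ∨ 0 < gHin R ∨ m3N P.k R + m4N P.k w wk ≤ dn

theorem hess_eq {α : Type} (B : Blk) (P : EP) (R Rn w ym tb : ℕ) (kk : ℕ → ℕ → α) :
    ∃ up dn, hess B P R Rn w ym tb kk = kk up dn ∧
      Dom B.Z2 P R w ym (aN P.k (b0N P R Rn w tb) (k2N 4 R Rn))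
        (aN P.k (b0N P R Rn w tb) (k2N 3 R Rn)) (cwN P.k R (b0N P R Rn w tb) (k1N R Rn))
        (wkN P w (k1N R Rn)) up dn := by
  generalize e1 : aN P.k (b0N P R Rn w tb) (k2N 4 R Rn) = ah
  generalize e2 : aN P.k (b0N P R Rn w tb) (k2N 3 R Rn) = al
  generalize e3 : cwN P.k R (b0N P R Rn w tb) (k1N R Rn) = cw
  generalize e4 : wkN P w (k1N R Rn) = wk
  have e : hess B P R Rn w ym tb kk =
      Bool.casesOn (motive := fun _ => α) (Nat.beq (gLop R) 0 && Nat.beq (gHin R) 0)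
        (kk (max (u1N B.Z2 ym R ah) (u2N P R ah al cw)) (max (d1N R al cw) (d2N P.k R ah al cw)))
        (kk (max (max (u1N B.Z2 ym R ah) (u2N P R ah al cw)) (m1N P.k R + m2N P w wk))
          (max (max (d1N R al cw) (d2N P.k R ah al cw)) (m3N P.k R + m4N P.k w wk))) := by
    subst e1 e2 e3 e4
    unfold hess
    simp only [forceN_eq]
    rfl
  rw [e]
  cases hb : (Nat.beq (gLop R) 0 && Nat.beq (gHin R) 0)
  · have h0 : 0 < gLop R ∨ 0 < gHin R := by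
      by_contra h0
      have h1 : gLop R = 0 := by omega
      have h2 : gHin R = 0 := by omega
      rw [h1, h2] at hb
      exact absurd hb (by decide)
    exact ⟨_, _, rfl, le_max_left _ _, le_max_right _ _, h0.imp id Or.inl, le_max_left _ _,
      le_max_right _ _, h0.imp id Or.inl⟩
  · exact ⟨_, _, rfl, (le_max_left _ _).trans (le_max_left _ _),
      (le_max_right _ _).trans (le_max_left _ _), Or.inr (Or.inr (le_max_right _ _)),
      (le_max_left _ _).trans (le_max_left _ _), (le_max_right _ _).trans (le_max_left _ _),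
      Or.inr (Or.inr (le_max_right _ _))⟩

theorem k1N_ge (R Rn : ℕ) : (rr (gK1 R) + rr (gK1 Rn)) / 2 ≤ rr (k1N R Rn) := by
  have := rr_div_lt (k := 2) (gK1 R + gK1 Rn) two_pos
  rw [rr_add] at this
  exact_mod_cast this.le

theorem k2N_ge (i R Rn : ℕ) :
    ro (fld R 56 i) / 4 + 3 * ro (fld Rn 56 i) / 4 ≤ rr (k2N i R Rn) := by
  have h1 := rr_div_lt (k := 4) (fld R 56 i + 3 * fld Rn 56 i) four_pos
  rw [rr_add, rr_nmul] at h1
  have h2 := rr_sub_ge ((fld R 56 i + 3 * fld Rn 56 i) / 4 + 1) OFF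
  rw [ro_eq, ro_eq]
  unfold k2N
  push_cast at h1
  linarith

theorem neg_le_AB (r : ℕ) : rr (gNeg r) ≤ rr (gAB r) := rr_le.2 (gAB_eq r ▸ le_max_left _ _)

theorem hip_le_AB (r : ℕ) : rr (gHip r) ≤ rr (gAB r) := rr_le.2 (gAB_eq r ▸ le_max_right _ _)

theorem rng_AB (r : ℕ) : -rr (gAB r) ≤ -ro (fld r 56 0) ∧ ro (fld r 56 1) ≤ rr (gAB r) := by
  rw [lo_eq, hi_eq]
  exact ⟨by linarith [neg_le_AB r, rr_nonneg (gLop r)],
    by linarith [hip_le_AB r, rr_nonneg (gHin r)]⟩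

theorem lo_pos {r : ℕ} (h : 0 < gLop r) : -ro (fld r 56 0) = rr (gLop r) := by
  rw [lo_eq, (lop_neg r).resolve_left h.ne', rr_zero, sub_zero]

theorem hi_neg {r : ℕ} (h : 0 < gHin r) : ro (fld r 56 1) = -rr (gHin r) := by
  rw [hi_eq, (hip_hin r).resolve_right h.ne', rr_zero, zero_sub]

theorem lo_nonneg {r : ℕ} (h : gNeg r = 0) : 0 ≤ -ro (fld r 56 0) := by
  rw [lo_eq, h, rr_zero, sub_zero]
  exact rr_nonneg _

theorem hi_nonpos {r : ℕ} (h : gHip r = 0) : ro (fld r 56 1) ≤ 0 := by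
  rw [hi_eq, h, rr_zero, zero_sub, neg_nonpos]
  exact rr_nonneg _

theorem cc_aux (b c : ℕ) : 1 ≤ rr (min SS (divU (2 * b - c) (2 * b))) ∨
    2 * rr b - rr c ≤ 2 * rr (min SS (divU (2 * b - c) (2 * b))) * rr b := by
  rcases le_total SS (divU (2 * b - c) (2 * b)) with h | h
  · rw [min_eq_left h, rr_SS]
    exact Or.inl le_rfl
  rw [min_eq_right h]
  rcases Nat.eq_zero_or_pos b with h0 | h0
  · right
    rw [h0, rr_zero]
    linarith [rr_nonneg c]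
  · right
    have h1 := divU_ge (2 * b - c) (show 0 < 2 * b by omega)
    have h2 := rr_sub_ge (2 * b) c
    have h3 := rr_pos h0
    rw [rr_nmul] at h1 h2
    rw [div_le_iff₀ (by positivity)] at h1
    push_cast at h1 h2
    linarith

theorem ccN_ok (R b : ℕ) : 1 ≤ rr (ccN R b) ∨
    (0 < -ro (fld R 56 0) ∧ 2 * rr b - -ro (fld R 56 0) ≤ 2 * rr (ccN R b) * rr b) ∨
    (ro (fld R 56 1) < 0 ∧ 2 * rr b + ro (fld R 56 1) ≤ 2 * rr (ccN R b) * rr b) := by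
  unfold ccN
  simp only [Bool.cond_eq_ite, Nat.blt_eq]
  split_ifs with h1 h2
  · rw [lo_pos h1]
    exact (cc_aux b (gLop R)).imp id fun h => Or.inl ⟨rr_pos h1, h⟩
  · rw [hi_neg h2]
    exact (cc_aux b (gHin R)).imp id fun h => Or.inr ⟨neg_lt_zero.2 (rr_pos h2), h⟩
  · exact Or.inl rr_SS.ge

variable {P : EP} {R Rn w ym tb : ℕ} {y : ι → ℝ} {a : ℝ}

theorem card_ge (H : HIn B P R Rn w ym tb q T y a) : P.k ≤ T.card := by
  cases hu : P.uni
  · exact (H.ex hu).ge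
  · exact (H.un hu).2.1

/-- The data of the second order inequalities. -/
theorem mkHB (h : BOK B Q E) (hq : q ∈ B.I) (H : HIn B P R Rn w ym tb q T y a) {wf : ℝ}
    (hwf : (T.card : ℝ) - 1 ≤ wf * T.card) :
    HB T (fun j => B.g 0 q (y j)) (fun j => y j - mean T y) (B.g 0 q (mean T y)) (Var T y)
      (-ro (fld R 56 0)) (ro (fld R 56 1)) (-ro (fld w 56 0)) (ro (fld w 56 1))
      (rr (k1N R Rn)) (rr (gK1 R)) (rr (k2N 4 R Rn)) (rr (k2N 3 R Rn)) (rr (gAB R)) (rr (gAB w))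
      (rr (b0N P R Rn w tb)) (rr (ccN R (b0N P R Rn w tb))) wf := by
  have hn : 2 ≤ T.card := H.k2.trans (card_ge H)
  have hT : T.Nonempty := Finset.card_pos.1 (by omega)
  have hy : ∀ j ∈ T, y j ∈ Icc a (rr ym) := H.rng
  have hm : mean T y ∈ Icc a (rr ym) := FHeadX.mean_mem T hT y hy
  have hV := Full.var_nonneg T y
  obtain ⟨b1, b2, b3, b4⟩ := breg (h.sc.sm_g hq) T hT y (na := (a + mean T y) / 2)
    (nb := (rr ym + mean T y) / 2) (k1f := rr (gK1 R)) (k1n := rr (gK1 Rn))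
    (lof := -ro (fld R 56 3)) (hif := ro (fld R 56 4)) (lon := -ro (fld Rn 56 3))
    (hin := ro (fld Rn 56 4)) H.a0 hy
    (fun v hv => let p := H.hR v hv.1 hv.2; ⟨p.k1, p.k2l, p.k2h⟩)
    (fun v hv _ => let p := H.hRn v hv.1 hv.2; ⟨p.k1, p.k2l, p.k2h⟩) le_rfl le_rfl
  refine ⟨hn, FHeadX.sum_dev T hT y, rfl, fun j hj => (H.hR _ (hy j hj).1 (hy j hj).2).inR, H.hw,
    (H.hR _ hm.1 hm.2).inR, fun j hj => (b1 j hj).trans
      (mul_le_mul_of_nonneg_right (k1N_ge R Rn) (abs_nonneg _)), fun i hi l hl => ?_,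
    le_trans ?_ b3, b4.trans ?_, rr_nonneg _, rr_nonneg _, rr_nonneg _, rr_nonneg _, rng_AB R,
    rng_AB w, ?_, ccN_ok R _, hwf⟩
  · rw [sub_sub_sub_cancel_right]
    exact b2 i hi l hl
  · linarith [mul_le_mul_of_nonneg_right (k2N_ge 3 R Rn) hV]
  · linarith [mul_le_mul_of_nonneg_right (k2N_ge 4 R Rn) hV]
  · unfold b0N
    rw [← rr_max]
    generalize max (k2N 4 R Rn) (k2N 3 R Rn) = m
    have k0 : 0 < P.k := by linarith [H.k2]
    have k1 : (0 : ℝ) < P.k := by exact_mod_cast k0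
    have n1 : (0 : ℝ) < T.card := by exact_mod_cast hT.card_pos
    have h1 : rr tb ^ 2 * rr P.Vh ≤ rr (mulU (mulU tb tb) P.Vh) :=
      le_mulU (sq (rr tb) ▸ mulU_ge tb tb) le_rfl (rr_nonneg _)
    generalize mulU (mulU tb tb) P.Vh = wm at h1
    have h2 : Var T y / T.card ≤ rr wm / P.k := by
      rw [div_le_div_iff₀ n1 k1]
      exact H.var.trans (mul_le_mul_of_nonneg_right h1 n1.le)
    have h3 := rr_div_lt (k := 2 * P.k) (mulU m wm) (by omega)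
    have h4 : rr m * Var T y / (2 * T.card) ≤ rr (mulU m wm) / (2 * P.k) :=
      calc rr m * Var T y / (2 * T.card) = rr m * (Var T y / T.card) / 2 := by field_simp
        _ ≤ rr m * (rr wm / P.k) / 2 := by
          have := mul_le_mul_of_nonneg_left h2 (rr_nonneg m)
          linarith
        _ = rr m * rr wm / (2 * P.k) := by field_simp
        _ ≤ _ := div_le_div_of_nonneg_right (mulU_ge m wm) (by positivity)
    push_cast at h3
    rw [rr_min, add_assoc, rr_add]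
    rcases le_total (rr (gAB R)) (rr (gAB w) + rr (mulU m wm / (2 * P.k) + 1)) with e | e
    · exact Or.inl (min_eq_left e).ge
    · rw [min_eq_right e]
      exact Or.inr (by linarith)

/-- A number with 120 fractional bits. -/
noncomputable def r3 (a : ℕ) : ℝ := (a : ℝ) / 2 ^ 120

theorem r3_nonneg (a : ℕ) : 0 ≤ r3 a := by unfold r3; positivity

theorem r3_mono {a b : ℕ} (h : a ≤ b) : r3 a ≤ r3 b :=
  div_le_div_of_nonneg_right (by exact_mod_cast h) (by positivity)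

theorem r3_add (a b : ℕ) : r3 (a + b) = r3 a + r3 b := by unfold r3; push_cast; ring

theorem r3_mul (a b : ℕ) : r3 (a * b * b) = rr a * rr b ^ 2 := by unfold r3 rr; push_cast; ring

theorem r3_half (a : ℕ) : r3 a / 2 ≤ r3 (a / 2 + 1) := by
  have h : a ≤ (a / 2 + 1) * 2 := by omega
  have h' : (a : ℝ) ≤ ((a / 2 + 1 : ℕ) : ℝ) * 2 := by exact_mod_cast h
  unfold r3
  rw [div_right_comm]
  exact div_le_div_of_nonneg_right (by linarith) (by positivity)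

theorem r3_aN (k b c : ℕ) : rr b ^ (k - 1) / 2 * rr c ≤ r3 (aN k b c) := by
  have e : r3 (aN k b c) = rr (powU b (k - 1)) / 2 * rr c := by
    unfold r3 aN rr
    rw [Nat.shiftLeft_eq]
    push_cast
    ring
  rw [e]
  exact mul_le_mul_of_nonneg_right (by linarith [powU_ge b (k - 1)]) (rr_nonneg c)

theorem r3_cwN (k R b c : ℕ) : rr (ccN R b) * (rr b ^ (k - 2) * rr c ^ 2) ≤ r3 (cwN k R b c) := by
  unfold cwN
  rw [r3_mul, ← mul_assoc]
  exact mul_le_mul_of_nonneg_right (le_mulU' le_rfl (powU_ge b _) (rr_nonneg _)) (sq_nonneg _)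

theorem r3_m3N (k R : ℕ) : rr (gK1 R) ^ 2 / 2 * rr (gAB R) ^ (k - 2) ≤ r3 (m3N k R) := by
  refine le_trans ?_ (r3_half _)
  rw [r3_mul]
  linarith [mul_le_mul_of_nonneg_right (powU_ge (gAB R) (k - 2)) (sq_nonneg (rr (gK1 R)))]

theorem r3_m1N {k : ℕ} (R : ℕ) (hk : k ≠ 2) :
    rr (gK1 R) ^ 2 / 2 * rr (gNeg R) * rr (gAB R) ^ (k - 3) ≤ r3 (m1N k R) := by
  unfold m1N
  simp only [Bool.cond_eq_ite, Nat.beq_eq, if_neg hk]
  refine le_trans ?_ (r3_half _)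
  rw [r3_mul]
  linarith [mul_le_mul_of_nonneg_right (le_mulU' le_rfl (powU_ge (gAB R) (k - 3))
    (rr_nonneg (gNeg R))) (sq_nonneg (rr (gK1 R)))]

/-- The weight of the largest deviation. -/
noncomputable def wfR (P : EP) : ℝ := bif P.uni then 1 else ((P.k : ℝ) - 1) / P.k

theorem r3_wkN (P : EP) (hk : 2 ≤ P.k) (w c : ℕ) :
    rr (gAB w) ^ (P.k - 2) * rr c ^ 2 * wfR P ≤ r3 (wkN P w c) := by
  unfold wkN wfR
  have h1 := powU_ge (gAB w) (P.k - 2)
  cases P.uni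
  · simp only [cond_false]
    rw [r3_mul, mul_right_comm]
    refine mul_le_mul_of_nonneg_right ?_ (sq_nonneg _)
    have h2 := rr_div_lt (k := P.k) (powU (gAB w) (P.k - 2) * (P.k - 1)) (by omega)
    rw [rr_muln, Nat.cast_sub (by omega), Nat.cast_one, mul_div_assoc] at h2
    have k2 : (2 : ℝ) ≤ P.k := by exact_mod_cast hk
    exact (mul_le_mul_of_nonneg_right h1 (div_nonneg (by linarith) (by linarith))).trans h2.le
  · simp only [cond_true]
    rw [r3_mul, mul_one]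
    exact mul_le_mul_of_nonneg_right h1 (sq_nonneg _)

theorem wfR_ok (H : HIn B P R Rn w ym tb q T y a) : (T.card : ℝ) - 1 ≤ wfR P * T.card := by
  unfold wfR
  cases hu : P.uni
  · have k2 : (2 : ℝ) ≤ P.k := by exact_mod_cast H.k2
    rw [cond_false, H.ex hu, div_mul_cancel₀ _ (by linarith)]
  · rw [cond_true]
    linarith

theorem wfR_nonneg (hk : 2 ≤ P.k) : 0 ≤ wfR P := by
  unfold wfR
  have k2 : (2 : ℝ) ≤ P.k := by exact_mod_cast hk
  cases P.uni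
  · exact div_nonneg (by linarith) (by linarith)
  · exact zero_le_one

/-- The extra factors in the uniform run. -/
theorem pw (H : HIn B P R Rn w ym tb q T y a) {x : ℕ} (hx : x ≤ max (gAB R) (gAB w)) {i : ℕ}
    (hi : i ≤ 3) : rr x ^ (T.card - i) ≤ rr x ^ (P.k - i) * 0.7 ^ (T.card - P.k) := by
  cases hu : P.uni
  · rw [H.ex hu, Nat.sub_self, pow_zero, mul_one]
  · obtain ⟨h1, h2, h3⟩ := H.un hu
    rw [show T.card - i = P.k - i + (T.card - P.k) by omega, pow_add]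
    exact mul_le_mul_of_nonneg_left (pow_le_pow_left₀ (rr_nonneg x)
      ((rr_le.2 (hx.trans h3)).trans R07_le) _) (pow_nonneg (rr_nonneg x) _)

theorem upper (h : BOK B Q E) (hq : q ∈ B.I) (H : HIn B P R Rn w ym tb q T y a) {up dn : ℕ}
    (D : Dom B.Z2 P R w ym (aN P.k (b0N P R Rn w tb) (k2N 4 R Rn))
      (aN P.k (b0N P R Rn w tb) (k2N 3 R Rn)) (cwN P.k R (b0N P R Rn w tb) (k1N R Rn))
      (wkN P w (k1N R Rn)) up dn) :
    ∏ j ∈ T, B.g 0 q (y j) - B.g 0 q (mean T y) ^ T.card ≤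
      r3 up * 0.7 ^ (T.card - P.k) * Var T y := by
  have G := mkHB h hq H (wfR_ok H)
  have hb : b0N P R Rn w tb ≤ max (gAB R) (gAB w) := (min_le_left _ _).trans (le_max_left _ _)
  have p1 := pw H hb (i := 1) (by omega)
  have p2 := pw H hb (i := 2) (by omega)
  have p3 := pw H (le_max_left _ _) (i := 3) le_rfl
  have p4 := pw H (le_max_right _ _) (i := 2) (by omega)
  have s0 : (0 : ℝ) ≤ 0.7 ^ (T.card - P.k) := by positivity
  generalize (0.7 : ℝ) ^ (T.card - P.k) = s at *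
  generalize b0N P R Rn w tb = b at *
  generalize k1N R Rn = c at *
  have A : ∀ x, rr b ^ (T.card - 1) / 2 * rr x ≤ r3 (aN P.k b x) * s := fun x => by
    linarith [mul_le_mul_of_nonneg_right p1 (rr_nonneg x),
      mul_le_mul_of_nonneg_right (r3_aN P.k b x) s0]
  have C : rr (ccN R b) * (rr b ^ (T.card - 2) * rr c ^ 2) ≤ r3 (cwN P.k R b c) * s := by
    linarith [mul_le_mul_of_nonneg_left (mul_le_mul_of_nonneg_right p2 (sq_nonneg (rr c)))
      (rr_nonneg (ccN R b)), mul_le_mul_of_nonneg_right (r3_cwN P.k R b c) s0]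
  have A4 := A (k2N 4 R Rn)
  have A3 := A (k2N 3 R Rn)
  have M : ∀ {x : ℕ}, x ≤ up → r3 x * s ≤ r3 up * s := fun hx =>
    mul_le_mul_of_nonneg_right (r3_mono hx) s0
  have hT : T.Nonempty := FHessX.ne G
  refine G.up (ng := rr (gNeg R)) (m1 := r3 (m1N P.k R) * s)
    (m2 := r3 (m2N P w (wkN P w c)) * s) (mul_nonneg (r3_nonneg _) s0) ?_ ?_ ?_ ?_ ?_ ?_
  · rw [lo_eq]
    linarith [rr_nonneg (gLop R)]
  · have u := D.u1
    unfold u1N at u
    simp only [Bool.cond_eq_ite, Bool.or_eq_true, Nat.ble_eq, Nat.beq_eq] at u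
    by_cases e1 : ym ≤ B.Z2
    · exact Or.inl fun hz => FL.jensen h hq hT fun j hj =>
        ⟨H.a0.trans (H.rng j hj).1, (H.rng j hj).2.trans (rr_le.2 e1), hz j hj⟩
    by_cases e2 : gHip R = 0
    · exact Or.inr (Or.inl (hi_nonpos e2))
    rw [if_neg (not_or.2 ⟨e1, e2⟩)] at u
    exact Or.inr (Or.inr (A4.trans (M u)))
  · have u := D.u2
    unfold u2N at u
    simp only [Bool.cond_eq_ite, Nat.beq_eq, ev_iff] at u
    by_cases e1 : gNeg R = 0
    · exact Or.inl (lo_nonneg e1)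
    rw [if_neg e1] at u
    have u3 : Even T.card → aN P.k b (k2N 3 R Rn) ≤ up := fun e => by
      cases hu : P.uni
      · rwa [hu, if_neg Bool.false_ne_true, if_pos (H.ex hu ▸ e)] at u
      · rw [if_pos hu] at u
        exact (le_max_left _ _).trans u
    have u4 : ¬Even T.card → aN P.k b (k2N 4 R Rn) + cwN P.k R b c ≤ up := fun e => by
      cases hu : P.uni
      · rwa [hu, if_neg Bool.false_ne_true, if_neg (H.ex hu ▸ e)] at u
      · rw [if_pos hu] at u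
        exact (le_max_right _ _).trans u
    by_cases e : Even T.card
    · exact Or.inr (Or.inl ⟨e, A3.trans (M (u3 e))⟩)
    · have := M (u4 e)
      rw [r3_add, add_mul] at this
      exact Or.inr (Or.inr ⟨Nat.not_even_iff_odd.1 e, by linarith⟩)
  · by_cases e : P.k = 2
    · refine Or.inl ⟨?_, mul_nonneg (r3_nonneg _) s0⟩
      cases hu : P.uni
      · exact (H.ex hu).trans e
      · have := (H.un hu).1
        omega
    · right
      linarith [mul_le_mul_of_nonneg_right (r3_m1N R e) s0, mul_le_mul_of_nonneg_left p3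
        (mul_nonneg (div_nonneg (sq_nonneg (rr (gK1 R))) zero_le_two) (rr_nonneg (gNeg R)))]
  · by_cases e : gNeg w = 0 ∨ (Even P.k ∧ P.uni = false)
    · refine Or.inl ⟨?_, mul_nonneg (r3_nonneg _) s0⟩
      rcases e with e | e
      · exact Or.inr (lo_nonneg e)
      · exact Or.inl (H.ex e.2 ▸ e.1)
    · right
      have e' : m2N P w (wkN P w c) = wkN P w c := by
        unfold m2N
        simp only [Bool.cond_eq_ite, Bool.or_eq_true, Bool.and_eq_true, Nat.beq_eq, ev_iff,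
          Bool.not_eq_true']
        exact if_neg e
      rw [e']
      linarith [mul_le_mul_of_nonneg_right (r3_wkN P H.k2 w c) s0,
        mul_le_mul_of_nonneg_right p4 (mul_nonneg (sq_nonneg (rr c)) (wfR_nonneg H.k2))]
  · rcases D.u3 with u | u | u
    · exact Or.inl (lo_pos u ▸ rr_pos u)
    · exact Or.inr (Or.inl (hi_neg u ▸ neg_lt_zero.2 (rr_pos u)))
    · have := M u
      rw [r3_add, add_mul] at this
      exact Or.inr (Or.inr this)

theorem lower (h : BOK B Q E) (hq : q ∈ B.I) (H : HIn B P R Rn w ym tb q T y a) {up dn : ℕ}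
    (D : Dom B.Z2 P R w ym (aN P.k (b0N P R Rn w tb) (k2N 4 R Rn))
      (aN P.k (b0N P R Rn w tb) (k2N 3 R Rn)) (cwN P.k R (b0N P R Rn w tb) (k1N R Rn))
      (wkN P w (k1N R Rn)) up dn) (hu : P.uni = false) :
    B.g 0 q (mean T y) ^ T.card - ∏ j ∈ T, B.g 0 q (y j) ≤ r3 dn * Var T y := by
  have G := mkHB h hq H (wfR_ok H)
  have hk := (H.ex hu).symm
  generalize b0N P R Rn w tb = b at *
  generalize k1N R Rn = c at *
  have A4 := r3_aN P.k b (k2N 4 R Rn)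
  have A3 := r3_aN P.k b (k2N 3 R Rn)
  have C := r3_cwN P.k R b c
  refine G.dn (m2 := r3 (m4N P.k w (wkN P w c))) (r3_nonneg _) ?_ ?_ ?_ ?_ <;> rw [← hk]
  · have u := D.d1
    unfold d1N at u
    simp only [Bool.cond_eq_ite, Nat.beq_eq] at u
    by_cases e : gHip R = 0
    · exact Or.inl (hi_nonpos e)
    rw [if_neg e] at u
    have := r3_mono u
    rw [r3_add] at this
    exact Or.inr (by linarith)
  · have u := D.d2
    unfold d2N at u
    simp only [Bool.cond_eq_ite, Nat.beq_eq, ev_iff] at u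
    by_cases e1 : gNeg R = 0
    · exact Or.inl (lo_nonneg e1)
    rw [if_neg e1] at u
    by_cases e : Even P.k
    · rw [if_pos e] at u
      have := r3_mono u
      rw [r3_add] at this
      exact Or.inr (Or.inr ⟨e, by linarith⟩)
    · rw [if_neg e] at u
      exact Or.inr (Or.inl ⟨Nat.not_even_iff_odd.1 e, A3.trans (r3_mono u)⟩)
  · by_cases e : ¬Even P.k ∧ gHip w = 0
    · exact Or.inl ⟨Nat.not_even_iff_odd.1 e.1, hi_nonpos e.2, r3_nonneg _⟩
    · right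
      have e' : m4N P.k w (wkN P w c) = wkN P w c := by
        unfold m4N
        simp only [Bool.cond_eq_ite, Bool.and_eq_true, Nat.beq_eq, Bool.not_eq_true',
          ← Bool.not_eq_true, ev_iff]
        exact if_neg e
      rw [e']
      exact r3_wkN P H.k2 w c
  · rcases D.d3 with u | u | u
    · exact Or.inl (lo_pos u ▸ rr_pos u)
    · exact Or.inr (Or.inl (hi_neg u ▸ neg_lt_zero.2 (rr_pos u)))
    · have := r3_mono u
      rw [r3_add] at this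
      exact Or.inr (Or.inr (by linarith [r3_m3N P.k R]))

end YHessX

theorem hess_spec {α : Type} (h : BOK B Q E) (P : EP) (R Rn w ym tb : ℕ) (kk : ℕ → ℕ → α) :
    ∃ up dn, hess B P R Rn w ym tb kk = kk up dn ∧ ∀ q ∈ B.I, ∀ (ι : Type) (T : Finset ι)
      (y : ι → ℝ) (a : ℝ), HIn B P R Rn w ym tb q T y a →
      ∏ j ∈ T, B.g 0 q (y j) - B.g 0 q (mean T y) ^ T.card ≤
        (up : ℝ) / 2 ^ 120 * 0.7 ^ (T.card - P.k) * Var T y ∧
      (P.uni = false → B.g 0 q (mean T y) ^ T.card - ∏ j ∈ T, B.g 0 q (y j) ≤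
        (dn : ℝ) / 2 ^ 120 * Var T y) := by
  obtain ⟨up, dn, e, D⟩ := YHessX.hess_eq B P R Rn w ym tb kk
  exact ⟨up, dn, e, fun q hq ι T y a H => ⟨YHessX.upper h hq H D, YHessX.lower h hq H D⟩⟩

end Pool.Agent.MP_39fec4_gt.K

end

section

set_option autoImplicit false

namespace Pool.Agent.MP_39fec4_gt.K

open Set MeasureTheory Full

variable {B : Blk} {Q : ℕ → ℕ → ℕ} {E : ℕ → ℕ} {q : ℝ} {ι : Type} {T : Finset ι}

namespace YGainX

theorem ab (r : ℕ) : -rr (gAB r) ≤ -ro (fld r 56 0) ∧ ro (fld r 56 1) ≤ rr (gAB r) := by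
  have h0 : ro (fld r 56 0) ≤ ro (max (fld r 56 0) (fld r 56 1)) := ro_le.2 (le_max_left _ _)
  have h1 : ro (fld r 56 1) ≤ ro (max (fld r 56 0) (fld r 56 1)) := ro_le.2 (le_max_right _ _)
  have h2 := le_max_left (ro (max (fld r 56 0) (fld r 56 1))) 0
  rw [← rr_sub_OFF] at h2
  unfold gAB
  exact ⟨by linarith, by linarith⟩

theorem lo (r : ℕ) : -ro (fld r 56 0) = rr (gLop r) - rr (gNeg r) := by
  unfold gLop gNeg
  rw [rr_sub_OFF, rr_OFF_sub]
  rcases le_total (ro (fld r 56 0)) 0 with h | h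
  · rw [max_eq_left (neg_nonneg.2 h), max_eq_right h, sub_zero]
  · rw [max_eq_right (neg_nonpos.2 h), max_eq_left h, zero_sub]

theorem avg (u v : ℕ) : ro u / 4 + 3 * ro v / 4 ≤ ro ((u + 3 * v) / 4 + 1) := by
  have h := rr_div_lt (k := 4) (u + 3 * v) (by norm_num)
  rw [rr_add, rr_nmul] at h
  rw [ro_eq, ro_eq, ro_eq]
  push_cast at h
  linarith

theorem avg' (u v : ℕ) : ro u / 4 + 3 * ro v / 4 ≤ rr ((u + 3 * v) / 4 + 1 - OFF) := by
  rw [rr_sub_OFF]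
  exact (avg u v).trans (le_max_left _ _)

theorem num (b0 kh zn k1 m : ℕ) {sW : ℝ} (h : sW ≤ rr m) :
    rr b0 ^ 2 * rr kh / 2 + rr zn * rr k1 ^ 2 / 2 + 0.1361 * rr k1 ^ 3 * sW ≤
      (Nat.cast (b0 * b0 * kh / 2 + 1 + zn * k1 * k1 / 2 + 1 +
        (k1 * k1 * k1 * (m * 1361 / 10000 + 1)) >>> (40 : ℕ) + 1) : ℝ) / 2 ^ 120 := by
  have h1 := rr_div_lt (k := 2) (b0 * b0 * kh) (by norm_num)
  have h2 := rr_div_lt (k := 2) (zn * k1 * k1) (by norm_num)
  have h3 := rr_div_lt (k := 10000) (m * 1361) (by norm_num)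
  have h4 := rr_shr_lt (k1 * k1 * k1 * (m * 1361 / 10000 + 1)) 40
  rw [rr_muln] at h3
  generalize m * 1361 / 10000 + 1 = u at h3 h4 ⊢
  rw [rr_mul, rr_mul] at h1 h2
  rw [rr_mul, rr_mul, rr_mul] at h4
  have e : ∀ n : ℕ, (n : ℝ) / 2 ^ 120 = rr n / 2 ^ 80 := fun n => by
    unfold rr
    rw [div_div, ← pow_add]
  have e2 : b0 * b0 * kh / 2 + 1 + zn * k1 * k1 / 2 + 1 + (k1 * k1 * k1 * u) >>> 40 + 1 =
      (b0 * b0 * kh / 2 + 1) + (zn * k1 * k1 / 2 + 1) + ((k1 * k1 * k1 * u) >>> 40 + 1) := by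
    ring
  rw [e, e2, rr_add, rr_add]
  generalize rr (b0 * b0 * kh / 2 + 1) = x1 at h1 ⊢
  generalize rr (zn * k1 * k1 / 2 + 1) = x2 at h2 ⊢
  generalize rr ((k1 * k1 * k1 * u) >>> 40 + 1) = x3 at h4 ⊢
  have h5 : 0.1361 * sW ≤ rr u := by
    push_cast at h3
    linarith
  have h6 := mul_le_mul_of_nonneg_left h5 (pow_nonneg (rr_nonneg k1) 3)
  push_cast at h1 h2
  rw [le_div_iff₀ (by positivity)]
  have h7 : rr k1 * rr k1 * 2 ^ 40 * rr k1 * 2 ^ 40 * rr u * 2 ^ 40 / 2 ^ 40 =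
      rr k1 ^ 3 * rr u * 2 ^ 80 := by
    field_simp
  rw [h7] at h4
  linarith

theorem far_num {Bb fb f1 f2 c W : ℝ} {k n : ℕ} (hc : 0 < c) (hk : 3 ≤ k) (hn : k ≤ n)
    (b0 : 0 ≤ Bb) (b7 : Bb ≤ 0.7) (e1 : Bb ^ (k - 1) * c ^ 3 ≤ fb ^ (k - 1))
    (e2 : Bb ^ (k - 2) * c ^ 2 ≤ fb ^ (k - 2)) (p2 : 0 ≤ f2) (hW : 0 ≤ W) :
    (Bb ^ (n - 1) / 2 * (f2 / c ^ 3) + Bb ^ (n - 2) * ((f1 / c ^ 2) ^ 2 + (f1 / c ^ 2) ^ 2 / 2)) *
      W * c ^ 6 ≤ (fb ^ (k - 1) * f2 / 2 + 2 * fb ^ (k - 2) * f1 ^ 2) * 0.7 ^ (n - k) * W := by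
  have a1 : Bb ^ (n - k) ≤ 0.7 ^ (n - k) := pow_le_pow_left₀ b0 b7 _
  have a0 : 0 ≤ Bb ^ (n - k) := pow_nonneg b0 _
  rw [show n - 1 = k - 1 + (n - k) by omega, show n - 2 = k - 2 + (n - k) by omega, pow_add,
    pow_add]
  have q1 : 0 ≤ Bb ^ (k - 1) * c ^ 3 := by positivity
  have q2 : 0 ≤ Bb ^ (k - 2) * c ^ 2 := by positivity
  have e : (Bb ^ (k - 1) * Bb ^ (n - k) / 2 * (f2 / c ^ 3) + Bb ^ (k - 2) * Bb ^ (n - k) *
      ((f1 / c ^ 2) ^ 2 + (f1 / c ^ 2) ^ 2 / 2)) * W * c ^ 6 =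
      (Bb ^ (k - 1) * c ^ 3 * f2 / 2 + 3 / 2 * (Bb ^ (k - 2) * c ^ 2) * f1 ^ 2) * Bb ^ (n - k) *
        W := by
    field_simp
    ring
  rw [e]
  refine mul_le_mul_of_nonneg_right (mul_le_mul ?_ a1 a0 ?_) hW
  · have := mul_le_mul_of_nonneg_right e1 p2
    have := mul_le_mul_of_nonneg_right e2 (sq_nonneg f1)
    have := mul_nonneg q2 (sq_nonneg f1)
    linarith
  · have := mul_nonneg (q1.trans e1) p2
    have := mul_nonneg (q2.trans e2) (sq_nonneg f1)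
    linarith

theorem pw {fb c : ℝ} (hc : 1 ≤ c) (h0 : 0 ≤ fb) {e m d : ℕ} (h : d ≤ e * m) :
    (fb / c ^ e) ^ m * c ^ d ≤ fb ^ m := by
  have c0 : 0 < c := by linarith
  rw [div_pow, ← pow_mul, div_mul_eq_mul_div, div_le_iff₀ (by positivity)]
  exact mul_le_mul_of_nonneg_left (pow_le_pow_right₀ hc h) (pow_nonneg h0 _)

end YGainX

open YGainX

theorem hess3_spec (h : BOK B Q E) (hq : q ∈ B.I) {P : EP} {R Rn w ym tb : ℕ} {y : ι → ℝ} {a : ℝ}
    (hy : HIn B P R Rn w ym tb q T y a) (hu : P.uni = false) (h3 : P.k = 3)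
    (hs : rr P.Vh ≤ rr P.sV ^ 2) : ∏ j ∈ T, B.g 0 q (y j) - B.g 0 q (mean T y) ^ T.card ≤
      (hess3 P R Rn w tb : ℝ) / 2 ^ 120 * Var T y := by
  have hc : T.card = 3 := (hy.ex hu).trans h3
  have hT : T.Nonempty := Finset.card_pos.1 (by omega)
  have hyI : ∀ j ∈ T, y j ∈ Icc a (rr ym) := fun j hj => hy.rng j hj
  have hm : mean T y ∈ Icc a (rr ym) := FHeadX.mean_mem T hT y hyI
  have hW := Full.var_nonneg T y
  have hV : Var T y ≤ rr tb ^ 2 * rr P.Vh := by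
    have := hy.var
    rw [hc, h3] at this
    push_cast at this
    linarith
  obtain ⟨b1, b2, b3, b4⟩ := breg (h.sc.sm_g hq) T hT y (na := (a + mean T y) / 2)
    (nb := (rr ym + mean T y) / 2) hy.a0 hyI
    (fun v hv => ⟨(hy.hR v hv.1 hv.2).k1, (hy.hR v hv.1 hv.2).k2l, (hy.hR v hv.1 hv.2).k2h⟩)
    (fun v hv _ => ⟨(hy.hRn v hv.1 hv.2).k1, (hy.hRn v hv.1 hv.2).k2l, (hy.hRn v hv.1 hv.2).k2h⟩)
    le_rfl le_rfl
  simp only [hess3, forceN_eq]
  have c1 := rr_div_lt (k := 2) (gK1 R + gK1 Rn) (by norm_num)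
  have c2 := avg' (fld R 56 4) (fld Rn 56 4)
  have c3 := avg' (fld R 56 3) (fld Rn 56 3)
  have c4 : Var T y ≤ rr (mulU (mulU tb tb) P.Vh) :=
    hV.trans (le_mulU (by rw [sq]; exact mulU_ge tb tb) le_rfl (rr_nonneg _))
  rw [rr_add] at c1
  generalize (gK1 R + gK1 Rn) / 2 + 1 = k1 at c1 ⊢
  generalize (fld R 56 4 + 3 * fld Rn 56 4) / 4 + 1 - OFF = kh at c2 ⊢
  generalize (fld R 56 3 + 3 * fld Rn 56 3) / 4 + 1 - OFF = kl at c3 ⊢
  generalize mulU (mulU tb tb) P.Vh = wm at c4 ⊢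
  have c5 := rr_div_lt (k := 6) (mulU (max kh kl) wm) (by norm_num)
  have c6 : max (rr kh) (rr kl) * Var T y ≤ rr (mulU (max kh kl) wm) :=
    le_mulU (rr_max kh kl).ge c4 hW
  have c7 := rr_div_lt (k := 6) (mulU kl wm) (by norm_num)
  have c8 : rr kl * Var T y ≤ rr (mulU kl wm) := le_mulU le_rfl c4 hW
  have c9 := rr_sub_ge (mulU kl wm / 6 + 1 + gNeg w) (gLop w)
  rw [rr_add] at c9
  push_cast at c1 c5 c7
  have hb : HB T (fun j => B.g 0 q (y j)) (fun j => y j - mean T y) (B.g 0 q (mean T y)) (Var T y)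
      (-ro (fld R 56 0)) (ro (fld R 56 1)) (-ro (fld w 56 0)) (ro (fld w 56 1)) (rr k1)
      (rr (gK1 R)) (rr kh) (rr kl) (rr (gAB R)) (rr (gAB w))
      (rr (min (gAB R) (gAB w + mulU (max kh kl) wm / 6 + 1))) 1 1 := by
    refine ⟨by omega, FHeadX.sum_dev T hT y, rfl, fun j hj => ?_, hy.hw, ?_, fun j hj => ?_,
      fun i hi l hl => by rw [sub_sub_sub_cancel_right]; exact b2 i hi l hl, ?_, ?_,
      rr_nonneg _, rr_nonneg _, rr_nonneg _, rr_nonneg _, ab R, ab w, ?_, Or.inl le_rfl,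
      by linarith⟩
    · exact (hy.hR _ (hyI j hj).1 (hyI j hj).2).inR
    · exact (hy.hR _ hm.1 hm.2).inR
    · exact (b1 j hj).trans (mul_le_mul_of_nonneg_right c1.le (abs_nonneg _))
    · refine le_trans ?_ b3
      have := mul_le_mul_of_nonneg_right c3 hW
      linarith
    · refine b4.trans ?_
      have := mul_le_mul_of_nonneg_right c2 hW
      linarith
    · rcases le_total (gAB R) (gAB w + mulU (max kh kl) wm / 6 + 1) with e | e
      · rw [min_eq_left e]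
        exact Or.inl le_rfl
      · rw [min_eq_right e, hc, add_assoc, rr_add]
        push_cast
        exact Or.inr (by linarith)
  have h7 := hb.three hc (zn := rr (mulU kl wm / 6 + 1 + gNeg w - gLop w)) (sW := rr tb * rr P.sV)
    (rr_nonneg _) (by rw [lo]; linarith) (mul_nonneg (rr_nonneg _) (rr_nonneg _))
    (hV.trans (by rw [mul_pow]; exact mul_le_mul_of_nonneg_left hs (sq_nonneg _)))
  exact h7.trans (mul_le_mul_of_nonneg_right (num _ _ _ _ _ (mulU_ge tb P.sV)) hW)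

theorem gain_spec (h : BOK B Q E) (hq : q ∈ B.I) {Rg Rn : ℕ} {y : ι → ℝ} {a b lw Wm : ℝ}
    (hT : T.Nonempty) (ha : 0 ≤ a) (hb : b ≤ rr B.z2) (hy : ∀ j ∈ T, a ≤ y j ∧ y j ≤ b)
    (hR : ∀ v, a ≤ v → v ≤ b → PtOK B Rg q v)
    (hRn : ∀ v, (a + mean T y) / 2 ≤ v → v ≤ (b + mean T y) / 2 → PtOK B Rn q v)
    (h0 : 0 ≤ lw) (hl : lw ≤ B.g 0 q (mean T y) ^ T.card) (hW : Var T y ≤ Wm) :
    ∏ j ∈ T, B.g 0 q (y j) - B.g 0 q (mean T y) ^ T.card ≤
      -(lw * rr (gainC Rg Rn) / (2 + rr (gainC Rg Rn) * Wm) * Var T y) := by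
  rcases Nat.eq_zero_or_pos (gainC Rg Rn) with e | e
  · rw [e, rr_zero, mul_zero, zero_div, zero_mul, neg_zero, sub_nonpos]
    exact FL.jensen h hq hT (FL.of_le h hq fun j hj => ⟨ha.trans (hy j hj).1, (hy j hj).2.trans hb⟩)
  have hv : max (fld Rg 56 7) (fld Rn 56 7) < INV ∧
      gainC Rg Rn = OFF - ((fld Rg 56 7 + 3 * fld Rn 56 7) / 4 + 1) := by
    unfold gainC at e ⊢
    cases hb : Nat.blt (max (fld Rg 56 7) (fld Rn 56 7)) INV
    · rw [hb, cond_false] at e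
      exact absurd e (lt_irrefl 0)
    · exact ⟨Nat.blt_eq.mp hb, cond_true _ _⟩
  have c0 := rr_pos e
  have c1 : rr (gainC Rg Rn) ≤ -ro (fld Rg 56 7) / 4 + 3 * -ro (fld Rn 56 7) / 4 := by
    rw [hv.2, rr_OFF_sub] at c0 ⊢
    have c2 := avg (fld Rg 56 7) (fld Rn 56 7)
    rcases le_total (-ro ((fld Rg 56 7 + 3 * fld Rn 56 7) / 4 + 1)) 0 with e1 | e1
    · rw [max_eq_right e1] at c0
      exact absurd c0 (lt_irrefl 0)
    · rw [max_eq_left e1]
      linarith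
  have pos : ∀ v ∈ Icc a b, 0 < B.g 0 q v := fun v hv =>
    (h.hd q hq).pos v (ha.trans hv.1) (hv.2.trans hb)
  have h1 := gain (h.sc.sm_g hq) T hT y (na := (a + mean T y) / 2) (nb := (b + mean T y) / 2)
    (cf := -ro (fld Rg 56 7)) (cn := -ro (fld Rn 56 7)) ha (fun j hj => hy j hj) pos
    (fun v hv' => by
      rw [neg_neg]
      exact (hR v hv'.1 hv'.2).nc ((le_max_left _ _).trans_lt hv.1) (pos v hv'))
    (fun v hv' hv'' => by
      rw [neg_neg]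
      exact (hRn v hv'.1 hv'.2).nc ((le_max_right _ _).trans_lt hv.1) (pos v hv''))
    le_rfl le_rfl (c0.le.trans c1)
  change _ ≤ B.g 0 q (mean T y) ^ T.card / _ at h1
  have hV := Full.var_nonneg T y
  generalize -ro (fld Rg 56 7) / 4 + 3 * -ro (fld Rn 56 7) / 4 = C at c1 h1
  generalize rr (gainC Rg Rn) = c at c0 c1 ⊢
  generalize B.g 0 q (mean T y) ^ T.card = G at hl h1 ⊢
  generalize Var T y = V at hW hV h1 ⊢
  have C0 : 0 < C := c0.trans_le c1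
  have d1 : 0 < 2 + C * V := by positivity
  have d2 : 0 < 2 + c * Wm := by
    have := mul_nonneg c0.le (hV.trans hW)
    linarith
  have e1 : G / (1 + C * V / 2) = G - G * (C / (2 + C * V)) * V := by
    field_simp
    ring
  have e2 : c / (2 + c * Wm) ≤ C / (2 + C * V) := by
    rw [div_le_div_iff₀ d2 d1]
    have := mul_le_mul_of_nonneg_left hW (mul_pos c0 C0).le
    linarith
  have e3 := mul_le_mul_of_nonneg_right (mul_le_mul hl e2 (div_pos c0 d2).le (h0.trans hl)) hV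
  rw [mul_div_assoc]
  linarith

/-- The simple second order bound far out; `c` is the ratio of the point to the start of the
tail. -/
theorem far_hess (h : BOK B Q E) (hq : q ∈ B.I) {y : ι → ℝ} {k ylo : ℕ} {c : ℝ} (hc : 1 ≤ c)
    (hk : 3 ≤ k) (hn : k ≤ T.card) (hy : ∀ j ∈ T, rr ylo * c ^ 2 ≤ y j) {fb : ℕ}
    (hf : fb = bif Nat.ble 4 k then far0 B ylo else farc B ylo) (h7 : fb ≤ R07)
    (h1 : far1b B ylo < BIG) (h2 : far2 B ylo < BIG) :
    |∏ j ∈ T, B.g 0 q (y j) - B.g 0 q (mean T y) ^ T.card| * c ^ 6 ≤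
      (rr fb ^ (k - 1) * rr (far2 B ylo) / 2 + 2 * rr fb ^ (k - 2) * rr (far1b B ylo) ^ 2) *
        0.7 ^ (T.card - k) * Var T y := by
  have c0 : 0 < c := by linarith
  have hT : T.Nonempty := Finset.card_pos.1 (by omega)
  have a0 : 0 ≤ rr ylo * c ^ 2 := mul_nonneg (rr_nonneg _) (sq_nonneg c)
  have hbig : fb < BIG := h7.trans_lt (by decide)
  obtain ⟨e, e1, e2, e3⟩ : ∃ e : ℕ, 3 ≤ e * (k - 1) ∧ 2 ≤ e * (k - 2) ∧
      ∀ v, rr ylo * c ^ 2 ≤ v → |B.g 0 q v| ≤ rr fb / c ^ e := by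
    cases hb : Nat.ble 4 k
    · rw [hb, cond_false] at hf
      subst hf
      exact ⟨3, by omega, by omega, fun v hv => h.far.fc ylo hbig q hq c v hc hv⟩
    · rw [hb, cond_true] at hf
      subst hf
      have := Nat.le_of_ble_eq_true hb
      exact ⟨1, by omega, by omega, fun v hv => by
        rw [pow_one]
        exact h.far.f0 ylo hbig q hq c v hc hv⟩
  have hyI : ∀ j ∈ T, y j ∈ Icc (rr ylo * c ^ 2) (∑ i ∈ T, y i) := fun j hj =>
    ⟨hy j hj, Finset.single_le_sum (fun i hi => a0.trans (hy i hi)) hj⟩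
  have hm : mean T y ∈ Icc (rr ylo * c ^ 2) (∑ i ∈ T, y i) := FHeadX.mean_mem T hT y hyI
  have hd : ∀ v ∈ Icc (rr ylo * c ^ 2) (∑ i ∈ T, y i), |B.g 1 q v| ≤ rr (far1b B ylo) / c ^ 2 ∧
      -(rr (far2 B ylo) / c ^ 3) ≤ B.g 2 q v ∧ B.g 2 q v ≤ rr (far2 B ylo) / c ^ 3 := fun v hv =>
    ⟨far1b_bd h.sc h1 hq hc hv.1, abs_le.1 (h.far.f2 ylo h2 q hq c v hc hv.1)⟩
  obtain ⟨b1, b2, b3, b4⟩ := breg (h.sc.sm_g hq) T hT y a0 hyI hd (fun v _ hv => hd v hv)
    le_rfl le_rfl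
  have p0 := rr_nonneg fb
  have p1 : 0 ≤ rr (far1b B ylo) / c ^ 2 := div_nonneg (rr_nonneg _) (by positivity)
  have p2 : 0 ≤ rr (far2 B ylo) / c ^ 3 := div_nonneg (rr_nonneg _) (by positivity)
  have hb : HB T (fun j => B.g 0 q (y j)) (fun j => y j - mean T y) (B.g 0 q (mean T y)) (Var T y)
      (-(rr fb / c ^ e)) (rr fb / c ^ e) (-(rr fb / c ^ e)) (rr fb / c ^ e)
      (rr (far1b B ylo) / c ^ 2) (rr (far1b B ylo) / c ^ 2) (rr (far2 B ylo) / c ^ 3)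
      (rr (far2 B ylo) / c ^ 3) (rr fb / c ^ e) (rr fb / c ^ e) (rr fb / c ^ e) 1 1 := by
    refine ⟨by omega, FHeadX.sum_dev T hT y, rfl, fun j hj => abs_le.1 (e3 _ (hy j hj)),
      abs_le.1 (e3 _ hm.1), abs_le.1 (e3 _ hm.1), fun j hj => ?_,
      fun i hi l hl => by rw [sub_sub_sub_cancel_right]; exact b2 i hi l hl, ?_, ?_, p1, p1, p2, p2,
      ⟨le_rfl, le_rfl⟩, ⟨le_rfl, le_rfl⟩, Or.inl le_rfl, Or.inl le_rfl, by linarith⟩
    · exact (b1 j hj).trans (le_of_eq (by rw [add_self_div_two]; rfl))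
    · exact le_trans (le_of_eq (by ring)) b3
    · exact b4.trans (le_of_eq (by ring))
  have h3 := mul_le_mul_of_nonneg_right hb.simple (pow_pos c0 6).le
  rw [max_self] at h3
  refine h3.trans (far_num c0 hk hn (by positivity) ?_ (pw hc p0 e1) (pw hc p0 e2) (rr_nonneg _)
    (Full.var_nonneg T y))
  exact (div_le_self p0 (one_le_pow₀ hc)).trans ((rr_le.2 h7).trans R07_le)

end Pool.Agent.MP_39fec4_gt.K

end

section

set_option autoImplicit false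

namespace Pool.Agent.MP_39fec4_gt.K

open Set MeasureTheory Full

variable {B : Blk} {Q : ℕ → ℕ → ℕ} {E : ℕ → ℕ} {q : ℝ} {ι : Type} {T : Finset ι}

namespace YCellEX

def yl (P : EP) (sa : ℕ) : ℕ := mulD P.xa0 (tS sa)

def yu (P : EP) (sb : ℕ) : ℕ := mulU P.xb1 (tS sb)

def tl (P : EP) (sa : ℕ) : ℕ := mulD P.ra (tS sa)

def th (P : EP) (sb : ℕ) : ℕ := mulU P.rb (tS sb)

def wa (P : EP) (sa : ℕ) : ℕ := max (yl P sa) (tl P sa / P.k)

def wb (P : EP) (sb : ℕ) : ℕ := min (yu P sb) (th P sb / P.k + 1)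

def RR (Q : ℕ → ℕ → ℕ) (P : EP) (sa sb : ℕ) : ℕ := rq Q (yl P sa) (yu P sb)

def Rn (B : Blk) (Q : ℕ → ℕ → ℕ) (P : EP) (sa sb : ℕ) : ℕ :=
  rq Q (bif P.uni then (bif Nat.ble (yu P sb) B.z2 then 0 else (yl P sa + wa P sa) / 2)
    else (yl P sa + wa P sa) / 2) (min (yu P sb) ((yu P sb + wb P sb) / 2 + 1))

def ww (B : Blk) (Q : ℕ → ℕ → ℕ) (Va Vb : ℕ → ℕ) (P : EP) (sa sb : ℕ) : ℕ :=
  bif P.fin then fineN B Va Vb (rq Q (wa P sa) (wb P sb + 1)) (wa P sa) (wb P sb)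
  else rq Q (wa P sa) (wb P sb)

def c1 (Q : ℕ → ℕ → ℕ) (P : EP) (sa sb : ℕ) : ℕ :=
  bif P.ho then rq Q (mulD P.x1l (tS sa)) (mulU P.x1h (tS sb)) else 0

def c2 (Q : ℕ → ℕ → ℕ) (P : EP) (sa sb : ℕ) : ℕ :=
  bif P.ho then rq Q (mulD P.x2l (tS sa)) (mulU P.x2h (tS sb)) else 0

def oh (Q : ℕ → ℕ → ℕ) (P : EP) (sa sb : ℕ) : ℕ :=
  bif P.ho then oHi (c1 Q P sa sb) (c2 Q P sa sb) else SS

def ol (Q : ℕ → ℕ → ℕ) (P : EP) (sa sb : ℕ) : ℕ :=
  bif P.ho then oNeg (c1 Q P sa sb) (c2 Q P sa sb) else 0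

def olp (Q : ℕ → ℕ → ℕ) (P : EP) (sa sb : ℕ) : ℕ :=
  bif P.ho then oLop (c1 Q P sa sb) (c2 Q P sa sb) else SS

/-- The pointwise crude bound. -/
def cr (B : Blk) (Q : ℕ → ℕ → ℕ) (E : ℕ → ℕ) (P : EP) (sa sb w : ℕ) : ℕ :=
  max (mulU (oh Q P sa sb) (crUp B Q P (RR Q P sa sb) (envb E (yu P sb)) (tS sa) (tS sb) (yl P sa)
      (yu P sb) (tl P sa) (th P sb) + pNeg w P.k - pLop w P.k))
    (bif Nat.beq (ol Q P sa sb) 0 then 0 else mulU (ol Q P sa sb) (pHi w P.k +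
      min (envDn B (envb E (yu P sb)) (yu P sb) (tl P sa) (gNeg (RR Q P sa sb)))
        (mulU (gNeg (RR Q P sa sb)) (powU (gAB (RR Q P sa sb)) (P.k - 1))) - pHin w P.k))

def cc (B : Blk) (Q : ℕ → ℕ → ℕ) (E : ℕ → ℕ) (P : EP) (sa sb w : ℕ) : ℕ :=
  bif P.uni then
    (bif Nat.ble (2 * yu P sb) (tl P sa) &&
        Nat.ble (5 * SS) (2 * P.k * mulD (envb E (yu P sb)) (wa P sa)) && Nat.ble (gNeg w) R07
      then mulU (envUp B Q (envb E (yu P sb)) (yu P sb) (tl P sa) BIG (gNeg (RR Q P sa sb)) +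
        powU (gNeg w) P.k) (dS sa sb) else BIG)
  else mulU (cr B Q E P sa sb w) (dS sa sb)

/-- The pointwise second order bound, with 160 fractional bits. -/
def hm (B : Blk) (Q : ℕ → ℕ → ℕ) (P : EP) (sa sb w up dn : ℕ) : ℕ :=
  max (oh Q P sa sb * (bif Nat.beq P.k 3 && P.fin then
    min up (hess3 P (RR Q P sa sb) (Rn B Q P sa sb) w (tS sb)) else up)) (ol Q P sa sb * dn)

def hh (B : Blk) (Q : ℕ → ℕ → ℕ) (P : EP) (sa sb w up dn : ℕ) : ℕ :=
  bif P.uni && !(Nat.ble (max (gAB (RR Q P sa sb)) (gAB w)) R07) then BIG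
  else (hm B Q P sa sb w up dn * (t4L sa sb + 1)) >>> 160 + 1

def gc (B : Blk) (Q : ℕ → ℕ → ℕ) (P : EP) (sa sb : ℕ) : ℕ :=
  gainC (bif P.uni then rq Q 0 (yu P sb) else RR Q P sa sb) (Rn B Q P sa sb)

def inc (B : Blk) (Q : ℕ → ℕ → ℕ) (P : EP) (sa sb w : ℕ) : ℕ :=
  divD (mulD (mulD (mulD (olp Q P sa sb) (powD (gLop w) P.k)) (gc B Q P sa sb)) (t4L sa sb))
    (2 * SS + mulU (gc B Q P sa sb) (mulU (mulU (tS sb) (tS sb)) P.Vh))

theorem cellE_eq {α : Type} (B : Blk) (Q : ℕ → ℕ → ℕ) (E Va Vb : ℕ → ℕ) (P : EP)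
    (sa sb sc sh sg : ℕ) (kk : ℕ → ℕ → ℕ → α) :
    cellE B Q E Va Vb P sa sb sc sh sg kk =
      Bool.casesOn (motive := fun _ => α) (Nat.ble (yu P sb) B.z2 && Nat.beq (ol Q P sa sb) 0)
        (hess B P (RR Q P sa sb) (Rn B Q P sa sb) (ww B Q Va Vb P sa sb) (yu P sb) (tS sb)
          fun up dn => Bool.casesOn (motive := fun _ => α)
            (Nat.ble (cc B Q E P sa sb (ww B Q Va Vb P sa sb))
              (mulD P.Vs (hh B Q P sa sb (ww B Q Va Vb P sa sb) up dn)))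
            (kk sc (sh + hh B Q P sa sb (ww B Q Va Vb P sa sb) up dn) sg)
            (kk (sc + cc B Q E P sa sb (ww B Q Va Vb P sa sb)) sh sg))
        (kk sc sh (sg + inc B Q P sa sb (ww B Q Va Vb P sa sb))) := by
  unfold cellE
  simp only [forceN_eq]
  rfl

section point

variable {P : EP} {x : ι → ℝ} {x1 x2 t : ℝ} {sa sb : ℕ}

theorem y_rng (hP : InE P T x x1 x2) (h1 : rr (tS sa) ≤ t) (h2 : t ≤ rr (tS sb)) :
    ∀ j ∈ T, rr (yl P sa) ≤ x j * t ∧ x j * t ≤ rr (yu P sb) := fun j hj =>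
  ⟨mulD_le_of (hP.rng j hj).1 h1, le_mulU (hP.rng j hj).2 h2 ((rr_nonneg _).trans h1)⟩

theorem y_rng0 (hP : InE P T x x1 x2) (h1 : rr (tS sa) ≤ t) (h2 : t ≤ rr (tS sb)) :
    ∀ j ∈ T, 0 ≤ x j * t ∧ x j * t ≤ rr (yu P sb) := fun j hj =>
  ⟨(rr_nonneg _).trans (y_rng hP h1 h2 j hj).1, (y_rng hP h1 h2 j hj).2⟩

theorem sum_rng (hP : InE P T x x1 x2) (h1 : rr (tS sa) ≤ t) (h2 : t ≤ rr (tS sb)) :
    rr (tl P sa) ≤ ∑ j ∈ T, x j * t ∧ ∑ j ∈ T, x j * t ≤ rr (th P sb) := by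
  rw [← Finset.sum_mul]
  exact ⟨mulD_le_of hP.sum.1 h1, le_mulU hP.sum.2 h2 ((rr_nonneg _).trans h1)⟩

theorem mean_rng (hP : InE P T x x1 x2) (h1 : rr (tS sa) ≤ t) (h2 : t ≤ rr (tS sb)) :
    rr (wa P sa) ≤ mean T (fun j => x j * t) ∧ mean T (fun j => x j * t) ≤ rr (wb P sb) := by
  have hk : 0 < P.k := lt_of_lt_of_le (by norm_num) hP.k2
  have hk' : (0 : ℝ) < P.k := by exact_mod_cast hk
  have hy := y_rng hP h1 h2
  have hs := sum_rng hP h1 h2
  have a1 : T.card • rr (yl P sa) ≤ ∑ j ∈ T, x j * t :=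
    Finset.card_nsmul_le_sum T _ _ fun j hj => (hy j hj).1
  have a2 : ∑ j ∈ T, x j * t ≤ T.card • rr (yu P sb) :=
    Finset.sum_le_card_nsmul T _ _ fun j hj => (hy j hj).2
  rw [nsmul_eq_mul, hP.card] at a1 a2
  unfold mean wa wb
  rw [hP.card, rr_max, rr_min]
  refine ⟨max_le ?_ ?_, le_min ?_ ?_⟩
  · rw [le_div_iff₀ hk']; linarith
  · exact (rr_div_le _ _).trans (div_le_div_of_nonneg_right hs.1 hk'.le)
  · rw [div_le_iff₀ hk']; linarith
  · exact (div_le_div_of_nonneg_right hs.2 hk'.le).trans (rr_div_lt _ hk).le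

theorem wa_ge (P : EP) (sa : ℕ) : rr (yl P sa) ≤ rr (wa P sa) := rr_le.2 (le_max_left _ _)

theorem wb_le (P : EP) (sb : ℕ) : rr (wb P sb) ≤ rr (yu P sb) := rr_le.2 (min_le_left _ _)

theorem w_in (h : BOK B Q E) (hq : q ∈ B.I) {Va Vb : ℕ → ℕ}
    (hf : P.fin = true → EndOK B Va Vb B.Yp) {m : ℝ} (h1 : rr (wa P sa) ≤ m)
    (h2 : m ≤ rr (wb P sb)) : InR (ww B Q Va Vb P sa sb) (B.g 0 q m) := by
  have h0 : 0 ≤ m := (rr_nonneg _).trans h1
  unfold ww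
  cases hb : P.fin
  · rw [cond_false]
    exact ((h.qok.rq _ _).pt q hq m h0 h1 h2).inR
  · rw [cond_true, fineN_eq]
    exact ((fine_sound h.sc (h.yp.trans h.yc) (hf hb) (h.qok.rq _ _)).pt q hq m h0 h1 h2).inR

theorem R_pt (h : BOK B Q E) (hq : q ∈ B.I) (P : EP) (sa sb : ℕ) :
    ∀ v, rr (yl P sa) ≤ v → v ≤ rr (yu P sb) → PtOK B (RR Q P sa sb) q v := fun v h1 h2 =>
  (h.qok.rq _ _).pt q hq v ((rr_nonneg _).trans h1) h1 h2

theorem Rn_pt (h : BOK B Q E) (hq : q ∈ B.I) (hu : P.uni = false) {m : ℝ} (h1 : rr (wa P sa) ≤ m)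
    (h2 : m ≤ rr (wb P sb)) : ∀ v, (rr (yl P sa) + m) / 2 ≤ v → v ≤ (rr (yu P sb) + m) / 2 →
      PtOK B (Rn B Q P sa sb) q v := by
  intro v a1 a2
  have b1 := rr_div_le (yl P sa + wa P sa) 2
  have b2 := rr_div_lt (k := 2) (yu P sb + wb P sb) (by norm_num)
  rw [rr_add] at b1 b2
  push_cast at b1 b2
  have b3 := wb_le P sb
  have b4 : rr ((yl P sa + wa P sa) / 2) ≤ v := by linarith
  unfold Rn
  rw [hu, cond_false]
  refine (h.qok.rq _ _).pt q hq v ((rr_nonneg _).trans b4) b4 ?_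
  rw [rr_min]
  exact le_min (by linarith) (by linarith)

/-- The outer factor. -/
noncomputable def OF (B : Blk) (q : ℝ) (P : EP) (x1 x2 t : ℝ) : ℝ :=
  bif P.ho then B.g 0 q (x1 * t) * B.g 0 q (x2 * t) else 1

theorem O_rng (h : BOK B Q E) (hq : q ∈ B.I) (hP : InE P T x x1 x2) (h1 : rr (tS sa) ≤ t)
    (h2 : t ≤ rr (tS sb)) : -rr (ol Q P sa sb) ≤ OF B q P x1 x2 t ∧
      OF B q P x1 x2 t ≤ rr (oh Q P sa sb) ∧
      (ol Q P sa sb = 0 → rr (olp Q P sa sb) ≤ OF B q P x1 x2 t) := by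
  have t0 : 0 ≤ t := (rr_nonneg _).trans h1
  cases hb : P.ho
  · have e1 : ol Q P sa sb = 0 := by unfold ol; rw [hb, cond_false]
    have e2 : oh Q P sa sb = SS := by unfold oh; rw [hb, cond_false]
    have e3 : olp Q P sa sb = SS := by unfold olp; rw [hb, cond_false]
    have e4 : OF B q P x1 x2 t = 1 := by unfold OF; rw [hb, cond_false]
    rw [e1, e2, e3, e4, rr_SS, rr_zero]
    exact ⟨by norm_num, le_rfl, fun _ => le_rfl⟩
  · have e1 : ol Q P sa sb = oNeg (c1 Q P sa sb) (c2 Q P sa sb) := by unfold ol; rw [hb, cond_true]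
    have e2 : oh Q P sa sb = oHi (c1 Q P sa sb) (c2 Q P sa sb) := by unfold oh; rw [hb, cond_true]
    have e3 : olp Q P sa sb = oLop (c1 Q P sa sb) (c2 Q P sa sb) := by
      unfold olp; rw [hb, cond_true]
    have e4 : OF B q P x1 x2 t = B.g 0 q (x1 * t) * B.g 0 q (x2 * t) := by
      unfold OF; rw [hb, cond_true]
    have e5 : c1 Q P sa sb = rq Q (mulD P.x1l (tS sa)) (mulU P.x1h (tS sb)) := by
      unfold c1; rw [hb, cond_true]
    have e6 : c2 Q P sa sb = rq Q (mulD P.x2l (tS sa)) (mulU P.x2h (tS sb)) := by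
      unfold c2; rw [hb, cond_true]
    obtain ⟨-, a1, a2, a3, a4⟩ := hP.out hb
    have b1 := mulD_le_of a1 h1
    have b3 := mulD_le_of a3 h1
    have i1 := ((h.qok.rq _ _).pt q hq _ ((rr_nonneg _).trans b1) b1 (le_mulU a2 h2 t0)).inR
    have i2 := ((h.qok.rq _ _).pt q hq _ ((rr_nonneg _).trans b3) b3 (le_mulU a4 h2 t0)).inR
    rw [← e5] at i1
    rw [← e6] at i2
    rw [e1, e2, e3, e4]
    exact ⟨oNeg_le i1 i2, oHi_ge i1 i2, fun h0 => oLop_le i1 i2 (Or.inr h0)⟩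

theorem var_bd (hP : InE P T x x1 x2) (h1 : rr (tS sa) ≤ t) (h2 : t ≤ rr (tS sb)) :
    Var T (fun j => x j * t) ≤ rr (tS sb) ^ 2 * rr P.Vh := by
  rw [var_smul]
  exact mul_le_mul (pow_le_pow_left₀ ((rr_nonneg _).trans h1) h2 2) hP.var (Full.var_nonneg T x)
    (sq_nonneg _)

theorem hin (h : BOK B Q E) (hq : q ∈ B.I) {Va Vb : ℕ → ℕ}
    (hf : P.fin = true → EndOK B Va Vb B.Yp) (hP : InE P T x x1 x2) (h1 : rr (tS sa) ≤ t)
    (h2 : t ≤ rr (tS sb)) : HIn B P (RR Q P sa sb) (Rn B Q P sa sb) (ww B Q Va Vb P sa sb)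
      (yu P sb) (tS sb) q T (fun j => x j * t) (rr (yl P sa)) where
  k2 := hP.k2
  ex := fun _ => hP.card
  un := fun hu => absurd (hP.uni.symm.trans hu) (by decide)
  a0 := rr_nonneg _
  rng := y_rng hP h1 h2
  hR := R_pt h hq P sa sb
  hRn := Rn_pt h hq hP.uni (mean_rng hP h1 h2).1 (mean_rng hP h1 h2).2
  hw := w_in h hq hf (mean_rng hP h1 h2).1 (mean_rng hP h1 h2).2
  var := by
    rw [hP.card]
    exact mul_le_mul_of_nonneg_right (var_bd hP h1 h2) (Nat.cast_nonneg _)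

theorem ne_T (hP : InE P T x x1 x2) : T.Nonempty := by
  obtain ⟨i, hi, -⟩ := hP.two
  exact ⟨i, hi⟩

/-- The crude bound at one point. -/
theorem crude_pt (h : BOK B Q E) (hq : q ∈ B.I) (hP : InE P T x x1 x2) (h1 : rr (tS sa) ≤ t)
    (h2 : t ≤ rr (tS sb)) {w : ℕ} (hw : InR w (B.g 0 q (mean T fun j => x j * t))) :
    OF B q P x1 x2 t * (∏ j ∈ T, B.g 0 q (x j * t) -
      B.g 0 q (mean T fun j => x j * t) ^ T.card) ≤ rr (cr B Q E P sa sb w) := by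
  obtain ⟨o1, o2, -⟩ := O_rng h hq hP h1 h2
  unfold cr
  rw [rr_max]
  rcases le_or_gt 0 (OF B q P x1 x2 t) with h0 | h0
  · refine le_max_of_le_left ?_
    rcases crUp_spec h hq hP h1 h2 with hc | hc
    · refine le_mulU' o2 ?_ h0
      refine le_trans ?_ (rr_sub_ge _ _)
      have := pLop_le hw P.k
      rw [rr_add, hP.card]
      unfold RR yl yu tl th
      linarith
    · have := FL.jensen h hq (ne_T hP) hc
      exact (mul_nonpos_of_nonneg_of_nonpos h0 (by linarith)).trans (rr_nonneg _)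
  · refine le_max_of_le_right ?_
    have hne : Nat.beq (ol Q P sa sb) 0 = false := by
      cases hb : Nat.beq (ol Q P sa sb) 0
      · rfl
      · rw [Nat.eq_of_beq_eq_true hb, rr_zero] at o1
        linarith
    rw [hne, cond_false, ← neg_mul_neg]
    refine le_mulU' (by linarith) ?_ (by linarith)
    refine le_trans ?_ (rr_sub_ge _ _)
    have hy := y_rng hP h1 h2
    have hR : ∀ j ∈ T, InR (RR Q P sa sb) (B.g 0 q (x j * t)) := fun j hj =>
      (R_pt h hq P sa sb _ (hy j hj).1 (hy j hj).2).inR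
    have a1 := pHi_ge hw P.k
    have a2 := envDn_spec h hq (h.envOK hq (yu P sb)) (y_rng0 hP h1 h2) (sum_rng hP h1 h2).1
      fun j hj => (hR j hj).neg
    have a3 := negPow_spec h hq (fun j hj => (y_rng0 hP h1 h2 j hj).1) hR
    rw [hP.card] at a3
    rw [rr_add, rr_min, hP.card]
    have a4 : -∏ j ∈ T, B.g 0 q (x j * t) ≤ min
        (rr (envDn B (envb E (yu P sb)) (yu P sb) (tl P sa) (gNeg (RR Q P sa sb))))
        (rr (mulU (gNeg (RR Q P sa sb)) (powU (gAB (RR Q P sa sb)) (P.k - 1)))) :=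
      le_min (by linarith) (by linarith)
    linarith

theorem comb {O D V : ℝ} {a b u d : ℕ} (o1 : -rr b ≤ O) (o2 : O ≤ rr a) (hV : 0 ≤ V)
    (hu : D ≤ (u : ℝ) / 2 ^ 120 * V) (hd : -D ≤ (d : ℝ) / 2 ^ 120 * V) :
    O * D ≤ ((max (a * u) (b * d) : ℕ) : ℝ) / 2 ^ 160 * V := by
  have m1 : ((a * u : ℕ) : ℝ) ≤ ((max (a * u) (b * d) : ℕ) : ℝ) := by
    exact_mod_cast le_max_left _ _
  have m2 : ((b * d : ℕ) : ℝ) ≤ ((max (a * u) (b * d) : ℕ) : ℝ) := by
    exact_mod_cast le_max_right _ _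
  generalize ((max (a * u) (b * d) : ℕ) : ℝ) = M at m1 m2 ⊢
  rcases le_total 0 O with h0 | h0
  · calc O * D ≤ O * ((u : ℝ) / 2 ^ 120 * V) := mul_le_mul_of_nonneg_left hu h0
      _ ≤ rr a * ((u : ℝ) / 2 ^ 120 * V) := mul_le_mul_of_nonneg_right o2 (by positivity)
      _ = ((a * u : ℕ) : ℝ) / 2 ^ 160 * V := by unfold rr; push_cast; ring
      _ ≤ M / 2 ^ 160 * V := by gcongr
  · calc O * D = -O * -D := by ring
      _ ≤ -O * ((d : ℝ) / 2 ^ 120 * V) := mul_le_mul_of_nonneg_left hd (by linarith)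
      _ ≤ rr b * ((d : ℝ) / 2 ^ 120 * V) :=
        mul_le_mul_of_nonneg_right (by linarith) (by positivity)
      _ = ((b * d : ℕ) : ℝ) / 2 ^ 160 * V := by unfold rr; push_cast; ring
      _ ≤ M / 2 ^ 160 * V := by gcongr

/-- The second order bound at one point. -/
theorem hess_pt (h : BOK B Q E) (hq : q ∈ B.I) (hP : InE P T x x1 x2) (h1 : rr (tS sa) ≤ t)
    (h2 : t ≤ rr (tS sb)) {w up dn : ℕ} {y : ι → ℝ}
    (hH : HIn B P (RR Q P sa sb) (Rn B Q P sa sb) w (yu P sb) (tS sb) q T y (rr (yl P sa)))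
    (hu : ∏ j ∈ T, B.g 0 q (y j) - B.g 0 q (mean T y) ^ T.card ≤
      (up : ℝ) / 2 ^ 120 * 0.7 ^ (T.card - P.k) * Var T y)
    (hd : B.g 0 q (mean T y) ^ T.card - ∏ j ∈ T, B.g 0 q (y j) ≤ (dn : ℝ) / 2 ^ 120 * Var T y) :
    OF B q P x1 x2 t * (∏ j ∈ T, B.g 0 q (y j) - B.g 0 q (mean T y) ^ T.card) ≤
      (hm B Q P sa sb w up dn : ℝ) / 2 ^ 160 * Var T y := by
  obtain ⟨o1, o2, -⟩ := O_rng h hq hP h1 h2
  have e : T.card - P.k = 0 := by rw [hP.card, Nat.sub_self]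
  rw [e, pow_zero, mul_one] at hu
  unfold hm
  refine comb o1 o2 (Full.var_nonneg T y) ?_ (by linarith)
  cases hb : (Nat.beq P.k 3 && P.fin)
  · rw [cond_false]; exact hu
  · rw [cond_true]
    rw [Bool.and_eq_true] at hb
    have h3 := hess3_spec h hq hH hP.uni (Nat.eq_of_beq_eq_true hb.1) (hP.sV hb.2)
    rcases le_total up (hess3 P (RR Q P sa sb) (Rn B Q P sa sb) w (tS sb)) with hl | hl
    · rw [min_eq_left hl]; exact hu
    · rw [min_eq_right hl]; exact h3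

/-- The gain at one point. -/
theorem gain_pt (h : BOK B Q E) (hq : q ∈ B.I) (hP : InE P T x x1 x2) (h1 : rr (tS sa) ≤ t)
    (h2 : t ≤ rr (tS sb)) {w : ℕ} (hw : InR w (B.g 0 q (mean T fun j => x j * t)))
    (hz : yu P sb ≤ B.z2) (ho : ol Q P sa sb = 0) :
    OF B q P x1 x2 t * (∏ j ∈ T, B.g 0 q (x j * t) -
      B.g 0 q (mean T fun j => x j * t) ^ T.card) ≤
      -(rr (olp Q P sa sb) * rr (powD (gLop w) P.k) * rr (gc B Q P sa sb) /
        (2 + rr (gc B Q P sa sb) * (rr (tS sb) ^ 2 * rr P.Vh)) * Var T fun j => x j * t) := by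
  obtain ⟨-, -, o3⟩ := O_rng h hq hP h1 h2
  have o4 := o3 ho
  obtain ⟨m1, m2⟩ := mean_rng hP h1 h2
  have hz' : rr (yu P sb) ≤ rr B.z2 := rr_le.2 hz
  have hl : rr (gLop w) ≤ B.g 0 q (mean T fun j => x j * t) := by
    rcases Nat.eq_zero_or_pos (gLop w) with h0 | h0
    · rw [h0, rr_zero]
      exact ((h.hd q hq).pos _ ((rr_nonneg _).trans m1) (m2.trans ((wb_le P sb).trans hz'))).le
    · exact hw.lop (Or.inl h0)
  have hl2 : rr (powD (gLop w) P.k) ≤ B.g 0 q (mean T fun j => x j * t) ^ T.card := by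
    rw [hP.card]; exact powD_le_of hl _
  have hg := gain_spec h hq (ne_T hP) (rr_nonneg _) hz' (y_rng hP h1 h2) (R_pt h hq P sa sb)
    (Rn_pt h hq hP.uni m1 m2) (rr_nonneg _) hl2 (var_bd hP h1 h2)
  have e : gc B Q P sa sb = gainC (RR Q P sa sb) (Rn B Q P sa sb) := by
    unfold gc; rw [hP.uni, cond_false]
  rw [e]
  have hV := Full.var_nonneg T fun j => x j * t
  have n1 := rr_nonneg (olp Q P sa sb)
  have n2 := rr_nonneg (powD (gLop w) P.k)
  have n3 := rr_nonneg (gainC (RR Q P sa sb) (Rn B Q P sa sb))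
  have n4 := rr_nonneg P.Vh
  generalize rr (gainC (RR Q P sa sb) (Rn B Q P sa sb)) = c at hg n3 ⊢
  generalize rr (powD (gLop w) P.k) = lw at hg n2 ⊢
  generalize (Var T fun j => x j * t) = V at hg hV ⊢
  generalize (∏ j ∈ T, B.g 0 q (x j * t) - B.g 0 q (mean T fun j => x j * t) ^ T.card) = D
    at hg ⊢
  have n5 : 0 ≤ lw * c / (2 + c * (rr (tS sb) ^ 2 * rr P.Vh)) * V :=
    mul_nonneg (div_nonneg (mul_nonneg n2 n3)
      (add_nonneg zero_le_two (mul_nonneg n3 (mul_nonneg (sq_nonneg _) n4)))) hV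
  calc OF B q P x1 x2 t * D
      ≤ OF B q P x1 x2 t * -(lw * c / (2 + c * (rr (tS sb) ^ 2 * rr P.Vh)) * V) :=
        mul_le_mul_of_nonneg_left hg (n1.trans o4)
    _ ≤ rr (olp Q P sa sb) * -(lw * c / (2 + c * (rr (tS sb) ^ 2 * rr P.Vh)) * V) :=
        mul_le_mul_of_nonpos_right o4 (by linarith)
    _ = _ := by ring

theorem FE_eq (B : Blk) (q : ℝ) (P : EP) (x1 x2 : ℝ) (T : Finset ι) (x : ι → ℝ) (u : ℝ) :
    FE (B.g 0 q) P.ho x1 x2 T x u = OF B q P x1 x2 (u ^ 2) *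
      (∏ j ∈ T, B.g 0 q (x j * u ^ 2) - B.g 0 q (mean T fun j => x j * u ^ 2) ^ T.card) := by
  rw [mean_mul]; rfl

theorem inc_aux (o l c t b V : ℕ) :
    rr (divD (mulD (mulD (mulD o l) c) t) (2 * SS + mulU c (mulU (mulU b b) V))) ≤
      rr o * rr l * rr c / (2 + rr c * (rr b ^ 2 * rr V)) * rr t := by
  have n3 := rr_nonneg c
  have n4 := rr_nonneg V
  have a1 : rr (mulD (mulD o l) c) ≤ rr o * rr l * rr c := mulD_le_of (mulD_le o l) le_rfl
  have a2 : rr (mulD (mulD (mulD o l) c) t) ≤ rr o * rr l * rr c * rr t := mulD_le_of a1 le_rfl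
  have a3 : rr b ^ 2 ≤ rr (mulU b b) := by rw [sq]; exact mulU_ge b b
  have a4 : rr b ^ 2 * rr V ≤ rr (mulU (mulU b b) V) := le_mulU a3 le_rfl n4
  have a5 : rr c * (rr b ^ 2 * rr V) ≤ rr (mulU c (mulU (mulU b b) V)) := le_mulU' le_rfl a4 n3
  have a6 : 2 + rr c * (rr b ^ 2 * rr V) ≤ rr (2 * SS + mulU c (mulU (mulU b b) V)) := by
    rw [rr_add, rr_nmul, rr_SS, mul_one, Nat.cast_ofNat]
    exact add_le_add le_rfl a5
  have a7 : 0 < 2 + rr c * (rr b ^ 2 * rr V) :=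
    add_pos_of_pos_of_nonneg two_pos (mul_nonneg n3 (mul_nonneg (sq_nonneg _) n4))
  rw [div_mul_eq_mul_div]
  exact divD_le_of a2 a7 a6

theorem inc_le (B : Blk) (Q : ℕ → ℕ → ℕ) (P : EP) (sa sb w : ℕ) : rr (inc B Q P sa sb w) ≤
    rr (olp Q P sa sb) * rr (powD (gLop w) P.k) * rr (gc B Q P sa sb) /
      (2 + rr (gc B Q P sa sb) * (rr (tS sb) ^ 2 * rr P.Vh)) * rr (t4L sa sb) := by
  unfold inc
  exact inc_aux _ _ _ _ _ _

theorem hh_ge (hu : P.uni = false) (w up dn : ℕ) :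
    (hm B Q P sa sb w up dn : ℝ) / 2 ^ 160 * rr (t4L sa sb + 1) ≤ rr (hh B Q P sa sb w up dn) := by
  unfold hh
  rw [hu, Bool.false_and, cond_false]
  refine le_trans (le_of_eq ?_) (rr_shr_lt _ 160).le
  rw [rr_nmul]; ring

end point

end YCellEX

open YCellEX

theorem cellE_exact {α : Type} (h : BOK B Q E) {Va Vb : ℕ → ℕ} {P : EP}
    (hf : P.fin = true → EndOK B Va Vb B.Yp) {sa sb : ℕ} (hs : sa ≤ sb) (sc sh sg : ℕ)
    (kk : ℕ → ℕ → ℕ → α) :
    ∃ sc' sh' sg', cellE B Q E Va Vb P sa sb sc sh sg kk = kk sc' sh' sg' ∧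
      ∀ q ∈ B.I, ∀ (ι : Type) (T : Finset ι) (x : ι → ℝ) (x1 x2 : ℝ), InE P T x x1 x2 →
        ∫ u in sR sa..sR sb, FE (B.g 0 q) P.ho x1 x2 T x u ≤
          PhiE 1 (Var T x) sc' sh' sg' - PhiE 1 (Var T x) sc sh sg := by
  rw [cellE_eq]
  obtain ⟨t1, t2⟩ := t4L_encl hs
  cases hb : (Nat.ble (yu P sb) B.z2 && Nat.beq (ol Q P sa sb) 0)
  · obtain ⟨up, dn, e, hH⟩ := hess_spec h P (RR Q P sa sb) (Rn B Q P sa sb) (ww B Q Va Vb P sa sb)
      (yu P sb) (tS sb) fun up dn => Bool.casesOn (motive := fun _ => α)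
        (Nat.ble (cc B Q E P sa sb (ww B Q Va Vb P sa sb))
          (mulD P.Vs (hh B Q P sa sb (ww B Q Va Vb P sa sb) up dn)))
        (kk sc (sh + hh B Q P sa sb (ww B Q Va Vb P sa sb) up dn) sg)
        (kk (sc + cc B Q E P sa sb (ww B Q Va Vb P sa sb)) sh sg)
    cases hc : Nat.ble (cc B Q E P sa sb (ww B Q Va Vb P sa sb))
      (mulD P.Vs (hh B Q P sa sb (ww B Q Va Vb P sa sb) up dn))
    · refine ⟨sc, sh + hh B Q P sa sb (ww B Q Va Vb P sa sb) up dn, sg, ?_, ?_⟩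
      · refine e.trans ?_
        rw [hc]
      · intro q hq ι T x x1 x2 hP
        have hV := Full.var_nonneg T x
        have hI := cell_int (hP.int h.sc hq) (c0 := 0) (c2 := 0)
          (c4 := (hm B Q P sa sb (ww B Q Va Vb P sa sb) up dn : ℝ) / 2 ^ 160 * Var T x)
          (sR_nonneg sa) (sR_mono hs) fun u u1 u2 => by
            obtain ⟨h1, h2⟩ := tS_mem u1 u2
            have hi := hin h hq hf hP h1 h2
            obtain ⟨a1, a2⟩ := hH q hq ι T _ _ hi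
            have := hess_pt h hq hP h1 h2 hi a1 (a2 hP.uni)
            rw [var_smul] at this
            rw [FE_eq]
            refine this.trans (le_of_eq ?_)
            ring
        have hG := hh_ge (B := B) (Q := Q) (sa := sa) (sb := sb) hP.uni (ww B Q Va Vb P sa sb) up dn
        have n0 : (0 : ℝ) ≤ (hm B Q P sa sb (ww B Q Va Vb P sa sb) up dn : ℝ) / 2 ^ 160 := by
          positivity
        generalize (hm B Q P sa sb (ww B Q Va Vb P sa sb) up dn : ℝ) / 2 ^ 160 = M at hI hG n0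
        have a1 := mul_le_mul_of_nonneg_left ((mul_le_mul_of_nonneg_left t2 n0).trans hG) hV
        unfold PhiE
        rw [rr_add]
        refine hI.trans ?_
        linarith
    · refine ⟨sc + cc B Q E P sa sb (ww B Q Va Vb P sa sb), sh, sg, ?_, ?_⟩
      · refine e.trans ?_
        rw [hc]
      · intro q hq ι T x x1 x2 hP
        have hI := cell_int (hP.int h.sc hq) (c0 := rr (cr B Q E P sa sb (ww B Q Va Vb P sa sb)))
          (c2 := 0) (c4 := 0) (sR_nonneg sa) (sR_mono hs) fun u u1 u2 => by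
            obtain ⟨h1, h2⟩ := tS_mem u1 u2
            have := crude_pt h hq hP h1 h2 (hin h hq hf hP h1 h2).hw
            rw [FE_eq]
            refine this.trans (le_of_eq ?_)
            ring
        have hG : rr (cr B Q E P sa sb (ww B Q Va Vb P sa sb)) * (sR sb - sR sa) ≤
            rr (cc B Q E P sa sb (ww B Q Va Vb P sa sb)) := by
          unfold cc
          rw [hP.uni, cond_false, ← dS_eq hs]
          exact mulU_ge _ _
        unfold PhiE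
        rw [rr_add]
        refine hI.trans ?_
        linarith
  · refine ⟨sc, sh, sg + inc B Q P sa sb (ww B Q Va Vb P sa sb), rfl, ?_⟩
    intro q hq ι T x x1 x2 hP
    rw [Bool.and_eq_true] at hb
    have hz := Nat.le_of_ble_eq_true hb.1
    have ho := Nat.eq_of_beq_eq_true hb.2
    have hV := Full.var_nonneg T x
    have hG := inc_le B Q P sa sb (ww B Q Va Vb P sa sb)
    have n1 := rr_nonneg (olp Q P sa sb)
    have n2 := rr_nonneg (powD (gLop (ww B Q Va Vb P sa sb)) P.k)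
    have n3 := rr_nonneg (gc B Q P sa sb)
    have n4 := rr_nonneg P.Vh
    have n0 : 0 ≤ rr (olp Q P sa sb) * rr (powD (gLop (ww B Q Va Vb P sa sb)) P.k) *
      rr (gc B Q P sa sb) / (2 + rr (gc B Q P sa sb) * (rr (tS sb) ^ 2 * rr P.Vh)) :=
      div_nonneg (mul_nonneg (mul_nonneg n1 n2) n3)
        (add_nonneg zero_le_two (mul_nonneg n3 (mul_nonneg (sq_nonneg _) n4)))
    have hI := cell_int (hP.int h.sc hq) (c0 := 0) (c2 := 0)
      (c4 := -(rr (olp Q P sa sb) * rr (powD (gLop (ww B Q Va Vb P sa sb)) P.k) *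
        rr (gc B Q P sa sb) / (2 + rr (gc B Q P sa sb) * (rr (tS sb) ^ 2 * rr P.Vh)) * Var T x))
      (sR_nonneg sa) (sR_mono hs) fun u u1 u2 => by
        obtain ⟨h1, h2⟩ := tS_mem u1 u2
        have := gain_pt h hq hP h1 h2 (hin h hq hf hP h1 h2).hw hz ho
        rw [var_smul] at this
        rw [FE_eq]
        refine this.trans (le_of_eq ?_)
        ring
    generalize rr (olp Q P sa sb) * rr (powD (gLop (ww B Q Va Vb P sa sb)) P.k) *
      rr (gc B Q P sa sb) / (2 + rr (gc B Q P sa sb) * (rr (tS sb) ^ 2 * rr P.Vh)) = K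
      at hI hG n0
    have a1 := mul_le_mul_of_nonneg_left (hG.trans (mul_le_mul_of_nonneg_left t1 n0)) hV
    unfold PhiE
    rw [rr_add]
    refine hI.trans ?_
    linarith

end Pool.Agent.MP_39fec4_gt.K

end

section

set_option autoImplicit false

namespace Pool.Agent.MP_39fec4_gt.K

open Set MeasureTheory Full

variable {B : Blk} {Q : ℕ → ℕ → ℕ} {E : ℕ → ℕ} {q : ℝ} {ι : Type} {T : Finset ι}

namespace YCellUX

variable {P : EP} {x : ι → ℝ}

theorem var_mul (T : Finset ι) (x : ι → ℝ) (t : ℝ) :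
    Var T (fun j => x j * t) = t ^ 2 * Var T x := by
  simp only [Var, ← Finset.sum_mul, Finset.mul_sum]
  exact Finset.sum_congr rfl fun j _ => by ring

theorem kpos (hU : InU P T x) : (0 : ℝ) < P.k := by
  have := hU.k8
  exact_mod_cast (by omega : 0 < P.k)

theorem kle (hU : InU P T x) : (P.k : ℝ) ≤ T.card := by exact_mod_cast hU.card

theorem mean_eq (hU : InU P T x) : mean T x = 1 / T.card := by rw [mean, hU.sum]

theorem ends (hU : InU P T x) : rr P.xa0 ≤ 1 / P.k ∧ 1 / P.k ≤ rr P.xb1 := by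
  have hn := (kpos hU).trans_le (kle hU)
  have e : ∑ j ∈ T, x j * T.card / P.k = T.card * (1 / P.k) := by
    rw [← Finset.sum_div, ← Finset.sum_mul, hU.sum]
    ring
  have h1 := Finset.card_nsmul_le_sum T _ _ fun j hj => (hU.rng j hj).1
  have h2 := Finset.sum_le_card_nsmul T _ _ fun j hj => (hU.rng j hj).2
  rw [e, nsmul_eq_mul] at h1 h2
  exact ⟨le_of_mul_le_mul_left h1 hn, le_of_mul_le_mul_left h2 hn⟩

/-- The ranges of the rescaled arguments and of their mean. -/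
theorem geo (hU : InU P T x) {ta tb : ℕ} {t : ℝ} (h1 : rr ta ≤ t) (h2 : t ≤ rr tb) :
    (∀ j ∈ T, rr (mulD P.xa0 ta) ≤ x j * (T.card / P.k * t) ∧
      x j * (T.card / P.k * t) ≤ rr (mulU P.xb1 tb)) ∧ rr (mulD P.ra ta) ≤ t ∧
    rr (max (mulD P.xa0 ta) (mulD P.ra ta / P.k)) ≤ t / P.k ∧
    t / P.k ≤ rr (min (mulU P.xb1 tb) (mulU P.rb tb / P.k + 1)) := by
  have h0 : 0 ≤ t := (rr_nonneg _).trans h1
  have hk := kpos hU
  have h3 : rr (mulD P.ra ta) ≤ t := by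
    have := mulD_le_of (hU.ra ▸ rr_SS.le : rr P.ra ≤ 1) h1
    rwa [one_mul] at this
  have h4 : t ≤ rr (mulU P.rb tb) := by
    have := le_mulU (hU.rb ▸ rr_SS.ge : 1 ≤ rr P.rb) h2 h0
    rwa [one_mul] at this
  refine ⟨fun j hj => ?_, h3, ?_, ?_⟩
  · rw [show x j * (T.card / P.k * t) = x j * T.card / P.k * t by ring]
    exact ⟨mulD_le_of (hU.rng j hj).1 h1, le_mulU (hU.rng j hj).2 h2 h0⟩
  · rw [rr_max]
    refine max_le ?_ ((rr_div_le _ _).trans (div_le_div_of_nonneg_right h3 hk.le))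
    rw [show t / P.k = 1 / P.k * t by ring]
    exact mulD_le_of (ends hU).1 h1
  · rw [rr_min]
    refine le_min ?_ ((div_le_div_of_nonneg_right h4 hk.le).trans
      (rr_div_lt _ (by exact_mod_cast hk)).le)
    rw [show t / P.k = 1 / P.k * t by ring]
    exact le_mulU (ends hU).2 h2 h0

theorem half_le {ym wb : ℕ} {m v : ℝ} (h1 : m ≤ rr (min ym wb)) (hv : v ≤ (rr ym + m) / 2) :
    v ≤ rr (min ym ((ym + min ym wb) / 2 + 1)) := by
  have h2 := rr_div_lt (ym + min ym wb) two_pos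
  have h3 : rr (min ym wb) ≤ rr ym := rr_le.2 (min_le_left _ _)
  rw [rr_add] at h2
  rw [rr_min ym (_ + 1)]
  push_cast at h2
  exact le_min (by linarith) (by linarith)

theorem seven (hU : InU P T x) : √((T.card : ℝ) / P.k) ^ 5 * 0.7 ^ (T.card - P.k) ≤ 1 := by
  have h8 : (8 : ℝ) ≤ P.k := by exact_mod_cast hU.k8
  refine scale_nat (by norm_num) (le_trans (by norm_num) hU.k8) hU.card ?_
  have h1 : ((P.k : ℝ) + 1) ^ 5 ≤ (9 / 8 * P.k) ^ 5 :=
    pow_le_pow_left₀ (by linarith) (by linarith) 5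
  have h2 : (0 : ℝ) ≤ (P.k : ℝ) ^ 5 := by positivity
  rw [mul_pow] at h1
  linarith

theorem gain (h : BOK B Q E) (hq : q ∈ B.I) (hU : InU P T x) {sa sb : ℕ} (hs : sa ≤ sb)
    {ym wb w c : ℕ} (hym : ym = mulU P.xb1 (tS sb))
    (hwb : wb = min ym (mulU P.rb (tS sb) / P.k + 1))
    (hw : RgOK B w (rr (max (mulD P.xa0 (tS sa)) (mulD P.ra (tS sa) / P.k))) (rr wb))
    (hc : c = gainC (rq Q 0 ym) (rq Q 0 (min ym ((ym + wb) / 2 + 1)))) (hz : ym ≤ B.z2) :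
    ∫ u in sR sa..sR sb, FE (B.g 0 q) false 0 0 T x u ≤
      -(Var T x * rr (divD (mulD (mulD (mulD SS (powD (gLop w) P.k)) c) (t4L sa sb))
        (2 * SS + mulU c (mulU (mulU (tS sb) (tS sb)) P.Vh)))) := by
  have hk := kpos hU
  have hkn := kle hU
  have hn := hk.trans_le hkn
  have hV := Full.var_nonneg T x
  have hz' : rr ym ≤ rr B.z2 := rr_le.2 hz
  generalize hW : mulU (mulU (tS sb) (tS sb)) P.Vh = W
  have hD : 0 < 2 + rr c * rr W := by
    have := mul_nonneg (rr_nonneg c) (rr_nonneg W)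
    linarith
  have hI := cell_int (hU.int h.sc hq) (sR_nonneg sa) (sR_mono hs) (c0 := 0) (c2 := 0)
    (c4 := -(rr (powD (gLop w) P.k) * rr c / (2 + rr c * rr W) * Var T x)) fun u h1 h2 => by
    obtain ⟨t1, t2⟩ := tS_mem h1 h2
    obtain ⟨g1, -, g3, g4⟩ := geo hU t1 t2
    rw [← hym] at g1 g4
    have h0 : 0 ≤ u ^ 2 := sq_nonneg u
    have g5 : u ^ 2 / P.k ≤ rr ym := g4.trans (rr_le.2 (min_le_left _ _))
    have hm : mean T (fun j => x j * u ^ 2) = u ^ 2 / T.card := by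
      rw [mean_mul, mean_eq hU]
      ring
    have hm' : u ^ 2 / T.card ≤ u ^ 2 / P.k := div_le_div_of_nonneg_left h0 hk hkn
    have hm0 : 0 ≤ u ^ 2 / T.card := div_nonneg h0 hn.le
    have hl : rr (gLop w) ≤ B.g 0 q (u ^ 2 / P.k) := by
      rcases Nat.eq_zero_or_pos (gLop w) with h3 | h3
      · rw [h3, rr_zero]
        exact ((h.hd q hq).pos _ (hm0.trans hm') (g5.trans hz')).le
      · exact (hw.pt q hq _ (hm0.trans hm') g3 (hwb ▸ g4)).inR.lop (Or.inl h3)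
    have key := gain_spec h hq (T := T) (y := fun j => x j * u ^ 2) (a := 0) (b := rr ym)
      (Rg := rq Q 0 ym) (Rn := rq Q 0 (min ym ((ym + wb) / 2 + 1))) (Wm := rr W)
      (lw := rr (powD (gLop w) P.k)) (Finset.card_pos.1 (by exact_mod_cast hn)) le_rfl hz'
      (fun j hj => ?_) (fun v v0 v1 => (h.qok.rq _ _).pt q hq v v0 (rr_zero.le.trans v0) v1)
      (fun v v0 v1 => ?_) (rr_nonneg _) ?_ ?_
    · rw [mean_mul, var_mul, ← hc] at key
      simp only [FE, cond_false, one_mul]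
      refine key.trans (le_of_eq ?_)
      ring
    · have x0 : 0 ≤ x j := by
        have h3 := (rr_nonneg _).trans (hU.rng j hj).1
        rw [mul_div_assoc] at h3
        exact nonneg_of_mul_nonneg_left h3 (div_pos hn hk)
      refine ⟨mul_nonneg x0 h0, le_trans (mul_le_mul_of_nonneg_left ?_ x0) (g1 j hj).2⟩
      exact le_mul_of_one_le_left h0 ((one_le_div hk).2 hkn)
    · rw [hm] at v0 v1
      have v2 : 0 ≤ v := by linarith
      exact (h.qok.rq _ _).pt q hq v v2 (rr_zero.le.trans v2)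
        (hwb ▸ half_le (hm'.trans g4) v1)
    · rw [hm]
      exact (powD_le_of hl _).trans ((h.hd q hq).pow_mono (h.sc.sm_g hq)
        (le_trans (by norm_num) hU.k8) hU.card h0 (g5.trans hz'))
    · rw [var_mul, ← hW, sq]
      refine le_mulU (le_mulU t2 t2 h0) (le_of_mul_le_mul_right (hU.var.trans ?_) hn) hV
      exact mul_le_mul_of_nonneg_left hkn (rr_nonneg _)
  refine hI.trans ?_
  have h1 := divD_le_of (a := mulD (mulD (mulD SS (powD (gLop w) P.k)) c) (t4L sa sb))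
    (b := 2 * SS + mulU c W) (mulD_le_of (mulD_le_of (mulD_le _ _) le_rfl) (t4L_encl hs).1) hD
    (by rw [rr_add, rr_nmul, rr_SS]; push_cast; linarith [mulU_ge c W])
  rw [rr_SS] at h1
  have h2 := mul_le_mul_of_nonneg_left h1 hV
  refine le_trans (le_of_eq ?_) (neg_le_neg h2)
  ring

theorem sq_scale (P : EP) (T : Finset ι) (u : ℝ) :
    (√((T.card : ℝ) / P.k) * u) ^ 2 = T.card / P.k * u ^ 2 := by
  rw [mul_pow, Real.sq_sqrt (by positivity)]

theorem mean_scale (hU : InU P T x) (t : ℝ) :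
    mean T (fun j => x j * (T.card / P.k * t)) = t / P.k := by
  have hk := kpos hU
  have hn := hk.trans_le (kle hU)
  rw [mean_mul, mean_eq hU]
  field_simp

theorem FE_scale (g : ℝ → ℝ) (u : ℝ) :
    FE g false 0 0 T x (√((T.card : ℝ) / P.k) * u) = ∏ j ∈ T, g (x j * (T.card / P.k * u ^ 2)) -
      g (mean T fun j => x j * (T.card / P.k * u ^ 2)) ^ T.card := by
  simp only [FE, cond_false, one_mul, sq_scale, mean_mul]

theorem crude (h : BOK B Q E) (hq : q ∈ B.I) (hU : InU P T x) {sa sb : ℕ} (hs : sa ≤ sb)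
    {ym wa w b : ℕ} (hym : ym = mulU P.xb1 (tS sb)) (hb : b = envb E ym)
    (hwa : wa = max (mulD P.xa0 (tS sa)) (mulD P.ra (tS sa) / P.k))
    (hw : RgOK B w (rr wa) (rr (min ym (mulU P.rb (tS sb) / P.k + 1))))
    (c1 : 2 * ym ≤ mulD P.ra (tS sa)) (c2 : 5 * SS ≤ 2 * P.k * mulD b wa) (c3 : gNeg w ≤ R07) :
    ∫ u in (√((T.card : ℝ) / P.k) * sR sa)..(√((T.card : ℝ) / P.k) * sR sb),
      FE (B.g 0 q) false 0 0 T x u ≤ ((P.k : ℝ) / T.card) ^ 2 *
        rr (mulU (envUp B Q b ym (mulD P.ra (tS sa)) BIG (gNeg (rq Q (mulD P.xa0 (tS sa)) ym)) +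
          powU (gNeg w) P.k) (dS sa sb)) := by
  have hk := kpos hU
  have hkn := kle hU
  have hn := hk.trans_le hkn
  have hκ : 0 < √((T.card : ℝ) / P.k) := Real.sqrt_pos.2 (div_pos hn hk)
  have s1 := seven hU
  have s2 := scale_exp (c := rr b * rr wa) hk hkn (by
    have h1 := rr_le.2 c2
    have h2 := mul_le_mul_of_nonneg_left (mulD_le b wa) hk.le
    rw [rr_nmul, rr_SS, mul_assoc, rr_nmul, rr_nmul] at h1
    push_cast at h1
    linarith)
  have s3 : √((T.card : ℝ) / P.k) ^ 4 * ((P.k : ℝ) / T.card) ^ 2 = 1 := by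
    rw [show 4 = 2 * 2 from rfl, pow_mul, Real.sq_sqrt (by positivity)]
    field_simp
  generalize hev : envUp B Q b ym (mulD P.ra (tS sa)) BIG (gNeg (rq Q (mulD P.xa0 (tS sa)) ym)) = ev
  have hI := cell_scale (hU.int h.sc hq) hκ (sR_nonneg sa) (sR_mono hs) (c4 := 0)
    (c0 := ((P.k : ℝ) / T.card) ^ 2 * rr (ev + powU (gNeg w) P.k)) fun u h1 h2 => by
    obtain ⟨t1, t2⟩ := tS_mem h1 h2
    obtain ⟨g1, g2, g3, g4⟩ := geo hU t1 t2
    rw [← hym] at g1 g4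
    rw [← hwa] at g3
    rw [FE_scale, zero_mul, add_zero]
    have hde : 0 ≤ ((T.card : ℝ) - P.k) * rr wa := mul_nonneg (by linarith) (rr_nonneg _)
    have c0 : 0 ≤ ((P.k : ℝ) / T.card) ^ 2 := sq_nonneg _
    rcases envUp_spec h hq (T := T) (y := fun j => x j * (T.card / P.k * u ^ 2)) (th := BIG)
      (de := (T.card - P.k) * rr wa) (ng := gNeg (rq Q (mulD P.xa0 (tS sa)) ym))
      (hb ▸ h.envOK hq ym) (fun j hj => ⟨(rr_nonneg _).trans (g1 j hj).1, (g1 j hj).2⟩)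
      (by
        have h3 := mul_le_mul_of_nonneg_left g3 (sub_nonneg.2 hkn)
        have h4 : (T.card : ℝ) / P.k * u ^ 2 = u ^ 2 + (T.card - P.k) * (u ^ 2 / P.k) := by
          field_simp
          ring
        rw [← Finset.sum_mul, hU.sum]
        linarith) (Or.inr h.z2_le.2) hde (Or.inr c1) (fun j hj => ((h.qok.rq _ _).pt q hq _
        ((rr_nonneg _).trans (g1 j hj).1) (g1 j hj).1 (g1 j hj).2).inR.neg) with e | e
    · rw [hev] at e
      rw [mean_scale hU]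
      have i1 := (hw.pt q hq _ ((rr_nonneg _).trans g3) g3 g4).inR.neg
      have i2 : -B.g 0 q (u ^ 2 / P.k) ^ T.card ≤ rr (gNeg w) ^ T.card := by
        rcases le_total 0 (B.g 0 q (u ^ 2 / P.k)) with i3 | i3
        · exact (neg_nonpos.2 (pow_nonneg i3 _)).trans (pow_nonneg (rr_nonneg _) _)
        · refine (neg_le_abs _).trans ?_
          rw [abs_pow]
          exact pow_le_pow_left₀ (abs_nonneg _) (by rw [abs_of_nonpos i3]; linarith) _
      have i4 : rr (gNeg w) ^ T.card ≤ rr (powU (gNeg w) P.k) * 0.7 ^ (T.card - P.k) := by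
        rw [← Nat.add_sub_cancel' hU.card, pow_add, Nat.add_sub_cancel' hU.card]
        exact mul_le_mul (powU_ge _ _) (pow_le_pow_left₀ (rr_nonneg _)
          ((rr_le.2 c3).trans R07_le) _) (pow_nonneg (rr_nonneg _) _) (rr_nonneg _)
      rw [show rr b * rr wa * ((T.card : ℝ) - P.k) = rr b * ((T.card - P.k) * rr wa) by ring] at s2
      have j1 := mul_le_mul_of_nonneg_left s2 (mul_nonneg c0 (rr_nonneg ev))
      have j2 := mul_le_mul_of_nonneg_left s1 (mul_nonneg c0 (rr_nonneg (powU (gNeg w) P.k)))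
      have j3 := mul_le_mul_of_nonneg_left (add_le_add e (i2.trans i4)) hκ.le
      rw [rr_add]
      generalize √((T.card : ℝ) / P.k) = κ at *
      generalize ((P.k : ℝ) / T.card) ^ 2 = ω at *
      generalize Real.exp _ = ex at *
      generalize (0.7 : ℝ) ^ (T.card - P.k) = sv at *
      have j4 : ω * rr ev * (κ ^ 5 * ex) = κ * (rr ev * ex) := by
        linear_combination κ * rr ev * ex * s3
      have j5 : ω * rr (powU (gNeg w) P.k) * (κ ^ 5 * sv) = κ * (rr (powU (gNeg w) P.k) * sv) := by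
        linear_combination κ * rr (powU (gNeg w) P.k) * sv * s3
      linarith
    · exact (mul_nonpos_of_nonneg_of_nonpos hκ.le (sub_nonpos.2 (e.jensen h hq
        (Finset.card_pos.1 (by exact_mod_cast hn))))).trans (mul_nonneg c0 (rr_nonneg _))
  refine hI.trans ?_
  rw [zero_mul, zero_div, add_zero, mul_assoc, ← dS_eq hs]
  exact mul_le_mul_of_nonneg_left (mulU_ge _ _) (sq_nonneg _)

theorem second (h : BOK B Q E) (hq : q ∈ B.I) (hU : InU P T x) {sa sb : ℕ} (hs : sa ≤ sb)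
    {ylo ym wa wb w up : ℕ} (hylo : ylo = mulD P.xa0 (tS sa)) (hym : ym = mulU P.xb1 (tS sb))
    (hwa : wa = max ylo (mulD P.ra (tS sa) / P.k))
    (hwb : wb = min ym (mulU P.rb (tS sb) / P.k + 1)) (hw : RgOK B w (rr wa) (rr wb))
    (c1 : max (gAB (rq Q ylo ym)) (gAB w) ≤ R07)
    (H : ∀ y : ι → ℝ, HIn B P (rq Q ylo ym) (rq Q ((ylo + wa) / 2) (min ym ((ym + wb) / 2 + 1))) w
      ym (tS sb) q T y (rr ylo) → ∏ j ∈ T, B.g 0 q (y j) - B.g 0 q (mean T y) ^ T.card ≤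
        (up : ℝ) / 2 ^ 120 * 0.7 ^ (T.card - P.k) * Var T y) :
    ∫ u in (√((T.card : ℝ) / P.k) * sR sa)..(√((T.card : ℝ) / P.k) * sR sb),
      FE (B.g 0 q) false 0 0 T x u ≤ Var T x * rr ((SS * up * (t4L sa sb + 1)) >>> 160 + 1) := by
  have hk := kpos hU
  have hkn := kle hU
  have hn := hk.trans_le hkn
  have hV := Full.var_nonneg T x
  have hκ : 0 < √((T.card : ℝ) / P.k) := Real.sqrt_pos.2 (div_pos hn hk)
  have s1 := seven hU
  have s3 : √((T.card : ℝ) / P.k) ^ 4 = ((T.card : ℝ) / P.k) ^ 2 := by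
    rw [show 4 = 2 * 2 from rfl, pow_mul, Real.sq_sqrt (by positivity)]
  have hup : (0 : ℝ) ≤ (up : ℝ) / 2 ^ 120 := by positivity
  have hI := cell_scale (hU.int h.sc hq) hκ (sR_nonneg sa) (sR_mono hs) (c0 := 0)
    (c4 := (up : ℝ) / 2 ^ 120 * Var T x) fun u h1 h2 => by
    obtain ⟨t1, t2⟩ := tS_mem h1 h2
    obtain ⟨g1, -, g3, g4⟩ := geo hU t1 t2
    rw [← hym] at g1 g4
    rw [← hylo] at g1 g3
    rw [← hwa] at g3
    have k8 := hU.k8
    have key := H (fun j => x j * (T.card / P.k * u ^ 2)) ⟨by omega,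
      fun h0 => absurd (hU.uni.symm.trans h0) (by decide), fun _ => ⟨by omega, hU.card, c1⟩,
      rr_nonneg _, g1, fun v v0 v1 => (h.qok.rq _ _).pt q hq v ((rr_nonneg _).trans v0) v0 v1,
      fun v v0 v1 => ?_, ?_, ?_⟩
    · have j1 := mul_le_mul_of_nonneg_left key hκ.le
      have j2 := mul_le_mul_of_nonneg_left s1
        (mul_nonneg (mul_nonneg hup hV) (show 0 ≤ u ^ 4 by positivity))
      rw [var_mul, mul_pow, ← s3] at j1
      rw [FE_scale]
      refine j1.trans (le_trans (le_of_eq ?_) (j2.trans (le_of_eq ?_))) <;> ring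
    · rw [mean_scale hU] at v0 v1
      have v2 : rr ((ylo + wa) / 2) ≤ v := by
        have h3 := rr_div_le (ylo + wa) 2
        rw [rr_add] at h3
        push_cast at h3
        linarith
      exact (h.qok.rq _ _).pt q hq v ((rr_nonneg _).trans v2) v2 (hwb ▸ half_le g4 v1)
    · rw [mean_scale hU]
      exact (hw.pt q hq _ ((rr_nonneg _).trans g3) g3 (hwb ▸ g4)).inR
    · have j1 : (u ^ 2) ^ 2 ≤ rr (tS sb) ^ 2 := pow_le_pow_left₀ (sq_nonneg u) t2 2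
      have j2 := mul_le_mul j1 hU.var (mul_nonneg hV hn.le) (sq_nonneg _)
      have j3 := mul_le_mul_of_nonneg_left j2 (div_pos hn hk).le
      rw [var_mul]
      refine le_trans (le_of_eq ?_) (j3.trans (le_of_eq ?_)) <;> field_simp
  refine hI.trans ?_
  have h1 := (rr_shr_lt (SS * up * (t4L sa sb + 1)) 160).le
  have h2 := mul_le_mul_of_nonneg_left (t4L_encl hs).2 hup
  rw [rr_nmul, SS_eq] at h1
  refine le_trans (le_of_eq ?_) (mul_le_mul_of_nonneg_left (h2.trans (le_trans (le_of_eq ?_) h1)) hV)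
  · ring
  · push_cast
    ring

theorem hess_elim {α : Type} (h : BOK B Q E) (P : EP) (R Rn w ym tb : ℕ) (kk : ℕ → ℕ → α)
    (kk' : ℕ → ℕ → ℕ → α) (Φ : ℕ → ℕ → ℕ → Prop) (H : ∀ up dn : ℕ, (∀ q ∈ B.I, ∀ (ι : Type) (T : Finset ι) (y : ι → ℝ) (a : ℝ),
      HIn B P R Rn w ym tb q T y a → ∏ j ∈ T, B.g 0 q (y j) - B.g 0 q (mean T y) ^ T.card ≤
        (up : ℝ) / 2 ^ 120 * 0.7 ^ (T.card - P.k) * Var T y) →
      ∃ a b c, kk up dn = kk' a b c ∧ Φ a b c) :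
    ∃ a b c, hess B P R Rn w ym tb kk = kk' a b c ∧ Φ a b c := by
  obtain ⟨up, dn, e, h1⟩ := hess_spec h P R Rn w ym tb kk
  exact e ▸ H up dn fun q hq ι T y a hy => (h1 q hq ι T y a hy).1

end YCellUX

open YCellUX

theorem cellE_uni {α : Type} (h : BOK B Q E) {Va Vb : ℕ → ℕ} {P : EP}
    (hf : P.fin = true → EndOK B Va Vb B.Yp) {sa sb : ℕ} (hs : sa ≤ sb) (sc sh sg : ℕ)
    (kk : ℕ → ℕ → ℕ → α) :
    ∃ sc' sh' sg', cellE B Q E Va Vb P sa sb sc sh sg kk = kk sc' sh' sg' ∧ sc ≤ sc' ∧ sh ≤ sh' ∧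
      (sc' < BIG → sh' < BIG → ∀ q ∈ B.I, ∀ (ι : Type) (T : Finset ι) (x : ι → ℝ), InU P T x →
        (mulU P.xb1 (tS sb) ≤ B.z2 → ∫ u in sR sa..sR sb, FE (B.g 0 q) false 0 0 T x u ≤
          PhiE (((P.k : ℝ) / T.card) ^ 2) (Var T x) sc' sh' sg' -
            PhiE (((P.k : ℝ) / T.card) ^ 2) (Var T x) sc sh sg) ∧
        (B.z2 < mulU P.xb1 (tS sb) →
          ∫ u in (√((T.card : ℝ) / P.k) * sR sa)..(√((T.card : ℝ) / P.k) * sR sb),
            FE (B.g 0 q) false 0 0 T x u ≤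
          PhiE (((P.k : ℝ) / T.card) ^ 2) (Var T x) sc' sh' sg' -
            PhiE (((P.k : ℝ) / T.card) ^ 2) (Var T x) sc sh sg)) := by
  unfold cellE
  simp only [forceN_eq]
  generalize hylo : mulD P.xa0 (tS sa) = ylo
  generalize hym : mulU P.xb1 (tS sb) = ym
  generalize hwa : max ylo (mulD P.ra (tS sa) / P.k) = wa
  generalize hwb : min ym (mulU P.rb (tS sb) / P.k + 1) = wb
  have hw : RgOK B (bif P.fin then fineN B Va Vb (rq Q wa (wb + 1)) wa wb else rq Q wa wb)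
      (rr wa) (rr wb) := by
    cases hfin : P.fin
    · exact h.qok.rq _ _
    · rw [cond_true, fineN_eq]
      exact fine_sound h.sc (h.yp.trans h.yc) (hf hfin) (h.qok.rq _ _)
  generalize (bif P.fin then fineN B Va Vb (rq Q wa (wb + 1)) wa wb else rq Q wa wb) = w at hw ⊢
  generalize hol : (bif P.ho then oNeg _ _ else 0) = ol
  subst hylo
  cases hb : (Nat.ble ym B.z2 && Nat.beq ol 0)
  · have hz : P.ho = false → ¬ ym ≤ B.z2 := fun h0 h1 => by
      rw [h0, cond_false] at hol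
      rw [← hol, Nat.ble_eq.mpr h1] at hb
      exact absurd hb (by decide)
    dsimp only
    refine hess_elim h _ _ _ _ _ _ _ _ _ fun up dn H => ?_
    generalize Nat.ble _ (mulD P.Vs _) = d
    cases d
    · refine ⟨_, _, _, rfl, le_rfl, Nat.le_add_right _ _, fun _ h2 q hq ι T x hU =>
        ⟨fun h3 => absurd h3 (hz hU.ho), fun h3 => ?_⟩⟩
      have k3 : Nat.beq P.k 3 = false := by
        have := hU.k8
        exact Bool.eq_false_iff.2 fun h4 => by rw [Nat.beq_eq] at h4; omega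
      have z2 : Nat.ble ym B.z2 = false := Bool.eq_false_iff.2 fun h4 => hz hU.ho (Nat.ble_eq.mp h4)
      rw [hU.ho, cond_false] at hol
      simp only [hU.uni, hU.ho, k3, z2, ← hol, cond_true, cond_false, Bool.true_and,
        Bool.false_and, Nat.zero_mul, Nat.max_zero] at H h2 ⊢
      cases h5 : Nat.ble (max (gAB (rq Q (mulD P.xa0 (tS sa)) ym)) (gAB w)) R07
      · rw [h5] at h2
        exact absurd h2 (not_lt.2 (Nat.le_add_left _ _))
      · refine (second h hq hU hs rfl hym.symm hwa.symm hwb.symm hw (Nat.ble_eq.mp h5)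
          fun y => H q hq ι T y _).trans (le_of_eq ?_)
        simp only [PhiE, Bool.not_true, cond_false, rr_add sh]
        ring
    · refine ⟨_, _, _, rfl, Nat.le_add_right _ _, le_rfl, fun h1 _ q hq ι T x hU =>
        ⟨fun h3 => absurd h3 (hz hU.ho), fun h3 => ?_⟩⟩
      simp only [hU.uni, cond_true] at h1 ⊢
      cases h5 : (Nat.ble (2 * ym) (mulD P.ra (tS sa)) &&
        Nat.ble (5 * SS) (2 * P.k * mulD (envb E ym) wa) && Nat.ble (gNeg w) R07)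
      · rw [h5] at h1
        exact absurd h1 (not_lt.2 (Nat.le_add_left _ _))
      · simp only [Bool.and_eq_true, Nat.ble_eq] at h5
        refine (crude h hq hU hs hym.symm rfl hwa.symm (hwb ▸ hw) h5.1.1 h5.1.2 h5.2).trans
          (le_of_eq ?_)
        simp only [PhiE, cond_true, rr_add sc]
        ring
  · rw [Bool.and_eq_true, Nat.ble_eq] at hb
    refine ⟨_, _, _, rfl, le_rfl, le_rfl, fun _ _ q hq ι T x hU =>
      ⟨fun _ => ?_, fun h3 => absurd hb.1 (not_le.2 h3)⟩⟩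
    refine (gain h hq hU hs hym.symm hwb.symm (hwa ▸ hw) rfl hb.1).trans (le_of_eq ?_)
    simp only [PhiE, hU.uni, hU.ho, Nat.ble_eq.mpr hb.1, cond_true, cond_false, rr_add sg, gainC]
    ring

end Pool.Agent.MP_39fec4_gt.K

end

section

set_option autoImplicit false

namespace Pool.Agent.MP_39fec4_gt.K

open Set MeasureTheory Full

variable {B : Blk} {Q : ℕ → ℕ → ℕ} {E : ℕ → ℕ} {q : ℝ} {ι : Type} {T : Finset ι}

namespace YFinUX

def xU (B : Blk) (P : EP) (s : ℕ) : ℕ :=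
  min (bif Nat.ble (64 * SS) (mulD B.gam (mulD P.xb1 (tS s))) &&
      (bif P.uni then Nat.ble (2 * P.k * P.xb1) (3 * SS) && Nat.ble 8 P.k
        else Nat.ble (4 * P.xb1) P.ra) then powU (divU SS (mulD B.gam (mulD P.xb1 (tS s)))) 2
      else BIG)
    (bif Nat.blt (far0 B (mulD P.xa0 (tS s))) BIG && !P.uni then
      powU (far0 B (mulD P.xa0 (tS s))) P.k else BIG)

def cU (B : Blk) (P : EP) (s : ℕ) : ℕ :=
  bif Nat.ble (far0 B (mulD P.ra (tS s) / P.k)) R07 && Nat.ble 3 P.k && Nat.blt (xU B P s) BIG then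
    mulU (powU (far0 B (mulD P.ra (tS s) / P.k)) P.k + xU B P s) (s <<< 34) else BIG

def fbU (B : Blk) (P : EP) (s : ℕ) : ℕ :=
  bif Nat.ble 4 P.k then far0 B (mulD P.xa0 (tS s)) else farc B (mulD P.xa0 (tS s))

def hU (B : Blk) (P : EP) (s : ℕ) : ℕ :=
  bif Nat.ble (fbU B P s) R07 && Nat.ble 3 P.k && Nat.blt (far1b B (mulD P.xa0 (tS s))) BIG &&
      Nat.blt (far2 B (mulD P.xa0 (tS s))) BIG then
    ((((powU (fbU B P s) (P.k - 1) * far2 B (mulD P.xa0 (tS s))) <<< 39) +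
      2 * powU (fbU B P s) (P.k - 2) * far1b B (mulD P.xa0 (tS s)) *
        far1b B (mulD P.xa0 (tS s))) * tS s * tS s * s) >>> 166 + 1
  else BIG

theorem fin_false {α : Type} (P : EP) (kk : ℕ → ℕ → ℕ → α) (s sc sh sg : ℕ) (ho : P.ho = false) :
    finE B Q P kk s sc sh sg = Bool.casesOn (motive := fun _ => α)
      (Nat.ble (cU B P s) (mulD P.Vs (hU B P s))) (kk sc (sh + hU B P s) sg)
      (kk (sc + cU B P s) sh sg) := by
  unfold finE
  simp only [forceN_eq]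
  rw [ho]
  rfl

theorem fin_true {α : Type} (P : EP) (kk : ℕ → ℕ → ℕ → α) (s sc sh sg : ℕ) (ho : P.ho = true) :
    ∃ d, finE B Q P kk s sc sh sg = kk (sc + d) sh sg := by
  unfold finE
  simp only [forceN_eq]
  rw [ho]
  exact ⟨_, rfl⟩

theorem cond_lt {b : Bool} {a : ℕ} (h : (bif b then a else BIG) < BIG) :
    b = true ∧ (bif b then a else BIG) = a := by
  cases b
  · exact absurd h (lt_irrefl _)
  · exact ⟨rfl, rfl⟩

theorem R07_lt : R07 < BIG := by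
  unfold R07 BIG
  omega

theorem Var_mul (T : Finset ι) (x : ι → ℝ) (t : ℝ) :
    Var T (fun j => x j * t) = t ^ 2 * Var T x := by
  unfold Var
  rw [Finset.mul_sum]
  refine Finset.sum_congr rfl fun j _ => ?_
  rw [← Finset.sum_mul]
  ring

theorem Var_nonneg (T : Finset ι) (x : ι → ℝ) : 0 ≤ Var T x :=
  Finset.sum_nonneg fun _ _ => sq_nonneg _

theorem kap_scale {k n : ℕ} (hk : 8 ≤ k) (hn : k ≤ n) :
    √((n : ℝ) / k) ^ 5 * 0.7 ^ (n - k) ≤ 1 := by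
  refine scale_nat (by norm_num) (by omega) hn ?_
  have h8 : (8 : ℝ) ≤ k := by exact_mod_cast hk
  have h1 : ((k : ℝ) + 1) ^ 5 ≤ (9 / 8 * k) ^ 5 :=
    pow_le_pow_left₀ (by positivity) (by linarith) 5
  have h2 : (0 : ℝ) ≤ (k : ℝ) ^ 5 := by positivity
  rw [mul_pow] at h1
  nlinarith

theorem kap_alg {k n : ℕ} (hk : 8 ≤ k) (hn : k ≤ n) :
    √((n : ℝ) / k) ^ 5 ≤ √65 ^ (2 * n / 3 - 4) := by
  set j := 2 * n / 3 - 4 with hj
  have h1 : n ≤ 8 * 2 ^ j := by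
    have : j < 2 ^ j := Nat.lt_two_pow_self
    omega
  have h8 : (8 : ℝ) ≤ k := by exact_mod_cast hk
  have h2 : (n : ℝ) / k ≤ 2 ^ j := by
    rw [div_le_iff₀ (by linarith)]
    have h3 : (n : ℝ) ≤ 8 * 2 ^ j := by exact_mod_cast h1
    have h4 : (0 : ℝ) < 2 ^ j := by positivity
    nlinarith
  have h5 : √((n : ℝ) / k) ≤ √2 ^ j := by
    rw [Real.sqrt_le_iff]
    refine ⟨by positivity, ?_⟩
    rwa [← pow_mul, mul_comm, pow_mul, Real.sq_sqrt (by norm_num)]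
  have h6 : √2 ^ 5 ≤ √65 := by
    refine Real.le_sqrt_of_sq_le ?_
    rw [← pow_mul, mul_comm, pow_mul, Real.sq_sqrt (by norm_num)]
    norm_num
  calc √((n : ℝ) / k) ^ 5 ≤ (√2 ^ j) ^ 5 := pow_le_pow_left₀ (by positivity) h5 5
    _ = (√2 ^ 5) ^ j := by rw [← pow_mul, ← pow_mul, mul_comm]
    _ ≤ √65 ^ j := pow_le_pow_left₀ (by positivity) h6 j

theorem crude (h : BOK B Q E) (hq : q ∈ B.I) {P : EP} {x : ι → ℝ} (hP : InU P T x) {s : ℕ}
    (hc : cU B P s < BIG) :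
    ∫ u in Ioi (√((T.card : ℝ) / P.k) * sR s), FE (B.g 0 q) false 0 0 T x u ≤
      ((P.k : ℝ) / T.card) ^ 2 * rr (cU B P s) := by
  obtain ⟨hb, hce⟩ := cond_lt hc
  simp only [Bool.and_eq_true, Nat.ble_eq, Nat.blt_eq] at hb
  obtain ⟨⟨hfw, -⟩, hx⟩ := hb
  have hk8 := hP.k8
  have hkn := hP.card
  have hx' := hx
  unfold xU at hx'
  rw [hP.uni, Bool.not_true, Bool.and_false, cond_false, cond_true] at hx'
  obtain ⟨hb2, hxe⟩ := cond_lt (lt_of_not_ge fun h0 => by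
    rw [min_eq_right h0] at hx'
    exact lt_irrefl _ hx')
  have hxe' : xU B P s = powU (divU SS (mulD B.gam (mulD P.xb1 (tS s)))) 2 := by
    unfold xU at hx ⊢
    rw [hP.uni, Bool.not_true, Bool.and_false, cond_false, cond_true, hxe] at hx ⊢
    refine min_eq_left (le_of_not_gt fun h0 => ?_)
    rw [min_eq_right h0.le] at hx
    exact lt_irrefl _ hx
  simp only [Bool.and_eq_true, Nat.ble_eq] at hb2
  obtain ⟨hz, hxb, -⟩ := hb2
  have hcU : cU B P s = mulU (powU (far0 B (mulD P.ra (tS s) / P.k)) P.k + xU B P s) (s <<< 34) :=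
    hce
  rw [hcU, hxe']
  have hk0 : (0 : ℝ) < P.k := by exact_mod_cast (by omega : 0 < P.k)
  have hn0 : (0 : ℝ) < T.card := by exact_mod_cast (by omega : 0 < T.card)
  set ka := √((T.card : ℝ) / P.k) with hka
  have hka0 : 0 < ka := Real.sqrt_pos.2 (by positivity)
  have hka2 : ka ^ 2 = (T.card : ℝ) / P.k := Real.sq_sqrt (by positivity)
  have hw : ((P.k : ℝ) / T.card) ^ 2 * ka ^ 4 = 1 := by
    rw [show ka ^ 4 = (ka ^ 2) ^ 2 by ring, hka2]
    field_simp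
  have hy : rr (mulD P.ra (tS s) / P.k) ≤ 1 / P.k * sR s ^ 2 := by
    refine (rr_div_le _ _).trans ?_
    have := mulD_le P.ra (tS s)
    rw [hP.ra, rr_SS, tS_eq, one_mul] at this
    rw [hP.ra, one_div, ← div_eq_inv_mul]
    exact div_le_div_of_nonneg_right this hk0.le
  have hfB := lt_of_le_of_lt hfw R07_lt
  have hS : 0 < sR s := (far0_sq h hq hy hfB le_rfl).1
  have hxi : ∀ j ∈ T, 0 ≤ x j * T.card / P.k ∧ x j * T.card / P.k ≤ rr P.xb1 := fun j hj =>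
    ⟨(rr_nonneg _).trans (hP.rng j hj).1, (hP.rng j hj).2⟩
  have hm : ((2 * T.card / 3 : ℕ) : ℝ) * rr P.xb1 ≤ ∑ j ∈ T, x j * T.card / P.k := by
    rw [← Finset.sum_div, ← Finset.sum_mul, hP.sum, one_mul, le_div_iff₀ hk0]
    have h1 : ((2 * T.card / 3 : ℕ) : ℝ) ≤ 2 * T.card / 3 := by
      have := Nat.cast_div_le (α := ℝ) (m := 2 * T.card) (n := 3)
      push_cast at this
      exact this
    have h2 := rr_le.2 hxb
    rw [rr_nmul, rr_nmul, rr_SS] at h2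
    push_cast at h2
    have h3 : 0 ≤ rr P.xb1 * P.k := mul_nonneg (rr_nonneg _) hk0.le
    calc ((2 * T.card / 3 : ℕ) : ℝ) * rr P.xb1 * P.k
        = ((2 * T.card / 3 : ℕ) : ℝ) * (rr P.xb1 * P.k) := by ring
      _ ≤ 2 * T.card / 3 * (3 / 2) := mul_le_mul h1 (by linarith) h3 (by positivity)
      _ = T.card := by ring
  generalize hfw0 : far0 B (mulD P.ra (tS s) / P.k) = fw at *
  generalize hx0 : powU (divU SS (mulD B.gam (mulD P.xb1 (tS s)))) 2 = x0 at *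
  have h7 : rr fw ≤ 0.7 := (rr_le.2 hfw).trans R07_le
  have key := tail_scale (A2 := ((P.k : ℝ) / T.card) ^ 2 * rr (powU fw P.k + x0)) (A3 := 0)
    (hP.int h.sc hq) hka0 hS (by
      intro u hu
      have hu0 : 0 < u := lt_of_lt_of_le hS hu
      have a1 := (alg_tail h hq hxi hm (by omega) hz hu).2
      have a2 := (far0_sq h hq hy (by rw [hfw0]; exact hfB) hu).2
      rw [hx0] at a1
      rw [hfw0] at a2
      set r := sR s / u with hr
      have hr0 : 0 ≤ r := by positivity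
      have hr1 : r ≤ 1 := (div_le_one hu0).2 hu
      have e1 : ∏ j ∈ T, B.g 0 q (x j * (ka * u) ^ 2) =
          ∏ j ∈ T, B.g 0 q (x j * T.card / P.k * u ^ 2) :=
        Finset.prod_congr rfl fun j _ => by rw [mul_pow, hka2]; congr 1; ring
      have e2 : mean T x * (ka * u) ^ 2 = 1 / P.k * u ^ 2 := by
        rw [mean, hP.sum, mul_pow, hka2]
        field_simp
      simp only [FE, cond_false, one_mul, zero_mul, add_zero]
      rw [e1, e2]
      set A := ∏ j ∈ T, B.g 0 q (x j * T.card / P.k * u ^ 2)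
      set G := B.g 0 q (1 / P.k * u ^ 2)
      have b1 : ka ^ 5 * |A| ≤ rr x0 * r ^ 2 := by
        refine le_trans ?_ a1
        rw [mul_comm]
        exact mul_le_mul_of_nonneg_left (kap_alg hk8 hkn) (abs_nonneg _)
      have b2 : |G ^ T.card| ≤ rr fw ^ P.k * 0.7 ^ (T.card - P.k) * r ^ 2 := by
        rw [abs_pow]
        refine (pow_le_pow_left₀ (abs_nonneg _) a2 _).trans ?_
        rw [mul_pow]
        refine mul_le_mul ?_ (pow_le_pow_of_le_one hr0 hr1 (by omega)) (by positivity)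
          (mul_nonneg (pow_nonneg (rr_nonneg _) _) (by positivity))
        conv_lhs => rw [show T.card = P.k + (T.card - P.k) by omega, pow_add]
        exact mul_le_mul_of_nonneg_left (pow_le_pow_left₀ (rr_nonneg _) h7 _)
          (pow_nonneg (rr_nonneg _) _)
      have b3 : ka ^ 5 * |G ^ T.card| ≤ rr (powU fw P.k) * r ^ 2 := by
        have c1 := kap_scale hk8 hkn
        have c2 := powU_ge fw P.k
        have c3 : 0 ≤ rr fw ^ P.k := pow_nonneg (rr_nonneg _) _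
        calc ka ^ 5 * |G ^ T.card| ≤ ka ^ 5 * (rr fw ^ P.k * 0.7 ^ (T.card - P.k) * r ^ 2) :=
              mul_le_mul_of_nonneg_left b2 (by positivity)
          _ = (ka ^ 5 * 0.7 ^ (T.card - P.k)) * (rr fw ^ P.k * r ^ 2) := by ring
          _ ≤ 1 * (rr (powU fw P.k) * r ^ 2) :=
              mul_le_mul c1 (mul_le_mul_of_nonneg_right c2 (by positivity)) (by positivity)
                zero_le_one
          _ = _ := one_mul _
      have b4 : ka ^ 5 * (A - G ^ T.card) ≤ rr (powU fw P.k + x0) * r ^ 2 := by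
        have c1 : A - G ^ T.card ≤ |A| + |G ^ T.card| := by
          have := le_abs_self A
          have := neg_abs_le (G ^ T.card)
          linarith
        have c2 := mul_le_mul_of_nonneg_left c1 (by positivity : 0 ≤ ka ^ 5)
        rw [rr_add]
        linarith
      calc ka * (A - G ^ T.card) = ((P.k : ℝ) / T.card) ^ 2 * ka ^ 4 * (ka * (A - G ^ T.card)) := by
            rw [hw, one_mul]
        _ = ((P.k : ℝ) / T.card) ^ 2 * (ka ^ 5 * (A - G ^ T.card)) := by ring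
        _ ≤ ((P.k : ℝ) / T.card) ^ 2 * (rr (powU fw P.k + x0) * r ^ 2) :=
            mul_le_mul_of_nonneg_left b4 (by positivity)
        _ = _ := by ring)
  refine key.trans ?_
  rw [zero_div, add_zero, mul_assoc]
  refine mul_le_mul_of_nonneg_left ?_ (by positivity)
  rw [← shl34]
  exact mulU_ge _ _

theorem units (a b k1 k2 s t : ℕ) (ht : rr t = sR s ^ 2) :
    (rr a * rr k2 / 2 + 2 * rr b * rr k1 ^ 2) * sR s ^ 5 ≤
      rr (((((a * k2) <<< 39) + 2 * b * k1 * k1) * t * t * s) >>> 166 + 1) := by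
  refine le_trans (le_of_eq ?_) (rr_shr_lt _ _).le
  have hs : (s : ℝ) = sR s * 64 := by
    rw [sR, div_mul_cancel₀ _ (by norm_num)]
  rw [rr_muln, rr_mul, rr_mul, ht, rr_add, rr_shl, rr_mul, rr_mul, rr_mul, rr_nmul]
  generalize sR s = S at hs ⊢
  rw [hs]
  push_cast
  ring

theorem second (h : BOK B Q E) (hq : q ∈ B.I) {P : EP} {x : ι → ℝ} (hP : InU P T x) {s : ℕ}
    (hc : hU B P s < BIG) :
    ∫ u in Ioi (√((T.card : ℝ) / P.k) * sR s), FE (B.g 0 q) false 0 0 T x u ≤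
      Var T x * rr (hU B P s) := by
  obtain ⟨hb, hce⟩ := cond_lt hc
  simp only [Bool.and_eq_true, Nat.ble_eq, Nat.blt_eq] at hb
  obtain ⟨⟨⟨hfb, h3⟩, hk1⟩, hk2⟩ := hb
  have hk8 := hP.k8
  have hkn := hP.card
  have hhU : hU B P s = _ := hce
  rw [hhU]
  have hk0 : (0 : ℝ) < P.k := by exact_mod_cast (by omega : 0 < P.k)
  have hn0 : (0 : ℝ) < T.card := by exact_mod_cast (by omega : 0 < T.card)
  set ka := √((T.card : ℝ) / P.k) with hka
  have hka0 : 0 < ka := Real.sqrt_pos.2 (by positivity)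
  have hka2 : ka ^ 2 = (T.card : ℝ) / P.k := Real.sq_sqrt (by positivity)
  have hy : rr (mulD P.xa0 (tS s)) ≤ rr P.xa0 * sR s ^ 2 := by
    rw [← tS_eq]
    exact mulD_le _ _
  have hfe : fbU B P s = far0 B (mulD P.xa0 (tS s)) := by
    unfold fbU
    rw [Nat.ble_eq_true_of_le (by omega : 4 ≤ P.k), cond_true]
  have hS : 0 < sR s :=
    (far0_sq h hq hy (by rw [← hfe]; exact lt_of_le_of_lt hfb R07_lt) le_rfl).1
  have hV := Var_nonneg T x
  have hfar := fun (u : ℝ) (hu : sR s ≤ u) =>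
    far_hess (T := T) h hq (y := fun j => x j * (ka * u) ^ 2) (k := P.k)
      (ylo := mulD P.xa0 (tS s)) (c := u / sR s) ((one_le_div hS).2 hu) h3 hkn (by
        intro j hj
        have e : x j * (ka * u) ^ 2 = x j * T.card / P.k * u ^ 2 := by
          rw [mul_pow, hka2]; ring
        rw [e]
        calc rr (mulD P.xa0 (tS s)) * (u / sR s) ^ 2 ≤ rr P.xa0 * sR s ^ 2 * (u / sR s) ^ 2 :=
              mul_le_mul_of_nonneg_right hy (by positivity)
          _ = rr P.xa0 * u ^ 2 := by field_simp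
          _ ≤ _ := mul_le_mul_of_nonneg_right (hP.rng j hj).1 (by positivity))
      (fb := fbU B P s) rfl hfb hk1 hk2
  generalize fbU B P s = fb at *
  generalize far1b B (mulD P.xa0 (tS s)) = k1 at *
  generalize far2 B (mulD P.xa0 (tS s)) = k2 at *
  have hun := units (powU fb (P.k - 1)) (powU fb (P.k - 2)) k1 k2 s _ (tS_eq s)
  set K := rr fb ^ (P.k - 1) * rr k2 / 2 + 2 * rr fb ^ (P.k - 2) * rr k1 ^ 2 with hK
  have hK0 : 0 ≤ K := by
    have := rr_nonneg fb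
    have := rr_nonneg k2
    positivity
  have hKle : K ≤ rr (powU fb (P.k - 1)) * rr k2 / 2 + 2 * rr (powU fb (P.k - 2)) * rr k1 ^ 2 := by
    have c1 := mul_le_mul_of_nonneg_right (powU_ge fb (P.k - 1)) (rr_nonneg k2)
    have c2 := mul_le_mul_of_nonneg_right (powU_ge fb (P.k - 2)) (sq_nonneg (rr k1))
    linarith
  have key := tail_scale (A2 := K * Var T x * sR s ^ 4) (A3 := 0)
    (hP.int h.sc hq) hka0 hS (by
      intro u hu
      have hu0 : 0 < u := lt_of_lt_of_le hS hu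
      have a1 := hfar u hu
      rw [mean_mul, Var_mul] at a1
      simp only [FE, cond_false, one_mul, zero_mul, add_zero]
      set D := ∏ j ∈ T, B.g 0 q (x j * (ka * u) ^ 2) - B.g 0 q (mean T x * (ka * u) ^ 2) ^ T.card
      have c1 := kap_scale hk8 hkn
      have c2 : ka * D * (u / sR s) ^ 6 ≤ K * Var T x * u ^ 4 := by
        calc ka * D * (u / sR s) ^ 6 ≤ ka * |D| * (u / sR s) ^ 6 := by
              have := le_abs_self D
              gcongr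
          _ = ka * (|D| * (u / sR s) ^ 6) := by ring
          _ ≤ ka * (K * 0.7 ^ (T.card - P.k) * (((ka * u) ^ 2) ^ 2 * Var T x)) :=
              mul_le_mul_of_nonneg_left a1 hka0.le
          _ = (ka ^ 5 * 0.7 ^ (T.card - P.k)) * (K * Var T x * u ^ 4) := by ring
          _ ≤ 1 * (K * Var T x * u ^ 4) := mul_le_mul_of_nonneg_right c1 (by positivity)
          _ = _ := one_mul _
      have c3 : K * Var T x * sR s ^ 4 * (sR s / u) ^ 2 * (u / sR s) ^ 6 =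
          K * Var T x * u ^ 4 := by field_simp
      rw [← c3] at c2
      exact le_of_mul_le_mul_right c2 (by positivity))
  refine key.trans ?_
  rw [zero_div, add_zero]
  calc K * Var T x * sR s ^ 4 * sR s = Var T x * (K * sR s ^ 5) := by ring
    _ ≤ _ := mul_le_mul_of_nonneg_left
        ((mul_le_mul_of_nonneg_right hKle (by positivity)).trans hun) hV

end YFinUX

open YFinUX in
theorem finE_uni {α : Type} (h : BOK B Q E) (P : EP) (kk : ℕ → ℕ → ℕ → α) (s sc sh sg : ℕ) :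
    ∃ sc' sh', finE B Q P kk s sc sh sg = kk sc' sh' sg ∧ sc ≤ sc' ∧ sh ≤ sh' ∧
      (sc' < BIG → sh' < BIG → ∀ q ∈ B.I, ∀ (ι : Type) (T : Finset ι) (x : ι → ℝ), InU P T x →
        ∫ u in Ioi (√((T.card : ℝ) / P.k) * sR s), FE (B.g 0 q) false 0 0 T x u ≤
          PhiE (((P.k : ℝ) / T.card) ^ 2) (Var T x) sc' sh' sg -
            PhiE (((P.k : ℝ) / T.card) ^ 2) (Var T x) sc sh sg) := by
  rcases Bool.eq_false_or_eq_true P.ho with ho | ho
  · obtain ⟨d, hd⟩ := fin_true (B := B) (Q := Q) P kk s sc sh sg ho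
    refine ⟨_, _, hd, Nat.le_add_right _ _, le_rfl, fun _ _ q _ ι T x hP => ?_⟩
    rw [hP.ho] at ho
    exact absurd ho Bool.false_ne_true
  · rw [fin_false P kk s sc sh sg ho]
    rcases Bool.eq_false_or_eq_true (Nat.ble (cU B P s) (mulD P.Vs (hU B P s))) with hb | hb
    · rw [hb]
      refine ⟨_, _, rfl, Nat.le_add_right _ _, le_rfl, fun h1 _ q hq ι T x hP => ?_⟩
      refine (crude h hq hP (lt_of_le_of_lt (Nat.le_add_left _ _) h1)).trans (le_of_eq ?_)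
      simp only [PhiE, rr_add]
      ring
    · rw [hb]
      refine ⟨_, _, rfl, le_rfl, Nat.le_add_right _ _, fun _ h1 q hq ι T x hP => ?_⟩
      refine (second h hq hP (lt_of_le_of_lt (Nat.le_add_left _ _) h1)).trans (le_of_eq ?_)
      simp only [PhiE, rr_add]
      ring

end Pool.Agent.MP_39fec4_gt.K

end

section

set_option autoImplicit false

namespace Pool.Agent.MP_39fec4_gt.K

open Set MeasureTheory Full

variable {B : Blk} {Q : ℕ → ℕ → ℕ} {E : ℕ → ℕ} {q : ℝ} {ι : Type} {T : Finset ι}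

namespace YFarX

/-- The integrand without the negative part of the diagonal term. -/
noncomputable def FF (g : ℝ → ℝ) (T : Finset ι) (x : ι → ℝ) (s : ℝ) : ℝ :=
  FE g false 0 0 T x s - ngp g T.card s

/-- The coordinates of the run, with the scaling factor `k`. -/
structure Ctx (T : Finset ι) (x : ι → ℝ) (xs n0 : ℕ) (k : ℝ) : Prop where
  h0 : ∀ j ∈ T, 0 ≤ x j
  h1 : ∑ j ∈ T, x j = 1
  k1 : 1 ≤ k
  hx : ∀ j ∈ T, x j * k ^ 2 ≤ rr xs
  n8 : 8 ≤ n0
  nc : n0 ≤ T.card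
  one : 1 ≤ n0 * rr xs
  var : Var T x ≤ rr xs

variable {x : ι → ℝ} {xs n0 : ℕ} {k : ℝ}

theorem Ctx.ne (c : Ctx T x xs n0 k) : T.Nonempty :=
  Finset.card_pos.1 (by have := c.n8; have := c.nc; omega)

theorem Ctx.le (c : Ctx T x xs n0 k) {j : ι} (hj : j ∈ T) : x j ≤ rr xs := by
  have h1 := c.hx j hj
  have h2 := c.h0 j hj
  have h3 : 1 ≤ k ^ 2 := one_le_pow₀ c.k1
  nlinarith

theorem Ctx.avg (c : Ctx T x xs n0 k) (t : ℝ) : mean T (fun j => x j * t) = t / T.card := by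
  rw [mean_mul, mean, c.h1]
  ring

theorem Ctx.int (c : Ctx T x xs n0 k) (h : BOK B Q E) (hq : q ∈ B.I) :
    IntegrableOn (FF (B.g 0 q) T x) (Ioi 0) :=
  (int_FE_in h.sc hq 0 0 c.h0 (by rw [c.h1]; exact one_pos)).sub
    (int_ngp h hq (by have := c.n8; have := c.nc; omega))

theorem le_diff (T : Finset ι) (x : ι → ℝ) (g : ℝ → ℝ) (s : ℝ) :
    FF g T x s ≤ ∏ j ∈ T, g (x j * s ^ 2) - g (mean T fun j => x j * s ^ 2) ^ T.card := by
  have h1 : 0 ≤ ngp g T.card s := le_max_right _ _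
  unfold FF FE
  rw [cond_false, one_mul, mean_mul]
  linarith

theorem Ctx.le_prod (c : Ctx T x xs n0 k) (g : ℝ → ℝ) (s : ℝ) :
    FF g T x s ≤ ∏ j ∈ T, g (x j * s ^ 2) := by
  have h1 : -(g (s ^ 2 / T.card) ^ T.card) ≤ ngp g T.card s := le_max_left _ _
  unfold FF FE
  rw [cond_false, one_mul, ← mean_mul, c.avg]
  linarith

theorem Ctx.fl (c : Ctx T x xs n0 k) (h : BOK B Q E) (hq : q ∈ B.I) {s : ℝ}
    (hf : FL B q T fun j => x j * s ^ 2) : FF (B.g 0 q) T x s ≤ 0 := by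
  have h1 := FL.jensen h hq c.ne hf
  have h2 := le_diff T x (B.g 0 q) s
  linarith

/-- A lower bound for the power at the mean. -/
theorem Ctx.low (c : Ctx T x xs n0 k) (h : BOK B Q E) (hq : q ∈ B.I) {ta tb : ℕ} {t : ℝ}
    (h1 : rr ta ≤ t) (h2 : t ≤ rr tb) (hz : mulU xs tb ≤ B.z2) :
    rr (powD (gLop (rq Q (ta / n0) (min (mulU xs tb) (tb / n0 + 1)))) n0) ≤
      B.g 0 q (t / T.card) ^ T.card := by
  have hn : 0 < n0 := by have := c.n8; omega
  have hn' : (0 : ℝ) < n0 := by exact_mod_cast hn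
  have t0 : 0 ≤ t := (rr_nonneg _).trans h1
  have e1 : t / n0 ≤ rr (mulU xs tb) := by
    refine le_trans ?_ (le_mulU (le_refl (rr xs)) h2 t0)
    rw [div_le_iff₀ hn']
    nlinarith only [mul_le_mul_of_nonneg_left c.one t0]
  have e2 : t / n0 ≤ rr B.z2 := e1.trans (rr_le.2 hz)
  have e3 : t / n0 ≤ rr (tb / n0 + 1) :=
    (div_le_div_of_nonneg_right h2 hn'.le).trans (rr_div_lt tb hn).le
  have e4 : rr (ta / n0) ≤ t / n0 :=
    (rr_div_le ta n0).trans (div_le_div_of_nonneg_right h1 hn'.le)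
  have e0 : 0 ≤ t / n0 := div_nonneg t0 hn'.le
  have hw := ((h.qok.rq (ta / n0) (min (mulU xs tb) (tb / n0 + 1))).pt q hq (t / n0) e0 e4
    (by rw [rr_min]; exact le_min e1 e3)).inR
  generalize rq Q (ta / n0) (min (mulU xs tb) (tb / n0 + 1)) = w at hw ⊢
  refine le_trans (powD_le_of ?_ n0) ((h.hd q hq).pow_mono (h.sc.sm_g hq) hn c.nc t0 e2)
  rcases Nat.eq_zero_or_pos (gLop w) with h0 | h0
  · rw [h0, rr_zero]
    exact ((h.hd q hq).pos _ e0 e2).le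
  · exact hw.lop (Or.inl h0)

/-- The gain on a cell inside the first lobe. -/
theorem Ctx.gain (c : Ctx T x xs n0 k) (h : BOK B Q E) (hq : q ∈ B.I) {sa sb : ℕ} (hab : sa ≤ sb)
    (hz : mulU xs (tS sb) ≤ B.z2) {cc : ℕ} (hc : cc = gainC (rq Q 0 (mulU xs (tS sb)))
      (rq Q 0 (min (mulU xs (tS sb)) ((mulU xs (tS sb) + tS sb / n0 + 1) / 2 + 1)))) :
    ∫ u in sR sa..sR sb, FF (B.g 0 q) T x u ≤ -(Var T x * rr (divD (mulD (mulD (powD (gLop
      (rq Q (tS sa / n0) (min (mulU xs (tS sb)) (tS sb / n0 + 1)))) n0) cc) (t4L sa sb))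
      (2 * SS + mulU cc (mulU (mulU (tS sb) (tS sb)) xs)))) := by
  have hn : 0 < n0 := by have := c.n8; omega
  have hn' : (0 : ℝ) < n0 := by exact_mod_cast hn
  have hN : (n0 : ℝ) ≤ T.card := by exact_mod_cast c.nc
  have hlow := fun t h1 h2 => c.low h hq (ta := tS sa) (tb := tS sb) (t := t) h1 h2 hz
  generalize powD (gLop (rq Q (tS sa / n0) (min (mulU xs (tS sb)) (tS sb / n0 + 1)))) n0 = lw
    at hlow ⊢
  have hV := Full.var_nonneg T x
  have hW : ∀ t, 0 ≤ t → t ≤ rr (tS sb) → t ^ 2 * Var T x ≤ rr (mulU (mulU (tS sb) (tS sb)) xs) :=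
    fun t h1 h2 => le_mulU (by rw [sq]; exact le_mulU h2 h2 h1) c.var hV
  generalize mulU (mulU (tS sb) (tS sb)) xs = Wm at hW ⊢
  have hD : 0 < 2 + rr cc * rr Wm := by
    linarith only [mul_nonneg (rr_nonneg cc) (rr_nonneg Wm)]
  have key : ∀ u, sR sa ≤ u → u ≤ sR sb → FF (B.g 0 q) T x u ≤
      0 + 0 * u ^ 2 + -(rr lw * rr cc / (2 + rr cc * rr Wm) * Var T x) * u ^ 4 := by
    intro u h1 h2
    obtain ⟨t1, t2⟩ := tS_mem h1 h2
    have t0 : 0 ≤ u ^ 2 := sq_nonneg u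
    have m1 : u ^ 2 / T.card ≤ u ^ 2 / n0 := div_le_div_of_nonneg_left t0 hn' hN
    have m2 : u ^ 2 / n0 ≤ rr (mulU xs (tS sb)) := by
      refine le_trans ?_ (le_mulU (le_refl (rr xs)) t2 t0)
      rw [div_le_iff₀ hn']
      nlinarith only [mul_le_mul_of_nonneg_left c.one t0]
    have m3 : u ^ 2 / n0 ≤ rr (tS sb / n0 + 1) :=
      (div_le_div_of_nonneg_right t2 hn'.le).trans (rr_div_lt _ hn).le
    have m0 : 0 ≤ u ^ 2 / T.card := by positivity
    have g1 := gain_spec h hq (Rg := rq Q 0 (mulU xs (tS sb)))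
      (Rn := rq Q 0 (min (mulU xs (tS sb)) ((mulU xs (tS sb) + tS sb / n0 + 1) / 2 + 1)))
      (y := fun j => x j * u ^ 2) (a := 0) (b := rr (mulU xs (tS sb))) (lw := rr lw)
      (Wm := rr Wm) c.ne le_rfl (rr_le.2 hz)
      (fun j hj => ⟨mul_nonneg (c.h0 j hj) t0, le_mulU (c.le hj) t2 t0⟩)
      (fun v v0 v1 => (h.qok.rq 0 _).pt q hq v v0 (by rw [rr_zero]; exact v0) v1)
      (fun v v0 v1 => by
        rw [c.avg] at v0 v1
        have v2 : 0 ≤ v := le_trans (by linarith only [m0]) v0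
        refine (h.qok.rq 0 _).pt q hq v v2 (by rw [rr_zero]; exact v2) ?_
        rw [rr_min]
        refine le_min (by linarith only [v1, m1, m2]) ?_
        have v3 := rr_div_lt (k := 2) (mulU xs (tS sb) + tS sb / n0 + 1) two_pos
        rw [Nat.add_assoc, rr_add] at v3
        rw [Nat.add_assoc]
        push_cast at v3
        linarith only [v1, v3, m1, m3])
      (rr_nonneg _) (by rw [c.avg]; exact hlow _ t1 t2)
      (by rw [var_smul]; exact hW _ t0 t2)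
    rw [← hc, var_smul] at g1
    refine (le_diff T x _ u).trans (g1.trans (le_of_eq ?_))
    ring
  have h1 := cell_int (c.int h hq) (sR_nonneg sa) (sR_mono hab) key
  have h2 : rr (divD (mulD (mulD lw cc) (t4L sa sb)) (2 * SS + mulU cc Wm)) ≤
      rr lw * rr cc * ((sR sb ^ 5 - sR sa ^ 5) / 5) / (2 + rr cc * rr Wm) := by
    refine divD_le_of (mulD_le_of (mulD_le _ _) (t4L_encl hab).1) hD ?_
    rw [rr_add, rr_nmul, rr_SS]
    push_cast
    linarith only [mulU_ge cc Wm]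
  have h3 := mul_le_mul_of_nonneg_left h2 hV
  refine h1.trans (le_trans (le_of_eq ?_) (neg_le_neg h3))
  ring

/-- Nothing is lost between a point and its rescaled image inside the first lobe. -/
theorem Ctx.zero (c : Ctx T x xs n0 k) (h : BOK B Q E) (hq : q ∈ B.I) {s : ℕ}
    (hz : mulU xs (tS s) ≤ B.z2) : ∫ u in sR s..k * sR s, FF (B.g 0 q) T x u ≤ 0 := by
  have s0 := sR_nonneg s
  have k1 := c.k1
  have hab : sR s ≤ k * sR s := le_mul_of_one_le_left s0 k1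
  have key : ∀ u, sR s ≤ u → u ≤ k * sR s →
      FF (B.g 0 q) T x u ≤ 0 + 0 * u ^ 2 + 0 * u ^ 4 := by
    intro u h1 h2
    have t0 : 0 ≤ u ^ 2 := sq_nonneg u
    have h3 : u ^ 2 ≤ (k * sR s) ^ 2 := pow_le_pow_left₀ (s0.trans h1) h2 2
    have h4 := c.fl h hq (s := u) (FL.of_le h hq fun j hj => ⟨mul_nonneg (c.h0 j hj) t0, by
      refine le_trans ?_ (rr_le.2 hz)
      refine le_trans ?_ (le_mulU (c.hx j hj) (tS_eq s).ge (sq_nonneg _))
      have := mul_le_mul_of_nonneg_left h3 (c.h0 j hj)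
      linarith only [this]⟩)
    linarith only [h4]
  have h1 := cell_int (c.int h hq) s0 hab key
  linarith only [h1]

/-- The envelope bound on a rescaled cell. -/
theorem Ctx.env (c : Ctx T x xs n0 k) (h : BOK B Q E) (hq : q ∈ B.I) {sa sb : ℕ} (hab : sa ≤ sb)
    {ym b : ℕ} (hym : ym = mulU xs (tS sb)) (hb : b = envb E ym) (h2 : 2 * ym ≤ tS sa)
    (h5 : 5 * SS ≤ 2 * mulD b (tS sa)) :
    ∫ u in k * sR sa..k * sR sb, FF (B.g 0 q) T x u ≤
      1 / k ^ 4 * rr (mulU (envUp B Q b ym (tS sa) BIG (gNeg (rq Q 0 ym))) (dS sa sb)) := by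
  have k1 := c.k1
  have k0 : 0 < k := one_pos.trans_le k1
  have k2 : 1 ≤ k ^ 2 := one_le_pow₀ k1
  have hR := (h.qok.rq 0 ym).pt q hq
  generalize rq Q 0 ym = R at hR ⊢
  have hup := fun (y : ι → ℝ) => envUp_spec h hq (T := T) (y := y) (b := b) (ym := ym)
    (tl := tS sa) (th := BIG) (ng := gNeg R) (de := (k ^ 2 - 1) * rr (tS sa))
    (by rw [hb]; exact h.envOK hq ym)
  generalize envUp B Q b ym (tS sa) BIG (gNeg R) = en at hup ⊢
  have e0 := rr_nonneg en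
  have a0 := rr_nonneg (tS sa)
  have hs : k * Real.exp (-(rr b * ((k ^ 2 - 1) * rr (tS sa)))) ≤ 1 / k ^ 4 := by
    have h6 : (5 : ℝ) ≤ 2 * (rr b * rr (tS sa)) * 1 := by
      have h7 := rr_le.2 h5
      rw [rr_nmul, rr_nmul, rr_SS] at h7
      have h8 := mulD_le b (tS sa)
      push_cast at h7
      linarith only [h7, h8]
    have h9 := scale_exp one_pos k2 h6
    rw [div_one, Real.sqrt_sq k0.le] at h9
    rw [le_div_iff₀ (pow_pos k0 4)]
    refine le_trans (le_of_eq ?_) h9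
    rw [show rr b * ((k ^ 2 - 1) * rr (tS sa)) = rr b * rr (tS sa) * (k ^ 2 - 1) by ring]
    ring
  have key : ∀ u, sR sa ≤ u → u ≤ sR sb →
      k * FF (B.g 0 q) T x (k * u) ≤ 1 / k ^ 4 * rr en + 0 * u ^ 4 := by
    intro u h1 h3
    obtain ⟨t1, t2⟩ := tS_mem h1 h3
    have t0 : 0 ≤ u ^ 2 := sq_nonneg u
    have hy : ∀ j ∈ T, 0 ≤ x j * (k * u) ^ 2 ∧ x j * (k * u) ^ 2 ≤ rr ym := fun j hj =>
      ⟨mul_nonneg (c.h0 j hj) (sq_nonneg _), by
        rw [hym, mul_pow, ← mul_assoc]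
        exact le_mulU (c.hx j hj) t2 t0⟩
    have h4 := hup (fun j => x j * (k * u) ^ 2) hy
      (by
        rw [← Finset.sum_mul, c.h1, mul_pow]
        linarith only [mul_le_mul_of_nonneg_left t1 (sq_nonneg k)])
      (Or.inr h.z2_le.2) (mul_nonneg (sub_nonneg.2 k2) a0) (Or.inr h2)
      (fun j hj => (hR _ (hy j hj).1 (by rw [rr_zero]; exact (hy j hj).1) (hy j hj).2).inR.neg)
    rcases h4 with h4 | h4
    · have h6 := mul_le_mul_of_nonneg_left ((c.le_prod (B.g 0 q) (k * u)).trans h4) k0.le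
      have h7 := mul_le_mul_of_nonneg_left hs e0
      linarith only [h6, h7]
    · have h6 := mul_nonpos_of_nonneg_of_nonpos k0.le (c.fl h hq h4)
      have h7 : 0 ≤ 1 / k ^ 4 * rr en := mul_nonneg (one_div_pos.2 (pow_pos k0 4)).le e0
      linarith only [h6, h7]
  have h1 := cell_scale (c.int h hq) k0 (sR_nonneg sa) (sR_mono hab) key
  have h3 := mulU_ge en (dS sa sb)
  rw [dS_eq hab] at h3
  have h4 := mul_le_mul_of_nonneg_left h3 (one_div_pos.2 (pow_pos k0 4)).le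
  refine h1.trans (le_trans (le_of_eq ?_) h4)
  ring

/-- The tail. -/
theorem Ctx.tail (c : Ctx T x xs n0 k) (h : BOK B Q E) (hq : q ∈ B.I) {s m : ℕ}
    (hm : (m + 4 : ℕ) * rr xs ≤ k ^ 2) (hk : k ^ 2 ≤ m + 1)
    (hz : 64 * SS ≤ mulD B.gam (mulD xs (tS s))) :
    ∫ u in Ioi (k * sR s), FF (B.g 0 q) T x u ≤
      (1 : ℝ) / k ^ 4 * rr (mulU (powU (divU SS (mulD B.gam (mulD xs (tS s)))) 2) (s <<< 34)) := by
  have k1 := c.k1
  have k0 : 0 < k := one_pos.trans_le k1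
  have ht := fun u hu => alg_tail h hq (T := T) (x := fun j => x j * k ^ 2) (xb := xs) (s := s)
    (m := m + 4) (fun j hj => ⟨mul_nonneg (c.h0 j hj) (sq_nonneg _), c.hx j hj⟩)
    (by rw [← Finset.sum_mul, c.h1, one_mul]; exact hm) (by omega) hz (u := u) hu
  generalize powU (divU SS (mulD B.gam (mulD xs (tS s)))) 2 = A at ht ⊢
  have s0 := (ht _ le_rfl).1
  have hs : k ^ 5 ≤ √65 ^ m := by
    refine le_of_sq_le_sq ?_ (by positivity)
    have h1 : (m : ℝ) + 1 ≤ 2 ^ m := by exact_mod_cast Nat.lt_two_pow_self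
    calc (k ^ 5) ^ 2 = (k ^ 2) ^ 5 := by ring
      _ ≤ ((2 : ℝ) ^ m) ^ 5 := pow_le_pow_left₀ (sq_nonneg _) (hk.trans h1) 5
      _ = ((2 : ℝ) ^ 5) ^ m := by rw [← pow_mul, ← pow_mul, mul_comm]
      _ ≤ (65 : ℝ) ^ m := pow_le_pow_left₀ (by norm_num) (by norm_num) m
      _ = (√65 ^ m) ^ 2 := by
        rw [← pow_mul, mul_comm, pow_mul, Real.sq_sqrt (by norm_num)]
  have key : ∀ u, sR s ≤ u → k * FF (B.g 0 q) T x (k * u) ≤
      1 / k ^ 4 * rr A * (sR s / u) ^ 2 + 0 * (sR s / u) ^ 3 := by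
    intro u hu
    have h1 := (ht u hu).2
    rw [Nat.add_sub_cancel] at h1
    have h2 := c.le_prod (B.g 0 q) (k * u)
    have h3 : ∏ j ∈ T, B.g 0 q (x j * (k * u) ^ 2) = ∏ j ∈ T, B.g 0 q (x j * k ^ 2 * u ^ 2) :=
      Finset.prod_congr rfl fun j _ => by rw [mul_pow, mul_assoc]
    rw [h3] at h2
    generalize ∏ j ∈ T, B.g 0 q (x j * k ^ 2 * u ^ 2) = P at h1 h2
    have h4 := mul_le_mul_of_nonneg_left hs (abs_nonneg P)
    have h5 : FF (B.g 0 q) T x (k * u) * k ^ 5 ≤ |P| * k ^ 5 :=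
      mul_le_mul_of_nonneg_right (h2.trans (le_abs_self P)) (by positivity)
    rw [zero_mul, add_zero, mul_assoc, one_div, inv_mul_eq_div, le_div_iff₀ (by positivity)]
    linarith only [h1, h4, h5]
  have h1 := tail_scale (c.int h hq) k0 s0 key
  have h3 := mulU_ge A (s <<< 34)
  rw [shl34] at h3
  have h4 := mul_le_mul_of_nonneg_left h3 (one_div_pos.2 (pow_pos k0 4)).le
  refine h1.trans (le_trans (le_of_eq ?_) h4)
  ring

/-- The invariant of the run. -/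
def Inv (F : ℝ → ℝ) (k V : ℝ) (xs z2 s sc sg : ℕ) : Prop :=
  sc < BIG → (∫ u in (0 : ℝ)..k * sR s, F u ≤ 1 / k ^ 4 * rr sc - V * rr sg) ∧
    (mulU xs (tS s) ≤ z2 → ∫ u in (0 : ℝ)..sR s, F u ≤ 1 / k ^ 4 * rr sc - V * rr sg)

theorem Ctx.step (c : Ctx T x xs n0 k) (h : BOK B Q E) (hq : q ∈ B.I) {α : Type}
    (s s' sc sh sg : ℕ) (kk : ℕ → ℕ → ℕ → α) (hab : s ≤ s')
    (hI : Inv (FF (B.g 0 q) T x) k (Var T x) xs B.z2 s sc sg) :
    ∃ a b g, cellF B Q E xs n0 s s' sc sh sg kk = kk a b g ∧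
      Inv (FF (B.g 0 q) T x) k (Var T x) xs B.z2 s' a g := by
  have k1 := c.k1
  have k0 : 0 < k := one_pos.trans_le k1
  have hi := c.int h hq
  unfold cellF
  simp only [forceN_eq]
  cases hz : Nat.ble (mulU xs (tS s')) B.z2 with
  | false =>
    refine ⟨_, _, _, rfl, fun hlt => ?_⟩
    have hz' : ¬mulU xs (tS s') ≤ B.z2 := fun h1 => by
      rw [Nat.ble_eq_true_of_le h1] at hz
      exact Bool.noConfusion hz
    refine ⟨?_, fun h1 => absurd h1 hz'⟩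
    have h1 := (hI (lt_of_le_of_lt (Nat.le_add_right _ _) hlt)).1
    cases hb : (Nat.ble (2 * mulU xs (tS s')) (tS s) &&
        Nat.ble (5 * SS) (2 * mulD (envb E (mulU xs (tS s'))) (tS s))) with
    | false =>
      rw [hb, cond_false] at hlt
      exact absurd hlt (not_lt.2 (Nat.le_add_left _ _))
    | true =>
      rw [cond_true]
      rw [Bool.and_eq_true, Nat.ble_eq, Nat.ble_eq] at hb
      have h2 := c.env h hq hab rfl rfl hb.1 hb.2
      rw [int_add hi (mul_nonneg k0.le (sR_nonneg s))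
        (mul_le_mul_of_nonneg_left (sR_mono hab) k0.le), rr_add]
      linarith only [h1, h2]
  | true =>
    refine ⟨_, _, _, rfl, fun hlt => ?_⟩
    have hz' : mulU xs (tS s') ≤ B.z2 := Nat.le_of_ble_eq_true hz
    have h1 := (hI hlt).2 ((mulU_mono le_rfl (tS_mono hab)).trans hz')
    have h2 := c.gain h hq hab hz' rfl
    have h3 := c.zero h hq hz'
    have h4 := int_add hi (sR_nonneg s) (sR_mono hab)
    have h5 := int_add hi (sR_nonneg s') (le_mul_of_one_le_left (sR_nonneg s') k1)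
    unfold gainC at h2
    rw [rr_add]
    exact ⟨by linarith only [h1, h2, h3, h4, h5], fun _ => by linarith only [h1, h2, h4]⟩

end YFarX

open YFarX in
theorem farChk_sound (h : BOK B Q E) {xs n0 : ℕ} {sch : List ℕ}
    (ok : farChk B Q E xs n0 sch = true) (hq : q ∈ B.I) {x : ι → ℝ} (h0 : ∀ j ∈ T, 0 ≤ x j)
    (h1 : ∑ j ∈ T, x j = 1) {i : ι} (hi : i ∈ T) (hm : ∀ j ∈ T, x j ≤ x i) (hs : x i ≤ rr xs)
    (h3 : 3 < 2 * T.card * x i) : IG (B.g 0 q) T x < DG (B.g 0 q) T.card := by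
  unfold farChk at ok
  simp only [Bool.and_eq_true, Nat.ble_eq, Nat.blt_eq] at ok
  obtain ⟨⟨⟨⟨⟨o1, o2⟩, o3⟩, o4⟩, o5⟩, o6⟩ := ok
  have hT : T.Nonempty := ⟨i, hi⟩
  have n0' : (0 : ℝ) < T.card := by exact_mod_cast hT.card_pos
  have x0 : 0 < x i := by
    by_contra hc
    have := mul_nonpos_of_nonneg_of_nonpos (show (0 : ℝ) ≤ 2 * T.card by positivity) (not_lt.1 hc)
    linarith only [this, h3]
  have X0 := rr_pos o2
  have X1 : 20 * rr xs ≤ 3 := by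
    have := rr_le.2 o1
    rw [rr_nmul, rr_nmul, rr_SS] at this
    push_cast at this
    linarith only [this]
  have X2 : 1 ≤ n0 * rr xs := by
    have := rr_le.2 o3
    rwa [rr_nmul, rr_SS] at this
  have X3 : n0 ≤ T.card := by
    have h4 := rr_le.2 o4
    rw [rr_nmul, rr_nmul, rr_SS] at h4
    have h5 : ((2 * (n0 - 1) : ℕ) : ℝ) * rr xs < ((2 * T.card : ℕ) : ℝ) * rr xs := by
      have h6 := mul_le_mul_of_nonneg_left hs (show (0 : ℝ) ≤ 2 * T.card by positivity)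
      push_cast at h4 ⊢
      linarith only [h3, h4, h6]
    have h7 : 2 * (n0 - 1) < 2 * T.card := by exact_mod_cast lt_of_mul_lt_mul_right h5 X0.le
    omega
  have hk2 : √(rr xs / x i) ^ 2 = rr xs / x i := Real.sq_sqrt (by positivity)
  have hk1 : 1 ≤ √(rr xs / x i) := Real.one_le_sqrt.2 ((one_le_div x0).2 hs)
  generalize √(rr xs / x i) = k at hk1 hk2
  have hk3 : x i * k ^ 2 = rr xs := by rw [hk2]; field_simp
  have hn1 : 1 / (T.card : ℝ) < 2 * x i / 3 := by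
    rw [div_lt_iff₀ n0']
    linarith only [h3]
  have hn0 : 0 < 1 / (T.card : ℝ) := by positivity
  have V1 : Var T x ≤ rr xs := by
    have h4 := var_le T hT x (a := 0) (b := x i) fun j hj => ⟨h0 j hj, hm j hj⟩
    rw [h1] at h4
    have h5 : (T.card : ℝ) * (x i - 1 / T.card) * (1 / T.card - 0) = x i - 1 / T.card := by
      field_simp
      ring
    linarith only [h4, h5, hs, hn0]
  have V2 : x i ^ 2 ≤ 9 * Var T x := by
    have h4 : (x i - (∑ j ∈ T, x j) / T.card) ^ 2 ≤ Var T x :=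
      Finset.single_le_sum (f := fun j => (x j - (∑ j ∈ T, x j) / T.card) ^ 2)
        (fun j _ => sq_nonneg _) hi
    rw [h1] at h4
    have h5 : (x i / 3) ^ 2 ≤ (x i - 1 / T.card) ^ 2 :=
      pow_le_pow_left₀ (by positivity) (by linarith only [hn1]) 2
    linarith only [h4, h5]
  have V0 : 0 < Var T x := by linarith only [V2, pow_pos x0 2]
  have c : Ctx T x xs n0 k := ⟨h0, h1, hk1, fun j hj => by
    rw [← hk3]; exact mul_le_mul_of_nonneg_right (hm j hj) (sq_nonneg k), o5, X3, X2, V1⟩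
  obtain ⟨s, sc, sh, sg, e, hI⟩ := sweep_ind sch (cellF B Q E xs n0) _
    (fun s a _ g => Inv (FF (B.g 0 q) T x) k (Var T x) xs B.z2 s a g)
    (fun _ => by simp [sR_zero, rr_zero]) (fun s s' a b g kk => c.step h hq s s' a b g kk)
  rw [e] at o6
  simp only [forceN_eq, Bool.and_eq_true, Nat.ble_eq, Nat.blt_eq] at o6
  obtain ⟨⟨⟨⟨p1, p2⟩, p3⟩, p4⟩, p5⟩ := o6
  obtain ⟨m, hm1, hm2⟩ : ∃ m : ℕ, (m + 4 : ℕ) * x i ≤ 1 ∧ 1 ≤ (m + 5) * x i := by
    have f1 : (⌊1 / x i⌋₊ : ℝ) ≤ 1 / x i := Nat.floor_le (by positivity)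
    have f2 : 1 / x i < ⌊1 / x i⌋₊ + 1 := Nat.lt_floor_add_one _
    have f3 : 4 ≤ ⌊1 / x i⌋₊ := by
      refine Nat.le_floor ?_
      rw [le_div_iff₀ x0]
      push_cast
      linarith only [hs, X1, x0]
    obtain ⟨m, hm⟩ := Nat.exists_eq_add_of_le' f3
    rw [hm] at f1 f2
    rw [le_div_iff₀ x0] at f1
    rw [div_lt_iff₀ x0] at f2
    push_cast at f2
    exact ⟨m, f1, by linarith only [f2]⟩
  have k2 : 0 ≤ k ^ 2 := sq_nonneg k
  have t1 := c.tail h hq (s := s) (m := m)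
    (by
      rw [← hk3, ← mul_assoc]
      exact mul_le_of_le_one_left k2 hm1)
    (by
      have h4 := mul_le_mul_of_nonneg_right hm2 k2
      rw [mul_assoc, hk3] at h4
      have h5 : (0 : ℝ) ≤ m := Nat.cast_nonneg m
      linarith only [h4, h5, mul_le_mul_of_nonneg_left X1 h5, X1])
    p1
  have t2 := (hI p2).1
  have t3 := int_all (c.int h hq) (mul_nonneg (zero_le_one.trans hk1) (sR_nonneg s))
  have t4 := delN_sq h hq o5 X3 p3
  have t5 := IG_sub h.sc hq h0 h1 0 0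
  have i1 := int_FE_in h.sc hq 0 0 h0 (by rw [h1]; exact one_pos)
  have i2 := int_ngp h hq (n := T.card) hT.card_pos
  have t6 : ∫ u in Ioi (0 : ℝ), FF (B.g 0 q) T x u = (∫ u in Ioi (0 : ℝ),
      FE (B.g 0 q) false 0 0 T x u) - ∫ u in Ioi (0 : ℝ), ngp (B.g 0 q) T.card u :=
    integral_sub i1 i2
  have t7 : 0 ≤ ∫ u in Ioi (0 : ℝ), ngp (B.g 0 q) T.card u :=
    integral_nonneg fun u => le_max_right _ _
  have q5 := rr_lt.2 p5
  generalize mulU (powU (divU SS (mulD B.gam (mulD xs (tS s)))) 2) (s <<< 34) = A at t1 q5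
  have q6 := le_divU (a := 9 * (sc + A)) p4 le_rfl (mulD_le xs xs)
  rw [rr_add, rr_nmul (4 * n0 * n0)] at q5
  rw [rr_nmul, rr_add] at q6
  push_cast at q5 q6
  generalize rr (divU (9 * (sc + A)) (mulD xs xs)) = D at q5 q6
  generalize ∫ u in Ioi (0 : ℝ), ngp (B.g 0 q) T.card u = N at t4 t6 t7
  have u1 : 1 / k ^ 4 ≤ Var T x * (9 / (rr xs * rr xs)) := by
    have k0 : 0 < k := one_pos.trans_le hk1
    rw [← hk3, div_le_iff₀ (by positivity)]
    have : Var T x * (9 / (x i * k ^ 2 * (x i * k ^ 2))) * k ^ 4 = 9 * Var T x / x i ^ 2 := by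
      field_simp
    rw [this, le_div_iff₀ (by positivity)]
    linarith only [V2]
  have u2 : 1 / k ^ 4 * (rr sc + rr A) ≤ Var T x * D := by
    have h4 : 0 ≤ rr sc + rr A := add_nonneg (rr_nonneg _) (rr_nonneg _)
    have h5 := mul_le_mul_of_nonneg_right u1 h4
    have h6 := mul_le_mul_of_nonneg_left q6 V0.le
    refine h5.trans (le_trans (le_of_eq ?_) h6)
    ring
  have u3 : N ≤ Var T x * (4 * n0 * n0 * rr (delN B Q n0)) := by
    have h4 : 1 ≤ 4 * Var T x * (T.card : ℝ) ^ 2 := by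
      have h5 := mul_le_mul_of_nonneg_right V2 (sq_nonneg (T.card : ℝ))
      have h6 : (3 : ℝ) ^ 2 ≤ (2 * T.card * x i) ^ 2 := pow_le_pow_left₀ (by norm_num) h3.le 2
      linarith only [h5, h6]
    have h5 := mul_le_mul_of_nonneg_right h4 t7
    have h6 := mul_le_mul_of_nonneg_left t4 (show 0 ≤ 4 * Var T x by positivity)
    linarith only [h5, h6]
  have u4 := mul_lt_mul_of_pos_left q5 V0
  linarith only [t1, t2, t3, t5, t6, u2, u3, u4]

end Pool.Agent.MP_39fec4_gt.K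

end
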