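import Pool.Agent.Mg.F39fec4.Gef3640
import Pool.Agent.Mg.F39fec4.G356cc7
import Pool.Agent.Mg.F39fec4.G3c0919
import Pool.Agent.Mg.F39fec4.G9dbc44
import Pool.Agent.Mg.F39fec4.Ga8298b
import Pool.Agent.Mg.F39fec4.G6964a2
import Pool.Agent.Mg.F39fec4.G6a1680

section

set_option autoImplicit false

namespace Pool.Agent.MP_39fec4_gt.Full

open MeasureTheory Set Real Ball P4

variable {C q y : ℝ}

namespace FQbX

/-- The bracket in the second derivative. -/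
noncomputable def BQ (j : ℕ) (Y : ℝ) : ℝ := (2 * j + 1) * CC j Y + 2 * Y * CC (j + 1) Y

theorem pow_eq (hC : 0 < C) {w : ℝ} (hw : 0 < w) (m : ℕ) :
    ((w / C) ^ q) ^ m = (w / C) ^ ((m : ℝ) * q) := by
  rw [mul_comm, Real.rpow_mul (div_pos hw hC).le, Real.rpow_natCast]

theorem int_bound (hC : 0 < C) (hq : 0 < q) (m n : ℕ) (a b : ℝ) :
    IntegrableOn (fun w : ℝ => a * (Real.exp (-w) * ((w / C) ^ ((m : ℝ) * q) *
      Real.log (w / C) ^ 2)) + b * (Real.exp (-w) * ((w / C) ^ ((n : ℝ) * q) *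
      Real.log (w / C) ^ 2))) (Ioi 0) :=
  ((int_nu hC (by positivity)).const_mul a).add ((int_nu hC (by positivity)).const_mul b)

theorem norm_le (hC : 0 < C) (F : ℝ → ℝ) (m n : ℕ) (a b : ℝ)
    (h : ∀ R : ℝ, 0 < R → |F R| ≤ a * R ^ m + b * R ^ n) {w : ℝ} (hw : 0 < w) :
    ‖Real.exp (-w) * (Real.log (w / C) ^ 2 * F ((w / C) ^ q))‖ ≤
      a * (Real.exp (-w) * ((w / C) ^ ((m : ℝ) * q) * Real.log (w / C) ^ 2)) +
        b * (Real.exp (-w) * ((w / C) ^ ((n : ℝ) * q) * Real.log (w / C) ^ 2)) := by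
  have h1 := h _ (Real.rpow_pos_of_pos (div_pos hw hC) q)
  rw [← pow_eq hC hw, ← pow_eq hC hw, Real.norm_eq_abs, abs_mul, abs_mul,
    abs_of_pos (Real.exp_pos _), abs_of_nonneg (sq_nonneg _)]
  have h2 : 0 ≤ Real.exp (-w) * Real.log (w / C) ^ 2 := by positivity
  have h3 := mul_le_mul_of_nonneg_left h1 h2
  nlinarith [h3]

theorem key (hC : 0 < C) (hq : 0 < q) (F : ℝ → ℝ) (m n : ℕ) (a b : ℝ)
    (h : ∀ R : ℝ, 0 < R → |F R| ≤ a * R ^ m + b * R ^ n) :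
    |∫ w in Ioi (0 : ℝ), Real.exp (-w) * (Real.log (w / C) ^ 2 * F ((w / C) ^ q))| ≤
      a * nu C (m * q) + b * nu C (n * q) := by
  have h1 := norm_integral_le_of_norm_le (int_bound hC hq m n a b)
    ((ae_restrict_iff' measurableSet_Ioi).2 (Filter.Eventually.of_forall fun w hw =>
      norm_le (q := q) hC F m n a b h hw))
  rw [integral_add ((int_nu hC (by positivity)).const_mul a)
    ((int_nu hC (by positivity)).const_mul b), integral_const_mul, integral_const_mul] at h1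
  exact h1

theorem int_key (hC : 0 < C) (hq : 0 < q) (F : ℝ → ℝ) (hF : Continuous F) (m n : ℕ) (a b : ℝ)
    (h : ∀ R : ℝ, 0 < R → |F R| ≤ a * R ^ m + b * R ^ n) :
    IntegrableOn (fun w : ℝ => Real.exp (-w) * (Real.log (w / C) ^ 2 * F ((w / C) ^ q)))
      (Ioi 0) := by
  refine (int_bound hC hq m n a b).mono' ?_
    ((ae_restrict_iff' measurableSet_Ioi).2 (Filter.Eventually.of_forall fun w hw =>
      norm_le (q := q) hC F m n a b h hw))
  refine Measurable.aestronglyMeasurable ?_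
  have h1 : Measurable fun w : ℝ => F ((w / C) ^ q) :=
    hF.measurable.comp ((measurable_id.div_const C).pow_const q)
  have h2 : Measurable fun w : ℝ => Real.log (w / C) ^ 2 :=
    (Real.measurable_log.comp (measurable_id.div_const C)).pow_const 2
  exact (Real.measurable_exp.comp measurable_neg).mul (h2.mul h1)

/-- The integrand as a function of the radius. -/
noncomputable def FQ (j : ℕ) (y R : ℝ) : ℝ := R ^ (2 * j + 1) * BQ j (R ^ 2 * y)

theorem GG2_eq (C : ℝ) (j : ℕ) (q y : ℝ) : GG2 C j q y =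
    ∫ w in Ioi (0 : ℝ), Real.exp (-w) * (Real.log (w / C) ^ 2 *
      FQ j y ((w / C) ^ q)) := rfl

theorem BQ_zero {Y : ℝ} (hY : 0 ≤ Y) : BQ 0 Y = Real.cos √Y - √Y * Real.sin √Y := by
  rcases hY.eq_or_lt with rfl | h
  · simp [BQ, CC]
  · have hs : 0 < √Y := Real.sqrt_pos.2 h
    have h2 : Y = √Y * √Y := (Real.mul_self_sqrt hY).symm
    have h0 : CC 0 Y = Real.cos √Y := rfl
    rw [BQ, zero_add, CC_one h, h0]
    set s := √Y
    rw [h2]
    field_simp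
    ring

theorem BQ_zero_a {Y c : ℝ} (hY : 0 ≤ Y) (hc : 0 < c) : |BQ 0 Y| ≤ (1 + c ^ 2 + Y) / (2 * c) := by
  rw [BQ_zero hY]
  have h2 : Y = √Y ^ 2 := (Real.sq_sqrt hY).symm
  set s := √Y
  have h3 := Real.sin_sq_add_cos_sq s
  have h4 : (Real.cos s - s * Real.sin s) ^ 2 ≤ 1 + Y := by
    rw [h2]; nlinarith [sq_nonneg (Real.sin s + s * Real.cos s)]
  rw [le_div_iff₀ (by positivity)]
  have h5 := sq_abs (Real.cos s - s * Real.sin s)
  nlinarith [sq_nonneg (|Real.cos s - s * Real.sin s| - c)]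

theorem BQ_zero_b {Y : ℝ} (hY : 0 ≤ Y) : |BQ 0 Y - 1| ≤ 3 / 2 * Y := by
  rw [BQ_zero hY]
  have h2 : Y = √Y ^ 2 := (Real.sq_sqrt hY).symm
  have h0 : 0 ≤ √Y := Real.sqrt_nonneg Y
  set s := √Y
  have h3 := Real.one_sub_sq_div_two_le_cos (x := s)
  have h4 := Real.cos_le_one s
  have h5 : |Real.sin s| ≤ s := by
    have := Real.abs_sin_le_abs (x := s)
    rwa [abs_of_nonneg h0] at this
  have h6 := abs_le.1 h5
  have h7 : s * Real.sin s ≤ s * s := mul_le_mul_of_nonneg_left h6.2 h0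
  have h8 : s * (-s) ≤ s * Real.sin s := mul_le_mul_of_nonneg_left h6.1 h0
  rw [h2, abs_le]
  constructor <;> nlinarith

theorem BQ_one {Y : ℝ} (hY : 0 ≤ Y) : BQ 1 Y = 2 * CC 1 Y - CC 0 Y / 2 := by
  have := CC_rec 0 hY
  simp only [BQ]
  push_cast at this ⊢
  linarith

theorem BQ_two {Y : ℝ} (hY : 0 ≤ Y) : BQ 2 Y = 2 * CC 2 Y - CC 1 Y / 2 := by
  have := CC_rec 1 hY
  simp only [BQ]
  push_cast at this ⊢
  linarith

theorem abs_comb (a b : ℝ) : |2 * a - b / 2| ≤ 2 * |a| + |b| / 2 := by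
  have h1 := abs_le.1 (le_refl |a|)
  have h2 := abs_le.1 (le_refl |b|)
  rw [abs_le]
  constructor <;> linarith [h1.1, h1.2, h2.1, h2.2]

theorem bb0 : bb 0 = 1 := rfl

theorem bb1 : bb 1 = 1 / 2 := by simp [bb]

theorem bb2 : bb 2 = 1 / 12 := by simp [bb]; norm_num

theorem sqrt_ge (R : ℝ) {u y : ℝ} (hy : u ^ 2 ≤ y) :
    R * u ≤ √(R ^ 2 * y) := by
  refine Real.le_sqrt_of_sq_le ?_
  rw [mul_pow]
  exact mul_le_mul_of_nonneg_left hy (sq_nonneg R)

theorem abs_pow_mul {R : ℝ} (hR : 0 < R) (m : ℕ) (x : ℝ) : |R ^ m * x| = R ^ m * |x| := by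
  rw [abs_mul, abs_of_pos (pow_pos hR m)]

theorem zero_a (hy : 0 ≤ y) {c : ℝ} (hc : 0 < c) (R : ℝ) (hR : 0 < R) :
    |FQ 0 y R| ≤ (1 + c ^ 2) / (2 * c) * R ^ 1 + y / (2 * c) * R ^ 3 := by
  rw [FQ, abs_pow_mul hR]
  refine (mul_le_mul_of_nonneg_left (BQ_zero_a (by positivity) hc) (by positivity)).trans
    (le_of_eq ?_)
  field_simp
  ring

end FQbX

open FQbX

theorem GG2_zero_a (hC : 0 < C) (hq : 0 < q) (hy : 0 ≤ y) {c : ℝ} (hc : 0 < c) :
    |GG2 C 0 q y| ≤ ((1 + c ^ 2) * nu C q + y * nu C (3 * q)) / (2 * c) := by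
  rw [GG2_eq]
  refine (key hC hq _ 1 3 _ _ (zero_a hy hc)).trans (le_of_eq ?_)
  push_cast
  rw [one_mul]
  field_simp

theorem GG2_zero_b (hC : 0 < C) (hq : 0 < q) (hy : 0 ≤ y) :
    |GG2 C 0 q y - 1 * nu C q| ≤ 3 / 2 * y * nu C (3 * q) := by
  have hc0 := cont_CC 0
  have hc1 := cont_CC (0 + 1)
  have h1 := int_key hC hq (FQ 0 y) (by unfold FQ BQ; fun_prop) 1 3 _ _ (zero_a hy one_pos)
  have h2 := key hC hq (fun R : ℝ => FQ 0 y R - R) 3 3 (3 / 2 * y) 0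
    (fun R hR => by
      have e : FQ 0 y R - R = R ^ 1 * (BQ 0 (R ^ 2 * y) - 1) := by unfold FQ; ring
      rw [e, abs_pow_mul hR]
      refine (mul_le_mul_of_nonneg_left (BQ_zero_b (by positivity)) (by positivity)).trans
        (le_of_eq ?_)
      ring)
  rw [GG2_eq, one_mul, nu, ← integral_sub h1 (int_nu hC hq.le)]
  push_cast at h2
  rw [zero_mul, add_zero] at h2
  refine le_of_eq_of_le ?_ h2
  congr 2
  ext w
  ring

theorem GG2_one_a (hC : 0 < C) (hq : 0 < q) (hy : 0 ≤ y) :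
    |GG2 C 1 q y| ≤ 3 / 2 * nu C (3 * q) := by
  rw [GG2_eq]
  refine (key hC hq _ 3 3 (3 / 2) 0 fun R hR => ?_).trans (le_of_eq ?_)
  · rw [FQ, abs_pow_mul hR, BQ_one (by positivity)]
    have h1 := abs_comb (CC 1 (R ^ 2 * y)) (CC 0 (R ^ 2 * y))
    have h2 := abs_CC 1 (R ^ 2 * y)
    have h3 := abs_CC 0 (R ^ 2 * y)
    rw [bb1] at h2
    rw [bb0] at h3
    refine (mul_le_mul_of_nonneg_left (h1.trans (show _ ≤ (3 / 2 : ℝ) by linarith))
      (by positivity)).trans (le_of_eq ?_)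
    ring
  · push_cast
    ring

theorem GG2_one_b (hC : 0 < C) (hq : 0 < q) {u : ℝ} (hu : 0 < u) (hy : u ^ 2 ≤ y) :
    |GG2 C 1 q y| ≤ nu C (3 * q) / 2 + nu C (2 * q) / u := by
  have hy0 : 0 < y := lt_of_lt_of_le (by positivity) hy
  rw [GG2_eq]
  refine (key hC hq _ 3 2 (1 / 2) (1 / u) fun R hR => ?_).trans (le_of_eq ?_)
  · rw [FQ, abs_pow_mul hR, BQ_one (by positivity)]
    have h1 := abs_comb (CC 1 (R ^ 2 * y)) (CC 0 (R ^ 2 * y))
    have h2 := abs_CC_one (y := R ^ 2 * y) (by positivity)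
    have h3 := abs_CC 0 (R ^ 2 * y)
    have h4 : 1 / (2 * √(R ^ 2 * y)) ≤ 1 / (2 * (R * u)) :=
      one_div_le_one_div_of_le (by positivity) (by linarith [sqrt_ge R hy])
    rw [bb0] at h3
    refine (mul_le_mul_of_nonneg_left (h1.trans
      (show _ ≤ 2 * (1 / (2 * (R * u))) + 1 / 2 by linarith)) (by positivity)).trans (le_of_eq ?_)
    field_simp
    ring
  · push_cast
    ring

theorem GG2_two_a (hC : 0 < C) (hq : 0 < q) (hy : 0 ≤ y) :
    |GG2 C 2 q y| ≤ 5 / 12 * nu C (5 * q) := by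
  rw [GG2_eq]
  refine (key hC hq _ 5 5 (5 / 12) 0 fun R hR => ?_).trans (le_of_eq ?_)
  · rw [FQ, abs_pow_mul hR, BQ_two (by positivity)]
    have h1 := abs_comb (CC 2 (R ^ 2 * y)) (CC 1 (R ^ 2 * y))
    have h2 := abs_CC 2 (R ^ 2 * y)
    have h3 := abs_CC 1 (R ^ 2 * y)
    rw [bb2] at h2
    rw [bb1] at h3
    refine (mul_le_mul_of_nonneg_left (h1.trans (show _ ≤ (5 / 12 : ℝ) by linarith))
      (by positivity)).trans (le_of_eq ?_)
    ring
  · push_cast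
    ring

theorem GG2_two_b (hC : 0 < C) (hq : 0 < q) {u : ℝ} (hu : 0 < u) (hy : u ^ 2 ≤ y) :
    |GG2 C 2 q y| ≤ nu C (4 * q) / (4 * u) + 3 * nu C (3 * q) / (5 * u ^ 2) := by
  have hy0 : 0 < y := lt_of_lt_of_le (by positivity) hy
  rw [GG2_eq]
  refine (key hC hq _ 4 3 (1 / (4 * u)) (3 / (5 * u ^ 2)) fun R hR => ?_).trans (le_of_eq ?_)
  · rw [FQ, abs_pow_mul hR, BQ_two (by positivity)]
    have h1 := abs_comb (CC 2 (R ^ 2 * y)) (CC 1 (R ^ 2 * y))
    have h2 := abs_CC_two (y := R ^ 2 * y) (by positivity)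
    have h3 := abs_CC_one (y := R ^ 2 * y) (by positivity)
    have h4 : 1 / (2 * √(R ^ 2 * y)) ≤ 1 / (2 * (R * u)) :=
      one_div_le_one_div_of_le (by positivity) (by linarith [sqrt_ge R hy])
    have h5 : 3 / (10 * (R ^ 2 * y)) ≤ 3 / (10 * (R ^ 2 * u ^ 2)) :=
      div_le_div_of_nonneg_left (by norm_num) (by positivity) (by gcongr)
    refine (mul_le_mul_of_nonneg_left (h1.trans
      (show _ ≤ 2 * (3 / (10 * (R ^ 2 * u ^ 2))) + 1 / (2 * (R * u)) / 2 by linarith))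
      (by positivity)).trans (le_of_eq ?_)
    field_simp
    ring
  · push_cast
    field_simp

end Pool.Agent.MP_39fec4_gt.Full

end

section

set_option autoImplicit false

/-! Soundness of the record of a cell. -/

namespace Pool.Agent.MP_39fec4_gt.K

open Set Full

variable {B : Blk}

theorem m0a_ge (hs : ScalOK B) {q y : ℝ} (hq : q ∈ B.I) {y1 : ℕ} (h0 : 0 ≤ y) (h1 : y ≤ rr y1) :
    |GG2 B.C 0 q y| ≤ rr (m0a B y1) := by
  have hC := hs.C_pos
  have hq0 := (hs.q_pos hq).1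
  rw [m0a, forceN_eq]
  have hsq := sqrtU_sq (SS + y1)
  generalize sqrtU (SS + y1) = c at hsq ⊢
  rw [rr_add, rr_SS] at hsq
  have hc : 0 < c := by
    rcases Nat.eq_zero_or_pos c with h | h
    · rw [h, rr_zero] at hsq
      have := rr_nonneg y1
      norm_num at hsq
      linarith
    · exact h
  have hc' := rr_pos hc
  refine (GG2_zero_a hC hq0 h0 hc').trans (le_divU (by omega) ?_ ?_)
  · rw [rr_add]
    refine add_le_add (le_mulU ?_ (hs.n1 q hq) (nu_nonneg hC _))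
      (le_mulU h1 (hs.n3 q hq) (nu_nonneg hC _))
    rw [rr_add, rr_SS, sq]
    linarith [mulU_ge c c]
  · rw [rr_nmul]
    norm_num

/-- The a priori bound for the derivatives in `q`. -/
theorem dq_spec (hs : ScalOK B) {j : ℕ} {y c0 : ℝ} (hy : 0 ≤ y) {M s A : ℕ}
    (hM : ∀ q ∈ B.I, |GG2 B.C j q y - c0 * nu B.C q| ≤ rr M)
    (ha : |B.g j B.qa y - c0| ≤ rr A) (hb : |B.g j B.qb y - c0| ≤ rr A)
    (hd : |B.g j B.qb y - B.g j B.qa y| ≤ rr s * (B.qb - B.qa)) : ∀ q ∈ B.I,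
    |gq2 B.C j q y| ≤ rr (dq B M s A) ∧
      |gq1 B.C j q y| ≤ rr s + rr (dq B M s A) * (B.qb - B.qa) / 2 := by
  have hC := hs.C_pos
  have hL := rr_pos hs.mL0
  obtain ⟨hdm, hdq⟩ := hs.dm_eq
  have hab : B.qa < B.qb := by
    have : (0 : ℝ) < (B.dm : ℝ) / 4096 := div_pos (Nat.cast_pos.2 hdm) (by norm_num)
    linarith
  refine qsolve (f := fun q => Full.gg B.C j q y) (f1 := fun q => gq1 B.C j q y)
    (f2 := fun q => gq2 B.C j q y) (c0 := c0) (A := rr A) (M := rr M / rr B.mL) (be := rr B.be)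
    (ga := rr B.nr) hab (fun q hq => hasDerivAt_gg_q hC (hs.q_pos hq).1 hy j)
    (fun q hq => hasDerivAt_gq1_q hC (hs.q_pos hq).1 hy j) (fun q hq => ?_) (rr_nonneg _)
    (rr_nonneg _) ha hb hd ?_ hs.rh
  · refine (abs_gq2_le hC (hs.q_pos hq).1 j y c0 hL (hs.hmu q hq).1 (hs.m1 q hq) (hs.n1 q hq)
      (hM q hq)).trans ?_
    have h1 := mul_le_mul_of_nonneg_right hs.be (abs_nonneg (gq1 B.C j q y))
    have h2 := mul_le_mul_of_nonneg_right hs.nr (abs_nonneg (Full.gg B.C j q y - c0))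
    linarith
  · have h1 := divU_ge M hs.mL0
    have h2 := mulU_ge B.be s
    have h3 := mulU_ge B.nr A
    have h4 := mulU_ge B.fac (divU M B.mL + mulU B.be s + mulU B.nr A)
    have h5 := rr_nonneg (divU M B.mL + mulU B.be s + mulU B.nr A)
    have h6 := mul_le_mul_of_nonneg_right hs.fac h5
    have h7 := mul_le_mul_of_nonneg_right h4 (sub_pos.2 hs.rh).le
    rw [rr_add, rr_add] at h5 h6 h7
    unfold dq
    rw [rr_add, rr_add] at h4
    linarith

theorem ncf_spec {lo hi l1h l2h : ℤ} {g g1 g2 lam : ℝ} (h0 : ri lo ≤ g) (h1 : g ≤ ri hi)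
    (h2 : g1 + lam * g ≤ ri l1h) (h3 : g2 + 2 * lam * g1 + lam ^ 2 * g ≤ ri l2h)
    (h : ncf lo hi l1h l2h < INV) (hg : 0 < g) :
    g * g2 - g1 ^ 2 ≤ ro (ncf lo hi l1h l2h) * g ^ 2 := by
  have hid : g * g2 - g1 ^ 2 =
      g * (g2 + 2 * lam * g1 + lam ^ 2 * g) - (g1 + lam * g) ^ 2 := by ring
  rw [hid]
  generalize g1 + lam * g = L1 at h2
  generalize g2 + 2 * lam * g1 + lam ^ 2 * g = L2 at h3
  have hH : g ≤ rr (posI hi) := by
    rw [rr_posI]
    exact h1.trans (le_max_left _ _)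
  have dv : ∀ n : ℕ, rr (divD n (posI hi)) * g ≤ rr n := fun n => by
    have a1 := divD_le n (posI hi)
    have a2 : rr n / rr (posI hi) ≤ rr n / g := div_le_div_of_nonneg_left (rr_nonneg n) hg hH
    exact (le_div_iff₀ hg).1 (a1.trans a2)
  have hx := dv (negI l1h)
  have hN : rr (negI l1h) ≤ |L1| := by
    rw [rr_negI]
    exact max_le (by linarith [neg_abs_le L1]) (abs_nonneg _)
  have ht : rr (mulD (divD (negI l1h) (posI hi)) (divD (negI l1h) (posI hi))) * g ^ 2 ≤ L1 ^ 2 := by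
    have a1 := mul_le_mul_of_nonneg_right
      (mulD_le (divD (negI l1h) (posI hi)) (divD (negI l1h) (posI hi))) (sq_nonneg g)
    have a2 := pow_le_pow_left₀ (mul_nonneg (rr_nonneg _) hg.le) (hx.trans hN) 2
    rw [sq_abs] at a2
    nlinarith
  have g2' := sq_nonneg g
  simp only [ncf, forceN_eq, Bool.cond_eq_ite, Nat.beq_eq] at h ⊢
  generalize mulD (divD (negI l1h) (posI hi)) (divD (negI l1h) (posI hi)) = t at h ht ⊢
  split_ifs at h ⊢ with c1 c2 c3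
  · exact absurd h (lt_irrefl _)
  · have a1 := dv (negI l2h)
    have a2 : L2 ≤ -rr (negI l2h) := by
      have a3 := rr_posI l2h
      rw [c2, rr_zero] at a3
      have a4 : ri l2h ≤ 0 := a3 ▸ le_max_left _ _
      rw [rr_negI, max_eq_left (by linarith)]
      linarith
    have a5 := rr_sub_ge OFF (divD (negI l2h) (posI hi) + t)
    rw [rr_add] at a5
    have a6 := mul_le_mul_of_nonneg_right a5 g2'
    have a7 := mul_le_mul_of_nonneg_left a2 hg.le
    have a8 := mul_le_mul_of_nonneg_left a1 hg.le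
    rw [ro_eq]
    nlinarith
  · exact absurd h (lt_irrefl _)
  · rw [min_eq_left (le_of_lt (by omega))]
    have a0 : 0 < posI lo := Nat.pos_of_ne_zero c3
    have a1 := divU_ge (posI l2h) a0
    have a2 : L2 ≤ rr (posI l2h) := by
      rw [rr_posI]
      exact h3.trans (le_max_left _ _)
    have a3 : rr (posI lo) ≤ g := by
      rw [rr_posI]
      exact max_le h0 hg.le
    have a4 := (div_le_iff₀ (rr_pos a0)).1 a1
    have a9 := mul_le_mul_of_nonneg_left a3 (rr_nonneg (divU (posI l2h) (posI lo)))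
    have a5 := rr_sub_ge (OFF + divU (posI l2h) (posI lo)) t
    rw [rr_add] at a5
    have a6 := mul_le_mul_of_nonneg_right a5 g2'
    have a7 := mul_le_mul_of_nonneg_left (a2.trans (a4.trans a9)) hg.le
    rw [ro_eq]
    nlinarith

namespace ZCellX

theorem exN {n r : ℕ} {f : ℕ → ℕ} (h : forceN n f = r) : ∃ m, m = n ∧ f m = r :=
  ⟨n, rfl, forceN_eq n f ▸ h⟩

theorem exI {z : ℤ} {r : ℕ} {f : ℤ → ℕ} (h : forceI z f = r) : ∃ m, m = z ∧ f m = r :=
  ⟨z, rfl, forceI_eq z f ▸ h⟩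

theorem exE {c0 c1 c2 c3 c4 d0 d1 : ℤ} {hh lam r : ℕ}
    {k : ℤ → ℤ → ℕ → ℤ → ℤ → ℤ → ℤ → ℤ → ℤ → ℕ} (hr : encl c0 c1 c2 c3 c4 d0 d1 hh lam k = r) :
    ∃ lo hi k1 l2 h2 aL aH bL bH, (lam ≤ SS → (ri d1 - ri d0) ^ 2 / 8 ≤ rr hh → ∀ d, ri d0 ≤ d →
      d ≤ ri d1 → EnclOK c0 c1 c2 c3 c4 (rr lam) d lo hi k1 l2 h2 aL aH bL bH) ∧
      k lo hi k1 l2 h2 aL aH bL bH = r := by
  by_cases h : lam ≤ SS ∧ (ri d1 - ri d0) ^ 2 / 8 ≤ rr hh
  · obtain ⟨lo, hi, k1, l2, h2, aL, aH, bL, bH, e, he⟩ :=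
      encl_spec c0 c1 c2 c3 c4 d0 d1 hh lam h.1 h.2 k
    exact ⟨lo, hi, k1, l2, h2, aL, aH, bL, bH, fun _ _ => he, e ▸ hr⟩
  · simp only [encl, forceI_eq, forceN_eq] at hr
    exact ⟨_, _, _, _, _, _, _, _, _, fun h1 h2 => absurd ⟨h1, h2⟩ h, hr⟩

theorem abs_le_mx {x : ℝ} {lo hi : ℤ} (h0 : ri lo ≤ x) (h1 : x ≤ ri hi) :
    |x| ≤ rr (max (negI lo) (posI hi)) := by
  rw [rr_max, rr_negI, rr_posI]
  have a1 := le_max_left (-ri lo) 0
  have a2 := le_max_left (ri hi) 0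
  have a3 := le_max_left (max (-ri lo) 0) (max (ri hi) 0)
  have a4 := le_max_right (max (-ri lo) 0) (max (ri hi) 0)
  exact abs_le.2 ⟨by linarith, by linarith⟩

theorem le_pos {x : ℝ} {hi : ℤ} (h1 : x ≤ ri hi) : x ≤ rr (posI hi) := by
  rw [rr_posI]
  exact h1.trans (le_max_left _ _)

/-- The slope between the two ends. -/
theorem slope (hs : ScalOK B) {ga gb pa pb : ℝ} {m r : ℕ} (ha : |ga - pa| ≤ rr r)
    (hb : |gb - pb| ≤ rr r) (hm : |pb - pa| ≤ rr m) :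
    |gb - ga| ≤ rr ((m + 2 * r) * 4096 / B.dm + 1) * (B.qb - B.qa) := by
  obtain ⟨hdm, hdq⟩ := hs.dm_eq
  have hd : (0 : ℝ) < B.dm := Nat.cast_pos.2 hdm
  have h1 := (rr_div_lt ((m + 2 * r) * 4096) hdm).le
  rw [rr_muln, rr_add, rr_nmul, div_le_iff₀ hd] at h1
  push_cast at h1
  rw [hdq]
  rw [abs_le] at ha hb hm ⊢
  constructor <;> linarith [ha.1, ha.2, hb.1, hb.2, hm.1, hm.2]

/-- Distance to the chord in `q`. -/
theorem chord_q (hs : ScalOK B) {j : ℕ} {y th pa pb : ℝ} (hy : 0 ≤ y) {D r : ℕ}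
    (hD : ∀ q ∈ B.I, |gq2 B.C j q y| ≤ rr D) (h0 : 0 ≤ th) (h1 : th ≤ 1)
    (ha : |B.g j B.qa y - pa| ≤ rr r) (hb : |B.g j B.qb y - pb| ≤ rr r) :
    |B.g j ((1 - th) * B.qa + th * B.qb) y - ((1 - th) * pa + th * pb)| ≤
      rr (r + mulU D ((B.dm * B.dm) <<< 13)) := by
  have hC := hs.C_pos
  obtain ⟨hdm, hdq⟩ := hs.dm_eq
  have hab : B.qa ≤ B.qb := by
    have : (0 : ℝ) ≤ (B.dm : ℝ) / 4096 := by positivity
    linarith
  have d1 := fun q (hq : q ∈ B.I) => hasDerivAt_gg_q hC (hs.q_pos hq).1 hy j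
  have d2 := fun q (hq : q ∈ B.I) => hasDerivAt_gq1_q hC (hs.q_pos hq).1 hy j
  have hc : ContinuousOn (fun q => Full.gg B.C j q y) (Icc B.qa B.qb) :=
    fun q hq => (d1 q hq).continuousAt.continuousWithinAt
  have c1 := FCalcX.ch_of_conv (FCalcX.conv (f1 := fun q => gq1 B.C j q y)
    (f2 := fun q => gq2 B.C j q y) (A2 := rr D) hc fun s hm =>
      ⟨d1 s (Ioo_subset_Icc_self hm), d2 s (Ioo_subset_Icc_self hm),
        (abs_le.1 (hD s (Ioo_subset_Icc_self hm))).1⟩) hab (rr_nonneg D) th h0 h1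
  have c2 := FCalcX.ch_of_conv (FCalcX.conv (f := fun q => -Full.gg B.C j q y)
    (f1 := fun q => -gq1 B.C j q y) (f2 := fun q => -gq2 B.C j q y) (A2 := rr D) hc.neg fun s hm =>
      ⟨(d1 s (Ioo_subset_Icc_self hm)).neg, (d2 s (Ioo_subset_Icc_self hm)).neg,
        neg_le_neg (abs_le.1 (hD s (Ioo_subset_Icc_self hm))).2⟩) hab (rr_nonneg D) th h0 h1
  have e : rr ((B.dm * B.dm) <<< 13) = (B.qb - B.qa) ^ 2 / 8 := by
    rw [rr_shl, hdq, rr]
    push_cast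
    ring
  have m := mulU_ge D ((B.dm * B.dm) <<< 13)
  rw [e] at m
  rw [rr_add]
  simp only [Blk.g] at ha hb c1 c2 ⊢
  rw [abs_le] at ha hb ⊢
  have a1 := mul_le_mul_of_nonneg_left ha.1 (sub_nonneg.2 h1)
  have a2 := mul_le_mul_of_nonneg_left ha.2 (sub_nonneg.2 h1)
  have b1 := mul_le_mul_of_nonneg_left hb.1 h0
  have b2 := mul_le_mul_of_nonneg_left hb.2 h0
  constructor <;> linarith

theorem half (hs : ScalOK B) {x : ℝ} {s D : ℕ} (h : |x| ≤ rr s + rr D * (B.qb - B.qa) / 2) :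
    |x| ≤ rr (s + mulU D (B.dm <<< 27)) := by
  have e : rr (B.dm <<< 27) = (B.qb - B.qa) / 2 := by
    rw [rr_shl, hs.dm_eq.2, rr]
    ring
  have m := mulU_ge D (B.dm <<< 27)
  rw [e] at m
  rw [rr_add]
  linarith

theorem mix {th a b : ℝ} (h0 : 0 ≤ th) (h1 : th ≤ 1) {al ah bl bh : ℤ}
    (ha : ri al ≤ a ∧ a ≤ ri ah) (hb : ri bl ≤ b ∧ b ≤ ri bh) :
    ri (min al bl) ≤ (1 - th) * a + th * b ∧ (1 - th) * a + th * b ≤ ri (max ah bh) := by
  rw [ri_min, ri_max]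
  have a1 := mul_le_mul_of_nonneg_left ((min_le_left _ (ri bl)).trans ha.1) (sub_nonneg.2 h1)
  have a2 := mul_le_mul_of_nonneg_left (ha.2.trans (le_max_left _ (ri bh))) (sub_nonneg.2 h1)
  have b1 := mul_le_mul_of_nonneg_left ((min_le_right (ri al) _).trans hb.1) h0
  have b2 := mul_le_mul_of_nonneg_left (hb.2.trans (le_max_right (ri ah) _)) h0
  constructor <;> linarith

theorem near {g p : ℝ} {lo hi : ℤ} {e : ℕ} (h : |g - p| ≤ rr e) (hp : ri lo ≤ p ∧ p ≤ ri hi) :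
    ri (lo - e) ≤ g ∧ g ≤ ri (hi + e) := by
  rw [ri_sub, ri_add, ri_nat]
  rw [abs_le] at h
  constructor <;> linarith [h.1, h.2, hp.1, hp.2]

theorem big {x : ℝ} {n m : ℕ} (hn : n ≤ 2 ^ 60) (hx : x ≤ 2 * rr n) (hm : BIG ≤ m) : x ≤ rr m := by
  have h1 : 2 * n ≤ m := by
    have h2 : 2 * 2 ^ 60 ≤ BIG := by norm_num [BIG]
    omega
  have h2 := rr_le.2 h1
  rw [rr_nmul] at h2
  exact hx.trans (by exact_mod_cast h2)

theorem M0 (hs : ScalOK B) {q y : ℝ} (hq : q ∈ B.I) {y1 : ℕ} (h0 : 0 ≤ y) (h1 : y ≤ rr y1) :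
    |GG2 B.C 0 q y - 1 * nu B.C q| ≤ rr (3 * mulU y1 B.n3 / 2 + 1) := by
  have hC := hs.C_pos
  refine (GG2_zero_b hC (hs.q_pos hq).1 h0).trans (le_trans ?_ (rr_div_lt _ two_pos).le)
  have := le_mulU h1 (hs.n3 q hq) (nu_nonneg hC _)
  rw [rr_nmul]
  push_cast
  linarith

theorem M1 (hs : ScalOK B) {q y : ℝ} (hq : q ∈ B.I) {y0 : ℕ} (h0 : rr y0 ≤ y) :
    |GG2 B.C 1 q y - 0 * nu B.C q| ≤
      rr (min (3 * B.n3 / 2 + 1) (B.n3 / 2 + 1 + divU B.n2 (sqrtL y0))) := by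
  have hC := hs.C_pos
  have hq0 := (hs.q_pos hq).1
  have ha := GG2_one_a hC hq0 ((rr_nonneg y0).trans h0)
  have n3 := hs.n3 q hq
  rw [zero_mul, sub_zero, rr_min]
  refine le_min (ha.trans (le_trans ?_ (rr_div_lt _ two_pos).le)) ?_
  · rw [rr_nmul]
    push_cast
    linarith
  · rcases Nat.eq_zero_or_pos (sqrtL y0) with h | h
    · rw [h, divU_zero]
      have := hs.sm
      exact big (n := B.n3) (by omega) (by linarith [rr_nonneg B.n3]) (by omega)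
    · refine (GG2_one_b hC hq0 (rr_pos h) ((sqrtL_sq y0).trans h0)).trans ?_
      have a1 := (rr_div_lt B.n3 two_pos).le
      have a2 := le_divU h (hs.n2 q hq) le_rfl
      rw [rr_add _ (divU _ _)]
      push_cast at a1
      linarith

theorem M2 (hs : ScalOK B) {q y : ℝ} (hq : q ∈ B.I) {y0 : ℕ} (h0 : rr y0 ≤ y) :
    |GG2 B.C 2 q y - 0 * nu B.C q| ≤ rr (min (5 * B.n5 / 12 + 1)
      (divU B.n4 (4 * sqrtL y0) + divU (3 * B.n3) (5 * mulD (sqrtL y0) (sqrtL y0)))) := by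
  have hC := hs.C_pos
  have hq0 := (hs.q_pos hq).1
  have ha := GG2_two_a hC hq0 ((rr_nonneg y0).trans h0)
  have n5 := hs.n5 q hq
  have hsm := hs.sm
  rw [zero_mul, sub_zero, rr_min]
  refine le_min (ha.trans (le_trans ?_ (rr_div_lt _ (by norm_num)).le)) ?_
  · rw [rr_nmul]
    push_cast
    linarith
  · rcases Nat.eq_zero_or_pos (4 * sqrtL y0) with h | h
    · rw [h, divU_zero]
      exact big (n := B.n5) (by omega) (by linarith [rr_nonneg B.n5]) (by omega)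
    rcases Nat.eq_zero_or_pos (5 * mulD (sqrtL y0) (sqrtL y0)) with h' | h'
    · rw [h', divU_zero]
      exact big (n := B.n5) (by omega) (by linarith [rr_nonneg B.n5]) (by omega)
    refine (GG2_two_b hC hq0 (rr_pos (a := sqrtL y0) (by omega))
      ((sqrtL_sq y0).trans h0)).trans ?_
    rw [rr_add]
    refine add_le_add (le_divU h (hs.n4 q hq) ?_) (le_divU h' ?_ ?_)
    · rw [rr_nmul]
      norm_num
    · rw [rr_nmul]
      push_cast
      linarith [hs.n3 q hq]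
    · rw [rr_nmul, sq]
      push_cast
      linarith [mulD_le (sqrtL y0) (sqrtL y0)]

theorem pl0_sub (a0 a1 a2 a3 a4 b0 b1 b2 b3 b4 : ℤ) (d : ℝ) :
    pl0 (b0 - a0) (b1 - a1) (b2 - a2) (b3 - a3) (b4 - a4) d =
      pl0 b0 b1 b2 b3 b4 d - pl0 a0 a1 a2 a3 a4 d := by
  simp only [pl0, ri_sub]
  ring

theorem pl1_sub (a1 a2 a3 a4 b1 b2 b3 b4 : ℤ) (d : ℝ) :
    pl1 (b1 - a1) (b2 - a2) (b3 - a3) (b4 - a4) d = pl1 b1 b2 b3 b4 d - pl1 a1 a2 a3 a4 d := by
  simp only [pl1, ri_sub]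
  ring

theorem pl2_sub (a2 a3 a4 b2 b3 b4 : ℤ) (d : ℝ) :
    pl2 (b2 - a2) (b3 - a3) (b4 - a4) d = pl2 b2 b3 b4 d - pl2 a2 a3 a4 d := by
  simp only [pl2, ri_sub]
  ring

theorem end_abs {g p : ℝ} {m r : ℕ} (h : |g - p| ≤ rr r) (hp : |p| ≤ rr m) :
    |g - 0| ≤ rr (m + r) := by
  rw [rr_add, sub_zero]
  rw [abs_le] at h hp ⊢
  constructor <;> linarith [h.1, h.2, hp.1, hp.2]

theorem end_one {g p : ℝ} {lo : ℤ} {r : ℕ} (h : |g - p| ≤ rr r) (hp : ri lo ≤ p) (hg : |g| ≤ 1) :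
    |g - 1| ≤ rr (posI ((SS : ℤ) - lo) + r) := by
  rw [rr_add, rr_posI, ri_sub, ri_nat, rr_SS]
  have a1 := le_max_left (1 - ri lo) 0
  have a2 := le_max_right (1 - ri lo) 0
  have a3 := rr_nonneg r
  rw [abs_le] at h hg ⊢
  constructor <;> linarith [h.1, h.2, hg.2]

theorem tw1 {g0 g1 p0 p1 : ℝ} {e0 e1 lam : ℕ} (h0 : |g0 - p0| ≤ rr e0) (h1 : |g1 - p1| ≤ rr e1) :
    |g1 + rr lam * g0 - (p1 + rr lam * p0)| ≤ rr (e1 + mulU lam e0) := by
  have a := abs_le_mulU (a := lam) (abs_of_nonneg (rr_nonneg lam)).le h0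
  rw [rr_add]
  rw [abs_le] at a h1 ⊢
  constructor <;> linarith [a.1, a.2, h1.1, h1.2]

theorem tw2 {g0 g1 g2 p0 p1 p2 : ℝ} {e0 e1 e2 lam : ℕ} (h0 : |g0 - p0| ≤ rr e0)
    (h1 : |g1 - p1| ≤ rr e1) (h2 : |g2 - p2| ≤ rr e2) :
    |g2 + 2 * rr lam * g1 + rr lam ^ 2 * g0 - (p2 + 2 * rr lam * p1 + rr lam ^ 2 * p0)| ≤
      rr (e2 + 2 * mulU lam e1 + mulU lam (mulU lam e0)) := by
  have l := (abs_of_nonneg (rr_nonneg lam)).le
  have a := abs_le_mulU (a := lam) l (abs_le_mulU (a := lam) l h0)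
  have b := abs_le_mulU (a := lam) l h1
  rw [rr_add, rr_add, rr_nmul]
  push_cast
  rw [abs_le] at a b h2 ⊢
  constructor <;> linarith [a.1, a.2, b.1, b.2, h2.1, h2.2]

theorem exB {c : Bool} {a r : ℕ} (h : (bif c then a else 0) = r) (h0 : 0 < r) :
    c = true ∧ a = r := by
  cases c
  · exact absurd h h0.ne
  · exact ⟨rfl, h⟩

end ZCellX

open ZCellX

theorem mkCell_sound (hs : ScalOK B) {Va Vb : ℕ → ℕ} {Y : ℕ} (hV : EndOK B Va Vb Y) {y0 y1 : ℕ}
    (hy : y0 < Y) (h0 : 0 < mkCell B Va Vb y0 y1) :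
    MkOK B (mkCell B Va Vb y0 y1) (rr y0) (rr y1) := by
  generalize hr : mkCell B Va Vb y0 y1 = r at h0 ⊢
  unfold mkCell at hr
  obtain ⟨iv, hiv, hr⟩ := exN hr
  obtain ⟨ct, hct, hr⟩ := exN hr
  obtain ⟨hw, hhw, hr⟩ := exN hr
  obtain ⟨ra, hra, hr⟩ := exN hr
  obtain ⟨rb, hrb, hr⟩ := exN hr
  obtain ⟨d0, hd0, hr⟩ := exI hr
  obtain ⟨d1, hd1, hr⟩ := exI hr
  obtain ⟨hh, hhh, hr⟩ := exN hr
  obtain ⟨lam, hlam, hr⟩ := exN hr
  obtain ⟨b, hb, hr⟩ := exN hr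
  obtain ⟨r0, hr0, hr⟩ := exN hr
  obtain ⟨r1, hr1, hr⟩ := exN hr
  obtain ⟨r2, hr2, hr⟩ := exN hr
  obtain ⟨alo, ahi, ak1, a2l, a2h, a1L, a1H, aLL, aLH, EA, hr⟩ := exE hr
  obtain ⟨blo, bhi, bk1, b2l, b2h, b1L, b1H, bLL, bLH, EB, hr⟩ := exE hr
  obtain ⟨clo, chi, ck1, c2l, c2h, c1L, c1H, cLL, cLH, EC, hr⟩ := exE hr
  obtain ⟨lo, hlo, hr⟩ := exI hr
  obtain ⟨hi, hhi, hr⟩ := exI hr
  obtain ⟨k1, hk1, hr⟩ := exN hr
  obtain ⟨l2, hl2, hr⟩ := exI hr
  obtain ⟨h2, hh2, hr⟩ := exI hr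
  obtain ⟨s0, hs0, hr⟩ := exN hr
  obtain ⟨s1, hs1, hr⟩ := exN hr
  obtain ⟨s2, hs2, hr⟩ := exN hr
  obtain ⟨ul, hul, hr⟩ := exN hr
  obtain ⟨D0, hD0, hr⟩ := exN hr
  obtain ⟨D1, hD1, hr⟩ := exN hr
  obtain ⟨D2, hD2, hr⟩ := exN hr
  obtain ⟨dd, hdd, hr⟩ := exN hr
  obtain ⟨e0, he0, hr⟩ := exN hr
  obtain ⟨e1, he1, hr⟩ := exN hr
  obtain ⟨e2, he2, hr⟩ := exN hr
  obtain ⟨f1, hf1, hr⟩ := exN hr
  obtain ⟨f2, hf2, hr⟩ := exN hr
  obtain ⟨lo', hlo', hr⟩ := exI hr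
  obtain ⟨hi', hhi', hr⟩ := exI hr
  obtain ⟨l1l, hl1l, hr⟩ := exI hr
  obtain ⟨l1h, hl1h, hr⟩ := exI hr
  obtain ⟨l2l, hl2l, hr⟩ := exI hr
  obtain ⟨l2h, hl2h, hr⟩ := exI hr
  obtain ⟨hc, hr⟩ := exB hr h0
  rw [Bool.and_eq_true, Nat.ble_eq, Nat.ble_eq] at hc
  obtain ⟨hc1, hc2⟩ := hc
  obtain ⟨F0, F1, F2, F3, F4, F5, F6, F7, F8, F9, F10, F11, F12, F13, F14, -⟩ :=
    pk15_fld hr.symm h0
  clear hr
  subst hiv hlam hct hhw hb hul hdd
  obtain ⟨w0, w1, -⟩ := vhw_le y0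
  obtain ⟨hdm, hdq⟩ := hs.dm_eq
  have hab : B.qa < B.qb := by
    have : (0 : ℝ) < (B.dm : ℝ) / 4096 := div_pos (Nat.cast_pos.2 hdm) (by norm_num)
    linarith only [this, hdq]
  have ma : B.qa ∈ B.I := left_mem_Icc.2 hab.le
  have mb : B.qb ∈ B.I := right_mem_Icc.2 hab.le
  have i0 : ri d0 = rr y0 - rr (vctr y0) := hd0 ▸ ri_subNatNat _ _
  have i1 : ri d1 = rr y1 - rr (vctr y0) := hd1 ▸ ri_subNatNat _ _
  have hH : (ri d1 - ri d0) ^ 2 / 8 ≤ rr hh := by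
    have a1 := (rr_div_lt (mulU (y1 - y0) (y1 - y0)) (k := 8) (by norm_num)).le
    have a2 := mulU_ge (y1 - y0) (y1 - y0)
    rw [rr_sub hc2] at a2
    rw [hhh, i0, i1]
    push_cast at a1
    linarith only [a1, a2]
  have key : ∀ q ∈ B.I, ∀ y, 0 ≤ y → rr y0 ≤ y → y ≤ rr y1 → PtOK B r q y ∧
      B.L2 q y ≤ rr (fld r 56 11) ∧ |gq1 B.C 1 q y| ≤ rr (fld r 56 12) ∧
      |gq1 B.C 2 q y| ≤ rr (fld r 56 13) ∧ B.L1 q y ≤ rr (fld r 56 14) := by
    intro q hq y y0' y1' y2'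
    have u0 : ri d0 ≤ y - rr (vctr y0) := by linarith only [i0, y1']
    have u1 : y - rr (vctr y0) ≤ ri d1 := by linarith only [i1, y2']
    have hd : |y - rr (vctr y0)| ≤ rr (vhw y0) := by
      have a1 := rr_le.2 w1
      have a2 := rr_le.2 hc1
      rw [rr_sub w0] at a1
      rw [rr_add] at a2
      exact abs_le.2 ⟨by linarith only [a1, y1'], by linarith only [a2, y2']⟩
    have A := EA hs.lam hH _ u0 u1
    have A' := EB hs.lam hH _ u0 u1
    have A'' := EC hs.lam hH _ u0 u1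
    obtain ⟨ra0, ra1, ra2⟩ := rem_spec hs ma hV.1 hy hra hd
    obtain ⟨rb0, rb1, rb2⟩ := rem_spec hs mb hV.2 hy hrb hd
    rw [add_sub_cancel, ← hr0] at ra0 rb0
    rw [add_sub_cancel, ← hr1] at ra1 rb1
    rw [add_sub_cancel, ← hr2] at ra2 rb2
    have c0 := A''.p0
    have c1 := A''.p1
    have c2 := A''.p2
    rw [pl0_sub] at c0
    rw [pl1_sub] at c1
    rw [pl2_sub] at c2
    have S0 := slope hs ra0 rb0 (abs_le_mx c0.1 c0.2)
    have S1 := slope hs ra1 rb1 c1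
    have S2 := slope hs ra2 rb2 (abs_le_mx c2.1 c2.2)
    rw [← hs0] at S0
    rw [← hs1] at S1
    rw [← hs2] at S2
    have la : ri lo ≤ ri alo := ri_le.2 (hlo ▸ min_le_left _ _)
    have lb : ri lo ≤ ri blo := ri_le.2 (hlo ▸ min_le_right _ _)
    have ua : ri ahi ≤ ri hi := ri_le.2 (hhi ▸ le_max_left _ _)
    have ub : ri bhi ≤ ri hi := ri_le.2 (hhi ▸ le_max_right _ _)
    have la2 : ri l2 ≤ ri a2l := ri_le.2 (hl2 ▸ min_le_left _ _)
    have lb2 : ri l2 ≤ ri b2l := ri_le.2 (hl2 ▸ min_le_right _ _)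
    have ua2 : ri a2h ≤ ri h2 := ri_le.2 (hh2 ▸ le_max_left _ _)
    have ub2 : ri b2h ≤ ri h2 := ri_le.2 (hh2 ▸ le_max_right _ _)
    have ka : rr ak1 ≤ rr k1 := rr_le.2 (hk1 ▸ le_max_left _ _)
    have kb : rr bk1 ≤ rr k1 := rr_le.2 (hk1 ▸ le_max_right _ _)
    have Q0a := dq_spec hs (j := 0) (c0 := 0) y0' (M := m0a B y1)
      (fun q hq => by rw [zero_mul, sub_zero]; exact m0a_ge hs hq y0' y2')
      (end_abs ra0 (abs_le_mx (la.trans A.p0.1) (A.p0.2.trans ua)))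
      (end_abs rb0 (abs_le_mx (lb.trans A'.p0.1) (A'.p0.2.trans ub))) S0
    have Q0b := dq_spec hs (j := 0) (c0 := 1) y0' (fun q hq => M0 hs hq y0' y2')
      (end_one ra0 (la.trans A.p0.1) ((hs.sm_g ma).bd y y0'))
      (end_one rb0 (lb.trans A'.p0.1) ((hs.sm_g mb).bd y y0')) S0
    have Q0 : ∀ q ∈ B.I, |gq2 B.C 0 q y| ≤ rr D0 ∧
        |gq1 B.C 0 q y| ≤ rr s0 + rr D0 * (B.qb - B.qa) / 2 := fun q hq => by
      rw [hD0]
      rcases min_choice (dq B (m0a B y1) s0 (max (negI lo) (posI hi) + r0))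
        (dq B (3 * mulU y1 B.n3 / 2 + 1) s0 (posI ((SS : ℤ) - lo) + r0)) with h | h <;> rw [h]
      · exact Q0a q hq
      · exact Q0b q hq
    have Q1 := dq_spec hs (j := 1) (c0 := 0) y0' (fun q hq => M1 hs hq y1')
      (end_abs ra1 (A.p1.trans ka)) (end_abs rb1 (A'.p1.trans kb)) S1
    have Q2 := dq_spec hs (j := 2) (c0 := 0) y0' (fun q hq => M2 hs hq y1')
      (end_abs ra2 (abs_le_mx (la2.trans A.p2.1) (A.p2.2.trans ua2)))
      (end_abs rb2 (abs_le_mx (lb2.trans A'.p2.1) (A'.p2.2.trans ub2))) S2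
    rw [← hD1] at Q1
    rw [← hD2] at Q2
    obtain ⟨th, t0, t1, hth⟩ : ∃ th : ℝ, 0 ≤ th ∧ th ≤ 1 ∧ (1 - th) * B.qa + th * B.qb = q := by
      have hp := sub_pos.2 hab
      refine ⟨(q - B.qa) / (B.qb - B.qa), div_nonneg (sub_nonneg.2 hq.1) hp.le,
        (div_le_one hp).2 (sub_le_sub_right hq.2 _), ?_⟩
      field_simp
      ring
    have G0 := chord_q hs y0' (fun q hq => (Q0 q hq).1) t0 t1 ra0 rb0
    have G1 := chord_q hs y0' (fun q hq => (Q1 q hq).1) t0 t1 ra1 rb1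
    have G2 := chord_q hs y0' (fun q hq => (Q2 q hq).1) t0 t1 ra2 rb2
    rw [hth, ← he0] at G0
    rw [hth, ← he1] at G1
    rw [hth, ← he2] at G2
    have T1 := tw1 (lam := B.lam) G0 G1
    have T2 := tw2 (lam := B.lam) G0 G1 G2
    rw [← hf1] at T1
    rw [← hf2] at T2
    have N0 := near G0 (mix t0 t1 A.p0 A'.p0)
    have N2 := near G2 (mix t0 t1 A.p2 A'.p2)
    have N3 := near (lo := min a1L b1L) (hi := max a1H b1H) T1 (by
      have := mix t0 t1 A.t1 A'.t1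
      constructor <;> linarith only [this.1, this.2])
    have N4 := near (lo := min aLL bLL) (hi := max aLH bLH) T2 (by
      have := mix t0 t1 A.t2 A'.t2
      constructor <;> linarith only [this.1, this.2])
    rw [← hlo, ← hhi] at N0
    rw [← hl2, ← hh2] at N2
    rw [← hl1l, ← hl1h] at N3
    rw [← hl2l, ← hl2h] at N4
    have hg := abs_le.1 ((hs.sm_g hq).bd y y0')
    have L0 : ri lo' ≤ B.g 0 q y := by
      rw [hlo', ri_max, ri_neg, ri_nat, rr_SS]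
      exact max_le N0.1 hg.1
    have U0 : B.g 0 q y ≤ ri hi' := by
      rw [hhi', ri_min, ri_nat, rr_SS]
      exact le_min N0.2 hg.2
    refine ⟨⟨?_, ?_, ?_, ?_, ?_, ?_, ?_, ?_, ?_, ?_⟩, ?_, ?_, ?_, ?_⟩
    · have := ro_ofs (-lo')
      rw [ri_neg] at this
      rw [F0]
      linarith only [this, L0]
    · rw [F1]
      exact U0.trans (ro_ofs _)
    · rw [F2, rr_add]
      have a1 := abs_le.1 (A.p1.trans ka)
      have a2 := abs_le.1 (A'.p1.trans kb)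
      have a3 := mul_le_mul_of_nonneg_left a1.1 (sub_nonneg.2 t1)
      have a4 := mul_le_mul_of_nonneg_left a1.2 (sub_nonneg.2 t1)
      have a5 := mul_le_mul_of_nonneg_left a2.1 t0
      have a6 := mul_le_mul_of_nonneg_left a2.2 t0
      rw [abs_le] at G1 ⊢
      constructor <;> linarith only [G1.1, G1.2, a3, a4, a5, a6]
    · have := ro_ofs (-(l2 - e2))
      rw [ri_neg] at this
      rw [F3]
      linarith only [this, N2.1]
    · rw [F4]
      exact N2.2.trans (ro_ofs _)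
    · rw [F5]
      exact abs_le_mx N3.1 N3.2
    · rw [F6]
      exact abs_le_mx N4.1 N4.2
    · rw [F7]
      exact fun h hg => ncf_spec L0 U0 N3.2 N4.2 h hg
    · rw [F8]
      exact half hs (Q0 q hq).2
    · rw [F9]
      exact fun _ => (Q0 q hq).1
    · rw [F11]
      exact le_pos N4.2
    · rw [F12]
      exact half hs (Q1 q hq).2
    · rw [F13]
      exact half hs (Q2 q hq).2
    · rw [F14]
      exact le_pos N3.2
  refine ⟨⟨fun q hq y a b c => (key q hq y a b c).1, fun y a b c => ?_⟩,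
    fun q hq y a b c => (key q hq y a b c).2⟩
  rw [F10, hr0]
  exact pev_spec hs (w1.trans (rr_le.1 a)) ((rr_lt.1 b).trans_le hc1) c

end Pool.Agent.MP_39fec4_gt.K

end

section

set_option autoImplicit false

/-! An inequality of Landau and the better bound for the first derivative. -/

namespace Pool.Agent.MP_39fec4_gt.K

open Set Full

namespace ZLandauX

theorem taylor {f f1 f2 : ℝ → ℝ} {v C : ℝ}
    (h1 : ∀ y, v ≤ y → HasDerivAt f (f1 y) y) (h2 : ∀ y, v ≤ y → HasDerivAt f1 (f2 y) y)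
    (hC : ∀ y, v ≤ y → |f2 y| ≤ C) {y : ℝ} (hy : v ≤ y) :
    |f y - f v - (y - v) * f1 v| ≤ C * (y - v) ^ 2 / 2 := by
  have a1 : ∀ x ∈ Icc v y, ‖f1 x - f1 v‖ ≤ C * (x - v) :=
    norm_image_sub_le_of_norm_deriv_right_le_segment
      (fun x hx => (h2 x hx.1).continuousAt.continuousWithinAt)
      (fun x hx => (h2 x hx.1).hasDerivWithinAt) fun x hx => hC x hx.1
  have a2 : ∀ x, v ≤ x → HasDerivAt (fun x => f x - f v - (x - v) * f1 v) (f1 x - f1 v) x :=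
    fun x hx => by
      simpa using ((h1 x hx).sub_const (f v)).fun_sub
        (((hasDerivAt_id' x).sub_const v).mul_const (f1 v))
  refine image_norm_le_of_norm_deriv_right_le_deriv_boundary
    (f := fun x => f x - f v - (x - v) * f1 v) (f' := fun x => f1 x - f1 v) (a := v) (b := y)
    (fun x hx => (a2 x hx.1).continuousAt.continuousWithinAt)
    (fun x hx => (a2 x hx.1).hasDerivWithinAt) (B := fun x => C * (x - v) ^ 2 / 2)
    (B' := fun x => C * (x - v)) (by simp) (fun x => ?_) (fun x hx => a1 x ⟨hx.1, hx.2.le⟩)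
    ⟨hy, le_rfl⟩
  refine (((((hasDerivAt_id' x).sub_const v).fun_pow 2).const_mul C).div_const 2).congr_deriv ?_
  norm_num
  ring

theorem isqU_sq (n : ℕ) : n ≤ isqU n * isqU n := by
  unfold isqU
  rw [forceN_eq]
  generalize isq n + 1 = r
  cases hb : Nat.ble n (r * r)
  · simp only [cond_false]
    nlinarith
  · simp only [cond_true]
    exact Nat.le_of_ble_eq_true hb

end ZLandauX

open ZLandauX

theorem landau {f f1 f2 : ℝ → ℝ} {v A C : ℝ} (hc : ContinuousOn f (Ici v))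
    (h1 : ∀ y, v ≤ y → HasDerivAt f (f1 y) y) (h2 : ∀ y, v ≤ y → HasDerivAt f1 (f2 y) y)
    (hA : ∀ y, v ≤ y → |f y| ≤ A) (hC : ∀ y, v ≤ y → |f2 y| ≤ C) : |f1 v| ≤ 2 * √(A * C) := by
  have key : ∀ h, 0 ≤ h → h * |f1 v| ≤ 2 * A + C * h ^ 2 / 2 := by
    intro h hh
    have a1 := abs_le.1 (taylor h1 h2 hC (y := v + h) (by linarith))
    have a2 := abs_le.1 (hA (v + h) (by linarith))
    have a3 := abs_le.1 (hA v le_rfl)
    rw [add_sub_cancel_left] at a1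
    rw [← abs_of_nonneg hh, ← abs_mul, abs_of_nonneg hh, abs_le]
    constructor <;> linarith [a1.1, a1.2, a2.1, a2.2, a3.1, a3.2]
  have hA0 : 0 ≤ A := (abs_nonneg _).trans (hA v le_rfl)
  have hC0 : 0 ≤ C := (abs_nonneg _).trans (hC v le_rfl)
  rcases (abs_nonneg (f1 v)).eq_or_lt with h0 | h0
  · rw [← h0]
    positivity
  rcases hC0.eq_or_lt with h3 | h3
  · have := key ((2 * A + 1) / |f1 v|) (by positivity)
    rw [div_mul_cancel₀ _ h0.ne', ← h3] at this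
    linarith
  have h4 := mul_le_mul_of_nonneg_left (key (|f1 v| / C) (by positivity)) h3.le
  have h5 : |f1 v| ^ 2 ≤ 4 * (A * C) := by
    have e1 : C * (|f1 v| / C * |f1 v|) = |f1 v| ^ 2 := by field_simp
    have e2 : C * (2 * A + C * (|f1 v| / C) ^ 2 / 2) = 2 * (A * C) + |f1 v| ^ 2 / 2 := by
      field_simp
    linarith
  refine abs_le_of_sq_le_sq' ?_ (by positivity) |>.2
  rw [mul_pow, Real.sq_sqrt (by positivity)]
  linarith

theorem far1b_bd {B : Blk} (hs : ScalOK B) {y : ℕ} (h : far1b B y < BIG) {q : ℝ} (hq : q ∈ B.I)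
    {c v : ℝ} (hc : 1 ≤ c) (hv : rr y * c ^ 2 ≤ v) : |B.g 1 q v| ≤ rr (far1b B y) / c ^ 2 := by
  simp only [far1b, forceN_eq] at h ⊢
  cases hb : (Nat.blt (farc B y) BIG && Nat.blt (far2 B y) BIG)
  · simp only [hb, cond_false] at h ⊢
    exact hs.far.f1 y h q hq c v hc hv
  simp only [hb, cond_true] at h ⊢
  rcases le_total (far1 y) (2 * isqU (farc B y * far2 B y)) with h1 | h1
  · rw [min_eq_left h1] at h ⊢
    exact hs.far.f1 y h q hq c v hc hv
  rw [min_eq_right h1]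
  simp only [Bool.and_eq_true, Nat.blt_eq] at hb
  have c0 : 0 < c := by linarith
  have y0 : 0 < rr y := by
    refine rr_pos (Nat.pos_of_ne_zero fun hy => ?_)
    have := divU_pos hb.2
    rw [hy] at this
    simp [mulD] at this
  have v0 : 0 < v := (mul_pos y0 (pow_pos c0 2)).trans_le hv
  have hS := hs.sm_g hq
  have h2 := landau (v := v) hS.c0.continuousOn (fun u hu => hS.d0 u (v0.trans_le hu))
    (fun u hu => hS.d1 u (v0.trans_le hu))
    (fun u hu => hs.far.fc y hb.1 q hq c u hc (hv.trans hu))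
    fun u hu => hs.far.f2 y hb.2 q hq c u hc (hv.trans hu)
  refine h2.trans ?_
  have h3 := rr_le.2 (isqU_sq (farc B y * far2 B y))
  rw [rr_mul, rr_mul] at h3
  have h4 := le_of_mul_le_mul_right h3 (by positivity)
  have r0 := rr_nonneg (isqU (farc B y * far2 B y))
  rw [rr_nmul, Nat.cast_ofNat, mul_div_assoc]
  refine mul_le_mul_of_nonneg_left ((Real.sqrt_le_iff.2
    ⟨by positivity, ?_⟩ : _ ≤ rr (isqU (farc B y * far2 B y)) / c ^ 3).trans ?_) zero_le_two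
  · rw [div_mul_div_comm, div_pow, sq, sq]
    exact div_le_div_of_nonneg_right h4 (by positivity)
  · exact div_le_div_of_nonneg_left r0 (pow_pos c0 2) (pow_le_pow_right₀ hc (by norm_num))

end Pool.Agent.MP_39fec4_gt.K

end

section

set_option autoImplicit false

/-! From the checks on all cells to the facts about a block. -/

namespace Pool.Agent.MP_39fec4_gt.K

open Set Full

variable {B : Blk} {Va Vb T E : ℕ → ℕ}

namespace ZBlockX

theorem INV_lt_BIG : INV < BIG := by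
  unfold INV BIG
  omega

theorem SS_le_BIG : SS ≤ BIG := by
  unfold SS BIG
  omega

theorem far0_bd (hs : ScalOK B) {y0 : ℕ} {q y : ℝ} (hq : q ∈ B.I) (h0 : 0 ≤ y)
    (h1 : rr y0 ≤ y) : |B.g 0 q y| ≤ rr (min (far0 B y0) SS) := by
  have hb : |B.g 0 q y| ≤ rr SS := by
    rw [rr_SS]
    exact (hs.sm_g hq).bd y h0
  rw [rr_min]
  refine le_min ?_ hb
  by_cases hf : far0 B y0 < BIG
  · have := hs.far.f0 y0 hf q hq 1 y le_rfl (by simpa using h1)
    simpa using this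
  · exact hb.trans (rr_le.mpr (SS_le_BIG.trans (not_lt.mp hf)))

/-- The value used for the envelopes on the cell `i`. -/
def av (B : Blk) (T : ℕ → ℕ) (i : ℕ) : ℕ := if Yb (i + 1) ≤ B.Z2 then gNeg (T i) else gAB (T i)

/-- The content of the check of a cell. -/
structure CellP (B : Blk) (Va Vb T E : ℕ → ℕ) (i : ℕ) : Prop where
  pos : 0 < T i
  eq : T i = if Yb i < B.Yc then mkCell B Va Vb (Yb i) (Yb (i + 1))
    else mkFar B (Yb i) (Yb (i + 1))
  lop : B.z2 ≤ Yb i ∨ 0 < gLop (T i)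
  con : B.Zc ≤ Yb i ∨ fld (T i) 56 11 = 0
  neg : (Yb (i + 1) ≤ B.Zc ∨ B.Z2 ≤ Yb i) ∨ gHip (T i) = 0
  dec : E i ≤ Nat.casesOn (motive := fun _ => ℕ) i B.lam (fun i' => E i')
  env : (av B T i = 0 ∨ E i = 0) ∨ mulU (E i) (Yb (i + 1)) ≤ nlogL (av B T i)
  alg : B.Yc ≤ Yb i ∨ mulU (mulU (av B T i) (av B T i)) (SS + mulU B.gam (Yb (i + 1))) ≤ SS

theorem cell_props {i : ℕ} (h : cellChk B Va Vb T E i = true) : CellP B Va Vb T E i := by
  simp only [cellChk, forceN_eq, Bool.and_eq_true, Bool.or_eq_true, Nat.ble_eq, Nat.blt_eq,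
    Nat.beq_eq, Bool.cond_eq_ite] at h
  obtain ⟨⟨⟨⟨⟨⟨⟨h1, h2⟩, h3⟩, h4⟩, h5⟩, h6⟩, h7⟩, h8⟩ := h
  exact ⟨h1, h2, h3, h4, h5, h6, h7, h8⟩

/-- The content of the global check. -/
structure RestP (B : Blk) (Va Vb E : ℕ → ℕ) : Prop where
  pos : 0 < mkCell B Va Vb 0 0
  l1 : fld (mkCell B Va Vb 0 0) 56 14 = 0
  k1 : gK1 (mkCell B Va Vb 0 0) ≤ B.lamh
  lh : B.lamh ≤ SS
  l0 : 0 < B.lam
  z0 : 0 < B.z2
  z1 : B.z2 ≤ B.Zc
  z2 : B.Zc < B.Z2
  z3 : B.Z2 ≤ B.Yc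
  yp : B.Yp ≤ B.Yc
  yc : B.Yc ≤ 4503599627370496
  gr : Yb (cidx B.Yc) = B.Yc
  ga : B.gam ≤ 2 * B.lam
  fa : SS ≤ mulD (mulD B.mL B.mL - B.gam) B.Yc
  e0 : E 680 = 0

theorem rest_props (h : restChk B Va Vb E = true) : RestP B Va Vb E := by
  simp only [restChk, forceN_eq, Bool.and_eq_true, Nat.ble_eq, Nat.blt_eq, Nat.beq_eq] at h
  obtain ⟨⟨⟨⟨⟨⟨⟨⟨⟨⟨⟨⟨⟨⟨h1, h2⟩, h3⟩, h4⟩, h5⟩, h6⟩, h7⟩, h8⟩, h9⟩, h10⟩, h11⟩, h12⟩, h13⟩,
    h14⟩, h15⟩ := h
  exact ⟨h1, h2, h3, h4, h5, h6, h7, h8, h9, h10, h11, h12, h13, h14, h15⟩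

theorem lt680 (hr : RestP B Va Vb E) {i : ℕ} (hi : i ≤ 680) (hy : Yb i < B.Yc) : i < 680 := by
  rcases hi.eq_or_lt with h | h
  · subst h
    rw [Yb_last] at hy
    have := hr.yc
    omega
  · exact h

end ZBlockX

open ZBlockX

theorem mkFar_sound (hs : ScalOK B) {y0 y1 : ℕ} (hY : B.Yp ≤ y0) (h0 : 0 < mkFar B y0 y1) {hi : ℝ}
    (h : hi ≤ rr y1 ∨ 2 ^ 60 ≤ y1) : RgOK B (mkFar B y0 y1) (rr y0) hi := by
  have hdef : mkFar B y0 y1 = pk15 (OFF + min (far0 B y0) SS) (OFF + min (far0 B y0) SS)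
      (far1b B y0) (OFF + far2 B y0) (OFF + far2 B y0)
      (far1b B y0 + mulU B.lam (min (far0 B y0) SS))
      (far2 B y0 + 2 * mulU B.lam (far1b B y0) + mulU B.lam (mulU B.lam (min (far0 B y0) SS))) INV
      B.d1g (divU (m0a B y1) B.mL + mulU B.be B.d1g + mulU B.nr (min (far0 B y0) SS)) 0 1 0 0 1 := by
    simp only [mkFar, forceN_eq]
  obtain ⟨e0, e1, e2, e3, e4, e5, e6, e7, e8, e9, -, -, -, -, -, -, -, -, -, -, -, -, b2, b3, -⟩ :=
    pk15_fld hdef h0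
  generalize mkFar B y0 y1 = r at e0 e1 e2 e3 e4 e5 e6 e7 e8 e9
  refine ⟨fun q hq y hy ha hb => ?_, fun y ha _ hy => ?_⟩
  · have g0 := far0_bd hs hq hy ha
    have hI := INV_lt_BIG
    have g1 : |B.g 1 q y| ≤ rr (far1b B y0) := by
      have := far1b_bd hs (y := y0) (by omega) hq (c := 1) (v := y) le_rfl (by simpa using ha)
      simpa using this
    have g2 : |B.g 2 q y| ≤ rr (far2 B y0) := by
      have := hs.far.f2 y0 (by omega) q hq 1 y le_rfl (by simpa using ha)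
      simpa using this
    have hl : |rr B.lam| ≤ rr B.lam := (abs_of_nonneg (rr_nonneg _)).le
    have p0 := abs_le_mulU hl g0
    have p1 := abs_le_mulU hl g1
    have p2 := abs_le_mulU hl p0
    have d1 := hs.d1g q hq y hy
    refine ⟨?_, ?_, ?_, ?_, ?_, ?_, ?_, ?_, ?_, fun hy2 => ?_⟩
    · rw [e0, ro_OFF]
      exact (abs_le.mp g0).1
    · rw [e1, ro_OFF]
      exact (abs_le.mp g0).2
    · rw [e2]
      exact g1
    · rw [e3, ro_OFF]
      exact (abs_le.mp g2).1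
    · rw [e4, ro_OFF]
      exact (abs_le.mp g2).2
    · rw [e5, rr_add]
      unfold Blk.L1
      exact (abs_add_le _ _).trans (add_le_add g1 p0)
    · rw [e6, rr_add, rr_add, rr_nmul]
      unfold Blk.L2
      have h1 := abs_le.mp g2
      have h2 := abs_le.mp p1
      have h3 := abs_le.mp p2
      push_cast
      rw [abs_le]
      constructor <;> nlinarith [h1.1, h1.2, h2.1, h2.2, h3.1, h3.2]
    · intro h7
      rw [e7] at h7
      exact absurd h7 (lt_irrefl _)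
    · rw [e8]
      exact d1
    · have hy1 : y ≤ rr y1 := by
        rcases h with h | h
        · exact hb.trans h
        · refine hy2.trans ?_
          have h2 : rr (2 ^ 60) ≤ rr y1 := rr_le.mpr h
          refine le_trans (le_of_eq ?_) h2
          unfold rr
          norm_num
      have hM := m0a_ge hs hq hy hy1
      have hm0 : 0 < rr B.mL := rr_pos hs.mL0
      have key := abs_gq2_le hs.C_pos (hs.q_pos hq).1 0 y 0 (M := rr (m0a B y1)) hm0
        (hs.hmu q hq).1 (hs.m1 q hq) (hs.n1 q hq) (by simpa using hM)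
      rw [e9, rr_add, rr_add]
      refine key.trans (add_le_add (add_le_add (divU_ge _ hs.mL0) ?_) ?_)
      · exact le_mulU hs.be d1 (abs_nonneg _)
      · refine le_mulU hs.nr ?_ (abs_nonneg _)
        rw [sub_zero]
        exact g0
  · have := rr_le.mp ha
    omega

theorem cellsChk_sound {i0 n : ℕ} (h : cellsChk B Va Vb T E i0 n = true) :
    ∀ i, i0 ≤ i → i < i0 + n → cellChk B Va Vb T E i = true := by
  intro i h1 h2
  have h3 := all_rec (f := fun i => forceN (i0 + i) (cellChk B Va Vb T E)) h (i - i0) (by omega)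
  rw [forceN_eq, Nat.add_sub_cancel' h1] at h3
  exact h3

theorem mk_of (hs : ScalOK B) (hV : EndOK B Va Vb B.Yc)
    (hc : ∀ i, i ≤ 680 → cellChk B Va Vb T E i = true) {i : ℕ} (hi : i ≤ 680) (hy : Yb i < B.Yc) :
    MkOK B (T i) (rr (Yb i)) (rr (Yb (i + 1))) := by
  have h := cell_props (hc i hi)
  have h1 := h.eq
  have h0 := h.pos
  rw [if_pos hy] at h1
  rw [h1] at h0 ⊢
  exact mkCell_sound hs hV hy h0

theorem mk_zero (hs : ScalOK B) (hV : EndOK B Va Vb B.Yc) (hr : restChk B Va Vb E = true) :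
    MkOK B (mkCell B Va Vb 0 0) 0 0 := by
  have h := rest_props hr
  have hy : 0 < B.Yc := by
    have := h.z0
    have := h.z1
    have := h.z2
    have := h.z3
    omega
  have h1 := mkCell_sound hs hV hy h.pos
  rwa [rr_zero] at h1

namespace ZBlockX

theorem tab_of (hs : ScalOK B) (hV : EndOK B Va Vb B.Yc)
    (hc : ∀ i, i ≤ 680 → cellChk B Va Vb T E i = true) (hr : RestP B Va Vb E) : TabOK B T := by
  have far : ∀ i, i ≤ 680 → ¬Yb i < B.Yc → ∀ hi : ℝ, (hi ≤ rr (Yb (i + 1)) ∨ 2 ^ 60 ≤ Yb (i + 1)) →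
      RgOK B (T i) (rr (Yb i)) hi := by
    intro i hi hy u hu
    have h := cell_props (hc i hi)
    have h1 := h.eq
    have h0 := h.pos
    rw [if_neg hy] at h1
    rw [h1] at h0 ⊢
    exact mkFar_sound hs (hr.yp.trans (not_lt.mp hy)) h0 hu
  constructor
  · intro i hi
    by_cases hy : Yb i < B.Yc
    · exact (mk_of hs hV hc hi.le hy).rg
    · exact far i hi.le hy _ (Or.inl le_rfl)
  · intro u
    refine far 680 le_rfl (fun hy => absurd (lt680 hr le_rfl hy) (lt_irrefl _)) u (Or.inr ?_)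
    rw [← Yb_last]
    exact (Yb_lt le_rfl).le

theorem l1_of (hs : ScalOK B) (hV : EndOK B Va Vb B.Yc) (hr : restChk B Va Vb E = true) {q : ℝ}
    (hq : q ∈ B.I) : B.g 1 q 0 + rr B.lam ≤ 0 ∧ -B.g 1 q 0 ≤ rr B.lamh := by
  have h := mk_zero hs hV hr
  have hp := rest_props hr
  constructor
  · have h1 := (h.ex q hq 0 le_rfl le_rfl le_rfl).2.2.2
    rw [hp.l1, rr_zero] at h1
    unfold Blk.L1 at h1
    rwa [(hs.sm_g hq).z, mul_one] at h1
  · have h1 := (h.rg.pt q hq 0 le_rfl le_rfl le_rfl).gK1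
    exact (neg_le_abs _).trans (h1.trans (rr_le.mpr hp.k1))

theorem hd_of (hs : ScalOK B) (hV : EndOK B Va Vb B.Yc)
    (hc : ∀ i, i ≤ 680 → cellChk B Va Vb T E i = true) (hr : restChk B Va Vb E = true) {q : ℝ}
    (hq : q ∈ B.I) :
    Hd (B.g 0 q) (B.g 1 q) (B.g 2 q) (rr B.lam) (rr B.z2) (rr B.Zc) (rr B.Z2) := by
  have hp := rest_props hr
  have z1 := hp.z1
  have z2 := hp.z2
  have z3 := hp.z3
  refine ⟨rr_pos hp.l0, (l1_of hs hV hr hq).1, rr_pos hp.z0, rr_le.mpr z1, rr_le.mpr z2.le,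
    fun y h0 h1 => ?_, fun y h0 h1 => ?_, fun y h0 h1 => ?_⟩
  · rcases h0.eq_or_lt with h2 | h2
    · rw [← h2, (hs.sm_g hq).z]
      exact one_pos
    · obtain ⟨i, hi, h3, h4⟩ := cell_of' h2
      have h5 : Yb i < B.z2 := rr_lt.mp (h3.trans_le h1)
      have h6 : Yb i < B.Yc := by omega
      have h7 := ((mk_of hs hV hc hi h6).rg.pt q hq y h0 h3.le (h4 (lt680 hp hi h6))).inR
      have h8 : 0 < gLop (T i) := (cell_props (hc i hi)).lop.resolve_left (by omega)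
      exact (rr_pos h8).trans_le (h7.lop (Or.inl h8))
  · obtain ⟨i, hi, h3, h4⟩ := cell_of' h0
    have h5 : Yb i < B.Zc := rr_lt.mp (h3.trans_le h1)
    have h6 : Yb i < B.Yc := by omega
    have h7 := ((mk_of hs hV hc hi h6).ex q hq y h0.le h3.le (h4 (lt680 hp hi h6))).1
    rw [(cell_props (hc i hi)).con.resolve_left (by omega), rr_zero] at h7
    exact h7
  · have hy : 0 ≤ y := (rr_nonneg _).trans h0
    have key : ∀ i, i ≤ 680 → rr (Yb i) ≤ y → y ≤ rr (Yb (i + 1)) → Yb i < B.Z2 →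
        B.Zc < Yb (i + 1) → B.g 0 q y ≤ 0 := by
      intro i hi h3 h4 h5 h6
      have h7 := ((mk_of hs hV hc hi (by omega)).rg.pt q hq y hy h3 h4).inR.hip
      rw [(cell_props (hc i hi)).neg.resolve_left (by omega), rr_zero] at h7
      exact h7
    rcases h0.eq_or_lt with h2 | h2
    · obtain ⟨i, hi, h3, h4⟩ := cell_of hy
      have h5 : Yb i ≤ B.Zc := rr_le.mp (h3.trans h2.symm.le)
      have h6 := h4 (lt680 hp hi (by omega))
      exact key i hi h3 h6.le (by omega) (rr_lt.mp (h2.le.trans_lt h6))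
    · obtain ⟨i, hi, h3, h4⟩ := cell_of' ((rr_nonneg _).trans_lt h2)
      have h5 : Yb i < B.Z2 := rr_lt.mp (h3.trans_le h1)
      have h6 := h4 (lt680 hp hi (by omega))
      exact key i hi h3.le h6 h5 (rr_lt.mp (h2.trans_le h6))

theorem E_anti (hc : ∀ i, i ≤ 680 → cellChk B Va Vb T E i = true) {i j : ℕ} (h : i ≤ j)
    (hj : j ≤ 680) : E j ≤ E i := by
  induction j with
  | zero => rw [Nat.le_zero.mp h]
  | succ j ih =>
    rcases Nat.eq_or_lt_of_le h with h1 | h1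
    · rw [h1]
    · exact le_trans (cell_props (hc (j + 1) hj)).dec (ih (by omega) (by omega))

theorem E_le (hc : ∀ i, i ≤ 680 → cellChk B Va Vb T E i = true) {j : ℕ} (hj : j ≤ 680) :
    E j ≤ B.lam :=
  (E_anti hc (Nat.zero_le j) hj).trans (cell_props (hc 0 (by omega))).dec

/-- On a cell the profile is bounded by the stored value or by the first envelope. -/
theorem cell_bd (hs : ScalOK B) {q v : ℝ} (hq : q ∈ B.I)
    (hd : Hd (B.g 0 q) (B.g 1 q) (B.g 2 q) (rr B.lam) (rr B.z2) (rr B.Zc) (rr B.Z2)) {i : ℕ}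
    (hv : 0 ≤ v) (h1 : v ≤ rr (Yb (i + 1))) (hin : InR (T i) (B.g 0 q v)) :
    |B.g 0 q v| ≤ rr (av B T i) ∨ |B.g 0 q v| ≤ Real.exp (-(rr B.lam * v)) := by
  unfold av
  split_ifs with h
  · rcases le_total 0 (B.g 0 q v) with h2 | h2
    · right
      rw [abs_of_nonneg h2]
      exact hd.exp_le (hs.sm_g hq) hv (h1.trans (rr_le.mpr h))
    · left
      rw [abs_of_nonpos h2]
      exact neg_le.mp hin.neg
  · exact Or.inl hin.abs

theorem env_cell (hs : ScalOK B) (hc : ∀ i, i ≤ 680 → cellChk B Va Vb T E i = true) {q v : ℝ}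
    (hq : q ∈ B.I)
    (hd : Hd (B.g 0 q) (B.g 1 q) (B.g 2 q) (rr B.lam) (rr B.z2) (rr B.Zc) (rr B.Z2)) {i : ℕ}
    (hi : i ≤ 680) (hv : 0 ≤ v) (h1 : v ≤ rr (Yb (i + 1))) (hin : InR (T i) (B.g 0 q v)) :
    |B.g 0 q v| ≤ Real.exp (-(rr (E i) * v)) := by
  rcases cell_bd hs hq hd hv h1 hin with h | h
  · rcases (cell_props (hc i hi)).env with (h2 | h2) | h2
    · rw [h2, rr_zero] at h
      exact h.trans (Real.exp_pos _).le
    · rw [h2, rr_zero, zero_mul, neg_zero, Real.exp_zero]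
      exact (hs.sm_g hq).bd v hv
    · rcases Nat.eq_zero_or_pos (av B T i) with h3 | h3
      · rw [h3, rr_zero] at h
        exact h.trans (Real.exp_pos _).le
      · have h4 : av B T i ≤ SS := by
          by_contra h5
          rw [nlogL_big (not_le.mp h5).le, mulU_eq] at h2
          omega
        refine h.trans ((nlogL_le h3 h4).trans (Real.exp_le_exp.mpr (neg_le_neg ?_)))
        exact (le_mulU le_rfl h1 hv).trans (rr_le.mpr h2)
  · refine h.trans (Real.exp_le_exp.mpr (neg_le_neg ?_))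
    exact mul_le_mul_of_nonneg_right (rr_le.mpr (E_le hc hi)) hv

theorem alg_far (hs : ScalOK B) (hp : RestP B Va Vb E) {q v : ℝ} (hq : q ∈ B.I)
    (hv : rr B.Yc ≤ v) : B.g 0 q v ^ 2 * (1 + rr B.gam * v) ≤ 1 := by
  have hy : 0 < B.Yc := by
    have := hp.z0
    have := hp.z1
    have := hp.z2
    have := hp.z3
    omega
  have hy' := rr_pos hy
  have v0 : 0 < v := hy'.trans_le hv
  have hm : 0 < rr B.mL := rr_pos hs.mL0
  have h1 : 1 ≤ rr (mulD B.mL B.mL - B.gam) * rr B.Yc := by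
    rw [← rr_SS]
    exact (rr_le.mpr hp.fa).trans (mulD_le _ _)
  have h2 : rr (mulD B.mL B.mL - B.gam) ≤ rr B.mL * rr B.mL - rr B.gam := by
    rcases le_total B.gam (mulD B.mL B.mL) with h | h
    · rw [rr_sub h]
      exact sub_le_sub_right (mulD_le _ _) _
    · rw [Nat.sub_eq_zero_of_le h, rr_zero, zero_mul] at h1
      exact absurd h1 (by norm_num)
  have h3 : 1 + rr B.gam * v ≤ rr B.mL * rr B.mL * v := by
    have h4 := mul_le_mul_of_nonneg_left hv (rr_nonneg (mulD B.mL B.mL - B.gam))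
    have h5 := mul_le_mul_of_nonneg_right h2 v0.le
    linarith
  have h6 := hs.dec hq v0
  have h7 : 0 < rr B.mL * √v := mul_pos hm (Real.sqrt_pos.mpr v0)
  rw [le_div_iff₀ h7] at h6
  have h8 : (|B.g 0 q v| * (rr B.mL * √v)) ^ 2 ≤ 1 :=
    pow_le_one₀ (mul_nonneg (abs_nonneg _) h7.le) h6
  rw [mul_pow, sq_abs, mul_pow, Real.sq_sqrt v0.le] at h8
  refine le_trans (mul_le_mul_of_nonneg_left h3 (sq_nonneg _)) (le_trans (le_of_eq ?_) h8)
  ring

theorem alg_cell (hs : ScalOK B) (hp : RestP B Va Vb E)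
    (hc : ∀ i, i ≤ 680 → cellChk B Va Vb T E i = true) {q v : ℝ} (hq : q ∈ B.I)
    (hd : Hd (B.g 0 q) (B.g 1 q) (B.g 2 q) (rr B.lam) (rr B.z2) (rr B.Zc) (rr B.Z2)) {i : ℕ}
    (hi : i ≤ 680) (hy : Yb i < B.Yc) (hv : 0 ≤ v) (h1 : v ≤ rr (Yb (i + 1)))
    (hin : InR (T i) (B.g 0 q v)) : B.g 0 q v ^ 2 * (1 + rr B.gam * v) ≤ 1 := by
  have hg : 0 ≤ rr B.gam * v := mul_nonneg (rr_nonneg _) hv
  rcases cell_bd hs hq hd hv h1 hin with h | h
  · have h2 := (cell_props (hc i hi)).alg.resolve_left (by omega)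
    have h3 : B.g 0 q v ^ 2 ≤ rr (mulU (av B T i) (av B T i)) := by
      rw [← sq_abs, sq]
      exact le_mulU h h (abs_nonneg _)
    have h4 : 1 + rr B.gam * v ≤ rr (SS + mulU B.gam (Yb (i + 1))) := by
      rw [rr_add, rr_SS]
      exact add_le_add le_rfl (le_mulU le_rfl h1 hv)
    rw [← rr_SS] at h4 ⊢
    refine (le_mulU h3 h4 ?_).trans (rr_le.mpr h2)
    rw [rr_SS]
    linarith
  · have h2 : rr B.gam ≤ 2 * rr B.lam := by
      have := rr_le.mpr hp.ga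
      rw [rr_nmul] at this
      exact_mod_cast this
    have h3 : B.g 0 q v ^ 2 ≤ Real.exp (-(2 * rr B.lam * v)) := by
      rw [← sq_abs]
      refine (pow_le_pow_left₀ (abs_nonneg _) h 2).trans (le_of_eq ?_)
      rw [sq, ← Real.exp_add]
      congr 1
      ring
    have h4 : 1 + rr B.gam * v ≤ Real.exp (2 * rr B.lam * v) := by
      have h5 := Real.add_one_le_exp (2 * rr B.lam * v)
      have h6 := mul_le_mul_of_nonneg_right h2 hv
      linarith
    refine (mul_le_mul h3 h4 (by linarith) (Real.exp_pos _).le).trans (le_of_eq ?_)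
    rw [← Real.exp_add, neg_add_cancel, Real.exp_zero]

end ZBlockX

theorem bok_of (hs : ScalOK B) (hV : EndOK B Va Vb B.Yc)
    (hc : ∀ i, i ≤ 680 → cellChk B Va Vb T E i = true) (hr : restChk B Va Vb E = true) :
    BOK B (rq2 (lv T)) E := by
  have hp := rest_props hr
  have ht := tab_of hs hV hc hp
  have hd := fun q (hq : q ∈ B.I) => hd_of hs hV hc hr hq
  refine ⟨hs, hs.far, qok_of ht, hd, fun q hq v hv => ?_, ⟨?_, hp.lh⟩, fun y => ?_,
    fun q hq v hv => ?_, hp.yp, ?_, hp.z3⟩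
  · have h1 := gg_ge_lin hs.C_pos (hs.q_pos hq).1 hv
    have h2 := (l1_of hs hV hr hq).2
    have h3 := gg_zero hs.C_pos (hs.q_pos hq).1 1
    have h4 : aa B.C q 1 ≤ rr B.lamh := by
      refine le_trans (le_of_eq ?_) h2
      unfold Blk.g
      rw [h3]
      simp
    exact le_trans (sub_le_sub_left (mul_le_mul_of_nonneg_right h4 hv) 1) h1
  · have hq : B.q 0 ∈ B.I := hs.q_mem (by have := hs.nv; omega)
    have h := l1_of hs hV hr hq
    exact rr_le.mp (by linarith [h.1, h.2])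
  · simp only [envb, forceN_eq]
    refine ⟨E_le hc (cidx_le _), fun q hq v hv hy => ?_⟩
    obtain ⟨i, hi, h1, h2⟩ := cell_le hv hy
    have hi' : i ≤ 680 := hi.trans (cidx_le _)
    have h3 : E (cidx (y - 1)) ≤ E i := E_anti hc hi (cidx_le _)
    refine le_trans ?_ (Real.exp_le_exp.mpr (neg_le_neg
      (mul_le_mul_of_nonneg_right (rr_le.mpr h3) hv)))
    rcases hi'.eq_or_lt with h4 | h4
    · rw [h4, hp.e0, rr_zero, zero_mul, neg_zero, Real.exp_zero]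
      exact (hs.sm_g hq).bd v hv
    · exact env_cell hs hc hq (hd q hq) hi' hv (h2 h4)
        ((ht.cell i h4).pt q hq v hv h1 (h2 h4)).inR
  · rcases le_or_gt (rr B.Yc) v with h | h
    · exact alg_far hs hp hq h
    · obtain ⟨i, hi, h1, h2⟩ := cell_of hv
      have h3 : Yb i < B.Yc := rr_lt.mp (h1.trans_lt h)
      have h4 := lt680 hp hi h3
      exact alg_cell hs hp hc hq (hd q hq) hi h3 hv (h2 h4).le
        ((ht.cell i h4).pt q hq v hv h1 (h2 h4).le).inR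
  · have := hp.yc
    omega

end Pool.Agent.MP_39fec4_gt.K

end
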