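import Pool.Agent.Mg.F39fec4.Geb2056
import Pool.Agent.Mg.F39fec4.Gc91473

set_option autoImplicit false

namespace Pool.Agent.MP_39fec4_gt.Ball

open MeasureTheory Set Filter Topology Real

/-- The properties of the normalised characteristic function used in the comparison. -/
structure Pk (f : ℝ → ℝ) (κ I : ℝ) : Prop where
  cont : Continuous f
  zero : f 0 = 1
  bd : ∀ x, |f x| ≤ 1
  int : IntegrableOn f (Ioi 0)
  k0 : 0 < κ
  klo : 1 / 3 ≤ κ ^ 2
  khi : κ ^ 2 ≤ 0.336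
  lo : ∀ x, 1 - (κ * x) ^ 2 / 2 ≤ f x
  hi : ∀ x, f x ≤ P4 (κ * x)
  xb : ∀ x, |x * f x| ≤ 1
  quad : ∀ e c0 c1 c2 x : ℝ, 0 ≤ x → c2 ≤ 0 →
    (∀ z, 0 ≤ z → c0 + c1 * z + c2 * z ^ 2 ≤ e * Real.sin z) →
    c0 + c1 * x + c2 * (x ^ 2 * 1.0024) ≤ e * (x * f x)
  Ieq : ∫ x in Ioi (0 : ℝ), f x ^ 2 = I
  Ile : I ≤ π / 2
  H : √π / 2 ≤ κ * I

variable {f : ℝ → ℝ} {κ I : ℝ}

theorem Pk.arch (h : Pk f κ I) {e m : ℝ} (hm : ∀ z, e * Real.sin z = Real.cos (z - m)) {x : ℝ}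
    (hx : 0 ≤ x) : 1 - (x - m) ^ 2 / 2 - 0.0012 * x ^ 2 ≤ e * (x * f x) := by
  have := h.quad e (1 - m ^ 2 / 2) m (-(1 / 2)) x hx (by norm_num) fun z _ => by
    rw [hm]; nlinarith [Real.one_sub_sq_div_two_le_cos (x := z - m)]
  nlinarith

theorem sin_m1 (z : ℝ) : 1 * Real.sin z = Real.cos (z - π / 2) := by
  rw [Real.cos_sub_pi_div_two, one_mul]

theorem sin_m2 (z : ℝ) : -1 * Real.sin z = Real.cos (z - 3 * π / 2) := by
  rw [show z - 3 * π / 2 = (z - π / 2) - π by ring, Real.cos_sub_pi, Real.cos_sub_pi_div_two]; ring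

theorem sin_m3 (z : ℝ) : 1 * Real.sin z = Real.cos (z - 5 * π / 2) := by
  rw [show z - 5 * π / 2 = (z - π / 2) - 2 * π by ring, Real.cos_sub_two_pi,
    Real.cos_sub_pi_div_two, one_mul]

theorem Pk.mid (h : Pk f κ I) {x : ℝ} (hx : 0 ≤ x) :
    -((x - π + 1) ^ 2 + 0.0024 * x ^ 2) / 4 ≤ x * f x := by
  have := h.quad 1 (-(1 - π) ^ 2 / 4) (-(1 - π) / 2) (-(1 / 4)) x hx (by norm_num) fun z hz => by
    rcases le_total z π with h1 | h1
    · have := Real.sin_nonneg_of_nonneg_of_le_pi hz h1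
      nlinarith [sq_nonneg (z - π + 1)]
    · have := Real.sin_le (sub_nonneg.2 h1)
      rw [Real.sin_sub_pi] at this
      nlinarith [sq_nonneg (z - π - 1)]
  nlinarith

theorem Pk.far (h : Pk f κ I) {x : ℝ} (hx : 0 < x) (h1 : 30 / 13 ≤ (κ * x) ^ 2) :
    |f x| ≤ 1 / 4 := by
  have p1 := Real.pi_gt_d4
  have p2 := Real.pi_lt_d4
  have kx : (κ * x) ^ 2 ≤ 0.336 * x ^ 2 := by
    rw [mul_pow]; exact mul_le_mul_of_nonneg_right h.khi (sq_nonneg x)
  rcases le_total 4 x with h4 | h4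
  · have := h.xb x
    rw [abs_mul, abs_of_pos hx] at this
    nlinarith [abs_nonneg (f x)]
  have hx2 : 2.6 ≤ x := by nlinarith
  refine abs_le.2 ⟨?_, ?_⟩
  · have := h.mid hx.le
    have h3 : (x - π + 1) ^ 2 + 0.0024 * x ^ 2 ≤ x := by nlinarith
    have h5 : x * (-(1 / 4)) ≤ x * f x := by linarith
    exact le_of_mul_le_mul_left h5 hx
  · rcases le_total ((κ * x) ^ 2) (30 / 7) with h2 | h2
    · refine (h.hi x).trans ?_
      unfold P4
      nlinarith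
    · have hx3 : 3.5 ≤ x := by nlinarith
      have := h.arch sin_m2 hx.le
      have h3 : (x - 3 * π / 2) ^ 2 ≤ 1.5 := by nlinarith
      have h5 : x * f x ≤ x * 0 := by nlinarith
      linarith [le_of_mul_le_mul_left h5 hx]

theorem Pk.nonneg (h : Pk f κ I) {x : ℝ} (hx : 0 ≤ x) (h1 : x ≤ 2.97) : 0 ≤ f x := by
  have p1 := Real.pi_gt_d4
  have p2 := Real.pi_lt_d4
  rcases le_total x 2 with h2 | h2
  · have kx : (κ * x) ^ 2 ≤ 0.336 * x ^ 2 := by
      rw [mul_pow]; exact mul_le_mul_of_nonneg_right h.khi (sq_nonneg x)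
    have := h.lo x
    nlinarith
  · have := h.arch sin_m1 hx
    have h3 : (x - π / 2) ^ 2 ≤ 1.39925 ^ 2 := by
      apply pow_le_pow_left₀ <;> linarith
    have h5 : x * 0 ≤ x * f x := by nlinarith
    exact le_of_mul_le_mul_left h5 (by linarith)

theorem Pk.neg (h : Pk f κ I) {x : ℝ} (hx : 3.7 ≤ x) (h1 : x ≤ 4) : f x ≤ -0.1 := by
  have p1 := Real.pi_gt_d4
  have p2 := Real.pi_lt_d4
  have := h.arch sin_m2 (x := x) (by linarith)
  have h3 : (3 * π / 2 - x) ^ 2 ≤ 1.0125 ^ 2 := by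
    apply pow_le_pow_left₀ <;> linarith
  have h5 : x * f x ≤ x * (-0.1) := by nlinarith
  exact le_of_mul_le_mul_left h5 (by linarith)

theorem Pk.gauss (h : Pk f κ I) {x : ℝ} (h1 : (κ * x) ^ 2 ≤ 2) :
    |f x| ≤ Real.exp (-((κ * x) ^ 2 / 2)) := by
  have a := h.lo x
  have b := h.hi x
  have c := gauss_sub_P4 (κ * x)
  have d : 0 ≤ (κ * x) ^ 4 := by positivity
  rw [abs_of_nonneg (by linarith)]
  nlinarith

theorem Pk.int_sq (h : Pk f κ I) : IntegrableOn (fun x => f x ^ 2) (Ioi 0) := by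
  simpa only [sq] using int_mul_bdd h.int h.cont h.bd

theorem Pk.I_pos (h : Pk f κ I) : 0 < I := by
  have : 0 < √π / 2 := by have := Real.pi_pos; positivity
  exact (mul_pos_iff_of_pos_left h.k0).1 (this.trans_le h.H)

/-- Ball's integral. -/
noncomputable def Psi (f : ℝ → ℝ) (u : ℝ) : ℝ := √u * ∫ x in Ioi (0 : ℝ), |f x| ^ u

theorem Pk.psi (h : Pk f κ I) {u : ℝ} (hu : 2 ≤ u) : Psi f u ≤ √2 * I -
    √u * ((u - 2) * Real.exp (-((u - 2) * Real.log 4)) * 0.0186) / κ := by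
  have k0 := h.k0
  have ki : 0 < κ⁻¹ := inv_pos.2 k0
  have hc := h.cont
  have e : ∀ t, κ * (κ⁻¹ * t) = t := fun t => by field_simp
  have e2 := integral_scale (fun x => f x ^ 2) ki
  have eu := integral_scale (fun x => |f x| ^ u) ki
  rw [h.Ieq, div_inv_eq_mul] at e2
  rw [div_inv_eq_mul] at eu
  have := psi_core (F := fun t => f (κ⁻¹ * t)) (by fun_prop) (fun t => h.bd _)
    (int_scale h.int_sq ki) (fun t => by simpa only [e] using h.lo (κ⁻¹ * t))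
    (fun t => by simpa only [e] using h.hi (κ⁻¹ * t))
    (fun t ht h1 => h.far (by positivity) (by rwa [e])) (by rw [e2, mul_comm]; exact h.H) hu
  rw [e2, eu] at this
  rw [Psi, le_sub_iff_add_le', ← le_sub_iff_add_le, div_le_iff₀ k0]
  linarith

theorem Pk.psi_le (h : Pk f κ I) {u : ℝ} (hu : 2 ≤ u) : Psi f u ≤ √2 * I := by
  have := h.psi hu
  have k0 := h.k0
  have h2 : 0 ≤ u - 2 := by linarith
  have : 0 ≤ √u * ((u - 2) * Real.exp (-((u - 2) * Real.log 4)) * 0.0186) / κ := by positivity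
  linarith

theorem Pk.psi_lt (h : Pk f κ I) {u : ℝ} (hu : 2 < u) : Psi f u < √2 * I := by
  have := h.psi hu.le
  have k0 := h.k0
  have h2 : 0 < u - 2 := by linarith
  have h3 : 0 < u := by linarith
  have : 0 < √u * ((u - 2) * Real.exp (-((u - 2) * Real.log 4)) * 0.0186) / κ := by positivity
  linarith

theorem gain_bound {u : ℝ} (h1 : 2.1276 ≤ u) (h2 : u ≤ 3.6364) :
    0.111 ≤ 2 / u * (√u * ((u - 2) * Real.exp (-((u - 2) * Real.log 4)))) := by
  have u0 : 0 < u := by linarith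
  have s0 : 0 < √u := Real.sqrt_pos.2 u0
  have e : 2 / u * √u = 2 / √u := by
    rw [div_mul_eq_mul_div, div_eq_div_iff u0.ne' s0.ne', mul_assoc, Real.mul_self_sqrt u0.le]
  have l1 := Real.log_two_gt_d9
  have l2 := Real.log_two_lt_d9
  rw [← mul_assoc, e, log_four, div_mul_eq_mul_div, le_div_iff₀ s0]
  have t0 : 0 ≤ u - 2 := by linarith
  rcases le_total u 2.6 with h | h
  · have a : √u ≤ 1.6125 := Real.sqrt_le_iff.2 ⟨by norm_num, by linarith⟩
    have b := Real.add_one_le_exp (-((u - 2) * (2 * Real.log 2)))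
    have c : 1 - 1.3863 * (u - 2) ≤ Real.exp (-((u - 2) * (2 * Real.log 2))) := by nlinarith
    nlinarith [mul_le_mul_of_nonneg_left c t0]
  · have a : √u ≤ 1.907 := Real.sqrt_le_iff.2 ⟨by norm_num, by linarith⟩
    have b := Real.add_one_le_exp ((4 - u) * (2 * Real.log 2))
    have d : Real.exp (-((u - 2) * (2 * Real.log 2))) =
        Real.exp ((4 - u) * (2 * Real.log 2)) / 16 := by
      rw [eq_div_iff (by norm_num), show (16 : ℝ) = Real.exp (4 * Real.log 2) by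
        rw [show (4 : ℝ) = ((4 : ℕ) : ℝ) by norm_num, Real.exp_nat_mul, Real.exp_log (by norm_num)]
        norm_num, ← Real.exp_add]
      congr 1; ring
    have c : (1 + 1.386 * (4 - u)) / 16 ≤ Real.exp (-((u - 2) * (2 * Real.log 2))) := by
      rw [d]; nlinarith
    nlinarith [mul_le_mul_of_nonneg_left c t0]

theorem Pk.psi_gain (h : Pk f κ I) {u : ℝ} (h1 : 2.1276 ≤ u) (h2 : u ≤ 3.6364) :
    2 / u * Psi f u ≤ 2 / u * (√2 * I) - 0.0016 * (√2 * I) := by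
  have a := h.psi (u := u) (by linarith)
  have b := gain_bound h1 h2
  have k0 := h.k0
  have I0 := h.I_pos
  have u0 : 0 < 2 / u := by have : 0 < u := by linarith
                            positivity
  have k1 : κ ≤ 0.58 := by nlinarith [h.khi]
  have s2 : √2 ≤ 1.4143 := Real.sqrt_le_iff.2 ⟨by norm_num, by norm_num⟩
  have I1 : I ≤ 1.5708 := by linarith [h.Ile, Real.pi_lt_d4]
  have c := mul_le_mul_of_nonneg_left a u0.le
  set X := √u * ((u - 2) * Real.exp (-((u - 2) * Real.log 4))) with hX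
  have e : 2 / u * (√u * ((u - 2) * Real.exp (-((u - 2) * Real.log 4)) * 0.0186) / κ) =
      2 / u * X * 0.0186 / κ := by rw [hX]; ring
  have d : 0.0016 * (√2 * I) ≤ 2 / u * X * 0.0186 / κ := by
    rw [le_div_iff₀ k0]
    have : √2 * I * κ ≤ 1.4143 * 1.5708 * 0.58 := by gcongr
    nlinarith
  rw [mul_sub, e] at c
  linarith

theorem Pk.amgm (h : Pk f κ I) {ι : Type*} (T : Finset ι) (a : ι → ℝ) (ha : ∀ j, 0 ≤ a j)
    {b m : ℝ} (hb : 0 < b) (hm : 0 < m) (hs : ∑ j ∈ T, a j ^ 2 = b ^ 2)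
    (hu : ∀ j ∈ T, 0 < a j → 2 ≤ m * b ^ 2 / a j ^ 2) :
    IntegrableOn (fun s => |∏ j ∈ T, f (a j * s)| ^ m) (Ioi 0) ∧
    ∫ s in Ioi (0 : ℝ), |∏ j ∈ T, f (a j * s)| ^ m ≤
      (∑ j ∈ T, a j ^ 2 / b ^ 2 * Psi f (m * b ^ 2 / a j ^ 2)) / (√m * b) := by
  have hc := h.cont
  have pt : ∀ s, |∏ j ∈ T, f (a j * s)| ^ m ≤
      ∑ j ∈ T, a j ^ 2 / b ^ 2 * |f (a j * s)| ^ (m * b ^ 2 / a j ^ 2) := fun s => by
    refine le_of_eq_of_le ?_ (Real.geom_mean_le_arith_mean_weighted T _ _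
      (fun j _ => by positivity) (by rw [← Finset.sum_div, hs, div_self (by positivity)])
      fun j _ => by positivity)
    rw [Finset.abs_prod, ← Real.finsetProd_rpow _ _ (fun j _ => abs_nonneg _)]
    refine Finset.prod_congr rfl fun j _ => ?_
    rcases (ha j).eq_or_lt with h0 | h0
    · simp [← h0, h.zero]
    · rw [← Real.rpow_mul (abs_nonneg _)]
      congr 1; field_simp
  have each : ∀ j ∈ T, IntegrableOn
      (fun s => a j ^ 2 / b ^ 2 * |f (a j * s)| ^ (m * b ^ 2 / a j ^ 2)) (Ioi 0) ∧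
      ∫ s in Ioi (0 : ℝ), a j ^ 2 / b ^ 2 * |f (a j * s)| ^ (m * b ^ 2 / a j ^ 2) =
        a j ^ 2 / b ^ 2 * Psi f (m * b ^ 2 / a j ^ 2) / (√m * b) := fun j hj => by
    rcases (ha j).eq_or_lt with h0 | h0
    · simp [← h0]
    · have i := int_abs_rpow hc h.bd h.int_sq (hu j hj h0)
      refine ⟨(int_scale i h0).const_mul _, ?_⟩
      rw [integral_const_mul, integral_scale (fun x => |f x| ^ (m * b ^ 2 / a j ^ 2)) h0, Psi,
        Real.sqrt_div' _ (sq_nonneg _), Real.sqrt_mul hm.le, Real.sqrt_sq hb.le, Real.sqrt_sq h0.le]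
      have : 0 < √m := Real.sqrt_pos.2 hm
      field_simp
  have iS : IntegrableOn (fun s => ∑ j ∈ T,
      a j ^ 2 / b ^ 2 * |f (a j * s)| ^ (m * b ^ 2 / a j ^ 2)) (Ioi 0) :=
    integrable_finsetSum T fun j hj => (each j hj).1
  have c : Continuous fun s => |∏ j ∈ T, f (a j * s)| ^ m :=
    Continuous.rpow_const (by fun_prop) fun _ => Or.inr hm.le
  have i0 : IntegrableOn (fun s => |∏ j ∈ T, f (a j * s)| ^ m) (Ioi 0) :=
    iS.mono' c.aestronglyMeasurable (Eventually.of_forall fun s => by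
      rw [Real.norm_eq_abs, abs_of_nonneg (by positivity)]; exact pt s)
  refine ⟨i0, (integral_mono i0 iS pt).trans_eq ?_⟩
  rw [integral_finsetSum T fun j hj => (each j hj).1, Finset.sum_div]
  exact Finset.sum_congr rfl fun j hj => (each j hj).2

theorem Pk.caseA (h : Pk f κ I) {ι : Type*} (T : Finset ι) (a : ι → ℝ) (ha : ∀ j, 0 ≤ a j)
    (hs : ∑ j ∈ T, a j ^ 2 = 1) (h1 : ∀ j ∈ T, a j ^ 2 ≤ 1 / 2) {k : ι} (hk : k ∈ T)
    (hk0 : 0 < a k) (hk1 : a k ^ 2 < 1 / 2) :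
    ∫ s in Ioi (0 : ℝ), ∏ j ∈ T, f (a j * s) < √2 * I := by
  have hu : ∀ j ∈ T, 0 < a j → 2 ≤ 1 * 1 ^ 2 / a j ^ 2 := fun j hj h0 => by
    rw [le_div_iff₀ (by positivity)]; linarith [h1 j hj]
  obtain ⟨i1, i2⟩ := h.amgm T a ha (b := 1) (m := 1) one_pos one_pos (by simpa using hs) hu
  simp only [Real.rpow_one, one_pow, div_one, Real.sqrt_one, mul_one] at i1 i2 hu
  refine ((le_abs_self _).trans (abs_integral_le_integral_abs.trans i2)).trans_lt ?_
  rw [show √2 * I = ∑ j ∈ T, a j ^ 2 * (√2 * I) by rw [← Finset.sum_mul, hs, one_mul]]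
  refine Finset.sum_lt_sum (fun j hj => ?_) ⟨k, hk, ?_⟩
  · rcases (ha j).eq_or_lt with h0 | h0
    · simp [← h0]
    · exact mul_le_mul_of_nonneg_left (h.psi_le (hu j hj h0)) (sq_nonneg _)
  · refine mul_lt_mul_of_pos_left (h.psi_lt ?_) (by positivity)
    rw [lt_div_iff₀ (by positivity)]; linarith

theorem Pk.rest_sq (h : Pk f κ I) {ι : Type*} (T : Finset ι) (a : ι → ℝ) (ha : ∀ j, 0 ≤ a j)
    {b : ℝ} (hb : 0 < b) (hs : ∑ j ∈ T, a j ^ 2 = b ^ 2) :
    IntegrableOn (fun s => (∏ j ∈ T, f (a j * s)) ^ 2) (Ioi 0) ∧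
    (∫ s in Ioi (0 : ℝ), (∏ j ∈ T, f (a j * s)) ^ 2 ≤ I / b) ∧
    ∀ k ∈ T, 0.55 * b ^ 2 ≤ a k ^ 2 → a k ^ 2 ≤ 0.94 * b ^ 2 →
      ∫ s in Ioi (0 : ℝ), (∏ j ∈ T, f (a j * s)) ^ 2 ≤ (1 - 0.0016) * I / b := by
  classical
  have hu : ∀ j ∈ T, 0 < a j → 2 ≤ 2 * b ^ 2 / a j ^ 2 := fun j hj h0 => by
    rw [le_div_iff₀ (by positivity), ← hs]
    linarith [Finset.single_le_sum (f := fun j => a j ^ 2) (fun j _ => sq_nonneg _) hj]
  obtain ⟨i1, i2⟩ := h.amgm T a ha hb two_pos hs hu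
  simp only [Real.rpow_two, sq_abs] at i1 i2
  have s2 : 0 < √2 := by positivity
  have le1 : ∀ j ∈ T, a j ^ 2 / b ^ 2 * Psi f (2 * b ^ 2 / a j ^ 2) ≤
      a j ^ 2 / b ^ 2 * (√2 * I) := fun j hj => by
    rcases (ha j).eq_or_lt with h0 | h0
    · simp [← h0]
    · exact mul_le_mul_of_nonneg_left (h.psi_le (hu j hj h0)) (by positivity)
  have sum1 : ∑ j ∈ T, a j ^ 2 / b ^ 2 * (√2 * I) = √2 * I := by
    rw [← Finset.sum_mul, ← Finset.sum_div, hs, div_self (by positivity), one_mul]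
  refine ⟨i1, i2.trans ?_, fun k hk h1 h2 => i2.trans ?_⟩
  · rw [← mul_div_mul_left I b s2.ne']
    gcongr
    exact (Finset.sum_le_sum le1).trans_eq sum1
  · have b2 : 0 < b ^ 2 := by positivity
    have a2 : 0 < a k ^ 2 := by linarith
    have g := h.psi_gain (u := 2 * b ^ 2 / a k ^ 2) (by rw [le_div_iff₀ a2]; linarith)
      (by rw [div_le_iff₀ a2]; linarith)
    rw [show 2 / (2 * b ^ 2 / a k ^ 2) = a k ^ 2 / b ^ 2 by field_simp] at g
    rw [← mul_div_mul_left ((1 - 0.0016) * I) b s2.ne']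
    gcongr
    rw [← Finset.add_sum_erase T _ hk] at sum1 ⊢
    have := Finset.sum_le_sum (s := T.erase k) fun j hj => le1 j (Finset.mem_of_mem_erase hj)
    linarith

end Pool.Agent.MP_39fec4_gt.Ball
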