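import Pool.Agent.Mg.F39fec4.G61830f

section

set_option autoImplicit false

namespace Pool.Agent.MP_39fec4_gt.Small

open MeasureTheory Set Filter Topology Real

variable {η s w : ℝ}

namespace S2PsiX

theorem sin_le5 (hw : 0 ≤ w) : Real.sin w ≤ w - w ^ 3 / 6 + w ^ 5 / 120 := by
  have := nonneg_of_deriv (f := fun y => y - y ^ 3 / 6 + y ^ 5 / 120 - Real.sin y)
    (f' := fun y => 1 - y ^ 2 / 2 + y ^ 4 / 24 - Real.cos y) (fun x => by
      have := (((hasDerivAt_id x).sub ((hasDerivAt_pow 3 x).div_const 6)).add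
        ((hasDerivAt_pow 5 x).div_const 120)).sub (Real.hasDerivAt_sin x)
      refine this.congr_deriv ?_
      simp; ring) (by simp) (fun x _ => by linarith [Ball.cos_le_quartic x]) hw
  linarith

theorem phi_le7 (hw : 0 ≤ w) :
    Real.sin w - w * Real.cos w ≤ w * (w ^ 2 / 3 - (w ^ 2) ^ 2 / 30 + (w ^ 2) ^ 3 / 840) := by
  have := nonneg_of_deriv
    (f := fun y => y ^ 3 / 3 - y ^ 5 / 30 + y ^ 7 / 840 - (Real.sin y - y * Real.cos y))
    (f' := fun y => y * (y - y ^ 3 / 6 + y ^ 5 / 120 - Real.sin y)) (fun x => by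
      have := ((((hasDerivAt_pow 3 x).div_const 3).sub ((hasDerivAt_pow 5 x).div_const 30)).add
        ((hasDerivAt_pow 7 x).div_const 840)).sub ((Real.hasDerivAt_sin x).sub
          ((hasDerivAt_id x).mul (Real.hasDerivAt_cos x)))
      refine this.congr_deriv ?_
      simp; ring) (by simp) (fun x hx => mul_nonneg hx.le (by linarith [sin_le5 hx.le])) hw
  linarith

theorem phi_sq (w : ℝ) : (Real.sin w - w * Real.cos w) ^ 2 ≤ 1 + w ^ 2 := by
  have := Real.sin_sq_add_cos_sq w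
  have e : (Real.sin w - w * Real.cos w) ^ 2 + (Real.cos w + w * Real.sin w) ^ 2 = 1 + w ^ 2 := by
    linear_combination (1 + w ^ 2) * this
  nlinarith [sq_nonneg (Real.cos w + w * Real.sin w)]

theorem mid {t : ℝ} (h0 : 0 ≤ t) (h1 : t ≤ 1.11) (h2 : 4.7123 + t ≤ w) (h3 : w ≤ 4.7124 + t) :
    Real.cos t + w * Real.sin t ≤ 0.03 * w ^ 3 := by
  have q : t ^ 2 ≤ 1.2321 := by nlinarith
  have a : Real.cos t ≤ 1 - 0.448 * t ^ 2 := by
    nlinarith [Ball.cos_le_quartic t, mul_le_mul_of_nonneg_left q (sq_nonneg t)]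
  have b : Real.sin t ≤ t - 0.156 * t ^ 3 := by
    nlinarith [sin_le5 h0, mul_le_mul_of_nonneg_left q (pow_nonneg h0 3), pow_nonneg h0 3]
  have b0 : 0 ≤ t - 0.156 * t ^ 3 := by nlinarith [mul_le_mul_of_nonneg_left q h0]
  have c : w * Real.sin t ≤ (4.7124 + t) * (t - 0.156 * t ^ 3) :=
    (mul_le_mul_of_nonneg_left b (by linarith)).trans (mul_le_mul_of_nonneg_right h3 b0)
  have d : (4.7123 + t) ^ 3 ≤ w ^ 3 := pow_le_pow_left₀ (by linarith) h2 3
  have e : 1 - 0.448 * t ^ 2 + (4.7124 + t) * (t - 0.156 * t ^ 3) ≤ 0.03 * (4.7123 + t) ^ 3 := by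
    nlinarith [mul_nonneg h0 (sq_nonneg (t - 1)), sq_nonneg (t ^ 2 - 1), sq_nonneg (t - 1)]
  linarith

/-- Pointwise bounds on `x ^ 2 (1 - z) ^ 2` and on `x ^ 2`. -/
theorem pw {x θ : ℝ} (h0 : 0 < η) (h1 : η ≤ 0.4) (hθ : θ = η / (2 + η)) (hx : 0 < x) :
    x ^ 2 * (1 - x ^ η) ^ 2 ≤ θ ^ 2 * (x ^ (2 + η) - 1) ^ 2 ∧
    x ^ 2 ≤ (1 + 1.56 * θ) * ((1 - θ) * x ^ (2 + η) + θ / 4) := by
  have t0 : 0 < θ := by rw [hθ]; positivity
  have t1 : 6 * θ ≤ 1 := by
    rw [hθ, ← mul_div_assoc, div_le_one (by positivity)]; linarith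
  have y0 := Real.rpow_pos_of_pos hx (2 + η)
  have z0 := Real.rpow_pos_of_pos hx η
  have ez : x ^ η = (x ^ (2 + η)) ^ θ := by
    rw [← Real.rpow_mul hx.le, hθ]; congr 1; field_simp
  have ey : x ^ (2 + η) = x ^ 2 * x ^ η := by rw [Real.rpow_add hx, Real.rpow_two]
  generalize x ^ (2 + η) = y at *
  generalize x ^ η = z at *
  constructor
  · have := one_sub_rpow_sq_le t0.le (by linarith) y0
    rw [← ez] at this
    refine le_of_mul_le_mul_left ?_ z0
    calc z * (x ^ 2 * (1 - z) ^ 2) = y * (1 - z) ^ 2 := by rw [ey]; ring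
      _ ≤ _ := this
      _ = _ := by ring
  · have inv : 1 ≤ z * (4 ^ θ * (1 + θ * ((4 * y)⁻¹ - 1))) := by
      have := rpow_le_lin t0.le (by linarith) (inv_pos.2 (mul_pos four_pos y0)).le
      have e : z * (4 ^ θ * (4 * y)⁻¹ ^ θ) = 1 := by
        rw [ez, Real.inv_rpow (by positivity), Real.mul_rpow four_pos.le y0.le]
        have := Real.rpow_pos_of_pos four_pos θ
        have := Real.rpow_pos_of_pos y0 θ
        field_simp
      have := Real.rpow_pos_of_pos four_pos θ
      refine e.ge.trans ?_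
      gcongr
    have := mul_le_mul_of_nonneg_left inv (sq_nonneg x)
    have e : x ^ 2 * (z * (4 ^ θ * (1 + θ * ((4 * y)⁻¹ - 1)))) =
        4 ^ θ * ((1 - θ) * y + θ / 4) := by
      rw [← mul_assoc, ← ey]; field_simp; ring
    have f : (4 : ℝ) ^ θ ≤ 1 + 1.56 * θ := by
      have a : (4 : ℝ) ^ θ ≤ ((1.26 : ℝ) ^ (6 : ℕ)) ^ θ :=
        Real.rpow_le_rpow (by norm_num) (by norm_num) t0.le
      rw [← Real.rpow_natCast_mul (by norm_num)] at a
      have b := rpow_le_lin (θ := 6 * θ) (y := 1.26) (by positivity) t1 (by norm_num)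
      push_cast at a
      linarith
    have g : 0 ≤ (1 - θ) * y + θ / 4 := by
      have : 0 ≤ 1 - θ := by linarith
      positivity
    rw [e, mul_one] at this
    exact this.trans (mul_le_mul_of_nonneg_right f g)

theorem core (h0 : 0 < η) (h1 : η ≤ 0.4) (hs : 0 ≤ s) {e a b : ℝ} (ha : 0 ≤ a) (hb : 0 ≤ b)
    (h : ∀ w : ℝ, 0 ≤ w → e * (Real.sin w - w * Real.cos w) ≤ a * w + b * w ^ 3) :
    e * Psi η s ≤
      (a * s * (0.172 - 0.12 * η) + b * s ^ 3 * (0.028 + 0.008 * η)) * (η ^ 2 * m0 η) := by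
  have i := fun r (hr : -1 < r) => int_Wr h0 hr
  have i1 := i 1 (by norm_num)
  have i2 := i (1 + η) (by linarith)
  have i3 := i (1 + 2 * η) (by linarith)
  have j1 := i 2 (by norm_num)
  have j2 := i (2 + η) (by linarith)
  have j3 := i (2 + 2 * η) (by linarith)
  have hk := int_lin3 i1 i2 i3 1 (-2) 1
  have hl := int_lin3 j1 j2 j3 1 (-2) 1
  obtain ⟨θ, hθ⟩ : ∃ θ, θ = η / (2 + η) := ⟨_, rfl⟩
  have t0 : 0 < θ := by rw [hθ]; positivity
  obtain ⟨A, hA⟩ : ∃ A, A = a * s * θ ^ 2 := ⟨_, rfl⟩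
  obtain ⟨B, hB⟩ : ∃ B, B = b * s ^ 3 * (θ ^ 2 * (1 + 1.56 * θ)) := ⟨_, rfl⟩
  obtain ⟨m1, m2⟩ := mom3 h0 (A + B * (θ / 4)) (-2 * A + B * (1 - θ - θ / 2))
    (A + B * (θ / 4 - 2 * (1 - θ))) (B * (1 - θ))
  have e1 : Psi η s = sinT (fun x => 1 * Wr η 1 x + (-2) * Wr η (1 + η) x +
      1 * Wr η (1 + 2 * η) x) s - s * cosT (fun x => 1 * Wr η 2 x + (-2) * Wr η (2 + η) x +
      1 * Wr η (2 + 2 * η) x) s := by
    rw [sinT_lin3 i1 i2 i3, cosT_lin3 j1 j2 j3]; unfold Psi Sr Cr; ring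
  rw [e1]
  unfold cosT sinT
  rw [← integral_const_mul, ← integral_sub (int_sin hk s) ((int_cos hl s).const_mul s),
    ← integral_const_mul]
  refine (setIntegral_mono_on (((int_sin hk s).sub ((int_cos hl s).const_mul s)).const_mul e) m1
    measurableSet_Ioi fun x hx => ?_).trans ?_
  · have hx : 0 < x := hx
    obtain ⟨p1, p2⟩ := pw h0 h1 hθ hx
    have k0 := kr_pos η x
    have hw := h (s * x) (by positivity)
    simp only [Pi.sub_apply]
    rw [Wr_add 1 η hx, Wr_add 1 (2 * η) hx, Wr_add 2 η hx, Wr_add 2 (2 * η) hx,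
      rpow_two_mul η hx, W_one, W_two]
    generalize x ^ (2 + η) = y at *
    generalize x ^ η = z at *
    have c1 : x ^ 2 * (x ^ 2 * (1 - z) ^ 2) ≤
        (1 + 1.56 * θ) * ((1 - θ) * y + θ / 4) * (θ ^ 2 * (y - 1) ^ 2) :=
      mul_le_mul p2 p1 (by positivity) ((sq_nonneg x).trans p2)
    have c2 := mul_le_mul_of_nonneg_left hw (by positivity : 0 ≤ x * (1 - z) ^ 2)
    have c3 := mul_le_mul_of_nonneg_left p1 (by positivity : 0 ≤ a * s)
    have c4 := mul_le_mul_of_nonneg_left c1 (by positivity : 0 ≤ b * s ^ 3)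
    have c5 : x * (1 - z) ^ 2 * (e * (Real.sin (s * x) - s * x * Real.cos (s * x))) ≤
        A + B * (θ / 4) + (-2 * A + B * (1 - θ - θ / 2)) * y +
          (A + B * (θ / 4 - 2 * (1 - θ))) * y ^ 2 + B * (1 - θ) * y ^ 3 := by
      rw [hA, hB]; linarith
    refine le_trans (le_of_eq ?_) (mul_le_mul_of_nonneg_left c5 k0.le)
    ring
  · rw [m2]
    have m := m0_pos h0
    have p0 : 0 < 2 + η := by linarith
    have e2 : A + B * (θ / 4) + (-2 * A + B * (1 - θ - θ / 2)) / 4 +
        (A + B * (θ / 4 - 2 * (1 - θ))) * (3 + η) / 16 +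
        B * (1 - θ) * ((3 + η) * (5 + 2 * η)) / 64 =
        η ^ 2 * (a * s * ((11 + η) / 16 / (2 + η) ^ 2) +
          b * s ^ 3 * ((2 + 2.56 * η) * (7 + 5 * η) / 64 / (2 + η) ^ 3)) := by
      rw [hA, hB, hθ]; field_simp; ring
    have f1 : (11 + η) / 16 / (2 + η) ^ 2 ≤ 0.172 - 0.12 * η := by
      rw [div_le_iff₀ (by positivity)]
      nlinarith [mul_nonneg h0.le (sub_nonneg.2 h1), mul_nonneg (sq_nonneg η) (sub_nonneg.2 h1)]
    have f2 : (2 + 2.56 * η) * (7 + 5 * η) / 64 / (2 + η) ^ 3 ≤ 0.028 + 0.008 * η := by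
      rw [div_le_iff₀ (by positivity)]
      nlinarith [sq_nonneg (η - 0.283), pow_pos h0 3, pow_pos h0 4]
    rw [e2]
    calc m0 η * (η ^ 2 * (a * s * ((11 + η) / 16 / (2 + η) ^ 2) +
          b * s ^ 3 * ((2 + 2.56 * η) * (7 + 5 * η) / 64 / (2 + η) ^ 3)))
        ≤ m0 η * (η ^ 2 * (a * s * (0.172 - 0.12 * η) + b * s ^ 3 * (0.028 + 0.008 * η))) := by
          gcongr
      _ = _ := by ring

end S2PsiX

open S2PsiX

theorem phi_lo (hw : 0 ≤ w) : -(0.03 * w ^ 3) ≤ Real.sin w - w * Real.cos w := by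
  have p1 := Real.pi_gt_d4
  have p2 := Real.pi_lt_d4
  have w3 := pow_nonneg hw 3
  rcases le_total w 2 with a | a
  · have q : w ^ 2 ≤ 4 := by nlinarith
    nlinarith [Real.sin_ge_sub_cube hw, mul_le_mul_of_nonneg_left (Ball.cos_le_quartic w) hw,
      mul_le_mul_of_nonneg_left q w3]
  rcases le_total w (π + π / 2) with b | b
  · have c := mul_nonpos_of_nonneg_of_nonpos hw
      (Real.cos_nonpos_of_pi_div_two_le_of_le (x := w) (by linarith) b)
    rcases le_total w π with d | d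
    · linarith [Real.sin_nonneg_of_nonneg_of_le_pi hw d]
    rcases le_total w 3.22 with f | f
    · have g := Real.sin_le (x := w - π) (by linarith)
      rw [Real.sin_sub_pi] at g
      have : (2 : ℝ) ^ 3 ≤ w ^ 3 := pow_le_pow_left₀ (by norm_num) a 3
      linarith
    · have : (3.22 : ℝ) ^ 3 ≤ w ^ 3 := pow_le_pow_left₀ (by norm_num) f 3
      linarith [Real.neg_one_le_sin w]
  rcases le_total w 5.82 with c | c
  · have q1 := Real.pi_gt_d6
    have q2 := Real.pi_lt_d6
    have := mid (w := w) (t := w - (π + π / 2)) (by linarith) (by linarith) (by linarith)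
      (by linarith)
    rw [← sub_sub, Real.cos_sub_pi_div_two, Real.sin_sub_pi_div_two, Real.sin_sub_pi,
      Real.cos_sub_pi] at this
    linarith
  · have q : (5.82 : ℝ) ^ 2 ≤ w ^ 2 := pow_le_pow_left₀ (by norm_num) c 2
    have r : 1 + w ^ 2 ≤ (0.03 * w ^ 3) ^ 2 := by
      have e : (0.03 * w ^ 3) ^ 2 = 0.0009 * (w ^ 2) ^ 3 := by ring
      rw [e]
      generalize w ^ 2 = u at q
      have q' : 0 ≤ u - 33.87 := by norm_num at q; linarith
      nlinarith [pow_nonneg q' 2, pow_nonneg q' 3]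
    exact neg_le_of_abs_le (abs_le_of_sq_le_sq ((phi_sq w).trans r) (by positivity))

theorem phi_lin (hw : 0 ≤ w) : Real.sin w - w * Real.cos w ≤ 1.08 * w + 0 * w ^ 3 := by
  rw [zero_mul, add_zero]
  rcases le_total (w ^ 2) 6.05 with a | a
  · refine (phi_le7 hw).trans ?_
    rw [mul_comm 1.08]
    refine mul_le_mul_of_nonneg_left ?_ hw
    have := sq_nonneg w
    generalize w ^ 2 = u at *
    nlinarith [mul_nonneg (sub_nonneg.2 a) (sq_nonneg (u - 11)), sub_nonneg.2 a]
  · exact le_of_abs_le (abs_le_of_sq_le_sq ((phi_sq w).trans (by nlinarith)) (by positivity))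

theorem phi_mix (hw : 0 ≤ w) : Real.sin w - w * Real.cos w ≤ 0.49 * w + 0.1 * w ^ 3 := by
  rcases le_total (w ^ 2) 5.9 with a | a
  · refine (phi_le7 hw).trans ?_
    rw [show 0.49 * w + 0.1 * w ^ 3 = w * (0.49 + 0.1 * w ^ 2) by ring]
    refine mul_le_mul_of_nonneg_left ?_ hw
    have := sq_nonneg w
    generalize w ^ 2 = u at *
    nlinarith [mul_nonneg (sub_nonneg.2 a) (sq_nonneg (u - 14 / 3)), sq_nonneg (u - 14 / 3)]
  · nlinarith [phi_lin hw, mul_le_mul_of_nonneg_left a hw]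

theorem Psi_lo (h0 : 0 < η) (h1 : η ≤ 0.4) (hs : 0 ≤ s) :
    -(0.03 * s ^ 3 * (0.028 + 0.008 * η) * (η ^ 2 * m0 η)) ≤ Psi η s := by
  have := core h0 h1 hs (e := -1) (a := 0) (b := 0.03) le_rfl (by norm_num)
    fun w hw => by linarith [phi_lo hw]
  linarith

theorem Psi_hi (h0 : 0 < η) (h1 : η ≤ 0.4) (hs : 0 ≤ s) {a b : ℝ} (ha : 0 ≤ a) (hb : 0 ≤ b)
    (h : ∀ w : ℝ, 0 ≤ w → Real.sin w - w * Real.cos w ≤ a * w + b * w ^ 3) :
    Psi η s ≤ (a * s * (0.172 - 0.12 * η) + b * s ^ 3 * (0.028 + 0.008 * η)) * (η ^ 2 * m0 η) := by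
  have := core h0 h1 hs (e := 1) ha hb fun w hw => by linarith [h w hw]
  linarith

end Pool.Agent.MP_39fec4_gt.Small

end

section

set_option autoImplicit false

namespace Pool.Agent.MP_39fec4_gt.Small

open MeasureTheory Set Filter Topology Real

variable {η : ℝ}

namespace S2D0X

variable {r : ℝ}

/-- Moments of the kernel. -/
noncomputable def I (η r : ℝ) : ℝ := ∫ x in Ioi (0 : ℝ), Wr η r x

theorem I_pos (h0 : 0 < η) (hr : -1 < r) : 0 < I η r := by
  refine (setIntegral_pos_iff_support_of_nonneg_ae ((ae_restrict_iff' measurableSet_Ioi).2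
    (Eventually.of_forall fun x hx => (Wr_pos η r hx).le)) (int_Wr h0 hr)).2 ?_
  have : Ioi 0 ⊆ Function.support (Wr η r) := fun x hx => (Wr_pos η r hx).ne'
  rw [inter_eq_right.2 this]
  simp

theorem I_rec (h0 : 0 < η) (hr : 0 ≤ r) : I η (r + (2 + η)) = (r + 1) / 4 * I η r := by
  have := P2 h0 (r := r + 1) (by linarith) (a := r) (b := r + (2 + η)) (by ring) (by ring) 0
  simp only [Cr, cosT_zero, zero_mul] at this
  unfold I; linarith

theorem W_eq (h0 : 0 < η) {c x : ℝ} (hc : 0 < c) (hx : 0 < x) : c ^ (η / (2 + η)) * Wr η (r + 2) x =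
    (c / x ^ (2 + η)) ^ (η / (2 + η)) * Wr η (r + (2 + η)) x := by
  rw [Real.div_rpow hc.le (Real.rpow_nonneg hx.le _), ← Real.rpow_mul hx.le,
    mul_div_cancel₀ _ (by positivity), ← add_assoc, Wr_add (r + 2) η hx]
  have := Real.rpow_pos_of_pos hx η
  field_simp

theorem I_up (h0 : 0 < η) (hr : 0 ≤ r) : η * Real.log ((r + 1) / 4) +
    (2 + η) * (Real.log (I η (r + 2)) - Real.log (I η (r + (2 + η)))) ≤ 0 := by
  have hc : 0 < (r + 1) / 4 := by positivity
  have t0 : 0 ≤ η / (2 + η) := by positivity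
  have t1 : η / (2 + η) ≤ 1 := by rw [div_le_one (by positivity)]; linarith
  have e := I_rec h0 hr
  have i0 := int_Wr h0 (r := r) (by linarith)
  have i1 := int_Wr h0 (r := r + (2 + η)) (by linarith)
  generalize (r + 1) / 4 = c at hc e ⊢
  have a := setIntegral_mono_on ((int_Wr h0 (r := r + 2) (by linarith)).const_mul
    (c ^ (η / (2 + η)))) ((i1.const_mul (1 - η / (2 + η))).add (i0.const_mul (η / (2 + η) * c)))
    measurableSet_Ioi fun x hx => by
      have y0 := Real.rpow_pos_of_pos (show 0 < x from hx) (2 + η)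
      rw [W_eq h0 hc hx]
      refine (mul_le_mul_of_nonneg_right (rpow_le_lin t0 t1 (by positivity))
        (Wr_pos _ _ hx).le).trans (le_of_eq ?_)
      rw [Pi.add_apply, Wr_add _ _ hx]
      field_simp; ring
  rw [integral_add' (i1.const_mul _) (i0.const_mul _)] at a
  simp only [integral_const_mul] at a
  have b : c ^ (η / (2 + η)) * I η (r + 2) ≤ I η (r + (2 + η)) := by
    unfold I at e ⊢; rw [e] at a ⊢; linarith
  have p := I_pos h0 (r := r + 2) (by linarith)
  have := Real.log_le_log (by positivity) b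
  rw [Real.log_mul (by positivity) p.ne', Real.log_rpow hc] at this
  have := mul_le_mul_of_nonneg_left this (by positivity : 0 ≤ 2 + η)
  rw [mul_add, ← mul_assoc, mul_div_cancel₀ _ (by positivity)] at this
  linarith

theorem I_lo (h0 : 0 < η) (hr : 0 ≤ r) : 0 ≤ η * Real.log ((r + (2 + η) + 1) / 4) +
    (2 + η) * (Real.log (I η (r + 2)) - Real.log (I η (r + (2 + η)))) := by
  have hc : 0 < (r + (2 + η) + 1) / 4 := by positivity
  have t0 : 0 ≤ η / (2 + η) := by positivity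
  have e := I_rec h0 (r := r + (2 + η)) (by positivity)
  have i0 := int_Wr h0 (r := r + (2 + η) + (2 + η)) (by linarith)
  have i1 := int_Wr h0 (r := r + (2 + η)) (by linarith)
  generalize (r + (2 + η) + 1) / 4 = c at hc e ⊢
  have a := setIntegral_mono_on ((i1.const_mul (1 + η / (2 + η))).add
    (i0.const_mul (-(η / (2 + η) / c)))) ((int_Wr h0 (r := r + 2) (by linarith)).const_mul
    (c ^ (η / (2 + η)))) measurableSet_Ioi fun x hx => by
      have y0 := Real.rpow_pos_of_pos (show 0 < x from hx) (2 + η)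
      have q : 0 < c / x ^ (2 + η) := by positivity
      have l : 1 + η / (2 + η) * (1 - (c / x ^ (2 + η))⁻¹) ≤ (c / x ^ (2 + η)) ^ (η / (2 + η)) := by
        rw [Real.rpow_def_of_pos q]
        have := mul_le_mul_of_nonneg_left (Real.one_sub_inv_le_log_of_pos q) t0
        linarith [Real.add_one_le_exp (Real.log (c / x ^ (2 + η)) * (η / (2 + η)))]
      rw [W_eq h0 hc hx]
      refine le_trans (le_of_eq ?_) (mul_le_mul_of_nonneg_right l (Wr_pos _ _ hx).le)
      rw [Pi.add_apply, Wr_add (r + (2 + η)) _ hx]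
      field_simp; ring
  rw [integral_add' (i1.const_mul _) (i0.const_mul _)] at a
  simp only [integral_const_mul] at a
  have b : I η (r + (2 + η)) ≤ c ^ (η / (2 + η)) * I η (r + 2) := by
    unfold I at e ⊢; rw [e] at a
    refine le_trans (le_of_eq ?_) a
    field_simp; ring
  have p := I_pos h0 (r := r + 2) (by linarith)
  have := Real.log_le_log (I_pos h0 (by linarith)) b
  rw [Real.log_mul (by positivity) p.ne', Real.log_rpow hc] at this
  have := mul_le_mul_of_nonneg_left this (by positivity : 0 ≤ 2 + η)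
  rw [mul_add, ← mul_assoc, mul_div_cancel₀ _ (by positivity)] at this
  linarith

theorem tele (h0 : 0 < η) (n : ℕ) : Real.log (4 * I η 2 / m0 η) =
    Real.log (I η (n * (2 + η) + 2)) - Real.log (I η (n * (2 + η) + (2 + η))) +
      ∑ j ∈ Finset.range n, Real.log (1 + η / (3 + j * (2 + η))) := by
  induction n with
  | zero =>
    have e : I η 0 = m0 η := by rw [I, Wr_zero, m0]
    have := m0_pos h0
    have := I_pos h0 (r := 2) (by norm_num)
    rw [Nat.cast_zero, zero_mul, I_rec h0 le_rfl, e, zero_add, Finset.sum_range_zero, add_zero,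
      ← Real.log_div (by positivity) (by positivity)]
    congr 1; field_simp; ring
  | succ n ih =>
    have p1 := I_pos h0 (r := n * (2 + η) + 2) (by have : 0 ≤ n * (2 + η) := by positivity
                                                   linarith)
    have p2 := I_pos h0 (r := n * (2 + η) + (2 + η)) (by have : 0 ≤ n * (2 + η) := by positivity
                                                         linarith)
    rw [ih, Finset.sum_range_succ, Nat.cast_succ,
      show (n + 1) * (2 + η) + 2 = n * (2 + η) + 2 + (2 + η) by ring,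
      show (n + 1) * (2 + η) = n * (2 + η) + (2 + η) by ring, I_rec h0 (r := n * (2 + η) + 2)
      (by positivity), I_rec h0 (r := n * (2 + η) + (2 + η)) (by positivity),
      Real.log_mul (by positivity) p1.ne', Real.log_mul (by positivity) p2.ne',
      show 1 + η / (3 + n * (2 + η)) = ((n * (2 + η) + (2 + η) + 1) / 4) /
        ((n * (2 + η) + 2 + 1) / 4) by field_simp; ring,
      Real.log_div (x := (n * (2 + η) + (2 + η) + 1) / 4) (by positivity) (by positivity)]
    ring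

theorem log_up {y : ℝ} (hy : 1 ≤ y) : Real.log y ≤ (y - y⁻¹) / 2 := by
  have := Real.self_le_sinh_iff.2 (Real.log_nonneg hy)
  rwa [Real.sinh_log (by linarith)] at this

theorem up (h0 : 0 < η) {A B : ℝ} (hA : 0 < A) (hB : 0 ≤ B) (h : 2 * B ≤ A) :
    (2 + η) / (A + B * η) ≤
      2.2 / (A + 0.2 * B) + (A - 2 * B) / (A + 0.2 * B) ^ 2 * (η - 0.2) := by
  have e : 2.2 / (A + 0.2 * B) + (A - 2 * B) / (A + 0.2 * B) ^ 2 * (η - 0.2) -
      (2 + η) / (A + B * η) =
      (A - 2 * B) * B * (η - 0.2) ^ 2 / ((A + 0.2 * B) ^ 2 * (A + B * η)) := by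
    field_simp; ring
  have : 0 ≤ A - 2 * B := by linarith
  rw [← sub_nonneg, e]; positivity

theorem lo (h0 : 0 < η) (h1 : η ≤ 0.4) {A B : ℝ} (hA : 0 < A) (hB : 0 ≤ B) (h : 2 * B ≤ A) :
    2 / A + (A - 2 * B) / (A * (A + 0.4 * B)) * η ≤ (2 + η) / (A + B * η) := by
  have e : (2 + η) / (A + B * η) - (2 / A + (A - 2 * B) / (A * (A + 0.4 * B)) * η) =
      (A - 2 * B) * B * η * (0.4 - η) / (A * (A + 0.4 * B) * (A + B * η)) := by
    field_simp; ring
  have : 0 ≤ A - 2 * B := by linarith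
  have : 0 ≤ 0.4 - η := by linarith
  rw [← sub_nonneg, e]; positivity

theorem sum_up (h0 : 0 < η) : (2 + η) * ∑ j ∈ Finset.range 16,
    Real.log (1 + η / (3 + j * (2 + η))) ≤ η * (2.8001 + 0.4055 * η) := by
  have a : ∀ j ∈ Finset.range 16, (2 + η) * Real.log (1 + η / (3 + j * (2 + η))) ≤
      η * ((2.2 / (3 + 2 * j + 0.2 * j) + 3 / (3 + 2 * j + 0.2 * j) ^ 2 * (η - 0.2) +
      (2.2 / (3 + 2 * j + 0.2 * (j + 1)) + 1 / (3 + 2 * j + 0.2 * (j + 1)) ^ 2 * (η - 0.2))) / 2) :=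
    fun j _ => by
    have j0 : (0 : ℝ) ≤ j := j.cast_nonneg
    have u1 := up h0 (A := 3 + 2 * j) (B := j) (by positivity) j0 (by linarith)
    have u2 := up h0 (A := 3 + 2 * j) (B := j + 1) (by positivity) (by positivity) (by linarith)
    rw [show (3 : ℝ) + 2 * j - 2 * j = 3 by ring] at u1
    rw [show (3 : ℝ) + 2 * j - 2 * (j + 1) = 1 by ring] at u2
    refine (mul_le_mul_of_nonneg_left (log_up (le_add_of_nonneg_right (by positivity)))
      (by positivity)).trans (le_trans (le_of_eq ?_) (mul_le_mul_of_nonneg_left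
        (div_le_div_of_nonneg_right (add_le_add u1 u2) (by norm_num)) h0.le))
    field_simp; ring
  rw [Finset.mul_sum]
  refine (Finset.sum_le_sum a).trans ?_
  rw [← Finset.mul_sum]
  refine mul_le_mul_of_nonneg_left ?_ h0.le
  simp only [Finset.sum_range_succ, Finset.sum_range_zero]
  norm_num
  linarith

theorem sum_lo (h0 : 0 < η) (h1 : η ≤ 0.4) : η * (2.7968 + 0.3966 * η) ≤
    (2 + η) * ∑ j ∈ Finset.range 16, Real.log (1 + η / (3 + j * (2 + η))) := by
  have a : ∀ j ∈ Finset.range 16, η * (2 / (3 + 2 * j) +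
      2 / ((3 + 2 * j) * (3 + 2 * j + 0.4 * (j + 1 / 2))) * η) ≤
      (2 + η) * Real.log (1 + η / (3 + j * (2 + η))) := fun j _ => by
    have j0 : (0 : ℝ) ≤ j := j.cast_nonneg
    have u := lo h0 h1 (A := 3 + 2 * j) (B := j + 1 / 2) (by positivity) (by positivity)
      (by linarith)
    rw [show (3 : ℝ) + 2 * j - 2 * (j + 1 / 2) = 2 by ring] at u
    refine (mul_le_mul_of_nonneg_left u h0.le).trans (le_trans (le_of_eq ?_)
      (mul_le_mul_of_nonneg_left (Real.le_log_one_add_of_nonneg (by positivity)) (by positivity)))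
    field_simp; ring
  rw [Finset.mul_sum]
  refine le_trans ?_ (Finset.sum_le_sum a)
  rw [← Finset.mul_sum]
  refine mul_le_mul_of_nonneg_left ?_ h0.le
  simp only [Finset.sum_range_succ, Finset.sum_range_zero]
  norm_num
  linarith

theorem log8 {c y : ℝ} (hy : 0 < y) (h : c = 8 * y) : Real.log c = 3 * Real.log 2 + Real.log y := by
  rw [h, Real.log_mul (by norm_num) hy.ne', show (8 : ℝ) = 2 ^ 3 by norm_num, Real.log_pow]
  norm_num

end S2D0X

open S2D0X

theorem Sn_zero2 (h0 : 0 < η) (h1 : η ≤ 0.4) :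
    (1 + (0.29 - 0.11 * η) * η) * m0 η ≤ 4 * Sn η 0 ∧
      4 * Sn η 0 ≤ (1 + (0.365 - 0.125 * η) * η) * m0 η := by
  have m := m0_pos h0
  have p := I_pos h0 (r := 2) (by norm_num)
  have e : Sn η 0 = I η 2 := by simp [Sn, I]
  have t := tele h0 16
  have l2 := Real.log_two_lt_d9
  have l3 := Real.log_two_gt_d9
  have a0 : 0 ≤ (0.29 - 0.11 * η) * η := mul_nonneg (by linarith) h0.le
  have b0 : 0 ≤ (0.365 - 0.125 * η) * η := mul_nonneg (by linarith) h0.le
  rw [e, ← le_div_iff₀ m, ← div_le_iff₀ m, ← Real.log_le_log_iff (by linarith) (by positivity),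
    ← Real.log_le_log_iff (x := 4 * I η 2 / m0 η) (by positivity) (by linarith)]
  constructor
  · have a := I_lo h0 (r := (16 : ℕ) * (2 + η)) (by positivity)
    have b := sum_lo h0 h1
    have y1 : 1 ≤ (35 + 17 * η) / 32 := by linarith
    rw [log8 (y := (35 + 17 * η) / 32) (by positivity) (by push_cast; ring)] at a
    have c := log_up y1
    have d : 1.6 - 0.64 * ((35 + 17 * η) / 32) ≤ ((35 + 17 * η) / 32)⁻¹ := by
      rw [inv_eq_one_div, le_div_iff₀ (by positivity)]
      nlinarith [sq_nonneg (0.8 * ((35 + 17 * η) / 32) - 1)]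
    have f := Real.log_le_sub_one_of_pos (x := 1 + (0.29 - 0.11 * η) * η) (by linarith)
    have g : η * (3 * Real.log 2 + Real.log ((35 + 17 * η) / 32)) ≤ η * (2.1764 + 0.4357 * η) :=
      mul_le_mul_of_nonneg_left (by linarith) h0.le
    refine le_of_mul_le_mul_left ?_ (by positivity : 0 < 2 + η)
    have k : (2 + η) * (0.29 - 0.11 * η) ≤ 0.6204 - 0.0391 * η := by nlinarith
    have := mul_le_mul_of_nonneg_left f (by positivity : 0 ≤ 2 + η)
    have := mul_le_mul_of_nonneg_left k h0.le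
    rw [t]; linarith
  · have a := I_up h0 (r := (16 : ℕ) * (2 + η)) (by positivity)
    have b := sum_up h0
    rw [log8 (y := 1 + (1 + 16 * η) / 32) (by positivity) (by push_cast; ring)] at a
    have c := Real.le_log_one_add_of_nonneg (x := (1 + 16 * η) / 32) (by positivity)
    have d : 0.0307 + 0.4412 * η ≤ 2 * ((1 + 16 * η) / 32) / ((1 + 16 * η) / 32 + 2) := by
      rw [le_div_iff₀ (by positivity)]; nlinarith
    have g : η * (2.1101 + 0.4412 * η) ≤ η * (3 * Real.log 2 + Real.log (1 + (1 + 16 * η) / 32)) :=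
      mul_le_mul_of_nonneg_left (by linarith) h0.le
    have f := Real.le_log_one_add_of_nonneg b0
    have k : η * (0.69 - 0.0357 * η) / (2 + η) ≤ 2 * ((0.365 - 0.125 * η) * η) /
        ((0.365 - 0.125 * η) * η + 2) := by
      rw [div_le_div_iff₀ (by positivity) (by positivity)]
      have : (0.69 - 0.0357 * η) * ((0.365 - 0.125 * η) * η + 2) ≤
        2 * (0.365 - 0.125 * η) * (2 + η) := by nlinarith
      nlinarith [mul_le_mul_of_nonneg_left this h0.le]
    refine le_trans ?_ (k.trans f)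
    rw [le_div_iff₀ (by positivity), t]; linarith

theorem S1_le (h0 : 0 < η) (h1 : η ≤ 0.4) (s : ℝ) : |Sr η 1 s| ≤ 0.56 * m0 η := by
  have i2 := int_Wr h0 (r := 2) (by norm_num)
  have := abs_sinT_le (k := Wr η 1) ((i2.const_mul (10 / 11)).add ((int_kr h0).const_mul 0.275))
    (fun x hx => by
      rw [abs_of_pos (Wr_pos _ _ hx), Pi.add_apply, W_one, W_two]
      nlinarith [mul_nonneg (kr_pos η x).le (sq_nonneg (x - 0.55))]) s
  rw [integral_add' (i2.const_mul _) ((int_kr h0).const_mul _), integral_const_mul,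
    integral_const_mul, ← m0] at this
  have b := (Sn_zero2 h0 h1).2
  have e : Sn η 0 = ∫ x in Ioi (0 : ℝ), Wr η 2 x := by simp [Sn]
  have m := m0_pos h0
  have : (1 + (0.365 - 0.125 * η) * η) * m0 η ≤ 1.146 * m0 η := by gcongr; nlinarith
  rw [Sr]; linarith

end Pool.Agent.MP_39fec4_gt.Small

end
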