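import Pool.Agent.Mg.F39fec4.G61830f
import Pool.Agent.Mg.F39fec4.G63ffc2
import Pool.Agent.Mg.F39fec4.G9db4fb
import Pool.Agent.Mg.F39fec4.G939844

section

set_option autoImplicit false

namespace Pool.Agent.MP_39fec4_gt.Small

open MeasureTheory Set Filter Topology Real

variable {η : ℝ}

namespace S2BigX

theorem four_rpow_le {θ : ℝ} (h0 : 0 < η) (h1 : η ≤ 0.4) (ht : η / 2.4 ≤ θ) :
    ((4 : ℝ) ^ θ)⁻¹ ≤ 1 - 0.51 * η := by
  have l2 := Real.log_two_gt_d9
  have l4 : Real.log 4 = 2 * Real.log 2 := by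
    rw [show (4 : ℝ) = 2 ^ 2 by norm_num, Real.log_pow]; norm_num
  have w : 0.5775 * η ≤ Real.log 4 * θ := by
    rw [l4]
    have t0 : 0 ≤ θ := le_trans (by positivity) ht
    have := mul_le_mul_of_nonneg_right l2.le t0
    rw [div_le_iff₀ (by norm_num)] at ht
    linarith
  have q := Real.quadratic_le_exp_of_nonneg (x := 0.5775 * η) (by positivity)
  have q2 := q.trans (Real.exp_le_exp.2 w)
  rw [← Real.rpow_def_of_pos (by norm_num)] at q2
  have p4 : (0 : ℝ) < 4 ^ θ := Real.rpow_pos_of_pos (by norm_num) θ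
  rw [inv_le_iff_one_le_mul₀ p4]
  have a : 0 ≤ 1 - 0.51 * η := by linarith
  refine le_trans ?_ (mul_le_mul_of_nonneg_left q2 a)
  nlinarith [mul_nonneg h0.le (sub_nonneg.2 h1), mul_nonneg (sq_nonneg η) (sub_nonneg.2 h1)]

theorem tangent {θ y : ℝ} (t0 : 0 ≤ θ) (t1 : θ ≤ 1) (y0 : 0 < y) :
    y ^ θ ≤ ((4 : ℝ) ^ θ)⁻¹ * (1 + θ * (4 * y - 1)) := by
  have p4 : (0 : ℝ) < 4 ^ θ := Real.rpow_pos_of_pos (by norm_num) θ
  have := rpow_le_lin t0 t1 (y := 4 * y) (by positivity)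
  rw [Real.mul_rpow (by norm_num) y0.le] at this
  rw [le_inv_mul_iff₀ p4]
  exact this

theorem quad {y z : ℝ} (h0 : 0 < η) (y0 : 0 < y) (z0 : 0 < z) :
    -(1 * (1 * (1 * (1 + 2) - 4 * (2 * 1 + 4 + η) * y + 16 * y ^ 2)) +
      -2 * (z * ((1 + η) * (1 + η + 2) - 4 * (2 * (1 + η) + 4 + η) * y + 16 * y ^ 2)) +
      1 * (z ^ 2 * ((1 + 2 * η) * (1 + 2 * η + 2) - 4 * (2 * (1 + 2 * η) + 4 + η) * y +
        16 * y ^ 2))) ≤
      ((4 + η) ^ 2 / 3 - 2) * (η ^ 2 * z ^ 2) + (24 + 4 * η) * (y * (1 - z) ^ 2) := by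
  have c3 : -(3 * (1 - z) ^ 2) - (4 * y * (1 - z)) ^ 2 + (8 + 2 * η) * (η * z * (1 - z)) -
      4 * (η * z) * (4 * y * (1 - z)) ≤ (4 + η) ^ 2 / 3 * (η * z) ^ 2 := by
    have C0 : 0 < η * z := by positivity
    generalize η * z = C at C0
    rcases le_total 0 (1 - z) with q | q
    · have : 0 ≤ C * (4 * y * (1 - z)) := by positivity
      nlinarith [sq_nonneg (4 * y * (1 - z)), sq_nonneg (3 * (1 - z) - (4 + η) * C)]
    · have : (8 + 2 * η) * (C * (1 - z)) ≤ 0 :=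
        mul_nonpos_of_nonneg_of_nonpos (by positivity) (mul_nonpos_of_nonneg_of_nonpos C0.le q)
      have h4 : 4 * C ^ 2 ≤ (4 + η) ^ 2 / 3 * C ^ 2 := by
        gcongr; nlinarith
      nlinarith [sq_nonneg (4 * y * (1 - z) + 2 * C), sq_nonneg (1 - z)]
  nlinarith [c3]

theorem fin (h0 : 0 < η) (h1 : η ≤ 0.4) :
    2 * (((4 + η) ^ 2 / 3 - 2) * (1 - 0.51 * η) ^ 2 +
      (6 - 3.88 * η) * (1 - 0.51 * η) * (11 / 16)) ≤ 15 - 11 * η := by
  nlinarith [mul_nonneg h0.le (sub_nonneg.2 h1), mul_nonneg (sq_nonneg η) (sub_nonneg.2 h1),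
    mul_nonneg (pow_pos h0 3).le (sub_nonneg.2 h1)]

theorem qle {θ : ℝ} (h0 : 0 < η) (h1 : η ≤ 0.4) (t0 : 0 < θ) (tm : θ * (2 + η) = η) :
    (1 - θ) + (6 * θ - 2) / 4 + (1 - 9 * θ) * (3 + η) / 16 +
      4 * θ * ((3 + η) * (5 + 2 * η)) / 64 ≤ 11 / 16 := by
  have : θ * (3 * η + 2 * η ^ 2) ≤ θ * 2 := by gcongr; nlinarith
  nlinarith

end S2BigX

theorem Psi_big2 (h0 : 0 < η) (h1 : η ≤ 0.4) (s : ℝ) :
    |s * Psi η s| ≤ (15 - 11 * η) * (η ^ 2 * m0 η) := by
  have i1 := int_Hk h0 one_pos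
  have i2 := int_Hk h0 (r := 1 + η) (by linarith)
  have i3 := int_Hk h0 (r := 1 + 2 * η) (by linarith)
  have e : ∀ s, s * Psi η s =
      cosT (fun x => 1 * Hk η 1 x + (-2) * Hk η (1 + η) x + 1 * Hk η (1 + 2 * η) x) s := fun s => by
    rw [cosT_lin3 i1 i2 i3, ← sT h0 one_pos (a := 2) (by ring),
      ← sT h0 (r := 1 + η) (by linarith) (a := 2 + η) (by ring),
      ← sT h0 (r := 1 + 2 * η) (by linarith) (a := 2 + 2 * η) (by ring), Psi]
    ring
  obtain ⟨θ, hθ⟩ : ∃ θ, θ = η / (2 + η) := ⟨_, rfl⟩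
  have t0 : 0 < θ := by rw [hθ]; positivity
  have tm : θ * (2 + η) = η := by rw [hθ]; field_simp
  have t1 : θ ≤ 1 / 6 := by rw [hθ, div_le_iff₀ (by positivity)]; linarith
  have t2 : η / 2.4 ≤ θ := by rw [hθ]; gcongr; linarith
  obtain ⟨ρ, hρ⟩ : ∃ ρ, ρ = 1 - 0.51 * η := ⟨_, rfl⟩
  have r0 : 0 < ρ := by linarith
  have r4 : ((4 : ℝ) ^ θ)⁻¹ ≤ ρ := hρ ▸ S2BigX.four_rpow_le h0 h1 t2
  obtain ⟨A, hA⟩ : ∃ A, A = ((4 + η) ^ 2 / 3 - 2) * ρ ^ 2 := ⟨_, rfl⟩
  obtain ⟨B, hB⟩ : ∃ B, B = (6 - 3.88 * η) * ρ := ⟨_, rfl⟩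
  have c1 : 0 ≤ (4 + η) ^ 2 / 3 - 2 := by nlinarith
  have A0 : 0 ≤ A := by rw [hA]; positivity
  have B0 : 0 ≤ B := by rw [hB]; exact mul_nonneg (by linarith) r0.le
  have bt : (24 + 4 * η) * θ ^ 2 ≤ η ^ 2 * (6 - 3.88 * η) := by
    refine le_of_mul_le_mul_right ?_ (by positivity : 0 < (2 + η) ^ 2)
    calc (24 + 4 * η) * θ ^ 2 * (2 + η) ^ 2 = (24 + 4 * η) * (θ * (2 + η)) ^ 2 := by ring
      _ = η ^ 2 * (24 + 4 * η) := by rw [tm]; ring
      _ ≤ η ^ 2 * ((6 - 3.88 * η) * (2 + η) ^ 2) := by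
        gcongr
        nlinarith [mul_nonneg h0.le (sub_nonneg.2 h1), mul_nonneg (sq_nonneg η) (sub_nonneg.2 h1)]
      _ = _ := by ring
  obtain ⟨m1, m2⟩ := mom3 h0 (η ^ 2 * (A * (1 - 2 * θ) + B * (1 - θ)))
    (η ^ 2 * (A * (8 * θ) + B * (6 * θ - 2))) (η ^ 2 * (B * (1 - 9 * θ))) (η ^ 2 * (B * (4 * θ)))
  have em : ∀ y : ℝ, η ^ 2 * (A * (1 - 2 * θ) + B * (1 - θ)) +
      η ^ 2 * (A * (8 * θ) + B * (6 * θ - 2)) * y + η ^ 2 * (B * (1 - 9 * θ)) * y ^ 2 +
      η ^ 2 * (B * (4 * θ)) * y ^ 3 =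
      η ^ 2 * (A * (1 + 2 * θ * (4 * y - 1)) + B * ((1 + θ * (4 * y - 1)) * (y - 1) ^ 2)) :=
    fun y => by ring
  have := abs_cosT_le_two (int_lin3 i1 i2 i3 1 (-2) 1) m1 (by rw [← e, zero_mul])
    (fun x hx => by
      have := kr_pos η x
      have y0 := Real.rpow_pos_of_pos hx (2 + η)
      have a1 : 0 ≤ 1 + 2 * θ * (4 * x ^ (2 + η) - 1) := by nlinarith [mul_pos t0 y0]
      have a2 : 0 ≤ 1 + θ * (4 * x ^ (2 + η) - 1) := by nlinarith [mul_pos t0 y0]
      rw [em]; positivity) (fun x hx => by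
      have k0 := kr_pos η x
      have y0 := Real.rpow_pos_of_pos hx (2 + η)
      have z0 := Real.rpow_pos_of_pos hx η
      have ez : x ^ η = (x ^ (2 + η)) ^ θ := by
        rw [← Real.rpow_mul hx.le, mul_comm, tm]
      rw [em, Hk_eq _ _ hx, Hk_eq _ _ hx, Hk_eq _ _ hx, sub_self, add_sub_cancel_left,
        add_sub_cancel_left, rpow_two_mul _ hx, Real.rpow_zero]
      generalize x ^ (2 + η) = y at *
      generalize x ^ η = z at *
      have a1 : 0 ≤ 1 + 2 * θ * (4 * y - 1) := by nlinarith [mul_pos t0 y0]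
      have a2 : 0 ≤ 1 + θ * (4 * y - 1) := by nlinarith [mul_pos t0 y0]
      have b1 : y * (1 - z) ^ 2 ≤ θ ^ 2 * z * (y - 1) ^ 2 := by
        rw [ez]; exact one_sub_rpow_sq_le t0.le (by linarith) y0
      have b2 : z ≤ ρ * (1 + θ * (4 * y - 1)) := by
        rw [ez]
        exact (S2BigX.tangent t0.le (by linarith) y0).trans (mul_le_mul_of_nonneg_right r4 a2)
      have b3 : z ^ 2 ≤ ρ ^ 2 * (1 + 2 * θ * (4 * y - 1)) := by
        rw [ez, ← Real.rpow_mul_natCast y0.le, mul_comm θ]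
        refine (S2BigX.tangent (θ := ((2 : ℕ) : ℝ) * θ) (by positivity) (by push_cast; linarith)
          y0).trans ?_
        rw [mul_comm _ θ, Real.rpow_mul_natCast (by norm_num), ← inv_pow]
        push_cast
        rw [mul_comm θ 2]
        gcongr
      have d1 : ((4 + η) ^ 2 / 3 - 2) * (η ^ 2 * z ^ 2) ≤
          η ^ 2 * (A * (1 + 2 * θ * (4 * y - 1))) := by
        calc _ ≤ ((4 + η) ^ 2 / 3 - 2) * (η ^ 2 * (ρ ^ 2 * (1 + 2 * θ * (4 * y - 1)))) := by gcongr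
          _ = _ := by rw [hA]; ring
      have d2 : (24 + 4 * η) * (y * (1 - z) ^ 2) ≤
          η ^ 2 * (B * ((1 + θ * (4 * y - 1)) * (y - 1) ^ 2)) := by
        calc _ ≤ (24 + 4 * η) * (θ ^ 2 * (ρ * (1 + θ * (4 * y - 1))) * (y - 1) ^ 2) := by
              exact mul_le_mul_of_nonneg_left (b1.trans (by gcongr)) (by positivity)
          _ = (24 + 4 * η) * θ ^ 2 * (ρ * (1 + θ * (4 * y - 1)) * (y - 1) ^ 2) := by ring
          _ ≤ η ^ 2 * (6 - 3.88 * η) * (ρ * (1 + θ * (4 * y - 1)) * (y - 1) ^ 2) := by gcongr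
          _ = _ := by rw [hB]; ring
      have := (S2BigX.quad h0 y0 z0).trans (add_le_add d1 d2)
      have := mul_le_mul_of_nonneg_left this k0.le
      linarith) s
  rw [e]
  refine this.trans ?_
  rw [m2]
  have mp := m0_pos h0
  have q := S2BigX.qle h0 h1 t0 tm
  have f : 2 * (A + B * (11 / 16)) ≤ 15 - 11 * η := by
    rw [hA, hB, hρ]
    exact S2BigX.fin h0 h1
  have g := mul_le_mul_of_nonneg_left q B0
  have p : 0 ≤ η ^ 2 * m0 η := by positivity
  calc _ = 2 * (A + B * ((1 - θ) + (6 * θ - 2) / 4 + (1 - 9 * θ) * (3 + η) / 16 +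
        4 * θ * ((3 + η) * (5 + 2 * η)) / 64)) * (η ^ 2 * m0 η) := by ring
    _ ≤ _ := by gcongr; linarith

end Pool.Agent.MP_39fec4_gt.Small

end

section

set_option autoImplicit false

namespace Pool.Agent.MP_39fec4_gt.Small

open MeasureTheory Set Filter Topology Real Ball K

variable {η p : ℝ} {P : Pa}

theorem sy (h0 : 0 < η) (h1 : η ≤ 0.4) (c : P.cst) (ea : ri P.ea ≤ η) (eb : η ≤ ri P.eb) :
    Sy (EE η) (DD η) (QQ η) (fun τ => 12 * Phi η √(8 * τ) / (m0 η * √8 ^ 3))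
      (fun τ => 16 * Psi η √(8 * τ) / (η * m0 η * √(8 * τ) ^ 3)) η P := by
  have m := m0_pos h0
  have d0 := dC h0 (r := 0) (by norm_num) (a := 1) (by ring)
  have d1 := dS h0 (r := 1) (by norm_num) (a := 2) (by ring)
  have cC : Continuous (Cr η 0) := continuous_iff_continuousAt.2 fun s => (d0 s).continuousAt
  have cP : Continuous (Phi η) := continuous_iff_continuousAt.2 fun s => (dPhi h0 s).continuousAt
  have cS := cont_Sn h0
  have ds : ∀ τ : ℝ, 0 < τ → HasDerivAt (fun τ => √(8 * τ)) (4 / √(8 * τ)) τ := fun τ hτ =>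
    (((hasDerivAt_id τ).const_mul 8).sqrt (by simp only [id]; positivity)).congr_deriv
      (by simp only [id]; ring)
  have eG : ∀ τ, GG (EE η) τ = Cr η 0 √(8 * τ) / m0 η := fun τ => by
    rw [GG, EE, Real.exp_neg]; field_simp
  have e8 : ∀ τ : ℝ, √(8 * τ) = √8 * √τ := fun τ => Real.sqrt_mul (by norm_num) τ
  have s8 : √(8 : ℝ) ^ 2 = 8 := Real.sq_sqrt (by norm_num)
  obtain ⟨z1, z2⟩ := Sn_zero2 h0 h1
  obtain ⟨cb, c0, c1, c2, c3, c4, c5, c6, c7, c8⟩ := c
  have b0 := mul_nonneg (sub_nonneg.2 eb) (h0.le.trans eb)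
  have b1 := mul_nonneg (sub_nonneg.2 eb) h0.le
  have b2 : 0 ≤ 1 - (η + ri P.eb) := by
    have := ri_le.2 c8
    rw [ri_mul, ri_S] at this
    push_cast at this
    linarith
  have b3 := mul_nonneg (sub_nonneg.2 eb) b2
  rw [← Int.cast_le (R := ℝ)] at c0 c1 c2 c3 c4 c5 c6 c7
  simp only [S1] at c0 c1 c2 c3 c4 c5 c6 c7
  push_cast at c0 c1 c2 c3 c4 c5 c6 c7
  refine ⟨h0, ea, eb, by unfold EE; fun_prop, by unfold DD; fun_prop, by fun_prop, fun τ hτ => ?_,
    fun τ hτ => ?_, fun τ hτ => ?_, by simp [EE, C00, m.ne'], by simp [Phi_zero], ?_,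
    fun u v hv huv => ?_, fun τ hτ => ?_, fun τ hτ => ?_, fun τ hτ τ0 => ?_⟩
  · have s0 : 0 < √(8 * τ) := by positivity
    refine (((Real.hasDerivAt_exp τ).mul ((d0 _).comp τ (ds τ hτ))).div_const _).congr_deriv ?_
    simp only [Function.comp, DD, Sn_eq η s0.ne']
    ring
  · have s0 : 0 < √(8 * τ) := by positivity
    have := ((Real.hasDerivAt_exp τ).mul ((((((d1 _).comp τ (ds τ hτ)).div (ds τ hτ)
      s0.ne').const_mul 4).sub ((d0 _).comp τ (ds τ hτ))))).div_const (m0 η)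
    refine (this.congr_of_eventuallyEq ?_).congr_deriv ?_
    · filter_upwards [lt_mem_nhds hτ] with y hy
      rw [DD, Sn_eq η (by positivity : √(8 * y) ≠ 0)]
      rfl
    · simp only [Function.comp, QQ, Uf, Pi.sub_apply, Pi.div_apply]
      field_simp
      ring
  · refine ((((dPhi h0 _).comp τ (ds τ hτ)).const_mul 12).div_const _).congr_deriv ?_
    rw [eG]
    generalize Cr η 0 √(8 * τ) = C
    have t0 := Real.sqrt_pos.2 hτ
    rw [e8, pow_succ _ 2, s8]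
    field_simp
    ring
  · simp only [DD, mul_zero, Real.sqrt_zero, Real.exp_zero, one_mul, C00]
    rw [le_div_iff₀ m, div_le_iff₀ m]
    have a1 : ri P.c0 ≤ 0.29 - 0.11 * η := by unfold ri at eb ⊢; linarith
    have a2 : 0.365 - 0.125 * η ≤ ri P.c1 := by unfold ri at ea ⊢; linarith
    constructor <;> linarith [mul_le_mul_of_nonneg_right a1 (mul_pos h0 m).le,
      mul_le_mul_of_nonneg_right a2 (mul_pos h0 m).le]
  · have := convex_univ.norm_image_sub_le_of_norm_hasDerivWithin_le (C := 0.56 * m0 η)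
      (fun s _ => (d0 s).hasDerivWithinAt) (fun s _ => by rw [norm_neg]; exact S1_le h0 h1 s)
      (mem_univ √(8 * v)) (mem_univ √(8 * u))
    have a1 := sub_nonneg.2 (Real.sqrt_le_sqrt huv)
    have a2 : √(8 : ℝ) ≤ 2.83 := Real.sqrt_le_iff.2 ⟨by norm_num, by norm_num⟩
    rw [eG, eG, ← sub_div, abs_div, abs_of_pos m, div_le_iff₀ m]
    refine le_trans this ?_
    rw [e8, e8, ← mul_sub, Real.norm_of_nonneg (by positivity)]
    linarith [mul_le_mul_of_nonneg_right a2 (mul_nonneg m.le a1), mul_nonneg m.le a1]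
  · rw [QQ, U_eq h0]
    generalize Phi η √(8 * τ) = A
    generalize Psi η √(8 * τ) = B
    have t0 := Real.sqrt_pos.2 hτ
    rw [e8, mul_pow, pow_succ √τ, Real.sq_sqrt hτ.le]
    field_simp
    ring
  · have s0 : 0 < √(8 * τ) := by positivity
    have s2 : √(8 * τ) ^ 2 = 8 * τ := Real.sq_sqrt (by positivity)
    have hi : ∀ {a b A B : ℝ}, 0 ≤ a → 0 ≤ b → (∀ w : ℝ, 0 ≤ w → Real.sin w - w * Real.cos w ≤
        a * w + b * w ^ 3) → 2 * a * ((0.172 - 0.12 * η) * η) ≤ A →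
        16 * b * ((0.028 + 0.008 * η) * η) ≤ B →
        16 * Psi η √(8 * τ) / (η * m0 η * √(8 * τ) ^ 3) ≤ A / τ + B := fun ha hb h hA hB => by
      refine le_trans ?_ (add_le_add (div_le_div_of_nonneg_right hA hτ.le) hB)
      rw [div_le_iff₀ (by positivity)]
      refine (mul_le_mul_of_nonneg_left (Psi_hi h0 h1 s0.le ha hb h) (by norm_num)).trans_eq ?_
      rw [pow_succ, s2]
      field_simp
      ring
    refine ⟨(hi (a := 0) (b := 1 / 3) (A := 0) (B := ri P.a0) le_rfl (by norm_num) (fun w hw => by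
      linarith [le_of_abs_le (abs_sin_sub_le hw)]) (by simp) ?_).trans_eq (by simp),
      hi (by norm_num) (by norm_num) (fun _ => phi_mix) ?_ ?_, (hi (B := 0) (by norm_num) le_rfl
        (fun _ => phi_lin) ?_ (by simp)).trans_eq (add_zero _), ?_, ?_⟩
    iterate 4 unfold ri at eb b0 b1 b3 ⊢; linarith
    · have a1 := Psi_big2 h0 h1 √(8 * τ)
      have a2 : (15 - 11 * η) * η ≤ 4 * ri P.a4 := by unfold ri at eb b0 b1 b3 ⊢; linarith
      rw [abs_mul, abs_of_pos s0] at a1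
      rw [abs_div, abs_mul, abs_of_pos (by positivity : 0 < η * m0 η * √(8 * τ) ^ 3),
        abs_of_pos (by norm_num : (0 : ℝ) < 16), div_le_div_iff₀ (by positivity) (by positivity)]
      refine le_of_mul_le_mul_left ?_ s0
      have a3 : √(8 * τ) * √(8 * τ) ^ 3 = 64 * τ ^ 2 := by
        rw [← pow_succ', show 3 + 1 = 2 * 2 by rfl, pow_mul, s2]; ring
      rw [mul_left_comm _ (ri P.a4), mul_left_comm _ (η * m0 η), a3]
      linarith [mul_le_mul_of_nonneg_left a1 (sq_nonneg τ),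
        mul_le_mul_of_nonneg_left a2 (by positivity : 0 ≤ η * m0 η * τ ^ 2)]
    · have a2 : 0.48 * ((0.028 + 0.008 * η) * η) ≤ ri P.a5 := by
        unfold ri at eb b0 b1 b3 ⊢; linarith
      rw [le_div_iff₀ (by positivity)]
      linarith [Psi_lo h0 h1 s0.le,
        mul_le_mul_of_nonneg_right a2 (by positivity : 0 ≤ η * m0 η * √(8 * τ) ^ 3)]
  · have a1 := (tt_le (by norm_num) cb).trans hτ
    have := U_big2 h0 h1 (s := √(8 * τ)) (Real.le_sqrt_of_sq_le (by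
      norm_num [tt] at a1 ⊢; linarith))
    unfold QQ; positivity

def Ra : Pa := ⟨448, 249, 199, 199, 215, 54975581388, 329853488333, 53480245576, 43962872926,
  16044073673, 96897760733, 964821453374, 4813222102, 282574488338, 394449796465, 25293782138,
  308288110734, 462894395293, 956097067632, 846026988590, 742060816720, 853796624199,
  296601237385, 1138684307850, 741689971733, 845604186495, 289223179821⟩

def Rb : Pa := ⟨512, 249, 186, 187, 203, 329853488332, 439804651111, 73183493945, 53445061203,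
  21955048184, 117797277754, 1165482325444, 6586514456, 270479860432, 360090058097, 34800666151,
  288594713989, 504675837149, 999556025251, 754046114573, 685697043625, 754643881363,
  361256705384, 1059882892992, 653207821562, 736815731595, 330534602951⟩

theorem chk0 : chk Ra = true := by decide +kernel

theorem chk1 : chk Rb = true := by decide +kernel

theorem ex2 (h0 : 0.05 ≤ η) (h1 : η ≤ 0.4) :
    ∃ z1 t0 sg qm c th I0 La K, Ex (EE η) (DD η) (QQ η) z1 t0 sg qm c th I0 La K := by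
  have key : ∀ P : Pa, chk P = true → ri P.ea ≤ η → η ≤ ri P.eb → _ := fun P c a b =>
    (sy (by linarith) h1 (by
      rw [chk, forceS_eq, Bool.and_eq_true, decide_eq_true_eq] at c; exact c.2.2.1) a b).ex c
  rcases le_total η 0.3 with c | c
  · exact key Ra chk0 (le_trans (by norm_num [ri, Ra]) h0) (c.trans (by norm_num [ri, Ra]))
  · exact key Rb chk1 (le_trans (by norm_num [ri, Rb]) c) (h1.trans (by norm_num [ri, Rb]))

theorem improve2 (hp : 2.05 ≤ p) (hp' : p ≤ 2.4) {ι : Type*} (T : Finset ι) (x : ι → ℝ) {a b : ℝ}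
    (hb : 0 ≤ b) (hab : b < a) (hx : ∀ j ∈ T, b ≤ x j ∧ x j ≤ a) (hs : a + b + ∑ j ∈ T, x j = 1) :
    ∃ α β : ℝ, 0 ≤ α ∧ 0 ≤ β ∧ α + β = a + b ∧
      ∫ s in Ioi (0 : ℝ), ff p (√a * s) * ff p (√b * s) * ∏ j ∈ T, ff p (√(x j) * s) <
      ∫ s in Ioi (0 : ℝ), ff p (√α * s) * ff p (√β * s) * ∏ j ∈ T, ff p (√(x j) * s) := by
  have h2 := hp
  replace hp : 2 < p := by linarith
  have x0 : ∀ j ∈ T, 0 ≤ x j := fun j hj => hb.trans (hx j hj).1
  by_cases hz : ∀ j ∈ T, x j = 0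
  · have e : ∀ s, ∏ j ∈ T, ff p (√(x j) * s) = 1 := fun s => Finset.prod_eq_one fun j hj => by
      rw [hz j hj, Real.sqrt_zero, zero_mul, ff_zero hp]
    rw [Finset.sum_eq_zero hz, add_zero] at hs
    refine ⟨1 / 2, 1 / 2, by norm_num, by norm_num, by linarith, ?_⟩
    simpa only [e, mul_one] using two_lt hp hb hab hs
  push Not at hz
  obtain ⟨j, hj, hj0⟩ := hz
  obtain ⟨k, hk, hk2⟩ := Finset.exists_max_image T x ⟨j, hj⟩
  obtain ⟨η, rfl⟩ : ∃ η, p = 2 + η := ⟨p - 2, by ring⟩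
  have h0 : 0 < η := by linarith
  obtain ⟨_, _, _, _, _, _, _, _, _, X⟩ := ex2 (η := η) (by linarith) (by linarith)
  obtain ⟨δ, δ0, δ1, h⟩ := X.step (T := T) (x := x) (k := k) ⟨hb, hab, hk,
    ((x0 j hj).lt_of_ne' hj0).trans_le (hk2 j hj), (hx k hk).1, (hx k hk).2, x0, hk2, hs⟩
  obtain ⟨l, l0, hl⟩ := ff_eq h0
  have e : ∀ α β : ℝ, 0 ≤ α → 0 ≤ β → ∫ s in Ioi (0 : ℝ), ff (2 + η) (√α * s) *
      ff (2 + η) (√β * s) * ∏ j ∈ T, ff (2 + η) (√(x j) * s) = (∫ s in Ioi (0 : ℝ),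
      GG (EE η) (α * s ^ 2) * GG (EE η) (β * s ^ 2) * ∏ j ∈ T, GG (EE η) (x j * s ^ 2)) / l :=
    fun α β hα hβ => by
      rw [← integral_scale _ l0]
      refine setIntegral_congr_fun measurableSet_Ioi fun s hs => ?_
      rw [hl _ _ hα (le_of_lt hs), hl _ _ hβ (le_of_lt hs),
        Finset.prod_congr rfl fun j hj => hl _ _ (x0 j hj) (le_of_lt hs)]
  refine ⟨a - δ, b + δ, by linarith, by linarith, by ring, ?_⟩
  rw [e _ _ (by linarith) hb, e _ _ (by linarith) (by linarith)]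
  gcongr

theorem contOn_J2 (hp : 2.05 ≤ p) (hp' : p ≤ 2.4) {n : ℕ} (hn : 2 ≤ n) :
    ContinuousOn (fun x : Fin n → ℝ => ∫ s in Ioi (0 : ℝ), ∏ j, ff p (√(x j) * s))
      (stdSimplex ℝ (Fin n)) := by
  have h2 := hp
  replace hp : 2 < p := by linarith
  have c := cont_ff hp
  have n0 : (2 : ℝ) ≤ n := by exact_mod_cast hn
  obtain ⟨η, rfl⟩ : ∃ η, p = 2 + η := ⟨p - 2, by ring⟩
  have h0 : 0 < η := by linarith
  obtain ⟨l, l0, hl⟩ := ff_eq h0
  obtain ⟨_, _, _, _, _, _, _, _, K, X⟩ := ex2 (η := η) (by linarith) (by linarith)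
  refine continuousOn_of_dominated (bound := fun s => K * n * (1 + (l * s) ^ 2)⁻¹)
    (fun x _ => Continuous.aestronglyMeasurable (by fun_prop))
    (fun x hx => (ae_restrict_iff' measurableSet_Ioi).2 (Eventually.of_forall fun s hs => ?_))
    ((integrable_inv_one_add_sq.comp_mul_left' l0.ne').const_mul _).integrableOn
    (Eventually.of_forall fun s => Continuous.continuousOn (by fun_prop))
  have : Nonempty (Fin n) := ⟨⟨0, by omega⟩⟩
  obtain ⟨i, -, hi⟩ := Finset.exists_le_of_sum_le (s := Finset.univ) (f := fun _ => (1 : ℝ))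
    (g := fun j => n * x j) Finset.univ_nonempty (by simp [← Finset.mul_sum, hx.2])
  have d := X.dG _ (mul_nonneg (hx.1 i) (sq_nonneg (l * s)))
  rw [← hl _ _ (hx.1 i) (le_of_lt hs)] at d
  rw [Real.norm_eq_abs, ← Finset.mul_prod_erase _ _ (Finset.mem_univ i), abs_mul]
  refine (mul_le_of_le_one_right (abs_nonneg _)
    (abs_prod_le_one _ fun j => abs_ff_le hp _)).trans ?_
  rw [← div_eq_mul_inv, le_div_iff₀ (by positivity)]
  have q := abs_nonneg (ff (2 + η) (√(x i) * s))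
  nlinarith [mul_le_mul_of_nonneg_left d (by linarith : (0 : ℝ) ≤ n),
    mul_le_mul_of_nonneg_left hi (mul_nonneg q (sq_nonneg (l * s)))]

/-- For `2 < p ≤ 2.4` the main diagonal is the unique maximiser in every dimension. -/
theorem regimeS2 (hp : 2 < p) (hp' : p ≤ 2.4) {n : ℕ} (hn : 2 ≤ n) (x : Fin n → ℝ)
    (hx : ∀ j, 0 ≤ x j) (hs : ∑ j, x j = 1) (hne : ∃ j, x j ≠ 1 / n) :
    ∫ s in Ioi (0 : ℝ), ∏ j, ff p (√(x j) * s) < ∫ s in Ioi (0 : ℝ), ff p (√(1 / n) * s) ^ n := by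
  rcases le_total p 2.05 with c | c
  · exact regimeS hp c hn x hx hs hne
  have n0 : (0 : ℝ) < n := by positivity
  set J := fun x : Fin n → ℝ => ∫ s in Ioi (0 : ℝ), ∏ j, ff p (√(x j) * s) with hJ
  have imp : ∀ z ∈ stdSimplex ℝ (Fin n), (∃ j, z j ≠ 1 / n) →
      ∃ y ∈ stdSimplex ℝ (Fin n), J z < J y := by
    rintro z hz ⟨j0, hj0⟩
    obtain ⟨i, -, hi⟩ := Finset.exists_max_image Finset.univ z ⟨j0, Finset.mem_univ _⟩
    obtain ⟨j, -, hj⟩ := Finset.exists_min_image Finset.univ z ⟨j0, Finset.mem_univ _⟩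
    have lt : z j < z i := by
      refine lt_of_not_ge fun h => hj0 ?_
      have e : ∀ l, z l = z j0 := fun l => le_antisymm
        ((hi l (Finset.mem_univ _)).trans (h.trans (hj j0 (Finset.mem_univ _))))
        ((hi j0 (Finset.mem_univ _)).trans (h.trans (hj l (Finset.mem_univ _))))
      have := hz.2
      rw [Finset.sum_congr rfl fun l _ => e l] at this
      simp only [Finset.sum_const, Finset.card_univ, Fintype.card_fin, nsmul_eq_mul] at this
      rw [eq_div_iff n0.ne']; linarith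
    have ne : j ≠ i := fun h => by rw [h] at lt; exact lt_irrefl _ lt
    have mj : j ∈ Finset.univ.erase i := Finset.mem_erase.2 ⟨ne, Finset.mem_univ j⟩
    have sm : ∀ y : Fin n → ℝ, ∑ l, y l = y i + y j + ∑ l ∈ (Finset.univ.erase i).erase j, y l :=
      fun y => by
        rw [← Finset.add_sum_erase _ _ (Finset.mem_univ i), ← Finset.add_sum_erase _ _ mj,
          add_assoc]
    have pr : ∀ y : Fin n → ℝ, J y = ∫ s in Ioi (0 : ℝ), ff p (√(y i) * s) * ff p (√(y j) * s) *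
        ∏ l ∈ (Finset.univ.erase i).erase j, ff p (√(y l) * s) := fun y => by
      simp only [hJ]
      congr 1; funext s
      rw [← Finset.mul_prod_erase _ _ (Finset.mem_univ i), ← Finset.mul_prod_erase _ _ mj,
        mul_assoc]
    obtain ⟨α, β, hα, hβ, e, h⟩ := improve2 c hp' ((Finset.univ.erase i).erase j) z (hz.1 j) lt
      (fun l _ => ⟨hj l (Finset.mem_univ _), hi l (Finset.mem_univ _)⟩) (by rw [← sm, hz.2])
    set y : Fin n → ℝ := fun l => if l = i then α else if l = j then β else z l with hy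
    have yi : y i = α := by simp [hy]
    have yj : y j = β := by simp [hy, ne]
    have yl : ∀ l ∈ (Finset.univ.erase i).erase j, y l = z l := fun l hl => by
      simp only [Finset.mem_erase] at hl
      simp [hy, hl.1, hl.2.1]
    refine ⟨y, ⟨fun l => ?_, ?_⟩, ?_⟩
    · simp only [hy]
      split_ifs
      exacts [hα, hβ, hz.1 l]
    · rw [sm, yi, yj, Finset.sum_congr rfl yl, e, ← sm, hz.2]
    · rw [pr z, pr y, yi, yj]
      refine h.trans_eq ?_
      congr 1; funext s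
      congr 1
      exact Finset.prod_congr rfl fun l hl => by rw [yl l hl]
  obtain ⟨z, hz, hm⟩ := (isCompact_stdSimplex ℝ (Fin n)).exists_isMaxOn ⟨x, hx, hs⟩
    (contOn_J2 c hp' hn)
  have ez : z = fun _ => 1 / (n : ℝ) := by
    by_contra h
    obtain ⟨y, hy, lt⟩ := imp z hz (Function.ne_iff.1 h)
    exact absurd (hm hy) (not_le.2 lt)
  obtain ⟨y, hy, lt⟩ := imp x ⟨hx, hs⟩ hne
  have := lt.trans_le (hm hy)
  simpa only [hJ, ez, Fin.prod_const] using this

end Pool.Agent.MP_39fec4_gt.Small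

end
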