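import Pool.Agent.Mg.F39fec4.G46279a

section

set_option autoImplicit false

namespace Pool.Agent.MP_39fec4_gt

open MeasureTheory Set Filter Topology

noncomputable def gg (x : ℝ) : ℝ := Real.exp (-x ^ 2)

noncomputable def kk (η x : ℝ) : ℝ := Real.exp (-(x ^ 2 * x ^ η))

noncomputable def dd (η x : ℝ) : ℝ := kk η x - gg x

noncomputable def dd1 (η x : ℝ) : ℝ := -(x * ((2 + η) * x ^ η * kk η x - 2 * gg x))

noncomputable def dd2 (η x : ℝ) : ℝ :=
  x ^ 2 * ((2 + η) ^ 2 * (x ^ η) ^ 2 * kk η x - 4 * gg x) -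
    ((2 + η) * (1 + η) * x ^ η * kk η x - 2 * gg x)

noncomputable def rr (η x : ℝ) : ℝ := kk η x - gg x * (1 - (x ^ 2 * x ^ η - x ^ 2))

noncomputable def BB (x : ℝ) : ℝ := (1 + 1 / √x) * (1 + x) ^ 12 * gg x

theorem gg_pos (x : ℝ) : 0 < gg x := Real.exp_pos _

theorem kk_pos (η x : ℝ) : 0 < kk η x := Real.exp_pos _

theorem BB_pos {x : ℝ} (hx : 0 < x) : 0 < BB x := by
  have := gg_pos x
  unfold BB; positivity

theorem contOn_gg : ContinuousOn gg (Ioi 0) := by
  unfold gg; fun_prop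

theorem contOn_rpow (a : ℝ) : ContinuousOn (fun x : ℝ => x ^ a) (Ioi 0) :=
  continuousOn_id.rpow_const fun _ hx => Or.inl (ne_of_gt hx)

theorem contOn_kk (η : ℝ) : ContinuousOn (kk η) (Ioi 0) := by
  have := contOn_rpow η
  unfold kk; fun_prop

theorem integrableOn_BB : IntegrableOn BB (Ioi 0) := by
  have h1 := Real.GammaIntegral_convergent (s := 1) one_pos
  have h2 := Real.GammaIntegral_convergent (s := 1 / 2) (by norm_num)
  have hc : ContinuousOn BB (Ioi 0) := by
    have := contOn_gg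
    unfold BB
    refine (ContinuousOn.mul (continuousOn_const.add (continuousOn_const.div (by fun_prop) ?_))
      (by fun_prop)).mul this
    intro x hx
    exact (Real.sqrt_pos.2 hx).ne'
  refine ((h1.add h2).const_mul (Real.exp 49)).mono' (hc.aestronglyMeasurable measurableSet_Ioi)
    ((ae_restrict_iff' measurableSet_Ioi).2 (Eventually.of_forall fun x hx => ?_))
  have hx : 0 < x := hx
  rw [Real.norm_eq_abs, abs_of_pos (BB_pos hx)]
  have e1 : x ^ ((1 : ℝ) / 2 - 1) = 1 / √x := by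
    rw [Real.sqrt_eq_rpow, one_div (x ^ _), ← Real.rpow_neg hx.le]; norm_num
  have h3 : (1 + x) ^ 12 * gg x ≤ Real.exp 49 * Real.exp (-x) := by
    have : (1 + x) ^ 12 ≤ Real.exp x ^ 12 := by
      gcongr; linarith [Real.add_one_le_exp x]
    calc (1 + x) ^ 12 * gg x ≤ Real.exp x ^ 12 * gg x := by have := gg_pos x; gcongr
      _ ≤ _ := by
        rw [gg, ← Real.exp_nat_mul, ← Real.exp_add, ← Real.exp_add]
        apply Real.exp_le_exp.2
        push_cast
        nlinarith [sq_nonneg (x - 7)]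
  simp only [Pi.add_apply, e1, sub_self, Real.rpow_zero]
  calc BB x = (1 + 1 / √x) * ((1 + x) ^ 12 * gg x) := by unfold BB; ring
    _ ≤ (1 + 1 / √x) * (Real.exp 49 * Real.exp (-x)) := by gcongr
    _ = _ := by ring

variable {η x : ℝ}

theorem rpow_le_one_add (h0 : 0 < η) (h1 : η ≤ 1) (hx : 0 < x) : x ^ η ≤ 1 + x := by
  rcases le_total x 1 with h | h
  · linarith [Real.rpow_le_one hx.le h h0.le]
  · have := Real.rpow_le_rpow_of_exponent_le h h1
    rw [Real.rpow_one] at this; linarith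

theorem delta_le (h0 : 0 < η) (h1 : η ≤ 1) (hx : 0 < x) :
    |x ^ η - 1| ≤ 2 * η * (1 + 1 / √x) * (1 + x) ^ 2 ∧ x ^ 2 * |x ^ η - 1| ≤ η * (1 + x) ^ 4 ∧
      -1 ≤ x ^ 2 * (x ^ η - 1) := by
  have hu : 0 < x ^ η := Real.rpow_pos_of_pos hx η
  have hs : 0 < √x := Real.sqrt_pos.2 hx
  have hv : 0 < 1 / √x := by positivity
  have hy2 : 1 ≤ (1 + x) ^ 2 := one_le_pow₀ (by linarith)
  rcases le_total x 1 with h | h
  · have a1 : x ^ η ≤ 1 := Real.rpow_le_one hx.le h h0.le
    have a2 : 1 + Real.log x * η ≤ x ^ η := by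
      rw [Real.rpow_def_of_pos hx]; linarith [Real.add_one_le_exp (Real.log x * η)]
    have a3 : -Real.log x ≤ 2 * (1 / √x) := by
      have := Real.log_le_sub_one_of_pos hv
      rw [Real.log_div one_ne_zero hs.ne', Real.log_one, Real.log_sqrt hx.le] at this
      linarith
    have a4 : -Real.log x * x ≤ 1 := by
      have := (abs_lt.1 (Real.abs_log_mul_self_lt x hx h)).1
      linarith
    rw [abs_sub_comm, abs_of_nonneg (by linarith)]
    refine ⟨?_, ?_, ?_⟩
    · calc 1 - x ^ η ≤ η * (2 * (1 / √x)) := by nlinarith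
        _ ≤ 2 * η * (1 + 1 / √x) * 1 := by nlinarith
        _ ≤ _ := by gcongr
    · have : x ≤ (1 + x) ^ 4 := le_trans (by linarith) (le_self_pow₀ (by linarith) (by norm_num))
      calc x ^ 2 * (1 - x ^ η) ≤ x ^ 2 * (-Real.log x * η) := by gcongr; linarith
        _ = η * x * (-Real.log x * x) := by ring
        _ ≤ η * x * 1 := by gcongr
        _ ≤ _ := by rw [mul_one]; gcongr
    · have : x ^ 2 ≤ 1 := pow_le_one₀ hx.le h
      nlinarith [mul_pos (pow_pos hx 2) hu]
  · have a1 : 1 ≤ x ^ η := Real.one_le_rpow h h0.le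
    have a2 : x ^ η ≤ x := by
      have := Real.rpow_le_rpow_of_exponent_le h h1
      rwa [Real.rpow_one] at this
    have a3 : x ^ η - 1 ≤ η * Real.log x * x ^ η := by
      have h3 := Real.add_one_le_exp (-(Real.log x * η))
      have h4 : Real.exp (-(Real.log x * η)) * x ^ η = 1 := by
        rw [Real.rpow_def_of_pos hx, ← Real.exp_add]; simp
      nlinarith
    have a4 : Real.log x ≤ x := (Real.log_le_sub_one_of_pos hx).trans (by linarith)
    have a5 : x ^ η - 1 ≤ η * x ^ 2 := by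
      calc x ^ η - 1 ≤ η * Real.log x * x ^ η := a3
        _ ≤ η * x * x := by gcongr
        _ = _ := by ring
    rw [abs_of_nonneg (by linarith)]
    refine ⟨?_, ?_, ?_⟩
    · calc x ^ η - 1 ≤ η * x ^ 2 := a5
        _ ≤ η * (1 + x) ^ 2 := by gcongr; linarith
        _ ≤ 2 * η * (1 + 1 / √x) * (1 + x) ^ 2 := by gcongr; nlinarith
    · calc x ^ 2 * (x ^ η - 1) ≤ x ^ 2 * (η * x ^ 2) := by gcongr
        _ = η * x ^ 4 := by ring
        _ ≤ _ := by gcongr; linarith
    · nlinarith [mul_nonneg (sq_nonneg x) (sub_nonneg.2 a1)]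

theorem exp_neg_bounds {t : ℝ} (ht : -1 ≤ t) :
    Real.exp (-t) ≤ 3 ∧ |Real.exp (-t) - 1| ≤ 3 * |t| ∧ |Real.exp (-t) - 1 + t| ≤ t ^ 2 := by
  have a1 : Real.exp (-t) ≤ 3 :=
    (Real.exp_le_exp.2 (by linarith : -t ≤ 1)).trans (by linarith [Real.exp_one_lt_d9])
  have a2 := Real.add_one_le_exp (-t)
  have a3 := Real.exp_pos (-t)
  refine ⟨a1, ?_, ?_⟩
  · rcases le_total 0 t with h | h
    · have : Real.exp (-t) ≤ 1 := Real.exp_le_one_iff.2 (by linarith)
      rw [abs_sub_comm, abs_of_nonneg (by linarith), abs_of_nonneg h]; linarith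
    · have h3 := Real.add_one_le_exp t
      have h4 : Real.exp t * Real.exp (-t) = 1 := by rw [← Real.exp_add]; simp
      rw [abs_of_nonneg (by linarith), abs_of_nonpos h]; nlinarith
  · rcases le_total t 1 with h | h
    · have := Real.abs_exp_sub_one_sub_id_le (x := -t) (abs_le.2 ⟨by linarith, by linarith⟩)
      simpa using this
    · have : Real.exp (-t) ≤ 1 := Real.exp_le_one_iff.2 (by linarith)
      rw [abs_of_nonneg (by linarith)]; nlinarith

theorem kk_eq (η x : ℝ) : kk η x = gg x * Real.exp (-(x ^ 2 * (x ^ η - 1))) := by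
  rw [kk, gg, ← Real.exp_add]; congr 1; ring

theorem kk_le (h0 : 0 < η) (h1 : η ≤ 1) (hx : 0 < x) : kk η x ≤ 3 * gg x := by
  have := (exp_neg_bounds (delta_le h0 h1 hx).2.2).1
  rw [kk_eq, mul_comm]; have := gg_pos x; gcongr

theorem dd_le0 (h0 : 0 < η) (h1 : η ≤ 1) (hx : 0 < x) :
    |dd η x| ≤ 3 * η * (1 + x) ^ 4 * gg x := by
  obtain ⟨-, a2, a3⟩ := delta_le h0 h1 hx
  have b := (exp_neg_bounds a3).2.1
  have g := gg_pos x
  have e : dd η x = gg x * (Real.exp (-(x ^ 2 * (x ^ η - 1))) - 1) := by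
    rw [dd, kk_eq]; ring
  rw [e, abs_mul, abs_of_pos g]
  rw [abs_mul, abs_of_nonneg (sq_nonneg x)] at b
  calc _ ≤ gg x * (3 * (η * (1 + x) ^ 4)) := by gcongr; linarith
    _ = _ := by ring

theorem le_BB {f c : ℝ} {m : ℕ} (hx : 0 < x) (hc : 0 ≤ c) (hm : m ≤ 8)
    (h : |f| ≤ c * (1 + 1 / √x) * (1 + x) ^ m * gg x) {j : ℕ} (hj : j ≤ 4) :
    x ^ j * |f| ≤ c * BB x := by
  have g := gg_pos x
  have h1 : x ^ j ≤ (1 + x) ^ 4 :=
    (pow_le_pow_left₀ hx.le (by linarith) j).trans (pow_le_pow_right₀ (by linarith) hj)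
  have h2 : (1 + x) ^ m ≤ (1 + x) ^ 8 := pow_le_pow_right₀ (by linarith) hm
  calc x ^ j * |f| ≤ (1 + x) ^ 4 * (c * (1 + 1 / √x) * (1 + x) ^ 8 * gg x) := by
        gcongr; exact h.trans (by gcongr)
    _ = _ := by unfold BB; ring

theorem rr_le (h0 : 0 < η) (h1 : η ≤ 1) (hx : 0 < x) {j : ℕ} (hj : j ≤ 4) :
    x ^ j * |rr η x| ≤ η ^ 2 * BB x := by
  obtain ⟨-, a2, a3⟩ := delta_le h0 h1 hx
  have b := (exp_neg_bounds a3).2.2
  have g := gg_pos x
  have e : rr η x = gg x * (Real.exp (-(x ^ 2 * (x ^ η - 1))) - 1 + x ^ 2 * (x ^ η - 1)) := by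
    rw [rr, kk_eq]; ring
  refine le_BB hx (by positivity) le_rfl ?_ hj
  rw [e, abs_mul, abs_of_pos g]
  have c : (x ^ 2 * (x ^ η - 1)) ^ 2 ≤ (η * (1 + x) ^ 4) ^ 2 := by
    rw [← sq_abs, abs_mul, abs_of_nonneg (sq_nonneg x)]; gcongr
  have hv : 1 ≤ 1 + 1 / √x := le_add_of_nonneg_right (by positivity)
  calc _ ≤ gg x * (η * (1 + x) ^ 4) ^ 2 := by gcongr; exact b.trans c
    _ = η ^ 2 * 1 * (1 + x) ^ 8 * gg x := by ring
    _ ≤ _ := by gcongr

theorem dd_le (h0 : 0 < η) (h1 : η ≤ 1) (hx : 0 < x) {j : ℕ} (hj : j ≤ 4) :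
    x ^ j * |dd η x| ≤ 3 * η * BB x := by
  have g := gg_pos x
  have hv : 1 ≤ 1 + 1 / √x := le_add_of_nonneg_right (by positivity)
  refine le_BB (m := 4) hx (by positivity) (by norm_num) ((dd_le0 h0 h1 hx).trans ?_) hj
  calc 3 * η * (1 + x) ^ 4 * gg x = 3 * η * 1 * (1 + x) ^ 4 * gg x := by ring
    _ ≤ _ := by gcongr

theorem delta_gg_le (h0 : 0 < η) (h1 : η ≤ 1) (hx : 0 < x) :
    |x ^ η * gg x - gg x| ≤ 2 * η * BB x := by
  have g := gg_pos x
  have := le_BB (f := x ^ η * gg x - gg x) (m := 2) (j := 0) hx (c := 2 * η) (by positivity)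
    (by norm_num) (by
      rw [← sub_one_mul, abs_mul, abs_of_pos g]
      gcongr; exact (delta_le h0 h1 hx).1) (by norm_num)
  simpa using this

theorem aux_le (h0 : 0 < η) (h1 : η ≤ 1) (hx : 0 < x) {a b : ℝ} (ha : |a| ≤ 5 * η * (1 + x) ^ 2)
    (hb : |b| ≤ 12 * (1 + x)) {c : ℝ} (hc : |c| ≤ 4) :
    |a * kk η x + b * (x ^ η - 1) * kk η x + c * dd η x| ≤
      99 * η * (1 + 1 / √x) * (1 + x) ^ 4 * gg x := by
  have g := gg_pos x
  have k := kk_pos η x
  have hv : 1 ≤ 1 + 1 / √x := le_add_of_nonneg_right (by positivity)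
  have hy : 1 ≤ 1 + x := by linarith
  have b1 := kk_le h0 h1 hx
  have b2 := dd_le0 h0 h1 hx
  have b3 := (delta_le h0 h1 hx).1
  have y24 : (1 + x) ^ 2 ≤ (1 + x) ^ 4 := pow_le_pow_right₀ hy (by norm_num)
  have y34 : (1 + x) ^ 3 ≤ (1 + x) ^ 4 := pow_le_pow_right₀ hy (by norm_num)
  set v := 1 + 1 / √x
  have t1 : |a * kk η x| ≤ 15 * η * v * (1 + x) ^ 4 * gg x := by
    rw [abs_mul, abs_of_pos k]
    calc _ ≤ 5 * η * (1 + x) ^ 4 * (3 * gg x) := by gcongr; exact ha.trans (by gcongr)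
      _ = 15 * η * 1 * (1 + x) ^ 4 * gg x := by ring
      _ ≤ _ := by gcongr
  have t2 : |b * (x ^ η - 1) * kk η x| ≤ 72 * η * v * (1 + x) ^ 4 * gg x := by
    rw [abs_mul, abs_mul, abs_of_pos k]
    calc _ ≤ 12 * (1 + x) * (2 * η * v * (1 + x) ^ 2) * (3 * gg x) := by gcongr
      _ = 72 * η * v * (1 + x) ^ 3 * gg x := by ring
      _ ≤ _ := by gcongr
  have t3 : |c * dd η x| ≤ 12 * η * v * (1 + x) ^ 4 * gg x := by
    rw [abs_mul]
    calc _ ≤ 4 * (3 * η * (1 + x) ^ 4 * gg x) := by gcongr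
      _ = 12 * η * 1 * (1 + x) ^ 4 * gg x := by ring
      _ ≤ _ := by gcongr
  have := abs_add_three (a * kk η x) (b * (x ^ η - 1) * kk η x) (c * dd η x)
  linarith

theorem dd1_le (h0 : 0 < η) (h1 : η ≤ 1) (hx : 0 < x) {j : ℕ} (hj : j ≤ 4) :
    x ^ j * |dd1 η x| ≤ 99 * η * BB x := by
  have g := gg_pos x
  have hu : 0 < x ^ η := Real.rpow_pos_of_pos hx η
  have hy := rpow_le_one_add h0 h1 hx
  refine le_BB (m := 5) hx (by positivity) (by norm_num) ?_ hj
  have := aux_le h0 h1 hx (a := η * x ^ η) (b := 2) (c := 2)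
    (by rw [abs_of_pos (by positivity)]
        have : x ^ η ≤ (1 + x) ^ 2 := hy.trans (le_self_pow₀ (by linarith) (by norm_num))
        nlinarith [mul_nonneg h0.le (sq_nonneg (1 + x))])
    (by rw [abs_two]; linarith) (by rw [abs_two]; norm_num)
  have e : dd1 η x = -(x * (η * x ^ η * kk η x + 2 * (x ^ η - 1) * kk η x + 2 * dd η x)) := by
    unfold dd1 dd; ring
  rw [e, abs_neg, abs_mul, abs_of_pos hx]
  calc _ ≤ (1 + x) * (99 * η * (1 + 1 / √x) * (1 + x) ^ 4 * gg x) := by gcongr; linarith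
    _ = _ := by ring

theorem dd2_le (h0 : 0 < η) (h1 : η ≤ 1) (hx : 0 < x) {j : ℕ} (hj : j ≤ 4) :
    x ^ j * |dd2 η x| ≤ 198 * η * BB x := by
  have g := gg_pos x
  have hu : 0 < x ^ η := Real.rpow_pos_of_pos hx η
  have hy := rpow_le_one_add h0 h1 hx
  have hy1 : 1 ≤ 1 + x := by linarith
  refine le_BB (m := 6) hx (by positivity) (by norm_num) ?_ hj
  have a1 := aux_le h0 h1 hx (a := (4 * η + η ^ 2) * (x ^ η) ^ 2) (b := 4 * (x ^ η + 1)) (c := 4)
    (by rw [abs_of_pos (by positivity)]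
        have : 4 * η + η ^ 2 ≤ 5 * η := by nlinarith
        gcongr)
    (by rw [abs_of_pos (by positivity)]; linarith) (by rw [abs_of_pos (by norm_num)])
  have a2 := aux_le h0 h1 hx (a := (3 * η + η ^ 2) * x ^ η) (b := 2) (c := 2)
    (by rw [abs_of_pos (by positivity)]
        have : x ^ η ≤ (1 + x) ^ 2 := hy.trans (le_self_pow₀ (by linarith) (by norm_num))
        have : 3 * η + η ^ 2 ≤ 5 * η := by nlinarith
        gcongr)
    (by rw [abs_two]; linarith) (by rw [abs_two]; norm_num)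
  have e : dd2 η x = x ^ 2 * ((4 * η + η ^ 2) * (x ^ η) ^ 2 * kk η x +
      4 * (x ^ η + 1) * (x ^ η - 1) * kk η x + 4 * dd η x) -
      ((3 * η + η ^ 2) * x ^ η * kk η x + 2 * (x ^ η - 1) * kk η x + 2 * dd η x) := by
    unfold dd2 dd; ring
  rw [e]
  refine (abs_sub _ _).trans ?_
  rw [abs_mul, abs_of_nonneg (sq_nonneg x)]
  have y2 : 1 ≤ (1 + x) ^ 2 := one_le_pow₀ hy1
  calc _ ≤ (1 + x) ^ 2 * (99 * η * (1 + 1 / √x) * (1 + x) ^ 4 * gg x) +
        (1 + x) ^ 2 * (99 * η * (1 + 1 / √x) * (1 + x) ^ 4 * gg x) := by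
        refine add_le_add (by gcongr; linarith) (a2.trans (le_mul_of_one_le_left ?_ y2))
        positivity
    _ = _ := by ring

theorem hasDerivAt_gg (x : ℝ) : HasDerivAt gg (-(2 * x * gg x)) x := by
  have := (hasDerivAt_pow 2 x).neg.exp
  refine this.congr_deriv ?_
  simp [gg]; ring

theorem hasDerivAt_u (η : ℝ) (hx : 0 < x) : HasDerivAt (fun x : ℝ => x ^ η) (η * x ^ η / x) x := by
  refine (Real.hasDerivAt_rpow_const (p := η) (Or.inl hx.ne')).congr_deriv ?_
  rw [Real.rpow_sub_one hx.ne']; ring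

theorem hasDerivAt_kk (η : ℝ) (hx : 0 < x) :
    HasDerivAt (kk η) (-((2 + η) * x * x ^ η * kk η x)) x := by
  have := ((hasDerivAt_pow 2 x).mul (hasDerivAt_u η hx)).neg.exp
  refine this.congr_deriv ?_
  simp only [kk, Pi.neg_apply, Pi.mul_apply]
  field_simp; ring

theorem hasDerivAt_dd (η : ℝ) (hx : 0 < x) : HasDerivAt (dd η) (dd1 η x) x := by
  refine ((hasDerivAt_kk η hx).sub (hasDerivAt_gg x)).congr_deriv ?_
  unfold dd1; ring

theorem hasDerivAt_dd1 (η : ℝ) (hx : 0 < x) : HasDerivAt (dd1 η) (dd2 η x) x := by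
  have := ((hasDerivAt_id x).mul (((((hasDerivAt_u η hx).const_mul (2 + η)).mul
    (hasDerivAt_kk η hx))).sub ((hasDerivAt_gg x).const_mul 2))).neg
  refine this.congr_deriv ?_
  simp only [dd2, Pi.sub_apply, Pi.mul_apply, id]
  field_simp; ring

end Pool.Agent.MP_39fec4_gt

end

section

set_option autoImplicit false

namespace Pool.Agent.MP_39fec4_gt

open MeasureTheory Set Filter Topology

noncomputable def W (a x : ℝ) : ℝ := x ^ a * gg x

noncomputable def EE (s : ℝ) : ℝ := Real.exp (s ^ 2 / 4)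

noncomputable def Z2 : ℝ := √Real.pi / 2

variable {a x η : ℝ}

theorem EE_pos (s : ℝ) : 0 < EE s := Real.exp_pos _

theorem one_le_EE (s : ℝ) : 1 ≤ EE s := Real.one_le_exp (by positivity)

theorem Z2_bounds : 4 / 5 ≤ Z2 ∧ Z2 ≤ 1 := by
  have h1 : 8 / 5 ≤ √Real.pi := Real.le_sqrt_of_sq_le (by linarith [Real.pi_gt_three])
  have h2 : √Real.pi ≤ 2 := Real.sqrt_le_iff.2 ⟨by norm_num, by linarith [Real.pi_lt_four]⟩
  unfold Z2; constructor <;> linarith

theorem int_W (ha : -1 < a) : IntegrableOn (W a) (Ioi 0) := by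
  have := integrableOn_rpow_mul_exp_neg_mul_sq (b := 1) one_pos ha
  refine this.congr_fun (fun x _ => ?_) measurableSet_Ioi
  simp [W, gg]

theorem W_pos (a : ℝ) (hx : 0 < x) : 0 < W a x := mul_pos (Real.rpow_pos_of_pos hx a) (gg_pos x)

theorem W_succ (a : ℝ) (hx : 0 < x) : W (a + 1) x = x * W a x := by
  rw [W, W, Real.rpow_add_one hx.ne']; ring

theorem W_zero (x : ℝ) : W 0 x = gg x := by simp [W]

theorem W_one (x : ℝ) : W 1 x = x * gg x := by simp [W]

theorem W_two (x : ℝ) : W 2 x = x ^ 2 * gg x := by simp [W]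

theorem W_add_two (a : ℝ) (hx : 0 < x) : W (2 + a) x = x ^ 2 * x ^ a * gg x := by
  rw [W, Real.rpow_add hx, Real.rpow_two]

theorem hasDerivAt_W (a : ℝ) (hx : 0 < x) :
    HasDerivAt (W a) (a * W (a - 1) x + (-2) * W (a + 1) x) x := by
  refine ((hasDerivAt_u a hx).mul (hasDerivAt_gg x)).congr_deriv ?_
  rw [W, W, Real.rpow_add_one hx.ne', Real.rpow_sub_one hx.ne']; ring

theorem tendsto_W (ha : 0 < a) : Tendsto (W a) (𝓝[>] 0) (𝓝 0) := by
  have h1 : Continuous (W a) := by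
    have : Continuous fun x : ℝ => x ^ a := Real.continuous_rpow_const ha.le
    unfold W gg; fun_prop
  have := (h1.tendsto 0).mono_left (nhdsWithin_le_nhds (s := Ioi 0))
  rwa [W, Real.zero_rpow ha.ne', zero_mul] at this

theorem parts_cos_W (ha : 0 < a) (s : ℝ) :
    s * cosT (W a) s = -(a * sinT (W (a - 1)) s + (-2) * sinT (W (a + 1)) s) := by
  have i1 := int_W (a := a - 1) (by linarith)
  have i2 := int_W (a := a + 1) (by linarith)
  rw [parts_cos (int_W (by linarith)) ((i1.const_mul a).add (i2.const_mul (-2)))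
    (fun x hx => hasDerivAt_W a hx) (tendsto_W ha) s, ← sinT_lin i1 i2]
  rfl

theorem parts_sin_W (ha : 0 < a) (s : ℝ) :
    s * sinT (W a) s = a * cosT (W (a - 1)) s + (-2) * cosT (W (a + 1)) s := by
  have i1 := int_W (a := a - 1) (by linarith)
  have i2 := int_W (a := a + 1) (by linarith)
  rw [parts_sin (int_W (by linarith)) ((i1.const_mul a).add (i2.const_mul (-2)))
    (fun x hx => hasDerivAt_W a hx) (tendsto_W ha) s, ← cosT_lin i1 i2]
  rfl

theorem parts_cos_W0 (s : ℝ) : s * cosT (W 0) s = 2 * sinT (W 1) s := by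
  have i2 := int_W (a := 1) (by norm_num)
  have hc : Continuous (W 0) := by
    have : W 0 = gg := funext W_zero
    rw [this]; unfold gg; fun_prop
  have := parts_cos (k := W 0) (k' := fun x => (-2) * W 1 x + 0 * W 1 x) (int_W (by norm_num))
    ((i2.const_mul _).add (i2.const_mul _))
    (fun x hx => (hasDerivAt_W 0 hx).congr_deriv (by simp))
    ((hc.tendsto 0).mono_left nhdsWithin_le_nhds) s
  rw [sinT_lin i2 i2] at this
  linarith

theorem hasDerivAt_EE (s : ℝ) : HasDerivAt EE (s / 2 * EE s) s := by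
  refine ((hasDerivAt_pow 2 s).div_const 4).exp.congr_deriv ?_
  simp [EE]; ring

theorem hasDerivAt_C (ha : -1 < a) (s : ℝ) :
    HasDerivAt (cosT (W a)) (-sinT (W (a + 1)) s) s :=
  hasDerivAt_cosT (int_W ha) (int_W (by linarith)) (fun _ hx => W_succ a hx) s

theorem hasDerivAt_S (ha : -1 < a) (s : ℝ) :
    HasDerivAt (sinT (W a)) (cosT (W (a + 1)) s) s :=
  hasDerivAt_sinT (int_W ha) (int_W (by linarith)) (fun _ hx => W_succ a hx) s

theorem hasDerivAt_EC (ha : 0 < a) (s : ℝ) :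
    HasDerivAt (fun s => EE s * cosT (W a) s) (-(a / 2) * (EE s * sinT (W (a - 1)) s)) s := by
  refine ((hasDerivAt_EE s).mul (hasDerivAt_C (by linarith) s)).congr_deriv ?_
  have := parts_cos_W ha s
  linear_combination EE s / 2 * this

theorem hasDerivAt_ES (ha : 0 < a) (s : ℝ) :
    HasDerivAt (fun s => EE s * sinT (W a) s) (a / 2 * (EE s * cosT (W (a - 1)) s)) s := by
  refine ((hasDerivAt_EE s).mul (hasDerivAt_S (by linarith) s)).congr_deriv ?_
  have := parts_sin_W ha s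
  linear_combination EE s / 2 * this

theorem EE_mul_C0 (s : ℝ) : EE s * cosT (W 0) s = Z2 := by
  have hd : ∀ s, HasDerivAt (fun s => EE s * cosT (W 0) s) 0 s := fun s => by
    refine ((hasDerivAt_EE s).mul (hasDerivAt_C (by norm_num) s)).congr_deriv ?_
    have := parts_cos_W0 s
    rw [zero_add]
    linear_combination EE s / 2 * this
  have := is_const_of_deriv_eq_zero (fun s => (hd s).differentiableAt) (fun s => (hd s).deriv) s 0
  rw [this, cosT_zero]
  have h := integral_gaussian_Ioi 1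
  simp only [neg_mul, one_mul, div_one] at h
  simp [EE, W_zero, gg, h, Z2]

theorem C0_eq (s : ℝ) : cosT (W 0) s = Z2 * Real.exp (-s ^ 2 / 4) := by
  rw [← EE_mul_C0 s, EE, mul_right_comm, ← Real.exp_add]
  simp [neg_div]

theorem S1_eq (s : ℝ) : sinT (W 1) s = s / 2 * (Z2 * Real.exp (-s ^ 2 / 4)) := by
  rw [← C0_eq]; linarith [parts_cos_W0 s]

theorem C2_eq (s : ℝ) : cosT (W 2) s = (1 / 2 - s ^ 2 / 4) * (Z2 * Real.exp (-s ^ 2 / 4)) := by
  have := parts_sin_W one_pos s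
  rw [sub_self, one_add_one_eq_two, S1_eq, C0_eq] at this
  linarith

/-- The integration by parts against `1 - cos`. -/
theorem sin_lower (h0 : 0 < η) (h1 : η ≤ 1) (s : ℝ) :
    cosT (W η) 0 ≤ s / 2 * sinT (W (η - 1)) s + cosT (W η) s := by
  have i0 := int_W (a := η) (by linarith)
  have i1 := int_W (a := η - 1) (by linarith)
  have c0 : ∀ a, ContinuousOn (W a) (Ioi 0) := fun a => (contOn_rpow a).mul contOn_gg
  have hW : ∀ x, 0 < x → x ^ 2 * W (η - 1 - 1) x = W η x := fun x hx => by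
    have a1 := W_succ (η - 1 - 1) hx
    have a2 := W_succ (η - 1) hx
    rw [sub_add_cancel] at a1 a2
    rw [a2, a1]; ring
  have i2 : IntegrableOn (fun x => W (η - 1 - 1) x * (1 - Real.cos (s * x))) (Ioi 0) := by
    refine (i0.const_mul (s ^ 2)).mono'
      (((c0 _).mul (by fun_prop)).aestronglyMeasurable measurableSet_Ioi)
      ((ae_restrict_iff' measurableSet_Ioi).2 (Eventually.of_forall fun x hx => ?_))
    have hp := W_pos (η - 1 - 1) hx
    rw [Real.norm_eq_abs, abs_mul, abs_of_pos hp, abs_sub_comm, ← hW x hx]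
    calc _ ≤ W (η - 1 - 1) x * ((s * x) ^ 2 / 2) := by gcongr; exact abs_one_sub_cos_le _
      _ = s ^ 2 * (x ^ 2 * W (η - 1 - 1) x) / 2 := by ring
      _ ≤ _ := half_le_self (by positivity)
  have i3 := int_cos i0 s
  have i4 := int_sin i1 s
  have hinf : Tendsto (W (η - 1)) atTop (𝓝 0) := by
    have h2 := tendsto_zero_of_hasDerivAt_of_integrableOn_Ioi
      (fun x (hx : x ∈ Ioi (0 : ℝ)) => hasDerivAt_W η hx)
      ((i1.const_mul η).add ((int_W (a := η + 1) (by linarith)).const_mul (-2))) i0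
    refine squeeze_zero' ?_ ?_ h2
    · filter_upwards [eventually_gt_atTop 0] with x hx using (W_pos _ hx).le
    · filter_upwards [eventually_ge_atTop 1] with x hx
      have a2 := W_succ (η - 1) (by linarith : 0 < x)
      rw [sub_add_cancel] at a2
      rw [a2]
      exact le_mul_of_one_le_left (W_pos _ (by linarith)).le hx
  have key := integral_Ioi_deriv_mul_eq_sub (u := W (η - 1))
    (u' := fun x => (η - 1) * W (η - 1 - 1) x + (-2) * W η x)
    (v := fun x => 1 - Real.cos (s * x)) (v' := fun x => s * Real.sin (s * x))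
    (a := 0) (a' := 0) (b' := 0)
    (fun x hx => by simpa only [sub_add_cancel] using hasDerivAt_W (η - 1) hx)
    (fun x _ => by
      have := ((hasDerivAt_id x).const_mul s).cos.const_sub 1
      refine this.congr_deriv ?_
      simp; ring)
    ((((i2.const_mul (η - 1)).add (i0.const_mul (-2))).add ((i3.const_mul 2).add
      (i4.const_mul s))).congr (Eventually.of_forall fun x => by simp; ring))
    (by
      refine squeeze_zero_norm' ?_ (by simpa using (tendsto_W (a := η + 1) (by linarith)).const_mul (s ^ 2))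
      filter_upwards [self_mem_nhdsWithin] with x hx
      have hx : 0 < x := hx
      have hp := W_pos (η - 1) hx
      have a2 := W_succ (η - 1) hx
      rw [sub_add_cancel] at a2
      rw [Pi.mul_apply, Real.norm_eq_abs, abs_mul, abs_of_pos hp, abs_sub_comm, W_succ η hx, a2]
      calc _ ≤ W (η - 1) x * ((s * x) ^ 2 / 2) := by gcongr; exact abs_one_sub_cos_le _
        _ = s ^ 2 * (x * (x * W (η - 1) x)) / 2 := by ring
        _ ≤ _ := half_le_self (by positivity))
    (tendsto_mul_bdd_atTop hinf (B := 2) fun x => by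
      have := Real.cos_le_one (s * x)
      have := Real.neg_one_le_cos (s * x)
      rw [abs_le]; constructor <;> linarith)
  have e : ∫ x in Ioi (0 : ℝ), (((η - 1) * W (η - 1 - 1) x + (-2) * W η x) *
      (1 - Real.cos (s * x)) + W (η - 1) x * (s * Real.sin (s * x))) =
      ((η - 1) * (∫ x in Ioi (0 : ℝ), W (η - 1 - 1) x * (1 - Real.cos (s * x))) +
        (-2) * cosT (W η) 0) + (2 * cosT (W η) s + s * sinT (W (η - 1)) s) := by
    rw [cosT_zero]
    unfold cosT sinT
    rw [← integral_const_mul, ← integral_const_mul, ← integral_const_mul, ← integral_const_mul,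
      ← integral_add (i2.const_mul _) (i0.const_mul _),
      ← integral_add (i3.const_mul _) (i4.const_mul _)]
    refine Eq.trans ?_ (integral_add ((i2.const_mul _).add (i0.const_mul _))
        ((i3.const_mul _).add (i4.const_mul _)))
    congr 1; funext x; simp; ring
  rw [e] at key
  have hpos : 0 ≤ ∫ x in Ioi (0 : ℝ), W (η - 1 - 1) x * (1 - Real.cos (s * x)) :=
    setIntegral_nonneg measurableSet_Ioi fun x hx =>
      mul_nonneg (W_pos _ hx).le (by linarith [Real.cos_le_one (s * x)])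
  nlinarith

theorem ES_lower (h0 : 0 < η) (h1 : η ≤ 1) {m : ℝ} (hm : 0 ≤ m) (hm' : m ≤ cosT (W η) 0) {s : ℝ}
    (hs : 0 ≤ s) : m * s ≤ EE s * sinT (W (η - 1)) s := by
  have := nonneg_of_deriv (f := fun s => EE s * sinT (W (η - 1)) s - m * s)
    (f' := fun s => EE s * (s / 2 * sinT (W (η - 1)) s + cosT (W η) s) - m) (fun s => by
      have := ((hasDerivAt_EE s).mul (hasDerivAt_S (a := η - 1) (by linarith) s)).sub
        ((hasDerivAt_id s).const_mul m)
      refine this.congr_deriv ?_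
      rw [sub_add_cancel]; ring) (by simp [sinT_zero]) (fun s _ => by
      have := sin_lower h0 h1 s
      have := one_le_EE s
      nlinarith) hs
  linarith

/-- The first order term. -/
noncomputable def h0f (η s : ℝ) : ℝ :=
  EE s * cosT (W 0) s + EE s * cosT (W 2) s - EE s * cosT (W (2 + η)) s

noncomputable def h1f (η s : ℝ) : ℝ := -(s / 2 * Z2) + (2 + η) / 2 * (EE s * sinT (W (1 + η)) s)

noncomputable def h2f (η s : ℝ) : ℝ :=
  -(Z2 / 2) + (2 + η) / 2 * ((1 + η) / 2 * (EE s * cosT (W η) s))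

theorem hasDerivAt_h0f (h0 : 0 < η) (s : ℝ) : HasDerivAt (h0f η) (h1f η s) s := by
  have e : h0f η = fun s => Z2 + (1 / 2 - s ^ 2 / 4) * Z2 - EE s * cosT (W (2 + η)) s := by
    funext s
    rw [h0f, EE_mul_C0, C2_eq, ← C0_eq, mul_left_comm, EE_mul_C0]
  rw [e]
  have := (((((hasDerivAt_pow 2 s).div_const 4).const_sub (1 / 2)).mul_const Z2).const_add Z2).sub
    (hasDerivAt_EC (a := 2 + η) (by linarith) s)
  refine this.congr_deriv ?_
  rw [h1f, show 2 + η - 1 = 1 + η by ring]; push_cast; ring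

theorem hasDerivAt_h1f (h0 : 0 < η) (s : ℝ) : HasDerivAt (h1f η) (h2f η s) s := by
  have := ((((hasDerivAt_id s).div_const 2).mul_const Z2).neg).add
    ((hasDerivAt_ES (a := 1 + η) (by linarith) s).const_mul ((2 + η) / 2))
  refine this.congr_deriv ?_
  rw [h2f, show 1 + η - 1 = η by ring]; ring

theorem h0f_conc (h0 : 0 < η) (h1 : η ≤ 1) {m : ℝ} (hm : 0 ≤ m) (hm' : m ≤ cosT (W η) 0) {s : ℝ}
    (hs : 0 ≤ s) : s * h2f η s - h1f η s ≤ -(η * m / 12 * s ^ 3) := by
  have := nonneg_of_deriv (f := fun s => h1f η s - s * h2f η s - η * m / 12 * s ^ 3)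
    (f' := fun s => s * ((2 + η) / 2 * ((1 + η) / 2 * (η / 2 * (EE s * sinT (W (η - 1)) s)))) -
      η * m / 4 * s ^ 2) (fun s => by
      have h2 : HasDerivAt (h2f η)
          ((2 + η) / 2 * ((1 + η) / 2 * (-(η / 2) * (EE s * sinT (W (η - 1)) s)))) s :=
        (((hasDerivAt_EC h0 s).const_mul _).const_mul _).const_add _
      have := ((hasDerivAt_h1f h0 s).sub ((hasDerivAt_id s).mul h2)).sub
        ((hasDerivAt_pow 3 s).const_mul (η * m / 12))
      refine this.congr_deriv ?_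
      simp; ring) (by simp [h1f, sinT_zero]) (fun s hs => by
      have h := ES_lower h0 h1 hm hm' hs.le
      have hms : 0 ≤ m * s := by positivity
      have : s * (2 / 2 * (1 / 2 * (η / 2 * (m * s)))) ≤
          s * ((2 + η) / 2 * ((1 + η) / 2 * (η / 2 * (EE s * sinT (W (η - 1)) s)))) := by
        gcongr <;> linarith
      nlinarith) hs
  linarith

end Pool.Agent.MP_39fec4_gt

end

section

set_option autoImplicit false

namespace Pool.Agent.MP_39fec4_gt

open MeasureTheory Set Filter Topology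

noncomputable def KK : ℝ := ∫ x in Ioi (0 : ℝ), BB x

theorem KK_nonneg : 0 ≤ KK := setIntegral_nonneg measurableSet_Ioi fun _ hx => (BB_pos hx).le

theorem int_cBB (c : ℝ) : IntegrableOn (fun x => c * BB x) (Ioi 0) := integrableOn_BB.const_mul c

theorem integral_cBB (c : ℝ) : ∫ x in Ioi (0 : ℝ), c * BB x = c * KK := integral_const_mul _ _

theorem int_of_BB {f : ℝ → ℝ} {c : ℝ} (hf : ContinuousOn f (Ioi 0))
    (h : ∀ x, 0 < x → |f x| ≤ c * BB x) : IntegrableOn f (Ioi 0) :=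
  (int_cBB c).mono' (hf.aestronglyMeasurable measurableSet_Ioi)
    ((ae_restrict_iff' measurableSet_Ioi).2 (Eventually.of_forall fun x hx => h x hx))

theorem int_pow_of_BB {f : ℝ → ℝ} {c : ℝ} {j : ℕ} (hf : ContinuousOn f (Ioi 0))
    (h : ∀ x, 0 < x → x ^ j * |f x| ≤ c * BB x) : IntegrableOn (fun x => x ^ j * f x) (Ioi 0) :=
  int_of_BB (c := c) (ContinuousOn.mul (by fun_prop) hf) fun x hx => by
    rw [abs_mul, abs_of_pos (pow_pos hx j)]; exact h x hx

variable {η : ℝ}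

theorem cont_gg : Continuous gg := by unfold gg; fun_prop

theorem cont_kk (h0 : 0 < η) : Continuous (kk η) := by
  have : Continuous fun x : ℝ => x ^ η := Real.continuous_rpow_const h0.le
  unfold kk; fun_prop

theorem cont_dd (h0 : 0 < η) : Continuous (dd η) := (cont_kk h0).sub cont_gg

theorem cont_dd1 (h0 : 0 < η) : Continuous (dd1 η) := by
  have : Continuous fun x : ℝ => x ^ η := Real.continuous_rpow_const h0.le
  have := cont_kk h0
  have := cont_gg
  unfold dd1; fun_prop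

theorem cont_dd2 (h0 : 0 < η) : Continuous (dd2 η) := by
  have : Continuous fun x : ℝ => x ^ η := Real.continuous_rpow_const h0.le
  have := cont_kk h0
  have := cont_gg
  unfold dd2; fun_prop

theorem cont_rr (h0 : 0 < η) : Continuous (rr η) := by
  have : Continuous fun x : ℝ => x ^ η := Real.continuous_rpow_const h0.le
  have := cont_kk h0
  have := cont_gg
  unfold rr; fun_prop

theorem tendsto_of_cont {f : ℝ → ℝ} (hf : Continuous f) : Tendsto f (𝓝[>] 0) (𝓝 (f 0)) :=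
  (hf.tendsto 0).mono_left nhdsWithin_le_nhds

theorem parts2_cos {u u1 u2 : ℝ → ℝ} {c : ℝ} (i0 : IntegrableOn u (Ioi 0))
    (i1 : IntegrableOn u1 (Ioi 0)) (c0 : Continuous u) (c1 : Continuous u1) (c2 : Continuous u2)
    (d1 : ∀ x, 0 < x → HasDerivAt u (u1 x) x) (d2 : ∀ x, 0 < x → HasDerivAt u1 (u2 x) x)
    (z : u1 0 = 0) (hb : ∀ x, 0 < x → |u2 x| ≤ c * BB x) (s : ℝ) :
    s ^ 2 * |cosT u s| ≤ c * KK := by
  have a1 := parts_cos i0 i1 d1 (tendsto_of_cont c0) s
  have a2 := parts_sin i1 (int_of_BB c2.continuousOn hb) d2 (by simpa [z] using tendsto_of_cont c1) s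
  have a3 := abs_cosT_le (int_cBB c) hb s
  rw [integral_cBB, ← a2] at a3
  have : s * sinT u1 s = -(s ^ 2 * cosT u s) := by linear_combination s * a1
  rwa [this, abs_neg, abs_mul, abs_of_nonneg (sq_nonneg s)] at a3

theorem parts2_sin {u u1 u2 : ℝ → ℝ} {c : ℝ} (i0 : IntegrableOn u (Ioi 0))
    (i1 : IntegrableOn u1 (Ioi 0)) (c0 : Continuous u) (c1 : Continuous u1) (c2 : Continuous u2)
    (d1 : ∀ x, 0 < x → HasDerivAt u (u1 x) x) (d2 : ∀ x, 0 < x → HasDerivAt u1 (u2 x) x)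
    (z : u 0 = 0) (hb : ∀ x, 0 < x → |u2 x| ≤ c * BB x) (s : ℝ) :
    s ^ 2 * |sinT u s| ≤ c * KK := by
  have a1 := parts_sin i0 i1 d1 (by simpa [z] using tendsto_of_cont c0) s
  have a2 := parts_cos i1 (int_of_BB c2.continuousOn hb) d2 (tendsto_of_cont c1) s
  have a3 := abs_sinT_le (int_cBB c) hb s
  rw [integral_cBB] at a3
  have : sinT u2 s = -(s ^ 2 * sinT u s) := by linear_combination a2 + s * a1
  rwa [this, abs_neg, abs_mul, abs_of_nonneg (sq_nonneg s)] at a3

section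
variable (h0 : 0 < η) (h1 : η ≤ 1)
include h0 h1

theorem int_dd {j : ℕ} (hj : j ≤ 4) : IntegrableOn (fun x => x ^ j * dd η x) (Ioi 0) :=
  int_pow_of_BB (cont_dd h0).continuousOn fun _ hx => dd_le h0 h1 hx hj

theorem int_dd1 {j : ℕ} (hj : j ≤ 4) : IntegrableOn (fun x => x ^ j * dd1 η x) (Ioi 0) :=
  int_pow_of_BB (cont_dd1 h0).continuousOn fun _ hx => dd1_le h0 h1 hx hj

theorem int_rr {j : ℕ} (hj : j ≤ 4) : IntegrableOn (fun x => x ^ j * rr η x) (Ioi 0) :=
  int_pow_of_BB (cont_rr h0).continuousOn fun _ hx => rr_le h0 h1 hx hj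

theorem int_dd0 : IntegrableOn (dd η) (Ioi 0) := by simpa using int_dd h0 h1 (j := 0) (by norm_num)

theorem int_rr0 : IntegrableOn (rr η) (Ioi 0) := by simpa using int_rr h0 h1 (j := 0) (by norm_num)

theorem D_le (s : ℝ) : |cosT (dd η) s| ≤ 3 * η * KK := by
  rw [← integral_cBB]
  exact abs_cosT_le (int_cBB _) (fun x hx => by simpa using dd_le h0 h1 hx (j := 0) (by norm_num)) s

theorem D_sub_le (s : ℝ) : |cosT (dd η) s - cosT (dd η) 0| ≤ s ^ 2 * (3 * η * KK) := by
  rw [← integral_cBB]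
  exact abs_cosT_sub_le (int_dd0 h0 h1) (int_cBB _) (fun x hx => dd_le h0 h1 hx (by norm_num)) s

theorem D0_tail (s : ℝ) : s ^ 2 * |cosT (dd η) s| ≤ 198 * η * KK :=
  parts2_cos (int_dd0 h0 h1) (by simpa using int_dd1 h0 h1 (j := 0) (by norm_num)) (cont_dd h0)
    (cont_dd1 h0) (cont_dd2 h0) (fun _ hx => hasDerivAt_dd η hx) (fun _ hx => hasDerivAt_dd1 η hx)
    (by simp [dd1]) (fun x hx => by simpa using dd2_le h0 h1 hx (j := 0) (by norm_num)) s

theorem D1_tail (s : ℝ) : s ^ 2 * |sinT (fun x => x ^ 1 * dd η x) s| ≤ 396 * η * KK := by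
  have c0 := cont_dd h0
  have c1 := cont_dd1 h0
  have c2 := cont_dd2 h0
  refine parts2_sin (u1 := fun x => dd η x + x ^ 1 * dd1 η x)
    (u2 := fun x => 2 * dd1 η x + x * dd2 η x) (int_dd h0 h1 (by norm_num))
    ((int_dd0 h0 h1).add (int_dd1 h0 h1 (by norm_num))) (by fun_prop) (by fun_prop) (by fun_prop)
    (fun x hx => ?_) (fun x hx => ?_) (by simp) (fun x hx => ?_) s
  · refine ((hasDerivAt_pow 1 x).mul (hasDerivAt_dd η hx)).congr_deriv ?_
    simp
  · refine ((hasDerivAt_dd η hx).add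
      ((hasDerivAt_pow 1 x).mul (hasDerivAt_dd1 η hx))).congr_deriv ?_
    simp; ring
  · have a1 := dd1_le h0 h1 hx (j := 0) (by norm_num)
    have a2 := dd2_le h0 h1 hx (j := 1) (by norm_num)
    refine (abs_add_le _ _).trans ?_
    rw [abs_mul, abs_mul, abs_of_pos hx, abs_two]
    simp only [pow_zero, pow_one, one_mul] at a1 a2
    linarith

theorem D2_tail (s : ℝ) : s ^ 2 * |cosT (fun x => x ^ 2 * dd η x) s| ≤ 600 * η * KK := by
  have c0 := cont_dd h0
  have c1 := cont_dd1 h0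
  have c2 := cont_dd2 h0
  have i1 : IntegrableOn (fun x => 2 * (x ^ 1 * dd η x) + x ^ 2 * dd1 η x) (Ioi 0) :=
    ((int_dd h0 h1 (by norm_num)).const_mul 2).add (int_dd1 h0 h1 (by norm_num))
  refine parts2_cos
    (u2 := fun x => 2 * dd η x + 4 * (x * dd1 η x) + x ^ 2 * dd2 η x) (int_dd h0 h1 (by norm_num))
    i1
    (by fun_prop) (by fun_prop) (by fun_prop)
    (fun x hx => ?_) (fun x hx => ?_) (by simp) (fun x hx => ?_) s
  · refine ((hasDerivAt_pow 2 x).mul (hasDerivAt_dd η hx)).congr_deriv ?_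
    simp; ring
  · refine ((((hasDerivAt_pow 1 x).mul (hasDerivAt_dd η hx)).const_mul 2).add
      ((hasDerivAt_pow 2 x).mul (hasDerivAt_dd1 η hx))).congr_deriv ?_
    simp; ring
  · have a0 := dd_le h0 h1 hx (j := 0) (by norm_num)
    have a1 := dd1_le h0 h1 hx (j := 1) (by norm_num)
    have a2 := dd2_le h0 h1 hx (j := 2) (by norm_num)
    refine (abs_add_three _ _ _).trans ?_
    rw [abs_mul, abs_mul, abs_mul, abs_mul, abs_of_pos hx, abs_two, abs_of_nonneg (sq_nonneg x),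
      abs_of_pos (by norm_num : (0 : ℝ) < 4)]
    simp only [pow_zero, pow_one, one_mul] at a0 a1 a2
    linarith

theorem int_kk {j : ℕ} (hj : j ≤ 4) : IntegrableOn (fun x => x ^ j * kk η x) (Ioi 0) := by
  refine ((int_W (a := j) (by have : (0 : ℝ) ≤ j := by positivity
                              linarith)).add (int_dd h0 h1 hj)).congr_fun (fun x _ => ?_)
    measurableSet_Ioi
  simp only [Pi.add_apply, W, dd, Real.rpow_natCast]; ring

theorem int_kk0 : IntegrableOn (kk η) (Ioi 0) := by simpa using int_kk h0 h1 (j := 0) (by norm_num)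

theorem cos_kk (s : ℝ) : cosT (kk η) s = Z2 * Real.exp (-s ^ 2 / 4) + cosT (dd η) s := by
  have := cosT_lin (int_W (a := 0) (by norm_num)) (int_dd0 h0 h1) 1 1 s
  rw [C0_eq, one_mul, one_mul] at this
  rw [← this]
  exact congrFun (cosT_congr fun x _ => by simp [W_zero, dd]) s

theorem sin_kk1 (s : ℝ) : sinT (fun x => x ^ 1 * kk η x) s =
    s / 2 * (Z2 * Real.exp (-s ^ 2 / 4)) + sinT (fun x => x ^ 1 * dd η x) s := by
  have := sinT_lin (int_W (a := 1) (by norm_num)) (int_dd h0 h1 (j := 1) (by norm_num)) 1 1 s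
  rw [S1_eq, one_mul, one_mul] at this
  rw [← this]
  exact congrFun (sinT_congr fun x _ => by simp only [W_one, dd]; ring) s

theorem cos_kk2 (s : ℝ) : cosT (fun x => x ^ 2 * kk η x) s =
    (1 / 2 - s ^ 2 / 4) * (Z2 * Real.exp (-s ^ 2 / 4)) + cosT (fun x => x ^ 2 * dd η x) s := by
  have := cosT_lin (int_W (a := 2) (by norm_num)) (int_dd h0 h1 (j := 2) (by norm_num)) 1 1 s
  rw [C2_eq, one_mul, one_mul] at this
  rw [← this]
  exact congrFun (cosT_congr fun x _ => by simp only [W_two, dd]; ring) s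

theorem cos_kk_split (s : ℝ) : EE s * cosT (kk η) s = h0f η s + EE s * cosT (rr η) s := by
  have i0 := int_W (a := 0) (by norm_num)
  have i2 := int_W (a := 2) (by norm_num)
  have i3 := int_W (a := 2 + η) (by linarith)
  have i4 := int_rr0 h0 h1
  have a1 := cosT_lin i0 i2 1 1 s
  have a2 := cosT_lin i3 i4 (-1) 1 s
  have a3 := cosT_lin (k := fun x => 1 * W 0 x + 1 * W 2 x)
    (l := fun x => -1 * W (2 + η) x + 1 * rr η x) ((i0.const_mul 1).add (i2.const_mul 1))
    ((i3.const_mul _).add (i4.const_mul 1)) 1 1 s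
  rw [cosT_congr (l := kk η) fun x hx => by
    rw [W_zero, W_two, W_add_two η hx, rr]; ring, a1, a2] at a3
  rw [a3, h0f]; ring

theorem m_lower : Z2 - 2 * η * KK ≤ cosT (W η) 0 := by
  have i0 := int_W (a := 0) (by norm_num)
  have i1 := int_W (a := η) (by linarith)
  have a1 := cosT_lin i1 i0 1 (-1) 0
  have a2 := abs_cosT_le (k := fun x => 1 * W η x + -1 * W 0 x) (int_cBB (2 * η)) (fun x hx => by
    have := delta_gg_le h0 h1 hx
    rw [W_zero, W]; simpa [sub_eq_add_neg] using this) 0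
  rw [a1, integral_cBB, C0_eq] at a2
  have := (abs_le.1 a2).1
  simp at this
  linarith

theorem R_le (s : ℝ) : |cosT (rr η) s| ≤ η ^ 2 * KK := by
  rw [← integral_cBB]
  exact abs_cosT_le (int_cBB _) (fun x hx => by simpa using rr_le h0 h1 hx (j := 0) (by norm_num)) s

theorem R_sub_le (s : ℝ) : |cosT (rr η) s - cosT (rr η) 0| ≤ s ^ 2 * (η ^ 2 * KK) := by
  rw [← integral_cBB]
  exact abs_cosT_sub_le (int_rr0 h0 h1) (int_cBB _) (fun x hx => rr_le h0 h1 hx (by norm_num)) s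

end

noncomputable def rho1 (η s : ℝ) : ℝ :=
  EE s * (s / 2 * cosT (rr η) s - sinT (fun x => x ^ 1 * rr η x) s)

noncomputable def rho2 (η s : ℝ) : ℝ :=
  EE s * (s ^ 2 / 4 * cosT (rr η) s - s * sinT (fun x => x ^ 1 * rr η x) s + cosT (rr η) s / 2 -
    cosT (fun x => x ^ 2 * rr η x) s)

section
variable (h0 : 0 < η) (h1 : η ≤ 1)
include h0 h1

theorem hasDerivAt_R (s : ℝ) : HasDerivAt (cosT (rr η)) (-sinT (fun x => x ^ 1 * rr η x) s) s :=
  hasDerivAt_cosT (int_rr0 h0 h1) (int_rr h0 h1 (by norm_num)) (fun x _ => by simp) s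

theorem hasDerivAt_rho (s : ℝ) : HasDerivAt (fun s => EE s * cosT (rr η) s) (rho1 η s) s := by
  refine ((hasDerivAt_EE s).mul (hasDerivAt_R h0 h1 s)).congr_deriv ?_
  rw [rho1]; ring

theorem hasDerivAt_rho1 (s : ℝ) : HasDerivAt (rho1 η) (rho2 η s) s := by
  have := (hasDerivAt_EE s).mul ((((hasDerivAt_id s).div_const 2).mul (hasDerivAt_R h0 h1 s)).sub
    (hasDerivAt_sinT (int_rr h0 h1 (j := 1) (by norm_num)) (int_rr h0 h1 (j := 2) (by norm_num))
      (fun x _ => by ring) s))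
  refine this.congr_deriv ?_
  simp only [rho2, Pi.sub_apply, Pi.mul_apply, id]; ring

theorem rho_le {s : ℝ} (hs : 0 ≤ s) : s * rho2 η s - rho1 η s ≤ EE s * (3 * η ^ 2 * KK * s ^ 3) := by
  have a1 := R_le h0 h1 s
  have a2 := abs_sinT_le' (k := fun x => x ^ 1 * rr η x) (int_cBB (η ^ 2)) (fun x hx => by
    have := rr_le h0 h1 hx (j := 2) (by norm_num)
    rw [abs_mul, pow_one, abs_of_pos hx]; nlinarith) hs
  have a3 := abs_sinT_sub_cosT_le (int_rr h0 h1 (j := 1) (by norm_num))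
    (int_rr h0 h1 (j := 2) (by norm_num)) (fun x _ => by ring) (int_cBB (η ^ 2)) (fun x hx => by
    have := rr_le h0 h1 hx (j := 4) (by norm_num)
    rw [abs_mul, pow_one, abs_of_pos hx]; nlinarith) hs
  rw [integral_cBB] at a2 a3
  have e : s * rho2 η s - rho1 η s = EE s * (s ^ 3 / 4 * cosT (rr η) s -
      s ^ 2 * sinT (fun x => x ^ 1 * rr η x) s +
      (sinT (fun x => x ^ 1 * rr η x) s - s * cosT (fun x => x ^ 2 * rr η x) s)) := by
    rw [rho1, rho2]; ring
  rw [e]
  have := EE_pos s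
  gcongr
  have b1 := mul_le_mul_of_nonneg_left (abs_le.1 a1).2 (by positivity : 0 ≤ s ^ 3 / 4)
  have b2 := mul_le_mul_of_nonneg_left (abs_le.1 a2).1 (sq_nonneg s)
  have b3 := (abs_le.1 a3).2
  have : 0 ≤ s ^ 3 * (η ^ 2 * KK) := by have := KK_nonneg; positivity
  nlinarith

end

end Pool.Agent.MP_39fec4_gt

end
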