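import Pool.Agent.Mg.F39fec4.G66192e

section

set_option autoImplicit false

namespace Pool.Agent.MP_39fec4_gt.K

open Set MeasureTheory Full

variable {B : Blk} {Q : ℕ → ℕ → ℕ} {E : ℕ → ℕ} {q : ℝ} {ι : Type} {T : Finset ι}

/-- The coordinates handled by a run with an unknown number of inner factors. -/
structure InP (k ra rb x1l x1h x2l x2h : ℕ) {ι : Type} (T : Finset ι) (x : ι → ℝ)
    (x1 x2 : ℝ) : Prop where
  k1 : 1 ≤ k
  card : k ≤ T.card
  sum : rr ra ≤ ∑ j ∈ T, x j ∧ ∑ j ∈ T, x j ≤ rr rb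
  one : x1 + x2 + ∑ j ∈ T, x j = 1
  rng : ∀ j ∈ T, 0 ≤ x j ∧ x j ≤ x2
  p1 : 0 < x1
  le : x2 ≤ x1
  o1 : rr x1l ≤ x1 ∧ x1 ≤ rr x1h
  o2 : rr x2l ≤ x2 ∧ x2 ≤ rr x2h
  big : 2 ≤ (k + 2) * (x1 + x2)

/-- The integrand used against the Ball point. -/
noncomputable def FP2 (g : ℝ → ℝ) (k : ℕ) (x1 x2 : ℝ) {ι : Type} (T : Finset ι) (x : ι → ℝ)
    (s : ℝ) : ℝ :=
  g (x1 * s ^ 2) * g (x2 * s ^ 2) * ∏ j ∈ T, g (x j * s ^ 2) -
    P3 g x1 x2 ((∑ j ∈ T, x j) / k) k (s ^ 2)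

/-- The integrand used against the diagonal, without the negative part. -/
noncomputable def FP1 (g : ℝ → ℝ) (k : ℕ) (x1 x2 : ℝ) {ι : Type} (T : Finset ι) (x : ι → ℝ)
    (s : ℝ) : ℝ :=
  FP2 g k x1 x2 T x s + g (s ^ 2 / ((k + 2 : ℕ) : ℝ)) ^ (k + 2) -
    g (s ^ 2 / ((T.card + 2 : ℕ) : ℝ)) ^ (T.card + 2) - ngp g (T.card + 2) s

theorem InP.int (h : BOK B Q E) (hq : q ∈ B.I) {k ra rb x1l x1h x2l x2h : ℕ} {x : ι → ℝ}
    {x1 x2 : ℝ} (hP : InP k ra rb x1l x1h x2l x2h T x x1 x2) :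
    IntegrableOn (FP1 (B.g 0 q) k x1 x2 T x) (Ioi 0) ∧
      IntegrableOn (FP2 (B.g 0 q) k x1 x2 T x) (Ioi 0) := by
  have a1 := int_IX h.sc hq hP.p1 x2 T x
  have a2 := int_IX h.sc hq hP.p1 x2 (Finset.range k) (fun _ => (∑ j ∈ T, x j) / k)
  have a3 : IntegrableOn (FP2 (B.g 0 q) k x1 x2 T x) (Ioi 0) := by
    refine (a1.sub a2).congr_fun (fun s _ => ?_) measurableSet_Ioi
    simp only [Pi.sub_apply, FP2, P3, Finset.prod_const, Finset.card_range]
  have a4 : ∀ n : ℕ, IntegrableOn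
      (fun s : ℝ => B.g 0 q (s ^ 2 / ((n + 2 : ℕ) : ℝ)) ^ (n + 2)) (Ioi 0) := fun n => by
    have hn : (0 : ℝ) < 1 / ((n + 2 : ℕ) : ℝ) := by positivity
    refine (int_pow h.sc hq hn (k := n + 2) (by omega)).congr_fun (fun s _ => ?_)
      measurableSet_Ioi
    simp only [one_div_mul_eq_div]
  have a5 := int_ngp h hq (n := T.card + 2) (by omega)
  exact ⟨((a3.add (a4 k)).sub (a4 T.card)).sub a5, a3⟩

namespace YCellPX

/-- The first lobe bound. -/
def p1N (B : Blk) (k tl th w : ℕ) : ℕ :=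
  bif Nat.ble (th / k + 1) B.z2 then
    min (expU (mulD B.lam tl) + pNeg w k - pLop w k)
      (mulU (B.lamh - B.lam) th + powU (mulU B.lamh th) 2 / k + 1)
  else expU (mulD B.lam tl) + pNeg w k - pLop w k

/-- The bound used when the outer factor is negative. -/
def dnN (B : Blk) (k b ym tl th R w : ℕ) : ℕ :=
  bif Nat.beq (prodLo B R ym th) 0 then pHi w k + envDn B b ym tl (gNeg R) - pHin w k
  else pHi w k - prodLo B R ym th

/-- The pointwise bound. -/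
def cpN (B : Blk) (Q : ℕ → ℕ → ℕ) (k b ym tl th R w c1 c2 : ℕ) : ℕ :=
  max (mulU (oHi c1 c2)
      (max (p1N B k tl th w) (envUp B Q b ym tl th (gNeg R) + pNeg w k - pLop w k)))
    (bif Nat.beq (oNeg c1 c2) 0 then 0 else mulU (oNeg c1 c2) (dnN B k b ym tl th R w))

theorem p1N_spec (h : BOK B Q E) (hq : q ∈ B.I) {k tl th w : ℕ} (hk : 1 ≤ k) {y : ι → ℝ}
    (hy : FL B q T y) (hl : rr tl ≤ ∑ j ∈ T, y j) (hh : ∑ j ∈ T, y j ≤ rr th)
    (hw : InR w (B.g 0 q ((∑ j ∈ T, y j) / k))) :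
    ∏ j ∈ T, B.g 0 q (y j) - B.g 0 q ((∑ j ∈ T, y j) / k) ^ k ≤ rr (p1N B k tl th w) := by
  have hs := h.sc.sm_g hq
  have hd := h.hd q hq
  have a1 := hd.prod_exp_le hs T y hy
  have a2 : Real.exp (-(rr B.lam * ∑ j ∈ T, y j)) ≤ rr (expU (mulD B.lam tl)) :=
    le_expU (mulD_le_of le_rfl hl)
  have a3 := pLop_le hw k
  have a4 := rr_sub_ge (expU (mulD B.lam tl) + pNeg w k) (pLop w k)
  rw [rr_add] at a4
  have a5 : ∏ j ∈ T, B.g 0 q (y j) - B.g 0 q ((∑ j ∈ T, y j) / k) ^ k ≤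
      rr (expU (mulD B.lam tl) + pNeg w k - pLop w k) := by linarith
  unfold p1N
  cases hb : Nat.ble (th / k + 1) B.z2
  · exact a5
  · rw [cond_true, rr_min]
    refine le_min a5 ?_
    have hb' : th / k + 1 ≤ B.z2 := Nat.ble_eq.mp hb
    have hk0 : (0 : ℝ) < k := by exact_mod_cast hk
    have s0 : 0 ≤ ∑ j ∈ T, y j := (rr_nonneg tl).trans hl
    have b1 : (∑ j ∈ T, y j) / k ≤ rr B.z2 :=
      ((div_le_div_of_nonneg_right hh hk0.le).trans (rr_div_lt th hk).le).trans (rr_le.mpr hb')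
    have b2 := hd.pos _ (div_nonneg s0 hk0.le) b1
    have b3 := head_excess (h.lin q hq) (rr_nonneg B.lam) (rr_le.mpr h.lamh.1) hk s0 b2.le
    have b4 : (rr B.lamh - rr B.lam) * ∑ j ∈ T, y j ≤ rr (mulU (B.lamh - B.lam) th) :=
      le_mulU (rr_sub_ge _ _) hh s0
    have b5 : (rr B.lamh * ∑ j ∈ T, y j) ^ 2 ≤ rr (powU (mulU B.lamh th) 2) :=
      le_powU (mul_nonneg (rr_nonneg _) s0) (le_mulU le_rfl hh s0) 2
    have b6 := rr_div_lt (powU (mulU B.lamh th) 2) hk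
    have b7 := div_le_div_of_nonneg_right b5 hk0.le
    rw [Nat.add_assoc, rr_add]
    linarith

theorem dnN_spec (h : BOK B Q E) (hq : q ∈ B.I) {k b ym tl th R w : ℕ} {y : ι → ℝ} {z : ℝ}
    (hb : EnvOK B q b ym) (hy : ∀ j ∈ T, 0 ≤ y j ∧ y j ≤ rr ym) (hl : rr tl ≤ ∑ j ∈ T, y j)
    (hh : ∑ j ∈ T, y j ≤ rr th) (hR : ∀ v, 0 ≤ v → v ≤ rr ym → InR R (B.g 0 q v))
    (hw : InR w z) : z ^ k - ∏ j ∈ T, B.g 0 q (y j) ≤ rr (dnN B k b ym tl th R w) := by
  unfold dnN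
  cases hb0 : Nat.beq (prodLo B R ym th) 0
  · have h0 : 0 < prodLo B R ym th := by
      rcases Nat.eq_zero_or_pos (prodLo B R ym th) with h1 | h1
      · rw [h1] at hb0
        exact absurd hb0 (by decide)
      · exact h1
    have a1 := prodLo_spec h hq hy hh (hR _ (rr_nonneg ym) le_rfl) h0
    have a2 := pHi_ge' hw k
    have a3 := rr_sub_ge (pHi w k) (prodLo B R ym th)
    rw [cond_false]
    linarith
  · have a1 := envDn_spec h hq hb hy hl (ng := gNeg R)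
      fun j hj => (hR _ (hy j hj).1 (hy j hj).2).neg
    have a2 := pHi_ge hw k
    have a3 := rr_sub_ge (pHi w k + envDn B b ym tl (gNeg R)) (pHin w k)
    rw [rr_add] at a3
    rw [cond_true]
    linarith

theorem cpN_spec (h : BOK B Q E) (hq : q ∈ B.I) {k b ym tl th R w c1 c2 : ℕ} (hk : 1 ≤ k)
    {y : ι → ℝ} {z1 z2 : ℝ} (hb : EnvOK B q b ym) (hy : ∀ j ∈ T, 0 ≤ y j ∧ y j ≤ rr ym)
    (hl : rr tl ≤ ∑ j ∈ T, y j) (hh : ∑ j ∈ T, y j ≤ rr th)
    (hR : ∀ v, 0 ≤ v → v ≤ rr ym → InR R (B.g 0 q v))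
    (hw : InR w (B.g 0 q ((∑ j ∈ T, y j) / k))) (h1 : InR c1 z1) (h2 : InR c2 z2) :
    z1 * z2 * ∏ j ∈ T, B.g 0 q (y j) - z1 * z2 * B.g 0 q ((∑ j ∈ T, y j) / k) ^ k ≤
      rr (cpN B Q k b ym tl th R w c1 c2) := by
  unfold cpN
  rw [rr_max, ← mul_sub]
  rcases le_or_gt 0 (z1 * z2) with h0 | h0
  · refine le_trans ?_ (le_max_left _ _)
    refine le_mulU' (oHi_ge h1 h2) ?_ h0
    rw [rr_max]
    rcases envUp_spec h hq (de := 0) (tl := tl) (th := th) (ng := gNeg R) hb hy (by linarith) (Or.inl hh)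
      le_rfl (Or.inl rfl) (fun j hj => (hR _ (hy j hj).1 (hy j hj).2).neg) with a | a
    · refine le_trans ?_ (le_max_right _ _)
      rw [mul_zero, neg_zero, Real.exp_zero, mul_one] at a
      have a3 := pLop_le hw k
      have a4 := rr_sub_ge (envUp B Q b ym tl th (gNeg R) + pNeg w k) (pLop w k)
      rw [rr_add] at a4
      linarith
    · exact (p1N_spec h hq hk a hl hh hw).trans (le_max_left _ _)
  · refine le_trans ?_ (le_max_right _ _)
    have a1 := oNeg_le h1 h2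
    cases hb0 : Nat.beq (oNeg c1 c2) 0
    · rw [cond_false]
      have a2 := dnN_spec h hq (k := k) hb hy hl hh hR hw
      have a3 := le_mulU' (x := -(z1 * z2)) (a := oNeg c1 c2) (by linarith) a2 (by linarith)
      linarith
    · rw [Nat.eq_of_beq_eq_true hb0, rr_zero] at a1
      linarith

/-- The pointwise bound of a cell. -/
def cpC (B : Blk) (Q : ℕ → ℕ → ℕ) (E : ℕ → ℕ) (k ra rb x1l x1h x2l x2h ta tb : ℕ) : ℕ :=
  cpN B Q k (envb E (mulU (min (min x1h x2h) rb) tb)) (mulU (min (min x1h x2h) rb) tb)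
    (mulD ra ta) (mulU rb tb) (rq Q 0 (mulU (min (min x1h x2h) rb) tb))
    (rq Q (mulD ra ta / k) (mulU rb tb / k + 1)) (rq Q (mulD x1l ta) (mulU x1h tb))
    (rq Q (mulD x2l ta) (mulU x2h tb))

theorem fp2_le (h : BOK B Q E) (hq : q ∈ B.I) {k ra rb x1l x1h x2l x2h ta tb : ℕ} {x : ι → ℝ}
    {x1 x2 u : ℝ} (hP : InP k ra rb x1l x1h x2l x2h T x x1 x2) (ha : rr ta ≤ u ^ 2)
    (hb : u ^ 2 ≤ rr tb) :
    FP2 (B.g 0 q) k x1 x2 T x u ≤ rr (cpC B Q E k ra rb x1l x1h x2l x2h ta tb) := by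
  have t0 : 0 ≤ u ^ 2 := sq_nonneg u
  generalize ht : u ^ 2 = t at ha hb t0
  have hk0 : (0 : ℝ) < k := by exact_mod_cast hP.k1
  have x20 : 0 ≤ x2 := (rr_nonneg _).trans hP.o2.1
  have es : ∑ j ∈ T, x j * t = (∑ j ∈ T, x j) * t := (Finset.sum_mul T x t).symm
  have hy : ∀ j ∈ T, 0 ≤ x j * t ∧ x j * t ≤ rr (mulU (min (min x1h x2h) rb) tb) := by
    intro j hj
    refine ⟨mul_nonneg (hP.rng j hj).1 t0, le_mulU ?_ hb t0⟩
    rw [rr_min, rr_min]
    refine le_min (le_min ?_ ?_) ?_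
    · exact ((hP.rng j hj).2.trans hP.le).trans hP.o1.2
    · exact (hP.rng j hj).2.trans hP.o2.2
    · exact (Finset.single_le_sum (fun i hi => (hP.rng i hi).1) hj).trans hP.sum.2
  have hl : rr (mulD ra ta) ≤ ∑ j ∈ T, x j * t := by
    rw [es]
    exact mulD_le_of hP.sum.1 ha
  have hh : ∑ j ∈ T, x j * t ≤ rr (mulU rb tb) := by
    rw [es]
    exact le_mulU hP.sum.2 hb t0
  have hw : InR (rq Q (mulD ra ta / k) (mulU rb tb / k + 1))
      (B.g 0 q ((∑ j ∈ T, x j * t) / k)) := by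
    refine ((h.qok.rq _ _).pt q hq _ (div_nonneg ((rr_nonneg _).trans hl) hk0.le) ?_ ?_).inR
    · exact (rr_div_le _ _).trans (div_le_div_of_nonneg_right hl hk0.le)
    · exact (div_le_div_of_nonneg_right hh hk0.le).trans (rr_div_lt _ hP.k1).le
  have h1 : InR (rq Q (mulD x1l ta) (mulU x1h tb)) (B.g 0 q (x1 * t)) :=
    ((h.qok.rq _ _).pt q hq _ (mul_nonneg hP.p1.le t0) (mulD_le_of hP.o1.1 ha)
      (le_mulU hP.o1.2 hb t0)).inR
  have h2 : InR (rq Q (mulD x2l ta) (mulU x2h tb)) (B.g 0 q (x2 * t)) :=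
    ((h.qok.rq _ _).pt q hq _ (mul_nonneg x20 t0) (mulD_le_of hP.o2.1 ha)
      (le_mulU hP.o2.2 hb t0)).inR
  have hR : ∀ v, 0 ≤ v → v ≤ rr (mulU (min (min x1h x2h) rb) tb) →
      InR (rq Q 0 (mulU (min (min x1h x2h) rb) tb)) (B.g 0 q v) := fun v h0 hv =>
    ((h.qok.rq _ _).pt q hq v h0 (by rw [rr_zero]; exact h0) hv).inR
  have a := cpN_spec h hq hP.k1 (h.envOK hq _) hy hl hh hR hw h1 h2
  have e : (∑ j ∈ T, x j * t) / k = (∑ j ∈ T, x j) / k * t := by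
    rw [es]
    ring
  rw [e] at a
  unfold FP2 P3 cpC
  rw [ht]
  exact a

theorem ngp_nonneg (g : ℝ → ℝ) (n : ℕ) (s : ℝ) : 0 ≤ ngp g n s :=
  le_max_right _ _

theorem fp1_head (h : BOK B Q E) (hq : q ∈ B.I) {k ra rb x1l x1h x2l x2h : ℕ} {x : ι → ℝ}
    {x1 x2 u : ℝ} (hP : InP k ra rb x1l x1h x2l x2h T x x1 x2) (hz : x1 * u ^ 2 ≤ rr B.z2) :
    FP1 (B.g 0 q) k x1 x2 T x u ≤ 0 := by
  have t0 : 0 ≤ u ^ 2 := sq_nonneg u
  have hs := h.sc.sm_g hq
  have hd := h.hd q hq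
  have x20 : 0 ≤ x2 := (rr_nonneg _).trans hP.o2.1
  have hT : T.Nonempty := Finset.card_pos.mp (lt_of_lt_of_le hP.k1 hP.card)
  have hz2 : x2 * u ^ 2 ≤ rr B.z2 := (mul_le_mul_of_nonneg_right hP.le t0).trans hz
  have hF : FL B q T fun j => x j * u ^ 2 := FL.of_le h hq fun j hj =>
    ⟨mul_nonneg (hP.rng j hj).1 t0, (mul_le_mul_of_nonneg_right (hP.rng j hj).2 t0).trans hz2⟩
  have a1 := FL.jensen h hq hT hF
  rw [mean_mul] at a1
  have o1 := hd.pos _ (mul_nonneg hP.p1.le t0) hz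
  have o2 := hd.pos _ (mul_nonneg x20 t0) hz2
  have a2 := mul_le_mul_of_nonneg_left a1 (mul_pos o1 o2).le
  have a3 := hd.plus_mono hs hP.k1 hP.card x20 hP.le ((rr_nonneg _).trans hP.sum.1) hP.one
    hP.big t0 hz
  have a4 := ngp_nonneg (B.g 0 q) (T.card + 2) u
  have e : P3 (B.g 0 q) x1 x2 ((∑ j ∈ T, x j) / T.card) T.card (u ^ 2) =
      B.g 0 q (x1 * u ^ 2) * B.g 0 q (x2 * u ^ 2) * B.g 0 q (mean T x * u ^ 2) ^ T.card := rfl
  rw [e] at a3
  unfold FP1 FP2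
  linarith

/-- The record of the diagonal term. -/
def dgN (B : Blk) (Q : ℕ → ℕ → ℕ) (k ta tb : ℕ) : ℕ :=
  powU (gAB (rq Q (max B.z2 (ta / (k + 2))) (tb / (k + 2) + 1))) (k + 2)

theorem diag_le (h : BOK B Q E) (hq : q ∈ B.I) {k n ta tb : ℕ} (hn : k ≤ n) {u : ℝ}
    (ha : rr ta ≤ u ^ 2) (hb : u ^ 2 ≤ rr tb) :
    B.g 0 q (u ^ 2 / ((k + 2 : ℕ) : ℝ)) ^ (k + 2) - B.g 0 q (u ^ 2 / ((n + 2 : ℕ) : ℝ)) ^ (n + 2) -
      ngp (B.g 0 q) (n + 2) u ≤
      rr (bif Nat.ble (tb / (k + 2) + 1) B.z2 then 0 else dgN B Q k ta tb) := by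
  have t0 : 0 ≤ u ^ 2 := sq_nonneg u
  have hN : (0 : ℝ) < ((k + 2 : ℕ) : ℝ) := by positivity
  have hub : u ^ 2 / ((k + 2 : ℕ) : ℝ) ≤ rr (tb / (k + 2) + 1) :=
    (div_le_div_of_nonneg_right hb hN.le).trans (rr_div_lt tb (by omega)).le
  rcases le_or_gt (u ^ 2 / ((k + 2 : ℕ) : ℝ)) (rr B.z2) with hz | hz
  · have a1 := (h.hd q hq).pow_mono (h.sc.sm_g hq) (N := k + 2) (n := n + 2) (by omega)
      (by omega) t0 hz
    have a2 := ngp_nonneg (B.g 0 q) (n + 2) u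
    have a3 := rr_nonneg (bif Nat.ble (tb / (k + 2) + 1) B.z2 then 0 else dgN B Q k ta tb)
    linarith
  · cases hc : Nat.ble (tb / (k + 2) + 1) B.z2
    · rw [cond_false]
      have a1 : InR (rq Q (max B.z2 (ta / (k + 2))) (tb / (k + 2) + 1))
          (B.g 0 q (u ^ 2 / ((k + 2 : ℕ) : ℝ))) := by
        refine ((h.qok.rq _ _).pt q hq _ (div_nonneg t0 hN.le) ?_ hub).inR
        rw [rr_max]
        exact max_le hz.le ((rr_div_le _ _).trans (div_le_div_of_nonneg_right ha hN.le))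
      have a2 := (le_abs_self _).trans (abs_le_powU a1.abs (k + 2))
      have a3 : -(B.g 0 q (u ^ 2 / ((n + 2 : ℕ) : ℝ)) ^ (n + 2)) ≤ ngp (B.g 0 q) (n + 2) u :=
        le_max_left _ _
      unfold dgN
      linarith
    · exact absurd (hub.trans (rr_le.mpr (Nat.ble_eq.mp hc))) (not_le.mpr hz)

theorem int_const {F : ℝ → ℝ} (hF : IntegrableOn F (Ioi 0)) {sa sb : ℕ} (hs : sa ≤ sb) {c : ℝ}
    (h : ∀ u, sR sa ≤ u → u ≤ sR sb → F u ≤ c) :
    ∫ u in sR sa..sR sb, F u ≤ c * rr (dS sa sb) := by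
  have a := cell_int hF (c0 := c) (c2 := 0) (c4 := 0) (sR_nonneg sa) (sR_mono hs)
    fun u h1 h2 => by linarith [h u h1 h2]
  rw [dS_eq hs]
  linarith

end YCellPX

open YCellPX in
theorem cellP_spec {α : Type} (h : BOK B Q E) (k ra rb x1l x1h x2l x2h : ℕ) {sa sb : ℕ}
    (hs : sa ≤ sb) (e1 e2 e3 : ℕ) (kk : ℕ → ℕ → ℕ → α) :
    ∃ e1' e2', cellP B Q E k ra rb x1l x1h x2l x2h sa sb e1 e2 e3 kk = kk e1' e2' e3 ∧
      ∀ q ∈ B.I, ∀ (ι : Type) (T : Finset ι) (x : ι → ℝ) (x1 x2 : ℝ),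
        InP k ra rb x1l x1h x2l x2h T x x1 x2 →
        ∫ u in sR sa..sR sb, FP1 (B.g 0 q) k x1 x2 T x u ≤ rr e1' - rr e1 ∧
          ∫ u in sR sa..sR sb, FP2 (B.g 0 q) k x1 x2 T x u ≤ rr e2' - rr e2 := by
  refine ⟨bif Nat.ble (mulU x1h (tS sb)) B.z2 then e1 else
      e1 + mulU (cpC B Q E k ra rb x1l x1h x2l x2h (tS sa) (tS sb)) (dS sa sb) +
        (bif Nat.ble (tS sb / (k + 2) + 1) B.z2 then 0
          else mulU (dgN B Q k (tS sa) (tS sb)) (dS sa sb)),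
    e2 + mulU (cpC B Q E k ra rb x1l x1h x2l x2h (tS sa) (tS sb)) (dS sa sb), ?_, ?_⟩
  · unfold cellP
    simp only [forceN_eq]
    rfl
  intro q hq ι T x x1 x2 hP
  obtain ⟨i1, i2⟩ := hP.int h hq
  have p2 : ∀ u, sR sa ≤ u → u ≤ sR sb → FP2 (B.g 0 q) k x1 x2 T x u ≤
      rr (cpC B Q E k ra rb x1l x1h x2l x2h (tS sa) (tS sb)) := fun u h1 h2 =>
    fp2_le h hq hP (tS_mem h1 h2).1 (tS_mem h1 h2).2
  generalize cpC B Q E k ra rb x1l x1h x2l x2h (tS sa) (tS sb) = cp at p2 ⊢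
  have m1 := mulU_ge cp (dS sa sb)
  constructor
  · cases hc : Nat.ble (mulU x1h (tS sb)) B.z2
    · have a1 := int_const i1 hs (c := rr cp +
          rr (bif Nat.ble (tS sb / (k + 2) + 1) B.z2 then 0 else dgN B Q k (tS sa) (tS sb)))
        fun u h1 h2 => by
          have b1 := p2 u h1 h2
          have b2 := diag_le h hq hP.card (tS_mem h1 h2).1 (tS_mem h1 h2).2
          unfold FP1
          linarith
      rw [cond_false, rr_add, rr_add]
      rw [add_mul] at a1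
      have a2 : rr (bif Nat.ble (tS sb / (k + 2) + 1) B.z2 then 0 else dgN B Q k (tS sa) (tS sb)) *
          rr (dS sa sb) ≤ rr (bif Nat.ble (tS sb / (k + 2) + 1) B.z2 then 0
            else mulU (dgN B Q k (tS sa) (tS sb)) (dS sa sb)) := by
        cases Nat.ble (tS sb / (k + 2) + 1) B.z2
        · exact mulU_ge _ _
        · rw [cond_true, cond_true, rr_zero, zero_mul]
      linarith
    · have a1 := int_const i1 hs (c := 0) fun u h1 h2 => fp1_head h hq hP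
        ((le_mulU hP.o1.2 (tS_mem h1 h2).2 (sq_nonneg u)).trans (rr_le.mpr (Nat.ble_eq.mp hc)))
      rw [cond_true]
      linarith
  · have a1 := int_const i2 hs p2
    rw [rr_add]
    linarith

end Pool.Agent.MP_39fec4_gt.K

end

section

set_option autoImplicit false

namespace Pool.Agent.MP_39fec4_gt.K

open Set MeasureTheory Full

variable {B : Blk} {Q : ℕ → ℕ → ℕ} {E : ℕ → ℕ} {q : ℝ} {ι : Type} {T : Finset ι}

namespace YFinEX

variable {P : EP} {x : ι → ℝ} {x1 x2 : ℝ}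

def xA (B : Blk) (P : EP) (s : ℕ) : ℕ :=
  bif Nat.ble (64 * SS) (mulD B.gam (mulD P.xb1 (tS s))) &&
      (bif P.uni then Nat.ble (2 * P.k * P.xb1) (3 * SS) && Nat.ble 8 P.k
        else Nat.ble (4 * P.xb1) P.ra) then powU (divU SS (mulD B.gam (mulD P.xb1 (tS s)))) 2
      else BIG

def xB (B : Blk) (P : EP) (s : ℕ) : ℕ :=
  bif Nat.blt (far0 B (mulD P.xa0 (tS s))) BIG && !P.uni then
      powU (far0 B (mulD P.xa0 (tS s))) P.k else BIG

/-- The bound for the product in the crude estimate. -/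
def xF (B : Blk) (P : EP) (s : ℕ) : ℕ := min (xA B P s) (xB B P s)

/-- The crude estimate. -/
def cF (B : Blk) (P : EP) (s : ℕ) : ℕ :=
  bif Nat.ble (far0 B (mulD P.ra (tS s) / P.k)) R07 && Nat.ble 3 P.k && Nat.blt (xF B P s) BIG then
    mulU (powU (far0 B (mulD P.ra (tS s) / P.k)) P.k + xF B P s) (s <<< 34) else BIG

def fbF (B : Blk) (P : EP) (s : ℕ) : ℕ :=
  bif Nat.ble 4 P.k then far0 B (mulD P.xa0 (tS s)) else farc B (mulD P.xa0 (tS s))

/-- The second order estimate. -/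
def hF (B : Blk) (P : EP) (s : ℕ) : ℕ :=
  bif Nat.ble (fbF B P s) R07 && Nat.ble 3 P.k && Nat.blt (far1b B (mulD P.xa0 (tS s))) BIG &&
      Nat.blt (far2 B (mulD P.xa0 (tS s))) BIG then
    ((((powU (fbF B P s) (P.k - 1) * far2 B (mulD P.xa0 (tS s))) <<< 39) +
      2 * powU (fbF B P s) (P.k - 2) * far1b B (mulD P.xa0 (tS s)) * far1b B (mulD P.xa0 (tS s))) *
        tS s * tS s * s) >>> 166 + 1
  else BIG

/-- The estimate with two outer factors. -/
def oF (B : Blk) (Q : ℕ → ℕ → ℕ) (P : EP) (s : ℕ) : ℕ :=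
  bif Nat.blt (oTail B Q P.x1l P.x2l s) BIG then mulU (oTail B Q P.x1l P.x2l s)
    (pTail B P.ra P.xb1 s + powU (gAB (rqI Q (mulD P.ra (tS s) / P.k))) P.k) else BIG

theorem finE_eq {α : Type} (B : Blk) (Q : ℕ → ℕ → ℕ) (P : EP) (kk : ℕ → ℕ → ℕ → α)
    (s sc sh sg : ℕ) : finE B Q P kk s sc sh sg =
      Bool.casesOn (motive := fun _ => α) P.ho
        (Bool.casesOn (motive := fun _ => α) (Nat.ble (cF B P s) (mulD P.Vs (hF B P s)))
          (kk sc (sh + hF B P s) sg) (kk (sc + cF B P s) sh sg))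
        (kk (sc + oF B Q P s) sh sg) := by
  simp only [finE, forceN_eq, cF, hF, oF, xF, xA, xB, fbF]

theorem R07_lt : R07 < BIG := by
  unfold R07 BIG
  omega

theorem bif_lt {b : Bool} {a c : ℕ} (e : c = bif b then a else BIG) (h : c < BIG) :
    b = true ∧ c = a := by
  cases b
  · exact absurd (by rwa [e, cond_false] at h : BIG < BIG) (lt_irrefl _)
  · exact ⟨rfl, e⟩

theorem min_or (a b : ℕ) : min a b = a ∨ min a b = b := by omega

theorem var_mul (T : Finset ι) (x : ι → ℝ) (t : ℝ) :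
    Var T (fun j => x j * t) = t ^ 2 * Var T x := by
  unfold Var
  rw [Finset.mul_sum]
  refine Finset.sum_congr rfl fun j _ => ?_
  rw [← Finset.sum_mul]
  ring

theorem wa_le (hP : InE P T x x1 x2) (s : ℕ) :
    rr (mulD P.ra (tS s) / P.k) ≤ mean T x * sR s ^ 2 := by
  have hk : (0 : ℝ) < P.k := by
    have := hP.k2
    exact_mod_cast (by omega : 0 < P.k)
  have h1 : rr (mulD P.ra (tS s)) ≤ (∑ j ∈ T, x j) * sR s ^ 2 :=
    mulD_le_of hP.sum.1 (tS_eq s).le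
  refine (rr_div_le _ _).trans ?_
  unfold mean
  rw [hP.card, div_mul_eq_mul_div]
  exact div_le_div_of_nonneg_right h1 hk.le

theorem ylo_le (hP : InE P T x x1 x2) (s : ℕ) {j : ι} (hj : j ∈ T) :
    rr (mulD P.xa0 (tS s)) ≤ x j * sR s ^ 2 :=
  mulD_le_of (hP.rng j hj).1 (tS_eq s).le

theorem rng0 (hP : InE P T x x1 x2) : ∀ j ∈ T, 0 ≤ x j ∧ x j ≤ rr P.xb1 := fun j hj =>
  ⟨(rr_nonneg _).trans (hP.rng j hj).1, (hP.rng j hj).2⟩

theorem pow_bd {a r z : ℝ} {k : ℕ} (hk : 2 ≤ k) (ha : 0 ≤ a) (hr0 : 0 ≤ r) (hr1 : r ≤ 1)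
    (hz : a ^ k ≤ z) : (a * r) ^ k ≤ z * r ^ 2 := by
  rw [mul_pow]
  exact mul_le_mul hz (pow_le_pow_of_le_one hr0 hr1 hk) (pow_nonneg hr0 k)
    ((pow_nonneg ha k).trans hz)

theorem ratio {S u : ℝ} (hS : 0 < S) (hu : S ≤ u) : 0 ≤ S / u ∧ S / u ≤ 1 :=
  ⟨div_nonneg hS.le (hS.le.trans hu), (div_le_one (hS.trans_le hu)).2 hu⟩

theorem xF_spec (h : BOK B Q E) (hq : q ∈ B.I) (hP : InE P T x x1 x2) {s : ℕ}
    (hx : xF B P s < BIG) (hS : 0 < sR s) {u : ℝ} (hu : sR s ≤ u) :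
    |∏ j ∈ T, B.g 0 q (x j * u ^ 2)| ≤ rr (xF B P s) * (sR s / u) ^ 2 := by
  obtain ⟨r0, r1⟩ := ratio hS hu
  unfold xF at hx ⊢
  rcases min_or (xA B P s) (xB B P s) with e | e
  · rw [e] at hx ⊢
    obtain ⟨hb, e2⟩ := bif_lt (c := xA B P s) (by rw [xA]) hx
    rw [e2]
    rw [hP.uni, cond_false, Bool.and_eq_true, Nat.ble_eq, Nat.ble_eq] at hb
    have hm : ((4 : ℕ) : ℝ) * rr P.xb1 ≤ ∑ j ∈ T, x j := by
      rw [← rr_nmul]
      exact (rr_le.2 hb.2).trans hP.sum.1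
    refine le_trans (le_of_eq ?_) (alg_tail h hq (rng0 hP) hm le_rfl hb.1 hu).2
    rw [Nat.sub_self 4, pow_zero (√65 : ℝ)]
    exact (mul_one _).symm
  · rw [e] at hx ⊢
    obtain ⟨hb, e2⟩ := bif_lt (c := xB B P s) (by rw [xB]) hx
    rw [e2]
    rw [Bool.and_eq_true, Nat.blt_eq] at hb
    rw [Finset.abs_prod]
    refine (Finset.prod_le_prod (g := fun _ => rr (far0 B (mulD P.xa0 (tS s))) * (sR s / u))
      (fun j _ => abs_nonneg _) fun j hj => (far0_sq h hq (ylo_le hP s hj) hb.1 hu).2).trans ?_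
    rw [Finset.prod_const, hP.card]
    exact pow_bd hP.k2 (rr_nonneg _) r0 r1 (powU_ge _ _)

theorem cF_spec (h : BOK B Q E) (hq : q ∈ B.I) (hP : InE P T x x1 x2) (ho : P.ho = false) {s : ℕ}
    (hc : cF B P s < BIG) :
    ∫ u in Ioi (sR s), FE (B.g 0 q) P.ho x1 x2 T x u ≤ rr (cF B P s) := by
  obtain ⟨hb, e2⟩ := bif_lt (c := cF B P s) (by rw [cF]) hc
  rw [e2]
  rw [Bool.and_eq_true, Bool.and_eq_true, Nat.ble_eq, Nat.ble_eq, Nat.blt_eq] at hb
  obtain ⟨⟨h7, -⟩, hx⟩ := hb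
  have hw := h7.trans_lt R07_lt
  have hS : 0 < sR s := (far0_sq h hq (wa_le hP s) hw le_rfl).1
  have hI := (hP.int h.sc hq).mono_set (Ioi_subset_Ioi hS.le)
  have key := int_tail (A2 := rr (powU (far0 B (mulD P.ra (tS s) / P.k)) P.k + xF B P s))
    (A3 := 0) hS hI fun u hu => by
      obtain ⟨r0, r1⟩ := ratio hS hu
      have h1 := xF_spec h hq hP hx hS hu
      have h2 := (far0_sq h hq (wa_le hP s) hw hu).2
      have h3 : |B.g 0 q (mean T x * u ^ 2) ^ T.card| ≤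
          rr (powU (far0 B (mulD P.ra (tS s) / P.k)) P.k) * (sR s / u) ^ 2 := by
        rw [abs_pow, hP.card]
        exact (pow_le_pow_left₀ (abs_nonneg _) h2 _).trans
          (pow_bd hP.k2 (rr_nonneg _) r0 r1 (powU_ge _ _))
      unfold FE
      rw [ho, cond_false, one_mul, rr_add, zero_mul, add_zero, add_mul]
      have h4 := le_abs_self (∏ j ∈ T, B.g 0 q (x j * u ^ 2))
      have h5 := neg_abs_le (B.g 0 q (mean T x * u ^ 2) ^ T.card)
      linarith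
  refine key.trans ?_
  rw [zero_div, add_zero, ← shl34]
  exact mulU_ge _ _

theorem units (p1 p2 k1 k2 t s : ℕ) (ht : rr t = sR s ^ 2) :
    (rr p1 * rr k2 / 2 + 2 * rr p2 * rr k1 ^ 2) * sR s ^ 5 ≤
      rr (((((p1 * k2) <<< 39) + 2 * p2 * k1 * k1) * t * t * s) >>> 166 + 1) := by
  refine le_trans (le_of_eq ?_) (rr_shr_lt _ 166).le
  have h1 : (t : ℝ) = sR s ^ 2 * 2 ^ 40 := by
    rw [← ht, rr, div_mul_cancel₀ _ (by positivity)]
  have hs : (s : ℝ) = sR s * 64 := by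
    rw [sR, div_mul_cancel₀ _ (by positivity)]
  rw [rr_muln _ s, rr_muln _ t, rr_muln _ t, rr_add, rr_shl, rr_mul p1, rr_mul _ k1, rr_mul _ k1,
    rr_nmul, h1]
  generalize sR s = S at hs ⊢
  rw [hs]
  push_cast
  ring

theorem hF_spec (h : BOK B Q E) (hq : q ∈ B.I) (hP : InE P T x x1 x2) (ho : P.ho = false) {s : ℕ}
    (hc : hF B P s < BIG) :
    ∫ u in Ioi (sR s), FE (B.g 0 q) P.ho x1 x2 T x u ≤ Var T x * rr (hF B P s) := by
  obtain ⟨hb, e2⟩ := bif_lt (c := hF B P s) (by rw [hF]) hc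
  rw [e2]
  rw [Bool.and_eq_true, Bool.and_eq_true, Bool.and_eq_true, Nat.ble_eq, Nat.ble_eq, Nat.blt_eq,
    Nat.blt_eq] at hb
  obtain ⟨⟨⟨h7, h3⟩, h1⟩, h2⟩ := hb
  have hS : 0 < sR s := by
    have hw := h7.trans_lt R07_lt
    have hy : rr (mulD P.xa0 (tS s)) ≤ rr P.xa0 * sR s ^ 2 := mulD_le_of le_rfl (tS_eq s).le
    unfold fbF at hw
    cases hb : Nat.ble 4 P.k
    · rw [hb, cond_false] at hw
      exact (farc_sq h hq hy hw le_rfl).1
    · rw [hb, cond_true] at hw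
      exact (far0_sq h hq hy hw le_rfl).1
  have hI := (hP.int h.sc hq).mono_set (Ioi_subset_Ioi hS.le)
  have hV : 0 ≤ Var T x := Finset.sum_nonneg fun _ _ => sq_nonneg _
  obtain ⟨K, hK⟩ : ∃ K : ℝ, K = rr (fbF B P s) ^ (P.k - 1) * rr (far2 B (mulD P.xa0 (tS s))) / 2 +
    2 * rr (fbF B P s) ^ (P.k - 2) * rr (far1b B (mulD P.xa0 (tS s))) ^ 2 := ⟨_, rfl⟩
  have key := int_tail (A2 := K * Var T x * sR s ^ 4) (A3 := 0) hS hI fun u hu => by
    have hu0 : 0 < u := hS.trans_le hu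
    have hc1 : 1 ≤ u / sR s := (one_le_div hS).2 hu
    have h4 := far_hess h hq (y := fun j => x j * u ^ 2) (k := P.k) (ylo := mulD P.xa0 (tS s))
      hc1 h3 hP.card.ge (fun j hj => by
        have h5 := mul_le_mul_of_nonneg_right (ylo_le hP s hj) (sq_nonneg (u / sR s))
        refine h5.trans (le_of_eq ?_)
        field_simp) (fb := fbF B P s) rfl h7 h1 h2
    rw [← hK, hP.card, Nat.sub_self, pow_zero, mul_one, var_mul, mean_mul, ← hP.card] at h4
    unfold FE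
    rw [ho, cond_false, one_mul, zero_mul, add_zero]
    have h6 : 0 < (u / sR s) ^ 6 := by positivity
    refine (le_abs_self _).trans (((le_div_iff₀ h6).2 h4).trans (le_of_eq ?_))
    field_simp
  refine key.trans ?_
  have h8 := units (powU (fbF B P s) (P.k - 1)) (powU (fbF B P s) (P.k - 2))
    (far1b B (mulD P.xa0 (tS s))) (far2 B (mulD P.xa0 (tS s))) (tS s) s (tS_eq s)
  have h9 : K ≤ rr (powU (fbF B P s) (P.k - 1)) * rr (far2 B (mulD P.xa0 (tS s))) / 2 +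
      2 * rr (powU (fbF B P s) (P.k - 2)) * rr (far1b B (mulD P.xa0 (tS s))) ^ 2 := by
    rw [hK]
    have a1 := powU_ge (fbF B P s) (P.k - 1)
    have a2 := powU_ge (fbF B P s) (P.k - 2)
    have a3 := rr_nonneg (far2 B (mulD P.xa0 (tS s)))
    gcongr
  have h10 := (mul_le_mul_of_nonneg_right h9 (pow_nonneg hS.le 5)).trans h8
  refine le_trans (le_of_eq ?_) (mul_le_mul_of_nonneg_left h10 hV)
  ring

theorem oF_spec (h : BOK B Q E) (hq : q ∈ B.I) (hP : InE P T x x1 x2) (ho : P.ho = true) {s : ℕ}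
    (hc : oF B Q P s < BIG) :
    ∫ u in Ioi (sR s), FE (B.g 0 q) P.ho x1 x2 T x u ≤ rr (oF B Q P s) := by
  obtain ⟨hb, e2⟩ := bif_lt (c := oF B Q P s) (by rw [oF]) hc
  rw [e2]
  rw [Nat.blt_eq] at hb
  obtain ⟨-, o1, -, o2, -⟩ := hP.out ho
  obtain ⟨hS, A2, A3, a2, a3, hA, hg⟩ := oTail_spec h hq o1 o2 hb
  have hI := (hP.int h.sc hq).mono_set (Ioi_subset_Ioi hS.le)
  obtain ⟨M, hM⟩ : ∃ M : ℕ,
    M = pTail B P.ra P.xb1 s + powU (gAB (rqI Q (mulD P.ra (tS s) / P.k))) P.k := ⟨_, rfl⟩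
  rw [← hM]
  have key := int_tail (A2 := A2 * rr M) (A3 := A3 * rr M) hS hI fun u hu => by
    have h1 := pTail_spec h hq (rng0 hP) hP.sum.1 hu
    have hm : 0 ≤ mean T x := div_nonneg hP.pos.le (Nat.cast_nonneg _)
    have h2 : rr (mulD P.ra (tS s) / P.k) ≤ mean T x * u ^ 2 :=
      (wa_le hP s).trans (mul_le_mul_of_nonneg_left (pow_le_pow_left₀ hS.le hu 2) hm)
    have h3 := abs_le_powU ((h.qok.rqI (mulD P.ra (tS s) / P.k) (mean T x * u ^ 2)).pt q hq _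
      ((rr_nonneg _).trans h2) h2 le_rfl).inR.abs P.k
    have h4 : |∏ j ∈ T, B.g 0 q (x j * u ^ 2) - B.g 0 q (mean T x * u ^ 2) ^ T.card| ≤ rr M := by
      rw [hM, rr_add, hP.card]
      exact (abs_sub _ _).trans (add_le_add h1 h3)
    unfold FE
    rw [ho, cond_true]
    refine (le_abs_self _).trans ?_
    rw [abs_mul]
    refine (mul_le_mul (hg u hu) h4 (abs_nonneg _) ((abs_nonneg _).trans (hg u hu))).trans
      (le_of_eq ?_)
    ring
  refine key.trans (le_trans (le_of_eq ?_) (le_mulU hA le_rfl (rr_nonneg M)))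
  ring

end YFinEX

open YFinEX in
theorem finE_exact {α : Type} (h : BOK B Q E) (P : EP) (kk : ℕ → ℕ → ℕ → α) (s sc sh sg : ℕ) :
    ∃ sc' sh', finE B Q P kk s sc sh sg = kk sc' sh' sg ∧ sc ≤ sc' ∧ sh ≤ sh' ∧
      (sc' < BIG → sh' < BIG → ∀ q ∈ B.I, ∀ (ι : Type) (T : Finset ι) (x : ι → ℝ) (x1 x2 : ℝ),
        InE P T x x1 x2 → ∫ u in Ioi (sR s), FE (B.g 0 q) P.ho x1 x2 T x u ≤
          PhiE 1 (Var T x) sc' sh' sg - PhiE 1 (Var T x) sc sh sg) := by
  rw [finE_eq]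
  rcases Bool.eq_false_or_eq_true P.ho with ho | ho
  · refine ⟨sc + oF B Q P s, sh, by rw [ho], Nat.le_add_right _ _, le_rfl, ?_⟩
    intro h1 _ q hq ι T x x1 x2 hP
    refine (oF_spec h hq hP ho ((Nat.le_add_left _ _).trans_lt h1)).trans (le_of_eq ?_)
    unfold PhiE
    rw [rr_add]
    ring
  · rcases Bool.eq_false_or_eq_true (Nat.ble (cF B P s) (mulD P.Vs (hF B P s))) with hb | hb
    · refine ⟨sc + cF B P s, sh, by rw [ho, hb], Nat.le_add_right _ _, le_rfl, ?_⟩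
      intro h1 _ q hq ι T x x1 x2 hP
      refine (cF_spec h hq hP ho ((Nat.le_add_left _ _).trans_lt h1)).trans (le_of_eq ?_)
      unfold PhiE
      rw [rr_add]
      ring
    · refine ⟨sc, sh + hF B P s, by rw [ho, hb], le_rfl, Nat.le_add_right _ _, ?_⟩
      intro _ h1 q hq ι T x x1 x2 hP
      refine (hF_spec h hq hP ho ((Nat.le_add_left _ _).trans_lt h1)).trans (le_of_eq ?_)
      unfold PhiE
      rw [rr_add]
      ring

end Pool.Agent.MP_39fec4_gt.K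

end

section

set_option autoImplicit false

namespace Pool.Agent.MP_39fec4_gt.K

open Set MeasureTheory Full

variable {B : Blk} {Q : ℕ → ℕ → ℕ} {E : ℕ → ℕ} {q : ℝ} {ι : Type} {T : Finset ι}

namespace YRunEX

theorem phi_zero (w V : ℝ) : PhiE w V 0 0 0 = 0 := by
  simp [PhiE, rr_zero]

theorem k_pos {P : EP} {x : ι → ℝ} (hx : InU P T x) : (0 : ℝ) < P.k := by
  have := hx.k8
  exact_mod_cast (by omega : 0 < P.k)

theorem k_le {P : EP} {x : ι → ℝ} (hx : InU P T x) : (P.k : ℝ) ≤ T.card := by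
  exact_mod_cast hx.card

theorem one_le_kap {P : EP} {x : ι → ℝ} (hx : InU P T x) : 1 ≤ √((T.card : ℝ) / P.k) :=
  Real.one_le_sqrt.2 ((one_le_div (k_pos hx)).2 (k_le hx))

theorem FE_nonpos (h : BOK B Q E) (hq : q ∈ B.I) {P : EP} {x : ι → ℝ} (hx : InU P T x) {s : ℕ}
    (hz : mulU P.xb1 (tS s) ≤ B.z2) {u : ℝ} (h0 : 0 ≤ u)
    (h1 : u ≤ √((T.card : ℝ) / P.k) * sR s) : FE (B.g 0 q) false 0 0 T x u ≤ 0 := by
  have hk := k_pos hx
  have hn : (0 : ℝ) < T.card := hk.trans_le (k_le hx)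
  have hT : T.Nonempty := Finset.card_pos.1 (by exact_mod_cast hn)
  have hu : u ^ 2 ≤ (T.card : ℝ) / P.k * sR s ^ 2 := by
    have h2 := pow_le_pow_left₀ h0 h1 2
    rwa [mul_pow, Real.sq_sqrt (div_pos hn hk).le] at h2
  have hy : FL B q T fun j => x j * u ^ 2 := by
    refine FL.of_le h hq fun j hj => ?_
    obtain ⟨r1, r2⟩ := hx.rng j hj
    have r0 : 0 ≤ x j * T.card / P.k := (rr_nonneg _).trans r1
    have x0 : 0 ≤ x j := by
      by_contra hc
      have := div_neg_of_neg_of_pos (mul_neg_of_neg_of_pos (not_le.1 hc) hn) hk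
      linarith
    refine ⟨mul_nonneg x0 (sq_nonneg u), ?_⟩
    calc x j * u ^ 2 ≤ x j * ((T.card : ℝ) / P.k * sR s ^ 2) := mul_le_mul_of_nonneg_left hu x0
      _ = x j * T.card / P.k * sR s ^ 2 := by ring
      _ ≤ rr (mulU P.xb1 (tS s)) := le_mulU r2 (tS_eq s).ge (sq_nonneg _)
      _ ≤ rr B.z2 := rr_le.2 hz
  have hj := FL.jensen h hq hT hy
  rw [mean_mul] at hj
  simp only [FE, cond_false, one_mul]
  linarith

end YRunEX

theorem runE_exact {α : Type} (h : BOK B Q E) {Va Vb : ℕ → ℕ} {P : EP}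
    (hf : P.fin = true → EndOK B Va Vb B.Yp) (sch : List ℕ) (kk : ℕ → ℕ → ℕ → α) :
    ∃ sc sh sg, runE B Q E Va Vb P sch kk = kk sc sh sg ∧
      (sc < BIG → sh < BIG → ∀ q ∈ B.I, ∀ (ι : Type) (T : Finset ι) (x : ι → ℝ) (x1 x2 : ℝ),
        InE P T x x1 x2 → ∫ u in Ioi (0 : ℝ), FE (B.g 0 q) P.ho x1 x2 T x u ≤
          PhiE 1 (Var T x) sc sh sg) := by
  obtain ⟨s, a, b, g, he, hI⟩ := sweep_ind sch (cellE B Q E Va Vb P) (finE B Q P kk)
    (fun s a b g => ∀ q ∈ B.I, ∀ (ι : Type) (T : Finset ι) (x : ι → ℝ) (x1 x2 : ℝ),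
      InE P T x x1 x2 → ∫ u in (0 : ℝ)..sR s, FE (B.g 0 q) P.ho x1 x2 T x u ≤
        PhiE 1 (Var T x) a b g)
    (fun q _ ι T x x1 x2 _ => by
      rw [sR_zero, intervalIntegral.integral_same, YRunEX.phi_zero])
    (fun s s' a b g kk' hs hI => by
      obtain ⟨a', b', g', he, hc⟩ := cellE_exact h hf hs a b g kk'
      refine ⟨a', b', g', he, fun q hq ι T x x1 x2 hx => ?_⟩
      rw [int_add (hx.int h.sc hq) (sR_nonneg s) (sR_mono hs)]
      have h1 := hI q hq ι T x x1 x2 hx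
      have h2 := hc q hq ι T x x1 x2 hx
      linarith)
  obtain ⟨a', b', he', -, -, hF⟩ := finE_exact h P kk s a b g
  refine ⟨a', b', g, he.trans he', fun h1 h2 q hq ι T x x1 x2 hx => ?_⟩
  rw [int_all (hx.int h.sc hq) (sR_nonneg s)]
  have h3 := hI q hq ι T x x1 x2 hx
  have h4 := hF h1 h2 q hq ι T x x1 x2 hx
  linarith

theorem runE_uni {α : Type} (h : BOK B Q E) {Va Vb : ℕ → ℕ} {P : EP}
    (hf : P.fin = true → EndOK B Va Vb B.Yp) (sch : List ℕ) (kk : ℕ → ℕ → ℕ → α) :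
    ∃ sc sh sg, runE B Q E Va Vb P sch kk = kk sc sh sg ∧
      (sc < BIG → sh < BIG → ∀ q ∈ B.I, ∀ (ι : Type) (T : Finset ι) (x : ι → ℝ), InU P T x →
        ∫ u in Ioi (0 : ℝ), FE (B.g 0 q) false 0 0 T x u ≤
          PhiE (((P.k : ℝ) / T.card) ^ 2) (Var T x) sc sh sg) := by
  obtain ⟨s, a, b, g, he, hI⟩ := sweep_ind sch (cellE B Q E Va Vb P) (finE B Q P kk)
    (fun s a b g => a < BIG → b < BIG → ∀ q ∈ B.I, ∀ (ι : Type) (T : Finset ι) (x : ι → ℝ),
      InU P T x →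
      (∫ u in (0 : ℝ)..(√((T.card : ℝ) / P.k) * sR s), FE (B.g 0 q) false 0 0 T x u ≤
        PhiE (((P.k : ℝ) / T.card) ^ 2) (Var T x) a b g) ∧
      (mulU P.xb1 (tS s) ≤ B.z2 → ∫ u in (0 : ℝ)..sR s, FE (B.g 0 q) false 0 0 T x u ≤
        PhiE (((P.k : ℝ) / T.card) ^ 2) (Var T x) a b g))
    (fun _ _ q _ ι T x _ => by
      rw [sR_zero, mul_zero, intervalIntegral.integral_same, YRunEX.phi_zero]
      exact ⟨le_rfl, fun _ => le_rfl⟩)
    (fun s s' a b g kk' hs hI => by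
      obtain ⟨a', b', g', he, ha, hb, hc⟩ := cellE_uni h hf hs a b g kk'
      refine ⟨a', b', g', he, fun h1 h2 q hq ι T x hx => ?_⟩
      obtain ⟨hA, hB⟩ := hI (ha.trans_lt h1) (hb.trans_lt h2) q hq ι T x hx
      obtain ⟨hc1, hc2⟩ := hc h1 h2 q hq ι T x hx
      have hint := hx.int h.sc hq
      have hk := YRunEX.one_le_kap hx
      rcases le_or_gt (mulU P.xb1 (tS s')) B.z2 with hz | hz
      · have hB' : ∫ u in (0 : ℝ)..sR s', FE (B.g 0 q) false 0 0 T x u ≤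
            PhiE (((P.k : ℝ) / T.card) ^ 2) (Var T x) a' b' g' := by
          rw [int_add hint (sR_nonneg s) (sR_mono hs)]
          have h3 := hB ((mulU_mono le_rfl (tS_mono hs)).trans hz)
          have h4 := hc1 hz
          linarith
        refine ⟨?_, fun _ => hB'⟩
        have hle : sR s' ≤ √((T.card : ℝ) / P.k) * sR s' :=
          le_mul_of_one_le_left (sR_nonneg s') hk
        rw [int_add hint (sR_nonneg s') hle]
        have h5 := cell_int (c0 := 0) (c2 := 0) (c4 := 0) hint (sR_nonneg s') hle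
          (fun u hu1 hu2 => by
            have := YRunEX.FE_nonpos h hq hx hz ((sR_nonneg s').trans hu1) hu2
            linarith)
        linarith
      · refine ⟨?_, fun hz' => absurd hz (not_lt.2 hz')⟩
        have hk0 : 0 ≤ √((T.card : ℝ) / P.k) := Real.sqrt_nonneg _
        rw [int_add hint (mul_nonneg hk0 (sR_nonneg s))
          (mul_le_mul_of_nonneg_left (sR_mono hs) hk0)]
        have h4 := hc2 hz
        linarith)
  obtain ⟨a', b', he', ha, hb, hF⟩ := finE_uni h P kk s a b g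
  refine ⟨a', b', g, he.trans he', fun h1 h2 q hq ι T x hx => ?_⟩
  rw [int_all (hx.int h.sc hq) (mul_nonneg (Real.sqrt_nonneg ((T.card : ℝ) / P.k)) (sR_nonneg s))]
  have h3 := (hI (ha.trans_lt h1) (hb.trans_lt h2) q hq ι T x hx).1
  have h4 := hF h1 h2 q hq ι T x hx
  linarith

end Pool.Agent.MP_39fec4_gt.K

end

section

set_option autoImplicit false

namespace Pool.Agent.MP_39fec4_gt.K

open Set MeasureTheory Full

variable {B : Blk} {Q : ℕ → ℕ → ℕ} {E : ℕ → ℕ} {q : ℝ} {ι : Type} {T : Finset ι}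

namespace YExcX

theorem sq_of {d : ℕ} {z : ℝ} (h : rr d ≤ |z|) : rr (mulD d d) ≤ z ^ 2 := by
  rw [← sq_abs, sq]
  exact mulD_le_of h h

theorem var_nonneg (T : Finset ι) (x : ι → ℝ) : 0 ≤ Var T x :=
  Finset.sum_nonneg fun _ _ => sq_nonneg _

theorem boxEP_eq (k xl xh ya yb p0 p1 vs : ℕ) : boxEP k xl xh ya yb p0 p1 vs =
    { k := k, ra := cR xh yb, rb := cR xl ya, xa0 := p0, xa1 := p1, xb0 := cR xh yb / k,
      xb1 := min (min (cX1 xh) (cX2 xl yb)) (cR xl ya), ho := true,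
      x1l := cX1 xl, x1h := cX1 xh, x2l := cX2 xh ya, x2h := min (cX1 xh) (cX2 xl yb),
      Vh := k * mulU (min (min (cX1 xh) (cX2 xl yb)) (cR xl ya) - cR xh yb / k)
        (cR xl ya / k + 1 - p0),
      sV := 0,
      Vs := (k * mulU (min (min (cX1 xh) (cX2 xl yb)) (cR xl ya) - cR xh yb / k)
        (cR xl ya / k + 1 - p0)) >>> (2 * vs), uni := false, fin := false } := by
  unfold boxEP
  rw [forceN_eq, forceN_eq, forceN_eq, forceN_eq]

theorem sum_pos {x : ι → ℝ} {x1 xi : ℝ} (hp : Pt T x x1 xi) : 0 < ∑ j ∈ T, x j := by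
  rw [hp.sum]
  exact mul_pos (sub_pos.2 hp.l2) (sub_pos.2 hp.l1)

theorem le_xm {x : ι → ℝ} {x1 xi : ℝ} (hp : Pt T x x1 xi) {xl xh ya yb : ℕ}
    (hb : Box xl xh ya yb x1 xi) {j : ι} (hj : j ∈ T) :
    x j ≤ rr (min (min (cX1 xh) (cX2 xl yb)) (cR xl ya)) := by
  obtain ⟨-, b2, -, b4, -, b6⟩ := hb.bounds hp.l1.le hp.l2.le
  have h1 := (hp.rng j hj).2
  have h2 : x j ≤ ∑ i ∈ T, x i := Finset.single_le_sum (fun i hi => (hp.rng i hi).1) hj
  rw [rr_min, rr_min]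
  refine le_min (le_min (h1.trans (hp.le.trans b2)) (h1.trans b4)) ?_
  rw [hp.sum] at h2
  exact h2.trans b6

theorem min_le_mean {x : ι → ℝ} {i : ι} (hi : i ∈ T) (hm : ∀ j ∈ T, x i ≤ x j) :
    x i ≤ (∑ j ∈ T, x j) / T.card := by
  have hc : (0 : ℝ) < T.card := by exact_mod_cast Finset.card_pos.2 ⟨i, hi⟩
  rw [le_div_iff₀ hc, mul_comm, ← nsmul_eq_mul]
  exact Finset.card_nsmul_le_sum T x _ hm

theorem mean_le_max {x : ι → ℝ} {i : ι} (hi : i ∈ T) (hm : ∀ j ∈ T, x j ≤ x i) :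
    (∑ j ∈ T, x j) / T.card ≤ x i := by
  have hc : (0 : ℝ) < T.card := by exact_mod_cast Finset.card_pos.2 ⟨i, hi⟩
  rw [div_le_iff₀ hc, mul_comm, ← nsmul_eq_mul]
  exact Finset.sum_le_card_nsmul T x _ hm

theorem mean_bd {x : ι → ℝ} {x1 xi : ℝ} (hp : Pt T x x1 xi) {xl xh ya yb : ℕ}
    (hb : Box xl xh ya yb x1 xi) (hk : 0 < T.card) :
    rr (cR xh yb / T.card) ≤ (∑ j ∈ T, x j) / T.card ∧
      (∑ j ∈ T, x j) / T.card ≤ rr (cR xl ya / T.card + 1) := by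
  obtain ⟨-, -, -, -, b5, b6⟩ := hb.bounds hp.l1.le hp.l2.le
  have hc : (0 : ℝ) ≤ T.card := Nat.cast_nonneg _
  rw [hp.sum]
  exact ⟨(rr_div_le _ _).trans (div_le_div_of_nonneg_right b5 hc),
    (div_le_div_of_nonneg_right b6 hc).trans (rr_div_lt _ hk).le⟩

theorem inE_box {x : ι → ℝ} {x1 xi : ℝ} (hp : Pt T x x1 xi) {xl xh ya yb : ℕ}
    (hb : Box xl xh ya yb x1 xi) (hk : 2 ≤ T.card) {i : ι} (hi : i ∈ T)
    (hm : ∀ j ∈ T, x i ≤ x j) {pa pb : ℕ} (ha : rr pa ≤ x i) (hb' : x i ≤ rr pb) (vs : ℕ) :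
    InE (boxEP T.card xl xh ya yb pa pb vs) T x x1 (xi * (1 - x1)) := by
  classical
  obtain ⟨b1, b2, b3, b4, b5, b6⟩ := hb.bounds hp.l1.le hp.l2.le
  obtain ⟨m1, m2⟩ := mean_bd hp hb (by omega)
  rw [boxEP_eq]
  refine ⟨rfl, hk, rfl, ?_, fun j hj => ⟨ha.trans (hm j hj), le_xm hp hb hj⟩, ?_,
    fun _ => ⟨hp.p1, b1, b2, b3, ?_⟩, sum_pos hp, ?_, fun hf => absurd hf Bool.false_ne_true⟩
  · rw [hp.sum]
    exact ⟨b5, b6⟩
  · have hne : (T.erase i).Nonempty := by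
      rw [← Finset.card_pos, Finset.card_erase_of_mem hi]
      omega
    obtain ⟨l, hl, hl'⟩ := Finset.exists_max_image (T.erase i) x hne
    have hlT := Finset.mem_of_mem_erase hl
    refine ⟨i, hi, l, hlT, (Finset.ne_of_mem_erase hl).symm, hb', ?_⟩
    refine m1.trans (mean_le_max hlT fun j hj => ?_)
    by_cases e : j = i
    · rw [e]
      exact hm l hlT
    · exact hl' j (Finset.mem_erase.2 ⟨e, hj⟩)
  · show xi * (1 - x1) ≤ rr (min (cX1 xh) (cX2 xl yb))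
    rw [rr_min]
    exact le_min (hp.le.trans b2) b4
  · show Var T x ≤ rr (T.card * mulU (min (min (cX1 xh) (cX2 xl yb)) (cR xl ya) -
      cR xh yb / T.card) (cR xl ya / T.card + 1 - pa))
    have h1 := Full.var_le T ⟨i, hi⟩ x (a := rr pa)
      (b := rr (min (min (cX1 xh) (cX2 xl yb)) (cR xl ya)))
      fun j hj => ⟨ha.trans (hm j hj), le_xm hp hb hj⟩
    have h2 := min_le_mean hi hm
    rw [rr_nmul]
    refine h1.trans ?_
    rw [mul_assoc]
    refine mul_le_mul_of_nonneg_left (le_mulU ?_ ?_ (by linarith)) (Nat.cast_nonneg _)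
    · have := rr_sub_ge (min (min (cX1 xh) (cX2 xl yb)) (cR xl ya)) (cR xh yb / T.card)
      linarith
    · have := rr_sub_ge (cR xl ya / T.card + 1) pa
      linarith

theorem p0_le {x : ι → ℝ} {x1 xi : ℝ} (hp : Pt T x x1 xi) {xl xh ya yb : ℕ}
    (hb : Box xl xh ya yb x1 xi) {i : ι} (hi : i ∈ T) :
    rr (cR xh yb - (T.card - 1) * min (min (cX1 xh) (cX2 xl yb)) (cR xl ya)) ≤ x i := by
  classical
  obtain ⟨-, -, -, -, b5, -⟩ := hb.bounds hp.l1.le hp.l2.le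
  rw [rr_sub_eq, rr_nmul]
  refine max_le ?_ (hp.rng i hi).1
  have h1 := Finset.sum_le_card_nsmul (T.erase i) x _
    fun j hj => le_xm hp hb (Finset.mem_of_mem_erase hj)
  rw [Finset.card_erase_of_mem hi, nsmul_eq_mul] at h1
  have h2 := Finset.add_sum_erase T x hi
  rw [hp.sum] at h2
  linarith

end YExcX

theorem vLo_le {P : EP} {x : ι → ℝ} {x1 x2 : ℝ} (hP : InE P T x x1 x2) :
    rr (vLo P.k P.ra P.rb P.xa1 P.xb0 false) ≤ Var T x := by
  obtain ⟨i, hi, l, hl, hil, h1, h2⟩ := hP.two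
  have hk := hP.k2
  have hc := hP.card
  have hk0 : (0 : ℝ) ≤ P.k := Nat.cast_nonneg _
  have m1 : rr (P.ra / P.k) ≤ (∑ j ∈ T, x j) / T.card := by
    rw [hc]
    exact (rr_div_le _ _).trans (div_le_div_of_nonneg_right hP.sum.1 hk0)
  have m2 : (∑ j ∈ T, x j) / T.card ≤ rr (P.rb / P.k + 1) := by
    rw [hc]
    exact (div_le_div_of_nonneg_right hP.sum.2 hk0).trans (rr_div_lt _ (by omega)).le
  have p1 : rr (P.ra / P.k - P.xa1) ≤ |x i - (∑ j ∈ T, x j) / T.card| := by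
    rw [rr_sub_eq]
    have := neg_le_abs (x i - (∑ j ∈ T, x j) / T.card)
    exact max_le (by linarith) (abs_nonneg _)
  have p2 : rr (P.xb0 - (P.rb / P.k + 1)) ≤ |x l - (∑ j ∈ T, x j) / T.card| := by
    rw [rr_sub_eq]
    have := le_abs_self (x l - (∑ j ∈ T, x j) / T.card)
    exact max_le (by linarith) (abs_nonneg _)
  have one : ∀ (d : ℕ) (j : ι), j ∈ T → rr d ≤ |x j - (∑ j ∈ T, x j) / T.card| →
      rr (mulD d d * P.k / (P.k - 1)) ≤ Var T x := by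
    intro d j hj hd
    have q1 := YExcX.sq_of hd
    have q2 := var_ge_one T (by omega) x hj
    have e : ((P.k - 1 : ℕ) : ℝ) = P.k - 1 := by
      rw [Nat.cast_sub (by omega), Nat.cast_one]
    have hk1 : (0 : ℝ) < P.k - 1 := by
      have : (2 : ℝ) ≤ P.k := by exact_mod_cast hk
      linarith
    refine (rr_div_le _ _).trans ?_
    rw [e, div_le_iff₀ hk1, rr_muln]
    generalize (x j - (∑ j ∈ T, x j) / T.card) ^ 2 = z at q1 q2
    rw [hc] at q2
    exact (mul_le_mul_of_nonneg_right q1 hk0).trans q2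
  unfold vLo
  rw [forceN_eq, forceN_eq, cond_false, rr_max]
  refine max_le ?_ ?_
  · rw [rr_add]
    exact (add_le_add (YExcX.sq_of p1) (YExcX.sq_of p2)).trans (var_ge_two T x hi hl hil)
  · rcases le_total (P.ra / P.k - P.xa1) (P.xb0 - (P.rb / P.k + 1)) with hh | hh
    · rw [max_eq_right hh]
      exact one _ l hl p2
    · rw [max_eq_left hh]
      exact one _ i hi p1

theorem excOne_spec (h : BOK B Q E) (hq : q ∈ B.I) {P : EP} {x : ι → ℝ} {x1 x2 : ℝ}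
    (hP : InE P T x x1 x2) (hf : P.fin = false) {sch : List ℕ} (he : excOne B Q E P sch < BIG) :
    ∫ u in Ioi (0 : ℝ), FE (B.g 0 q) P.ho x1 x2 T x u ≤ ro (excOne B Q E P sch) := by
  obtain ⟨sc, sh, sg, e, hI⟩ := runE_exact h (Va := E) (Vb := E) (P := P)
    (fun h1 => absurd (hf.symm.trans h1) Bool.false_ne_true) sch fun sc sh sg =>
    bif Nat.blt sc BIG && Nat.blt sh BIG then
      (bif Nat.ble sg sh then OFF + sc + mulU P.Vh (sh - sg)
        else OFF + sc - mulD (vLo P.k P.ra P.rb P.xa1 P.xb0 false) (sg - sh))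
    else BIG
  have e' : excOne B Q E P sch = bif Nat.blt sc BIG && Nat.blt sh BIG then
      (bif Nat.ble sg sh then OFF + sc + mulU P.Vh (sh - sg)
        else OFF + sc - mulD (vLo P.k P.ra P.rb P.xa1 P.xb0 false) (sg - sh))
    else BIG := e
  rw [e'] at he ⊢
  have hv := vLo_le hP
  have hV := hP.var
  have h0 := YExcX.var_nonneg T x
  generalize vLo P.k P.ra P.rb P.xa1 P.xb0 false = v at he hv ⊢
  cases hc : (Nat.blt sc BIG && Nat.blt sh BIG) with
  | false =>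
    rw [hc, cond_false] at he
    exact absurd he (lt_irrefl _)
  | true =>
    rw [cond_true]
    rw [Bool.and_eq_true, Nat.blt_eq, Nat.blt_eq] at hc
    refine (hI hc.1 hc.2 q hq ι T x x1 x2 hP).trans ?_
    unfold PhiE
    cases hd : Nat.ble sg sh with
    | true =>
      rw [cond_true, ro_add, ro_OFF]
      have h1 : Var T x * (rr sh - rr sg) ≤ rr (mulU P.Vh (sh - sg)) :=
        le_mulU' hV (rr_sub_ge sh sg) h0
      linarith
    | false =>
      have hlt : sh ≤ sg := by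
        rcases le_total sg sh with hh | hh
        · rw [Nat.ble_eq_true_of_le hh] at hd
          exact absurd hd (by decide)
        · exact hh
      rw [cond_false, ro_eq]
      have h1 := rr_sub_ge (OFF + sc) (mulD v (sg - sh))
      have h2 : rr (mulD v (sg - sh)) ≤ Var T x * (rr sg - rr sh) :=
        mulD_le_of hv (rr_sub hlt).le
      rw [rr_add] at h1
      linarith

theorem excE_spec (h : BOK B Q E) (hq : q ∈ B.I) {x : ι → ℝ} {x1 xi : ℝ} (hp : Pt T x x1 xi)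
    {xl xh ya yb w : ℕ} (hb : Box xl xh ya yb x1 xi) {sch : List ℕ}
    (he : excE B Q E T.card xl xh ya yb w sch < BIG) :
    IX (B.g 0 q) x1 (xi * (1 - x1)) T x ≤
      IP (B.g 0 q) T.card x1 xi + ro (excE B Q E T.card xl xh ya yb w sch) := by
  rw [← sub_le_iff_le_add', IX_sub h.sc hq hp]
  have hT : T.Nonempty := by
    rcases T.eq_empty_or_nonempty with e | e
    · have := YExcX.sum_pos hp
      rw [e, Finset.sum_empty] at this
      exact absurd this (lt_irrefl _)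
    · exact e
  unfold excE at he ⊢
  cases hk : Nat.beq T.card 1 with
  | true =>
    rw [cond_true]
    obtain ⟨j, e⟩ := Finset.card_eq_one.1 (Nat.eq_of_beq_eq_true hk)
    have h0 : ro OFF = 0 := by rw [ro_eq, sub_self]
    have h1 : ∀ s : ℝ, FE (B.g 0 q) true x1 (xi * (1 - x1)) T x s = 0 := fun s => by
      simp [FE, mean, e]
    rw [h0]
    simp only [h1, integral_zero, le_refl]
  | false =>
    have hk2 : 2 ≤ T.card := by
      have h1 := hT.card_pos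
      have h2 := Nat.ne_of_beq_eq_false hk
      omega
    rw [hk, cond_false] at he
    rw [cond_false]
    simp only [forceN_eq] at he ⊢
    obtain ⟨i, hi, hm⟩ := Finset.exists_min_image T x hT
    have l0 := YExcX.p0_le hp hb hi
    have l3 := (YExcX.min_le_mean hi hm).trans (YExcX.mean_bd hp hb hT.card_pos).2
    have key : ∀ pa pb vs : ℕ, rr pa ≤ x i → x i ≤ rr pb →
        excOne B Q E (boxEP T.card xl xh ya yb pa pb vs) sch < BIG →
        ∫ u in Ioi (0 : ℝ), FE (B.g 0 q) true x1 (xi * (1 - x1)) T x u ≤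
          ro (excOne B Q E (boxEP T.card xl xh ya yb pa pb vs) sch) := by
      intro pa pb vs ha hb' hlt
      have h1 := excOne_spec h hq (YExcX.inE_box hp hb hk2 hi hm ha hb' vs)
        (by rw [YExcX.boxEP_eq]) hlt
      have h2 : (boxEP T.card xl xh ya yb pa pb vs).ho = true := by rw [YExcX.boxEP_eq]
      rwa [h2] at h1
    generalize cR xh yb - (T.card - 1) * min (min (cX1 xh) (cX2 xl yb)) (cR xl ya) = p0
      at he l0 ⊢
    generalize p0 + (cR xh yb / T.card - p0) * 2 / 5 = p1 at he ⊢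
    generalize p0 + (cR xh yb / T.card - p0) * 7 / 10 = p2 at he ⊢
    generalize cR xl ya / T.card + 1 = p3 at he l3 ⊢
    cases h0 : Nat.beq (w / 64) 0 with
    | true =>
      rw [h0, cond_true] at he
      rw [cond_true]
      exact key _ _ _ l0 l3 he
    | false =>
      rw [h0, cond_false] at he
      rw [cond_false]
      cases h1 : Nat.beq (w / 64) 1 with
      | true =>
        rw [h1, cond_true, max_lt_iff] at he
        rw [cond_true]
        rcases le_total (x i) (rr p2) with c | c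
        · exact (key _ _ _ l0 c he.1).trans (ro_le.2 (le_max_left _ _))
        · exact (key _ _ _ c l3 he.2).trans (ro_le.2 (le_max_right _ _))
      | false =>
        rw [h1, cond_false, max_lt_iff, max_lt_iff] at he
        rw [cond_false]
        rcases le_total (x i) (rr p1) with c | c
        · exact (key _ _ _ l0 c he.1.1).trans
            (ro_le.2 ((le_max_left _ _).trans (le_max_left _ _)))
        · rcases le_total (x i) (rr p2) with d | d
          · exact (key _ _ _ c d he.1.2).trans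
              (ro_le.2 ((le_max_right _ _).trans (le_max_left _ _)))
          · exact (key _ _ _ d l3 he.2).trans (ro_le.2 (le_max_right _ _))

end Pool.Agent.MP_39fec4_gt.K

end

section

set_option autoImplicit false

namespace Pool.Agent.MP_39fec4_gt.K

open Set MeasureTheory Full

variable {B : Blk} {Q : ℕ → ℕ → ℕ} {E : ℕ → ℕ} {q : ℝ} {ι : Type} {T : Finset ι}

namespace YRunPX

/-- The pointwise bound beyond the last node. -/
theorem fp2_tail (h : BOK B Q E) (hq : q ∈ B.I) {k ra rb x1l x1h x2l x2h s : ℕ} {x : ι → ℝ}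
    {x1 x2 : ℝ} (hP : InP k ra rb x1l x1h x2l x2h T x x1 x2) {u : ℝ} (hu : sR s ≤ u) :
    FP2 (B.g 0 q) k x1 x2 T x u ≤ |B.g 0 q (x1 * u ^ 2) * B.g 0 q (x2 * u ^ 2)| *
      rr (pTail B ra (min (min x1h x2h) rb) s + powU (gAB (rqI Q (mulD ra (tS s) / k))) k) := by
  have hk0 : (0 : ℝ) < k := by
    have := hP.k1
    exact_mod_cast (by omega : 0 < k)
  have hx : ∀ j ∈ T, 0 ≤ x j ∧ x j ≤ rr (min (min x1h x2h) rb) := fun j hj => by
    refine ⟨(hP.rng j hj).1, ?_⟩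
    rw [rr_min, rr_min]
    exact le_min (le_min (((hP.rng j hj).2.trans hP.le).trans hP.o1.2)
      ((hP.rng j hj).2.trans hP.o2.2))
      ((Finset.single_le_sum (fun i hi => (hP.rng i hi).1) hj).trans hP.sum.2)
  have a1 := pTail_spec h hq hx hP.sum.1 hu
  have s0 : 0 ≤ ∑ j ∈ T, x j := (rr_nonneg _).trans hP.sum.1
  have a2 : rr (mulD ra (tS s) / k) ≤ (∑ j ∈ T, x j) / k * u ^ 2 := by
    have b1 : rr (mulD ra (tS s)) ≤ (∑ j ∈ T, x j) * u ^ 2 :=
      mulD_le_of hP.sum.1 ((tS_eq s).le.trans (pow_le_pow_left₀ (sR_nonneg s) hu 2))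
    refine (rr_div_le _ k).trans ?_
    rw [div_mul_eq_mul_div]
    exact div_le_div_of_nonneg_right b1 hk0.le
  have a3 := abs_le_powU ((h.qok.rqI (mulD ra (tS s) / k) _).pt q hq _
    ((rr_nonneg _).trans a2) a2 le_rfl).inR.abs k
  have e : FP2 (B.g 0 q) k x1 x2 T x u = B.g 0 q (x1 * u ^ 2) * B.g 0 q (x2 * u ^ 2) *
      (∏ j ∈ T, B.g 0 q (x j * u ^ 2) - B.g 0 q ((∑ j ∈ T, x j) / k * u ^ 2) ^ k) := by
    simp only [FP2, P3]
    ring
  rw [e, rr_add]
  refine (le_abs_self _).trans ?_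
  rw [abs_mul]
  exact mul_le_mul_of_nonneg_left ((abs_sub _ _).trans (add_le_add a1 a3)) (abs_nonneg _)

/-- The diagonal terms beyond the last node. -/
theorem diag_tail (h : BOK B Q E) (hq : q ∈ B.I) {k s : ℕ} (n : ℕ)
    (hf : far0 B (tS s / (k + 2)) < BIG) {u : ℝ} (hu : sR s ≤ u) :
    B.g 0 q (u ^ 2 / ((k + 2 : ℕ) : ℝ)) ^ (k + 2) - B.g 0 q (u ^ 2 / (n : ℝ)) ^ n -
      ngp (B.g 0 q) n u ≤ rr (powU (far0 B (tS s / (k + 2))) (k + 2)) * (sR s / u) ^ 2 := by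
  have a0 : rr (tS s / (k + 2)) ≤ 1 / ((k + 2 : ℕ) : ℝ) * sR s ^ 2 := by
    rw [one_div_mul_eq_div, ← tS_eq]
    exact rr_div_le _ _
  obtain ⟨hs, a1⟩ := far0_sq h hq a0 hf hu
  rw [one_div_mul_eq_div] at a1
  have a2 : -(B.g 0 q (u ^ 2 / (n : ℝ)) ^ n) ≤ ngp (B.g 0 q) n u := le_max_left _ _
  have r0 : 0 ≤ sR s / u := div_nonneg hs.le (hs.le.trans hu)
  have r1 : sR s / u ≤ 1 := (div_le_one (hs.trans_le hu)).2 hu
  have a3 : B.g 0 q (u ^ 2 / ((k + 2 : ℕ) : ℝ)) ^ (k + 2) ≤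
      rr (powU (far0 B (tS s / (k + 2))) (k + 2)) * (sR s / u) ^ 2 := by
    refine (le_abs_self _).trans ?_
    rw [abs_pow]
    refine (pow_le_pow_left₀ (abs_nonneg _) a1 _).trans ?_
    rw [mul_pow]
    exact mul_le_mul (powU_ge _ _) (pow_le_pow_of_le_one r0 r1 (by omega)) (pow_nonneg r0 _)
      (rr_nonneg _)
  linarith

/-- The two tail integrals. -/
theorem tail_int (h : BOK B Q E) (hq : q ∈ B.I) {k ra rb x1l x1h x2l x2h s : ℕ} {x : ι → ℝ}
    {x1 x2 : ℝ} (hP : InP k ra rb x1l x1h x2l x2h T x x1 x2) (ho : oTail B Q x1l x2l s < BIG) :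
    (far0 B (tS s / (k + 2)) < BIG → ∫ u in Ioi (sR s), FP1 (B.g 0 q) k x1 x2 T x u ≤
      rr (mulU (oTail B Q x1l x2l s) (pTail B ra (min (min x1h x2h) rb) s +
        powU (gAB (rqI Q (mulD ra (tS s) / k))) k)) +
      rr (mulU (powU (far0 B (tS s / (k + 2))) (k + 2)) (s <<< 34))) ∧
    ∫ u in Ioi (sR s), FP2 (B.g 0 q) k x1 x2 T x u ≤
      rr (mulU (oTail B Q x1l x2l s) (pTail B ra (min (min x1h x2h) rb) s +
        powU (gAB (rqI Q (mulD ra (tS s) / k))) k)) := by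
  obtain ⟨i1, i2⟩ := hP.int h hq
  obtain ⟨hs, A2, A3, -, -, hA, hO⟩ := oTail_spec h hq hP.o1.1 hP.o2.1 ho
  have p2 := fun u (hu : sR s ≤ u) => fp2_tail (s := s) h hq hP hu
  generalize pTail B ra (min (min x1h x2h) rb) s +
    powU (gAB (rqI Q (mulD ra (tS s) / k))) k = M at p2 ⊢
  have p3 : ∀ u, sR s ≤ u → FP2 (B.g 0 q) k x1 x2 T x u ≤
      A2 * rr M * (sR s / u) ^ 2 + A3 * rr M * (sR s / u) ^ 3 := fun u hu =>
    ((p2 u hu).trans (mul_le_mul_of_nonneg_right (hO u hu) (rr_nonneg M))).trans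
      (le_of_eq (by ring))
  have m1 : (A2 + A3 / 2) * sR s * rr M ≤ rr (mulU (oTail B Q x1l x2l s) M) :=
    le_mulU hA le_rfl (rr_nonneg M)
  refine ⟨fun hf => ?_, ?_⟩
  · have p4 := fun u (hu : sR s ≤ u) => diag_tail h hq (T.card + 2) hf hu
    generalize powU (far0 B (tS s / (k + 2))) (k + 2) = F at p4 ⊢
    have m2 : rr F * sR s ≤ rr (mulU F (s <<< 34)) := le_mulU le_rfl (shl34 s).ge hs.le
    have a := int_tail (A2 := A2 * rr M + rr F) (A3 := A3 * rr M) hs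
      (int_split hs.le i1).2.1 fun u hu => by
        have b1 := p3 u hu
        have b2 := p4 u hu
        unfold FP1
        linarith
    linarith
  · have a := int_tail hs (int_split hs.le i2).2.1 p3
    linarith

/-- The integrals of the two integrands. -/
theorem int_eq (h : BOK B Q E) (hq : q ∈ B.I) {k : ℕ} {x : ι → ℝ} {x1 : ℝ} (h1 : 0 < x1)
    (x2 : ℝ) :
    ∫ u in Ioi (0 : ℝ), FP2 (B.g 0 q) k x1 x2 T x u = IX (B.g 0 q) x1 x2 T x -
      (∫ s in Ioi (0 : ℝ), P3 (B.g 0 q) x1 x2 ((∑ j ∈ T, x j) / k) k (s ^ 2)) ∧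
    ∫ u in Ioi (0 : ℝ), FP1 (B.g 0 q) k x1 x2 T x u =
      (∫ u in Ioi (0 : ℝ), FP2 (B.g 0 q) k x1 x2 T x u) + DG (B.g 0 q) (k + 2) -
        DG (B.g 0 q) (T.card + 2) - ∫ u in Ioi (0 : ℝ), ngp (B.g 0 q) (T.card + 2) u := by
  have a1 := int_IX h.sc hq h1 x2 T x
  have a2 : IntegrableOn
      (fun s : ℝ => P3 (B.g 0 q) x1 x2 ((∑ j ∈ T, x j) / k) k (s ^ 2)) (Ioi 0) := by
    refine (int_IX h.sc hq h1 x2 (Finset.range k) (fun _ => (∑ j ∈ T, x j) / k)).congr_fun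
      (fun s _ => ?_) measurableSet_Ioi
    simp only [P3, Finset.prod_const, Finset.card_range]
  have a3 : IntegrableOn (FP2 (B.g 0 q) k x1 x2 T x) (Ioi 0) := a1.sub a2
  have a4 : ∀ n : ℕ, IntegrableOn
      (fun s : ℝ => B.g 0 q (s ^ 2 / ((n + 2 : ℕ) : ℝ)) ^ (n + 2)) (Ioi 0) := fun n => by
    have hn : (0 : ℝ) < 1 / ((n + 2 : ℕ) : ℝ) := by positivity
    refine (int_pow h.sc hq hn (k := n + 2) (by omega)).congr_fun (fun s _ => ?_)
      measurableSet_Ioi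
    simp only [one_div_mul_eq_div]
  have a5 := int_ngp h hq (n := T.card + 2) (by omega)
  refine ⟨integral_sub a1 a2, ?_⟩
  have b1 := integral_add a3 (a4 k)
  have b2 := integral_sub (a3.add (a4 k)) (a4 T.card)
  have b3 := integral_sub ((a3.add (a4 k)).sub (a4 T.card)) a5
  simp only [Pi.add_apply, Pi.sub_apply] at b2 b3
  rw [b2, b1] at b3
  exact b3

theorem bif_lt {a b : ℕ} (h : (bif Nat.blt a BIG then b else BIG) < BIG) :
    a < BIG ∧ (bif Nat.blt a BIG then b else BIG) = b := by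
  cases hc : Nat.blt a BIG
  · rw [hc] at h
    exact absurd h (lt_irrefl BIG)
  · exact ⟨Nat.blt_eq.mp hc, rfl⟩

end YRunPX

theorem runP_spec {α : Type} (h : BOK B Q E) (k ra rb x1l x1h x2l x2h : ℕ) (sch : List ℕ)
    (kk : ℕ → ℕ → α) :
    ∃ e1 e2, runP B Q E k ra rb x1l x1h x2l x2h sch kk = kk e1 e2 ∧
      ∀ q ∈ B.I, ∀ (ι : Type) (T : Finset ι) (x : ι → ℝ) (x1 x2 : ℝ),
        InP k ra rb x1l x1h x2l x2h T x x1 x2 →
        (e1 < BIG → IX (B.g 0 q) x1 x2 T x - DG (B.g 0 q) (T.card + 2) ≤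
          (∫ s in Ioi (0 : ℝ), P3 (B.g 0 q) x1 x2 ((∑ j ∈ T, x j) / k) k (s ^ 2)) -
            DG (B.g 0 q) (k + 2) + rr e1) ∧
        (e2 < BIG → IX (B.g 0 q) x1 x2 T x ≤
          (∫ s in Ioi (0 : ℝ), P3 (B.g 0 q) x1 x2 ((∑ j ∈ T, x j) / k) k (s ^ 2)) + rr e2) := by
  obtain ⟨s, a, b, g, he, hI⟩ := sweep_ind sch (cellP B Q E k ra rb x1l x1h x2l x2h)
    (finP B Q k ra rb x1l x1h x2l x2h kk)
    (fun s a b _ => ∀ q ∈ B.I, ∀ (ι : Type) (T : Finset ι) (x : ι → ℝ) (x1 x2 : ℝ),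
      InP k ra rb x1l x1h x2l x2h T x x1 x2 →
      ∫ u in (0 : ℝ)..sR s, FP1 (B.g 0 q) k x1 x2 T x u ≤ rr a ∧
        ∫ u in (0 : ℝ)..sR s, FP2 (B.g 0 q) k x1 x2 T x u ≤ rr b)
    (fun q _ ι T x x1 x2 _ => by
      rw [sR_zero, intervalIntegral.integral_same, intervalIntegral.integral_same, rr_zero]
      exact ⟨le_rfl, le_rfl⟩)
    (fun s s' a b g kk' hs hI => by
      obtain ⟨a', b', he, hc⟩ := cellP_spec h k ra rb x1l x1h x2l x2h hs a b g kk'
      refine ⟨a', b', g, he, fun q hq ι T x x1 x2 hx => ?_⟩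
      obtain ⟨i1, i2⟩ := hx.int h hq
      rw [int_add i1 (sR_nonneg s) (sR_mono hs), int_add i2 (sR_nonneg s) (sR_mono hs)]
      have h1 := hI q hq ι T x x1 x2 hx
      have h2 := hc q hq ι T x x1 x2 hx
      exact ⟨by linarith [h1.1, h2.1], by linarith [h1.2, h2.2]⟩)
  refine ⟨a + (bif Nat.blt (oTail B Q x1l x2l s) BIG then mulU (oTail B Q x1l x2l s)
        (pTail B ra (min (min x1h x2h) rb) s + powU (gAB (rqI Q (mulD ra (tS s) / k))) k)
        else BIG) + delN B Q (k + 2) +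
      (bif Nat.blt (far0 B (tS s / (k + 2))) BIG then
        mulU (powU (far0 B (tS s / (k + 2))) (k + 2)) (s <<< 34) else BIG),
    b + (bif Nat.blt (oTail B Q x1l x2l s) BIG then mulU (oTail B Q x1l x2l s)
        (pTail B ra (min (min x1h x2h) rb) s + powU (gAB (rqI Q (mulD ra (tS s) / k))) k)
        else BIG), he.trans ?_, fun q hq ι T x x1 x2 hx => ?_⟩
  · unfold finP
    simp only [forceN_eq]
  obtain ⟨i1, i2⟩ := hx.int h hq
  obtain ⟨e2, e1⟩ := YRunPX.int_eq (k := k) (T := T) (x := x) h hq hx.p1 x2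
  obtain ⟨h1, h2⟩ := hI q hq ι T x x1 x2 hx
  rw [int_all i1 (sR_nonneg s), e2] at e1
  rw [int_all i2 (sR_nonneg s)] at e2
  refine ⟨fun hlt => ?_, fun hlt => ?_⟩
  · obtain ⟨ho, eo⟩ := YRunPX.bif_lt (lt_of_le_of_lt (((Nat.le_add_left _ a).trans
      (Nat.le_add_right _ _)).trans (Nat.le_add_right _ _)) hlt)
    obtain ⟨hf, ef⟩ := YRunPX.bif_lt (lt_of_le_of_lt (Nat.le_add_left _ _) hlt)
    have hd : delN B Q (k + 2) < BIG :=
      lt_of_le_of_lt ((Nat.le_add_left _ _).trans (Nat.le_add_right _ _)) hlt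
    have t1 := (YRunPX.tail_int h hq hx ho).1 hf
    have t2 := delN_le h hq (N := k + 2) (n := T.card + 2) (by omega)
      (Nat.add_le_add_right hx.card 2) hd
    rw [eo, ef, rr_add, rr_add, rr_add]
    linarith
  · obtain ⟨ho, eo⟩ := YRunPX.bif_lt (lt_of_le_of_lt (Nat.le_add_left _ b) hlt)
    have t1 := (YRunPX.tail_int h hq hx ho).2
    rw [eo, rr_add]
    linarith

theorem excB_spec {α : Type} (h : BOK B Q E) (c : Cls) (w xl xh ya yb : ℕ) (kk : ℕ → ℕ → α) :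
    ∃ e1 e2, excB B Q E c w xl xh ya yb kk = kk e1 e2 ∧ ExcOK B c xl xh ya yb e1 e2 := by
  unfold excB
  cases hc : c.plus
  · refine ⟨_, _, forceN_eq _ _, fun q hq ι T x x1 xi hp hd hb => ?_⟩
    have e1 := hd.ex hc
    have e2 : T.card + 2 = c.N := by
      have := hd.n3
      omega
    rw [e2, ← e1]
    exact ⟨fun hlt => by linarith [excE_spec h hq hp hb hlt], fun hlt => excE_spec h hq hp hb hlt⟩
  · obtain ⟨e1, e2, he, hs⟩ := runP_spec h (c.N - 2) (cR xh yb) (cR xl ya) (cX1 xl) (cX1 xh)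
      (cX2 xh ya) (min (cX1 xh) (cX2 xl yb)) c.sch fun e1 e2 =>
        forceN (OFF + e1) fun e1 => forceN (OFF + e2) fun e2 => kk e1 e2
    refine ⟨OFF + e1, OFF + e2, he.trans (by simp only [forceN_eq]),
      fun q hq ι T x x1 xi hp hd hb => ?_⟩
    have n3 := hd.n3
    obtain ⟨c1, c2⟩ := hd.pl hc
    obtain ⟨b1, b2, b3, b4, b5, b6⟩ := hb.bounds hp.l1.le hp.l2.le
    have eN : c.N - 2 + 2 = c.N := by omega
    have hP : InP (c.N - 2) (cR xh yb) (cR xl ya) (cX1 xl) (cX1 xh) (cX2 xh ya)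
        (min (cX1 xh) (cX2 xl yb)) T x x1 (xi * (1 - x1)) :=
      { k1 := by omega
        card := c1
        sum := by rw [hp.sum]; exact ⟨b5, b6⟩
        one := by rw [hp.sum]; ring
        rng := hp.rng
        p1 := hp.p1
        le := hp.le
        o1 := ⟨b1, b2⟩
        o2 := ⟨b3, by rw [rr_min]; exact le_min (hp.le.trans b2) b4⟩
        big := by
          have : ((c.N - 2 : ℕ) : ℝ) + 2 = c.N := by exact_mod_cast eN
          rwa [this] }
    obtain ⟨s1, s2⟩ := hs q hq ι T x x1 _ hP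
    rw [hp.sum, eN] at s1
    rw [hp.sum] at s2
    rw [ro_OFF, ro_OFF]
    exact ⟨fun hlt => s1 (lt_of_le_of_lt (Nat.le_add_left _ _) hlt),
      fun hlt => s2 (lt_of_le_of_lt (Nat.le_add_left _ _) hlt)⟩

end Pool.Agent.MP_39fec4_gt.K

end

section

set_option autoImplicit false

namespace Pool.Agent.MP_39fec4_gt.K

open Set MeasureTheory Full

variable {B : Blk} {Q : ℕ → ℕ → ℕ} {E : ℕ → ℕ} {q : ℝ} {ι : Type} {T : Finset ι}

namespace YNearX

variable {n a0 a1 b0 b1 : ℕ} {uni : Bool} {x : ι → ℝ}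

theorem two_le (h : NearIn n uni a0 a1 b0 b1 T x) : 2 ≤ n ∧ n ≤ T.card := by
  cases uni
  · have := h.ex rfl
    omega
  · have := h.un rfl
    omega

theorem npos (h : NearIn n uni a0 a1 b0 b1 T x) : (0 : ℝ) < n := by
  have := (two_le h).1
  exact_mod_cast (by omega : 0 < n)

theorem cpos (h : NearIn n uni a0 a1 b0 b1 T x) : (0 : ℝ) < T.card := by
  have := two_le h
  exact_mod_cast (by omega : 0 < T.card)

theorem rng (h : NearIn n uni a0 a1 b0 b1 T x) :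
    ∀ j ∈ T, rr a0 ≤ x j * T.card / n ∧ x j * T.card / n ≤ rr b1 := by
  obtain ⟨i, _, hi, hi0, _⟩ := h.mn
  obtain ⟨l, _, hl, _, hl1⟩ := h.mx
  have hn := npos h
  have hc := cpos h
  intro j hj
  refine ⟨hi0.trans ?_, le_trans ?_ hl1⟩
  · have := hi j hj
    gcongr
  · have := hl j hj
    gcongr

theorem nonneg (h : NearIn n uni a0 a1 b0 b1 T x) : ∀ j ∈ T, 0 ≤ x j := by
  intro j hj
  have h1 := (rr_nonneg a0).trans (rng h j hj).1
  have hn := npos h
  have hc := cpos h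
  by_contra hx
  have h2 : x j * T.card / n < 0 :=
    div_neg_of_neg_of_pos (mul_neg_of_neg_of_pos (not_le.1 hx) hc) hn
  linarith

theorem var_pos (h : NearIn n uni a0 a1 b0 b1 T x) : 0 < Var T x := by
  obtain ⟨j, hj, hne⟩ := h.nd
  unfold Var
  rw [h.sum]
  exact Finset.sum_pos' (fun _ _ => sq_nonneg _)
    ⟨j, hj, lt_of_le_of_ne (sq_nonneg _) (pow_ne_zero 2 (sub_ne_zero.2 hne)).symm⟩

/-- The smallest coordinate lies below the mean. -/
theorem min_le (h : NearIn n uni a0 a1 b0 b1 T x) {i : ι} (hi : ∀ j ∈ T, x i ≤ x j) :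
    x i * T.card ≤ 1 := by
  have h1 := Finset.card_nsmul_le_sum T x (x i) hi
  rw [h.sum, nsmul_eq_mul] at h1
  linarith

theorem le_max (h : NearIn n uni a0 a1 b0 b1 T x) {l : ι} (hl : ∀ j ∈ T, x j ≤ x l) :
    1 ≤ x l * T.card := by
  have h1 := Finset.sum_le_card_nsmul T x (x l) hl
  rw [h.sum, nsmul_eq_mul] at h1
  linarith

theorem ne_of (h : NearIn n uni a0 a1 b0 b1 T x) {i l : ι} (hi : ∀ j ∈ T, x i ≤ x j)
    (hl : ∀ j ∈ T, x j ≤ x l) : i ≠ l := by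
  rintro rfl
  obtain ⟨j, hj, hne⟩ := h.nd
  have h1 := min_le h hi
  have h2 := le_max h hl
  have h3 : x j = x i := le_antisymm (hl j hj) (hi j hj)
  apply hne
  rw [eq_div_iff (cpos h).ne', h3]
  linarith

theorem sum_xi (h : NearIn n uni a0 a1 b0 b1 T x) :
    (∑ j ∈ T, x j * (T.card / n : ℝ)) / T.card = 1 / n := by
  have hn := npos h
  have hc := cpos h
  rw [← Finset.sum_mul, h.sum]
  field_simp

theorem SSn_le (n : ℕ) : rr (SS / n) ≤ 1 / n := by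
  have := rr_div_le SS n
  rwa [rr_SS] at this

theorem lt_SSn (hn : 0 < n) : (1 : ℝ) / n < rr (SS / n + 1) := by
  have := rr_div_lt SS hn
  rwa [rr_SS] at this

theorem var_up (h : NearIn n uni a0 a1 b0 b1 T x) :
    Var T x * T.card ≤ rr (n * mulU (b1 - SS / n) (SS / n + 1 - a0)) * n := by
  have hn := npos h
  have hc := cpos h
  have hn' : 0 < n := by exact_mod_cast hn
  have hT : T.Nonempty := Finset.card_pos.1 (by exact_mod_cast hc)
  have h1 := Full.var_le T hT (fun j => x j * (T.card / n : ℝ)) (a := rr a0) (b := rr b1)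
    (fun j hj => by
      have := rng h j hj
      rw [mul_div_assoc] at this
      exact this)
  rw [sum_xi h, var_smul] at h1
  obtain ⟨i, _, hi, hi0, _⟩ := h.mn
  have h2 : rr a0 ≤ 1 / n := by
    refine hi0.trans ?_
    have := min_le h hi
    gcongr
  have h3 : (rr b1 - 1 / n) * (1 / n - rr a0) ≤ rr (mulU (b1 - SS / n) (SS / n + 1 - a0)) := by
    refine le_mulU ?_ ?_ (by linarith)
    · have := rr_sub_ge b1 (SS / n)
      have := SSn_le n
      linarith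
    · have := rr_sub_ge (SS / n + 1) a0
      have := lt_SSn hn'
      linarith
  rw [rr_nmul]
  generalize rr (mulU (b1 - SS / n) (SS / n + 1 - a0)) = u at *
  have h4 : ((T.card : ℝ) / n) ^ 2 * Var T x ≤ T.card * u := by
    refine h1.trans ?_
    rw [mul_assoc]
    exact mul_le_mul_of_nonneg_left h3 hc.le
  have h5 : Var T x * T.card = ((T.card : ℝ) / n) ^ 2 * Var T x * (n ^ 2 / T.card) := by
    field_simp
  have h6 : (n : ℝ) * u * n = T.card * u * (n ^ 2 / T.card) := by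
    field_simp
  rw [h5, h6]
  exact mul_le_mul_of_nonneg_right h4 (by positivity)

theorem sq_of {d : ℕ} {z : ℝ} (h : rr d ≤ z) : rr (mulD d d) ≤ z ^ 2 := by
  rw [sq]
  exact mulD_le_of h h

theorem var_low (h : NearIn n uni a0 a1 b0 b1 T x) :
    rr (vLo n SS SS a1 b0 true) ≤ ((T.card : ℝ) / n) ^ 2 * Var T x := by
  have hn := npos h
  have hn' : 0 < n := by exact_mod_cast hn
  obtain ⟨i, hiT, hi, _, hi1⟩ := h.mn
  obtain ⟨l, hlT, hl, hl0, _⟩ := h.mx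
  have h1 := var_ge_two T (fun j => x j * (T.card / n : ℝ)) hiT hlT (ne_of h hi hl)
  rw [sum_xi h, var_smul] at h1
  refine le_trans ?_ h1
  have e : vLo n SS SS a1 b0 true =
      mulD (SS / n - a1) (SS / n - a1) + mulD (b0 - (SS / n + 1)) (b0 - (SS / n + 1)) := by
    unfold vLo
    rw [forceN_eq, forceN_eq, cond_true, Nat.max_zero]
  rw [e, rr_add]
  rw [mul_div_assoc] at hi1 hl0
  have m1 : x i * (T.card / n : ℝ) ≤ 1 / n := by
    rw [← mul_div_assoc]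
    have := min_le h hi
    gcongr
  have m2 : 1 / n ≤ x l * (T.card / n : ℝ) := by
    rw [← mul_div_assoc]
    have := le_max h hl
    gcongr
  have p1 : rr (SS / n - a1) ≤ 1 / n - x i * (T.card / n : ℝ) := by
    rw [rr_sub_eq]
    have := SSn_le n
    exact max_le (by linarith) (by linarith)
  have p2 : rr (b0 - (SS / n + 1)) ≤ x l * (T.card / n : ℝ) - 1 / n := by
    rw [rr_sub_eq]
    have := lt_SSn hn'
    exact max_le (by linarith) (by linarith)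
  have q1 := sq_of p1
  have q2 := sq_of p2
  have e1 : (1 / n - x i * (T.card / n : ℝ)) ^ 2 = (x i * (T.card / n : ℝ) - 1 / n) ^ 2 := by
    ring
  rw [e1] at q1
  exact add_le_add q1 q2

theorem EP_eq (n : ℕ) (uni fin : Bool) (a0 a1 b0 b1 w : ℕ) : nearEP n uni fin a0 a1 b0 b1 w =
    { k := n, ra := SS, rb := SS, xa0 := a0, xa1 := a1, xb0 := b0, xb1 := b1, ho := false,
      x1l := 0, x1h := 0, x2l := 0, x2h := 0, Vh := n * mulU (b1 - SS / n) (SS / n + 1 - a0),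
      sV := sqrtU (n * mulU (b1 - SS / n) (SS / n + 1 - a0)),
      Vs := vLo n SS SS a1 b0 uni * w / 4, uni := uni, fin := fin } := by
  unfold nearEP
  rw [forceN_eq]

theorem cancel (h : NearIn n false a0 a1 b0 b1 T x) (j : ι) : x j * T.card / n = x j := by
  have hn := npos h
  rw [(h.ex rfl).2]
  field_simp

theorem inE_aux (h : NearIn n false a0 a1 b0 b1 T x) (fin : Bool) {ra vh sv : ℕ} (vs : ℕ)
    (h0 : rr ra = 1) (h1 : Var T x ≤ rr vh) (h2 : rr vh ≤ rr sv ^ 2) :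
    InE ⟨n, ra, ra, a0, a1, b0, b1, false, 0, 0, 0, 0, vh, sv, vs, false, fin⟩ T x 0 0 := by
  obtain ⟨i, hiT, hi, _, hi1⟩ := h.mn
  obtain ⟨l, hlT, hl, hl0, _⟩ := h.mx
  rw [cancel h] at hi1 hl0
  have hs := h.sum
  refine ⟨rfl, (h.ex rfl).1, (h.ex rfl).2, ⟨?_, ?_⟩, fun j hj => ?_,
    ⟨i, hiT, l, hlT, ne_of h hi hl, hi1, hl0⟩, fun hh => ?_, ?_, h1, fun _ => h2⟩
  · exact (h0.trans hs.symm).le
  · exact (hs.trans h0.symm).le
  · have := rng h j hj
    rw [cancel h] at this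
    exact this
  · exact absurd hh Bool.false_ne_true
  · rw [hs]
    exact one_pos

theorem inE (h : NearIn n false a0 a1 b0 b1 T x) (fin : Bool) (w : ℕ) :
    InE (nearEP n false fin a0 a1 b0 b1 w) T x 0 0 := by
  have h1 := var_up h
  rw [(h.ex rfl).2] at h1
  have h2 := le_of_mul_le_mul_right h1 (npos h)
  rw [EP_eq]
  exact inE_aux h fin _ rr_SS h2 (sqrtU_sq _)

theorem inU (h : NearIn n true a0 a1 b0 b1 T x) (fin : Bool) (w : ℕ) :
    InU (nearEP n true fin a0 a1 b0 b1 w) T x := by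
  rw [EP_eq]
  exact ⟨rfl, rfl, (h.un rfl).1, (h.un rfl).2, rfl, rfl, h.sum, rng h, var_up h⟩

/-- The last step: the state of the run is negative. -/
theorem phi_neg {c V : ℝ} {sc sh sg v : ℕ} (hc : 0 < c) (hV : 0 < V) (hv : rr v * c ≤ V)
    (h1 : sh < sg) (h2 : sc = 0 ∨ sc < mulD v (sg - sh)) : PhiE c V sc sh sg < 0 := by
  unfold PhiE
  have h3 : rr sh < rr sg := rr_lt.2 h1
  rcases h2 with rfl | h2
  · rw [rr_zero]
    nlinarith
  · have h4 := (rr_lt.2 h2).trans_le (mulD_le v (sg - sh))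
    rw [rr_sub h1.le] at h4
    have h5 := mul_lt_mul_of_pos_left h4 hc
    have h6 := mul_le_mul_of_nonneg_right hv (sub_pos.2 h3).le
    nlinarith

theorem empty_box (h : NearIn n false a0 a1 b0 b1 T x)
    (hh : a1 + (n - 1) * b1 < SS ∨ SS < b0 + (n - 1) * a0) : False := by
  classical
  obtain ⟨i, hiT, _, _, hi1⟩ := h.mn
  obtain ⟨l, hlT, _, hl0, _⟩ := h.mx
  rw [cancel h] at hi1 hl0
  have hr : ∀ j ∈ T, rr a0 ≤ x j ∧ x j ≤ rr b1 := fun j hj => by
    have := rng h j hj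
    rwa [cancel h] at this
  have hs := h.sum
  rcases hh with hh | hh
  · have h1 := rr_lt.2 hh
    rw [rr_add, rr_nmul, rr_SS] at h1
    have h2 := Finset.sum_le_card_nsmul (T.erase i) x (rr b1)
      (fun j hj => (hr j (Finset.mem_of_mem_erase hj)).2)
    rw [Finset.card_erase_of_mem hiT, (h.ex rfl).2, nsmul_eq_mul] at h2
    rw [← Finset.add_sum_erase T _ hiT] at hs
    linarith
  · have h1 := rr_lt.2 hh
    rw [rr_add, rr_nmul, rr_SS] at h1
    have h2 := Finset.card_nsmul_le_sum (T.erase l) x (rr a0)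
      (fun j hj => (hr j (Finset.mem_of_mem_erase hj)).1)
    rw [Finset.card_erase_of_mem hlT, (h.ex rfl).2, nsmul_eq_mul] at h2
    rw [← Finset.add_sum_erase T _ hlT] at hs
    linarith

theorem split_a {m : ℕ} (h1 : NearOK B n uni a0 m b0 b1) (h2 : NearOK B n uni m a1 b0 b1) :
    NearOK B n uni a0 a1 b0 b1 := by
  intro q hq ι T x h
  obtain ⟨i, hiT, hi, hi0, hi1⟩ := h.mn
  rcases le_total (x i * T.card / n) (rr m) with hm | hm
  · exact h1 q hq ι T x ⟨h.ex, h.un, h.sum, h.nd, ⟨i, hiT, hi, hi0, hm⟩, h.mx⟩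
  · exact h2 q hq ι T x ⟨h.ex, h.un, h.sum, h.nd, ⟨i, hiT, hi, hm, hi1⟩, h.mx⟩

theorem split_b {m : ℕ} (h1 : NearOK B n uni a0 a1 b0 m) (h2 : NearOK B n uni a0 a1 m b1) :
    NearOK B n uni a0 a1 b0 b1 := by
  intro q hq ι T x h
  obtain ⟨i, hiT, hi, hi0, hi1⟩ := h.mx
  rcases le_total (x i * T.card / n) (rr m) with hm | hm
  · exact h1 q hq ι T x ⟨h.ex, h.un, h.sum, h.nd, h.mn, ⟨i, hiT, hi, hi0, hm⟩⟩
  · exact h2 q hq ι T x ⟨h.ex, h.un, h.sum, h.nd, h.mn, ⟨i, hiT, hi, hm, hi1⟩⟩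

end YNearX

open YNearX in
theorem nearL_sound (h : BOK B Q E) {Va Vb : ℕ → ℕ} (hV : EndOK B Va Vb B.Yp) {n : ℕ}
    {uni fin : Bool} {sch : List ℕ} {w a0 a1 b0 b1 : ℕ}
    (ok : nearL B Q E Va Vb n uni fin sch w a0 a1 b0 b1 = true) :
    NearOK B n uni a0 a1 b0 b1 := by
  intro q hq ι T x hx
  unfold nearL at ok
  cases hw : Nat.beq w 0
  · rw [hw, cond_false] at ok
    have hs := IG_sub h.sc hq (nonneg hx) hx.sum 0 0
    rw [← sub_neg, hs]
    cases uni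
    · obtain ⟨sc, sh, sg, e, hb⟩ := runE_exact h (Va := Va) (Vb := Vb)
        (P := nearEP n false fin a0 a1 b0 b1 (w - 1)) (fun _ => hV) sch
        (fun sc sh sg => Nat.blt sc BIG && Nat.blt sh BIG && Nat.blt sh sg &&
          (Nat.beq sc 0 || Nat.blt sc (mulD (vLo n SS SS a1 b0 false) (sg - sh))))
      rw [e] at ok
      simp only [Bool.and_eq_true, Bool.or_eq_true, Nat.blt_eq, Nat.beq_eq] at ok
      obtain ⟨⟨⟨o1, o2⟩, o3⟩, o4⟩ := ok
      have hP := inE hx fin (w - 1)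
      have h1 := hb o1 o2 q hq ι T x 0 0 hP
      have h2 := vLo_le hP
      rw [EP_eq] at h1 h2
      exact lt_of_le_of_lt h1
        (phi_neg one_pos (var_pos hx) (by rw [mul_one]; exact h2) o3 o4)
    · obtain ⟨sc, sh, sg, e, hb⟩ := runE_uni h (Va := Va) (Vb := Vb)
        (P := nearEP n true fin a0 a1 b0 b1 (w - 1)) (fun _ => hV) sch
        (fun sc sh sg => Nat.blt sc BIG && Nat.blt sh BIG && Nat.blt sh sg &&
          (Nat.beq sc 0 || Nat.blt sc (mulD (vLo n SS SS a1 b0 true) (sg - sh))))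
      rw [e] at ok
      simp only [Bool.and_eq_true, Bool.or_eq_true, Nat.blt_eq, Nat.beq_eq] at ok
      obtain ⟨⟨⟨o1, o2⟩, o3⟩, o4⟩ := ok
      have h1 := hb o1 o2 q hq ι T x (inU hx fin (w - 1))
      rw [EP_eq] at h1
      have hn := npos hx
      have hc := cpos hx
      refine lt_of_le_of_lt h1 (phi_neg (by positivity) (var_pos hx) ?_ o3 o4)
      have h2 := mul_le_mul_of_nonneg_right (var_low hx) (sq_nonneg ((n : ℝ) / T.card))
      refine h2.trans (le_of_eq ?_)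
      field_simp
  · rw [hw, cond_true] at ok
    cases uni
    · simp only [Bool.not_false, Bool.true_and, Bool.or_eq_true, Nat.blt_eq] at ok
      exact (empty_box hx ok).elim
    · simp only [Bool.not_true, Bool.false_and] at ok
      exact absurd ok Bool.false_ne_true

theorem nearT_sound (h : BOK B Q E) {Va Vb : ℕ → ℕ} (hV : EndOK B Va Vb B.Yp) {n : ℕ}
    {uni fin : Bool} {sch : List ℕ} (t : Tr) {a0 a1 b0 b1 : ℕ}
    (ok : nearT B Q E Va Vb n uni fin sch t a0 a1 b0 b1 = true) :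
    NearOK B n uni a0 a1 b0 b1 := by
  induction t generalizing a0 a1 b0 b1 with
  | l w => exact nearL_sound h hV (w := w) ok
  | x a b i1 i2 =>
    have e : nearT B Q E Va Vb n uni fin sch (Tr.x a b) a0 a1 b0 b1 =
        forceN ((a0 + a1) / 2) fun m => nearT B Q E Va Vb n uni fin sch a a0 m b0 b1 &&
          nearT B Q E Va Vb n uni fin sch b m a1 b0 b1 := rfl
    rw [e, forceN_eq, Bool.and_eq_true] at ok
    exact YNearX.split_a (i1 ok.1) (i2 ok.2)
  | y a b i1 i2 =>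
    have e : nearT B Q E Va Vb n uni fin sch (Tr.y a b) a0 a1 b0 b1 =
        forceN ((b0 + b1) / 2) fun m => nearT B Q E Va Vb n uni fin sch a a0 a1 b0 m &&
          nearT B Q E Va Vb n uni fin sch b a0 a1 m b1 := rfl
    rw [e, forceN_eq, Bool.and_eq_true] at ok
    exact YNearX.split_b (i1 ok.1) (i2 ok.2)
  | q a b _ _ => exact absurd ok Bool.false_ne_true
  | e w a _ => exact absurd ok Bool.false_ne_true

end Pool.Agent.MP_39fec4_gt.K

end
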