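import Pool.Agent.Mg.F39fec4.G27abef
import Pool.Agent.Mg.F39fec4.G5d53c7
import Pool.Agent.Mg.F39fec4.Gc7ae94
import Pool.Agent.Mg.F39fec4.G479cf4
import Pool.Agent.Mg.F39fec4.G66192e
import Pool.Agent.Mg.F39fec4.G61c6b1
import Pool.Agent.Mg.F39fec4.Gd1efec
import Pool.Agent.Mg.F39fec4.G077cfb

section

set_option autoImplicit false

/-! Fast merge and fast check of the Gamma table. -/

namespace Pool.Agent.MP_39fec4_gt.K

open Set Full

namespace ZFastAX

theorem and_split {w x0 y0 : ℕ} (x1 y1 : ℕ) (hx : x0 < 2 ^ w) (hy : y0 < 2 ^ w) :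
    (2 ^ w * x1 + x0) &&& (2 ^ w * y1 + y0) = 2 ^ w * (x1 &&& y1) + (x0 &&& y0) := by
  apply Nat.eq_of_testBit_eq
  intro j
  rw [Nat.testBit_and, Nat.testBit_two_pow_mul_add _ hx, Nat.testBit_two_pow_mul_add _ hy,
    Nat.testBit_two_pow_mul_add _ (Nat.and_le_left.trans_lt hx)]
  split_ifs <;> rw [Nat.testBit_and]

theorem and_scale (w x y : ℕ) : (2 ^ w * x) &&& (2 ^ w * y) = 2 ^ w * (x &&& y) := by
  simpa using and_split (w := w) (x0 := 0) (y0 := 0) x y (by positivity) (by positivity)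

theorem and_scale' (w a y : ℕ) : a &&& (2 ^ w * y) = 2 ^ w * ((a / 2 ^ w) &&& y) := by
  have h := and_split (w := w) (x0 := a % 2 ^ w) (y0 := 0) (a / 2 ^ w) y
    (Nat.mod_lt _ (by positivity)) (by positivity)
  rw [Nat.div_add_mod] at h
  simpa using h

/-- Digits in slots of width 112. -/
def pk : ℕ → (ℕ → ℕ) → ℕ
  | 0, _ => 0
  | n + 1, d => 2 ^ 112 * pk n (fun i => d (i + 1)) + d 0

theorem pk_and (n : ℕ) : ∀ x y : ℕ → ℕ, (∀ i, x i < 2 ^ 112) → (∀ i, y i < 2 ^ 112) →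
    pk n x &&& pk n y = pk n fun i => x i &&& y i := by
  induction n with
  | zero => intro x y _ _; simp [pk]
  | succ n ih =>
    intro x y hx hy
    rw [pk, pk, pk, and_split _ _ (hx 0) (hy 0), ih _ _ (fun i => hx _) fun i => hy _]

theorem pk_add (n : ℕ) : ∀ x y : ℕ → ℕ, pk n x + pk n y = pk n fun i => x i + y i := by
  induction n with
  | zero => intro x y; rfl
  | succ n ih =>
    intro x y
    rw [pk, pk, pk, ← ih]
    ring

theorem pk_mul (c n : ℕ) : ∀ x : ℕ → ℕ, c * pk n x = pk n fun i => c * x i := by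
  induction n with
  | zero => intro x; rfl
  | succ n ih =>
    intro x
    rw [pk, pk, ← ih]
    ring

theorem pk_sub (n : ℕ) {x y z : ℕ → ℕ} (h : ∀ i, z i + y i = x i) : pk n x - pk n y = pk n z := by
  have e : x = fun i => z i + y i := funext fun i => (h i).symm
  rw [e, ← pk_add, Nat.add_sub_cancel]

theorem fld_div (a k i : ℕ) : fld (a / 2 ^ (56 * k)) 56 i = fld a 56 (k + i) := by
  rw [fld_eq, fld_eq, Nat.div_div_eq_div_mul, ← pow_add, ← mul_add]

theorem pk_mask (n : ℕ) : ∀ a : ℕ,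
    a &&& pk n (fun _ => 2 ^ 56 - 1) = pk n fun i => fld a 56 (2 * i) := by
  induction n with
  | zero => intro a; simp [pk]
  | succ n ih =>
    intro a
    have h := and_split (w := 112) (x0 := a % 2 ^ 112) (y0 := 2 ^ 56 - 1) (a / 2 ^ 112)
      (pk n fun _ => 2 ^ 56 - 1) (Nat.mod_lt _ (by positivity)) (by norm_num)
    rw [Nat.div_add_mod] at h
    rw [pk, pk, h, ih, Nat.and_two_pow_sub_one_eq_mod,
      Nat.mod_mod_of_dvd _ (pow_dvd_pow 2 (by norm_num)), fld_eq, mul_zero, mul_zero, pow_zero,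
      Nat.div_one]
    congr 3
    funext i
    have := fld_div a 2 (2 * i)
    rw [show 56 * 2 = 112 from rfl] at this
    rw [this]
    congr 1
    ring

theorem guard {x y : ℕ} (hx : x < 2 ^ 56) (hy : y < 2 ^ 56) :
    (x + 2 ^ 56 - y) &&& 2 ^ 56 = 2 ^ 56 * if y ≤ x then 1 else 0 := by
  have h := and_scale' 56 (x + 2 ^ 56 - y) 1
  rw [mul_one] at h
  rw [h]
  congr 1
  split_ifs with hxy
  · rw [show (x + 2 ^ 56 - y) / 2 ^ 56 = 1 by omega]
    rfl
  · rw [show (x + 2 ^ 56 - y) / 2 ^ 56 = 0 by omega]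
    rfl

theorem core (s n : ℕ) (x y : ℕ → ℕ) (hx : ∀ i, x i < 2 ^ 56) (hy : ∀ i, y i < 2 ^ 56)
    {t g : ℕ} (ht : t = 2 ^ s * pk n x + 2 ^ s * pk n (fun _ => 2 ^ 56) - 2 ^ s * pk n y)
    (hg : g = t &&& 2 ^ s * pk n fun _ => 2 ^ 56) :
    2 ^ s * pk n y + (t &&& (g - (g >>> 56))) = 2 ^ s * pk n fun i => max (x i) (y i) := by
  have h1 : t = 2 ^ s * pk n fun i => x i + 2 ^ 56 - y i := by
    rw [ht, ← mul_add, ← Nat.mul_sub, pk_add,
      pk_sub n (z := fun i => x i + 2 ^ 56 - y i) fun i => by have := hy i; omega]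
  have hb : ∀ i, x i + 2 ^ 56 - y i < 2 ^ 112 := fun i => by have := hx i; omega
  have h2 : g = 2 ^ 56 * (2 ^ s * pk n fun i => if y i ≤ x i then 1 else 0) := by
    rw [hg, h1, and_scale, pk_and n _ _ hb fun _ => by norm_num, mul_left_comm, pk_mul (2 ^ 56)]
    simp only [guard (hx _) (hy _)]
  have h3 : g - (g >>> 56) = 2 ^ s * pk n fun i => if y i ≤ x i then 2 ^ 56 - 1 else 0 := by
    rw [Nat.shiftRight_eq_div_pow, h2, Nat.mul_div_cancel_left _ (by positivity),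
      ← Nat.sub_one_mul, mul_left_comm, pk_mul (2 ^ 56 - 1)]
    simp only [mul_ite, mul_one, mul_zero]
  rw [h3, h1, and_scale, pk_and n _ _ hb fun i => by split_ifs <;> norm_num, ← mul_add, pk_add]
  congr 2
  funext i
  have h4 := hx i
  have h5 := hy i
  split_ifs with hxy
  · rw [Nat.and_two_pow_sub_one_eq_mod]
    omega
  · rw [Nat.and_zero]
    omega

theorem mrgH_eq (k n a b : ℕ) :
    mrgH a b (2 ^ (56 * k) * pk n fun _ => 2 ^ 56 - 1) (2 ^ (56 * k) * pk n fun _ => 2 ^ 56) =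
      2 ^ (56 * k) * pk n fun i => max (fld a 56 (k + 2 * i)) (fld b 56 (k + 2 * i)) := by
  simp only [mrgH, forceN_eq]
  rw [and_scale' _ a, and_scale' _ b, pk_mask, pk_mask]
  simp only [fld_div]
  exact core _ n _ _ (fun i => fld_lt _ _ _) (fun i => fld_lt _ _ _) rfl rfl

theorem pk_sum (m : ℕ → ℕ) :
    (2 ^ (56 * 0) * pk 6 fun i => m (0 + 2 * i)) + (2 ^ (56 * 1) * pk 5 fun i => m (1 + 2 * i)) =
      m 0 + (m 1 <<< 56) + (m 2 <<< 112) + (m 3 <<< 168) + (m 4 <<< 224) + (m 5 <<< 280) +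
        (m 6 <<< 336) + (m 7 <<< 392) + (m 8 <<< 448) + (m 9 <<< 504) + (m 10 <<< 560) := by
  have p : ∀ k x : ℕ, x <<< (56 * k) = x * (2 ^ 56) ^ k := fun k x => by
    rw [Nat.shiftLeft_eq, pow_mul]
  have p1 : (2 : ℕ) ^ 112 = (2 ^ 56) ^ 2 := by rw [← pow_mul]
  change _ = m 0 + (m 1 <<< (56 * 1)) + (m 2 <<< (56 * 2)) + (m 3 <<< (56 * 3)) +
    (m 4 <<< (56 * 4)) + (m 5 <<< (56 * 5)) + (m 6 <<< (56 * 6)) + (m 7 <<< (56 * 7)) +
    (m 8 <<< (56 * 8)) + (m 9 <<< (56 * 9)) + (m 10 <<< (56 * 10))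
  rw [p, p, p, p, p, p, p, p, p, p, pow_mul, pow_mul]
  simp only [pk]
  rw [p1]
  generalize (2 : ℕ) ^ 56 = u
  ring

theorem gamA_rec (f c : ℕ) (k : ℕ) : ∀ r : ℕ,
    ((Nat.rec (motive := fun _ => ℕ → ℕ) (fun r => r)
      (fun i ih r => ih ((655360 * (c + r)) / (f + 4096 * (i + 1)))) k r : ℕ) : ℝ) ≤
      SG ((f : ℝ) / 4096) 160 k * c +
        r * (160 ^ k / ∏ j ∈ Finset.range k, ((f : ℝ) / 4096 + 1 + j)) ∧
    SG ((f : ℝ) / 4096) 160 k * c +
        (r + 1) * (160 ^ k / ∏ j ∈ Finset.range k, ((f : ℝ) / 4096 + 1 + j)) ≤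
      ((Nat.rec (motive := fun _ => ℕ → ℕ) (fun r => r)
        (fun i ih r => ih ((655360 * (c + r)) / (f + 4096 * (i + 1)))) k r : ℕ) : ℝ) + 1 +
        SG ((f : ℝ) / 4096) 160 k := by
  induction k with
  | zero =>
    intro r
    simp [SG]
  | succ k ih =>
    intro r
    obtain ⟨h1, h2⟩ := ih ((655360 * (c + r)) / (f + 4096 * (k + 1)))
    have h3 := ZGamX.div_le' (655360 * (c + r)) (f + 4096 * (k + 1))
    have h4 := ZGamX.div_lt' (655360 * (c + r)) (f + 4096 * (k + 1))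
    have hP : 0 < ∏ j ∈ Finset.range k, ((f : ℝ) / 4096 + 1 + j) :=
      Finset.prod_pos fun j _ => by positivity
    have hS : SG ((f : ℝ) / 4096) 160 (k + 1) = SG ((f : ℝ) / 4096) 160 k +
        160 ^ (k + 1) / ∏ j ∈ Finset.range (k + 1), ((f : ℝ) / 4096 + 1 + j) := by
      unfold SG
      rw [Finset.sum_range_succ]
    have hQ : (160 : ℝ) ^ (k + 1) / ∏ j ∈ Finset.range (k + 1), ((f : ℝ) / 4096 + 1 + j) =
        (160 ^ k / ∏ j ∈ Finset.range k, ((f : ℝ) / 4096 + 1 + j)) *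
          (655360 / (f + 4096 * (k + 1))) := by
      rw [Finset.prod_range_succ, pow_succ]
      field_simp
      ring
    have hT : (0 : ℝ) ≤ 160 ^ k / ∏ j ∈ Finset.range k, ((f : ℝ) / 4096 + 1 + j) := by positivity
    rw [hS, hQ]
    change ((Nat.rec (motive := fun _ => ℕ → ℕ) (fun r => r)
      (fun i ih r => ih ((655360 * (c + r)) / (f + 4096 * (i + 1)))) k
        ((655360 * (c + r)) / (f + 4096 * (k + 1))) : ℕ) : ℝ) ≤ _ ∧ _ ≤
      ((Nat.rec (motive := fun _ => ℕ → ℕ) (fun r => r)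
      (fun i ih r => ih ((655360 * (c + r)) / (f + 4096 * (i + 1)))) k
        ((655360 * (c + r)) / (f + 4096 * (k + 1))) : ℕ) : ℝ) + 1 + _
    generalize ((Nat.rec (motive := fun _ => ℕ → ℕ) (fun r => r)
      (fun i ih r => ih ((655360 * (c + r)) / (f + 4096 * (i + 1)))) k
        ((655360 * (c + r)) / (f + 4096 * (k + 1))) : ℕ) : ℝ) = L at h1 h2 ⊢
    rw [Nat.cast_add_one] at h4
    generalize (((655360 * (c + r)) / (f + 4096 * (k + 1)) : ℕ) : ℝ) = q at h1 h2 h3 h4 ⊢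
    generalize (160 : ℝ) ^ k / ∏ j ∈ Finset.range k, ((f : ℝ) / 4096 + 1 + j) = T at *
    generalize SG ((f : ℝ) / 4096) 160 k = S at *
    have e : ((655360 * (c + r) : ℕ) : ℝ) / ((f + 4096 * (k + 1) : ℕ) : ℝ) =
        (655360 / (f + 4096 * (k + 1))) * (c + r) := by
      push_cast
      ring
    rw [e] at h3 h4
    generalize (655360 : ℝ) / (f + 4096 * (k + 1)) = u at *
    have h5 := mul_le_mul_of_nonneg_left h3 hT
    have h6 := mul_le_mul_of_nonneg_left h4 hT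
    constructor <;> nlinarith

end ZFastAX

open ZFastAX

theorem mrgF_eqA (a b M0 H0 M1 H1 : ℕ) (e1 : (2 ^ (56 * 0) * pk 6 fun _ => 2 ^ 56 - 1) = M0)
    (e2 : (2 ^ (56 * 0) * pk 6 fun _ => 2 ^ 56) = H0)
    (e3 : (2 ^ (56 * 1) * pk 5 fun _ => 2 ^ 56 - 1) = M1)
    (e4 : (2 ^ (56 * 1) * pk 5 fun _ => 2 ^ 56) = H1) :
    mrgH a b M0 H0 + mrgH a b M1 H1 = mrg a b := by
  rw [← e1, ← e2, ← e3, ← e4, mrgH_eq, mrgH_eq]
  exact pk_sum fun i => max (fld a 56 i) (fld b 56 i)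

theorem mrgF_eq : mrgF = mrg :=
  funext fun a => funext fun b => mrgF_eqA a b _ _ _ _ (by decide +kernel) (by decide +kernel)
    (by decide +kernel) (by decide +kernel)

theorem gamOne_sound {g f : ℕ} (h : gamOne g (gamA f) = true) : g = gamE f := by
  rw [gamOne, Bool.and_eq_true, Nat.ble_eq, Nat.blt_eq, Nat.shiftLeft_eq] at h
  obtain ⟨h1, h2⟩ := h
  obtain ⟨h3, h4⟩ := gamA_rec f
    115792089237316195423570985008687907853269984665640564039457584007913129639936 460 0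
  have hT : (0 : ℝ) ≤ 160 ^ 460 / ∏ j ∈ Finset.range 460, ((f : ℝ) / 4096 + 1 + j) :=
    div_nonneg (by positivity) (Finset.prod_nonneg fun j _ => by positivity)
  change ((gamA f : ℕ) : ℝ) ≤ _ at h3
  change _ ≤ ((gamA f : ℕ) : ℝ) + 1 + _ at h4
  have hS := ZGamX.SG_nonneg (ph := (f : ℝ) / 4096) (by positivity) 460
  rw [ZGamX.gamE_eq]
  generalize gamA f = lo at h1 h2 h3 h4
  generalize (160 : ℝ) ^ 460 / ∏ j ∈ Finset.range 460, ((f : ℝ) / 4096 + 1 + j) = T at h3 h4 hT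
  generalize SG ((f : ℝ) / 4096) 160 460 = S at h3 h4 hS ⊢
  have e : (2 : ℕ) ^ 256 =
      115792089237316195423570985008687907853269984665640564039457584007913129639936 := by
    decide +kernel
  rw [e] at h1
  have h5 : (g : ℝ) *
      115792089237316195423570985008687907853269984665640564039457584007913129639936 ≤ lo := by
    exact_mod_cast h1
  have h6 : (lo : ℝ) + 1 < ((g : ℝ) + 1) *
      115792089237316195423570985008687907853269984665640564039457584007913129639935 := by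
    exact_mod_cast h2
  push_cast at h3 h4
  symm
  rw [Nat.floor_eq_iff hS]
  constructor <;> linarith

theorem gamChkA_sound {c t : ℕ} (h : gamChkA c t = true) : gamChk c t = true := by
  unfold gamChkA at h
  unfold gamChk
  generalize 256 * c = d at h ⊢
  generalize 256 = n at h ⊢
  induction n with
  | zero => rfl
  | succ n ih =>
    simp only [forceN_eq, Bool.and_eq_true] at h ih ⊢
    exact ⟨Nat.beq_eq ▸ gamOne_sound h.1, ih h.2⟩

end Pool.Agent.MP_39fec4_gt.K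

end

section

set_option autoImplicit false
set_option maxRecDepth 100000

/-! The copies agree with the originals. -/

namespace Pool.Agent.MP_39fec4_gt.R

theorem mx_eq : mx = @Max.max Nat _ := by
  funext a b
  show a + (b - a) = max a b
  omega

theorem mn_eq : mn = @Min.min Nat _ := by
  funext a b
  show a - (a - b) = min a b
  omega

theorem bx_eq : bx = Bool.xor := by
  funext a b
  cases a <;> cases b <;> rfl

theorem fr_eq : @fr = fun (α : Type) (n : Nat) (f : Nat → α) => f n := rfl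

theorem force_eq : @K.forceN = fun (α : Type) (n : Nat) (f : Nat → α) => f n := by
  funext α n f
  exact K.forceN_eq n f

theorem cond_eq : @cond.{1} = fun (α : Type) (c : Bool) (a b : α) =>
    @Bool.rec (fun _ => α) b a c := by
  funext α c a b
  cases c <;> rfl

theorem and_eq : and = fun (a b : Bool) => @Bool.rec (fun _ => Bool) false b a := by
  funext a b
  cases a <;> rfl

theorem or_eq : or = fun (a b : Bool) => @Bool.rec (fun _ => Bool) b true a := by
  funext a b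
  cases a <;> rfl

theorem not_eq : not = fun (a : Bool) => @Bool.rec (fun _ => Bool) true false a := by
  funext a
  cases a <;> rfl

theorem blt_eq : Nat.blt = fun (a b : Nat) => Nat.ble (Nat.succ a) b := rfl

theorem gamA_eq : @gamA = @K.gamA := by
  delta gamA K.gamA
  generalize @Nat.rec.{1} = r0
  revert r0
  as_aux_lemma => intro r0; eq_refl

theorem gamOne_eq : @gamOne = @K.gamOne := by
  delta gamOne K.gamOne
  rewrite [and_eq, blt_eq]
  generalize @Bool.rec.{1} = r0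
  revert r0
  as_aux_lemma => intro r0; eq_refl

theorem gamChkA_eq : @gamChkA = @K.gamChkA := by
  delta gamChkA K.gamChkA K.fld
  rewrite [gamA_eq, gamOne_eq, fr_eq, force_eq, and_eq]
  generalize @Nat.rec.{1} = r0, @Bool.rec.{1} = r1
  revert r0 r1
  as_aux_lemma => intro r0 r1; eq_refl

theorem Blk_m9_eq : @Blk_m9 = @K.Blk.m9 := by
  delta Blk_m9 K.Blk.m9
  eq_refl

theorem rpowH_eq : @rpowH = @K.rpowH := by
  delta rpowH K.rpowH
  rewrite [fr_eq, force_eq, cond_eq]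
  generalize @Nat.rec.{1} = r0, @Bool.rec.{1} = r1
  revert r0 r1
  as_aux_lemma => intro r0 r1; eq_refl

theorem rise_eq : @rise = @K.rise := by
  delta rise K.rise
  rewrite [fr_eq, force_eq]
  generalize @Nat.rec.{1} = r0
  revert r0
  as_aux_lemma => intro r0; eq_refl

theorem muH0_eq : @muH0 = @K.muH0 := by
  delta muH0 K.muH0
  rewrite [rise_eq]
  eq_refl

theorem muH_eq : @muH = @K.muH := by
  delta muH K.muH
  rewrite [rpowH_eq, muH0_eq]
  eq_refl

theorem mH40_eq : @mH40 = @K.mH40 := by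
  delta mH40 K.mH40
  rewrite [muH_eq]
  eq_refl

theorem rpowL_eq : @rpowL = @K.rpowL := by
  delta rpowL K.rpowL
  rewrite [fr_eq, force_eq, cond_eq]
  generalize @Nat.rec.{1} = r0, @Bool.rec.{1} = r1
  revert r0 r1
  as_aux_lemma => intro r0 r1; eq_refl

theorem muL0_eq : @muL0 = @K.muL0 := by
  delta muL0 K.muL0
  rewrite [rise_eq]
  eq_refl

theorem muL_eq : @muL = @K.muL := by
  delta muL K.muL
  rewrite [rpowL_eq, muL0_eq]
  eq_refl

theorem mL40_eq : @mL40 = @K.mL40 := by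
  delta mL40 K.mL40
  rewrite [muL_eq]
  eq_refl

theorem Blk_dm_eq : @Blk_dm = @K.Blk.dm := by
  delta Blk_dm K.Blk.dm
  eq_refl

theorem divU_eq : @divU = @K.divU := by
  delta divU K.divU
  rewrite [cond_eq]
  generalize @Bool.rec.{1} = r0
  revert r0
  as_aux_lemma => intro r0; eq_refl

theorem twoL_eq : @twoL = @K.twoL := by
  delta twoL K.twoL
  rewrite [fr_eq, force_eq, cond_eq]
  generalize @Nat.rec.{1} = r0, @Bool.rec.{1} = r1
  revert r0 r1
  as_aux_lemma => intro r0 r1; eq_refl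

theorem twoH_eq : @twoH = @K.twoH := by
  delta twoH K.twoH
  rewrite [fr_eq, force_eq, cond_eq]
  generalize @Nat.rec.{1} = r0, @Bool.rec.{1} = r1
  revert r0 r1
  as_aux_lemma => intro r0 r1; eq_refl

theorem c3U_eq : @c3U = @K.c3U := by
  delta c3U K.c3U K.mulU
  rewrite [force_eq]
  eq_refl

theorem nuH_eq : @nuH = @K.nuH := by
  delta nuH K.nuH
  rewrite [mH40_eq, mL40_eq]
  eq_refl

theorem scalChk_eq : @scalChk = @K.scalChk := by
  delta scalChk K.scalChk K.mulU K.mulD K.divD K.powD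
  rewrite [Blk_m9_eq, mH40_eq, mL40_eq, Blk_dm_eq, divU_eq, twoL_eq, twoH_eq, c3U_eq, nuH_eq, mx_eq,
    force_eq, and_eq, or_eq, blt_eq]
  generalize @Bool.rec.{1} = r0
  revert r0
  as_aux_lemma => intro r0; eq_refl

theorem Blk_qv_eq : @Blk_qv = @K.Blk.qv := by
  delta Blk_qv K.Blk.qv
  eq_refl

theorem nth_eq : @nth = @K.nth := by
  delta nth K.nth K.lf Nat.casesOn
  generalize @List.rec.{1,0} = r0, @Nat.rec.{1} = r1
  revert r0 r1
  as_aux_lemma => intro r0 r1; eq_refl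

theorem bandOf_eq : @bandOf = @K.bandOf := by
  delta bandOf K.bandOf
  rewrite [cond_eq, blt_eq]
  generalize @Bool.rec.{1} = r0
  revert r0
  as_aux_lemma => intro r0; eq_refl

theorem vidx_eq : @vidx = @K.vidx := by
  delta vidx K.vidx
  rewrite [bandOf_eq, force_eq]
  eq_refl

theorem bandA_eq : @bandA = @K.bandA := by
  delta bandA K.bandA
  rewrite [cond_eq]
  generalize @Bool.rec.{1} = r0
  revert r0
  as_aux_lemma => intro r0; eq_refl

theorem bandI_eq : @bandI = @K.bandI := by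
  delta bandI K.bandI
  rewrite [bandA_eq]
  eq_refl

theorem bandC_eq : @bandC = @K.bandC := by
  delta bandC K.bandC
  rewrite [bandI_eq, bandA_eq, mn_eq]
  eq_refl

theorem drp_eq : @drp = @K.drp := by
  delta drp K.drp List.casesOn
  generalize @Nat.rec.{1} = r0, @List.rec.{1,0} = r1
  revert r0 r1
  as_aux_lemma => intro r0 r1; eq_refl

theorem hornM_eq : @hornM = @K.hornM := by
  delta hornM K.hornM K.lf Bool.casesOn
  generalize @List.rec.{1,0} = r0, @Bool.rec.{1} = r1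
  revert r0 r1
  as_aux_lemma => intro r0 r1; eq_refl

theorem vrecM_eq : @vrecM = @K.vrecM := by
  delta vrecM K.vrecM K.lt48 K.pk5 K.digM K.fld
  rewrite [hornM_eq, force_eq, cond_eq, and_eq, blt_eq]
  generalize @Bool.rec.{1} = r0
  revert r0
  as_aux_lemma => intro r0; eq_refl

theorem hornN_eq : @hornN = @K.hornN := by
  delta hornN K.hornN K.lf
  rewrite [force_eq]
  generalize @List.rec.{1,0} = r0
  revert r0
  as_aux_lemma => intro r0; eq_refl

theorem vbandM_eq : @vbandM = @K.vbandM := by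
  delta vbandM K.vbandM K.fld
  rewrite [drp_eq, bandA_eq, vrecM_eq, bandI_eq, hornN_eq, nth_eq, fr_eq, force_eq, and_eq, blt_eq]
  generalize @Bool.rec.{1} = r0, @Nat.rec.{1} = r1
  revert r0 r1
  as_aux_lemma => intro r0 r1; eq_refl

theorem coefs_eq : @coefs = @K.coefs := by
  delta coefs K.coefs
  rewrite [rpowL_eq, rpowH_eq, muL_eq, muH_eq, muL0_eq, muH0_eq, fr_eq, force_eq]
  generalize @Nat.rec.{1} = r0
  revert r0
  as_aux_lemma => intro r0; eq_refl

theorem vchkM_eq : @vchkM = @K.vchkM := by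
  delta vchkM K.vchkM Prod.casesOn
  rewrite [vidx_eq, bandC_eq, nth_eq, vbandM_eq, coefs_eq, muL_eq, fr_eq, force_eq, and_eq, or_eq, blt_eq]
  generalize @Bool.rec.{1} = r0, @Prod.rec.{1,0,0} = r1, @Nat.rec.{1} = r2
  revert r0 r1 r2
  as_aux_lemma => intro r0 r1 r2; eq_refl

theorem Cert_vt_eq : @Cert_vt = @K.Cert.vt := by
  delta Cert_vt K.Cert.vt
  rewrite [Blk_qv_eq, nth_eq, vchkM_eq, fr_eq, force_eq, cond_eq, and_eq, or_eq]
  generalize @Nat.rec.{1} = r0, @Bool.rec.{1} = r1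
  revert r0 r1
  as_aux_lemma => intro r0 r1; eq_refl

theorem vget_eq : @vget = @K.vget := by
  delta vget K.vget K.fld
  rewrite [nth_eq]
  eq_refl

theorem Cert_Va_eq : @Cert_Va = @K.Cert.Va := by
  delta Cert_Va K.Cert.Va
  rewrite [vget_eq]
  eq_refl

theorem Cert_Vb_eq : @Cert_Vb = @K.Cert.Vb := by
  delta Cert_Vb K.Cert.Vb
  rewrite [vget_eq, fr_eq, force_eq]
  eq_refl

theorem tget_eq : @tget = @K.tget := by
  delta tget K.tget K.fld
  eq_refl

theorem Cert_Ef_eq : @Cert_Ef = @K.Cert.Ef := by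
  delta Cert_Ef K.Cert.Ef K.tget K.fld
  rewrite [tget_eq]
  eq_refl

theorem vctr_eq : @vctr = @K.vctr := by
  delta vctr K.vctr
  rewrite [bandOf_eq, force_eq]
  eq_refl

theorem vhw_eq : @vhw = @K.vhw := by
  delta vhw K.vhw
  rewrite [bandOf_eq]
  eq_refl

theorem b5_eq : @b5 = @K.b5 := by
  delta b5 K.b5 K.powD
  rewrite [divU_eq, mn_eq]
  eq_refl

theorem rem0_eq : @rem0 = @K.rem0 := by
  delta rem0 K.rem0 K.mulU K.powU
  eq_refl

theorem rem1_eq : @rem1 = @K.rem1 := by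
  delta rem1 K.rem1 K.mulU K.powU
  eq_refl

theorem rem2_eq : @rem2 = @K.rem2 := by
  delta rem2 K.rem2 K.mulU K.powU
  eq_refl

theorem dist_eq : @dist = @K.dist := by
  delta dist K.dist
  eq_refl

theorem isq_eq : @isq = @K.isq := by
  delta isq K.isq
  rewrite [fr_eq, force_eq]
  generalize @Nat.rec.{1} = r0
  revert r0
  as_aux_lemma => intro r0; eq_refl

theorem isqL_eq : @isqL = @K.isqL := by
  delta isqL K.isqL
  rewrite [isq_eq, force_eq, cond_eq]
  generalize @Bool.rec.{1} = r0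
  revert r0
  as_aux_lemma => intro r0; eq_refl

theorem sqrtL_eq : @sqrtL = @K.sqrtL := by
  delta sqrtL K.sqrtL
  rewrite [isqL_eq, force_eq, cond_eq]
  generalize @Bool.rec.{1} = r0
  revert r0
  as_aux_lemma => intro r0; eq_refl

theorem isqU_eq : @isqU = @K.isqU := by
  delta isqU K.isqU
  rewrite [isq_eq, force_eq, cond_eq]
  generalize @Bool.rec.{1} = r0
  revert r0
  as_aux_lemma => intro r0; eq_refl

theorem sqrtU_eq : @sqrtU = @K.sqrtU := by
  delta sqrtU K.sqrtU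
  rewrite [isqU_eq]
  eq_refl

theorem m0a_eq : @m0a = @K.m0a := by
  delta m0a K.m0a K.mulU
  rewrite [sqrtU_eq, divU_eq, force_eq]
  eq_refl

theorem dq_eq : @dq = @K.dq := by
  delta dq K.dq K.mulU
  rewrite [divU_eq]
  eq_refl

theorem ncfN_eq : @ncfN = @K.ncfN := by
  delta ncfN K.ncfN K.mulD K.divD
  rewrite [divU_eq, mn_eq, force_eq, cond_eq]
  generalize @Bool.rec.{1} = r0
  revert r0
  as_aux_lemma => intro r0; eq_refl

theorem pk15_eq : @pk15 = @K.pk15 := by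
  delta pk15 K.pk15
  rewrite [mx_eq, cond_eq, and_eq, blt_eq]
  generalize @Bool.rec.{1} = r0
  revert r0
  as_aux_lemma => intro r0; eq_refl

theorem hor4N_eq : @hor4N = @K.hor4N := by
  delta hor4N K.hor4N
  eq_refl

theorem hor3N_eq : @hor3N = @K.hor3N := by
  delta hor3N K.hor3N
  eq_refl

theorem hor2N_eq : @hor2N = @K.hor2N := by
  delta hor2N K.hor2N
  eq_refl

theorem hor1N_eq : @hor1N = @K.hor1N := by
  delta hor1N K.hor1N
  eq_refl

theorem absO_eq : @absO = @K.absO := by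
  delta absO K.absO
  eq_refl

theorem enclN_eq : @enclN = @K.enclN := by
  delta enclN K.enclN K.mulU K.mulO
  rewrite [hor4N_eq, hor3N_eq, hor2N_eq, hor1N_eq, absO_eq, mx_eq, mn_eq, force_eq]
  eq_refl

theorem mkCellN_eq : @mkCellN = @K.mkCellN := by
  delta mkCellN K.mkCellN K.mulU K.mulD K.fld K.vcoN
  rewrite [vidx_eq, vctr_eq, vhw_eq, b5_eq, rem0_eq, rem1_eq, rem2_eq, dist_eq, Blk_dm_eq, sqrtL_eq,
    m0a_eq, dq_eq, divU_eq, ncfN_eq, pk15_eq, enclN_eq, mx_eq, mn_eq, fr_eq, force_eq, cond_eq,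
    and_eq]
  generalize @Bool.rec.{1} = r0
  revert r0
  as_aux_lemma => intro r0; eq_refl

theorem cidx_eq : @cidx = @K.cidx := by
  delta cidx K.cidx
  rewrite [mn_eq, cond_eq, blt_eq]
  generalize @Bool.rec.{1} = r0
  revert r0
  as_aux_lemma => intro r0; eq_refl

theorem Yb_eq : @Yb = @K.Yb := by
  delta Yb K.Yb
  rewrite [cond_eq, blt_eq]
  generalize @Bool.rec.{1} = r0
  revert r0
  as_aux_lemma => intro r0; eq_refl

theorem restChkN_eq : @restChkN = @K.restChkN := by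
  delta restChkN K.restChkN K.mulD K.fld K.gK1
  rewrite [mkCellN_eq, cidx_eq, Yb_eq, force_eq, and_eq, blt_eq]
  generalize @Bool.rec.{1} = r0
  revert r0
  as_aux_lemma => intro r0; eq_refl

theorem nlogL_eq : @nlogL = @K.nlogL := by
  delta nlogL K.nlogL K.mulD
  rewrite [force_eq]
  eq_refl

theorem farc_eq : @farc = @K.farc := by
  delta farc K.farc K.mulD
  rewrite [sqrtL_eq, divU_eq]
  eq_refl

theorem far0_eq : @far0 = @K.far0 := by
  delta far0 K.far0 K.mulD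
  rewrite [sqrtL_eq, divU_eq, farc_eq, mn_eq]
  eq_refl

theorem far2_eq : @far2 = @K.far2 := by
  delta far2 K.far2 K.mulD
  rewrite [sqrtL_eq, divU_eq]
  eq_refl

theorem far1_eq : @far1 = @K.far1 := by
  delta far1 K.far1
  rewrite [divU_eq]
  eq_refl

theorem far1b_eq : @far1b = @K.far1b := by
  delta far1b K.far1b
  rewrite [farc_eq, far2_eq, far1_eq, isqU_eq, mn_eq, force_eq, cond_eq, and_eq, blt_eq]
  generalize @Bool.rec.{1} = r0
  revert r0
  as_aux_lemma => intro r0; eq_refl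

theorem mkFar_eq : @mkFar = @K.mkFar := by
  delta mkFar K.mkFar K.mulU
  rewrite [far0_eq, far1b_eq, far2_eq, m0a_eq, divU_eq, pk15_eq, mn_eq, force_eq]
  eq_refl

theorem cellChkN_eq : @cellChkN = @K.cellChkN := by
  delta cellChkN K.cellChkN K.mulU K.fld K.gNeg K.gLop K.gHip K.gAB Nat.casesOn
  rewrite [Yb_eq, nlogL_eq, mkFar_eq, mkCellN_eq, mx_eq, force_eq, cond_eq, and_eq, or_eq, blt_eq]
  generalize @Bool.rec.{1} = r0, @Nat.rec.{1} = r1
  revert r0 r1
  as_aux_lemma => intro r0 r1; eq_refl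

theorem cellsChkN_eq : @cellsChkN = @K.cellsChkN := by
  delta cellsChkN K.cellsChkN
  rewrite [cellChkN_eq, fr_eq, force_eq, and_eq]
  generalize @Nat.rec.{1} = r0, @Bool.rec.{1} = r1
  revert r0 r1
  as_aux_lemma => intro r0 r1; eq_refl

theorem Cert_cells_eq : @Cert_cells = @K.Cert.cells := by
  delta Cert_cells K.Cert.cells K.tget K.fld
  rewrite [Cert_Va_eq, Cert_Vb_eq, Cert_Ef_eq, restChkN_eq, tget_eq, cellsChkN_eq, and_eq]
  generalize @Bool.rec.{1} = r0
  revert r0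
  as_aux_lemma => intro r0; eq_refl

theorem rq_eq : @rq = @K.rq := by
  delta rq K.rq
  rewrite [cidx_eq, mx_eq, fr_eq, force_eq]
  eq_refl

theorem pevN_eq : @pevN = @K.pevN := by
  delta pevN K.pevN K.vcoN K.fld
  rewrite [bandOf_eq, hor4N_eq, fr_eq, force_eq]
  eq_refl

theorem fineN_eq : @fineN = @K.fineN := by
  delta fineN K.fineN K.mulU K.fld K.gD2 K.gPe K.gK2
  rewrite [pevN_eq, Blk_dm_eq, mx_eq, mn_eq, force_eq, cond_eq, blt_eq]
  generalize @Bool.rec.{1} = r0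
  revert r0
  as_aux_lemma => intro r0; eq_refl

theorem envb_eq : @envb = @K.envb := by
  delta envb K.envb
  rewrite [cidx_eq, fr_eq, force_eq]
  eq_refl

theorem t2L_eq : @t2L = @K.t2L := by
  delta t2L K.t2L
  eq_refl

theorem cellB_eq : @cellB = @K.cellB := by
  delta cellB K.cellB K.mulU K.mulD K.gNeg K.gLop K.gHip K.gHin K.gK1 K.divD K.dS K.tS K.gAB K.gK2
    Bool.casesOn K.fld
  rewrite [rq_eq, fineN_eq, envb_eq, t2L_eq, divU_eq, mx_eq, mn_eq, force_eq, cond_eq]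
  generalize @Bool.rec.{1} = r0
  revert r0
  as_aux_lemma => intro r0; eq_refl

theorem sweep_eq : @sweep = @K.sweep := by
  delta sweep K.sweep K.lf
  rewrite [fr_eq, force_eq]
  generalize @List.rec.{1,0} = r0, @Nat.rec.{1} = r1
  revert r0 r1
  as_aux_lemma => intro r0 r1; eq_refl

theorem ballRun_eq : @ballRun = @K.ballRun := by
  delta ballRun K.ballRun K.mulU K.mulD K.tS
  rewrite [cellB_eq, farc_eq, divU_eq, sweep_eq, force_eq, and_eq, blt_eq]
  generalize @Bool.rec.{1} = r0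
  revert r0
  as_aux_lemma => intro r0; eq_refl

theorem ballChk_eq : @ballChk = @K.ballChk := by
  delta ballChk K.ballChk K.lf
  rewrite [ballRun_eq, and_eq]
  generalize @List.rec.{1,0} = r0, @Bool.rec.{1} = r1
  revert r0 r1
  as_aux_lemma => intro r0 r1; eq_refl

theorem mrgF_eq : @mrgF = @K.mrgF := by
  delta mrgF K.mrgF K.mrgH
  rewrite [force_eq]
  eq_refl

theorem mrg_eq : @mrgF = @K.mrg := mrgF_eq.trans K.mrgF_eq

theorem lv_eq : @lv = @K.lv := by
  delta lv K.lv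
  rewrite [mrg_eq, fr_eq, force_eq]
  generalize @Nat.rec.{1} = r0
  revert r0
  as_aux_lemma => intro r0; eq_refl

theorem rq2_eq : @rq2 = @K.rq2 := by
  delta rq2 K.rq2
  rewrite [mrg_eq, fr_eq, force_eq, cond_eq]
  generalize @Bool.rec.{1} = r0
  revert r0
  as_aux_lemma => intro r0; eq_refl

theorem Cert_Q_eq : @Cert_Q = @K.Cert.Q := by
  delta Cert_Q K.Cert.Q K.tget K.fld
  rewrite [tget_eq, lv_eq, rq2_eq]
  eq_refl

theorem Cert_VV_eq : @Cert_VV = @K.Cert.VV := by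
  delta Cert_VV K.Cert.VV
  rewrite [vget_eq]
  eq_refl

theorem Cert_cls_eq : @Cert_cls = @K.Cert.cls := by
  delta Cert_cls K.Cert.cls
  eq_refl

theorem m3s_eq : @m3s = @K.m3s := by
  delta m3s K.m3s
  rewrite [force_eq]
  eq_refl

theorem m2s_eq : @m2s = @K.m2s := by
  delta m2s K.m2s
  rewrite [force_eq]
  eq_refl

theorem eNode_eq : @eNode = @K.eNode := by
  delta eNode K.eNode K.mulU K.mulD K.gK1 K.gL1 K.gL2 K.gD1 K.gD2 K.gPe K.cX1 K.powU K.powD K.gAB K.gK2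
    K.cX2 K.cR K.fld
  rewrite [rq_eq, m3s_eq, m2s_eq, mx_eq, mn_eq, force_eq, cond_eq, blt_eq]
  generalize @Bool.rec.{1} = r0
  revert r0
  as_aux_lemma => intro r0; eq_refl

theorem eSum_eq : @eSum = @K.eSum := by
  delta eSum K.eSum K.tN
  rewrite [eNode_eq]
  generalize @Nat.rec.{1} = r0
  revert r0
  as_aux_lemma => intro r0; eq_refl

theorem rqI_eq : @rqI = @K.rqI := by
  delta rqI K.rqI
  rewrite [cidx_eq, fr_eq, force_eq]
  eq_refl

theorem tailP_eq : @tailP = @K.tailP := by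
  delta tailP K.tailP K.mulU K.mulD K.cX1 K.powU K.gAB K.cX2 K.cR K.tN K.fld
  rewrite [far0_eq, farc_eq, rqI_eq, mx_eq, mn_eq, force_eq, cond_eq, and_eq, blt_eq]
  generalize @Bool.rec.{1} = r0
  revert r0
  as_aux_lemma => intro r0; eq_refl

theorem pw2_eq : @pw2 = @K.pw2 := by
  delta pw2 K.pw2 K.mulU K.powU
  eq_refl

theorem cellM_eq : @cellM = @K.cellM := by
  delta cellM K.cellM K.mulU K.gD1 K.gD2 K.dS K.tS K.gAB K.fld
  rewrite [rq_eq, pw2_eq, mx_eq, force_eq, cond_eq]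
  generalize @Bool.rec.{1} = r0
  revert r0
  as_aux_lemma => intro r0; eq_refl

theorem dM_eq : @dM = @K.dM := by
  delta dM K.dM K.mulU K.tS
  rewrite [cellM_eq, farc_eq, divU_eq, sqrtU_eq, pw2_eq, sweep_eq, force_eq, cond_eq, and_eq, blt_eq]
  generalize @Bool.rec.{1} = r0
  revert r0
  as_aux_lemma => intro r0; eq_refl

theorem kM_eq : @kM = @K.kM := by
  delta kM K.kM K.mulU
  rewrite [mx_eq]
  eq_refl

theorem thrM_eq : @thrM = @K.thrM := by
  delta thrM K.thrM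
  rewrite [dM_eq, kM_eq, cond_eq]
  generalize @Bool.rec.{1} = r0
  revert r0
  as_aux_lemma => intro r0; eq_refl

theorem dNode_eq : @dNode = @K.dNode := by
  delta dNode K.dNode K.ev K.powD K.sgn
  rewrite [pevN_eq, dist_eq, force_eq, cond_eq, and_eq, not_eq, blt_eq]
  generalize @Bool.rec.{1} = r0
  revert r0
  as_aux_lemma => intro r0; eq_refl

theorem dSum_eq : @dSum = @K.dSum := by
  delta dSum K.dSum K.tN
  rewrite [dNode_eq]
  generalize @Nat.rec.{1} = r0
  revert r0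
  as_aux_lemma => intro r0; eq_refl

theorem powE_eq : @powE = @K.powE := by
  delta powE K.powE K.powU K.powD
  eq_refl

theorem dErr_eq : @dErr = @K.dErr := by
  delta dErr K.dErr K.gPe K.gAB K.tN K.fld
  rewrite [rq_eq, powE_eq, mx_eq, force_eq]
  generalize @Nat.rec.{1} = r0
  revert r0
  as_aux_lemma => intro r0; eq_refl

theorem dTail_eq : @dTail = @K.dTail := by
  delta dTail K.dTail K.mulU K.powU K.tN
  rewrite [far0_eq, force_eq, cond_eq, blt_eq]
  generalize @Bool.rec.{1} = r0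
  revert r0
  as_aux_lemma => intro r0; eq_refl

theorem expU_eq : @expU = @K.expU := by
  delta expU K.expU K.mulD K.divD
  rewrite [force_eq]
  eq_refl

theorem dAli_eq : @dAli = @K.dAli := by
  delta dAli K.dAli K.mulU K.mulD K.divD
  rewrite [expU_eq, divU_eq, force_eq, cond_eq]
  generalize @Bool.rec.{1} = r0
  revert r0
  as_aux_lemma => intro r0; eq_refl

theorem dLo_eq : @dLo = @K.dLo := by
  delta dLo K.dLo
  rewrite [dSum_eq, dErr_eq, dTail_eq, dAli_eq]
  eq_refl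

theorem kapL_eq : @kapL = @K.kapL := by
  delta kapL K.kapL K.mulD K.divD
  rewrite [Blk_qv_eq, twoL_eq, mH40_eq]
  eq_refl

theorem thr_eq : @thr = @K.thr := by
  delta thr K.thr
  rewrite [dLo_eq, kapL_eq, cond_eq]
  generalize @Bool.rec.{1} = r0
  revert r0
  as_aux_lemma => intro r0; eq_refl

theorem oLop_eq : @oLop = @K.oLop := by
  delta oLop K.oLop K.mulD K.gLop K.gHin K.fld
  rewrite [mx_eq]
  eq_refl

theorem pHin_eq : @pHin = @K.pHin := by
  delta pHin K.pHin K.gHin K.ev K.powD K.fld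
  rewrite [cond_eq]
  generalize @Bool.rec.{1} = r0
  revert r0
  as_aux_lemma => intro r0; eq_refl

theorem oHin_eq : @oHin = @K.oHin := by
  delta oHin K.oHin K.mulD K.gLop K.gHin K.fld
  rewrite [mx_eq]
  eq_refl

theorem pLop_eq : @pLop = @K.pLop := by
  delta pLop K.pLop K.gLop K.gHin K.ev K.powD K.fld
  rewrite [mx_eq, cond_eq]
  generalize @Bool.rec.{1} = r0
  revert r0
  as_aux_lemma => intro r0; eq_refl

theorem oHi_eq : @oHi = @K.oHi := by
  delta oHi K.oHi K.mulU K.gNeg K.gHip K.fld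
  rewrite [mx_eq]
  eq_refl

theorem pHi_eq : @pHi = @K.pHi := by
  delta pHi K.pHi K.gHip K.ev K.powU K.gAB K.fld
  rewrite [mx_eq, cond_eq]
  generalize @Bool.rec.{1} = r0
  revert r0
  as_aux_lemma => intro r0; eq_refl

theorem oNeg_eq : @oNeg = @K.oNeg := by
  delta oNeg K.oNeg K.mulU K.gNeg K.gHip K.fld
  rewrite [mx_eq, cond_eq, and_eq]
  generalize @Bool.rec.{1} = r0
  revert r0
  as_aux_lemma => intro r0; eq_refl

theorem pNeg_eq : @pNeg = @K.pNeg := by
  delta pNeg K.pNeg K.gNeg K.ev K.powU K.fld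
  rewrite [cond_eq, or_eq]
  generalize @Bool.rec.{1} = r0
  revert r0
  as_aux_lemma => intro r0; eq_refl

theorem zNode_eq : @zNode = @K.zNode := by
  delta zNode K.zNode K.mulU K.mulD K.cX1 K.cX2 K.cR
  rewrite [rq_eq, oLop_eq, pHin_eq, oHin_eq, pLop_eq, oHi_eq, pHi_eq, oNeg_eq, pNeg_eq, mx_eq, force_eq,
    cond_eq]
  generalize @Bool.rec.{1} = r0
  revert r0
  as_aux_lemma => intro r0; eq_refl

theorem zSum_eq : @zSum = @K.zSum := by
  delta zSum K.zSum K.tN
  rewrite [zNode_eq]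
  generalize @Nat.rec.{1} = r0
  revert r0
  as_aux_lemma => intro r0; eq_refl

theorem pNode_eq : @pNode = @K.pNode := by
  delta pNode K.pNode K.mulD K.cX1 K.ev K.powD K.sgn K.cX2 K.cR
  rewrite [pevN_eq, dist_eq, bx_eq, force_eq, cond_eq, and_eq, not_eq, blt_eq]
  generalize @Bool.rec.{1} = r0
  revert r0
  as_aux_lemma => intro r0; eq_refl

theorem vSum_eq : @vSum = @K.vSum := by
  delta vSum K.vSum K.tN
  rewrite [pNode_eq]
  generalize @Nat.rec.{1} = r0
  revert r0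
  as_aux_lemma => intro r0; eq_refl

theorem vMax_eq : @vMax = @K.vMax := by
  delta vMax K.vMax
  rewrite [vSum_eq, mx_eq]
  eq_refl

theorem dOK_eq : @dOK = @K.dOK := by
  delta dOK K.dOK K.tN
  rewrite [dTail_eq, and_eq, blt_eq]
  generalize @Bool.rec.{1} = r0
  revert r0
  as_aux_lemma => intro r0; eq_refl

theorem mainT_eq : @mainT = @K.mainT := by
  delta mainT K.mainT K.mulU
  rewrite [eSum_eq, tailP_eq, thrM_eq, thr_eq, zSum_eq, vMax_eq, dAli_eq, dOK_eq, fr_eq, force_eq, and_eq,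
    or_eq, blt_eq]
  generalize @Bool.rec.{1} = r0
  revert r0
  as_aux_lemma => intro r0; eq_refl

theorem rpw_eq : @rpw = @K.rpw := by
  delta rpw K.rpw K.mulD K.powD
  rewrite [sqrtL_eq, fr_eq, force_eq]
  generalize @Nat.rec.{1} = r0
  revert r0
  as_aux_lemma => intro r0; eq_refl

theorem twoT_eq : @twoT = @K.twoT := by
  delta twoT K.twoT K.cX1 K.cX2 K.cR
  rewrite [Blk_qv_eq, rpw_eq, mn_eq, force_eq, and_eq, blt_eq]
  generalize @Bool.rec.{1} = r0
  revert r0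
  as_aux_lemma => intro r0; eq_refl

theorem inBall_eq : @inBall = @K.inBall := by
  delta inBall K.inBall K.lf
  rewrite [and_eq, or_eq, blt_eq]
  generalize @List.rec.{1,0} = r0, @Bool.rec.{1} = r1
  revert r0 r1
  as_aux_lemma => intro r0 r1; eq_refl

theorem leafT_eq : @leafT = @K.leafT := by
  delta leafT K.leafT K.cX1 K.cX2 K.cR
  rewrite [mainT_eq, twoT_eq, inBall_eq, force_eq, cond_eq, and_eq, blt_eq]
  generalize @Bool.rec.{1} = r0
  revert r0
  as_aux_lemma => intro r0; eq_refl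

theorem boxEP_eq : @boxEP = @K.boxEP := by
  delta boxEP K.boxEP K.mulU K.cX1 K.cX2 K.cR
  rewrite [mn_eq, force_eq]
  eq_refl

theorem vLo_eq : @vLo = @K.vLo := by
  delta vLo K.vLo K.mulD
  rewrite [mx_eq, force_eq, cond_eq]
  generalize @Bool.rec.{1} = r0
  revert r0
  as_aux_lemma => intro r0; eq_refl

theorem envUp_eq : @envUp = @K.envUp := by
  delta envUp K.envUp K.mulU K.mulD K.gAB K.fld
  rewrite [expU_eq, rqI_eq, mx_eq, mn_eq, force_eq, cond_eq, or_eq, blt_eq]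
  generalize @Bool.rec.{1} = r0
  revert r0
  as_aux_lemma => intro r0; eq_refl

theorem crUp_eq : @crUp = @K.crUp := by
  delta crUp K.crUp K.mulU K.mulD K.gNeg K.gHip K.ev K.powU K.gAB K.fld
  rewrite [rq_eq, envUp_eq, mx_eq, mn_eq, force_eq, cond_eq, and_eq]
  generalize @Bool.rec.{1} = r0
  revert r0
  as_aux_lemma => intro r0; eq_refl

theorem envDn_eq : @envDn = @K.envDn := by
  delta envDn K.envDn K.mulU K.mulD
  rewrite [expU_eq, mn_eq, cond_eq]
  generalize @Bool.rec.{1} = r0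
  revert r0
  as_aux_lemma => intro r0; eq_refl

theorem hess3_eq : @hess3 = @K.hess3 := by
  delta hess3 K.hess3 K.mulU K.fld K.gNeg K.gLop K.gK1 K.gAB
  rewrite [mx_eq, mn_eq, force_eq]
  eq_refl

theorem t4L_eq : @t4L = @K.t4L := by
  delta t4L K.t4L
  eq_refl

theorem hess_eq : @hess = @K.hess := by
  delta hess K.hess K.mulU K.fld K.gNeg K.gLop K.gHip K.gHin K.gK1 K.ev K.powU K.gAB Bool.casesOn
  rewrite [divU_eq, mx_eq, mn_eq, force_eq, cond_eq, and_eq, or_eq, not_eq, blt_eq]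
  generalize @Bool.rec.{1} = r0
  revert r0
  as_aux_lemma => intro r0; eq_refl

theorem cellE_eq : @cellE = @K.cellE := by
  delta cellE K.cellE K.mulU K.mulD K.fld K.gNeg K.gLop K.divD K.dS K.tS K.powU K.powD K.gAB
    Bool.casesOn
  rewrite [rq_eq, fineN_eq, oHi_eq, oNeg_eq, envb_eq, crUp_eq, pNeg_eq, pLop_eq, pHi_eq, envDn_eq, pHin_eq,
    envUp_eq, hess3_eq, t4L_eq, hess_eq, oLop_eq, mx_eq, mn_eq, force_eq, cond_eq, and_eq,
    not_eq, blt_eq]
  generalize @Bool.rec.{1} = r0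
  revert r0
  as_aux_lemma => intro r0; eq_refl

theorem oTail_eq : @oTail = @K.oTail := by
  delta oTail K.oTail K.mulU K.mulD K.tS K.gAB K.fld
  rewrite [farc_eq, far0_eq, rqI_eq, mx_eq, mn_eq, force_eq, cond_eq, and_eq, blt_eq]
  generalize @Bool.rec.{1} = r0
  revert r0
  as_aux_lemma => intro r0; eq_refl

theorem pTail_eq : @pTail = @K.pTail := by
  delta pTail K.pTail K.mulD K.tS K.powU
  rewrite [divU_eq, sqrtU_eq, mn_eq]
  eq_refl

theorem finE_eq : @finE = @K.finE := by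
  delta finE K.finE K.mulU K.mulD K.tS K.powU K.gAB Bool.casesOn K.fld
  rewrite [far0_eq, divU_eq, farc_eq, far1b_eq, far2_eq, oTail_eq, pTail_eq, rqI_eq, mx_eq, mn_eq,
    force_eq, cond_eq, and_eq, not_eq, blt_eq]
  generalize @Bool.rec.{1} = r0
  revert r0
  as_aux_lemma => intro r0; eq_refl

theorem runE_eq : @runE = @K.runE := by
  delta runE K.runE
  rewrite [cellE_eq, finE_eq, sweep_eq]
  eq_refl

theorem excOne_eq : @excOne = @K.excOne := by
  delta excOne K.excOne K.mulU K.mulD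
  rewrite [vLo_eq, runE_eq, cond_eq, and_eq, blt_eq]
  generalize @Bool.rec.{1} = r0
  revert r0
  as_aux_lemma => intro r0; eq_refl

theorem excE_eq : @excE = @K.excE := by
  delta excE K.excE K.cX1 K.cX2 K.cR
  rewrite [boxEP_eq, excOne_eq, mx_eq, mn_eq, force_eq, cond_eq]
  generalize @Bool.rec.{1} = r0
  revert r0
  as_aux_lemma => intro r0; eq_refl

theorem prodLo_eq : @prodLo = @K.prodLo := by
  delta prodLo K.prodLo K.mulU K.gLop K.powD K.fld
  rewrite [mx_eq, cond_eq, and_eq, blt_eq]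
  generalize @Bool.rec.{1} = r0
  revert r0
  as_aux_lemma => intro r0; eq_refl

theorem cellP_eq : @cellP = @K.cellP := by
  delta cellP K.cellP K.mulU K.mulD K.gNeg K.dS K.tS K.powU K.gAB K.fld
  rewrite [rq_eq, oNeg_eq, envb_eq, expU_eq, pNeg_eq, pLop_eq, oHi_eq, envUp_eq, prodLo_eq, pHi_eq,
    envDn_eq, pHin_eq, mx_eq, mn_eq, force_eq, cond_eq]
  generalize @Bool.rec.{1} = r0
  revert r0
  as_aux_lemma => intro r0; eq_refl

theorem delN_eq : @delN = @K.delN := by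
  delta delN K.delN K.mulU K.mulD K.gNeg K.powU K.fld
  rewrite [rqI_eq, sqrtU_eq, sqrtL_eq, divU_eq, force_eq, cond_eq]
  generalize @Bool.rec.{1} = r0
  revert r0
  as_aux_lemma => intro r0; eq_refl

theorem finP_eq : @finP = @K.finP := by
  delta finP K.finP K.mulU K.mulD K.tS K.powU K.gAB K.fld
  rewrite [oTail_eq, far0_eq, pTail_eq, rqI_eq, delN_eq, mx_eq, mn_eq, force_eq, cond_eq, blt_eq]
  generalize @Bool.rec.{1} = r0
  revert r0
  as_aux_lemma => intro r0; eq_refl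

theorem runP_eq : @runP = @K.runP := by
  delta runP K.runP
  rewrite [cellP_eq, finP_eq, sweep_eq]
  eq_refl

theorem excB_eq : @excB = @K.excB := by
  delta excB K.excB K.cX1 K.cX2 K.cR Bool.casesOn
  rewrite [excE_eq, runP_eq, mn_eq, fr_eq, force_eq]
  generalize @Bool.rec.{1} = r0
  revert r0
  as_aux_lemma => intro r0; eq_refl

theorem treeT_eq : @treeT = @K.treeT := by
  delta treeT K.treeT
  rewrite [leafT_eq, excB_eq, fr_eq, force_eq, and_eq]
  generalize @K.Tr.rec.{1} = r0, @Bool.rec.{1} = r1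
  revert r0 r1
  as_aux_lemma => intro r0 r1; eq_refl

theorem Cert_tree_eq : @Cert_tree = @K.Cert.tree := by
  delta Cert_tree K.Cert.tree
  rewrite [Cert_Q_eq, Cert_VV_eq, Cert_Ef_eq, Cert_cls_eq, treeT_eq]
  eq_refl

theorem Cert_exT_eq : @Cert_exT = @K.Cert.exT := by
  delta Cert_exT K.Cert.exT
  rewrite [Cert_tree_eq]
  eq_refl

theorem nearEP_eq : @nearEP = @K.nearEP := by
  delta nearEP K.nearEP K.mulU
  rewrite [sqrtU_eq, vLo_eq, force_eq]
  eq_refl

theorem nearL_eq : @nearL = @K.nearL := by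
  delta nearL K.nearL K.mulD
  rewrite [nearEP_eq, vLo_eq, runE_eq, cond_eq, and_eq, or_eq, not_eq, blt_eq]
  generalize @Bool.rec.{1} = r0
  revert r0
  as_aux_lemma => intro r0; eq_refl

theorem nearT_eq : @nearT = @K.nearT := by
  delta nearT K.nearT
  rewrite [nearL_eq, fr_eq, force_eq, and_eq]
  generalize @K.Tr.rec.{1} = r0, @Bool.rec.{1} = r1
  revert r0 r1
  as_aux_lemma => intro r0 r1; eq_refl

theorem dHi_eq : @dHi = @K.dHi := by
  delta dHi K.dHi
  rewrite [dSum_eq, dErr_eq, dTail_eq]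
  eq_refl

theorem kapH_eq : @kapH = @K.kapH := by
  delta kapH K.kapH K.mulU
  rewrite [Blk_qv_eq, twoH_eq, mL40_eq, divU_eq]
  eq_refl

theorem crossT_eq : @crossT = @K.crossT := by
  delta crossT K.crossT K.mulU
  rewrite [dM_eq, kM_eq, dLo_eq, dHi_eq, kapH_eq, kapL_eq, fr_eq, force_eq, and_eq, or_eq, not_eq, blt_eq]
  generalize @Bool.rec.{1} = r0
  revert r0
  as_aux_lemma => intro r0; eq_refl

theorem crossChk_eq : @crossChk = @K.crossChk := by
  delta crossChk K.crossChk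
  rewrite [crossT_eq, dM_eq, dAli_eq, dOK_eq, and_eq, blt_eq]
  generalize @Bool.rec.{1} = r0, @Nat.rec.{1} = r1
  revert r0 r1
  as_aux_lemma => intro r0 r1; eq_refl

theorem Cert_exN_eq : @Cert_exN = @K.Cert.exN := by
  delta Cert_exN K.Cert.exN K.cX1
  rewrite [Cert_Q_eq, Cert_Ef_eq, Cert_Va_eq, Cert_Vb_eq, nearT_eq, Cert_VV_eq, Cert_cls_eq, crossChk_eq,
    cond_eq, and_eq]
  generalize @Bool.rec.{1} = r0
  revert r0
  as_aux_lemma => intro r0; eq_refl

theorem incChk_eq : @incChk = @K.incChk := by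
  delta incChk K.incChk K.mulU K.mulD K.fld K.powU K.gAB
  rewrite [Yb_eq, envb_eq, rqI_eq, mkCellN_eq, sqrtL_eq, divU_eq, mx_eq, force_eq, and_eq, blt_eq]
  generalize @Bool.rec.{1} = r0, @Nat.rec.{1} = r1
  revert r0 r1
  as_aux_lemma => intro r0 r1; eq_refl

theorem cellF_eq : @cellF = @K.cellF := by
  delta cellF K.cellF K.mulU K.mulD K.fld K.gNeg K.gLop K.divD K.dS K.tS K.powD Bool.casesOn
  rewrite [rq_eq, envb_eq, envUp_eq, t4L_eq, mx_eq, mn_eq, force_eq, cond_eq, and_eq, blt_eq]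
  generalize @Bool.rec.{1} = r0
  revert r0
  as_aux_lemma => intro r0; eq_refl

theorem farChk_eq : @farChk = @K.farChk := by
  delta farChk K.farChk K.mulU K.mulD K.tS K.powU
  rewrite [cellF_eq, divU_eq, delN_eq, sweep_eq, force_eq, and_eq, blt_eq]
  generalize @Bool.rec.{1} = r0
  revert r0
  as_aux_lemma => intro r0; eq_refl

theorem Cert_big_eq : @Cert_big = @K.Cert.big := by
  delta Cert_big K.Cert.big K.cX1 K.tget K.fld
  rewrite [Cert_Q_eq, Cert_VV_eq, Cert_cls_eq, crossChk_eq, tget_eq, Cert_Ef_eq, Cert_Va_eq, Cert_Vb_eq,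
    incChk_eq, farChk_eq, nearT_eq, cond_eq, and_eq]
  generalize @Bool.rec.{1} = r0
  revert r0
  as_aux_lemma => intro r0; eq_refl

theorem gamGet_eq : @gamGet = @K.gamGet := by
  delta gamGet K.gamGet K.fld
  rewrite [nth_eq]
  eq_refl

end Pool.Agent.MP_39fec4_gt.R

end

section

set_option autoImplicit false

namespace Pool.Agent.MP_39fec4_gt.K

open Set MeasureTheory Full

variable {B : Blk} {Q : ℕ → ℕ → ℕ} {E : ℕ → ℕ} {q : ℝ} {ι : Type} {T : Finset ι}

theorem gap_iff (hs : ScalOK B) (hq : q ∈ B.I) (n : ℕ) :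
    (Bl (1 / q) ≤ Dg (1 / q) n ↔ kap B.C q ≤ DG (B.g 0 q) n) ∧
      (Bl (1 / q) < Dg (1 / q) n ↔ kap B.C q < DG (B.g 0 q) n) := by
  obtain ⟨h0, h1⟩ := hs.q_pos hq
  have hm := FLinkX.mu_pos' hs.C_pos h0
  rw [Dg_eq_DG hs.C_pos h0 h1, Bl_eq_kap hs.C_pos h0]
  exact ⟨mul_le_mul_iff_right₀ hm, mul_lt_mul_iff_right₀ hm⟩

theorem thr_le {G : ℕ → ℕ} (hG : GamOK G) (h : BOK B Q E) {VV : ℕ → ℕ → ℕ} (hV : VVOK B VV)
    {c : Cls} {two : Bool} {v : ℕ} (hv : v < B.nv)
    (ok : two = true ∨ (dOK B c.N c.H1 c.M1 = true ∧ dAli B c.N c.H1 < BIG))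
    (h0 : 0 < thr G B Q VV c two v) : rr (thr G B Q VV c two v) ≤ Th B c.N two (B.q v) := by
  cases two with
  | true => exact kapL_le hG h.sc hv
  | false =>
    rcases ok with ok | ok
    · exact absurd ok (by simp)
    · exact dLo_le h (h.sc.q_mem hv) (hV v hv) ok.1 ok.2 h0

theorem thrM_ch (h : BOK B Q E) {c : Cls} {two : Bool} (hM : thrM B Q c two < BIG) {q0 q1 : ℝ}
    (h0 : B.qa ≤ q0) (h1 : q1 ≤ B.qb) (h01 : q0 ≤ q1) :
    Ch (fun q => -Th B c.N two q) q0 q1 (rr (thrM B Q c two) * (q1 - q0) ^ 2 / 8) := by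
  cases two with
  | true => exact ((kM_D2 h.sc h0 h1).ch h01 (rr_nonneg _)).2
  | false => exact (dM_ch h hM h0 h1 h01).2

namespace YCrossX

/-- The error term dominates the curvature error on one step. -/
theorem err_ge (hs : ScalOK B) (M K v : ℕ) :
    (rr M + rr K) * (B.q (v + 1) - B.q v) ^ 2 / 8 ≤ rr (mulU (M + K) ((B.st * B.st) <<< 13)) := by
  have e : rr ((B.st * B.st) <<< 13) = (B.q (v + 1) - B.q v) ^ 2 / 8 := by
    rw [hs.q_sub (Nat.le_succ v), rr_shl]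
    unfold rr
    have : v + 1 - v = 1 := by omega
    rw [this]
    push_cast
    ring
  have := mulU_ge (M + K) ((B.st * B.st) <<< 13)
  rw [e, rr_add] at this
  linarith

theorem step_pos (hs : ScalOK B) (v : ℕ) : B.q v < B.q (v + 1) := by
  have e := hs.q_sub (Nat.le_succ v)
  have h1 : v + 1 - v = 1 := by omega
  have h2 : (0 : ℝ) < B.st := by exact_mod_cast hs.st
  rw [h1, mul_one] at e
  have : (0 : ℝ) < (B.st : ℝ) / 4096 := by positivity
  linarith

/-- One step of the crossing check. -/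
theorem step {G : ℕ → ℕ} (hG : GamOK G) (h : BOK B Q E) {VV : ℕ → ℕ → ℕ}
    (hV : VVOK B VV) {c : Cls} {pos : Bool} (o1 : dOK B c.N c.H1 c.M1 = true)
    (o2 : dAli B c.N c.H1 < BIG) (o3 : dM B Q c.N c.schM < BIG) {v : ℕ} (hv : v + 1 < B.nv)
    (ok : crossT G B Q VV c pos v = true) :
    Cross c.N (B.q v) (B.q (v + 1)) ∧
      (pos = true → ∀ q ∈ Icc (B.q v) (B.q (v + 1)), Bl (1 / q) < Dg (1 / q) c.N) := by
  have hs := h.sc
  have hv0 : v < B.nv := by omega
  have m0 := hs.q_mem hv0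
  have m1 := hs.q_mem hv
  have hlt := step_pos hs v
  have hI : ∀ q ∈ Icc (B.q v) (B.q (v + 1)), q ∈ B.I := fun q hq =>
    ⟨m0.1.trans hq.1, hq.2.trans m1.2⟩
  have he := err_ge hs (dM B Q c.N c.schM) (kM B) v
  have c1 := dM_ch h o3 m0.1 m1.2 hlt.le
  have d2 := kM_D2 hs m0.1 m1.2
  have c2 := d2.ch hlt.le (rr_nonneg _)
  have l0 := fun h0 => dLo_le h m0 (hV v hv0) o1 o2 h0
  have l1 := fun h0 => dLo_le h m1 (hV (v + 1) hv) o1 o2 h0
  have u0 := dHi_ge h m0 (hV v hv0) o1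
  have u1 := dHi_ge h m1 (hV (v + 1) hv) o1
  have kl0 := kapL_le hG hs hv0
  have kl1 := kapL_le hG hs hv
  have kh0 := kapH_ge hG hs hv0
  have kh1 := kapH_ge hG hs hv
  have s1 := fun {q q' : ℝ} (ha : B.q v ≤ q) (hb : q ≤ q') (hc : q' ≤ B.q (v + 1)) =>
    dM_slope h o3 m0.1 m1.2 hlt ha hb hc
  have s2 := fun {q q' : ℝ} (ha : B.q v ≤ q) (hb : q ≤ q') (hc : q' ≤ B.q (v + 1)) =>
    (FCalcX.d2_neg d2).slope hlt ha hb hc
  unfold crossT at ok
  simp only [forceN_eq] at ok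
  generalize mulU (dM B Q c.N c.schM + kM B) ((B.st * B.st) <<< 13) = e at ok he
  generalize dLo B Q (VV v) c.N c.H1 c.M1 = l at ok l0
  generalize dLo B Q (VV (v + 1)) c.N c.H1 c.M1 = l' at ok l1
  generalize dHi B Q (VV v) c.N c.H1 c.M1 = u at ok u0
  generalize dHi B Q (VV (v + 1)) c.N c.H1 c.M1 = u' at ok u1
  generalize kapL G B v = a at ok kl0
  generalize kapL G B (v + 1) = a' at ok kl1
  generalize kapH G B v = b at ok kh0
  generalize kapH G B (v + 1) = b' at ok kh1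
  generalize rr (dM B Q c.N c.schM) = M at he c1 s1
  generalize rr (kM B) = K at he c2 s2
  simp only [Bool.and_eq_true, Bool.or_eq_true, Nat.blt_eq, Bool.not_eq_true'] at ok
  obtain ⟨hb, ok⟩ := ok
  have kh0 := kh0 (by omega)
  have kh1 := kh1 (by omega)
  rcases ok with ⟨p0, p1⟩ | ⟨hp, ok⟩
  · have l0 := l0 (by omega)
    have l1 := l1 (by omega)
    have p0 := rr_lt.2 p0
    have p1 := rr_lt.2 p1
    rw [rr_add] at p0 p1
    have key : ∀ q ∈ Icc (B.q v) (B.q (v + 1)), Bl (1 / q) < Dg (1 / q) c.N := by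
      intro q hq
      rw [(gap_iff hs (hI q hq) c.N).2]
      have := (c2.1.add c1.2).le_max hq
      have mx : max (kap B.C (B.q v) + -DG (B.g 0 (B.q v)) c.N)
          (kap B.C (B.q (v + 1)) + -DG (B.g 0 (B.q (v + 1))) c.N) < -rr e :=
        max_lt (by linarith) (by linarith)
      linarith
    exact ⟨fun q q' ha hb hc _ => key q' ⟨ha.trans hb.le, hc⟩, fun _ => key⟩
  refine ⟨?_, fun h => absurd (h.symm.trans hp) (by simp)⟩
  rcases ok with ⟨p0, p1⟩ | ⟨p0, p1⟩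
  · have p0 := rr_lt.2 p0
    have p1 := rr_lt.2 p1
    rw [rr_add] at p0 p1
    intro q q' ha hb hc hq
    have hq' : q ∈ Icc (B.q v) (B.q (v + 1)) := ⟨ha, hb.le.trans hc⟩
    rw [(gap_iff hs (hI q hq') c.N).1] at hq
    have := (c1.1.add c2.2).le_max hq'
    have mx : max (DG (B.g 0 (B.q v)) c.N + -kap B.C (B.q v))
        (DG (B.g 0 (B.q (v + 1))) c.N + -kap B.C (B.q (v + 1))) < -rr e :=
      max_lt (by linarith) (by linarith)
    exfalso
    linarith
  · have l1 := l1 p0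
    have p1 := rr_lt.2 p1
    rw [rr_add, rr_add, rr_add, mul_comm 4 e, rr_muln] at p1
    intro q q' ha hb hc hq
    have hq0 : q ∈ Icc (B.q v) (B.q (v + 1)) := ⟨ha, hb.le.trans hc⟩
    have hq1 : q' ∈ Icc (B.q v) (B.q (v + 1)) := ⟨ha.trans hb.le, hc⟩
    rw [(gap_iff hs (hI q hq0) c.N).1] at hq
    rw [(gap_iff hs (hI q' hq1) c.N).2]
    have t1 := s1 ha hb.le hc
    have t2 := s2 ha hb.le hc
    have hw : 0 < B.q (v + 1) - B.q v := sub_pos.2 hlt
    generalize B.q (v + 1) - B.q v = w at he t1 t2 hw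
    have t3 : 0 < ((DG (B.g 0 (B.q (v + 1))) c.N - DG (B.g 0 (B.q v)) c.N) / w - M * w / 2) +
        ((-kap B.C (B.q (v + 1)) - -kap B.C (B.q v)) / w - K * w / 2) := by
      have e1 : ((DG (B.g 0 (B.q (v + 1))) c.N - DG (B.g 0 (B.q v)) c.N) / w - M * w / 2) +
          ((-kap B.C (B.q (v + 1)) - -kap B.C (B.q v)) / w - K * w / 2) =
          ((DG (B.g 0 (B.q (v + 1))) c.N - DG (B.g 0 (B.q v)) c.N) +
            (-kap B.C (B.q (v + 1)) - -kap B.C (B.q v)) - 4 * ((M + K) * w ^ 2 / 8)) / w := by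
        field_simp
        ring
      rw [e1]
      refine div_pos ?_ hw
      push_cast at p1
      linarith
    have t4 := mul_pos (sub_pos.2 hb) t3
    rw [mul_add] at t4
    linarith

end YCrossX

theorem crossChk_sound {G : ℕ → ℕ} (hG : GamOK G) (h : BOK B Q E) {VV : ℕ → ℕ → ℕ}
    (hV : VVOK B VV) {c : Cls} {pos : Bool} (ok : crossChk G B Q VV c pos = true) :
    Cross c.N B.qa B.qb ∧ (pos = true → ∀ q ∈ B.I, Bl (1 / q) < Dg (1 / q) c.N) := by
  unfold crossChk at ok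
  simp only [Bool.and_eq_true, Nat.blt_eq] at ok
  obtain ⟨⟨⟨o1, o2⟩, o3⟩, o4⟩ := ok
  have st := fun v (hv : v + 1 < B.nv) =>
    YCrossX.step hG h hV o1 o2 o3 hv (all_rec o4 v (by omega))
  have key : ∀ k, k + 1 < B.nv → Cross c.N (B.q 0) (B.q (k + 1)) ∧
      (pos = true → ∀ q ∈ Icc (B.q 0) (B.q (k + 1)), Bl (1 / q) < Dg (1 / q) c.N) := by
    intro k
    induction k with
    | zero => exact st 0
    | succ k ih =>
      intro hk
      have i1 := ih (by omega)
      have i2 := st (k + 1) hk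
      refine ⟨i1.1.trans i2.1, fun hp q hq => ?_⟩
      rcases le_total q (B.q (k + 1)) with h1 | h1
      · exact i1.2 hp q ⟨hq.1, h1⟩
      · exact i2.2 hp q ⟨h1, hq.2⟩
  have hn := h.sc.nv
  have k1 := key (B.nv - 2) (by omega)
  have e : B.nv - 2 + 1 = B.nv - 1 := by omega
  rw [e, h.sc.q_ends.1, h.sc.q_ends.2] at k1
  exact k1

end Pool.Agent.MP_39fec4_gt.K

end

section

set_option autoImplicit false

namespace Pool.Agent.MP_39fec4_gt.K

open Set MeasureTheory Full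

variable {B : Blk} {Q : ℕ → ℕ → ℕ} {E : ℕ → ℕ} {q : ℝ} {ι : Type} {T : Finset ι}

namespace YMainX

theorem rec_sum (f : ℕ → ℕ) (n : ℕ) :
    Nat.rec (motive := fun _ => ℕ) 0 (fun m ih => ih + f m) n = ∑ m ∈ Finset.range n, f m := by
  induction n with
  | zero => rfl
  | succ n ih =>
    rw [Finset.sum_range_succ, ← ih]

theorem rr_sum (f : ℕ → ℕ) (n : ℕ) :
    rr (∑ m ∈ Finset.range n, f m) = ∑ m ∈ Finset.range n, rr (f m) := by
  induction n with
  | zero => simp [rr_zero]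
  | succ n ih => rw [Finset.sum_range_succ, Finset.sum_range_succ, rr_add, ih]

theorem ro_sum (f : ℕ → ℕ) (n : ℕ) :
    ∑ m ∈ Finset.range n, ro (f m) = rr (∑ m ∈ Finset.range n, f m) - n * rr OFF := by
  rw [rr_sum]
  simp only [ro_eq, Finset.sum_sub_distrib, Finset.sum_const, Finset.card_range, nsmul_eq_mul]

theorem r20_le {a : ℕ} (h : a ≤ 1048576) : r20 a ≤ 1 := by
  have : (a : ℝ) ≤ 1048576 := by exact_mod_cast h
  unfold r20
  rw [div_le_one (by positivity)]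
  linarith

theorem r20_pos {a : ℕ} (h : 0 < a) : 0 < r20 a := by
  have : (0 : ℝ) < a := by exact_mod_cast h
  unfold r20
  positivity

theorem r20_nonneg (a : ℕ) : 0 ≤ r20 a := by
  unfold r20
  positivity

theorem half : rr (SS / 2) = 1 / 2 := by
  rw [rr, SS]
  norm_num

theorem shl13 (d : ℕ) : rr ((d * d) <<< 13) = ((d : ℝ) / 4096) ^ 2 / 8 := by
  rw [rr_shl]
  unfold rr
  push_cast
  ring

/-- The numerical test in terms of real numbers. -/
theorem test_real {H v s es zs tp mu e t M o : ℕ} (hs : rr s = 1 / 2)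
    (h : H * v + (H * (s + es + zs) + 16 * (tp + mu + e)) < 16 * t + (H * M + 16) * o) :
    (H : ℝ) / 16 * rr v + (H : ℝ) / 16 * (1 / 2 + rr es + rr zs) + (rr tp + rr mu + rr e) <
      rr t + ((H : ℝ) / 16 * M + 1) * rr o := by
  have h1 := rr_lt.2 h
  simp only [rr_add, rr_nmul, hs] at h1
  push_cast at h1
  linarith

/-- The smooth part of the sum on a box. -/
theorem smooth (h : BOK B Q E) {VV : ℕ → ℕ → ℕ} (hV : VVOK B VV) {k H xl xh ya yb a b M1 : ℕ}
    (hk : 1 ≤ k) (wf : Wf B xl xh ya yb a b)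
    (he : eSum B Q k H xl xh ya yb (B.st * (b - a)) M1 < BIG) {th : ℝ → ℝ} {e w : ℝ}
    (hth : Ch (fun q => -th q) (B.q a) (B.q b) e)
    (ha : (H : ℝ) / 16 * (rr (vMax (VV a) k H xl xh ya yb M1) - M1 * rr OFF) - th (B.q a) ≤ w)
    (hb : (H : ℝ) / 16 * (rr (vMax (VV b) k H xl xh ya yb M1) - M1 * rr OFF) - th (B.q b) ≤ w)
    (hq : q ∈ Icc (B.q a) (B.q b)) {x1 xi : ℝ} (hx : Box xl xh ya yb x1 xi) :
    (H : ℝ) / 16 * ∑ m ∈ Finset.range M1, PB (B.g 0 q) k x1 xi (rr (tN H m)) - th q ≤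
      w + (H : ℝ) / 16 * rr (eSum B Q k H xl xh ya yb (B.st * (b - a)) M1) + e := by
  have es : eSum B Q k H xl xh ya yb (B.st * (b - a)) M1 =
      ∑ m ∈ Finset.range M1, eNode B Q k xl xh ya yb (B.st * (b - a)) (tN H m) :=
    rec_sum (fun m => eNode B Q k xl xh ya yb (B.st * (b - a)) (tN H m)) M1
  rw [es] at he ⊢
  have sp := fun (m : ℕ) (hm : m ∈ Finset.range M1) => eNode_spec h hk wf (t := tN H m)
    (lt_of_le_of_lt (Finset.single_le_sum
      (f := fun m => eNode B Q k xl xh ya yb (B.st * (b - a)) (tN H m))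
      (fun _ _ => Nat.zero_le _) hm) he)
  have s1 := fun m hm => (sp m hm).1
  have s2 := fun m hm => (sp m hm).2
  clear sp he es
  choose! ex ey eq s3 s4 s5 s6 using s2
  have h0 : (0 : ℝ) ≤ (H : ℝ) / 16 := by positivity
  have vert : ∀ v, v < B.nv → ∀ x y, xl ≤ x → x ≤ xh → ya ≤ y → y ≤ yb →
      vSum (VV v) k H x y M1 ≤ vMax (VV v) k H xl xh ya yb M1 →
      (H : ℝ) / 16 * (rr (vMax (VV v) k H xl xh ya yb M1) - M1 * rr OFF) - th (B.q v) ≤ w →
      (H : ℝ) / 16 * ∑ m ∈ Finset.range M1, PB (B.g 0 (B.q v)) k (r20 x) (r20 y) (rr (tN H m)) +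
        -th (B.q v) ≤ w + (H : ℝ) / 16 *
          ∑ m ∈ Finset.range M1, rr (evB Q k xl xh ya yb (tN H m)) := by
    intro v hv x y x0 x1 y0 y1 hm hw
    have a1 := Finset.sum_le_sum fun m (hm : m ∈ Finset.range M1) =>
      pNode_spec h (h.sc.q_mem hv) (hV v hv) hk ⟨x0, x1, wf.x.2⟩ ⟨y0, y1, wf.y.2⟩ (s1 m hm)
    have a2 : vSum (VV v) k H x y M1 = ∑ m ∈ Finset.range M1, pNode (VV v) k x y (tN H m) :=
      rec_sum (fun m => pNode (VV v) k x y (tN H m)) M1
    rw [Finset.sum_add_distrib, ro_sum (fun m => pNode (VV v) k x y (tN H m)), ← a2] at a1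
    have a3 := rr_le.2 hm
    have a4 := mul_le_mul_of_nonneg_left a1 h0
    have a5 := mul_le_mul_of_nonneg_left a3 h0
    linarith
  have la : a < B.nv := lt_of_le_of_lt wf.q.1 wf.q.2
  have lb : b < B.nv := wf.q.2
  have m1 : ∀ V, vSum V k H xl ya M1 ≤ vMax V k H xl xh ya yb M1 := fun V =>
    (le_max_left _ _).trans (le_max_left _ _)
  have m2 : ∀ V, vSum V k H xl yb M1 ≤ vMax V k H xl xh ya yb M1 := fun V =>
    (le_max_right _ _).trans (le_max_left _ _)
  have m3 : ∀ V, vSum V k H xh ya M1 ≤ vMax V k H xl xh ya yb M1 := fun V =>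
    (le_max_left _ _).trans (le_max_right _ _)
  have m4 : ∀ V, vSum V k H xh yb M1 ≤ vMax V k H xl xh ya yb M1 := fun V =>
    (le_max_right _ _).trans (le_max_right _ _)
  have key := box_le (F := fun x y q =>
      (H : ℝ) / 16 * ∑ m ∈ Finset.range M1, PB (B.g 0 q) k x y (rr (tN H m)) + -th q)
    (fun y hy q hq => ((Ch.sum (Finset.range M1) fun m hm => s4 m hm y hy q hq).smul h0).add
      (Ch.const (-th q) _ _))
    (fun x hx q hq => ((Ch.sum (Finset.range M1) fun m hm => s5 m hm x hx q hq).smul h0).add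
      (Ch.const (-th q) _ _))
    (fun x hx y hy => ((Ch.sum (Finset.range M1) fun m hm => s6 m hm x hx y hy).smul h0).add hth)
    (vert a la xl ya le_rfl wf.x.1 le_rfl wf.y.1 (m1 _) ha)
    (vert b lb xl ya le_rfl wf.x.1 le_rfl wf.y.1 (m1 _) hb)
    (vert a la xl yb le_rfl wf.x.1 wf.y.1 le_rfl (m2 _) ha)
    (vert b lb xl yb le_rfl wf.x.1 wf.y.1 le_rfl (m2 _) hb)
    (vert a la xh ya wf.x.1 le_rfl le_rfl wf.y.1 (m3 _) ha)
    (vert b lb xh ya wf.x.1 le_rfl le_rfl wf.y.1 (m3 _) hb)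
    (vert a la xh yb wf.x.1 le_rfl wf.y.1 le_rfl (m4 _) ha)
    (vert b lb xh yb wf.x.1 le_rfl wf.y.1 le_rfl (m4 _) hb) hx.x hx.y hq
  have a1 := Finset.sum_le_sum s3
  rw [Finset.sum_add_distrib, Finset.sum_add_distrib, Finset.sum_add_distrib] at a1
  rw [rr_sum (fun m => eNode B Q k xl xh ya yb (B.st * (b - a)) (tN H m))]
  have a2 := mul_le_mul_of_nonneg_left a1 h0
  linarith

/-- Poisson summation with the rough nodes and the tail. -/
theorem rough (h : BOK B Q E) (hq : q ∈ B.I) {k H xl xh ya yb M1 M : ℕ} (hk : 1 ≤ k)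
    (hx : 0 < xl) (hxh : xh ≤ 1048576) (hyb : yb ≤ 1048576) (h1 : M1 ≤ M) (hM : 0 < M)
    (hH : 0 < H) (ht : tailP B Q k H xl xh ya yb M < BIG) {x1 xi : ℝ}
    (hb : Box xl xh ya yb x1 xi) :
    IP (B.g 0 q) k x1 xi ≤ (H : ℝ) / 16 / 2 +
      (H : ℝ) / 16 * ∑ m ∈ Finset.range M1, PB (B.g 0 q) k x1 xi (rr (tN H m)) +
      (H : ℝ) / 16 * (rr (zSum Q k H xl xh ya yb M1 (M - M1)) - ((M : ℝ) - M1) * rr OFF) +
      rr (tailP B Q k H xl xh ya yb M) := by
  have b1 : x1 ≤ 1 := hb.x.2.trans (r20_le hxh)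
  have b2 : xi ≤ 1 := hb.y.2.trans (r20_le hyb)
  have b3 : 0 < x1 := (r20_pos hx).trans_le hb.x.1
  have b4 : 0 ≤ xi := (r20_nonneg ya).trans hb.y.1
  have H0 : (0 : ℝ) < (H : ℝ) / 16 := by
    have : (0 : ℝ) < H := by exact_mod_cast hH
    positivity
  obtain ⟨A2, A3, t1, t2, t3, t4⟩ := tailP_spec h hq hk hM hH hb b1 b2 ht
  have P := pois_up h.sc.C_pos (h.sc.q_pos hq).1 (h.sc.q_pos hq).2 b3
    (mul_nonneg b4 (sub_nonneg.2 b1))
    (div_nonneg (mul_nonneg (sub_nonneg.2 b2) (sub_nonneg.2 b1)) (Nat.cast_nonneg k)) k hM H0 t1 t2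
    t4
  have P' : IP (B.g 0 q) k x1 xi ≤ (H : ℝ) / 16 / 2 +
      (H : ℝ) / 16 * ∑ m ∈ Finset.range M, PB (B.g 0 q) k x1 xi (rr (tN H m)) +
      (A2 + A3 / 2) * (M * ((H : ℝ) / 16)) := by
    simp only [tN_eq]
    exact P
  obtain ⟨n, rfl⟩ := Nat.exists_eq_add_of_le h1
  rw [Finset.sum_range_add] at P'
  have z1 := Finset.sum_le_sum fun m (_ : m ∈ Finset.range n) =>
    zNode_spec h hq hk hb b1 b2 (tN H (M1 + m))
  have z2 : zSum Q k H xl xh ya yb M1 n =
      ∑ m ∈ Finset.range n, zNode Q k xl xh ya yb (tN H (M1 + m)) :=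
    rec_sum (fun m => zNode Q k xl xh ya yb (tN H (M1 + m))) n
  rw [ro_sum (fun m => zNode Q k xl xh ya yb (tN H (M1 + m))), ← z2] at z1
  have z3 := mul_le_mul_of_nonneg_left z1 H0.le
  rw [Nat.add_sub_cancel_left, Nat.cast_add, add_sub_cancel_left]
  linarith

end YMainX

open YMainX

theorem mainT_sound {G : ℕ → ℕ} (hG : GamOK G) (h : BOK B Q E) {VV : ℕ → ℕ → ℕ}
    (hV : VVOK B VV) {c : Cls} {two : Bool} {xl xh ya yb a b M1 M e : ℕ}
    (wf : Wf B xl xh ya yb a b) (ok : mainT G B Q VV c two xl xh ya yb a b M1 M e = true)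
    (hq : q ∈ Icc (B.q a) (B.q b)) {x1 xi : ℝ} (hb : Box xl xh ya yb x1 xi) :
    IP (B.g 0 q) (c.N - 2) x1 xi + ro e < Th B c.N two q := by
  simp only [mainT, forceN_eq, Bool.and_eq_true, Bool.or_eq_true, Nat.blt_eq, Nat.ble_eq] at ok
  obtain ⟨⟨⟨⟨⟨⟨⟨⟨⟨⟨⟨c1, c2⟩, c3⟩, c4⟩, c5⟩, c6⟩, c7⟩, c8⟩, c9⟩, c10⟩, c11⟩, ka, kb⟩ := ok
  have hk : 1 ≤ c.N - 2 := by omega
  have la : a < B.nv := lt_of_le_of_lt wf.q.1 wf.q.2
  have lb : b < B.nv := wf.q.2
  have ia := h.sc.q_mem la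
  have ib := h.sc.q_mem lb
  have iq : q ∈ B.I := ⟨ia.1.trans hq.1, hq.2.trans ib.2⟩
  have ta := thr_le hG h hV la c11 c9
  have tb := thr_le hG h hV lb c11 c10
  have tm := thrM_ch h c8 ia.1 ib.2 (hq.1.trans hq.2)
  have ra := test_real half ka
  have rb := test_real half kb
  have r1 := rough h iq hk c1 wf.x.2 wf.y.2 c2 c3 c4 c7 hb
  have r2 := smooth h hV hk wf c6 (th := fun q => Th B c.N two q) tm (le_max_left _ _)
    (le_max_right _ _) hq hb
  have r3 := mulU_ge (thrM B Q c two) ((B.st * (b - a) * (B.st * (b - a))) <<< 13)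
  rw [shl13, ← h.sc.q_sub wf.q.1, ← mul_div_assoc] at r3
  rw [ro_eq]
  rcases max_choice
    ((c.H : ℝ) / 16 * (rr (vMax (VV a) (c.N - 2) c.H xl xh ya yb M1) - M1 * rr OFF) -
      Th B c.N two (B.q a))
    ((c.H : ℝ) / 16 * (rr (vMax (VV b) (c.N - 2) c.H xl xh ya yb M1) - M1 * rr OFF) -
      Th B c.N two (B.q b)) with hm | hm
  · rw [hm] at r2
    linarith
  · rw [hm] at r2
    linarith

end Pool.Agent.MP_39fec4_gt.K

end

section

set_option autoImplicit false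

namespace Pool.Agent.MP_39fec4_gt.K

open Set MeasureTheory Full

variable {B : Blk} {Q : ℕ → ℕ → ℕ} {E : ℕ → ℕ} {q : ℝ} {ι : Type} {T : Finset ι}

namespace YTwoX

theorem root_le (k : ℕ) : ∀ a : ℕ, rr (Nat.rec (motive := fun _ => ℕ → ℕ) (fun r => r)
    (fun _ ih r => forceN (sqrtL r) ih) k a) ≤ rr a ^ ((1 : ℝ) / 2 ^ k) := by
  induction k with
  | zero => intro a; simp
  | succ k ih =>
    intro a
    have h1 := ih (sqrtL a)
    have h2 : rr (sqrtL a) ^ ((1 : ℝ) / 2 ^ k) ≤ √(rr a) ^ ((1 : ℝ) / 2 ^ k) :=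
      Real.rpow_le_rpow (rr_nonneg _) (sqrtL_le a) (by positivity)
    rw [Real.sqrt_eq_rpow, ← Real.rpow_mul (rr_nonneg _),
      show (1 : ℝ) / 2 * (1 / 2 ^ k) = 1 / 2 ^ (k + 1) by rw [pow_succ]; field_simp] at h2
    have e : (Nat.rec (motive := fun _ => ℕ → ℕ) (fun r => r)
        (fun _ ih r => forceN (sqrtL r) ih) (k + 1) a : ℕ) =
        Nat.rec (motive := fun _ => ℕ → ℕ) (fun r => r)
        (fun _ ih r => forceN (sqrtL r) ih) k (sqrtL a) := forceN_eq _ _
    rw [e]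
    exact h1.trans h2

/-- The vector with two further coordinates. -/
def ext (x1 x2 : ℝ) (T : Finset ι) (x : ι → ℝ) : Option (Option T) → ℝ
  | none => x1
  | some none => x2
  | some (some j) => x j

end YTwoX

open YTwoX

theorem rpw_le (a i : ℕ) (hi : 0 < i) : rr (rpw a i) ≤ rr a ^ ((i : ℝ) / 256) := by
  have h := root_le 8 a
  rw [rpw, forceN_eq]
  refine (mulD_le_of (powD_le a (i / 256)) (powD_le_of h (i % 256))).trans (le_of_eq ?_)
  have e : ((i : ℝ) / 256) = ((i / 256 : ℕ) : ℝ) + 1 / 2 ^ 8 * ((i % 256 : ℕ) : ℝ) := by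
    have : (i : ℝ) = 256 * ((i / 256 : ℕ) : ℝ) + ((i % 256 : ℕ) : ℝ) := by
      exact_mod_cast (Nat.div_add_mod i 256).symm
    rw [this]; ring
  have hp : (0 : ℝ) < (i : ℝ) / 256 := by
    have : (0 : ℝ) < i := Nat.cast_pos.2 hi
    positivity
  rw [← Real.rpow_natCast (rr a), ← Real.rpow_natCast (rr a ^ _), ← Real.rpow_mul (rr_nonneg _),
    ← Real.rpow_add' (rr_nonneg _) (e ▸ hp.ne'), ← e]

theorem two_ltX (hs : ScalOK B) (hq : q ∈ B.I) {x : ι → ℝ} {x1 x2 : ℝ} (h0 : ∀ j ∈ T, 0 ≤ x j)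
    (h1 : 0 ≤ x1) (h2 : 0 ≤ x2) (hsum : x1 + x2 + ∑ j ∈ T, x j = 1)
    (h : 2 < (2 * x1) ^ (1 / q / 2) + (2 * x2) ^ (1 / q / 2)) :
    IX (B.g 0 q) x1 x2 T x < kap B.C q := by
  classical
  obtain ⟨q0, q2⟩ := hs.q_pos hq
  have hC := hs.C_pos
  have hp : 2 < 1 / q := by rw [lt_div_iff₀ q0]; linarith
  set e := Fintype.equivFin (Option (Option T)) with he
  set y : Fin (Fintype.card (Option (Option T))) → ℝ := fun k => ext x1 x2 T x (e.symm k) with hy
  have y0 : ∀ k, 0 ≤ y k := by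
    intro k
    simp only [hy]
    rcases e.symm k with _ | _ | j
    · exact h1
    · exact h2
    · exact h0 j j.2
  have hS : Smp y := by
    refine ⟨y0, ?_⟩
    rw [hy, Equiv.sum_comp e.symm (ext x1 x2 T x), Fintype.sum_option, Fintype.sum_option]
    simp only [YTwoX.ext]
    rw [Finset.sum_coe_sort T x]
    linarith
  have hne : e none ≠ e (some none) := fun hh => by simpa using e.injective hh
  have h3 := two_lt hp hS hne (by simpa only [hy, Equiv.symm_apply_apply, YTwoX.ext] using h)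
  rw [II_eq_IG hC q0 q2 y y0, Bl_eq_kap hC q0] at h3
  have hm : 0 < mu B.C q := (rr_pos hs.mL0).trans_le (hs.hmu q hq).1
  have h4 := lt_of_mul_lt_mul_left h3 hm.le
  refine lt_of_eq_of_lt ?_ h4
  unfold IX IG
  congr 1
  funext s
  rw [hy, Equiv.prod_comp e.symm (fun k => Full.gg B.C 0 q (ext x1 x2 T x k * s ^ 2)),
    Fintype.prod_option, Fintype.prod_option]
  simp only [YTwoX.ext]
  rw [Finset.prod_coe_sort T (fun j => Full.gg B.C 0 q (x j * s ^ 2)), mul_assoc]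
  rfl

theorem twoT_sound (hs : ScalOK B) (hq : q ∈ B.I) {xl xh ya yb b : ℕ} (hb : q ≤ B.q b)
    (ok : twoT B xl xh ya yb b = true) {x : ι → ℝ} {x1 xi : ℝ} (hp : Pt T x x1 xi)
    (hx : Box xl xh ya yb x1 xi) : IX (B.g 0 q) x1 (xi * (1 - x1)) T x < kap B.C q := by
  obtain ⟨q0, -⟩ := hs.q_pos hq
  obtain ⟨b1, -, -, b4, -, b6⟩ := hx.bounds hp.l1.le hp.l2.le
  simp only [twoT, forceN_eq, Bool.and_eq_true, Nat.ble_eq, Nat.blt_eq] at ok
  obtain ⟨i0, ok⟩ := ok
  have i1 : min (524288 / B.qv b) 4096 ≤ 524288 / B.qv b := min_le_left _ _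
  generalize min (524288 / B.qv b) 4096 = i at i0 i1 ok
  have u1 := rr_sub_eq SS (cR xl ya)
  have d1 := rr_sub_eq (cX1 xl) (cX2 xl yb)
  generalize SS - cR xl ya = u at u1 ok
  generalize cX1 xl - cX2 xl yb = d at d1 ok
  have p1 := hp.p1
  have l1 := hp.l1
  have p2 := hp.p2
  have l2 := hp.l2
  have x2 : 0 ≤ xi * (1 - x1) := mul_nonneg p2 (by linarith)
  have s1 : (1 : ℝ) ≤ (i : ℝ) / 256 := by
    rw [le_div_iff₀ (by norm_num), one_mul]; exact_mod_cast i0
  have k1 := rpw_le (u + d) i (by omega)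
  have k2 := rpw_le (u - d) i (by omega)
  have k3 := rr_lt.2 ok
  rw [rr_add, rr_nmul, rr_SS] at k3
  rw [rr_add] at k1
  rw [rr_sub_eq] at k2
  have k4 := rpow_sum_spread (a := 2 * x1) (b := 2 * (xi * (1 - x1))) (u := rr u) (d := rr d)
    (by linarith) (rr_nonneg _) (rr_nonneg _) s1
    (by
      rw [u1, rr_SS]
      have : max (1 - rr (cR xl ya)) 0 ≤ x1 + xi * (1 - x1) := max_le (by nlinarith) (by linarith)
      linarith)
    (by
      rw [d1]
      have : max (rr (cX1 xl) - rr (cX2 xl yb)) 0 ≤ x1 - xi * (1 - x1) :=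
        max_le (by linarith) (by linarith [hp.le])
      linarith)
  have k5 : (i : ℝ) / 256 ≤ 1 / q / 2 := by
    have a1 : (i : ℝ) ≤ 524288 / (B.qv b : ℝ) :=
      (Nat.cast_le.2 i1).trans (by exact_mod_cast Nat.cast_div_le (α := ℝ) (m := 524288) (n := B.qv b))
    have a2 : q ≤ (B.qv b : ℝ) / 4096 := hb
    have a3 : (0 : ℝ) < B.qv b := by linarith
    rw [le_div_iff₀ a3] at a1
    rw [div_div, div_le_div_iff₀ (by norm_num) (by positivity)]
    have a4 : (0 : ℝ) ≤ i := Nat.cast_nonneg _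
    nlinarith
  refine two_ltX hs hq (fun j hj => (hp.rng j hj).1) p1.le x2 (by rw [hp.sum]; ring) ?_
  refine rpow_sum_mono (by linarith) (by linarith) (by linarith) k5 ?_
  push_cast at k3
  linarith

/-- The integral over the simplex seen from two coordinates. -/
theorem IG_eq_IX (g : ℝ → ℝ) {n : ℕ} (x : Fin n → ℝ) {i j : Fin n} (hij : i ≠ j) :
    IG g Finset.univ x = IX g (x i) (x j) ((Finset.univ.erase i).erase j) x := by
  unfold IG IX
  congr 1
  funext s
  have mj : j ∈ Finset.univ.erase i := Finset.mem_erase.2 ⟨hij.symm, Finset.mem_univ j⟩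
  rw [← Finset.mul_prod_erase Finset.univ _ (Finset.mem_univ i),
    ← Finset.mul_prod_erase (Finset.univ.erase i) _ mj, mul_assoc]

end Pool.Agent.MP_39fec4_gt.K

end

section

set_option autoImplicit false

namespace Pool.Agent.MP_39fec4_gt.K

open Set MeasureTheory Full

variable {B : Blk} {Q : ℕ → ℕ → ℕ} {E : ℕ → ℕ} {q : ℝ} {ι : Type} {T : Finset ι}

theorem YTreeX.memI (h : BOK B Q E) {xl xh ya yb a b : ℕ} (wf : Wf B xl xh ya yb a b)
    (hq : q ∈ Icc (B.q a) (B.q b)) : q ∈ B.I := by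
  have ha := h.sc.q_mem (v := a) (lt_of_le_of_lt wf.q.1 wf.q.2)
  have hb := h.sc.q_mem (v := b) wf.q.2
  exact ⟨ha.1.trans hq.1, hq.2.trans hb.2⟩

theorem YTreeX.r20_mono {a b : ℕ} (h : a ≤ b) : r20 a ≤ r20 b := by
  unfold r20
  have : (a : ℝ) ≤ b := by exact_mod_cast h
  gcongr

theorem YTreeX.exc_mono {c : Cls} {xl xh ya yb xl' xh' ya' yb' e1 e2 : ℕ}
    (he : ExcOK B c xl xh ya yb e1 e2) (h1 : xl ≤ xl') (h2 : xh' ≤ xh) (h3 : ya ≤ ya')
    (h4 : yb' ≤ yb) : ExcOK B c xl' xh' ya' yb' e1 e2 := by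
  intro q hq ι T x x1 xi hp hc hb
  exact he q hq ι T x x1 xi hp hc
    ⟨⟨(YTreeX.r20_mono h1).trans hb.x.1, hb.x.2.trans (YTreeX.r20_mono h2)⟩,
      ⟨(YTreeX.r20_mono h3).trans hb.y.1, hb.y.2.trans (YTreeX.r20_mono h4)⟩⟩

theorem leafT_sound {G : ℕ → ℕ} (hG : GamOK G) (h : BOK B Q E) {VV : ℕ → ℕ → ℕ}
    (hV : VVOK B VV) {c : Cls} (hb : BallOK B c.bl) {w xl xh ya yb a b e1 e2 : ℕ}
    (wf : Wf B xl xh ya yb a b) (he : ExcOK B c xl xh ya yb e1 e2)
    (ok : leafT G B Q VV c w xl xh ya yb a b e1 e2 = true) : BoxOK B c xl xh ya yb a b := by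
  intro q hq ι T x x1 xi hp hc hx
  have hqI := YTreeX.memI h wf hq
  obtain ⟨b1, b2, b3, b4, b5, b6⟩ := hx.bounds hp.l1.le hp.l2.le
  unfold leafT at ok
  rw [forceN_eq] at ok
  generalize w % 8 = kd at ok
  cases h0 : Nat.beq kd 0 with
  | true =>
    rw [h0, cond_true, Nat.blt_eq] at ok
    have := rr_lt.2 ok
    have := hp.le
    exfalso
    linarith
  | false =>
    rw [h0, cond_false] at ok
    cases h1 : Nat.beq kd 1 with
    | true =>
      rw [h1, cond_true] at ok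
      refine lt_max_of_lt_right (hb _ _ _ ok q hqI ι T x x1 _ (fun j hj => (hp.rng j hj).1)
        ?_ ?_ ?_ ?_ ?_)
      · rw [hp.sum]
        exact mul_pos (sub_pos.2 hp.l2) (sub_pos.2 hp.l1)
      · rw [hp.sum]; exact b5
      · rw [hp.sum]; exact b6
      · rw [hp.sum]; ring
      · rw [abs_of_nonneg (sub_nonneg.2 hp.le)]
        have := rr_sub_ge (cX1 xh) (cX2 xh ya)
        linarith
    | false =>
      rw [h1, cond_false] at ok
      cases h2 : Nat.beq kd 2 with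
      | true =>
        rw [h2, cond_true] at ok
        exact lt_max_of_lt_right (twoT_sound h.sc hqI hq.2 ok hp hx)
      | false =>
        rw [h2, cond_false] at ok
        obtain ⟨k1, k2⟩ := he q hqI ι T x x1 xi hp hc hx
        cases h3 : Nat.beq kd 3 with
        | true =>
          rw [h3, cond_true, Bool.and_eq_true, Nat.blt_eq] at ok
          have m := mainT_sound hG h hV wf ok.2 hq hx
          have k := k1 ok.1
          unfold Th at m
          rw [cond_false] at m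
          exact lt_max_of_lt_left (by linarith)
        | false =>
          rw [h3, cond_false, Bool.and_eq_true, Nat.blt_eq] at ok
          have m := mainT_sound hG h hV wf ok.2 hq hx
          have k := k2 ok.1
          unfold Th at m
          rw [cond_true] at m
          exact lt_max_of_lt_right (by linarith)

theorem treeT_sound {G : ℕ → ℕ} (hG : GamOK G) (h : BOK B Q E) {VV : ℕ → ℕ → ℕ}
    (hV : VVOK B VV) {c : Cls} (hb : BallOK B c.bl) (t : Tr) {xl xh ya yb a b e1 e2 : ℕ}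
    (wf : Wf B xl xh ya yb a b) (he : ExcOK B c xl xh ya yb e1 e2)
    (ok : treeT G B Q VV E c t xl xh ya yb a b e1 e2 = true) : BoxOK B c xl xh ya yb a b := by
  induction t generalizing xl xh ya yb a b e1 e2 with
  | l w => exact leafT_sound hG h hV hb wf he ok
  | x s t ihs iht =>
    have ok' : (forceN ((xl + xh) / 2) fun m => treeT G B Q VV E c s xl m ya yb a b e1 e2 &&
        treeT G B Q VV E c t m xh ya yb a b e1 e2) = true := ok
    rw [forceN_eq, Bool.and_eq_true] at ok'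
    have w1 := wf.x
    have m1 : xl ≤ (xl + xh) / 2 := by omega
    have m2 : (xl + xh) / 2 ≤ xh := by omega
    have r1 := ihs ⟨⟨m1, m2.trans w1.2⟩, wf.y, wf.q⟩
      (YTreeX.exc_mono he le_rfl m2 le_rfl le_rfl) ok'.1
    have r2 := iht ⟨⟨m2, w1.2⟩, wf.y, wf.q⟩
      (YTreeX.exc_mono he m1 le_rfl le_rfl le_rfl) ok'.2
    intro q hq ι T x x1 xi hp hc hx
    rcases le_total x1 (r20 ((xl + xh) / 2)) with k | k
    · exact r1 q hq ι T x x1 xi hp hc ⟨⟨hx.x.1, k⟩, hx.y⟩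
    · exact r2 q hq ι T x x1 xi hp hc ⟨⟨k, hx.x.2⟩, hx.y⟩
  | y s t ihs iht =>
    have ok' : (forceN ((ya + yb) / 2) fun m => treeT G B Q VV E c s xl xh ya m a b e1 e2 &&
        treeT G B Q VV E c t xl xh m yb a b e1 e2) = true := ok
    rw [forceN_eq, Bool.and_eq_true] at ok'
    have w1 := wf.y
    have m1 : ya ≤ (ya + yb) / 2 := by omega
    have m2 : (ya + yb) / 2 ≤ yb := by omega
    have r1 := ihs ⟨wf.x, ⟨m1, m2.trans w1.2⟩, wf.q⟩
      (YTreeX.exc_mono he le_rfl le_rfl le_rfl m2) ok'.1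
    have r2 := iht ⟨wf.x, ⟨m2, w1.2⟩, wf.q⟩
      (YTreeX.exc_mono he le_rfl le_rfl m1 le_rfl) ok'.2
    intro q hq ι T x x1 xi hp hc hx
    rcases le_total xi (r20 ((ya + yb) / 2)) with k | k
    · exact r1 q hq ι T x x1 xi hp hc ⟨hx.x, ⟨hx.y.1, k⟩⟩
    · exact r2 q hq ι T x x1 xi hp hc ⟨hx.x, ⟨k, hx.y.2⟩⟩
  | q s t ihs iht =>
    have ok' : (forceN ((a + b) / 2) fun m => treeT G B Q VV E c s xl xh ya yb a m e1 e2 &&
        treeT G B Q VV E c t xl xh ya yb m b e1 e2) = true := ok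
    rw [forceN_eq, Bool.and_eq_true] at ok'
    have w1 := wf.q
    have m1 : a ≤ (a + b) / 2 := by omega
    have m2 : (a + b) / 2 ≤ b := by omega
    have r1 := ihs ⟨wf.x, wf.y, ⟨m1, lt_of_le_of_lt m2 w1.2⟩⟩ he ok'.1
    have r2 := iht ⟨wf.x, wf.y, ⟨m2, w1.2⟩⟩ he ok'.2
    intro q hq ι T x x1 xi hp hc hx
    rcases le_total q (B.q ((a + b) / 2)) with k | k
    · exact r1 q ⟨hq.1, k⟩ ι T x x1 xi hp hc hx
    · exact r2 q ⟨k, hq.2⟩ ι T x x1 xi hp hc hx
  | e w s ihs =>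
    have ok' : excB B Q E c w xl xh ya yb (treeT G B Q VV E c s xl xh ya yb a b) = true := ok
    obtain ⟨f1, f2, hf, he'⟩ := excB_spec h c w xl xh ya yb (treeT G B Q VV E c s xl xh ya yb a b)
    rw [hf] at ok'
    exact ihs wf he' ok'

end Pool.Agent.MP_39fec4_gt.K

end

section

set_option autoImplicit false

namespace Pool.Agent.MP_39fec4_gt.K

open Set MeasureTheory Full

variable {B : Blk} {Q : ℕ → ℕ → ℕ} {E : ℕ → ℕ} {q : ℝ} {ι : Type} {T : Finset ι}

namespace YIncX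

theorem mvt {f f1 : ℝ → ℝ} {a b : ℝ} (hab : a < b) (hd : ∀ t ∈ Icc a b, HasDerivAt f (f1 t) t) :
    ∃ t ∈ Icc a b, f b - f a = f1 t * (b - a) := by
  obtain ⟨t, ht, h⟩ := exists_hasDerivAt_eq_slope f f1 hab
    (fun t ht => (hd t ht).continuousAt.continuousWithinAt) (fun t ht => hd t (Ioo_subset_Icc_self ht))
  refine ⟨t, Ioo_subset_Icc_self ht, ?_⟩
  rw [h, div_mul_cancel₀ _ (sub_pos.2 hab).ne']

theorem lip (hs : ScalOK B) {q' : ℝ} (hq : q ∈ B.I) (hq' : q' ∈ B.I) (hlt : q < q') (j : ℕ)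
    {y M : ℝ} (hy : 0 ≤ y) (hM : ∀ t ∈ B.I, |gq1 B.C j t y| ≤ M) :
    |B.g j q' y - B.g j q y| ≤ M * (q' - q) := by
  have hsub : Icc q q' ⊆ B.I := Icc_subset_Icc hq.1 hq'.2
  obtain ⟨t, ht, h⟩ := mvt (f := fun t => Full.gg B.C j t y) (f1 := fun t => gq1 B.C j t y) hlt
    (fun t ht => hasDerivAt_gg_q hs.C_pos (hs.q_pos (hsub ht)).1 hy j)
  have e : B.g j q' y - B.g j q y = gq1 B.C j t y * (q' - q) := h
  rw [e, abs_mul, abs_of_pos (sub_pos.2 hlt)]
  exact mul_le_mul_of_nonneg_right (hM t (hsub ht)) (sub_pos.2 hlt).le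

theorem kap_dec (hs : ScalOK B) {q' : ℝ} (hq : q ∈ B.I) (hq' : q' ∈ B.I) (hlt : q < q')
    (h0 : B.tauL ≠ 0) : rr B.kl * rr B.tauL * (q' - q) ≤ kap B.C q - kap B.C q' := by
  have hsub : Icc q q' ⊆ B.I := Icc_subset_Icc hq.1 hq'.2
  obtain ⟨t, ht, h⟩ := mvt (f := kap B.C)
    (f1 := fun t => -(kap B.C t * (Real.log 2 + mu1 B.C t / mu B.C t))) hlt
    (fun t ht => hasDerivAt_kap hs.C_pos (hs.q_pos (hsub ht)).1)
  have h1 := (hs.tauL.resolve_left h0) t (hsub ht)
  have h2 := (hs.hkap t (hsub ht)).1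
  have h3 : rr B.kl * rr B.tauL ≤ kap B.C t * (Real.log 2 + mu1 B.C t / mu B.C t) :=
    mul_le_mul h2 h1 (rr_nonneg _) ((rr_nonneg _).trans h2)
  have h4 := mul_le_mul_of_nonneg_right h3 (sub_pos.2 hlt).le
  linarith

theorem rec_ge (F : ℕ → ℕ) (n : ℕ) {i : ℕ} (hi : i < n) :
    F i ≤ Nat.rec (motive := fun _ => ℕ) 0 (fun i ih => max ih (F i)) n := by
  induction n with
  | zero => omega
  | succ n ih =>
    show F i ≤ max (Nat.rec (motive := fun _ => ℕ) 0 (fun i ih => max ih (F i)) n) (F n)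
    rcases Nat.lt_succ_iff_lt_or_eq.1 hi with h | h
    · exact (ih h).trans (le_max_left _ _)
    · rw [h]
      exact le_max_right _ _

theorem idx_le {i : ℕ} (h : Yb i ≤ 2 ^ 52) : i ≤ 680 := by
  rw [ZGridX.Yb_eq] at h
  split_ifs at h <;> omega

theorem cell {i1 : ℕ} (h0 : 0 < i1) (h1 : i1 ≤ 680) {y : ℝ} (hy : 0 ≤ y) (hy1 : y ≤ rr (Yb i1)) :
    ∃ i, i < i1 ∧ Yb i < Yb i1 ∧ rr (Yb i) ≤ y ∧ y ≤ rr (Yb (i + 1)) := by
  obtain ⟨i, hi, ha, hb⟩ := cell_le hy hy1
  have hp : 0 < Yb i1 := by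
    have a := Yb_lt (i := 0) (by omega)
    have b : Yb (0 + 1) ≤ Yb i1 := Yb_mono (by omega) (by omega)
    omega
  have hc : cidx (Yb i1 - 1) < i1 := by
    by_contra hc
    have a := (Yb_cidx (Yb i1 - 1)).1
    have b := cidx_le (Yb i1 - 1)
    have c : Yb i1 ≤ Yb (cidx (Yb i1 - 1)) := Yb_mono (by omega) (by omega)
    omega
  have hi1 : i < i1 := by omega
  refine ⟨i, hi1, ?_, ha, hb (by omega)⟩
  have a := Yb_lt (i := i) (by omega)
  have b : Yb (i + 1) ≤ Yb i1 := Yb_mono (by omega) (by omega)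
  omega

theorem num {al be2 d b1 mL y1 L kl tl : ℕ} (hp : 0 < mulD (mulD mL mL) y1)
    (hlt : 45 * mulU al (powU L 3) / 100 + 1 + 42 * mulU be2 (powU L 5) / 1000 + 1 +
      divU (23 * mulU d (powU b1 5)) (mulD (mulD mL mL) y1) < mulD kl tl) :
    0.45 * rr al * rr L ^ 3 + 0.084 * (rr be2 / 2) * rr L ^ 5 +
      23 * rr d * rr b1 ^ 5 / (rr mL ^ 2 * rr y1) < rr kl * rr tl := by
  have a1 : rr al * rr L ^ 3 ≤ rr (mulU al (powU L 3)) :=
    le_mulU' le_rfl (powU_ge L 3) (rr_nonneg _)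
  have a2 : rr be2 * rr L ^ 5 ≤ rr (mulU be2 (powU L 5)) :=
    le_mulU' le_rfl (powU_ge L 5) (rr_nonneg _)
  have a3 : rr d * rr b1 ^ 5 ≤ rr (mulU d (powU b1 5)) :=
    le_mulU' le_rfl (powU_ge b1 5) (rr_nonneg _)
  have b1' := rr_div_lt (k := 100) (45 * mulU al (powU L 3)) (by norm_num)
  have b2 := rr_div_lt (k := 1000) (42 * mulU be2 (powU L 5)) (by norm_num)
  have b3 : 23 * rr d * rr b1 ^ 5 / (rr mL ^ 2 * rr y1) ≤
      rr (divU (23 * mulU d (powU b1 5)) (mulD (mulD mL mL) y1)) := by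
    refine le_divU hp ?_ (mulD_le_of ((mulD_le mL mL).trans (le_of_eq (by ring))) le_rfl)
    rw [rr_nmul]
    push_cast
    linarith
  have c := rr_lt.2 hlt
  have c2 := mulD_le kl tl
  rw [rr_nmul] at b1' b2
  rw [Nat.add_assoc _ (42 * mulU be2 (powU L 5) / 1000) 1, rr_add, rr_add _ (_ + 1)] at c
  push_cast at b1' b2
  linarith

end YIncX

open YIncX

theorem incChk_sound (h : BOK B Q E) {Tb Va Vb : ℕ → ℕ} {i1 L : ℕ}
    (hm : ∀ i, i ≤ 680 → Yb i < B.Yc → MkOK B (Tb i) (rr (Yb i)) (rr (Yb (i + 1))))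
    (hz : MkOK B (mkCellN B Va Vb 0 0) 0 0) (ok : incChk B Q Tb E Va Vb i1 L = true) {n : ℕ}
    (hn : 8 ≤ n) : Cross n B.qa B.qb := by
  unfold incChk at ok
  simp only [forceN_eq, Bool.and_eq_true, Nat.ble_eq, Nat.blt_eq] at ok
  obtain ⟨⟨⟨⟨⟨⟨o1, o2⟩, o3⟩, o4⟩, o5⟩, o6⟩, o7⟩ := ok
  have hbe := fun i (hi : i < i1) => rec_ge (fun i => fld (Tb i) 56 13) i1 hi
  generalize Nat.rec (motive := fun _ => ℕ) 0 (fun i ih => max ih (fld (Tb i) 56 13)) i1 = be2
    at o7 hbe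
  generalize mkCellN B Va Vb 0 0 = R0 at hz o7
  have hi1 : i1 ≤ 680 := idx_le (o2.trans h.yc)
  have hnum := num o6 o7
  have htau : B.tauL ≠ 0 := by
    intro h0
    rw [h0] at o7
    have : mulD B.kl 0 = 0 := by simp [mulD]
    omega
  intro q q' ha hlt hb hle
  have hq : q ∈ B.I := ⟨ha, hlt.le.trans hb⟩
  have hq' : q' ∈ B.I := ⟨ha.trans hlt.le, hb⟩
  have he : 0 < q' - q := sub_pos.2 hlt
  have sg := h.sc.sm_g hq'
  have sh := h.sc.sm_g hq
  have hm0 := rr_pos h.sc.mL0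
  have hy1 : 0 < rr (sqrtL (Yb i1)) := by
    refine rr_pos (Nat.pos_of_ne_zero fun h0 => ?_)
    rw [h0] at o6
    simp [mulD] at o6
  have hB1 : rr (gAB (rqI Q (Yb i1))) ≤ 0.8 := by
    refine (rr_le.2 o4).trans ?_
    unfold rr R07
    norm_num
  have hL : 8 ≤ 7 * rr (envb E (Yb i1)) * rr L ^ 2 := by
    have a := rr_le.2 o5
    rw [rr_nmul, rr_nmul, rr_SS] at a
    have b : rr (mulD (envb E (Yb i1)) (mulD L L)) ≤ rr (envb E (Yb i1)) * (rr L * rr L) :=
      mulD_le_of le_rfl (mulD_le L L)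
    push_cast at a
    nlinarith
  have near : ∀ y, 0 ≤ y → y ≤ rr (Yb i1) → |B.g 0 q' y - B.g 0 q y| ≤
      (rr (fld R0 56 12) * y + rr be2 / 2 * y ^ 2) * (q' - q) := by
    intro y hy hyY
    have k := diff_near sg sh (al := rr (fld R0 56 12) * (q' - q)) (be := rr be2 / 2 * (q' - q))
      (Y1 := rr (Yb i1))
      (lip h.sc hq hq' hlt 1 le_rfl fun t ht => (hz.ex t ht 0 le_rfl le_rfl le_rfl).2.1)
      (fun v hv hvY => by
        obtain ⟨i, hi, hiY, ha', hb'⟩ := cell o1 hi1 hv hvY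
        have k2 := lip h.sc hq hq' hlt 2 hv (M := rr be2) fun t ht =>
          ((hm i (by omega) (hiY.trans_le o2)).ex t ht v hv ha' hb').2.2.1.trans
            (rr_le.2 (hbe i hi))
        exact k2.trans (le_of_eq (by ring))) hy hyY
    exact k.trans (le_of_eq (by ring))
  have key := diag_lip sg.c0 sh.c0 (e := q' - q) he.le (rr_nonneg (fld R0 56 12))
    (be := rr be2 / 2) (div_nonneg (rr_nonneg _) (by norm_num)) (rr_nonneg B.d1g) (rr_pos o3) hy1
    (sqrtL_sq (Yb i1)) (rr_nonneg _) hB1 hm0 (rr_nonneg L) hL near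
    (fun y hy => lip h.sc hq hq' hlt 0 hy fun t ht => h.sc.d1g t ht y hy)
    (fun y hy hyY => ⟨(h.env (Yb i1)).2 q' hq' y hy hyY, (h.env (Yb i1)).2 q hq y hy hyY⟩)
    (fun y hy => ⟨((h.qok.rqI (Yb i1) y).pt q' hq' y ((rr_nonneg _).trans hy) hy le_rfl).inR.abs,
      ((h.qok.rqI (Yb i1) y).pt q hq y ((rr_nonneg _).trans hy) hy le_rfl).inR.abs⟩)
    (fun y hy => ⟨h.sc.dec hq' hy, h.sc.dec hq hy⟩) hn
  have k1 := ((gap_iff h.sc hq n).1).1 hle
  have k2 := kap_dec h.sc hq hq' hlt htau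
  have k3 := mul_lt_mul_of_pos_right hnum he
  refine ((gap_iff h.sc hq' n).2).2 ?_
  have k4 := (abs_le.1 key).1
  linarith

end Pool.Agent.MP_39fec4_gt.K

end

section

set_option autoImplicit false

namespace Pool.Agent.MP_39fec4_gt.K

open Set MeasureTheory Full

namespace YBlockX

theorem rr_cX1 (a : ℕ) : rr (cX1 a) = r20 a := by
  have h : rr (a <<< 20) = rr a * 2 ^ 20 := rr_shl a 20
  have h2 : rr a * 2 ^ 20 = r20 a := by unfold rr r20; ring
  exact h.trans h2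

theorem r20_top : r20 1048576 = 1 := by rw [r20]; norm_num

theorem rr_eighth : rr (SS / 8) = 1 / 8 := by rw [rr, SS]; norm_num

theorem rr_316 : rr (3 * SS / 16) = 3 / 16 := by rw [rr, SS]; norm_num

theorem box_ok {G : ℕ → ℕ} (hG : GamOK G) {c : Cert} (hb : c.Base) {p : Cl} {N : ℕ} {plus : Bool}
    {xl xh ya yb : ℕ} (h1 : xl ≤ xh) (h2 : xh ≤ 1048576) (h3 : ya ≤ yb) (h4 : yb ≤ 1048576)
    (ok : c.tree G p N plus xl xh ya yb = true) :
    BoxOK c.B (c.cls p N plus) xl xh ya yb 0 (c.B.nv - 1) := by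
  have hn := hb.bok.sc.nv
  refine treeT_sound hG hb.bok hb.vv (c := c.cls p N plus) hb.ball p.t
    ⟨⟨h1, h2⟩, ⟨h3, h4⟩, ⟨Nat.zero_le _, by omega⟩⟩ ?_ ok
  intro q _ ι T x x1 xi _ _ _
  exact ⟨fun h => absurd h (lt_irrefl _), fun h => absurd h (lt_irrefl _)⟩

/-- The data of a point of the simplex that is not on an edge. -/
structure Dat {n : ℕ} (x : Fin n → ℝ) (i j m : Fin n) (xi : ℝ) : Prop where
  hx : Smp x
  nd : ¬IsDiag x
  ij : i ≠ j
  mx : ∀ k, x k ≤ x i
  mn : ∀ k, x m ≤ x k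
  pt : Pt ((Finset.univ.erase i).erase j) x (x i) xi
  e2 : xi * (1 - x i) = x j
  lo : 1 ≤ ((n : ℝ) - 1) * xi
  card : ((Finset.univ.erase i).erase j).card = n - 2

variable {n : ℕ} {x : Fin n → ℝ} {i j m : Fin n} {xi : ℝ}

theorem max_ge (hx : Smp x) (mx : ∀ k, x k ≤ x i) : 1 ≤ (n : ℝ) * x i := by
  have := Finset.sum_le_card_nsmul Finset.univ x (x i) fun k _ => mx k
  rw [hx.2, Finset.card_univ, Fintype.card_fin, nsmul_eq_mul] at this
  exact this

theorem min_le (hx : Smp x) (mn : ∀ k, x m ≤ x k) : (n : ℝ) * x m ≤ 1 := by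
  have := Finset.card_nsmul_le_sum Finset.univ x (x m) fun k _ => mn k
  rw [hx.2, Finset.card_univ, Fintype.card_fin, nsmul_eq_mul] at this
  exact this

theorem rest_le (hx : Smp x) (m : Fin n) {b : ℝ} (h : ∀ k, k ≠ m → x k ≤ b) :
    1 - x m ≤ ((n : ℝ) - 1) * b := by
  have h1 := Finset.sum_le_card_nsmul (Finset.univ.erase m) x b
    fun k hk => h k (Finset.ne_of_mem_erase hk)
  have h2 := Finset.add_sum_erase Finset.univ x (Finset.mem_univ m)
  have h3 : 1 ≤ n := m.pos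
  rw [Finset.card_erase_of_mem (Finset.mem_univ m), Finset.card_univ, Fintype.card_fin,
    nsmul_eq_mul, Nat.cast_sub h3, Nat.cast_one] at h1
  rw [hx.2] at h2
  linarith

theorem exists_dat (hn : 3 ≤ n) (hx : Smp x) (nd : ¬IsDiag x)
    (he : ∀ i j : Fin n, i ≠ j → x i + x j ≠ 1) : ∃ i j m xi, Dat x i j m xi := by
  have ne : (Finset.univ : Finset (Fin n)).Nonempty := ⟨⟨0, by omega⟩, Finset.mem_univ _⟩
  obtain ⟨i, -, hi⟩ := Finset.exists_max_image Finset.univ x ne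
  obtain ⟨m, -, hm⟩ := Finset.exists_min_image Finset.univ x ne
  have c1 : (Finset.univ.erase i).card = n - 1 := by
    rw [Finset.card_erase_of_mem (Finset.mem_univ i), Finset.card_univ, Fintype.card_fin]
  have ne2 : (Finset.univ.erase i).Nonempty := by
    rw [← Finset.card_pos]; omega
  obtain ⟨j, hj, hj2⟩ := Finset.exists_max_image _ x ne2
  have ij : i ≠ j := (Finset.ne_of_mem_erase hj).symm
  have mx : ∀ k, x k ≤ x i := fun k => hi k (Finset.mem_univ k)
  have s1 := Finset.add_sum_erase Finset.univ x (Finset.mem_univ i)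
  have s2 := Finset.add_sum_erase _ x hj
  rw [hx.2] at s1
  have s3 : 0 ≤ ∑ k ∈ (Finset.univ.erase i).erase j, x k := Finset.sum_nonneg fun k _ => hx.1 k
  have s4 : x i + x j < 1 := lt_of_le_of_ne (by linarith) (he i j ij)
  have xj := hx.1 j
  have d0 : 0 < 1 - x i := by linarith
  have e2 : x j / (1 - x i) * (1 - x i) = x j := div_mul_cancel₀ _ d0.ne'
  have p1 : 0 < x i := by
    have := max_ge hx mx
    by_contra h0
    have h1 : (n : ℝ) * x i ≤ 0 := mul_nonpos_of_nonneg_of_nonpos (Nat.cast_nonneg n) (not_lt.1 h0)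
    linarith
  refine ⟨i, j, m, x j / (1 - x i), hx, nd, ij, mx, fun k => hm k (Finset.mem_univ k),
    ⟨p1, by linarith, div_nonneg xj d0.le, (div_lt_one d0).2 (by linarith), by rw [e2]; exact mx j,
      by rw [sub_mul, e2]; linarith, fun k hk => ⟨hx.1 k, ?_⟩⟩, e2, ?_, ?_⟩
  · rw [e2]; exact hj2 k (Finset.mem_of_mem_erase hk)
  · have := rest_le hx i (b := x j) fun k hk => hj2 k (Finset.mem_erase.2 ⟨hk, Finset.mem_univ k⟩)
    rw [← mul_div_assoc, le_div_iff₀ d0]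
    linarith
  · rw [Finset.card_erase_of_mem hj, c1]; omega

theorem use_box {B : Blk} (hs : ScalOK B) {q : ℝ} (hq : q ∈ B.I) (hn : 3 ≤ n) (d : Dat x i j m xi)
    {c : Cls} {xl xh ya yb : ℕ} (hb : BoxOK B c xl xh ya yb 0 (B.nv - 1))
    (hc : Cd c ((Finset.univ.erase i).erase j) (x i) xi) (hx : Box xl xh ya yb (x i) xi) :
    IG (B.g 0 q) Finset.univ x < max (DG (B.g 0 q) n) (kap B.C q) := by
  have hq' : q ∈ Icc (B.q 0) (B.q (B.nv - 1)) := by
    rw [hs.q_ends.1, hs.q_ends.2]; exact hq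
  have := hb q hq' _ _ x (x i) xi d.pt hc hx
  rw [d.e2, d.card, show n - 2 + 2 = n by omega] at this
  rw [IG_eq_IX _ x d.ij]
  exact this

theorem nd_ex (nd : ¬IsDiag x) :
    ∃ k ∈ (Finset.univ : Finset (Fin n)), x k ≠ 1 / ((Finset.univ : Finset (Fin n)).card : ℝ) := by
  rw [Finset.card_univ, Fintype.card_fin]
  by_contra h
  exact nd fun k => by_contra fun hk => h ⟨k, Finset.mem_univ k, hk⟩

theorem small {G : ℕ → ℕ} (hG : GamOK G) {c : Cert} (hb : c.Base) {q : ℝ} (hq : q ∈ c.B.I)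
    (hn : 3 ≤ n) (d : Dat x i j m xi) {e : Ex} (ht : c.exT G e n = true)
    (hN : c.exN G e n = true) :
    IG (c.B.g 0 q) Finset.univ x < max (DG (c.B.g 0 q) n) (kap c.B.C q) := by
  have n3 : (3 : ℝ) ≤ n := by exact_mod_cast hn
  have n0 : (0 : ℝ) < n := by linarith
  have hM := max_ge d.hx d.mx
  have hm := min_le d.hx d.mn
  have l1 := d.pt.l1
  by_cases hx : r20 e.xl ≤ x i
  · have hl : e.xl ≤ 1048576 := by
      have h1 : (e.xl : ℝ) / 2 ^ 20 ≤ 1 := le_trans hx l1.le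
      rw [div_le_one (by positivity)] at h1
      have h2 : (e.xl : ℝ) ≤ ((1048576 : ℕ) : ℝ) := by push_cast; linarith
      exact_mod_cast h2
    refine use_box hb.bok.sc hq hn d
      (box_ok hG hb hl le_rfl (Nat.div_le_self _ _) le_rfl ht)
      ⟨hn, fun _ => d.card, fun h => absurd h Bool.false_ne_true⟩
      ⟨⟨hx, by rw [r20_top]; exact l1.le⟩, ?_, by rw [r20_top]; exact d.pt.l2.le⟩
    have h1 : ((1048576 / (n - 1) : ℕ) : ℝ) ≤ ((1048576 : ℕ) : ℝ) / ((n - 1 : ℕ) : ℝ) :=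
      Nat.cast_div_le
    rw [Nat.cast_sub (by omega : 1 ≤ n), Nat.cast_one, le_div_iff₀ (by linarith)] at h1
    rw [r20, div_le_iff₀ (by positivity)]
    have h2 := d.lo
    push_cast at h1
    have h3 : (0 : ℝ) < (n : ℝ) - 1 := by linarith
    refine le_of_mul_le_mul_right ?_ h3
    nlinarith
  · have hx' := not_le.1 hx
    rw [Cert.exN, Bool.and_eq_true] at hN
    have h2 := hN.2
    cases hu : e.n.use
    · rw [hu, cond_false, Nat.ble_eq] at h2
      have h3 : (e.xl : ℝ) * n ≤ ((1048576 : ℕ) : ℝ) := by exact_mod_cast h2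
      rw [r20, lt_div_iff₀ (by positivity)] at hx'
      push_cast at h3
      nlinarith
    · rw [hu, cond_true] at h2
      have cd : (Finset.univ : Finset (Fin n)).card = n := by
        rw [Finset.card_univ, Fintype.card_fin]
      have ee : ∀ k, x k * ((Finset.univ : Finset (Fin n)).card : ℝ) / n = x k := fun k => by
        rw [cd, mul_div_assoc, div_self n0.ne', mul_one]
      have := nearT_sound hb.bok hb.ends _ h2 q hq _ Finset.univ x
        ⟨fun _ => ⟨by omega, cd⟩, fun h => absurd h Bool.false_ne_true, d.hx.2, nd_ex d.nd,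
          ⟨m, Finset.mem_univ m, fun k _ => d.mn k, ?_, ?_⟩,
          ⟨i, Finset.mem_univ i, fun k _ => d.mx k, ?_, ?_⟩⟩
      · rw [cd] at this
        exact this.trans_le (le_max_left _ _)
      · rw [ee, rr_sub_eq, rr_SS, rr_nmul, rr_cX1, Nat.cast_sub (by omega : 1 ≤ n), Nat.cast_one]
        refine max_le ?_ (d.hx.1 m)
        have := rest_le d.hx m (b := r20 e.xl) fun k _ => (d.mx k).trans hx'.le
        linarith
      · rw [ee]
        have h4 := rr_div_lt SS (k := n) (by omega)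
        rw [rr_SS] at h4
        refine le_trans ?_ h4.le
        rw [le_div_iff₀ n0]; linarith
      · rw [ee]
        have h4 := rr_div_le SS n
        rw [rr_SS] at h4
        refine h4.trans ?_
        rw [div_le_iff₀ n0]; linarith
      · rw [ee, rr_cX1]; exact hx'.le

theorem cd_plus {c : Cert} {p : Cl} {N : ℕ} (d : Dat x i j m xi) (h3 : 3 ≤ N) (hN : N ≤ n)
    (h : 2 ≤ (N : ℝ) * (x i + xi * (1 - x i))) :
    Cd (c.cls p N true) ((Finset.univ.erase i).erase j) (x i) xi :=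
  ⟨h3, fun h => absurd h.symm Bool.false_ne_true,
    fun _ => ⟨by rw [d.card]; exact Nat.sub_le_sub_right hN 2, h⟩⟩

theorem large {G : ℕ → ℕ} (hG : GamOK G) {c : Cert} (h : c.OK G) {q : ℝ} (hq : q ∈ c.B.I)
    (hn : 8 ≤ n) (d : Dat x i j m xi) :
    IG (c.B.g 0 q) Finset.univ x < max (DG (c.B.g 0 q) n) (kap c.B.C q) := by
  have hb := h.base hG
  have n8 : (8 : ℝ) ≤ n := by exact_mod_cast hn
  have hM := max_ge d.hx d.mx
  have hm := min_le d.hx d.mn
  have l1 := d.pt.l1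
  have l2 := d.pt.l2
  have p2 := d.pt.p2
  have cd : (Finset.univ : Finset (Fin n)).card = n := by
    rw [Finset.card_univ, Fintype.card_fin]
  have bg := h.bg
  rw [Cert.big, Bool.and_eq_true, Bool.and_eq_true] at bg
  by_cases h1 : 2 * (n : ℝ) * x i ≤ 3
  · have := nearT_sound hb.bok hb.ends _ bg.1.1 q hq _ Finset.univ x
      ⟨fun h => absurd h.symm Bool.false_ne_true, fun _ => ⟨le_rfl, by omega⟩, d.hx.2, nd_ex d.nd,
        ⟨m, Finset.mem_univ m, fun k _ => d.mn k, ?_, ?_⟩,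
        ⟨i, Finset.mem_univ i, fun k _ => d.mx k, ?_, ?_⟩⟩
    · rw [cd] at this
      exact this.trans_le (le_max_left _ _)
    · rw [rr_zero]
      exact div_nonneg (mul_nonneg (d.hx.1 m) (Nat.cast_nonneg _)) (Nat.cast_nonneg _)
    · rw [rr_eighth, cd]; push_cast; linarith
    · rw [rr_eighth, cd]; push_cast; linarith
    · rw [rr_316, cd]; push_cast; linarith
  have h1' := not_le.1 h1
  by_cases h2 : x i ≤ r20 157286
  · have := farChk_sound hb.bok bg.1.2 hq (T := Finset.univ) (x := x) (fun k _ => d.hx.1 k) d.hx.2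
      (Finset.mem_univ i) (fun k _ => d.mx k) (by rw [rr_cX1]; exact h2) (by rw [cd]; exact h1')
    rw [cd] at this
    exact this.trans_le (le_max_left _ _)
  have h2' := (not_le.1 h2).le
  have t1 : x i ≤ r20 1048576 := by rw [r20_top]; exact l1.le
  have t2 : xi ≤ r20 1048576 := by rw [r20_top]; exact l2.le
  have v1 : (0.1499 : ℝ) ≤ x i := le_trans (by rw [r20]; norm_num) h2'
  have w0 : 0 ≤ xi * (1 - x i) := mul_nonneg p2 (by linarith)
  by_cases h3 : xi ≤ r20 83886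
  · have n14 : 14 ≤ n := by
      by_contra hh
      have a1 : (n : ℝ) ≤ 13 := by exact_mod_cast (by omega : n ≤ 13)
      have a2 := d.lo
      have a3 : xi ≤ 0.08 := h3.trans (by rw [r20]; norm_num)
      nlinarith
    refine use_box hb.bok.sc hq (by omega) d
      (box_ok hG hb (by norm_num) le_rfl (by norm_num) (by norm_num) h.p14)
      (cd_plus d (by norm_num) n14 (by push_cast; linarith))
      ⟨⟨h2', t1⟩, by rw [r20]; simpa using p2, h3⟩
  have h3' := (not_le.1 h3).le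
  have v2 : (0.0799 : ℝ) ≤ xi := le_trans (by rw [r20]; norm_num) h3'
  have w1 : 0.0799 * (1 - x i) ≤ xi * (1 - x i) := mul_le_mul_of_nonneg_right v2 (by linarith)
  by_cases h4 : r20 196608 ≤ x i
  · have v3 : (0.1875 : ℝ) ≤ x i := le_trans (by rw [r20]; norm_num) h4
    exact use_box hb.bok.sc hq (by omega) d
      (box_ok hG hb (by norm_num) le_rfl (by norm_num) le_rfl h.p8)
      (cd_plus d (by norm_num) hn (by push_cast; linarith)) ⟨⟨h4, t1⟩, h3', t2⟩
  have h4' := not_le.1 h4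
  have p1 := d.pt.p1
  have n9 : 9 ≤ n := by
    by_contra hh
    have a1 : (n : ℝ) ≤ 8 := by exact_mod_cast (by omega : n ≤ 8)
    have a3 : x i ≤ 0.1875 := h4'.le.trans (by rw [r20]; norm_num)
    nlinarith
  by_cases h5 : r20 174762 ≤ x i
  · have v3 : (0.1666 : ℝ) ≤ x i := le_trans (by rw [r20]; norm_num) h5
    exact use_box hb.bok.sc hq (by omega) d
      (box_ok hG hb (by norm_num) (by norm_num) (by norm_num) le_rfl h.p9)
      (cd_plus d (by norm_num) n9 (by push_cast; linarith)) ⟨⟨h5, h4'.le⟩, h3', t2⟩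
  have h5' := not_le.1 h5
  have n10 : 10 ≤ n := by
    by_contra hh
    have a1 : (n : ℝ) ≤ 9 := by exact_mod_cast (by omega : n ≤ 9)
    have a3 : x i ≤ 1 / 6 := h5'.le.trans (by rw [r20]; norm_num)
    nlinarith
  exact use_box hb.bok.sc hq (by omega) d
    (box_ok hG hb (by norm_num) (by norm_num) (by norm_num) le_rfl h.p10)
    (cd_plus d (by norm_num) n10 (by push_cast; linarith)) ⟨⟨h2', h5'.le⟩, h3', t2⟩

theorem cross_small {G : ℕ → ℕ} (hG : GamOK G) {c : Cert} (hb : c.Base) {e : Ex} {N : ℕ}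
    (hN : c.exN G e N = true) : Cross N c.B.qa c.B.qb := by
  rw [Cert.exN, Bool.and_eq_true] at hN
  exact (crossChk_sound hG hb.bok hb.vv hN.1).1

end YBlockX

open YBlockX

theorem Cert.OK.core {G : ℕ → ℕ} (hG : GamOK G) {c : Cert} (h : c.OK G) {q : ℝ}
    (hq : q ∈ c.B.I) : Core (1 / q) := by
  intro n hn x hx nd nb
  have hb := h.base hG
  have hs := hb.bok.sc
  obtain ⟨q0, q1⟩ := hs.q_pos hq
  have hC := hs.C_pos
  by_cases he : ∀ i j : Fin n, i ≠ j → x i + x j ≠ 1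
  · obtain ⟨i, j, m, xi, d⟩ := exists_dat hn hx nd he
    have key : IG (c.B.g 0 q) Finset.univ x < max (DG (c.B.g 0 q) n) (kap c.B.C q) := by
      by_cases h8 : 8 ≤ n
      · exact large hG h hq h8 d
      have : n = 3 ∨ n = 4 ∨ n = 5 ∨ n = 6 ∨ n = 7 := by omega
      rcases this with rfl | rfl | rfl | rfl | rfl
      · exact small hG hb hq hn d h.t3 h.n3
      · exact small hG hb hq hn d h.t4 h.n4
      · exact small hG hb hq hn d h.t5 h.n5
      · exact small hG hb hq hn d h.t6 h.n6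
      · exact small hG hb hq hn d h.t7 h.n7
    have hm := FLinkX.mu_pos' hC q0
    rw [II_eq_IG hC q0 q1 x hx.1, Dg_eq_DG hC q0 q1, Bl_eq_kap hC q0,
      ← mul_max_of_nonneg _ _ hm.le]
    exact mul_lt_mul_of_pos_left key hm
  · simp only [not_forall, not_not] at he
    obtain ⟨i, j, ij, hs1⟩ := he
    refine (two_lt_of_sum (FLinkX.two_lt_inv q0 q1) hx ij hs1 fun h2 => nb ⟨i, j, ij, h2, ?_⟩).trans_le
      (le_max_right _ _)
    linarith

theorem Cert.OK.rng {G : ℕ → ℕ} (hG : GamOK G) {c : Cert} (h : c.OK G) :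
    Rng c.B.m0 c.B.m9 := by
  have hb := h.base hG
  refine ⟨fun q h1 h2 => h.core hG ⟨h1, h2⟩, fun n hn => ?_⟩
  change Cross n c.B.qa c.B.qb
  by_cases h8 : 8 ≤ n
  · have bg := h.bg
    rw [Cert.big, Bool.and_eq_true] at bg
    have h3 := bg.2
    cases hi : c.inc
    · rw [hi, cond_false] at h3
      have hp := (crossChk_sound hG hb.bok hb.vv h3).2 rfl
      intro q q' ha hlt hq' _
      have hI : q' ∈ c.B.I := ⟨ha.trans hlt.le, hq'⟩
      obtain ⟨q0, q1⟩ := hb.bok.sc.q_pos hI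
      exact pos_of_core (FLinkX.two_lt_inv q0 q1) (h.core hG hI) (N := 8) (by norm_num) h8 (hp q' hI)
    · rw [hi, cond_true] at h3
      exact incChk_sound hb.bok hb.mk1 hb.mk0 h3 h8
  have : n = 3 ∨ n = 4 ∨ n = 5 ∨ n = 6 ∨ n = 7 := by omega
  rcases this with rfl | rfl | rfl | rfl | rfl
  · exact cross_small hG hb h.n3
  · exact cross_small hG hb h.n4
  · exact cross_small hG hb h.n5
  · exact cross_small hG hb h.n6
  · exact cross_small hG hb h.n7

theorem Rng.trans {a b b' c : ℕ} (h1 : Rng a b) (h2 : Rng b' c) (h : b' ≤ b) : Rng a c := by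
  have hb : (b' : ℝ) / 4096 ≤ (b : ℝ) / 4096 := by
    have : (b' : ℝ) ≤ b := by exact_mod_cast h
    linarith
  refine ⟨fun q ha hc => ?_, fun n hn q q' ha hlt hc hh => ?_⟩
  · rcases le_total q ((b : ℝ) / 4096) with hq | hq
    · exact h1.1 q ha hq
    · exact h2.1 q (hb.trans hq) hc
  · rcases le_or_gt q' ((b : ℝ) / 4096) with hq | hq
    · exact h1.2 n hn q q' ha hlt hq hh
    rcases le_or_gt ((b' : ℝ) / 4096) q with hr | hr
    · exact h2.2 n hn q q' hr hlt hc hh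
    exact h2.2 n hn _ q' hb hq hc (h1.2 n hn q _ ha (hr.trans_le hb) le_rfl hh).le

end Pool.Agent.MP_39fec4_gt.K

end
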