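import Pool.Agent.Mg.F39fec4.Gc7ae94
import Pool.Agent.Mg.F39fec4.Gd9ea00
import Pool.Agent.Mg.F39fec4.G1d9b53
import Pool.Agent.Mg.F39fec4.Gfeb7cc
import Pool.Agent.Mg.F39fec4.Gd31817
import Pool.Agent.Mg.F39fec4.G756aff
import Pool.Agent.Mg.F39fec4.G8029d0
import Pool.Agent.Mg.F39fec4.Gb3edcd
import Pool.Agent.Mg.F39fec4.G6e1e4e
import Pool.Agent.Mg.F39fec4.G2e0a19
import Pool.Agent.Mg.F39fec4.G6bc87f
import Pool.Agent.Mg.F39fec4.Ge01b65
import Pool.Agent.Mg.F39fec4.G30fb29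
import Pool.Agent.Mg.F39fec4.Gb717d0
import Pool.Agent.Mg.F39fec4.G21f02f
import Pool.Agent.Mg.F39fec4.G53dea8
import Pool.Agent.Mg.F39fec4.G61c6b1
import Pool.Agent.Mg.F39fec4.G99a479
import Pool.Agent.Mg.F39fec4.Gef3640
import Pool.Agent.Mg.F39fec4.G72b375

section

set_option autoImplicit false

/-! From the primitive checks to the statement about a block. -/

namespace Pool.Agent.MP_39fec4_gt.R

theorem ok_of {G : ℕ → ℕ} {c : K.Cert} (a : OKa G c) (b : OKb G c) (d : OKc G c) : c.OK G := by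
  obtain ⟨a1, a2, a3, a4, a5⟩ := a
  obtain ⟨b1, b2, b3, b4, b5, b6⟩ := b
  obtain ⟨d1, d2, d3, d4, d5, d6, d7, d8⟩ := d
  rewrite [scalChk_eq] at a1
  rewrite [Cert_vt_eq] at a2
  rewrite [Cert_cells_eq] at a3
  rewrite [ballChk_eq, Cert_Q_eq, Cert_Ef_eq, Cert_Va_eq, Cert_Vb_eq] at a4
  rewrite [Cert_big_eq] at a5
  rewrite [Cert_exT_eq] at b1 b2 b3 d1 d2
  rewrite [Cert_exN_eq] at b4 b5 b6 d3 d4
  rewrite [Cert_tree_eq] at d5 d6 d7 d8
  exact ⟨a1, a2, a3, a4, b1, b2, b3, d1, d2, b4, b5, b6, d3, d4, d5, d6, d7, d8, a5⟩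

theorem gam_of {l : List ℕ} (h : ∀ c, c < 16 → gamChkA c (nth l c) = true) :
    K.GamOK (gamGet l) := by
  rewrite [gamChkA_eq, nth_eq] at h
  rewrite [gamGet_eq]
  exact K.gamOK_of fun c hc => K.gamChkA_sound (h c hc)

theorem rng_of {G : ℕ → ℕ} (hG : K.GamOK G) {c : K.Cert} (a : OKa G c) (b : OKb G c)
    (d : OKc G c) {m m' : ℕ} (h : Nat.beq c.B.m0 m = true) (h' : Nat.beq c.B.m9 m' = true) :
    K.Rng m m' := by
  rewrite [← Nat.eq_of_beq_eq_true h, ← Nat.eq_of_beq_eq_true h']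
  exact (ok_of a b d).rng hG

end Pool.Agent.MP_39fec4_gt.R

end

section

set_option autoImplicit false
set_option maxRecDepth 100000

namespace Pool.Agent.MP_39fec4_gt.K

theorem b06a : R.OKa gamF b06 :=
  ⟨by decide +kernel,
    by decide +kernel,
    by decide +kernel,
    by decide +kernel,
    by decide +kernel⟩

end Pool.Agent.MP_39fec4_gt.K

end

section

set_option autoImplicit false
set_option maxRecDepth 100000

namespace Pool.Agent.MP_39fec4_gt.K

theorem b13a : R.OKa gamF b13 :=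
  ⟨by decide +kernel,
    by decide +kernel,
    by decide +kernel,
    by decide +kernel,
    by decide +kernel⟩

end Pool.Agent.MP_39fec4_gt.K

end

section

set_option autoImplicit false
set_option maxRecDepth 100000

namespace Pool.Agent.MP_39fec4_gt.K

theorem b14a : R.OKa gamF b14 :=
  ⟨by decide +kernel,
    by decide +kernel,
    by decide +kernel,
    by decide +kernel,
    by decide +kernel⟩

end Pool.Agent.MP_39fec4_gt.K

end

section

set_option autoImplicit false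
set_option maxRecDepth 100000

namespace Pool.Agent.MP_39fec4_gt.K

theorem b15a : R.OKa gamF b15 :=
  ⟨by decide +kernel,
    by decide +kernel,
    by decide +kernel,
    by decide +kernel,
    by decide +kernel⟩

end Pool.Agent.MP_39fec4_gt.K

end

section

set_option autoImplicit false
set_option maxRecDepth 100000

namespace Pool.Agent.MP_39fec4_gt.K

theorem gamC : ∀ c, c < 16 → R.gamChkA c (R.nth gamL c) = true
  | 0, _ => gamC0
  | 1, _ => gamC1
  | 2, _ => gamC2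
  | 3, _ => gamC3
  | 4, _ => gamC4
  | 5, _ => gamC5
  | 6, _ => gamC6
  | 7, _ => gamC7
  | 8, _ => gamC8
  | 9, _ => gamC9
  | 10, _ => gamC10
  | 11, _ => gamC11
  | 12, _ => gamC12
  | 13, _ => gamC13
  | 14, _ => gamC14
  | 15, _ => gamC15
  | n + 16, h => absurd h (Nat.not_lt.2 (Nat.le_add_left 16 n))

theorem gamG : GamOK gamF := R.gam_of gamC

theorem b01r : Rng 155 195 :=
  R.rng_of gamG b01a b01b b01c (by decide +kernel) (by decide +kernel)

theorem b02r : Rng 195 235 :=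
  R.rng_of gamG b02a b02b b02c (by decide +kernel) (by decide +kernel)

theorem b03r : Rng 232 296 :=
  R.rng_of gamG b03a b03b b03c (by decide +kernel) (by decide +kernel)

theorem b04r : Rng 296 360 :=
  R.rng_of gamG b04a b04b b04c (by decide +kernel) (by decide +kernel)

theorem b05r : Rng 360 440 :=
  R.rng_of gamG b05a b05b b05c (by decide +kernel) (by decide +kernel)

theorem b06r : Rng 440 520 :=
  R.rng_of gamG b06a b06b b06c (by decide +kernel) (by decide +kernel)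

theorem b07r : Rng 520 600 :=
  R.rng_of gamG b07a b07b b07c (by decide +kernel) (by decide +kernel)

theorem b08r : Rng 600 680 :=
  R.rng_of gamG b08a b08b b08c (by decide +kernel) (by decide +kernel)

theorem b09r : Rng 680 744 :=
  R.rng_of gamG b09a b09b b09c (by decide +kernel) (by decide +kernel)

theorem b10r : Rng 744 808 :=
  R.rng_of gamG b10a b10b b10c (by decide +kernel) (by decide +kernel)

theorem b11r : Rng 808 856 :=
  R.rng_of gamG b11a b11b b11c (by decide +kernel) (by decide +kernel)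

theorem b12r : Rng 856 936 :=
  R.rng_of gamG b12a b12b b12c (by decide +kernel) (by decide +kernel)

theorem b13r : Rng 936 1048 :=
  R.rng_of gamG b13a b13b b13c (by decide +kernel) (by decide +kernel)

theorem b14r : Rng 1048 1184 :=
  R.rng_of gamG b14a b14b b14c (by decide +kernel) (by decide +kernel)

theorem b15r : Rng 1184 1344 :=
  R.rng_of gamG b15a b15b b15c (by decide +kernel) (by decide +kernel)

theorem b16r : Rng 1344 1520 :=
  R.rng_of gamG b16a b16b b16c (by decide +kernel) (by decide +kernel)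

theorem b17r : Rng 1520 1712 :=
  R.rng_of gamG b17a b17b b17c (by decide +kernel) (by decide +kernel)

theorem rngAll : Rng 155 1712 :=
  ((((((((((((((((b01r.trans b02r (by norm_num)).trans b03r (by norm_num)).trans b04r (by
    norm_num)).trans b05r (by norm_num)).trans b06r (by norm_num)).trans b07r (by
    norm_num)).trans b08r (by norm_num)).trans b09r (by norm_num)).trans b10r (by
    norm_num)).trans b11r (by norm_num)).trans b12r (by norm_num)).trans b13r (by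
    norm_num)).trans b14r (by norm_num)).trans b15r (by norm_num)).trans b16r (by
    norm_num)).trans b17r (by norm_num))

end Pool.Agent.MP_39fec4_gt.K

end

section

set_option autoImplicit false

namespace Pool.Agent.MP_39fec4_gt.Full

open MeasureTheory Set Real Ball P4

/-- The statement about exponents close to two. -/
def RegS (P : ℝ) : Prop := ∀ p : ℝ, 2 < p → p ≤ P → ∀ n : ℕ, 2 ≤ n → ∀ x : Fin n → ℝ, Smp x →
  ¬IsDiag x → II p x < Dg p n

namespace FFinalX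

theorem JJ_eq (p : ℝ) {n : ℕ} (a : EuclideanSpace ℝ (Fin n)) :
    JJ p a = II p fun j => |a j| ^ 2 := by
  simp only [JJ, II, Real.sqrt_sq (abs_nonneg _)]

theorem smp {n : ℕ} {a : EuclideanSpace ℝ (Fin n)} (ha : ‖a‖ = 1) : Smp fun j => |a j| ^ 2 :=
  ⟨fun _ => sq_nonneg _, sum_sq ha⟩

theorem diag_iff {n : ℕ} (a : EuclideanSpace ℝ (Fin n)) :
    (∀ j, |a j| = 1 / √n) ↔ IsDiag fun j => |a j| ^ 2 := by
  refine forall_congr' fun j => ?_
  rw [← sq_eq_sq₀ (abs_nonneg _) (by positivity), div_pow, Real.sq_sqrt (by positivity), one_pow]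

theorem ball_iff {n : ℕ} (a : EuclideanSpace ℝ (Fin n)) :
    (∃ i j, i ≠ j ∧ |a i| = 1 / √2 ∧ |a j| = 1 / √2) ↔ IsBall fun j => |a j| ^ 2 := by
  simp only [abs_eq_iff, IsBall]

theorem exists_diag' {n : ℕ} (hn : 2 ≤ n) : ∃ d : EuclideanSpace ℝ (Fin n), ‖d‖ = 1 ∧
    ∀ j, |d j| = 1 / √n := by
  have h0 : (0 : ℝ) < n := by exact_mod_cast (by omega : 0 < n)
  have c0 : 0 < 1 / √(n : ℝ) := by positivity
  have c2 : (1 / √(n : ℝ)) ^ 2 = 1 / (n : ℝ) := by rw [div_pow, Real.sq_sqrt h0.le, one_pow]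
  refine ⟨WithLp.toLp 2 fun _ => 1 / √(n : ℝ), ?_, fun j => abs_of_pos c0⟩
  rw [← sq_eq_sq₀ (norm_nonneg _) zero_le_one, EuclideanSpace.real_norm_sq_eq]
  simp only [c2, Finset.sum_const, Finset.card_univ, Fintype.card_fin, nsmul_eq_mul]
  field_simp

theorem glue {p : ℝ} (hp : 2 < p) {n : ℕ} (hn : 2 ≤ n)
    (hc : ∀ x : Fin n → ℝ, Smp x → ¬IsDiag x → ¬IsBall x → II p x < max (Dg p n) (Bl p))
    (a : EuclideanSpace ℝ (Fin n)) (ha : ‖a‖ = 1) :
    (∀ b : EuclideanSpace ℝ (Fin n), ‖b‖ = 1 → sectionVol p b ≤ sectionVol p a) ↔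
      (Bl p ≤ Dg p n ∧ IsDiag fun j => |a j| ^ 2) ∨
        (Dg p n ≤ Bl p ∧ IsBall fun j => |a j| ^ 2) := by
  have hle : ∀ b : EuclideanSpace ℝ (Fin n), ‖b‖ = 1 → JJ p b ≤ max (Dg p n) (Bl p) := by
    intro b hb
    rw [JJ_eq]
    by_cases h₁ : IsDiag fun j => |b j| ^ 2
    · rw [II_diag h₁]; exact le_max_left _ _
    by_cases h₂ : IsBall fun j => |b j| ^ 2
    · rw [II_ball hp (smp hb) h₂]; exact le_max_right _ _
    exact (hc _ (smp hb) h₁ h₂).le
  constructor
  · intro h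
    obtain ⟨d, hd, hd'⟩ := exists_diag' hn
    obtain ⟨e, he, he'⟩ := exists_ball hn
    have h₁ := (vol_le_iff hp hn ha hd).1 (h d hd)
    have h₂ := (vol_le_iff hp hn ha he).1 (h e he)
    rw [JJ_eq p d, II_diag ((diag_iff d).1 hd'), JJ_eq] at h₁
    rw [JJ_eq p e, II_ball hp (smp he) ((ball_iff e).1 he'), JJ_eq] at h₂
    by_cases h₃ : IsDiag fun j => |a j| ^ 2
    · exact Or.inl ⟨by rwa [II_diag h₃] at h₂, h₃⟩
    by_cases h₄ : IsBall fun j => |a j| ^ 2
    · exact Or.inr ⟨by rwa [II_ball hp (smp ha) h₄] at h₁, h₄⟩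
    exact absurd (hc _ (smp ha) h₃ h₄) (not_lt.2 (max_le h₁ h₂))
  · intro h b hb
    rw [vol_le_iff hp hn ha hb]
    refine (hle b hb).trans ?_
    rw [JJ_eq]
    rcases h with ⟨h₁, h₂⟩ | ⟨h₁, h₂⟩
    · rw [II_diag h₂]; exact max_le le_rfl h₁
    · rw [II_ball hp (smp ha) h₂]; exact max_le h₁ le_rfl

theorem diag_two {x : Fin 2 → ℝ} : IsDiag x ↔ IsBall x := by
  constructor
  · intro h
    exact ⟨0, 1, by decide, by simpa using h 0, by simpa using h 1⟩
  · rintro ⟨i, j, hij, hi, hj⟩ k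
    have : k = i ∨ k = j := by omega
    rcases this with rfl | rfl
    · simpa using hi
    · simpa using hj

theorem pos_small {P : ℝ} (hS : RegS P) {p : ℝ} (hp : 2 < p) (hp' : p ≤ P) {n : ℕ} (hn : 3 ≤ n) :
    Bl p < Dg p n := by
  obtain ⟨e, he, he'⟩ := exists_ball (n := n) (by omega)
  have hb := (ball_iff e).1 he'
  rw [← II_ball hp (smp he) hb]
  refine hS p hp hp' n (by omega) _ (smp he) fun hd => ?_
  obtain ⟨i, -, -, hi, -⟩ := hb
  have h₁ := hd i
  rw [hi] at h₁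
  have h₂ : (3 : ℝ) ≤ n := by exact_mod_cast hn
  field_simp at h₁
  linarith

end FFinalX

open FFinalX in
/-- Gluing the three ranges of the exponent. -/
theorem final {a b P : ℝ} (ha : 0 < a) (ha' : a ≤ 1 / 26.27) (hb : 1 / P ≤ b) (hb' : b < 1 / 2)
    (hP : 2 < P) (hS : RegS P) (hcore : ∀ q, a ≤ q → q ≤ b → Core (1 / q))
    (hcross : ∀ n, 3 ≤ n → Cross n a b) :
    ∀ n : ℕ, 2 ≤ n → ∃ pn : ℝ, 2 < pn ∧ pn < 26.27 ∧ ∀ p : ℝ, 2 < p →
      ∀ a : EuclideanSpace ℝ (Fin n), ‖a‖ = 1 →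
        ((∀ b : EuclideanSpace ℝ (Fin n), ‖b‖ = 1 → sectionVol p b ≤ sectionVol p a) ↔
          (p ≤ pn ∧ ∀ j, |a j| = 1 / √n) ∨
            (pn ≤ p ∧ ∃ i j, i ≠ j ∧ |a i| = 1 / √2 ∧ |a j| = 1 / √2)) := by
  intro n hn
  have P0 : 0 < P := by linarith
  have b0 : 0 < b := lt_of_lt_of_le (by positivity) hb
  rcases hn.eq_or_lt with rfl | hn3
  · refine ⟨3, by norm_num, by norm_num, fun p hp x hx => ?_⟩
    have e : Dg p 2 = Bl p := by
      obtain ⟨e, he, he'⟩ := exists_ball (n := 2) le_rfl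
      have hb := (ball_iff e).1 he'
      rw [← II_ball hp (smp he) hb, II_diag (diag_two.2 hb)]
    rw [glue hp le_rfl (fun y hy h₁ _ => ?_) x hx, diag_iff, ball_iff, ← diag_two, e]
    · simp only [le_refl, true_and, or_self, ← or_and_right, le_total]
    · have hs : y 0 + y 1 = 1 := by simpa using hy.2
      refine (two_lt_of_sum hp hy (i := 0) (j := 1) (by decide) hs fun h0 => h₁ ?_).trans_le
        (le_max_right _ _)
      exact diag_two.2 ⟨0, 1, by decide, h0, by linarith⟩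
  have hn3 : 3 ≤ n := hn3
  have neg : ∀ q, 0 < q → q ≤ 1 / 26.27 → Dg (1 / q) n < Bl (1 / q) := fun q h₁ h₂ =>
    neg_large (by rwa [le_one_div (by norm_num) h₁]) hn3
  have pos : ∀ q, 1 / P ≤ q → q < 1 / 2 → Bl (1 / q) < Dg (1 / q) n := fun q h₁ h₂ => by
    have q0 : 0 < q := lt_of_lt_of_le (by positivity) h₁
    exact pos_small hS (by rwa [lt_one_div (by norm_num) q0]) (by rwa [one_div_le q0 P0]) hn3
  have hab : a ≤ b := by
    by_contra h
    exact absurd (pos b hb hb') (not_lt.2 (neg b b0 (by linarith [not_le.1 h])).le)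
  obtain ⟨r, ⟨r₁, r₂⟩, hr⟩ := intermediate_value_Icc hab
    ((cont_gap hn).mono fun q hq => ⟨lt_of_lt_of_le ha hq.1, lt_of_le_of_lt hq.2 hb'⟩)
    (show (0 : ℝ) ∈ Icc _ _ from ⟨by linarith [neg a ha ha'], by linarith [pos b hb hb']⟩)
  have hr' : Dg (1 / r) n = Bl (1 / r) := sub_eq_zero.1 hr
  have r0 : 0 < r := lt_of_lt_of_le ha r₁
  have left : ∀ q, 0 < q → q < r → Dg (1 / q) n < Bl (1 / q) := fun q h₁ h₂ => by
    rcases le_or_gt a q with h | h
    · exact not_le.1 fun h₃ => absurd (hcross n hn3 q r h h₂ r₂ h₃) (not_lt.2 hr'.le)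
    · exact neg q h₁ (by linarith)
  have right : ∀ q, r < q → q < 1 / 2 → Bl (1 / q) < Dg (1 / q) n := fun q h₁ h₂ => by
    rcases le_or_gt q b with h | h
    · exact hcross n hn3 r q r₁ h₁ h hr'.ge
    · exact pos q (by linarith) h₂
  refine ⟨1 / r, by rw [lt_one_div (by norm_num) r0]; linarith, ?_, fun p hp x hx => ?_⟩
  · rw [one_div_lt r0 (by norm_num)]
    exact not_le.1 fun h => absurd (neg r r0 h) (not_lt.2 hr'.ge)
  have p0 : 0 < p := by linarith
  have q0 : 0 < 1 / p := by positivity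
  have q2 : 1 / p < 1 / 2 := one_div_lt_one_div_of_lt (by norm_num) hp
  have core : Core p := by
    rcases le_or_gt a (1 / p) with h₁ | h₁
    · rcases le_or_gt (1 / p) b with h₂ | h₂
      · simpa only [one_div_one_div] using hcore _ h₁ h₂
      · intro m hm y hy h₃ _
        refine (hS p hp ?_ m (by omega) y hy h₃).trans_le (le_max_left _ _)
        exact le_of_one_div_le_one_div P0 (by linarith)
    · exact core_large (le_of_one_div_le_one_div p0 (by linarith))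
  have left' := left _ q0
  have right' := fun h => right (1 / p) h q2
  rw [one_div_one_div] at left' right'
  have e₁ : Bl p ≤ Dg p n ↔ p ≤ 1 / r := by
    rw [le_one_div p0 r0]
    refine ⟨fun h => not_lt.1 fun h' => absurd (left' h') (not_lt.2 h), fun h => ?_⟩
    rcases h.eq_or_lt with h | h
    · rw [h, one_div_one_div] at hr'; exact hr'.ge
    · exact (right' h).le
  have e₂ : Dg p n ≤ Bl p ↔ 1 / r ≤ p := by
    rw [one_div_le r0 p0]
    refine ⟨fun h => not_lt.1 fun h' => absurd (right' h') (not_lt.2 h), fun h => ?_⟩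
    rcases h.eq_or_lt with h | h
    · rw [← h, one_div_one_div] at hr'; exact hr'.le
    · exact (left' h).le
  rw [glue hp hn (core n hn3) x hx, diag_iff, ball_iff, e₁, e₂]

end Pool.Agent.MP_39fec4_gt.Full

end

section

set_option autoImplicit false

/-! The three ranges of the exponent put together. -/

namespace Pool.Agent.MP_39fec4_gt.Full

theorem regS : RegS 2.4 := fun _ hp hp' _ hn x hx hd =>
  Small.regimeS2 hp hp' hn x hx.1 hx.2 (not_forall.1 hd)

theorem full : ∀ n : ℕ, 2 ≤ n → ∃ pn : ℝ, 2 < pn ∧ pn < 26.27 ∧ ∀ p : ℝ, 2 < p →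
    ∀ a : EuclideanSpace ℝ (Fin n), ‖a‖ = 1 →
      ((∀ b : EuclideanSpace ℝ (Fin n), ‖b‖ = 1 → sectionVol p b ≤ sectionVol p a) ↔
        (p ≤ pn ∧ ∀ j, |a j| = 1 / √n) ∨
          (pn ≤ p ∧ ∃ i j, i ≠ j ∧ |a i| = 1 / √2 ∧ |a j| = 1 / √2)) :=
  final (a := ((155 : ℕ) : ℝ) / 4096) (b := ((1712 : ℕ) : ℝ) / 4096) (P := 2.4) (by norm_num)
    (by norm_num) (by norm_num) (by norm_num) (by norm_num) regS K.rngAll.1 K.rngAll.2

theorem not_both {n : ℕ} (hn : 3 ≤ n) {a : EuclideanSpace ℝ (Fin n)} (h1 : ∀ j, |a j| = 1 / √n)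
    (h2 : ∃ i j, i ≠ j ∧ |a i| = 1 / √2 ∧ |a j| = 1 / √2) : False := by
  obtain ⟨i, -, -, hi, -⟩ := h2
  have h3 : (3 : ℝ) ≤ n := by exact_mod_cast hn
  have h4 : √2 < √(n : ℝ) := Real.sqrt_lt_sqrt (by norm_num) (by linarith)
  have h5 : 1 / √(n : ℝ) < 1 / √2 := one_div_lt_one_div_of_lt (by positivity) h4
  rw [← h1 i, hi] at h5
  exact lt_irrefl _ h5

theorem main : ∀ n : ℕ, 2 ≤ n → ∃ pn : ℝ, 2 < pn ∧ pn < 26.27 ∧
    (3 ≤ n → ∀ p : ℝ, 2 < p → ∀ d e : EuclideanSpace ℝ (Fin n), ‖d‖ = 1 → ‖e‖ = 1 →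
      (∀ j, |d j| = 1 / √n) → (∃ i j, i ≠ j ∧ |e i| = 1 / √2 ∧ |e j| = 1 / √2) →
      (sectionVol p d = sectionVol p e ↔ p = pn)) ∧
    ∀ p : ℝ, 2 < p → ∀ a : EuclideanSpace ℝ (Fin n), ‖a‖ = 1 →
      ((∀ b : EuclideanSpace ℝ (Fin n), ‖b‖ = 1 → sectionVol p b ≤ sectionVol p a) ↔
        (p ≤ pn ∧ ∀ j, |a j| = 1 / √n) ∨
          (pn ≤ p ∧ ∃ i j, i ≠ j ∧ |a i| = 1 / √2 ∧ |a j| = 1 / √2)) := by
  intro n hn
  obtain ⟨pn, h1, h2, h⟩ := full n hn
  refine ⟨pn, h1, h2, fun h3 p hp d e hd he d1 e1 => ⟨fun hv => ?_, fun hq => ?_⟩, h⟩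
  · rcases le_total p pn with hl | hl
    · have m := (h p hp d hd).2 (Or.inl ⟨hl, d1⟩)
      rw [hv] at m
      rcases (h p hp e he).1 m with ⟨-, e2⟩ | ⟨hr, -⟩
      · exact (not_both h3 e2 e1).elim
      · exact le_antisymm hl hr
    · have m := (h p hp e he).2 (Or.inr ⟨hl, e1⟩)
      rw [← hv] at m
      rcases (h p hp d hd).1 m with ⟨hr, -⟩ | ⟨-, d2⟩
      · exact le_antisymm hr hl
      · exact (not_both h3 d1 d2).elim
  · exact le_antisymm ((h p hp e he).2 (Or.inr ⟨hq.ge, e1⟩) d hd)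
      ((h p hp d hd).2 (Or.inl ⟨hq.le, d1⟩) e he)

end Pool.Agent.MP_39fec4_gt.Full

end
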