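import Pool.Agent.Mg.F39fec4.G46279a

set_option autoImplicit false

namespace Pool.Agent.MP_39fec4_gt.Small

open MeasureTheory Set Filter Topology Real

/-- The kernel, normalised so that `x k' = -4 x^p k` with `p = 2 + η`. -/
noncomputable def kr (η x : ℝ) : ℝ := Real.exp (-(4 / (2 + η)) * x ^ (2 + η))

/-- Power times kernel. -/
noncomputable def Wr (η r x : ℝ) : ℝ := x ^ r * kr η x

/-- Total mass of the kernel. -/
noncomputable def m0 (η : ℝ) : ℝ := ∫ x in Ioi (0 : ℝ), kr η x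

/-- Cosine transforms. -/
noncomputable def Cr (η r s : ℝ) : ℝ := cosT (Wr η r) s

/-- Sine transforms. -/
noncomputable def Sr (η r s : ℝ) : ℝ := sinT (Wr η r) s

variable {η r x : ℝ}

theorem kr_pos (η x : ℝ) : 0 < kr η x := Real.exp_pos _

theorem Wr_pos (η r : ℝ) (hx : 0 < x) : 0 < Wr η r x :=
  mul_pos (Real.rpow_pos_of_pos hx r) (kr_pos η x)

theorem Wr_zero (η : ℝ) : Wr η 0 = kr η := by funext x; simp [Wr]

theorem cont_kr (h0 : 0 < η) : Continuous (kr η) := by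
  have : Continuous fun y : ℝ => y ^ (2 + η) := Real.continuous_rpow_const (by positivity)
  unfold kr; fun_prop

theorem int_Wr (h0 : 0 < η) (hr : -1 < r) : IntegrableOn (Wr η r) (Ioi 0) :=
  integrableOn_rpow_mul_exp_neg_mul_rpow hr (by linarith) (by positivity)

theorem int_kr (h0 : 0 < η) : IntegrableOn (kr η) (Ioi 0) := by
  simpa [Wr_zero] using int_Wr h0 (r := 0) (by norm_num)

theorem Wr_add (a b : ℝ) (hx : 0 < x) : Wr η (a + b) x = x ^ b * Wr η a x := by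
  rw [Wr, Wr, Real.rpow_add hx]; ring

theorem Wr_succ {a : ℝ} (ha : a = r + 1) (hx : 0 < x) : Wr η a x = x * Wr η r x := by
  rw [ha, Wr_add _ _ hx, Real.rpow_one]

theorem hasDerivAt_Wr (h0 : 0 < η) {a b : ℝ} (ha : a = r - 1) (hb : b = r + 1 + η) (hx : 0 < x) :
    HasDerivAt (Wr η r) (r * Wr η a x + (-4) * Wr η b x) x := by
  have d1 := Real.hasDerivAt_rpow_const (x := x) (p := r) (Or.inl hx.ne')
  have d2 := ((Real.hasDerivAt_rpow_const (x := x) (p := 2 + η) (Or.inl hx.ne')).const_mul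
    (-(4 / (2 + η)))).exp
  refine (d1.mul d2).congr_deriv ?_
  have e : x ^ b = x ^ r * x ^ (2 + η - 1) := by rw [← Real.rpow_add hx, hb]; congr 1; ring
  simp only [Wr, kr, ha, e]
  field_simp

theorem tendsto_Wr (h0 : 0 < η) (hr : 0 < r) : Tendsto (Wr η r) (𝓝[>] 0) (𝓝 0) := by
  have h1 : Continuous (Wr η r) := by
    have : Continuous fun x : ℝ => x ^ r := Real.continuous_rpow_const hr.le
    exact this.mul (cont_kr h0)
  have := (h1.tendsto 0).mono_left (nhdsWithin_le_nhds (s := Ioi 0))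
  rwa [Wr, Real.zero_rpow hr.ne', zero_mul] at this

theorem P1 (h0 : 0 < η) (hr : 0 < r) {a b : ℝ} (ha : a = r - 1) (hb : b = r + 1 + η) (s : ℝ) :
    s * Cr η r s = -(r * Sr η a s) + 4 * Sr η b s := by
  have i1 := int_Wr h0 (r := a) (by linarith)
  have i2 := int_Wr h0 (r := b) (by linarith)
  rw [Cr, parts_cos (int_Wr h0 (by linarith)) ((i1.const_mul r).add (i2.const_mul (-4)))
    (fun x hx => hasDerivAt_Wr h0 ha hb hx) (tendsto_Wr h0 hr) s]
  have := sinT_lin i1 i2 r (-4) s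
  rw [Sr, Sr]
  refine (congrArg Neg.neg this).trans (by ring)

theorem P2 (h0 : 0 < η) (hr : 0 < r) {a b : ℝ} (ha : a = r - 1) (hb : b = r + 1 + η) (s : ℝ) :
    s * Sr η r s = r * Cr η a s - 4 * Cr η b s := by
  have i1 := int_Wr h0 (r := a) (by linarith)
  have i2 := int_Wr h0 (r := b) (by linarith)
  rw [Sr, parts_sin (int_Wr h0 (by linarith)) ((i1.const_mul r).add (i2.const_mul (-4)))
    (fun x hx => hasDerivAt_Wr h0 ha hb hx) (tendsto_Wr h0 hr) s]
  have := cosT_lin i1 i2 r (-4) s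
  rw [Cr, Cr]
  refine this.trans (by ring)

theorem P0 (h0 : 0 < η) (s : ℝ) : s * Cr η 0 s = 4 * Sr η (1 + η) s := by
  have i2 := int_Wr h0 (r := 1 + η) (by linarith)
  have := parts_cos (k := Wr η 0) (k' := fun x => (-4) * Wr η (1 + η) x + 0 * Wr η (1 + η) x)
    (int_Wr h0 (by norm_num)) ((i2.const_mul _).add (i2.const_mul _))
    (fun x hx => (hasDerivAt_Wr h0 (r := 0) rfl (b := 1 + η) (by ring) hx).congr_deriv (by simp))
    (by rw [Wr_zero]; exact ((cont_kr h0).tendsto 0).mono_left nhdsWithin_le_nhds) s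
  rw [sinT_lin i2 i2] at this
  rw [Cr, Sr]; linarith

theorem dC (h0 : 0 < η) (hr : -1 < r) {a : ℝ} (ha : a = r + 1) (s : ℝ) :
    HasDerivAt (Cr η r) (-Sr η a s) s :=
  hasDerivAt_cosT (int_Wr h0 hr) (int_Wr h0 (by linarith)) (fun _ hx => Wr_succ ha hx) s

theorem dS (h0 : 0 < η) (hr : -1 < r) {a : ℝ} (ha : a = r + 1) (s : ℝ) :
    HasDerivAt (Sr η r) (Cr η a s) s :=
  hasDerivAt_sinT (int_Wr h0 hr) (int_Wr h0 (by linarith)) (fun _ hx => Wr_succ ha hx) s

theorem C00 (η : ℝ) : Cr η 0 0 = m0 η := by rw [Cr, cosT_zero, Wr_zero, m0]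

theorem m0_pos (h0 : 0 < η) : 0 < m0 η := by
  refine (setIntegral_pos_iff_support_of_nonneg_ae
    (Eventually.of_forall fun x => (kr_pos η x).le) (int_kr h0)).2 ?_
  have : Function.support (kr η) = univ := eq_univ_of_forall fun x => (kr_pos η x).ne'
  simp [this]

theorem abs_C0_le (h0 : 0 < η) (s : ℝ) : |Cr η 0 s| ≤ m0 η := by
  rw [Cr, Wr_zero]
  exact abs_cosT_le (int_kr h0) (fun x _ => (abs_of_pos (kr_pos η x)).le) s

/-- Moments of a cubic polynomial in `x ^ p`. -/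
theorem mom3 (h0 : 0 < η) (a0 a1 a2 a3 : ℝ) :
    IntegrableOn (fun x => kr η x * (a0 + a1 * x ^ (2 + η) + a2 * (x ^ (2 + η)) ^ 2 +
      a3 * (x ^ (2 + η)) ^ 3)) (Ioi 0) ∧
    ∫ x in Ioi (0 : ℝ), kr η x * (a0 + a1 * x ^ (2 + η) + a2 * (x ^ (2 + η)) ^ 2 +
      a3 * (x ^ (2 + η)) ^ 3) =
      m0 η * (a0 + a1 / 4 + a2 * (3 + η) / 16 + a3 * ((3 + η) * (5 + 2 * η)) / 64) := by
  have i0 := int_Wr h0 (r := 0) (by norm_num)
  have i1 := int_Wr h0 (r := 2 + η) (by linarith)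
  have i2 := int_Wr h0 (r := 4 + 2 * η) (by linarith)
  have i3 := int_Wr h0 (r := 6 + 3 * η) (by linarith)
  have r1 := P2 h0 one_pos (a := 0) (b := 2 + η) (by ring) (by ring) 0
  have r2 := P2 h0 (r := 3 + η) (by linarith) (a := 2 + η) (b := 4 + 2 * η) (by ring) (by ring) 0
  have r3 := P2 h0 (r := 5 + 2 * η) (by linarith) (a := 4 + 2 * η) (b := 6 + 3 * η) (by ring)
    (by ring) 0
  rw [C00] at r1
  simp only [Cr, cosT_zero, zero_mul] at r1 r2 r3
  have e : ∀ x ∈ Ioi (0 : ℝ), a0 * Wr η 0 x + a1 * Wr η (2 + η) x +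
      (a2 * Wr η (4 + 2 * η) x + a3 * Wr η (6 + 3 * η) x) = kr η x * (a0 + a1 * x ^ (2 + η) +
      a2 * (x ^ (2 + η)) ^ 2 + a3 * (x ^ (2 + η)) ^ 3) := fun x hx => by
    have hx : 0 < x := hx
    rw [← Real.rpow_mul_natCast hx.le, ← Real.rpow_mul_natCast hx.le]
    simp only [Wr, Real.rpow_zero]
    rw [show (2 + η) * ((2 : ℕ) : ℝ) = 4 + 2 * η by push_cast; ring,
      show (2 + η) * ((3 : ℕ) : ℝ) = 6 + 3 * η by push_cast; ring]
    ring
  have j1 : IntegrableOn (fun x => a0 * Wr η 0 x + a1 * Wr η (2 + η) x) (Ioi 0) :=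
    (i0.const_mul a0).add (i1.const_mul a1)
  have j2 : IntegrableOn (fun x => a2 * Wr η (4 + 2 * η) x + a3 * Wr η (6 + 3 * η) x) (Ioi 0) :=
    (i2.const_mul a2).add (i3.const_mul a3)
  refine ⟨IntegrableOn.congr_fun (j1.add j2) e measurableSet_Ioi, ?_⟩
  rw [← setIntegral_congr_fun measurableSet_Ioi e, integral_add j1 j2,
    integral_add (i0.const_mul a0) (i1.const_mul a1),
    integral_add (i2.const_mul a2) (i3.const_mul a3)]
  simp only [integral_const_mul]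
  rw [Wr_zero, ← m0]
  linear_combination (a1 / 4 + a2 * (3 + η) / 16 + a3 * ((3 + η) * (5 + 2 * η)) / 64) * r1 +
    (a2 / 4 + a3 * (5 + 2 * η) / 16) * r2 + a3 / 4 * r3

theorem m0_le (h0 : 0 < η) (h1 : η ≤ 1 / 20) : m0 η ≤ 0.66 := by
  have iG : IntegrableOn (fun x : ℝ => Real.exp (-2 * x ^ 2)) (Ioi 0) :=
    (integrable_exp_neg_mul_sq (by norm_num)).integrableOn
  have h := setIntegral_mono_on (int_kr h0) (iG.const_mul (Real.exp (1 / 20))) measurableSet_Ioi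
    fun x hx => by
      have hx : 0 < x := hx
      have b := one_add_mul_self_le_rpow_one_add (s := x ^ 2 - 1) (by nlinarith)
        (p := (2 + η) / 2) (by linarith)
      rw [add_sub_cancel, ← Real.rpow_natCast_mul hx.le,
        show ((2 : ℕ) : ℝ) * ((2 + η) / 2) = 2 + η by push_cast; ring] at b
      rw [kr, ← Real.exp_add, Real.exp_le_exp]
      have c : 4 / (2 + η) * (1 + (2 + η) / 2 * (x ^ 2 - 1)) ≤ 4 / (2 + η) * x ^ (2 + η) := by
        gcongr
      have e : 4 / (2 + η) * (1 + (2 + η) / 2 * (x ^ 2 - 1)) = 4 / (2 + η) + 2 * x ^ 2 - 2 := by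
        field_simp; ring
      have f : 2 - 1 / 20 ≤ 4 / (2 + η) := by rw [le_div_iff₀ (by positivity)]; nlinarith
      linarith
  rw [integral_const_mul, integral_gaussian_Ioi] at h
  have a : √(π / 2) ≤ 1.2534 := Real.sqrt_le_iff.2 ⟨by norm_num, by linarith [Real.pi_lt_d4]⟩
  have b : Real.exp (1 / 20) ≤ 1.0527 := by
    have := Real.add_one_le_exp (-(1 / 20))
    rw [Real.exp_neg, le_inv_comm₀ (by norm_num) (Real.exp_pos _)] at this
    exact this.trans (by norm_num)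
  have : Real.exp (1 / 20) * (√(π / 2) / 2) ≤ 1.0527 * (1.2534 / 2) := by gcongr
  exact h.trans (this.trans (by norm_num))

theorem sinh_mul_le {θ a : ℝ} (h0 : 0 ≤ θ) (h1 : θ ≤ 1) (ha : 0 ≤ a) :
    Real.sinh (θ * a) ≤ θ * Real.sinh a := by
  have := nonneg_of_deriv (f := fun a => θ * Real.sinh a - Real.sinh (θ * a))
    (f' := fun a => θ * (Real.cosh a - Real.cosh (θ * a))) (fun a => by
      have := ((Real.hasDerivAt_sinh a).const_mul θ).sub ((hasDerivAt_id a).const_mul θ).sinh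
      refine this.congr_deriv ?_
      simp; ring) (by simp) (fun a ha => mul_nonneg h0 (sub_nonneg.2 (Real.cosh_le_cosh.2 (by
        rw [abs_of_pos ha, abs_of_nonneg (by positivity)]; nlinarith)))) ha
  linarith

theorem one_sub_rpow_sq_le {θ y : ℝ} (h0 : 0 ≤ θ) (h1 : θ ≤ 1) (hy : 0 < y) :
    y * (1 - y ^ θ) ^ 2 ≤ θ ^ 2 * y ^ θ * (y - 1) ^ 2 := by
  have key : ∀ a : ℝ, Real.sinh (θ * a) ^ 2 ≤ θ ^ 2 * Real.sinh a ^ 2 := fun a => by
    have := sinh_mul_le h0 h1 (abs_nonneg a)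
    have p : 0 ≤ Real.sinh (θ * |a|) := Real.sinh_nonneg_iff.2 (by positivity)
    have := pow_le_pow_left₀ p this 2
    rwa [mul_pow, ← abs_of_nonneg h0, ← abs_mul, ← Real.abs_sinh, ← Real.abs_sinh, sq_abs, sq_abs,
      sq_abs] at this
  have := key (Real.log y / 2)
  set A := Real.exp (Real.log y / 2) with hA
  set B := Real.exp (θ * (Real.log y / 2)) with hB
  have A0 : 0 < A := Real.exp_pos _
  have B0 : 0 < B := Real.exp_pos _
  have eA : y = A ^ 2 := by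
    rw [hA, ← Real.exp_nat_mul, show ((2 : ℕ) : ℝ) * (Real.log y / 2) = Real.log y by
      push_cast; ring, Real.exp_log hy]
  have eB : y ^ θ = B ^ 2 := by
    rw [hB, ← Real.exp_nat_mul, Real.rpow_def_of_pos hy]; congr 1; push_cast; ring
  rw [Real.sinh_eq, Real.sinh_eq, Real.exp_neg, Real.exp_neg, ← hA, ← hB] at this
  rw [eB, eA]
  have e1 : A ^ 2 * (1 - B ^ 2) ^ 2 = 4 * A ^ 2 * B ^ 2 * ((B - B⁻¹) / 2) ^ 2 := by
    field_simp; ring
  have e2 : θ ^ 2 * B ^ 2 * (A ^ 2 - 1) ^ 2 = 4 * A ^ 2 * B ^ 2 * (θ ^ 2 * ((A - A⁻¹) / 2) ^ 2) := by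
    field_simp; ring
  rw [e1, e2]
  gcongr

theorem rpow_le_lin {θ y : ℝ} (h0 : 0 ≤ θ) (h1 : θ ≤ 1) (hy : 0 ≤ y) : y ^ θ ≤ 1 + θ * (y - 1) := by
  have := rpow_one_add_le_one_add_mul_self (s := y - 1) (by linarith) h0 h1
  rwa [add_sub_cancel] at this

/-- Pointwise facts on `y = x ^ p` and `z = x ^ η`. -/
theorem yz (h0 : 0 < η) (h1 : η ≤ 1 / 20) (hx : 0 < x) : ∃ θ y z : ℝ, θ = η / (2 + η) ∧
    y = x ^ (2 + η) ∧ z = x ^ η ∧ 0 < θ ∧ θ ≤ η / 2 ∧ 0 < y ∧ 0 < z ∧ y = x ^ 2 * z ∧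
    y * (1 - z) ^ 2 ≤ θ ^ 2 * z * (y - 1) ^ 2 ∧ z ≤ 1 + θ * (y - 1) ∧
    z ^ 2 ≤ 1 + 2 * θ * (y - 1) ∧ y ≤ (y + θ) * z ∧
    x ^ 2 ≤ (1 + 0.72 * η) * ((1 - θ) * y + θ / 4) := by
  have t0 : 0 < η / (2 + η) := by positivity
  have t1 : η / (2 + η) ≤ η / 2 := by gcongr; linarith
  have y0 := Real.rpow_pos_of_pos hx (2 + η)
  have z0 := Real.rpow_pos_of_pos hx η
  have ez : x ^ η = (x ^ (2 + η)) ^ (η / (2 + η)) := by
    rw [← Real.rpow_mul hx.le]; congr 1; field_simp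
  have ey : x ^ (2 + η) = x ^ 2 * x ^ η := by rw [Real.rpow_add hx, Real.rpow_two]
  refine ⟨_, _, _, rfl, rfl, rfl, t0, t1, y0, z0, ey, ?_⟩
  generalize x ^ (2 + η) = y at *
  generalize η / (2 + η) = θ at *
  generalize x ^ η = z at *
  have inv : ∀ c : ℝ, 0 < c → 1 ≤ z * (c ^ θ * (1 + θ * ((c * y)⁻¹ - 1))) := fun c hc => by
    have := rpow_le_lin t0.le (by linarith) (inv_pos.2 (mul_pos hc y0)).le
    have e : z * (c ^ θ * (c * y)⁻¹ ^ θ) = 1 := by
      rw [ez, Real.inv_rpow (by positivity), Real.mul_rpow hc.le y0.le]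
      have := Real.rpow_pos_of_pos hc θ
      have := Real.rpow_pos_of_pos y0 θ
      field_simp
    have := Real.rpow_pos_of_pos hc θ
    refine e.ge.trans ?_
    gcongr
  refine ⟨?_, ?_, ?_, ?_, ?_⟩
  · rw [ez]; exact one_sub_rpow_sq_le t0.le (by linarith) y0
  · rw [ez]; exact rpow_le_lin t0.le (by linarith) y0.le
  · rw [ez, ← Real.rpow_mul_natCast y0.le, mul_comm θ]
    exact rpow_le_lin (by positivity) (by push_cast; linarith) y0.le
  · have := mul_le_mul_of_nonneg_left (inv 1 one_pos) y0.le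
    rw [Real.one_rpow, one_mul, one_mul, mul_one] at this
    have e : y * (z * (1 + θ * (y⁻¹ - 1))) = (y + θ) * z - θ * y * z := by field_simp; ring
    have : 0 ≤ θ * y * z := by positivity
    linarith
  · have := mul_le_mul_of_nonneg_left (inv 4 (by norm_num)) (sq_nonneg x)
    have e : x ^ 2 * (z * (4 ^ θ * (1 + θ * ((4 * y)⁻¹ - 1)))) =
        4 ^ θ * ((1 - θ) * y + θ / 4) := by
      rw [← mul_assoc, ← ey]; field_simp; ring
    have f : (4 : ℝ) ^ θ ≤ 1 + 0.72 * η := by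
      have l2 := Real.log_two_lt_d9
      have l4 : Real.log 4 = 2 * Real.log 2 := by
        rw [show (4 : ℝ) = 2 ^ 2 by norm_num, Real.log_pow]; norm_num
      have w : Real.log 4 * θ ≤ 0.6932 * η := by rw [l4]; nlinarith
      have := Real.add_one_le_exp (-(0.6932 * η))
      rw [Real.exp_neg, le_inv_comm₀ (by linarith) (Real.exp_pos _)] at this
      rw [Real.rpow_def_of_pos (by norm_num)]
      refine (Real.exp_le_exp.2 w).trans (this.trans ?_)
      rw [inv_le_iff_one_le_mul₀ (by linarith)]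
      nlinarith
    have g : 0 ≤ (1 - θ) * y + θ / 4 := by
      have : 0 ≤ 1 - θ := by linarith
      positivity
    rw [e, mul_one] at this
    exact this.trans (mul_le_mul_of_nonneg_right f g)

end Pool.Agent.MP_39fec4_gt.Small
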