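import Pool.Agent.Mg.F39fec4.G5b341b
import Pool.Agent.MP_39fec4_gt.BGam

section

set_option autoImplicit false

namespace Pool.Agent.MP_39fec4_gt.Ball

open MeasureTheory Set Filter Topology Real

theorem cs {h P Q : ℝ → ℝ} (ih : IntegrableOn h (Ioi 0)) (iP : IntegrableOn P (Ioi 0))
    (iQ : IntegrableOn Q (Ioi 0)) (P0 : ∀ s, 0 ≤ P s) (Q0 : ∀ s, 0 ≤ Q s)
    (pt : ∀ s, 0 < s → h s ≤ 0 ∨ h s ^ 2 ≤ P s * Q s) {A B C : ℝ}
    (hA : ∫ s in Ioi (0 : ℝ), P s ≤ A) (hB : ∫ s in Ioi (0 : ℝ), Q s ≤ B) (hC : 0 < C)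
    (hB0 : 0 < B) (hAB : A * B < C ^ 2) : ∫ s in Ioi (0 : ℝ), h s < C := by
  set l := B / C with hl
  have l0 : 0 < l := by positivity
  have i2 : IntegrableOn (fun s => (l * P s + Q s / l) / 2) (Ioi 0) :=
    ((iP.const_mul l).add (iQ.div_const l)).div_const 2
  have := setIntegral_mono_on ih i2 measurableSet_Ioi fun s hs => by
    have a := P0 s
    have b := Q0 s
    have c : 0 ≤ (l * P s + Q s / l) / 2 := by positivity
    rcases pt s hs with h1 | h1
    · exact h1.trans c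
    · refine (le_abs_self _).trans (abs_le_of_sq_le_sq' ?_ c).2
      have e : l * P s * (Q s / l) = P s * Q s := by field_simp
      rw [sq_abs]
      nlinarith [sq_nonneg (l * P s - Q s / l)]
  rw [integral_div, integral_add (iP.const_mul l) (iQ.div_const l), integral_const_mul,
    integral_div] at this
  have a1 : l * ∫ s in Ioi (0 : ℝ), P s ≤ l * A := by gcongr
  have a2 : (∫ s in Ioi (0 : ℝ), Q s) / l ≤ B / l := by gcongr
  have a3 : B / l = C := by rw [hl]; field_simp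
  have a4 : l * A < C := by
    rw [hl, div_mul_eq_mul_div, div_lt_iff₀ hC]; linarith
  linarith

variable {f : ℝ → ℝ} {κ I : ℝ}

theorem Pk.int_two (h : Pk f κ I) {α : ℝ} (hα : 0 < α) {ψ : ℝ → ℝ} (hc : Continuous ψ)
    (hb : ∀ s, |ψ s| ≤ 1) : IntegrableOn (fun s => f (α * s) * ψ s) (Ioi 0) :=
  int_mul_bdd (int_scale h.int hα) hc hb

theorem window_fin {α b I : ℝ} (hα : 0 < α) (hb : 0 < b) (hI : 0 < I) (hs : α ^ 2 + b ^ 2 = 1)
    (h1 : 1 / 2 ≤ α ^ 2) (h2 : α ^ 2 ≤ 0.528) :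
    (1 - 0.0016) * I ^ 2 / (α * b) < (√2 * I) ^ 2 := by
  have e : (2 * (α * b)) ^ 2 = 1 - (2 * α ^ 2 - 1) ^ 2 := by
    have : b ^ 2 = 1 - α ^ 2 := by linarith
    rw [mul_pow, mul_pow, this]; ring
  have a : (1 - 0.0016) < 2 * (α * b) := by
    refine lt_of_pow_lt_pow_left₀ 2 (by positivity) ?_
    rw [e]; nlinarith
  rw [mul_pow, Real.sq_sqrt (by norm_num), div_lt_iff₀ (by positivity)]
  nlinarith [pow_pos hI 2]

theorem Pk.caseR2 (h : Pk f κ I) {ι : Type*} (T : Finset ι) (a : ι → ℝ) (ha : ∀ j, 0 ≤ a j)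
    {α b : ℝ} (hα : 0 < α) (hb : 0 < b) (hs : ∑ j ∈ T, a j ^ 2 = b ^ 2) (hab : α ^ 2 + b ^ 2 = 1)
    (h1 : 1 / 2 ≤ α ^ 2) (h2 : α ^ 2 ≤ 0.528) {k : ι} (hk : k ∈ T) (k1 : 0.55 * b ^ 2 ≤ a k ^ 2)
    (k2 : a k ^ 2 ≤ 0.94 * b ^ 2) :
    ∫ s in Ioi (0 : ℝ), f (α * s) * ∏ j ∈ T, f (a j * s) < √2 * I := by
  have hc := h.cont
  have I0 := h.I_pos
  obtain ⟨i1, -, i3⟩ := h.rest_sq T a ha hb hs
  refine cs (h.int_two hα (by fun_prop) fun s => abs_prod_le_one _ fun j => h.bd _)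
    (int_scale h.int_sq hα) i1 (fun s => sq_nonneg _) (fun s => sq_nonneg _)
    (fun s _ => Or.inr (mul_pow _ _ _).le) (A := I / α)
    (by rw [integral_scale (fun x => f x ^ 2) hα, h.Ieq]) (i3 k hk k1 k2) (by positivity)
    (by positivity) ?_
  refine lt_of_eq_of_lt ?_ (window_fin hα hb I0 hab h1 h2)
  field_simp

theorem Pk.caseR3 (h : Pk f κ I) {ι : Type*} (T : Finset ι) (a : ι → ℝ) (ha : ∀ j, 0 ≤ a j)
    {α b : ℝ} (hα : 0 < α) (hb : 0 < b) (hs : ∑ j ∈ T, a j ^ 2 = b ^ 2) (hab : α ^ 2 + b ^ 2 = 1)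
    (h1 : 1 / 2 ≤ α ^ 2) (h2 : α ^ 2 ≤ 0.528) (k1 : ∀ j ∈ T, a j ^ 2 ≤ 0.55 * b ^ 2) :
    ∫ s in Ioi (0 : ℝ), f (α * s) * ∏ j ∈ T, f (a j * s) < √2 * I := by
  have hc := h.cont
  have I0 := h.I_pos
  obtain ⟨i1, i2, -⟩ := h.rest_sq T a ha hb hs
  set N : Set ℝ := Icc 3.7 4 with hN
  have hNm : MeasurableSet N := measurableSet_Icc
  set u : ℝ → ℝ := fun x => f x ^ 2 - N.indicator (fun x => f x ^ 2) x with hu
  have j1 : IntegrableOn (N.indicator fun x => f x ^ 2) (Ioi 0) := h.int_sq.indicator hNm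
  have iu : IntegrableOn u (Ioi 0) := h.int_sq.sub j1
  have u0 : ∀ x, 0 ≤ u x := fun x => by
    simp only [hu]
    exact sub_nonneg.2 (indicator_apply_le' (fun _ => le_rfl) fun _ => sq_nonneg _)
  have ju : ∫ x in Ioi (0 : ℝ), u x ≤ (1 - 0.0016) * I := by
    rw [hu, integral_sub h.int_sq j1, h.Ieq, setIntegral_indicator hNm,
      inter_eq_right.2 (show N ⊆ Ioi 0 from Icc_subset_Ioi_iff (by norm_num) |>.2 (by norm_num))]
    have : (0.01 : ℝ) * volume.real N ≤ ∫ x in N, f x ^ 2 :=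
      setIntegral_ge_of_const_le_real hNm (by simp [hN]) (fun x hx => by
        have := h.neg hx.1 hx.2
        nlinarith) (Continuous.integrableOn_Icc (by fun_prop))
    rw [show volume.real N = 4 - 3.7 from Real.volume_real_Icc_of_le (by norm_num)] at this
    linarith [h.Ile, Real.pi_lt_d4]
  refine cs (h.int_two hα (by fun_prop) fun s => abs_prod_le_one _ fun j => h.bd _)
    (int_scale iu hα) i1 (fun s => u0 _) (fun s => sq_nonneg _) (fun s hs => ?_)
    (A := (1 - 0.0016) * I / α) (by rw [integral_scale u hα]; gcongr) i2 (by positivity)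
    (by positivity) ?_
  · by_cases hx : α * s ∈ N
    · left
      refine mul_nonpos_of_nonpos_of_nonneg (by linarith [h.neg hx.1 hx.2])
        (Finset.prod_nonneg fun j hj => h.nonneg (mul_nonneg (ha j) hs.le) ?_)
      have b1 : (α * s) ^ 2 ≤ 4 ^ 2 := pow_le_pow_left₀ (by positivity) hx.2 2
      have b2 : a j ^ 2 * s ^ 2 ≤ 0.55 * α ^ 2 * s ^ 2 :=
        mul_le_mul_of_nonneg_right (by linarith [k1 j hj]) (sq_nonneg s)
      refine le_of_sq_le_sq ?_ (by norm_num)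
      nlinarith
    · right
      simp only [hu, indicator_of_notMem hx, sub_zero]
      exact (mul_pow _ _ _).le
  · refine lt_of_eq_of_lt ?_ (window_fin hα hb I0 hab h1 h2)
    field_simp

theorem one_arch {D : ℝ → ℝ} (hD : Continuous D) {m A c : ℝ}
    (h : ∀ x ∈ Icc (m - 1) (m + 1), c * (A - (x - m) ^ 2 / 2) ^ 2 ≤ D x) :
    c * (2 * A ^ 2 - 2 * A / 3 + 1 / 10) ≤ ∫ x in (m - 1)..(m + 1), D x := by
  have := intervalIntegral.integral_mono_on (μ := volume) (a := m - 1) (b := m + 1) (by linarith)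
    (Continuous.intervalIntegrable (by fun_prop) _ _) (hD.intervalIntegrable _ _) h
  refine le_of_eq_of_le ?_ this
  rw [intervalIntegral.integral_comp_sub_right (fun y => c * (A - y ^ 2 / 2) ^ 2) m,
    show m - 1 - m = -1 by ring, show m + 1 - m = 1 by ring]
  have e : (fun y : ℝ => c * (A - y ^ 2 / 2) ^ 2) =
      fun y => c * A ^ 2 * y ^ 0 + -(c * A) * y ^ 2 + c / 4 * y ^ 4 := by
    funext y; ring
  have i : ∀ (c : ℝ) (n : ℕ), IntervalIntegrable (fun t : ℝ => c * t ^ n) volume (-1) 1 :=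
    fun c n => Continuous.intervalIntegrable (by fun_prop) _ _
  rw [e, intervalIntegral.integral_add ((i _ _).add (i _ _)) (i _ _),
    intervalIntegral.integral_add (i _ _) (i _ _)]
  simp only [intervalIntegral.integral_const_mul, integral_pow]
  ring

theorem three_int {D : ℝ → ℝ} (hD : Continuous D) (iD : IntegrableOn D (Ioi 0))
    (D0 : ∀ x, 0 ≤ D x) {a1 b1 a2 b2 a3 b3 : ℝ} (h0 : 0 ≤ a1) (h1 : a1 ≤ b1) (h2 : b1 ≤ a2)
    (h3 : a2 ≤ b2) (h4 : b2 ≤ a3) (h5 : a3 ≤ b3) :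
    (∫ x in a1..b1, D x) + (∫ x in a2..b2, D x) + (∫ x in a3..b3, D x) ≤
      ∫ x in Ioi (0 : ℝ), D x := by
  have i : ∀ u v : ℝ, IntervalIntegrable D volume u v := fun u v => hD.intervalIntegrable _ _
  have ad : ∀ u v w : ℝ, (∫ x in u..v, D x) + ∫ x in v..w, D x = ∫ x in u..w, D x :=
    fun u v w => intervalIntegral.integral_add_adjacent_intervals (i _ _) (i _ _)
  have nn : ∀ u v : ℝ, u ≤ v → 0 ≤ ∫ x in u..v, D x := fun u v h =>
    intervalIntegral.integral_nonneg h fun x _ => D0 x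
  have top : ∫ x in (0 : ℝ)..b3, D x ≤ ∫ x in Ioi (0 : ℝ), D x := by
    rw [intervalIntegral.integral_of_le (by linarith)]
    exact setIntegral_mono_set iD (Eventually.of_forall D0) Ioc_subset_Ioi_self.eventuallyLE
  linarith [ad 0 a1 b1, ad 0 b1 a2, ad 0 a2 b2, ad 0 b2 a3, ad 0 a3 b3, nn 0 a1 h0, nn b1 a2 h2,
    nn b2 a3 h4]

theorem Pk.arch_gain (h : Pk f κ I) {φ : ℝ → ℝ} (hφ : Continuous φ) (φ0 : ∀ x, 0 ≤ φ x)
    (φ1 : ∀ x, φ x ≤ 1) {ξ : ℝ} (ξ0 : 0 ≤ ξ) (ξ1 : ξ ≤ 0.00947)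
    (hb : ∀ x, 0 ≤ x → x ≤ 9 → φ x ≤ Real.exp (-(ξ * x ^ 2))) :
    IntegrableOn (fun x => f x ^ 2 * φ x) (Ioi 0) ∧
      ∫ x in Ioi (0 : ℝ), f x ^ 2 * φ x ≤ I - 3.16 * ξ := by
  have hc := h.cont
  have p1 := Real.pi_gt_d4
  have p2 := Real.pi_lt_d4
  have i1 : IntegrableOn (fun x => f x ^ 2 * φ x) (Ioi 0) :=
    int_mul_bdd h.int_sq hφ fun x => by rw [abs_of_nonneg (φ0 x)]; exact φ1 x
  set D : ℝ → ℝ := fun x => f x ^ 2 - f x ^ 2 * φ x with hD
  have cD : Continuous D := by fun_prop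
  have iD : IntegrableOn D (Ioi 0) := h.int_sq.sub i1
  have D0 : ∀ x, 0 ≤ D x := fun x => by
    have := φ1 x
    simp only [hD]; nlinarith [sq_nonneg (f x)]
  have key : ∀ e m X A c : ℝ, (∀ z, e * Real.sin z = Real.cos (z - m)) → e ^ 2 = 1 → 1 ≤ m →
      m + 1 ≤ 9 → (m + 1) ^ 2 ≤ X → A ≤ 1 - 0.0012 * X → c ≤ 1 - 0.00947 * X / 2 → 1 / 2 ≤ A →
      0 ≤ c → ξ * c * (2 * A ^ 2 - 2 * A / 3 + 1 / 10) ≤ ∫ x in (m - 1)..(m + 1), D x := by
    intro e m X A c hm he m1 m9 hX hA hcc A0 c0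
    refine one_arch cD fun x hx => ?_
    have x0 : 0 ≤ x := by linarith [hx.1]
    have xX : x ^ 2 ≤ X := (pow_le_pow_left₀ x0 hx.2 2).trans hX
    have y1 : (x - m) ^ 2 ≤ 1 := by nlinarith [hx.1, hx.2]
    have a1 := h.arch hm x0
    have a2 : (A - (x - m) ^ 2 / 2) ^ 2 ≤ (e * (x * f x)) ^ 2 :=
      pow_le_pow_left₀ (by linarith) (by linarith) 2
    rw [mul_pow, he, one_mul] at a2
    have a3 := (hb x x0 (by linarith [hx.2])).trans (exp_neg_le2 (by positivity))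
    have a4 : ξ * x ^ 2 ≤ 0.00947 * X := mul_le_mul ξ1 xX (sq_nonneg x) (by norm_num)
    have a5 : ξ * x ^ 2 * c ≤ 1 - φ x := by
      have : 0 ≤ ξ * x ^ 2 := by positivity
      nlinarith
    have a6 := mul_le_mul_of_nonneg_left a2 (mul_nonneg ξ0 c0)
    have a7 := mul_le_mul_of_nonneg_left a5 (sq_nonneg (f x))
    simp only [hD]
    nlinarith
  have k1 := key 1 (π / 2) 6.61 0.99 0.968 sin_m1 (by norm_num) (by linarith) (by linarith)
    (by nlinarith) (by norm_num) (by norm_num) (by norm_num) (by norm_num)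
  have k2 := key (-1) (3 * π / 2) 32.64 0.96 0.845 sin_m2 (by norm_num) (by linarith) (by linarith)
    (by nlinarith) (by norm_num) (by norm_num) (by norm_num) (by norm_num)
  have k3 := key 1 (5 * π / 2) 78.4 0.905 0.628 sin_m3 (by norm_num) (by linarith) (by linarith)
    (by nlinarith) (by norm_num) (by norm_num) (by norm_num) (by norm_num)
  have t := three_int cD iD D0 (a1 := π / 2 - 1) (b1 := π / 2 + 1) (a2 := 3 * π / 2 - 1)
    (b2 := 3 * π / 2 + 1) (a3 := 5 * π / 2 - 1) (b3 := 5 * π / 2 + 1) (by linarith) (by linarith)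
    (by linarith) (by linarith) (by linarith) (by linarith)
  refine ⟨i1, ?_⟩
  rw [hD, integral_sub h.int_sq i1, h.Ieq] at t
  nlinarith

theorem Pk.damped (h : Pk f κ I) {ι : Type*} (T : Finset ι) (a : ι → ℝ) {τ c : ℝ}
    (hs : ∑ j ∈ T, a j ^ 2 = τ) (τ1 : τ ≤ 0.03) (c0 : 0 < c) (c1 : 0.442 ≤ c ^ 2)
    (c2 : c ^ 2 ≤ 0.528) :
    IntegrableOn (fun s => f (c * s) ^ 2 * |∏ j ∈ T, f (a j * s)|) (Ioi 0) ∧
      ∫ s in Ioi (0 : ℝ), f (c * s) ^ 2 * |∏ j ∈ T, f (a j * s)| ≤ (I - 0.997 * τ) / c := by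
  have hc := h.cont
  have τ0 : 0 ≤ τ := hs ▸ Finset.sum_nonneg fun j _ => sq_nonneg _
  obtain ⟨i1, i2⟩ := h.arch_gain (φ := fun x => |∏ j ∈ T, f (a j * (c⁻¹ * x))|) (by fun_prop)
    (fun x => abs_nonneg _) (fun x => abs_prod_le_one _ fun j => h.bd _) (ξ := 125 / 396 * τ)
    (by positivity) (by linarith) fun x x0 x9 => by
      set s := c⁻¹ * x with hsd
      have e : x = c * s := by rw [hsd]; field_simp
      have s0 : 0 ≤ s := by positivity
      have x2 : c ^ 2 * s ^ 2 ≤ 81 := by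
        rw [← mul_pow, ← e]; nlinarith
      have s2 : s ^ 2 ≤ 184 := by nlinarith [sq_nonneg s]
      rw [Finset.abs_prod]
      calc ∏ j ∈ T, |f (a j * s)| ≤ ∏ j ∈ T, Real.exp (-((κ * (a j * s)) ^ 2 / 2)) := by
            refine Finset.prod_le_prod (fun _ _ => abs_nonneg _) fun j hj => h.gauss ?_
            have b1 : a j ^ 2 ≤ 0.03 := by
              linarith [Finset.single_le_sum (f := fun j => a j ^ 2) (fun j _ => sq_nonneg _) hj]
            have b2 : κ ^ 2 * (a j ^ 2 * s ^ 2) ≤ 0.336 * (0.03 * 184) := by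
              gcongr; exact h.khi
            rw [mul_pow, mul_pow]; linarith
        _ = Real.exp (-(κ ^ 2 * s ^ 2 / 2 * τ)) := by
            rw [← Real.exp_sum, ← hs, Finset.mul_sum, ← Finset.sum_neg_distrib]
            congr 1
            exact Finset.sum_congr rfl fun j _ => by ring
        _ ≤ _ := by
            rw [Real.exp_le_exp, show x ^ 2 = c ^ 2 * s ^ 2 by rw [← mul_pow, ← e]]
            have b1 : c ^ 2 * s ^ 2 ≤ 0.528 * s ^ 2 := mul_le_mul_of_nonneg_right c2 (sq_nonneg s)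
            have b2 : 1 / 3 * s ^ 2 ≤ κ ^ 2 * s ^ 2 :=
              mul_le_mul_of_nonneg_right h.klo (sq_nonneg s)
            have b3 := mul_le_mul_of_nonneg_left b1 τ0
            have b4 := mul_le_mul_of_nonneg_left b2 τ0
            linarith
  have e : ∀ s, c⁻¹ * (c * s) = s := fun s => by field_simp
  have j1 := int_scale i1 c0
  have j2 := integral_scale (fun x => f x ^ 2 * |∏ j ∈ T, f (a j * (c⁻¹ * x))|) c0
  simp only [e] at j1 j2
  refine ⟨j1, ?_⟩
  rw [j2]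
  gcongr
  linarith

theorem Pk.caseR1a (h : Pk f κ I) {ι : Type*} (T : Finset ι) (a : ι → ℝ) {α β τ : ℝ}
    (hβ : 0 < β) (hβα : β ≤ α) (hs : ∑ j ∈ T, a j ^ 2 = τ) (hab : α ^ 2 + β ^ 2 + τ = 1)
    (h2 : α ^ 2 ≤ 0.528) (τ0 : 0 < τ) (τ1 : τ ≤ 0.03) (hd : (α - β) ^ 2 ≤ τ / 5) :
    ∫ s in Ioi (0 : ℝ), f (α * s) * (f (β * s) * ∏ j ∈ T, f (a j * s)) < √2 * I := by
  have hc := h.cont
  have I0 := h.I_pos
  have hα : 0 < α := by linarith
  have b1 : β ^ 2 ≤ α ^ 2 := pow_le_pow_left₀ hβ.le hβα 2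
  obtain ⟨i1, j1⟩ := h.damped T a hs τ1 hα (by linarith) h2
  obtain ⟨i2, j2⟩ := h.damped T a hs τ1 hβ (by linarith) (by linarith)
  have I1 : I ≤ 1.5708 := by linarith [h.Ile, Real.pi_lt_d4]
  have I2 : 0.8 ≤ I := by
    have k1 : κ ≤ 1 := by nlinarith [h.khi, h.k0]
    have : 1.6 ≤ √π := Real.le_sqrt_of_sq_le (by linarith [Real.pi_gt_d2])
    nlinarith [h.H]
  refine cs (h.int_two hα (by fun_prop) fun s => ?_) i1 i2 (fun s => by positivity)
    (fun s => by positivity) (fun s _ => Or.inr ?_) j1 j2 (by positivity)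
    (div_pos (by linarith) hβ) ?_
  · rw [abs_mul]
    exact mul_le_one₀ (h.bd _) (abs_nonneg _) (abs_prod_le_one _ fun j => h.bd _)
  · rw [mul_pow, mul_pow, ← sq_abs (∏ j ∈ T, f (a j * s))]
    exact le_of_eq (by ring)
  · rw [div_mul_div_comm, div_lt_iff₀ (by positivity), mul_pow, Real.sq_sqrt (by norm_num)]
    have e : 1 - 1.2 * τ ≤ 2 * (α * β) := by nlinarith
    have g1 : I - 0.997 * τ ≤ I * (1 - 0.634 * τ) := by nlinarith
    have g2 : (I - 0.997 * τ) ^ 2 ≤ (I * (1 - 0.634 * τ)) ^ 2 :=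
      pow_le_pow_left₀ (by linarith) g1 2
    have g3 : (1 - 0.634 * τ) ^ 2 < 1 - 1.2 * τ := by nlinarith
    have g4 := mul_lt_mul_of_pos_left (g3.trans_le e) (pow_pos I0 2)
    nlinarith

end Pool.Agent.MP_39fec4_gt.Ball

end

section

set_option autoImplicit false

namespace Pool.Agent.MP_39fec4_gt.Ball

open MeasureTheory Set Filter Topology Real

variable {p : ℝ}

/-- The integral of the square of the characteristic function. -/
noncomputable def I2 (p : ℝ) : ℝ := π / 2 * 2 ^ (-(1 / p))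

theorem I2_pos (p : ℝ) : 0 < I2 p := by have := Real.pi_pos; unfold I2; positivity

theorem exp_LG {x : ℝ} (hx : 0 < x) : Real.exp (LG x) = Real.Gamma (1 + x) :=
  Real.exp_log (Real.Gamma_pos_of_pos (by positivity))

theorem exp_le_inv {x c : ℝ} (h : 1 ≤ c * (1 - x)) (hc : 0 < c) : Real.exp x ≤ c := by
  have a := Real.add_one_le_exp (-x)
  have b : Real.exp x * Real.exp (-x) = 1 := by rw [← Real.exp_add]; simp
  have d := Real.exp_pos x
  have e := Real.exp_pos (-x)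
  nlinarith

theorem four_mul (p : ℝ) : (4 : ℝ) ^ (1 / p) * (2 ^ (-(1 / p))) ^ 2 = 1 := by
  rw [show (4 : ℝ) = 2 ^ (2 : ℝ) by norm_num, ← Real.rpow_mul (by norm_num),
    ← Real.rpow_natCast, ← Real.rpow_mul (by norm_num), ← Real.rpow_add (by norm_num),
    show 2 * (1 / p) + -(1 / p) * ((2 : ℕ) : ℝ) = 0 by push_cast; ring, Real.rpow_zero]

theorem H_iff (hp : 2 < p) : DD (1 / p) ≤ 0 ↔ √π / 2 ≤ √(kap2 p) * I2 p := by
  have hZ := Zp_pos hp
  have hπ := Real.pi_pos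
  have k0 := kap2_pos hp
  have I0 := I2_pos p
  have g3 : 0 < Real.Gamma (1 + 3 / p) := Real.Gamma_pos_of_pos (by positivity)
  have e4 := four_mul p
  have f0 : 0 < (4 : ℝ) ^ (1 / p) := by positivity
  rw [← Real.exp_le_one_iff, exp_DD (by positivity), ← Zp, show 3 * (1 / p) = 3 / p by ring,
    ← pow_le_pow_iff_left₀ (a := √π / 2) (by positivity) (by positivity) two_ne_zero, div_pow,
    mul_pow,
    Real.sq_sqrt hπ.le, Real.sq_sqrt k0.le, I2, mul_pow, div_le_one (by positivity), kap2,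
    show ((2 : ℝ) ^ (-(1 / p))) ^ 2 = 1 / 4 ^ (1 / p) by rw [eq_div_iff f0.ne']; linarith,
    show Real.Gamma (1 + 3 / p) / (3 * Zp p ^ 3) * ((π / 2) ^ 2 * (1 / 4 ^ (1 / p))) =
      π / 2 ^ 2 * (π * Real.Gamma (1 + 3 / p) / (3 * 4 ^ (1 / p) * Zp p ^ 3)) by field_simp,
    le_mul_iff_one_le_right (by positivity), one_le_div (by positivity)]

theorem pack (hp : 26.26 ≤ p) (hD : DD (1 / p) ≤ 0) : Pk (ff p) √(kap2 p) (I2 p) := by
  have h2 : 2 < p := by linarith
  have hZ := Zp_pos h2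
  have k0 := kap2_pos h2
  have q0 : 0 < 1 / p := by positivity
  have q1 : 1 / p ≤ 1 / 26.26 := one_div_le_one_div_of_le (by norm_num) hp
  have q2 : (1 / p) ^ 2 ≤ (1 / 26.26) ^ 2 := by gcongr
  have eZ : Real.exp (LG (1 / p)) = Zp p := exp_LG q0
  have eG : ∀ c : ℝ, 0 < c → Real.exp (LG (c * (1 / p))) = Real.Gamma (1 + c / p) := fun c hc => by
    rw [exp_LG (by positivity)]; congr 2; ring
  have eN : ∀ (n : ℕ) (x : ℝ), Real.exp (n * x) = Real.exp x ^ n := fun n x => Real.exp_nat_mul x n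
  have e3 : Real.exp (LG (3 * (1 / p)) - 3 * LG (1 / p)) = 3 * kap2 p := by
    rw [Real.exp_sub, eG 3 (by norm_num), show (3 : ℝ) * LG (1 / p) = (3 : ℕ) * LG (1 / p) by
      norm_num, eN, eZ, kap2]
    field_simp
  have e2 : Real.exp (LG (2 * (1 / p)) - 2 * LG (1 / p)) = 1 + vv p := by
    rw [Real.exp_sub, eG 2 (by norm_num), show (2 : ℝ) * LG (1 / p) = (2 : ℕ) * LG (1 / p) by
      norm_num, eN, eZ, vv]
    ring
  have e5 : Real.exp (LG (5 * (1 / p)) + LG (1 / p) - 2 * LG (3 * (1 / p))) =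
      5 / 9 * (mu4 p / kap2 p ^ 2) := by
    have g3 : 0 < Real.Gamma (1 + 3 / p) := Real.Gamma_pos_of_pos (by positivity)
    rw [Real.exp_sub, Real.exp_add, eG 5 (by norm_num), show (2 : ℝ) * LG (3 * (1 / p)) =
      (2 : ℕ) * LG (3 * (1 / p)) by norm_num, eN, eG 3 (by norm_num), eZ, mu4, kap2]
    field_simp
    norm_num
  have klo : 1 / 3 ≤ kap2 p := by
    have := Real.one_le_exp (LG3_lower q0)
    linarith
  have khi : kap2 p ≤ 0.336 := by
    have := exp_le_inv (x := LG (3 * (1 / p)) - 3 * LG (1 / p)) (c := 1.008)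
      (by have := LG3_upper q0; norm_num at q2 this ⊢; linarith) (by norm_num)
    linarith
  have hv : 1 + vv p ≤ 1.0024 := by
    have := exp_le_inv (x := LG (2 * (1 / p)) - 2 * LG (1 / p)) (c := 1.0024)
      (by have := LG2_upper q0; norm_num at q2 this ⊢; linarith) (by norm_num)
    linarith
  have hm : mu4 p ≤ 1.82 * kap2 p ^ 2 := by
    have := exp_le_inv (x := LG (5 * (1 / p)) + LG (1 / p) - 2 * LG (3 * (1 / p))) (c := 1.011)
      (by have := LG5_upper q0; norm_num at q2 this ⊢; linarith) (by norm_num)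
    rw [← div_le_iff₀ (by positivity)]
    linarith
  have sk : √(kap2 p) ^ 2 = kap2 p := Real.sq_sqrt k0.le
  refine ⟨cont_ff h2, ff_zero h2, abs_ff_le h2, int_ff h2, Real.sqrt_pos.2 k0, by rwa [sk],
    by rwa [sk], fun x => ?_, fun x => ?_, abs_x_mul_ff_le h2, fun e c0 c1 c2 x hx hc h => ?_,
    integral_ff_sq h2, ?_, (H_iff h2).1 hD⟩
  · rw [mul_pow, sk]; exact ff_lo h2 x
  · refine (ff_hi h2 x).trans ?_
    rw [P4, mul_pow, mul_pow, show √(kap2 p) ^ 4 = (√(kap2 p) ^ 2) ^ 2 by ring, sk]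
    have := mul_le_mul_of_nonneg_right hm (by positivity : 0 ≤ x ^ 4)
    linarith
  · have a := quad_le h2 hx h
    have b := mul_le_mul_of_nonpos_left (mul_le_mul_of_nonneg_left hv (sq_nonneg x)) hc
    linarith
  · have : (2 : ℝ) ^ (-(1 / p)) ≤ 1 :=
      Real.rpow_le_one_of_one_le_of_nonpos (by norm_num) (by linarith)
    have := Real.pi_pos
    unfold I2; nlinarith

theorem delta_bound (hp : 26.26 ≤ p) {δ : ℝ} (h : 1 + δ ≤ 4 ^ (1 / p)) :
    p * δ ≤ 1.464 ∧ δ ≤ 0.056 := by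
  have p0 : 0 < p := by linarith
  have l1 := Real.log_two_lt_d9
  have l0 := Real.log_two_gt_d9
  set y := Real.log 4 * (1 / p) with hy
  have py : p * y = 2 * Real.log 2 := by rw [hy, log_four]; field_simp
  have y0 : 0 < y := by rw [hy, log_four]; positivity
  have y1 : y ≤ 0.0528 := by nlinarith
  rw [Real.rpow_def_of_pos (by norm_num), ← hy] at h
  have := exp_le_inv (x := y) (c := 1 + 1.056 * y) (by nlinarith) (by positivity)
  have d : δ ≤ 1.056 * y := by linarith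
  constructor
  · nlinarith
  · linarith

theorem caseR1b (hp : 26.26 ≤ p) {α β τ : ℝ} (hβ : 0 < β) (hβα : β ≤ α)
    (hab : α ^ 2 + β ^ 2 + τ = 1) (τ1 : τ ≤ 0.03) (h1 : 1 / 2 ≤ α ^ 2)
    (h2 : 2 * α ^ 2 ≤ 4 ^ (1 / p)) (τ0 : 0 ≤ τ) (hd : τ / 5 < (α - β) ^ 2) :
    π / (2 * α) * (1 + (β / α) ^ p) ^ (-(1 / p)) < √2 * I2 p := by
  have p0 : 0 < p := by linarith
  have hα : 0 < α := by linarith
  have hπ := Real.pi_pos
  obtain ⟨δ1, δ2⟩ := delta_bound hp (δ := 2 * α ^ 2 - 1) (by linarith)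
  obtain ⟨d, hdd⟩ : ∃ d, d = α - β := ⟨_, rfl⟩
  rw [← hdd] at hd
  have d0 : 0 < d := by
    rcases (sub_nonneg.2 hβα).eq_or_lt with h | h
    · rw [hdd, ← h, zero_pow two_ne_zero] at hd; linarith
    · rw [hdd]; exact h
  have a1 : 0.7071 ≤ α := le_of_sq_le_sq (by linarith) hα.le
  have b1 : 0.6648 ≤ β := le_of_sq_le_sq (by linarith) hβ.le
  have e1 : d * (α + β) = (2 * α ^ 2 - 1) + τ := by rw [hdd]; linarith
  have s1 : d * 1.3719 ≤ d * (α + β) := mul_le_mul_of_nonneg_left (by linarith) d0.le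
  have d1 : d ≤ 0.0627 := by linarith
  have s2 : d * d ≤ d * 0.0627 := mul_le_mul_of_nonneg_left d1 d0.le
  have d2 : 1.058 * d ≤ 2 * α ^ 2 - 1 := by linarith
  have d3 : p * d ≤ 1.384 := by
    have := mul_le_mul_of_nonneg_left d2 p0.le
    linarith
  obtain ⟨L, hL⟩ : ∃ L, L = p * (Real.log α - Real.log β) := ⟨_, rfl⟩
  have L1 : p * d / α ≤ L := by
    have := Real.one_sub_inv_le_log_of_pos (x := α / β) (by positivity)
    rw [Real.log_div hα.ne' hβ.ne', inv_div] at this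
    rw [hL, mul_div_assoc]
    refine mul_le_mul_of_nonneg_left (le_of_eq_of_le ?_ this) p0.le
    rw [hdd]; field_simp
  have L0 : 0 ≤ L := le_trans (by positivity) L1
  obtain ⟨w, hw⟩ : ∃ w, w = (p * d) ^ 2 / 4.224 := ⟨_, rfl⟩
  have w0 : 0 < w := by rw [hw]; positivity
  have w1 : w ≤ L ^ 2 / 8 := by
    have a := pow_le_pow_left₀ (by positivity) L1 2
    rw [div_pow, div_le_iff₀ (by positivity)] at a
    rw [hw, div_le_div_iff₀ (by norm_num) (by norm_num)]
    have := mul_le_mul_of_nonneg_left (by linarith : α ^ 2 ≤ 0.528) (sq_nonneg L)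
    linarith
  have w2 : w ≤ 0.4535 := by
    have := pow_le_pow_left₀ (by positivity) d3 2
    rw [hw, div_le_iff₀ (by norm_num)]; linarith
  have r1 : (β / α) ^ p = Real.exp (-L) := by
    rw [Real.rpow_def_of_pos (by positivity), Real.log_div hβ.ne' hα.ne', hL]; congr 1; ring
  have c1 : 2 * Real.exp (-(L / 2)) * (1 + w) ≤ 1 + (β / α) ^ p := by
    have a := Real.sum_le_exp_of_nonneg (x := L / 2) (by positivity) 4
    have b := exp_neg_ge3 (w := L / 2) (by positivity)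
    simp only [Finset.sum_range_succ, Finset.sum_range_zero, Nat.factorial] at a
    norm_num at a
    have c : 2 * (1 + w) ≤ Real.exp (L / 2) + Real.exp (-(L / 2)) := by linarith
    have e : Real.exp (-(L / 2)) * (Real.exp (L / 2) + Real.exp (-(L / 2))) = 1 + Real.exp (-L) := by
      rw [mul_add, ← Real.exp_add, ← Real.exp_add, neg_add_cancel, Real.exp_zero]; congr 2; ring
    rw [r1, ← e]
    have := mul_le_mul_of_nonneg_left c (Real.exp_pos (-(L / 2))).le
    linarith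
  have c2 : Real.log 2 - L / 2 + Real.log (1 + w) ≤ Real.log (1 + (β / α) ^ p) := by
    have := Real.log_le_log (by positivity) c1
    rw [Real.log_mul (by positivity) (by positivity), Real.log_mul (by positivity) (by positivity),
      Real.log_exp] at this
    linarith
  have c3 : w / 1.4535 ≤ Real.log (1 + w) := by
    refine le_trans ?_ (Real.one_sub_inv_le_log_of_pos (by positivity))
    rw [show 1 - (1 + w)⁻¹ = w / (1 + w) by field_simp; ring]
    gcongr; linarith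
  have c4 : -(Real.log 2 + Real.log α + Real.log β) < 6.22 * d ^ 2 := by
    have a := Real.one_sub_inv_le_log_of_pos (x := 2 * α * β) (by positivity)
    rw [Real.log_mul (by positivity) hβ.ne', Real.log_mul (by norm_num) hα.ne'] at a
    have e : 2 * α * β = 1 - (τ + d ^ 2) := by rw [hdd]; linarith
    have d4 : d ^ 2 ≤ 0.004 := by linarith
    have b : (2 * α * β)⁻¹ < 1 + 6.22 * d ^ 2 := by
      rw [inv_lt_iff_one_lt_mul₀ (by positivity), e]
      have h3 : 0 < d ^ 2 := pow_pos d0 2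
      have h1 : (τ + d ^ 2) * (1 + 6.22 * d ^ 2) < 6 * d ^ 2 * (1 + 6.22 * d ^ 2) :=
        mul_lt_mul_of_pos_right (by linarith) (by positivity)
      have h2 : d ^ 2 * d ^ 2 ≤ d ^ 2 * 0.004 := mul_le_mul_of_nonneg_left d4 h3.le
      linarith
    linarith
  have c5 : 3.11 * d ^ 2 * p ≤ w / 1.4535 := by
    rw [hw, div_div, le_div_iff₀ (by norm_num)]
    have : 0 < d ^ 2 * p := by positivity
    have := mul_le_mul_of_nonneg_left hp this.le
    linarith
  rw [I2, show π / (2 * α) * (1 + (β / α) ^ p) ^ (-(1 / p)) =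
    π / 2 * ((1 + (β / α) ^ p) ^ (-(1 / p)) / α) by field_simp, mul_left_comm]
  refine mul_lt_mul_of_pos_left ?_ (by positivity)
  rw [← Real.log_lt_log_iff (by positivity) (by positivity), Real.log_div (by positivity) hα.ne',
    Real.log_mul (by positivity) (by positivity), Real.log_rpow (by positivity),
    Real.log_rpow (by norm_num), Real.log_sqrt (by norm_num)]
  have c6 : 1 / p * (Real.log 2 - L / 2 + 3.11 * d ^ 2 * p) ≤ 1 / p * Real.log (1 + (β / α) ^ p) :=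
    mul_le_mul_of_nonneg_left (by linarith) (by positivity)
  have c7 : 1 / p * (Real.log 2 - L / 2 + 3.11 * d ^ 2 * p) =
      1 / p * Real.log 2 - (Real.log α - Real.log β) / 2 + 3.11 * d ^ 2 := by
    rw [hL]; field_simp
  linarith

theorem caseC {α : ℝ} (hα : 0 < α) (h2 : 4 ^ (1 / p) < 2 * α ^ 2) : π / (2 * α) < √2 * I2 p := by
  have hπ := Real.pi_pos
  have e4 := four_mul p
  have t0 : (0 : ℝ) < 2 ^ (-(1 / p)) := by positivity
  have a : 1 < √2 * 2 ^ (-(1 / p)) * α := by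
    refine lt_of_pow_lt_pow_left₀ 2 (by positivity) ?_
    rw [mul_pow, mul_pow, Real.sq_sqrt (by norm_num)]
    nlinarith [pow_pos t0 2]
  rw [div_lt_iff₀ (by positivity), I2]
  nlinarith

theorem compare (hp : 26.26 ≤ p) (hD : DD (1 / p) ≤ 0) {n : ℕ} (hn : 2 ≤ n) (a : Fin n → ℝ)
    (ha : ∀ j, 0 ≤ a j) (hs : ∑ j, a j ^ 2 = 1)
    (hne : ¬∃ i j, i ≠ j ∧ a i ^ 2 = 1 / 2 ∧ a j ^ 2 = 1 / 2) :
    ∫ s in Ioi (0 : ℝ), ∏ j, ff p (a j * s) < √2 * I2 p := by
  have h := pack hp hD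
  have h2 : 2 < p := by linarith
  have hπ := Real.pi_pos
  have : Nontrivial (Fin n) := Fin.nontrivial_iff_two_le.2 hn
  obtain ⟨i, -, hi⟩ := Finset.exists_max_image Finset.univ a Finset.univ_nonempty
  obtain ⟨k, hk, hk2⟩ := Finset.exists_max_image (Finset.univ.erase i) a
    (Finset.Nontrivial.erase_nonempty Finset.univ_nontrivial)
  have hki : k ≠ i := Finset.ne_of_mem_erase hk
  have s1 : a i ^ 2 + ∑ j ∈ Finset.univ.erase i, a j ^ 2 = 1 := by
    rw [Finset.add_sum_erase _ (fun j => a j ^ 2) (Finset.mem_univ i), hs]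
  set τ := ∑ j ∈ (Finset.univ.erase i).erase k, a j ^ 2 with hτ
  have s2 : a k ^ 2 + τ = ∑ j ∈ Finset.univ.erase i, a j ^ 2 :=
    Finset.add_sum_erase _ (fun j => a j ^ 2) hk
  have τ0 : 0 ≤ τ := Finset.sum_nonneg fun j _ => sq_nonneg _
  have hik : a k ≤ a i := hi k (Finset.mem_univ k)
  rcases le_or_gt (a i ^ 2) (1 / 2) with c1 | c1
  · have b1 : ∀ j, a j ^ 2 ≤ 1 / 2 := fun j =>
      (pow_le_pow_left₀ (ha j) (hi j (Finset.mem_univ j)) 2).trans c1
    have k0 : 0 < a k := by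
      rcases (ha k).eq_or_lt with h0 | h0
      · have : ∑ j ∈ Finset.univ.erase i, a j ^ 2 = 0 := Finset.sum_eq_zero fun j hj => by
          have := hk2 j hj
          rw [le_antisymm (this.trans h0.ge) (ha j)]; norm_num
        linarith
      · exact h0
    refine h.caseA _ a ha hs (fun j _ => b1 j) (Finset.mem_univ k) k0 ?_
    by_contra hc
    have e1 : a k ^ 2 = 1 / 2 := le_antisymm (b1 k) (not_lt.1 hc)
    have e2 : a i ^ 2 = 1 / 2 := le_antisymm c1 (e1 ▸ pow_le_pow_left₀ (ha k) hik 2)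
    exact hne ⟨k, i, hki, e1, e2⟩
  have i0 : 0 < a i := by
    rcases (ha i).eq_or_lt with h0 | h0
    · rw [← h0] at c1; norm_num at c1
    · exact h0
  simp only [← Finset.mul_prod_erase Finset.univ _ (Finset.mem_univ i)]
  rcases lt_or_ge (4 ^ (1 / p)) (2 * a i ^ 2) with c2 | c2
  · refine lt_of_le_of_lt ?_ (caseC i0 c2)
    have := (sup_prod h2 (Finset.univ.erase i) a (int_scale (int_ff h2) i0) (M := π / (2 * a i))
      fun x => by
        rw [one_phys h2 i0]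
        exact mul_le_of_le_one_right (by positivity) (K_le_one h2 (by positivity))).2 0
    rwa [cosT_zero] at this
  obtain ⟨-, δ2⟩ := delta_bound hp (δ := 2 * a i ^ 2 - 1) (by linarith)
  have c3 : a i ^ 2 ≤ 0.528 := by linarith
  set b := √(1 - a i ^ 2) with hb
  have b0 : 0 < b := Real.sqrt_pos.2 (by linarith)
  have b2 : b ^ 2 = 1 - a i ^ 2 := Real.sq_sqrt (by linarith)
  rcases le_total (a k ^ 2) (0.55 * b ^ 2) with c4 | c4
  · exact h.caseR3 _ a ha i0 b0 (by linarith) (by linarith) c1.le c3 fun j hj =>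
      (pow_le_pow_left₀ (ha j) (hk2 j hj) 2).trans c4
  rcases le_total 0.03 τ with c5 | c5
  · exact h.caseR2 _ a ha i0 b0 (by linarith) (by linarith) c1.le c3 hk c4 (by linarith)
  have k0 : 0 < a k := by
    rcases (ha k).eq_or_lt with h0 | h0
    · rw [← h0] at c4; nlinarith
    · exact h0
  simp only [← Finset.mul_prod_erase (Finset.univ.erase i) _ hk]
  rcases le_or_gt ((a i - a k) ^ 2) (τ / 5) with c6 | c6
  · refine h.caseR1a _ a k0 hik hτ.symm (by linarith) c3 ?_ c5 c6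
    rcases τ0.eq_or_lt with h0 | h0
    · have : a i - a k = 0 := by
        rw [← h0] at c6
        exact pow_eq_zero_iff two_ne_zero |>.1 (le_antisymm (by linarith) (sq_nonneg _))
      have : a k = a i := by linarith
      rw [this] at s2
      linarith
    · exact h0
  · refine lt_of_le_of_lt ?_ (caseR1b hp k0 hik (by linarith) c5 c1.le c2 τ0 c6)
    have := (sup_prod h2 ((Finset.univ.erase i).erase k) a
      (int_mul_ff h2 (int_scale (int_ff h2) i0) (a k)) (two_phys h2 i0 k0)).2 0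
    rw [cosT_zero] at this
    simpa only [mul_assoc] using this

end Pool.Agent.MP_39fec4_gt.Ball

end
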