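import Pool.Agent.Mg.F39fec4.G75407f
import Pool.Agent.Mg.F39fec4.G1a3f01
import Pool.Agent.MP_39fec4_gt.Defs
import Pool.Agent.Mg.F39fec4.Gc91473
import Pool.Agent.Mg.F39fec4.Gdac099

section

set_option autoImplicit false

namespace Pool.Agent.MP_39fec4_gt

open MeasureTheory Set Filter Topology

noncomputable def ZZ (η : ℝ) : ℝ := cosT (kk η) 0

noncomputable def gam (η s : ℝ) : ℝ := cosT (kk η) s / ZZ η

noncomputable def gam1 (η s : ℝ) : ℝ := -sinT (fun x => x ^ 1 * kk η x) s / ZZ η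

noncomputable def gam2 (η s : ℝ) : ℝ := -cosT (fun x => x ^ 2 * kk η x) s / ZZ η

noncomputable def GG (η τ : ℝ) : ℝ := gam η (√τ)

variable {η : ℝ}

theorem div_le_two_mul {a b z : ℝ} (hz : 1 / 2 ≤ z) (h : |a| ≤ b) : |a / z| ≤ 2 * b := by
  have hb : 0 ≤ b := (abs_nonneg a).trans h
  rw [abs_div, abs_of_pos (by linarith : 0 < z), div_le_iff₀ (by linarith)]
  nlinarith

theorem quartic_exp_le {s T : ℝ} (hT : T ≤ s ^ 2) :
    s ^ 4 * Real.exp (-s ^ 2 / 4) ≤ 1600 * Real.exp (-T / 5) := by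
  have h1 := sq_mul_exp_neg_le (y := s ^ 2 / 20) (by positivity)
  have h2 : Real.exp (-s ^ 2 / 4) = Real.exp (-(s ^ 2 / 20)) * Real.exp (-s ^ 2 / 5) := by
    rw [← Real.exp_add]; congr 1; ring
  have h3 : Real.exp (-s ^ 2 / 5) ≤ Real.exp (-T / 5) := Real.exp_le_exp.2 (by linarith)
  calc _ = 400 * ((s ^ 2 / 20) ^ 2 * Real.exp (-(s ^ 2 / 20))) * Real.exp (-s ^ 2 / 5) := by
        rw [h2]; ring
    _ ≤ 400 * 4 * Real.exp (-T / 5) := by gcongr
    _ = _ := by ring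

section
variable (h0 : 0 < η) (h1 : η ≤ 1) (hK : KK * η ≤ 1 / 1000)
include h0 h1

theorem hasDerivAt_gam (s : ℝ) : HasDerivAt (gam η) (gam1 η s) s :=
  (hasDerivAt_cosT (int_kk0 h0 h1) (int_kk h0 h1 (j := 1) (by norm_num))
    (fun x _ => by simp) s).div_const _

theorem hasDerivAt_gam1 (s : ℝ) : HasDerivAt (gam1 η) (gam2 η s) s :=
  (hasDerivAt_sinT (int_kk h0 h1 (j := 1) (by norm_num)) (int_kk h0 h1 (j := 2) (by norm_num))
    (fun x _ => by ring) s).neg.div_const _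

theorem ZZ_eq : ZZ η = Z2 + cosT (dd η) 0 := by
  rw [ZZ, cos_kk h0 h1]; simp

include hK

theorem ZZ_bounds : 1 / 2 ≤ ZZ η ∧ ZZ η ≤ 2 := by
  have := abs_le.1 (D_le h0 h1 0)
  have := Z2_bounds
  rw [ZZ_eq h0 h1]
  constructor <;> linarith

theorem gam_abs (s : ℝ) : |gam η s| ≤ 1 := by
  have hZ := (ZZ_bounds h0 h1 hK).1
  have := abs_cosT_le (int_kk0 h0 h1) (fun x _ => (abs_of_pos (kk_pos η x)).le) s
  rw [← cosT_zero] at this
  rw [gam, abs_div, abs_of_pos (by linarith : 0 < ZZ η), div_le_one (by linarith)]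
  exact this

theorem gam_sub (s : ℝ) : |gam η s - Real.exp (-s ^ 2 / 4)| ≤ 12 * (KK * η) ∧
    |gam η s - Real.exp (-s ^ 2 / 4)| ≤ 8 * (KK * η) * s ^ 2 := by
  have hZ := (ZZ_bounds h0 h1 hK).1
  have e : gam η s - Real.exp (-s ^ 2 / 4) =
      (cosT (dd η) s - cosT (dd η) 0 * Real.exp (-s ^ 2 / 4)) / ZZ η := by
    rw [gam, cos_kk h0 h1, eq_div_iff (by linarith), sub_mul, div_mul_cancel₀ _ (by linarith),
      ZZ_eq h0 h1]
    ring
  have a1 := D_le h0 h1 s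
  have a2 := D_le h0 h1 0
  have a3 := D_sub_le h0 h1 s
  have b1 := Real.exp_pos (-s ^ 2 / 4)
  have b2 : Real.exp (-s ^ 2 / 4) ≤ 1 := Real.exp_le_one_iff.2 (by nlinarith [sq_nonneg s])
  have b3 := Real.add_one_le_exp (-s ^ 2 / 4)
  have hp : 0 ≤ η * KK := mul_nonneg h0.le KK_nonneg
  rw [e]
  constructor
  · refine (div_le_two_mul (b := 6 * (KK * η)) hZ ?_).trans (by linarith)
    refine (abs_sub _ _).trans ?_
    rw [abs_mul, abs_of_pos b1]
    have := mul_le_mul a2 b2 b1.le (by linarith)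
    linarith
  · refine (div_le_two_mul (b := 4 * (KK * η) * s ^ 2) hZ ?_).trans (by linarith)
    rw [show cosT (dd η) s - cosT (dd η) 0 * Real.exp (-s ^ 2 / 4) =
      (cosT (dd η) s - cosT (dd η) 0) + cosT (dd η) 0 * (1 - Real.exp (-s ^ 2 / 4)) by ring]
    refine (abs_add_le _ _).trans ?_
    rw [abs_mul, abs_of_nonneg (sub_nonneg.2 b2)]
    have := mul_le_mul a2 (by linarith : 1 - Real.exp (-s ^ 2 / 4) ≤ s ^ 2 / 4) (by linarith)
      (by linarith)
    nlinarith [mul_nonneg hp (sq_nonneg s)]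

theorem gam_tail {s T : ℝ} (hs : 1 ≤ s) (hT : T ≤ s ^ 2) :
    s ^ 2 * |gam η s| ≤ 3200 * Real.exp (-T / 5) + 1200 * (KK * η) ∧
    s ^ 2 * |gam1 η s| ≤ 3200 * Real.exp (-T / 5) + 1200 * (KK * η) ∧
    s ^ 2 * |gam2 η s| ≤ 3200 * Real.exp (-T / 5) + 1200 * (KK * η) := by
  have hZ := (ZZ_bounds h0 h1 hK).1
  have hq := quartic_exp_le hT
  have hp : 0 ≤ η * KK := mul_nonneg h0.le KK_nonneg
  have key : ∀ a b : ℝ, s ^ 2 * |a| ≤ s ^ 4 → s ^ 2 * |b| ≤ 600 * η * KK →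
      s ^ 2 * |(a * (Z2 * Real.exp (-s ^ 2 / 4)) + b) / ZZ η| ≤
        3200 * Real.exp (-T / 5) + 1200 * (KK * η) := fun a b ha hb => by
    rw [← abs_of_nonneg (sq_nonneg s), ← abs_mul, ← mul_div_assoc]
    refine (div_le_two_mul (b := 1600 * Real.exp (-T / 5) + 600 * η * KK) hZ ?_).trans
      (by linarith)
    rw [mul_add]
    refine (abs_add_le _ _).trans (add_le_add (le_trans ?_ hq) ?_)
    · have z := Z2_bounds
      rw [abs_mul, abs_mul, abs_mul, abs_of_nonneg (sq_nonneg s), abs_of_pos (Real.exp_pos _),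
        abs_of_pos (by linarith : 0 < Z2), ← mul_assoc]
      exact mul_le_mul ha (mul_le_of_le_one_left (Real.exp_pos _).le z.2)
        (mul_nonneg (by linarith) (Real.exp_pos _).le) (by positivity)
    · rwa [abs_mul, abs_of_nonneg (sq_nonneg s)]
  have s2 : 1 ≤ s ^ 2 := one_le_pow₀ hs
  have s4 : s ^ 4 = s ^ 2 * s ^ 2 := by ring
  refine ⟨?_, ?_, ?_⟩
  · have := key 1 _ (by rw [s4, abs_one]; gcongr) ((D0_tail h0 h1 s).trans (by linarith))
    rwa [one_mul, ← cos_kk h0 h1] at this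
  · have := key (s / 2) _ (by
      rw [s4, abs_of_pos (by linarith)]; gcongr; nlinarith) ((D1_tail h0 h1 s).trans (by linarith))
    rwa [← sin_kk1 h0 h1, ← abs_neg, ← neg_div] at this
  · have := key (1 / 2 - s ^ 2 / 4) _ (by
      rw [s4]; gcongr; rw [abs_le]; constructor <;> linarith) (D2_tail h0 h1 s)
    rwa [← cos_kk2 h0 h1, ← abs_neg, ← neg_div] at this

end

theorem EE_sqrt {τ : ℝ} (hτ : 0 ≤ τ) : EE (√τ) = Real.exp (τ / 4) := by
  rw [EE, Real.sq_sqrt hτ]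

theorem pack (h0 : 0 < η) (h1 : η ≤ 1) {τ0 ε : ℝ} (hτ : 6 ≤ τ0)
    (hs : KK * η * Real.exp (τ0 / 4) ≤ 1 / 1000)
    (hε : 3200 * Real.exp (-(9 / 10 * τ0) / 5) + 1200 * (KK * η) ≤ ε) :
    Pack (GG η) η (1 / 800) (4 * KK) τ0 ε := by
  have hp : 0 ≤ KK * η := mul_nonneg KK_nonneg h0.le
  have hK : KK * η ≤ 1 / 1000 :=
    (le_mul_of_one_le_right hp (Real.one_le_exp (by linarith))).trans hs
  obtain ⟨hZ1, hZ2⟩ := ZZ_bounds h0 h1 hK
  have hZ : 0 < ZZ η := by linarith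
  have hsub : ∀ τ, 0 ≤ τ → |GG η τ - Real.exp (-τ / 4)| ≤ 12 * (KK * η) ∧
      |GG η τ - Real.exp (-τ / 4)| ≤ 8 * (KK * η) * τ := fun τ hτ => by
    have := gam_sub h0 h1 hK (√τ)
    rwa [Real.sq_sqrt hτ] at this
  have hee : ∀ τ : ℝ, Real.exp (τ / 4) * Real.exp (-τ / 4) = 1 := fun τ => by
    rw [← Real.exp_add]; simp [neg_div]
  have hmain : ∀ τ, 0 ≤ τ → τ ≤ τ0 → |Real.exp (τ / 4) * GG η τ - 1| ≤ 1 / 2 := fun τ a b => by
    rw [← hee τ, ← mul_sub, abs_mul, abs_of_pos (Real.exp_pos _), hee]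
    have : Real.exp (τ / 4) ≤ Real.exp (τ0 / 4) := Real.exp_le_exp.2 (by linarith)
    have := mul_le_mul this (hsub τ a).1 (abs_nonneg _) (Real.exp_pos _).le
    linarith
  have hm : (1 / 2 : ℝ) ≤ cosT (W η) 0 := by
    have := m_lower h0 h1
    have := Z2_bounds
    linarith
  have hsplit : ∀ τ, 0 ≤ τ → Real.exp (τ / 4) * GG η τ =
      (h0f η (√τ) + EE (√τ) * cosT (rr η) (√τ)) / ZZ η := fun τ hτ => by
    rw [← cos_kk_split h0 h1, GG, gam, EE_sqrt hτ, mul_div_assoc]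
  refine ⟨?_, fun τ => gam_abs h0 h1 hK _, ?_, fun τ a _ => ?_, fun τ a b => ?_, fun τ a b => ?_,
    fun τ a b => ?_, ?_, ?_, ?_⟩
  · exact (continuous_iff_continuousAt.2 fun s => (hasDerivAt_gam h0 h1 s).continuousAt).comp
      Real.continuous_sqrt
  · rw [GG, Real.sqrt_zero, gam]; exact div_self hZ.ne'
  · have := (abs_le.1 (hsub τ a).2).1
    have := Real.add_one_le_exp (-τ / 4)
    nlinarith
  · linarith [(abs_le.1 (hmain τ a b)).1]
  · linarith [(abs_le.1 (hmain τ a b)).2]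
  · have a1 := (abs_le.1 (hsub τ a).2).2
    have a2 : Real.exp (τ / 4) ≤ Real.exp (τ0 / 4) := Real.exp_le_exp.2 (by linarith)
    have a3 : Real.exp (-τ / 5) = Real.exp (-τ / 4) * Real.exp (τ / 20) := by
      rw [← Real.exp_add]; congr 1; ring
    have a4 := Real.add_one_le_exp (τ / 20)
    have a5 := Real.exp_pos (-τ / 4)
    have a6 : KK * η ≤ Real.exp (-τ / 4) / 1000 := by
      calc KK * η = KK * η * Real.exp (τ / 4) * Real.exp (-τ / 4) := by
            rw [mul_assoc, hee, mul_one]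
        _ ≤ 1 / 1000 * Real.exp (-τ / 4) := by gcongr; exact le_trans (by gcongr) hs
        _ = _ := by ring
    rw [a3]
    nlinarith [mul_le_mul_of_nonneg_left a4 a5.le, mul_le_mul_of_nonneg_right a6 a,
      mul_nonneg a5.le a]
  · have := concaveOn_comp_sqrt (h := fun s => (h0f η s + EE s * cosT (rr η) s) / ZZ η)
      (h1 := fun s => (h1f η s + rho1 η s) / ZZ η) (h2 := fun s => (h2f η s + rho2 η s) / ZZ η)
      (fun s => ((hasDerivAt_h0f h0 s).add (hasDerivAt_rho h0 h1 s)).div_const _)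
      (fun s => ((hasDerivAt_h1f h0 s).add (hasDerivAt_rho1 h0 h1 s)).div_const _)
      (convex_Icc 0 τ0) (b := 1 / 800 * η) (fun τ hτ => by
        rw [interior_Icc] at hτ; exact hτ.1) (fun τ hτ => by
        rw [interior_Icc] at hτ
        have a1 := h0f_conc h0 h1 (by norm_num) hm (Real.sqrt_nonneg τ)
        have a2 := rho_le h0 h1 (Real.sqrt_nonneg τ)
        rw [EE_sqrt hτ.1.le] at a2
        have a3 : Real.exp (τ / 4) ≤ Real.exp (τ0 / 4) := Real.exp_le_exp.2 (by linarith [hτ.2])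
        have a4 : 0 ≤ η * √τ ^ 3 := by positivity
        have a5 : Real.exp (τ / 4) * (3 * η ^ 2 * KK * √τ ^ 3) ≤ 3 / 1000 * (η * √τ ^ 3) := by
          calc _ = 3 * (KK * η * Real.exp (τ / 4)) * (η * √τ ^ 3) := by ring
            _ ≤ 3 * (1 / 1000) * (η * √τ ^ 3) := by gcongr; exact le_trans (by gcongr) hs
            _ = _ := by ring
        rw [← mul_div_assoc, ← sub_div, div_le_iff₀ hZ]
        nlinarith [mul_le_mul_of_nonneg_left hZ2 a4])
    exact this.congr fun τ hτ => by simp only [hsplit τ hτ.1]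
  · have := concaveOn_comp_sqrt (h := fun s => (h0f η s + cosT (rr η) 0) / ZZ η)
      (h1 := fun s => h1f η s / ZZ η) (h2 := fun s => h2f η s / ZZ η)
      (fun s => ((hasDerivAt_h0f h0 s).add_const _).div_const _)
      (fun s => (hasDerivAt_h1f h0 s).div_const _)
      (convex_Ici 0) (b := 0) (fun τ hτ => by simpa using hτ) (fun τ _ => by
        have a1 := h0f_conc h0 h1 (by norm_num) hm (Real.sqrt_nonneg τ)
        have a4 : 0 ≤ η * √τ ^ 3 := by positivity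
        rw [← mul_div_assoc, ← sub_div, div_le_iff₀ hZ]
        nlinarith)
    have hq : 0 ≤ η ^ 2 * KK := mul_nonneg (sq_nonneg η) KK_nonneg
    refine ⟨_, this, fun τ a => ?_, fun τ a => ?_⟩
    · rw [hsplit τ a, zero_mul, add_zero, ← sub_div, EE_sqrt a]
      refine (div_le_two_mul (b := 2 * KK * η ^ 2 * τ * Real.exp (τ / 4)) hZ1 ?_).trans
        (by linarith)
      have a1 := R_sub_le h0 h1 (√τ)
      have a2 := R_le h0 h1 0
      rw [Real.sq_sqrt a] at a1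
      have a3 : Real.exp (τ / 4) - 1 ≤ τ * Real.exp (τ / 4) := by
        have := Real.add_one_le_exp (-τ / 4)
        have := hee τ
        have := Real.exp_pos (τ / 4)
        nlinarith
      have a4 : 1 ≤ Real.exp (τ / 4) := Real.one_le_exp (by linarith)
      rw [show h0f η (√τ) + Real.exp (τ / 4) * cosT (rr η) (√τ) - (h0f η (√τ) + cosT (rr η) 0) =
        Real.exp (τ / 4) * (cosT (rr η) (√τ) - cosT (rr η) 0) +
          (Real.exp (τ / 4) - 1) * cosT (rr η) 0 by ring]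
      refine (abs_add_le _ _).trans ?_
      rw [abs_mul, abs_mul, abs_of_pos (Real.exp_pos _), abs_of_nonneg (sub_nonneg.2 a4)]
      have b1 := mul_le_mul_of_nonneg_left a1 (Real.exp_pos (τ / 4)).le
      have b2 := mul_le_mul a3 a2 (abs_nonneg _) (by positivity)
      linarith
    · have e : GG η τ = Real.exp (-τ / 4) * ((h0f η (√τ) + cosT (rr η) 0) / ZZ η) +
          (cosT (rr η) (√τ) - Real.exp (-τ / 4) * cosT (rr η) 0) / ZZ η := by
        have : GG η τ = Real.exp (-τ / 4) * (Real.exp (τ / 4) * GG η τ) := by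
          rw [← mul_assoc, mul_comm (Real.exp _), hee, one_mul]
        rw [this, hsplit τ a, EE_sqrt a]
        linear_combination cosT (rr η) (√τ) / ZZ η * hee τ
      rw [zero_mul, add_zero, e]
      gcongr
      refine (le_abs_self _).trans ((div_le_two_mul (b := 2 * (η ^ 2 * KK)) hZ1 ?_).trans
        (by linarith))
      refine (abs_sub _ _).trans ?_
      have b2 : Real.exp (-τ / 4) ≤ 1 := Real.exp_le_one_iff.2 (by linarith)
      rw [abs_mul, abs_of_pos (Real.exp_pos _)]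
      have := mul_le_mul b2 (R_le h0 h1 0) (abs_nonneg _) zero_le_one
      linarith [R_le h0 h1 (√τ)]
  · refine ⟨_, _, fun τ hτ => hasDerivAt_comp_sqrt (hasDerivAt_gam h0 h1) (hasDerivAt_gam1 h0 h1)
      hτ, fun τ a => ?_⟩
    have t1 : 1 ≤ τ := by linarith
    have s1 : 1 ≤ √τ := Real.one_le_sqrt.2 t1
    have s2 : √τ ^ 2 = τ := Real.sq_sqrt (by linarith)
    obtain ⟨b0, b1, b2⟩ := gam_tail h0 h1 hK s1 (T := 9 / 10 * τ0) (by rw [s2]; exact a)
    replace b0 := b0.trans hε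
    replace b1 := b1.trans hε
    replace b2 := b2.trans hε
    generalize √τ = s at *
    subst s2
    have sp : 0 < s := by linarith
    refine ⟨by rwa [GG, Real.sqrt_sq sp.le], ?_, ?_⟩
    · have : (s ^ 2) ^ 3 * (gam1 η s / (2 * s)) ^ 2 = (s ^ 2 * |gam1 η s|) ^ 2 / 4 := by
        rw [mul_pow, sq_abs]; field_simp; ring
      rw [this]
      have := pow_le_pow_left₀ (by positivity) b1 2
      nlinarith [sq_nonneg ε]
    · have : (s ^ 2) ^ 2 * |(s * gam2 η s - gam1 η s) / (4 * s ^ 3)| =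
          s * |s * gam2 η s - gam1 η s| / 4 := by
        rw [abs_div, abs_of_pos (by positivity : 0 < 4 * s ^ 3)]; field_simp
      rw [this]
      have c1 := abs_sub (s * gam2 η s) (gam1 η s)
      rw [abs_mul, abs_of_pos sp] at c1
      have c2 : s * |gam1 η s| ≤ s ^ 2 * |gam1 η s| := by gcongr; nlinarith
      have c3 := mul_le_mul_of_nonneg_left c1 sp.le
      have c4 : 0 ≤ s ^ 2 * |gam1 η s| := by positivity
      nlinarith

/-- The comparison for all small `η`. -/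
theorem compare_small : ∃ η0 : ℝ, 0 < η0 ∧ η0 ≤ 1 ∧ ∀ η, 0 < η → η < η0 → KK * η ≤ 1 / 1000 ∧
    ∀ n : ℕ, 2 ≤ n → ∀ t : Fin n → ℝ, (∀ j, 0 ≤ t j) → ∑ j, t j = 1 →
    IntegrableOn (fun s : ℝ => ∏ j, GG η (t j * s ^ 2)) (Ioi 0) ∧ ((∃ j, t j ≠ 1 / n) →
    ∫ s in Ioi (0 : ℝ), ∏ j, GG η (t j * s ^ 2) < ∫ s in Ioi (0 : ℝ), GG η (s ^ 2 / n) ^ n) := by
  have hK := KK_nonneg
  set M : ℝ := 10 ^ 20 * (1 + KK) ^ 2 with hM
  have hK1 : 1 ≤ (1 + KK) ^ 2 := one_le_pow₀ (by linarith)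
  have hK2 : KK ≤ (1 + KK) ^ 2 := by nlinarith
  have hM1 : 10 ^ 20 ≤ M := by rw [hM]; linarith
  have hM0 : 0 < M := by linarith
  have hi : 1 / M ≤ 1 := by rw [div_le_one hM0]; linarith
  refine ⟨(1 / M) ^ 90, by positivity, pow_le_one₀ (by positivity) hi, fun η h0 hη => ?_⟩
  obtain ⟨θ, hθ, rfl⟩ : ∃ θ : ℝ, 0 < θ ∧ η = θ ^ 90 :=
    ⟨η ^ ((90 : ℕ) : ℝ)⁻¹, by positivity, (Real.rpow_inv_natCast_pow h0.le (by norm_num)).symm⟩
  have hθM : θ < 1 / M := lt_of_pow_lt_pow_left₀ 90 (by positivity) hη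
  have hMθ : M * θ ≤ 1 := by
    rw [lt_div_iff₀ hM0] at hθM; linarith
  have hθ1 : θ ≤ 1 / 10 ^ 20 := by
    rw [le_div_iff₀ (by positivity)]; nlinarith
  have hKθ : KK * θ ≤ 1 / 10 ^ 20 := by
    rw [le_div_iff₀ (by positivity)]; nlinarith
  have hθ2 : θ ≤ 1 := by linarith
  have hpow : ∀ k : ℕ, θ ^ (k + 1) ≤ θ := fun k => pow_le_of_le_one hθ.le hθ2 (by omega)
  have hKpow : ∀ k : ℕ, KK * θ ^ (k + 1) ≤ 1 / 10 ^ 20 := fun k =>
    (mul_le_mul_of_nonneg_left (hpow k) hK).trans hKθ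
  have hpow' : ∀ k : ℕ, θ ^ (k + 1) ≤ 1 / 10 ^ 20 := fun k => (hpow k).trans hθ1
  set L : ℝ := -Real.log θ with hL
  have hexp : ∀ k : ℕ, Real.exp (-(k * L)) = θ ^ k := fun k => by
    rw [hL, mul_neg, neg_neg, Real.exp_nat_mul, Real.exp_log hθ]
  have hL1 : 1 ≤ L := by
    rw [hL, le_neg, Real.log_le_iff_le_exp hθ]
    have := Real.add_one_le_exp (-1 / 2)
    have e : Real.exp (-1) = Real.exp (-1 / 2) * Real.exp (-1 / 2) := by
      rw [← Real.exp_add]; norm_num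
    nlinarith
  have hL2 : L * θ ≤ 1 := by
    have := (abs_lt.1 (Real.abs_log_mul_self_lt θ hθ hθ2)).1
    rw [hL]; linarith
  have he4 : Real.exp (300 * L / 4) * θ ^ 75 = 1 := by
    rw [← hexp, ← Real.exp_add]; push_cast; ring_nf; exact Real.exp_zero
  have hP := pack (η := θ ^ 90) h0 (pow_le_one₀ hθ.le hθ2) (τ0 := 300 * L)
    (ε := (3200 + 1200 * KK) * θ ^ 54) (by linarith)
    (by
      calc KK * θ ^ 90 * Real.exp (300 * L / 4)
          = KK * θ ^ (14 + 1) * (Real.exp (300 * L / 4) * θ ^ 75) := by ring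
        _ ≤ _ := by rw [he4]; linarith [hKpow 14])
    (by
      rw [show -(9 / 10 * (300 * L)) / 5 = -((54 : ℕ) * L) by push_cast; ring, hexp]
      have : θ ^ 90 ≤ θ ^ 54 := pow_le_pow_of_le_one hθ.le hθ2 (by norm_num)
      nlinarith)
  refine ⟨by linarith [hKpow 89], fun n hn t ht hs => ⟨hP.integrable_prod (by omega) t hs,
    fun hne => ?_⟩⟩
  refine hP.compare (r := θ ^ 45) (κ := 1 / 10 ^ 14) (by positivity) (by ring) (by norm_num)
    (by linarith [hpow' 89]) (by linarith) (by linarith) (by positivity) ?_ ?_ ?_ (by norm_num)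
    (by norm_num) ?_ ?_ ?_ hn t ht hs hne
  · linarith [hpow' 53, hKpow 53]
  · calc 8 * (4 * KK) * (θ ^ 90) ^ 2 * (300 * L) * Real.exp (300 * L / 4)
        = 9600 * (KK * θ ^ (103 + 1)) * (L * θ) * (Real.exp (300 * L / 4) * θ ^ 75) := by ring
      _ ≤ 9600 * (1 / 10 ^ 20) * 1 * 1 := by rw [he4]; gcongr; exact hKpow 103
      _ ≤ 1 := by norm_num
  · calc 2 * (300 * L) * θ ^ 90 = 600 * θ ^ (88 + 1) * (L * θ) := by ring
      _ ≤ 600 * (1 / 10 ^ 20) * 1 := by gcongr; exact (hpow 88).trans hθ1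
      _ ≤ 1 := by norm_num
  · calc (3200 + 1200 * KK) * θ ^ 54 = (3200 * θ ^ (8 + 1) + 1200 * (KK * θ ^ (8 + 1))) * θ ^ 45 := by
          ring
      _ ≤ _ := by gcongr; linarith [hpow' 8, hKpow 8]
  · rw [show -(300 * L) / 3 = -((100 : ℕ) * L) by push_cast; ring, hexp]
    calc θ ^ 100 = θ ^ (9 + 1) * θ ^ 90 := by ring
      _ ≤ _ := by gcongr; linarith [hpow' 9]
  · linarith [hKpow 44]

end Pool.Agent.MP_39fec4_gt

end

section

set_option autoImplicit false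

namespace Pool.Agent.MP_39fec4_gt

open MeasureTheory Set Filter Topology Module WithLp
open scoped FourierTransform RealInnerProductSpace

theorem section_eq {p : ℝ} (hp : 1 ≤ p) {n : ℕ} (hn : 2 ≤ n) (a : EuclideanSpace ℝ (Fin n))
    (ha : ‖a‖ = 1) : sectionVol p a = ENNReal.ofReal
      ((∫ y : (ℝ ∙ a)ᗮ, ∏ j, Real.exp (-|(y : EuclideanSpace ℝ (Fin n)) j| ^ p)) /
        Real.Gamma (((n - 1 : ℕ) : ℝ) / p + 1)) := by
  have h₁ : 0 < p := by linarith
  have ha0 : a ≠ 0 := fun h => by simp [h] at ha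
  have hrank : finrank ℝ (ℝ ∙ a)ᗮ = n - 1 := by
    have := (ℝ ∙ a).finrank_add_finrank_orthogonal
    rw [finrank_span_singleton ha0, finrank_euclideanSpace_fin] at this
    omega
  have : Nontrivial (ℝ ∙ a)ᗮ := Module.nontrivial_of_finrank_pos (R := ℝ) (by omega)
  have hset : {x : EuclideanSpace ℝ (Fin n) | pNorm p x ≤ 1 ∧ ∑ j, x j * a j = 0} =
      Subtype.val '' {y : (ℝ ∙ a)ᗮ | pNorm p (y : EuclideanSpace ℝ (Fin n)) ≤ 1} := by
    ext x
    simp only [mem_ofPred_eq, mem_image, Subtype.exists, exists_and_right, exists_eq_right,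
      Submodule.mem_orthogonal_singleton_iff_inner_right, PiLp.inner_apply, exists_prop]
    simp [and_comm]
  have htr : (ENNReal.ofReal p).toReal = p := ENNReal.toReal_ofReal h₁.le
  have : Fact (1 ≤ ENNReal.ofReal p) :=
    fact_iff.mpr (ENNReal.ofReal_one ▸ (ENNReal.ofReal_le_ofReal hp))
  have eq_norm : ∀ x : EuclideanSpace ℝ (Fin n), pNorm p x = ‖toLp (.ofReal p) (ofLp x)‖ :=
    fun x => by simp [pNorm, PiLp.norm_eq_sum (f := toLp (.ofReal p) (ofLp x)) (htr.symm ▸ h₁), htr]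
  have g1 : pNorm p ((0 : (ℝ ∙ a)ᗮ) : EuclideanSpace ℝ (Fin n)) = 0 := by simp [eq_norm]
  have g2 : ∀ y : (ℝ ∙ a)ᗮ, pNorm p ((-y : (ℝ ∙ a)ᗮ) : EuclideanSpace ℝ (Fin n)) =
      pNorm p (y : EuclideanSpace ℝ (Fin n)) := fun y => by simp [eq_norm]
  have g3 : ∀ y z : (ℝ ∙ a)ᗮ, pNorm p ((y + z : (ℝ ∙ a)ᗮ) : EuclideanSpace ℝ (Fin n)) ≤
      pNorm p (y : EuclideanSpace ℝ (Fin n)) + pNorm p (z : EuclideanSpace ℝ (Fin n)) :=
    fun y z => by
      simp only [eq_norm, Submodule.coe_add, ofLp_add, toLp_add]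
      exact norm_add_le _ _
  have g4 : ∀ {y : (ℝ ∙ a)ᗮ}, pNorm p (y : EuclideanSpace ℝ (Fin n)) = 0 → y = 0 := fun h => by
    simpa [eq_norm] using h
  have g5 : ∀ (r : ℝ) (y : (ℝ ∙ a)ᗮ), pNorm p ((r • y : (ℝ ∙ a)ᗮ) : EuclideanSpace ℝ (Fin n)) ≤
      |r| * pNorm p (y : EuclideanSpace ℝ (Fin n)) := fun r y => by
    simp only [eq_norm, Submodule.coe_smul, ofLp_smul, toLp_smul]
    exact norm_smul_le r _
  rw [sectionVol, hset, isometry_subtype_coe.euclideanHausdorffMeasure_image, ← hrank,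
    InnerProductSpace.euclideanHausdorffMeasure_eq_volume,
    measure_le_eq_lt volume (g := fun y : (ℝ ∙ a)ᗮ => pNorm p (y : EuclideanSpace ℝ (Fin n)))
      g1 g2 g3 g4 g5 1,
    measure_lt_one_eq_integral_div_gamma volume
      (g := fun y : (ℝ ∙ a)ᗮ => pNorm p (y : EuclideanSpace ℝ (Fin n))) g1 g2 g3 g4 g5 h₁]
  congr 3
  funext y
  rw [pNorm, ← Real.rpow_mul (by positivity), one_div_mul_cancel h₁.ne', Real.rpow_one,
    ← Finset.sum_neg_distrib, Real.exp_sum]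

variable {η : ℝ}

theorem kk_abs (h0 : 0 < η) (t : ℝ) : Real.exp (-|t| ^ (2 + η)) = kk η |t| := by
  rw [kk, Real.rpow_add' (abs_nonneg t) (by linarith), Real.rpow_two]

theorem integral_eq (h0 : 0 < η) (h1 : η ≤ 1) (hK : KK * η ≤ 1 / 1000) {n : ℕ}
    (a : EuclideanSpace ℝ (Fin n)) (ha : ‖a‖ = 1)
    (hi : IntegrableOn (fun s : ℝ => ∏ j, GG η (a j ^ 2 * s ^ 2)) (Ioi 0)) :
    ∫ y : (ℝ ∙ a)ᗮ, ∏ j, Real.exp (-|(y : EuclideanSpace ℝ (Fin n)) j| ^ (2 + η)) =
      (2 * ZZ η) ^ n / Real.pi * ∫ s in Ioi (0 : ℝ), ∏ j, GG η (a j ^ 2 * s ^ 2) := by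
  have hZ : 0 < ZZ η := by linarith [(ZZ_bounds h0 h1 hK).1]
  have hπ : 0 < 2 * Real.pi := by positivity
  set P : ℝ → ℝ := fun s => ∏ j, GG η (a j ^ 2 * s ^ 2) with hP
  have hF : ∀ w : ℝ, 𝓕 (fun x : EuclideanSpace ℝ (Fin n) => ∏ j, ((kk η |x j| : ℝ) : ℂ)) (w • a) =
      (((2 * ZZ η) ^ n * P |2 * Real.pi * w| : ℝ) : ℂ) := fun w => by
    rw [fourier_prod (fun t => ((kk η |t| : ℝ) : ℂ))]
    simp_rw [fourier_even (int_kk0 h0 h1)]
    rw [← Complex.ofReal_prod, hP]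
    congr 1
    rw [← Fin.prod_const, ← Finset.prod_mul_distrib]
    refine Finset.prod_congr rfl fun j _ => ?_
    rw [sq_abs, ← mul_pow, GG, Real.sqrt_sq_eq_abs, gam, cosT_abs, mul_assoc 2 (ZZ η),
      mul_div_cancel₀ _ hZ.ne', cosT]
    simp only [PiLp.smul_apply, smul_eq_mul]
    congr 2; funext x; congr 2; ring
  have iP : Integrable fun w => P |2 * Real.pi * w| :=
    (integrable_comp_abs' hi).comp_mul_left' hπ.ne'
  have hc := cont_kk h0
  have := slice a ha (F := fun x : EuclideanSpace ℝ (Fin n) => ∏ j, ((kk η |x j| : ℝ) : ℂ))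
    (by fun_prop) (C := 3 ^ n) (fun x => by
      rw [← Complex.ofReal_prod, Complex.norm_real, Real.norm_eq_abs,
        abs_of_nonneg (Finset.prod_nonneg fun j _ => (kk_pos _ _).le),
        EuclideanSpace.real_norm_sq_eq, ← Finset.sum_neg_distrib, Real.exp_sum, ← Fin.prod_const,
        ← Finset.prod_mul_distrib]
      refine Finset.prod_le_prod (fun j _ => (kk_pos _ _).le) fun j _ => ?_
      rcases (abs_nonneg (x j)).eq_or_lt with h | h
      · have : x j = 0 := abs_eq_zero.1 h.symm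
        simp [this, kk]
      · simpa [gg] using kk_le h0 h1 h)
    (by simp_rw [hF]; exact (iP.const_mul _).ofReal)
  simp_rw [hF, ← Complex.ofReal_prod] at this
  rw [integral_complex_ofReal, integral_complex_ofReal, Complex.ofReal_inj, integral_const_mul,
    Measure.integral_comp_mul_left (fun s => P |s|), integral_comp_abs] at this
  simp_rw [kk_abs h0]
  rw [this, abs_of_pos (inv_pos.2 hπ), smul_eq_mul]
  field_simp

theorem main : ∃ p₁ : ℝ, 2 < p₁ ∧ ∀ p : ℝ, 2 < p → p < p₁ → ∀ n : ℕ, 2 ≤ n →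
    ∀ a : EuclideanSpace ℝ (Fin n), ‖a‖ = 1 →
      ((∀ b : EuclideanSpace ℝ (Fin n), ‖b‖ = 1 → sectionVol p b ≤ sectionVol p a) ↔
        ∀ j, |a j| = 1 / √n) := by
  obtain ⟨η0, hη0, hη1, H⟩ := compare_small
  refine ⟨2 + η0, by linarith, fun p hp hp1 n hn a ha => ?_⟩
  obtain ⟨η, rfl⟩ : ∃ η, p = 2 + η := ⟨p - 2, by ring⟩
  have h0 : 0 < η := by linarith
  have h1 : η ≤ 1 := by linarith
  obtain ⟨hK, H⟩ := H η h0 (by linarith)
  have hn0 : (0 : ℝ) < n := by exact_mod_cast (by omega : 0 < n)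
  have hZ : 0 < ZZ η := by linarith [(ZZ_bounds h0 h1 hK).1]
  have hΓ : 0 < Real.Gamma (((n - 1 : ℕ) : ℝ) / (2 + η) + 1) :=
    Real.Gamma_pos_of_pos (by positivity)
  set c : ℝ := (2 * ZZ η) ^ n / Real.pi / Real.Gamma (((n - 1 : ℕ) : ℝ) / (2 + η) + 1) with hc
  have hc0 : 0 < c := by have := Real.pi_pos; positivity
  set J : EuclideanSpace ℝ (Fin n) → ℝ :=
    fun b => ∫ s in Ioi (0 : ℝ), ∏ j, GG η (b j ^ 2 * s ^ 2) with hJ
  set D : ℝ := ∫ s in Ioi (0 : ℝ), GG η (s ^ 2 / n) ^ n with hD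
  have hsum : ∀ b : EuclideanSpace ℝ (Fin n), ‖b‖ = 1 → ∑ j, b j ^ 2 = 1 := fun b hb => by
    rw [← EuclideanSpace.real_norm_sq_eq, hb, one_pow]
  have hV : ∀ b : EuclideanSpace ℝ (Fin n), ‖b‖ = 1 →
      sectionVol (2 + η) b = ENNReal.ofReal (c * J b) ∧ 0 ≤ c * J b := fun b hb => by
    have e := integral_eq h0 h1 hK b hb (H n hn _ (fun j => sq_nonneg (b j)) (hsum b hb)).1
    have e2 : c * J b = (∫ y : (ℝ ∙ b)ᗮ, ∏ j, Real.exp (-|(y : EuclideanSpace ℝ (Fin n)) j| ^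
        (2 + η))) / Real.Gamma (((n - 1 : ℕ) : ℝ) / (2 + η) + 1) := by
      rw [e, hc, hJ]; ring
    rw [e2]
    exact ⟨section_eq (by linarith) hn b hb,
      div_nonneg (integral_nonneg fun y => by positivity) hΓ.le⟩
  have hsq : ∀ t : ℝ, |t| = 1 / √n ↔ t ^ 2 = 1 / n := fun t => by
    rw [← sq_eq_sq₀ (abs_nonneg t) (by positivity), sq_abs, div_pow, Real.sq_sqrt hn0.le, one_pow]
  have hdiag : ∀ b : EuclideanSpace ℝ (Fin n), (∀ j, b j ^ 2 = 1 / n) → J b = D := fun b hb => by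
    simp only [hJ, hD, hb, Fin.prod_const, one_div_mul_eq_div]
  have hlt : ∀ b : EuclideanSpace ℝ (Fin n), ‖b‖ = 1 → (∃ j, b j ^ 2 ≠ 1 / n) → J b < D :=
    fun b hb => (H n hn _ (fun j => sq_nonneg (b j)) (hsum b hb)).2
  simp only [hsq]
  constructor
  · intro hmax
    by_contra hne
    push Not at hne
    let d : EuclideanSpace ℝ (Fin n) := toLp 2 fun _ => 1 / √n
    have hd : ∀ j, d j ^ 2 = 1 / n := fun j => (hsq _).1 (abs_of_pos (by positivity))
    have hd1 : ‖d‖ = 1 := by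
      rw [← sq_eq_sq₀ (norm_nonneg _) zero_le_one, EuclideanSpace.real_norm_sq_eq]
      simp only [hd, Finset.sum_const, Finset.card_univ, Fintype.card_fin, nsmul_eq_mul]
      field_simp
    have h2 := hmax d hd1
    rw [(hV d hd1).1, (hV a ha).1, ENNReal.ofReal_le_ofReal_iff (hV a ha).2, hdiag d hd] at h2
    exact absurd (le_of_mul_le_mul_left h2 hc0) (not_le.2 (hlt a ha hne))
  · intro h b hb
    rw [(hV b hb).1, (hV a ha).1, hdiag a h]
    refine ENNReal.ofReal_le_ofReal (mul_le_mul_of_nonneg_left ?_ hc0.le)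
    by_cases hb' : ∀ j, b j ^ 2 = 1 / n
    · exact (hdiag b hb').le
    · push Not at hb'
      exact (hlt b hb hb').le

end Pool.Agent.MP_39fec4_gt

end

section

set_option autoImplicit false

namespace Pool.Agent.MP_39fec4_gt.Ball

open MeasureTheory Set Filter Topology Real WithLp

variable {p : ℝ}

/-- The Fourier integral proportional to the volume of the section. -/
noncomputable def JJ (p : ℝ) {n : ℕ} (a : EuclideanSpace ℝ (Fin n)) : ℝ :=
  ∫ s in Ioi (0 : ℝ), ∏ j, ff p (|a j| * s)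

theorem vol_le_iff (hp : 2 < p) {n : ℕ} (hn : 2 ≤ n) {a b : EuclideanSpace ℝ (Fin n)}
    (ha : ‖a‖ = 1) (hb : ‖b‖ = 1) : sectionVol p b ≤ sectionVol p a ↔ JJ p b ≤ JJ p a := by
  have hZ := Zp_pos hp
  have hπ := Real.pi_pos
  have hΓ : 0 < Real.Gamma (((n - 1 : ℕ) : ℝ) / p + 1) := Real.Gamma_pos_of_pos (by positivity)
  rw [section_eq (by linarith) hn a ha, section_eq (by linarith) hn b hb,
    ENNReal.ofReal_le_ofReal_iff (div_nonneg (integral_nonneg fun y => by positivity) hΓ.le),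
    div_le_div_iff_of_pos_right hΓ, II_eq hp a ha, II_eq hp b hb,
    mul_le_mul_iff_right₀ (by positivity)]
  rfl

theorem sum_sq {n : ℕ} {b : EuclideanSpace ℝ (Fin n)} (hb : ‖b‖ = 1) : ∑ j, |b j| ^ 2 = 1 := by
  simp only [sq_abs]
  rw [← EuclideanSpace.real_norm_sq_eq, hb, one_pow]

theorem abs_eq_iff (t : ℝ) : |t| = 1 / √2 ↔ |t| ^ 2 = 1 / 2 := by
  rw [← sq_eq_sq₀ (abs_nonneg t) (by positivity), div_pow, Real.sq_sqrt (by norm_num), one_pow]

theorem JJ_ball (hp : 2 < p) {n : ℕ} {a : EuclideanSpace ℝ (Fin n)} (ha : ‖a‖ = 1) {i j : Fin n}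
    (hij : i ≠ j) (hi : |a i| = 1 / √2) (hj : |a j| = 1 / √2) : JJ p a = √2 * I2 p := by
  have hs := sum_sq ha
  have mj : j ∈ Finset.univ.erase i := Finset.mem_erase.2 ⟨hij.symm, Finset.mem_univ j⟩
  rw [← Finset.add_sum_erase _ _ (Finset.mem_univ i), ← Finset.add_sum_erase _ _ mj,
    (abs_eq_iff _).1 hi, (abs_eq_iff _).1 hj] at hs
  have h0 : ∀ k ∈ (Finset.univ.erase i).erase j, |a k| = 0 := fun k hk => by
    have := (Finset.sum_eq_zero_iff_of_nonneg (s := (Finset.univ.erase i).erase j)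
      (f := fun k => |a k| ^ 2) (fun k _ => sq_nonneg _)).1 (by linarith) k hk
    exact pow_eq_zero_iff two_ne_zero |>.1 this
  have e := integral_scale (fun x => ff p x ^ 2) (α := 1 / √2) (by positivity)
  rw [integral_ff_sq hp, ← I2, div_div_eq_mul_div, div_one, mul_comm] at e
  rw [← e, JJ]
  congr 1; funext s
  rw [← Finset.mul_prod_erase _ _ (Finset.mem_univ i), ← Finset.mul_prod_erase _ _ mj, hi, hj,
    Finset.prod_eq_one fun k hk => by rw [h0 k hk, zero_mul, ff_zero hp]]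
  ring

theorem exists_ball {n : ℕ} (hn : 2 ≤ n) : ∃ d : EuclideanSpace ℝ (Fin n), ‖d‖ = 1 ∧
    ∃ i j, i ≠ j ∧ |d i| = 1 / √2 ∧ |d j| = 1 / √2 := by
  have : Nontrivial (Fin n) := Fin.nontrivial_iff_two_le.2 hn
  obtain ⟨i, j, hij⟩ := exists_pair_ne (Fin n)
  refine ⟨toLp 2 fun k => if k = i ∨ k = j then 1 / √2 else 0, ?_, i, j, hij, ?_, ?_⟩
  · rw [← sq_eq_sq₀ (norm_nonneg _) zero_le_one, EuclideanSpace.real_norm_sq_eq,
      Finset.sum_eq_add_of_mem i j (Finset.mem_univ _) (Finset.mem_univ _) hij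
        fun k _ hk => by simp [hk.1, hk.2]]
    simp
    norm_num
  · simp
  · simp

theorem exists_diag (hp : 2 < p) (hD : 0 < DD (1 / p)) : ∃ n : ℕ, 2 ≤ n ∧
    ∃ d : EuclideanSpace ℝ (Fin n), ‖d‖ = 1 ∧ √2 * I2 p < JJ p d := by
  have k0 := kap2_pos hp
  have hπ := Real.pi_pos
  have sk : 0 < √(kap2 p) := Real.sqrt_pos.2 k0
  have H : √(kap2 p) * I2 p < √π / 2 := not_le.1 fun h => not_le.2 hD ((H_iff hp).2 h)
  set g : ℕ → ℝ → ℝ := fun m s =>
    max 0 (1 + -(kap2 p / 2 * s ^ 2) / ((2 * m + 2 : ℕ) : ℝ)) ^ (2 * m + 2) with hg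
  have cg : ∀ m, Continuous (g m) := fun m => by simp only [hg]; fun_prop
  have g0 : ∀ m s, 0 ≤ g m s := fun m s => by simp only [hg]; positivity
  have g1 : ∀ m s, g m s ≤ Real.exp (-(kap2 p / 2) * s ^ 2) := fun m s => by
    have h0 : (0 : ℝ) < ((2 * m + 2 : ℕ) : ℝ) := by positivity
    have : max 0 (1 + -(kap2 p / 2 * s ^ 2) / ((2 * m + 2 : ℕ) : ℝ)) ≤
        Real.exp (-(kap2 p / 2 * s ^ 2) / ((2 * m + 2 : ℕ) : ℝ)) :=
      max_le (Real.exp_pos _).le (by rw [add_comm]; exact Real.add_one_le_exp _)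
    refine (pow_le_pow_left₀ (le_max_left _ _) this _).trans_eq ?_
    rw [← Real.exp_nat_mul]; congr 1; field_simp
  have iE : IntegrableOn (fun s : ℝ => Real.exp (-(kap2 p / 2) * s ^ 2)) (Ioi 0) :=
    (integrable_exp_neg_mul_sq (by positivity)).integrableOn
  have tm : Tendsto (fun m : ℕ => 2 * m + 2) atTop atTop :=
    tendsto_atTop_mono (fun m => by simp only [id]; omega) tendsto_id
  have lim := tendsto_integral_of_dominated_convergence (μ := volume.restrict (Ioi (0 : ℝ)))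
    (F := g) (f := fun s => Real.exp (-(kap2 p / 2) * s ^ 2)) _
    (fun m => (cg m).aestronglyMeasurable) iE
    (fun m => Eventually.of_forall fun s => by
      rw [Real.norm_eq_abs, abs_of_nonneg (g0 m s)]; exact g1 m s)
    (Eventually.of_forall fun s => by
      have t1 := (Real.tendsto_one_add_div_pow_exp (-(kap2 p / 2 * s ^ 2))).comp tm
      have t2 := ((tendsto_const_div_atTop_nhds_zero_nat
        (-(kap2 p / 2 * s ^ 2))).const_add 1).comp tm
      rw [neg_mul]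
      refine t1.congr' ?_
      filter_upwards [t2.eventually (lt_mem_nhds (show (0 : ℝ) < 1 + 0 by norm_num))] with m hm
      simp only [hg, Function.comp] at hm ⊢
      rw [max_eq_right hm.le])
  have hlt : √2 * I2 p < ∫ s in Ioi (0 : ℝ), Real.exp (-(kap2 p / 2) * s ^ 2) := by
    rw [integral_gaussian_Ioi, div_div_eq_mul_div, Real.sqrt_div (by positivity),
      Real.sqrt_mul hπ.le, div_div, lt_div_iff₀ (by positivity)]
    have : 0 < √2 := by positivity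
    nlinarith
  obtain ⟨m, hm⟩ := (lim.eventually (lt_mem_nhds hlt)).exists
  have h0 : (0 : ℝ) < ((2 * m + 2 : ℕ) : ℝ) := by positivity
  have c0 : 0 < 1 / √((2 * m + 2 : ℕ) : ℝ) := by positivity
  have c2 : (1 / √((2 * m + 2 : ℕ) : ℝ)) ^ 2 = 1 / ((2 * m + 2 : ℕ) : ℝ) := by
    rw [div_pow, Real.sq_sqrt h0.le, one_pow]
  refine ⟨2 * m + 2, by omega, toLp 2 fun _ => 1 / √((2 * m + 2 : ℕ) : ℝ), ?_, hm.trans_le ?_⟩
  · rw [← sq_eq_sq₀ (norm_nonneg _) zero_le_one, EuclideanSpace.real_norm_sq_eq]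
    simp only [c2, Finset.sum_const, Finset.card_univ, Fintype.card_fin, nsmul_eq_mul]
    field_simp
  · refine integral_mono (iE.mono' (cg m).aestronglyMeasurable (Eventually.of_forall fun s => by
      rw [Real.norm_eq_abs, abs_of_nonneg (g0 m s)]; exact g1 m s))
      (int_prod hp Finset.univ _ (Finset.mem_univ (⟨0, by omega⟩ : Fin (2 * m + 2)))
        (abs_pos.2 c0.ne')) fun s => ?_
    simp only [hg, abs_of_pos c0, Fin.prod_const]
    have ev : Even (2 * m + 2) := ⟨m + 1, by ring⟩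
    rw [← ev.pow_abs (ff p _)]
    refine pow_le_pow_left₀ (le_max_left _ _) (max_le (abs_nonneg _) ?_) _
    refine le_trans (le_of_eq ?_) ((ff_lo hp _).trans (le_abs_self _))
    rw [mul_pow, c2]; ring

theorem main : ∃ p₀ : ℝ, 26.26 < p₀ ∧ p₀ < 26.27 ∧
    3 * 4 ^ (1 / p₀) * Real.Gamma (1 + 1 / p₀) ^ 3 = π * Real.Gamma (1 + 3 / p₀) ∧
    ∀ p : ℝ, 2 < p → (p₀ ≤ p ↔ ∀ n : ℕ, 2 ≤ n → ∀ a : EuclideanSpace ℝ (Fin n), ‖a‖ = 1 →
      ((∀ b : EuclideanSpace ℝ (Fin n), ‖b‖ = 1 → sectionVol p b ≤ sectionVol p a) ↔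
        ∃ i j, i ≠ j ∧ |a i| = 1 / √2 ∧ |a j| = 1 / √2)) := by
  obtain ⟨q0, h1, h2, h3, h4⟩ := exists_root
  have q00 : 0 < q0 := lt_trans (by norm_num) h1
  have lo : 26.26 < 1 / q0 := by rwa [lt_one_div (by norm_num) q00]
  refine ⟨1 / q0, lo, by rwa [one_div_lt q00 (by norm_num)], ?_, fun p hp => ?_⟩
  · have e := exp_DD q00
    have g3 : 0 < Real.Gamma (1 + 3 * q0) := Real.Gamma_pos_of_pos (by positivity)
    have := Real.pi_pos
    rw [h3, Real.exp_zero, eq_div_iff (by positivity), one_mul] at e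
    rw [one_div_one_div, show 3 / (1 / q0) = 3 * q0 by field_simp, e]
  have p0 : 0 < p := by linarith
  have h5 : 1 / q0 ≤ p ↔ DD (1 / p) ≤ 0 := by
    rw [h4 (1 / p) (by positivity) (one_div_lt_one_div_of_lt (by norm_num) hp), one_div_le q00 p0]
  constructor
  · intro hle n hn a ha
    have hD := h5.1 hle
    have hlt : ∀ b : EuclideanSpace ℝ (Fin n), ‖b‖ = 1 →
        (¬∃ i j, i ≠ j ∧ |b i| = 1 / √2 ∧ |b j| = 1 / √2) → JJ p b < √2 * I2 p := fun b hb hne =>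
      compare (by linarith) hD hn (fun j => |b j|) (fun j => abs_nonneg _) (sum_sq hb)
        (by simpa only [abs_eq_iff] using hne)
    constructor
    · intro hmax
      by_contra hne
      obtain ⟨d, hd, i, j, hij, hi, hj⟩ := exists_ball hn
      have := (vol_le_iff hp hn ha hd).1 (hmax d hd)
      rw [JJ_ball hp hd hij hi hj] at this
      exact absurd (hlt a ha hne) (not_lt.2 this)
    · rintro ⟨i, j, hij, hi, hj⟩ b hb
      rw [vol_le_iff hp hn ha hb, JJ_ball hp ha hij hi hj]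
      by_cases hb' : ∃ i j, i ≠ j ∧ |b i| = 1 / √2 ∧ |b j| = 1 / √2
      · obtain ⟨i, j, hij, hi, hj⟩ := hb'
        exact (JJ_ball hp hb hij hi hj).le
      · exact (hlt b hb hb').le
  · intro h
    by_contra hlt
    obtain ⟨n, hn, d, hd, hJ⟩ := exists_diag hp (not_le.1 fun hD => hlt (h5.2 hD))
    obtain ⟨a, ha, i, j, hij, hi, hj⟩ := exists_ball hn
    have := (vol_le_iff hp hn ha hd).1 ((h n hn a ha).2 ⟨i, j, hij, hi, hj⟩ d hd)
    rw [JJ_ball hp ha hij hi hj] at this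
    exact absurd hJ (not_lt.2 this)

end Pool.Agent.MP_39fec4_gt.Ball

end
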