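import Pool.Agent.Mg.F39fec4.G46279a

set_option autoImplicit false

namespace Pool.Agent.MP_39fec4_gt

open MeasureTheory Set Finset

variable {G : ℝ → ℝ} {η c C τ0 ε : ℝ}

theorem abs_sub_le_of_deriv {f f' : ℝ → ℝ} {a b x y M : ℝ}
    (hf : ∀ z ∈ Icc a b, HasDerivAt f (f' z) z) (hM : ∀ z ∈ Icc a b, |f' z| ≤ M)
    (hx : x ∈ Icc a b) (hy : y ∈ Icc a b) : |f y - f x| ≤ M * |y - x| :=
  (convex_Icc a b).norm_image_sub_le_of_norm_hasDerivWithin_le
    (fun z hz => (hf z hz).hasDerivWithinAt) hM hx hy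

theorem taylor2 {f f1 f2 : ℝ → ℝ} {a b x y M : ℝ}
    (hf : ∀ z ∈ Icc a b, HasDerivAt f (f1 z) z) (hf1 : ∀ z ∈ Icc a b, HasDerivAt f1 (f2 z) z)
    (hM : ∀ z ∈ Icc a b, |f2 z| ≤ M) (hx : x ∈ Icc a b) (hy : y ∈ Icc a b) :
    |f y - f x - f1 x * (y - x)| ≤ M * (y - x) ^ 2 := by
  have hsub : Set.uIcc x y ⊆ Icc a b := Set.uIcc_subset_Icc hx hy
  have hM0 : 0 ≤ M := (abs_nonneg _).trans (hM x hx)
  have := abs_sub_le_of_deriv (f := fun z => f z - f1 x * z) (f' := fun z => f1 z - f1 x)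
    (a := min x y) (b := max x y) (x := x) (y := y) (M := M * |y - x|)
    (fun z hz => (hf z (hsub hz)).sub (by simpa using (hasDerivAt_id z).const_mul (f1 x)))
    (fun z hz => by
      refine (abs_sub_le_of_deriv hf1 hM hx (hsub hz)).trans ?_
      exact mul_le_mul_of_nonneg_left (abs_sub_left_of_mem_uIcc hz) hM0)
    ⟨min_le_left _ _, le_max_left _ _⟩ ⟨min_le_right _ _, le_max_right _ _⟩
  have e : f y - f x - f1 x * (y - x) = f y - f1 x * y - (f x - f1 x * x) := by ring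
  rw [e, ← sq_abs, sq, ← mul_assoc]
  exact this

/-- Near the diagonal, beyond the main region. -/
theorem Pack.near (h : Pack G η c C τ0 ε) (hτ : 6 ≤ τ0) (hε : 0 < ε) (h16 : ε ≤ 1 / 16) {n : ℕ}
    (hn : 2 ≤ n) (t : Fin n → ℝ) (hs : ∑ j, t j = 1)
    (hnear : ∀ j, |t j - 1 / n| ≤ 1 / 19 / n) {s : ℝ} (hs0 : 0 < s)
    (hbig : 19 / 20 * τ0 ≤ s ^ 2 / n) :
    ∏ j, G (t j * s ^ 2) ≤ G (s ^ 2 / n) ^ n +
      128 * ε ^ 2 * (∑ j, (t j - 1 / n) ^ 2) / s ^ 2 := by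
  have hn0 : 0 < n := by omega
  have hn' : (0 : ℝ) < n := by exact_mod_cast hn0
  have hn2 : (2 : ℝ) ≤ n := by exact_mod_cast hn
  set V := ∑ j, (t j - 1 / n) ^ 2 with hV
  have hV0 : 0 ≤ V := Finset.sum_nonneg fun _ _ => sq_nonneg _
  obtain ⟨G1, G2, hd, hb⟩ := h.tail
  set u := s ^ 2 / n with hu
  have hu0 : 0 < u := by positivity
  have hI : ∀ z ∈ Icc (18 / 19 * u) (20 / 19 * u), 9 / 10 * τ0 ≤ z ∧ u / 2 ≤ z := fun z hz =>
    ⟨by linarith [hz.1], by linarith [hz.1]⟩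
  have huI : u ∈ Icc (18 / 19 * u) (20 / 19 * u) := ⟨by linarith, by linarith⟩
  have hdiff : ∀ j, t j * s ^ 2 - u = (t j - 1 / n) * s ^ 2 := fun j => by rw [hu]; ring
  have hτI : ∀ j, t j * s ^ 2 ∈ Icc (18 / 19 * u) (20 / 19 * u) := fun j => by
    have h1 := abs_le.1 (hnear j)
    have h2 := hdiff j
    have h3 : 1 / 19 / n * s ^ 2 = u / 19 := by rw [hu]; ring
    have h4 := mul_le_mul_of_nonneg_right h1.1 (sq_nonneg s)
    have h5 := mul_le_mul_of_nonneg_right h1.2 (sq_nonneg s)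
    constructor <;> linarith
  have hd1 : ∀ z ∈ Icc (18 / 19 * u) (20 / 19 * u), HasDerivAt G (G1 z) z := fun z hz =>
    (hd z (by linarith [(hI z hz).2])).1
  have hd2 : ∀ z ∈ Icc (18 / 19 * u) (20 / 19 * u), HasDerivAt G1 (G2 z) z := fun z hz =>
    (hd z (by linarith [(hI z hz).2])).2
  have hM2 : ∀ z ∈ Icc (18 / 19 * u) (20 / 19 * u), |G2 z| ≤ 4 * ε / u ^ 2 := fun z hz => by
    have h1 := (hb z (hI z hz).1).2.2
    have h2 : (u / 2) ^ 2 ≤ z ^ 2 := by gcongr; exact (hI z hz).2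
    have h3 := mul_le_mul_of_nonneg_right h2 (abs_nonneg (G2 z))
    rw [le_div_iff₀ (by positivity)]; linarith
  have hM1 : ∀ z ∈ Icc (18 / 19 * u) (20 / 19 * u), |G1 z| ≤ √(8 * ε ^ 2 / u ^ 3) := fun z hz => by
    have h1 := (hb z (hI z hz).1).2.1
    have h2 : (u / 2) ^ 3 ≤ z ^ 3 := by gcongr; exact (hI z hz).2
    have h3 := mul_le_mul_of_nonneg_right h2 (sq_nonneg (G1 z))
    refine Real.abs_le_sqrt ?_
    rw [le_div_iff₀ (by positivity)]; linarith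
  have hA : ∑ j, (G (t j * s ^ 2) - G u) ^ 2 ≤ 8 * ε ^ 2 / u ^ 3 * s ^ 4 * V := by
    rw [hV, Finset.mul_sum]
    refine Finset.sum_le_sum fun j _ => ?_
    have h1 := abs_sub_le_of_deriv hd1 hM1 huI (hτI j)
    have h2 := pow_le_pow_left₀ (abs_nonneg _) h1 2
    rw [sq_abs, mul_pow, Real.sq_sqrt (by positivity), sq_abs, hdiff] at h2
    refine h2.trans (le_of_eq (by ring))
  have hB : |∑ j, (G (t j * s ^ 2) - G u)| ≤ 4 * ε / u ^ 2 * s ^ 4 * V := by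
    have e : ∑ j, (G (t j * s ^ 2) - G u) =
        ∑ j, (G (t j * s ^ 2) - G u - G1 u * (t j * s ^ 2 - u)) := by
      have : ∑ j, G1 u * (t j * s ^ 2 - u) = 0 := by
        rw [← Finset.mul_sum, Finset.sum_sub_distrib, ← Finset.sum_mul, hs]
        simp only [Finset.sum_const, Finset.card_univ, Fintype.card_fin, nsmul_eq_mul]
        rw [hu]; field_simp; ring
      rw [Finset.sum_sub_distrib (f := fun j => G (t j * s ^ 2) - G u), this, sub_zero]
    rw [e, hV, Finset.mul_sum]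
    refine (Finset.abs_sum_le_sum_abs _ _).trans (Finset.sum_le_sum fun j _ => ?_)
    refine (taylor2 hd1 hd2 hM2 huI (hτI j)).trans (le_of_eq ?_)
    rw [hdiff]; ring
  have hP := prod_sub_pow_le hn (fun j => G (t j * s ^ 2)) (G u) ε hε
    (fun j => h.tail1 hτ (hI _ (hτI j)).1) (h.tail1 hτ (hI _ huI).1)
  have hw : |G u| ≤ ε / u := by
    rw [le_div_iff₀ hu0, mul_comm]; exact h.tail0 (hI _ huI).1
  have h4 := pow_four_mul_le hn hε.le h16
  have he : 0 ≤ ε ^ (n - 2) := by positivity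
  have b1 : |G u| * ε ^ (n - 2) * |∑ j, (G (t j * s ^ 2) - G u)| ≤
      ε / u * ε ^ (n - 2) * (4 * ε / u ^ 2 * s ^ 4 * V) := by gcongr
  have b2 : ε ^ (n - 2) * (n * ∑ j, (G (t j * s ^ 2) - G u) ^ 2) / 2 ≤
      ε ^ (n - 2) * (n * (8 * ε ^ 2 / u ^ 3 * s ^ 4 * V)) / 2 := by gcongr
  have e1 : ε / u * ε ^ (n - 2) * (4 * ε / u ^ 2 * s ^ 4 * V) =
      4 * (n ^ 4 * ε ^ (n - 2)) * (1 / n) * (ε ^ 2 * V / s ^ 2) := by rw [hu]; field_simp
  have e2 : ε ^ (n - 2) * (n * (8 * ε ^ 2 / u ^ 3 * s ^ 4 * V)) / 2 =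
      4 * (n ^ 4 * ε ^ (n - 2)) * (ε ^ 2 * V / s ^ 2) := by rw [hu]; field_simp; ring
  have b3 : 4 * (n ^ 4 * ε ^ (n - 2)) * (1 / n) * (ε ^ 2 * V / s ^ 2) ≤
      4 * 16 * 1 * (ε ^ 2 * V / s ^ 2) := by
    gcongr
    rw [div_le_one hn']; linarith
  have b4 : 4 * (n ^ 4 * ε ^ (n - 2)) * (ε ^ 2 * V / s ^ 2) ≤ 4 * 16 * (ε ^ 2 * V / s ^ 2) := by
    gcongr
  have e3 : 128 * ε ^ 2 * V / s ^ 2 = 128 * (ε ^ 2 * V / s ^ 2) := by ring
  linarith

/-- Far from the diagonal with all weights at most one half. -/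
theorem Pack.farB (h : Pack G η c C τ0 ε) (hτ : 6 ≤ τ0) (hε : 0 < ε) (h16 : ε ≤ 1 / 16) {n : ℕ}
    (t : Fin n → ℝ) (ht : ∀ j, 0 ≤ t j) (hs : ∑ j, t j = 1) {T : ℝ} (hT : ∀ j, t j ≤ T)
    (hT2 : T ≤ 1 / 2) {s : ℝ} (hs0 : 0 < s) (hbig : τ0 ≤ T * s ^ 2) :
    ∏ j, G (t j * s ^ 2) ≤ (120 * Real.exp (-τ0 / 3) + 8 * ε ^ 2) * T ^ 2 / s ^ 2 := by
  have hT0 : 0 < T := by
    by_contra hh
    have : T * s ^ 2 ≤ 0 := mul_nonpos_of_nonpos_of_nonneg (not_lt.1 hh) (sq_nonneg _)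
    linarith
  have hA := Real.geom_mean_le_arith_mean_weighted (Finset.univ : Finset (Fin n)) t
    (fun j => |G (t j * s ^ 2)| ^ (1 / t j)) (fun j _ => ht j) hs
    (fun j _ => Real.rpow_nonneg (abs_nonneg _) _)
  have h1 : ∏ j, G (t j * s ^ 2) ≤ ∏ j, (|G (t j * s ^ 2)| ^ (1 / t j)) ^ t j := by
    refine (le_abs_self _).trans ?_
    rw [Finset.abs_prod]
    refine Finset.prod_le_prod (fun _ _ => abs_nonneg _) fun j _ => ?_
    rcases (ht j).eq_or_lt with h0 | h0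
    · rw [← h0, Real.rpow_zero]; exact h.absle _
    · rw [← Real.rpow_mul (abs_nonneg _), one_div, inv_mul_cancel₀ h0.ne', Real.rpow_one]
  have hE : Real.exp (-s ^ 2 / 5) ≤ 120 * Real.exp (-τ0 / 3) * T ^ 2 / s ^ 2 := by
    have a1 : Real.exp (-s ^ 2 / 5) = Real.exp (-s ^ 2 / 6) * Real.exp (-(s ^ 2 / 30)) := by
      rw [← Real.exp_add]; congr 1; ring
    have a2 : Real.exp (-(s ^ 2 / 30)) ≤ 30 / s ^ 2 := by
      have := mul_exp_neg_le (y := s ^ 2 / 30)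
      rw [le_div_iff₀ (by positivity)]; linarith
    have a3 : Real.exp (-s ^ 2 / 6) ≤ Real.exp (-τ0 / 3) * (4 * T ^ 2) := by
      have b0 : 2 ≤ 1 / T := by rw [le_div_iff₀ hT0]; linarith
      have b1 : τ0 * (1 / T) ≤ s ^ 2 := by rw [mul_one_div, div_le_iff₀ hT0]; linarith
      have b2 : Real.exp (-s ^ 2 / 6) ≤ Real.exp (-τ0 / 3) * Real.exp (-((1 / T - 2) / 2)) ^ 2 := by
        rw [← Real.exp_nat_mul, ← Real.exp_add]
        apply Real.exp_le_exp.2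
        push_cast
        nlinarith
      have b3 : Real.exp (-((1 / T - 2) / 2)) ≤ 2 * T := by
        rw [Real.exp_neg, inv_le_comm₀ (Real.exp_pos _) (by positivity)]
        have := Real.add_one_le_exp ((1 / T - 2) / 2)
        have e : (2 * T)⁻¹ = (1 / T - 2) / 2 + 1 := by field_simp; ring
        linarith
      refine b2.trans (mul_le_mul_of_nonneg_left ?_ (Real.exp_pos _).le)
      calc Real.exp (-((1 / T - 2) / 2)) ^ 2 ≤ (2 * T) ^ 2 := by gcongr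
        _ = 4 * T ^ 2 := by ring
    rw [a1]
    calc Real.exp (-s ^ 2 / 6) * Real.exp (-(s ^ 2 / 30)) ≤
        Real.exp (-τ0 / 3) * (4 * T ^ 2) * (30 / s ^ 2) := by gcongr
      _ = _ := by ring
  have h2 : ∀ j, t j * |G (t j * s ^ 2)| ^ (1 / t j) ≤
      t j * ((120 * Real.exp (-τ0 / 3) + 8 * ε ^ 2) * T ^ 2 / s ^ 2) := fun j => by
    rcases (ht j).eq_or_lt with h0 | h0
    · rw [← h0]; simp
    refine mul_le_mul_of_nonneg_left ?_ (ht j)
    have hv0 : 0 < 1 / t j := by positivity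
    have e : (120 * Real.exp (-τ0 / 3) + 8 * ε ^ 2) * T ^ 2 / s ^ 2 =
      120 * Real.exp (-τ0 / 3) * T ^ 2 / s ^ 2 + 8 * ε ^ 2 * T ^ 2 / s ^ 2 := by ring
    rw [e]
    rcases le_or_gt (t j * s ^ 2) τ0 with hm | hm
    · have hτ0 : 0 ≤ t j * s ^ 2 := by positivity
      rw [abs_of_nonneg (h.nonneg hτ0 hm)]
      have a1 := Real.rpow_le_rpow (h.nonneg hτ0 hm) (h.mainup _ hτ0 hm) hv0.le
      rw [← Real.exp_mul] at a1
      have a2 : -(t j * s ^ 2) / 5 * (1 / t j) = -s ^ 2 / 5 := by field_simp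
      rw [a2] at a1
      have : 0 ≤ 8 * ε ^ 2 * T ^ 2 / s ^ 2 := by positivity
      linarith
    · have hv : 2 ≤ 1 / t j := by rw [le_div_iff₀ h0]; linarith [hT j]
      have a1 := h.tail0 (τ := t j * s ^ 2) (by linarith)
      have a2 := h.tail1 hτ (τ := t j * s ^ 2) (by linarith)
      have a3 := cube_mul_rpow_le hv hε h16
      set y := |G (t j * s ^ 2)|
      have hy : 0 ≤ y := abs_nonneg _
      have a4 : y ^ (1 / t j) = y ^ (1 / t j - 1) * y := by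
        rw [← Real.rpow_add_one' hy (by linarith)]; congr 1; ring
      have a5 : y ^ (1 / t j - 1) ≤ ε ^ (1 / t j - 1) := Real.rpow_le_rpow hy a2 (by linarith)
      have a6 : y ≤ ε / (t j * s ^ 2) := by rw [le_div_iff₀ (by positivity)]; linarith
      have a7 : ε ^ (1 / t j - 1) ≤ 8 * ε * t j ^ 3 := by
        have := mul_le_mul_of_nonneg_right a3 (pow_pos h0 3).le
        have e : (1 / t j) ^ 3 * ε ^ (1 / t j - 1) * t j ^ 3 = ε ^ (1 / t j - 1) := by field_simp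
        linarith
      have a8 : y ^ (1 / t j) ≤ 8 * ε ^ 2 * T ^ 2 / s ^ 2 := by
        rw [a4]
        calc y ^ (1 / t j - 1) * y ≤ (8 * ε * t j ^ 3) * (ε / (t j * s ^ 2)) :=
              mul_le_mul (a5.trans a7) a6 hy (by positivity)
          _ = 8 * ε ^ 2 * t j ^ 2 / s ^ 2 := by field_simp
          _ ≤ 8 * ε ^ 2 * T ^ 2 / s ^ 2 := by gcongr; exact hT j
      have : 0 ≤ 120 * Real.exp (-τ0 / 3) * T ^ 2 / s ^ 2 := by positivity
      linarith
  refine h1.trans (hA.trans ((Finset.sum_le_sum fun j _ => h2 j).trans ?_))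
  rw [← Finset.sum_mul, hs, one_mul]

theorem prod_le_abs_single {n : ℕ} (y : Fin n → ℝ) (hy : ∀ j, |y j| ≤ 1) (i : Fin n) :
    ∏ j, y j ≤ |y i| := by
  refine (le_abs_self _).trans ?_
  rw [Finset.abs_prod, ← Finset.mul_prod_erase _ _ (Finset.mem_univ i)]
  exact mul_le_of_le_one_right (abs_nonneg _)
    (Finset.prod_le_one (fun _ _ => abs_nonneg _) fun j _ => hy j)

theorem prod_le_abs_pair {n : ℕ} (y : Fin n → ℝ) (hy : ∀ j, |y j| ≤ 1) {i k : Fin n} (hik : k ≠ i) :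
    ∏ j, y j ≤ |y i| * |y k| := by
  refine (le_abs_self _).trans ?_
  rw [Finset.abs_prod, ← Finset.mul_prod_erase _ _ (Finset.mem_univ i),
    ← Finset.mul_prod_erase _ _ (Finset.mem_erase.2 ⟨hik, Finset.mem_univ k⟩), ← mul_assoc]
  exact mul_le_of_le_one_right (by positivity)
    (Finset.prod_le_one (fun _ _ => abs_nonneg _) fun j _ => hy j)

/-- One large weight, very large argument. -/
theorem Pack.farC3 (h : Pack G η c C τ0 ε) (hτ : 6 ≤ τ0) {n : ℕ} (t : Fin n → ℝ) {i : Fin n}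
    (hi : 1 / 2 < t i) {s : ℝ} (hs0 : 0 < s) (hbig : 2 * τ0 ≤ s ^ 2) :
    |G (t i * s ^ 2)| ≤ 2 * ε / s ^ 2 := by
  have a0 : s ^ 2 / 2 ≤ t i * s ^ 2 := by nlinarith [sq_nonneg s]
  have a1 := h.tail0 (τ := t i * s ^ 2) (by linarith)
  have a2 := mul_le_mul_of_nonneg_right a0 (abs_nonneg (G (t i * s ^ 2)))
  rw [le_div_iff₀ (by positivity)]; linarith

theorem other_le_half {n : ℕ} (t : Fin n → ℝ) (ht : ∀ j, 0 ≤ t j) (hs : ∑ j, t j = 1) {i j : Fin n}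
    (hi : 1 / 2 < t i) (hj : j ≠ i) : t j ≤ 1 / 2 := by
  have h1 := Finset.add_sum_erase (Finset.univ) t (Finset.mem_univ i)
  have h2 : t j ≤ ∑ k ∈ Finset.univ.erase i, t k :=
    Finset.single_le_sum (fun k _ => ht k) (Finset.mem_erase.2 ⟨hj, Finset.mem_univ j⟩)
  linarith

/-- One large weight, large argument. -/
theorem Pack.farC2 (h : Pack G η c C τ0 ε) (hτ : 6 ≤ τ0) (hε : 0 < ε) (hC : 0 ≤ C)
    (hsm : 8 * C * η ^ 2 * τ0 * Real.exp (τ0 / 4) ≤ 1) {n : ℕ} (t : Fin n → ℝ)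
    (ht : ∀ j, 0 ≤ t j) (hs : ∑ j, t j = 1) {i : Fin n}
    (hi : 1 / 2 < t i) {s : ℝ} (hs0 : 0 < s) (hbig : 2 * τ0 ≤ s ^ 2) :
    ∏ j, G (t j * s ^ 2) ≤ (10800 * Real.exp (-τ0 / 3) + 2 * ε ^ 2) / s ^ 2 + C * η ^ 2 := by
  have e : (10800 * Real.exp (-τ0 / 3) + 2 * ε ^ 2) / s ^ 2 =
      10800 * Real.exp (-τ0 / 3) / s ^ 2 + 2 * ε ^ 2 / s ^ 2 := by ring
  rw [e]
  have p1 : 0 ≤ 10800 * Real.exp (-τ0 / 3) / s ^ 2 := by positivity
  have p2 : 0 ≤ 2 * ε ^ 2 / s ^ 2 := by positivity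
  have p3 : 0 ≤ C * η ^ 2 := by positivity
  by_cases hall : ∀ j, j ≠ i → t j * s ^ 2 ≤ τ0
  · obtain ⟨H, hH, hH1, hH2⟩ := h.glob
    have hτi : s ^ 2 / 2 ≤ t i * s ^ 2 := by nlinarith [sq_nonneg s]
    have hti : t i ≤ 1 := hs ▸ Finset.single_le_sum (fun k _ => ht k) (Finset.mem_univ i)
    have hτi' : t i * s ^ 2 ≤ s ^ 2 := by nlinarith [sq_nonneg s]
    have hH0 : H 0 = 1 := by
      have := hH1 0 le_rfl
      simp only [zero_div, Real.exp_zero, h.zero, mul_zero, zero_mul, abs_nonpos_iff] at this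
      linarith
    have hHone : H 1 ≤ 3 := by
      have a1 := (abs_le.1 (hH1 1 zero_le_one)).1
      have a2 := h.mainup2 1 zero_le_one (by linarith)
      have a3 : C * η ^ 2 * 1 * Real.exp (1 / 4) ≤ C * η ^ 2 * τ0 * Real.exp (τ0 / 4) := by
        gcongr <;> linarith
      linarith
    have hHτ : H (t i * s ^ 2) ≤ 3 * s ^ 2 := by
      set x := t i * s ^ 2
      have hx : 1 ≤ x := by linarith
      have hcc := hH.2
      have := hcc (Set.mem_Ici.2 (le_refl (0 : ℝ))) (Set.mem_Ici.2 (by linarith : 0 ≤ x))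
        (by rw [sub_nonneg, div_le_one (by linarith)]; exact hx : 0 ≤ 1 - 1 / x)
        (by positivity : 0 ≤ 1 / x) (by ring)
      simp only [smul_eq_mul, mul_zero, zero_add, hH0] at this
      rw [one_div_mul_cancel (by linarith)] at this
      have a1 : 0 ≤ 1 - 1 / x := by rw [sub_nonneg, div_le_one (by linarith)]; exact hx
      have a2 : 1 / x * H x ≤ 3 := by linarith
      rw [one_div, inv_mul_le_iff₀ (by linarith)] at a2
      linarith
    have hP0 : 0 ≤ ∏ j ∈ Finset.univ.erase i, G (t j * s ^ 2) :=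
      Finset.prod_nonneg fun j hj => h.nonneg (mul_nonneg (ht j) (sq_nonneg _))
        (hall j (Finset.mem_erase.1 hj).1)
    have hP1 : ∏ j ∈ Finset.univ.erase i, G (t j * s ^ 2) ≤
        Real.exp (-(s ^ 2 - t i * s ^ 2) / 5) := by
      have : s ^ 2 - t i * s ^ 2 = ∑ j ∈ Finset.univ.erase i, t j * s ^ 2 := by
        rw [← Finset.sum_mul]
        have := Finset.add_sum_erase (Finset.univ) t (Finset.mem_univ i)
        rw [hs] at this
        rw [← sub_eq_iff_eq_add'.2 this.symm]; ring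
      rw [this, ← Finset.sum_neg_distrib, Finset.sum_div, Real.exp_sum]
      exact Finset.prod_le_prod (fun j hj => h.nonneg (mul_nonneg (ht j) (sq_nonneg _))
        (hall j (Finset.mem_erase.1 hj).1)) fun j hj => h.mainup _
          (mul_nonneg (ht j) (sq_nonneg _)) (hall j (Finset.mem_erase.1 hj).1)
    have hP2 : Real.exp (-(s ^ 2 - t i * s ^ 2) / 5) ≤ 1 := by
      rw [Real.exp_le_one_iff]; linarith
    have hGi : G (t i * s ^ 2) ≤ Real.exp (-(t i * s ^ 2) / 5) * (3 * s ^ 2) + C * η ^ 2 := by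
      refine (hH2 _ (by linarith)).trans (add_le_add ?_ le_rfl)
      calc Real.exp (-(t i * s ^ 2) / 4) * H (t i * s ^ 2) ≤
          Real.exp (-(t i * s ^ 2) / 4) * (3 * s ^ 2) := by gcongr
        _ ≤ _ := by gcongr Real.exp ?_ * _; linarith
    rw [← Finset.mul_prod_erase _ _ (Finset.mem_univ i)]
    have a1 := mul_le_mul_of_nonneg_right hGi hP0
    have a2 : Real.exp (-(t i * s ^ 2) / 5) * (3 * s ^ 2) *
        ∏ j ∈ Finset.univ.erase i, G (t j * s ^ 2) ≤ 10800 * Real.exp (-τ0 / 3) / s ^ 2 := by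
      calc _ ≤ Real.exp (-(t i * s ^ 2) / 5) * (3 * s ^ 2) *
            Real.exp (-(s ^ 2 - t i * s ^ 2) / 5) := by gcongr
        _ = 3 * s ^ 2 * (Real.exp (-s ^ 2 / 6) * Real.exp (-(s ^ 2 / 30))) := by
            rw [mul_right_comm, ← Real.exp_add, ← Real.exp_add, mul_comm]; congr 2; ring
        _ = 2700 * Real.exp (-s ^ 2 / 6) * ((s ^ 2 / 30) ^ 2 * Real.exp (-(s ^ 2 / 30))) / s ^ 2 := by
            field_simp; ring
        _ ≤ 2700 * Real.exp (-τ0 / 3) * 4 / s ^ 2 := by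
            gcongr 2700 * Real.exp ?_ * ?_ / _
            · linarith
            · exact sq_mul_exp_neg_le (by positivity)
        _ = _ := by ring
    have a3 := mul_le_mul_of_nonneg_left (hP1.trans hP2) p3
    rw [add_mul] at a1
    linarith
  · push Not at hall
    obtain ⟨k, hk, hk'⟩ := hall
    have a1 := prod_le_abs_pair (fun j => G (t j * s ^ 2)) (fun j => h.absle _) hk
    have a2 := h.farC3 hτ t hi hs0 hbig
    have a3 := h.tail1 hτ (τ := t k * s ^ 2) (by linarith)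
    have a4 : |G (t i * s ^ 2)| * |G (t k * s ^ 2)| ≤ 2 * ε / s ^ 2 * ε := by gcongr
    have e : 2 * ε / s ^ 2 * ε = 2 * ε ^ 2 / s ^ 2 := by ring
    linarith

end Pool.Agent.MP_39fec4_gt
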